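import Pool.Agent.Lib.MP_3b0e0c_al.S.L1C0
import Pool.Agent.Lib.MP_3b0e0c_al.S.L1C1
import Pool.Agent.Lib.MP_3b0e0c_al.S.L1C2

namespace Pool.Agent.Lib.MP_3b0e0c_al.S.L1

theorem cf : (Nat.beq th.co.length [2, 33, 35, 42, 44, 45, 50, 53, 56, 57, 59, 62, 63, 65, 68, 71, 74, 77, 83, 226, 246, 251, 260, 265, 297, 359, 387, 396, 403, 406, 407, 423, 431, 434, 435, 500, 521, 528, 533, 534, 535, 551, 552, 562, 563, 564, 571, 580, 582, 584, 585, 586, 592, 606, 612, 710, 712, 713, 714, 745, 889, 981, 987, 1019, 1048, 1050, 1052, 1054, 1160, 1182, 1255, 1394, 1441, 1442, 1448, 1512, 1553, 1561, 1564, 1591, 1592, 1598, 1623, 1682, 1685, 1714, 1774, 1821, 1831, 1832, 1840, 1841, 1850, 1853, 1856, 1857, 1860, 1861, 1862, 1865, 1867, 1871, 1882, 1889, 1899, 1908, 1916, 1935, 1936, 1941, 1951, 1956, 1957, 1958, 1959, 1960, 1961, 1965, 1968, 1969, 1970, 1973, 1975, 2028, 2032, 2034, 2035, 2079, 2080, 2095, 2096,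 2100, 2101, 2102, 2103, 2104, 2105, 2106, 2107, 2108, 2114, 2115, 2124, 2125, 2126, 2127, 2128, 2129, 2130, 2131, 2132, 2133, 2134, 2135, 2136, 2137, 2138, 2139, 2140, 2141].length &&
    allL (fun p => Nat.blt p.2 2142 && isE (db.get p.2) p.1) (th.co.zip [2, 33, 35, 42, 44, 45, 50, 53, 56, 57, 59, 62, 63, 65, 68, 71, 74, 77, 83, 226, 246, 251, 260, 265, 297, 359, 387, 396, 403, 406, 407, 423, 431, 434, 435, 500, 521, 528, 533, 534, 535, 551, 552, 562, 563, 564, 571, 580, 582, 584, 585, 586, 592, 606, 612, 710, 712, 713, 714, 745, 889, 981, 987, 1019, 1048, 1050, 1052, 1054, 1160, 1182, 1255, 1394, 1441, 1442, 1448, 1512, 1553, 1561, 1564, 1591, 1592, 1598, 1623, 1682, 1685, 1714, 1774, 1821, 1831, 1832, 1840, 1841, 1850, 1853, 1856, 1857, 1860, 1861, 1862, 1865, 1867, 1871, 1882, 1889, 1899, 1908, 1916, 1935, 1936, 1941, 1951, 1956, 1957, 1958, 1959, 1960, 1961, 1965, 1968, 1969, 1970, 1973,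 1975, 2028, 2032, 2034, 2035, 2079, 2080, 2095, 2096, 2100, 2101, 2102, 2103, 2104, 2105, 2106, 2107, 2108, 2114, 2115, 2124, 2125, 2126, 2127, 2128, 2129, 2130, 2131, 2132, 2133, 2134, 2135, 2136, 2137, 2138, 2139, 2140, 2141])) = true := by
  decide +kernel

theorem valid {G : Type*} [Monoid G] (ht : ∀ t ∈ ths, Valid G t) : Valid G th := fun _ hh =>
  fin_ok (chk_ok hh ht _ _ c14
    (chk_ok hh ht _ _ c13
    (chk_ok hh ht _ _ c12
    (chk_ok hh ht _ _ c11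
    (chk_ok hh ht _ _ c10
    (chk_ok hh ht _ _ c9
    (chk_ok hh ht _ _ c8
    (chk_ok hh ht _ _ c7
    (chk_ok hh ht _ _ c6
    (chk_ok hh ht _ _ c5
    (chk_ok hh ht _ _ c4
    (chk_ok hh ht _ _ c3
    (chk_ok hh ht _ _ c2
    (chk_ok hh ht _ _ c1
    (chk_ok hh ht _ _ c0
    (fun _ h => absurd h (Nat.not_lt_zero _))))))))))))))))) _ _ cf

end Pool.Agent.Lib.MP_3b0e0c_al.S.L1
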