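import Pool.Agent.Lib.MP_3b0e0c_al.S.L4D

namespace Pool.Agent.Lib.MP_3b0e0c_al.S.L4

set_option maxRecDepth 100000 in
/-- Justifications. -/
noncomputable def J6 : List Js := [
.c (nat_lit 5) (nat_lit 0x7d60702e830234140ba0808d),
.i (nat_lit 2) (nat_lit 30) [((nat_lit 1), (nat_lit 1)), ((nat_lit 7), (nat_lit 1)), ((nat_lit 9), (nat_lit 1)), ((nat_lit 12), (nat_lit 1)), ((nat_lit 15), (nat_lit 1)), ((nat_lit 0x7e0), (nat_lit 2)), ((nat_lit 0x1cf1cf), (nat_lit 4)), ((nat_lit 0x5f8017e0), (nat_lit 6)), ((nat_lit 0x1c17e005f80705f8017e0), (nat_lit 14)), ((nat_lit 0x2417e005f80905f8017e0), (nat_lit 14))] (nat_lit 0x3e83e73e63e53e43653330ab0a508f),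
.c (nat_lit 10) (nat_lit 0xb80a7d4013ec009f6c04faa067d9022cb809c5c1811a0005d),
.c (nat_lit 12) (nat_lit 0x3079011f50081d8060f2023ea0103b00c1e4047d4020760183c808fa800734),
.c (nat_lit 2) (nat_lit 0x8fa800736),
.c (nat_lit 2) (nat_lit 0x4f5c0073a),
.c (nat_lit 5) (nat_lit 0x40f202076019f5004f840073c),
.c (nat_lit 4) (nat_lit 0x10790083b008fa80073e),
.c (nat_lit 3) (nat_lit 0x103c804fa80074a),
.c (nat_lit 4) (nat_lit 0x10790083b008fa8007c2),
.c (nat_lit 5) (nat_lit 0x5c01076001c58000b802716),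
.c (nat_lit 7) (nat_lit 0x9c5c000ba007e70138b8103b4040ba00003),
.c (nat_lit 4) (nat_lit 0x138b8001740ce2e0405d),
.c (nat_lit 17) (nat_lit 0x6083023f380820c00fce14083093f384020c1cfce0c30305041821f9c0c60604083013f380000c0810208081),
.c (nat_lit 0) (nat_lit 0),
.c (nat_lit 0) (nat_lit 0),
.i (nat_lit 2) (nat_lit 4) [((nat_lit 2), (nat_lit 1)), ((nat_lit 8), (nat_lit 1)), ((nat_lit 0x77c7), (nat_lit 3)), ((nat_lit 13), (nat_lit 1)), ((nat_lit 0), (nat_lit 0)), ((nat_lit 0x21f21f), (nat_lit 4)), ((nat_lit 0), (nat_lit 0)), ((nat_lit 0x3487cd21f21f21f), (nat_lit 10)), ((nat_lit 0x20d21f3487c87c87c83487cd21f21f21f), (nat_lit 22)), ((nat_lit 0x1df1cd21f3487c87c87c77c73487cd21f21f21f), (nat_lit 26))] (nat_lit 0x3fb3fa3f93d53f83f73833f60a8090),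
.c (nat_lit 5) (nat_lit 0x7f8070318303b4140c6080ed),
.i (nat_lit 2) (nat_lit 8) [((nat_lit 2), (nat_lit 1)), ((nat_lit 8), (nat_lit 1)), ((nat_lit 0x77c7), (nat_lit 3)), ((nat_lit 13), (nat_lit 1)), ((nat_lit 0), (nat_lit 0)), ((nat_lit 0x21f21f), (nat_lit 4)), ((nat_lit 0), (nat_lit 0)), ((nat_lit 0x3487cd21f21f21f), (nat_lit 10)), ((nat_lit 0x20d21f3487c87c87c83487cd21f21f21f), (nat_lit 22)), ((nat_lit 0x1df1cd21f3487c87c87c77c73487cd21f21f21f), (nat_lit 26))] (nat_lit 0x3fb3fa3f93d53f83f73833f60a8090),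
.c (nat_lit 17) (nat_lit 0x620110a009ff004ff6080ed03031839fec1842a0a0630807683818c281021206308076838204181da00063),
.i (nat_lit 2) (nat_lit 41) [((nat_lit 2), (nat_lit 1)), ((nat_lit 8), (nat_lit 1)), ((nat_lit 0x77c7), (nat_lit 3)), ((nat_lit 13), (nat_lit 1)), ((nat_lit 0), (nat_lit 0)), ((nat_lit 0x21f21f), (nat_lit 4)), ((nat_lit 0), (nat_lit 0)), ((nat_lit 0x3487cd21f21f21f), (nat_lit 10)), ((nat_lit 0x20d21f3487c87c87c83487cd21f21f21f), (nat_lit 22)), ((nat_lit 0x1df1cd21f3487c87c87c77c73487cd21f21f21f), (nat_lit 26))] (nat_lit 0x3fb3fa3f93d53f83f73833f60a8090),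
.c (nat_lit 17) (nat_lit 0x40800110a019ff8140b80c71604400829c5c100ba0c7fb0510a8483b4200c6160810307681018c04102000ed),
.c (nat_lit 3) (nat_lit 0xbe4040ba00003),
.c (nat_lit 5) (nat_lit 0x77020fe80815c0460200003),
.c (nat_lit 4) (nat_lit 0x127980015c0495e0005d),
.c (nat_lit 1) (nat_lit 0x4c3),
.c (nat_lit 0) (nat_lit 0),
.c (nat_lit 0) (nat_lit 0),
.c (nat_lit 0) (nat_lit 0),
.i (nat_lit 2) (nat_lit 30) [((nat_lit 2), (nat_lit 1)), ((nat_lit 7), (nat_lit 1)), ((nat_lit 6), (nat_lit 1)), ((nat_lit 0), (nat_lit 0)), ((nat_lit 11), (nat_lit 1)), ((nat_lit 20), (nat_lit 1)), ((nat_lit 0x2c72c7), (nat_lit 4)), ((nat_lit 0x94094), (nat_lit 4)), ((nat_lit 0x1c2502507094094), (nat_lit 10)), ((nat_lit 0x182502506094094), (nat_lit 10))] (nat_lit 0x4084074064054044034020a20a5090),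
.c (nat_lit 5) (nat_lit 0x5c014098092bc140ea0005d),
.c (nat_lit 2) (nat_lit 0xc12a04005),
.c (nat_lit 5) (nat_lit 0x27e10002e810f8404e4e00069),
.c (nat_lit 3) (nat_lit 0x8041040206005),
.c (nat_lit 8) (nat_lit 0x13a1801fa418e860a7e904002818e0c08faa020ed),
.c (nat_lit 0) (nat_lit 0),
.c (nat_lit 0) (nat_lit 0),
.c (nat_lit 0) (nat_lit 0),
.i (nat_lit 2) (nat_lit 6) [((nat_lit 9), (nat_lit 1)), ((nat_lit 0x3983), (nat_lit 3)), ((nat_lit 7), (nat_lit 1)), ((nat_lit 0x90e6409983), (nat_lit 7)), ((nat_lit 0x81f), (nat_lit 2)), ((nat_lit 0xe61e61c3), (nat_lit 6)), ((nat_lit 0xe6826803), (nat_lit 6)), ((nat_lit 0x2439879870c90e61e61c3), (nat_lit 14)), ((nat_lit 0xe60c90e61e61c32439879870c39832439879870c90e61e61c3), (nat_lit 34)), ((nat_lit 0x1c90e61e61c32439879870c72439879870c90e61e61c3), (nat_lit 30))] (nat_lit 0x41141040f40e40d40c40b0a52c10ab),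
.c (nat_lit 9) (nat_lit 0x2004024120380142c00a14115090798404540400a000f3),
.c (nat_lit 2) (nat_lit 0x390280071c),
.c (nat_lit 2) (nat_lit 0x490280071e),
.c (nat_lit 3) (nat_lit 0x1700419c0405c),
.c (nat_lit 0) (nat_lit 0),
.c (nat_lit 7) (nat_lit 0x10be4041fe002f90402e818dd40819e062f9),
.c (nat_lit 0) (nat_lit 0),
.c (nat_lit 3) (nat_lit 0x2820c105f206003),
.c (nat_lit 0) (nat_lit 0),
.c (nat_lit 0) (nat_lit 0),
.i (nat_lit 2) (nat_lit 14) [((nat_lit 8), (nat_lit 1)), ((nat_lit 2), (nat_lit 1)), ((nat_lit 0x7687), (nat_lit 3)), ((nat_lit 13), (nat_lit 1)), ((nat_lit 0x207687207687), (nat_lit 8)), ((nat_lit 0x70a21c2), (nat_lit 5)), ((nat_lit 0x881da1c81da1c2207687207687), (nat_lit 18)), ((nat_lit 0x81c28873481e21c2), (nat_lit 11)), ((nat_lit 0x881c28873481e21c20881c28873481e21c2), (nat_lit 24)), ((nat_lit 0x1da1c81c28873481e21c21da1c81c28873481e21c2), (nat_lit 28))] (nat_lit 0x41c41b41a4194184172f14160900a8),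
.c (nat_lit 9) (nat_lit 0x205c0017c020170100040a2f80141d80800c100ba0005d),
.c (nat_lit 2) (nat_lit 0x4e4200005),
.c (nat_lit 4) (nat_lit 0x10388000140445600007),
.c (nat_lit 0) (nat_lit 0),
.c (nat_lit 29) (nat_lit 0x622b022d88088ac00b62046790833c8381bc189a60a4d702332808144240de104d30726b8219e40c0de04051010378308ac14196085150311581032c04a2a00007011ac810324106b20a0c9),
.c (nat_lit 0) (nat_lit 0),
.i (nat_lit 2) (nat_lit 42) [((nat_lit 5), (nat_lit 1)), ((nat_lit 4), (nat_lit 1)), ((nat_lit 3), (nat_lit 1)), ((nat_lit 973), (nat_lit 2)), ((nat_lit 0x1472cc1851c6), (nat_lit 8)), ((nat_lit 10), (nat_lit 1)), ((nat_lit 0x1051cb3061471841472cc1851c6), (nat_lit 18)), ((nat_lit 0x285285), (nat_lit 4)), ((nat_lit 0x28f34a3cd), (nat_lit 6)), ((nat_lit 0xca14a143285285), (nat_lit 10))] (nat_lit 0x42342233642142041f33509309609f),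
.c (nat_lit 20) (nat_lit 0x40008010206a00e08c081ab0401b8090900e2fd060628282cc105fa060c5020598601bc2c1861408d090588402040400a00081),
.c (nat_lit 12) (nat_lit 0x1018338106e8080fc010e60103f80d078023e70141e8283f41019e00003),
.c (nat_lit 6) (nat_lit 0x11098040fc010010103f80d07800424),
.c (nat_lit 4) (nat_lit 0x103e8000040467a0005d),
.c (nat_lit 9) (nat_lit 0x5b50327181139c040ba040f50128c80001c046ce040f3),
.c (nat_lit 5) (nat_lit 0x4f302257808174047b600057),
.c (nat_lit 0) (nat_lit 0),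
.c (nat_lit 0) (nat_lit 0),
.c (nat_lit 0) (nat_lit 0),
.c (nat_lit 0) (nat_lit 0),
.i (nat_lit 2) (nat_lit 8) [((nat_lit 4), (nat_lit 1)), ((nat_lit 6), (nat_lit 1)), ((nat_lit 7), (nat_lit 1)), ((nat_lit 0x44e), (nat_lit 2)), ((nat_lit 0x490), (nat_lit 2)), ((nat_lit 20), (nat_lit 1)), ((nat_lit 0x192406490), (nat_lit 6)), ((nat_lit 0x114114), (nat_lit 4)), ((nat_lit 0x184504506114114), (nat_lit 10)), ((nat_lit 0x1c4504507114114), (nat_lit 10))] (nat_lit 0x42e42d42c42b42a4293b70a50a2096),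
.c (nat_lit 5) (nat_lit 0x85e070038302ac1400e080ab),
.i (nat_lit 2) (nat_lit 23) [((nat_lit 4), (nat_lit 1)), ((nat_lit 6), (nat_lit 1)), ((nat_lit 7), (nat_lit 1)), ((nat_lit 0x44e), (nat_lit 2)), ((nat_lit 0x490), (nat_lit 2)), ((nat_lit 20), (nat_lit 1)), ((nat_lit 0x192406490), (nat_lit 6)), ((nat_lit 0x114114), (nat_lit 4)), ((nat_lit 0x184504506114114), (nat_lit 10)), ((nat_lit 0x1c4504507114114), (nat_lit 10))] (nat_lit 0x42e42d42c42b42a4293b70a50a2096),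
.c (nat_lit 34) (nat_lit 0x80ac064de0426d0096c80c7b4084de0526d030f681c9bc104da0302b020f68149bc0c4da071ed04001824b64063da040030296c8181540a3da0243001218c0d0c204007041ed8282ac10b6606007021ed84015c040ae000ab),
.i (nat_lit 2) (nat_lit 28) [((nat_lit 4), (nat_lit 1)), ((nat_lit 6), (nat_lit 1)), ((nat_lit 7), (nat_lit 1)), ((nat_lit 0x44e), (nat_lit 2)), ((nat_lit 0x490), (nat_lit 2)), ((nat_lit 20), (nat_lit 1)), ((nat_lit 0x192406490), (nat_lit 6)), ((nat_lit 0x114114), (nat_lit 4)), ((nat_lit 0x184504506114114), (nat_lit 10)), ((nat_lit 0x1c4504507114114), (nat_lit 10))] (nat_lit 0x42e42d42c42b42a4293b70a50a2096),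
.c (nat_lit 34) (nat_lit 0x80b8064e6042710096d00c95c084e6052710312b81c9cc104e20302e0212b8149cc0c4e20725704001824b68064ae040030296d0181540a4ae0243001219c0d0c204007042578282ac10b6a0600702257840174040ba000ab),
.i (nat_lit 2) (nat_lit 30) [((nat_lit 4), (nat_lit 1)), ((nat_lit 6), (nat_lit 1)), ((nat_lit 7), (nat_lit 1)), ((nat_lit 0x44e), (nat_lit 2)), ((nat_lit 0x490), (nat_lit 2)), ((nat_lit 20), (nat_lit 1)), ((nat_lit 0x192406490), (nat_lit 6)), ((nat_lit 0x114114), (nat_lit 4)), ((nat_lit 0x184504506114114), (nat_lit 10)), ((nat_lit 0x1c4504507114114), (nat_lit 10))] (nat_lit 0x42e42d42c42b42a4293b70a50a2096),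
.c (nat_lit 7) (nat_lit 0x31778140ac0c3da0043583015c1413e08093),
.i (nat_lit 2) (nat_lit 32) [((nat_lit 4), (nat_lit 1)), ((nat_lit 6), (nat_lit 1)), ((nat_lit 7), (nat_lit 1)), ((nat_lit 0x44e), (nat_lit 2)), ((nat_lit 0x490), (nat_lit 2)), ((nat_lit 20), (nat_lit 1)), ((nat_lit 0x192406490), (nat_lit 6)), ((nat_lit 0x114114), (nat_lit 4)), ((nat_lit 0x184504506114114), (nat_lit 10)), ((nat_lit 0x1c4504507114114), (nat_lit 10))] (nat_lit 0x42e42d42c42b42a4293b70a50a2096),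
.c (nat_lit 98) (nat_lit 0xb68025b2122ca081778189cc0e4e20802b0493c82813c140920b2ef0621b03c7b41a5de0a2ef01a1bc290c2125b30807a83946418b660a0f50428c8196d418bbe0a093061b382827c141e6084f30a1b38583cc310ca2c4af170558b16d4541c628517114328802ac3c1c61c5170d003870d843c1c21c5950d04386826430156205950f043880d843c1321e0e10e2578821a43c1561c5b50d07186145c2cb66140f50928c84038c1ca2e123610a070858d9c301e61c5950d043870d84341321a0e10f2ef87024c3813e264e3122738892bc409c61e4e70e2578681744813e220931005587827c381261a0ab0c02b85827c28126120990804381001c040ae0005d),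
.c (nat_lit 3) (nat_lit 0x230040dc0408c),
.c (nat_lit 3) (nat_lit 0xbd4040ae00001),
.c (nat_lit 5) (nat_lit 0x6b0210c80801c045f600003),
.c (nat_lit 1) (nat_lit 651),
.c (nat_lit 13) (nat_lit 0x20d70005c83035c14172085430306b810cb404172000030105b81035404b2a00087),
.c (nat_lit 0) (nat_lit 0),
.c (nat_lit 0) (nat_lit 0),
.i (nat_lit 2) (nat_lit 8) [((nat_lit 2), (nat_lit 1)), ((nat_lit 4), (nat_lit 1)), ((nat_lit 6), (nat_lit 1)), ((nat_lit 9), (nat_lit 1)), ((nat_lit 11), (nat_lit 1)), ((nat_lit 0x44e), (nat_lit 2)), ((nat_lit 0x2c42c4), (nat_lit 4)), ((nat_lit 0x6d1591), (nat_lit 4)), ((nat_lit 0x11b4564446d1591), (nat_lit 10)), ((nat_lit 0x19b4564466d1591), (nat_lit 10))] (nat_lit 0x43f43e43d43c3b740343b0a2096090),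
.c (nat_lit 9) (nat_lit 0x2098021ae012200146ba080990706a83026404132000b7),
.i (nat_lit 2) (nat_lit 19) [((nat_lit 2), (nat_lit 1)), ((nat_lit 4), (nat_lit 1)), ((nat_lit 6), (nat_lit 1)), ((nat_lit 9), (nat_lit 1)), ((nat_lit 11), (nat_lit 1)), ((nat_lit 0x44e), (nat_lit 2)), ((nat_lit 0x2c42c4), (nat_lit 4)), ((nat_lit 0x6d1591), (nat_lit 4)), ((nat_lit 0x11b4564446d1591), (nat_lit 10)), ((nat_lit 0x19b4564466d1591), (nat_lit 10))] (nat_lit 0x43f43e43d43c3b740343b0a2096090),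
.c (nat_lit 11) (nat_lit 0x16500450c045940504c030d7010130068840804c8102640416e00099),
.i (nat_lit 2) (nat_lit 25) [((nat_lit 2), (nat_lit 1)), ((nat_lit 4), (nat_lit 1)), ((nat_lit 6), (nat_lit 1)), ((nat_lit 9), (nat_lit 1)), ((nat_lit 11), (nat_lit 1)), ((nat_lit 0x44e), (nat_lit 2)), ((nat_lit 0x2c42c4), (nat_lit 4)), ((nat_lit 0x6d1591), (nat_lit 4)), ((nat_lit 0x11b4564446d1591), (nat_lit 10)), ((nat_lit 0x19b4564466d1591), (nat_lit 10))] (nat_lit 0x43f43e43d43c3b740343b0a2096090),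
.c (nat_lit 2) (nat_lit 0x511000099),
.i (nat_lit 2) (nat_lit 29) [((nat_lit 2), (nat_lit 1)), ((nat_lit 4), (nat_lit 1)), ((nat_lit 6), (nat_lit 1)), ((nat_lit 9), (nat_lit 1)), ((nat_lit 11), (nat_lit 1)), ((nat_lit 0x44e), (nat_lit 2)), ((nat_lit 0x2c42c4), (nat_lit 4)), ((nat_lit 0x6d1591), (nat_lit 4)), ((nat_lit 0x11b4564446d1591), (nat_lit 10)), ((nat_lit 0x19b4564466d1591), (nat_lit 10))] (nat_lit 0x43f43e43d43c3b740343b0a2096090),
.c (nat_lit 18) (nat_lit 0x49bc041fc091ae0422081c6b8064de0426d0287f00d11a0a0990d02b8603542c132140b70904c8101d40410e000b7),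
.i (nat_lit 2) (nat_lit 30) [((nat_lit 2), (nat_lit 1)), ((nat_lit 4), (nat_lit 1)), ((nat_lit 6), (nat_lit 1)), ((nat_lit 9), (nat_lit 1)), ((nat_lit 11), (nat_lit 1)), ((nat_lit 0x44e), (nat_lit 2)), ((nat_lit 0x2c42c4), (nat_lit 4)), ((nat_lit 0x6d1591), (nat_lit 4)), ((nat_lit 0x11b4564446d1591), (nat_lit 10)), ((nat_lit 0x19b4564466d1591), (nat_lit 10))] (nat_lit 0x43f43e43d43c3b740343b0a2096090),
.c (nat_lit 8) (nat_lit 0x300a244081c602517031b0820384180ea00007),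
.i (nat_lit 2) (nat_lit 31) [((nat_lit 2), (nat_lit 1)), ((nat_lit 4), (nat_lit 1)), ((nat_lit 6), (nat_lit 1)), ((nat_lit 9), (nat_lit 1)), ((nat_lit 11), (nat_lit 1)), ((nat_lit 0x44e), (nat_lit 2)), ((nat_lit 0x2c42c4), (nat_lit 4)), ((nat_lit 0x6d1591), (nat_lit 4)), ((nat_lit 0x11b4564446d1591), (nat_lit 10)), ((nat_lit 0x19b4564466d1591), (nat_lit 10))] (nat_lit 0x43f43e43d43c3b740343b0a2096090),
.c (nat_lit 2) (nat_lit 0x512800099),
.i (nat_lit 2) (nat_lit 37) [((nat_lit 2), (nat_lit 1)), ((nat_lit 4), (nat_lit 1)), ((nat_lit 6), (nat_lit 1)), ((nat_lit 9), (nat_lit 1)), ((nat_lit 11), (nat_lit 1)), ((nat_lit 0x44e), (nat_lit 2)), ((nat_lit 0x2c42c4), (nat_lit 4)), ((nat_lit 0x6d1591), (nat_lit 4)), ((nat_lit 0x11b4564446d1591), (nat_lit 10)), ((nat_lit 0x19b4564466d1591), (nat_lit 10))] (nat_lit 0x43f43e43d43c3b740343b0a2096090),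
.c (nat_lit 41) (nat_lit 0x25940402b029378189b40e1fc0826f049368283f8160d40b04c060d703016c1a8820d04c070d7014b28084da0505b0322380d1300a88f0405b81936c10b2a1a35d0c04c86220c2c16e1635d0a04c850354243fa104db0726f8307f4149b6084df0302b81021c0413200075),
.i (nat_lit 2) (nat_lit 41) [((nat_lit 2), (nat_lit 1)), ((nat_lit 4), (nat_lit 1)), ((nat_lit 6), (nat_lit 1)), ((nat_lit 9), (nat_lit 1)), ((nat_lit 11), (nat_lit 1)), ((nat_lit 0x44e), (nat_lit 2)), ((nat_lit 0x2c42c4), (nat_lit 4)), ((nat_lit 0x6d1591), (nat_lit 4)), ((nat_lit 0x11b4564446d1591), (nat_lit 10)), ((nat_lit 0x19b4564466d1591), (nat_lit 10))] (nat_lit 0x43f43e43d43c3b740343b0a2096090),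
.c (nat_lit 34) (nat_lit 0x303f81a4de0e26d06965010b280a286064430302601c6b80609804445028d70111040635c0144e81086404b660a47d034498116fc280ea160750e06a8682643016e160990a0348482642010e0e0750604c82821c100ae00007),
.c (nat_lit 0) (nat_lit 0),
.c (nat_lit 3) (nat_lit 0xbcc040a200001),
.c (nat_lit 1) (nat_lit 93),
.c (nat_lit 5) (nat_lit 0xe9021b180827c04a7e00001),
.c (nat_lit 7) (nat_lit 0x127c141ce08345031a3810d140468e0006f),
.c (nat_lit 7) (nat_lit 0x13c4141ce083d9030e6810f640439a00003),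
.i (nat_lit 2) (nat_lit 10) [((nat_lit 1), (nat_lit 1)), ((nat_lit 10), (nat_lit 1)), ((nat_lit 2), (nat_lit 1)), ((nat_lit 17), (nat_lit 1)), ((nat_lit 5), (nat_lit 1)), ((nat_lit 18), (nat_lit 1)), ((nat_lit 0x285285), (nat_lit 4)), ((nat_lit 30), (nat_lit 1)), ((nat_lit 0x452452), (nat_lit 4)), ((nat_lit 0x485485), (nat_lit 4))] (nat_lit 0x4554544533e23e336330e0900ae08f),
.c (nat_lit 5) (nat_lit 0x8ac0704c83027c141320809f),
.i (nat_lit 2) (nat_lit 20) [((nat_lit 1), (nat_lit 1)), ((nat_lit 10), (nat_lit 1)), ((nat_lit 2), (nat_lit 1)), ((nat_lit 17), (nat_lit 1)), ((nat_lit 5), (nat_lit 1)), ((nat_lit 18), (nat_lit 1)), ((nat_lit 0x285285), (nat_lit 4)), ((nat_lit 30), (nat_lit 1)), ((nat_lit 0x452452), (nat_lit 4)), ((nat_lit 0x485485), (nat_lit 4))] (nat_lit 0x4554544533e23e336330e0900ae08f),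
.c (nat_lit 4) (nat_lit 0x3037020d10011620806f),
.i (nat_lit 2) (nat_lit 35) [((nat_lit 1), (nat_lit 1)), ((nat_lit 10), (nat_lit 1)), ((nat_lit 2), (nat_lit 1)), ((nat_lit 17), (nat_lit 1)), ((nat_lit 5), (nat_lit 1)), ((nat_lit 18), (nat_lit 1)), ((nat_lit 0x285285), (nat_lit 4)), ((nat_lit 30), (nat_lit 1)), ((nat_lit 0x452452), (nat_lit 4)), ((nat_lit 0x485485), (nat_lit 4))] (nat_lit 0x4554544533e23e336330e0900ae08f),
.c (nat_lit 25) (nat_lit 0x206e020280301b81c68810346091a2050d181d15c0e0e60345a0192541093e0a8af0924a85127c2d15e1e0e70e04f8682643013e160990a037810144040de00099),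
.i (nat_lit 2) (nat_lit 39) [((nat_lit 1), (nat_lit 1)), ((nat_lit 10), (nat_lit 1)), ((nat_lit 2), (nat_lit 1)), ((nat_lit 17), (nat_lit 1)), ((nat_lit 5), (nat_lit 1)), ((nat_lit 18), (nat_lit 1)), ((nat_lit 0x285285), (nat_lit 4)), ((nat_lit 30), (nat_lit 1)), ((nat_lit 0x452452), (nat_lit 4)), ((nat_lit 0x485485), (nat_lit 4))] (nat_lit 0x4554544533e23e336330e0900ae08f),
.c (nat_lit 9) (nat_lit 0x28b9034578222dc0c132040510104c81827c1013e0009f),
.i (nat_lit 2) (nat_lit 41) [((nat_lit 1), (nat_lit 1)), ((nat_lit 10), (nat_lit 1)), ((nat_lit 2), (nat_lit 1)), ((nat_lit 17), (nat_lit 1)), ((nat_lit 5), (nat_lit 1)), ((nat_lit 18), (nat_lit 1)), ((nat_lit 0x285285), (nat_lit 4)), ((nat_lit 30), (nat_lit 1)), ((nat_lit 0x452452), (nat_lit 4)), ((nat_lit 0x485485), (nat_lit 4))] (nat_lit 0x4554544533e23e336330e0900ae08f),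
.c (nat_lit 23) (nat_lit 0x8d18080040a35c0504f031a18181300e35c0704f041a181413008344052550312780c1ac068bd0445d838d1c1868a160e70a03781000c0413e00051),
.c (nat_lit 0) (nat_lit 0),
.c (nat_lit 0) (nat_lit 0),
.c (nat_lit 0) (nat_lit 0),
.i (nat_lit 2) (nat_lit 20) [((nat_lit 6), (nat_lit 1)), ((nat_lit 7), (nat_lit 1)), ((nat_lit 4), (nat_lit 1)), ((nat_lit 20), (nat_lit 1)), ((nat_lit 0x44e), (nat_lit 2)), ((nat_lit 0x490), (nat_lit 2)), ((nat_lit 0x1d138744e), (nat_lit 6)), ((nat_lit 0x192406490), (nat_lit 6)), ((nat_lit 0x1c6490192407192406490), (nat_lit 14)), ((nat_lit 0x106490192404192406490), (nat_lit 14))] (nat_lit 0x46246142b4602e93ac42a0960a50a2),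
.c (nat_lit 7) (nat_lit 0x31650140b80c4ae004638301741413208087),
.c (nat_lit 2) (nat_lit 0x515c0049e),
.c (nat_lit 2) (nat_lit 0x9174004ee),
.c (nat_lit 2) (nat_lit 0x9190005a8),
.c (nat_lit 12) (nat_lit 0xd073038d50181cc04366012260101400d17c0c494073a80413482517c00722),
.c (nat_lit 3) (nat_lit 0xa0278551740072e),
.c (nat_lit 13) (nat_lit 0x4098031ae0216400813c023460202801a2f80c688083460145d00a2cc1013200051),
.c (nat_lit 3) (nat_lit 0x1400416004050),
.c (nat_lit 2) (nat_lit 0xcea204051),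
.c (nat_lit 4) (nat_lit 0x10478000040468200069),
.c (nat_lit 0) (nat_lit 0),
.c (nat_lit 3) (nat_lit 0x134c109a606051),
.c (nat_lit 0) (nat_lit 0),
.c (nat_lit 0) (nat_lit 0),
.c (nat_lit 0) (nat_lit 0),
.i (nat_lit 2) (nat_lit 6) [((nat_lit 9), (nat_lit 1)), ((nat_lit 0x5545), (nat_lit 3)), ((nat_lit 1), (nat_lit 1)), ((nat_lit 0x91555c9545), (nat_lit 7)), ((nat_lit 15), (nat_lit 1)), ((nat_lit 0x155141155141), (nat_lit 8)), ((nat_lit 0x1553d53c5), (nat_lit 6)), ((nat_lit 0x245545045545049155141155141), (nat_lit 18)), ((nat_lit 0x155149155141155141245545045545045545245545045545049155141155141), (nat_lit 42)), ((nat_lit 0x49155141155141245545045545041245545045545049155141155141), (nat_lit 38))] (nat_lit 0x47247147046f46e46d46c08f46b0ab),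
.c (nat_lit 9) (nat_lit 0x2050024730381442c0a2140b1090468402c4040a20008d),
.c (nat_lit 3) (nat_lit 0x1026c047e600001),
.c (nat_lit 10) (nat_lit 0xa6060bf020e680800c0ce56043f301179800004086aa0208d),
.c (nat_lit 7) (nat_lit 0x3a4101d2063f30229f8083a400002020e7),
.c (nat_lit 3) (nat_lit 0x1235404e9e00051),
.c (nat_lit 0) (nat_lit 0),
.c (nat_lit 0) (nat_lit 0),
.i (nat_lit 2) (nat_lit 9) [((nat_lit 10), (nat_lit 1)), ((nat_lit 961), (nat_lit 2)), ((nat_lit 2), (nat_lit 1)), ((nat_lit 0xa3d128f), (nat_lit 5)), ((nat_lit 18), (nat_lit 1)), ((nat_lit 0x5c5), (nat_lit 2)), ((nat_lit 0xf7923d2), (nat_lit 5)), ((nat_lit 0x29779b297), (nat_lit 6)), ((nat_lit 0x3c129779b2973c129779b297), (nat_lit 16)), ((nat_lit 0x8a5de6ca5c229779b297), (nat_lit 14))] (nat_lit 0x47a4794784774763e347509023a0ae),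
.c (nat_lit 23) (nat_lit 0x81400c1780806e0247b8123541817a0a8cb042558181bc1c6ba088af0304c831a1c1413e0a35d0404c821a1c0c13e1006f0705e83039c040a2000d5),
.i (nat_lit 2) (nat_lit 30) [((nat_lit 10), (nat_lit 1)), ((nat_lit 961), (nat_lit 2)), ((nat_lit 2), (nat_lit 1)), ((nat_lit 0xa3d128f), (nat_lit 5)), ((nat_lit 18), (nat_lit 1)), ((nat_lit 0x5c5), (nat_lit 2)), ((nat_lit 0xf7923d2), (nat_lit 5)), ((nat_lit 0x29779b297), (nat_lit 6)), ((nat_lit 0x3c129779b2973c129779b297), (nat_lit 16)), ((nat_lit 0x8a5de6ca5c229779b297), (nat_lit 14))] (nat_lit 0x47a4794784774763e347509023a0ae),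
.c (nat_lit 9) (nat_lit 0xe08c081aa00a3e8149a6084950705e830234141ce0009f),
.i (nat_lit 2) (nat_lit 31) [((nat_lit 10), (nat_lit 1)), ((nat_lit 961), (nat_lit 2)), ((nat_lit 2), (nat_lit 1)), ((nat_lit 0xa3d128f), (nat_lit 5)), ((nat_lit 18), (nat_lit 1)), ((nat_lit 0x5c5), (nat_lit 2)), ((nat_lit 0xf7923d2), (nat_lit 5)), ((nat_lit 0x29779b297), (nat_lit 6)), ((nat_lit 0x3c129779b2973c129779b297), (nat_lit 16)), ((nat_lit 0x8a5de6ca5c229779b297), (nat_lit 14))] (nat_lit 0x47a4794784774763e347509023a0ae),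
.c (nat_lit 8) (nat_lit 0x747c0281b81868c008ff060378282f4101ce060d5),
.c (nat_lit 5) (nat_lit 0x680105e001b88000d0026e2),
.c (nat_lit 18) (nat_lit 0x9f2066e3021f08093e4000d2020f30227c809b8c009f20c6e3051f08213e40cdc6043e10127c8001a4041e6060f3),
.c (nat_lit 4) (nat_lit 0x33718101a418dc60a069),
.c (nat_lit 3) (nat_lit 0x10bf4048e600005),
.c (nat_lit 0) (nat_lit 0),
.c (nat_lit 12) (nat_lit 0x327c831b8c147c2084f9030348203cc209f2166e30a1f08493e4200d2120f3),
.c (nat_lit 0) (nat_lit 0),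
.c (nat_lit 0) (nat_lit 0),
.i (nat_lit 2) (nat_lit 4) [((nat_lit 0x95c9), (nat_lit 3)), ((nat_lit 10), (nat_lit 1)), ((nat_lit 0x503), (nat_lit 2)), ((nat_lit 0x5ca5ca), (nat_lit 4)), ((nat_lit 0x5d40d7503), (nat_lit 6)), ((nat_lit 0x294294), (nat_lit 4)), ((nat_lit 0x2975035d40ca5d40d7503), (nat_lit 14)), ((nat_lit 0x5ca50a517294294), (nat_lit 10)), ((nat_lit 0x2972942945ca50a50a5ca50a517294294), (nat_lit 22)), ((nat_lit 0x5035ca50a5172942945035ca50a517294294), (nat_lit 24))] (nat_lit 0x48848748648548448348225b0ae481),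
.c (nat_lit 5) (nat_lit 0x912070378302ac140de080ab),
.c (nat_lit 4) (nat_lit 0x10298000040439a00003),
.c (nat_lit 4) (nat_lit 0x104d8000040468a0006f),
.c (nat_lit 14) (nat_lit 0x51aa00051024658092ac000de0835d014578002640cd0e0409f021ae80826404d0e0009f),
.c (nat_lit 5) (nat_lit 0xd7021ae80826404a8600003),
.c (nat_lit 7) (nat_lit 0x12ac141aa08347031a2810d1c0468a0006f),
.c (nat_lit 13) (nat_lit 0x8cd0706a830f5c141d2083d7031798103a4045e6000010224a819644106c60a0e7),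
.c (nat_lit 33) (nat_lit 0x500404f029a18141300c35c0604f039a18101300a8ae081ae0201b8149540c8ca0126b0113480d1a8026790146a82232c0c9560406f061ae81a2bc081320a6870404f820d740c132066870204f8301bc1411a00051),
.c (nat_lit 12) (nat_lit 0x1906a0d23e060d0c32362171ae0c16404ce3028480113990913584d1a8008d2),
.c (nat_lit 3) (nat_lit 0x158041f804056),
.c (nat_lit 4) (nat_lit 0x102c800004043b600005),
.c (nat_lit 3) (nat_lit 0x1076c0c0ae081db),
.c (nat_lit 12) (nat_lit 0x217a80a13c005ea0e0570607e830bd4145e60832903179810ca4045ea00001),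
.c (nat_lit 0) (nat_lit 0),
.c (nat_lit 0) (nat_lit 0),
.c (nat_lit 0) (nat_lit 0),
.c (nat_lit 0) (nat_lit 0),
.i (nat_lit 2) (nat_lit 4) [((nat_lit 3), (nat_lit 1)), ((nat_lit 1), (nat_lit 1)), ((nat_lit 0x6886), (nat_lit 3)), ((nat_lit 6), (nat_lit 1)), ((nat_lit 0x183883886), (nat_lit 6)), ((nat_lit 0x185685686), (nat_lit 6)), ((nat_lit 0x460e20e2181183883886), (nat_lit 14)), ((nat_lit 0xc615a15a183185685686), (nat_lit 14)), ((nat_lit 0x431856856860c615a15a1810c615a15a183185685686), (nat_lit 30)), ((nat_lit 0x1a21831856856860c615a15a1868860c615a15a183185685686), (nat_lit 34))] (nat_lit 0x49a49949849749649549449308f093),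
.c (nat_lit 9) (nat_lit 0x560149b03015c280ae12051080678381441819e00057),
.c (nat_lit 3) (nat_lit 0x218040a004086),
.c (nat_lit 18) (nat_lit 0x8fc6022f3003f183921418f5e0a087083f1838bcc187de0a63b04179818fbc08c76027e300000811c54041b6020e1),
.c (nat_lit 6) (nat_lit 0xc172041cd0105c80000c1050e06087),
.c (nat_lit 0) (nat_lit 0),
.c (nat_lit 0) (nat_lit 0),
.c (nat_lit 0) (nat_lit 0),
.c (nat_lit 0) (nat_lit 0),
.i (nat_lit 2) (nat_lit 4) [((nat_lit 1), (nat_lit 1)), ((nat_lit 0xe14e), (nat_lit 3)), ((nat_lit 2), (nat_lit 1)), ((nat_lit 0x75c38575c14e), (nat_lit 8)), ((nat_lit 5), (nat_lit 1)), ((nat_lit 0x38558558e), (nat_lit 6)), ((nat_lit 0x385385385385), (nat_lit 8)), ((nat_lit 0x4e15615638138558558e), (nat_lit 14)), ((nat_lit 0x38538138558558e04e15615638e14e04e15615638138558558e), (nat_lit 34)), ((nat_lit 0x8138558558e04e15615638204e15615638138558558e), (nat_lit 30))] (nat_lit 0x4a34a24a14a049f36349e09049d08f),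
.c (nat_lit 9) (nat_lit 0x86014a403021c2810e120510805b8381441816e00087),
.c (nat_lit 4) (nat_lit 0x105c80000c0450e00087)]

theorem c6 : chk db th.hy ths 1191 J6 1004 = true := by decide +kernel

set_option maxRecDepth 100000 in
/-- Justifications. -/
noncomputable def J7 : List Js := [
.c (nat_lit 5) (nat_lit 0x27e30000081121404f5e00087),
.c (nat_lit 0) (nat_lit 0),
.c (nat_lit 0) (nat_lit 0),
.c (nat_lit 17) (nat_lit 0x60b9020e68082e40039a140b9090e68402e41c39a0c32d0505c8207340c65a040b9010e680000c0816e080b7),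
.c (nat_lit 23) (nat_lit 0x19f8c085e6027e300179861f8c2c5e6147e309179840fbc1cc760c7e305179820fbc0cc76047e3011798000040ce2a040db02070829c54101b6080e1),
.i (nat_lit 2) (nat_lit 8) [((nat_lit 14), (nat_lit 1)), ((nat_lit 2), (nat_lit 1)), ((nat_lit 1), (nat_lit 1)), ((nat_lit 22), (nat_lit 1)), ((nat_lit 0x75c), (nat_lit 2)), ((nat_lit 5), (nat_lit 1)), ((nat_lit 0x9d70275c), (nat_lit 6)), ((nat_lit 0x385385), (nat_lit 4)), ((nat_lit 0x58e156385385385), (nat_lit 10)), ((nat_lit 0x75c38575c385385385), (nat_lit 12))] (nat_lit 0x4ab4aa4a94a848b4a74a608f0902ae),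
.c (nat_lit 5) (nat_lit 0x2958080438381441810e00051),
.i (nat_lit 2) (nat_lit 23) [((nat_lit 14), (nat_lit 1)), ((nat_lit 2), (nat_lit 1)), ((nat_lit 1), (nat_lit 1)), ((nat_lit 22), (nat_lit 1)), ((nat_lit 0x75c), (nat_lit 2)), ((nat_lit 5), (nat_lit 1)), ((nat_lit 0x9d70275c), (nat_lit 6)), ((nat_lit 0x385385), (nat_lit 4)), ((nat_lit 0x58e156385385385), (nat_lit 10)), ((nat_lit 0x75c38575c385385385), (nat_lit 12))] (nat_lit 0x4ab4aa4a94a848b4a74a608f0902ae),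
.c (nat_lit 12) (nat_lit 0x405b008218080a006086004ad002570052b60005102043828a1c1010e080b7),
.c (nat_lit 2) (nat_lit 0x52700084e),
.c (nat_lit 7) (nat_lit 0x1ccc0c7ba047250103181173404e9e00051),
.c (nat_lit 1) (nat_lit 0x95b),
.c (nat_lit 0) (nat_lit 0),
.c (nat_lit 2) (nat_lit 0xc40204005),
.c (nat_lit 3) (nat_lit 0x88040000a0005d),
.c (nat_lit 3) (nat_lit 0x140400a007a3),
.c (nat_lit 3) (nat_lit 0x100140417a00005),
.c (nat_lit 3) (nat_lit 0x2080404f4600005),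
.c (nat_lit 0) (nat_lit 0),
.c (nat_lit 0) (nat_lit 0),
.i (nat_lit 2) (nat_lit 0) [((nat_lit 7), (nat_lit 1)), ((nat_lit 0x35c3), (nat_lit 3)), ((nat_lit 3), (nat_lit 1)), ((nat_lit 0x1c35c75c3), (nat_lit 6)), ((nat_lit 0), (nat_lit 0)), ((nat_lit 0x5c35c3), (nat_lit 4)), ((nat_lit 0), (nat_lit 0)), ((nat_lit 0x1d70d71d70d7), (nat_lit 8)), ((nat_lit 0xd70c75c35c75c35c35c31d70d71d70d7), (nat_lit 22)), ((nat_lit 0xc75c35c75c35c31d70d71d70d7), (nat_lit 18))] (nat_lit 0x4ba4b94b84b74b64b54b40932ac0a5),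
.c (nat_lit 11) (nat_lit 0x10044000297606100828014280ba120050805e8381741817a00005),
.c (nat_lit 3) (nat_lit 0x8bec0000600069),
.c (nat_lit 20) (nat_lit 0x317d8101dc045f600077063b28287f4100ae042b9050fe8381a4186020a0770417d818c04085f60207700001808ae4103fa0a075),
.c (nat_lit 1) (nat_lit 697),
.c (nat_lit 10) (nat_lit 0xc602042fb01180800bec08572020690303a8101a4040ea00003),
.c (nat_lit 3) (nat_lit 0x187f4105720e075),
.i (nat_lit 2) (nat_lit 39) [((nat_lit 9), (nat_lit 1)), ((nat_lit 2), (nat_lit 1)), ((nat_lit 6), (nat_lit 1)), ((nat_lit 0), (nat_lit 0)), ((nat_lit 0x246246), (nat_lit 4)), ((nat_lit 11), (nat_lit 1)), ((nat_lit 0x2c624b246), (nat_lit 6)), ((nat_lit 0x2c92c9), (nat_lit 4)), ((nat_lit 0), (nat_lit 0)), ((nat_lit 0x1892c91892c9), (nat_lit 8))] (nat_lit 0x4c14c04bf4be4033aa4bd0a20900ab),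
.c (nat_lit 14) (nat_lit 0xac027640503401815810ec8069850603486015c2c0d2140750903481015c040d200057),
.c (nat_lit 5) (nat_lit 0xbf021aa80823404e6200003),
.c (nat_lit 3) (nat_lit 0x314086ae0208d),
.c (nat_lit 1) (nat_lit 0x7a3),
.c (nat_lit 29) (nat_lit 0x405f011b780017c28402120050902e85817c286de1205f083988382fc185f20a05f043988182fc085f20205f000018081740817a020c500002810174046ae0008d0105e8508042400a1205d),
.c (nat_lit 0) (nat_lit 0),
.c (nat_lit 0) (nat_lit 0),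
.i (nat_lit 2) (nat_lit 9) [((nat_lit 2), (nat_lit 1)), ((nat_lit 3), (nat_lit 1)), ((nat_lit 15), (nat_lit 1)), ((nat_lit 7), (nat_lit 1)), ((nat_lit 23), (nat_lit 1)), ((nat_lit 0x3603), (nat_lit 3)), ((nat_lit 0x5c35c3), (nat_lit 4)), ((nat_lit 0x173c70d73c70d8), (nat_lit 9)), ((nat_lit 0xd73c70d73c70d80d73c70d73c70d8), (nat_lit 20)), ((nat_lit 0x3d73c70d73c70d83d73c70d73c70d8), (nat_lit 20))] (nat_lit 0x4c94c84c74c64c54c43d22c2093090),
.c (nat_lit 27) (nat_lit 0x80080c0080805c050460302f01c0081005c090460502f02c0b8160040c1000101780c6dc0805e024ca8702f43411a1805d0b0028502f42411a1005d0700283030c0400600005),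
.i (nat_lit 2) (nat_lit 20) [((nat_lit 2), (nat_lit 1)), ((nat_lit 3), (nat_lit 1)), ((nat_lit 15), (nat_lit 1)), ((nat_lit 7), (nat_lit 1)), ((nat_lit 23), (nat_lit 1)), ((nat_lit 0x3603), (nat_lit 3)), ((nat_lit 0x5c35c3), (nat_lit 4)), ((nat_lit 0x173c70d73c70d8), (nat_lit 9)), ((nat_lit 0xd73c70d73c70d80d73c70d73c70d8), (nat_lit 20)), ((nat_lit 0x3d73c70d73c70d83d73c70d73c70d8), (nat_lit 20))] (nat_lit 0x4c94c84c74c64c54c43d22c2093090),
.c (nat_lit 5) (nat_lit 0x4014cc8088041417a00005),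
.i (nat_lit 2) (nat_lit 30) [((nat_lit 2), (nat_lit 1)), ((nat_lit 3), (nat_lit 1)), ((nat_lit 15), (nat_lit 1)), ((nat_lit 7), (nat_lit 1)), ((nat_lit 23), (nat_lit 1)), ((nat_lit 0x3603), (nat_lit 3)), ((nat_lit 0x5c35c3), (nat_lit 4)), ((nat_lit 0x173c70d73c70d8), (nat_lit 9)), ((nat_lit 0xd73c70d73c70d80d73c70d73c70d8), (nat_lit 20)), ((nat_lit 0x3d73c70d73c70d83d73c70d73c70d8), (nat_lit 20))] (nat_lit 0x4c94c84c74c64c54c43d22c2093090),
.c (nat_lit 11) (nat_lit 0x1004f440899601002011e880533a049970100280a65c1417a00005),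
.i (nat_lit 2) (nat_lit 41) [((nat_lit 2), (nat_lit 1)), ((nat_lit 3), (nat_lit 1)), ((nat_lit 15), (nat_lit 1)), ((nat_lit 7), (nat_lit 1)), ((nat_lit 23), (nat_lit 1)), ((nat_lit 0x3603), (nat_lit 3)), ((nat_lit 0x5c35c3), (nat_lit 4)), ((nat_lit 0x173c70d73c70d8), (nat_lit 9)), ((nat_lit 0xd73c70d73c70d80d73c70d73c70d8), (nat_lit 20)), ((nat_lit 0x3d73c70d73c70d83d73c70d73c70d8), (nat_lit 20))] (nat_lit 0x4c94c84c74c64c54c43d22c2093090),
.c (nat_lit 32) (nat_lit 0x505e0125e0013340420001046010d5001342022010006281a66c0933e0c0bd0705e83a65c184020a997023d18083140000a0299f0505e82030c3017a1608d0a02e8480142017a0e08d0602e82830c100ba060bd),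
.c (nat_lit 19) (nat_lit 0x50d582c6a81805c0d05e058170312f0080bc013d101a668144000c0c40710004265824400140bc0b4cd062688053440036e),
.c (nat_lit 15) (nat_lit 0xd000400806226041a002889814184043060306202265808a8a100930703483030c0400a0008d),
.c (nat_lit 4) (nat_lit 0x134880015c04e9a0006f),
.c (nat_lit 0) (nat_lit 0),
.c (nat_lit 0) (nat_lit 0),
.c (nat_lit 17) (nat_lit 0x60a10218080828400602140a1091808402841c6020c3d905050820c040c7b2040a10118080000c0813e0809f),
.c (nat_lit 17) (nat_lit 0x6691020fe809a44003fa14691090fe841a441c3fa0c68f053488207f40cd1e04691010fe80015c081b6080db),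
.i (nat_lit 2) (nat_lit 8) [((nat_lit 10), (nat_lit 1)), ((nat_lit 2), (nat_lit 1)), ((nat_lit 6), (nat_lit 1)), ((nat_lit 18), (nat_lit 1)), ((nat_lit 28), (nat_lit 1)), ((nat_lit 11), (nat_lit 1)), ((nat_lit 0x9c09c), (nat_lit 4)), ((nat_lit 0x28b28b), (nat_lit 4)), ((nat_lit 0x48a2d228b28b28b), (nat_lit 10)), ((nat_lit 0x70a2dc28b28b28b), (nat_lit 10))] (nat_lit 0x4d84d74d64d54034d43e30a20900ae),
.c (nat_lit 5) (nat_lit 0x9b2070378301d4140de08075),
.i (nat_lit 2) (nat_lit 10) [((nat_lit 10), (nat_lit 1)), ((nat_lit 2), (nat_lit 1)), ((nat_lit 6), (nat_lit 1)), ((nat_lit 18), (nat_lit 1)), ((nat_lit 28), (nat_lit 1)), ((nat_lit 11), (nat_lit 1)), ((nat_lit 0x9c09c), (nat_lit 4)), ((nat_lit 0x28b28b), (nat_lit 4)), ((nat_lit 0x48a2d228b28b28b), (nat_lit 10)), ((nat_lit 0x70a2dc28b28b28b), (nat_lit 10))] (nat_lit 0x4d84d74d64d54034d43e30a20900ae),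
.c (nat_lit 17) (nat_lit 0x206e021a30126d80936a0a075040378426d41c68e0c06f0903a8401bc2c13e1406f0903a84027c040de00075),
.i (nat_lit 2) (nat_lit 11) [((nat_lit 10), (nat_lit 1)), ((nat_lit 2), (nat_lit 1)), ((nat_lit 6), (nat_lit 1)), ((nat_lit 18), (nat_lit 1)), ((nat_lit 28), (nat_lit 1)), ((nat_lit 11), (nat_lit 1)), ((nat_lit 0x9c09c), (nat_lit 4)), ((nat_lit 0x28b28b), (nat_lit 4)), ((nat_lit 0x48a2d228b28b28b), (nat_lit 10)), ((nat_lit 0x70a2dc28b28b28b), (nat_lit 10))] (nat_lit 0x4d84d74d64d54034d43e30a20900ae),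
.c (nat_lit 17) (nat_lit 0x206e023a60126e80936a0a075040378426d41ce9a0c06f0903a8401bc2c1b61406f0903a84036c040de00075),
.i (nat_lit 2) (nat_lit 23) [((nat_lit 10), (nat_lit 1)), ((nat_lit 2), (nat_lit 1)), ((nat_lit 6), (nat_lit 1)), ((nat_lit 18), (nat_lit 1)), ((nat_lit 28), (nat_lit 1)), ((nat_lit 11), (nat_lit 1)), ((nat_lit 0x9c09c), (nat_lit 4)), ((nat_lit 0x28b28b), (nat_lit 4)), ((nat_lit 0x48a2d228b28b28b), (nat_lit 10)), ((nat_lit 0x70a2dc28b28b28b), (nat_lit 10))] (nat_lit 0x4d84d74d64d54034d43e30a20900ae),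
.c (nat_lit 13) (nat_lit 0xa09e05037030d180c0dc08074014da00a6fc0936a0206f0303a8101bc1413e00075),
.i (nat_lit 2) (nat_lit 28) [((nat_lit 10), (nat_lit 1)), ((nat_lit 2), (nat_lit 1)), ((nat_lit 6), (nat_lit 1)), ((nat_lit 18), (nat_lit 1)), ((nat_lit 28), (nat_lit 1)), ((nat_lit 11), (nat_lit 1)), ((nat_lit 0x9c09c), (nat_lit 4)), ((nat_lit 0x28b28b), (nat_lit 4)), ((nat_lit 0x48a2d228b28b28b), (nat_lit 10)), ((nat_lit 0x70a2dc28b28b28b), (nat_lit 10))] (nat_lit 0x4d84d74d64d54034d43e30a20900ae),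
.c (nat_lit 13) (nat_lit 0xa0da05037031d300c0dc08074014da00a70c0936a0206f0303a8101bc141b600075),
.i (nat_lit 2) (nat_lit 37) [((nat_lit 10), (nat_lit 1)), ((nat_lit 2), (nat_lit 1)), ((nat_lit 6), (nat_lit 1)), ((nat_lit 18), (nat_lit 1)), ((nat_lit 28), (nat_lit 1)), ((nat_lit 11), (nat_lit 1)), ((nat_lit 0x9c09c), (nat_lit 4)), ((nat_lit 0x28b28b), (nat_lit 4)), ((nat_lit 0x48a2d228b28b28b), (nat_lit 10)), ((nat_lit 0x70a2dc28b28b28b), (nat_lit 10))] (nat_lit 0x4d84d74d64d54034d43e30a20900ae),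
.c (nat_lit 20) (nat_lit 0x370081d0093880406e0303a0026d00138e009c10403a818d1c0136a089c10303a8101bc040ea069c50203a808d1c000de080db),
.i (nat_lit 2) (nat_lit 38) [((nat_lit 10), (nat_lit 1)), ((nat_lit 2), (nat_lit 1)), ((nat_lit 6), (nat_lit 1)), ((nat_lit 18), (nat_lit 1)), ((nat_lit 28), (nat_lit 1)), ((nat_lit 11), (nat_lit 1)), ((nat_lit 0x9c09c), (nat_lit 4)), ((nat_lit 0x28b28b), (nat_lit 4)), ((nat_lit 0x48a2d228b28b28b), (nat_lit 10)), ((nat_lit 0x70a2dc28b28b28b), (nat_lit 10))] (nat_lit 0x4d84d74d64d54034d43e30a20900ae),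
.c (nat_lit 20) (nat_lit 0x370081d0093800406e0303a0026d001396009c50403a819d340136a089c50303a8101bc040ea069c10203a809d34000de0809f),
.i (nat_lit 2) (nat_lit 39) [((nat_lit 10), (nat_lit 1)), ((nat_lit 2), (nat_lit 1)), ((nat_lit 6), (nat_lit 1)), ((nat_lit 18), (nat_lit 1)), ((nat_lit 28), (nat_lit 1)), ((nat_lit 11), (nat_lit 1)), ((nat_lit 0x9c09c), (nat_lit 4)), ((nat_lit 0x28b28b), (nat_lit 4)), ((nat_lit 0x48a2d228b28b28b), (nat_lit 10)), ((nat_lit 0x70a2dc28b28b28b), (nat_lit 10))] (nat_lit 0x4d84d74d64d54034d43e30a20900ae),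
.c (nat_lit 61) (nat_lit 0x40da034e78227140d3820e0750803a839d341868e069b5084e283a704180ea0a06f0403a8281d41539a089b90704f840d1c1ce9a0a9c10403a8181bc1c13e089c90303a839d341868e0a74d034e2852714253820c9bd0503a839d341538a069b50603a8326f42c0ea180750b3a6850d1c24e9a0e9c50603a8281bc100ea100db074e08226f41ce9a0a9c50403a8181bc1137a060750806d81036c040ea000db),
.i (nat_lit 2) (nat_lit 42) [((nat_lit 10), (nat_lit 1)), ((nat_lit 2), (nat_lit 1)), ((nat_lit 6), (nat_lit 1)), ((nat_lit 18), (nat_lit 1)), ((nat_lit 28), (nat_lit 1)), ((nat_lit 11), (nat_lit 1)), ((nat_lit 0x9c09c), (nat_lit 4)), ((nat_lit 0x28b28b), (nat_lit 4)), ((nat_lit 0x48a2d228b28b28b), (nat_lit 10)), ((nat_lit 0x70a2dc28b28b28b), (nat_lit 10))] (nat_lit 0x4d84d74d64d54034d43e30a20900ae),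
.c (nat_lit 29) (nat_lit 0x4074010fe01836808d1c08074030fe0281b8180e80e9c4091a3051d301d3a00e06e0803a02a6d0113a4089b50703a8301bc193a21274d081a3832714140ea0806f0303a81036c040ea0009f),
.c (nat_lit 3) (nat_lit 0x8c040000600075),
.c (nat_lit 10) (nat_lit 0xd6065150210c80801c0cc7e043030117d80000c0890202081),
.c (nat_lit 0) (nat_lit 0),
.c (nat_lit 5) (nat_lit 0x95021138081a40460e00005),
.c (nat_lit 21) (nat_lit 0x6095020ed808254003b60c77b033bd811d94040ae082270303482889c1860e0a095040ed818c1c083b60209500002808ac41044e0a093),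
.c (nat_lit 1) (nat_lit 0x9b5),
.c (nat_lit 0) (nat_lit 0),
.c (nat_lit 0) (nat_lit 0),
.c (nat_lit 5) (nat_lit 0x253f000008014fc041ce00001),
.c (nat_lit 5) (nat_lit 0x2f50317a8114fc045ea00001),
.c (nat_lit 3) (nat_lit 0x94fc00002000e7),
.c (nat_lit 13) (nat_lit 0x653f0217a8094fc005ea1053f0717a8314fc145ea0853f0317a8114fc045ea00001),
.c (nat_lit 19) (nat_lit 0x394fc185ea0a53f0417a8194fc085ea0253f0017a84039c1c0ae0c0e70502b82039c0c0ae040e70102b8094fc00002000e7),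
.c (nat_lit 9) (nat_lit 0x100570707383015c141ce080570307381015c041ce00057),
.i (nat_lit 2) (nat_lit 4) [((nat_lit 1), (nat_lit 1)), ((nat_lit 0x781), (nat_lit 2)), ((nat_lit 6), (nat_lit 1)), ((nat_lit 0), (nat_lit 0)), ((nat_lit 0), (nat_lit 0)), ((nat_lit 0x786786), (nat_lit 4)), ((nat_lit 0), (nat_lit 0)), ((nat_lit 0x786786786786), (nat_lit 8)), ((nat_lit 0), (nat_lit 0)), ((nat_lit 0), (nat_lit 0))] (nat_lit 0x4f84f74f64f54f443a4f30a225a08f),
.c (nat_lit 5) (nat_lit 0x29f20807383815c181ce00057),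
.c (nat_lit 0) (nat_lit 0),
.c (nat_lit 0) (nat_lit 0),
.c (nat_lit 1) (nat_lit 117),
.c (nat_lit 3) (nat_lit 0xbdc040c600001),
.c (nat_lit 4) (nat_lit 0x128a80001c0490200081),
.c (nat_lit 0) (nat_lit 0),
.c (nat_lit 0) (nat_lit 0),
.c (nat_lit 17) (nat_lit 0x6515021158094540045614515091158414541c4560c3c70528a8208ac0c78e045150111580001c08192080c9),
.c (nat_lit 17) (nat_lit 0x60b30217e8082cc005fa140b30917e8402cc1c5fa0c3e905059820bf40c7d2040b30117e80001408162080b1),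
.i (nat_lit 2) (nat_lit 6) [((nat_lit 13), (nat_lit 1)), ((nat_lit 4), (nat_lit 1)), ((nat_lit 3), (nat_lit 1)), ((nat_lit 25), (nat_lit 1)), ((nat_lit 21), (nat_lit 1)), ((nat_lit 10), (nat_lit 1)), ((nat_lit 0x115115), (nat_lit 4)), ((nat_lit 0x34a34a), (nat_lit 4)), ((nat_lit 0x64d29934a34a34a), (nat_lit 10)), ((nat_lit 0x54d29534a34a34a), (nat_lit 10))] (nat_lit 0x5035025015004203454ff093096344),
.c (nat_lit 5) (nat_lit 0xa08070038302c41400e080b1),
.i (nat_lit 2) (nat_lit 8) [((nat_lit 13), (nat_lit 1)), ((nat_lit 4), (nat_lit 1)), ((nat_lit 3), (nat_lit 1)), ((nat_lit 25), (nat_lit 1)), ((nat_lit 21), (nat_lit 1)), ((nat_lit 10), (nat_lit 1)), ((nat_lit 0x115115), (nat_lit 4)), ((nat_lit 0x34a34a), (nat_lit 4)), ((nat_lit 0x64d29934a34a34a), (nat_lit 10)), ((nat_lit 0x54d29534a34a34a), (nat_lit 10))] (nat_lit 0x5035025015004203454ff093096344),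
.c (nat_lit 5) (nat_lit 0x2a0c080408381bc181020006f),
.i (nat_lit 2) (nat_lit 10) [((nat_lit 13), (nat_lit 1)), ((nat_lit 4), (nat_lit 1)), ((nat_lit 3), (nat_lit 1)), ((nat_lit 25), (nat_lit 1)), ((nat_lit 21), (nat_lit 1)), ((nat_lit 10), (nat_lit 1)), ((nat_lit 0x115115), (nat_lit 4)), ((nat_lit 0x34a34a), (nat_lit 4)), ((nat_lit 0x64d29934a34a34a), (nat_lit 10)), ((nat_lit 0x54d29534a34a34a), (nat_lit 10))] (nat_lit 0x5035025015004203454ff093096344),
.c (nat_lit 17) (nat_lit 0x2080022400128400d41e0406f0404084a83c200de0e481060408402042c1921408109037840324041020006f),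
.i (nat_lit 2) (nat_lit 20) [((nat_lit 13), (nat_lit 1)), ((nat_lit 4), (nat_lit 1)), ((nat_lit 3), (nat_lit 1)), ((nat_lit 25), (nat_lit 1)), ((nat_lit 21), (nat_lit 1)), ((nat_lit 10), (nat_lit 1)), ((nat_lit 0x115115), (nat_lit 4)), ((nat_lit 0x34a34a), (nat_lit 4)), ((nat_lit 0x64d29934a34a34a), (nat_lit 10)), ((nat_lit 0x54d29534a34a34a), (nat_lit 10))] (nat_lit 0x5035025015004203454ff093096344),
.c (nat_lit 7) (nat_lit 0x180541402a1502505808f1c1416200007),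
.i (nat_lit 2) (nat_lit 23) [((nat_lit 13), (nat_lit 1)), ((nat_lit 4), (nat_lit 1)), ((nat_lit 3), (nat_lit 1)), ((nat_lit 25), (nat_lit 1)), ((nat_lit 21), (nat_lit 1)), ((nat_lit 10), (nat_lit 1)), ((nat_lit 0x115115), (nat_lit 4)), ((nat_lit 0x34a34a), (nat_lit 4)), ((nat_lit 0x64d29934a34a34a), (nat_lit 10)), ((nat_lit 0x54d29534a34a34a), (nat_lit 10))] (nat_lit 0x5035025015004203454ff093096344),
.c (nat_lit 12) (nat_lit 0x4064008200080dc06080005070028600541e0006f0204082920410102080c9),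
.i (nat_lit 2) (nat_lit 28) [((nat_lit 13), (nat_lit 1)), ((nat_lit 4), (nat_lit 1)), ((nat_lit 3), (nat_lit 1)), ((nat_lit 25), (nat_lit 1)), ((nat_lit 21), (nat_lit 1)), ((nat_lit 10), (nat_lit 1)), ((nat_lit 0x115115), (nat_lit 4)), ((nat_lit 0x34a34a), (nat_lit 4)), ((nat_lit 0x64d29934a34a34a), (nat_lit 10)), ((nat_lit 0x54d29534a34a34a), (nat_lit 10))] (nat_lit 0x5035025015004203454ff093096344),
.c (nat_lit 12) (nat_lit 0x4058008200080dc06080005070028700541e0006f02040828d4410102080b1),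
.i (nat_lit 2) (nat_lit 30) [((nat_lit 13), (nat_lit 1)), ((nat_lit 4), (nat_lit 1)), ((nat_lit 3), (nat_lit 1)), ((nat_lit 25), (nat_lit 1)), ((nat_lit 21), (nat_lit 1)), ((nat_lit 10), (nat_lit 1)), ((nat_lit 0x115115), (nat_lit 4)), ((nat_lit 0x34a34a), (nat_lit 4)), ((nat_lit 0x64d29934a34a34a), (nat_lit 10)), ((nat_lit 0x54d29534a34a34a), (nat_lit 10))] (nat_lit 0x5035025015004203454ff093096344),
.c (nat_lit 7) (nat_lit 0x180541402a21025058088ac1416200007),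
.i (nat_lit 2) (nat_lit 37) [((nat_lit 13), (nat_lit 1)), ((nat_lit 4), (nat_lit 1)), ((nat_lit 3), (nat_lit 1)), ((nat_lit 25), (nat_lit 1)), ((nat_lit 21), (nat_lit 1)), ((nat_lit 10), (nat_lit 1)), ((nat_lit 0x115115), (nat_lit 4)), ((nat_lit 0x34a34a), (nat_lit 4)), ((nat_lit 0x64d29934a34a34a), (nat_lit 10)), ((nat_lit 0x54d29534a34a34a), (nat_lit 10))] (nat_lit 0x5035025015004203454ff093096344),
.c (nat_lit 18) (nat_lit 0xc10000a1e041a8029200186a0080800150f018200040dc04a0e0151281a83c080de02481040408382c41810200081),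
.i (nat_lit 2) (nat_lit 38) [((nat_lit 13), (nat_lit 1)), ((nat_lit 4), (nat_lit 1)), ((nat_lit 3), (nat_lit 1)), ((nat_lit 25), (nat_lit 1)), ((nat_lit 21), (nat_lit 1)), ((nat_lit 10), (nat_lit 1)), ((nat_lit 0x115115), (nat_lit 4)), ((nat_lit 0x34a34a), (nat_lit 4)), ((nat_lit 0x64d29934a34a34a), (nat_lit 10)), ((nat_lit 0x54d29534a34a34a), (nat_lit 10))] (nat_lit 0x5035025015004203454ff093096344),
.c (nat_lit 18) (nat_lit 0xc10000a1a04240028d4018900080800150d018200040dc04a0e0151481a83c080de02351040408383241810200081),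
.i (nat_lit 2) (nat_lit 40) [((nat_lit 13), (nat_lit 1)), ((nat_lit 4), (nat_lit 1)), ((nat_lit 3), (nat_lit 1)), ((nat_lit 25), (nat_lit 1)), ((nat_lit 21), (nat_lit 1)), ((nat_lit 10), (nat_lit 1)), ((nat_lit 0x115115), (nat_lit 4)), ((nat_lit 0x34a34a), (nat_lit 4)), ((nat_lit 0x64d29934a34a34a), (nat_lit 10)), ((nat_lit 0x54d29534a34a34a), (nat_lit 10))] (nat_lit 0x5035025015004203454ff093096344),
.c (nat_lit 48) (nat_lit 0x3020d400541402a2d025058094540d42e0e0b1085078381bc189020a3510904083a84c194560aa1b0b064850d4424902100810c5078581bc2890212351082408682042d44e1458d0951384287c1c0de180b10e1a8869204306a2164810a1a884820434162180c90b058850324241621006f07058830324140de00007),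
.i (nat_lit 2) (nat_lit 41) [((nat_lit 13), (nat_lit 1)), ((nat_lit 4), (nat_lit 1)), ((nat_lit 3), (nat_lit 1)), ((nat_lit 25), (nat_lit 1)), ((nat_lit 21), (nat_lit 1)), ((nat_lit 10), (nat_lit 1)), ((nat_lit 0x115115), (nat_lit 4)), ((nat_lit 0x34a34a), (nat_lit 4)), ((nat_lit 0x64d29934a34a34a), (nat_lit 10)), ((nat_lit 0x54d29534a34a34a), (nat_lit 10))] (nat_lit 0x5035025015004203454ff093096344),
.c (nat_lit 37) (nat_lit 0x40d1ab06832030900160c80c0580502c01143c0aa26062c603a89820b1816a1205058020d400800c06a0a05517038f182045412514051a80312001c0dc10a0e02505028f181816004a1601518008dcc240de1000707061830234140de00005),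
.c (nat_lit 15) (nat_lit 0x202c00541406a22051150314501c16010a160a115059450301841808c0d1ab0701b80546400372),
.c (nat_lit 8) (nat_lit 0x11f88002840c89a04347010378103cc047b200003),
.c (nat_lit 3) (nat_lit 0x104740413600001),
.c (nat_lit 0) (nat_lit 0),
.c (nat_lit 0) (nat_lit 0),
.c (nat_lit 0) (nat_lit 0),
.c (nat_lit 0) (nat_lit 0),
.i (nat_lit 2) (nat_lit 4) [((nat_lit 2), (nat_lit 1)), ((nat_lit 0x80a), (nat_lit 2)), ((nat_lit 1), (nat_lit 1)), ((nat_lit 18), (nat_lit 1)), ((nat_lit 5), (nat_lit 1)), ((nat_lit 0x80a9e044a), (nat_lit 6)), ((nat_lit 0x80a160285), (nat_lit 6)), ((nat_lit 0xa02a781128280a9e044a), (nat_lit 14)), ((nat_lit 0x80a0a02a781128280a9e044a80a0a02a781128280a9e044a), (nat_lit 32)), ((nat_lit 0x4280a9e044a0a02a78112810a02a781128280a9e044a), (nat_lit 30))] (nat_lit 0x52051f51e51d51c48b51b08f2ba090),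
.c (nat_lit 15) (nat_lit 0x81b80c1e408384022260129081c89a0c06f051c28203cc241e61006f0708d8303cc040de00099),
.i (nat_lit 2) (nat_lit 5) [((nat_lit 2), (nat_lit 1)), ((nat_lit 0x80a), (nat_lit 2)), ((nat_lit 1), (nat_lit 1)), ((nat_lit 18), (nat_lit 1)), ((nat_lit 5), (nat_lit 1)), ((nat_lit 0x80a9e044a), (nat_lit 6)), ((nat_lit 0x80a160285), (nat_lit 6)), ((nat_lit 0xa02a781128280a9e044a), (nat_lit 14)), ((nat_lit 0x80a0a02a781128280a9e044a80a0a02a781128280a9e044a), (nat_lit 32)), ((nat_lit 0x4280a9e044a0a02a78112810a02a781128280a9e044a), (nat_lit 30))] (nat_lit 0x52051f51e51d51c48b51b08f2ba090),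
.c (nat_lit 19) (nat_lit 0x1130046880600006522028e10140dc0c0f204523828474101361c0f30d03786046c2c1e614099030008101bc04132000f3),
.c (nat_lit 3) (nat_lit 0x278000b8024e2),
.c (nat_lit 3) (nat_lit 0x8bcc0000200051),
.c (nat_lit 4) (nat_lit 0x1062800014046ae0008d),
.c (nat_lit 4) (nat_lit 0x1032800004043e200007),
.c (nat_lit 5) (nat_lit 0xf5021b380827c047a600007),
.c (nat_lit 0) (nat_lit 0),
.c (nat_lit 3) (nat_lit 0x44408702020e7),
.c (nat_lit 4) (nat_lit 0x20328207c40c00e0a065),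
.c (nat_lit 2) (nat_lit 0xc1ea04007),
.i (nat_lit 2) (nat_lit 15) [((nat_lit 4), (nat_lit 1)), ((nat_lit 1), (nat_lit 1)), ((nat_lit 18), (nat_lit 1)), ((nat_lit 8), (nat_lit 1)), ((nat_lit 32), (nat_lit 1)), ((nat_lit 30), (nat_lit 1)), ((nat_lit 0x60060), (nat_lit 4)), ((nat_lit 0x4944), (nat_lit 3)), ((nat_lit 0x204065201944), (nat_lit 8)), ((nat_lit 0x12125812944), (nat_lit 7))] (nat_lit 0x52d52c52b52a4535295282aa08f096),
.c (nat_lit 3) (nat_lit 0x10018014ba00007),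
.i (nat_lit 2) (nat_lit 21) [((nat_lit 4), (nat_lit 1)), ((nat_lit 1), (nat_lit 1)), ((nat_lit 18), (nat_lit 1)), ((nat_lit 8), (nat_lit 1)), ((nat_lit 32), (nat_lit 1)), ((nat_lit 30), (nat_lit 1)), ((nat_lit 0x60060), (nat_lit 4)), ((nat_lit 0x4944), (nat_lit 3)), ((nat_lit 0x204065201944), (nat_lit 8)), ((nat_lit 0x12125812944), (nat_lit 7))] (nat_lit 0x52d52c52b52a4535295282aa08f096),
.c (nat_lit 31) (nat_lit 0x83c80000c020f4021e901a9780421c00a5e0000300a978014c008a5f031e98103d4054be00007020798183d4094be020f50052f83a97c187a60a0f50452f818f4c081ea02a5f000038103cc101e60810f),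
.i (nat_lit 2) (nat_lit 22) [((nat_lit 4), (nat_lit 1)), ((nat_lit 1), (nat_lit 1)), ((nat_lit 18), (nat_lit 1)), ((nat_lit 8), (nat_lit 1)), ((nat_lit 32), (nat_lit 1)), ((nat_lit 30), (nat_lit 1)), ((nat_lit 0x60060), (nat_lit 4)), ((nat_lit 0x4944), (nat_lit 3)), ((nat_lit 0x204065201944), (nat_lit 8)), ((nat_lit 0x12125812944), (nat_lit 7))] (nat_lit 0x52d52c52b52a4535295282aa08f096),
.c (nat_lit 14) (nat_lit 0xc0c0000717b038018203e010062015328087c4240c6100070700083043c140c600007),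
.i (nat_lit 2) (nat_lit 25) [((nat_lit 4), (nat_lit 1)), ((nat_lit 1), (nat_lit 1)), ((nat_lit 18), (nat_lit 1)), ((nat_lit 8), (nat_lit 1)), ((nat_lit 32), (nat_lit 1)), ((nat_lit 30), (nat_lit 1)), ((nat_lit 0x60060), (nat_lit 4)), ((nat_lit 0x4944), (nat_lit 3)), ((nat_lit 0x204065201944), (nat_lit 8)), ((nat_lit 0x12125812944), (nat_lit 7))] (nat_lit 0x52d52c52b52a4535295282aa08f096),
.c (nat_lit 7) (nat_lit 0x18043e004a5e000f80029a0054be00007),
.i (nat_lit 2) (nat_lit 26) [((nat_lit 4), (nat_lit 1)), ((nat_lit 1), (nat_lit 1)), ((nat_lit 18), (nat_lit 1)), ((nat_lit 8), (nat_lit 1)), ((nat_lit 32), (nat_lit 1)), ((nat_lit 30), (nat_lit 1)), ((nat_lit 0x60060), (nat_lit 4)), ((nat_lit 0x4944), (nat_lit 3)), ((nat_lit 0x204065201944), (nat_lit 8)), ((nat_lit 0x12125812944), (nat_lit 7))] (nat_lit 0x52d52c52b52a4535295282aa08f096),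
.c (nat_lit 26) (nat_lit 0xa7c022f6035368204440c3e20c10f0529f820bdc0c0ca0a063065338212ec214be12a6b0a08784818c254d614a5f090f884001c254d61006308087810004040c6000e7),
.i (nat_lit 2) (nat_lit 28) [((nat_lit 4), (nat_lit 1)), ((nat_lit 1), (nat_lit 1)), ((nat_lit 18), (nat_lit 1)), ((nat_lit 8), (nat_lit 1)), ((nat_lit 32), (nat_lit 1)), ((nat_lit 30), (nat_lit 1)), ((nat_lit 0x60060), (nat_lit 4)), ((nat_lit 0x4944), (nat_lit 3)), ((nat_lit 0x204065201944), (nat_lit 8)), ((nat_lit 0x12125812944), (nat_lit 7))] (nat_lit 0x52d52c52b52a4535295282aa08f096),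
.c (nat_lit 26) (nat_lit 0x13c020060608701a988141e404a5e0307a020f48154bc040060253803297c147a6080f50352f81001c101e604a630552f8203d40d4be040f5080878383cc0400e0009f)]

theorem c7 : chk db th.hy ths 1338 J7 1191 = true := by decide +kernel

set_option maxRecDepth 100000 in
/-- Justifications. -/
noncomputable def J8 : List Js := [
.i (nat_lit 2) (nat_lit 31) [((nat_lit 4), (nat_lit 1)), ((nat_lit 1), (nat_lit 1)), ((nat_lit 18), (nat_lit 1)), ((nat_lit 8), (nat_lit 1)), ((nat_lit 32), (nat_lit 1)), ((nat_lit 30), (nat_lit 1)), ((nat_lit 0x60060), (nat_lit 4)), ((nat_lit 0x4944), (nat_lit 3)), ((nat_lit 0x204065201944), (nat_lit 8)), ((nat_lit 0x12125812944), (nat_lit 7))] (nat_lit 0x52d52c52b52a4535295282aa08f096),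
.c (nat_lit 7) (nat_lit 0x18047a404a5e001e90029d0054be00007),
.c (nat_lit 14) (nat_lit 0x40000c10e0603103a9a81821c0c062075350129b8094cc06a6f0217b84043c0400200063),
.c (nat_lit 2) (nat_lit 0x54f000a6e),
.c (nat_lit 18) (nat_lit 0x4112000710227b8212141479a08517031158107c40400e080e1031108113dc040c604485033a0810c14045fa00005),
.c (nat_lit 4) (nat_lit 0x10448000140444200063),
.c (nat_lit 4) (nat_lit 0x1077800014046ca0009f),
.c (nat_lit 0) (nat_lit 0),
.c (nat_lit 5) (nat_lit 0x117021c18083b404aa600001),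
.c (nat_lit 0) (nat_lit 0),
.c (nat_lit 0) (nat_lit 0),
.i (nat_lit 2) (nat_lit 6) [((nat_lit 1), (nat_lit 1)), ((nat_lit 18), (nat_lit 1)), ((nat_lit 3), (nat_lit 1)), ((nat_lit 30), (nat_lit 1)), ((nat_lit 6), (nat_lit 1)), ((nat_lit 31), (nat_lit 1)), ((nat_lit 0x486486), (nat_lit 4)), ((nat_lit 0x899f21f2267c899f), (nat_lit 11)), ((nat_lit 0x48899f21f2267c899f48899f21f2267c899f), (nat_lit 24)), ((nat_lit 0xc899f21f2267c899f0c899f21f2267c899f), (nat_lit 24))] (nat_lit 0x54454354254154030d4530932aa08f),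
.c (nat_lit 5) (nat_lit 0x2a8a0804f83815c1813e00057),
.i (nat_lit 2) (nat_lit 9) [((nat_lit 1), (nat_lit 1)), ((nat_lit 18), (nat_lit 1)), ((nat_lit 3), (nat_lit 1)), ((nat_lit 30), (nat_lit 1)), ((nat_lit 6), (nat_lit 1)), ((nat_lit 31), (nat_lit 1)), ((nat_lit 0x486486), (nat_lit 4)), ((nat_lit 0x899f21f2267c899f), (nat_lit 11)), ((nat_lit 0x48899f21f2267c899f48899f21f2267c899f), (nat_lit 24)), ((nat_lit 0xc899f21f2267c899f0c899f21f2267c899f), (nat_lit 24))] (nat_lit 0x54454354254154030d4530932aa08f),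
.c (nat_lit 16) (nat_lit 0x3076001fe80c2280438203000040e081022c08a8f0507687018c3422a180ed03000810454040c6000ed),
.i (nat_lit 2) (nat_lit 20) [((nat_lit 1), (nat_lit 1)), ((nat_lit 18), (nat_lit 1)), ((nat_lit 3), (nat_lit 1)), ((nat_lit 30), (nat_lit 1)), ((nat_lit 6), (nat_lit 1)), ((nat_lit 31), (nat_lit 1)), ((nat_lit 0x486486), (nat_lit 4)), ((nat_lit 0x899f21f2267c899f), (nat_lit 11)), ((nat_lit 0x48899f21f2267c899f48899f21f2267c899f), (nat_lit 24)), ((nat_lit 0xc899f21f2267c899f0c899f21f2267c899f), (nat_lit 24))] (nat_lit 0x54454354254154030d4530932aa08f),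
.c (nat_lit 4) (nat_lit 0x304f020d88015260809f),
.i (nat_lit 2) (nat_lit 25) [((nat_lit 1), (nat_lit 1)), ((nat_lit 18), (nat_lit 1)), ((nat_lit 3), (nat_lit 1)), ((nat_lit 30), (nat_lit 1)), ((nat_lit 6), (nat_lit 1)), ((nat_lit 31), (nat_lit 1)), ((nat_lit 0x486486), (nat_lit 4)), ((nat_lit 0x899f21f2267c899f), (nat_lit 11)), ((nat_lit 0x48899f21f2267c899f48899f21f2267c899f), (nat_lit 24)), ((nat_lit 0xc899f21f2267c899f0c899f21f2267c899f), (nat_lit 24))] (nat_lit 0x54454354254154030d4530932aa08f),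
.c (nat_lit 23) (nat_lit 0x8188081d8060620454803845018704080ec051c1009fe8095200aa900054b022a4405522007fb041c18183b4147060c1150354881018c041da00063),
.i (nat_lit 2) (nat_lit 30) [((nat_lit 1), (nat_lit 1)), ((nat_lit 18), (nat_lit 1)), ((nat_lit 3), (nat_lit 1)), ((nat_lit 30), (nat_lit 1)), ((nat_lit 6), (nat_lit 1)), ((nat_lit 31), (nat_lit 1)), ((nat_lit 0x486486), (nat_lit 4)), ((nat_lit 0x899f21f2267c899f), (nat_lit 11)), ((nat_lit 0x48899f21f2267c899f48899f21f2267c899f), (nat_lit 24)), ((nat_lit 0xc899f21f2267c899f0c899f21f2267c899f), (nat_lit 24))] (nat_lit 0x54454354254154030d4530932aa08f),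
.c (nat_lit 4) (nat_lit 0x304f020d90015360809f),
.i (nat_lit 2) (nat_lit 31) [((nat_lit 1), (nat_lit 1)), ((nat_lit 18), (nat_lit 1)), ((nat_lit 3), (nat_lit 1)), ((nat_lit 30), (nat_lit 1)), ((nat_lit 6), (nat_lit 1)), ((nat_lit 31), (nat_lit 1)), ((nat_lit 0x486486), (nat_lit 4)), ((nat_lit 0x899f21f2267c899f), (nat_lit 11)), ((nat_lit 0x48899f21f2267c899f48899f21f2267c899f), (nat_lit 24)), ((nat_lit 0xc899f21f2267c899f0c899f21f2267c899f), (nat_lit 24))] (nat_lit 0x54454354254154030d4530932aa08f),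
.c (nat_lit 23) (nat_lit 0x8188081d8060620454803845018704080ec051c1009fe8095200aa900054f022a4405522007fb041c18183b4147060c1150354881018c041da00063),
.i (nat_lit 2) (nat_lit 35) [((nat_lit 1), (nat_lit 1)), ((nat_lit 18), (nat_lit 1)), ((nat_lit 3), (nat_lit 1)), ((nat_lit 30), (nat_lit 1)), ((nat_lit 6), (nat_lit 1)), ((nat_lit 31), (nat_lit 1)), ((nat_lit 0x486486), (nat_lit 4)), ((nat_lit 0x899f21f2267c899f), (nat_lit 11)), ((nat_lit 0x48899f21f2267c899f48899f21f2267c899f), (nat_lit 24)), ((nat_lit 0xc899f21f2267c899f0c899f21f2267c899f), (nat_lit 24))] (nat_lit 0x54454354254154030d4530932aa08f),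
.c (nat_lit 27) (nat_lit 0x158140c40c0ec07031042a402c2281438208076048e0814ff40ca900954800aa881552204a91013fd828e0c101da0c3830708a822a440c0c6040ed0103180aa841413e00057),
.i (nat_lit 2) (nat_lit 41) [((nat_lit 1), (nat_lit 1)), ((nat_lit 18), (nat_lit 1)), ((nat_lit 3), (nat_lit 1)), ((nat_lit 30), (nat_lit 1)), ((nat_lit 6), (nat_lit 1)), ((nat_lit 31), (nat_lit 1)), ((nat_lit 0x486486), (nat_lit 4)), ((nat_lit 0x899f21f2267c899f), (nat_lit 11)), ((nat_lit 0x48899f21f2267c899f48899f21f2267c899f), (nat_lit 24)), ((nat_lit 0xc899f21f2267c899f0c899f21f2267c899f), (nat_lit 24))] (nat_lit 0x54454354254154030d4530932aa08f),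
.c (nat_lit 24) (nat_lit 0x1002018398106fc0aa9802085012a9c0d52a0c3630c54884aa4420ff6183830b076868e0c3822a16a910a0318483b4200c6101150707383027c0400a00057),
.c (nat_lit 12) (nat_lit 0x10310103b00c0c408a900708a030e08101d80a382013fd012a401552000552),
.c (nat_lit 9) (nat_lit 0xe09e0504f021778055500086c0255482827c1022a06109),
.c (nat_lit 6) (nat_lit 0x3c13c1c5de0d271052aa00d55000870),
.c (nat_lit 9) (nat_lit 0x560504f009a3809550029d50155482027c1413e00057),
.c (nat_lit 10) (nat_lit 0x82280609e0102b012aa00551802aa90404f81aa841022a00057),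
.c (nat_lit 5) (nat_lit 0x5601554002a700955202057),
.c (nat_lit 11) (nat_lit 0x1580c13c061140404f00aaa00554804aa90155082827c1022a00057),
.c (nat_lit 2) (nat_lit 0x1d56c00aac),
.c (nat_lit 22) (nat_lit 0xc172041cd0105c80073428172121cd0805c8387341865a0a0b9040e6818cb408172021cd000018102dc1016e0295b0002881021c012be06087),
.c (nat_lit 5) (nat_lit 0xa7021a68081ec048d200003),
.c (nat_lit 0) (nat_lit 0),
.c (nat_lit 0) (nat_lit 0),
.c (nat_lit 0) (nat_lit 0),
.c (nat_lit 0) (nat_lit 0),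
.i (nat_lit 2) (nat_lit 5) [((nat_lit 4), (nat_lit 1)), ((nat_lit 2), (nat_lit 1)), ((nat_lit 12), (nat_lit 1)), ((nat_lit 9), (nat_lit 1)), ((nat_lit 0x10c10c), (nat_lit 4)), ((nat_lit 0x71471531c51c5), (nat_lit 9)), ((nat_lit 0x8430430210c10c), (nat_lit 10)), ((nat_lit 0x1071471531c51c51071471531c51c5), (nat_lit 20)), ((nat_lit 0x841c51c54c71471441c51c54c71471421071471531c51c51071471531c51c5), (nat_lit 42)), ((nat_lit 0x3041c51c54c71471441c51c54c714714c1071471531c51c51071471531c51c5), (nat_lit 42))] (nat_lit 0x56256156055f55e4ed2f22a5090096),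
.c (nat_lit 19) (nat_lit 0x80080c0f40834c02053012b1c0c99e0833d05267830cf41876a0a0510402e820cf41499e0c33d0703d8301740400600051),
.c (nat_lit 7) (nat_lit 0x10170040a004ac80111f00ab240c0ba00051),
.c (nat_lit 10) (nat_lit 0xa00607a041a6008ed00d596044cf01564828294100f600051),
.c (nat_lit 12) (nat_lit 0x102e012b30055980205002564008290040b804acc015660081400959000468),
.c (nat_lit 17) (nat_lit 0x205c0205200ab30040a004ac803565012b30055940205c0205200ab30040a004ac803565012b3005594004fc),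
.c (nat_lit 3) (nat_lit 0x1ab300959000720),
.c (nat_lit 4) (nat_lit 0x61a602ab3011590007de),
.c (nat_lit 3) (nat_lit 0xbab305959000828),
.c (nat_lit 4) (nat_lit 0x1a5660d01406d5900082a),
.c (nat_lit 2) (nat_lit 0x559800ac8),
.c (nat_lit 6) (nat_lit 0x460e00095020498081a40460e00005),
.c (nat_lit 0) (nat_lit 0),
.c (nat_lit 0) (nat_lit 0),
.c (nat_lit 0) (nat_lit 0),
.c (nat_lit 0) (nat_lit 0),
.c (nat_lit 0) (nat_lit 0),
.i (nat_lit 2) (nat_lit 6) [((nat_lit 3), (nat_lit 1)), ((nat_lit 5), (nat_lit 1)), ((nat_lit 0x409), (nat_lit 2)), ((nat_lit 0xc50c5), (nat_lit 4)), ((nat_lit 16), (nat_lit 1)), ((nat_lit 0x150245409), (nat_lit 6)), ((nat_lit 0x150150), (nat_lit 4)), ((nat_lit 0xc5409150243150245409), (nat_lit 14)), ((nat_lit 0x1431502454090c54091502450c5409150243150245409), (nat_lit 30)), ((nat_lit 0x4090c54091502431502454094090c5409150243150245409), (nat_lit 32))] (nat_lit 0x57357257157056f56e3cb13b09f093),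
.c (nat_lit 5) (nat_lit 0xae80702883024c140a208093),
.i (nat_lit 2) (nat_lit 30) [((nat_lit 3), (nat_lit 1)), ((nat_lit 5), (nat_lit 1)), ((nat_lit 0x409), (nat_lit 2)), ((nat_lit 0xc50c5), (nat_lit 4)), ((nat_lit 16), (nat_lit 1)), ((nat_lit 0x150245409), (nat_lit 6)), ((nat_lit 0x150150), (nat_lit 4)), ((nat_lit 0xc5409150243150245409), (nat_lit 14)), ((nat_lit 0x1431502454090c54091502450c5409150243150245409), (nat_lit 30)), ((nat_lit 0x4090c54091502431502454094090c5409150243150245409), (nat_lit 32))] (nat_lit 0x57357257157056f56e3cb13b09f093),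
.c (nat_lit 19) (nat_lit 0x2814018124040680311302014014ea00caea02576012bac1444e0c093053a88201440c44e0a6e3041138181a4040a200093),
.i (nat_lit 2) (nat_lit 39) [((nat_lit 2), (nat_lit 1)), ((nat_lit 6), (nat_lit 1)), ((nat_lit 1), (nat_lit 1)), ((nat_lit 11), (nat_lit 1)), ((nat_lit 5), (nat_lit 1)), ((nat_lit 0), (nat_lit 0)), ((nat_lit 0x185185), (nat_lit 4)), ((nat_lit 0), (nat_lit 0)), ((nat_lit 0), (nat_lit 0)), ((nat_lit 0), (nat_lit 0))] (nat_lit 0x3113ad34045031648b40308f0a2090),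
.c (nat_lit 7) (nat_lit 0x10d38015e200703050558201ec0c0ea0407b),
.i (nat_lit 2) (nat_lit 41) [((nat_lit 2), (nat_lit 1)), ((nat_lit 6), (nat_lit 1)), ((nat_lit 1), (nat_lit 1)), ((nat_lit 11), (nat_lit 1)), ((nat_lit 5), (nat_lit 1)), ((nat_lit 0), (nat_lit 0)), ((nat_lit 0x185185), (nat_lit 4)), ((nat_lit 0), (nat_lit 0)), ((nat_lit 0), (nat_lit 0)), ((nat_lit 0), (nat_lit 0))] (nat_lit 0x3113ad34045031648b40308f0a2090),
.c (nat_lit 101) (nat_lit 0x20000d02b0707f03c854203da110fe0701e8380e81e0aa0f03d080d38440e82407a0d0fe0710a83c7b4201fc112150581e83069c1207a0a1a6048d30200a012ada0a2670582a830e041a4ce0e56507abc82c0e81805c0d03a0720504067822acc1202b0993c850148260501456d0aab2858474324ce1a5790d1c086c1543607a1c1a70e81d0780f43042a190fe0d10a86c7b4381fc1d2150b9338615e40a0aa0503d030d381c0e81007a03028021338155e40a7020656d0382a81c0f41034e0619e0392b8200e81207a03267022bc8095ac04af50338181abcc200f60e075061a78281ec14156081fd0538182abcc280f612075081a78381ec1c1560c1fd0703a83015c0400200051),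
.c (nat_lit 7) (nat_lit 0x102a8080f40634e0403a0281e8015e400702),
.c (nat_lit 3) (nat_lit 0x72050055ec00ad2),
.c (nat_lit 3) (nat_lit 0x820500d5ec00ad4),
.c (nat_lit 88) (nat_lit 0x6a0fe3590a9b07b4da1fc600522f2b697d594c0af65040a220290986984e0741c03a0e829061028180a4081a6021338155f00cada07267042be0255b414aca0b57b062b68355941caf80f579082b28455f0244ce1357c0a2b68555f02caf21757c0c1338655e434af81b2670e2b28755f03c4ce1f57c101338855e444af823267122be09499c4caf82756d142b28a55ec2e0741805209a0501c1480805005267032be01d5b410aca0957b052b682d59418af80d579072b283d5f0204ce11579092be04c99c28af81556d0b02a8580f42e34e1519e0b12b85c0e83007a0457b029338195e400ad8),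
.c (nat_lit 5) (nat_lit 0x691023a68081bc04d1e00057),
.c (nat_lit 5) (nat_lit 0xaa90304f812a840556600057),
.i (nat_lit 2) (nat_lit 7) [((nat_lit 2), (nat_lit 1)), ((nat_lit 6), (nat_lit 1)), ((nat_lit 10), (nat_lit 1)), ((nat_lit 11), (nat_lit 1)), ((nat_lit 18), (nat_lit 1)), ((nat_lit 28), (nat_lit 1)), ((nat_lit 0x9a4), (nat_lit 2)), ((nat_lit 0x9c09c), (nat_lit 4)), ((nat_lit 0x18270270609c09c), (nat_lit 10)), ((nat_lit 0x28270270a09c09c), (nat_lit 10))] (nat_lit 0x4f14f24d55815803bf4030ae0a2090),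
.c (nat_lit 4) (nat_lit 0x2b00ac100555200057),
.i (nat_lit 2) (nat_lit 20) [((nat_lit 2), (nat_lit 1)), ((nat_lit 6), (nat_lit 1)), ((nat_lit 10), (nat_lit 1)), ((nat_lit 11), (nat_lit 1)), ((nat_lit 18), (nat_lit 1)), ((nat_lit 28), (nat_lit 1)), ((nat_lit 0x9a4), (nat_lit 2)), ((nat_lit 0x9c09c), (nat_lit 4)), ((nat_lit 0x18270270609c09c), (nat_lit 10)), ((nat_lit 0x28270270a09c09c), (nat_lit 10))] (nat_lit 0x4f14f24d55815803bf4030ae0a2090),
.c (nat_lit 1) (nat_lit 0xb08),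
.c (nat_lit 5) (nat_lit 0xc5021ab8082340532e00005),
.c (nat_lit 20) (nat_lit 0x3047810bd40411e002f50a047848bd42011e0e2f5061f982823c105ea063f302047808bd4000020408d04046809d94000ae04069),
.i (nat_lit 2) (nat_lit 20) [((nat_lit 9), (nat_lit 1)), ((nat_lit 3), (nat_lit 1)), ((nat_lit 1), (nat_lit 1)), ((nat_lit 16), (nat_lit 1)), ((nat_lit 15), (nat_lit 1)), ((nat_lit 6), (nat_lit 1)), ((nat_lit 24), (nat_lit 1)), ((nat_lit 0x246246), (nat_lit 4)), ((nat_lit 0x409190189), (nat_lit 6)), ((nat_lit 0x3c918f189), (nat_lit 6))] (nat_lit 0x5874ef3aa58649446d3b808f0930ab),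
.c (nat_lit 1) (nat_lit 0xb10),
.i (nat_lit 2) (nat_lit 30) [((nat_lit 9), (nat_lit 1)), ((nat_lit 3), (nat_lit 1)), ((nat_lit 1), (nat_lit 1)), ((nat_lit 16), (nat_lit 1)), ((nat_lit 15), (nat_lit 1)), ((nat_lit 6), (nat_lit 1)), ((nat_lit 24), (nat_lit 1)), ((nat_lit 0x246246), (nat_lit 4)), ((nat_lit 0x409190189), (nat_lit 6)), ((nat_lit 0x3c918f189), (nat_lit 6))] (nat_lit 0x5874ef3aa58649446d3b808f0930ab),
.c (nat_lit 1) (nat_lit 0xb14),
.i (nat_lit 2) (nat_lit 35) [((nat_lit 9), (nat_lit 1)), ((nat_lit 3), (nat_lit 1)), ((nat_lit 1), (nat_lit 1)), ((nat_lit 16), (nat_lit 1)), ((nat_lit 15), (nat_lit 1)), ((nat_lit 6), (nat_lit 1)), ((nat_lit 24), (nat_lit 1)), ((nat_lit 0x246246), (nat_lit 4)), ((nat_lit 0x409190189), (nat_lit 6)), ((nat_lit 0x3c918f189), (nat_lit 6))] (nat_lit 0x5874ef3aa58649446d3b808f0930ab),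
.c (nat_lit 23) (nat_lit 0x81a0080ac0c068071a00408982468014226072170383080d63206b17044d384ac5c2934e1e0c30e049868234301261608d0a03481015c040d20008d),
.i (nat_lit 2) (nat_lit 39) [((nat_lit 9), (nat_lit 1)), ((nat_lit 3), (nat_lit 1)), ((nat_lit 1), (nat_lit 1)), ((nat_lit 16), (nat_lit 1)), ((nat_lit 15), (nat_lit 1)), ((nat_lit 6), (nat_lit 1)), ((nat_lit 24), (nat_lit 1)), ((nat_lit 0x246246), (nat_lit 4)), ((nat_lit 0x409190189), (nat_lit 6)), ((nat_lit 0x3c918f189), (nat_lit 6))] (nat_lit 0x5874ef3aa58649446d3b808f0930ab),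
.c (nat_lit 20) (nat_lit 0x10460101a00c68008226051a001ac7410682062270a1138481a41c5620c0570458d84824c2011a1408d090348101a40411a00057),
.i (nat_lit 2) (nat_lit 41) [((nat_lit 9), (nat_lit 1)), ((nat_lit 3), (nat_lit 1)), ((nat_lit 1), (nat_lit 1)), ((nat_lit 16), (nat_lit 1)), ((nat_lit 15), (nat_lit 1)), ((nat_lit 6), (nat_lit 1)), ((nat_lit 24), (nat_lit 1)), ((nat_lit 0x246246), (nat_lit 4)), ((nat_lit 0x409190189), (nat_lit 6)), ((nat_lit 0x3c918f189), (nat_lit 6))] (nat_lit 0x5874ef3aa58649446d3b808f0930ab),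
.c (nat_lit 36) (nat_lit 0x1000020248144e00a08c061d40302481c4e00808c05217040ea00c6b4089a6030490209c015624040d002590822c5c1534e14b170858f832c7c0cef60c093094d3840d041c44e0c3410904684024c1c11a100c3070498301a40400200057),
.c (nat_lit 11) (nat_lit 0x103a4041360000103465810d1c0468a0006f014578002640813e04363),
.c (nat_lit 9) (nat_lit 0x44e3013a9800174046ca0471b011a38001bc046ca0009f),
.c (nat_lit 5) (nat_lit 0x117021c18083b40555600001),
.c (nat_lit 0) (nat_lit 0),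
.c (nat_lit 0) (nat_lit 0),
.c (nat_lit 0) (nat_lit 0),
.i (nat_lit 2) (nat_lit 20) [((nat_lit 0x48a), (nat_lit 2)), ((nat_lit 1), (nat_lit 1)), ((nat_lit 7), (nat_lit 1)), ((nat_lit 0x792452), (nat_lit 4)), ((nat_lit 31), (nat_lit 1)), ((nat_lit 12), (nat_lit 1)), ((nat_lit 38), (nat_lit 1)), ((nat_lit 0x48a31228c), (nat_lit 6)), ((nat_lit 0x5228c48a30148a31228c), (nat_lit 14)), ((nat_lit 0x1d228c48a30748a31228c), (nat_lit 14))] (nat_lit 0x5975965955943335935920a508f24d),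
.c (nat_lit 5) (nat_lit 0x60e60454c002cc0101ce0609f),
.i (nat_lit 2) (nat_lit 30) [((nat_lit 0x48a), (nat_lit 2)), ((nat_lit 1), (nat_lit 1)), ((nat_lit 7), (nat_lit 1)), ((nat_lit 0x792452), (nat_lit 4)), ((nat_lit 31), (nat_lit 1)), ((nat_lit 12), (nat_lit 1)), ((nat_lit 38), (nat_lit 1)), ((nat_lit 0x48a31228c), (nat_lit 6)), ((nat_lit 0x5228c48a30148a31228c), (nat_lit 14)), ((nat_lit 0x1d228c48a30748a31228c), (nat_lit 14))] (nat_lit 0x5975965955943335935920a508f24d),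
.c (nat_lit 1) (nat_lit 0xb34),
.i (nat_lit 2) (nat_lit 41) [((nat_lit 0x48a), (nat_lit 2)), ((nat_lit 1), (nat_lit 1)), ((nat_lit 7), (nat_lit 1)), ((nat_lit 0x792452), (nat_lit 4)), ((nat_lit 31), (nat_lit 1)), ((nat_lit 12), (nat_lit 1)), ((nat_lit 38), (nat_lit 1)), ((nat_lit 0x48a31228c), (nat_lit 6)), ((nat_lit 0x5228c48a30148a31228c), (nat_lit 14)), ((nat_lit 0x1d228c48a30748a31228c), (nat_lit 14))] (nat_lit 0x5975965955943335935920a508f24d),
.c (nat_lit 25) (nat_lit 0x209e002710717783c4e0206a61004f088d8830d5c1a3620c351060278346c40cb360159c019acc341ce1809f0b06785027c240f61009f070498301ec141260009f),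
.c (nat_lit 4) (nat_lit 0x102f80000c0440200005),
.c (nat_lit 0) (nat_lit 0),
.c (nat_lit 0) (nat_lit 0),
.i (nat_lit 2) (nat_lit 20) [((nat_lit 3), (nat_lit 1)), ((nat_lit 2), (nat_lit 1)), ((nat_lit 1), (nat_lit 1)), ((nat_lit 7), (nat_lit 1)), ((nat_lit 6), (nat_lit 1)), ((nat_lit 5), (nat_lit 1)), ((nat_lit 11), (nat_lit 1)), ((nat_lit 0xc50c5), (nat_lit 4)), ((nat_lit 0x831431420c50c5), (nat_lit 10)), ((nat_lit 0x431431410c50c5), (nat_lit 10))] (nat_lit 0x5a059f3cb40348b49459e08f090093),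
.c (nat_lit 1) (nat_lit 0xb42),
.c (nat_lit 6) (nat_lit 0xc136043eb0104d8000041068a0606f),
.c (nat_lit 6) (nat_lit 0xcea6044af013a980017410e360606f),
.c (nat_lit 0) (nat_lit 0),
.c (nat_lit 0) (nat_lit 0),
.c (nat_lit 0) (nat_lit 0),
.c (nat_lit 0) (nat_lit 0),
.i (nat_lit 2) (nat_lit 0) [((nat_lit 0xa50a), (nat_lit 3)), ((nat_lit 1), (nat_lit 1)), ((nat_lit 7), (nat_lit 1)), ((nat_lit 0x29445444a), (nat_lit 6)), ((nat_lit 0x2947d47ca), (nat_lit 6)), ((nat_lit 12), (nat_lit 1)), ((nat_lit 0x4a51f51f2812947d47ca), (nat_lit 14)), ((nat_lit 0x29428c29428c), (nat_lit 8)), ((nat_lit 0x4a50a30a50a30129428c29428c), (nat_lit 18)), ((nat_lit 0x1ca50a30a50a30729428c29428c), (nat_lit 18))] (nat_lit 0x5a85a75a65a53335a45a30a508f2ab),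
.c (nat_lit 9) (nat_lit 0x206e025a90381bc2c0de140ab0904c8402ac040de00099),
.c (nat_lit 11) (nat_lit 0x92f81162c0809205589028230181240e0c203217030d58156240041c),
.c (nat_lit 32) (nat_lit 0x2061008248084e00408c031d4018248104e00208c02217028ea0040d00435a034d300815809644027640159182269c0c6b604069061d48190bc0811a0a27104049820ea40c11a062710204981ac5c1018600057),
.c (nat_lit 34) (nat_lit 0x40ac0a092061380302301c7500e092081380282301885c123a805034030d681d34c044de0326d022c8808ed204b23054d3820d6c0c0d20e3a904217818234184e20a093051d4820234104e20609307034830264040ae000cf),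
.c (nat_lit 17) (nat_lit 0xc0980206701ad68081240627003046020ea0101240a270020460190b81875004068031ad022698056440089e),
.c (nat_lit 32) (nat_lit 0x102b020248144e00a08c061d40302481c4e00808c05217040ea0100d00a35a064d30107f00d644049870259182a69c106b606069071d48210bc0c11a0c27105049828ea41011a08271030498301a4040ae000cf),
.c (nat_lit 2) (nat_lit 0x560c00aa8),
.c (nat_lit 2) (nat_lit 0x1160c00aae),
.c (nat_lit 9) (nat_lit 0x9e0408a008d900960c02ab501583818e0c1022a0009f),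
.c (nat_lit 3) (nat_lit 0x8cf00968800af6),
.c (nat_lit 14) (nat_lit 0x4467824b440d03a0381702159812b440a25705ab30316881a33c0e5a2010cf00d68800afa),
.c (nat_lit 23) (nat_lit 0x4ab3029688164ae0c56606ad10386781e4ae105a2088cf04959826b440f03a0481702959816b440c25706ab30396881e33c105a2020cf01568800afc),
.c (nat_lit 157) (nat_lit 0xa205c5219e29ad112c0e882acc425a22192b9115988ab444619e2392b9216889233c4a5a22381d1040b884acc435a22212b9155988cb444719e242d103d59820b4411257092b304d6882833c152570b2d105c678304ae195a20d0cf06d59838b441d19e0f2d107c67840acc21257112d108c67848b442519e132d109c678504ae295a2150cf0ad6885833c2d566172d10bc67860b443119e192d10cc678684ae355a21b0cf0dd6887033c395a21d0cf0ed6887833c3d5a20781704159822b441225709ab30516882a33c162570bad1060678324ae1a5a20d8cf0715983ab441e19e0fad108067842acc2225711ad10906784ab442619e13ad10a0678524ae2a5a2158cf0b16885a33c2e56617ad10c067862b443219e19ad10d06786a4ae365a21b8cf0e16887233c3a5a21d8cf0f16881eacc105a20892b84959826b441419e0a92b8596882e33c182570cad106867836acc1c5a20e8cf0796882a0740f02e082b3045688244ae135660a2d10546782cb440519e032d101c67810acc095a2050cf02d6880a05c0619e03ad102067812acc0a5a2028cf01968800afe),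
.c (nat_lit 14) (nat_lit 0x564600057024d3808d6c000d2083a9012178002340c4e204093021d4808234044e200093),
.c (nat_lit 0) (nat_lit 0),
.c (nat_lit 115) (nat_lit 0x187f409646021fd0059181ad7c0819e089a7031ad840ea41485e0808d0713883024c187520a08d0513882024c1d6be0c0cf055af82033c2134e0e35b064d3828d6c0857202069081d48290bc1011a0e27106049830ea41411a0a27104049828d5c107520cb1305138838d5c1875210b1307138850ea4246ae103a905217820234244e210b130713883024c207520e357061d48282341c4e20cb130513882024c1d6be0c0cf055af82033c0c0ea0c9a7051ad82269c0c6b604069061d48190bc0811a0a27104049820ea40c11a0627102049818d5c0875208b1303138828d5c107520cb1305138840ea41c6ae0c3a9032178102341c4e20cb130513882024c187520a357041d4818234144e208b130313881024c156be080cf035af81033c040ea08b17035ac812c5c056b200057),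
.i (nat_lit 2) (nat_lit 2) [((nat_lit 9), (nat_lit 1)), ((nat_lit 2), (nat_lit 1)), ((nat_lit 6), (nat_lit 1)), ((nat_lit 0), (nat_lit 0)), ((nat_lit 0x61a), (nat_lit 2)), ((nat_lit 11), (nat_lit 1)), ((nat_lit 0x9868261a), (nat_lit 6)), ((nat_lit 0x2c92c9), (nat_lit 4)), ((nat_lit 0), (nat_lit 0)), ((nat_lit 0x61a61a), (nat_lit 4))] (nat_lit 0x5b94c04bf5b84035b74bd0a20900ab),
.c (nat_lit 3) (nat_lit 0x2dd00c186040cf),
.i (nat_lit 2) (nat_lit 31) [((nat_lit 9), (nat_lit 1)), ((nat_lit 2), (nat_lit 1)), ((nat_lit 6), (nat_lit 1)), ((nat_lit 0), (nat_lit 0)), ((nat_lit 0x61a), (nat_lit 2)), ((nat_lit 11), (nat_lit 1)), ((nat_lit 0x9868261a), (nat_lit 6)), ((nat_lit 0x2c92c9), (nat_lit 4)), ((nat_lit 0), (nat_lit 0)), ((nat_lit 0x61a61a), (nat_lit 4))] (nat_lit 0x5b94c04bf5b84035b74bd0a20900ab),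
.c (nat_lit 17) (nat_lit 0x68055bb00ade4056ee0435b014d3830d5c0c85e0408d0558982024c106ae0608d0358981024c180ea00069),
.c (nat_lit 0) (nat_lit 0),
.c (nat_lit 2) (nat_lit 0xd4921011b),
.c (nat_lit 0) (nat_lit 0),
.c (nat_lit 2) (nat_lit 0xd48a0811b),
.c (nat_lit 0) (nat_lit 0),
.c (nat_lit 0) (nat_lit 0),
.i (nat_lit 2) (nat_lit 3) [((nat_lit 0x271e7), (nat_lit 3)), ((nat_lit 1), (nat_lit 1)), ((nat_lit 10), (nat_lit 1)), ((nat_lit 0x9c79c19c79c1), (nat_lit 8)), ((nat_lit 0x9c74604602879ca), (nat_lit 10)), ((nat_lit 17), (nat_lit 1)), ((nat_lit 0x671d181180a1e72819c74604602879ca), (nat_lit 22)), ((nat_lit 0x9c74479d1), (nat_lit 6)), ((nat_lit 0x671d11e74419c74479d1), (nat_lit 14)), ((nat_lit 0x2a71d11e744a9c74479d1), (nat_lit 14))] (nat_lit 0x5c35c25c15c030e5bf5be0ae08f2bb),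
.c (nat_lit 41) (nat_lit 0x5c0108d0102600c1e408098050790101b80c6880844c051a20311301d4900c38405522020e100d4880805c0508d012e241149212a49081a28391341868a0a44d0403786046c4c2362405d1104c8803cc3c1321c0f30d0378601742c132140f30904c8403cc042360005d),
.c (nat_lit 5) (nat_lit 0xb3021a8808204047d200005),
.c (nat_lit 5) (nat_lit 0xb90214380821c0465a00003),
.c (nat_lit 0) (nat_lit 0),
.c (nat_lit 7) (nat_lit 0xf941416e082210310a8108840442a00063),
.i (nat_lit 2) (nat_lit 20) [((nat_lit 2), (nat_lit 1)), ((nat_lit 3), (nat_lit 1)), ((nat_lit 8), (nat_lit 1)), ((nat_lit 7), (nat_lit 1)), ((nat_lit 13), (nat_lit 1)), ((nat_lit 14), (nat_lit 1)), ((nat_lit 21), (nat_lit 1)), ((nat_lit 22), (nat_lit 1)), ((nat_lit 0xd60d6), (nat_lit 4)), ((nat_lit 0x38d38d), (nat_lit 4))] (nat_lit 0x5c95c85c75c63b53833d20a8093090),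
.c (nat_lit 1) (nat_lit 0xb94),
.i (nat_lit 2) (nat_lit 25) [((nat_lit 2), (nat_lit 1)), ((nat_lit 3), (nat_lit 1)), ((nat_lit 8), (nat_lit 1)), ((nat_lit 7), (nat_lit 1)), ((nat_lit 13), (nat_lit 1)), ((nat_lit 14), (nat_lit 1)), ((nat_lit 21), (nat_lit 1)), ((nat_lit 22), (nat_lit 1)), ((nat_lit 0xd60d6), (nat_lit 4)), ((nat_lit 0x38d38d), (nat_lit 4))] (nat_lit 0x5c95c85c75c63b53833d20a8093090),
.c (nat_lit 1) (nat_lit 0xb98),
.i (nat_lit 2) (nat_lit 35) [((nat_lit 2), (nat_lit 1)), ((nat_lit 3), (nat_lit 1)), ((nat_lit 8), (nat_lit 1)), ((nat_lit 7), (nat_lit 1)), ((nat_lit 13), (nat_lit 1)), ((nat_lit 14), (nat_lit 1)), ((nat_lit 21), (nat_lit 1)), ((nat_lit 22), (nat_lit 1)), ((nat_lit 0xd60d6), (nat_lit 4)), ((nat_lit 0x38d38d), (nat_lit 4))] (nat_lit 0x5c95c85c75c63b53833d20a8093090)]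

theorem c8 : chk db th.hy ths 1487 J8 1338 = true := by decide +kernel

set_option maxRecDepth 100000 in
/-- Justifications. -/
noncomputable def J9 : List Js := [
.c (nat_lit 1) (nat_lit 0xb9c),
.i (nat_lit 2) (nat_lit 37) [((nat_lit 2), (nat_lit 1)), ((nat_lit 3), (nat_lit 1)), ((nat_lit 8), (nat_lit 1)), ((nat_lit 7), (nat_lit 1)), ((nat_lit 13), (nat_lit 1)), ((nat_lit 14), (nat_lit 1)), ((nat_lit 21), (nat_lit 1)), ((nat_lit 22), (nat_lit 1)), ((nat_lit 0xd60d6), (nat_lit 4)), ((nat_lit 0x38d38d), (nat_lit 4))] (nat_lit 0x5c95c85c75c63b53833d20a8093090),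
.c (nat_lit 2) (nat_lit 0x574000081),
.i (nat_lit 2) (nat_lit 41) [((nat_lit 2), (nat_lit 1)), ((nat_lit 3), (nat_lit 1)), ((nat_lit 8), (nat_lit 1)), ((nat_lit 7), (nat_lit 1)), ((nat_lit 13), (nat_lit 1)), ((nat_lit 14), (nat_lit 1)), ((nat_lit 21), (nat_lit 1)), ((nat_lit 22), (nat_lit 1)), ((nat_lit 0xd60d6), (nat_lit 4)), ((nat_lit 0x38d38d), (nat_lit 4))] (nat_lit 0x5c95c85c75c63b53833d20a8093090),
.c (nat_lit 4) (nat_lit 0x25cf002e940c16e040b1),
.c (nat_lit 3) (nat_lit 0x4500000002aaa),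
.c (nat_lit 5) (nat_lit 0x751023718081a404e9e00051),
.c (nat_lit 3) (nat_lit 0x10bcc0555600001),
.c (nat_lit 3) (nat_lit 0x1023c0555600001),
.c (nat_lit 0) (nat_lit 0),
.c (nat_lit 0) (nat_lit 0),
.c (nat_lit 0) (nat_lit 0),
.c (nat_lit 0) (nat_lit 0),
.i (nat_lit 2) (nat_lit 17) [((nat_lit 5), (nat_lit 1)), ((nat_lit 9), (nat_lit 1)), ((nat_lit 0x981), (nat_lit 2)), ((nat_lit 23), (nat_lit 1)), ((nat_lit 0x166166), (nat_lit 4)), ((nat_lit 0x998f266), (nat_lit 5)), ((nat_lit 0x245985989166166), (nat_lit 10)), ((nat_lit 0x14998f26614998f266), (nat_lit 12)), ((nat_lit 0x2452663c99852663c998914998f26614998f266), (nat_lit 26)), ((nat_lit 0x98114998f26614998f26698114998f26614998f266), (nat_lit 28))] (nat_lit 0x5db5da5d95d85d75d65d55d40ab09f),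
.c (nat_lit 12) (nat_lit 0x10450057700a08f04555818fcc0811e02aab040468384541811a00001),
.c (nat_lit 4) (nat_lit 0x6058028d401172c003e2),
.c (nat_lit 31) (nat_lit 0x1700c10c0839804040028d401410c0c398030400210681c6a006062041b4028f900467804ba60135580ae9c107ca0636902031830d440c83604081051cc82021c106a206081031cc81021c140c60005d),
.c (nat_lit 33) (nat_lit 0x5c04043028e60141000c35006043038e60101000a41a081a8020188146d00c3e4012730113880d74c026b7015d3820f940c6d204063061a881906c081020a39904043820d440c102063990204383018c1413e0005d),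
.c (nat_lit 16) (nat_lit 0x15df0082180873004080031a801821810730020800220d028d40040c404368031f20081700974c006c2),
.c (nat_lit 2) (nat_lit 0x571400a48),
.c (nat_lit 2) (nat_lit 0x96ec00b22),
.c (nat_lit 2) (nat_lit 0xd6ec00b5a),
.c (nat_lit 2) (nat_lit 0x116ec00b5c),
.c (nat_lit 2) (nat_lit 0x96ec00b5e),
.c (nat_lit 14) (nat_lit 0x578e00057021ad80a69c000d208357012178002340d62604093021ab8082340562600093),
.c (nat_lit 10) (nat_lit 0x465200b57065bb82830c1419e083f30317a810fcc045ea00001),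
.c (nat_lit 10) (nat_lit 0xc216041db01085800014055660437f0308481039c040ae000e7),
.c (nat_lit 3) (nat_lit 0x1039c040ae000e7),
.c (nat_lit 10) (nat_lit 0x9ea0448103222810e44040d2043dd0110a80018c0490200081),
.c (nat_lit 10) (nat_lit 0x81660208900002818da40842a02221000318082040010e04351),
.c (nat_lit 0) (nat_lit 0),
.c (nat_lit 0) (nat_lit 0),
.c (nat_lit 0) (nat_lit 0),
.c (nat_lit 0) (nat_lit 0),
.i (nat_lit 2) (nat_lit 41) [((nat_lit 840), (nat_lit 2)), ((nat_lit 9), (nat_lit 1)), ((nat_lit 3), (nat_lit 1)), ((nat_lit 25), (nat_lit 1)), ((nat_lit 0x54d38d), (nat_lit 4)), ((nat_lit 16), (nat_lit 1)), ((nat_lit 0x25534e34954d38d), (nat_lit 10)), ((nat_lit 0x34840d210), (nat_lit 6)), ((nat_lit 0x24d21034840934840d210), (nat_lit 14)), ((nat_lit 0xcd21034840334840d210), (nat_lit 14))] (nat_lit 0x5f05ef5ee5ed3b85ec5eb0930ab154),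
.c (nat_lit 31) (nat_lit 0x80106c160340b0170370c287864b1834a261b2c60e2898606a0324801a1a80d92005490006480025f10128d4440de200c90f0408701bc34162180c90b058850324241021006f070588301bc0400a00007),
.c (nat_lit 7) (nat_lit 0x2841014206303021ec808284000060209f),
.c (nat_lit 3) (nat_lit 0x113e40488a00069),
.c (nat_lit 3) (nat_lit 0x8c0c0000600081),
.i (nat_lit 2) (nat_lit 0) [((nat_lit 834), (nat_lit 2)), ((nat_lit 10), (nat_lit 1)), ((nat_lit 4), (nat_lit 1)), ((nat_lit 0xd48a34a), (nat_lit 5)), ((nat_lit 0x649), (nat_lit 2)), ((nat_lit 0), (nat_lit 0)), ((nat_lit 0xa660299), (nat_lit 5)), ((nat_lit 0), (nat_lit 0)), ((nat_lit 0), (nat_lit 0)), ((nat_lit 0), (nat_lit 0))] (nat_lit 0x33a3135f55f43b64ec5f30960ae116),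
.c (nat_lit 9) (nat_lit 0x4bec06507828d1c100de120810804f838204040de00081),
.i (nat_lit 2) (nat_lit 39) [((nat_lit 834), (nat_lit 2)), ((nat_lit 10), (nat_lit 1)), ((nat_lit 4), (nat_lit 1)), ((nat_lit 0xd48a34a), (nat_lit 5)), ((nat_lit 0x649), (nat_lit 2)), ((nat_lit 0), (nat_lit 0)), ((nat_lit 0xa660299), (nat_lit 5)), ((nat_lit 0), (nat_lit 0)), ((nat_lit 0), (nat_lit 0)), ((nat_lit 0), (nat_lit 0))] (nat_lit 0x33a3135f55f43b64ec5f30960ae116),
.c (nat_lit 13) (nat_lit 0x6808040049200186cc024f8021c80193e0108640a390015f80382041813e00069),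
.c (nat_lit 26) (nat_lit 0x480dc260c8130400a1200540dc2c0b0170640c02c0641902c080171a80c1200646a0344801b0580c82c0541602c06e1750f0c289864b1834a261b2c6008018097c800a34),
.c (nat_lit 3) (nat_lit 0x170041300405c),
.c (nat_lit 17) (nat_lit 0x44f30126d8013cc1495e0805d025aa8292bc187b60a4f30426d818f6c089b6024f30002b80ad541095e0a0ab),
.c (nat_lit 10) (nat_lit 0x8402020dd001008201740c6be0409903100811d240440200005),
.c (nat_lit 23) (nat_lit 0x291cc10402060dd0223980837400402104af0702e83ad54186be0a099082578482ac204020e0dd06239829d24108e6067490206e8088040000a040db),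
.c (nat_lit 13) (nat_lit 0x44f3013478013cc1495e0805d06279829a3c107b60668f021ed8093cc000ae020ab),
.c (nat_lit 19) (nat_lit 0x291cc104020674902239809d24004020c4af0502e8511cc244021074907239831d24148e60874903239811d240440200005),
.c (nat_lit 5) (nat_lit 0xa4af0402e8301742895e1205d),
.i (nat_lit 2) (nat_lit 6) [((nat_lit 6), (nat_lit 1)), ((nat_lit 3), (nat_lit 1)), ((nat_lit 0x7447), (nat_lit 3)), ((nat_lit 0), (nat_lit 0)), ((nat_lit 0x507454447), (nat_lit 6)), ((nat_lit 0x7707), (nat_lit 3)), ((nat_lit 0x1dc454714447), (nat_lit 8)), ((nat_lit 0x507714707), (nat_lit 6)), ((nat_lit 0x507714714714707), (nat_lit 10)), ((nat_lit 0x1d151c51c454714707), (nat_lit 12))] (nat_lit 0x6016005ff5fe5fd5fc3b95fb0930a2),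
.c (nat_lit 15) (nat_lit 0x8260080b80835e03602050174246be100990e02e86836c30132160ab0a06d81017404132000ab),
.i (nat_lit 2) (nat_lit 41) [((nat_lit 9), (nat_lit 1)), ((nat_lit 6), (nat_lit 1)), ((nat_lit 3), (nat_lit 1)), ((nat_lit 0x698), (nat_lit 2)), ((nat_lit 16), (nat_lit 1)), ((nat_lit 0), (nat_lit 0)), ((nat_lit 0x406406), (nat_lit 4)), ((nat_lit 0), (nat_lit 0)), ((nat_lit 0), (nat_lit 0)), ((nat_lit 0), (nat_lit 0))] (nat_lit 0x3123ad3bb3ba3b93b85e70930a20ab),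
.c (nat_lit 47) (nat_lit 0x83080162c020920202b0302480c56008004132420893d848440223920f070071210309ec1a2200e1ef060e483489018484095890509c02162c12b58075890409c01962c0eb58056040316b41532e0cb130758b842c4c501c2260871203788818c401e61e0cf0e0438681bc300c6080050304981015c04126000c3),
.c (nat_lit 0) (nat_lit 0),
.c (nat_lit 0) (nat_lit 0),
.c (nat_lit 24) (nat_lit 0x60700302181c9080c06e071c90411201c9080c0620727b040880241e4140ce0b0430581b8307241a0e00c242058188309ec1a2200e1ef008ac011814005ac),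
.c (nat_lit 1) (nat_lit 537),
.c (nat_lit 6) (nat_lit 0x486600227022ef80824c0413e00069),
.c (nat_lit 1) (nat_lit 0x7d9),
.c (nat_lit 4) (nat_lit 0x127a80018c0488a00069),
.c (nat_lit 16) (nat_lit 0x5d3818f94086d202063051a881106c041020839903043818d44081020439901043812e6c0572e0005d),
.c (nat_lit 0) (nat_lit 0),
.c (nat_lit 0) (nat_lit 0),
.c (nat_lit 0) (nat_lit 0),
.c (nat_lit 23) (nat_lit 0x19f840867a027e10019e861f842c67a147e10919e84165c1ce2e0c7e10519e82165c0ce2e047e10119e8001740cfaa040ed02079829f54101da080f3),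
.c (nat_lit 17) (nat_lit 0x608f021ea80823c007aa1408f091ea84023c1c7aa0c3f305047820f540c7e60408f011ea8000040811a0808d),
.c (nat_lit 0) (nat_lit 0),
.c (nat_lit 0) (nat_lit 0),
.c (nat_lit 0) (nat_lit 0),
.c (nat_lit 0) (nat_lit 0),
.c (nat_lit 0) (nat_lit 0),
.i (nat_lit 3) (nat_lit 7) [((nat_lit 9), (nat_lit 1)), ((nat_lit 4), (nat_lit 1)), ((nat_lit 7), (nat_lit 1)), ((nat_lit 1), (nat_lit 1)), ((nat_lit 0x81f), (nat_lit 2)), ((nat_lit 0x490), (nat_lit 2)), ((nat_lit 15), (nat_lit 1)), ((nat_lit 8), (nat_lit 1)), ((nat_lit 12), (nat_lit 1)), ((nat_lit 0), (nat_lit 0)), ((nat_lit 0x3c73c7), (nat_lit 4)), ((nat_lit 25), (nat_lit 1)), ((nat_lit 0x595), (nat_lit 2)), ((nat_lit 0x24c24c), (nat_lit 4)), ((nat_lit 0x10c10c), (nat_lit 4)), ((nat_lit 0x1d91d9), (nat_lit 4)), ((nat_lit 0x256549595), (nat_lit 6)), ((nat_lit 0x81f24c81f24c24c24c), (nat_lit 12)), ((nat_lit 0x3c930f24c24c24c), (nat_lit 10)), ((nat_lit 0x24430430910c10c),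 (nat_lit 10)), ((nat_lit 0x1c430430710c10c), (nat_lit 10)), ((nat_lit 0x4430430110c10c), (nat_lit 10)), ((nat_lit 0x1c910c10c24430430724430430910c10c), (nat_lit 22)), ((nat_lit 0x4910c10c24430430124430430910c10c), (nat_lit 22))] (nat_lit 0x61761661561461361261161060f4ed60e60d60c60b60a42852846d42940c60908f0a50960ab),
.c (nat_lit 5) (nat_lit 0xc30070348301ec140d20807b),
.i (nat_lit 3) (nat_lit 10) [((nat_lit 9), (nat_lit 1)), ((nat_lit 4), (nat_lit 1)), ((nat_lit 7), (nat_lit 1)), ((nat_lit 1), (nat_lit 1)), ((nat_lit 0x81f), (nat_lit 2)), ((nat_lit 0x490), (nat_lit 2)), ((nat_lit 15), (nat_lit 1)), ((nat_lit 8), (nat_lit 1)), ((nat_lit 12), (nat_lit 1)), ((nat_lit 0), (nat_lit 0)), ((nat_lit 0x3c73c7), (nat_lit 4)), ((nat_lit 25), (nat_lit 1)), ((nat_lit 0x595), (nat_lit 2)), ((nat_lit 0x24c24c), (nat_lit 4)), ((nat_lit 0x10c10c), (nat_lit 4)), ((nat_lit 0x1d91d9), (nat_lit 4)), ((nat_lit 0x256549595), (nat_lit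 6)), ((nat_lit 0x81f24c81f24c24c24c), (nat_lit 12)), ((nat_lit 0x3c930f24c24c24c), (nat_lit 10)), ((nat_lit 0x24430430910c10c), (nat_lit 10)), ((nat_lit 0x1c430430710c10c), (nat_lit 10)), ((nat_lit 0x4430430110c10c), (nat_lit 10)), ((nat_lit 0x1c910c10c24430430724430430910c10c), (nat_lit 22)), ((nat_lit 0x4910c10c24430430124430430910c10c), (nat_lit 22))] (nat_lit 0x61761661561461361261161060f4ed60e60d60c60b60a42852846d42940c60908f0a50960ab),
.c (nat_lit 5) (nat_lit 0xc340702e830324140ba080c9),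
.i (nat_lit 3) (nat_lit 14) [((nat_lit 9), (nat_lit 1)), ((nat_lit 4), (nat_lit 1)), ((nat_lit 7), (nat_lit 1)), ((nat_lit 1), (nat_lit 1)), ((nat_lit 0x81f), (nat_lit 2)), ((nat_lit 0x490), (nat_lit 2)), ((nat_lit 15), (nat_lit 1)), ((nat_lit 8), (nat_lit 1)), ((nat_lit 12), (nat_lit 1)), ((nat_lit 0), (nat_lit 0)), ((nat_lit 0x3c73c7), (nat_lit 4)), ((nat_lit 25), (nat_lit 1)), ((nat_lit 0x595), (nat_lit 2)), ((nat_lit 0x24c24c), (nat_lit 4)), ((nat_lit 0x10c10c), (nat_lit 4)), ((nat_lit 0x1d91d9), (nat_lit 4)), ((nat_lit 0x256549595), (nat_lit 6)), ((nat_lit 0x81f24c81f24c24c24c), (nat_lit 12)), ((nat_lit 0x3c930f24c24c24c), (nat_lit 10)), ((nat_lit 0x24430430910c10c), (nat_lit 10)), ((nat_lit 0x1c430430710c10c), (nat_lit 10)), ((nat_lit 0x4430430110c10c), (nat_lit 10)), ((nat_lit 0x1c910c10c24430430724430430910c10c), (nat_lit 22)), ((nat_lit 0x4910c10c24430430124430430910c10c), (nat_lit 22))] (nat_lit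 0x61761661561461361261161060f4ed60e60d60c60b60a42852846d42940c60908f0a50960ab),
.c (nat_lit 17) (nat_lit 0x2068021a00130e0098660a07b040348430cc1c6820c0690903d8401a42c11a140690903d840234040d20007b),
.i (nat_lit 3) (nat_lit 36) [((nat_lit 9), (nat_lit 1)), ((nat_lit 4), (nat_lit 1)), ((nat_lit 7), (nat_lit 1)), ((nat_lit 1), (nat_lit 1)), ((nat_lit 0x81f), (nat_lit 2)), ((nat_lit 0x490), (nat_lit 2)), ((nat_lit 15), (nat_lit 1)), ((nat_lit 8), (nat_lit 1)), ((nat_lit 12), (nat_lit 1)), ((nat_lit 0), (nat_lit 0)), ((nat_lit 0x3c73c7), (nat_lit 4)), ((nat_lit 25), (nat_lit 1)), ((nat_lit 0x595), (nat_lit 2)), ((nat_lit 0x24c24c), (nat_lit 4)), ((nat_lit 0x10c10c), (nat_lit 4)), ((nat_lit 0x1d91d9), (nat_lit 4)), ((nat_lit 0x256549595), (nat_lit 6)), ((nat_lit 0x81f24c81f24c24c24c), (nat_lit 12)), ((nat_lit 0x3c930f24c24c24c), (nat_lit 10)), ((nat_lit 0x24430430910c10c), (nat_lit 10)), ((nat_lit 0x1c430430710c10c),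 (nat_lit 10)), ((nat_lit 0x4430430110c10c), (nat_lit 10)), ((nat_lit 0x1c910c10c24430430724430430910c10c), (nat_lit 22)), ((nat_lit 0x4910c10c24430430124430430910c10c), (nat_lit 22))] (nat_lit 0x61761661561461361261161060f4ed60e60d60c60b60a42852846d42940c60908f0a50960ab),
.c (nat_lit 7) (nat_lit 0x32e78140d00c4440061e8301a41416e080b1),
.i (nat_lit 3) (nat_lit 37) [((nat_lit 9), (nat_lit 1)), ((nat_lit 4), (nat_lit 1)), ((nat_lit 7), (nat_lit 1)), ((nat_lit 1), (nat_lit 1)), ((nat_lit 0x81f), (nat_lit 2)), ((nat_lit 0x490), (nat_lit 2)), ((nat_lit 15), (nat_lit 1)), ((nat_lit 8), (nat_lit 1)), ((nat_lit 12), (nat_lit 1)), ((nat_lit 0), (nat_lit 0)), ((nat_lit 0x3c73c7), (nat_lit 4)), ((nat_lit 25), (nat_lit 1)), ((nat_lit 0x595), (nat_lit 2)), ((nat_lit 0x24c24c), (nat_lit 4)), ((nat_lit 0x10c10c), (nat_lit 4)), ((nat_lit 0x1d91d9), (nat_lit 4)), ((nat_lit 0x256549595), (nat_lit 6)), ((nat_lit 0x81f24c81f24c24c24c),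 (nat_lit 12)), ((nat_lit 0x3c930f24c24c24c), (nat_lit 10)), ((nat_lit 0x24430430910c10c), (nat_lit 10)), ((nat_lit 0x1c430430710c10c), (nat_lit 10)), ((nat_lit 0x4430430110c10c), (nat_lit 10)), ((nat_lit 0x1c910c10c24430430724430430910c10c), (nat_lit 22)), ((nat_lit 0x4910c10c24430430124430430910c10c), (nat_lit 22))] (nat_lit 0x61761661561461361261161060f4ed60e60d60c60b60a42852846d42940c60908f0a50960ab),
.c (nat_lit 8) (nat_lit 0x2e00b0d80588206c37025cd80ae5c181920005d),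
.i (nat_lit 3) (nat_lit 38) [((nat_lit 9), (nat_lit 1)), ((nat_lit 4), (nat_lit 1)), ((nat_lit 7), (nat_lit 1)), ((nat_lit 1), (nat_lit 1)), ((nat_lit 0x81f), (nat_lit 2)), ((nat_lit 0x490), (nat_lit 2)), ((nat_lit 15), (nat_lit 1)), ((nat_lit 8), (nat_lit 1)), ((nat_lit 12), (nat_lit 1)), ((nat_lit 0), (nat_lit 0)), ((nat_lit 0x3c73c7), (nat_lit 4)), ((nat_lit 25), (nat_lit 1)), ((nat_lit 0x595), (nat_lit 2)), ((nat_lit 0x24c24c), (nat_lit 4)), ((nat_lit 0x10c10c), (nat_lit 4)), ((nat_lit 0x1d91d9), (nat_lit 4)), ((nat_lit 0x256549595), (nat_lit 6)), ((nat_lit 0x81f24c81f24c24c24c), (nat_lit 12)), ((nat_lit 0x3c930f24c24c24c), (nat_lit 10)), ((nat_lit 0x24430430910c10c), (nat_lit 10)), ((nat_lit 0x1c430430710c10c), (nat_lit 10)), ((nat_lit 0x4430430110c10c), (nat_lit 10)), ((nat_lit 0x1c910c10c24430430724430430910c10c), (nat_lit 22)), ((nat_lit 0x4910c10c24430430124430430910c10c), (nat_lit 22))] (nat_lit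 0x61761661561461361261161060f4ed60e60d60c60b60a42852846d42940c60908f0a50960ab),
.c (nat_lit 18) (nat_lit 0xcfa8020ec02079003114080f6023e10039381b0cc087c202727000348503cc241da100690703d8303cc141da0807b),
.i (nat_lit 3) (nat_lit 43) [((nat_lit 9), (nat_lit 1)), ((nat_lit 4), (nat_lit 1)), ((nat_lit 7), (nat_lit 1)), ((nat_lit 1), (nat_lit 1)), ((nat_lit 0x81f), (nat_lit 2)), ((nat_lit 0x490), (nat_lit 2)), ((nat_lit 15), (nat_lit 1)), ((nat_lit 8), (nat_lit 1)), ((nat_lit 12), (nat_lit 1)), ((nat_lit 0), (nat_lit 0)), ((nat_lit 0x3c73c7), (nat_lit 4)), ((nat_lit 25), (nat_lit 1)), ((nat_lit 0x595), (nat_lit 2)), ((nat_lit 0x24c24c), (nat_lit 4)), ((nat_lit 0x10c10c), (nat_lit 4)), ((nat_lit 0x1d91d9), (nat_lit 4)), ((nat_lit 0x256549595), (nat_lit 6)), ((nat_lit 0x81f24c81f24c24c24c), (nat_lit 12)), ((nat_lit 0x3c930f24c24c24c), (nat_lit 10)), ((nat_lit 0x24430430910c10c), (nat_lit 10)), ((nat_lit 0x1c430430710c10c),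 (nat_lit 10)), ((nat_lit 0x4430430110c10c), (nat_lit 10)), ((nat_lit 0x1c910c10c24430430724430430910c10c), (nat_lit 22)), ((nat_lit 0x4910c10c24430430124430430910c10c), (nat_lit 22))] (nat_lit 0x61761661561461361261161060f4ed60e60d60c60b60a42852846d42940c60908f0a50960ab),
.c (nat_lit 13) (nat_lit 0xa08c05034030d000c0d00807a0161900b12409866020690303d8101a41411a0007b),
.i (nat_lit 3) (nat_lit 48) [((nat_lit 9), (nat_lit 1)), ((nat_lit 4), (nat_lit 1)), ((nat_lit 7), (nat_lit 1)), ((nat_lit 1), (nat_lit 1)), ((nat_lit 0x81f), (nat_lit 2)), ((nat_lit 0x490), (nat_lit 2)), ((nat_lit 15), (nat_lit 1)), ((nat_lit 8), (nat_lit 1)), ((nat_lit 12), (nat_lit 1)), ((nat_lit 0), (nat_lit 0)), ((nat_lit 0x3c73c7), (nat_lit 4)), ((nat_lit 25), (nat_lit 1)), ((nat_lit 0x595), (nat_lit 2)), ((nat_lit 0x24c24c), (nat_lit 4)), ((nat_lit 0x10c10c), (nat_lit 4)), ((nat_lit 0x1d91d9), (nat_lit 4)), ((nat_lit 0x256549595), (nat_lit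 6)), ((nat_lit 0x81f24c81f24c24c24c), (nat_lit 12)), ((nat_lit 0x3c930f24c24c24c), (nat_lit 10)), ((nat_lit 0x24430430910c10c), (nat_lit 10)), ((nat_lit 0x1c430430710c10c), (nat_lit 10)), ((nat_lit 0x4430430110c10c), (nat_lit 10)), ((nat_lit 0x1c910c10c24430430724430430910c10c), (nat_lit 22)), ((nat_lit 0x4910c10c24430430124430430910c10c), (nat_lit 22))] (nat_lit 0x61761661561461361261161060f4ed60e60d60c60b60a42852846d42940c60908f0a50960ab),
.c (nat_lit 32) (nat_lit 0x760081e8080001438209079050e10100d00a07a066230301a01c0f408c320362601b0cc180f60a069056238201ec0c0d21011d0708b830f541423a08117031ea86846c301e6161150a076810004040f6000ed),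
.i (nat_lit 3) (nat_lit 55) [((nat_lit 9), (nat_lit 1)), ((nat_lit 4), (nat_lit 1)), ((nat_lit 7), (nat_lit 1)), ((nat_lit 1), (nat_lit 1)), ((nat_lit 0x81f), (nat_lit 2)), ((nat_lit 0x490), (nat_lit 2)), ((nat_lit 15), (nat_lit 1)), ((nat_lit 8), (nat_lit 1)), ((nat_lit 12), (nat_lit 1)), ((nat_lit 0), (nat_lit 0)), ((nat_lit 0x3c73c7), (nat_lit 4)), ((nat_lit 25), (nat_lit 1)), ((nat_lit 0x595), (nat_lit 2)), ((nat_lit 0x24c24c), (nat_lit 4)), ((nat_lit 0x10c10c), (nat_lit 4)), ((nat_lit 0x1d91d9), (nat_lit 4)), ((nat_lit 0x256549595), (nat_lit 6)), ((nat_lit 0x81f24c81f24c24c24c), (nat_lit 12)), ((nat_lit 0x3c930f24c24c24c), (nat_lit 10)), ((nat_lit 0x24430430910c10c), (nat_lit 10)), ((nat_lit 0x1c430430710c10c), (nat_lit 10)), ((nat_lit 0x4430430110c10c), (nat_lit 10)), ((nat_lit 0x1c910c10c24430430724430430910c10c), (nat_lit 22)), ((nat_lit 0x4910c10c24430430124430430910c10c), (nat_lit 22))] (nat_lit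 0x61761661561461361261161060f4ed60e60d60c60b60a42852846d42940c60908f0a50960ab),
.c (nat_lit 80) (nat_lit 0x2e071f502cfa8107d405046020d00058a2027e1033ee8402341988e0ac4b0903d8581ec287c212727081a082b0cc2988e12c4b0803d8381a4180f60e07b0a6238481ec207c20e727061a08281a43188e1607b0a1f0849c9c1988e0ac4b0903d8881ec407c21e7270c6238581ec287c212727081a082b0cc4188e1e07b0e1f0869c9c2988e12c4b0803d8381a4180f60e07b106258781ec387c21a7270a6238481ec207c20e727061a08281a44411a2007b0f0468701ec341e6180ed0b03d8503cc241da1007b070798303b41411a0005d),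
.i (nat_lit 3) (nat_lit 59) [((nat_lit 9), (nat_lit 1)), ((nat_lit 4), (nat_lit 1)), ((nat_lit 7), (nat_lit 1)), ((nat_lit 1), (nat_lit 1)), ((nat_lit 0x81f), (nat_lit 2)), ((nat_lit 0x490), (nat_lit 2)), ((nat_lit 15), (nat_lit 1)), ((nat_lit 8), (nat_lit 1)), ((nat_lit 12), (nat_lit 1)), ((nat_lit 0), (nat_lit 0)), ((nat_lit 0x3c73c7), (nat_lit 4)), ((nat_lit 25), (nat_lit 1)), ((nat_lit 0x595), (nat_lit 2)), ((nat_lit 0x24c24c), (nat_lit 4)), ((nat_lit 0x10c10c), (nat_lit 4)), ((nat_lit 0x1d91d9), (nat_lit 4)), ((nat_lit 0x256549595), (nat_lit 6)), ((nat_lit 0x81f24c81f24c24c24c), (nat_lit 12)), ((nat_lit 0x3c930f24c24c24c), (nat_lit 10)), ((nat_lit 0x24430430910c10c), (nat_lit 10)), ((nat_lit 0x1c430430710c10c), (nat_lit 10)), ((nat_lit 0x4430430110c10c), (nat_lit 10)), ((nat_lit 0x1c910c10c24430430724430430910c10c), (nat_lit 22)), ((nat_lit 0x4910c10c24430430124430430910c10c), (nat_lit 22))] (nat_lit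 0x61761661561461361261161060f4ed60e60d60c60b60a42852846d42940c60908f0a50960ab),
.c (nat_lit 32) (nat_lit 0x1000031c981d864143400b03d03b128141e40c3840208b018470098aa085970338b821f742411a0ec47066258501ec300f6163e10a393848d0419866180f30b076850234240f6100690703d8301a4040020005d),
.i (nat_lit 3) (nat_lit 75) [((nat_lit 9), (nat_lit 1)), ((nat_lit 4), (nat_lit 1)), ((nat_lit 7), (nat_lit 1)), ((nat_lit 1), (nat_lit 1)), ((nat_lit 0x81f), (nat_lit 2)), ((nat_lit 0x490), (nat_lit 2)), ((nat_lit 15), (nat_lit 1)), ((nat_lit 8), (nat_lit 1)), ((nat_lit 12), (nat_lit 1)), ((nat_lit 0), (nat_lit 0)), ((nat_lit 0x3c73c7), (nat_lit 4)), ((nat_lit 25), (nat_lit 1)), ((nat_lit 0x595), (nat_lit 2)), ((nat_lit 0x24c24c), (nat_lit 4)), ((nat_lit 0x10c10c), (nat_lit 4)), ((nat_lit 0x1d91d9), (nat_lit 4)), ((nat_lit 0x256549595), (nat_lit 6)), ((nat_lit 0x81f24c81f24c24c24c), (nat_lit 12)), ((nat_lit 0x3c930f24c24c24c), (nat_lit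 10)), ((nat_lit 0x24430430910c10c), (nat_lit 10)), ((nat_lit 0x1c430430710c10c), (nat_lit 10)), ((nat_lit 0x4430430110c10c), (nat_lit 10)), ((nat_lit 0x1c910c10c24430430724430430910c10c), (nat_lit 22)), ((nat_lit 0x4910c10c24430430124430430910c10c), (nat_lit 22))] (nat_lit 0x61761661561461361261161060f4ed60e60d60c60b60a42852846d42940c60908f0a50960ab),
.c (nat_lit 40) (nat_lit 0x5d3011f5004b2c047160a2220582c03016c0a726061f00382d81c16010b9e0961f052e781d73c08c590761b832e9c14b2e08717086218683243173e160b10b05b8511142d87e240b7110588803243c16e1c0b10d0348602dc2c162140690302e8103b4041e600063),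
.i (nat_lit 3) (nat_lit 121) [((nat_lit 9), (nat_lit 1)), ((nat_lit 4), (nat_lit 1)), ((nat_lit 7), (nat_lit 1)), ((nat_lit 1), (nat_lit 1)), ((nat_lit 0x81f), (nat_lit 2)), ((nat_lit 0x490), (nat_lit 2)), ((nat_lit 15), (nat_lit 1)), ((nat_lit 8), (nat_lit 1)), ((nat_lit 12), (nat_lit 1)), ((nat_lit 0), (nat_lit 0)), ((nat_lit 0x3c73c7), (nat_lit 4)), ((nat_lit 25), (nat_lit 1)), ((nat_lit 0x595), (nat_lit 2)), ((nat_lit 0x24c24c), (nat_lit 4)), ((nat_lit 0x10c10c), (nat_lit 4)), ((nat_lit 0x1d91d9), (nat_lit 4)), ((nat_lit 0x256549595), (nat_lit 6)), ((nat_lit 0x81f24c81f24c24c24c), (nat_lit 12)), ((nat_lit 0x3c930f24c24c24c), (nat_lit 10)), ((nat_lit 0x24430430910c10c), (nat_lit 10)), ((nat_lit 0x1c430430710c10c), (nat_lit 10)), ((nat_lit 0x4430430110c10c), (nat_lit 10)), ((nat_lit 0x1c910c10c24430430724430430910c10c), (nat_lit 22)), ((nat_lit 0x4910c10c24430430124430430910c10c), (nat_lit 22))] (nat_lit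 0x61761661561461361261161060f4ed60e60d60c60b60a42852846d42940c60908f0a50960ab),
.c (nat_lit 7) (nat_lit 0x32e78140d00c3400062e8301a41416e080b1),
.i (nat_lit 3) (nat_lit 133) [((nat_lit 9), (nat_lit 1)), ((nat_lit 4), (nat_lit 1)), ((nat_lit 7), (nat_lit 1)), ((nat_lit 1), (nat_lit 1)), ((nat_lit 0x81f), (nat_lit 2)), ((nat_lit 0x490), (nat_lit 2)), ((nat_lit 15), (nat_lit 1)), ((nat_lit 8), (nat_lit 1)), ((nat_lit 12), (nat_lit 1)), ((nat_lit 0), (nat_lit 0)), ((nat_lit 0x3c73c7), (nat_lit 4)), ((nat_lit 25), (nat_lit 1)), ((nat_lit 0x595), (nat_lit 2)), ((nat_lit 0x24c24c), (nat_lit 4)), ((nat_lit 0x10c10c), (nat_lit 4)), ((nat_lit 0x1d91d9), (nat_lit 4)), ((nat_lit 0x256549595), (nat_lit 6)), ((nat_lit 0x81f24c81f24c24c24c), (nat_lit 12)), ((nat_lit 0x3c930f24c24c24c), (nat_lit 10)), ((nat_lit 0x24430430910c10c), (nat_lit 10)), ((nat_lit 0x1c430430710c10c), (nat_lit 10)), ((nat_lit 0x4430430110c10c), (nat_lit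 10)), ((nat_lit 0x1c910c10c24430430724430430910c10c), (nat_lit 22)), ((nat_lit 0x4910c10c24430430124430430910c10c), (nat_lit 22))] (nat_lit 0x61761661561461361261161060f4ed60e60d60c60b60a42852846d42940c60908f0a50960ab),
.c (nat_lit 2) (nat_lit 0x18c2040b7),
.i (nat_lit 3) (nat_lit 152) [((nat_lit 9), (nat_lit 1)), ((nat_lit 4), (nat_lit 1)), ((nat_lit 7), (nat_lit 1)), ((nat_lit 1), (nat_lit 1)), ((nat_lit 0x81f), (nat_lit 2)), ((nat_lit 0x490), (nat_lit 2)), ((nat_lit 15), (nat_lit 1)), ((nat_lit 8), (nat_lit 1)), ((nat_lit 12), (nat_lit 1)), ((nat_lit 0), (nat_lit 0)), ((nat_lit 0x3c73c7), (nat_lit 4)), ((nat_lit 25), (nat_lit 1)), ((nat_lit 0x595), (nat_lit 2)), ((nat_lit 0x24c24c), (nat_lit 4)), ((nat_lit 0x10c10c), (nat_lit 4)), ((nat_lit 0x1d91d9), (nat_lit 4)), ((nat_lit 0x256549595), (nat_lit 6)), ((nat_lit 0x81f24c81f24c24c24c), (nat_lit 12)), ((nat_lit 0x3c930f24c24c24c), (nat_lit 10)), ((nat_lit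 0x24430430910c10c), (nat_lit 10)), ((nat_lit 0x1c430430710c10c), (nat_lit 10)), ((nat_lit 0x4430430110c10c), (nat_lit 10)), ((nat_lit 0x1c910c10c24430430724430430910c10c), (nat_lit 22)), ((nat_lit 0x4910c10c24430430124430430910c10c), (nat_lit 22))] (nat_lit 0x61761661561461361261161060f4ed60e60d60c60b60a42852846d42940c60908f0a50960ab),
.c (nat_lit 2) (nat_lit 0x18c80409f),
.i (nat_lit 3) (nat_lit 155) [((nat_lit 9), (nat_lit 1)), ((nat_lit 4), (nat_lit 1)), ((nat_lit 7), (nat_lit 1)), ((nat_lit 1), (nat_lit 1)), ((nat_lit 0x81f), (nat_lit 2)), ((nat_lit 0x490), (nat_lit 2)), ((nat_lit 15), (nat_lit 1)), ((nat_lit 8), (nat_lit 1)), ((nat_lit 12), (nat_lit 1)), ((nat_lit 0), (nat_lit 0)), ((nat_lit 0x3c73c7), (nat_lit 4)), ((nat_lit 25), (nat_lit 1)), ((nat_lit 0x595), (nat_lit 2)), ((nat_lit 0x24c24c), (nat_lit 4)), ((nat_lit 0x10c10c), (nat_lit 4)), ((nat_lit 0x1d91d9), (nat_lit 4)), ((nat_lit 0x256549595),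 (nat_lit 6)), ((nat_lit 0x81f24c81f24c24c24c), (nat_lit 12)), ((nat_lit 0x3c930f24c24c24c), (nat_lit 10)), ((nat_lit 0x24430430910c10c), (nat_lit 10)), ((nat_lit 0x1c430430710c10c), (nat_lit 10)), ((nat_lit 0x4430430110c10c), (nat_lit 10)), ((nat_lit 0x1c910c10c24430430724430430910c10c), (nat_lit 22)), ((nat_lit 0x4910c10c24430430124430430910c10c), (nat_lit 22))] (nat_lit 0x61761661561461361261161060f4ed60e60d60c60b60a42852846d42940c60908f0a50960ab)]

theorem c9 : chk db th.hy ths 1589 J9 1487 = true := by decide +kernel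

set_option maxRecDepth 100000 in
/-- Justifications. -/
noncomputable def J10 : List Js := [
.c (nat_lit 1) (nat_lit 0xc69),
.i (nat_lit 3) (nat_lit 157) [((nat_lit 9), (nat_lit 1)), ((nat_lit 4), (nat_lit 1)), ((nat_lit 7), (nat_lit 1)), ((nat_lit 1), (nat_lit 1)), ((nat_lit 0x81f), (nat_lit 2)), ((nat_lit 0x490), (nat_lit 2)), ((nat_lit 15), (nat_lit 1)), ((nat_lit 8), (nat_lit 1)), ((nat_lit 12), (nat_lit 1)), ((nat_lit 0), (nat_lit 0)), ((nat_lit 0x3c73c7), (nat_lit 4)), ((nat_lit 25), (nat_lit 1)), ((nat_lit 0x595), (nat_lit 2)), ((nat_lit 0x24c24c), (nat_lit 4)), ((nat_lit 0x10c10c), (nat_lit 4)), ((nat_lit 0x1d91d9), (nat_lit 4)), ((nat_lit 0x256549595), (nat_lit 6)), ((nat_lit 0x81f24c81f24c24c24c), (nat_lit 12)), ((nat_lit 0x3c930f24c24c24c), (nat_lit 10)), ((nat_lit 0x24430430910c10c), (nat_lit 10)), ((nat_lit 0x1c430430710c10c), (nat_lit 10)), ((nat_lit 0x4430430110c10c), (nat_lit 10)), ((nat_lit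 0x1c910c10c24430430724430430910c10c), (nat_lit 22)), ((nat_lit 0x4910c10c24430430124430430910c10c), (nat_lit 22))] (nat_lit 0x61761661561461361261161060f4ed60e60d60c60b60a42852846d42940c60908f0a50960ab),
.c (nat_lit 23) (nat_lit 0x1a00416c040b00302e0501a02ce4c183e00b3ea0231b024fc210b9b075cb831f841573608b970e0798683b4300d2160b70302e8102c40416e00069),
.c (nat_lit 0) (nat_lit 0),
.c (nat_lit 1) (nat_lit 474),
.c (nat_lit 26) (nat_lit 0xb80c7d40703d0303b01c0f4100680903d05311828fa81408c02076019f5004e2c045960362b009f74058ae1408d0c0468583cc281da1207b080348381ec181da0005d),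
.c (nat_lit 3) (nat_lit 0x182c0118c400a26),
.c (nat_lit 10) (nat_lit 0x6c16c340b61a0580dae78718c43ab9e1e6310d3188518c400be4),
.c (nat_lit 46) (nat_lit 0x7c00405c12076099f50500f41007a0959b0530e82166c120680a03d05b1283468014c3a0d623081c98447c02407a136230a8230280f416c3a0407902b138187080e068081f004b0c830680100ec093ea0231d00d8ac06c520462b819f8418faa0a0ed0d0468601ec2c0d21407b09076810174040d2000f3),
.c (nat_lit 18) (nat_lit 0x540f41407a0b61d0401e82566c14c4a0c1a0042cd82587418c460f393080f80440f424c46123ea009c98098f400c56),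
.c (nat_lit 6) (nat_lit 0x2d8d4147260b1f00602d8218dc00c5a),
.c (nat_lit 1) (nat_lit 461),
.c (nat_lit 0) (nat_lit 0),
.c (nat_lit 5) (nat_lit 0xadb025668081740559600051),
.c (nat_lit 1) (nat_lit 0xaeb),
.c (nat_lit 7) (nat_lit 0x1f940c912047eb01049810fc404fce00003),
.c (nat_lit 0) (nat_lit 0),
.c (nat_lit 15) (nat_lit 0x1889c115d6067510202880889c0d5de04093013a880014410126082270337181089c04dc600069),
.c (nat_lit 0) (nat_lit 0),
.c (nat_lit 6) (nat_lit 0x4e86007e9023ea8083b4041e600005),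
.c (nat_lit 6) (nat_lit 0x47c200727023ea8083b4041e600069),
.c (nat_lit 0) (nat_lit 0),
.c (nat_lit 0) (nat_lit 0),
.i (nat_lit 3) (nat_lit 14) [((nat_lit 5), (nat_lit 1)), ((nat_lit 2), (nat_lit 1)), ((nat_lit 3), (nat_lit 1)), ((nat_lit 9), (nat_lit 1)), ((nat_lit 0x143143), (nat_lit 4)), ((nat_lit 7), (nat_lit 1)), ((nat_lit 23), (nat_lit 1)), ((nat_lit 0), (nat_lit 0)), ((nat_lit 16), (nat_lit 1)), ((nat_lit 19), (nat_lit 1)), ((nat_lit 0x5c35c3), (nat_lit 4)), ((nat_lit 0), (nat_lit 0)), ((nat_lit 0), (nat_lit 0)), ((nat_lit 0x405405), (nat_lit 4)), ((nat_lit 0x81f), (nat_lit 2)), ((nat_lit 0), (nat_lit 0)), ((nat_lit 0), (nat_lit 0)), ((nat_lit 0xd0150143405405), (nat_lit 10)), ((nat_lit 0x417417), (nat_lit 4)), ((nat_lit 0x1607c581f), (nat_lit 6)), ((nat_lit 0), (nat_lit 0)), ((nat_lit 0), (nat_lit 0)), ((nat_lit 0xc581f1607c31607c581f), (nat_lit 14)), ((nat_lit 0x24581f1607c91607c581f), (nat_lit 14))]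 (nat_lit 0x64b64a6496486476466453393126446433123394c66424ee3da5d53d26416400ab09309009f),
.c (nat_lit 5) (nat_lit 0xc98070498302f414126080bd),
.i (nat_lit 3) (nat_lit 33) [((nat_lit 5), (nat_lit 1)), ((nat_lit 2), (nat_lit 1)), ((nat_lit 3), (nat_lit 1)), ((nat_lit 9), (nat_lit 1)), ((nat_lit 0x143143), (nat_lit 4)), ((nat_lit 7), (nat_lit 1)), ((nat_lit 23), (nat_lit 1)), ((nat_lit 0), (nat_lit 0)), ((nat_lit 16), (nat_lit 1)), ((nat_lit 19), (nat_lit 1)), ((nat_lit 0x5c35c3), (nat_lit 4)), ((nat_lit 0), (nat_lit 0)), ((nat_lit 0), (nat_lit 0)), ((nat_lit 0x405405), (nat_lit 4)), ((nat_lit 0x81f), (nat_lit 2)), ((nat_lit 0), (nat_lit 0)), ((nat_lit 0), (nat_lit 0)), ((nat_lit 0xd0150143405405), (nat_lit 10)), ((nat_lit 0x417417), (nat_lit 4)), ((nat_lit 0x1607c581f), (nat_lit 6)), ((nat_lit 0), (nat_lit 0)), ((nat_lit 0), (nat_lit 0)), ((nat_lit 0xc581f1607c31607c581f), (nat_lit 14)), ((nat_lit 0x24581f1607c91607c581f),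 (nat_lit 14))] (nat_lit 0x64b64a6496486476466453393126446433123394c66424ee3da5d53d26416400ab09309009f),
.c (nat_lit 1) (nat_lit 0xc9c),
.i (nat_lit 3) (nat_lit 89) [((nat_lit 5), (nat_lit 1)), ((nat_lit 2), (nat_lit 1)), ((nat_lit 3), (nat_lit 1)), ((nat_lit 9), (nat_lit 1)), ((nat_lit 0x143143), (nat_lit 4)), ((nat_lit 7), (nat_lit 1)), ((nat_lit 23), (nat_lit 1)), ((nat_lit 0), (nat_lit 0)), ((nat_lit 16), (nat_lit 1)), ((nat_lit 19), (nat_lit 1)), ((nat_lit 0x5c35c3), (nat_lit 4)), ((nat_lit 0), (nat_lit 0)), ((nat_lit 0), (nat_lit 0)), ((nat_lit 0x405405), (nat_lit 4)), ((nat_lit 0x81f), (nat_lit 2)), ((nat_lit 0), (nat_lit 0)), ((nat_lit 0), (nat_lit 0)), ((nat_lit 0xd0150143405405), (nat_lit 10)), ((nat_lit 0x417417), (nat_lit 4)), ((nat_lit 0x1607c581f), (nat_lit 6)), ((nat_lit 0), (nat_lit 0)), ((nat_lit 0), (nat_lit 0)), ((nat_lit 0xc581f1607c31607c581f), (nat_lit 14)), ((nat_lit 0x24581f1607c91607c581f),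 (nat_lit 14))] (nat_lit 0x64b64a6496486476466453393126446433123394c66424ee3da5d53d26416400ab09309009f),
.c (nat_lit 1) (nat_lit 0xca0),
.i (nat_lit 3) (nat_lit 109) [((nat_lit 5), (nat_lit 1)), ((nat_lit 2), (nat_lit 1)), ((nat_lit 3), (nat_lit 1)), ((nat_lit 9), (nat_lit 1)), ((nat_lit 0x143143), (nat_lit 4)), ((nat_lit 7), (nat_lit 1)), ((nat_lit 23), (nat_lit 1)), ((nat_lit 0), (nat_lit 0)), ((nat_lit 16), (nat_lit 1)), ((nat_lit 19), (nat_lit 1)), ((nat_lit 0x5c35c3), (nat_lit 4)), ((nat_lit 0), (nat_lit 0)), ((nat_lit 0), (nat_lit 0)), ((nat_lit 0x405405), (nat_lit 4)), ((nat_lit 0x81f), (nat_lit 2)), ((nat_lit 0), (nat_lit 0)), ((nat_lit 0), (nat_lit 0)), ((nat_lit 0xd0150143405405), (nat_lit 10)), ((nat_lit 0x417417), (nat_lit 4)), ((nat_lit 0x1607c581f), (nat_lit 6)), ((nat_lit 0), (nat_lit 0)), ((nat_lit 0), (nat_lit 0)), ((nat_lit 0xc581f1607c31607c581f), (nat_lit 14)), ((nat_lit 0x24581f1607c91607c581f),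 (nat_lit 14))] (nat_lit 0x64b64a6496486476466453393126446433123394c66424ee3da5d53d26416400ab09309009f),
.c (nat_lit 8) (nat_lit 0x4900b2680594a06c9b02244809fac1817a00093),
.i (nat_lit 3) (nat_lit 145) [((nat_lit 5), (nat_lit 1)), ((nat_lit 2), (nat_lit 1)), ((nat_lit 3), (nat_lit 1)), ((nat_lit 9), (nat_lit 1)), ((nat_lit 0x143143), (nat_lit 4)), ((nat_lit 7), (nat_lit 1)), ((nat_lit 23), (nat_lit 1)), ((nat_lit 0), (nat_lit 0)), ((nat_lit 16), (nat_lit 1)), ((nat_lit 19), (nat_lit 1)), ((nat_lit 0x5c35c3), (nat_lit 4)), ((nat_lit 0), (nat_lit 0)), ((nat_lit 0), (nat_lit 0)), ((nat_lit 0x405405), (nat_lit 4)), ((nat_lit 0x81f), (nat_lit 2)), ((nat_lit 0), (nat_lit 0)), ((nat_lit 0), (nat_lit 0)), ((nat_lit 0xd0150143405405), (nat_lit 10)), ((nat_lit 0x417417), (nat_lit 4)), ((nat_lit 0x1607c581f), (nat_lit 6)), ((nat_lit 0), (nat_lit 0)), ((nat_lit 0), (nat_lit 0)), ((nat_lit 0xc581f1607c31607c581f), (nat_lit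 14)), ((nat_lit 0x24581f1607c91607c581f), (nat_lit 14))] (nat_lit 0x64b64a6496486476466453393126446433123394c66424ee3da5d53d26416400ab09309009f),
.c (nat_lit 22) (nat_lit 0x4124040bc0304902000824fa8120bc0664d02b2a01593610731073f2831cc414fca0eca70f05e8703cc341da08003030498102f404126000bd),
.i (nat_lit 3) (nat_lit 147) [((nat_lit 5), (nat_lit 1)), ((nat_lit 2), (nat_lit 1)), ((nat_lit 3), (nat_lit 1)), ((nat_lit 9), (nat_lit 1)), ((nat_lit 0x143143), (nat_lit 4)), ((nat_lit 7), (nat_lit 1)), ((nat_lit 23), (nat_lit 1)), ((nat_lit 0), (nat_lit 0)), ((nat_lit 16), (nat_lit 1)), ((nat_lit 19), (nat_lit 1)), ((nat_lit 0x5c35c3), (nat_lit 4)), ((nat_lit 0), (nat_lit 0)), ((nat_lit 0), (nat_lit 0)), ((nat_lit 0x405405), (nat_lit 4)), ((nat_lit 0x81f), (nat_lit 2)), ((nat_lit 0), (nat_lit 0)), ((nat_lit 0), (nat_lit 0)), ((nat_lit 0xd0150143405405), (nat_lit 10)), ((nat_lit 0x417417), (nat_lit 4)), ((nat_lit 0x1607c581f),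 (nat_lit 6)), ((nat_lit 0), (nat_lit 0)), ((nat_lit 0), (nat_lit 0)), ((nat_lit 0xc581f1607c31607c581f), (nat_lit 14)), ((nat_lit 0x24581f1607c91607c581f), (nat_lit 14))] (nat_lit 0x64b64a6496486476466453393126446433123394c66424ee3da5d53d26416400ab09309009f),
.c (nat_lit 1) (nat_lit 0xcad),
.c (nat_lit 1) (nat_lit 772),
.c (nat_lit 4) (nat_lit 0x128b80001c0490a00087),
.c (nat_lit 3) (nat_lit 0x1d04041c200005),
.c (nat_lit 0) (nat_lit 0),
.c (nat_lit 0) (nat_lit 0),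
.c (nat_lit 0) (nat_lit 0),
.c (nat_lit 5) (nat_lit 0x5190224480824c047a600007),
.c (nat_lit 17) (nat_lit 0x63050204a808c140012a143050904a840c141c12a0c305051838202540c60a043070104a8000140412606093),
.c (nat_lit 17) (nat_lit 0x60b90217d8082e4005f6140b90917d8402e41c5f60c32d0505c820bec0c65a040b90117d80000c0816e080b7),
.c (nat_lit 17) (nat_lit 0x65170210c80945c00432145170910c84145c1c4320c3cd0528b8208640c79a045170110c80001c081c2080e1),
.c (nat_lit 0) (nat_lit 0),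
.c (nat_lit 0) (nat_lit 0),
.i (nat_lit 3) (nat_lit 8) [((nat_lit 3), (nat_lit 1)), ((nat_lit 14), (nat_lit 1)), ((nat_lit 2), (nat_lit 1)), ((nat_lit 4), (nat_lit 1)), ((nat_lit 7), (nat_lit 1)), ((nat_lit 22), (nat_lit 1)), ((nat_lit 10), (nat_lit 1)), ((nat_lit 29), (nat_lit 1)), ((nat_lit 9), (nat_lit 1)), ((nat_lit 0xd60d6), (nat_lit 4)), ((nat_lit 18), (nat_lit 1)), ((nat_lit 0), (nat_lit 0)), ((nat_lit 0x9d09d), (nat_lit 4)), ((nat_lit 16), (nat_lit 1)), ((nat_lit 0x389389), (nat_lit 4)), ((nat_lit 0), (nat_lit 0)), ((nat_lit 0xc274274309d09d), (nat_lit 10)), ((nat_lit 0x81f), (nat_lit 2)), ((nat_lit 32), (nat_lit 1)), ((nat_lit 0x39024e409389389), (nat_lit 10)), ((nat_lit 0x58e256389389389), (nat_lit 10)), ((nat_lit 0x74e25d389389389), (nat_lit 10)), ((nat_lit 0x8e40939024e24e24239024e409389389), (nat_lit 22)), ((nat_lit 0x10e40939024e24e24439024e409389389), (nat_lit 22))] (nat_lit 0x66366266166065f65e64465d34065c4ee65b65a3bf5c843b6593624a659e6580960902ae093),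
.c (nat_lit 5) (nat_lit 0x2cc8080438381a41810e00069),
.i (nat_lit 3) (nat_lit 15) [((nat_lit 3), (nat_lit 1)), ((nat_lit 14), (nat_lit 1)), ((nat_lit 2), (nat_lit 1)), ((nat_lit 4), (nat_lit 1)), ((nat_lit 7), (nat_lit 1)), ((nat_lit 22), (nat_lit 1)), ((nat_lit 10), (nat_lit 1)), ((nat_lit 29), (nat_lit 1)), ((nat_lit 9), (nat_lit 1)), ((nat_lit 0xd60d6), (nat_lit 4)), ((nat_lit 18), (nat_lit 1)), ((nat_lit 0), (nat_lit 0)), ((nat_lit 0x9d09d), (nat_lit 4)), ((nat_lit 16), (nat_lit 1)), ((nat_lit 0x389389), (nat_lit 4)), ((nat_lit 0), (nat_lit 0)), ((nat_lit 0xc274274309d09d), (nat_lit 10)), ((nat_lit 0x81f), (nat_lit 2)), ((nat_lit 32), (nat_lit 1)), ((nat_lit 0x39024e409389389), (nat_lit 10)), ((nat_lit 0x58e256389389389), (nat_lit 10)), ((nat_lit 0x74e25d389389389), (nat_lit 10)), ((nat_lit 0x8e40939024e24e24239024e409389389), (nat_lit 22)), ((nat_lit 0x10e40939024e24e24439024e409389389), (nat_lit 22))]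 (nat_lit 0x66366266166065f65e64465d34065c4ee65b65a3bf5c843b6593624a659e6580960902ae093),
.c (nat_lit 19) (nat_lit 0x81a00810c082260366602332c0c0d214ccb091138401a42c10e140690e04386824c300d2160870a04981021c040d200087),
.i (nat_lit 3) (nat_lit 16) [((nat_lit 3), (nat_lit 1)), ((nat_lit 14), (nat_lit 1)), ((nat_lit 2), (nat_lit 1)), ((nat_lit 4), (nat_lit 1)), ((nat_lit 7), (nat_lit 1)), ((nat_lit 22), (nat_lit 1)), ((nat_lit 10), (nat_lit 1)), ((nat_lit 29), (nat_lit 1)), ((nat_lit 9), (nat_lit 1)), ((nat_lit 0xd60d6), (nat_lit 4)), ((nat_lit 18), (nat_lit 1)), ((nat_lit 0), (nat_lit 0)), ((nat_lit 0x9d09d), (nat_lit 4)), ((nat_lit 16), (nat_lit 1)), ((nat_lit 0x389389), (nat_lit 4)), ((nat_lit 0), (nat_lit 0)), ((nat_lit 0xc274274309d09d), (nat_lit 10)), ((nat_lit 0x81f), (nat_lit 2)), ((nat_lit 32), (nat_lit 1)), ((nat_lit 0x39024e409389389), (nat_lit 10)), ((nat_lit 0x58e256389389389), (nat_lit 10)), ((nat_lit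 0x74e25d389389389), (nat_lit 10)), ((nat_lit 0x8e40939024e24e24239024e409389389), (nat_lit 22)), ((nat_lit 0x10e40939024e24e24439024e409389389), (nat_lit 22))] (nat_lit 0x66366266166065f65e64465d34065c4ee65b65a3bf5c843b6593624a659e6580960902ae093),
.c (nat_lit 17) (nat_lit 0x2086021430133400d996040690404384b32c200d20e2870604384021c2c16e14087090348402dc0410e00069),
.i (nat_lit 3) (nat_lit 17) [((nat_lit 3), (nat_lit 1)), ((nat_lit 14), (nat_lit 1)), ((nat_lit 2), (nat_lit 1)), ((nat_lit 4), (nat_lit 1)), ((nat_lit 7), (nat_lit 1)), ((nat_lit 22), (nat_lit 1)), ((nat_lit 10), (nat_lit 1)), ((nat_lit 29), (nat_lit 1)), ((nat_lit 9), (nat_lit 1)), ((nat_lit 0xd60d6), (nat_lit 4)), ((nat_lit 18), (nat_lit 1)), ((nat_lit 0), (nat_lit 0)), ((nat_lit 0x9d09d), (nat_lit 4)), ((nat_lit 16), (nat_lit 1)), ((nat_lit 0x389389), (nat_lit 4)), ((nat_lit 0), (nat_lit 0)), ((nat_lit 0xc274274309d09d), (nat_lit 10)), ((nat_lit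 0x81f), (nat_lit 2)), ((nat_lit 32), (nat_lit 1)), ((nat_lit 0x39024e409389389), (nat_lit 10)), ((nat_lit 0x58e256389389389), (nat_lit 10)), ((nat_lit 0x74e25d389389389), (nat_lit 10)), ((nat_lit 0x8e40939024e24e24239024e409389389), (nat_lit 22)), ((nat_lit 0x10e40939024e24e24439024e409389389), (nat_lit 22))] (nat_lit 0x66366266166065f65e64465d34065c4ee65b65a3bf5c843b6593624a659e6580960902ae093),
.c (nat_lit 17) (nat_lit 0x2086022420133500d996040690404384b32c200d20e4850604384021c2c1c214087090348403840410e00069),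
.i (nat_lit 3) (nat_lit 35) [((nat_lit 3), (nat_lit 1)), ((nat_lit 14), (nat_lit 1)), ((nat_lit 2), (nat_lit 1)), ((nat_lit 4), (nat_lit 1)), ((nat_lit 7), (nat_lit 1)), ((nat_lit 22), (nat_lit 1)), ((nat_lit 10), (nat_lit 1)), ((nat_lit 29), (nat_lit 1)), ((nat_lit 9), (nat_lit 1)), ((nat_lit 0xd60d6), (nat_lit 4)), ((nat_lit 18), (nat_lit 1)), ((nat_lit 0), (nat_lit 0)), ((nat_lit 0x9d09d), (nat_lit 4)), ((nat_lit 16), (nat_lit 1)), ((nat_lit 0x389389), (nat_lit 4)), ((nat_lit 0), (nat_lit 0)), ((nat_lit 0xc274274309d09d), (nat_lit 10)), ((nat_lit 0x81f), (nat_lit 2)), ((nat_lit 32), (nat_lit 1)), ((nat_lit 0x39024e409389389), (nat_lit 10)), ((nat_lit 0x58e256389389389), (nat_lit 10)), ((nat_lit 0x74e25d389389389), (nat_lit 10)), ((nat_lit 0x8e40939024e24e24239024e409389389), (nat_lit 22)), ((nat_lit 0x10e40939024e24e24439024e409389389), (nat_lit 22))] (nat_lit 0x66366266166065f65e64465d34065c4ee65b65a3bf5c843b6593624a659e6580960902ae093),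
.c (nat_lit 5) (nat_lit 0x680166c80889c1410e00069),
.i (nat_lit 3) (nat_lit 39) [((nat_lit 3), (nat_lit 1)), ((nat_lit 14), (nat_lit 1)), ((nat_lit 2), (nat_lit 1)), ((nat_lit 4), (nat_lit 1)), ((nat_lit 7), (nat_lit 1)), ((nat_lit 22), (nat_lit 1)), ((nat_lit 10), (nat_lit 1)), ((nat_lit 29), (nat_lit 1)), ((nat_lit 9), (nat_lit 1)), ((nat_lit 0xd60d6), (nat_lit 4)), ((nat_lit 18), (nat_lit 1)), ((nat_lit 0), (nat_lit 0)), ((nat_lit 0x9d09d), (nat_lit 4)), ((nat_lit 16), (nat_lit 1)), ((nat_lit 0x389389), (nat_lit 4)), ((nat_lit 0), (nat_lit 0)), ((nat_lit 0xc274274309d09d), (nat_lit 10)), ((nat_lit 0x81f), (nat_lit 2)), ((nat_lit 32), (nat_lit 1)), ((nat_lit 0x39024e409389389), (nat_lit 10)), ((nat_lit 0x58e256389389389), (nat_lit 10)), ((nat_lit 0x74e25d389389389), (nat_lit 10)), ((nat_lit 0x8e40939024e24e24239024e409389389), (nat_lit 22)), ((nat_lit 0x10e40939024e24e24439024e409389389), (nat_lit 22))]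 (nat_lit 0x66366266166065f65e64465d34065c4ee65b65a3bf5c843b6593624a659e6580960902ae093),
.c (nat_lit 13) (nat_lit 0x608600665020a180816c02cdd02034808a1c2816e12087080348382dc1810e00087),
.i (nat_lit 3) (nat_lit 45) [((nat_lit 3), (nat_lit 1)), ((nat_lit 14), (nat_lit 1)), ((nat_lit 2), (nat_lit 1)), ((nat_lit 4), (nat_lit 1)), ((nat_lit 7), (nat_lit 1)), ((nat_lit 22), (nat_lit 1)), ((nat_lit 10), (nat_lit 1)), ((nat_lit 29), (nat_lit 1)), ((nat_lit 9), (nat_lit 1)), ((nat_lit 0xd60d6), (nat_lit 4)), ((nat_lit 18), (nat_lit 1)), ((nat_lit 0), (nat_lit 0)), ((nat_lit 0x9d09d), (nat_lit 4)), ((nat_lit 16), (nat_lit 1)), ((nat_lit 0x389389), (nat_lit 4)), ((nat_lit 0), (nat_lit 0)), ((nat_lit 0xc274274309d09d), (nat_lit 10)), ((nat_lit 0x81f), (nat_lit 2)), ((nat_lit 32), (nat_lit 1)), ((nat_lit 0x39024e409389389), (nat_lit 10)), ((nat_lit 0x58e256389389389), (nat_lit 10)), ((nat_lit 0x74e25d389389389), (nat_lit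 10)), ((nat_lit 0x8e40939024e24e24239024e409389389), (nat_lit 22)), ((nat_lit 0x10e40939024e24e24439024e409389389), (nat_lit 22))] (nat_lit 0x66366266166065f65e64465d34065c4ee65b65a3bf5c843b6593624a659e6580960902ae093),
.c (nat_lit 12) (nat_lit 0x4070008218080d006086006650033800599600069020438292141010e080e1),
.i (nat_lit 3) (nat_lit 61) [((nat_lit 3), (nat_lit 1)), ((nat_lit 14), (nat_lit 1)), ((nat_lit 2), (nat_lit 1)), ((nat_lit 4), (nat_lit 1)), ((nat_lit 7), (nat_lit 1)), ((nat_lit 22), (nat_lit 1)), ((nat_lit 10), (nat_lit 1)), ((nat_lit 29), (nat_lit 1)), ((nat_lit 9), (nat_lit 1)), ((nat_lit 0xd60d6), (nat_lit 4)), ((nat_lit 18), (nat_lit 1)), ((nat_lit 0), (nat_lit 0)), ((nat_lit 0x9d09d), (nat_lit 4)), ((nat_lit 16), (nat_lit 1)), ((nat_lit 0x389389), (nat_lit 4)), ((nat_lit 0), (nat_lit 0)), ((nat_lit 0xc274274309d09d), (nat_lit 10)), ((nat_lit 0x81f), (nat_lit 2)), ((nat_lit 32), (nat_lit 1)),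 ((nat_lit 0x39024e409389389), (nat_lit 10)), ((nat_lit 0x58e256389389389), (nat_lit 10)), ((nat_lit 0x74e25d389389389), (nat_lit 10)), ((nat_lit 0x8e40939024e24e24239024e409389389), (nat_lit 22)), ((nat_lit 0x10e40939024e24e24439024e409389389), (nat_lit 22))] (nat_lit 0x66366266166065f65e64465d34065c4ee65b65a3bf5c843b6593624a659e6580960902ae093),
.c (nat_lit 16) (nat_lit 0x430282181850c0e48408143018218040d004cca0167281b32c080d202485040438382dc1810e00087),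
.i (nat_lit 3) (nat_lit 64) [((nat_lit 3), (nat_lit 1)), ((nat_lit 14), (nat_lit 1)), ((nat_lit 2), (nat_lit 1)), ((nat_lit 4), (nat_lit 1)), ((nat_lit 7), (nat_lit 1)), ((nat_lit 22), (nat_lit 1)), ((nat_lit 10), (nat_lit 1)), ((nat_lit 29), (nat_lit 1)), ((nat_lit 9), (nat_lit 1)), ((nat_lit 0xd60d6), (nat_lit 4)), ((nat_lit 18), (nat_lit 1)), ((nat_lit 0), (nat_lit 0)), ((nat_lit 0x9d09d), (nat_lit 4)), ((nat_lit 16), (nat_lit 1)), ((nat_lit 0x389389), (nat_lit 4)), ((nat_lit 0), (nat_lit 0)), ((nat_lit 0xc274274309d09d), (nat_lit 10)), ((nat_lit 0x81f), (nat_lit 2)), ((nat_lit 32), (nat_lit 1)), ((nat_lit 0x39024e409389389), (nat_lit 10)), ((nat_lit 0x58e256389389389), (nat_lit 10)), ((nat_lit 0x74e25d389389389), (nat_lit 10)), ((nat_lit 0x8e40939024e24e24239024e409389389), (nat_lit 22)), ((nat_lit 0x10e40939024e24e24439024e409389389), (nat_lit 22))] (nat_lit 0x66366266166065f65e64465d34065c4ee65b65a3bf5c843b6593624a659e6580960902ae093),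
.c (nat_lit 27) (nat_lit 0x821808908062860267482b32c100d2064850214383021c119ce06cd30605b838a1c1890a100b7096658401a41c90a0c0870804383335c140d20e4850807083821c0410e00069),
.i (nat_lit 3) (nat_lit 67) [((nat_lit 3), (nat_lit 1)), ((nat_lit 14), (nat_lit 1)), ((nat_lit 2), (nat_lit 1)), ((nat_lit 4), (nat_lit 1)), ((nat_lit 7), (nat_lit 1)), ((nat_lit 22), (nat_lit 1)), ((nat_lit 10), (nat_lit 1)), ((nat_lit 29), (nat_lit 1)), ((nat_lit 9), (nat_lit 1)), ((nat_lit 0xd60d6), (nat_lit 4)), ((nat_lit 18), (nat_lit 1)), ((nat_lit 0), (nat_lit 0)), ((nat_lit 0x9d09d), (nat_lit 4)), ((nat_lit 16), (nat_lit 1)), ((nat_lit 0x389389), (nat_lit 4)), ((nat_lit 0), (nat_lit 0)), ((nat_lit 0xc274274309d09d), (nat_lit 10)), ((nat_lit 0x81f), (nat_lit 2)), ((nat_lit 32), (nat_lit 1)), ((nat_lit 0x39024e409389389), (nat_lit 10)), ((nat_lit 0x58e256389389389), (nat_lit 10)), ((nat_lit 0x74e25d389389389), (nat_lit 10)), ((nat_lit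 0x8e40939024e24e24239024e409389389), (nat_lit 22)), ((nat_lit 0x10e40939024e24e24439024e409389389), (nat_lit 22))] (nat_lit 0x66366266166065f65e64465d34065c4ee65b65a3bf5c843b6593624a659e6580960902ae093),
.c (nat_lit 25) (nat_lit 0xe0010340100081c1c010378070430233881810c080680566501b3b011996060690504381b38c1810e0c1050517d8204140c5f6121030807081000c040d2000e1),
.i (nat_lit 3) (nat_lit 90) [((nat_lit 3), (nat_lit 1)), ((nat_lit 14), (nat_lit 1)), ((nat_lit 2), (nat_lit 1)), ((nat_lit 4), (nat_lit 1)), ((nat_lit 7), (nat_lit 1)), ((nat_lit 22), (nat_lit 1)), ((nat_lit 10), (nat_lit 1)), ((nat_lit 29), (nat_lit 1)), ((nat_lit 9), (nat_lit 1)), ((nat_lit 0xd60d6), (nat_lit 4)), ((nat_lit 18), (nat_lit 1)), ((nat_lit 0), (nat_lit 0)), ((nat_lit 0x9d09d), (nat_lit 4)), ((nat_lit 16), (nat_lit 1)), ((nat_lit 0x389389), (nat_lit 4)), ((nat_lit 0), (nat_lit 0)), ((nat_lit 0xc274274309d09d), (nat_lit 10)), ((nat_lit 0x81f),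 (nat_lit 2)), ((nat_lit 32), (nat_lit 1)), ((nat_lit 0x39024e409389389), (nat_lit 10)), ((nat_lit 0x58e256389389389), (nat_lit 10)), ((nat_lit 0x74e25d389389389), (nat_lit 10)), ((nat_lit 0x8e40939024e24e24239024e409389389), (nat_lit 22)), ((nat_lit 0x10e40939024e24e24439024e409389389), (nat_lit 22))] (nat_lit 0x66366266166065f65e64465d34065c4ee65b65a3bf5c843b6593624a659e6580960902ae093),
.c (nat_lit 23) (nat_lit 0x2180599c0208602034018218119b4020680266500b3c4059be082870766d82b37c0999602069030438101a40850e0208702667808a1c1412600087),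
.i (nat_lit 3) (nat_lit 93) [((nat_lit 3), (nat_lit 1)), ((nat_lit 14), (nat_lit 1)), ((nat_lit 2), (nat_lit 1)), ((nat_lit 4), (nat_lit 1)), ((nat_lit 7), (nat_lit 1)), ((nat_lit 22), (nat_lit 1)), ((nat_lit 10), (nat_lit 1)), ((nat_lit 29), (nat_lit 1)), ((nat_lit 9), (nat_lit 1)), ((nat_lit 0xd60d6), (nat_lit 4)), ((nat_lit 18), (nat_lit 1)), ((nat_lit 0), (nat_lit 0)), ((nat_lit 0x9d09d), (nat_lit 4)), ((nat_lit 16), (nat_lit 1)), ((nat_lit 0x389389), (nat_lit 4)), ((nat_lit 0), (nat_lit 0)), ((nat_lit 0xc274274309d09d), (nat_lit 10)), ((nat_lit 0x81f), (nat_lit 2)), ((nat_lit 32), (nat_lit 1)), ((nat_lit 0x39024e409389389), (nat_lit 10)), ((nat_lit 0x58e256389389389), (nat_lit 10)), ((nat_lit 0x74e25d389389389), (nat_lit 10)), ((nat_lit 0x8e40939024e24e24239024e409389389), (nat_lit 22)), ((nat_lit 0x10e40939024e24e24439024e409389389), (nat_lit 22))] (nat_lit 0x66366266166065f65e64465d34065c4ee65b65a3bf5c843b6593624a659e6580960902ae093),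
.c (nat_lit 1) (nat_lit 0xcf4),
.i (nat_lit 3) (nat_lit 115) [((nat_lit 3), (nat_lit 1)), ((nat_lit 14), (nat_lit 1)), ((nat_lit 2), (nat_lit 1)), ((nat_lit 4), (nat_lit 1)), ((nat_lit 7), (nat_lit 1)), ((nat_lit 22), (nat_lit 1)), ((nat_lit 10), (nat_lit 1)), ((nat_lit 29), (nat_lit 1)), ((nat_lit 9), (nat_lit 1)), ((nat_lit 0xd60d6), (nat_lit 4)), ((nat_lit 18), (nat_lit 1)), ((nat_lit 0), (nat_lit 0)), ((nat_lit 0x9d09d), (nat_lit 4)), ((nat_lit 16), (nat_lit 1)), ((nat_lit 0x389389), (nat_lit 4)), ((nat_lit 0), (nat_lit 0)), ((nat_lit 0xc274274309d09d), (nat_lit 10)), ((nat_lit 0x81f), (nat_lit 2)), ((nat_lit 32), (nat_lit 1)), ((nat_lit 0x39024e409389389), (nat_lit 10)), ((nat_lit 0x58e256389389389), (nat_lit 10)), ((nat_lit 0x74e25d389389389), (nat_lit 10)), ((nat_lit 0x8e40939024e24e24239024e409389389), (nat_lit 22)), ((nat_lit 0x10e40939024e24e24439024e409389389), (nat_lit 22))] (nat_lit 0x66366266166065f65e64465d34065c4ee65b65a3bf5c843b6593624a659e6580960902ae093),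
.c (nat_lit 1) (nat_lit 0xcf8),
.i (nat_lit 3) (nat_lit 123) [((nat_lit 3), (nat_lit 1)), ((nat_lit 14), (nat_lit 1)), ((nat_lit 2), (nat_lit 1)), ((nat_lit 4), (nat_lit 1)), ((nat_lit 7), (nat_lit 1)), ((nat_lit 22), (nat_lit 1)), ((nat_lit 10), (nat_lit 1)), ((nat_lit 29), (nat_lit 1)), ((nat_lit 9), (nat_lit 1)), ((nat_lit 0xd60d6), (nat_lit 4)), ((nat_lit 18), (nat_lit 1)), ((nat_lit 0), (nat_lit 0)), ((nat_lit 0x9d09d), (nat_lit 4)), ((nat_lit 16), (nat_lit 1)), ((nat_lit 0x389389), (nat_lit 4)), ((nat_lit 0), (nat_lit 0)), ((nat_lit 0xc274274309d09d), (nat_lit 10)), ((nat_lit 0x81f), (nat_lit 2)), ((nat_lit 32), (nat_lit 1)), ((nat_lit 0x39024e409389389), (nat_lit 10)), ((nat_lit 0x58e256389389389), (nat_lit 10)), ((nat_lit 0x74e25d389389389), (nat_lit 10)), ((nat_lit 0x8e40939024e24e24239024e409389389), (nat_lit 22)), ((nat_lit 0x10e40939024e24e24439024e409389389), (nat_lit 22))] (nat_lit 0x66366266166065f65e64465d34065c4ee65b65a3bf5c843b6593624a659e6580960902ae093),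
.c (nat_lit 1) (nat_lit 0xcfc),
.i (nat_lit 3) (nat_lit 125) [((nat_lit 3), (nat_lit 1)), ((nat_lit 14), (nat_lit 1)), ((nat_lit 2), (nat_lit 1)), ((nat_lit 4), (nat_lit 1)), ((nat_lit 7), (nat_lit 1)), ((nat_lit 22), (nat_lit 1)), ((nat_lit 10), (nat_lit 1)), ((nat_lit 29), (nat_lit 1)), ((nat_lit 9), (nat_lit 1)), ((nat_lit 0xd60d6), (nat_lit 4)), ((nat_lit 18), (nat_lit 1)), ((nat_lit 0), (nat_lit 0)), ((nat_lit 0x9d09d), (nat_lit 4)), ((nat_lit 16), (nat_lit 1)), ((nat_lit 0x389389), (nat_lit 4)), ((nat_lit 0), (nat_lit 0)), ((nat_lit 0xc274274309d09d), (nat_lit 10)), ((nat_lit 0x81f), (nat_lit 2)), ((nat_lit 32), (nat_lit 1)), ((nat_lit 0x39024e409389389), (nat_lit 10)), ((nat_lit 0x58e256389389389), (nat_lit 10)), ((nat_lit 0x74e25d389389389), (nat_lit 10)), ((nat_lit 0x8e40939024e24e24239024e409389389), (nat_lit 22)), ((nat_lit 0x10e40939024e24e24439024e409389389), (nat_lit 22))] (nat_lit 0x66366266166065f65e64465d34065c4ee65b65a3bf5c843b6593624a659e6580960902ae093)]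

theorem c10 : chk db th.hy ths 1665 J10 1589 = true := by decide +kernel

set_option maxRecDepth 100000 in
/-- Justifications. -/
noncomputable def J11 : List Js := [
.c (nat_lit 20) (nat_lit 0x567d020f800d9f40406803393020f8004fc00c086036710282180c0d008cca0268001b32c080d2080870267182821c040d2000e1),
.i (nat_lit 3) (nat_lit 130) [((nat_lit 3), (nat_lit 1)), ((nat_lit 14), (nat_lit 1)), ((nat_lit 2), (nat_lit 1)), ((nat_lit 4), (nat_lit 1)), ((nat_lit 7), (nat_lit 1)), ((nat_lit 22), (nat_lit 1)), ((nat_lit 10), (nat_lit 1)), ((nat_lit 29), (nat_lit 1)), ((nat_lit 9), (nat_lit 1)), ((nat_lit 0xd60d6), (nat_lit 4)), ((nat_lit 18), (nat_lit 1)), ((nat_lit 0), (nat_lit 0)), ((nat_lit 0x9d09d), (nat_lit 4)), ((nat_lit 16), (nat_lit 1)), ((nat_lit 0x389389), (nat_lit 4)), ((nat_lit 0), (nat_lit 0)), ((nat_lit 0xc274274309d09d), (nat_lit 10)), ((nat_lit 0x81f), (nat_lit 2)), ((nat_lit 32), (nat_lit 1)), ((nat_lit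 0x39024e409389389), (nat_lit 10)), ((nat_lit 0x58e256389389389), (nat_lit 10)), ((nat_lit 0x74e25d389389389), (nat_lit 10)), ((nat_lit 0x8e40939024e24e24239024e409389389), (nat_lit 22)), ((nat_lit 0x10e40939024e24e24439024e409389389), (nat_lit 22))] (nat_lit 0x66366266166065f65e64465d34065c4ee65b65a3bf5c843b6593624a659e6580960902ae093),
.c (nat_lit 5) (nat_lit 0x68016828090cc1410e00069),
.i (nat_lit 3) (nat_lit 138) [((nat_lit 3), (nat_lit 1)), ((nat_lit 14), (nat_lit 1)), ((nat_lit 2), (nat_lit 1)), ((nat_lit 4), (nat_lit 1)), ((nat_lit 7), (nat_lit 1)), ((nat_lit 22), (nat_lit 1)), ((nat_lit 10), (nat_lit 1)), ((nat_lit 29), (nat_lit 1)), ((nat_lit 9), (nat_lit 1)), ((nat_lit 0xd60d6), (nat_lit 4)), ((nat_lit 18), (nat_lit 1)), ((nat_lit 0), (nat_lit 0)), ((nat_lit 0x9d09d), (nat_lit 4)), ((nat_lit 16), (nat_lit 1)), ((nat_lit 0x389389), (nat_lit 4)), ((nat_lit 0), (nat_lit 0)), ((nat_lit 0xc274274309d09d),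 (nat_lit 10)), ((nat_lit 0x81f), (nat_lit 2)), ((nat_lit 32), (nat_lit 1)), ((nat_lit 0x39024e409389389), (nat_lit 10)), ((nat_lit 0x58e256389389389), (nat_lit 10)), ((nat_lit 0x74e25d389389389), (nat_lit 10)), ((nat_lit 0x8e40939024e24e24239024e409389389), (nat_lit 22)), ((nat_lit 0x10e40939024e24e24439024e409389389), (nat_lit 22))] (nat_lit 0x66366266166065f65e64465d34065c4ee65b65a3bf5c843b6593624a659e6580960902ae093),
.c (nat_lit 4) (nat_lit 0x2079003420059f6040f3),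
.i (nat_lit 3) (nat_lit 145) [((nat_lit 3), (nat_lit 1)), ((nat_lit 14), (nat_lit 1)), ((nat_lit 2), (nat_lit 1)), ((nat_lit 4), (nat_lit 1)), ((nat_lit 7), (nat_lit 1)), ((nat_lit 22), (nat_lit 1)), ((nat_lit 10), (nat_lit 1)), ((nat_lit 29), (nat_lit 1)), ((nat_lit 9), (nat_lit 1)), ((nat_lit 0xd60d6), (nat_lit 4)), ((nat_lit 18), (nat_lit 1)), ((nat_lit 0), (nat_lit 0)), ((nat_lit 0x9d09d), (nat_lit 4)), ((nat_lit 16), (nat_lit 1)), ((nat_lit 0x389389), (nat_lit 4)), ((nat_lit 0), (nat_lit 0)), ((nat_lit 0xc274274309d09d), (nat_lit 10)), ((nat_lit 0x81f), (nat_lit 2)), ((nat_lit 32), (nat_lit 1)), ((nat_lit 0x39024e409389389), (nat_lit 10)), ((nat_lit 0x58e256389389389), (nat_lit 10)), ((nat_lit 0x74e25d389389389), (nat_lit 10)), ((nat_lit 0x8e40939024e24e24239024e409389389), (nat_lit 22)), ((nat_lit 0x10e40939024e24e24439024e409389389), (nat_lit 22))] (nat_lit 0x66366266166065f65e64465d34065c4ee65b65a3bf5c843b6593624a659e6580960902ae093),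
.c (nat_lit 1) (nat_lit 0xd0c),
.i (nat_lit 3) (nat_lit 149) [((nat_lit 3), (nat_lit 1)), ((nat_lit 14), (nat_lit 1)), ((nat_lit 2), (nat_lit 1)), ((nat_lit 4), (nat_lit 1)), ((nat_lit 7), (nat_lit 1)), ((nat_lit 22), (nat_lit 1)), ((nat_lit 10), (nat_lit 1)), ((nat_lit 29), (nat_lit 1)), ((nat_lit 9), (nat_lit 1)), ((nat_lit 0xd60d6), (nat_lit 4)), ((nat_lit 18), (nat_lit 1)), ((nat_lit 0), (nat_lit 0)), ((nat_lit 0x9d09d), (nat_lit 4)), ((nat_lit 16), (nat_lit 1)), ((nat_lit 0x389389), (nat_lit 4)), ((nat_lit 0), (nat_lit 0)), ((nat_lit 0xc274274309d09d), (nat_lit 10)), ((nat_lit 0x81f), (nat_lit 2)), ((nat_lit 32), (nat_lit 1)), ((nat_lit 0x39024e409389389), (nat_lit 10)), ((nat_lit 0x58e256389389389), (nat_lit 10)), ((nat_lit 0x74e25d389389389), (nat_lit 10)), ((nat_lit 0x8e40939024e24e24239024e409389389), (nat_lit 22)), ((nat_lit 0x10e40939024e24e24439024e409389389), (nat_lit 22))] (nat_lit 0x66366266166065f65e64465d34065c4ee65b65a3bf5c843b6593624a659e6580960902ae093),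
.c (nat_lit 4) (nat_lit 0x207900344005a1e040f3),
.i (nat_lit 3) (nat_lit 154) [((nat_lit 3), (nat_lit 1)), ((nat_lit 14), (nat_lit 1)), ((nat_lit 2), (nat_lit 1)), ((nat_lit 4), (nat_lit 1)), ((nat_lit 7), (nat_lit 1)), ((nat_lit 22), (nat_lit 1)), ((nat_lit 10), (nat_lit 1)), ((nat_lit 29), (nat_lit 1)), ((nat_lit 9), (nat_lit 1)), ((nat_lit 0xd60d6), (nat_lit 4)), ((nat_lit 18), (nat_lit 1)), ((nat_lit 0), (nat_lit 0)), ((nat_lit 0x9d09d), (nat_lit 4)), ((nat_lit 16), (nat_lit 1)), ((nat_lit 0x389389), (nat_lit 4)), ((nat_lit 0), (nat_lit 0)), ((nat_lit 0xc274274309d09d), (nat_lit 10)), ((nat_lit 0x81f), (nat_lit 2)), ((nat_lit 32), (nat_lit 1)), ((nat_lit 0x39024e409389389), (nat_lit 10)), ((nat_lit 0x58e256389389389), (nat_lit 10)), ((nat_lit 0x74e25d389389389), (nat_lit 10)), ((nat_lit 0x8e40939024e24e24239024e409389389), (nat_lit 22)), ((nat_lit 0x10e40939024e24e24439024e409389389), (nat_lit 22))] (nat_lit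 0x66366266166065f65e64465d34065c4ee65b65a3bf5c843b6593624a659e6580960902ae093),
.c (nat_lit 1) (nat_lit 0xd15),
.c (nat_lit 1) (nat_lit 536),
.c (nat_lit 5) (nat_lit 0xd10213880824c0465200001),
.c (nat_lit 0) (nat_lit 0),
.c (nat_lit 14) (nat_lit 0x47ae007e3031b0810d7c1090a067af022ca80821c0c6c20435f0104c810fbc04c7600001),
.c (nat_lit 9) (nat_lit 0x20dd00182819ebc08b2a02087021af80826404e9200005),
.c (nat_lit 0) (nat_lit 0),
.c (nat_lit 14) (nat_lit 0x5822009970158b812c4c0d62e08b13065bb82830c1419e08307030ed810c1c043b600005),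
.c (nat_lit 0) (nat_lit 0),
.c (nat_lit 0) (nat_lit 0),
.i (nat_lit 3) (nat_lit 54) [((nat_lit 4), (nat_lit 1)), ((nat_lit 9), (nat_lit 1)), ((nat_lit 1), (nat_lit 1)), ((nat_lit 3), (nat_lit 1)), ((nat_lit 8), (nat_lit 1)), ((nat_lit 15), (nat_lit 1)), ((nat_lit 10), (nat_lit 1)), ((nat_lit 16), (nat_lit 1)), ((nat_lit 6), (nat_lit 1)), ((nat_lit 25), (nat_lit 1)), ((nat_lit 17), (nat_lit 1)), ((nat_lit 32), (nat_lit 1)), ((nat_lit 26), (nat_lit 1)), ((nat_lit 0x44e), (nat_lit 2)), ((nat_lit 0x698), (nat_lit 2)), ((nat_lit 0x60060), (nat_lit 4)), ((nat_lit 0x11a11a), (nat_lit 4)), ((nat_lit 0x75c), (nat_lit 2)), ((nat_lit 28), (nat_lit 1)), ((nat_lit 0x11a604698), (nat_lit 6)), ((nat_lit 0x3c63c6), (nat_lit 4)), ((nat_lit 0x406406), (nat_lit 4)), ((nat_lit 0x4469811a60111a604698), (nat_lit 14)), ((nat_lit 0xc469811a60311a604698), (nat_lit 14))] (nat_lit 0x6946936925e869169068f68e52a5e73b768d65e30e36630d3b842046d52868c09308f0ab096),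
.c (nat_lit 1) (nat_lit 0xd2a),
.i (nat_lit 3) (nat_lit 76) [((nat_lit 4), (nat_lit 1)), ((nat_lit 9), (nat_lit 1)), ((nat_lit 1), (nat_lit 1)), ((nat_lit 3), (nat_lit 1)), ((nat_lit 8), (nat_lit 1)), ((nat_lit 15), (nat_lit 1)), ((nat_lit 10), (nat_lit 1)), ((nat_lit 16), (nat_lit 1)), ((nat_lit 6), (nat_lit 1)), ((nat_lit 25), (nat_lit 1)), ((nat_lit 17), (nat_lit 1)), ((nat_lit 32), (nat_lit 1)), ((nat_lit 26), (nat_lit 1)), ((nat_lit 0x44e), (nat_lit 2)), ((nat_lit 0x698), (nat_lit 2)), ((nat_lit 0x60060), (nat_lit 4)), ((nat_lit 0x11a11a), (nat_lit 4)), ((nat_lit 0x75c), (nat_lit 2)), ((nat_lit 28), (nat_lit 1)), ((nat_lit 0x11a604698), (nat_lit 6)), ((nat_lit 0x3c63c6), (nat_lit 4)), ((nat_lit 0x406406), (nat_lit 4)), ((nat_lit 0x4469811a60111a604698), (nat_lit 14)), ((nat_lit 0xc469811a60311a604698), (nat_lit 14))] (nat_lit 0x6946936925e869169068f68e52a5e73b768d65e30e36630d3b842046d52868c09308f0ab096),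
.c (nat_lit 1) (nat_lit 0xd2e),
.i (nat_lit 3) (nat_lit 77) [((nat_lit 4), (nat_lit 1)), ((nat_lit 9), (nat_lit 1)), ((nat_lit 1), (nat_lit 1)), ((nat_lit 3), (nat_lit 1)), ((nat_lit 8), (nat_lit 1)), ((nat_lit 15), (nat_lit 1)), ((nat_lit 10), (nat_lit 1)), ((nat_lit 16), (nat_lit 1)), ((nat_lit 6), (nat_lit 1)), ((nat_lit 25), (nat_lit 1)), ((nat_lit 17), (nat_lit 1)), ((nat_lit 32), (nat_lit 1)), ((nat_lit 26), (nat_lit 1)), ((nat_lit 0x44e), (nat_lit 2)), ((nat_lit 0x698), (nat_lit 2)), ((nat_lit 0x60060), (nat_lit 4)), ((nat_lit 0x11a11a), (nat_lit 4)), ((nat_lit 0x75c), (nat_lit 2)), ((nat_lit 28), (nat_lit 1)), ((nat_lit 0x11a604698), (nat_lit 6)), ((nat_lit 0x3c63c6), (nat_lit 4)), ((nat_lit 0x406406), (nat_lit 4)), ((nat_lit 0x4469811a60111a604698), (nat_lit 14)), ((nat_lit 0xc469811a60311a604698), (nat_lit 14))] (nat_lit 0x6946936925e869169068f68e52a5e73b768d65e30e36630d3b842046d52868c09308f0ab096),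
.c (nat_lit 1) (nat_lit 0xd32),
.i (nat_lit 3) (nat_lit 78) [((nat_lit 4), (nat_lit 1)), ((nat_lit 9), (nat_lit 1)), ((nat_lit 1), (nat_lit 1)), ((nat_lit 3), (nat_lit 1)), ((nat_lit 8), (nat_lit 1)), ((nat_lit 15), (nat_lit 1)), ((nat_lit 10), (nat_lit 1)), ((nat_lit 16), (nat_lit 1)), ((nat_lit 6), (nat_lit 1)), ((nat_lit 25), (nat_lit 1)), ((nat_lit 17), (nat_lit 1)), ((nat_lit 32), (nat_lit 1)), ((nat_lit 26), (nat_lit 1)), ((nat_lit 0x44e), (nat_lit 2)), ((nat_lit 0x698), (nat_lit 2)), ((nat_lit 0x60060), (nat_lit 4)), ((nat_lit 0x11a11a), (nat_lit 4)), ((nat_lit 0x75c), (nat_lit 2)), ((nat_lit 28), (nat_lit 1)), ((nat_lit 0x11a604698), (nat_lit 6)), ((nat_lit 0x3c63c6), (nat_lit 4)), ((nat_lit 0x406406), (nat_lit 4)), ((nat_lit 0x4469811a60111a604698), (nat_lit 14)), ((nat_lit 0xc469811a60311a604698), (nat_lit 14))] (nat_lit 0x6946936925e869169068f68e52a5e73b768d65e30e36630d3b842046d52868c09308f0ab096),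
.c (nat_lit 5) (nat_lit 0x560169b80936c1412600057),
.i (nat_lit 3) (nat_lit 80) [((nat_lit 4), (nat_lit 1)), ((nat_lit 9), (nat_lit 1)), ((nat_lit 1), (nat_lit 1)), ((nat_lit 3), (nat_lit 1)), ((nat_lit 8), (nat_lit 1)), ((nat_lit 15), (nat_lit 1)), ((nat_lit 10), (nat_lit 1)), ((nat_lit 16), (nat_lit 1)), ((nat_lit 6), (nat_lit 1)), ((nat_lit 25), (nat_lit 1)), ((nat_lit 17), (nat_lit 1)), ((nat_lit 32), (nat_lit 1)), ((nat_lit 26), (nat_lit 1)), ((nat_lit 0x44e), (nat_lit 2)), ((nat_lit 0x698), (nat_lit 2)), ((nat_lit 0x60060), (nat_lit 4)), ((nat_lit 0x11a11a), (nat_lit 4)), ((nat_lit 0x75c), (nat_lit 2)), ((nat_lit 28), (nat_lit 1)), ((nat_lit 0x11a604698), (nat_lit 6)), ((nat_lit 0x3c63c6), (nat_lit 4)), ((nat_lit 0x406406), (nat_lit 4)), ((nat_lit 0x4469811a60111a604698), (nat_lit 14)), ((nat_lit 0xc469811a60311a604698), (nat_lit 14))] (nat_lit 0x6946936925e869169068f68e52a5e73b768d65e30e36630d3b842046d52868c09308f0ab096),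
.c (nat_lit 5) (nat_lit 0x560169d809a3c1412600057),
.i (nat_lit 3) (nat_lit 81) [((nat_lit 4), (nat_lit 1)), ((nat_lit 9), (nat_lit 1)), ((nat_lit 1), (nat_lit 1)), ((nat_lit 3), (nat_lit 1)), ((nat_lit 8), (nat_lit 1)), ((nat_lit 15), (nat_lit 1)), ((nat_lit 10), (nat_lit 1)), ((nat_lit 16), (nat_lit 1)), ((nat_lit 6), (nat_lit 1)), ((nat_lit 25), (nat_lit 1)), ((nat_lit 17), (nat_lit 1)), ((nat_lit 32), (nat_lit 1)), ((nat_lit 26), (nat_lit 1)), ((nat_lit 0x44e), (nat_lit 2)), ((nat_lit 0x698), (nat_lit 2)), ((nat_lit 0x60060), (nat_lit 4)), ((nat_lit 0x11a11a), (nat_lit 4)), ((nat_lit 0x75c), (nat_lit 2)), ((nat_lit 28), (nat_lit 1)), ((nat_lit 0x11a604698), (nat_lit 6)), ((nat_lit 0x3c63c6), (nat_lit 4)), ((nat_lit 0x406406), (nat_lit 4)), ((nat_lit 0x4469811a60111a604698), (nat_lit 14)), ((nat_lit 0xc469811a60311a604698), (nat_lit 14))] (nat_lit 0x6946936925e869169068f68e52a5e73b768d65e30e36630d3b842046d52868c09308f0ab096),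
.c (nat_lit 1) (nat_lit 0xd3f),
.i (nat_lit 3) (nat_lit 85) [((nat_lit 4), (nat_lit 1)), ((nat_lit 9), (nat_lit 1)), ((nat_lit 1), (nat_lit 1)), ((nat_lit 3), (nat_lit 1)), ((nat_lit 8), (nat_lit 1)), ((nat_lit 15), (nat_lit 1)), ((nat_lit 10), (nat_lit 1)), ((nat_lit 16), (nat_lit 1)), ((nat_lit 6), (nat_lit 1)), ((nat_lit 25), (nat_lit 1)), ((nat_lit 17), (nat_lit 1)), ((nat_lit 32), (nat_lit 1)), ((nat_lit 26), (nat_lit 1)), ((nat_lit 0x44e), (nat_lit 2)), ((nat_lit 0x698), (nat_lit 2)), ((nat_lit 0x60060), (nat_lit 4)), ((nat_lit 0x11a11a), (nat_lit 4)), ((nat_lit 0x75c), (nat_lit 2)), ((nat_lit 28), (nat_lit 1)), ((nat_lit 0x11a604698), (nat_lit 6)), ((nat_lit 0x3c63c6), (nat_lit 4)), ((nat_lit 0x406406), (nat_lit 4)), ((nat_lit 0x4469811a60111a604698), (nat_lit 14)), ((nat_lit 0xc469811a60311a604698), (nat_lit 14))] (nat_lit 0x6946936925e869169068f68e52a5e73b768d65e30e36630d3b842046d52868c09308f0ab096),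
.c (nat_lit 5) (nat_lit 0x56016a180936c1411a00057),
.i (nat_lit 3) (nat_lit 87) [((nat_lit 4), (nat_lit 1)), ((nat_lit 9), (nat_lit 1)), ((nat_lit 1), (nat_lit 1)), ((nat_lit 3), (nat_lit 1)), ((nat_lit 8), (nat_lit 1)), ((nat_lit 15), (nat_lit 1)), ((nat_lit 10), (nat_lit 1)), ((nat_lit 16), (nat_lit 1)), ((nat_lit 6), (nat_lit 1)), ((nat_lit 25), (nat_lit 1)), ((nat_lit 17), (nat_lit 1)), ((nat_lit 32), (nat_lit 1)), ((nat_lit 26), (nat_lit 1)), ((nat_lit 0x44e), (nat_lit 2)), ((nat_lit 0x698), (nat_lit 2)), ((nat_lit 0x60060), (nat_lit 4)), ((nat_lit 0x11a11a), (nat_lit 4)), ((nat_lit 0x75c), (nat_lit 2)), ((nat_lit 28), (nat_lit 1)), ((nat_lit 0x11a604698), (nat_lit 6)), ((nat_lit 0x3c63c6), (nat_lit 4)), ((nat_lit 0x406406), (nat_lit 4)), ((nat_lit 0x4469811a60111a604698), (nat_lit 14)), ((nat_lit 0xc469811a60311a604698), (nat_lit 14))] (nat_lit 0x6946936925e869169068f68e52a5e73b768d65e30e36630d3b842046d52868c09308f0ab096),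
.c (nat_lit 2) (nat_lit 0x1a8c060cf),
.i (nat_lit 3) (nat_lit 88) [((nat_lit 4), (nat_lit 1)), ((nat_lit 9), (nat_lit 1)), ((nat_lit 1), (nat_lit 1)), ((nat_lit 3), (nat_lit 1)), ((nat_lit 8), (nat_lit 1)), ((nat_lit 15), (nat_lit 1)), ((nat_lit 10), (nat_lit 1)), ((nat_lit 16), (nat_lit 1)), ((nat_lit 6), (nat_lit 1)), ((nat_lit 25), (nat_lit 1)), ((nat_lit 17), (nat_lit 1)), ((nat_lit 32), (nat_lit 1)), ((nat_lit 26), (nat_lit 1)), ((nat_lit 0x44e), (nat_lit 2)), ((nat_lit 0x698), (nat_lit 2)), ((nat_lit 0x60060), (nat_lit 4)), ((nat_lit 0x11a11a), (nat_lit 4)), ((nat_lit 0x75c), (nat_lit 2)), ((nat_lit 28), (nat_lit 1)), ((nat_lit 0x11a604698), (nat_lit 6)), ((nat_lit 0x3c63c6), (nat_lit 4)), ((nat_lit 0x406406), (nat_lit 4)), ((nat_lit 0x4469811a60111a604698), (nat_lit 14)), ((nat_lit 0xc469811a60311a604698), (nat_lit 14))] (nat_lit 0x6946936925e869169068f68e52a5e73b768d65e30e36630d3b842046d52868c09308f0ab096),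
.c (nat_lit 10) (nat_lit 0xac0c098016a581136c049be06d45070468302641411a00057),
.i (nat_lit 3) (nat_lit 89) [((nat_lit 4), (nat_lit 1)), ((nat_lit 9), (nat_lit 1)), ((nat_lit 1), (nat_lit 1)), ((nat_lit 3), (nat_lit 1)), ((nat_lit 8), (nat_lit 1)), ((nat_lit 15), (nat_lit 1)), ((nat_lit 10), (nat_lit 1)), ((nat_lit 16), (nat_lit 1)), ((nat_lit 6), (nat_lit 1)), ((nat_lit 25), (nat_lit 1)), ((nat_lit 17), (nat_lit 1)), ((nat_lit 32), (nat_lit 1)), ((nat_lit 26), (nat_lit 1)), ((nat_lit 0x44e), (nat_lit 2)), ((nat_lit 0x698), (nat_lit 2)), ((nat_lit 0x60060), (nat_lit 4)), ((nat_lit 0x11a11a), (nat_lit 4)), ((nat_lit 0x75c), (nat_lit 2)), ((nat_lit 28), (nat_lit 1)), ((nat_lit 0x11a604698), (nat_lit 6)), ((nat_lit 0x3c63c6), (nat_lit 4)), ((nat_lit 0x406406), (nat_lit 4)), ((nat_lit 0x4469811a60111a604698), (nat_lit 14)), ((nat_lit 0xc469811a60311a604698), (nat_lit 14))] (nat_lit 0x6946936925e869169068f68e52a5e73b768d65e30e36630d3b842046d52868c09308f0ab096),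
.c (nat_lit 2) (nat_lit 0x1a9e040cf),
.i (nat_lit 3) (nat_lit 91) [((nat_lit 4), (nat_lit 1)), ((nat_lit 9), (nat_lit 1)), ((nat_lit 1), (nat_lit 1)), ((nat_lit 3), (nat_lit 1)), ((nat_lit 8), (nat_lit 1)), ((nat_lit 15), (nat_lit 1)), ((nat_lit 10), (nat_lit 1)), ((nat_lit 16), (nat_lit 1)), ((nat_lit 6), (nat_lit 1)), ((nat_lit 25), (nat_lit 1)), ((nat_lit 17), (nat_lit 1)), ((nat_lit 32), (nat_lit 1)), ((nat_lit 26), (nat_lit 1)), ((nat_lit 0x44e), (nat_lit 2)), ((nat_lit 0x698), (nat_lit 2)), ((nat_lit 0x60060), (nat_lit 4)), ((nat_lit 0x11a11a), (nat_lit 4)), ((nat_lit 0x75c), (nat_lit 2)), ((nat_lit 28), (nat_lit 1)), ((nat_lit 0x11a604698), (nat_lit 6)), ((nat_lit 0x3c63c6), (nat_lit 4)), ((nat_lit 0x406406), (nat_lit 4)), ((nat_lit 0x4469811a60111a604698), (nat_lit 14)), ((nat_lit 0xc469811a60311a604698), (nat_lit 14))] (nat_lit 0x6946936925e869169068f68e52a5e73b768d65e30e36630d3b842046d52868c09308f0ab096),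
.c (nat_lit 10) (nat_lit 0xc1b4080920069e00815809aa6065cb0234783824c040ae000db),
.i (nat_lit 3) (nat_lit 92) [((nat_lit 4), (nat_lit 1)), ((nat_lit 9), (nat_lit 1)), ((nat_lit 1), (nat_lit 1)), ((nat_lit 3), (nat_lit 1)), ((nat_lit 8), (nat_lit 1)), ((nat_lit 15), (nat_lit 1)), ((nat_lit 10), (nat_lit 1)), ((nat_lit 16), (nat_lit 1)), ((nat_lit 6), (nat_lit 1)), ((nat_lit 25), (nat_lit 1)), ((nat_lit 17), (nat_lit 1)), ((nat_lit 32), (nat_lit 1)), ((nat_lit 26), (nat_lit 1)), ((nat_lit 0x44e), (nat_lit 2)), ((nat_lit 0x698), (nat_lit 2)), ((nat_lit 0x60060), (nat_lit 4)), ((nat_lit 0x11a11a), (nat_lit 4)), ((nat_lit 0x75c), (nat_lit 2)), ((nat_lit 28), (nat_lit 1)), ((nat_lit 0x11a604698), (nat_lit 6)), ((nat_lit 0x3c63c6), (nat_lit 4)), ((nat_lit 0x406406), (nat_lit 4)), ((nat_lit 0x4469811a60111a604698), (nat_lit 14)), ((nat_lit 0xc469811a60311a604698), (nat_lit 14))] (nat_lit 0x6946936925e869169068f68e52a5e73b768d65e30e36630d3b842046d52868c09308f0ab096),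
.c (nat_lit 2) (nat_lit 0x1aae04099),
.i (nat_lit 3) (nat_lit 98) [((nat_lit 4), (nat_lit 1)), ((nat_lit 9), (nat_lit 1)), ((nat_lit 1), (nat_lit 1)), ((nat_lit 3), (nat_lit 1)), ((nat_lit 8), (nat_lit 1)), ((nat_lit 15), (nat_lit 1)), ((nat_lit 10), (nat_lit 1)), ((nat_lit 16), (nat_lit 1)), ((nat_lit 6), (nat_lit 1)), ((nat_lit 25), (nat_lit 1)), ((nat_lit 17), (nat_lit 1)), ((nat_lit 32), (nat_lit 1)), ((nat_lit 26), (nat_lit 1)), ((nat_lit 0x44e), (nat_lit 2)), ((nat_lit 0x698), (nat_lit 2)), ((nat_lit 0x60060), (nat_lit 4)), ((nat_lit 0x11a11a), (nat_lit 4)), ((nat_lit 0x75c), (nat_lit 2)), ((nat_lit 28), (nat_lit 1)), ((nat_lit 0x11a604698), (nat_lit 6)), ((nat_lit 0x3c63c6), (nat_lit 4)), ((nat_lit 0x406406), (nat_lit 4)), ((nat_lit 0x4469811a60111a604698), (nat_lit 14)), ((nat_lit 0xc469811a60311a604698), (nat_lit 14))] (nat_lit 0x6946936925e869169068f68e52a5e73b768d65e30e36630d3b842046d52868c09308f0ab096),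
.c (nat_lit 4) (nat_lit 0x106d0034c005ab4000db),
.i (nat_lit 3) (nat_lit 103) [((nat_lit 4), (nat_lit 1)), ((nat_lit 9), (nat_lit 1)), ((nat_lit 1), (nat_lit 1)), ((nat_lit 3), (nat_lit 1)), ((nat_lit 8), (nat_lit 1)), ((nat_lit 15), (nat_lit 1)), ((nat_lit 10), (nat_lit 1)), ((nat_lit 16), (nat_lit 1)), ((nat_lit 6), (nat_lit 1)), ((nat_lit 25), (nat_lit 1)), ((nat_lit 17), (nat_lit 1)), ((nat_lit 32), (nat_lit 1)), ((nat_lit 26), (nat_lit 1)), ((nat_lit 0x44e), (nat_lit 2)), ((nat_lit 0x698), (nat_lit 2)), ((nat_lit 0x60060), (nat_lit 4)), ((nat_lit 0x11a11a), (nat_lit 4)), ((nat_lit 0x75c), (nat_lit 2)), ((nat_lit 28), (nat_lit 1)), ((nat_lit 0x11a604698), (nat_lit 6)), ((nat_lit 0x3c63c6), (nat_lit 4)), ((nat_lit 0x406406), (nat_lit 4)), ((nat_lit 0x4469811a60111a604698), (nat_lit 14)), ((nat_lit 0xc469811a60311a604698), (nat_lit 14))] (nat_lit 0x6946936925e869169068f68e52a5e73b768d65e30e36630d3b842046d52868c09308f0ab096),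
.c (nat_lit 1) (nat_lit 0xd5f),
.i (nat_lit 3) (nat_lit 108) [((nat_lit 4), (nat_lit 1)), ((nat_lit 9), (nat_lit 1)), ((nat_lit 1), (nat_lit 1)), ((nat_lit 3), (nat_lit 1)), ((nat_lit 8), (nat_lit 1)), ((nat_lit 15), (nat_lit 1)), ((nat_lit 10), (nat_lit 1)), ((nat_lit 16), (nat_lit 1)), ((nat_lit 6), (nat_lit 1)), ((nat_lit 25), (nat_lit 1)), ((nat_lit 17), (nat_lit 1)), ((nat_lit 32), (nat_lit 1)), ((nat_lit 26), (nat_lit 1)), ((nat_lit 0x44e), (nat_lit 2)), ((nat_lit 0x698), (nat_lit 2)), ((nat_lit 0x60060), (nat_lit 4)), ((nat_lit 0x11a11a), (nat_lit 4)), ((nat_lit 0x75c), (nat_lit 2)), ((nat_lit 28), (nat_lit 1)), ((nat_lit 0x11a604698), (nat_lit 6)), ((nat_lit 0x3c63c6), (nat_lit 4)), ((nat_lit 0x406406), (nat_lit 4)), ((nat_lit 0x4469811a60111a604698), (nat_lit 14)), ((nat_lit 0xc469811a60311a604698), (nat_lit 14))] (nat_lit 0x6946936925e869169068f68e52a5e73b768d65e30e36630d3b842046d52868c09308f0ab096),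
.c (nat_lit 4) (nat_lit 0x304902319801ac608093),
.i (nat_lit 3) (nat_lit 109) [((nat_lit 4), (nat_lit 1)), ((nat_lit 9), (nat_lit 1)), ((nat_lit 1), (nat_lit 1)), ((nat_lit 3), (nat_lit 1)), ((nat_lit 8), (nat_lit 1)), ((nat_lit 15), (nat_lit 1)), ((nat_lit 10), (nat_lit 1)), ((nat_lit 16), (nat_lit 1)), ((nat_lit 6), (nat_lit 1)), ((nat_lit 25), (nat_lit 1)), ((nat_lit 17), (nat_lit 1)), ((nat_lit 32), (nat_lit 1)), ((nat_lit 26), (nat_lit 1)), ((nat_lit 0x44e), (nat_lit 2)), ((nat_lit 0x698), (nat_lit 2)), ((nat_lit 0x60060), (nat_lit 4)), ((nat_lit 0x11a11a), (nat_lit 4)), ((nat_lit 0x75c), (nat_lit 2)), ((nat_lit 28), (nat_lit 1)), ((nat_lit 0x11a604698), (nat_lit 6)), ((nat_lit 0x3c63c6), (nat_lit 4)), ((nat_lit 0x406406), (nat_lit 4)), ((nat_lit 0x4469811a60111a604698), (nat_lit 14)), ((nat_lit 0xc469811a60311a604698), (nat_lit 14))] (nat_lit 0x6946936925e869169068f68e52a5e73b768d65e30e36630d3b842046d52868c09308f0ab096),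
.c (nat_lit 4) (nat_lit 0x10670134c001acc040cf),
.i (nat_lit 3) (nat_lit 110) [((nat_lit 4), (nat_lit 1)), ((nat_lit 9), (nat_lit 1)), ((nat_lit 1), (nat_lit 1)), ((nat_lit 3), (nat_lit 1)), ((nat_lit 8), (nat_lit 1)), ((nat_lit 15), (nat_lit 1)), ((nat_lit 10), (nat_lit 1)), ((nat_lit 16), (nat_lit 1)), ((nat_lit 6), (nat_lit 1)), ((nat_lit 25), (nat_lit 1)), ((nat_lit 17), (nat_lit 1)), ((nat_lit 32), (nat_lit 1)), ((nat_lit 26), (nat_lit 1)), ((nat_lit 0x44e), (nat_lit 2)), ((nat_lit 0x698), (nat_lit 2)), ((nat_lit 0x60060), (nat_lit 4)), ((nat_lit 0x11a11a), (nat_lit 4)), ((nat_lit 0x75c), (nat_lit 2)), ((nat_lit 28), (nat_lit 1)), ((nat_lit 0x11a604698), (nat_lit 6)), ((nat_lit 0x3c63c6), (nat_lit 4)), ((nat_lit 0x406406), (nat_lit 4)), ((nat_lit 0x4469811a60111a604698), (nat_lit 14)), ((nat_lit 0xc469811a60311a604698), (nat_lit 14))] (nat_lit 0x6946936925e869169068f68e52a5e73b768d65e30e36630d3b842046d52868c09308f0ab096),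
.c (nat_lit 2) (nat_lit 0x1ad6040cf),
.i (nat_lit 3) (nat_lit 113) [((nat_lit 4), (nat_lit 1)), ((nat_lit 9), (nat_lit 1)), ((nat_lit 1), (nat_lit 1)), ((nat_lit 3), (nat_lit 1)), ((nat_lit 8), (nat_lit 1)), ((nat_lit 15), (nat_lit 1)), ((nat_lit 10), (nat_lit 1)), ((nat_lit 16), (nat_lit 1)), ((nat_lit 6), (nat_lit 1)), ((nat_lit 25), (nat_lit 1)), ((nat_lit 17), (nat_lit 1)), ((nat_lit 32), (nat_lit 1)), ((nat_lit 26), (nat_lit 1)), ((nat_lit 0x44e), (nat_lit 2)), ((nat_lit 0x698), (nat_lit 2)), ((nat_lit 0x60060), (nat_lit 4)), ((nat_lit 0x11a11a), (nat_lit 4)), ((nat_lit 0x75c), (nat_lit 2)), ((nat_lit 28), (nat_lit 1)), ((nat_lit 0x11a604698), (nat_lit 6)), ((nat_lit 0x3c63c6), (nat_lit 4)), ((nat_lit 0x406406), (nat_lit 4)), ((nat_lit 0x4469811a60111a604698), (nat_lit 14)), ((nat_lit 0xc469811a60311a604698), (nat_lit 14))] (nat_lit 0x6946936925e869169068f68e52a5e73b768d65e30e36630d3b842046d52868c09308f0ab096),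
.c (nat_lit 10) (nat_lit 0xac0c098016b781136c049be06d39070498302641412600057),
.i (nat_lit 3) (nat_lit 114) [((nat_lit 4), (nat_lit 1)), ((nat_lit 9), (nat_lit 1)), ((nat_lit 1), (nat_lit 1)), ((nat_lit 3), (nat_lit 1)), ((nat_lit 8), (nat_lit 1)), ((nat_lit 15), (nat_lit 1)), ((nat_lit 10), (nat_lit 1)), ((nat_lit 16), (nat_lit 1)), ((nat_lit 6), (nat_lit 1)), ((nat_lit 25), (nat_lit 1)), ((nat_lit 17), (nat_lit 1)), ((nat_lit 32), (nat_lit 1)), ((nat_lit 26), (nat_lit 1)), ((nat_lit 0x44e), (nat_lit 2)), ((nat_lit 0x698), (nat_lit 2)), ((nat_lit 0x60060), (nat_lit 4)), ((nat_lit 0x11a11a), (nat_lit 4)), ((nat_lit 0x75c), (nat_lit 2)), ((nat_lit 28), (nat_lit 1)), ((nat_lit 0x11a604698), (nat_lit 6)), ((nat_lit 0x3c63c6), (nat_lit 4)), ((nat_lit 0x406406), (nat_lit 4)), ((nat_lit 0x4469811a60111a604698), (nat_lit 14)), ((nat_lit 0xc469811a60311a604698), (nat_lit 14))] (nat_lit 0x6946936925e869169068f68e52a5e73b768d65e30e36630d3b842046d52868c09308f0ab096)]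

theorem c11 : chk db th.hy ths 1722 J11 1665 = true := by decide +kernel

end Pool.Agent.Lib.MP_3b0e0c_al.S.L4
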