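import Pool.Agent.Lib.MP_3b0e0c_al.S.L4D

namespace Pool.Agent.Lib.MP_3b0e0c_al.S.L4

set_option maxRecDepth 100000 in
/-- Justifications. -/
noncomputable def J12 : List Js := [
.c (nat_lit 9) (nat_lit 0x56041ce00b5cc04d2206d3d0704983036c1412600057),
.i (nat_lit 3) (nat_lit 115) [((nat_lit 4), (nat_lit 1)), ((nat_lit 9), (nat_lit 1)), ((nat_lit 1), (nat_lit 1)), ((nat_lit 3), (nat_lit 1)), ((nat_lit 8), (nat_lit 1)), ((nat_lit 15), (nat_lit 1)), ((nat_lit 10), (nat_lit 1)), ((nat_lit 16), (nat_lit 1)), ((nat_lit 6), (nat_lit 1)), ((nat_lit 25), (nat_lit 1)), ((nat_lit 17), (nat_lit 1)), ((nat_lit 32), (nat_lit 1)), ((nat_lit 26), (nat_lit 1)), ((nat_lit 0x44e), (nat_lit 2)), ((nat_lit 0x698), (nat_lit 2)), ((nat_lit 0x60060), (nat_lit 4)), ((nat_lit 0x11a11a), (nat_lit 4)), ((nat_lit 0x75c), (nat_lit 2)), ((nat_lit 28), (nat_lit 1)), ((nat_lit 0x11a604698), (nat_lit 6)), ((nat_lit 0x3c63c6), (nat_lit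 4)), ((nat_lit 0x406406), (nat_lit 4)), ((nat_lit 0x4469811a60111a604698), (nat_lit 14)), ((nat_lit 0xc469811a60311a604698), (nat_lit 14))] (nat_lit 0x6946936925e869169068f68e52a5e73b768d65e30e36630d3b842046d52868c09308f0ab096),
.c (nat_lit 1) (nat_lit 0xd76),
.i (nat_lit 3) (nat_lit 116) [((nat_lit 4), (nat_lit 1)), ((nat_lit 9), (nat_lit 1)), ((nat_lit 1), (nat_lit 1)), ((nat_lit 3), (nat_lit 1)), ((nat_lit 8), (nat_lit 1)), ((nat_lit 15), (nat_lit 1)), ((nat_lit 10), (nat_lit 1)), ((nat_lit 16), (nat_lit 1)), ((nat_lit 6), (nat_lit 1)), ((nat_lit 25), (nat_lit 1)), ((nat_lit 17), (nat_lit 1)), ((nat_lit 32), (nat_lit 1)), ((nat_lit 26), (nat_lit 1)), ((nat_lit 0x44e), (nat_lit 2)), ((nat_lit 0x698), (nat_lit 2)), ((nat_lit 0x60060), (nat_lit 4)), ((nat_lit 0x11a11a), (nat_lit 4)), ((nat_lit 0x75c), (nat_lit 2)), ((nat_lit 28), (nat_lit 1)), ((nat_lit 0x11a604698), (nat_lit 6)), ((nat_lit 0x3c63c6),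 (nat_lit 4)), ((nat_lit 0x406406), (nat_lit 4)), ((nat_lit 0x4469811a60111a604698), (nat_lit 14)), ((nat_lit 0xc469811a60311a604698), (nat_lit 14))] (nat_lit 0x6946936925e869169068f68e52a5e73b768d65e30e36630d3b842046d52868c09308f0ab096),
.c (nat_lit 4) (nat_lit 0x4300b5ec05a1e00087),
.i (nat_lit 3) (nat_lit 123) [((nat_lit 4), (nat_lit 1)), ((nat_lit 9), (nat_lit 1)), ((nat_lit 1), (nat_lit 1)), ((nat_lit 3), (nat_lit 1)), ((nat_lit 8), (nat_lit 1)), ((nat_lit 15), (nat_lit 1)), ((nat_lit 10), (nat_lit 1)), ((nat_lit 16), (nat_lit 1)), ((nat_lit 6), (nat_lit 1)), ((nat_lit 25), (nat_lit 1)), ((nat_lit 17), (nat_lit 1)), ((nat_lit 32), (nat_lit 1)), ((nat_lit 26), (nat_lit 1)), ((nat_lit 0x44e), (nat_lit 2)), ((nat_lit 0x698), (nat_lit 2)), ((nat_lit 0x60060), (nat_lit 4)), ((nat_lit 0x11a11a), (nat_lit 4)), ((nat_lit 0x75c), (nat_lit 2)), ((nat_lit 28), (nat_lit 1)), ((nat_lit 0x11a604698), (nat_lit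 6)), ((nat_lit 0x3c63c6), (nat_lit 4)), ((nat_lit 0x406406), (nat_lit 4)), ((nat_lit 0x4469811a60111a604698), (nat_lit 14)), ((nat_lit 0xc469811a60311a604698), (nat_lit 14))] (nat_lit 0x6946936925e869169068f68e52a5e73b768d65e30e36630d3b842046d52868c09308f0ab096),
.c (nat_lit 1) (nat_lit 0xd7e),
.i (nat_lit 3) (nat_lit 125) [((nat_lit 4), (nat_lit 1)), ((nat_lit 9), (nat_lit 1)), ((nat_lit 1), (nat_lit 1)), ((nat_lit 3), (nat_lit 1)), ((nat_lit 8), (nat_lit 1)), ((nat_lit 15), (nat_lit 1)), ((nat_lit 10), (nat_lit 1)), ((nat_lit 16), (nat_lit 1)), ((nat_lit 6), (nat_lit 1)), ((nat_lit 25), (nat_lit 1)), ((nat_lit 17), (nat_lit 1)), ((nat_lit 32), (nat_lit 1)), ((nat_lit 26), (nat_lit 1)), ((nat_lit 0x44e), (nat_lit 2)), ((nat_lit 0x698), (nat_lit 2)), ((nat_lit 0x60060), (nat_lit 4)), ((nat_lit 0x11a11a), (nat_lit 4)), ((nat_lit 0x75c), (nat_lit 2)), ((nat_lit 28), (nat_lit 1)), ((nat_lit 0x11a604698),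 (nat_lit 6)), ((nat_lit 0x3c63c6), (nat_lit 4)), ((nat_lit 0x406406), (nat_lit 4)), ((nat_lit 0x4469811a60111a604698), (nat_lit 14)), ((nat_lit 0xc469811a60311a604698), (nat_lit 14))] (nat_lit 0x6946936925e869169068f68e52a5e73b768d65e30e36630d3b842046d52868c09308f0ab096),
.c (nat_lit 13) (nat_lit 0x560638a00b60c04c9e08d55036bc821a3c15af2100930707083036c1412600057),
.i (nat_lit 3) (nat_lit 126) [((nat_lit 4), (nat_lit 1)), ((nat_lit 9), (nat_lit 1)), ((nat_lit 1), (nat_lit 1)), ((nat_lit 3), (nat_lit 1)), ((nat_lit 8), (nat_lit 1)), ((nat_lit 15), (nat_lit 1)), ((nat_lit 10), (nat_lit 1)), ((nat_lit 16), (nat_lit 1)), ((nat_lit 6), (nat_lit 1)), ((nat_lit 25), (nat_lit 1)), ((nat_lit 17), (nat_lit 1)), ((nat_lit 32), (nat_lit 1)), ((nat_lit 26), (nat_lit 1)), ((nat_lit 0x44e), (nat_lit 2)), ((nat_lit 0x698), (nat_lit 2)), ((nat_lit 0x60060), (nat_lit 4)), ((nat_lit 0x11a11a), (nat_lit 4)), ((nat_lit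 0x75c), (nat_lit 2)), ((nat_lit 28), (nat_lit 1)), ((nat_lit 0x11a604698), (nat_lit 6)), ((nat_lit 0x3c63c6), (nat_lit 4)), ((nat_lit 0x406406), (nat_lit 4)), ((nat_lit 0x4469811a60111a604698), (nat_lit 14)), ((nat_lit 0xc469811a60311a604698), (nat_lit 14))] (nat_lit 0x6946936925e869169068f68e52a5e73b768d65e30e36630d3b842046d52868c09308f0ab096),
.c (nat_lit 1) (nat_lit 0xd86),
.i (nat_lit 3) (nat_lit 129) [((nat_lit 4), (nat_lit 1)), ((nat_lit 9), (nat_lit 1)), ((nat_lit 1), (nat_lit 1)), ((nat_lit 3), (nat_lit 1)), ((nat_lit 8), (nat_lit 1)), ((nat_lit 15), (nat_lit 1)), ((nat_lit 10), (nat_lit 1)), ((nat_lit 16), (nat_lit 1)), ((nat_lit 6), (nat_lit 1)), ((nat_lit 25), (nat_lit 1)), ((nat_lit 17), (nat_lit 1)), ((nat_lit 32), (nat_lit 1)), ((nat_lit 26), (nat_lit 1)), ((nat_lit 0x44e), (nat_lit 2)), ((nat_lit 0x698), (nat_lit 2)), ((nat_lit 0x60060), (nat_lit 4)), ((nat_lit 0x11a11a), (nat_lit 4)),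 ((nat_lit 0x75c), (nat_lit 2)), ((nat_lit 28), (nat_lit 1)), ((nat_lit 0x11a604698), (nat_lit 6)), ((nat_lit 0x3c63c6), (nat_lit 4)), ((nat_lit 0x406406), (nat_lit 4)), ((nat_lit 0x4469811a60111a604698), (nat_lit 14)), ((nat_lit 0xc469811a60311a604698), (nat_lit 14))] (nat_lit 0x6946936925e869169068f68e52a5e73b768d65e30e36630d3b842046d52868c09308f0ab096),
.c (nat_lit 4) (nat_lit 0x104c0134d001b1604099),
.i (nat_lit 3) (nat_lit 130) [((nat_lit 4), (nat_lit 1)), ((nat_lit 9), (nat_lit 1)), ((nat_lit 1), (nat_lit 1)), ((nat_lit 3), (nat_lit 1)), ((nat_lit 8), (nat_lit 1)), ((nat_lit 15), (nat_lit 1)), ((nat_lit 10), (nat_lit 1)), ((nat_lit 16), (nat_lit 1)), ((nat_lit 6), (nat_lit 1)), ((nat_lit 25), (nat_lit 1)), ((nat_lit 17), (nat_lit 1)), ((nat_lit 32), (nat_lit 1)), ((nat_lit 26), (nat_lit 1)), ((nat_lit 0x44e), (nat_lit 2)), ((nat_lit 0x698), (nat_lit 2)), ((nat_lit 0x60060), (nat_lit 4)), ((nat_lit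 0x11a11a), (nat_lit 4)), ((nat_lit 0x75c), (nat_lit 2)), ((nat_lit 28), (nat_lit 1)), ((nat_lit 0x11a604698), (nat_lit 6)), ((nat_lit 0x3c63c6), (nat_lit 4)), ((nat_lit 0x406406), (nat_lit 4)), ((nat_lit 0x4469811a60111a604698), (nat_lit 14)), ((nat_lit 0xc469811a60311a604698), (nat_lit 14))] (nat_lit 0x6946936925e869169068f68e52a5e73b768d65e30e36630d3b842046d52868c09308f0ab096),
.c (nat_lit 4) (nat_lit 0x206700363805a6a040cf),
.i (nat_lit 3) (nat_lit 133) [((nat_lit 4), (nat_lit 1)), ((nat_lit 9), (nat_lit 1)), ((nat_lit 1), (nat_lit 1)), ((nat_lit 3), (nat_lit 1)), ((nat_lit 8), (nat_lit 1)), ((nat_lit 15), (nat_lit 1)), ((nat_lit 10), (nat_lit 1)), ((nat_lit 16), (nat_lit 1)), ((nat_lit 6), (nat_lit 1)), ((nat_lit 25), (nat_lit 1)), ((nat_lit 17), (nat_lit 1)), ((nat_lit 32), (nat_lit 1)), ((nat_lit 26), (nat_lit 1)), ((nat_lit 0x44e), (nat_lit 2)), ((nat_lit 0x698), (nat_lit 2)), ((nat_lit 0x60060),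 (nat_lit 4)), ((nat_lit 0x11a11a), (nat_lit 4)), ((nat_lit 0x75c), (nat_lit 2)), ((nat_lit 28), (nat_lit 1)), ((nat_lit 0x11a604698), (nat_lit 6)), ((nat_lit 0x3c63c6), (nat_lit 4)), ((nat_lit 0x406406), (nat_lit 4)), ((nat_lit 0x4469811a60111a604698), (nat_lit 14)), ((nat_lit 0xc469811a60311a604698), (nat_lit 14))] (nat_lit 0x6946936925e869169068f68e52a5e73b768d65e30e36630d3b842046d52868c09308f0ab096),
.c (nat_lit 1) (nat_lit 0xd93),
.i (nat_lit 3) (nat_lit 138) [((nat_lit 4), (nat_lit 1)), ((nat_lit 9), (nat_lit 1)), ((nat_lit 1), (nat_lit 1)), ((nat_lit 3), (nat_lit 1)), ((nat_lit 8), (nat_lit 1)), ((nat_lit 15), (nat_lit 1)), ((nat_lit 10), (nat_lit 1)), ((nat_lit 16), (nat_lit 1)), ((nat_lit 6), (nat_lit 1)), ((nat_lit 25), (nat_lit 1)), ((nat_lit 17), (nat_lit 1)), ((nat_lit 32), (nat_lit 1)), ((nat_lit 26), (nat_lit 1)), ((nat_lit 0x44e), (nat_lit 2)), ((nat_lit 0x698), (nat_lit 2)), ((nat_lit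 0x60060), (nat_lit 4)), ((nat_lit 0x11a11a), (nat_lit 4)), ((nat_lit 0x75c), (nat_lit 2)), ((nat_lit 28), (nat_lit 1)), ((nat_lit 0x11a604698), (nat_lit 6)), ((nat_lit 0x3c63c6), (nat_lit 4)), ((nat_lit 0x406406), (nat_lit 4)), ((nat_lit 0x4469811a60111a604698), (nat_lit 14)), ((nat_lit 0xc469811a60311a604698), (nat_lit 14))] (nat_lit 0x6946936925e869169068f68e52a5e73b768d65e30e36630d3b842046d52868c09308f0ab096),
.c (nat_lit 4) (nat_lit 0x106d0035e005b2c000db),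
.i (nat_lit 3) (nat_lit 144) [((nat_lit 4), (nat_lit 1)), ((nat_lit 9), (nat_lit 1)), ((nat_lit 1), (nat_lit 1)), ((nat_lit 3), (nat_lit 1)), ((nat_lit 8), (nat_lit 1)), ((nat_lit 15), (nat_lit 1)), ((nat_lit 10), (nat_lit 1)), ((nat_lit 16), (nat_lit 1)), ((nat_lit 6), (nat_lit 1)), ((nat_lit 25), (nat_lit 1)), ((nat_lit 17), (nat_lit 1)), ((nat_lit 32), (nat_lit 1)), ((nat_lit 26), (nat_lit 1)), ((nat_lit 0x44e), (nat_lit 2)), ((nat_lit 0x698), (nat_lit 2)), ((nat_lit 0x60060), (nat_lit 4)), ((nat_lit 0x11a11a), (nat_lit 4)), ((nat_lit 0x75c), (nat_lit 2)), ((nat_lit 28), (nat_lit 1)), ((nat_lit 0x11a604698), (nat_lit 6)), ((nat_lit 0x3c63c6), (nat_lit 4)), ((nat_lit 0x406406), (nat_lit 4)), ((nat_lit 0x4469811a60111a604698), (nat_lit 14)), ((nat_lit 0xc469811a60311a604698), (nat_lit 14))] (nat_lit 0x6946936925e869169068f68e52a5e73b768d65e30e36630d3b842046d52868c09308f0ab096),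
.c (nat_lit 60) (nat_lit 0x11c9000880281c012360086cc038d80189080ad980422401b570049ec0839c062ca028d10187240e39c0802b048248280ac16006101a20891204889820360116be08024845b30244881167d0636683ca321c5b30d28c8616cc458161ed390e6b889024c61b2a3a4851c0438e0d8475b323e0f31e0708e824c701323606f0b00385015c24126100570704983021c14132080930306781018c040de00087),
.i (nat_lit 3) (nat_lit 145) [((nat_lit 4), (nat_lit 1)), ((nat_lit 9), (nat_lit 1)), ((nat_lit 1), (nat_lit 1)), ((nat_lit 3), (nat_lit 1)), ((nat_lit 8), (nat_lit 1)), ((nat_lit 15), (nat_lit 1)), ((nat_lit 10), (nat_lit 1)), ((nat_lit 16), (nat_lit 1)), ((nat_lit 6), (nat_lit 1)), ((nat_lit 25), (nat_lit 1)), ((nat_lit 17), (nat_lit 1)), ((nat_lit 32), (nat_lit 1)), ((nat_lit 26), (nat_lit 1)), ((nat_lit 0x44e), (nat_lit 2)), ((nat_lit 0x698), (nat_lit 2)), ((nat_lit 0x60060), (nat_lit 4)), ((nat_lit 0x11a11a), (nat_lit 4)), ((nat_lit 0x75c), (nat_lit 2)), ((nat_lit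 28), (nat_lit 1)), ((nat_lit 0x11a604698), (nat_lit 6)), ((nat_lit 0x3c63c6), (nat_lit 4)), ((nat_lit 0x406406), (nat_lit 4)), ((nat_lit 0x4469811a60111a604698), (nat_lit 14)), ((nat_lit 0xc469811a60311a604698), (nat_lit 14))] (nat_lit 0x6946936925e869169068f68e52a5e73b768d65e30e36630d3b842046d52868c09308f0ab096),
.c (nat_lit 1) (nat_lit 0xd9e),
.i (nat_lit 3) (nat_lit 146) [((nat_lit 4), (nat_lit 1)), ((nat_lit 9), (nat_lit 1)), ((nat_lit 1), (nat_lit 1)), ((nat_lit 3), (nat_lit 1)), ((nat_lit 8), (nat_lit 1)), ((nat_lit 15), (nat_lit 1)), ((nat_lit 10), (nat_lit 1)), ((nat_lit 16), (nat_lit 1)), ((nat_lit 6), (nat_lit 1)), ((nat_lit 25), (nat_lit 1)), ((nat_lit 17), (nat_lit 1)), ((nat_lit 32), (nat_lit 1)), ((nat_lit 26), (nat_lit 1)), ((nat_lit 0x44e), (nat_lit 2)), ((nat_lit 0x698), (nat_lit 2)), ((nat_lit 0x60060), (nat_lit 4)), ((nat_lit 0x11a11a), (nat_lit 4)), ((nat_lit 0x75c), (nat_lit 2)),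 ((nat_lit 28), (nat_lit 1)), ((nat_lit 0x11a604698), (nat_lit 6)), ((nat_lit 0x3c63c6), (nat_lit 4)), ((nat_lit 0x406406), (nat_lit 4)), ((nat_lit 0x4469811a60111a604698), (nat_lit 14)), ((nat_lit 0xc469811a60311a604698), (nat_lit 14))] (nat_lit 0x6946936925e869169068f68e52a5e73b768d65e30e36630d3b842046d52868c09308f0ab096),
.c (nat_lit 5) (nat_lit 0x2092026d101319c041260009f),
.i (nat_lit 3) (nat_lit 147) [((nat_lit 4), (nat_lit 1)), ((nat_lit 9), (nat_lit 1)), ((nat_lit 1), (nat_lit 1)), ((nat_lit 3), (nat_lit 1)), ((nat_lit 8), (nat_lit 1)), ((nat_lit 15), (nat_lit 1)), ((nat_lit 10), (nat_lit 1)), ((nat_lit 16), (nat_lit 1)), ((nat_lit 6), (nat_lit 1)), ((nat_lit 25), (nat_lit 1)), ((nat_lit 17), (nat_lit 1)), ((nat_lit 32), (nat_lit 1)), ((nat_lit 26), (nat_lit 1)), ((nat_lit 0x44e), (nat_lit 2)), ((nat_lit 0x698), (nat_lit 2)), ((nat_lit 0x60060), (nat_lit 4)), ((nat_lit 0x11a11a), (nat_lit 4)),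 ((nat_lit 0x75c), (nat_lit 2)), ((nat_lit 28), (nat_lit 1)), ((nat_lit 0x11a604698), (nat_lit 6)), ((nat_lit 0x3c63c6), (nat_lit 4)), ((nat_lit 0x406406), (nat_lit 4)), ((nat_lit 0x4469811a60111a604698), (nat_lit 14)), ((nat_lit 0xc469811a60311a604698), (nat_lit 14))] (nat_lit 0x6946936925e869169068f68e52a5e73b768d65e30e36630d3b842046d52868c09308f0ab096),
.c (nat_lit 1) (nat_lit 0xda6),
.i (nat_lit 3) (nat_lit 149) [((nat_lit 4), (nat_lit 1)), ((nat_lit 9), (nat_lit 1)), ((nat_lit 1), (nat_lit 1)), ((nat_lit 3), (nat_lit 1)), ((nat_lit 8), (nat_lit 1)), ((nat_lit 15), (nat_lit 1)), ((nat_lit 10), (nat_lit 1)), ((nat_lit 16), (nat_lit 1)), ((nat_lit 6), (nat_lit 1)), ((nat_lit 25), (nat_lit 1)), ((nat_lit 17), (nat_lit 1)), ((nat_lit 32), (nat_lit 1)), ((nat_lit 26), (nat_lit 1)), ((nat_lit 0x44e), (nat_lit 2)), ((nat_lit 0x698), (nat_lit 2)), ((nat_lit 0x60060), (nat_lit 4)), ((nat_lit 0x11a11a), (nat_lit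 4)), ((nat_lit 0x75c), (nat_lit 2)), ((nat_lit 28), (nat_lit 1)), ((nat_lit 0x11a604698), (nat_lit 6)), ((nat_lit 0x3c63c6), (nat_lit 4)), ((nat_lit 0x406406), (nat_lit 4)), ((nat_lit 0x4469811a60111a604698), (nat_lit 14)), ((nat_lit 0xc469811a60311a604698), (nat_lit 14))] (nat_lit 0x6946936925e869169068f68e52a5e73b768d65e30e36630d3b842046d52868c09308f0ab096),
.c (nat_lit 4) (nat_lit 0x106d00368005b54000db),
.i (nat_lit 3) (nat_lit 150) [((nat_lit 4), (nat_lit 1)), ((nat_lit 9), (nat_lit 1)), ((nat_lit 1), (nat_lit 1)), ((nat_lit 3), (nat_lit 1)), ((nat_lit 8), (nat_lit 1)), ((nat_lit 15), (nat_lit 1)), ((nat_lit 10), (nat_lit 1)), ((nat_lit 16), (nat_lit 1)), ((nat_lit 6), (nat_lit 1)), ((nat_lit 25), (nat_lit 1)), ((nat_lit 17), (nat_lit 1)), ((nat_lit 32), (nat_lit 1)), ((nat_lit 26), (nat_lit 1)), ((nat_lit 0x44e), (nat_lit 2)), ((nat_lit 0x698), (nat_lit 2)), ((nat_lit 0x60060), (nat_lit 4)),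 ((nat_lit 0x11a11a), (nat_lit 4)), ((nat_lit 0x75c), (nat_lit 2)), ((nat_lit 28), (nat_lit 1)), ((nat_lit 0x11a604698), (nat_lit 6)), ((nat_lit 0x3c63c6), (nat_lit 4)), ((nat_lit 0x406406), (nat_lit 4)), ((nat_lit 0x4469811a60111a604698), (nat_lit 14)), ((nat_lit 0xc469811a60311a604698), (nat_lit 14))] (nat_lit 0x6946936925e869169068f68e52a5e73b768d65e30e36630d3b842046d52868c09308f0ab096),
.c (nat_lit 28) (nat_lit 0x460216501411802d44026a60181581000c14d600a04c04965029ab012d6009046050d6015b5c100cb072d983032c14b661e0c90e0468682643010e080070302b81021c041320008d),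
.i (nat_lit 3) (nat_lit 152) [((nat_lit 4), (nat_lit 1)), ((nat_lit 9), (nat_lit 1)), ((nat_lit 1), (nat_lit 1)), ((nat_lit 3), (nat_lit 1)), ((nat_lit 8), (nat_lit 1)), ((nat_lit 15), (nat_lit 1)), ((nat_lit 10), (nat_lit 1)), ((nat_lit 16), (nat_lit 1)), ((nat_lit 6), (nat_lit 1)), ((nat_lit 25), (nat_lit 1)), ((nat_lit 17), (nat_lit 1)), ((nat_lit 32), (nat_lit 1)), ((nat_lit 26), (nat_lit 1)), ((nat_lit 0x44e), (nat_lit 2)), ((nat_lit 0x698), (nat_lit 2)), ((nat_lit 0x60060), (nat_lit 4)), ((nat_lit 0x11a11a), (nat_lit 4)), ((nat_lit 0x75c), (nat_lit 2)), ((nat_lit 28), (nat_lit 1)), ((nat_lit 0x11a604698), (nat_lit 6)), ((nat_lit 0x3c63c6), (nat_lit 4)), ((nat_lit 0x406406), (nat_lit 4)), ((nat_lit 0x4469811a60111a604698), (nat_lit 14)), ((nat_lit 0xc469811a60311a604698), (nat_lit 14))] (nat_lit 0x6946936925e869169068f68e52a5e73b768d65e30e36630d3b842046d52868c09308f0ab096),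
.c (nat_lit 1) (nat_lit 0xdb2),
.i (nat_lit 3) (nat_lit 154) [((nat_lit 4), (nat_lit 1)), ((nat_lit 9), (nat_lit 1)), ((nat_lit 1), (nat_lit 1)), ((nat_lit 3), (nat_lit 1)), ((nat_lit 8), (nat_lit 1)), ((nat_lit 15), (nat_lit 1)), ((nat_lit 10), (nat_lit 1)), ((nat_lit 16), (nat_lit 1)), ((nat_lit 6), (nat_lit 1)), ((nat_lit 25), (nat_lit 1)), ((nat_lit 17), (nat_lit 1)), ((nat_lit 32), (nat_lit 1)), ((nat_lit 26), (nat_lit 1)), ((nat_lit 0x44e), (nat_lit 2)), ((nat_lit 0x698), (nat_lit 2)), ((nat_lit 0x60060), (nat_lit 4)), ((nat_lit 0x11a11a), (nat_lit 4)), ((nat_lit 0x75c), (nat_lit 2)), ((nat_lit 28), (nat_lit 1)), ((nat_lit 0x11a604698), (nat_lit 6)), ((nat_lit 0x3c63c6), (nat_lit 4)), ((nat_lit 0x406406), (nat_lit 4)), ((nat_lit 0x4469811a60111a604698), (nat_lit 14)), ((nat_lit 0xc469811a60311a604698), (nat_lit 14))] (nat_lit 0x6946936925e869169068f68e52a5e73b768d65e30e36630d3b842046d52868c09308f0ab096),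
.c (nat_lit 1) (nat_lit 0xdb6),
.i (nat_lit 3) (nat_lit 155) [((nat_lit 4), (nat_lit 1)), ((nat_lit 9), (nat_lit 1)), ((nat_lit 1), (nat_lit 1)), ((nat_lit 3), (nat_lit 1)), ((nat_lit 8), (nat_lit 1)), ((nat_lit 15), (nat_lit 1)), ((nat_lit 10), (nat_lit 1)), ((nat_lit 16), (nat_lit 1)), ((nat_lit 6), (nat_lit 1)), ((nat_lit 25), (nat_lit 1)), ((nat_lit 17), (nat_lit 1)), ((nat_lit 32), (nat_lit 1)), ((nat_lit 26), (nat_lit 1)), ((nat_lit 0x44e), (nat_lit 2)), ((nat_lit 0x698), (nat_lit 2)), ((nat_lit 0x60060), (nat_lit 4)), ((nat_lit 0x11a11a), (nat_lit 4)), ((nat_lit 0x75c), (nat_lit 2)), ((nat_lit 28), (nat_lit 1)), ((nat_lit 0x11a604698), (nat_lit 6)), ((nat_lit 0x3c63c6), (nat_lit 4)), ((nat_lit 0x406406), (nat_lit 4)), ((nat_lit 0x4469811a60111a604698), (nat_lit 14)), ((nat_lit 0xc469811a60311a604698), (nat_lit 14))] (nat_lit 0x6946936925e869169068f68e52a5e73b768d65e30e36630d3b842046d52868c09308f0ab096),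
.c (nat_lit 1) (nat_lit 0xdba),
.i (nat_lit 3) (nat_lit 158) [((nat_lit 4), (nat_lit 1)), ((nat_lit 9), (nat_lit 1)), ((nat_lit 1), (nat_lit 1)), ((nat_lit 3), (nat_lit 1)), ((nat_lit 8), (nat_lit 1)), ((nat_lit 15), (nat_lit 1)), ((nat_lit 10), (nat_lit 1)), ((nat_lit 16), (nat_lit 1)), ((nat_lit 6), (nat_lit 1)), ((nat_lit 25), (nat_lit 1)), ((nat_lit 17), (nat_lit 1)), ((nat_lit 32), (nat_lit 1)), ((nat_lit 26), (nat_lit 1)), ((nat_lit 0x44e), (nat_lit 2)), ((nat_lit 0x698), (nat_lit 2)), ((nat_lit 0x60060), (nat_lit 4)), ((nat_lit 0x11a11a), (nat_lit 4)), ((nat_lit 0x75c), (nat_lit 2)), ((nat_lit 28), (nat_lit 1)), ((nat_lit 0x11a604698), (nat_lit 6)), ((nat_lit 0x3c63c6), (nat_lit 4)), ((nat_lit 0x406406), (nat_lit 4)), ((nat_lit 0x4469811a60111a604698), (nat_lit 14)), ((nat_lit 0xc469811a60311a604698), (nat_lit 14))] (nat_lit 0x6946936925e869169068f68e52a5e73b768d65e30e36630d3b842046d52868c09308f0ab096),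
.c (nat_lit 1) (nat_lit 0xdbe),
.c (nat_lit 1) (nat_lit 982),
.c (nat_lit 4) (nat_lit 0x106b80000c046ba00099),
.c (nat_lit 1) (nat_lit 0x28bb),
.c (nat_lit 1) (nat_lit 984),
.c (nat_lit 4) (nat_lit 0x1074800004046c60009f),
.c (nat_lit 4) (nat_lit 0x107a80001c046ce0009f),
.c (nat_lit 3) (nat_lit 0xfc4041e600003),
.c (nat_lit 0) (nat_lit 0),
.c (nat_lit 0) (nat_lit 0),
.c (nat_lit 7) (nat_lit 0x1ca40c9020471901040810fb404e5600001),
.c (nat_lit 17) (nat_lit 0x63d902041808f6400106143d909041840f641c1060c3d90518182020c0c7b2043030104180000c0410206081),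
.c (nat_lit 17) (nat_lit 0x60e90217b8083a4005ee140e90917b8403a41c5ee0c53f05074820bdc0ca7e040e90117b800004081ce080e7),
.c (nat_lit 22) (nat_lit 0xc1ea041f10107a8007c40db7a08367050798403d41c3e20c0f5050f88203d40c3e2040f5010f880001c09b7a06367040798336f41c6ce100f3),
.c (nat_lit 0) (nat_lit 0),
.c (nat_lit 0) (nat_lit 0),
.i (nat_lit 3) (nat_lit 8) [((nat_lit 2), (nat_lit 1)), ((nat_lit 18), (nat_lit 1)), ((nat_lit 1), (nat_lit 1)), ((nat_lit 4), (nat_lit 1)), ((nat_lit 5), (nat_lit 1)), ((nat_lit 30), (nat_lit 1)), ((nat_lit 9), (nat_lit 1)), ((nat_lit 32), (nat_lit 1)), ((nat_lit 8), (nat_lit 1)), ((nat_lit 0x485485), (nat_lit 4)), ((nat_lit 15), (nat_lit 1)), ((nat_lit 0), (nat_lit 0)), ((nat_lit 0x60060), (nat_lit 4)), ((nat_lit 13), (nat_lit 1)), ((nat_lit 0x488488), (nat_lit 4)), ((nat_lit 0), (nat_lit 0)), ((nat_lit 0x81801802060060), (nat_lit 10)), ((nat_lit 0x657), (nat_lit 2)), ((nat_lit 25), (nat_lit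 1)), ((nat_lit 0x48d212348488488), (nat_lit 10)), ((nat_lit 0x79221e488488488), (nat_lit 10)), ((nat_lit 0x488488488488), (nat_lit 8)), ((nat_lit 0x5234848d21221220148d212348488488), (nat_lit 22)), ((nat_lit 0x11234848d21221220448d212348488488), (nat_lit 22))] (nat_lit 0x6ef6ee6ed6ec6eb2f36ea6e93116e838352a6e73654553496e643b6e548b6e409608f2aa090),
.c (nat_lit 5) (nat_lit 0x2de00804f83818c1813e00063),
.i (nat_lit 3) (nat_lit 15) [((nat_lit 2), (nat_lit 1)), ((nat_lit 18), (nat_lit 1)), ((nat_lit 1), (nat_lit 1)), ((nat_lit 4), (nat_lit 1)), ((nat_lit 5), (nat_lit 1)), ((nat_lit 30), (nat_lit 1)), ((nat_lit 9), (nat_lit 1)), ((nat_lit 32), (nat_lit 1)), ((nat_lit 8), (nat_lit 1)), ((nat_lit 0x485485), (nat_lit 4)), ((nat_lit 15), (nat_lit 1)), ((nat_lit 0), (nat_lit 0)), ((nat_lit 0x60060), (nat_lit 4)), ((nat_lit 13), (nat_lit 1)), ((nat_lit 0x488488), (nat_lit 4)), ((nat_lit 0), (nat_lit 0)), ((nat_lit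 0x81801802060060), (nat_lit 10)), ((nat_lit 0x657), (nat_lit 2)), ((nat_lit 25), (nat_lit 1)), ((nat_lit 0x48d212348488488), (nat_lit 10)), ((nat_lit 0x79221e488488488), (nat_lit 10)), ((nat_lit 0x488488488488), (nat_lit 8)), ((nat_lit 0x5234848d21221220148d212348488488), (nat_lit 22)), ((nat_lit 0x11234848d21221220448d212348488488), (nat_lit 22))] (nat_lit 0x6ef6ee6ed6ec6eb2f36ea6e93116e838352a6e73654553496e643b6e548b6e409608f2aa090),
.c (nat_lit 19) (nat_lit 0x1880413c06214026f201b78c080c612de30810a83818c2813e120630d04f8602042c0c61409f0904084027c0413e00063),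
.i (nat_lit 3) (nat_lit 35) [((nat_lit 2), (nat_lit 1)), ((nat_lit 18), (nat_lit 1)), ((nat_lit 1), (nat_lit 1)), ((nat_lit 4), (nat_lit 1)), ((nat_lit 5), (nat_lit 1)), ((nat_lit 30), (nat_lit 1)), ((nat_lit 9), (nat_lit 1)), ((nat_lit 32), (nat_lit 1)), ((nat_lit 8), (nat_lit 1)), ((nat_lit 0x485485), (nat_lit 4)), ((nat_lit 15), (nat_lit 1)), ((nat_lit 0), (nat_lit 0)), ((nat_lit 0x60060), (nat_lit 4)), ((nat_lit 13), (nat_lit 1)), ((nat_lit 0x488488), (nat_lit 4)), ((nat_lit 0), (nat_lit 0)), ((nat_lit 0x81801802060060), (nat_lit 10)), ((nat_lit 0x657), (nat_lit 2)), ((nat_lit 25), (nat_lit 1)), ((nat_lit 0x48d212348488488), (nat_lit 10)), ((nat_lit 0x79221e488488488), (nat_lit 10)), ((nat_lit 0x488488488488), (nat_lit 8)), ((nat_lit 0x5234848d21221220148d212348488488), (nat_lit 22)), ((nat_lit 0x11234848d21221220448d212348488488), (nat_lit 22))] (nat_lit 0x6ef6ee6ed6ec6eb2f36ea6e93116e838352a6e73654553496e643b6e548b6e409608f2aa090),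
.c (nat_lit 5) (nat_lit 0x62016f48088541413e00063),
.i (nat_lit 3) (nat_lit 39) [((nat_lit 2), (nat_lit 1)), ((nat_lit 18), (nat_lit 1)), ((nat_lit 1), (nat_lit 1)), ((nat_lit 4), (nat_lit 1)), ((nat_lit 5), (nat_lit 1)), ((nat_lit 30), (nat_lit 1)), ((nat_lit 9), (nat_lit 1)), ((nat_lit 32), (nat_lit 1)), ((nat_lit 8), (nat_lit 1)), ((nat_lit 0x485485), (nat_lit 4)), ((nat_lit 15), (nat_lit 1)), ((nat_lit 0), (nat_lit 0)), ((nat_lit 0x60060), (nat_lit 4)), ((nat_lit 13), (nat_lit 1)), ((nat_lit 0x488488), (nat_lit 4)), ((nat_lit 0), (nat_lit 0)), ((nat_lit 0x81801802060060), (nat_lit 10)), ((nat_lit 0x657), (nat_lit 2)), ((nat_lit 25), (nat_lit 1)), ((nat_lit 0x48d212348488488), (nat_lit 10)), ((nat_lit 0x79221e488488488), (nat_lit 10)), ((nat_lit 0x488488488488), (nat_lit 8)), ((nat_lit 0x5234848d21221220148d212348488488), (nat_lit 22)), ((nat_lit 0x11234848d21221220448d212348488488), (nat_lit 22))]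 (nat_lit 0x6ef6ee6ed6ec6eb2f36ea6e93116e838352a6e73654553496e643b6e548b6e409608f2aa090)]

theorem c12 : chk db th.hy ths 1783 J12 1722 = true := by decide +kernel

set_option maxRecDepth 100000 in
/-- Justifications. -/
noncomputable def J13 : List Js := [
.c (nat_lit 13) (nat_lit 0x609e006f1020d88081cc02ded02031808d8c281ce1209f0803183839c1813e0009f),
.i (nat_lit 3) (nat_lit 51) [((nat_lit 2), (nat_lit 1)), ((nat_lit 18), (nat_lit 1)), ((nat_lit 1), (nat_lit 1)), ((nat_lit 4), (nat_lit 1)), ((nat_lit 5), (nat_lit 1)), ((nat_lit 30), (nat_lit 1)), ((nat_lit 9), (nat_lit 1)), ((nat_lit 32), (nat_lit 1)), ((nat_lit 8), (nat_lit 1)), ((nat_lit 0x485485), (nat_lit 4)), ((nat_lit 15), (nat_lit 1)), ((nat_lit 0), (nat_lit 0)), ((nat_lit 0x60060), (nat_lit 4)), ((nat_lit 13), (nat_lit 1)), ((nat_lit 0x488488), (nat_lit 4)), ((nat_lit 0), (nat_lit 0)), ((nat_lit 0x81801802060060), (nat_lit 10)), ((nat_lit 0x657),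 (nat_lit 2)), ((nat_lit 25), (nat_lit 1)), ((nat_lit 0x48d212348488488), (nat_lit 10)), ((nat_lit 0x79221e488488488), (nat_lit 10)), ((nat_lit 0x488488488488), (nat_lit 8)), ((nat_lit 0x5234848d21221220148d212348488488), (nat_lit 22)), ((nat_lit 0x11234848d21221220448d212348488488), (nat_lit 22))] (nat_lit 0x6ef6ee6ed6ec6eb2f36ea6e93116e838352a6e73654553496e643b6e548b6e409608f2aa090),
.c (nat_lit 30) (nat_lit 0xc40209e0200304a9c8254ec120e60a1c0030278100c40ade2036f802378c0c0c60a09f080888383d4183e20a111040f88183d415b7a10a6b0d08786039c2c1e61409f0908781001c0413e00063),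
.i (nat_lit 3) (nat_lit 61) [((nat_lit 2), (nat_lit 1)), ((nat_lit 18), (nat_lit 1)), ((nat_lit 1), (nat_lit 1)), ((nat_lit 4), (nat_lit 1)), ((nat_lit 5), (nat_lit 1)), ((nat_lit 30), (nat_lit 1)), ((nat_lit 9), (nat_lit 1)), ((nat_lit 32), (nat_lit 1)), ((nat_lit 8), (nat_lit 1)), ((nat_lit 0x485485), (nat_lit 4)), ((nat_lit 15), (nat_lit 1)), ((nat_lit 0), (nat_lit 0)), ((nat_lit 0x60060), (nat_lit 4)), ((nat_lit 13), (nat_lit 1)), ((nat_lit 0x488488), (nat_lit 4)), ((nat_lit 0), (nat_lit 0)), ((nat_lit 0x81801802060060), (nat_lit 10)), ((nat_lit 0x657), (nat_lit 2)), ((nat_lit 25), (nat_lit 1)), ((nat_lit 0x48d212348488488), (nat_lit 10)), ((nat_lit 0x79221e488488488), (nat_lit 10)), ((nat_lit 0x488488488488), (nat_lit 8)), ((nat_lit 0x5234848d21221220148d212348488488), (nat_lit 22)), ((nat_lit 0x11234848d21221220448d212348488488), (nat_lit 22))] (nat_lit 0x6ef6ee6ed6ec6eb2f36ea6e93116e838352a6e73654553496e643b6e548b6e409608f2aa090),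
.c (nat_lit 32) (nat_lit 0x31008398080c40609e0c53b058e001813c08062056f10237d411b7a0a367066de838d9c21b7a0ade304031838d9c1813e0cdf30b53984a98c2013e14a770b1c086043c2c1ce140f30304f81018c041ce00063),
.i (nat_lit 3) (nat_lit 64) [((nat_lit 2), (nat_lit 1)), ((nat_lit 18), (nat_lit 1)), ((nat_lit 1), (nat_lit 1)), ((nat_lit 4), (nat_lit 1)), ((nat_lit 5), (nat_lit 1)), ((nat_lit 30), (nat_lit 1)), ((nat_lit 9), (nat_lit 1)), ((nat_lit 32), (nat_lit 1)), ((nat_lit 8), (nat_lit 1)), ((nat_lit 0x485485), (nat_lit 4)), ((nat_lit 15), (nat_lit 1)), ((nat_lit 0), (nat_lit 0)), ((nat_lit 0x60060), (nat_lit 4)), ((nat_lit 13), (nat_lit 1)), ((nat_lit 0x488488), (nat_lit 4)), ((nat_lit 0), (nat_lit 0)), ((nat_lit 0x81801802060060), (nat_lit 10)), ((nat_lit 0x657), (nat_lit 2)), ((nat_lit 25), (nat_lit 1)), ((nat_lit 0x48d212348488488), (nat_lit 10)), ((nat_lit 0x79221e488488488), (nat_lit 10)), ((nat_lit 0x488488488488),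 (nat_lit 8)), ((nat_lit 0x5234848d21221220148d212348488488), (nat_lit 22)), ((nat_lit 0x11234848d21221220448d212348488488), (nat_lit 22))] (nat_lit 0x6ef6ee6ed6ec6eb2f36ea6e93116e838352a6e73654553496e643b6e548b6e409608f2aa090),
.c (nat_lit 76) (nat_lit 0x4f0081881413c04de2061b3038d88206cc120e60a0870503c82d4ec0c09e071b30437d8186cc0adbc0607303b7c8106cc0a362061b3038d8811bf20adbd061b383b6f411bde10367071b184b6f4286ce16df30e6fb86827c454ee200f310087878d8c386ce1a3631007387b6f4406ce22dbd0e6f785b7bc21bde0ade30403183027c140c60a3630404f830d8c286ce123630b6de860d9c35b7a14def076f78237bc1c6c6143630e1b3868d8c3c1e61c0e70d04f86018c2c1ce1409f0303181027c040c60009f),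
.i (nat_lit 3) (nat_lit 82) [((nat_lit 2), (nat_lit 1)), ((nat_lit 18), (nat_lit 1)), ((nat_lit 1), (nat_lit 1)), ((nat_lit 4), (nat_lit 1)), ((nat_lit 5), (nat_lit 1)), ((nat_lit 30), (nat_lit 1)), ((nat_lit 9), (nat_lit 1)), ((nat_lit 32), (nat_lit 1)), ((nat_lit 8), (nat_lit 1)), ((nat_lit 0x485485), (nat_lit 4)), ((nat_lit 15), (nat_lit 1)), ((nat_lit 0), (nat_lit 0)), ((nat_lit 0x60060), (nat_lit 4)), ((nat_lit 13), (nat_lit 1)), ((nat_lit 0x488488), (nat_lit 4)), ((nat_lit 0), (nat_lit 0)), ((nat_lit 0x81801802060060), (nat_lit 10)), ((nat_lit 0x657), (nat_lit 2)), ((nat_lit 25), (nat_lit 1)), ((nat_lit 0x48d212348488488), (nat_lit 10)), ((nat_lit 0x79221e488488488), (nat_lit 10)), ((nat_lit 0x488488488488), (nat_lit 8)), ((nat_lit 0x5234848d21221220148d212348488488), (nat_lit 22)), ((nat_lit 0x11234848d21221220448d212348488488), (nat_lit 22))] (nat_lit 0x6ef6ee6ed6ec6eb2f36ea6e93116e838352a6e73654553496e643b6e548b6e409608f2aa090),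
.c (nat_lit 11) (nat_lit 0x1401819002dfc022e6809d3c0db4a085cd056d28303241413e00051),
.i (nat_lit 3) (nat_lit 88) [((nat_lit 2), (nat_lit 1)), ((nat_lit 18), (nat_lit 1)), ((nat_lit 1), (nat_lit 1)), ((nat_lit 4), (nat_lit 1)), ((nat_lit 5), (nat_lit 1)), ((nat_lit 30), (nat_lit 1)), ((nat_lit 9), (nat_lit 1)), ((nat_lit 32), (nat_lit 1)), ((nat_lit 8), (nat_lit 1)), ((nat_lit 0x485485), (nat_lit 4)), ((nat_lit 15), (nat_lit 1)), ((nat_lit 0), (nat_lit 0)), ((nat_lit 0x60060), (nat_lit 4)), ((nat_lit 13), (nat_lit 1)), ((nat_lit 0x488488), (nat_lit 4)), ((nat_lit 0), (nat_lit 0)), ((nat_lit 0x81801802060060), (nat_lit 10)), ((nat_lit 0x657), (nat_lit 2)), ((nat_lit 25), (nat_lit 1)), ((nat_lit 0x48d212348488488), (nat_lit 10)), ((nat_lit 0x79221e488488488), (nat_lit 10)), ((nat_lit 0x488488488488), (nat_lit 8)), ((nat_lit 0x5234848d21221220148d212348488488), (nat_lit 22)), ((nat_lit 0x11234848d21221220448d212348488488),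 (nat_lit 22))] (nat_lit 0x6ef6ee6ed6ec6eb2f36ea6e93116e838352a6e73654553496e643b6e548b6e409608f2aa090),
.c (nat_lit 27) (nat_lit 0x18278106cc0a362061b30102780c0c40809e056f503b7e8080c406de20610a0382780dbd4042140270001b78c080c60809f046fd81818c146ce08363031b381027c041e6000e7),
.i (nat_lit 3) (nat_lit 90) [((nat_lit 2), (nat_lit 1)), ((nat_lit 18), (nat_lit 1)), ((nat_lit 1), (nat_lit 1)), ((nat_lit 4), (nat_lit 1)), ((nat_lit 5), (nat_lit 1)), ((nat_lit 30), (nat_lit 1)), ((nat_lit 9), (nat_lit 1)), ((nat_lit 32), (nat_lit 1)), ((nat_lit 8), (nat_lit 1)), ((nat_lit 0x485485), (nat_lit 4)), ((nat_lit 15), (nat_lit 1)), ((nat_lit 0), (nat_lit 0)), ((nat_lit 0x60060), (nat_lit 4)), ((nat_lit 13), (nat_lit 1)), ((nat_lit 0x488488), (nat_lit 4)), ((nat_lit 0), (nat_lit 0)), ((nat_lit 0x81801802060060), (nat_lit 10)), ((nat_lit 0x657), (nat_lit 2)), ((nat_lit 25), (nat_lit 1)), ((nat_lit 0x48d212348488488),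 (nat_lit 10)), ((nat_lit 0x79221e488488488), (nat_lit 10)), ((nat_lit 0x488488488488), (nat_lit 8)), ((nat_lit 0x5234848d21221220148d212348488488), (nat_lit 22)), ((nat_lit 0x11234848d21221220448d212348488488), (nat_lit 22))] (nat_lit 0x6ef6ee6ed6ec6eb2f36ea6e93116e838352a6e73654553496e643b6e548b6e409608f2aa090),
.c (nat_lit 36) (nat_lit 0x304f020d880013c020620204f01b7a8000c402de2007028037ec0c6ce04363011b38236f40dbf604dbd030798203cc0c6c608dfb016f180018c19bd60a367041b1818d9c0813e08dbd036fd8136f4040c6020f302079808d8c0013e0809f),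
.i (nat_lit 3) (nat_lit 92) [((nat_lit 2), (nat_lit 1)), ((nat_lit 18), (nat_lit 1)), ((nat_lit 1), (nat_lit 1)), ((nat_lit 4), (nat_lit 1)), ((nat_lit 5), (nat_lit 1)), ((nat_lit 30), (nat_lit 1)), ((nat_lit 9), (nat_lit 1)), ((nat_lit 32), (nat_lit 1)), ((nat_lit 8), (nat_lit 1)), ((nat_lit 0x485485), (nat_lit 4)), ((nat_lit 15), (nat_lit 1)), ((nat_lit 0), (nat_lit 0)), ((nat_lit 0x60060), (nat_lit 4)), ((nat_lit 13), (nat_lit 1)), ((nat_lit 0x488488), (nat_lit 4)), ((nat_lit 0), (nat_lit 0)), ((nat_lit 0x81801802060060), (nat_lit 10)), ((nat_lit 0x657), (nat_lit 2)), ((nat_lit 25), (nat_lit 1)), ((nat_lit 0x48d212348488488), (nat_lit 10)), ((nat_lit 0x79221e488488488), (nat_lit 10)), ((nat_lit 0x488488488488), (nat_lit 8)), ((nat_lit 0x5234848d21221220148d212348488488), (nat_lit 22)), ((nat_lit 0x11234848d21221220448d212348488488), (nat_lit 22))] (nat_lit 0x6ef6ee6ed6ec6eb2f36ea6e93116e838352a6e73654553496e643b6e548b6e409608f2aa090),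
.c (nat_lit 5) (nat_lit 0x500170400935c1413e00051),
.i (nat_lit 3) (nat_lit 93) [((nat_lit 2), (nat_lit 1)), ((nat_lit 18), (nat_lit 1)), ((nat_lit 1), (nat_lit 1)), ((nat_lit 4), (nat_lit 1)), ((nat_lit 5), (nat_lit 1)), ((nat_lit 30), (nat_lit 1)), ((nat_lit 9), (nat_lit 1)), ((nat_lit 32), (nat_lit 1)), ((nat_lit 8), (nat_lit 1)), ((nat_lit 0x485485), (nat_lit 4)), ((nat_lit 15), (nat_lit 1)), ((nat_lit 0), (nat_lit 0)), ((nat_lit 0x60060), (nat_lit 4)), ((nat_lit 13), (nat_lit 1)), ((nat_lit 0x488488), (nat_lit 4)), ((nat_lit 0), (nat_lit 0)), ((nat_lit 0x81801802060060), (nat_lit 10)), ((nat_lit 0x657), (nat_lit 2)), ((nat_lit 25), (nat_lit 1)), ((nat_lit 0x48d212348488488), (nat_lit 10)), ((nat_lit 0x79221e488488488), (nat_lit 10)), ((nat_lit 0x488488488488), (nat_lit 8)), ((nat_lit 0x5234848d21221220148d212348488488), (nat_lit 22)), ((nat_lit 0x11234848d21221220448d212348488488), (nat_lit 22))]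 (nat_lit 0x6ef6ee6ed6ec6eb2f36ea6e93116e838352a6e73654553496e643b6e548b6e409608f2aa090),
.c (nat_lit 2) (nat_lit 0x1c1a040c9),
.i (nat_lit 3) (nat_lit 95) [((nat_lit 2), (nat_lit 1)), ((nat_lit 18), (nat_lit 1)), ((nat_lit 1), (nat_lit 1)), ((nat_lit 4), (nat_lit 1)), ((nat_lit 5), (nat_lit 1)), ((nat_lit 30), (nat_lit 1)), ((nat_lit 9), (nat_lit 1)), ((nat_lit 32), (nat_lit 1)), ((nat_lit 8), (nat_lit 1)), ((nat_lit 0x485485), (nat_lit 4)), ((nat_lit 15), (nat_lit 1)), ((nat_lit 0), (nat_lit 0)), ((nat_lit 0x60060), (nat_lit 4)), ((nat_lit 13), (nat_lit 1)), ((nat_lit 0x488488), (nat_lit 4)), ((nat_lit 0), (nat_lit 0)), ((nat_lit 0x81801802060060), (nat_lit 10)), ((nat_lit 0x657), (nat_lit 2)), ((nat_lit 25), (nat_lit 1)), ((nat_lit 0x48d212348488488), (nat_lit 10)), ((nat_lit 0x79221e488488488), (nat_lit 10)), ((nat_lit 0x488488488488), (nat_lit 8)), ((nat_lit 0x5234848d21221220148d212348488488),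 (nat_lit 22)), ((nat_lit 0x11234848d21221220448d212348488488), (nat_lit 22))] (nat_lit 0x6ef6ee6ed6ec6eb2f36ea6e93116e838352a6e73654553496e643b6e548b6e409608f2aa090),
.c (nat_lit 23) (nat_lit 0x283980813c06366041b1028d980c0c408dfa0404f0101880dbc402e10026f180818c0c13e06dfb02031820d9c0c6c6043670104f821254141ce000f3),
.i (nat_lit 3) (nat_lit 106) [((nat_lit 2), (nat_lit 1)), ((nat_lit 18), (nat_lit 1)), ((nat_lit 1), (nat_lit 1)), ((nat_lit 4), (nat_lit 1)), ((nat_lit 5), (nat_lit 1)), ((nat_lit 30), (nat_lit 1)), ((nat_lit 9), (nat_lit 1)), ((nat_lit 32), (nat_lit 1)), ((nat_lit 8), (nat_lit 1)), ((nat_lit 0x485485), (nat_lit 4)), ((nat_lit 15), (nat_lit 1)), ((nat_lit 0), (nat_lit 0)), ((nat_lit 0x60060), (nat_lit 4)), ((nat_lit 13), (nat_lit 1)), ((nat_lit 0x488488), (nat_lit 4)), ((nat_lit 0), (nat_lit 0)), ((nat_lit 0x81801802060060), (nat_lit 10)), ((nat_lit 0x657), (nat_lit 2)), ((nat_lit 25),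 (nat_lit 1)), ((nat_lit 0x48d212348488488), (nat_lit 10)), ((nat_lit 0x79221e488488488), (nat_lit 10)), ((nat_lit 0x488488488488), (nat_lit 8)), ((nat_lit 0x5234848d21221220148d212348488488), (nat_lit 22)), ((nat_lit 0x11234848d21221220448d212348488488), (nat_lit 22))] (nat_lit 0x6ef6ee6ed6ec6eb2f36ea6e93116e838352a6e73654553496e643b6e548b6e409608f2aa090),
.c (nat_lit 19) (nat_lit 0x2000413c040620304f0237a8040c404de20170a8090b40dbc60442d0103182b7ac1013e060630204f80964c1413e00081),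
.i (nat_lit 3) (nat_lit 123) [((nat_lit 2), (nat_lit 1)), ((nat_lit 18), (nat_lit 1)), ((nat_lit 1), (nat_lit 1)), ((nat_lit 4), (nat_lit 1)), ((nat_lit 5), (nat_lit 1)), ((nat_lit 30), (nat_lit 1)), ((nat_lit 9), (nat_lit 1)), ((nat_lit 32), (nat_lit 1)), ((nat_lit 8), (nat_lit 1)), ((nat_lit 0x485485), (nat_lit 4)), ((nat_lit 15), (nat_lit 1)), ((nat_lit 0), (nat_lit 0)), ((nat_lit 0x60060), (nat_lit 4)), ((nat_lit 13), (nat_lit 1)), ((nat_lit 0x488488), (nat_lit 4)), ((nat_lit 0), (nat_lit 0)), ((nat_lit 0x81801802060060), (nat_lit 10)), ((nat_lit 0x657), (nat_lit 2)), ((nat_lit 25), (nat_lit 1)), ((nat_lit 0x48d212348488488), (nat_lit 10)), ((nat_lit 0x79221e488488488), (nat_lit 10)), ((nat_lit 0x488488488488), (nat_lit 8)), ((nat_lit 0x5234848d21221220148d212348488488), (nat_lit 22)), ((nat_lit 0x11234848d21221220448d212348488488), (nat_lit 22))] (nat_lit 0x6ef6ee6ed6ec6eb2f36ea6e93116e838352a6e73654553496e643b6e548b6e409608f2aa090),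
.c (nat_lit 1) (nat_lit 0xe19),
.i (nat_lit 3) (nat_lit 130) [((nat_lit 2), (nat_lit 1)), ((nat_lit 18), (nat_lit 1)), ((nat_lit 1), (nat_lit 1)), ((nat_lit 4), (nat_lit 1)), ((nat_lit 5), (nat_lit 1)), ((nat_lit 30), (nat_lit 1)), ((nat_lit 9), (nat_lit 1)), ((nat_lit 32), (nat_lit 1)), ((nat_lit 8), (nat_lit 1)), ((nat_lit 0x485485), (nat_lit 4)), ((nat_lit 15), (nat_lit 1)), ((nat_lit 0), (nat_lit 0)), ((nat_lit 0x60060), (nat_lit 4)), ((nat_lit 13), (nat_lit 1)), ((nat_lit 0x488488), (nat_lit 4)), ((nat_lit 0), (nat_lit 0)), ((nat_lit 0x81801802060060), (nat_lit 10)), ((nat_lit 0x657), (nat_lit 2)), ((nat_lit 25), (nat_lit 1)), ((nat_lit 0x48d212348488488), (nat_lit 10)), ((nat_lit 0x79221e488488488), (nat_lit 10)), ((nat_lit 0x488488488488), (nat_lit 8)), ((nat_lit 0x5234848d21221220148d212348488488), (nat_lit 22)), ((nat_lit 0x11234848d21221220448d212348488488), (nat_lit 22))] (nat_lit 0x6ef6ee6ed6ec6eb2f36ea6e93116e838352a6e73654553496e643b6e548b6e409608f2aa090),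
.c (nat_lit 5) (nat_lit 0x620170e8090b41413e00063),
.i (nat_lit 3) (nat_lit 138) [((nat_lit 2), (nat_lit 1)), ((nat_lit 18), (nat_lit 1)), ((nat_lit 1), (nat_lit 1)), ((nat_lit 4), (nat_lit 1)), ((nat_lit 5), (nat_lit 1)), ((nat_lit 30), (nat_lit 1)), ((nat_lit 9), (nat_lit 1)), ((nat_lit 32), (nat_lit 1)), ((nat_lit 8), (nat_lit 1)), ((nat_lit 0x485485), (nat_lit 4)), ((nat_lit 15), (nat_lit 1)), ((nat_lit 0), (nat_lit 0)), ((nat_lit 0x60060), (nat_lit 4)), ((nat_lit 13), (nat_lit 1)), ((nat_lit 0x488488), (nat_lit 4)), ((nat_lit 0), (nat_lit 0)), ((nat_lit 0x81801802060060), (nat_lit 10)), ((nat_lit 0x657), (nat_lit 2)), ((nat_lit 25), (nat_lit 1)), ((nat_lit 0x48d212348488488), (nat_lit 10)), ((nat_lit 0x79221e488488488), (nat_lit 10)), ((nat_lit 0x488488488488), (nat_lit 8)), ((nat_lit 0x5234848d21221220148d212348488488), (nat_lit 22)), ((nat_lit 0x11234848d21221220448d212348488488), (nat_lit 22))]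 (nat_lit 0x6ef6ee6ed6ec6eb2f36ea6e93116e838352a6e73654553496e643b6e548b6e409608f2aa090),
.c (nat_lit 4) (nat_lit 0x10640134b001c42040c9),
.i (nat_lit 3) (nat_lit 147) [((nat_lit 2), (nat_lit 1)), ((nat_lit 18), (nat_lit 1)), ((nat_lit 1), (nat_lit 1)), ((nat_lit 4), (nat_lit 1)), ((nat_lit 5), (nat_lit 1)), ((nat_lit 30), (nat_lit 1)), ((nat_lit 9), (nat_lit 1)), ((nat_lit 32), (nat_lit 1)), ((nat_lit 8), (nat_lit 1)), ((nat_lit 0x485485), (nat_lit 4)), ((nat_lit 15), (nat_lit 1)), ((nat_lit 0), (nat_lit 0)), ((nat_lit 0x60060), (nat_lit 4)), ((nat_lit 13), (nat_lit 1)), ((nat_lit 0x488488), (nat_lit 4)), ((nat_lit 0), (nat_lit 0)), ((nat_lit 0x81801802060060), (nat_lit 10)), ((nat_lit 0x657), (nat_lit 2)), ((nat_lit 25), (nat_lit 1)), ((nat_lit 0x48d212348488488), (nat_lit 10)), ((nat_lit 0x79221e488488488), (nat_lit 10)), ((nat_lit 0x488488488488), (nat_lit 8)), ((nat_lit 0x5234848d21221220148d212348488488),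 (nat_lit 22)), ((nat_lit 0x11234848d21221220448d212348488488), (nat_lit 22))] (nat_lit 0x6ef6ee6ed6ec6eb2f36ea6e93116e838352a6e73654553496e643b6e548b6e409608f2aa090),
.c (nat_lit 9) (nat_lit 0x500421900b89404ea206dff0704f8302f41413e00051),
.i (nat_lit 3) (nat_lit 149) [((nat_lit 2), (nat_lit 1)), ((nat_lit 18), (nat_lit 1)), ((nat_lit 1), (nat_lit 1)), ((nat_lit 4), (nat_lit 1)), ((nat_lit 5), (nat_lit 1)), ((nat_lit 30), (nat_lit 1)), ((nat_lit 9), (nat_lit 1)), ((nat_lit 32), (nat_lit 1)), ((nat_lit 8), (nat_lit 1)), ((nat_lit 0x485485), (nat_lit 4)), ((nat_lit 15), (nat_lit 1)), ((nat_lit 0), (nat_lit 0)), ((nat_lit 0x60060), (nat_lit 4)), ((nat_lit 13), (nat_lit 1)), ((nat_lit 0x488488), (nat_lit 4)), ((nat_lit 0), (nat_lit 0)), ((nat_lit 0x81801802060060), (nat_lit 10)), ((nat_lit 0x657), (nat_lit 2)), ((nat_lit 25), (nat_lit 1)), ((nat_lit 0x48d212348488488), (nat_lit 10)), ((nat_lit 0x79221e488488488),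 (nat_lit 10)), ((nat_lit 0x488488488488), (nat_lit 8)), ((nat_lit 0x5234848d21221220148d212348488488), (nat_lit 22)), ((nat_lit 0x11234848d21221220448d212348488488), (nat_lit 22))] (nat_lit 0x6ef6ee6ed6ec6eb2f36ea6e93116e838352a6e73654553496e643b6e548b6e409608f2aa090),
.c (nat_lit 4) (nat_lit 0x20640038a005b4a040c9),
.i (nat_lit 3) (nat_lit 154) [((nat_lit 2), (nat_lit 1)), ((nat_lit 18), (nat_lit 1)), ((nat_lit 1), (nat_lit 1)), ((nat_lit 4), (nat_lit 1)), ((nat_lit 5), (nat_lit 1)), ((nat_lit 30), (nat_lit 1)), ((nat_lit 9), (nat_lit 1)), ((nat_lit 32), (nat_lit 1)), ((nat_lit 8), (nat_lit 1)), ((nat_lit 0x485485), (nat_lit 4)), ((nat_lit 15), (nat_lit 1)), ((nat_lit 0), (nat_lit 0)), ((nat_lit 0x60060), (nat_lit 4)), ((nat_lit 13), (nat_lit 1)), ((nat_lit 0x488488), (nat_lit 4)), ((nat_lit 0), (nat_lit 0)), ((nat_lit 0x81801802060060), (nat_lit 10)), ((nat_lit 0x657), (nat_lit 2)), ((nat_lit 25),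 (nat_lit 1)), ((nat_lit 0x48d212348488488), (nat_lit 10)), ((nat_lit 0x79221e488488488), (nat_lit 10)), ((nat_lit 0x488488488488), (nat_lit 8)), ((nat_lit 0x5234848d21221220148d212348488488), (nat_lit 22)), ((nat_lit 0x11234848d21221220448d212348488488), (nat_lit 22))] (nat_lit 0x6ef6ee6ed6ec6eb2f36ea6e93116e838352a6e73654553496e643b6e548b6e409608f2aa090),
.c (nat_lit 1) (nat_lit 0xe2d),
.c (nat_lit 1) (nat_lit 512),
.c (nat_lit 7) (nat_lit 0x1f840c7c2047270103481165c04e2e0005d),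
.c (nat_lit 5) (nat_lit 0xad021a78081ec048e600005),
.c (nat_lit 1) (nat_lit 0xc33),
.c (nat_lit 0) (nat_lit 0),
.c (nat_lit 23) (nat_lit 0x182b40812a020ad0004a8602b42c12a140ad0904a8411cc1c15a0c3070504a8211cc0c15a043070104a80001404126040ab030498202ac0586600069),
.c (nat_lit 7) (nat_lit 0x269c1418608227031a081089c0468200069),
.c (nat_lit 7) (nat_lit 0x2d5c14186083f30317a810fcc045ea00001),
.c (nat_lit 0) (nat_lit 0),
.c (nat_lit 0) (nat_lit 0),
.c (nat_lit 0) (nat_lit 0),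
.c (nat_lit 0) (nat_lit 0),
.c (nat_lit 0) (nat_lit 0),
.i (nat_lit 3) (nat_lit 10) [((nat_lit 3), (nat_lit 1)), ((nat_lit 7), (nat_lit 1)), ((nat_lit 9), (nat_lit 1)), ((nat_lit 1), (nat_lit 1)), ((nat_lit 16), (nat_lit 1)), ((nat_lit 0x81f), (nat_lit 2)), ((nat_lit 6), (nat_lit 1)), ((nat_lit 12), (nat_lit 1)), ((nat_lit 15), (nat_lit 1)), ((nat_lit 0), (nat_lit 0)), ((nat_lit 0x698), (nat_lit 2)), ((nat_lit 20), (nat_lit 1)), ((nat_lit 0x309309), (nat_lit 4)), ((nat_lit 24), (nat_lit 1)), ((nat_lit 0x1cf1cf), (nat_lit 4)), ((nat_lit 0x254254), (nat_lit 4)), ((nat_lit 0x50c40950c40c24c), (nat_lit 10)), ((nat_lit 0x40f40f), (nat_lit 4)), ((nat_lit 0x3c63c6), (nat_lit 4)), ((nat_lit 0xc73c73c31cf1cf), (nat_lit 10)), ((nat_lit 0x2473c73c91cf1cf), (nat_lit 10)), ((nat_lit 0x473c73c11cf1cf), (nat_lit 10)), ((nat_lit 0x2431cf1cf0c73c73c90c73c73c31cf1cf), (nat_lit 22)), ((nat_lit 0x431cf1cf0c73c73c10c73c73c31cf1cf),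 (nat_lit 22))] (nat_lit 0x72472372272172071f71e71d71c3e558671b71a5e764846d4284947194ee71808f0ab0a5093),
.c (nat_lit 5) (nat_lit 0xe4a070348302ac140d2080ab),
.i (nat_lit 3) (nat_lit 74) [((nat_lit 3), (nat_lit 1)), ((nat_lit 7), (nat_lit 1)), ((nat_lit 9), (nat_lit 1)), ((nat_lit 1), (nat_lit 1)), ((nat_lit 16), (nat_lit 1)), ((nat_lit 0x81f), (nat_lit 2)), ((nat_lit 6), (nat_lit 1)), ((nat_lit 12), (nat_lit 1)), ((nat_lit 15), (nat_lit 1)), ((nat_lit 0), (nat_lit 0)), ((nat_lit 0x698), (nat_lit 2)), ((nat_lit 20), (nat_lit 1)), ((nat_lit 0x309309), (nat_lit 4)), ((nat_lit 24), (nat_lit 1)), ((nat_lit 0x1cf1cf), (nat_lit 4)), ((nat_lit 0x254254), (nat_lit 4)), ((nat_lit 0x50c40950c40c24c), (nat_lit 10)), ((nat_lit 0x40f40f), (nat_lit 4)), ((nat_lit 0x3c63c6), (nat_lit 4)), ((nat_lit 0xc73c73c31cf1cf), (nat_lit 10)), ((nat_lit 0x2473c73c91cf1cf), (nat_lit 10)), ((nat_lit 0x473c73c11cf1cf), (nat_lit 10)),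 ((nat_lit 0x2431cf1cf0c73c73c90c73c73c31cf1cf), (nat_lit 22)), ((nat_lit 0x431cf1cf0c73c73c10c73c73c31cf1cf), (nat_lit 22))] (nat_lit 0x72472372272172071f71e71d71c3e558671b71a5e764846d4284947194ee71808f0ab0a5093),
.c (nat_lit 7) (nat_lit 0x1a005c9802e4f0272680889c1415600069),
.i (nat_lit 3) (nat_lit 98) [((nat_lit 3), (nat_lit 1)), ((nat_lit 7), (nat_lit 1)), ((nat_lit 9), (nat_lit 1)), ((nat_lit 1), (nat_lit 1)), ((nat_lit 16), (nat_lit 1)), ((nat_lit 0x81f), (nat_lit 2)), ((nat_lit 6), (nat_lit 1)), ((nat_lit 12), (nat_lit 1)), ((nat_lit 15), (nat_lit 1)), ((nat_lit 0), (nat_lit 0)), ((nat_lit 0x698), (nat_lit 2)), ((nat_lit 20), (nat_lit 1)), ((nat_lit 0x309309), (nat_lit 4)), ((nat_lit 24), (nat_lit 1)), ((nat_lit 0x1cf1cf), (nat_lit 4)), ((nat_lit 0x254254), (nat_lit 4)), ((nat_lit 0x50c40950c40c24c), (nat_lit 10)), ((nat_lit 0x40f40f), (nat_lit 4)), ((nat_lit 0x3c63c6), (nat_lit 4)), ((nat_lit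 0xc73c73c31cf1cf), (nat_lit 10)), ((nat_lit 0x2473c73c91cf1cf), (nat_lit 10)), ((nat_lit 0x473c73c11cf1cf), (nat_lit 10)), ((nat_lit 0x2431cf1cf0c73c73c90c73c73c31cf1cf), (nat_lit 22)), ((nat_lit 0x431cf1cf0c73c73c10c73c73c31cf1cf), (nat_lit 22))] (nat_lit 0x72472372272172071f71e71d71c3e558671b71a5e764846d4284947194ee71808f0ab0a5093),
.c (nat_lit 13) (nat_lit 0x808c0503d00b128080d006e5206113828d041044e063410a03d8101a40411a00093),
.i (nat_lit 3) (nat_lit 115) [((nat_lit 3), (nat_lit 1)), ((nat_lit 7), (nat_lit 1)), ((nat_lit 9), (nat_lit 1)), ((nat_lit 1), (nat_lit 1)), ((nat_lit 16), (nat_lit 1)), ((nat_lit 0x81f), (nat_lit 2)), ((nat_lit 6), (nat_lit 1)), ((nat_lit 12), (nat_lit 1)), ((nat_lit 15), (nat_lit 1)), ((nat_lit 0), (nat_lit 0)), ((nat_lit 0x698), (nat_lit 2)), ((nat_lit 20), (nat_lit 1)), ((nat_lit 0x309309), (nat_lit 4)), ((nat_lit 24), (nat_lit 1)), ((nat_lit 0x1cf1cf), (nat_lit 4)),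 ((nat_lit 0x254254), (nat_lit 4)), ((nat_lit 0x50c40950c40c24c), (nat_lit 10)), ((nat_lit 0x40f40f), (nat_lit 4)), ((nat_lit 0x3c63c6), (nat_lit 4)), ((nat_lit 0xc73c73c31cf1cf), (nat_lit 10)), ((nat_lit 0x2473c73c91cf1cf), (nat_lit 10)), ((nat_lit 0x473c73c11cf1cf), (nat_lit 10)), ((nat_lit 0x2431cf1cf0c73c73c90c73c73c31cf1cf), (nat_lit 22)), ((nat_lit 0x431cf1cf0c73c73c10c73c73c31cf1cf), (nat_lit 22))] (nat_lit 0x72472372272172071f71e71d71c3e558671b71a5e764846d4284947194ee71808f0ab0a5093),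
.c (nat_lit 5) (nat_lit 0x560172b8090ac1411a00057),
.i (nat_lit 3) (nat_lit 116) [((nat_lit 3), (nat_lit 1)), ((nat_lit 7), (nat_lit 1)), ((nat_lit 9), (nat_lit 1)), ((nat_lit 1), (nat_lit 1)), ((nat_lit 16), (nat_lit 1)), ((nat_lit 0x81f), (nat_lit 2)), ((nat_lit 6), (nat_lit 1)), ((nat_lit 12), (nat_lit 1)), ((nat_lit 15), (nat_lit 1)), ((nat_lit 0), (nat_lit 0)), ((nat_lit 0x698), (nat_lit 2)), ((nat_lit 20), (nat_lit 1)), ((nat_lit 0x309309), (nat_lit 4)), ((nat_lit 24), (nat_lit 1)), ((nat_lit 0x1cf1cf), (nat_lit 4)), ((nat_lit 0x254254), (nat_lit 4)), ((nat_lit 0x50c40950c40c24c), (nat_lit 10)), ((nat_lit 0x40f40f), (nat_lit 4)), ((nat_lit 0x3c63c6), (nat_lit 4)), ((nat_lit 0xc73c73c31cf1cf), (nat_lit 10)), ((nat_lit 0x2473c73c91cf1cf), (nat_lit 10)), ((nat_lit 0x473c73c11cf1cf), (nat_lit 10)), ((nat_lit 0x2431cf1cf0c73c73c90c73c73c31cf1cf), (nat_lit 22)), ((nat_lit 0x431cf1cf0c73c73c10c73c73c31cf1cf),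 (nat_lit 22))] (nat_lit 0x72472372272172071f71e71d71c3e558671b71a5e764846d4284947194ee71808f0ab0a5093),
.c (nat_lit 1) (nat_lit 0xe5a),
.i (nat_lit 3) (nat_lit 121) [((nat_lit 3), (nat_lit 1)), ((nat_lit 7), (nat_lit 1)), ((nat_lit 9), (nat_lit 1)), ((nat_lit 1), (nat_lit 1)), ((nat_lit 16), (nat_lit 1)), ((nat_lit 0x81f), (nat_lit 2)), ((nat_lit 6), (nat_lit 1)), ((nat_lit 12), (nat_lit 1)), ((nat_lit 15), (nat_lit 1)), ((nat_lit 0), (nat_lit 0)), ((nat_lit 0x698), (nat_lit 2)), ((nat_lit 20), (nat_lit 1)), ((nat_lit 0x309309), (nat_lit 4)), ((nat_lit 24), (nat_lit 1)), ((nat_lit 0x1cf1cf), (nat_lit 4)), ((nat_lit 0x254254), (nat_lit 4)), ((nat_lit 0x50c40950c40c24c), (nat_lit 10)), ((nat_lit 0x40f40f), (nat_lit 4)), ((nat_lit 0x3c63c6), (nat_lit 4)), ((nat_lit 0xc73c73c31cf1cf), (nat_lit 10)), ((nat_lit 0x2473c73c91cf1cf), (nat_lit 10)), ((nat_lit 0x473c73c11cf1cf), (nat_lit 10)), ((nat_lit 0x2431cf1cf0c73c73c90c73c73c31cf1cf),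 (nat_lit 22)), ((nat_lit 0x431cf1cf0c73c73c10c73c73c31cf1cf), (nat_lit 22))] (nat_lit 0x72472372272172071f71e71d71c3e558671b71a5e764846d4284947194ee71808f0ab0a5093),
.c (nat_lit 32) (nat_lit 0x959b00aae00069c0642a05049032c48181180e35607049042c48141180c42e091ab0281a01934c0e35a045e30301e8148541e07a100550339783c7b61c42b100558781ec140f6080690303d81024c040f6000ab)]

theorem c13 : chk db th.hy ths 1841 J13 1783 = true := by decide +kernel

set_option maxRecDepth 100000 in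
/-- Justifications. -/
noncomputable def J14 : List Js := [
.i (nat_lit 3) (nat_lit 122) [((nat_lit 3), (nat_lit 1)), ((nat_lit 7), (nat_lit 1)), ((nat_lit 9), (nat_lit 1)), ((nat_lit 1), (nat_lit 1)), ((nat_lit 16), (nat_lit 1)), ((nat_lit 0x81f), (nat_lit 2)), ((nat_lit 6), (nat_lit 1)), ((nat_lit 12), (nat_lit 1)), ((nat_lit 15), (nat_lit 1)), ((nat_lit 0), (nat_lit 0)), ((nat_lit 0x698), (nat_lit 2)), ((nat_lit 20), (nat_lit 1)), ((nat_lit 0x309309), (nat_lit 4)), ((nat_lit 24), (nat_lit 1)), ((nat_lit 0x1cf1cf), (nat_lit 4)), ((nat_lit 0x254254), (nat_lit 4)), ((nat_lit 0x50c40950c40c24c), (nat_lit 10)), ((nat_lit 0x40f40f), (nat_lit 4)), ((nat_lit 0x3c63c6), (nat_lit 4)), ((nat_lit 0xc73c73c31cf1cf), (nat_lit 10)), ((nat_lit 0x2473c73c91cf1cf), (nat_lit 10)), ((nat_lit 0x473c73c11cf1cf), (nat_lit 10)), ((nat_lit 0x2431cf1cf0c73c73c90c73c73c31cf1cf), (nat_lit 22)), ((nat_lit 0x431cf1cf0c73c73c10c73c73c31cf1cf),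 (nat_lit 22))] (nat_lit 0x72472372272172071f71e71d71c3e558671b71a5e764846d4284947194ee71808f0ab0a5093),
.c (nat_lit 2) (nat_lit 0x1cc608093),
.i (nat_lit 3) (nat_lit 129) [((nat_lit 3), (nat_lit 1)), ((nat_lit 7), (nat_lit 1)), ((nat_lit 9), (nat_lit 1)), ((nat_lit 1), (nat_lit 1)), ((nat_lit 16), (nat_lit 1)), ((nat_lit 0x81f), (nat_lit 2)), ((nat_lit 6), (nat_lit 1)), ((nat_lit 12), (nat_lit 1)), ((nat_lit 15), (nat_lit 1)), ((nat_lit 0), (nat_lit 0)), ((nat_lit 0x698), (nat_lit 2)), ((nat_lit 20), (nat_lit 1)), ((nat_lit 0x309309), (nat_lit 4)), ((nat_lit 24), (nat_lit 1)), ((nat_lit 0x1cf1cf), (nat_lit 4)), ((nat_lit 0x254254), (nat_lit 4)), ((nat_lit 0x50c40950c40c24c), (nat_lit 10)), ((nat_lit 0x40f40f), (nat_lit 4)), ((nat_lit 0x3c63c6), (nat_lit 4)), ((nat_lit 0xc73c73c31cf1cf), (nat_lit 10)), ((nat_lit 0x2473c73c91cf1cf), (nat_lit 10)), ((nat_lit 0x473c73c11cf1cf), (nat_lit 10)), ((nat_lit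 0x2431cf1cf0c73c73c90c73c73c31cf1cf), (nat_lit 22)), ((nat_lit 0x431cf1cf0c73c73c10c73c73c31cf1cf), (nat_lit 22))] (nat_lit 0x72472372272172071f71e71d71c3e558671b71a5e764846d4284947194ee71808f0ab0a5093),
.c (nat_lit 15) (nat_lit 0x2481485c1007a0172a0381e80d894080680573302a69c340f6080690304681024c0411a00093),
.i (nat_lit 3) (nat_lit 136) [((nat_lit 3), (nat_lit 1)), ((nat_lit 7), (nat_lit 1)), ((nat_lit 9), (nat_lit 1)), ((nat_lit 1), (nat_lit 1)), ((nat_lit 16), (nat_lit 1)), ((nat_lit 0x81f), (nat_lit 2)), ((nat_lit 6), (nat_lit 1)), ((nat_lit 12), (nat_lit 1)), ((nat_lit 15), (nat_lit 1)), ((nat_lit 0), (nat_lit 0)), ((nat_lit 0x698), (nat_lit 2)), ((nat_lit 20), (nat_lit 1)), ((nat_lit 0x309309), (nat_lit 4)), ((nat_lit 24), (nat_lit 1)), ((nat_lit 0x1cf1cf), (nat_lit 4)), ((nat_lit 0x254254), (nat_lit 4)), ((nat_lit 0x50c40950c40c24c), (nat_lit 10)), ((nat_lit 0x40f40f), (nat_lit 4)), ((nat_lit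 0x3c63c6), (nat_lit 4)), ((nat_lit 0xc73c73c31cf1cf), (nat_lit 10)), ((nat_lit 0x2473c73c91cf1cf), (nat_lit 10)), ((nat_lit 0x473c73c11cf1cf), (nat_lit 10)), ((nat_lit 0x2431cf1cf0c73c73c90c73c73c31cf1cf), (nat_lit 22)), ((nat_lit 0x431cf1cf0c73c73c10c73c73c31cf1cf), (nat_lit 22))] (nat_lit 0x72472372272172071f71e71d71c3e558671b71a5e764846d4284947194ee71808f0ab0a5093),
.c (nat_lit 4) (nat_lit 0x106100397005cd6000c3),
.i (nat_lit 3) (nat_lit 138) [((nat_lit 3), (nat_lit 1)), ((nat_lit 7), (nat_lit 1)), ((nat_lit 9), (nat_lit 1)), ((nat_lit 1), (nat_lit 1)), ((nat_lit 16), (nat_lit 1)), ((nat_lit 0x81f), (nat_lit 2)), ((nat_lit 6), (nat_lit 1)), ((nat_lit 12), (nat_lit 1)), ((nat_lit 15), (nat_lit 1)), ((nat_lit 0), (nat_lit 0)), ((nat_lit 0x698), (nat_lit 2)), ((nat_lit 20), (nat_lit 1)), ((nat_lit 0x309309), (nat_lit 4)), ((nat_lit 24), (nat_lit 1)), ((nat_lit 0x1cf1cf), (nat_lit 4)), ((nat_lit 0x254254),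 (nat_lit 4)), ((nat_lit 0x50c40950c40c24c), (nat_lit 10)), ((nat_lit 0x40f40f), (nat_lit 4)), ((nat_lit 0x3c63c6), (nat_lit 4)), ((nat_lit 0xc73c73c31cf1cf), (nat_lit 10)), ((nat_lit 0x2473c73c91cf1cf), (nat_lit 10)), ((nat_lit 0x473c73c11cf1cf), (nat_lit 10)), ((nat_lit 0x2431cf1cf0c73c73c90c73c73c31cf1cf), (nat_lit 22)), ((nat_lit 0x431cf1cf0c73c73c10c73c73c31cf1cf), (nat_lit 22))] (nat_lit 0x72472372272172071f71e71d71c3e558671b71a5e764846d4284947194ee71808f0ab0a5093),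
.c (nat_lit 2) (nat_lit 0x5cdc0008d),
.i (nat_lit 3) (nat_lit 154) [((nat_lit 3), (nat_lit 1)), ((nat_lit 7), (nat_lit 1)), ((nat_lit 9), (nat_lit 1)), ((nat_lit 1), (nat_lit 1)), ((nat_lit 16), (nat_lit 1)), ((nat_lit 0x81f), (nat_lit 2)), ((nat_lit 6), (nat_lit 1)), ((nat_lit 12), (nat_lit 1)), ((nat_lit 15), (nat_lit 1)), ((nat_lit 0), (nat_lit 0)), ((nat_lit 0x698), (nat_lit 2)), ((nat_lit 20), (nat_lit 1)), ((nat_lit 0x309309), (nat_lit 4)), ((nat_lit 24), (nat_lit 1)), ((nat_lit 0x1cf1cf), (nat_lit 4)), ((nat_lit 0x254254), (nat_lit 4)), ((nat_lit 0x50c40950c40c24c), (nat_lit 10)), ((nat_lit 0x40f40f), (nat_lit 4)), ((nat_lit 0x3c63c6), (nat_lit 4)), ((nat_lit 0xc73c73c31cf1cf), (nat_lit 10)), ((nat_lit 0x2473c73c91cf1cf), (nat_lit 10)), ((nat_lit 0x473c73c11cf1cf), (nat_lit 10)), ((nat_lit 0x2431cf1cf0c73c73c90c73c73c31cf1cf), (nat_lit 22)), ((nat_lit 0x431cf1cf0c73c73c10c73c73c31cf1cf), (nat_lit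 22))] (nat_lit 0x72472372272172071f71e71d71c3e558671b71a5e764846d4284947194ee71808f0ab0a5093),
.c (nat_lit 8) (nat_lit 0x30790039cc05ada06d95020678136540c1e6040cf),
.i (nat_lit 3) (nat_lit 155) [((nat_lit 3), (nat_lit 1)), ((nat_lit 7), (nat_lit 1)), ((nat_lit 9), (nat_lit 1)), ((nat_lit 1), (nat_lit 1)), ((nat_lit 16), (nat_lit 1)), ((nat_lit 0x81f), (nat_lit 2)), ((nat_lit 6), (nat_lit 1)), ((nat_lit 12), (nat_lit 1)), ((nat_lit 15), (nat_lit 1)), ((nat_lit 0), (nat_lit 0)), ((nat_lit 0x698), (nat_lit 2)), ((nat_lit 20), (nat_lit 1)), ((nat_lit 0x309309), (nat_lit 4)), ((nat_lit 24), (nat_lit 1)), ((nat_lit 0x1cf1cf), (nat_lit 4)), ((nat_lit 0x254254), (nat_lit 4)), ((nat_lit 0x50c40950c40c24c), (nat_lit 10)), ((nat_lit 0x40f40f), (nat_lit 4)), ((nat_lit 0x3c63c6), (nat_lit 4)), ((nat_lit 0xc73c73c31cf1cf), (nat_lit 10)), ((nat_lit 0x2473c73c91cf1cf), (nat_lit 10)), ((nat_lit 0x473c73c11cf1cf), (nat_lit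 10)), ((nat_lit 0x2431cf1cf0c73c73c90c73c73c31cf1cf), (nat_lit 22)), ((nat_lit 0x431cf1cf0c73c73c10c73c73c31cf1cf), (nat_lit 22))] (nat_lit 0x72472372272172071f71e71d71c3e558671b71a5e764846d4284947194ee71808f0ab0a5093),
.c (nat_lit 1) (nat_lit 0xe76),
.i (nat_lit 3) (nat_lit 158) [((nat_lit 3), (nat_lit 1)), ((nat_lit 7), (nat_lit 1)), ((nat_lit 9), (nat_lit 1)), ((nat_lit 1), (nat_lit 1)), ((nat_lit 16), (nat_lit 1)), ((nat_lit 0x81f), (nat_lit 2)), ((nat_lit 6), (nat_lit 1)), ((nat_lit 12), (nat_lit 1)), ((nat_lit 15), (nat_lit 1)), ((nat_lit 0), (nat_lit 0)), ((nat_lit 0x698), (nat_lit 2)), ((nat_lit 20), (nat_lit 1)), ((nat_lit 0x309309), (nat_lit 4)), ((nat_lit 24), (nat_lit 1)), ((nat_lit 0x1cf1cf), (nat_lit 4)), ((nat_lit 0x254254), (nat_lit 4)), ((nat_lit 0x50c40950c40c24c), (nat_lit 10)), ((nat_lit 0x40f40f), (nat_lit 4)), ((nat_lit 0x3c63c6), (nat_lit 4)), ((nat_lit 0xc73c73c31cf1cf), (nat_lit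 10)), ((nat_lit 0x2473c73c91cf1cf), (nat_lit 10)), ((nat_lit 0x473c73c11cf1cf), (nat_lit 10)), ((nat_lit 0x2431cf1cf0c73c73c90c73c73c31cf1cf), (nat_lit 22)), ((nat_lit 0x431cf1cf0c73c73c10c73c73c31cf1cf), (nat_lit 22))] (nat_lit 0x72472372272172071f71e71d71c3e558671b71a5e764846d4284947194ee71808f0ab0a5093),
.c (nat_lit 5) (nat_lit 0x680173d80889c140f600069),
.c (nat_lit 5) (nat_lit 0xcdac07677018d8009b580037a),
.c (nat_lit 3) (nat_lit 0x309c015b80003ce),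
.c (nat_lit 3) (nat_lit 0x1838009b58004fa),
.c (nat_lit 47) (nat_lit 0x803c839ab81ed940d6cc0712202410c10220093c9060f7835b7816d980a1ef04b66011ab808092056cc028188187bc0e0f20604903b660209100e0860824204b4381010c0806205110031e48247bc14dbc090670535702db2814cfa090430536302da1c08792076e00436f0184e00adc00307901343805b780057c),
.c (nat_lit 4) (nat_lit 0xc6cc05912029b5800644),
.c (nat_lit 5) (nat_lit 0x6ba026fd8283cc101ce060f3),
.c (nat_lit 2) (nat_lit 0xdaf8008d0),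
.c (nat_lit 9) (nat_lit 0xa0e605064033868141780ce0e04715018d5009c54008fc),
.c (nat_lit 14) (nat_lit 0xc1cc060d40447c02032015c34080bc05707011a180dc54083620406402b8680dc1c00900),
.c (nat_lit 2) (nat_lit 0xdc5c00922),
.c (nat_lit 6) (nat_lit 0x607b832dfa176d20b358055b5000924),
.c (nat_lit 11) (nat_lit 0x2781421c0a0f20653b00b7d8054e404df7011b383843c181e60009f),
.c (nat_lit 4) (nat_lit 0x174a00818809bf400a7a),
.c (nat_lit 12) (nat_lit 0x2b0082481556c063da0273c012ae41dcf20c0930808a8384240412600057),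
.c (nat_lit 15) (nat_lit 0x8024845cf0245de1373c0a177855cf020e78112ef0939e04012422e780b04903b5c021a7000b62),
.c (nat_lit 2) (nat_lit 0xda2c00bc0),
.c (nat_lit 2) (nat_lit 0xda2c00bc2),
.c (nat_lit 4) (nat_lit 0x107900826009af800bc4),
.c (nat_lit 7) (nat_lit 0x826009b20060ce025bb00b4d001b1800bc8),
.c (nat_lit 17) (nat_lit 0x6e03037021130101900ad2c036d401120005b5002bf306696838d9c19b4a0a09f06079828324100de0006f),
.c (nat_lit 6) (nat_lit 0x118c4064800304c02358009ab000bf4),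
.c (nat_lit 17) (nat_lit 0xe0e00867d0312101da1c0a448062260235700c90802062026e00193d8104400adc0066de02b65005b8000c0a),
.c (nat_lit 3) (nat_lit 0x827809b4800c66),
.c (nat_lit 4) (nat_lit 0x20790031a805a5a040f3),
.c (nat_lit 2) (nat_lit 0xd9fc00c6e),
.c (nat_lit 8) (nat_lit 0x10580101b80d8ec06da9046318101bc04162000b7),
.c (nat_lit 11) (nat_lit 0xc0e78649003439e1705b0c3ac0118c4064800304c02358009ab000c78),
.c (nat_lit 2) (nat_lit 0x51b6800c7c),
.c (nat_lit 3) (nat_lit 0x30f8015b7800c7e),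
.c (nat_lit 4) (nat_lit 0x20790032a805c46040f3),
.c (nat_lit 3) (nat_lit 0x33a805b5a040e1),
.c (nat_lit 4) (nat_lit 0x20790033d8059fe040f3),
.c (nat_lit 6) (nat_lit 0xc1c008d0a026d6019c9809a1400d02),
.c (nat_lit 4) (nat_lit 0x10670134c00dab800d48),
.c (nat_lit 3) (nat_lit 0x1033805b1000d50),
.c (nat_lit 3) (nat_lit 0x826009ac000d58),
.c (nat_lit 29) (nat_lit 0x560406402027815b4802d64016d88236e414b2a0c0990675583b6c415ae208b1f0326f8636e434b2a1c0990e06486821c3011a160870a04684824c2010e0e0930604682824c1010e00057),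
.c (nat_lit 3) (nat_lit 0x833809b2800d6c),
.c (nat_lit 3) (nat_lit 0x1824811af000d74),
.c (nat_lit 3) (nat_lit 0x235e015b3000d84),
.c (nat_lit 21) (nat_lit 0x392020310409c018b280ed8c0669a0289c011a680a0f2036e00236f00db3a1a0f30c04c85824c28132120870804981018c040de00087),
.c (nat_lit 4) (nat_lit 0x504c0216500db7000db0),
.c (nat_lit 3) (nat_lit 0x103c805d4800e02),
.c (nat_lit 3) (nat_lit 0x832009c3400e0e),
.c (nat_lit 3) (nat_lit 0x1827811c5400e26),
.c (nat_lit 3) (nat_lit 0x182a809cf000e50),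
.c (nat_lit 13) (nat_lit 0xec60072c00bb1c3010e160930a04684824c2010e0e0930604682821c1011a06087),
.c (nat_lit 10) (nat_lit 0x6c2283234e1a59b0d04206d56c32e981b0490e39e001db400e60),
.c (nat_lit 3) (nat_lit 0x1824811cf000e64),
.c (nat_lit 1) (nat_lit 765),
.c (nat_lit 4) (nat_lit 0x127b80018c048920006f),
.c (nat_lit 3) (nat_lit 0xe4c0410e0006f),
.c (nat_lit 1) (nat_lit 0xde3),
.c (nat_lit 4) (nat_lit 0x13a980017404e360006f),
.c (nat_lit 14) (nat_lit 0x574e0005d021f2808da4000c6083510120d8002040c73204087021a88082040473200087),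
.c (nat_lit 1) (nat_lit 0xa0f),
.c (nat_lit 1) (nat_lit 0x7fb),
.c (nat_lit 0) (nat_lit 0),
.c (nat_lit 16) (nat_lit 0x310a8113dc0442a004f706507829124100de0e0810627b828854107be06215021ef8093dc000c6020e1),
.c (nat_lit 24) (nat_lit 0x318181028404606000a1025f782b79c101020c347045f781283c040de06081036f3830d1c117de060810203780820405bce083d903181810f640460600003),
.c (nat_lit 1) (nat_lit 0x58d),
.c (nat_lit 7) (nat_lit 0xda414162082210310a8108840442a00063),
.c (nat_lit 0) (nat_lit 0),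
.c (nat_lit 0) (nat_lit 0),
.c (nat_lit 0) (nat_lit 0),
.i (nat_lit 3) (nat_lit 13) [((nat_lit 10), (nat_lit 1)), ((nat_lit 3), (nat_lit 1)), ((nat_lit 8), (nat_lit 1)), ((nat_lit 2), (nat_lit 1)), ((nat_lit 29), (nat_lit 1)), ((nat_lit 14), (nat_lit 1)), ((nat_lit 18), (nat_lit 1)), ((nat_lit 7), (nat_lit 1)), ((nat_lit 13), (nat_lit 1)), ((nat_lit 0), (nat_lit 0)), ((nat_lit 0x488488), (nat_lit 4)), ((nat_lit 31), (nat_lit 1)), ((nat_lit 0x595), (nat_lit 2)), ((nat_lit 0x34a34a), (nat_lit 4)), ((nat_lit 21), (nat_lit 1)), ((nat_lit 0x7c87c8), (nat_lit 4)), ((nat_lit 0x29654a595), (nat_lit 6)), ((nat_lit 0x74a35d34a), (nat_lit 6)), ((nat_lit 0x48d48d), (nat_lit 4)), ((nat_lit 0x54a54a), (nat_lit 4)), ((nat_lit 0x38d38d), (nat_lit 4)), ((nat_lit 0x95095), (nat_lit 4)), ((nat_lit 0x21529528854a54a), (nat_lit 10)), ((nat_lit 0x9529528254a54a), (nat_lit 10))] (nat_lit 0x77f77e77d77c77b77a7797787775c67767757747737722f159e3e33b57717700900a80930ae),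
.c (nat_lit 11) (nat_lit 0x81b80889004f00072248301bc2c1c21406f09040840384040de00081),
.i (nat_lit 3) (nat_lit 17) [((nat_lit 10), (nat_lit 1)), ((nat_lit 3), (nat_lit 1)), ((nat_lit 8), (nat_lit 1)), ((nat_lit 2), (nat_lit 1)), ((nat_lit 29), (nat_lit 1)), ((nat_lit 14), (nat_lit 1)), ((nat_lit 18), (nat_lit 1)), ((nat_lit 7), (nat_lit 1)), ((nat_lit 13), (nat_lit 1)), ((nat_lit 0), (nat_lit 0)), ((nat_lit 0x488488), (nat_lit 4)), ((nat_lit 31), (nat_lit 1)), ((nat_lit 0x595), (nat_lit 2)), ((nat_lit 0x34a34a), (nat_lit 4)), ((nat_lit 21), (nat_lit 1)), ((nat_lit 0x7c87c8), (nat_lit 4)), ((nat_lit 0x29654a595), (nat_lit 6)), ((nat_lit 0x74a35d34a), (nat_lit 6)), ((nat_lit 0x48d48d), (nat_lit 4)), ((nat_lit 0x54a54a), (nat_lit 4)), ((nat_lit 0x38d38d), (nat_lit 4)), ((nat_lit 0x95095), (nat_lit 4)), ((nat_lit 0x21529528854a54a), (nat_lit 10)), ((nat_lit 0x9529528254a54a), (nat_lit 10))] (nat_lit 0x77f77e77d77c77b77a7797787775c67767757747737722f159e3e33b57717700900a80930ae),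
.c (nat_lit 5) (nat_lit 0xf04070018302c414006080b1),
.i (nat_lit 3) (nat_lit 31) [((nat_lit 10), (nat_lit 1)), ((nat_lit 3), (nat_lit 1)), ((nat_lit 8), (nat_lit 1)), ((nat_lit 2), (nat_lit 1)), ((nat_lit 29), (nat_lit 1)), ((nat_lit 14), (nat_lit 1)), ((nat_lit 18), (nat_lit 1)), ((nat_lit 7), (nat_lit 1)), ((nat_lit 13), (nat_lit 1)), ((nat_lit 0), (nat_lit 0)), ((nat_lit 0x488488), (nat_lit 4)), ((nat_lit 31), (nat_lit 1)), ((nat_lit 0x595), (nat_lit 2)), ((nat_lit 0x34a34a), (nat_lit 4)), ((nat_lit 21), (nat_lit 1)), ((nat_lit 0x7c87c8), (nat_lit 4)), ((nat_lit 0x29654a595), (nat_lit 6)), ((nat_lit 0x74a35d34a), (nat_lit 6)), ((nat_lit 0x48d48d), (nat_lit 4)), ((nat_lit 0x54a54a), (nat_lit 4)), ((nat_lit 0x38d38d), (nat_lit 4)), ((nat_lit 0x95095), (nat_lit 4)), ((nat_lit 0x21529528854a54a), (nat_lit 10)), ((nat_lit 0x9529528254a54a), (nat_lit 10))] (nat_lit 0x77f77e77d77c77b77a7797787775c67767757747737722f159e3e33b57717700900a80930ae),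
.c (nat_lit 5) (nat_lit 0x6201784808f7c1413e00063),
.i (nat_lit 3) (nat_lit 37) [((nat_lit 10), (nat_lit 1)), ((nat_lit 3), (nat_lit 1)), ((nat_lit 8), (nat_lit 1)), ((nat_lit 2), (nat_lit 1)), ((nat_lit 29), (nat_lit 1)), ((nat_lit 14), (nat_lit 1)), ((nat_lit 18), (nat_lit 1)), ((nat_lit 7), (nat_lit 1)), ((nat_lit 13), (nat_lit 1)), ((nat_lit 0), (nat_lit 0)), ((nat_lit 0x488488), (nat_lit 4)), ((nat_lit 31), (nat_lit 1)), ((nat_lit 0x595), (nat_lit 2)), ((nat_lit 0x34a34a), (nat_lit 4)), ((nat_lit 21), (nat_lit 1)), ((nat_lit 0x7c87c8), (nat_lit 4)), ((nat_lit 0x29654a595), (nat_lit 6)), ((nat_lit 0x74a35d34a), (nat_lit 6)), ((nat_lit 0x48d48d), (nat_lit 4)), ((nat_lit 0x54a54a), (nat_lit 4)), ((nat_lit 0x38d38d), (nat_lit 4)), ((nat_lit 0x95095), (nat_lit 4)), ((nat_lit 0x21529528854a54a), (nat_lit 10)), ((nat_lit 0x9529528254a54a), (nat_lit 10))] (nat_lit 0x77f77e77d77c77b77a7797787775c67767757747737722f159e3e33b57717700900a80930ae),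
.c (nat_lit 15) (nat_lit 0x18805e1a043e5011b4830d440c83604081051cc82021c106a206081031cc81021c181da00063),
.i (nat_lit 3) (nat_lit 38) [((nat_lit 10), (nat_lit 1)), ((nat_lit 3), (nat_lit 1)), ((nat_lit 8), (nat_lit 1)), ((nat_lit 2), (nat_lit 1)), ((nat_lit 29), (nat_lit 1)), ((nat_lit 14), (nat_lit 1)), ((nat_lit 18), (nat_lit 1)), ((nat_lit 7), (nat_lit 1)), ((nat_lit 13), (nat_lit 1)), ((nat_lit 0), (nat_lit 0)), ((nat_lit 0x488488), (nat_lit 4)), ((nat_lit 31), (nat_lit 1)), ((nat_lit 0x595), (nat_lit 2)), ((nat_lit 0x34a34a), (nat_lit 4)), ((nat_lit 21), (nat_lit 1)), ((nat_lit 0x7c87c8), (nat_lit 4)), ((nat_lit 0x29654a595), (nat_lit 6)), ((nat_lit 0x74a35d34a), (nat_lit 6)), ((nat_lit 0x48d48d), (nat_lit 4)), ((nat_lit 0x54a54a), (nat_lit 4)), ((nat_lit 0x38d38d), (nat_lit 4)), ((nat_lit 0x95095), (nat_lit 4)), ((nat_lit 0x21529528854a54a), (nat_lit 10)), ((nat_lit 0x9529528254a54a), (nat_lit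 10))] (nat_lit 0x77f77e77d77c77b77a7797787775c67767757747737722f159e3e33b57717700900a80930ae),
.c (nat_lit 7) (nat_lit 0x838001e220e0e106037828204101c206081),
.i (nat_lit 3) (nat_lit 40) [((nat_lit 10), (nat_lit 1)), ((nat_lit 3), (nat_lit 1)), ((nat_lit 8), (nat_lit 1)), ((nat_lit 2), (nat_lit 1)), ((nat_lit 29), (nat_lit 1)), ((nat_lit 14), (nat_lit 1)), ((nat_lit 18), (nat_lit 1)), ((nat_lit 7), (nat_lit 1)), ((nat_lit 13), (nat_lit 1)), ((nat_lit 0), (nat_lit 0)), ((nat_lit 0x488488), (nat_lit 4)), ((nat_lit 31), (nat_lit 1)), ((nat_lit 0x595), (nat_lit 2)), ((nat_lit 0x34a34a), (nat_lit 4)), ((nat_lit 21), (nat_lit 1)), ((nat_lit 0x7c87c8), (nat_lit 4)), ((nat_lit 0x29654a595), (nat_lit 6)), ((nat_lit 0x74a35d34a), (nat_lit 6)), ((nat_lit 0x48d48d), (nat_lit 4)), ((nat_lit 0x54a54a), (nat_lit 4)), ((nat_lit 0x38d38d), (nat_lit 4)), ((nat_lit 0x95095), (nat_lit 4)), ((nat_lit 0x21529528854a54a),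 (nat_lit 10)), ((nat_lit 0x9529528254a54a), (nat_lit 10))] (nat_lit 0x77f77e77d77c77b77a7797787775c67767757747737722f159e3e33b57717700900a80930ae),
.c (nat_lit 7) (nat_lit 0x32e78140dc0c4480078a8301bc1416e080b1),
.i (nat_lit 3) (nat_lit 48) [((nat_lit 10), (nat_lit 1)), ((nat_lit 3), (nat_lit 1)), ((nat_lit 8), (nat_lit 1)), ((nat_lit 2), (nat_lit 1)), ((nat_lit 29), (nat_lit 1)), ((nat_lit 14), (nat_lit 1)), ((nat_lit 18), (nat_lit 1)), ((nat_lit 7), (nat_lit 1)), ((nat_lit 13), (nat_lit 1)), ((nat_lit 0), (nat_lit 0)), ((nat_lit 0x488488), (nat_lit 4)), ((nat_lit 31), (nat_lit 1)), ((nat_lit 0x595), (nat_lit 2)), ((nat_lit 0x34a34a), (nat_lit 4)), ((nat_lit 21), (nat_lit 1)), ((nat_lit 0x7c87c8), (nat_lit 4)), ((nat_lit 0x29654a595), (nat_lit 6)), ((nat_lit 0x74a35d34a), (nat_lit 6)), ((nat_lit 0x48d48d), (nat_lit 4)), ((nat_lit 0x54a54a), (nat_lit 4)), ((nat_lit 0x38d38d), (nat_lit 4)), ((nat_lit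 0x95095), (nat_lit 4)), ((nat_lit 0x21529528854a54a), (nat_lit 10)), ((nat_lit 0x9529528254a54a), (nat_lit 10))] (nat_lit 0x77f77e77d77c77b77a7797787775c67767757747737722f159e3e33b57717700900a80930ae),
.c (nat_lit 21) (nat_lit 0xe0010400100081c1c0103780403702820019e2406f18057898202040c0de0c105051818204140c606121030807081000c04102000e1),
.i (nat_lit 3) (nat_lit 52) [((nat_lit 10), (nat_lit 1)), ((nat_lit 3), (nat_lit 1)), ((nat_lit 8), (nat_lit 1)), ((nat_lit 2), (nat_lit 1)), ((nat_lit 29), (nat_lit 1)), ((nat_lit 14), (nat_lit 1)), ((nat_lit 18), (nat_lit 1)), ((nat_lit 7), (nat_lit 1)), ((nat_lit 13), (nat_lit 1)), ((nat_lit 0), (nat_lit 0)), ((nat_lit 0x488488), (nat_lit 4)), ((nat_lit 31), (nat_lit 1)), ((nat_lit 0x595), (nat_lit 2)), ((nat_lit 0x34a34a), (nat_lit 4)), ((nat_lit 21), (nat_lit 1)), ((nat_lit 0x7c87c8), (nat_lit 4)), ((nat_lit 0x29654a595), (nat_lit 6)), ((nat_lit 0x74a35d34a), (nat_lit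 6)), ((nat_lit 0x48d48d), (nat_lit 4)), ((nat_lit 0x54a54a), (nat_lit 4)), ((nat_lit 0x38d38d), (nat_lit 4)), ((nat_lit 0x95095), (nat_lit 4)), ((nat_lit 0x21529528854a54a), (nat_lit 10)), ((nat_lit 0x9529528254a54a), (nat_lit 10))] (nat_lit 0x77f77e77d77c77b77a7797787775c67767757747737722f159e3e33b57717700900a80930ae),
.c (nat_lit 22) (nat_lit 0x498c0030205040030d400898c0ab96041a8013c740977a0cbbd0504081bc1c086060c351075cb840d4424162100810702e8302040400600081),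
.i (nat_lit 3) (nat_lit 55) [((nat_lit 10), (nat_lit 1)), ((nat_lit 3), (nat_lit 1)), ((nat_lit 8), (nat_lit 1)), ((nat_lit 2), (nat_lit 1)), ((nat_lit 29), (nat_lit 1)), ((nat_lit 14), (nat_lit 1)), ((nat_lit 18), (nat_lit 1)), ((nat_lit 7), (nat_lit 1)), ((nat_lit 13), (nat_lit 1)), ((nat_lit 0), (nat_lit 0)), ((nat_lit 0x488488), (nat_lit 4)), ((nat_lit 31), (nat_lit 1)), ((nat_lit 0x595), (nat_lit 2)), ((nat_lit 0x34a34a), (nat_lit 4)), ((nat_lit 21), (nat_lit 1)), ((nat_lit 0x7c87c8), (nat_lit 4)), ((nat_lit 0x29654a595), (nat_lit 6)), ((nat_lit 0x74a35d34a), (nat_lit 6)), ((nat_lit 0x48d48d), (nat_lit 4)), ((nat_lit 0x54a54a), (nat_lit 4)), ((nat_lit 0x38d38d), (nat_lit 4)), ((nat_lit 0x95095), (nat_lit 4)), ((nat_lit 0x21529528854a54a), (nat_lit 10)), ((nat_lit 0x9529528254a54a), (nat_lit 10))] (nat_lit 0x77f77e77d77c77b77a7797787775c67767757747737722f159e3e33b57717700900a80930ae),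
.c (nat_lit 24) (nat_lit 0x310282781068c02f210127b81bc2c1c13e0c449051a383bc0c2889210f1307040830d1c140de120e10804085027c241021009f070708302041413e00063),
.i (nat_lit 3) (nat_lit 58) [((nat_lit 10), (nat_lit 1)), ((nat_lit 3), (nat_lit 1)), ((nat_lit 8), (nat_lit 1)), ((nat_lit 2), (nat_lit 1)), ((nat_lit 29), (nat_lit 1)), ((nat_lit 14), (nat_lit 1)), ((nat_lit 18), (nat_lit 1)), ((nat_lit 7), (nat_lit 1)), ((nat_lit 13), (nat_lit 1)), ((nat_lit 0), (nat_lit 0)), ((nat_lit 0x488488), (nat_lit 4)), ((nat_lit 31), (nat_lit 1)), ((nat_lit 0x595), (nat_lit 2)), ((nat_lit 0x34a34a), (nat_lit 4)), ((nat_lit 21), (nat_lit 1)), ((nat_lit 0x7c87c8), (nat_lit 4)), ((nat_lit 0x29654a595), (nat_lit 6)), ((nat_lit 0x74a35d34a), (nat_lit 6)), ((nat_lit 0x48d48d), (nat_lit 4)), ((nat_lit 0x54a54a), (nat_lit 4)), ((nat_lit 0x38d38d), (nat_lit 4)), ((nat_lit 0x95095), (nat_lit 4)), ((nat_lit 0x21529528854a54a), (nat_lit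 10)), ((nat_lit 0x9529528254a54a), (nat_lit 10))] (nat_lit 0x77f77e77d77c77b77a7797787775c67767757747737722f159e3e33b57717700900a80930ae),
.c (nat_lit 16) (nat_lit 0x5792830d1c1489212f1308040838d1c188920a06f087818382043013e080e10304f81038404102000e1),
.i (nat_lit 3) (nat_lit 64) [((nat_lit 10), (nat_lit 1)), ((nat_lit 3), (nat_lit 1)), ((nat_lit 8), (nat_lit 1)), ((nat_lit 2), (nat_lit 1)), ((nat_lit 29), (nat_lit 1)), ((nat_lit 14), (nat_lit 1)), ((nat_lit 18), (nat_lit 1)), ((nat_lit 7), (nat_lit 1)), ((nat_lit 13), (nat_lit 1)), ((nat_lit 0), (nat_lit 0)), ((nat_lit 0x488488), (nat_lit 4)), ((nat_lit 31), (nat_lit 1)), ((nat_lit 0x595), (nat_lit 2)), ((nat_lit 0x34a34a), (nat_lit 4)), ((nat_lit 21), (nat_lit 1)), ((nat_lit 0x7c87c8), (nat_lit 4)), ((nat_lit 0x29654a595), (nat_lit 6)), ((nat_lit 0x74a35d34a), (nat_lit 6)), ((nat_lit 0x48d48d), (nat_lit 4)), ((nat_lit 0x54a54a), (nat_lit 4)), ((nat_lit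 0x38d38d), (nat_lit 4)), ((nat_lit 0x95095), (nat_lit 4)), ((nat_lit 0x21529528854a54a), (nat_lit 10)), ((nat_lit 0x9529528254a54a), (nat_lit 10))] (nat_lit 0x77f77e77d77c77b77a7797787775c67767757747737722f159e3e33b57717700900a80930ae),
.c (nat_lit 35) (nat_lit 0x3ca419e3e0a0b9041818182e408606022f90005c812e6c0c73e082870505b83ae6c11746060810202e80906c1010e0839f0304081ae6c1073e0ab9f065cf8282c41465a083030317c8102e40460600003025cd818e7c1016e06081),
.i (nat_lit 3) (nat_lit 66) [((nat_lit 10), (nat_lit 1)), ((nat_lit 3), (nat_lit 1)), ((nat_lit 8), (nat_lit 1)), ((nat_lit 2), (nat_lit 1)), ((nat_lit 29), (nat_lit 1)), ((nat_lit 14), (nat_lit 1)), ((nat_lit 18), (nat_lit 1)), ((nat_lit 7), (nat_lit 1)), ((nat_lit 13), (nat_lit 1)), ((nat_lit 0), (nat_lit 0)), ((nat_lit 0x488488), (nat_lit 4)), ((nat_lit 31), (nat_lit 1)), ((nat_lit 0x595), (nat_lit 2)), ((nat_lit 0x34a34a), (nat_lit 4)), ((nat_lit 21), (nat_lit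 1)), ((nat_lit 0x7c87c8), (nat_lit 4)), ((nat_lit 0x29654a595), (nat_lit 6)), ((nat_lit 0x74a35d34a), (nat_lit 6)), ((nat_lit 0x48d48d), (nat_lit 4)), ((nat_lit 0x54a54a), (nat_lit 4)), ((nat_lit 0x38d38d), (nat_lit 4)), ((nat_lit 0x95095), (nat_lit 4)), ((nat_lit 0x21529528854a54a), (nat_lit 10)), ((nat_lit 0x9529528254a54a), (nat_lit 10))] (nat_lit 0x77f77e77d77c77b77a7797787775c67767757747737722f159e3e33b57717700900a80930ae),
.c (nat_lit 82) (nat_lit 0x172c020860202e0302180c56808004111ce09112045b3014e9c0a040043ca81c1001041a0720d033ca821e54140b609143040e78180b80a0020602f038be020604120b80a1810582e031e3c1a32c0c5cf0602d82c50c1439e0502f030c081c170103020905c050cb02816016b9e091cc050a18206a01239e071cc040a18186a00e39e05796033a1c147d20c399075cb840e643dd761c2270d27c8601a4349121ccfb0f67f8833ec4489a204491224488b6644d9f6240e11207988824c400de1e0b70e07086824c300de08005030438101740410e000b1)]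

theorem c14 : chk db th.hy ths 1944 J14 1841 = true := by decide +kernel

set_option maxRecDepth 100000 in
/-- Justifications. -/
noncomputable def J15 : List Js := [
.i (nat_lit 3) (nat_lit 69) [((nat_lit 10), (nat_lit 1)), ((nat_lit 3), (nat_lit 1)), ((nat_lit 8), (nat_lit 1)), ((nat_lit 2), (nat_lit 1)), ((nat_lit 29), (nat_lit 1)), ((nat_lit 14), (nat_lit 1)), ((nat_lit 18), (nat_lit 1)), ((nat_lit 7), (nat_lit 1)), ((nat_lit 13), (nat_lit 1)), ((nat_lit 0), (nat_lit 0)), ((nat_lit 0x488488), (nat_lit 4)), ((nat_lit 31), (nat_lit 1)), ((nat_lit 0x595), (nat_lit 2)), ((nat_lit 0x34a34a), (nat_lit 4)), ((nat_lit 21), (nat_lit 1)), ((nat_lit 0x7c87c8), (nat_lit 4)), ((nat_lit 0x29654a595), (nat_lit 6)), ((nat_lit 0x74a35d34a), (nat_lit 6)), ((nat_lit 0x48d48d), (nat_lit 4)), ((nat_lit 0x54a54a), (nat_lit 4)), ((nat_lit 0x38d38d), (nat_lit 4)), ((nat_lit 0x95095), (nat_lit 4)), ((nat_lit 0x21529528854a54a),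 (nat_lit 10)), ((nat_lit 0x9529528254a54a), (nat_lit 10))] (nat_lit 0x77f77e77d77c77b77a7797787775c67767757747737722f159e3e33b57717700900a80930ae),
.c (nat_lit 21) (nat_lit 0x5c01001010be00c604082f8051810302c005e3c02f310278f809f9c08e2e0e0b106181828be410606067e70217c80800c141020005d),
.i (nat_lit 3) (nat_lit 70) [((nat_lit 10), (nat_lit 1)), ((nat_lit 3), (nat_lit 1)), ((nat_lit 8), (nat_lit 1)), ((nat_lit 2), (nat_lit 1)), ((nat_lit 29), (nat_lit 1)), ((nat_lit 14), (nat_lit 1)), ((nat_lit 18), (nat_lit 1)), ((nat_lit 7), (nat_lit 1)), ((nat_lit 13), (nat_lit 1)), ((nat_lit 0), (nat_lit 0)), ((nat_lit 0x488488), (nat_lit 4)), ((nat_lit 31), (nat_lit 1)), ((nat_lit 0x595), (nat_lit 2)), ((nat_lit 0x34a34a), (nat_lit 4)), ((nat_lit 21), (nat_lit 1)), ((nat_lit 0x7c87c8), (nat_lit 4)), ((nat_lit 0x29654a595), (nat_lit 6)), ((nat_lit 0x74a35d34a), (nat_lit 6)), ((nat_lit 0x48d48d), (nat_lit 4)), ((nat_lit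 0x54a54a), (nat_lit 4)), ((nat_lit 0x38d38d), (nat_lit 4)), ((nat_lit 0x95095), (nat_lit 4)), ((nat_lit 0x21529528854a54a), (nat_lit 10)), ((nat_lit 0x9529528254a54a), (nat_lit 10))] (nat_lit 0x77f77e77d77c77b77a7797787775c67767757747737722f159e3e33b57717700900a80930ae),
.c (nat_lit 205) (nat_lit 0x205c1775e0a3af045d781e3500d75e058d402816c16ebc081a8048e782173c100ec090400503b0190040a21402001018be0106040a2f8061810382c009e3c04f350678f829f9c10106067e70204182200c18ffe120ed077998302041574e08717035d382bc3c3073e163510f040871c5c3573618b970a799848e7c206a214b9b095cb83bccc3473e183510b0408982c448606227e71019687bc7c386061a7e70c19685bc7c28fce123030817c838c0c181060a7e704041818be40800608803063ff839ffc181021071706799849ffc20102140ed0879983131c1574e08717035d38101740de1e1439f091a885ae6c2972e10f33071cf830d44217360eb9705799858e7c286a2120810e1cf868d44301021a39f0c1a88802043ce2e1cb9b0d5cb85bccc2873e123510b5cd852e5c21e660e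0810602e8282042073e0e35106040883ccc3c73e1c3510d040872e6c3572e187170b5cd852e5c21e660e39f061a8842e6c1d72e0af330b1cf850d44241022239f101a88a02044ce2e24b9b115cb87bccc3873e1a3510c04086ae6c3172e167170a5cd84ae5c20e2e0a4c7045d3819c5c0974e08f0f0b1cf850d443173616b9709799840e7c1c6a212b9b085cb833ccc3073e163510a040878e7c386a21a081141cf898d447c1023c0ed1d05b8e02c46c102340ed1905b8c02c45c1022c0ed1505b8a02c44c102240ed1105b8802c43c1da1c0b70d0588603b42c16e140b109076840204040ba00063),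
.i (nat_lit 3) (nat_lit 94) [((nat_lit 10), (nat_lit 1)), ((nat_lit 3), (nat_lit 1)), ((nat_lit 8), (nat_lit 1)), ((nat_lit 2), (nat_lit 1)), ((nat_lit 29), (nat_lit 1)), ((nat_lit 14), (nat_lit 1)), ((nat_lit 18), (nat_lit 1)), ((nat_lit 7), (nat_lit 1)), ((nat_lit 13), (nat_lit 1)), ((nat_lit 0), (nat_lit 0)), ((nat_lit 0x488488), (nat_lit 4)), ((nat_lit 31), (nat_lit 1)), ((nat_lit 0x595), (nat_lit 2)), ((nat_lit 0x34a34a), (nat_lit 4)), ((nat_lit 21), (nat_lit 1)), ((nat_lit 0x7c87c8), (nat_lit 4)), ((nat_lit 0x29654a595), (nat_lit 6)), ((nat_lit 0x74a35d34a), (nat_lit 6)), ((nat_lit 0x48d48d), (nat_lit 4)), ((nat_lit 0x54a54a), (nat_lit 4)), ((nat_lit 0x38d38d), (nat_lit 4)), ((nat_lit 0x95095), (nat_lit 4)), ((nat_lit 0x21529528854a54a), (nat_lit 10)), ((nat_lit 0x9529528254a54a), (nat_lit 10))] (nat_lit 0x77f77e77d77c77b77a7797787775c67767757747737722f159e3e33b57717700900a80930ae),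
.c (nat_lit 5) (nat_lit 0x6e0179c809124141620006f),
.i (nat_lit 3) (nat_lit 110) [((nat_lit 10), (nat_lit 1)), ((nat_lit 3), (nat_lit 1)), ((nat_lit 8), (nat_lit 1)), ((nat_lit 2), (nat_lit 1)), ((nat_lit 29), (nat_lit 1)), ((nat_lit 14), (nat_lit 1)), ((nat_lit 18), (nat_lit 1)), ((nat_lit 7), (nat_lit 1)), ((nat_lit 13), (nat_lit 1)), ((nat_lit 0), (nat_lit 0)), ((nat_lit 0x488488), (nat_lit 4)), ((nat_lit 31), (nat_lit 1)), ((nat_lit 0x595), (nat_lit 2)), ((nat_lit 0x34a34a), (nat_lit 4)), ((nat_lit 21), (nat_lit 1)), ((nat_lit 0x7c87c8), (nat_lit 4)), ((nat_lit 0x29654a595), (nat_lit 6)), ((nat_lit 0x74a35d34a), (nat_lit 6)), ((nat_lit 0x48d48d), (nat_lit 4)), ((nat_lit 0x54a54a), (nat_lit 4)), ((nat_lit 0x38d38d), (nat_lit 4)), ((nat_lit 0x95095), (nat_lit 4)), ((nat_lit 0x21529528854a54a), (nat_lit 10)), ((nat_lit 0x9529528254a54a), (nat_lit 10))] (nat_lit 0x77f77e77d77c77b77a7797787775c67767757747737722f159e3e33b57717700900a80930ae),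
.c (nat_lit 1) (nat_lit 0xf3d),
.i (nat_lit 3) (nat_lit 136) [((nat_lit 10), (nat_lit 1)), ((nat_lit 3), (nat_lit 1)), ((nat_lit 8), (nat_lit 1)), ((nat_lit 2), (nat_lit 1)), ((nat_lit 29), (nat_lit 1)), ((nat_lit 14), (nat_lit 1)), ((nat_lit 18), (nat_lit 1)), ((nat_lit 7), (nat_lit 1)), ((nat_lit 13), (nat_lit 1)), ((nat_lit 0), (nat_lit 0)), ((nat_lit 0x488488), (nat_lit 4)), ((nat_lit 31), (nat_lit 1)), ((nat_lit 0x595), (nat_lit 2)), ((nat_lit 0x34a34a), (nat_lit 4)), ((nat_lit 21), (nat_lit 1)), ((nat_lit 0x7c87c8), (nat_lit 4)), ((nat_lit 0x29654a595), (nat_lit 6)), ((nat_lit 0x74a35d34a), (nat_lit 6)), ((nat_lit 0x48d48d), (nat_lit 4)), ((nat_lit 0x54a54a), (nat_lit 4)), ((nat_lit 0x38d38d), (nat_lit 4)), ((nat_lit 0x95095), (nat_lit 4)), ((nat_lit 0x21529528854a54a), (nat_lit 10)), ((nat_lit 0x9529528254a54a), (nat_lit 10))] (nat_lit 0x77f77e77d77c77b77a7797787775c67767757747737722f159e3e33b57717700900a80930ae),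
.c (nat_lit 4) (nat_lit 0x304f020d9001e800809f),
.i (nat_lit 3) (nat_lit 150) [((nat_lit 10), (nat_lit 1)), ((nat_lit 3), (nat_lit 1)), ((nat_lit 8), (nat_lit 1)), ((nat_lit 2), (nat_lit 1)), ((nat_lit 29), (nat_lit 1)), ((nat_lit 14), (nat_lit 1)), ((nat_lit 18), (nat_lit 1)), ((nat_lit 7), (nat_lit 1)), ((nat_lit 13), (nat_lit 1)), ((nat_lit 0), (nat_lit 0)), ((nat_lit 0x488488), (nat_lit 4)), ((nat_lit 31), (nat_lit 1)), ((nat_lit 0x595), (nat_lit 2)), ((nat_lit 0x34a34a), (nat_lit 4)), ((nat_lit 21), (nat_lit 1)), ((nat_lit 0x7c87c8), (nat_lit 4)), ((nat_lit 0x29654a595), (nat_lit 6)), ((nat_lit 0x74a35d34a), (nat_lit 6)), ((nat_lit 0x48d48d), (nat_lit 4)), ((nat_lit 0x54a54a), (nat_lit 4)), ((nat_lit 0x38d38d), (nat_lit 4)), ((nat_lit 0x95095), (nat_lit 4)), ((nat_lit 0x21529528854a54a), (nat_lit 10)), ((nat_lit 0x9529528254a54a), (nat_lit 10))] (nat_lit 0x77f77e77d77c77b77a7797787775c67767757747737722f159e3e33b57717700900a80930ae),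
.c (nat_lit 5) (nat_lit 0xa086017a2020e4c1410e00081),
.i (nat_lit 3) (nat_lit 154) [((nat_lit 10), (nat_lit 1)), ((nat_lit 3), (nat_lit 1)), ((nat_lit 8), (nat_lit 1)), ((nat_lit 2), (nat_lit 1)), ((nat_lit 29), (nat_lit 1)), ((nat_lit 14), (nat_lit 1)), ((nat_lit 18), (nat_lit 1)), ((nat_lit 7), (nat_lit 1)), ((nat_lit 13), (nat_lit 1)), ((nat_lit 0), (nat_lit 0)), ((nat_lit 0x488488), (nat_lit 4)), ((nat_lit 31), (nat_lit 1)), ((nat_lit 0x595), (nat_lit 2)), ((nat_lit 0x34a34a), (nat_lit 4)), ((nat_lit 21), (nat_lit 1)), ((nat_lit 0x7c87c8), (nat_lit 4)), ((nat_lit 0x29654a595), (nat_lit 6)), ((nat_lit 0x74a35d34a), (nat_lit 6)), ((nat_lit 0x48d48d), (nat_lit 4)), ((nat_lit 0x54a54a), (nat_lit 4)), ((nat_lit 0x38d38d), (nat_lit 4)), ((nat_lit 0x95095), (nat_lit 4)), ((nat_lit 0x21529528854a54a), (nat_lit 10)), ((nat_lit 0x9529528254a54a), (nat_lit 10))] (nat_lit 0x77f77e77d77c77b77a7797787775c67767757747737722f159e3e33b57717700900a80930ae),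
.c (nat_lit 5) (nat_lit 0x62017a48088841413e00063),
.i (nat_lit 3) (nat_lit 157) [((nat_lit 10), (nat_lit 1)), ((nat_lit 3), (nat_lit 1)), ((nat_lit 8), (nat_lit 1)), ((nat_lit 2), (nat_lit 1)), ((nat_lit 29), (nat_lit 1)), ((nat_lit 14), (nat_lit 1)), ((nat_lit 18), (nat_lit 1)), ((nat_lit 7), (nat_lit 1)), ((nat_lit 13), (nat_lit 1)), ((nat_lit 0), (nat_lit 0)), ((nat_lit 0x488488), (nat_lit 4)), ((nat_lit 31), (nat_lit 1)), ((nat_lit 0x595), (nat_lit 2)), ((nat_lit 0x34a34a), (nat_lit 4)), ((nat_lit 21), (nat_lit 1)), ((nat_lit 0x7c87c8), (nat_lit 4)), ((nat_lit 0x29654a595), (nat_lit 6)), ((nat_lit 0x74a35d34a), (nat_lit 6)), ((nat_lit 0x48d48d), (nat_lit 4)), ((nat_lit 0x54a54a), (nat_lit 4)), ((nat_lit 0x38d38d), (nat_lit 4)), ((nat_lit 0x95095), (nat_lit 4)), ((nat_lit 0x21529528854a54a), (nat_lit 10)), ((nat_lit 0x9529528254a54a), (nat_lit 10))] (nat_lit 0x77f77e77d77c77b77a7797787775c67767757747737722f159e3e33b57717700900a80930ae),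
.c (nat_lit 47) (nat_lit 0x2e78080dc060b6040580281b81816c0e0b00803104bd30389ee1a3e50c1b48593dc287ca123690e1a885906c281021a3990c043860d442c102163990a043890d443c8361c0810d242888e644010e203510f040878e643890a1a0870d78b8a83845016e10063070588302dc140de080b10305b8101bc04162000b7),
.c (nat_lit 3) (nat_lit 0x38000000023ee),
.c (nat_lit 1) (nat_lit 763),
.c (nat_lit 7) (nat_lit 0xb6b4087de0208f000008103840468200069),
.c (nat_lit 0) (nat_lit 0),
.c (nat_lit 7) (nat_lit 0x9d04087de0205900000810384043b600005),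
.c (nat_lit 0) (nat_lit 0),
.c (nat_lit 0) (nat_lit 0),
.c (nat_lit 0) (nat_lit 0),
.c (nat_lit 0) (nat_lit 0),
.c (nat_lit 0) (nat_lit 0),
.c (nat_lit 0) (nat_lit 0),
.c (nat_lit 0) (nat_lit 0),
.c (nat_lit 0) (nat_lit 0),
.c (nat_lit 0) (nat_lit 0),
.i (nat_lit 3) (nat_lit 1) [((nat_lit 9), (nat_lit 1)), ((nat_lit 2), (nat_lit 1)), ((nat_lit 3), (nat_lit 1)), ((nat_lit 0x741), (nat_lit 2)), ((nat_lit 16), (nat_lit 1)), ((nat_lit 7), (nat_lit 1)), ((nat_lit 15), (nat_lit 1)), ((nat_lit 0x9d042741), (nat_lit 6)), ((nat_lit 6), (nat_lit 1)), ((nat_lit 0x81f), (nat_lit 2)), ((nat_lit 24), (nat_lit 1)), ((nat_lit 0x24274109d04909d042741), (nat_lit 14)), ((nat_lit 0xc274109d04309d042741), (nat_lit 14)), ((nat_lit 0x698), (nat_lit 2)), ((nat_lit 11), (nat_lit 1)), ((nat_lit 0xc909d04274124274109d04324274109d04909d042741), (nat_lit 30)), ((nat_lit 0x24309d0427410c274109d0490c274109d04309d042741), (nat_lit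 30)), ((nat_lit 0x406406), (nat_lit 4)), ((nat_lit 0x741698741698), (nat_lit 8)), ((nat_lit 0x2c92c9), (nat_lit 4)), ((nat_lit 0xcb0cb), (nat_lit 4)), ((nat_lit 0x7412dd04b), (nat_lit 6)), ((nat_lit 0xcb24b2432c92c9), (nat_lit 10)), ((nat_lit 0x7412c92c97412c92c9), (nat_lit 12))] (nat_lit 0x7b57b47b37b24bf7b16927b07af4035e77ae7ad58640c7ac7ab7aa3d23b87a97a80930900ab),
.c (nat_lit 8) (nat_lit 0x103401000011b5806f6d03047810004040d20008d),
.i (nat_lit 3) (nat_lit 41) [((nat_lit 9), (nat_lit 1)), ((nat_lit 2), (nat_lit 1)), ((nat_lit 3), (nat_lit 1)), ((nat_lit 0x741), (nat_lit 2)), ((nat_lit 16), (nat_lit 1)), ((nat_lit 7), (nat_lit 1)), ((nat_lit 15), (nat_lit 1)), ((nat_lit 0x9d042741), (nat_lit 6)), ((nat_lit 6), (nat_lit 1)), ((nat_lit 0x81f), (nat_lit 2)), ((nat_lit 24), (nat_lit 1)), ((nat_lit 0x24274109d04909d042741), (nat_lit 14)), ((nat_lit 0xc274109d04309d042741), (nat_lit 14)), ((nat_lit 0x698),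 (nat_lit 2)), ((nat_lit 11), (nat_lit 1)), ((nat_lit 0xc909d04274124274109d04324274109d04909d042741), (nat_lit 30)), ((nat_lit 0x24309d0427410c274109d0490c274109d04309d042741), (nat_lit 30)), ((nat_lit 0x406406), (nat_lit 4)), ((nat_lit 0x741698741698), (nat_lit 8)), ((nat_lit 0x2c92c9), (nat_lit 4)), ((nat_lit 0xcb0cb), (nat_lit 4)), ((nat_lit 0x7412dd04b), (nat_lit 6)), ((nat_lit 0xcb24b2432c92c9), (nat_lit 10)), ((nat_lit 0x7412c92c97412c92c9), (nat_lit 12))] (nat_lit 0x7b57b47b37b24bf7b16927b07af4035e77ae7ad58640c7ac7ab7aa3d23b87a97a80930900ab),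
.c (nat_lit 40) (nat_lit 0x1001090d58386a81e35608067048dd0240e808b7a0404902ac48141180c3560604903ac48101180a42e081ab01a698106b404f700307f812694541fa280cf1302e8902f4440ba200c30f02e8702f4341861808d0b02e85030c2411a1005d0705e8301740400600005),
.i (nat_lit 3) (nat_lit 87) [((nat_lit 9), (nat_lit 1)), ((nat_lit 2), (nat_lit 1)), ((nat_lit 3), (nat_lit 1)), ((nat_lit 0x741), (nat_lit 2)), ((nat_lit 16), (nat_lit 1)), ((nat_lit 7), (nat_lit 1)), ((nat_lit 15), (nat_lit 1)), ((nat_lit 0x9d042741), (nat_lit 6)), ((nat_lit 6), (nat_lit 1)), ((nat_lit 0x81f), (nat_lit 2)), ((nat_lit 24), (nat_lit 1)), ((nat_lit 0x24274109d04909d042741), (nat_lit 14)), ((nat_lit 0xc274109d04309d042741), (nat_lit 14)), ((nat_lit 0x698), (nat_lit 2)), ((nat_lit 11), (nat_lit 1)), ((nat_lit 0xc909d04274124274109d04324274109d04909d042741), (nat_lit 30)), ((nat_lit 0x24309d0427410c274109d0490c274109d04309d042741), (nat_lit 30)), ((nat_lit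 0x406406), (nat_lit 4)), ((nat_lit 0x741698741698), (nat_lit 8)), ((nat_lit 0x2c92c9), (nat_lit 4)), ((nat_lit 0xcb0cb), (nat_lit 4)), ((nat_lit 0x7412dd04b), (nat_lit 6)), ((nat_lit 0xcb24b2432c92c9), (nat_lit 10)), ((nat_lit 0x7412c92c97412c92c9), (nat_lit 12))] (nat_lit 0x7b57b47b37b24bf7b16927b07af4035e77ae7ad58640c7ac7ab7aa3d23b87a97a80930900ab),
.c (nat_lit 5) (nat_lit 0x56017ba8087f41412600057),
.i (nat_lit 3) (nat_lit 89) [((nat_lit 9), (nat_lit 1)), ((nat_lit 2), (nat_lit 1)), ((nat_lit 3), (nat_lit 1)), ((nat_lit 0x741), (nat_lit 2)), ((nat_lit 16), (nat_lit 1)), ((nat_lit 7), (nat_lit 1)), ((nat_lit 15), (nat_lit 1)), ((nat_lit 0x9d042741), (nat_lit 6)), ((nat_lit 6), (nat_lit 1)), ((nat_lit 0x81f), (nat_lit 2)), ((nat_lit 24), (nat_lit 1)), ((nat_lit 0x24274109d04909d042741), (nat_lit 14)), ((nat_lit 0xc274109d04309d042741), (nat_lit 14)), ((nat_lit 0x698), (nat_lit 2)), ((nat_lit 11),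 (nat_lit 1)), ((nat_lit 0xc909d04274124274109d04324274109d04909d042741), (nat_lit 30)), ((nat_lit 0x24309d0427410c274109d0490c274109d04309d042741), (nat_lit 30)), ((nat_lit 0x406406), (nat_lit 4)), ((nat_lit 0x741698741698), (nat_lit 8)), ((nat_lit 0x2c92c9), (nat_lit 4)), ((nat_lit 0xcb0cb), (nat_lit 4)), ((nat_lit 0x7412dd04b), (nat_lit 6)), ((nat_lit 0xcb24b2432c92c9), (nat_lit 10)), ((nat_lit 0x7412c92c97412c92c9), (nat_lit 12))] (nat_lit 0x7b57b47b37b24bf7b16927b07af4035e77ae7ad58640c7ac7ab7aa3d23b87a97a80930900ab),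
.c (nat_lit 1) (nat_lit 0xf79),
.i (nat_lit 3) (nat_lit 103) [((nat_lit 9), (nat_lit 1)), ((nat_lit 2), (nat_lit 1)), ((nat_lit 3), (nat_lit 1)), ((nat_lit 0x741), (nat_lit 2)), ((nat_lit 16), (nat_lit 1)), ((nat_lit 7), (nat_lit 1)), ((nat_lit 15), (nat_lit 1)), ((nat_lit 0x9d042741), (nat_lit 6)), ((nat_lit 6), (nat_lit 1)), ((nat_lit 0x81f), (nat_lit 2)), ((nat_lit 24), (nat_lit 1)), ((nat_lit 0x24274109d04909d042741), (nat_lit 14)), ((nat_lit 0xc274109d04309d042741), (nat_lit 14)), ((nat_lit 0x698), (nat_lit 2)), ((nat_lit 11), (nat_lit 1)), ((nat_lit 0xc909d04274124274109d04324274109d04909d042741), (nat_lit 30)), ((nat_lit 0x24309d0427410c274109d0490c274109d04309d042741), (nat_lit 30)), ((nat_lit 0x406406), (nat_lit 4)), ((nat_lit 0x741698741698), (nat_lit 8)), ((nat_lit 0x2c92c9), (nat_lit 4)), ((nat_lit 0xcb0cb), (nat_lit 4)), ((nat_lit 0x7412dd04b), (nat_lit 6)), ((nat_lit 0xcb24b2432c92c9),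 (nat_lit 10)), ((nat_lit 0x7412c92c97412c92c9), (nat_lit 12))] (nat_lit 0x7b57b47b37b24bf7b16927b07af4035e77ae7ad58640c7ac7ab7aa3d23b87a97a80930900ab),
.c (nat_lit 8) (nat_lit 0x10610203c809efa06ec90273a8303cc04186000cf),
.i (nat_lit 3) (nat_lit 117) [((nat_lit 9), (nat_lit 1)), ((nat_lit 2), (nat_lit 1)), ((nat_lit 3), (nat_lit 1)), ((nat_lit 0x741), (nat_lit 2)), ((nat_lit 16), (nat_lit 1)), ((nat_lit 7), (nat_lit 1)), ((nat_lit 15), (nat_lit 1)), ((nat_lit 0x9d042741), (nat_lit 6)), ((nat_lit 6), (nat_lit 1)), ((nat_lit 0x81f), (nat_lit 2)), ((nat_lit 24), (nat_lit 1)), ((nat_lit 0x24274109d04909d042741), (nat_lit 14)), ((nat_lit 0xc274109d04309d042741), (nat_lit 14)), ((nat_lit 0x698), (nat_lit 2)), ((nat_lit 11), (nat_lit 1)), ((nat_lit 0xc909d04274124274109d04324274109d04909d042741), (nat_lit 30)), ((nat_lit 0x24309d0427410c274109d0490c274109d04309d042741), (nat_lit 30)), ((nat_lit 0x406406),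 (nat_lit 4)), ((nat_lit 0x741698741698), (nat_lit 8)), ((nat_lit 0x2c92c9), (nat_lit 4)), ((nat_lit 0xcb0cb), (nat_lit 4)), ((nat_lit 0x7412dd04b), (nat_lit 6)), ((nat_lit 0xcb24b2432c92c9), (nat_lit 10)), ((nat_lit 0x7412c92c97412c92c9), (nat_lit 12))] (nat_lit 0x7b57b47b37b24bf7b16927b07af4035e77ae7ad58640c7ac7ab7aa3d23b87a97a80930900ab),
.c (nat_lit 5) (nat_lit 0x68017c0808d04140ea00069),
.i (nat_lit 3) (nat_lit 130) [((nat_lit 9), (nat_lit 1)), ((nat_lit 2), (nat_lit 1)), ((nat_lit 3), (nat_lit 1)), ((nat_lit 0x741), (nat_lit 2)), ((nat_lit 16), (nat_lit 1)), ((nat_lit 7), (nat_lit 1)), ((nat_lit 15), (nat_lit 1)), ((nat_lit 0x9d042741), (nat_lit 6)), ((nat_lit 6), (nat_lit 1)), ((nat_lit 0x81f), (nat_lit 2)), ((nat_lit 24), (nat_lit 1)), ((nat_lit 0x24274109d04909d042741), (nat_lit 14)), ((nat_lit 0xc274109d04309d042741), (nat_lit 14)), ((nat_lit 0x698), (nat_lit 2)), ((nat_lit 11), (nat_lit 1)),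 ((nat_lit 0xc909d04274124274109d04324274109d04909d042741), (nat_lit 30)), ((nat_lit 0x24309d0427410c274109d0490c274109d04309d042741), (nat_lit 30)), ((nat_lit 0x406406), (nat_lit 4)), ((nat_lit 0x741698741698), (nat_lit 8)), ((nat_lit 0x2c92c9), (nat_lit 4)), ((nat_lit 0xcb0cb), (nat_lit 4)), ((nat_lit 0x7412dd04b), (nat_lit 6)), ((nat_lit 0xcb24b2432c92c9), (nat_lit 10)), ((nat_lit 0x7412c92c97412c92c9), (nat_lit 12))] (nat_lit 0x7b57b47b37b24bf7b16927b07af4035e77ae7ad58640c7ac7ab7aa3d23b87a97a80930900ab),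
.c (nat_lit 6) (nat_lit 0x418404b76007c2802f340c19e040c3),
.i (nat_lit 3) (nat_lit 147) [((nat_lit 9), (nat_lit 1)), ((nat_lit 2), (nat_lit 1)), ((nat_lit 3), (nat_lit 1)), ((nat_lit 0x741), (nat_lit 2)), ((nat_lit 16), (nat_lit 1)), ((nat_lit 7), (nat_lit 1)), ((nat_lit 15), (nat_lit 1)), ((nat_lit 0x9d042741), (nat_lit 6)), ((nat_lit 6), (nat_lit 1)), ((nat_lit 0x81f), (nat_lit 2)), ((nat_lit 24), (nat_lit 1)), ((nat_lit 0x24274109d04909d042741), (nat_lit 14)), ((nat_lit 0xc274109d04309d042741), (nat_lit 14)), ((nat_lit 0x698), (nat_lit 2)), ((nat_lit 11), (nat_lit 1)), ((nat_lit 0xc909d04274124274109d04324274109d04909d042741), (nat_lit 30)), ((nat_lit 0x24309d0427410c274109d0490c274109d04309d042741), (nat_lit 30)), ((nat_lit 0x406406), (nat_lit 4)), ((nat_lit 0x741698741698), (nat_lit 8)), ((nat_lit 0x2c92c9), (nat_lit 4)), ((nat_lit 0xcb0cb), (nat_lit 4)), ((nat_lit 0x7412dd04b), (nat_lit 6)),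 ((nat_lit 0xcb24b2432c92c9), (nat_lit 10)), ((nat_lit 0x7412c92c97412c92c9), (nat_lit 12))] (nat_lit 0x7b57b47b37b24bf7b16927b07af4035e77ae7ad58640c7ac7ab7aa3d23b87a97a80930900ab),
.c (nat_lit 4) (nat_lit 0x2079003e2005b6a040f3),
.i (nat_lit 3) (nat_lit 149) [((nat_lit 9), (nat_lit 1)), ((nat_lit 2), (nat_lit 1)), ((nat_lit 3), (nat_lit 1)), ((nat_lit 0x741), (nat_lit 2)), ((nat_lit 16), (nat_lit 1)), ((nat_lit 7), (nat_lit 1)), ((nat_lit 15), (nat_lit 1)), ((nat_lit 0x9d042741), (nat_lit 6)), ((nat_lit 6), (nat_lit 1)), ((nat_lit 0x81f), (nat_lit 2)), ((nat_lit 24), (nat_lit 1)), ((nat_lit 0x24274109d04909d042741), (nat_lit 14)), ((nat_lit 0xc274109d04309d042741), (nat_lit 14)), ((nat_lit 0x698), (nat_lit 2)), ((nat_lit 11), (nat_lit 1)), ((nat_lit 0xc909d04274124274109d04324274109d04909d042741), (nat_lit 30)), ((nat_lit 0x24309d0427410c274109d0490c274109d04309d042741), (nat_lit 30)), ((nat_lit 0x406406),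 (nat_lit 4)), ((nat_lit 0x741698741698), (nat_lit 8)), ((nat_lit 0x2c92c9), (nat_lit 4)), ((nat_lit 0xcb0cb), (nat_lit 4)), ((nat_lit 0x7412dd04b), (nat_lit 6)), ((nat_lit 0xcb24b2432c92c9), (nat_lit 10)), ((nat_lit 0x7412c92c97412c92c9), (nat_lit 12))] (nat_lit 0x7b57b47b37b24bf7b16927b07af4035e77ae7ad58640c7ac7ab7aa3d23b87a97a80930900ab),
.c (nat_lit 47) (nat_lit 0x24805eec040560300107165029a2416594093f50503c821ef410092093f505122024fa808f8c073f28301dc14fca0807709754853b3c45b1a240cf111c9880e743c68a1c3930d1ce860d142c7261406f100438a03cc4c1da240931103a8803cc3c1261c0990d04386024c2c132140870300181015c040ea00093),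
.i (nat_lit 3) (nat_lit 154) [((nat_lit 9), (nat_lit 1)), ((nat_lit 2), (nat_lit 1)), ((nat_lit 3), (nat_lit 1)), ((nat_lit 0x741), (nat_lit 2)), ((nat_lit 16), (nat_lit 1)), ((nat_lit 7), (nat_lit 1)), ((nat_lit 15), (nat_lit 1)), ((nat_lit 0x9d042741), (nat_lit 6)), ((nat_lit 6), (nat_lit 1)), ((nat_lit 0x81f), (nat_lit 2)), ((nat_lit 24), (nat_lit 1)), ((nat_lit 0x24274109d04909d042741), (nat_lit 14)), ((nat_lit 0xc274109d04309d042741), (nat_lit 14)), ((nat_lit 0x698), (nat_lit 2)), ((nat_lit 11), (nat_lit 1)), ((nat_lit 0xc909d04274124274109d04324274109d04909d042741), (nat_lit 30)), ((nat_lit 0x24309d0427410c274109d0490c274109d04309d042741), (nat_lit 30)), ((nat_lit 0x406406), (nat_lit 4)), ((nat_lit 0x741698741698), (nat_lit 8)), ((nat_lit 0x2c92c9), (nat_lit 4)), ((nat_lit 0xcb0cb), (nat_lit 4)), ((nat_lit 0x7412dd04b), (nat_lit 6)), ((nat_lit 0xcb24b2432c92c9), (nat_lit 10)), ((nat_lit 0x7412c92c97412c92c9),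 (nat_lit 12))] (nat_lit 0x7b57b47b37b24bf7b16927b07af4035e77ae7ad58640c7ac7ab7aa3d23b87a97a80930900ab),
.c (nat_lit 1) (nat_lit 0xf90),
.c (nat_lit 1) (nat_lit 755),
.c (nat_lit 13) (nat_lit 0x20c500059830314141660899703062810fa404166000050105881030c04b2600081),
.c (nat_lit 16) (nat_lit 0x46a81a32c089560206f051ae8122bc04132086870304f818d7408132046870104f8112540491a00051),
.c (nat_lit 2) (nat_lit 0x42160a10b),
.c (nat_lit 7) (nat_lit 0x22ec111760609f0245d8012640d15e0c09f),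
.c (nat_lit 5) (nat_lit 0xdd021af80826404e9200005),
.c (nat_lit 5) (nat_lit 0xe3021b08082640479a00007),
.c (nat_lit 0) (nat_lit 0),
.c (nat_lit 0) (nat_lit 0),
.i (nat_lit 3) (nat_lit 4) [((nat_lit 5), (nat_lit 1)), ((nat_lit 1), (nat_lit 1)), ((nat_lit 3), (nat_lit 1)), ((nat_lit 4), (nat_lit 1)), ((nat_lit 0x143143), (nat_lit 4)), ((nat_lit 6), (nat_lit 1)), ((nat_lit 973), (nat_lit 2)), ((nat_lit 8), (nat_lit 1)), ((nat_lit 10), (nat_lit 1)), ((nat_lit 0x146146), (nat_lit 4)), ((nat_lit 0x60f54f), (nat_lit 4)), ((nat_lit 0x657), (nat_lit 2)), ((nat_lit 14), (nat_lit 1)), ((nat_lit 0x79b), (nat_lit 2)), ((nat_lit 17), (nat_lit 1)), ((nat_lit 0xd95c3657), (nat_lit 6)), ((nat_lit 0x385385), (nat_lit 4)), ((nat_lit 0x91e0db91e0db), (nat_lit 8)), ((nat_lit 0x11e6c479b), (nat_lit 6)), ((nat_lit 0x452445485), (nat_lit 6)), ((nat_lit 28), (nat_lit 1)), ((nat_lit 29), (nat_lit 1)), ((nat_lit 0xd1491152143452445485),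 (nat_lit 14)), ((nat_lit 0x111491152144452445485), (nat_lit 14))] (nat_lit 0x7d27d17d07cf7ce6067cd4b24b330e7cc3b54b17cb63836234933530d6417ca09609308f09f),
.c (nat_lit 9) (nat_lit 0x208c021ab013e98146ae0808d070618302340411a000b1),
.i (nat_lit 3) (nat_lit 22) [((nat_lit 5), (nat_lit 1)), ((nat_lit 1), (nat_lit 1)), ((nat_lit 3), (nat_lit 1)), ((nat_lit 4), (nat_lit 1)), ((nat_lit 0x143143), (nat_lit 4)), ((nat_lit 6), (nat_lit 1)), ((nat_lit 973), (nat_lit 2)), ((nat_lit 8), (nat_lit 1)), ((nat_lit 10), (nat_lit 1)), ((nat_lit 0x146146), (nat_lit 4)), ((nat_lit 0x60f54f), (nat_lit 4)), ((nat_lit 0x657), (nat_lit 2)), ((nat_lit 14), (nat_lit 1)), ((nat_lit 0x79b), (nat_lit 2)), ((nat_lit 17), (nat_lit 1)), ((nat_lit 0xd95c3657), (nat_lit 6)), ((nat_lit 0x385385), (nat_lit 4)), ((nat_lit 0x91e0db91e0db), (nat_lit 8)), ((nat_lit 0x11e6c479b), (nat_lit 6)), ((nat_lit 0x452445485), (nat_lit 6)), ((nat_lit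 28), (nat_lit 1)), ((nat_lit 29), (nat_lit 1)), ((nat_lit 0xd1491152143452445485), (nat_lit 14)), ((nat_lit 0x111491152144452445485), (nat_lit 14))] (nat_lit 0x7d27d17d07cf7ce6067cd4b24b330e7cc3b54b17cb63836234933530d6417ca09609308f09f),
.c (nat_lit 11) (nat_lit 0x1648046a00459205046030d581011806faa08046810234041620008d),
.i (nat_lit 3) (nat_lit 68) [((nat_lit 5), (nat_lit 1)), ((nat_lit 1), (nat_lit 1)), ((nat_lit 3), (nat_lit 1)), ((nat_lit 4), (nat_lit 1)), ((nat_lit 0x143143), (nat_lit 4)), ((nat_lit 6), (nat_lit 1)), ((nat_lit 973), (nat_lit 2)), ((nat_lit 8), (nat_lit 1)), ((nat_lit 10), (nat_lit 1)), ((nat_lit 0x146146), (nat_lit 4)), ((nat_lit 0x60f54f), (nat_lit 4)), ((nat_lit 0x657), (nat_lit 2)), ((nat_lit 14), (nat_lit 1)), ((nat_lit 0x79b), (nat_lit 2)), ((nat_lit 17), (nat_lit 1)), ((nat_lit 0xd95c3657), (nat_lit 6)), ((nat_lit 0x385385), (nat_lit 4)), ((nat_lit 0x91e0db91e0db), (nat_lit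 8)), ((nat_lit 0x11e6c479b), (nat_lit 6)), ((nat_lit 0x452445485), (nat_lit 6)), ((nat_lit 28), (nat_lit 1)), ((nat_lit 29), (nat_lit 1)), ((nat_lit 0xd1491152143452445485), (nat_lit 14)), ((nat_lit 0x111491152144452445485), (nat_lit 14))] (nat_lit 0x7d27d17d07cf7ce6067cd4b24b330e7cc3b54b17cb63836234933530d6417ca09609308f09f),
.c (nat_lit 6) (nat_lit 0x141300c360007d70302641413e08099),
.i (nat_lit 3) (nat_lit 69) [((nat_lit 5), (nat_lit 1)), ((nat_lit 1), (nat_lit 1)), ((nat_lit 3), (nat_lit 1)), ((nat_lit 4), (nat_lit 1)), ((nat_lit 0x143143), (nat_lit 4)), ((nat_lit 6), (nat_lit 1)), ((nat_lit 973), (nat_lit 2)), ((nat_lit 8), (nat_lit 1)), ((nat_lit 10), (nat_lit 1)), ((nat_lit 0x146146), (nat_lit 4)), ((nat_lit 0x60f54f), (nat_lit 4)), ((nat_lit 0x657), (nat_lit 2)), ((nat_lit 14), (nat_lit 1)), ((nat_lit 0x79b), (nat_lit 2)), ((nat_lit 17), (nat_lit 1)), ((nat_lit 0xd95c3657), (nat_lit 6)), ((nat_lit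 0x385385), (nat_lit 4)), ((nat_lit 0x91e0db91e0db), (nat_lit 8)), ((nat_lit 0x11e6c479b), (nat_lit 6)), ((nat_lit 0x452445485), (nat_lit 6)), ((nat_lit 28), (nat_lit 1)), ((nat_lit 29), (nat_lit 1)), ((nat_lit 0xd1491152143452445485), (nat_lit 14)), ((nat_lit 0x111491152144452445485), (nat_lit 14))] (nat_lit 0x7d27d17d07cf7ce6067cd4b24b330e7cc3b54b17cb63836234933530d6417ca09609308f09f)]

theorem c15 : chk db th.hy ths 2010 J15 1944 = true := by decide +kernel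

set_option maxRecDepth 100000 in
/-- Justifications. -/
noncomputable def J16 : List Js := [
.c (nat_lit 2) (nat_lit 0x1f64040c9),
.i (nat_lit 3) (nat_lit 71) [((nat_lit 5), (nat_lit 1)), ((nat_lit 1), (nat_lit 1)), ((nat_lit 3), (nat_lit 1)), ((nat_lit 4), (nat_lit 1)), ((nat_lit 0x143143), (nat_lit 4)), ((nat_lit 6), (nat_lit 1)), ((nat_lit 973), (nat_lit 2)), ((nat_lit 8), (nat_lit 1)), ((nat_lit 10), (nat_lit 1)), ((nat_lit 0x146146), (nat_lit 4)), ((nat_lit 0x60f54f), (nat_lit 4)), ((nat_lit 0x657), (nat_lit 2)), ((nat_lit 14), (nat_lit 1)), ((nat_lit 0x79b), (nat_lit 2)), ((nat_lit 17), (nat_lit 1)), ((nat_lit 0xd95c3657), (nat_lit 6)), ((nat_lit 0x385385), (nat_lit 4)), ((nat_lit 0x91e0db91e0db), (nat_lit 8)), ((nat_lit 0x11e6c479b), (nat_lit 6)), ((nat_lit 0x452445485), (nat_lit 6)), ((nat_lit 28), (nat_lit 1)), ((nat_lit 29), (nat_lit 1)), ((nat_lit 0xd1491152143452445485), (nat_lit 14)),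 ((nat_lit 0x111491152144452445485), (nat_lit 14))] (nat_lit 0x7d27d17d07cf7ce6067cd4b24b330e7cc3b54b17cb63836234933530d6417ca09609308f09f),
.c (nat_lit 6) (nat_lit 0x141300c35e007db0302641413e08099),
.i (nat_lit 3) (nat_lit 77) [((nat_lit 5), (nat_lit 1)), ((nat_lit 1), (nat_lit 1)), ((nat_lit 3), (nat_lit 1)), ((nat_lit 4), (nat_lit 1)), ((nat_lit 0x143143), (nat_lit 4)), ((nat_lit 6), (nat_lit 1)), ((nat_lit 973), (nat_lit 2)), ((nat_lit 8), (nat_lit 1)), ((nat_lit 10), (nat_lit 1)), ((nat_lit 0x146146), (nat_lit 4)), ((nat_lit 0x60f54f), (nat_lit 4)), ((nat_lit 0x657), (nat_lit 2)), ((nat_lit 14), (nat_lit 1)), ((nat_lit 0x79b), (nat_lit 2)), ((nat_lit 17), (nat_lit 1)), ((nat_lit 0xd95c3657), (nat_lit 6)), ((nat_lit 0x385385), (nat_lit 4)), ((nat_lit 0x91e0db91e0db), (nat_lit 8)), ((nat_lit 0x11e6c479b), (nat_lit 6)), ((nat_lit 0x452445485), (nat_lit 6)), ((nat_lit 28), (nat_lit 1)), ((nat_lit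 29), (nat_lit 1)), ((nat_lit 0xd1491152143452445485), (nat_lit 14)), ((nat_lit 0x111491152144452445485), (nat_lit 14))] (nat_lit 0x7d27d17d07cf7ce6067cd4b24b330e7cc3b54b17cb63836234933530d6417ca09609308f09f),
.c (nat_lit 5) (nat_lit 0xa0c2017dd823a8c141860008d),
.i (nat_lit 3) (nat_lit 78) [((nat_lit 5), (nat_lit 1)), ((nat_lit 1), (nat_lit 1)), ((nat_lit 3), (nat_lit 1)), ((nat_lit 4), (nat_lit 1)), ((nat_lit 0x143143), (nat_lit 4)), ((nat_lit 6), (nat_lit 1)), ((nat_lit 973), (nat_lit 2)), ((nat_lit 8), (nat_lit 1)), ((nat_lit 10), (nat_lit 1)), ((nat_lit 0x146146), (nat_lit 4)), ((nat_lit 0x60f54f), (nat_lit 4)), ((nat_lit 0x657), (nat_lit 2)), ((nat_lit 14), (nat_lit 1)), ((nat_lit 0x79b), (nat_lit 2)), ((nat_lit 17), (nat_lit 1)), ((nat_lit 0xd95c3657), (nat_lit 6)), ((nat_lit 0x385385), (nat_lit 4)), ((nat_lit 0x91e0db91e0db), (nat_lit 8)), ((nat_lit 0x11e6c479b), (nat_lit 6)), ((nat_lit 0x452445485),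 (nat_lit 6)), ((nat_lit 28), (nat_lit 1)), ((nat_lit 29), (nat_lit 1)), ((nat_lit 0xd1491152143452445485), (nat_lit 14)), ((nat_lit 0x111491152144452445485), (nat_lit 14))] (nat_lit 0x7d27d17d07cf7ce6067cd4b24b330e7cc3b54b17cb63836234933530d6417ca09609308f09f),
.c (nat_lit 14) (nat_lit 0x41600408c05046030d581dedc10356037df01bdbc11e9e120c30804681023404162000b7),
.i (nat_lit 3) (nat_lit 85) [((nat_lit 5), (nat_lit 1)), ((nat_lit 1), (nat_lit 1)), ((nat_lit 3), (nat_lit 1)), ((nat_lit 4), (nat_lit 1)), ((nat_lit 0x143143), (nat_lit 4)), ((nat_lit 6), (nat_lit 1)), ((nat_lit 973), (nat_lit 2)), ((nat_lit 8), (nat_lit 1)), ((nat_lit 10), (nat_lit 1)), ((nat_lit 0x146146), (nat_lit 4)), ((nat_lit 0x60f54f), (nat_lit 4)), ((nat_lit 0x657), (nat_lit 2)), ((nat_lit 14), (nat_lit 1)), ((nat_lit 0x79b), (nat_lit 2)), ((nat_lit 17), (nat_lit 1)), ((nat_lit 0xd95c3657), (nat_lit 6)), ((nat_lit 0x385385), (nat_lit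 4)), ((nat_lit 0x91e0db91e0db), (nat_lit 8)), ((nat_lit 0x11e6c479b), (nat_lit 6)), ((nat_lit 0x452445485), (nat_lit 6)), ((nat_lit 28), (nat_lit 1)), ((nat_lit 29), (nat_lit 1)), ((nat_lit 0xd1491152143452445485), (nat_lit 14)), ((nat_lit 0x111491152144452445485), (nat_lit 14))] (nat_lit 0x7d27d17d07cf7ce6067cd4b24b330e7cc3b54b17cb63836234933530d6417ca09609308f09f),
.c (nat_lit 10) (nat_lit 0x1180608c046c002030815ad002fc2016c082830c1011a0008d),
.i (nat_lit 3) (nat_lit 88) [((nat_lit 5), (nat_lit 1)), ((nat_lit 1), (nat_lit 1)), ((nat_lit 3), (nat_lit 1)), ((nat_lit 4), (nat_lit 1)), ((nat_lit 0x143143), (nat_lit 4)), ((nat_lit 6), (nat_lit 1)), ((nat_lit 973), (nat_lit 2)), ((nat_lit 8), (nat_lit 1)), ((nat_lit 10), (nat_lit 1)), ((nat_lit 0x146146), (nat_lit 4)), ((nat_lit 0x60f54f), (nat_lit 4)), ((nat_lit 0x657), (nat_lit 2)), ((nat_lit 14), (nat_lit 1)), ((nat_lit 0x79b), (nat_lit 2)), ((nat_lit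 17), (nat_lit 1)), ((nat_lit 0xd95c3657), (nat_lit 6)), ((nat_lit 0x385385), (nat_lit 4)), ((nat_lit 0x91e0db91e0db), (nat_lit 8)), ((nat_lit 0x11e6c479b), (nat_lit 6)), ((nat_lit 0x452445485), (nat_lit 6)), ((nat_lit 28), (nat_lit 1)), ((nat_lit 29), (nat_lit 1)), ((nat_lit 0xd1491152143452445485), (nat_lit 14)), ((nat_lit 0x111491152144452445485), (nat_lit 14))] (nat_lit 0x7d27d17d07cf7ce6067cd4b24b330e7cc3b54b17cb63836234933530d6417ca09609308f09f),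
.c (nat_lit 2) (nat_lit 0x1f8c040e7),
.i (nat_lit 3) (nat_lit 110) [((nat_lit 5), (nat_lit 1)), ((nat_lit 1), (nat_lit 1)), ((nat_lit 3), (nat_lit 1)), ((nat_lit 4), (nat_lit 1)), ((nat_lit 0x143143), (nat_lit 4)), ((nat_lit 6), (nat_lit 1)), ((nat_lit 973), (nat_lit 2)), ((nat_lit 8), (nat_lit 1)), ((nat_lit 10), (nat_lit 1)), ((nat_lit 0x146146), (nat_lit 4)), ((nat_lit 0x60f54f), (nat_lit 4)), ((nat_lit 0x657), (nat_lit 2)), ((nat_lit 14), (nat_lit 1)), ((nat_lit 0x79b), (nat_lit 2)), ((nat_lit 17), (nat_lit 1)), ((nat_lit 0xd95c3657), (nat_lit 6)), ((nat_lit 0x385385), (nat_lit 4)), ((nat_lit 0x91e0db91e0db), (nat_lit 8)), ((nat_lit 0x11e6c479b), (nat_lit 6)), ((nat_lit 0x452445485), (nat_lit 6)), ((nat_lit 28), (nat_lit 1)), ((nat_lit 29), (nat_lit 1)), ((nat_lit 0xd1491152143452445485), (nat_lit 14)), ((nat_lit 0x111491152144452445485), (nat_lit 14))] (nat_lit 0x7d27d17d07cf7ce6067cd4b24b330e7cc3b54b17cb63836234933530d6417ca09609308f09f),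
.c (nat_lit 4) (nat_lit 0x2064003f2c05ac2040c9),
.i (nat_lit 3) (nat_lit 112) [((nat_lit 5), (nat_lit 1)), ((nat_lit 1), (nat_lit 1)), ((nat_lit 3), (nat_lit 1)), ((nat_lit 4), (nat_lit 1)), ((nat_lit 0x143143), (nat_lit 4)), ((nat_lit 6), (nat_lit 1)), ((nat_lit 973), (nat_lit 2)), ((nat_lit 8), (nat_lit 1)), ((nat_lit 10), (nat_lit 1)), ((nat_lit 0x146146), (nat_lit 4)), ((nat_lit 0x60f54f), (nat_lit 4)), ((nat_lit 0x657), (nat_lit 2)), ((nat_lit 14), (nat_lit 1)), ((nat_lit 0x79b), (nat_lit 2)), ((nat_lit 17), (nat_lit 1)), ((nat_lit 0xd95c3657), (nat_lit 6)), ((nat_lit 0x385385), (nat_lit 4)), ((nat_lit 0x91e0db91e0db), (nat_lit 8)), ((nat_lit 0x11e6c479b), (nat_lit 6)), ((nat_lit 0x452445485), (nat_lit 6)), ((nat_lit 28), (nat_lit 1)), ((nat_lit 29), (nat_lit 1)), ((nat_lit 0xd1491152143452445485), (nat_lit 14)), ((nat_lit 0x111491152144452445485), (nat_lit 14))] (nat_lit 0x7d27d17d07cf7ce6067cd4b24b330e7cc3b54b17cb63836234933530d6417ca09609308f09f),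
.c (nat_lit 28) (nat_lit 0x28043f3025ac00ee2a086d203826021f9812d600836d0310c005f9e02733046d281b8ac14b9a0874f066b082bf341db4a0ce2b086b083bf3424192100bd0704c83027c1413200051),
.i (nat_lit 3) (nat_lit 113) [((nat_lit 5), (nat_lit 1)), ((nat_lit 1), (nat_lit 1)), ((nat_lit 3), (nat_lit 1)), ((nat_lit 4), (nat_lit 1)), ((nat_lit 0x143143), (nat_lit 4)), ((nat_lit 6), (nat_lit 1)), ((nat_lit 973), (nat_lit 2)), ((nat_lit 8), (nat_lit 1)), ((nat_lit 10), (nat_lit 1)), ((nat_lit 0x146146), (nat_lit 4)), ((nat_lit 0x60f54f), (nat_lit 4)), ((nat_lit 0x657), (nat_lit 2)), ((nat_lit 14), (nat_lit 1)), ((nat_lit 0x79b), (nat_lit 2)), ((nat_lit 17), (nat_lit 1)), ((nat_lit 0xd95c3657), (nat_lit 6)), ((nat_lit 0x385385), (nat_lit 4)), ((nat_lit 0x91e0db91e0db), (nat_lit 8)), ((nat_lit 0x11e6c479b), (nat_lit 6)), ((nat_lit 0x452445485), (nat_lit 6)), ((nat_lit 28), (nat_lit 1)), ((nat_lit 29), (nat_lit 1)), ((nat_lit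 0xd1491152143452445485), (nat_lit 14)), ((nat_lit 0x111491152144452445485), (nat_lit 14))] (nat_lit 0x7d27d17d07cf7ce6067cd4b24b330e7cc3b54b17cb63836234933530d6417ca09609308f09f),
.c (nat_lit 2) (nat_lit 0x1fa4040e7),
.i (nat_lit 3) (nat_lit 114) [((nat_lit 5), (nat_lit 1)), ((nat_lit 1), (nat_lit 1)), ((nat_lit 3), (nat_lit 1)), ((nat_lit 4), (nat_lit 1)), ((nat_lit 0x143143), (nat_lit 4)), ((nat_lit 6), (nat_lit 1)), ((nat_lit 973), (nat_lit 2)), ((nat_lit 8), (nat_lit 1)), ((nat_lit 10), (nat_lit 1)), ((nat_lit 0x146146), (nat_lit 4)), ((nat_lit 0x60f54f), (nat_lit 4)), ((nat_lit 0x657), (nat_lit 2)), ((nat_lit 14), (nat_lit 1)), ((nat_lit 0x79b), (nat_lit 2)), ((nat_lit 17), (nat_lit 1)), ((nat_lit 0xd95c3657), (nat_lit 6)), ((nat_lit 0x385385), (nat_lit 4)), ((nat_lit 0x91e0db91e0db), (nat_lit 8)), ((nat_lit 0x11e6c479b), (nat_lit 6)), ((nat_lit 0x452445485), (nat_lit 6)), ((nat_lit 28), (nat_lit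 1)), ((nat_lit 29), (nat_lit 1)), ((nat_lit 0xd1491152143452445485), (nat_lit 14)), ((nat_lit 0x111491152144452445485), (nat_lit 14))] (nat_lit 0x7d27d17d07cf7ce6067cd4b24b330e7cc3b54b17cb63836234933530d6417ca09609308f09f),
.c (nat_lit 4) (nat_lit 0x1046013db801fac0408d),
.i (nat_lit 3) (nat_lit 116) [((nat_lit 5), (nat_lit 1)), ((nat_lit 1), (nat_lit 1)), ((nat_lit 3), (nat_lit 1)), ((nat_lit 4), (nat_lit 1)), ((nat_lit 0x143143), (nat_lit 4)), ((nat_lit 6), (nat_lit 1)), ((nat_lit 973), (nat_lit 2)), ((nat_lit 8), (nat_lit 1)), ((nat_lit 10), (nat_lit 1)), ((nat_lit 0x146146), (nat_lit 4)), ((nat_lit 0x60f54f), (nat_lit 4)), ((nat_lit 0x657), (nat_lit 2)), ((nat_lit 14), (nat_lit 1)), ((nat_lit 0x79b), (nat_lit 2)), ((nat_lit 17), (nat_lit 1)), ((nat_lit 0xd95c3657), (nat_lit 6)), ((nat_lit 0x385385), (nat_lit 4)), ((nat_lit 0x91e0db91e0db), (nat_lit 8)), ((nat_lit 0x11e6c479b), (nat_lit 6)), ((nat_lit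 0x452445485), (nat_lit 6)), ((nat_lit 28), (nat_lit 1)), ((nat_lit 29), (nat_lit 1)), ((nat_lit 0xd1491152143452445485), (nat_lit 14)), ((nat_lit 0x111491152144452445485), (nat_lit 14))] (nat_lit 0x7d27d17d07cf7ce6067cd4b24b330e7cc3b54b17cb63836234933530d6417ca09609308f09f),
.c (nat_lit 6) (nat_lit 0xc1cc00fda0176a81386c0c1ce040c9),
.i (nat_lit 3) (nat_lit 117) [((nat_lit 5), (nat_lit 1)), ((nat_lit 1), (nat_lit 1)), ((nat_lit 3), (nat_lit 1)), ((nat_lit 4), (nat_lit 1)), ((nat_lit 0x143143), (nat_lit 4)), ((nat_lit 6), (nat_lit 1)), ((nat_lit 973), (nat_lit 2)), ((nat_lit 8), (nat_lit 1)), ((nat_lit 10), (nat_lit 1)), ((nat_lit 0x146146), (nat_lit 4)), ((nat_lit 0x60f54f), (nat_lit 4)), ((nat_lit 0x657), (nat_lit 2)), ((nat_lit 14), (nat_lit 1)), ((nat_lit 0x79b), (nat_lit 2)), ((nat_lit 17), (nat_lit 1)), ((nat_lit 0xd95c3657), (nat_lit 6)), ((nat_lit 0x385385), (nat_lit 4)), ((nat_lit 0x91e0db91e0db),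 (nat_lit 8)), ((nat_lit 0x11e6c479b), (nat_lit 6)), ((nat_lit 0x452445485), (nat_lit 6)), ((nat_lit 28), (nat_lit 1)), ((nat_lit 29), (nat_lit 1)), ((nat_lit 0xd1491152143452445485), (nat_lit 14)), ((nat_lit 0x111491152144452445485), (nat_lit 14))] (nat_lit 0x7d27d17d07cf7ce6067cd4b24b330e7cc3b54b17cb63836234933530d6417ca09609308f09f),
.c (nat_lit 18) (nat_lit 0x40a00409e030280722b83013c100e0077ec03bc9815c140ce8c0426b02934811fbc1608d0302881027c040a200099),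
.i (nat_lit 3) (nat_lit 120) [((nat_lit 5), (nat_lit 1)), ((nat_lit 1), (nat_lit 1)), ((nat_lit 3), (nat_lit 1)), ((nat_lit 4), (nat_lit 1)), ((nat_lit 0x143143), (nat_lit 4)), ((nat_lit 6), (nat_lit 1)), ((nat_lit 973), (nat_lit 2)), ((nat_lit 8), (nat_lit 1)), ((nat_lit 10), (nat_lit 1)), ((nat_lit 0x146146), (nat_lit 4)), ((nat_lit 0x60f54f), (nat_lit 4)), ((nat_lit 0x657), (nat_lit 2)), ((nat_lit 14), (nat_lit 1)), ((nat_lit 0x79b), (nat_lit 2)), ((nat_lit 17), (nat_lit 1)), ((nat_lit 0xd95c3657), (nat_lit 6)), ((nat_lit 0x385385), (nat_lit 4)), ((nat_lit 0x91e0db91e0db), (nat_lit 8)), ((nat_lit 0x11e6c479b), (nat_lit 6)), ((nat_lit 0x452445485), (nat_lit 6)), ((nat_lit 28), (nat_lit 1)), ((nat_lit 29), (nat_lit 1)), ((nat_lit 0xd1491152143452445485), (nat_lit 14)), ((nat_lit 0x111491152144452445485), (nat_lit 14))] (nat_lit 0x7d27d17d07cf7ce6067cd4b24b330e7cc3b54b17cb63836234933530d6417ca09609308f09f),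
.c (nat_lit 11) (nat_lit 0x583501910c0a48c0044300814009fc6064950224683821c040a2000d5),
.i (nat_lit 3) (nat_lit 121) [((nat_lit 5), (nat_lit 1)), ((nat_lit 1), (nat_lit 1)), ((nat_lit 3), (nat_lit 1)), ((nat_lit 4), (nat_lit 1)), ((nat_lit 0x143143), (nat_lit 4)), ((nat_lit 6), (nat_lit 1)), ((nat_lit 973), (nat_lit 2)), ((nat_lit 8), (nat_lit 1)), ((nat_lit 10), (nat_lit 1)), ((nat_lit 0x146146), (nat_lit 4)), ((nat_lit 0x60f54f), (nat_lit 4)), ((nat_lit 0x657), (nat_lit 2)), ((nat_lit 14), (nat_lit 1)), ((nat_lit 0x79b), (nat_lit 2)), ((nat_lit 17), (nat_lit 1)), ((nat_lit 0xd95c3657), (nat_lit 6)), ((nat_lit 0x385385), (nat_lit 4)), ((nat_lit 0x91e0db91e0db), (nat_lit 8)), ((nat_lit 0x11e6c479b), (nat_lit 6)), ((nat_lit 0x452445485), (nat_lit 6)), ((nat_lit 28), (nat_lit 1)), ((nat_lit 29), (nat_lit 1)), ((nat_lit 0xd1491152143452445485), (nat_lit 14)), ((nat_lit 0x111491152144452445485), (nat_lit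 14))] (nat_lit 0x7d27d17d07cf7ce6067cd4b24b330e7cc3b54b17cb63836234933530d6417ca09609308f09f),
.c (nat_lit 6) (nat_lit 0xa002fe70226980935c1810e00051),
.i (nat_lit 3) (nat_lit 129) [((nat_lit 5), (nat_lit 1)), ((nat_lit 1), (nat_lit 1)), ((nat_lit 3), (nat_lit 1)), ((nat_lit 4), (nat_lit 1)), ((nat_lit 0x143143), (nat_lit 4)), ((nat_lit 6), (nat_lit 1)), ((nat_lit 973), (nat_lit 2)), ((nat_lit 8), (nat_lit 1)), ((nat_lit 10), (nat_lit 1)), ((nat_lit 0x146146), (nat_lit 4)), ((nat_lit 0x60f54f), (nat_lit 4)), ((nat_lit 0x657), (nat_lit 2)), ((nat_lit 14), (nat_lit 1)), ((nat_lit 0x79b), (nat_lit 2)), ((nat_lit 17), (nat_lit 1)), ((nat_lit 0xd95c3657), (nat_lit 6)), ((nat_lit 0x385385), (nat_lit 4)), ((nat_lit 0x91e0db91e0db), (nat_lit 8)), ((nat_lit 0x11e6c479b), (nat_lit 6)), ((nat_lit 0x452445485), (nat_lit 6)), ((nat_lit 28), (nat_lit 1)), ((nat_lit 29), (nat_lit 1)), ((nat_lit 0xd1491152143452445485),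 (nat_lit 14)), ((nat_lit 0x111491152144452445485), (nat_lit 14))] (nat_lit 0x7d27d17d07cf7ce6067cd4b24b330e7cc3b54b17cb63836234933530d6417ca09609308f09f),
.c (nat_lit 4) (nat_lit 0x506a00221805fd4000d5),
.i (nat_lit 3) (nat_lit 130) [((nat_lit 5), (nat_lit 1)), ((nat_lit 1), (nat_lit 1)), ((nat_lit 3), (nat_lit 1)), ((nat_lit 4), (nat_lit 1)), ((nat_lit 0x143143), (nat_lit 4)), ((nat_lit 6), (nat_lit 1)), ((nat_lit 973), (nat_lit 2)), ((nat_lit 8), (nat_lit 1)), ((nat_lit 10), (nat_lit 1)), ((nat_lit 0x146146), (nat_lit 4)), ((nat_lit 0x60f54f), (nat_lit 4)), ((nat_lit 0x657), (nat_lit 2)), ((nat_lit 14), (nat_lit 1)), ((nat_lit 0x79b), (nat_lit 2)), ((nat_lit 17), (nat_lit 1)), ((nat_lit 0xd95c3657), (nat_lit 6)), ((nat_lit 0x385385), (nat_lit 4)), ((nat_lit 0x91e0db91e0db), (nat_lit 8)), ((nat_lit 0x11e6c479b), (nat_lit 6)), ((nat_lit 0x452445485), (nat_lit 6)), ((nat_lit 28), (nat_lit 1)), ((nat_lit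 29), (nat_lit 1)), ((nat_lit 0xd1491152143452445485), (nat_lit 14)), ((nat_lit 0x111491152144452445485), (nat_lit 14))] (nat_lit 0x7d27d17d07cf7ce6067cd4b24b330e7cc3b54b17cb63836234933530d6417ca09609308f09f),
.c (nat_lit 7) (nat_lit 0x2301418408d90017f700b6e4141860008d),
.i (nat_lit 3) (nat_lit 133) [((nat_lit 5), (nat_lit 1)), ((nat_lit 1), (nat_lit 1)), ((nat_lit 3), (nat_lit 1)), ((nat_lit 4), (nat_lit 1)), ((nat_lit 0x143143), (nat_lit 4)), ((nat_lit 6), (nat_lit 1)), ((nat_lit 973), (nat_lit 2)), ((nat_lit 8), (nat_lit 1)), ((nat_lit 10), (nat_lit 1)), ((nat_lit 0x146146), (nat_lit 4)), ((nat_lit 0x60f54f), (nat_lit 4)), ((nat_lit 0x657), (nat_lit 2)), ((nat_lit 14), (nat_lit 1)), ((nat_lit 0x79b), (nat_lit 2)), ((nat_lit 17), (nat_lit 1)), ((nat_lit 0xd95c3657), (nat_lit 6)), ((nat_lit 0x385385), (nat_lit 4)), ((nat_lit 0x91e0db91e0db), (nat_lit 8)), ((nat_lit 0x11e6c479b), (nat_lit 6)), ((nat_lit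 0x452445485), (nat_lit 6)), ((nat_lit 28), (nat_lit 1)), ((nat_lit 29), (nat_lit 1)), ((nat_lit 0xd1491152143452445485), (nat_lit 14)), ((nat_lit 0x111491152144452445485), (nat_lit 14))] (nat_lit 0x7d27d17d07cf7ce6067cd4b24b330e7cc3b54b17cb63836234933530d6417ca09609308f09f),
.c (nat_lit 4) (nat_lit 0x2064003fcc05d8a040c9),
.i (nat_lit 3) (nat_lit 136) [((nat_lit 5), (nat_lit 1)), ((nat_lit 1), (nat_lit 1)), ((nat_lit 3), (nat_lit 1)), ((nat_lit 4), (nat_lit 1)), ((nat_lit 0x143143), (nat_lit 4)), ((nat_lit 6), (nat_lit 1)), ((nat_lit 973), (nat_lit 2)), ((nat_lit 8), (nat_lit 1)), ((nat_lit 10), (nat_lit 1)), ((nat_lit 0x146146), (nat_lit 4)), ((nat_lit 0x60f54f), (nat_lit 4)), ((nat_lit 0x657), (nat_lit 2)), ((nat_lit 14), (nat_lit 1)), ((nat_lit 0x79b), (nat_lit 2)), ((nat_lit 17), (nat_lit 1)), ((nat_lit 0xd95c3657), (nat_lit 6)), ((nat_lit 0x385385), (nat_lit 4)), ((nat_lit 0x91e0db91e0db), (nat_lit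 8)), ((nat_lit 0x11e6c479b), (nat_lit 6)), ((nat_lit 0x452445485), (nat_lit 6)), ((nat_lit 28), (nat_lit 1)), ((nat_lit 29), (nat_lit 1)), ((nat_lit 0xd1491152143452445485), (nat_lit 14)), ((nat_lit 0x111491152144452445485), (nat_lit 14))] (nat_lit 0x7d27d17d07cf7ce6067cd4b24b330e7cc3b54b17cb63836234933530d6417ca09609308f09f),
.c (nat_lit 17) (nat_lit 0x8c03046020d58146a80c356071ac033b0805fec04359011aa81b18c201860e08d0605b8283241016e0008d),
.i (nat_lit 3) (nat_lit 144) [((nat_lit 5), (nat_lit 1)), ((nat_lit 1), (nat_lit 1)), ((nat_lit 3), (nat_lit 1)), ((nat_lit 4), (nat_lit 1)), ((nat_lit 0x143143), (nat_lit 4)), ((nat_lit 6), (nat_lit 1)), ((nat_lit 973), (nat_lit 2)), ((nat_lit 8), (nat_lit 1)), ((nat_lit 10), (nat_lit 1)), ((nat_lit 0x146146), (nat_lit 4)), ((nat_lit 0x60f54f), (nat_lit 4)), ((nat_lit 0x657), (nat_lit 2)), ((nat_lit 14), (nat_lit 1)), ((nat_lit 0x79b), (nat_lit 2)), ((nat_lit 17),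 (nat_lit 1)), ((nat_lit 0xd95c3657), (nat_lit 6)), ((nat_lit 0x385385), (nat_lit 4)), ((nat_lit 0x91e0db91e0db), (nat_lit 8)), ((nat_lit 0x11e6c479b), (nat_lit 6)), ((nat_lit 0x452445485), (nat_lit 6)), ((nat_lit 28), (nat_lit 1)), ((nat_lit 29), (nat_lit 1)), ((nat_lit 0xd1491152143452445485), (nat_lit 14)), ((nat_lit 0x111491152144452445485), (nat_lit 14))] (nat_lit 0x7d27d17d07cf7ce6067cd4b24b330e7cc3b54b17cb63836234933530d6417ca09609308f09f),
.c (nat_lit 1) (nat_lit 0xffa),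
.i (nat_lit 3) (nat_lit 150) [((nat_lit 5), (nat_lit 1)), ((nat_lit 1), (nat_lit 1)), ((nat_lit 3), (nat_lit 1)), ((nat_lit 4), (nat_lit 1)), ((nat_lit 0x143143), (nat_lit 4)), ((nat_lit 6), (nat_lit 1)), ((nat_lit 973), (nat_lit 2)), ((nat_lit 8), (nat_lit 1)), ((nat_lit 10), (nat_lit 1)), ((nat_lit 0x146146), (nat_lit 4)), ((nat_lit 0x60f54f), (nat_lit 4)), ((nat_lit 0x657), (nat_lit 2)), ((nat_lit 14), (nat_lit 1)), ((nat_lit 0x79b), (nat_lit 2)), ((nat_lit 17), (nat_lit 1)), ((nat_lit 0xd95c3657), (nat_lit 6)), ((nat_lit 0x385385), (nat_lit 4)), ((nat_lit 0x91e0db91e0db), (nat_lit 8)), ((nat_lit 0x11e6c479b), (nat_lit 6)), ((nat_lit 0x452445485), (nat_lit 6)), ((nat_lit 28), (nat_lit 1)), ((nat_lit 29), (nat_lit 1)), ((nat_lit 0xd1491152143452445485), (nat_lit 14)), ((nat_lit 0x111491152144452445485), (nat_lit 14))] (nat_lit 0x7d27d17d07cf7ce6067cd4b24b330e7cc3b54b17cb63836234933530d6417ca09609308f09f),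
.c (nat_lit 1) (nat_lit 0xffe),
.i (nat_lit 3) (nat_lit 152) [((nat_lit 5), (nat_lit 1)), ((nat_lit 1), (nat_lit 1)), ((nat_lit 3), (nat_lit 1)), ((nat_lit 4), (nat_lit 1)), ((nat_lit 0x143143), (nat_lit 4)), ((nat_lit 6), (nat_lit 1)), ((nat_lit 973), (nat_lit 2)), ((nat_lit 8), (nat_lit 1)), ((nat_lit 10), (nat_lit 1)), ((nat_lit 0x146146), (nat_lit 4)), ((nat_lit 0x60f54f), (nat_lit 4)), ((nat_lit 0x657), (nat_lit 2)), ((nat_lit 14), (nat_lit 1)), ((nat_lit 0x79b), (nat_lit 2)), ((nat_lit 17), (nat_lit 1)), ((nat_lit 0xd95c3657), (nat_lit 6)), ((nat_lit 0x385385), (nat_lit 4)), ((nat_lit 0x91e0db91e0db), (nat_lit 8)), ((nat_lit 0x11e6c479b), (nat_lit 6)), ((nat_lit 0x452445485), (nat_lit 6)), ((nat_lit 28), (nat_lit 1)), ((nat_lit 29), (nat_lit 1)), ((nat_lit 0xd1491152143452445485), (nat_lit 14)), ((nat_lit 0x111491152144452445485), (nat_lit 14))] (nat_lit 0x7d27d17d07cf7ce6067cd4b24b330e7cc3b54b17cb63836234933530d6417ca09609308f09f),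
.c (nat_lit 12) (nat_lit 0x41aa01bfd0086a802ff40206400400805da20c0c9050438202340c10e0408d),
.i (nat_lit 3) (nat_lit 154) [((nat_lit 5), (nat_lit 1)), ((nat_lit 1), (nat_lit 1)), ((nat_lit 3), (nat_lit 1)), ((nat_lit 4), (nat_lit 1)), ((nat_lit 0x143143), (nat_lit 4)), ((nat_lit 6), (nat_lit 1)), ((nat_lit 973), (nat_lit 2)), ((nat_lit 8), (nat_lit 1)), ((nat_lit 10), (nat_lit 1)), ((nat_lit 0x146146), (nat_lit 4)), ((nat_lit 0x60f54f), (nat_lit 4)), ((nat_lit 0x657), (nat_lit 2)), ((nat_lit 14), (nat_lit 1)), ((nat_lit 0x79b), (nat_lit 2)), ((nat_lit 17), (nat_lit 1)), ((nat_lit 0xd95c3657), (nat_lit 6)), ((nat_lit 0x385385), (nat_lit 4)), ((nat_lit 0x91e0db91e0db), (nat_lit 8)), ((nat_lit 0x11e6c479b), (nat_lit 6)), ((nat_lit 0x452445485), (nat_lit 6)), ((nat_lit 28), (nat_lit 1)), ((nat_lit 29), (nat_lit 1)), ((nat_lit 0xd1491152143452445485), (nat_lit 14)), ((nat_lit 0x111491152144452445485), (nat_lit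 14))] (nat_lit 0x7d27d17d07cf7ce6067cd4b24b330e7cc3b54b17cb63836234933530d6417ca09609308f09f),
.c (nat_lit 21) (nat_lit 0x1042e0b043003b180811806fbc0506100c0181162e06ec70f06187021c341261808d0b04985021c241261008d070438302341410e0008d),
.c (nat_lit 1) (nat_lit 757),
.c (nat_lit 0) (nat_lit 0),
.c (nat_lit 0) (nat_lit 0),
.c (nat_lit 30) (nat_lit 0x5d2e0009b07087831134151960844d03465810d14040de02099056be8216440515e0c367051b182027c15afa085910304c820d9c0c6c60409f0674b82847410a7e0611d0229f808f5c000021610f),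
.c (nat_lit 0) (nat_lit 0),
.c (nat_lit 13) (nat_lit 0x2e970031d83043c15a820ee970608e8298ec10a7e0611d0229f8098ec000021810f),
.c (nat_lit 3) (nat_lit 0x136c0413200057),
.c (nat_lit 15) (nat_lit 0xba5c007ae0c10f056be8216440dafa045910104c82ba5c1023a0653f0208e8094fc000021410f),
.c (nat_lit 0) (nat_lit 0),
.c (nat_lit 0) (nat_lit 0),
.c (nat_lit 9) (nat_lit 0xe970508782ba5c1023a0653f0208e8094fc000021410f),
.c (nat_lit 0) (nat_lit 0),
.c (nat_lit 0) (nat_lit 0),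
.c (nat_lit 0) (nat_lit 0),
.c (nat_lit 0) (nat_lit 0),
.c (nat_lit 0) (nat_lit 0),
.c (nat_lit 0) (nat_lit 0),
.c (nat_lit 0) (nat_lit 0),
.c (nat_lit 0) (nat_lit 0),
.i (nat_lit 3) (nat_lit 0) [((nat_lit 6), (nat_lit 1)), ((nat_lit 1), (nat_lit 1)), ((nat_lit 0x25065), (nat_lit 3)), ((nat_lit 10), (nat_lit 1)), ((nat_lit 0x1a50651a5065), (nat_lit 8)), ((nat_lit 0x65065065065), (nat_lit 8)), ((nat_lit 28), (nat_lit 1)), ((nat_lit 17), (nat_lit 1)), ((nat_lit 0x207a07a781e9e0791), (nat_lit 11)), ((nat_lit 0x181941941941946065065065065), (nat_lit 18)), ((nat_lit 0x81e81e9e071e9e079c), (nat_lit 12)), ((nat_lit 0), (nat_lit 0)), ((nat_lit 0x81e81e9e07a781e), (nat_lit 10)), ((nat_lit 0x1a07a07a781e9e07911a07a07a781e9e0791), (nat_lit 24)), ((nat_lit 0x607a07a781e9e07910607a07a781e9e0791), (nat_lit 24)), ((nat_lit 0x81e81e9e07a781e), (nat_lit 10)), ((nat_lit 0x1a07a07a781e9e078681e81e9e07a781e), (nat_lit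 22)), ((nat_lit 0x94194681e81e9e07a781e44681e81e9e07a781e4650651a07a07a781e9e07911a07a07a781e9e0791), (nat_lit 54)), ((nat_lit 0x28681e81e9e07a781e44681e81e9e07a781e44a1a07a07a781e9e07911a07a07a781e9e0791), (nat_lit 50)), ((nat_lit 0x18181e81e9e07a781e44181e81e9e07a781e4460607a07a781e9e07910607a07a781e9e0791), (nat_lit 50)), ((nat_lit 0x94194181e81e9e07a781e44181e81e9e07a781e4650650607a07a781e9e07910607a07a781e9e0791), (nat_lit 54)), ((nat_lit 0x28181e81e9e07a781e44181e81e9e07a781e44a0607a07a781e9e07910607a07a781e9e0791), (nat_lit 50)), ((nat_lit 0x9419460607a07a781e9e07910607a07a781e9e079118181e81e9e07a781e44181e81e9e07a781e46506518181e81e9e07a781e44181e81e9e07a781e4460607a07a781e9e07910607a07a781e9e0791), (nat_lit 106)), ((nat_lit 0x2860607a07a781e9e07910607a07a781e9e079118181e81e9e07a781e44181e81e9e07a781e44a18181e81e9e07a781e44181e81e9e07a781e4460607a07a781e9e07910607a07a781e9e0791), (nat_lit 102))]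 (nat_lit 0x81781681581481381281181080f80e80d80c80b80a80980830e5808078068050ae2b508f0a2),
.c (nat_lit 23) (nat_lit 0x3c8041cc0a0f2061c2013a500a06004e970708783ba5c1823a0a53f0408e8194fc080021810f0b07985039c241e6100e70708d8303cc041ce000f3),
.i (nat_lit 3) (nat_lit 5) [((nat_lit 6), (nat_lit 1)), ((nat_lit 1), (nat_lit 1)), ((nat_lit 0x25065), (nat_lit 3)), ((nat_lit 10), (nat_lit 1)), ((nat_lit 0x1a50651a5065), (nat_lit 8)), ((nat_lit 0x65065065065), (nat_lit 8)), ((nat_lit 28), (nat_lit 1)), ((nat_lit 17), (nat_lit 1)), ((nat_lit 0x207a07a781e9e0791), (nat_lit 11)), ((nat_lit 0x181941941941946065065065065), (nat_lit 18)), ((nat_lit 0x81e81e9e071e9e079c), (nat_lit 12)), ((nat_lit 0), (nat_lit 0)), ((nat_lit 0x81e81e9e07a781e), (nat_lit 10)), ((nat_lit 0x1a07a07a781e9e07911a07a07a781e9e0791), (nat_lit 24)), ((nat_lit 0x607a07a781e9e07910607a07a781e9e0791), (nat_lit 24)), ((nat_lit 0x81e81e9e07a781e), (nat_lit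 10)), ((nat_lit 0x1a07a07a781e9e078681e81e9e07a781e), (nat_lit 22)), ((nat_lit 0x94194681e81e9e07a781e44681e81e9e07a781e4650651a07a07a781e9e07911a07a07a781e9e0791), (nat_lit 54)), ((nat_lit 0x28681e81e9e07a781e44681e81e9e07a781e44a1a07a07a781e9e07911a07a07a781e9e0791), (nat_lit 50)), ((nat_lit 0x18181e81e9e07a781e44181e81e9e07a781e4460607a07a781e9e07910607a07a781e9e0791), (nat_lit 50)), ((nat_lit 0x94194181e81e9e07a781e44181e81e9e07a781e4650650607a07a781e9e07910607a07a781e9e0791), (nat_lit 54)), ((nat_lit 0x28181e81e9e07a781e44181e81e9e07a781e44a0607a07a781e9e07910607a07a781e9e0791), (nat_lit 50)), ((nat_lit 0x9419460607a07a781e9e07910607a07a781e9e079118181e81e9e07a781e44181e81e9e07a781e46506518181e81e9e07a781e44181e81e9e07a781e4460607a07a781e9e07910607a07a781e9e0791), (nat_lit 106)), ((nat_lit 0x2860607a07a781e9e07910607a07a781e9e079118181e81e9e07a781e44181e81e9e07a781e44a18181e81e9e07a781e44181e81e9e07a781e4460607a07a781e9e07910607a07a781e9e0791),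 (nat_lit 102))] (nat_lit 0x81781681581481381281181080f80e80d80c80b80a80980830e5808078068050ae2b508f0a2)]

theorem c16 : chk db th.hy ths 2075 J16 2010 = true := by decide +kernel

set_option maxRecDepth 100000 in
/-- Justifications. -/
noncomputable def J17 : List Js := [
.c (nat_lit 36) (nat_lit 0x1079003500040000a0e6068190303c81c708080e60574a0440c82021c0463a0374b0140d409d2e0e10f066a083b504181b608e95030738283cc16066080e707819840e14260660ce950a1c28483cc24236100e70707983039c04002000f3),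
.c (nat_lit 9) (nat_lit 0x20bf00181819c6408b2602081021aa80823404e6200003),
.c (nat_lit 14) (nat_lit 0x47b2007e5031b3810d9410912067eb022ef80824c0c6ce043650104f810fc404fce00003),
.c (nat_lit 1) (nat_lit 0x979),
.c (nat_lit 6) (nat_lit 0x47a600747023ea8083b4041e600007),
.c (nat_lit 4) (nat_lit 0x156d8001440559a0005d),
.c (nat_lit 3) (nat_lit 0x327c0414a00005),
.c (nat_lit 3) (nat_lit 0x2b440414a00001),
.i (nat_lit 3) (nat_lit 75) [((nat_lit 3), (nat_lit 1)), ((nat_lit 7), (nat_lit 1)), ((nat_lit 1), (nat_lit 1)), ((nat_lit 5), (nat_lit 1)), ((nat_lit 6), (nat_lit 1)), ((nat_lit 12), (nat_lit 1)), ((nat_lit 0xc50c5), (nat_lit 4)), ((nat_lit 19), (nat_lit 1)), ((nat_lit 0), (nat_lit 0)), ((nat_lit 20), (nat_lit 1)), ((nat_lit 0x431431410c50c5), (nat_lit 10)), ((nat_lit 0), (nat_lit 0)), ((nat_lit 0), (nat_lit 0)), ((nat_lit 0), (nat_lit 0)), ((nat_lit 0), (nat_lit 0)), ((nat_lit 0), (nat_lit 0)), ((nat_lit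 0), (nat_lit 0)), ((nat_lit 0), (nat_lit 0)), ((nat_lit 0), (nat_lit 0)), ((nat_lit 0), (nat_lit 0)), ((nat_lit 0), (nat_lit 0)), ((nat_lit 0), (nat_lit 0)), ((nat_lit 0), (nat_lit 0)), ((nat_lit 0), (nat_lit 0))] (nat_lit 0x3393113393113123393113123114523128228215a071a4518203cb42849471809f08f0a5093),
.c (nat_lit 1) (nat_lit 0x1046),
.i (nat_lit 3) (nat_lit 140) [((nat_lit 3), (nat_lit 1)), ((nat_lit 7), (nat_lit 1)), ((nat_lit 1), (nat_lit 1)), ((nat_lit 5), (nat_lit 1)), ((nat_lit 6), (nat_lit 1)), ((nat_lit 12), (nat_lit 1)), ((nat_lit 0xc50c5), (nat_lit 4)), ((nat_lit 19), (nat_lit 1)), ((nat_lit 0), (nat_lit 0)), ((nat_lit 20), (nat_lit 1)), ((nat_lit 0x431431410c50c5), (nat_lit 10)), ((nat_lit 0), (nat_lit 0)), ((nat_lit 0), (nat_lit 0)), ((nat_lit 0), (nat_lit 0)), ((nat_lit 0), (nat_lit 0)), ((nat_lit 0), (nat_lit 0)), ((nat_lit 0), (nat_lit 0)), ((nat_lit 0), (nat_lit 0)), ((nat_lit 0), (nat_lit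 0)), ((nat_lit 0), (nat_lit 0)), ((nat_lit 0), (nat_lit 0)), ((nat_lit 0), (nat_lit 0)), ((nat_lit 0), (nat_lit 0)), ((nat_lit 0), (nat_lit 0))] (nat_lit 0x3393113393113123393113123114523128228215a071a4518203cb42849471809f08f0a5093),
.c (nat_lit 7) (nat_lit 0x81400c69c0504a025798381ec040a200075),
.i (nat_lit 3) (nat_lit 146) [((nat_lit 3), (nat_lit 1)), ((nat_lit 7), (nat_lit 1)), ((nat_lit 1), (nat_lit 1)), ((nat_lit 5), (nat_lit 1)), ((nat_lit 6), (nat_lit 1)), ((nat_lit 12), (nat_lit 1)), ((nat_lit 0xc50c5), (nat_lit 4)), ((nat_lit 19), (nat_lit 1)), ((nat_lit 0), (nat_lit 0)), ((nat_lit 20), (nat_lit 1)), ((nat_lit 0x431431410c50c5), (nat_lit 10)), ((nat_lit 0), (nat_lit 0)), ((nat_lit 0), (nat_lit 0)), ((nat_lit 0), (nat_lit 0)), ((nat_lit 0), (nat_lit 0)), ((nat_lit 0), (nat_lit 0)), ((nat_lit 0), (nat_lit 0)), ((nat_lit 0), (nat_lit 0)), ((nat_lit 0), (nat_lit 0)), ((nat_lit 0), (nat_lit 0)),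 ((nat_lit 0), (nat_lit 0)), ((nat_lit 0), (nat_lit 0)), ((nat_lit 0), (nat_lit 0)), ((nat_lit 0), (nat_lit 0))] (nat_lit 0x3393113393113123393113123114523128228215a071a4518203cb42849471809f08f0a5093),
.c (nat_lit 1) (nat_lit 0x104e),
.c (nat_lit 5) (nat_lit 0xa0b0067d40102000df580084a),
.c (nat_lit 150) (nat_lit 0x1069c0807a0503a034130040a0044ce03565022be01499c0caf2021a60101580e0900607a041a60282a80c6980834e0503a0341300c0f40834c0503a0341301015406074048260282901a0a00605c045a2028cf0195980e4ae068280241301069c044f2032150207f01609002b66025790101e804854040a40102e010cf00d5980434c01028012b680c99c080aa031a70101580c9e40842a051ed0282901a0a00834c051a70301d01c15410074035660212b8156880c4ae075a20301e81c69c0605c045660292b8196880e33c08257038d381c0f41007409826024140101480b050035660212b80c0f40834c0503a0341301015406074048260282901a0a00605c045a2028cf0195980e4ae068280241301069c044f2032150207f01609002b660256d01ab28115f00a4ce065790202a80e0a0024f202824018f68103f80a42a061ed028d38140f40c074078260101e80c6980834e021a60181d012098020500256d01abc8115f00a4ce065790112b80d6880407a031a7010d38080f40607404826009338095e400ad6),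
.c (nat_lit 5) (nat_lit 0x207a021a70081d00a09800af2),
.c (nat_lit 2) (nat_lit 0x9d8c00b56),
.c (nat_lit 22) (nat_lit 0x80f40634c0403a02c1300c1540407403826020290160a00405c035a2020cf0155980c4ae0582801c1300c69c024f2022150187f01209000b66),
.c (nat_lit 24) (nat_lit 0x202e0182a8080ac064f2041ed020290160a00807a051a60301d01e0980a0aa0403a02c130181480f050068280241301069c044f2032150207f01609000b68),
.c (nat_lit 28) (nat_lit 0x705502c130181480f050051a6030d38140f40c34c0703a044130181540a07406826038290220a00a05c065a2038cf021598124ae088280341301869c084f2052150307f01e09000b6a),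
.c (nat_lit 4) (nat_lit 0x206700add801f0c00bcc),
.c (nat_lit 22) (nat_lit 0x19f80060b6047e0028308101840a0b6067e0012e780df5008f4e057d4033d3809f8002eba0062f013aec0df820e0e10606182838410186060b7),
.c (nat_lit 130) (nat_lit 0x5f80040c2030700203081416c160c20c07006830829f800cfc00603403bae8199a40cebb077e085bf043934e1adad0c4d385baec2934e12dad084d383baec180d20cfc10a7b7848d5c21ede0e3570b6cc852c4c25b3210b130c7b7858d5c29ede123570d6cc862c4c2db3214b13107b7878d5c39ede1a3570c7b7858d5c2085e0e08d0f6cc872c4c35b3218b130b6cc852c4c241261cf6f0d1ab863dbc2c6ae14f6f091ab84023435b3218b130b6cc852c4c25b3210b1307049873f0449ede22357107b7878d5c4db3224b13116cc882c4c51ede26357127b7888d5c55b3228b13136cc892c4c61ede2e357167b78a8d5c51ede26357102178782345db322cb13156cc8a2c4c4db3224b13110498b3dbc546ae28f6f131ab893dbc446ae2008d156cc8a2c4c4db3224b13116cc882c4c3c1262a0c31407089830c481c2220c31007087830c1416e080c30307081030c041c2000c3),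
.c (nat_lit 71) (nat_lit 0x82d8080d0060860403402b37815d760cfc10a24284ba8c2090a0eea30614385b6b42934e12dad084d383baec21f8218f6f0b1ab853dbc246ae1ad990c58985b664296261cf6f0d1ab863dbc2c6ae1ed990e58986b6643162624f6f111ab883dbc3c6ae1cf6f0d1ab8510bc2411a22d991058987b664396261ad990c58985824c41ede1e3570e7b7868d5c31ede163570a04687b664396261ad990c58985b66429626120931007087830c381c208069030438101a40416e000c3),
.c (nat_lit 29) (nat_lit 0x209e02070018278101c00a09e0107000820009fb004f26016f300bc9c05fb2040e10604f82bf6411e4e060e102793813f6404102020e10c07085827c281c21209f0807083827c181c20009f),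
.c (nat_lit 16) (nat_lit 0x4f00c1a0001c000080017ec00bc9801c0c04f27027ec808204041c20036302834808d8c0013e060e1),
.c (nat_lit 7) (nat_lit 0x1c1a00c13c0906803070013f6009e4c00e0a),
.c (nat_lit 21) (nat_lit 0x2080070700241a01013c0b068040700116480dfb006f260270b813c9c09fb2060e10483481827c0e0d20cf6f0804f838384041020009f),
.c (nat_lit 3) (nat_lit 0x833809efc00e74),
.c (nat_lit 2) (nat_lit 0x11fa800e7e),
.c (nat_lit 3) (nat_lit 0x33f0015d7400e82),
.c (nat_lit 75) (nat_lit 0x603c8301c01acfa0b6cc0612202c0dc184480d22605912030184160920c6cc06ac48301181af6e0e1ab06824839b301eb120b0460610b83dedc2035611070078308420cc1cb120f6cc082c4845b301a3560e7b7078d5841edc18b120d6cc072c483db30163560c7b7068d5839edc14fc0090340510c82dd74189a60d6d60726983c9f0200b6110490881b848738260e0126cc0983c8448902444c1167d0833f8401c022cfa0f22405bf002486414eba0b27c063ae8349f01c2260f6d6008ad011e5c00e86),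
.c (nat_lit 44) (nat_lit 0x2070d10b4b089c3446d2c1f76a10388885da844e221d7690fba9029fa8123600704f0441a01868c0e448081a3049120181c00e09e080700302781e0d00c0e0057ec02bc98181c00ef26087ec02c1a01813c0e0e00504f0341a0141c00a080067ec033c981dfb004f220378501112005ff800e92),
.c (nat_lit 13) (nat_lit 0xe08601037010e480c6880839c051c9030d101c738103920906704363005d9c00ea8),
.c (nat_lit 3) (nat_lit 0x82d809d7800eae),
.c (nat_lit 2) (nat_lit 0x4df1400eb4),
.c (nat_lit 9) (nat_lit 0x1cfc00d75d033f0015d740c0ec0575e023cf809e1c00eb6),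
.c (nat_lit 2) (nat_lit 0x5f8000eba),
.c (nat_lit 74) (nat_lit 0x40b8220c212070080308460cc1e0c2108320582d831f801806e0d22406824839b301e0ec100790734283d9f41a7ea0e244061c683489816ebc0c67f051c682c89812ebc0a67f040d90246cc0f07c061b2038d9814fd40c4880483e011f800de5c04ebf0279786b6b43044e164f90a8418493e4221060e4330d22487b3fc39f8224ec91106188b3ec401c220ec90f06187b3ec4089a1e44911079883664441c2240f31107688024c3c0de1c0b70d03786030c2c1c2140c30905b84027c040ba000b1),
.c (nat_lit 10) (nat_lit 0x1013c0a0e00304f0241a00c1c006080047ec023c9815fb000f22),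
.c (nat_lit 5) (nat_lit 0x209e0283400838001fb000f26),
.c (nat_lit 15) (nat_lit 0x582d831d781a0800e1cf0783b0381601eb9e1079f0703b03816c1eebc0e05807ae7841e7c00f36),
.c (nat_lit 11) (nat_lit 0x82c01016c0afc00405802bd3809e7404f4f047e08182dc04162000c3),
.c (nat_lit 3) (nat_lit 0x82d809f8000f4e),
.c (nat_lit 20) (nat_lit 0x2238b11965885d7044e2209046050d5020680126e20a4d3059b88300b81b07e0e061068d5831f2410354091ab04817029f2400f72),
.c (nat_lit 4) (nat_lit 0x2800bec005ffa00051),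
.c (nat_lit 4) (nat_lit 0x2800bee00600200051),
.c (nat_lit 6) (nat_lit 0x1c6c00506e047b70102780e0d000fe0),
.c (nat_lit 27) (nat_lit 0x81400816c060980405b0282601810c1a0e60c24a03bfb01dfca24fed111438816543c50e1c5950d0438a839c5016e260991205b83021c14132080b70304c8102dc040a200099),
.c (nat_lit 1) (nat_lit 756),
.c (nat_lit 2) (nat_lit 0xae00057),
.c (nat_lit 8) (nat_lit 0x82a8241340c0ea0434d0103d810fac055a200001),
.c (nat_lit 3) (nat_lit 0x7f4040ea00057),
.c (nat_lit 0) (nat_lit 0),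
.c (nat_lit 6) (nat_lit 0x47b601049028288082940415600057),
.i (nat_lit 3) (nat_lit 3) [((nat_lit 1), (nat_lit 1)), ((nat_lit 6), (nat_lit 1)), ((nat_lit 2), (nat_lit 1)), ((nat_lit 6), (nat_lit 1)), ((nat_lit 5), (nat_lit 1)), ((nat_lit 11), (nat_lit 1)), ((nat_lit 0), (nat_lit 0)), ((nat_lit 0), (nat_lit 0)), ((nat_lit 11), (nat_lit 1)), ((nat_lit 0x513), (nat_lit 2)), ((nat_lit 0), (nat_lit 0)), ((nat_lit 0), (nat_lit 0)), ((nat_lit 0), (nat_lit 0)), ((nat_lit 0x513), (nat_lit 2)), ((nat_lit 0), (nat_lit 0)), ((nat_lit 0), (nat_lit 0)), ((nat_lit 0), (nat_lit 0)), ((nat_lit 0x944c2513), (nat_lit 6)), ((nat_lit 0), (nat_lit 0)), ((nat_lit 0), (nat_lit 0)), ((nat_lit 0), (nat_lit 0)), ((nat_lit 0), (nat_lit 0)), ((nat_lit 0), (nat_lit 0)), ((nat_lit 0), (nat_lit 0))] (nat_lit 0x3ad3403ad34031185285131134085084f34031134084f40384e43a2fe36384d0a20900a208f),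
.c (nat_lit 8) (nat_lit 0x18d3010154030a60182a8302ac140f600001),
.i (nat_lit 3) (nat_lit 24) [((nat_lit 1), (nat_lit 1)), ((nat_lit 6), (nat_lit 1)), ((nat_lit 2), (nat_lit 1)), ((nat_lit 6), (nat_lit 1)), ((nat_lit 5), (nat_lit 1)), ((nat_lit 11), (nat_lit 1)), ((nat_lit 0), (nat_lit 0)), ((nat_lit 0), (nat_lit 0)), ((nat_lit 11), (nat_lit 1)), ((nat_lit 0x513), (nat_lit 2)), ((nat_lit 0), (nat_lit 0)), ((nat_lit 0), (nat_lit 0)), ((nat_lit 0), (nat_lit 0)), ((nat_lit 0x513), (nat_lit 2)), ((nat_lit 0), (nat_lit 0)), ((nat_lit 0), (nat_lit 0)), ((nat_lit 0), (nat_lit 0)), ((nat_lit 0x944c2513), (nat_lit 6)), ((nat_lit 0), (nat_lit 0)), ((nat_lit 0), (nat_lit 0)), ((nat_lit 0), (nat_lit 0)), ((nat_lit 0), (nat_lit 0)), ((nat_lit 0), (nat_lit 0)), ((nat_lit 0), (nat_lit 0))] (nat_lit 0x3ad3403ad34031185285131134085084f34031134084f40384e43a2fe36384d0a20900a208f),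
.c (nat_lit 1) (nat_lit 0x10aa),
.i (nat_lit 3) (nat_lit 33) [((nat_lit 1), (nat_lit 1)), ((nat_lit 6), (nat_lit 1)), ((nat_lit 2), (nat_lit 1)), ((nat_lit 6), (nat_lit 1)), ((nat_lit 5), (nat_lit 1)), ((nat_lit 11), (nat_lit 1)), ((nat_lit 0), (nat_lit 0)), ((nat_lit 0), (nat_lit 0)), ((nat_lit 11), (nat_lit 1)), ((nat_lit 0x513), (nat_lit 2)), ((nat_lit 0), (nat_lit 0)), ((nat_lit 0), (nat_lit 0)), ((nat_lit 0), (nat_lit 0)), ((nat_lit 0x513), (nat_lit 2)), ((nat_lit 0), (nat_lit 0)), ((nat_lit 0), (nat_lit 0)), ((nat_lit 0), (nat_lit 0)), ((nat_lit 0x944c2513), (nat_lit 6)), ((nat_lit 0), (nat_lit 0)), ((nat_lit 0), (nat_lit 0)), ((nat_lit 0), (nat_lit 0)), ((nat_lit 0), (nat_lit 0)), ((nat_lit 0), (nat_lit 0)), ((nat_lit 0), (nat_lit 0))] (nat_lit 0x3ad3403ad34031185285131134085084f34031134084f40384e43a2fe36384d0a20900a208f),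
.c (nat_lit 158) (nat_lit 0x4060a4048280142b00615c04b6d01567810d340c14a040ad0482b81933c1495e0833d061a78281ec1e1520c075051a78341441c69e0c34d0503d82c2b41e0a20c0a5061ed8287f4109e6104af075a28312bc140ba0f051078568301d4160a20c0ab068288282941e09a0c075051a78302ac140f60f0a90603a828d3c1a0a20e34f061a68281ec1615a0e34f061a68441441c14a0e0ab0c8268581d4280f61434f0a8268481d4200f61034f0982884c2b42c69e1434d0b856868d3c3069a1b0ad0f1a7870d34401561d0a90d03a8601ec3069a190a90b03a8501ec2869a150a90903a8401ec2069a110a90703a8301ec1869a0d0a90503a83029414856080570419e82c2a4220a20e0a5068268281d41869e0a07b05055834134140ea0c34f0503d82c144188e60ac9f0410081c1740800a08b450319e83c15c195960aaf90426781ab6c080a20634d038548282941469e0807b068248287f4107b6061fd02279842b341d68a0c4af055a28212bc0c0ba0e0a50603a8282ac16092081fd031ed81015c1a09a0a075041a6830d3c1469a0807b050558281d41014a00003),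
.i (nat_lit 3) (nat_lit 46) [((nat_lit 1), (nat_lit 1)), ((nat_lit 6), (nat_lit 1)), ((nat_lit 2), (nat_lit 1)), ((nat_lit 6), (nat_lit 1)), ((nat_lit 5), (nat_lit 1)), ((nat_lit 11), (nat_lit 1)), ((nat_lit 0), (nat_lit 0)), ((nat_lit 0), (nat_lit 0)), ((nat_lit 11), (nat_lit 1)), ((nat_lit 0x513), (nat_lit 2)), ((nat_lit 0), (nat_lit 0)), ((nat_lit 0), (nat_lit 0)), ((nat_lit 0), (nat_lit 0)), ((nat_lit 0x513), (nat_lit 2)), ((nat_lit 0), (nat_lit 0)), ((nat_lit 0), (nat_lit 0)), ((nat_lit 0), (nat_lit 0)), ((nat_lit 0x944c2513), (nat_lit 6)), ((nat_lit 0), (nat_lit 0)), ((nat_lit 0), (nat_lit 0)), ((nat_lit 0), (nat_lit 0)), ((nat_lit 0), (nat_lit 0)), ((nat_lit 0), (nat_lit 0)), ((nat_lit 0), (nat_lit 0))] (nat_lit 0x3ad3403ad34031185285131134085084f34031134084f40384e43a2fe36384d0a20900a208f),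
.c (nat_lit 4) (nat_lit 0x20550042c806162040ab),
.c (nat_lit 46) (nat_lit 0x186b804d900369a0202d81413004086037510236301450c0c5940744301826011b200ad340403a02c18019f0c0a098066c803b4d02112c0ad900669a02418015f0c06d900469a013a880db1803060027c300821809d4406d8c0102b0113780d62c08b580505b0322381c16c06098046c802b4d01a13000bca),
.c (nat_lit 4) (nat_lit 0x205500413006162040ab),
.c (nat_lit 5) (nat_lit 0x407a031a600c2e00a16801054),
.c (nat_lit 2) (nat_lit 0xa1700105c),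
.c (nat_lit 41) (nat_lit 0xa0b60606103838020184120e006833038308201c00c0c2078330283081a0c810fc0058330303081418408fa805847033ea01e11c06356047b7028d5819edc07066040610283800c184090660305b020308160c80efc004833028308181c0080c205833018308120c801062),
.c (nat_lit 5) (nat_lit 0x60c2040700103080e0cc01064),
.c (nat_lit 9) (nat_lit 0xc09e070700382d820184130c0080370483082a11801084),
.c (nat_lit 1) (nat_lit 759),
.c (nat_lit 1) (nat_lit 760),
.c (nat_lit 5) (nat_lit 0xa7021a68081ec0559e00003),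
.c (nat_lit 10) (nat_lit 0x465a00f1f065cf8282c41416e083030317c810c0c045f200003),
.c (nat_lit 0) (nat_lit 0),
.c (nat_lit 0) (nat_lit 0),
.c (nat_lit 0) (nat_lit 0),
.i (nat_lit 3) (nat_lit 103) [((nat_lit 2), (nat_lit 1)), ((nat_lit 7), (nat_lit 1)), ((nat_lit 1), (nat_lit 1)), ((nat_lit 8), (nat_lit 1)), ((nat_lit 5), (nat_lit 1)), ((nat_lit 12), (nat_lit 1)), ((nat_lit 13), (nat_lit 1)), ((nat_lit 0x595), (nat_lit 2)), ((nat_lit 0), (nat_lit 0)), ((nat_lit 19), (nat_lit 1)), ((nat_lit 0x657), (nat_lit 2)), ((nat_lit 0x347347), (nat_lit 4)), ((nat_lit 0x56541595), (nat_lit 6)), ((nat_lit 0), (nat_lit 0)), ((nat_lit 0), (nat_lit 0)), ((nat_lit 0x4d1cd1c1347347), (nat_lit 10)), ((nat_lit 0x81595056542056541595), (nat_lit 14)), ((nat_lit 0), (nat_lit 0)), ((nat_lit 0), (nat_lit 0)), ((nat_lit 0), (nat_lit 0)), ((nat_lit 0), (nat_lit 0)), ((nat_lit 0), (nat_lit 0)), ((nat_lit 0), (nat_lit 0)), ((nat_lit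 0), (nat_lit 0))] (nat_lit 0x3d53113d53113403d53118688674523408668656ea8644fe60d38342848b8630a808f0a5090),
.c (nat_lit 4) (nat_lit 0x105e0032b8061a4000bd),
.i (nat_lit 3) (nat_lit 127) [((nat_lit 2), (nat_lit 1)), ((nat_lit 7), (nat_lit 1)), ((nat_lit 1), (nat_lit 1)), ((nat_lit 8), (nat_lit 1)), ((nat_lit 5), (nat_lit 1)), ((nat_lit 12), (nat_lit 1)), ((nat_lit 13), (nat_lit 1)), ((nat_lit 0x595), (nat_lit 2)), ((nat_lit 0), (nat_lit 0)), ((nat_lit 19), (nat_lit 1)), ((nat_lit 0x657), (nat_lit 2)), ((nat_lit 0x347347), (nat_lit 4)), ((nat_lit 0x56541595), (nat_lit 6)), ((nat_lit 0), (nat_lit 0)), ((nat_lit 0), (nat_lit 0)), ((nat_lit 0x4d1cd1c1347347), (nat_lit 10)), ((nat_lit 0x81595056542056541595), (nat_lit 14)), ((nat_lit 0), (nat_lit 0)), ((nat_lit 0), (nat_lit 0)), ((nat_lit 0), (nat_lit 0)), ((nat_lit 0), (nat_lit 0)), ((nat_lit 0), (nat_lit 0)), ((nat_lit 0), (nat_lit 0)), ((nat_lit 0), (nat_lit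 0))] (nat_lit 0x3d53113d53113403d53118688674523408668656ea8644fe60d38342848b8630a808f0a5090),
.c (nat_lit 9) (nat_lit 0x20b00286b01b18c09ff2120b7080648382dc04162000c3),
.i (nat_lit 3) (nat_lit 146) [((nat_lit 2), (nat_lit 1)), ((nat_lit 7), (nat_lit 1)), ((nat_lit 1), (nat_lit 1)), ((nat_lit 8), (nat_lit 1)), ((nat_lit 5), (nat_lit 1)), ((nat_lit 12), (nat_lit 1)), ((nat_lit 13), (nat_lit 1)), ((nat_lit 0x595), (nat_lit 2)), ((nat_lit 0), (nat_lit 0)), ((nat_lit 19), (nat_lit 1)), ((nat_lit 0x657), (nat_lit 2)), ((nat_lit 0x347347), (nat_lit 4)), ((nat_lit 0x56541595), (nat_lit 6)), ((nat_lit 0), (nat_lit 0)), ((nat_lit 0), (nat_lit 0)), ((nat_lit 0x4d1cd1c1347347), (nat_lit 10)), ((nat_lit 0x81595056542056541595), (nat_lit 14)), ((nat_lit 0), (nat_lit 0)), ((nat_lit 0), (nat_lit 0)), ((nat_lit 0), (nat_lit 0)), ((nat_lit 0), (nat_lit 0)), ((nat_lit 0), (nat_lit 0)), ((nat_lit 0), (nat_lit 0)), ((nat_lit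 0), (nat_lit 0))] (nat_lit 0x3d53113d53113403d53118688674523408668656ea8644fe60d38342848b8630a808f0a5090),
.c (nat_lit 1) (nat_lit 0x10db),
.i (nat_lit 3) (nat_lit 147) [((nat_lit 2), (nat_lit 1)), ((nat_lit 7), (nat_lit 1)), ((nat_lit 1), (nat_lit 1)), ((nat_lit 8), (nat_lit 1)), ((nat_lit 5), (nat_lit 1)), ((nat_lit 12), (nat_lit 1)), ((nat_lit 13), (nat_lit 1)), ((nat_lit 0x595), (nat_lit 2)), ((nat_lit 0), (nat_lit 0)), ((nat_lit 19), (nat_lit 1)), ((nat_lit 0x657), (nat_lit 2)), ((nat_lit 0x347347), (nat_lit 4)), ((nat_lit 0x56541595), (nat_lit 6)), ((nat_lit 0), (nat_lit 0)), ((nat_lit 0), (nat_lit 0)), ((nat_lit 0x4d1cd1c1347347), (nat_lit 10)), ((nat_lit 0x81595056542056541595), (nat_lit 14)), ((nat_lit 0), (nat_lit 0)), ((nat_lit 0), (nat_lit 0)), ((nat_lit 0), (nat_lit 0)), ((nat_lit 0), (nat_lit 0)), ((nat_lit 0), (nat_lit 0)), ((nat_lit 0), (nat_lit 0)), ((nat_lit 0), (nat_lit 0))] (nat_lit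 0x3d53113d53113403d53118688674523408668656ea8644fe60d38342848b8630a808f0a5090),
.c (nat_lit 1) (nat_lit 0x10de),
.c (nat_lit 1) (nat_lit 513),
.c (nat_lit 2) (nat_lit 0xba0005d),
.c (nat_lit 173) (nat_lit 0x2074028580101e806170040aa011a70081d00a16002056020fe018f680c148090500285a0101700c154024f2021ed0102900e0a0040740385a0242c00c0f40834c051a7018d300a168020500256d01abe01099c0b056025a2018cf004008050bc031000211c8101480b0500403d028d301869c080740585c0342d01e1600a34c0485a0282a8100f40a34c061a70201d0161700d0b407858034140121700a0a40319e022b300c0ac0842a058240201d0161700807a0403a02c2e0100f4080740585c0302a81469c090b00403d028d38100e80b0b806858028d3812160080a4058280201e8146980c34e0403a02c2e01a1680f0b0051a6030d38121680b0b00403d028d30100e80b0b80685a028d30121680807a051a60201d0161700d0b4070550341401469c090b00403d028d38100e80b0b8068580302901e0a00a34c061a70242d0161600807a051a60201d0161700d0b407055028d301869c090b405858024140100e80a0a40402e02ad10195980e0aa0682802c2c00c9e4081fc05824030f68160a0090b00403d028d38100e80b0b8068580302901e0a00a34c061a70242d0161600807a051a6030d380c67808acc052570113380d59409056038280082b00993c00b6c),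
.c (nat_lit 4) (nat_lit 0x30640083080a1b000ff8),
.c (nat_lit 1) (nat_lit 555),
.c (nat_lit 1) (nat_lit 758),
.c (nat_lit 5) (nat_lit 0x264f0002b810f7c04e7200063),
.c (nat_lit 6) (nat_lit 0x47de0063b0238a80836c041c200001),
.c (nat_lit 1) (nat_lit 0x60d),
.c (nat_lit 0) (nat_lit 0),
.c (nat_lit 6) (nat_lit 0x61ce00acf028288082940415600003),
.c (nat_lit 26) (nat_lit 0xe176042f70185d800bdc32176162f70a85d848bdc207d60ead10685d828bdc107d606ad10285d808bdc0000207051020528102ac160a2080a504055809834000c604075),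
.c (nat_lit 24) (nat_lit 0x318081020c04602000830230a829844100ea0c2150430a811834040c6060750330883085410c2a06075020318081d404c220830303180810c0c0460200003),
.c (nat_lit 21) (nat_lit 0x61fd023278087f400c9e1060d071ef831ce4140c612075083278387f418b960a68f040fe81972c08d1e0264f0002b811c54041b6020e1),
.c (nat_lit 0) (nat_lit 0),
.c (nat_lit 0) (nat_lit 0),
.i (nat_lit 3) (nat_lit 45) [((nat_lit 1), (nat_lit 1)), ((nat_lit 8), (nat_lit 1)), ((nat_lit 2), (nat_lit 1)), ((nat_lit 6), (nat_lit 1)), ((nat_lit 5), (nat_lit 1)), ((nat_lit 13), (nat_lit 1)), ((nat_lit 0), (nat_lit 0)), ((nat_lit 0x75c), (nat_lit 2)), ((nat_lit 11), (nat_lit 1)), ((nat_lit 0x657), (nat_lit 2)), ((nat_lit 0), (nat_lit 0)), ((nat_lit 0), (nat_lit 0)), ((nat_lit 0x9d70275c), (nat_lit 6)), ((nat_lit 0x513), (nat_lit 2)), ((nat_lit 0x2c82c8), (nat_lit 4)), ((nat_lit 0), (nat_lit 0)), ((nat_lit 0x4275c09d70109d70275c), (nat_lit 14)), ((nat_lit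 0), (nat_lit 0)), ((nat_lit 0), (nat_lit 0)), ((nat_lit 0x5132c851320b), (nat_lit 8)), ((nat_lit 0x34b34b), (nat_lit 4)), ((nat_lit 0x75c20b75c2c8), (nat_lit 8)), ((nat_lit 0x944cb2144c82c25132c851320b), (nat_lit 18)), ((nat_lit 0x1944cb2144c82c65132c851320b), (nat_lit 18))] (nat_lit 0x88087f87e87d87c85287b87a34087984f4a88783406ea40387743a2f13638760a20900a808f),
.c (nat_lit 10) (nat_lit 0x181b40e0e006031039ce0207bc0310301031838384181b600075),
.i (nat_lit 3) (nat_lit 88) [((nat_lit 1), (nat_lit 1)), ((nat_lit 8), (nat_lit 1)), ((nat_lit 2), (nat_lit 1)), ((nat_lit 6), (nat_lit 1)), ((nat_lit 5), (nat_lit 1)), ((nat_lit 13), (nat_lit 1)), ((nat_lit 0), (nat_lit 0)), ((nat_lit 0x75c), (nat_lit 2)), ((nat_lit 11), (nat_lit 1)), ((nat_lit 0x657), (nat_lit 2)), ((nat_lit 0), (nat_lit 0)), ((nat_lit 0), (nat_lit 0)), ((nat_lit 0x9d70275c), (nat_lit 6)), ((nat_lit 0x513), (nat_lit 2)), ((nat_lit 0x2c82c8),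 (nat_lit 4)), ((nat_lit 0), (nat_lit 0)), ((nat_lit 0x4275c09d70109d70275c), (nat_lit 14)), ((nat_lit 0), (nat_lit 0)), ((nat_lit 0), (nat_lit 0)), ((nat_lit 0x5132c851320b), (nat_lit 8)), ((nat_lit 0x34b34b), (nat_lit 4)), ((nat_lit 0x75c20b75c2c8), (nat_lit 8)), ((nat_lit 0x944cb2144c82c25132c851320b), (nat_lit 18)), ((nat_lit 0x1944cb2144c82c65132c851320b), (nat_lit 18))] (nat_lit 0x88087f87e87d87c85287b87a34087984f4a88783406ea40387743a2f13638760a20900a808f)]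

theorem c17 : chk db th.hy ths 2180 J17 2075 = true := by decide +kernel

end Pool.Agent.Lib.MP_3b0e0c_al.S.L4
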