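import Pool.Agent.Lib.MP_3b0e0c_al.S.L4D

namespace Pool.Agent.Lib.MP_3b0e0c_al.S.L4

set_option maxRecDepth 100000 in
/-- Justifications. -/
noncomputable def J18 : List Js := [
.c (nat_lit 11) (nat_lit 0x182900a1c0030b4008700081d00a20e070b10285a838204040ea000a5),
.i (nat_lit 3) (nat_lit 92) [((nat_lit 1), (nat_lit 1)), ((nat_lit 8), (nat_lit 1)), ((nat_lit 2), (nat_lit 1)), ((nat_lit 6), (nat_lit 1)), ((nat_lit 5), (nat_lit 1)), ((nat_lit 13), (nat_lit 1)), ((nat_lit 0), (nat_lit 0)), ((nat_lit 0x75c), (nat_lit 2)), ((nat_lit 11), (nat_lit 1)), ((nat_lit 0x657), (nat_lit 2)), ((nat_lit 0), (nat_lit 0)), ((nat_lit 0), (nat_lit 0)), ((nat_lit 0x9d70275c), (nat_lit 6)), ((nat_lit 0x513), (nat_lit 2)), ((nat_lit 0x2c82c8), (nat_lit 4)), ((nat_lit 0), (nat_lit 0)), ((nat_lit 0x4275c09d70109d70275c), (nat_lit 14)), ((nat_lit 0), (nat_lit 0)), ((nat_lit 0), (nat_lit 0)), ((nat_lit 0x5132c851320b), (nat_lit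 8)), ((nat_lit 0x34b34b), (nat_lit 4)), ((nat_lit 0x75c20b75c2c8), (nat_lit 8)), ((nat_lit 0x944cb2144c82c25132c851320b), (nat_lit 18)), ((nat_lit 0x1944cb2144c82c65132c851320b), (nat_lit 18))] (nat_lit 0x88087f87e87d87c85287b87a34087984f4a88783406ea40387743a2f13638760a20900a808f),
.c (nat_lit 5) (nat_lit 0xa4018858143540595e000a5),
.i (nat_lit 3) (nat_lit 150) [((nat_lit 1), (nat_lit 1)), ((nat_lit 8), (nat_lit 1)), ((nat_lit 2), (nat_lit 1)), ((nat_lit 6), (nat_lit 1)), ((nat_lit 5), (nat_lit 1)), ((nat_lit 13), (nat_lit 1)), ((nat_lit 0), (nat_lit 0)), ((nat_lit 0x75c), (nat_lit 2)), ((nat_lit 11), (nat_lit 1)), ((nat_lit 0x657), (nat_lit 2)), ((nat_lit 0), (nat_lit 0)), ((nat_lit 0), (nat_lit 0)), ((nat_lit 0x9d70275c), (nat_lit 6)), ((nat_lit 0x513), (nat_lit 2)), ((nat_lit 0x2c82c8), (nat_lit 4)), ((nat_lit 0), (nat_lit 0)), ((nat_lit 0x4275c09d70109d70275c), (nat_lit 14)), ((nat_lit 0), (nat_lit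 0)), ((nat_lit 0), (nat_lit 0)), ((nat_lit 0x5132c851320b), (nat_lit 8)), ((nat_lit 0x34b34b), (nat_lit 4)), ((nat_lit 0x75c20b75c2c8), (nat_lit 8)), ((nat_lit 0x944cb2144c82c25132c851320b), (nat_lit 18)), ((nat_lit 0x1944cb2144c82c65132c851320b), (nat_lit 18))] (nat_lit 0x88087f87e87d87c85287b87a34087984f4a88783406ea40387743a2f13638760a20900a808f),
.c (nat_lit 30) (nat_lit 0x100031080405201c2d00a1c0060740400004c1402995c170d40988604820028e30164800a36d02c43820e520f0bb0639482c2ec44192200bd0f0408702ac3414a080010303a8102940415600081),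
.c (nat_lit 5) (nat_lit 0x305b00028810f6c0609200057),
.c (nat_lit 2) (nat_lit 0xa00005),
.c (nat_lit 5) (nat_lit 0x30bd0000281133c055f200051),
.c (nat_lit 6) (nat_lit 0x48e600c9f028288082940415600005),
.c (nat_lit 0) (nat_lit 0),
.c (nat_lit 6) (nat_lit 0x4856001fd0285c8081d4040f600057),
.c (nat_lit 0) (nat_lit 0),
.c (nat_lit 0) (nat_lit 0),
.i (nat_lit 3) (nat_lit 23) [((nat_lit 3), (nat_lit 1)), ((nat_lit 6), (nat_lit 1)), ((nat_lit 5), (nat_lit 1)), ((nat_lit 3), (nat_lit 1)), ((nat_lit 0xc50c5), (nat_lit 4)), ((nat_lit 0x513), (nat_lit 2)), ((nat_lit 0), (nat_lit 0)), ((nat_lit 0), (nat_lit 0)), ((nat_lit 779), (nat_lit 2)), ((nat_lit 0), (nat_lit 0)), ((nat_lit 0), (nat_lit 0)), ((nat_lit 0), (nat_lit 0)), ((nat_lit 0), (nat_lit 0)), ((nat_lit 0xcc2c330b), (nat_lit 6)), ((nat_lit 0), (nat_lit 0)), ((nat_lit 0), (nat_lit 0)), ((nat_lit 0), (nat_lit 0)), ((nat_lit 0x14330b0cc2c50cc2c330b), (nat_lit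 14)), ((nat_lit 0xc330b0cc2c30cc2c330b), (nat_lit 14)), ((nat_lit 0), (nat_lit 0)), ((nat_lit 0), (nat_lit 0)), ((nat_lit 0), (nat_lit 0)), ((nat_lit 0), (nat_lit 0)), ((nat_lit 0), (nat_lit 0))] (nat_lit 0x31233931233931289088f31233988e88d33931233988c88b3b988a8893cb63909309f0a2093),
.c (nat_lit 43) (nat_lit 0x801060b2828594156870a35f04c9101089a0b27c0608982c7381059408079030e7011db00c4f8071f003113011cf00a4880403d028d380a244060ad024678b82ac580f62a0f3140498981bc480d222099100438781d4381261a06f0c0348582642810e120ab0804c83821c0400a0005d),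
.c (nat_lit 1) (nat_lit 496),
.c (nat_lit 5) (nat_lit 0x5170224280821c0479a00007),
.c (nat_lit 46) (nat_lit 0xc1e4040920373c02122009cf00606e041ce02913010910060680427c028898181300c086072ca0401d0241241206e0a1ce0583c8289100c0740704c03821820b28120680a04c0502182cb28180740d44d0813e04444c243e01204c09b5f04810c26594146870a82a8581302c086172ca0081700a248008ce),
.c (nat_lit 1) (nat_lit 768),
.c (nat_lit 0) (nat_lit 0),
.c (nat_lit 0) (nat_lit 0),
.c (nat_lit 11) (nat_lit 0xc2dc0000e088970369a8136440413204f87018308001d405a6a00d91),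
.c (nat_lit 0) (nat_lit 0),
.c (nat_lit 0) (nat_lit 0),
.c (nat_lit 0) (nat_lit 0),
.c (nat_lit 0) (nat_lit 0),
.c (nat_lit 0) (nat_lit 0),
.c (nat_lit 0) (nat_lit 0),
.c (nat_lit 0) (nat_lit 0),
.c (nat_lit 0) (nat_lit 0),
.c (nat_lit 0) (nat_lit 0),
.c (nat_lit 0) (nat_lit 0),
.c (nat_lit 0) (nat_lit 0),
.c (nat_lit 0) (nat_lit 0),
.c (nat_lit 0) (nat_lit 0),
.c (nat_lit 0) (nat_lit 0),
.c (nat_lit 0) (nat_lit 0),
.c (nat_lit 0) (nat_lit 0),
.i (nat_lit 3) (nat_lit 2) [((nat_lit 2), (nat_lit 1)), ((nat_lit 11), (nat_lit 1)), ((nat_lit 0x24064), (nat_lit 3)), ((nat_lit 4), (nat_lit 1)), ((nat_lit 0xa40640a4064), (nat_lit 8)), ((nat_lit 0x2e40642e4064), (nat_lit 8)), ((nat_lit 9), (nat_lit 1)), ((nat_lit 0x6d159a611), (nat_lit 6)), ((nat_lit 0x901904901904), (nat_lit 8)), ((nat_lit 0x8b90190b9019022e40642e4064), (nat_lit 18)), ((nat_lit 0x901909901909), (nat_lit 8)), ((nat_lit 0x9b4566984426d159a611),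 (nat_lit 14)), ((nat_lit 0x90191b4566984640646d159a611), (nat_lit 18)), ((nat_lit 0xa4064124064102901904901904), (nat_lit 18)), ((nat_lit 0x2e406412406410b901904901904), (nat_lit 18)), ((nat_lit 0x9019026d159a61109b45669846406409b4566984426d159a611), (nat_lit 34)), ((nat_lit 0xa40646d159a61190191b45669844290191b4566984640646d159a611), (nat_lit 38)), ((nat_lit 0x9019029019049019040a40641240641240640a4064124064102901904901904), (nat_lit 42)), ((nat_lit 0x1029019049019040a40641240641040a4064124064102901904901904), (nat_lit 38)), ((nat_lit 0x8b9019049019042e40641240641022e406412406410b901904901904), (nat_lit 38)), ((nat_lit 0x90190b9019049019042e40641240641240642e406412406410b901904901904), (nat_lit 42)), ((nat_lit 0x10b9019049019042e40641240641042e406412406410b901904901904), (nat_lit 38)), ((nat_lit 0x9019022e406412406410b90190490190408b9019049019042e406412406412406408b9019049019042e40641240641022e406412406410b901904901904),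 (nat_lit 82)), ((nat_lit 0x1022e406412406410b90190490190408b9019049019042e406412406410408b9019049019042e40641240641022e406412406410b901904901904), (nat_lit 78))] (nat_lit 0x8a98a88a78a68a58a48a38a28a18a089f89e89d89c89b89a89943b8988978960962a62b2090),
.c (nat_lit 14) (nat_lit 0x13008b7602441008d70062a80c35d0504c85035424132100b70706783030c141aa00099),
.i (nat_lit 3) (nat_lit 21) [((nat_lit 2), (nat_lit 1)), ((nat_lit 11), (nat_lit 1)), ((nat_lit 0x24064), (nat_lit 3)), ((nat_lit 4), (nat_lit 1)), ((nat_lit 0xa40640a4064), (nat_lit 8)), ((nat_lit 0x2e40642e4064), (nat_lit 8)), ((nat_lit 9), (nat_lit 1)), ((nat_lit 0x6d159a611), (nat_lit 6)), ((nat_lit 0x901904901904), (nat_lit 8)), ((nat_lit 0x8b90190b9019022e40642e4064), (nat_lit 18)), ((nat_lit 0x901909901909), (nat_lit 8)), ((nat_lit 0x9b4566984426d159a611), (nat_lit 14)), ((nat_lit 0x90191b4566984640646d159a611), (nat_lit 18)), ((nat_lit 0xa4064124064102901904901904),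 (nat_lit 18)), ((nat_lit 0x2e406412406410b901904901904), (nat_lit 18)), ((nat_lit 0x9019026d159a61109b45669846406409b4566984426d159a611), (nat_lit 34)), ((nat_lit 0xa40646d159a61190191b45669844290191b4566984640646d159a611), (nat_lit 38)), ((nat_lit 0x9019029019049019040a40641240641240640a4064124064102901904901904), (nat_lit 42)), ((nat_lit 0x1029019049019040a40641240641040a4064124064102901904901904), (nat_lit 38)), ((nat_lit 0x8b9019049019042e40641240641022e406412406410b901904901904), (nat_lit 38)), ((nat_lit 0x90190b9019049019042e40641240641240642e406412406410b901904901904), (nat_lit 42)), ((nat_lit 0x10b9019049019042e40641240641042e406412406410b901904901904), (nat_lit 38)), ((nat_lit 0x9019022e406412406410b90190490190408b9019049019042e406412406412406408b9019049019042e40641240641022e406412406410b901904901904), (nat_lit 82)), ((nat_lit 0x1022e406412406410b90190490190408b9019049019042e406412406410408b9019049019042e40641240641022e406412406410b901904901904),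 (nat_lit 78))] (nat_lit 0x8a98a88a78a68a58a48a38a28a18a089f89e89d89c89b89a89943b8988978960962a62b2090),
.c (nat_lit 73) (nat_lit 0x1072046d60116500c908020e2136ae0a1a8855ab8240e01383508b57048d4426d5c0f835051a982db30186a6097ea0503082c1c0120c20a833043640246c014d900b1b00441982016c120c20a860063f000a0e80ad90061b003b64011f8008098051b0018388341e41c3840c24405b6f025624144880a06705b6502c1a80e35c086c804b4d0286b80d156048ac02c55c246ba10d35076c8830d74281aa12e811107988033c3c1261c0630d04986046c2c1e6140630304c8102dc04132000d5),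
.c (nat_lit 1) (nat_lit 980),
.c (nat_lit 4) (nat_lit 0x105380000c0469a0007b),
.c (nat_lit 8) (nat_lit 0x174f80001c10d5e06d170204f80aefc000f602d17),
.c (nat_lit 0) (nat_lit 0),
.c (nat_lit 0) (nat_lit 0),
.c (nat_lit 0) (nat_lit 0),
.c (nat_lit 0) (nat_lit 0),
.c (nat_lit 0) (nat_lit 0),
.c (nat_lit 24) (nat_lit 0x31ea81023c047aa0008f0262582b0ec100f60c341046258130cc040d20607b0361d830d04118960607b020348081ec05876083f3031ea810fcc047aa00001),
.c (nat_lit 20) (nat_lit 0x3053810bec0414e002fb0a053848bec2014e0e2fb0656782829c105f606acf02053808bec00006040a50405280b0cc000d20407b),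
.c (nat_lit 0) (nat_lit 0),
.c (nat_lit 23) (nat_lit 0x182fc0814e020bf000538602fc2c14e140bf09053841cc41c17e0cacf05053821cc40c17e04acf0105380000c0414a040bd030528202f4058760007b),
.c (nat_lit 0) (nat_lit 0),
.i (nat_lit 3) (nat_lit 16) [((nat_lit 1), (nat_lit 1)), ((nat_lit 12), (nat_lit 1)), ((nat_lit 2), (nat_lit 1)), ((nat_lit 4), (nat_lit 1)), ((nat_lit 5), (nat_lit 1)), ((nat_lit 19), (nat_lit 1)), ((nat_lit 8), (nat_lit 1)), ((nat_lit 0x792696495), (nat_lit 6)), ((nat_lit 9), (nat_lit 1)), ((nat_lit 0), (nat_lit 0)), ((nat_lit 13), (nat_lit 1)), ((nat_lit 0x5e49a592541792696495), (nat_lit 14)), ((nat_lit 0x9e49a592542792696495), (nat_lit 14)), ((nat_lit 15), (nat_lit 1)), ((nat_lit 0x309309), (nat_lit 4)), ((nat_lit 0x8179269649505e49a59254205e49a592541792696495), (nat_lit 30)), ((nat_lit 0x4279269649509e49a59254109e49a592542792696495), (nat_lit 30)), ((nat_lit 23), (nat_lit 1)), ((nat_lit 25), (nat_lit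 1)), ((nat_lit 0x3cc3cc), (nat_lit 4)), ((nat_lit 0x4cc25324c), (nat_lit 6)), ((nat_lit 0x10c24c244309309), (nat_lit 10)), ((nat_lit 0x5cf4cc5cf4cf30f), (nat_lit 10)), ((nat_lit 0x10f30f3043cc3cc), (nat_lit 10))] (nat_lit 0x8ba8b98b88b78b63664c48b58b48b33658b28b138382243b8b03498af3638ae0960902a508f),
.c (nat_lit 11) (nat_lit 0x81e80869805176071a68301ec2c14a1407b09034840294040f600069),
.i (nat_lit 3) (nat_lit 90) [((nat_lit 1), (nat_lit 1)), ((nat_lit 12), (nat_lit 1)), ((nat_lit 2), (nat_lit 1)), ((nat_lit 4), (nat_lit 1)), ((nat_lit 5), (nat_lit 1)), ((nat_lit 19), (nat_lit 1)), ((nat_lit 8), (nat_lit 1)), ((nat_lit 0x792696495), (nat_lit 6)), ((nat_lit 9), (nat_lit 1)), ((nat_lit 0), (nat_lit 0)), ((nat_lit 13), (nat_lit 1)), ((nat_lit 0x5e49a592541792696495), (nat_lit 14)), ((nat_lit 0x9e49a592542792696495), (nat_lit 14)), ((nat_lit 15), (nat_lit 1)), ((nat_lit 0x309309), (nat_lit 4)), ((nat_lit 0x8179269649505e49a59254205e49a592541792696495),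 (nat_lit 30)), ((nat_lit 0x4279269649509e49a59254109e49a592542792696495), (nat_lit 30)), ((nat_lit 23), (nat_lit 1)), ((nat_lit 25), (nat_lit 1)), ((nat_lit 0x3cc3cc), (nat_lit 4)), ((nat_lit 0x4cc25324c), (nat_lit 6)), ((nat_lit 0x10c24c244309309), (nat_lit 10)), ((nat_lit 0x5cf4cc5cf4cf30f), (nat_lit 10)), ((nat_lit 0x10f30f3043cc3cc), (nat_lit 10))] (nat_lit 0x8ba8b98b88b78b63664c48b58b48b33658b28b138382243b8b03498af3638ae0960902a508f),
.c (nat_lit 5) (nat_lit 0x7a018bd808d341411a0007b),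
.i (nat_lit 3) (nat_lit 99) [((nat_lit 1), (nat_lit 1)), ((nat_lit 12), (nat_lit 1)), ((nat_lit 2), (nat_lit 1)), ((nat_lit 4), (nat_lit 1)), ((nat_lit 5), (nat_lit 1)), ((nat_lit 19), (nat_lit 1)), ((nat_lit 8), (nat_lit 1)), ((nat_lit 0x792696495), (nat_lit 6)), ((nat_lit 9), (nat_lit 1)), ((nat_lit 0), (nat_lit 0)), ((nat_lit 13), (nat_lit 1)), ((nat_lit 0x5e49a592541792696495), (nat_lit 14)), ((nat_lit 0x9e49a592542792696495), (nat_lit 14)), ((nat_lit 15), (nat_lit 1)), ((nat_lit 0x309309), (nat_lit 4)), ((nat_lit 0x8179269649505e49a59254205e49a592541792696495), (nat_lit 30)), ((nat_lit 0x4279269649509e49a59254109e49a592542792696495), (nat_lit 30)), ((nat_lit 23), (nat_lit 1)), ((nat_lit 25), (nat_lit 1)), ((nat_lit 0x3cc3cc), (nat_lit 4)), ((nat_lit 0x4cc25324c), (nat_lit 6)), ((nat_lit 0x10c24c244309309), (nat_lit 10)), ((nat_lit 0x5cf4cc5cf4cf30f), (nat_lit 10)), ((nat_lit 0x10f30f3043cc3cc), (nat_lit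 10))] (nat_lit 0x8ba8b98b88b78b63664c48b58b48b33658b28b138382243b8b03498af3638ae0960902a508f),
.c (nat_lit 16) (nat_lit 0x4600c5f0101180a06808657038d501a2fe200bd0f046870294140d20808d0303d8102340414a0008d),
.i (nat_lit 3) (nat_lit 130) [((nat_lit 1), (nat_lit 1)), ((nat_lit 12), (nat_lit 1)), ((nat_lit 2), (nat_lit 1)), ((nat_lit 4), (nat_lit 1)), ((nat_lit 5), (nat_lit 1)), ((nat_lit 19), (nat_lit 1)), ((nat_lit 8), (nat_lit 1)), ((nat_lit 0x792696495), (nat_lit 6)), ((nat_lit 9), (nat_lit 1)), ((nat_lit 0), (nat_lit 0)), ((nat_lit 13), (nat_lit 1)), ((nat_lit 0x5e49a592541792696495), (nat_lit 14)), ((nat_lit 0x9e49a592542792696495), (nat_lit 14)), ((nat_lit 15), (nat_lit 1)), ((nat_lit 0x309309), (nat_lit 4)), ((nat_lit 0x8179269649505e49a59254205e49a592541792696495), (nat_lit 30)), ((nat_lit 0x4279269649509e49a59254109e49a592542792696495), (nat_lit 30)), ((nat_lit 23), (nat_lit 1)), ((nat_lit 25), (nat_lit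 1)), ((nat_lit 0x3cc3cc), (nat_lit 4)), ((nat_lit 0x4cc25324c), (nat_lit 6)), ((nat_lit 0x10c24c244309309), (nat_lit 10)), ((nat_lit 0x5cf4cc5cf4cf30f), (nat_lit 10)), ((nat_lit 0x10f30f3043cc3cc), (nat_lit 10))] (nat_lit 0x8ba8b98b88b78b63664c48b58b48b33658b28b138382243b8b03498af3638ae0960902a508f),
.c (nat_lit 5) (nat_lit 0x68018c1808e44140f600069),
.i (nat_lit 3) (nat_lit 138) [((nat_lit 1), (nat_lit 1)), ((nat_lit 12), (nat_lit 1)), ((nat_lit 2), (nat_lit 1)), ((nat_lit 4), (nat_lit 1)), ((nat_lit 5), (nat_lit 1)), ((nat_lit 19), (nat_lit 1)), ((nat_lit 8), (nat_lit 1)), ((nat_lit 0x792696495), (nat_lit 6)), ((nat_lit 9), (nat_lit 1)), ((nat_lit 0), (nat_lit 0)), ((nat_lit 13), (nat_lit 1)), ((nat_lit 0x5e49a592541792696495), (nat_lit 14)), ((nat_lit 0x9e49a592542792696495), (nat_lit 14)), ((nat_lit 15), (nat_lit 1)), ((nat_lit 0x309309), (nat_lit 4)), ((nat_lit 0x8179269649505e49a59254205e49a592541792696495),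 (nat_lit 30)), ((nat_lit 0x4279269649509e49a59254109e49a592542792696495), (nat_lit 30)), ((nat_lit 23), (nat_lit 1)), ((nat_lit 25), (nat_lit 1)), ((nat_lit 0x3cc3cc), (nat_lit 4)), ((nat_lit 0x4cc25324c), (nat_lit 6)), ((nat_lit 0x10c24c244309309), (nat_lit 10)), ((nat_lit 0x5cf4cc5cf4cf30f), (nat_lit 10)), ((nat_lit 0x10f30f3043cc3cc), (nat_lit 10))] (nat_lit 0x8ba8b98b88b78b63664c48b58b48b33658b28b138382243b8b03498af3638ae0960902a508f),
.c (nat_lit 15) (nat_lit 0x2d80413c040b009073043b500e30c070e90668b82b8ac11a2e0e0b7090738102c40413e000b7),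
.i (nat_lit 3) (nat_lit 145) [((nat_lit 1), (nat_lit 1)), ((nat_lit 12), (nat_lit 1)), ((nat_lit 2), (nat_lit 1)), ((nat_lit 4), (nat_lit 1)), ((nat_lit 5), (nat_lit 1)), ((nat_lit 19), (nat_lit 1)), ((nat_lit 8), (nat_lit 1)), ((nat_lit 0x792696495), (nat_lit 6)), ((nat_lit 9), (nat_lit 1)), ((nat_lit 0), (nat_lit 0)), ((nat_lit 13), (nat_lit 1)), ((nat_lit 0x5e49a592541792696495), (nat_lit 14)), ((nat_lit 0x9e49a592542792696495), (nat_lit 14)), ((nat_lit 15), (nat_lit 1)), ((nat_lit 0x309309), (nat_lit 4)), ((nat_lit 0x8179269649505e49a59254205e49a592541792696495), (nat_lit 30)), ((nat_lit 0x4279269649509e49a59254109e49a592542792696495), (nat_lit 30)), ((nat_lit 23), (nat_lit 1)), ((nat_lit 25), (nat_lit 1)), ((nat_lit 0x3cc3cc), (nat_lit 4)), ((nat_lit 0x4cc25324c), (nat_lit 6)), ((nat_lit 0x10c24c244309309), (nat_lit 10)), ((nat_lit 0x5cf4cc5cf4cf30f), (nat_lit 10)), ((nat_lit 0x10f30f3043cc3cc),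 (nat_lit 10))] (nat_lit 0x8ba8b98b88b78b63664c48b58b48b33658b28b138382243b8b03498af3638ae0960902a508f),
.c (nat_lit 1) (nat_lit 0x118a),
.i (nat_lit 3) (nat_lit 148) [((nat_lit 1), (nat_lit 1)), ((nat_lit 12), (nat_lit 1)), ((nat_lit 2), (nat_lit 1)), ((nat_lit 4), (nat_lit 1)), ((nat_lit 5), (nat_lit 1)), ((nat_lit 19), (nat_lit 1)), ((nat_lit 8), (nat_lit 1)), ((nat_lit 0x792696495), (nat_lit 6)), ((nat_lit 9), (nat_lit 1)), ((nat_lit 0), (nat_lit 0)), ((nat_lit 13), (nat_lit 1)), ((nat_lit 0x5e49a592541792696495), (nat_lit 14)), ((nat_lit 0x9e49a592542792696495), (nat_lit 14)), ((nat_lit 15), (nat_lit 1)), ((nat_lit 0x309309), (nat_lit 4)), ((nat_lit 0x8179269649505e49a59254205e49a592541792696495), (nat_lit 30)), ((nat_lit 0x4279269649509e49a59254109e49a592542792696495), (nat_lit 30)), ((nat_lit 23), (nat_lit 1)), ((nat_lit 25), (nat_lit 1)), ((nat_lit 0x3cc3cc), (nat_lit 4)), ((nat_lit 0x4cc25324c),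 (nat_lit 6)), ((nat_lit 0x10c24c244309309), (nat_lit 10)), ((nat_lit 0x5cf4cc5cf4cf30f), (nat_lit 10)), ((nat_lit 0x10f30f3043cc3cc), (nat_lit 10))] (nat_lit 0x8ba8b98b88b78b63664c48b58b48b33658b28b138382243b8b03498af3638ae0960902a508f),
.c (nat_lit 15) (nat_lit 0x463c0411a0034d058c081c5f40811a0234d0003d8182340814a0208d000528032bc046aa040bd),
.c (nat_lit 7) (nat_lit 0x40350106b80ad900669a038d700e2ac010b6),
.c (nat_lit 4) (nat_lit 0x10520082300a32001180),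
.c (nat_lit 3) (nat_lit 0x1d24041b600005),
.c (nat_lit 5) (nat_lit 0x112b028588081d4048e600005),
.c (nat_lit 5) (nat_lit 0xef021b280827c04fd200005),
.c (nat_lit 1) (nat_lit 0x915),
.c (nat_lit 20) (nat_lit 0x3895810bf406256002fd0a895848bf4222560e2fd0623982c4ac105fa0647302895808bf40000a040ab0405580a6d4000de04075),
.c (nat_lit 3) (nat_lit 0x1c6c041da0006f),
.c (nat_lit 3) (nat_lit 0x1f9c041da00003),
.c (nat_lit 0) (nat_lit 0),
.c (nat_lit 0) (nat_lit 0),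
.c (nat_lit 0) (nat_lit 0),
.c (nat_lit 0) (nat_lit 0),
.c (nat_lit 0) (nat_lit 0),
.i (nat_lit 3) (nat_lit 39) [((nat_lit 3), (nat_lit 1)), ((nat_lit 6), (nat_lit 1)), ((nat_lit 10), (nat_lit 1)), ((nat_lit 2), (nat_lit 1)), ((nat_lit 0), (nat_lit 0)), ((nat_lit 28), (nat_lit 1)), ((nat_lit 7), (nat_lit 1)), ((nat_lit 11), (nat_lit 1)), ((nat_lit 18), (nat_lit 1)), ((nat_lit 0), (nat_lit 0)), ((nat_lit 31), (nat_lit 1)), ((nat_lit 20), (nat_lit 1)), ((nat_lit 0x2ca2ca), (nat_lit 4)), ((nat_lit 31), (nat_lit 1)), ((nat_lit 0x9a4), (nat_lit 2)), ((nat_lit 0x50a50a), (nat_lit 4)), ((nat_lit 0x50b29428b), (nat_lit 6)), ((nat_lit 0), (nat_lit 0)), ((nat_lit 0), (nat_lit 0)), ((nat_lit 0xe69039a4), (nat_lit 6)), ((nat_lit 0x2a690a9a4), (nat_lit 6)), ((nat_lit 0xa69029a4), (nat_lit 6)), ((nat_lit 0x2839a40e690a0e69039a4), (nat_lit 14)), ((nat_lit 0x839a40e69020e69039a4), (nat_lit 14))] (nat_lit 0x8d68d58d48d38d28d18d08cf8ce5818cd4f08cc7748cb3e32fe59e58030f6390900ae0a2093),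
.c (nat_lit 11) (nat_lit 0xd1804e980aab6021a3019d300a35e1206f0808a838424041b60009f),
.i (nat_lit 3) (nat_lit 41) [((nat_lit 3), (nat_lit 1)), ((nat_lit 6), (nat_lit 1)), ((nat_lit 10), (nat_lit 1)), ((nat_lit 2), (nat_lit 1)), ((nat_lit 0), (nat_lit 0)), ((nat_lit 28), (nat_lit 1)), ((nat_lit 7), (nat_lit 1)), ((nat_lit 11), (nat_lit 1)), ((nat_lit 18), (nat_lit 1)), ((nat_lit 0), (nat_lit 0)), ((nat_lit 31), (nat_lit 1)), ((nat_lit 20), (nat_lit 1)), ((nat_lit 0x2ca2ca), (nat_lit 4)), ((nat_lit 31), (nat_lit 1)), ((nat_lit 0x9a4), (nat_lit 2)), ((nat_lit 0x50a50a), (nat_lit 4)), ((nat_lit 0x50b29428b), (nat_lit 6)), ((nat_lit 0), (nat_lit 0)), ((nat_lit 0), (nat_lit 0)), ((nat_lit 0xe69039a4), (nat_lit 6)), ((nat_lit 0x2a690a9a4), (nat_lit 6)), ((nat_lit 0xa69029a4), (nat_lit 6)), ((nat_lit 0x2839a40e690a0e69039a4), (nat_lit 14)), ((nat_lit 0x839a40e69020e69039a4), (nat_lit 14))] (nat_lit 0x8d68d58d48d38d28d18d08cf8ce5818cd4f08cc7748cb3e32fe59e58030f6390900ae0a2093),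
.c (nat_lit 31) (nat_lit 0x9fa800fd004056010ed07aad83c1b41c35e0d3d70635e0201540f0b00673c0107680c60c0912a051830344a81c60c10304093f40503702c60c183040d06e013e380a366120050808a838424040ae000ed),
.i (nat_lit 3) (nat_lit 60) [((nat_lit 3), (nat_lit 1)), ((nat_lit 6), (nat_lit 1)), ((nat_lit 10), (nat_lit 1)), ((nat_lit 2), (nat_lit 1)), ((nat_lit 0), (nat_lit 0)), ((nat_lit 28), (nat_lit 1)), ((nat_lit 7), (nat_lit 1)), ((nat_lit 11), (nat_lit 1)), ((nat_lit 18), (nat_lit 1)), ((nat_lit 0), (nat_lit 0)), ((nat_lit 31), (nat_lit 1)), ((nat_lit 20), (nat_lit 1)), ((nat_lit 0x2ca2ca), (nat_lit 4)), ((nat_lit 31), (nat_lit 1)), ((nat_lit 0x9a4), (nat_lit 2)), ((nat_lit 0x50a50a), (nat_lit 4)), ((nat_lit 0x50b29428b), (nat_lit 6)), ((nat_lit 0), (nat_lit 0)), ((nat_lit 0), (nat_lit 0)), ((nat_lit 0xe69039a4), (nat_lit 6)), ((nat_lit 0x2a690a9a4), (nat_lit 6)), ((nat_lit 0xa69029a4), (nat_lit 6)), ((nat_lit 0x2839a40e690a0e69039a4),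 (nat_lit 14)), ((nat_lit 0x839a40e69020e69039a4), (nat_lit 14))] (nat_lit 0x8d68d58d48d38d28d18d08cf8ce5818cd4f08cc7748cb3e32fe59e58030f6390900ae0a2093),
.c (nat_lit 5) (nat_lit 0x6e018db809d34141560006f),
.i (nat_lit 3) (nat_lit 75) [((nat_lit 3), (nat_lit 1)), ((nat_lit 6), (nat_lit 1)), ((nat_lit 10), (nat_lit 1)), ((nat_lit 2), (nat_lit 1)), ((nat_lit 0), (nat_lit 0)), ((nat_lit 28), (nat_lit 1)), ((nat_lit 7), (nat_lit 1)), ((nat_lit 11), (nat_lit 1)), ((nat_lit 18), (nat_lit 1)), ((nat_lit 0), (nat_lit 0)), ((nat_lit 31), (nat_lit 1)), ((nat_lit 20), (nat_lit 1)), ((nat_lit 0x2ca2ca), (nat_lit 4)), ((nat_lit 31), (nat_lit 1)), ((nat_lit 0x9a4), (nat_lit 2)), ((nat_lit 0x50a50a), (nat_lit 4)), ((nat_lit 0x50b29428b), (nat_lit 6)), ((nat_lit 0), (nat_lit 0)), ((nat_lit 0), (nat_lit 0)), ((nat_lit 0xe69039a4), (nat_lit 6)), ((nat_lit 0x2a690a9a4), (nat_lit 6)), ((nat_lit 0xa69029a4), (nat_lit 6)),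 ((nat_lit 0x2839a40e690a0e69039a4), (nat_lit 14)), ((nat_lit 0x839a40e69020e69039a4), (nat_lit 14))] (nat_lit 0x8d68d58d48d38d28d18d08cf8ce5818cd4f08cc7748cb3e32fe59e58030f6390900ae0a2093),
.c (nat_lit 11) (nat_lit 0x1d002376090b10548a8442c42415610075070378302ac140de08075),
.i (nat_lit 3) (nat_lit 85) [((nat_lit 3), (nat_lit 1)), ((nat_lit 6), (nat_lit 1)), ((nat_lit 10), (nat_lit 1)), ((nat_lit 2), (nat_lit 1)), ((nat_lit 0), (nat_lit 0)), ((nat_lit 28), (nat_lit 1)), ((nat_lit 7), (nat_lit 1)), ((nat_lit 11), (nat_lit 1)), ((nat_lit 18), (nat_lit 1)), ((nat_lit 0), (nat_lit 0)), ((nat_lit 31), (nat_lit 1)), ((nat_lit 20), (nat_lit 1)), ((nat_lit 0x2ca2ca), (nat_lit 4)), ((nat_lit 31), (nat_lit 1)), ((nat_lit 0x9a4), (nat_lit 2)), ((nat_lit 0x50a50a), (nat_lit 4)), ((nat_lit 0x50b29428b), (nat_lit 6)), ((nat_lit 0), (nat_lit 0)), ((nat_lit 0), (nat_lit 0)), ((nat_lit 0xe69039a4), (nat_lit 6)), ((nat_lit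 0x2a690a9a4), (nat_lit 6)), ((nat_lit 0xa69029a4), (nat_lit 6)), ((nat_lit 0x2839a40e690a0e69039a4), (nat_lit 14)), ((nat_lit 0x839a40e69020e69039a4), (nat_lit 14))] (nat_lit 0x8d68d58d48d38d28d18d08cf8ce5818cd4f08cc7748cb3e32fe59e58030f6390900ae0a2093),
.c (nat_lit 25) (nat_lit 0x9e01037010d180ce9808346053a6030450182100eab6018d800c6fc0a3620271b021b2842adc1c2120e115063a6828d1c10e9a0671b021a38081bc141b60009f),
.i (nat_lit 3) (nat_lit 106) [((nat_lit 3), (nat_lit 1)), ((nat_lit 6), (nat_lit 1)), ((nat_lit 10), (nat_lit 1)), ((nat_lit 2), (nat_lit 1)), ((nat_lit 0), (nat_lit 0)), ((nat_lit 28), (nat_lit 1)), ((nat_lit 7), (nat_lit 1)), ((nat_lit 11), (nat_lit 1)), ((nat_lit 18), (nat_lit 1)), ((nat_lit 0), (nat_lit 0)), ((nat_lit 31), (nat_lit 1)), ((nat_lit 20), (nat_lit 1)), ((nat_lit 0x2ca2ca), (nat_lit 4)), ((nat_lit 31), (nat_lit 1)), ((nat_lit 0x9a4), (nat_lit 2)), ((nat_lit 0x50a50a), (nat_lit 4)),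 ((nat_lit 0x50b29428b), (nat_lit 6)), ((nat_lit 0), (nat_lit 0)), ((nat_lit 0), (nat_lit 0)), ((nat_lit 0xe69039a4), (nat_lit 6)), ((nat_lit 0x2a690a9a4), (nat_lit 6)), ((nat_lit 0xa69029a4), (nat_lit 6)), ((nat_lit 0x2839a40e690a0e69039a4), (nat_lit 14)), ((nat_lit 0x839a40e69020e69039a4), (nat_lit 14))] (nat_lit 0x8d68d58d48d38d28d18d08cf8ce5818cd4f08cc7748cb3e32fe59e58030f6390900ae0a2093),
.c (nat_lit 68) (nat_lit 0x49081fa838b281ed120a04305965031a241a5940c06d058d7828f5c12d78050550242c00dcf0020040218301c4a81060c0b12a06183038c1020fd0120dc0a183058c10301b81a1140d084072ad80c1d8047ea013f40146d006384031b50f55b8704243822a1a0dd0c182858c1c281ba127e908182838c1c1a2560a30704895819fa40860e020050473c82c2c41815614d790b3d7860d7c341b61a0ed0c04c85821c28126120990807683821c1812600093),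
.i (nat_lit 3) (nat_lit 116) [((nat_lit 3), (nat_lit 1)), ((nat_lit 6), (nat_lit 1)), ((nat_lit 10), (nat_lit 1)), ((nat_lit 2), (nat_lit 1)), ((nat_lit 0), (nat_lit 0)), ((nat_lit 28), (nat_lit 1)), ((nat_lit 7), (nat_lit 1)), ((nat_lit 11), (nat_lit 1)), ((nat_lit 18), (nat_lit 1)), ((nat_lit 0), (nat_lit 0)), ((nat_lit 31), (nat_lit 1)), ((nat_lit 20), (nat_lit 1)), ((nat_lit 0x2ca2ca), (nat_lit 4)), ((nat_lit 31), (nat_lit 1)), ((nat_lit 0x9a4), (nat_lit 2)), ((nat_lit 0x50a50a), (nat_lit 4)), ((nat_lit 0x50b29428b), (nat_lit 6)), ((nat_lit 0), (nat_lit 0)), ((nat_lit 0), (nat_lit 0)), ((nat_lit 0xe69039a4), (nat_lit 6)), ((nat_lit 0x2a690a9a4), (nat_lit 6)), ((nat_lit 0xa69029a4), (nat_lit 6)), ((nat_lit 0x2839a40e690a0e69039a4), (nat_lit 14)), ((nat_lit 0x839a40e69020e69039a4), (nat_lit 14))] (nat_lit 0x8d68d58d48d38d28d18d08cf8ce5818cd4f08cc7748cb3e32fe59e58030f6390900ae0a2093),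
.c (nat_lit 1) (nat_lit 0x11c6),
.i (nat_lit 3) (nat_lit 132) [((nat_lit 3), (nat_lit 1)), ((nat_lit 6), (nat_lit 1)), ((nat_lit 10), (nat_lit 1)), ((nat_lit 2), (nat_lit 1)), ((nat_lit 0), (nat_lit 0)), ((nat_lit 28), (nat_lit 1)), ((nat_lit 7), (nat_lit 1)), ((nat_lit 11), (nat_lit 1)), ((nat_lit 18), (nat_lit 1)), ((nat_lit 0), (nat_lit 0)), ((nat_lit 31), (nat_lit 1)), ((nat_lit 20), (nat_lit 1)), ((nat_lit 0x2ca2ca), (nat_lit 4)), ((nat_lit 31), (nat_lit 1)), ((nat_lit 0x9a4), (nat_lit 2)), ((nat_lit 0x50a50a), (nat_lit 4)), ((nat_lit 0x50b29428b), (nat_lit 6)), ((nat_lit 0), (nat_lit 0)), ((nat_lit 0), (nat_lit 0)), ((nat_lit 0xe69039a4), (nat_lit 6)), ((nat_lit 0x2a690a9a4), (nat_lit 6)), ((nat_lit 0xa69029a4), (nat_lit 6)), ((nat_lit 0x2839a40e690a0e69039a4), (nat_lit 14)), ((nat_lit 0x839a40e69020e69039a4), (nat_lit 14))] (nat_lit 0x8d68d58d48d38d28d18d08cf8ce5818cd4f08cc7748cb3e32fe59e58030f6390900ae0a2093)]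

theorem c18 : chk db th.hy ths 2278 J18 2180 = true := by decide +kernel

set_option maxRecDepth 100000 in
/-- Justifications. -/
noncomputable def J19 : List Js := [
.c (nat_lit 21) (nat_lit 0x6e010550101b80c0ac10074058de0247281237a0e075071ed831a44147b608691068dc84b01c20156140db0302b8101bc041560006f),
.i (nat_lit 3) (nat_lit 150) [((nat_lit 3), (nat_lit 1)), ((nat_lit 6), (nat_lit 1)), ((nat_lit 10), (nat_lit 1)), ((nat_lit 2), (nat_lit 1)), ((nat_lit 0), (nat_lit 0)), ((nat_lit 28), (nat_lit 1)), ((nat_lit 7), (nat_lit 1)), ((nat_lit 11), (nat_lit 1)), ((nat_lit 18), (nat_lit 1)), ((nat_lit 0), (nat_lit 0)), ((nat_lit 31), (nat_lit 1)), ((nat_lit 20), (nat_lit 1)), ((nat_lit 0x2ca2ca), (nat_lit 4)), ((nat_lit 31), (nat_lit 1)), ((nat_lit 0x9a4), (nat_lit 2)), ((nat_lit 0x50a50a), (nat_lit 4)), ((nat_lit 0x50b29428b), (nat_lit 6)), ((nat_lit 0), (nat_lit 0)), ((nat_lit 0), (nat_lit 0)), ((nat_lit 0xe69039a4),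 (nat_lit 6)), ((nat_lit 0x2a690a9a4), (nat_lit 6)), ((nat_lit 0xa69029a4), (nat_lit 6)), ((nat_lit 0x2839a40e690a0e69039a4), (nat_lit 14)), ((nat_lit 0x839a40e69020e69039a4), (nat_lit 14))] (nat_lit 0x8d68d58d48d38d28d18d08cf8ce5818cd4f08cc7748cb3e32fe59e58030f6390900ae0a2093),
.c (nat_lit 36) (nat_lit 0x104f0103680c13c080040906d0301b81c68c1074c091a3051d302c228161080c55b0346c01639c0b1b10b55b8504242822a1274d081a3839d341868e0a06f083a48383bc18e920a0ef078e086836c301da080050304f81036c0413e000db),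
.c (nat_lit 1) (nat_lit 754),
.c (nat_lit 16) (nat_lit 0x129f802334211f20e0d507073830f5c141d2083d7031798103a4045e6000010224a819644106c60a0e7),
.c (nat_lit 14) (nat_lit 0x47aa010bb031a7810d3412162070b50285c8081d40c69e0434d0103d810fac055a200001),
.c (nat_lit 0) (nat_lit 0),
.c (nat_lit 0) (nat_lit 0),
.c (nat_lit 0) (nat_lit 0),
.i (nat_lit 3) (nat_lit 54) [((nat_lit 1), (nat_lit 1)), ((nat_lit 5), (nat_lit 1)), ((nat_lit 10), (nat_lit 1)), ((nat_lit 3), (nat_lit 1)), ((nat_lit 17), (nat_lit 1)), ((nat_lit 0x79b), (nat_lit 2)), ((nat_lit 6), (nat_lit 1)), ((nat_lit 779), (nat_lit 2)), ((nat_lit 0), (nat_lit 0)), ((nat_lit 0x452445485), (nat_lit 6)), ((nat_lit 28), (nat_lit 1)), ((nat_lit 0x513), (nat_lit 2)), ((nat_lit 0x28c2ca30b), (nat_lit 6)), ((nat_lit 0), (nat_lit 0)), ((nat_lit 0), (nat_lit 0)), ((nat_lit 0x2944ca513), (nat_lit 6)), ((nat_lit 0x4a30b28c2c128c2ca30b), (nat_lit 14)), ((nat_lit 0), (nat_lit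 0)), ((nat_lit 0), (nat_lit 0)), ((nat_lit 0), (nat_lit 0)), ((nat_lit 0), (nat_lit 0)), ((nat_lit 0), (nat_lit 0)), ((nat_lit 0), (nat_lit 0)), ((nat_lit 0), (nat_lit 0))] (nat_lit 0x3123133123133113123138ee8ed3393118ec8eb4d48ea33488b30d7cc30e8e90930ae09f08f),
.c (nat_lit 8) (nat_lit 0x2800c7780a0ae02acb0804c83827c1813200051),
.i (nat_lit 3) (nat_lit 64) [((nat_lit 1), (nat_lit 1)), ((nat_lit 5), (nat_lit 1)), ((nat_lit 10), (nat_lit 1)), ((nat_lit 3), (nat_lit 1)), ((nat_lit 17), (nat_lit 1)), ((nat_lit 0x79b), (nat_lit 2)), ((nat_lit 6), (nat_lit 1)), ((nat_lit 779), (nat_lit 2)), ((nat_lit 0), (nat_lit 0)), ((nat_lit 0x452445485), (nat_lit 6)), ((nat_lit 28), (nat_lit 1)), ((nat_lit 0x513), (nat_lit 2)), ((nat_lit 0x28c2ca30b), (nat_lit 6)), ((nat_lit 0), (nat_lit 0)), ((nat_lit 0), (nat_lit 0)), ((nat_lit 0x2944ca513), (nat_lit 6)), ((nat_lit 0x4a30b28c2c128c2ca30b), (nat_lit 14)), ((nat_lit 0),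 (nat_lit 0)), ((nat_lit 0), (nat_lit 0)), ((nat_lit 0), (nat_lit 0)), ((nat_lit 0), (nat_lit 0)), ((nat_lit 0), (nat_lit 0)), ((nat_lit 0), (nat_lit 0)), ((nat_lit 0), (nat_lit 0))] (nat_lit 0x3123133123133113123138ee8ed3393118ec8eb4d48ea33488b30d7cc30e8e90930ae09f08f),
.c (nat_lit 2) (nat_lit 0x23c60607b),
.i (nat_lit 3) (nat_lit 65) [((nat_lit 1), (nat_lit 1)), ((nat_lit 5), (nat_lit 1)), ((nat_lit 10), (nat_lit 1)), ((nat_lit 3), (nat_lit 1)), ((nat_lit 17), (nat_lit 1)), ((nat_lit 0x79b), (nat_lit 2)), ((nat_lit 6), (nat_lit 1)), ((nat_lit 779), (nat_lit 2)), ((nat_lit 0), (nat_lit 0)), ((nat_lit 0x452445485), (nat_lit 6)), ((nat_lit 28), (nat_lit 1)), ((nat_lit 0x513), (nat_lit 2)), ((nat_lit 0x28c2ca30b), (nat_lit 6)), ((nat_lit 0), (nat_lit 0)), ((nat_lit 0), (nat_lit 0)), ((nat_lit 0x2944ca513), (nat_lit 6)), ((nat_lit 0x4a30b28c2c128c2ca30b), (nat_lit 14)), ((nat_lit 0), (nat_lit 0)), ((nat_lit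 0), (nat_lit 0)), ((nat_lit 0), (nat_lit 0)), ((nat_lit 0), (nat_lit 0)), ((nat_lit 0), (nat_lit 0)), ((nat_lit 0), (nat_lit 0)), ((nat_lit 0), (nat_lit 0))] (nat_lit 0x3123133123133113123138ee8ed3393118ec8eb4d48ea33488b30d7cc30e8e90930ae09f08f),
.c (nat_lit 32) (nat_lit 0x8073048df81c13c106860804c048d702413c146860704c0422b82c6b80c4aa074650401e8123c80809e05343028260186b80c09e073430202601515c1035c03255022328140f4031e4008f300842c0c212040e7),
.i (nat_lit 3) (nat_lit 127) [((nat_lit 1), (nat_lit 1)), ((nat_lit 5), (nat_lit 1)), ((nat_lit 10), (nat_lit 1)), ((nat_lit 3), (nat_lit 1)), ((nat_lit 17), (nat_lit 1)), ((nat_lit 0x79b), (nat_lit 2)), ((nat_lit 6), (nat_lit 1)), ((nat_lit 779), (nat_lit 2)), ((nat_lit 0), (nat_lit 0)), ((nat_lit 0x452445485), (nat_lit 6)), ((nat_lit 28), (nat_lit 1)), ((nat_lit 0x513), (nat_lit 2)), ((nat_lit 0x28c2ca30b), (nat_lit 6)), ((nat_lit 0), (nat_lit 0)), ((nat_lit 0), (nat_lit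 0)), ((nat_lit 0x2944ca513), (nat_lit 6)), ((nat_lit 0x4a30b28c2c128c2ca30b), (nat_lit 14)), ((nat_lit 0), (nat_lit 0)), ((nat_lit 0), (nat_lit 0)), ((nat_lit 0), (nat_lit 0)), ((nat_lit 0), (nat_lit 0)), ((nat_lit 0), (nat_lit 0)), ((nat_lit 0), (nat_lit 0)), ((nat_lit 0), (nat_lit 0))] (nat_lit 0x3123133123133113123138ee8ed3393118ec8eb4d48ea33488b30d7cc30e8e90930ae09f08f),
.c (nat_lit 2) (nat_lit 0x23d40407b),
.i (nat_lit 3) (nat_lit 136) [((nat_lit 1), (nat_lit 1)), ((nat_lit 5), (nat_lit 1)), ((nat_lit 10), (nat_lit 1)), ((nat_lit 3), (nat_lit 1)), ((nat_lit 17), (nat_lit 1)), ((nat_lit 0x79b), (nat_lit 2)), ((nat_lit 6), (nat_lit 1)), ((nat_lit 779), (nat_lit 2)), ((nat_lit 0), (nat_lit 0)), ((nat_lit 0x452445485), (nat_lit 6)), ((nat_lit 28), (nat_lit 1)), ((nat_lit 0x513), (nat_lit 2)), ((nat_lit 0x28c2ca30b), (nat_lit 6)), ((nat_lit 0), (nat_lit 0)), ((nat_lit 0), (nat_lit 0)), ((nat_lit 0x2944ca513),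 (nat_lit 6)), ((nat_lit 0x4a30b28c2c128c2ca30b), (nat_lit 14)), ((nat_lit 0), (nat_lit 0)), ((nat_lit 0), (nat_lit 0)), ((nat_lit 0), (nat_lit 0)), ((nat_lit 0), (nat_lit 0)), ((nat_lit 0), (nat_lit 0)), ((nat_lit 0), (nat_lit 0)), ((nat_lit 0), (nat_lit 0))] (nat_lit 0x3123133123133113123138ee8ed3393118ec8eb4d48ea33488b30d7cc30e8e90930ae09f08f),
.c (nat_lit 4) (nat_lit 0x1055014730023de040ab),
.i (nat_lit 3) (nat_lit 147) [((nat_lit 1), (nat_lit 1)), ((nat_lit 5), (nat_lit 1)), ((nat_lit 10), (nat_lit 1)), ((nat_lit 3), (nat_lit 1)), ((nat_lit 17), (nat_lit 1)), ((nat_lit 0x79b), (nat_lit 2)), ((nat_lit 6), (nat_lit 1)), ((nat_lit 779), (nat_lit 2)), ((nat_lit 0), (nat_lit 0)), ((nat_lit 0x452445485), (nat_lit 6)), ((nat_lit 28), (nat_lit 1)), ((nat_lit 0x513), (nat_lit 2)), ((nat_lit 0x28c2ca30b), (nat_lit 6)), ((nat_lit 0), (nat_lit 0)), ((nat_lit 0), (nat_lit 0)), ((nat_lit 0x2944ca513), (nat_lit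 6)), ((nat_lit 0x4a30b28c2c128c2ca30b), (nat_lit 14)), ((nat_lit 0), (nat_lit 0)), ((nat_lit 0), (nat_lit 0)), ((nat_lit 0), (nat_lit 0)), ((nat_lit 0), (nat_lit 0)), ((nat_lit 0), (nat_lit 0)), ((nat_lit 0), (nat_lit 0)), ((nat_lit 0), (nat_lit 0))] (nat_lit 0x3123133123133113123138ee8ed3393118ec8eb4d48ea33488b30d7cc30e8e90930ae09f08f),
.c (nat_lit 17) (nat_lit 0x500a828021368156c00c4da018f980c16c0e3c2180990b04f85026424156100a50704c83027c1413200051),
.i (nat_lit 3) (nat_lit 155) [((nat_lit 1), (nat_lit 1)), ((nat_lit 5), (nat_lit 1)), ((nat_lit 10), (nat_lit 1)), ((nat_lit 3), (nat_lit 1)), ((nat_lit 17), (nat_lit 1)), ((nat_lit 0x79b), (nat_lit 2)), ((nat_lit 6), (nat_lit 1)), ((nat_lit 779), (nat_lit 2)), ((nat_lit 0), (nat_lit 0)), ((nat_lit 0x452445485), (nat_lit 6)), ((nat_lit 28), (nat_lit 1)), ((nat_lit 0x513), (nat_lit 2)), ((nat_lit 0x28c2ca30b), (nat_lit 6)), ((nat_lit 0), (nat_lit 0)), ((nat_lit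 0), (nat_lit 0)), ((nat_lit 0x2944ca513), (nat_lit 6)), ((nat_lit 0x4a30b28c2c128c2ca30b), (nat_lit 14)), ((nat_lit 0), (nat_lit 0)), ((nat_lit 0), (nat_lit 0)), ((nat_lit 0), (nat_lit 0)), ((nat_lit 0), (nat_lit 0)), ((nat_lit 0), (nat_lit 0)), ((nat_lit 0), (nat_lit 0)), ((nat_lit 0), (nat_lit 0))] (nat_lit 0x3123133123133113123138ee8ed3393118ec8eb4d48ea33488b30d7cc30e8e90930ae09f08f),
.c (nat_lit 1) (nat_lit 0x11f6),
.i (nat_lit 3) (nat_lit 158) [((nat_lit 1), (nat_lit 1)), ((nat_lit 5), (nat_lit 1)), ((nat_lit 10), (nat_lit 1)), ((nat_lit 3), (nat_lit 1)), ((nat_lit 17), (nat_lit 1)), ((nat_lit 0x79b), (nat_lit 2)), ((nat_lit 6), (nat_lit 1)), ((nat_lit 779), (nat_lit 2)), ((nat_lit 0), (nat_lit 0)), ((nat_lit 0x452445485), (nat_lit 6)), ((nat_lit 28), (nat_lit 1)), ((nat_lit 0x513), (nat_lit 2)), ((nat_lit 0x28c2ca30b), (nat_lit 6)), ((nat_lit 0), (nat_lit 0)), ((nat_lit 0), (nat_lit 0)), ((nat_lit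 0x2944ca513), (nat_lit 6)), ((nat_lit 0x4a30b28c2c128c2ca30b), (nat_lit 14)), ((nat_lit 0), (nat_lit 0)), ((nat_lit 0), (nat_lit 0)), ((nat_lit 0), (nat_lit 0)), ((nat_lit 0), (nat_lit 0)), ((nat_lit 0), (nat_lit 0)), ((nat_lit 0), (nat_lit 0)), ((nat_lit 0), (nat_lit 0))] (nat_lit 0x3123133123133113123138ee8ed3393118ec8eb4d48ea33488b30d7cc30e8e90930ae09f08f),
.c (nat_lit 7) (nat_lit 0x342e0140dc0c344008fd8301bc140f608075),
.c (nat_lit 14) (nat_lit 0x47e600729031ac810d541090206719022c98082040c6b20435501046810fb404e5600001),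
.c (nat_lit 0) (nat_lit 0),
.c (nat_lit 2) (nat_lit 0x23d8009d0),
.c (nat_lit 14) (nat_lit 0x34130145940b689061650341241c0980f0760702183cb2820d1210049089fa80a388011b4),
.c (nat_lit 3) (nat_lit 0x20260163f0011e0),
.c (nat_lit 3) (nat_lit 0x38260223f0011f4),
.c (nat_lit 6) (nat_lit 0x4e82007490238a80836c041c200005),
.c (nat_lit 9) (nat_lit 0x10bd03267812be4040a2040ad018958000140469e040ab),
.c (nat_lit 0) (nat_lit 0),
.c (nat_lit 9) (nat_lit 0x20a70018081c2d40a17202075021a68081ec0559e00003),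
.c (nat_lit 25) (nat_lit 0x63050285e808c140217a1095b07267832be4140a2120870885e838c141815a0b12b041828182b40a256030bd000028142e4040ea0434f0103d8082ac0c69e080ab),
.c (nat_lit 17) (nat_lit 0x67e302179809f8c005e608ffd0380082921410f5e0c7150506d828384092b602051030438101440410e00001),
.c (nat_lit 0) (nat_lit 0),
.c (nat_lit 0) (nat_lit 0),
.i (nat_lit 3) (nat_lit 64) [((nat_lit 3), (nat_lit 1)), ((nat_lit 14), (nat_lit 1)), ((nat_lit 2), (nat_lit 1)), ((nat_lit 1), (nat_lit 1)), ((nat_lit 7), (nat_lit 1)), ((nat_lit 22), (nat_lit 1)), ((nat_lit 6), (nat_lit 1)), ((nat_lit 0x75c), (nat_lit 2)), ((nat_lit 5), (nat_lit 1)), ((nat_lit 0xd60d6), (nat_lit 4)), ((nat_lit 11), (nat_lit 1)), ((nat_lit 0), (nat_lit 0)), ((nat_lit 0x9d70275c), (nat_lit 6)), ((nat_lit 779), (nat_lit 2)), ((nat_lit 0x385385), (nat_lit 4)), ((nat_lit 0), (nat_lit 0)), ((nat_lit 0xc275c09d70309d70275c), (nat_lit 14)), ((nat_lit 19), (nat_lit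 1)), ((nat_lit 0x513), (nat_lit 2)), ((nat_lit 0x30b14e30b385), (nat_lit 8)), ((nat_lit 0x585585), (nat_lit 4)), ((nat_lit 0), (nat_lit 0)), ((nat_lit 0x8c2c538c2ce14230b14e30b385), (nat_lit 18)), ((nat_lit 0x4c2c538c2ce14130b14e30b385), (nat_lit 18))] (nat_lit 0x90c90b90a55d9098eb9089073404a99064a89054035c848b4a74944a659e65808f0902ae093),
.c (nat_lit 21) (nat_lit 0x20c2026b401838005d8001000017fe0082d808184070c0017e000486c09ffa03001037e08402dc1c0a20c0c30507082030c0c16e040db),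
.i (nat_lit 3) (nat_lit 87) [((nat_lit 3), (nat_lit 1)), ((nat_lit 14), (nat_lit 1)), ((nat_lit 2), (nat_lit 1)), ((nat_lit 1), (nat_lit 1)), ((nat_lit 7), (nat_lit 1)), ((nat_lit 22), (nat_lit 1)), ((nat_lit 6), (nat_lit 1)), ((nat_lit 0x75c), (nat_lit 2)), ((nat_lit 5), (nat_lit 1)), ((nat_lit 0xd60d6), (nat_lit 4)), ((nat_lit 11), (nat_lit 1)), ((nat_lit 0), (nat_lit 0)), ((nat_lit 0x9d70275c), (nat_lit 6)), ((nat_lit 779), (nat_lit 2)), ((nat_lit 0x385385), (nat_lit 4)), ((nat_lit 0), (nat_lit 0)), ((nat_lit 0xc275c09d70309d70275c), (nat_lit 14)), ((nat_lit 19), (nat_lit 1)), ((nat_lit 0x513), (nat_lit 2)), ((nat_lit 0x30b14e30b385), (nat_lit 8)), ((nat_lit 0x585585), (nat_lit 4)), ((nat_lit 0), (nat_lit 0)), ((nat_lit 0x8c2c538c2ce14230b14e30b385), (nat_lit 18)), ((nat_lit 0x4c2c538c2ce14130b14e30b385), (nat_lit 18))] (nat_lit 0x90c90b90a55d9098eb9089073404a99064a89054035c848b4a74944a659e65808f0902ae093),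
.c (nat_lit 5) (nat_lit 0x500190f00ab2c1410e00051),
.i (nat_lit 3) (nat_lit 93) [((nat_lit 3), (nat_lit 1)), ((nat_lit 14), (nat_lit 1)), ((nat_lit 2), (nat_lit 1)), ((nat_lit 1), (nat_lit 1)), ((nat_lit 7), (nat_lit 1)), ((nat_lit 22), (nat_lit 1)), ((nat_lit 6), (nat_lit 1)), ((nat_lit 0x75c), (nat_lit 2)), ((nat_lit 5), (nat_lit 1)), ((nat_lit 0xd60d6), (nat_lit 4)), ((nat_lit 11), (nat_lit 1)), ((nat_lit 0), (nat_lit 0)), ((nat_lit 0x9d70275c), (nat_lit 6)), ((nat_lit 779), (nat_lit 2)), ((nat_lit 0x385385), (nat_lit 4)), ((nat_lit 0), (nat_lit 0)), ((nat_lit 0xc275c09d70309d70275c), (nat_lit 14)), ((nat_lit 19), (nat_lit 1)), ((nat_lit 0x513), (nat_lit 2)), ((nat_lit 0x30b14e30b385), (nat_lit 8)), ((nat_lit 0x585585), (nat_lit 4)), ((nat_lit 0), (nat_lit 0)), ((nat_lit 0x8c2c538c2ce14230b14e30b385), (nat_lit 18)), ((nat_lit 0x4c2c538c2ce14130b14e30b385), (nat_lit 18))] (nat_lit 0x90c90b90a55d9098eb9089073404a99064a89054035c848b4a74944a659e65808f0902ae093),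
.c (nat_lit 1) (nat_lit 0x1223),
.i (nat_lit 3) (nat_lit 95) [((nat_lit 3), (nat_lit 1)), ((nat_lit 14), (nat_lit 1)), ((nat_lit 2), (nat_lit 1)), ((nat_lit 1), (nat_lit 1)), ((nat_lit 7), (nat_lit 1)), ((nat_lit 22), (nat_lit 1)), ((nat_lit 6), (nat_lit 1)), ((nat_lit 0x75c), (nat_lit 2)), ((nat_lit 5), (nat_lit 1)), ((nat_lit 0xd60d6), (nat_lit 4)), ((nat_lit 11), (nat_lit 1)), ((nat_lit 0), (nat_lit 0)), ((nat_lit 0x9d70275c), (nat_lit 6)), ((nat_lit 779), (nat_lit 2)), ((nat_lit 0x385385), (nat_lit 4)), ((nat_lit 0), (nat_lit 0)), ((nat_lit 0xc275c09d70309d70275c), (nat_lit 14)), ((nat_lit 19), (nat_lit 1)), ((nat_lit 0x513), (nat_lit 2)), ((nat_lit 0x30b14e30b385), (nat_lit 8)), ((nat_lit 0x585585), (nat_lit 4)), ((nat_lit 0), (nat_lit 0)), ((nat_lit 0x8c2c538c2ce14230b14e30b385), (nat_lit 18)), ((nat_lit 0x4c2c538c2ce14130b14e30b385), (nat_lit 18))] (nat_lit 0x90c90b90a55d9098eb9089073404a99064a89054035c848b4a74944a659e65808f0902ae093),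
.c (nat_lit 13) (nat_lit 0xa0b602052008140095b406aca0490e00ab680644c0521d01028822e6c1416e000db),
.i (nat_lit 3) (nat_lit 109) [((nat_lit 3), (nat_lit 1)), ((nat_lit 14), (nat_lit 1)), ((nat_lit 2), (nat_lit 1)), ((nat_lit 1), (nat_lit 1)), ((nat_lit 7), (nat_lit 1)), ((nat_lit 22), (nat_lit 1)), ((nat_lit 6), (nat_lit 1)), ((nat_lit 0x75c), (nat_lit 2)), ((nat_lit 5), (nat_lit 1)), ((nat_lit 0xd60d6), (nat_lit 4)), ((nat_lit 11), (nat_lit 1)), ((nat_lit 0), (nat_lit 0)), ((nat_lit 0x9d70275c), (nat_lit 6)), ((nat_lit 779), (nat_lit 2)), ((nat_lit 0x385385), (nat_lit 4)), ((nat_lit 0), (nat_lit 0)), ((nat_lit 0xc275c09d70309d70275c), (nat_lit 14)), ((nat_lit 19), (nat_lit 1)), ((nat_lit 0x513), (nat_lit 2)), ((nat_lit 0x30b14e30b385), (nat_lit 8)), ((nat_lit 0x585585), (nat_lit 4)), ((nat_lit 0), (nat_lit 0)), ((nat_lit 0x8c2c538c2ce14230b14e30b385), (nat_lit 18)), ((nat_lit 0x4c2c538c2ce14130b14e30b385),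 (nat_lit 18))] (nat_lit 0x90c90b90a55d9098eb9089073404a99064a89054035c848b4a74944a659e65808f0902ae093),
.c (nat_lit 10) (nat_lit 0xc14808086009100081400a454070570256583821c040a2000a5),
.i (nat_lit 3) (nat_lit 115) [((nat_lit 3), (nat_lit 1)), ((nat_lit 14), (nat_lit 1)), ((nat_lit 2), (nat_lit 1)), ((nat_lit 1), (nat_lit 1)), ((nat_lit 7), (nat_lit 1)), ((nat_lit 22), (nat_lit 1)), ((nat_lit 6), (nat_lit 1)), ((nat_lit 0x75c), (nat_lit 2)), ((nat_lit 5), (nat_lit 1)), ((nat_lit 0xd60d6), (nat_lit 4)), ((nat_lit 11), (nat_lit 1)), ((nat_lit 0), (nat_lit 0)), ((nat_lit 0x9d70275c), (nat_lit 6)), ((nat_lit 779), (nat_lit 2)), ((nat_lit 0x385385), (nat_lit 4)), ((nat_lit 0), (nat_lit 0)), ((nat_lit 0xc275c09d70309d70275c), (nat_lit 14)), ((nat_lit 19), (nat_lit 1)), ((nat_lit 0x513), (nat_lit 2)), ((nat_lit 0x30b14e30b385), (nat_lit 8)), ((nat_lit 0x585585), (nat_lit 4)), ((nat_lit 0), (nat_lit 0)), ((nat_lit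 0x8c2c538c2ce14230b14e30b385), (nat_lit 18)), ((nat_lit 0x4c2c538c2ce14130b14e30b385), (nat_lit 18))] (nat_lit 0x90c90b90a55d9098eb9089073404a99064a89054035c848b4a74944a659e65808f0902ae093),
.c (nat_lit 6) (nat_lit 0x81b4031cc008f800c8bc10156000db),
.i (nat_lit 3) (nat_lit 123) [((nat_lit 3), (nat_lit 1)), ((nat_lit 14), (nat_lit 1)), ((nat_lit 2), (nat_lit 1)), ((nat_lit 1), (nat_lit 1)), ((nat_lit 7), (nat_lit 1)), ((nat_lit 22), (nat_lit 1)), ((nat_lit 6), (nat_lit 1)), ((nat_lit 0x75c), (nat_lit 2)), ((nat_lit 5), (nat_lit 1)), ((nat_lit 0xd60d6), (nat_lit 4)), ((nat_lit 11), (nat_lit 1)), ((nat_lit 0), (nat_lit 0)), ((nat_lit 0x9d70275c), (nat_lit 6)), ((nat_lit 779), (nat_lit 2)), ((nat_lit 0x385385), (nat_lit 4)), ((nat_lit 0), (nat_lit 0)), ((nat_lit 0xc275c09d70309d70275c), (nat_lit 14)), ((nat_lit 19), (nat_lit 1)), ((nat_lit 0x513), (nat_lit 2)), ((nat_lit 0x30b14e30b385), (nat_lit 8)), ((nat_lit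 0x585585), (nat_lit 4)), ((nat_lit 0), (nat_lit 0)), ((nat_lit 0x8c2c538c2ce14230b14e30b385), (nat_lit 18)), ((nat_lit 0x4c2c538c2ce14130b14e30b385), (nat_lit 18))] (nat_lit 0x90c90b90a55d9098eb9089073404a99064a89054035c848b4a74944a659e65808f0902ae093),
.c (nat_lit 4) (nat_lit 0x5200c8cc0644a000a5),
.i (nat_lit 3) (nat_lit 138) [((nat_lit 3), (nat_lit 1)), ((nat_lit 14), (nat_lit 1)), ((nat_lit 2), (nat_lit 1)), ((nat_lit 1), (nat_lit 1)), ((nat_lit 7), (nat_lit 1)), ((nat_lit 22), (nat_lit 1)), ((nat_lit 6), (nat_lit 1)), ((nat_lit 0x75c), (nat_lit 2)), ((nat_lit 5), (nat_lit 1)), ((nat_lit 0xd60d6), (nat_lit 4)), ((nat_lit 11), (nat_lit 1)), ((nat_lit 0), (nat_lit 0)), ((nat_lit 0x9d70275c), (nat_lit 6)), ((nat_lit 779), (nat_lit 2)), ((nat_lit 0x385385), (nat_lit 4)), ((nat_lit 0), (nat_lit 0)), ((nat_lit 0xc275c09d70309d70275c), (nat_lit 14)), ((nat_lit 19), (nat_lit 1)), ((nat_lit 0x513), (nat_lit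 2)), ((nat_lit 0x30b14e30b385), (nat_lit 8)), ((nat_lit 0x585585), (nat_lit 4)), ((nat_lit 0), (nat_lit 0)), ((nat_lit 0x8c2c538c2ce14230b14e30b385), (nat_lit 18)), ((nat_lit 0x4c2c538c2ce14130b14e30b385), (nat_lit 18))] (nat_lit 0x90c90b90a55d9098eb9089073404a99064a89054035c848b4a74944a659e65808f0902ae093),
.c (nat_lit 10) (nat_lit 0x41b4011cc0205201c8dc12462071f1048e681029404156000db),
.i (nat_lit 3) (nat_lit 145) [((nat_lit 3), (nat_lit 1)), ((nat_lit 14), (nat_lit 1)), ((nat_lit 2), (nat_lit 1)), ((nat_lit 1), (nat_lit 1)), ((nat_lit 7), (nat_lit 1)), ((nat_lit 22), (nat_lit 1)), ((nat_lit 6), (nat_lit 1)), ((nat_lit 0x75c), (nat_lit 2)), ((nat_lit 5), (nat_lit 1)), ((nat_lit 0xd60d6), (nat_lit 4)), ((nat_lit 11), (nat_lit 1)), ((nat_lit 0), (nat_lit 0)), ((nat_lit 0x9d70275c), (nat_lit 6)), ((nat_lit 779), (nat_lit 2)), ((nat_lit 0x385385), (nat_lit 4)), ((nat_lit 0), (nat_lit 0)), ((nat_lit 0xc275c09d70309d70275c),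 (nat_lit 14)), ((nat_lit 19), (nat_lit 1)), ((nat_lit 0x513), (nat_lit 2)), ((nat_lit 0x30b14e30b385), (nat_lit 8)), ((nat_lit 0x585585), (nat_lit 4)), ((nat_lit 0), (nat_lit 0)), ((nat_lit 0x8c2c538c2ce14230b14e30b385), (nat_lit 18)), ((nat_lit 0x4c2c538c2ce14130b14e30b385), (nat_lit 18))] (nat_lit 0x90c90b90a55d9098eb9089073404a99064a89054035c848b4a74944a659e65808f0902ae093),
.c (nat_lit 1) (nat_lit 0x123a),
.i (nat_lit 3) (nat_lit 149) [((nat_lit 3), (nat_lit 1)), ((nat_lit 14), (nat_lit 1)), ((nat_lit 2), (nat_lit 1)), ((nat_lit 1), (nat_lit 1)), ((nat_lit 7), (nat_lit 1)), ((nat_lit 22), (nat_lit 1)), ((nat_lit 6), (nat_lit 1)), ((nat_lit 0x75c), (nat_lit 2)), ((nat_lit 5), (nat_lit 1)), ((nat_lit 0xd60d6), (nat_lit 4)), ((nat_lit 11), (nat_lit 1)), ((nat_lit 0), (nat_lit 0)), ((nat_lit 0x9d70275c), (nat_lit 6)), ((nat_lit 779), (nat_lit 2)), ((nat_lit 0x385385), (nat_lit 4)), ((nat_lit 0), (nat_lit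 0)), ((nat_lit 0xc275c09d70309d70275c), (nat_lit 14)), ((nat_lit 19), (nat_lit 1)), ((nat_lit 0x513), (nat_lit 2)), ((nat_lit 0x30b14e30b385), (nat_lit 8)), ((nat_lit 0x585585), (nat_lit 4)), ((nat_lit 0), (nat_lit 0)), ((nat_lit 0x8c2c538c2ce14230b14e30b385), (nat_lit 18)), ((nat_lit 0x4c2c538c2ce14130b14e30b385), (nat_lit 18))] (nat_lit 0x90c90b90a55d9098eb9089073404a99064a89054035c848b4a74944a659e65808f0902ae093),
.c (nat_lit 1) (nat_lit 0x123e),
.i (nat_lit 3) (nat_lit 150) [((nat_lit 3), (nat_lit 1)), ((nat_lit 14), (nat_lit 1)), ((nat_lit 2), (nat_lit 1)), ((nat_lit 1), (nat_lit 1)), ((nat_lit 7), (nat_lit 1)), ((nat_lit 22), (nat_lit 1)), ((nat_lit 6), (nat_lit 1)), ((nat_lit 0x75c), (nat_lit 2)), ((nat_lit 5), (nat_lit 1)), ((nat_lit 0xd60d6), (nat_lit 4)), ((nat_lit 11), (nat_lit 1)), ((nat_lit 0), (nat_lit 0)), ((nat_lit 0x9d70275c), (nat_lit 6)), ((nat_lit 779), (nat_lit 2)), ((nat_lit 0x385385),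 (nat_lit 4)), ((nat_lit 0), (nat_lit 0)), ((nat_lit 0xc275c09d70309d70275c), (nat_lit 14)), ((nat_lit 19), (nat_lit 1)), ((nat_lit 0x513), (nat_lit 2)), ((nat_lit 0x30b14e30b385), (nat_lit 8)), ((nat_lit 0x585585), (nat_lit 4)), ((nat_lit 0), (nat_lit 0)), ((nat_lit 0x8c2c538c2ce14230b14e30b385), (nat_lit 18)), ((nat_lit 0x4c2c538c2ce14130b14e30b385), (nat_lit 18))] (nat_lit 0x90c90b90a55d9098eb9089073404a99064a89054035c848b4a74944a659e65808f0902ae093),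
.c (nat_lit 64) (nat_lit 0x20b9778619e4343981768b0b2e7855a2c26d780206d01c8a0157340c4e607271042e58249cc144e20b15a0713983d734204e6115cb068248399e4203980c27306ae68389cc1eb96092ef0533c83073012d16085cf03b458080a00721c01921014874040a209077033a48141dc04e92320931805b8b827c581622a09f140498982c44810e2205d10043878174381b61a0930c05b85827c281621209f080498382c41810e00005),
.i (nat_lit 3) (nat_lit 154) [((nat_lit 3), (nat_lit 1)), ((nat_lit 14), (nat_lit 1)), ((nat_lit 2), (nat_lit 1)), ((nat_lit 1), (nat_lit 1)), ((nat_lit 7), (nat_lit 1)), ((nat_lit 22), (nat_lit 1)), ((nat_lit 6), (nat_lit 1)), ((nat_lit 0x75c), (nat_lit 2)), ((nat_lit 5), (nat_lit 1)), ((nat_lit 0xd60d6), (nat_lit 4)), ((nat_lit 11), (nat_lit 1)), ((nat_lit 0), (nat_lit 0)), ((nat_lit 0x9d70275c), (nat_lit 6)), ((nat_lit 779), (nat_lit 2)), ((nat_lit 0x385385), (nat_lit 4)), ((nat_lit 0), (nat_lit 0)), ((nat_lit 0xc275c09d70309d70275c), (nat_lit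 14)), ((nat_lit 19), (nat_lit 1)), ((nat_lit 0x513), (nat_lit 2)), ((nat_lit 0x30b14e30b385), (nat_lit 8)), ((nat_lit 0x585585), (nat_lit 4)), ((nat_lit 0), (nat_lit 0)), ((nat_lit 0x8c2c538c2ce14230b14e30b385), (nat_lit 18)), ((nat_lit 0x4c2c538c2ce14130b14e30b385), (nat_lit 18))] (nat_lit 0x90c90b90a55d9098eb9089073404a99064a89054035c848b4a74944a659e65808f0902ae093),
.c (nat_lit 1) (nat_lit 0x1247),
.c (nat_lit 1) (nat_lit 761),
.c (nat_lit 1) (nat_lit 554),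
.c (nat_lit 3) (nat_lit 0x3ff4041c200051),
.c (nat_lit 11) (nat_lit 0x8368001b400050018000148700e0000921c0090e00252c0643a00051),
.c (nat_lit 4) (nat_lit 0x205b0043700644a040b7),
.c (nat_lit 3) (nat_lit 0x82a80a47001230),
.c (nat_lit 3) (nat_lit 0x235e0064a001244),
.c (nat_lit 1) (nat_lit 985),
.c (nat_lit 3) (nat_lit 0x90cc000d20009f),
.c (nat_lit 5) (nat_lit 0x111021c080839c054be00007),
.c (nat_lit 0) (nat_lit 0),
.c (nat_lit 0) (nat_lit 0),
.c (nat_lit 7) (nat_lit 0x1422404b2600081037b780c1bc120d20609f),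
.c (nat_lit 13) (nat_lit 0x60f5020f88083d4003e206dbd041b38283cc09bc6020630304f81018c0413e00007),
.c (nat_lit 44) (nat_lit 0x3074810bdc041d2002f7036fd830d9c146c6083670574a8436f41dbf60cdbd056fd81378c040c60c0f30474a8383cc1c6ce0c363051b3820d8c0c13e0cdbd056fd8236f40dbf60406304079813a54141e60a367041b1818d9c086c60209f0408e8194fc0823a0253f000008140cc0c70a0811b)]

theorem c19 : chk db th.hy ths 2356 J19 2278 = true := by decide +kernel

set_option maxRecDepth 100000 in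
/-- Justifications. -/
noncomputable def J20 : List Js := [
.c (nat_lit 3) (nat_lit 0xc2240010201069),
.c (nat_lit 13) (nat_lit 0x63cd0207a808f34001ea04cfb031b38203cc0a0d20209f0307081027c041c200007),
.c (nat_lit 21) (nat_lit 0x63ef02074808fbc001d20506b07835830384146c6050690104f838384186c60906b0307081027c041c2083ef0329f810fbc04a7e00001),
.i (nat_lit 3) (nat_lit 11) [((nat_lit 18), (nat_lit 1)), ((nat_lit 2), (nat_lit 1)), ((nat_lit 4), (nat_lit 1)), ((nat_lit 1), (nat_lit 1)), ((nat_lit 32), (nat_lit 1)), ((nat_lit 9), (nat_lit 1)), ((nat_lit 30), (nat_lit 1)), ((nat_lit 5), (nat_lit 1)), ((nat_lit 8), (nat_lit 1)), ((nat_lit 0), (nat_lit 0)), ((nat_lit 37), (nat_lit 1)), ((nat_lit 0x485485), (nat_lit 4)), ((nat_lit 973), (nat_lit 2)), ((nat_lit 0x488488), (nat_lit 4)), ((nat_lit 13), (nat_lit 1)), ((nat_lit 0x112152144485485), (nat_lit 10)), ((nat_lit 0x75274f48f), (nat_lit 6)), ((nat_lit 0), (nat_lit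 0)), ((nat_lit 0x81e81e), (nat_lit 4)), ((nat_lit 0x752752), (nat_lit 4)), ((nat_lit 25), (nat_lit 1)), ((nat_lit 0x657), (nat_lit 2)), ((nat_lit 0), (nat_lit 0)), ((nat_lit 0x75e75e), (nat_lit 4))] (nat_lit 0x9369356ea2f39349339329319303836e836492f92e92d52848b6e543b6e692c08f0960902aa),
.c (nat_lit 14) (nat_lit 0x64dc0cf6f0483783c1a41813e10f6f068378583842813e120e10804f8382341813e0008d),
.i (nat_lit 3) (nat_lit 18) [((nat_lit 18), (nat_lit 1)), ((nat_lit 2), (nat_lit 1)), ((nat_lit 4), (nat_lit 1)), ((nat_lit 1), (nat_lit 1)), ((nat_lit 32), (nat_lit 1)), ((nat_lit 9), (nat_lit 1)), ((nat_lit 30), (nat_lit 1)), ((nat_lit 5), (nat_lit 1)), ((nat_lit 8), (nat_lit 1)), ((nat_lit 0), (nat_lit 0)), ((nat_lit 37), (nat_lit 1)), ((nat_lit 0x485485), (nat_lit 4)), ((nat_lit 973), (nat_lit 2)), ((nat_lit 0x488488), (nat_lit 4)), ((nat_lit 13), (nat_lit 1)), ((nat_lit 0x112152144485485), (nat_lit 10)), ((nat_lit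 0x75274f48f), (nat_lit 6)), ((nat_lit 0), (nat_lit 0)), ((nat_lit 0x81e81e), (nat_lit 4)), ((nat_lit 0x752752), (nat_lit 4)), ((nat_lit 25), (nat_lit 1)), ((nat_lit 0x657), (nat_lit 2)), ((nat_lit 0), (nat_lit 0)), ((nat_lit 0x75e75e), (nat_lit 4))] (nat_lit 0x9369356ea2f39349339329319303836e836492f92e92d52848b6e543b6e692c08f0960902aa),
.c (nat_lit 5) (nat_lit 0x12720707083039c141c2080e7),
.i (nat_lit 3) (nat_lit 42) [((nat_lit 18), (nat_lit 1)), ((nat_lit 2), (nat_lit 1)), ((nat_lit 4), (nat_lit 1)), ((nat_lit 1), (nat_lit 1)), ((nat_lit 32), (nat_lit 1)), ((nat_lit 9), (nat_lit 1)), ((nat_lit 30), (nat_lit 1)), ((nat_lit 5), (nat_lit 1)), ((nat_lit 8), (nat_lit 1)), ((nat_lit 0), (nat_lit 0)), ((nat_lit 37), (nat_lit 1)), ((nat_lit 0x485485), (nat_lit 4)), ((nat_lit 973), (nat_lit 2)), ((nat_lit 0x488488), (nat_lit 4)), ((nat_lit 13), (nat_lit 1)), ((nat_lit 0x112152144485485), (nat_lit 10)), ((nat_lit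 0x75274f48f), (nat_lit 6)), ((nat_lit 0), (nat_lit 0)), ((nat_lit 0x81e81e), (nat_lit 4)), ((nat_lit 0x752752), (nat_lit 4)), ((nat_lit 25), (nat_lit 1)), ((nat_lit 0x657), (nat_lit 2)), ((nat_lit 0), (nat_lit 0)), ((nat_lit 0x75e75e), (nat_lit 4))] (nat_lit 0x9369356ea2f39349339329319303836e836492f92e92d52848b6e543b6e692c08f0960902aa),
.c (nat_lit 15) (nat_lit 0x3800413c0400207070040de00e4ec0c105051ec8204140c7b2121030807081000c0413e000e1),
.i (nat_lit 3) (nat_lit 53) [((nat_lit 18), (nat_lit 1)), ((nat_lit 2), (nat_lit 1)), ((nat_lit 4), (nat_lit 1)), ((nat_lit 1), (nat_lit 1)), ((nat_lit 32), (nat_lit 1)), ((nat_lit 9), (nat_lit 1)), ((nat_lit 30), (nat_lit 1)), ((nat_lit 5), (nat_lit 1)), ((nat_lit 8), (nat_lit 1)), ((nat_lit 0), (nat_lit 0)), ((nat_lit 37), (nat_lit 1)), ((nat_lit 0x485485), (nat_lit 4)), ((nat_lit 973), (nat_lit 2)), ((nat_lit 0x488488), (nat_lit 4)), ((nat_lit 13), (nat_lit 1)),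 ((nat_lit 0x112152144485485), (nat_lit 10)), ((nat_lit 0x75274f48f), (nat_lit 6)), ((nat_lit 0), (nat_lit 0)), ((nat_lit 0x81e81e), (nat_lit 4)), ((nat_lit 0x752752), (nat_lit 4)), ((nat_lit 25), (nat_lit 1)), ((nat_lit 0x657), (nat_lit 2)), ((nat_lit 0), (nat_lit 0)), ((nat_lit 0x75e75e), (nat_lit 4))] (nat_lit 0x9369356ea2f39349339329319303836e836492f92e92d52848b6e543b6e692c08f0960902aa),
.c (nat_lit 15) (nat_lit 0x380040c4072740293d0149d415bf6083df036fd810f7c199f60e0f30807983839c040c6000e1),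
.i (nat_lit 3) (nat_lit 59) [((nat_lit 18), (nat_lit 1)), ((nat_lit 2), (nat_lit 1)), ((nat_lit 4), (nat_lit 1)), ((nat_lit 1), (nat_lit 1)), ((nat_lit 32), (nat_lit 1)), ((nat_lit 9), (nat_lit 1)), ((nat_lit 30), (nat_lit 1)), ((nat_lit 5), (nat_lit 1)), ((nat_lit 8), (nat_lit 1)), ((nat_lit 0), (nat_lit 0)), ((nat_lit 37), (nat_lit 1)), ((nat_lit 0x485485), (nat_lit 4)), ((nat_lit 973), (nat_lit 2)), ((nat_lit 0x488488), (nat_lit 4)), ((nat_lit 13), (nat_lit 1)), ((nat_lit 0x112152144485485), (nat_lit 10)), ((nat_lit 0x75274f48f), (nat_lit 6)), ((nat_lit 0), (nat_lit 0)), ((nat_lit 0x81e81e), (nat_lit 4)), ((nat_lit 0x752752), (nat_lit 4)), ((nat_lit 25), (nat_lit 1)), ((nat_lit 0x657), (nat_lit 2)), ((nat_lit 0), (nat_lit 0)), ((nat_lit 0x75e75e), (nat_lit 4))] (nat_lit 0x9369356ea2f39349339329319303836e836492f92e92d52848b6e543b6e692c08f0960902aa),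
.c (nat_lit 32) (nat_lit 0x10000237d80c1e4083840553b0104700a4fe08a6b036de82b7dc106ce0ae95080798429ac1dbf60cdbd056fd8403cc19d2a120f3096fb840d8c1c6ce0c363090738403cc1c1ce1010f0707983027c0400200063),
.i (nat_lit 3) (nat_lit 73) [((nat_lit 18), (nat_lit 1)), ((nat_lit 2), (nat_lit 1)), ((nat_lit 4), (nat_lit 1)), ((nat_lit 1), (nat_lit 1)), ((nat_lit 32), (nat_lit 1)), ((nat_lit 9), (nat_lit 1)), ((nat_lit 30), (nat_lit 1)), ((nat_lit 5), (nat_lit 1)), ((nat_lit 8), (nat_lit 1)), ((nat_lit 0), (nat_lit 0)), ((nat_lit 37), (nat_lit 1)), ((nat_lit 0x485485), (nat_lit 4)), ((nat_lit 973), (nat_lit 2)), ((nat_lit 0x488488), (nat_lit 4)), ((nat_lit 13), (nat_lit 1)), ((nat_lit 0x112152144485485), (nat_lit 10)), ((nat_lit 0x75274f48f), (nat_lit 6)), ((nat_lit 0), (nat_lit 0)), ((nat_lit 0x81e81e), (nat_lit 4)), ((nat_lit 0x752752), (nat_lit 4)), ((nat_lit 25), (nat_lit 1)), ((nat_lit 0x657), (nat_lit 2)), ((nat_lit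 0), (nat_lit 0)), ((nat_lit 0x75e75e), (nat_lit 4))] (nat_lit 0x9369356ea2f39349339329319303836e836492f92e92d52848b6e543b6e692c08f0960902aa),
.c (nat_lit 7) (nat_lit 0x283980a4e8032820193a82386c141ce000e1),
.i (nat_lit 3) (nat_lit 77) [((nat_lit 18), (nat_lit 1)), ((nat_lit 2), (nat_lit 1)), ((nat_lit 4), (nat_lit 1)), ((nat_lit 1), (nat_lit 1)), ((nat_lit 32), (nat_lit 1)), ((nat_lit 9), (nat_lit 1)), ((nat_lit 30), (nat_lit 1)), ((nat_lit 5), (nat_lit 1)), ((nat_lit 8), (nat_lit 1)), ((nat_lit 0), (nat_lit 0)), ((nat_lit 37), (nat_lit 1)), ((nat_lit 0x485485), (nat_lit 4)), ((nat_lit 973), (nat_lit 2)), ((nat_lit 0x488488), (nat_lit 4)), ((nat_lit 13), (nat_lit 1)), ((nat_lit 0x112152144485485), (nat_lit 10)), ((nat_lit 0x75274f48f), (nat_lit 6)), ((nat_lit 0), (nat_lit 0)), ((nat_lit 0x81e81e), (nat_lit 4)), ((nat_lit 0x752752), (nat_lit 4)), ((nat_lit 25), (nat_lit 1)), ((nat_lit 0x657), (nat_lit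 2)), ((nat_lit 0), (nat_lit 0)), ((nat_lit 0x75e75e), (nat_lit 4))] (nat_lit 0x9369356ea2f39349339329319303836e836492f92e92d52848b6e543b6e692c08f0960902aa),
.c (nat_lit 2) (nat_lit 0x250e0408d),
.i (nat_lit 3) (nat_lit 78) [((nat_lit 18), (nat_lit 1)), ((nat_lit 2), (nat_lit 1)), ((nat_lit 4), (nat_lit 1)), ((nat_lit 1), (nat_lit 1)), ((nat_lit 32), (nat_lit 1)), ((nat_lit 9), (nat_lit 1)), ((nat_lit 30), (nat_lit 1)), ((nat_lit 5), (nat_lit 1)), ((nat_lit 8), (nat_lit 1)), ((nat_lit 0), (nat_lit 0)), ((nat_lit 37), (nat_lit 1)), ((nat_lit 0x485485), (nat_lit 4)), ((nat_lit 973), (nat_lit 2)), ((nat_lit 0x488488), (nat_lit 4)), ((nat_lit 13), (nat_lit 1)), ((nat_lit 0x112152144485485), (nat_lit 10)), ((nat_lit 0x75274f48f), (nat_lit 6)), ((nat_lit 0), (nat_lit 0)), ((nat_lit 0x81e81e), (nat_lit 4)), ((nat_lit 0x752752), (nat_lit 4)), ((nat_lit 25), (nat_lit 1)), ((nat_lit 0x657), (nat_lit 2)), ((nat_lit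 0), (nat_lit 0)), ((nat_lit 0x75e75e), (nat_lit 4))] (nat_lit 0x9369356ea2f39349339329319303836e836492f92e92d52848b6e543b6e692c08f0960902aa),
.c (nat_lit 2) (nat_lit 0x2516040c9),
.i (nat_lit 3) (nat_lit 85) [((nat_lit 18), (nat_lit 1)), ((nat_lit 2), (nat_lit 1)), ((nat_lit 4), (nat_lit 1)), ((nat_lit 1), (nat_lit 1)), ((nat_lit 32), (nat_lit 1)), ((nat_lit 9), (nat_lit 1)), ((nat_lit 30), (nat_lit 1)), ((nat_lit 5), (nat_lit 1)), ((nat_lit 8), (nat_lit 1)), ((nat_lit 0), (nat_lit 0)), ((nat_lit 37), (nat_lit 1)), ((nat_lit 0x485485), (nat_lit 4)), ((nat_lit 973), (nat_lit 2)), ((nat_lit 0x488488), (nat_lit 4)), ((nat_lit 13), (nat_lit 1)), ((nat_lit 0x112152144485485), (nat_lit 10)), ((nat_lit 0x75274f48f), (nat_lit 6)), ((nat_lit 0), (nat_lit 0)), ((nat_lit 0x81e81e), (nat_lit 4)), ((nat_lit 0x752752), (nat_lit 4)), ((nat_lit 25), (nat_lit 1)), ((nat_lit 0x657), (nat_lit 2)), ((nat_lit 0), (nat_lit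 0)), ((nat_lit 0x75e75e), (nat_lit 4))] (nat_lit 0x9369356ea2f39349339329319303836e836492f92e92d52848b6e543b6e692c08f0960902aa),
.c (nat_lit 1) (nat_lit 0x128f),
.i (nat_lit 3) (nat_lit 86) [((nat_lit 18), (nat_lit 1)), ((nat_lit 2), (nat_lit 1)), ((nat_lit 4), (nat_lit 1)), ((nat_lit 1), (nat_lit 1)), ((nat_lit 32), (nat_lit 1)), ((nat_lit 9), (nat_lit 1)), ((nat_lit 30), (nat_lit 1)), ((nat_lit 5), (nat_lit 1)), ((nat_lit 8), (nat_lit 1)), ((nat_lit 0), (nat_lit 0)), ((nat_lit 37), (nat_lit 1)), ((nat_lit 0x485485), (nat_lit 4)), ((nat_lit 973), (nat_lit 2)), ((nat_lit 0x488488), (nat_lit 4)), ((nat_lit 13), (nat_lit 1)), ((nat_lit 0x112152144485485), (nat_lit 10)), ((nat_lit 0x75274f48f), (nat_lit 6)), ((nat_lit 0), (nat_lit 0)), ((nat_lit 0x81e81e), (nat_lit 4)), ((nat_lit 0x752752), (nat_lit 4)), ((nat_lit 25), (nat_lit 1)), ((nat_lit 0x657), (nat_lit 2)), ((nat_lit 0), (nat_lit 0)), ((nat_lit 0x75e75e),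 (nat_lit 4))] (nat_lit 0x9369356ea2f39349339329319303836e836492f92e92d52848b6e543b6e692c08f0960902aa),
.c (nat_lit 17) (nat_lit 0xe6010700100181c1cc103800493a01ca480e4ea0c111051e68204440c79a1210f0807381001c041c2000e7),
.i (nat_lit 3) (nat_lit 96) [((nat_lit 18), (nat_lit 1)), ((nat_lit 2), (nat_lit 1)), ((nat_lit 4), (nat_lit 1)), ((nat_lit 1), (nat_lit 1)), ((nat_lit 32), (nat_lit 1)), ((nat_lit 9), (nat_lit 1)), ((nat_lit 30), (nat_lit 1)), ((nat_lit 5), (nat_lit 1)), ((nat_lit 8), (nat_lit 1)), ((nat_lit 0), (nat_lit 0)), ((nat_lit 37), (nat_lit 1)), ((nat_lit 0x485485), (nat_lit 4)), ((nat_lit 973), (nat_lit 2)), ((nat_lit 0x488488), (nat_lit 4)), ((nat_lit 13), (nat_lit 1)), ((nat_lit 0x112152144485485), (nat_lit 10)), ((nat_lit 0x75274f48f), (nat_lit 6)), ((nat_lit 0), (nat_lit 0)), ((nat_lit 0x81e81e), (nat_lit 4)), ((nat_lit 0x752752), (nat_lit 4)), ((nat_lit 25), (nat_lit 1)), ((nat_lit 0x657),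 (nat_lit 2)), ((nat_lit 0), (nat_lit 0)), ((nat_lit 0x75e75e), (nat_lit 4))] (nat_lit 0x9369356ea2f39349339329319303836e836492f92e92d52848b6e543b6e692c08f0960902aa),
.c (nat_lit 7) (nat_lit 0x1038005b58072740294b0149d4041c2000e7),
.i (nat_lit 3) (nat_lit 105) [((nat_lit 18), (nat_lit 1)), ((nat_lit 2), (nat_lit 1)), ((nat_lit 4), (nat_lit 1)), ((nat_lit 1), (nat_lit 1)), ((nat_lit 32), (nat_lit 1)), ((nat_lit 9), (nat_lit 1)), ((nat_lit 30), (nat_lit 1)), ((nat_lit 5), (nat_lit 1)), ((nat_lit 8), (nat_lit 1)), ((nat_lit 0), (nat_lit 0)), ((nat_lit 37), (nat_lit 1)), ((nat_lit 0x485485), (nat_lit 4)), ((nat_lit 973), (nat_lit 2)), ((nat_lit 0x488488), (nat_lit 4)), ((nat_lit 13), (nat_lit 1)), ((nat_lit 0x112152144485485), (nat_lit 10)), ((nat_lit 0x75274f48f), (nat_lit 6)), ((nat_lit 0), (nat_lit 0)), ((nat_lit 0x81e81e), (nat_lit 4)), ((nat_lit 0x752752), (nat_lit 4)), ((nat_lit 25), (nat_lit 1)), ((nat_lit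 0x657), (nat_lit 2)), ((nat_lit 0), (nat_lit 0)), ((nat_lit 0x75e75e), (nat_lit 4))] (nat_lit 0x9369356ea2f39349339329319303836e836492f92e92d52848b6e543b6e692c08f0960902aa),
.c (nat_lit 13) (nat_lit 0x60e00407302c9f01d9f4112940404f02b7d8141c00d2940094d8303841413e080e1),
.i (nat_lit 3) (nat_lit 111) [((nat_lit 18), (nat_lit 1)), ((nat_lit 2), (nat_lit 1)), ((nat_lit 4), (nat_lit 1)), ((nat_lit 1), (nat_lit 1)), ((nat_lit 32), (nat_lit 1)), ((nat_lit 9), (nat_lit 1)), ((nat_lit 30), (nat_lit 1)), ((nat_lit 5), (nat_lit 1)), ((nat_lit 8), (nat_lit 1)), ((nat_lit 0), (nat_lit 0)), ((nat_lit 37), (nat_lit 1)), ((nat_lit 0x485485), (nat_lit 4)), ((nat_lit 973), (nat_lit 2)), ((nat_lit 0x488488), (nat_lit 4)), ((nat_lit 13), (nat_lit 1)), ((nat_lit 0x112152144485485), (nat_lit 10)), ((nat_lit 0x75274f48f), (nat_lit 6)), ((nat_lit 0), (nat_lit 0)), ((nat_lit 0x81e81e), (nat_lit 4)), ((nat_lit 0x752752), (nat_lit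 4)), ((nat_lit 25), (nat_lit 1)), ((nat_lit 0x657), (nat_lit 2)), ((nat_lit 0), (nat_lit 0)), ((nat_lit 0x75e75e), (nat_lit 4))] (nat_lit 0x9369356ea2f39349339329319303836e836492f92e92d52848b6e543b6e692c08f0960902aa),
.c (nat_lit 38) (nat_lit 0x612400ffc01001040d88264f01436209070050de00c9300cffc0724a043ff0141c00d06a047fe02925019ff8060e0048350303980e4e80529e0293a8293c41020a064f10208288039c3c13e1c0510d04f8601442c206140e10907384027c04006000e1),
.i (nat_lit 3) (nat_lit 112) [((nat_lit 18), (nat_lit 1)), ((nat_lit 2), (nat_lit 1)), ((nat_lit 4), (nat_lit 1)), ((nat_lit 1), (nat_lit 1)), ((nat_lit 32), (nat_lit 1)), ((nat_lit 9), (nat_lit 1)), ((nat_lit 30), (nat_lit 1)), ((nat_lit 5), (nat_lit 1)), ((nat_lit 8), (nat_lit 1)), ((nat_lit 0), (nat_lit 0)), ((nat_lit 37), (nat_lit 1)), ((nat_lit 0x485485), (nat_lit 4)), ((nat_lit 973), (nat_lit 2)), ((nat_lit 0x488488), (nat_lit 4)), ((nat_lit 13), (nat_lit 1)),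 ((nat_lit 0x112152144485485), (nat_lit 10)), ((nat_lit 0x75274f48f), (nat_lit 6)), ((nat_lit 0), (nat_lit 0)), ((nat_lit 0x81e81e), (nat_lit 4)), ((nat_lit 0x752752), (nat_lit 4)), ((nat_lit 25), (nat_lit 1)), ((nat_lit 0x657), (nat_lit 2)), ((nat_lit 0), (nat_lit 0)), ((nat_lit 0x75e75e), (nat_lit 4))] (nat_lit 0x9369356ea2f39349339329319303836e836492f92e92d52848b6e543b6e692c08f0960902aa),
.c (nat_lit 10) (nat_lit 0x80a00e0e003951033ff4121260609f09070810144041320009f),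
.i (nat_lit 3) (nat_lit 116) [((nat_lit 18), (nat_lit 1)), ((nat_lit 2), (nat_lit 1)), ((nat_lit 4), (nat_lit 1)), ((nat_lit 1), (nat_lit 1)), ((nat_lit 32), (nat_lit 1)), ((nat_lit 9), (nat_lit 1)), ((nat_lit 30), (nat_lit 1)), ((nat_lit 5), (nat_lit 1)), ((nat_lit 8), (nat_lit 1)), ((nat_lit 0), (nat_lit 0)), ((nat_lit 37), (nat_lit 1)), ((nat_lit 0x485485), (nat_lit 4)), ((nat_lit 973), (nat_lit 2)), ((nat_lit 0x488488), (nat_lit 4)), ((nat_lit 13), (nat_lit 1)), ((nat_lit 0x112152144485485), (nat_lit 10)), ((nat_lit 0x75274f48f), (nat_lit 6)), ((nat_lit 0), (nat_lit 0)), ((nat_lit 0x81e81e), (nat_lit 4)), ((nat_lit 0x752752), (nat_lit 4)), ((nat_lit 25), (nat_lit 1)), ((nat_lit 0x657), (nat_lit 2)), ((nat_lit 0), (nat_lit 0)), ((nat_lit 0x75e75e), (nat_lit 4))] (nat_lit 0x9369356ea2f39349339329319303836e836492f92e92d52848b6e543b6e692c08f0960902aa),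
.c (nat_lit 57) (nat_lit 0xe0f2080730483c81c1cc10e940704f040d88246cc143620b1b30637d81dbec0ca6a05079030e10181cc0f03207079040e10141cc0ce9409819040e101e0640c384058190302781c6c410366091b1050d982dbec0928001953014a04040c60edf7061b3828d8c106ce063630204f80c0cc0870a07033041c282c0cc09d2a020e7041c28183cc0e066040e7021c28083cc1813e0011b),
.i (nat_lit 3) (nat_lit 118) [((nat_lit 18), (nat_lit 1)), ((nat_lit 2), (nat_lit 1)), ((nat_lit 4), (nat_lit 1)), ((nat_lit 1), (nat_lit 1)), ((nat_lit 32), (nat_lit 1)), ((nat_lit 9), (nat_lit 1)), ((nat_lit 30), (nat_lit 1)), ((nat_lit 5), (nat_lit 1)), ((nat_lit 8), (nat_lit 1)), ((nat_lit 0), (nat_lit 0)), ((nat_lit 37), (nat_lit 1)), ((nat_lit 0x485485), (nat_lit 4)), ((nat_lit 973), (nat_lit 2)), ((nat_lit 0x488488), (nat_lit 4)), ((nat_lit 13), (nat_lit 1)), ((nat_lit 0x112152144485485), (nat_lit 10)), ((nat_lit 0x75274f48f), (nat_lit 6)), ((nat_lit 0), (nat_lit 0)), ((nat_lit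 0x81e81e), (nat_lit 4)), ((nat_lit 0x752752), (nat_lit 4)), ((nat_lit 25), (nat_lit 1)), ((nat_lit 0x657), (nat_lit 2)), ((nat_lit 0), (nat_lit 0)), ((nat_lit 0x75e75e), (nat_lit 4))] (nat_lit 0x9369356ea2f39349339329319303836e836492f92e92d52848b6e543b6e692c08f0960902aa),
.c (nat_lit 75) (nat_lit 0x8468014880406203028020278140a01e0f2100730883c839d281609e0c07006c1a83c6cc20362111b30937d83c1cc192740e93e0833e8465281c0e60f74a090e00324f81ccfa0f94a06039835d282038009940034aac18e6612da50871585173424e9e0efd10a9408490c445bee203670f1b1870d9c346c61809f0b819860e14360661c3850f819863a542c1ce1c3850d07986c0cc301ce183850b079879b6c3817a1c0c90f93a89039c441c2200e70f07087027c140a20809f0302881018c041320011b),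
.i (nat_lit 3) (nat_lit 120) [((nat_lit 18), (nat_lit 1)), ((nat_lit 2), (nat_lit 1)), ((nat_lit 4), (nat_lit 1)), ((nat_lit 1), (nat_lit 1)), ((nat_lit 32), (nat_lit 1)), ((nat_lit 9), (nat_lit 1)), ((nat_lit 30), (nat_lit 1)), ((nat_lit 5), (nat_lit 1)), ((nat_lit 8), (nat_lit 1)), ((nat_lit 0), (nat_lit 0)), ((nat_lit 37), (nat_lit 1)), ((nat_lit 0x485485), (nat_lit 4)), ((nat_lit 973), (nat_lit 2)), ((nat_lit 0x488488), (nat_lit 4)), ((nat_lit 13), (nat_lit 1)), ((nat_lit 0x112152144485485), (nat_lit 10)), ((nat_lit 0x75274f48f), (nat_lit 6)), ((nat_lit 0), (nat_lit 0)), ((nat_lit 0x81e81e), (nat_lit 4)), ((nat_lit 0x752752), (nat_lit 4)), ((nat_lit 25), (nat_lit 1)), ((nat_lit 0x657), (nat_lit 2)), ((nat_lit 0), (nat_lit 0)), ((nat_lit 0x75e75e), (nat_lit 4))] (nat_lit 0x9369356ea2f39349339329319303836e836492f92e92d52848b6e543b6e692c08f0960902aa),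
.c (nat_lit 117) (nat_lit 0x20f20253b0103980c700060f20453b00839809d280a380006fb013a50046cc04362031b3020d881c85826df61294a07ca503c1e4200e61107907839841d281c3620f1b3080d88446cc24df60d0730749f0419f4232940a94e0483c828708140e60b8190583c830708120e60a74a06c0c830708170320a1c204c0c82813c163620c1b3068d88386cc1edf609031054a002655c1c3df0d940860f7c2c85a15281092168d4a54659f62f27d160738db7dc686ce32363181b38b8d8c65d2a300e71a0798c839c601e630a6b179408b0f7c56502392951b67d8cc9f4601ce4810f231b3910d8c846ce403631f04f8f40cc7470234e95190738e8e14714ee360f31c8198d8e04681ce363851a53b8c83cc682363210f180708b827c58236100630704683046c1413e080e70307981039c041e60010f),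
.i (nat_lit 3) (nat_lit 127) [((nat_lit 18), (nat_lit 1)), ((nat_lit 2), (nat_lit 1)), ((nat_lit 4), (nat_lit 1)), ((nat_lit 1), (nat_lit 1)), ((nat_lit 32), (nat_lit 1)), ((nat_lit 9), (nat_lit 1)), ((nat_lit 30), (nat_lit 1)), ((nat_lit 5), (nat_lit 1)), ((nat_lit 8), (nat_lit 1)), ((nat_lit 0), (nat_lit 0)), ((nat_lit 37), (nat_lit 1)), ((nat_lit 0x485485), (nat_lit 4)), ((nat_lit 973), (nat_lit 2)), ((nat_lit 0x488488), (nat_lit 4)), ((nat_lit 13), (nat_lit 1)), ((nat_lit 0x112152144485485), (nat_lit 10)), ((nat_lit 0x75274f48f), (nat_lit 6)), ((nat_lit 0), (nat_lit 0)), ((nat_lit 0x81e81e), (nat_lit 4)), ((nat_lit 0x752752), (nat_lit 4)), ((nat_lit 25), (nat_lit 1)), ((nat_lit 0x657), (nat_lit 2)), ((nat_lit 0), (nat_lit 0)), ((nat_lit 0x75e75e), (nat_lit 4))] (nat_lit 0x9369356ea2f39349339329319303836e836492f92e92d52848b6e543b6e692c08f0960902aa),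
.c (nat_lit 6) (nat_lit 0x64e809294031c0014a5004700012b2),
.i (nat_lit 3) (nat_lit 128) [((nat_lit 18), (nat_lit 1)), ((nat_lit 2), (nat_lit 1)), ((nat_lit 4), (nat_lit 1)), ((nat_lit 1), (nat_lit 1)), ((nat_lit 32), (nat_lit 1)), ((nat_lit 9), (nat_lit 1)), ((nat_lit 30), (nat_lit 1)), ((nat_lit 5), (nat_lit 1)), ((nat_lit 8), (nat_lit 1)), ((nat_lit 0), (nat_lit 0)), ((nat_lit 37), (nat_lit 1)), ((nat_lit 0x485485), (nat_lit 4)), ((nat_lit 973), (nat_lit 2)), ((nat_lit 0x488488), (nat_lit 4)), ((nat_lit 13), (nat_lit 1)), ((nat_lit 0x112152144485485), (nat_lit 10)), ((nat_lit 0x75274f48f), (nat_lit 6)), ((nat_lit 0), (nat_lit 0)), ((nat_lit 0x81e81e), (nat_lit 4)), ((nat_lit 0x752752), (nat_lit 4)), ((nat_lit 25), (nat_lit 1)), ((nat_lit 0x657), (nat_lit 2)), ((nat_lit 0), (nat_lit 0)), ((nat_lit 0x75e75e), (nat_lit 4))] (nat_lit 0x9369356ea2f39349339329319303836e836492f92e92d52848b6e543b6e692c08f0960902aa),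
.c (nat_lit 12) (nat_lit 0x1046013db80dc5c08f6e02073004adc0e4ea0c0e70507082039c0c1c20408d),
.i (nat_lit 3) (nat_lit 129) [((nat_lit 18), (nat_lit 1)), ((nat_lit 2), (nat_lit 1)), ((nat_lit 4), (nat_lit 1)), ((nat_lit 1), (nat_lit 1)), ((nat_lit 32), (nat_lit 1)), ((nat_lit 9), (nat_lit 1)), ((nat_lit 30), (nat_lit 1)), ((nat_lit 5), (nat_lit 1)), ((nat_lit 8), (nat_lit 1)), ((nat_lit 0), (nat_lit 0)), ((nat_lit 37), (nat_lit 1)), ((nat_lit 0x485485), (nat_lit 4)), ((nat_lit 973), (nat_lit 2)), ((nat_lit 0x488488), (nat_lit 4)), ((nat_lit 13), (nat_lit 1)), ((nat_lit 0x112152144485485), (nat_lit 10)), ((nat_lit 0x75274f48f), (nat_lit 6)), ((nat_lit 0), (nat_lit 0)), ((nat_lit 0x81e81e), (nat_lit 4)), ((nat_lit 0x752752), (nat_lit 4)), ((nat_lit 25), (nat_lit 1)), ((nat_lit 0x657), (nat_lit 2)), ((nat_lit 0), (nat_lit 0)), ((nat_lit 0x75e75e), (nat_lit 4))] (nat_lit 0x9369356ea2f39349339329319303836e836492f92e92d52848b6e543b6e692c08f0960902aa),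
.c (nat_lit 52) (nat_lit 0x30870103c80c708060e6048190203c814708040e60374a0340c81470809032031c20140c80c13c08362051b3030d881c6cc10df60003100885008858072800010a0090b00257403281000318337dc146ce08363031b3810d8c0413e01033011c28140cc0c70a090330174a80039c0c70a040f30281980839c0470a000f3019448202340c21e0408d),
.i (nat_lit 3) (nat_lit 130) [((nat_lit 18), (nat_lit 1)), ((nat_lit 2), (nat_lit 1)), ((nat_lit 4), (nat_lit 1)), ((nat_lit 1), (nat_lit 1)), ((nat_lit 32), (nat_lit 1)), ((nat_lit 9), (nat_lit 1)), ((nat_lit 30), (nat_lit 1)), ((nat_lit 5), (nat_lit 1)), ((nat_lit 8), (nat_lit 1)), ((nat_lit 0), (nat_lit 0)), ((nat_lit 37), (nat_lit 1)), ((nat_lit 0x485485), (nat_lit 4)), ((nat_lit 973), (nat_lit 2)), ((nat_lit 0x488488), (nat_lit 4)), ((nat_lit 13), (nat_lit 1)), ((nat_lit 0x112152144485485), (nat_lit 10)), ((nat_lit 0x75274f48f), (nat_lit 6)), ((nat_lit 0), (nat_lit 0)), ((nat_lit 0x81e81e), (nat_lit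 4)), ((nat_lit 0x752752), (nat_lit 4)), ((nat_lit 25), (nat_lit 1)), ((nat_lit 0x657), (nat_lit 2)), ((nat_lit 0), (nat_lit 0)), ((nat_lit 0x75e75e), (nat_lit 4))] (nat_lit 0x9369356ea2f39349339329319303836e836492f92e92d52848b6e543b6e692c08f0960902aa),
.c (nat_lit 5) (nat_lit 0x20800295f814a24041020008d),
.i (nat_lit 3) (nat_lit 131) [((nat_lit 18), (nat_lit 1)), ((nat_lit 2), (nat_lit 1)), ((nat_lit 4), (nat_lit 1)), ((nat_lit 1), (nat_lit 1)), ((nat_lit 32), (nat_lit 1)), ((nat_lit 9), (nat_lit 1)), ((nat_lit 30), (nat_lit 1)), ((nat_lit 5), (nat_lit 1)), ((nat_lit 8), (nat_lit 1)), ((nat_lit 0), (nat_lit 0)), ((nat_lit 37), (nat_lit 1)), ((nat_lit 0x485485), (nat_lit 4)), ((nat_lit 973), (nat_lit 2)), ((nat_lit 0x488488), (nat_lit 4)), ((nat_lit 13), (nat_lit 1)), ((nat_lit 0x112152144485485), (nat_lit 10)), ((nat_lit 0x75274f48f), (nat_lit 6)), ((nat_lit 0), (nat_lit 0)), ((nat_lit 0x81e81e), (nat_lit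 4)), ((nat_lit 0x752752), (nat_lit 4)), ((nat_lit 25), (nat_lit 1)), ((nat_lit 0x657), (nat_lit 2)), ((nat_lit 0), (nat_lit 0)), ((nat_lit 0x75e75e), (nat_lit 4))] (nat_lit 0x9369356ea2f39349339329319303836e836492f92e92d52848b6e543b6e692c08f0960902aa)]

theorem c20 : chk db th.hy ths 2402 J20 2356 = true := by decide +kernel

set_option maxRecDepth 100000 in
/-- Justifications. -/
noncomputable def J21 : List Js := [
.c (nat_lit 73) (nat_lit 0x8c0103106ca501dd28143800b819060e00254ec143840b53b040e0026064143800753b040e10254ec0e0f2080730483c81c1cc10e940704f040d88246cc143620b1b30637d8201c0120e60a93e0633e83652812e940c1c005a9d82870012a7602961038f7c1a5020a3df0421681ca040885a152c1096da8438bc1db6a0ce2f0b94a8533ec224fa0e0e71394a8933ec424fa1e0e7140878983cc481ce220f3100738783843813e1a11b0c0878583cc281ce120f308073838384040c60008d),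
.i (nat_lit 3) (nat_lit 141) [((nat_lit 18), (nat_lit 1)), ((nat_lit 2), (nat_lit 1)), ((nat_lit 4), (nat_lit 1)), ((nat_lit 1), (nat_lit 1)), ((nat_lit 32), (nat_lit 1)), ((nat_lit 9), (nat_lit 1)), ((nat_lit 30), (nat_lit 1)), ((nat_lit 5), (nat_lit 1)), ((nat_lit 8), (nat_lit 1)), ((nat_lit 0), (nat_lit 0)), ((nat_lit 37), (nat_lit 1)), ((nat_lit 0x485485), (nat_lit 4)), ((nat_lit 973), (nat_lit 2)), ((nat_lit 0x488488), (nat_lit 4)), ((nat_lit 13), (nat_lit 1)), ((nat_lit 0x112152144485485), (nat_lit 10)), ((nat_lit 0x75274f48f), (nat_lit 6)), ((nat_lit 0), (nat_lit 0)), ((nat_lit 0x81e81e), (nat_lit 4)), ((nat_lit 0x752752), (nat_lit 4)), ((nat_lit 25), (nat_lit 1)), ((nat_lit 0x657), (nat_lit 2)), ((nat_lit 0), (nat_lit 0)), ((nat_lit 0x75e75e), (nat_lit 4))] (nat_lit 0x9369356ea2f39349339329319303836e836492f92e92d52848b6e543b6e692c08f0960902aa),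
.c (nat_lit 29) (nat_lit 0xc0e00793a054a502470011294071c0034a50181e40e0e6080790303981dd280a362061b3038d88206cc12df60407302c9f01d9f411294037170236d015c5c0cdb4079600137d806580012c6),
.i (nat_lit 3) (nat_lit 142) [((nat_lit 18), (nat_lit 1)), ((nat_lit 2), (nat_lit 1)), ((nat_lit 4), (nat_lit 1)), ((nat_lit 1), (nat_lit 1)), ((nat_lit 32), (nat_lit 1)), ((nat_lit 9), (nat_lit 1)), ((nat_lit 30), (nat_lit 1)), ((nat_lit 5), (nat_lit 1)), ((nat_lit 8), (nat_lit 1)), ((nat_lit 0), (nat_lit 0)), ((nat_lit 37), (nat_lit 1)), ((nat_lit 0x485485), (nat_lit 4)), ((nat_lit 973), (nat_lit 2)), ((nat_lit 0x488488), (nat_lit 4)), ((nat_lit 13), (nat_lit 1)), ((nat_lit 0x112152144485485), (nat_lit 10)), ((nat_lit 0x75274f48f), (nat_lit 6)), ((nat_lit 0), (nat_lit 0)), ((nat_lit 0x81e81e), (nat_lit 4)), ((nat_lit 0x752752), (nat_lit 4)), ((nat_lit 25), (nat_lit 1)), ((nat_lit 0x657), (nat_lit 2)), ((nat_lit 0), (nat_lit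 0)), ((nat_lit 0x75e75e), (nat_lit 4))] (nat_lit 0x9369356ea2f39349339329319303836e836492f92e92d52848b6e543b6e692c08f0960902aa),
.c (nat_lit 61) (nat_lit 0x40e0030730083980a064060e00493a03043816528083800394a00c0c808700020f2021c20103980e064060f2041c200839809d280b032041c201c0c808708030320204f018d88106cc0a362061b303b7d8040c4052800096500ca04000c60cdf7051b3820d8c0c6ce043630104f8040cc0470a05033031c28240cc05d2a000e7031c28103cc0a066020e7011c28003cc0656a0c10f050738203840c1ce040e1),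
.i (nat_lit 3) (nat_lit 148) [((nat_lit 18), (nat_lit 1)), ((nat_lit 2), (nat_lit 1)), ((nat_lit 4), (nat_lit 1)), ((nat_lit 1), (nat_lit 1)), ((nat_lit 32), (nat_lit 1)), ((nat_lit 9), (nat_lit 1)), ((nat_lit 30), (nat_lit 1)), ((nat_lit 5), (nat_lit 1)), ((nat_lit 8), (nat_lit 1)), ((nat_lit 0), (nat_lit 0)), ((nat_lit 37), (nat_lit 1)), ((nat_lit 0x485485), (nat_lit 4)), ((nat_lit 973), (nat_lit 2)), ((nat_lit 0x488488), (nat_lit 4)), ((nat_lit 13), (nat_lit 1)), ((nat_lit 0x112152144485485), (nat_lit 10)), ((nat_lit 0x75274f48f), (nat_lit 6)), ((nat_lit 0), (nat_lit 0)), ((nat_lit 0x81e81e), (nat_lit 4)), ((nat_lit 0x752752), (nat_lit 4)), ((nat_lit 25), (nat_lit 1)), ((nat_lit 0x657), (nat_lit 2)), ((nat_lit 0), (nat_lit 0)), ((nat_lit 0x75e75e), (nat_lit 4))] (nat_lit 0x9369356ea2f39349339329319303836e836492f92e92d52848b6e543b6e692c08f0960902aa),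
.c (nat_lit 46) (nat_lit 0x141e40c0e60707902839819d280809e056d2030d881c6cc10362091b30537d815c340cd2c0770d0434b026520020620227a01ca00107b806da40127a00cb380a50202063076fb830d9c146c608367031b181027c060660438503819820e141606604e9501073820e140c1e60703302073810e14041e60011b),
.i (nat_lit 3) (nat_lit 154) [((nat_lit 18), (nat_lit 1)), ((nat_lit 2), (nat_lit 1)), ((nat_lit 4), (nat_lit 1)), ((nat_lit 1), (nat_lit 1)), ((nat_lit 32), (nat_lit 1)), ((nat_lit 9), (nat_lit 1)), ((nat_lit 30), (nat_lit 1)), ((nat_lit 5), (nat_lit 1)), ((nat_lit 8), (nat_lit 1)), ((nat_lit 0), (nat_lit 0)), ((nat_lit 37), (nat_lit 1)), ((nat_lit 0x485485), (nat_lit 4)), ((nat_lit 973), (nat_lit 2)), ((nat_lit 0x488488), (nat_lit 4)), ((nat_lit 13), (nat_lit 1)), ((nat_lit 0x112152144485485), (nat_lit 10)), ((nat_lit 0x75274f48f), (nat_lit 6)), ((nat_lit 0), (nat_lit 0)), ((nat_lit 0x81e81e), (nat_lit 4)), ((nat_lit 0x752752), (nat_lit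 4)), ((nat_lit 25), (nat_lit 1)), ((nat_lit 0x657), (nat_lit 2)), ((nat_lit 0), (nat_lit 0)), ((nat_lit 0x75e75e), (nat_lit 4))] (nat_lit 0x9369356ea2f39349339329319303836e836492f92e92d52848b6e543b6e692c08f0960902aa),
.c (nat_lit 7) (nat_lit 0x8438025a4012d1050878203240c236040c9),
.c (nat_lit 1) (nat_lit 0x4cb),
.c (nat_lit 2) (nat_lit 0xa500006be),
.c (nat_lit 6) (nat_lit 0x41a5800c7a0196a8203240c236040c9),
.c (nat_lit 46) (nat_lit 0x821c020f2021c20103980e064060f2041c200839809d280b032041c201c0c808708030320204f018d88106cc0a362061b303b7d8040c405280016f100ca0421bee0e367061b1828d9c106c60609f02819818e14120660a3850681981ba54081ce0a385040798240cc0c1ce063850207981a9ac1021e00063),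
.c (nat_lit 39) (nat_lit 0x1881013c0a0e606079038398201e41210e01216014a0005c3e03281086fb838d9c186c60a367041b181827c0a0660638504819828e141a06606e9502073828e14101e60903303073818e14081e6072c1046fb84843c201e60e0e70607982839c1013e00063),
.c (nat_lit 11) (nat_lit 0x63700347bc1d2dc010310108800e5b808dc0051ef0336f01e5b800e84),
.c (nat_lit 45) (nat_lit 0x2062071c20340c814708090320504f0337d8181cc0e380070790429d8201cc12380090790529d809b800728002744814a0425bee10367071b1830d9c146c60809f03819820e14160660c38507819823a540c1ce0c3850507982c0cc101ce08385030798503cc241ce100f30707383027c040c60011b),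
.c (nat_lit 6) (nat_lit 0x124e800e900195c8203840c1ce040e1),
.c (nat_lit 39) (nat_lit 0x1881013c0a0e606079038398201e41210e011ef014a0005e1603281086fb838d9c186c60a367041b181827c0a0660638504819828e141a06606e9502073828e14101e60903303073818e14081e607295046fb84843c201e60e0e70607982839c1013e00063),
.c (nat_lit 15) (nat_lit 0x43a502c70014a76091c00429d8000c403280007a1014a04040c60e10f0607982839c101e6060e7),
.c (nat_lit 46) (nat_lit 0x40c4080f2051c20283981a0640c0f2071c202039815d2811032071c20340c814708090320504f030d881c6cc10362091b30537d80844007280027a5814a0425bee10367071b1830d9c146c60809f03819820e14160660c38507819823a540c1ce0c3850507982c0cc101ce083850307983027c040c60011b),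
.c (nat_lit 4) (nat_lit 0x693a0283981a53001072),
.c (nat_lit 107) (nat_lit 0x1703c8bc1cc600f22e07317ba50ac190580e02d94217b868c1a5862e1a32696158380b2508580c82d70d158320a8db456fb42c76a16bed0b9da85ee223076a18b8888c11848f6e257171336d09dc5c50db429960154b78ac6b058f6e2d717173db8bdc5c60db4317171936d0cc21c64a76311c01829d8bc7005d2942d1c0164a50ae520480e62593e13b3e8a2528532e62a94a120380941cc4d27c2867d14ca50aa5cc452c4247b7128d6099edc4ee2e287b714b8b8a9b6856e2e2c6da13c9f0999f4440e0239731102308dedc492de227b710bf608a578470882424012ba909a5704eea42894412839899d28523802470d12b4b099c344ed2c28948100d80740c43c2141f3921013d884860452801393a06ca900a50001078),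
.c (nat_lit 13) (nat_lit 0x42358208c60e0d6075b683d2de1f1ac043ab00988c0a7260696a039c98225b40107e),
.c (nat_lit 52) (nat_lit 0x50790233e80c6cc04cfa011b3001130181cc0e0e00383501826010b200809e051b10102600d15c0c590014650483c8219f40e3660667d02b5f0106cc06d7c022260503982c1c00f06a0704f040d880d194083460708d034b9815d400c0620c07306c9f03d9f4212940727b044a001e10e0f2811007083018c142360809f030738103cc041ce000f3),
.c (nat_lit 40) (nat_lit 0x2c1ac15c6309c6b050db42996f150d604dd581e07a108ca0702483c118200920c1aa0690b8301181a3540d03d074650381181e3541073804b1282c680186e20d113070d003c44c163540a8ca048d5029ce01ae680f3710746503d88c247261396a0a1c98565b401090),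
.c (nat_lit 4) (nat_lit 0x204c0182781254801092),
.c (nat_lit 11) (nat_lit 0x3c1b825edc0e09e0883402ca901c6c00a09e068340202781654801096),
.c (nat_lit 5) (nat_lit 0x4b2dc0693a0283981a5300115a),
.c (nat_lit 3) (nat_lit 0x82300a58001288),
.c (nat_lit 3) (nat_lit 0x83200a5200128c),
.c (nat_lit 7) (nat_lit 0x18278101c00a09e0304c02027816548012a0),
.c (nat_lit 39) (nat_lit 0x1400c0a00849405079033848225981010e0474a020398141c00c0e60793e04b3e819d280c0e60407002c9d01e4f812cfa037fe02125015ff80c0f20770904cad0181cc040e003835028d8819bec032b40195480cb341a5ba0a0630608782846c100a200051),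
.c (nat_lit 95) (nat_lit 0x38004118040620608d0190b0107bc0b2dc0395882cb74114d6072810498184c0cc19d2a0a0e7081c28383cc1e0660c0e7061c28283cc1821e0a11b0696f828234166060809f0896f83b6d419c5e0adb50471784cb9c219f60d27d05073854c0c246ce10363071b3830d8c21d2a0e0e70907984039c1c1e60f2e70a97384ca54225ce0e0e1099818437dc1e6060c09f0a81983ba54181ce12385080798440cc1c1ce0e38506079838e041a06610a77071c2848e042206614a77091c28640cc2c702150330774a83039c2c70a14a77091c28403cc2a066123810881983839c2470a10a77071c28303cc282361210f0808d81018c0411a000e1),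
.c (nat_lit 3) (nat_lit 0x82300a5bc012bc),
.c (nat_lit 5) (nat_lit 0x20c80208d018320025a8012d0),
.c (nat_lit 0) (nat_lit 0),
.c (nat_lit 0) (nat_lit 0),
.c (nat_lit 25) (nat_lit 0x633d023f0808cf400fc204c47086238381ec187c20a727026198081a4240f6103e10739382311c0c0f6040690103d830cf414b2e087170319e81165c04e2e0005d),
.i (nat_lit 3) (nat_lit 58) [((nat_lit 9), (nat_lit 1)), ((nat_lit 4), (nat_lit 1)), ((nat_lit 1), (nat_lit 1)), ((nat_lit 7), (nat_lit 1)), ((nat_lit 15), (nat_lit 1)), ((nat_lit 8), (nat_lit 1)), ((nat_lit 0x81f), (nat_lit 2)), ((nat_lit 0x490), (nat_lit 2)), ((nat_lit 12), (nat_lit 1)), ((nat_lit 25), (nat_lit 1)), ((nat_lit 0x607c181f), (nat_lit 6)), ((nat_lit 0), (nat_lit 0)), ((nat_lit 0x792692), (nat_lit 4)), ((nat_lit 0x309309), (nat_lit 4)), ((nat_lit 0x10c10c), (nat_lit 4)), ((nat_lit 0), (nat_lit 0)), ((nat_lit 0x25e49a489792692), (nat_lit 10)), ((nat_lit 0x3cc3cc), (nat_lit 4)), ((nat_lit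 0x3207cc81f), (nat_lit 6)), ((nat_lit 0x24430430910c10c), (nat_lit 10)), ((nat_lit 0x4430430110c10c), (nat_lit 10)), ((nat_lit 0x1c430430710c10c), (nat_lit 10)), ((nat_lit 0x4910c10c24430430124430430910c10c), (nat_lit 22)), ((nat_lit 0x1c910c10c24430430724430430910c10c), (nat_lit 22))] (nat_lit 0x6166176146156139878b69863114ed71b34b60a98560c33342940c52846d6090a508f0960ab),
.c (nat_lit 22) (nat_lit 0xf4020f2020760182302df1418db40b3ea041f5011f140adb4049888801ec3c1e61c0ed0d03d8603cc2c1da1408d030468103b4041e60007b),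
.i (nat_lit 3) (nat_lit 75) [((nat_lit 9), (nat_lit 1)), ((nat_lit 4), (nat_lit 1)), ((nat_lit 1), (nat_lit 1)), ((nat_lit 7), (nat_lit 1)), ((nat_lit 15), (nat_lit 1)), ((nat_lit 8), (nat_lit 1)), ((nat_lit 0x81f), (nat_lit 2)), ((nat_lit 0x490), (nat_lit 2)), ((nat_lit 12), (nat_lit 1)), ((nat_lit 25), (nat_lit 1)), ((nat_lit 0x607c181f), (nat_lit 6)), ((nat_lit 0), (nat_lit 0)), ((nat_lit 0x792692), (nat_lit 4)), ((nat_lit 0x309309), (nat_lit 4)), ((nat_lit 0x10c10c), (nat_lit 4)), ((nat_lit 0), (nat_lit 0)), ((nat_lit 0x25e49a489792692), (nat_lit 10)), ((nat_lit 0x3cc3cc), (nat_lit 4)), ((nat_lit 0x3207cc81f), (nat_lit 6)), ((nat_lit 0x24430430910c10c), (nat_lit 10)), ((nat_lit 0x4430430110c10c), (nat_lit 10)), ((nat_lit 0x1c430430710c10c), (nat_lit 10)), ((nat_lit 0x4910c10c24430430124430430910c10c), (nat_lit 22)), ((nat_lit 0x1c910c10c24430430724430430910c10c), (nat_lit 22))] (nat_lit 0x6166176146156139878b69863114ed71b34b60a98560c33342940c52846d6090a508f0960ab),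
.c (nat_lit 27) (nat_lit 0x10c80c1240827004046028ea0141240c270011ad0108980c6801436209351040d881044c0a432061a0024c541813e1c0690d07386027c2c19e1409f0304681024c0419e0009f),
.i (nat_lit 3) (nat_lit 124) [((nat_lit 9), (nat_lit 1)), ((nat_lit 4), (nat_lit 1)), ((nat_lit 1), (nat_lit 1)), ((nat_lit 7), (nat_lit 1)), ((nat_lit 15), (nat_lit 1)), ((nat_lit 8), (nat_lit 1)), ((nat_lit 0x81f), (nat_lit 2)), ((nat_lit 0x490), (nat_lit 2)), ((nat_lit 12), (nat_lit 1)), ((nat_lit 25), (nat_lit 1)), ((nat_lit 0x607c181f), (nat_lit 6)), ((nat_lit 0), (nat_lit 0)), ((nat_lit 0x792692), (nat_lit 4)), ((nat_lit 0x309309), (nat_lit 4)), ((nat_lit 0x10c10c), (nat_lit 4)), ((nat_lit 0), (nat_lit 0)), ((nat_lit 0x25e49a489792692), (nat_lit 10)), ((nat_lit 0x3cc3cc), (nat_lit 4)), ((nat_lit 0x3207cc81f), (nat_lit 6)), ((nat_lit 0x24430430910c10c), (nat_lit 10)), ((nat_lit 0x4430430110c10c), (nat_lit 10)), ((nat_lit 0x1c430430710c10c),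 (nat_lit 10)), ((nat_lit 0x4910c10c24430430124430430910c10c), (nat_lit 22)), ((nat_lit 0x1c910c10c24430430724430430910c10c), (nat_lit 22))] (nat_lit 0x6166176146156139878b69863114ed71b34b60a98560c33342940c52846d6090a508f0960ab),
.c (nat_lit 99) (nat_lit 0x1cc100c1e4083840407302c0c8141e40c38403073023a501e06405302019400017781c1e410a7608073048e00241e414a7607073043a502c7000e09e086fb04cc0820118132c00a96f04cc100c0d00822605219030d001c44c10432091a00503982813c163620b067061a883013c1a36208067021778141180c42e091d40502780c8640835a05219034c580a6300b31704219818d6c088661209f081d48290bc1011a065df07067860d8c2c13e166a30a067850d8c2413e120e7081a08390cc1844e0a3410421981889c080d20e42d0694083cc0c3206612e9508073858e14281e61503309073848e14201e6113050996f844b04282361210f0804683827c041260009f),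
.i (nat_lit 3) (nat_lit 157) [((nat_lit 9), (nat_lit 1)), ((nat_lit 4), (nat_lit 1)), ((nat_lit 1), (nat_lit 1)), ((nat_lit 7), (nat_lit 1)), ((nat_lit 15), (nat_lit 1)), ((nat_lit 8), (nat_lit 1)), ((nat_lit 0x81f), (nat_lit 2)), ((nat_lit 0x490), (nat_lit 2)), ((nat_lit 12), (nat_lit 1)), ((nat_lit 25), (nat_lit 1)), ((nat_lit 0x607c181f), (nat_lit 6)), ((nat_lit 0), (nat_lit 0)), ((nat_lit 0x792692), (nat_lit 4)), ((nat_lit 0x309309), (nat_lit 4)), ((nat_lit 0x10c10c), (nat_lit 4)), ((nat_lit 0), (nat_lit 0)), ((nat_lit 0x25e49a489792692), (nat_lit 10)), ((nat_lit 0x3cc3cc), (nat_lit 4)), ((nat_lit 0x3207cc81f), (nat_lit 6)), ((nat_lit 0x24430430910c10c), (nat_lit 10)), ((nat_lit 0x4430430110c10c), (nat_lit 10)), ((nat_lit 0x1c430430710c10c), (nat_lit 10)), ((nat_lit 0x4910c10c24430430124430430910c10c), (nat_lit 22)), ((nat_lit 0x1c910c10c24430430724430430910c10c), (nat_lit 22))] (nat_lit 0x6166176146156139878b69863114ed71b34b60a98560c33342940c52846d6090a508f0960ab),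
.c (nat_lit 77) (nat_lit 0x92010000302481cbbc10270092ef0402302475006068041130290c8186800e22608219048d00281cc1409e0b1b105833830d441809e0d1b104033810bbc0a08c06217048ea02813c06432041ad0290c81a62c0531c0598b8210cc0c6b6044330904f840ea41485e0808d032ef83833c306c61609f0b35185033c286c61209f09073840d041c8660c227051a08210cc0c44e04069071f98303a4141a2083f30307481034419c5e0e6a70c35185833c2c6c61409f0a073848ea42819e1208d0804f83824c0400200093),
.c (nat_lit 112) (nat_lit 0x7076041f500e624080f2036da010f80887044118c2159b0e0e105c7042b18c1659b098e102966c160f2091c1051f502c0f4180f20c076069f50301181af8a0e6da0483b0287041731204034028d001a5b408bba0496d85cc4c28706120ed0e6da86be2c3011a1a7d50c0768603cc2c0f6147d5091c18583cc2966e212db0f222874b54347c2184450b96d894c4c44706200ed156da8a3e2c4c11a287d5130768983cc480f6227d5101c18903cc4566e2c0c9151c28a03cc5c1922c3851d9898e0e0c6c1da40db51f7c58f02347cfaa3c0ed1e0798e81ec70faa363831d0798e2cdc841924011b1f0798f03247422a3807b1b0768d046c641da3007b1708d8b03cc541922811b13064890454440f6200ed0f08d8703b4340f6180f3030348103cc040f6000ed),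
.c (nat_lit 11) (nat_lit 0x29fa81891008f8a056da019fa8109100608c047c502b6d00262400e70),
.c (nat_lit 25) (nat_lit 0x30d12196870bbe2861b682cd12176870abe2859b68287ea1524409b44851a1c247ea1324408be2849b68207ea1124407b44841a1c1e08c107c508b6d03262400eda),
.c (nat_lit 25) (nat_lit 0x30d12196870bbe2861b682cd12176870abe2859b68287ea1524409b44851a1c247ea1324408be2849b68207ea1124407b44841a1c1e08c107c508b6d03262400edc),
.c (nat_lit 12) (nat_lit 0x29820103c80c708060e6048190203c814708040e60374a0340c80660401280),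
.c (nat_lit 12) (nat_lit 0x49820203c8147080a0e6068190303c81c708080e60574a0440c80e604012d8),
.c (nat_lit 15) (nat_lit 0x32cd81c1e40a382063ea0381e8201e4100ec093ea04023025f1414db405076030e081e624012da),
.c (nat_lit 2) (nat_lit 0x1a608012e2),
.c (nat_lit 34) (nat_lit 0x13c060e6041c002c0c8101e40aa76061c2028398187000f0320607903a9d8207080f304011b2014c08065d2033030681981ba54081ce0a385040798240cc0c1ce0638502079814c142421e100f3070738303cc141ce0009f),
.c (nat_lit 2) (nat_lit 0xa608012ea),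
.c (nat_lit 80) (nat_lit 0xa07905a9d82c1cc183800c07906a9d825d2818380090730383802013c120e00a835060d8835bec1d3020993a064a50365cc180f20d53b068398387001c0f20f53b05ba5038700160e609070038278220d01506a0c1b106b7d83a604140e00604f03ca90246c0152ac0b5220503c82d4ec160e60c1c00603c8354ec140e60b74a070e001a0d012df60a9810302781468c0d2f207750030380141c008fd805844033f601e5f8113060404f018d18125e40aea0049820203c8147080a0e6068190303c81c708080e60574a0440c80e604012ee),
.c (nat_lit 15) (nat_lit 0x92cd84c1e422382123ea0981e8501e4280ec153ea0a023055f142cdb411076090e084e624012f0),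
.c (nat_lit 15) (nat_lit 0xeacd8781e4383821d3ea0f01e87c1e43e0ec203ea0f823081f1442db41c0760e8e087a624012f4),
.c (nat_lit 6) (nat_lit 0x1019c0a09e0404f00c9c00e63c01316),
.c (nat_lit 1) (nat_lit 497),
.c (nat_lit 8) (nat_lit 0x217b808bcc000020273300028810f7404e4a00063),
.c (nat_lit 28) (nat_lit 0x12d8820fcc0ce52042f30103280000404e66084810338c829b6c1017a080c90426981935c08e660205103240811c64106b206355051e3821cb40c19604515010f880001c086b2060c9),
.c (nat_lit 12) (nat_lit 0x17a80c16c107b6070490202b818fac095a2022f30000081415c0559600051),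
.c (nat_lit 20) (nat_lit 0x41ee819c940885a0221500031818f7408e4a0242d0010a8212040ce320459301040818d64086aa0208d0236d8082f40419200063),
.c (nat_lit 10) (nat_lit 0x47de0063b027fe80c0040ce2a040db02070808bcc0000200051),
.c (nat_lit 6) (nat_lit 0x486200221022ca80821c0413200063),
.c (nat_lit 40) (nat_lit 0x11eb801f8c0c6c20435f047fe81c004091760e485063d7840d841c6be123ef0831d838f5c18fc60a0e9041eb818bcc081d2027e3000008212540a5ee030950b2c884ca942013e0e0990604f840d8c1c13e0e0e706242829ebc1ce2a0c0db06070843ff41e0020c8bb),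
.c (nat_lit 0) (nat_lit 0),
.c (nat_lit 0) (nat_lit 0),
.c (nat_lit 0) (nat_lit 0),
.c (nat_lit 63) (nat_lit 0x28bdc107d606ad10217b808fac015a20c7330582b822b2c0ce6605057015658343541595e0d10d081ee839c9424db6100bd08064868bdc307d616ad10a17b848fac215a20e2f7061f582ab44105ee063eb02568808bcc00002187330b82b852b2c24e661105707565831ccc160ae08acb0339981415c05596000510486a81b2bc1221a0c3dd05392839b6c1817a0c0c90a86a84b2bc2a21a183dd0b392869b6c3017a180c9),
.c (nat_lit 46) (nat_lit 0x14c9e083db0382481193c047b6010490592a8247c41a4720b1cd071ef831ce420e2a0e0db0707086193c2c7b61504909327840f6c1e0920c64f051ed8241240cc9e043db0182480015c124aa071f10591c824734187be0a7390738a83036c181c215255098f885c8e42a39a183df0b39c869c54301b6180e1),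
.c (nat_lit 0) (nat_lit 0),
.c (nat_lit 0) (nat_lit 0),
.c (nat_lit 0) (nat_lit 0),
.c (nat_lit 0) (nat_lit 0),
.c (nat_lit 0) (nat_lit 0),
.i (nat_lit 3) (nat_lit 59) [((nat_lit 8), (nat_lit 1)), ((nat_lit 4), (nat_lit 1)), ((nat_lit 321), (nat_lit 2)), ((nat_lit 6), (nat_lit 1)), ((nat_lit 0x657), (nat_lit 2)), ((nat_lit 0x195cf348), (nat_lit 5)), ((nat_lit 0x75c), (nat_lit 2)), ((nat_lit 0x44e), (nat_lit 2)), ((nat_lit 0x513), (nat_lit 2)), ((nat_lit 0), (nat_lit 0)), ((nat_lit 0), (nat_lit 0)), ((nat_lit 0), (nat_lit 0)), ((nat_lit 0x75c49115239244548e), (nat_lit 12)), ((nat_lit 0x2144c8513), (nat_lit 6)), ((nat_lit 0x1144c4513), (nat_lit 6)), ((nat_lit 0), (nat_lit 0)), ((nat_lit 0x21d71244548e49115238875c49115239244548e), (nat_lit 26)), ((nat_lit 0x2144c85132144c8513), (nat_lit 12)), ((nat_lit 0x2144c85132144c8513), (nat_lit 12)), ((nat_lit 0x2045131144c81144c4513), (nat_lit 14)), ((nat_lit 0x1411144c45131411144c4513),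 (nat_lit 16)), ((nat_lit 0x1845131144c61144c4513), (nat_lit 14)), ((nat_lit 0x1412045131144c81144c45131412045131144c81144c4513), (nat_lit 32)), ((nat_lit 0x1881144c45132045131144c62045131144c81144c4513), (nat_lit 30))] (nat_lit 0x9af9ae9ad9ac9ab9aa9a99a85269a79a69a59a49a39a29a13b78779a099f99e0a20d80960a8),
.c (nat_lit 31) (nat_lit 0x1580e0a0040bc030640102180dfe80608c041aa02021815fe80a08c061aa00c01009da0033610386a8132bc0e21a0a3dd043928343541595e0d10d081ee839c9424192100bd070318302ac1414a00057),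
.c (nat_lit 3) (nat_lit 0x8be4000060005d),
.c (nat_lit 1) (nat_lit 0x609),
.c (nat_lit 14) (nat_lit 0x5da201005051aa82023411fea06087031aa81023409fea020870236d8082f40419200057),
.c (nat_lit 25) (nat_lit 0x67290217a809ca4005ea08ed103802840d541c11a0eff506043830d541411a0aff50404382920410e320c6db0505e82832408c12020570304081015c0410200001),
.c (nat_lit 16) (nat_lit 0x385d810bdc06176002f7039b182c2c41216a0d051050528282ac08c1a020630303a81018c040ea00001),
.c (nat_lit 25) (nat_lit 0x61fd023278087f400c9e05105088828381d4187be0a7390230680818c240ea103df0739c8244140c0ea040630103a8307f414b960868f030fe81172c04d1e00057),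
.i (nat_lit 3) (nat_lit 118) [((nat_lit 1), (nat_lit 1)), ((nat_lit 8), (nat_lit 1)), ((nat_lit 6), (nat_lit 1)), ((nat_lit 2), (nat_lit 1)), ((nat_lit 0), (nat_lit 0)), ((nat_lit 0x75c), (nat_lit 2)), ((nat_lit 5), (nat_lit 1)), ((nat_lit 13), (nat_lit 1)), ((nat_lit 11), (nat_lit 1)), ((nat_lit 0), (nat_lit 0)), ((nat_lit 0x513), (nat_lit 2)), ((nat_lit 0x657), (nat_lit 2)), ((nat_lit 0x346346), (nat_lit 4)), ((nat_lit 0x513), (nat_lit 2)), ((nat_lit 0x2c82c8), (nat_lit 4)), ((nat_lit 0), (nat_lit 0)), ((nat_lit 0), (nat_lit 0)), ((nat_lit 0), (nat_lit 0)), ((nat_lit 0), (nat_lit 0)), ((nat_lit 0), (nat_lit 0)), ((nat_lit 0x2dd70b75c), (nat_lit 6)), ((nat_lit 0x34b34b), (nat_lit 4)), ((nat_lit 0), (nat_lit 0)), ((nat_lit 0), (nat_lit 0))] (nat_lit 0x3403ad87d9b79b687b8529b59b487984f9b36ea8898782fe2f136387743a8760900a20a808f),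
.c (nat_lit 10) (nat_lit 0x40e8060bc04064014dc00a222100c90705e8302ac040ea00081),
.c (nat_lit 1) (nat_lit 475),
.c (nat_lit 16) (nat_lit 0x15b08013cc1d6c20c4f305550822acc0d6c2043db0127980015c0415606ab702084810454049c60005d),
.c (nat_lit 9) (nat_lit 0x20ef00100819c5c089c60205d021b280827c04fd200005),
.c (nat_lit 13) (nat_lit 0x20f5002da81827c0cb2e044e70102e810d9c0c7a6040f50128c80001c046ce040f3),
.c (nat_lit 0) (nat_lit 0),
.c (nat_lit 0) (nat_lit 0),
.c (nat_lit 3) (nat_lit 0x1d1c041da00007),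
.c (nat_lit 0) (nat_lit 0),
.c (nat_lit 13) (nat_lit 0x474301077800c1c10912067eb022ef80824c0c6ce043650104f8103cc04fd200005),
.c (nat_lit 0) (nat_lit 0),
.c (nat_lit 0) (nat_lit 0),
.c (nat_lit 0) (nat_lit 0),
.c (nat_lit 6) (nat_lit 0xe2e023650207680938c000ba0009f),
.c (nat_lit 0) (nat_lit 0),
.i (nat_lit 3) (nat_lit 19) [((nat_lit 6), (nat_lit 1)), ((nat_lit 3), (nat_lit 1)), ((nat_lit 4), (nat_lit 1)), ((nat_lit 0x487), (nat_lit 2)), ((nat_lit 0x44e), (nat_lit 2)), ((nat_lit 10), (nat_lit 1)), ((nat_lit 0x26912512), (nat_lit 5)), ((nat_lit 31), (nat_lit 1)), ((nat_lit 0x20490), (nat_lit 3)), ((nat_lit 28), (nat_lit 1)), ((nat_lit 0x126912512126912512), (nat_lit 12)), ((nat_lit 0x19f19f), (nat_lit 4)), ((nat_lit 0), (nat_lit 0)), ((nat_lit 0x1a04901a0490), (nat_lit 8)), ((nat_lit 31), (nat_lit 1)), ((nat_lit 0x1067c67c419f19f), (nat_lit 10)), ((nat_lit 0), (nat_lit 0)), ((nat_lit 0x1068124068124041a04901a0490),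 (nat_lit 18)), ((nat_lit 0x4871a04901a04904871a04901a0490), (nat_lit 20)), ((nat_lit 0x19f19f), (nat_lit 4)), ((nat_lit 0), (nat_lit 0)), ((nat_lit 0), (nat_lit 0)), ((nat_lit 0x1067c67c419f19f), (nat_lit 10)), ((nat_lit 0x48719f19f48719f19f), (nat_lit 12))] (nat_lit 0x9c79c39c69c09bf9c59c43ad9c39c29c19c09bf9be5809bd9bc9bb3623ac9ba5250960930a2)]

theorem c21 : chk db th.hy ths 2505 J21 2402 = true := by decide +kernel

set_option maxRecDepth 100000 in
/-- Justifications. -/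
noncomputable def J22 : List Js := [
.c (nat_lit 11) (nat_lit 0x13880495c044e20504f032c181013c073900904f81027c041560009f),
.c (nat_lit 0) (nat_lit 0),
.c (nat_lit 3) (nat_lit 0x116c4047a600007),
.c (nat_lit 7) (nat_lit 0x10fc4040d600003021e98088640000e020f3),
.c (nat_lit 0) (nat_lit 0),
.c (nat_lit 12) (nat_lit 0x2d88296c4107a6060cb0228a8096c40000e0459301040810d640411a020c9),
.c (nat_lit 3) (nat_lit 0x8f4c0000e000f3),
.c (nat_lit 8) (nat_lit 0x6581b6d4086b20208d021e9808f1c0000e020f3),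
.c (nat_lit 3) (nat_lit 0x1cac0417a00001),
.c (nat_lit 6) (nat_lit 0xe5a04e230105e808f4c0000e000f3),
.c (nat_lit 3) (nat_lit 0x1cc40417a00003),
.i (nat_lit 3) (nat_lit 55) [((nat_lit 1), (nat_lit 1)), ((nat_lit 5), (nat_lit 1)), ((nat_lit 0x804), (nat_lit 2)), ((nat_lit 2), (nat_lit 1)), ((nat_lit 0x60101804), (nat_lit 6)), ((nat_lit 0x1603cd160), (nat_lit 6)), ((nat_lit 5), (nat_lit 1)), ((nat_lit 0), (nat_lit 0)), ((nat_lit 9), (nat_lit 1)), ((nat_lit 0x4580f3458011603cd160), (nat_lit 14)), ((nat_lit 0x80f345805), (nat_lit 6)), ((nat_lit 0), (nat_lit 0)), ((nat_lit 0), (nat_lit 0)), ((nat_lit 15), (nat_lit 1)), ((nat_lit 23), (nat_lit 1)), ((nat_lit 0), (nat_lit 0)), ((nat_lit 0), (nat_lit 0)), ((nat_lit 25), (nat_lit 1)), ((nat_lit 23), (nat_lit 1)), ((nat_lit 0), (nat_lit 0)), ((nat_lit 0), (nat_lit 0)), ((nat_lit 0), (nat_lit 0)), ((nat_lit 0), (nat_lit 0)), ((nat_lit 0), (nat_lit 0))] (nat_lit 0x3409cf9d39d29d14c49d03119cf5d53659cf3119ce9cd9cc3be3639cb9ca8e909025009f08f),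
.c (nat_lit 32) (nat_lit 0x46008200080a0060f204028028000381e41e3840c36d06b88831a580d3a80b08e850fcc24e52102f30708e830bcc2659a153070d1ac860d542e5be2011b0f079870324140020805103079810144041020008d),
.c (nat_lit 5) (nat_lit 0x273300028810f7404e4a00063),
.c (nat_lit 6) (nat_lit 0x478e0072d0236d8082f40419200007),
.c (nat_lit 0) (nat_lit 0),
.c (nat_lit 0) (nat_lit 0),
.c (nat_lit 38) (nat_lit 0xca2e045b10128b8016c415ffa04fe9087ec84bdbc2890a160e1087f483821c189a60a4d7024ad8081442410e104d30726b823fa40c10e040510104383145c14196085150328b81032c04a2a00007011ac8103240dfb20a359047b78303241490a0c0e1),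
.c (nat_lit 0) (nat_lit 0),
.c (nat_lit 0) (nat_lit 0),
.c (nat_lit 0) (nat_lit 0),
.c (nat_lit 52) (nat_lit 0x539982133c0d5f20473301267802be4122220d373050408282ac1a31a0b195071ee831c9420db60e0bd07064861ccc2c99e14af90939984133c1d5f20c73305267822be40ce66044cf0157c8001440e2220b373040408202ac1631a09195061ee829c941cdb60c0bd0606484c4442e6e6140810a05585c6342a32a183dd0b392869b6c3017a180c9),
.c (nat_lit 0) (nat_lit 0),
.c (nat_lit 0) (nat_lit 0),
.c (nat_lit 0) (nat_lit 0),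
.i (nat_lit 3) (nat_lit 50) [((nat_lit 4), (nat_lit 1)), ((nat_lit 8), (nat_lit 1)), ((nat_lit 5), (nat_lit 1)), ((nat_lit 3), (nat_lit 1)), ((nat_lit 973), (nat_lit 2)), ((nat_lit 0x657), (nat_lit 2)), ((nat_lit 10), (nat_lit 1)), ((nat_lit 14), (nat_lit 1)), ((nat_lit 779), (nat_lit 2)), ((nat_lit 0), (nat_lit 0)), ((nat_lit 0x79b), (nat_lit 2)), ((nat_lit 29), (nat_lit 1)), ((nat_lit 0x385385), (nat_lit 4)), ((nat_lit 0x10c2c430b), (nat_lit 6)), ((nat_lit 0x20c2c830b), (nat_lit 6)), ((nat_lit 0), (nat_lit 0)), ((nat_lit 0x38f34e3cd), (nat_lit 6)), ((nat_lit 0x14430b10c2c510c2c430b), (nat_lit 14)), ((nat_lit 0xc430b10c2c310c2c430b), (nat_lit 14)), ((nat_lit 0x10830b20c2c420c2c830b), (nat_lit 14)), ((nat_lit 0x20c2c830b20c2c830b), (nat_lit 12)), ((nat_lit 0xc830b20c2c320c2c830b), (nat_lit 14)), ((nat_lit 0x14420c2c830b10830b20c2c510830b20c2c420c2c830b), (nat_lit 30)), ((nat_lit 0xc420c2c830b10830b20c2c310830b20c2c420c2c830b),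 (nat_lit 30))] (nat_lit 0x9e19e09df9de9dd9dc9db9da9279d99d84b28947cc9d788b53f4209d636489309309f0a8096),
.c (nat_lit 7) (nat_lit 0x342e0140c40c220009e283018c140f608075),
.i (nat_lit 3) (nat_lit 121) [((nat_lit 4), (nat_lit 1)), ((nat_lit 8), (nat_lit 1)), ((nat_lit 5), (nat_lit 1)), ((nat_lit 3), (nat_lit 1)), ((nat_lit 973), (nat_lit 2)), ((nat_lit 0x657), (nat_lit 2)), ((nat_lit 10), (nat_lit 1)), ((nat_lit 14), (nat_lit 1)), ((nat_lit 779), (nat_lit 2)), ((nat_lit 0), (nat_lit 0)), ((nat_lit 0x79b), (nat_lit 2)), ((nat_lit 29), (nat_lit 1)), ((nat_lit 0x385385), (nat_lit 4)), ((nat_lit 0x10c2c430b), (nat_lit 6)), ((nat_lit 0x20c2c830b), (nat_lit 6)), ((nat_lit 0), (nat_lit 0)), ((nat_lit 0x38f34e3cd), (nat_lit 6)), ((nat_lit 0x14430b10c2c510c2c430b), (nat_lit 14)), ((nat_lit 0xc430b10c2c310c2c430b), (nat_lit 14)), ((nat_lit 0x10830b20c2c420c2c830b), (nat_lit 14)), ((nat_lit 0x20c2c830b20c2c830b), (nat_lit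 12)), ((nat_lit 0xc830b20c2c320c2c830b), (nat_lit 14)), ((nat_lit 0x14420c2c830b10830b20c2c510830b20c2c420c2c830b), (nat_lit 30)), ((nat_lit 0xc420c2c830b10830b20c2c310830b20c2c420c2c830b), (nat_lit 30))] (nat_lit 0x9e19e09df9de9dd9dc9db9da9279d99d84b28947cc9d788b53f4209d636489309309f0a8096),
.c (nat_lit 7) (nat_lit 0x16482010c053c8071c984021c041020008d),
.c (nat_lit 15) (nat_lit 0x122c188dd304609e245831202a895d304a09e265831302a89dd30124e60a8920613983672400e9a),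
.c (nat_lit 14) (nat_lit 0x8019042e1a2269611b86891a584b2901d7da0f3b507dc4440ed421711114bf88e75401334),
.c (nat_lit 0) (nat_lit 0),
.c (nat_lit 0) (nat_lit 0),
.c (nat_lit 1) (nat_lit 981),
.c (nat_lit 3) (nat_lit 0x933c000a20007b),
.c (nat_lit 0) (nat_lit 0),
.c (nat_lit 23) (nat_lit 0x1829c08106020a70004186029c2c106140a709041842b3c1c14e0c30305041822b3c0c14e043030104180000c04102040a5030408202940499600063),
.c (nat_lit 0) (nat_lit 0),
.c (nat_lit 4) (nat_lit 0x98982b6d411f160608d),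
.c (nat_lit 0) (nat_lit 0),
.c (nat_lit 0) (nat_lit 0),
.i (nat_lit 3) (nat_lit 11) [((nat_lit 12), (nat_lit 1)), ((nat_lit 1), (nat_lit 1)), ((nat_lit 2), (nat_lit 1)), ((nat_lit 4), (nat_lit 1)), ((nat_lit 19), (nat_lit 1)), ((nat_lit 5), (nat_lit 1)), ((nat_lit 0x792696495), (nat_lit 6)), ((nat_lit 8), (nat_lit 1)), ((nat_lit 9), (nat_lit 1)), ((nat_lit 0), (nat_lit 0)), ((nat_lit 0x9e49a592542792696495), (nat_lit 14)), ((nat_lit 0x308308), (nat_lit 4)), ((nat_lit 13), (nat_lit 1)), ((nat_lit 0x309309), (nat_lit 4)), ((nat_lit 15), (nat_lit 1)), ((nat_lit 0x4cc3484cc34c20c), (nat_lit 10)), ((nat_lit 0x30d30d), (nat_lit 4)), ((nat_lit 0x4cc25324c), (nat_lit 6)), ((nat_lit 0x10c24c244309309), (nat_lit 10)), ((nat_lit 0x3207cc81f), (nat_lit 6)), ((nat_lit 23), (nat_lit 1)), ((nat_lit 25), (nat_lit 1)), ((nat_lit 0x8c81f3207c23207cc81f), (nat_lit 14)), ((nat_lit 0x10c81f3207c43207cc81f), (nat_lit 14))]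 (nat_lit 0x9f19f03664c49ef8b88b79ee9ed3658b33839ec8b29eb43b3498b03638af9ea09609008f2a5),
.c (nat_lit 5) (nat_lit 0x13e40703d830204140f608081),
.i (nat_lit 3) (nat_lit 75) [((nat_lit 12), (nat_lit 1)), ((nat_lit 1), (nat_lit 1)), ((nat_lit 2), (nat_lit 1)), ((nat_lit 4), (nat_lit 1)), ((nat_lit 19), (nat_lit 1)), ((nat_lit 5), (nat_lit 1)), ((nat_lit 0x792696495), (nat_lit 6)), ((nat_lit 8), (nat_lit 1)), ((nat_lit 9), (nat_lit 1)), ((nat_lit 0), (nat_lit 0)), ((nat_lit 0x9e49a592542792696495), (nat_lit 14)), ((nat_lit 0x308308), (nat_lit 4)), ((nat_lit 13), (nat_lit 1)), ((nat_lit 0x309309), (nat_lit 4)), ((nat_lit 15), (nat_lit 1)), ((nat_lit 0x4cc3484cc34c20c), (nat_lit 10)), ((nat_lit 0x30d30d), (nat_lit 4)), ((nat_lit 0x4cc25324c), (nat_lit 6)), ((nat_lit 0x10c24c244309309), (nat_lit 10)), ((nat_lit 0x3207cc81f), (nat_lit 6)), ((nat_lit 23), (nat_lit 1)), ((nat_lit 25), (nat_lit 1)), ((nat_lit 0x8c81f3207c23207cc81f),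 (nat_lit 14)), ((nat_lit 0x10c81f3207c43207cc81f), (nat_lit 14))] (nat_lit 0x9f19f03664c49ef8b88b79ee9ed3658b33839ec8b29eb43b3498b03638af9ea09609008f2a5),
.c (nat_lit 20) (nat_lit 0x61a602c38010698020a4009f485c3843069a133e70d8708602043069a1607b0b052850204240f610063070528301ec141020807b),
.i (nat_lit 3) (nat_lit 133) [((nat_lit 12), (nat_lit 1)), ((nat_lit 1), (nat_lit 1)), ((nat_lit 2), (nat_lit 1)), ((nat_lit 4), (nat_lit 1)), ((nat_lit 19), (nat_lit 1)), ((nat_lit 5), (nat_lit 1)), ((nat_lit 0x792696495), (nat_lit 6)), ((nat_lit 8), (nat_lit 1)), ((nat_lit 9), (nat_lit 1)), ((nat_lit 0), (nat_lit 0)), ((nat_lit 0x9e49a592542792696495), (nat_lit 14)), ((nat_lit 0x308308), (nat_lit 4)), ((nat_lit 13), (nat_lit 1)), ((nat_lit 0x309309), (nat_lit 4)), ((nat_lit 15), (nat_lit 1)), ((nat_lit 0x4cc3484cc34c20c), (nat_lit 10)), ((nat_lit 0x30d30d), (nat_lit 4)), ((nat_lit 0x4cc25324c), (nat_lit 6)), ((nat_lit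 0x10c24c244309309), (nat_lit 10)), ((nat_lit 0x3207cc81f), (nat_lit 6)), ((nat_lit 23), (nat_lit 1)), ((nat_lit 25), (nat_lit 1)), ((nat_lit 0x8c81f3207c23207cc81f), (nat_lit 14)), ((nat_lit 0x10c81f3207c43207cc81f), (nat_lit 14))] (nat_lit 0x9f19f03664c49ef8b88b79ee9ed3658b33839ec8b29eb43b3498b03638af9ea09609008f2a5),
.c (nat_lit 5) (nat_lit 0x62019f6008854140f600063),
.c (nat_lit 0) (nat_lit 0),
.c (nat_lit 23) (nat_lit 0x96d4101de06307021008081c40000a02753033f5820d94141da084e303273811d4c040ba047eb031b2821d1c0c1ea045190111580001c086ce060f3),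
.c (nat_lit 3) (nat_lit 0x36f4041e600063),
.c (nat_lit 5) (nat_lit 0x607a040400281e8067dc013ea),
.c (nat_lit 0) (nat_lit 0),
.c (nat_lit 9) (nat_lit 0x11b10655b8284241422a0874d031a3811d340468e0006f),
.c (nat_lit 1) (nat_lit 0x9f5),
.c (nat_lit 7) (nat_lit 0x232c141ce08347031a2810d1c0468a0006f),
.c (nat_lit 0) (nat_lit 0),
.c (nat_lit 0) (nat_lit 0),
.i (nat_lit 3) (nat_lit 41) [((nat_lit 6), (nat_lit 1)), ((nat_lit 1), (nat_lit 1)), ((nat_lit 10), (nat_lit 1)), ((nat_lit 2), (nat_lit 1)), ((nat_lit 28), (nat_lit 1)), ((nat_lit 17), (nat_lit 1)), ((nat_lit 11), (nat_lit 1)), ((nat_lit 5), (nat_lit 1)), ((nat_lit 18), (nat_lit 1)), ((nat_lit 0), (nat_lit 0)), ((nat_lit 0x2ca2ca), (nat_lit 4)), ((nat_lit 0x513), (nat_lit 2)), ((nat_lit 0x79b), (nat_lit 2)), ((nat_lit 0x9a4), (nat_lit 2)), ((nat_lit 30), (nat_lit 1)), ((nat_lit 0x2944ca513), (nat_lit 6)), ((nat_lit 0x19e6c679b), (nat_lit 6)), ((nat_lit 0x712712),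 (nat_lit 4)), ((nat_lit 0xa69029a4), (nat_lit 6)), ((nat_lit 0x786786), (nat_lit 4)), ((nat_lit 0x491491), (nat_lit 4)), ((nat_lit 0x485485), (nat_lit 4)), ((nat_lit 0x29e19e18a786786), (nat_lit 10)), ((nat_lit 0x9e19e182786786), (nat_lit 10))] (nat_lit 0xa01a004559ff9fe8d49fd9fc8ed45358148d8894f080b3e33632fe30e5808050900ae08f0a2),
.c (nat_lit 12) (nat_lit 0x608a020df81553006ab204550010df80d53002ab2025500050100555604115),
.i (nat_lit 3) (nat_lit 69) [((nat_lit 6), (nat_lit 1)), ((nat_lit 1), (nat_lit 1)), ((nat_lit 10), (nat_lit 1)), ((nat_lit 2), (nat_lit 1)), ((nat_lit 28), (nat_lit 1)), ((nat_lit 17), (nat_lit 1)), ((nat_lit 11), (nat_lit 1)), ((nat_lit 5), (nat_lit 1)), ((nat_lit 18), (nat_lit 1)), ((nat_lit 0), (nat_lit 0)), ((nat_lit 0x2ca2ca), (nat_lit 4)), ((nat_lit 0x513), (nat_lit 2)), ((nat_lit 0x79b), (nat_lit 2)), ((nat_lit 0x9a4), (nat_lit 2)), ((nat_lit 30), (nat_lit 1)), ((nat_lit 0x2944ca513),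 (nat_lit 6)), ((nat_lit 0x19e6c679b), (nat_lit 6)), ((nat_lit 0x712712), (nat_lit 4)), ((nat_lit 0xa69029a4), (nat_lit 6)), ((nat_lit 0x786786), (nat_lit 4)), ((nat_lit 0x491491), (nat_lit 4)), ((nat_lit 0x485485), (nat_lit 4)), ((nat_lit 0x29e19e18a786786), (nat_lit 10)), ((nat_lit 0x9e19e182786786), (nat_lit 10))] (nat_lit 0xa01a004559ff9fe8d49fd9fc8ed45358148d8894f080b3e33632fe30e5808050900ae08f0a2),
.c (nat_lit 13) (nat_lit 0x40500304f020140168120d0570556583481c3813e080510304f810144041320009f),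
.i (nat_lit 3) (nat_lit 75) [((nat_lit 6), (nat_lit 1)), ((nat_lit 1), (nat_lit 1)), ((nat_lit 10), (nat_lit 1)), ((nat_lit 2), (nat_lit 1)), ((nat_lit 28), (nat_lit 1)), ((nat_lit 17), (nat_lit 1)), ((nat_lit 11), (nat_lit 1)), ((nat_lit 5), (nat_lit 1)), ((nat_lit 18), (nat_lit 1)), ((nat_lit 0), (nat_lit 0)), ((nat_lit 0x2ca2ca), (nat_lit 4)), ((nat_lit 0x513), (nat_lit 2)), ((nat_lit 0x79b), (nat_lit 2)), ((nat_lit 0x9a4), (nat_lit 2)), ((nat_lit 30), (nat_lit 1)), ((nat_lit 0x2944ca513), (nat_lit 6)), ((nat_lit 0x19e6c679b), (nat_lit 6)), ((nat_lit 0x712712), (nat_lit 4)), ((nat_lit 0xa69029a4), (nat_lit 6)), ((nat_lit 0x786786), (nat_lit 4)), ((nat_lit 0x491491), (nat_lit 4)), ((nat_lit 0x485485), (nat_lit 4)), ((nat_lit 0x29e19e18a786786), (nat_lit 10)), ((nat_lit 0x9e19e182786786), (nat_lit 10))] (nat_lit 0xa01a004559ff9fe8d49fd9fc8ed45358148d8894f080b3e33632fe30e5808050900ae08f0a2),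
.c (nat_lit 48) (nat_lit 0x906d0503981df900d1cc058f8021d300e398051f000348014140047b4050480a07303bf201a3980b1f00334802c140107b40b0480602804a3e0201b40f40d078008447c42639a1474d0b8f886473434e9a1cfc911073881a3c45f92280e7133478a036c4c0ae240e71106a8301441414a080ab03037810294041560006f),
.i (nat_lit 3) (nat_lit 87) [((nat_lit 6), (nat_lit 1)), ((nat_lit 1), (nat_lit 1)), ((nat_lit 10), (nat_lit 1)), ((nat_lit 2), (nat_lit 1)), ((nat_lit 28), (nat_lit 1)), ((nat_lit 17), (nat_lit 1)), ((nat_lit 11), (nat_lit 1)), ((nat_lit 5), (nat_lit 1)), ((nat_lit 18), (nat_lit 1)), ((nat_lit 0), (nat_lit 0)), ((nat_lit 0x2ca2ca), (nat_lit 4)), ((nat_lit 0x513), (nat_lit 2)), ((nat_lit 0x79b), (nat_lit 2)), ((nat_lit 0x9a4), (nat_lit 2)), ((nat_lit 30), (nat_lit 1)), ((nat_lit 0x2944ca513), (nat_lit 6)), ((nat_lit 0x19e6c679b), (nat_lit 6)), ((nat_lit 0x712712), (nat_lit 4)), ((nat_lit 0xa69029a4), (nat_lit 6)), ((nat_lit 0x786786),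 (nat_lit 4)), ((nat_lit 0x491491), (nat_lit 4)), ((nat_lit 0x485485), (nat_lit 4)), ((nat_lit 0x29e19e18a786786), (nat_lit 10)), ((nat_lit 0x9e19e182786786), (nat_lit 10))] (nat_lit 0xa01a004559ff9fe8d49fd9fc8ed45358148d8894f080b3e33632fe30e5808050900ae08f0a2),
.c (nat_lit 5) (nat_lit 0x9e01a08808d8c141b60009f),
.i (nat_lit 3) (nat_lit 110) [((nat_lit 6), (nat_lit 1)), ((nat_lit 1), (nat_lit 1)), ((nat_lit 10), (nat_lit 1)), ((nat_lit 2), (nat_lit 1)), ((nat_lit 28), (nat_lit 1)), ((nat_lit 17), (nat_lit 1)), ((nat_lit 11), (nat_lit 1)), ((nat_lit 5), (nat_lit 1)), ((nat_lit 18), (nat_lit 1)), ((nat_lit 0), (nat_lit 0)), ((nat_lit 0x2ca2ca), (nat_lit 4)), ((nat_lit 0x513), (nat_lit 2)), ((nat_lit 0x79b), (nat_lit 2)), ((nat_lit 0x9a4), (nat_lit 2)), ((nat_lit 30), (nat_lit 1)), ((nat_lit 0x2944ca513), (nat_lit 6)), ((nat_lit 0x19e6c679b), (nat_lit 6)), ((nat_lit 0x712712), (nat_lit 4)), ((nat_lit 0xa69029a4),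 (nat_lit 6)), ((nat_lit 0x786786), (nat_lit 4)), ((nat_lit 0x491491), (nat_lit 4)), ((nat_lit 0x485485), (nat_lit 4)), ((nat_lit 0x29e19e18a786786), (nat_lit 10)), ((nat_lit 0x9e19e182786786), (nat_lit 10))] (nat_lit 0xa01a004559ff9fe8d49fd9fc8ed45358148d8894f080b3e33632fe30e5808050900ae08f0a2),
.c (nat_lit 2) (nat_lit 0x2828040ab),
.i (nat_lit 3) (nat_lit 114) [((nat_lit 6), (nat_lit 1)), ((nat_lit 1), (nat_lit 1)), ((nat_lit 10), (nat_lit 1)), ((nat_lit 2), (nat_lit 1)), ((nat_lit 28), (nat_lit 1)), ((nat_lit 17), (nat_lit 1)), ((nat_lit 11), (nat_lit 1)), ((nat_lit 5), (nat_lit 1)), ((nat_lit 18), (nat_lit 1)), ((nat_lit 0), (nat_lit 0)), ((nat_lit 0x2ca2ca), (nat_lit 4)), ((nat_lit 0x513), (nat_lit 2)), ((nat_lit 0x79b), (nat_lit 2)), ((nat_lit 0x9a4), (nat_lit 2)), ((nat_lit 30), (nat_lit 1)), ((nat_lit 0x2944ca513), (nat_lit 6)), ((nat_lit 0x19e6c679b), (nat_lit 6)), ((nat_lit 0x712712), (nat_lit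 4)), ((nat_lit 0xa69029a4), (nat_lit 6)), ((nat_lit 0x786786), (nat_lit 4)), ((nat_lit 0x491491), (nat_lit 4)), ((nat_lit 0x485485), (nat_lit 4)), ((nat_lit 0x29e19e18a786786), (nat_lit 10)), ((nat_lit 0x9e19e182786786), (nat_lit 10))] (nat_lit 0xa01a004559ff9fe8d49fd9fc8ed45358148d8894f080b3e33632fe30e5808050900ae08f0a2),
.c (nat_lit 6) (nat_lit 0xa00920201a0c80abe41413e00051),
.i (nat_lit 3) (nat_lit 116) [((nat_lit 6), (nat_lit 1)), ((nat_lit 1), (nat_lit 1)), ((nat_lit 10), (nat_lit 1)), ((nat_lit 2), (nat_lit 1)), ((nat_lit 28), (nat_lit 1)), ((nat_lit 17), (nat_lit 1)), ((nat_lit 11), (nat_lit 1)), ((nat_lit 5), (nat_lit 1)), ((nat_lit 18), (nat_lit 1)), ((nat_lit 0), (nat_lit 0)), ((nat_lit 0x2ca2ca), (nat_lit 4)), ((nat_lit 0x513), (nat_lit 2)), ((nat_lit 0x79b), (nat_lit 2)), ((nat_lit 0x9a4), (nat_lit 2)), ((nat_lit 30), (nat_lit 1)), ((nat_lit 0x2944ca513), (nat_lit 6)), ((nat_lit 0x19e6c679b),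 (nat_lit 6)), ((nat_lit 0x712712), (nat_lit 4)), ((nat_lit 0xa69029a4), (nat_lit 6)), ((nat_lit 0x786786), (nat_lit 4)), ((nat_lit 0x491491), (nat_lit 4)), ((nat_lit 0x485485), (nat_lit 4)), ((nat_lit 0x29e19e18a786786), (nat_lit 10)), ((nat_lit 0x9e19e182786786), (nat_lit 10))] (nat_lit 0xa01a004559ff9fe8d49fd9fc8ed45358148d8894f080b3e33632fe30e5808050900ae08f0a2),
.c (nat_lit 4) (nat_lit 0x1055013a6002838060ab),
.i (nat_lit 3) (nat_lit 129) [((nat_lit 6), (nat_lit 1)), ((nat_lit 1), (nat_lit 1)), ((nat_lit 10), (nat_lit 1)), ((nat_lit 2), (nat_lit 1)), ((nat_lit 28), (nat_lit 1)), ((nat_lit 17), (nat_lit 1)), ((nat_lit 11), (nat_lit 1)), ((nat_lit 5), (nat_lit 1)), ((nat_lit 18), (nat_lit 1)), ((nat_lit 0), (nat_lit 0)), ((nat_lit 0x2ca2ca), (nat_lit 4)), ((nat_lit 0x513), (nat_lit 2)), ((nat_lit 0x79b), (nat_lit 2)), ((nat_lit 0x9a4), (nat_lit 2)), ((nat_lit 30), (nat_lit 1)), ((nat_lit 0x2944ca513),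 (nat_lit 6)), ((nat_lit 0x19e6c679b), (nat_lit 6)), ((nat_lit 0x712712), (nat_lit 4)), ((nat_lit 0xa69029a4), (nat_lit 6)), ((nat_lit 0x786786), (nat_lit 4)), ((nat_lit 0x491491), (nat_lit 4)), ((nat_lit 0x485485), (nat_lit 4)), ((nat_lit 0x29e19e18a786786), (nat_lit 10)), ((nat_lit 0x9e19e182786786), (nat_lit 10))] (nat_lit 0xa01a004559ff9fe8d49fd9fc8ed45358148d8894f080b3e33632fe30e5808050900ae08f0a2),
.c (nat_lit 5) (nat_lit 0x20e6021bf01aa6002840060e7),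
.i (nat_lit 3) (nat_lit 133) [((nat_lit 6), (nat_lit 1)), ((nat_lit 1), (nat_lit 1)), ((nat_lit 10), (nat_lit 1)), ((nat_lit 2), (nat_lit 1)), ((nat_lit 28), (nat_lit 1)), ((nat_lit 17), (nat_lit 1)), ((nat_lit 11), (nat_lit 1)), ((nat_lit 5), (nat_lit 1)), ((nat_lit 18), (nat_lit 1)), ((nat_lit 0), (nat_lit 0)), ((nat_lit 0x2ca2ca), (nat_lit 4)), ((nat_lit 0x513), (nat_lit 2)), ((nat_lit 0x79b), (nat_lit 2)), ((nat_lit 0x9a4), (nat_lit 2)), ((nat_lit 30), (nat_lit 1)), ((nat_lit 0x2944ca513), (nat_lit 6)), ((nat_lit 0x19e6c679b), (nat_lit 6)), ((nat_lit 0x712712), (nat_lit 4)), ((nat_lit 0xa69029a4), (nat_lit 6)), ((nat_lit 0x786786), (nat_lit 4)), ((nat_lit 0x491491), (nat_lit 4)), ((nat_lit 0x485485), (nat_lit 4)), ((nat_lit 0x29e19e18a786786), (nat_lit 10)), ((nat_lit 0x9e19e182786786), (nat_lit 10))] (nat_lit 0xa01a004559ff9fe8d49fd9fc8ed45358148d8894f080b3e33632fe30e5808050900ae08f0a2),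
.c (nat_lit 6) (nat_lit 0xc1cc0142401a0b8202ac0c1ce040ab),
.i (nat_lit 3) (nat_lit 139) [((nat_lit 6), (nat_lit 1)), ((nat_lit 1), (nat_lit 1)), ((nat_lit 10), (nat_lit 1)), ((nat_lit 2), (nat_lit 1)), ((nat_lit 28), (nat_lit 1)), ((nat_lit 17), (nat_lit 1)), ((nat_lit 11), (nat_lit 1)), ((nat_lit 5), (nat_lit 1)), ((nat_lit 18), (nat_lit 1)), ((nat_lit 0), (nat_lit 0)), ((nat_lit 0x2ca2ca), (nat_lit 4)), ((nat_lit 0x513), (nat_lit 2)), ((nat_lit 0x79b), (nat_lit 2)), ((nat_lit 0x9a4), (nat_lit 2)), ((nat_lit 30), (nat_lit 1)), ((nat_lit 0x2944ca513), (nat_lit 6)), ((nat_lit 0x19e6c679b), (nat_lit 6)), ((nat_lit 0x712712), (nat_lit 4)), ((nat_lit 0xa69029a4), (nat_lit 6)), ((nat_lit 0x786786), (nat_lit 4)), ((nat_lit 0x491491), (nat_lit 4)), ((nat_lit 0x485485), (nat_lit 4)), ((nat_lit 0x29e19e18a786786), (nat_lit 10)), ((nat_lit 0x9e19e182786786), (nat_lit 10))] (nat_lit 0xa01a004559ff9fe8d49fd9fc8ed45358148d8894f080b3e33632fe30e5808050900ae08f0a2),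
.c (nat_lit 8) (nat_lit 0x1a1402480c241b61009f0703d83036c140f600099),
.i (nat_lit 3) (nat_lit 144) [((nat_lit 6), (nat_lit 1)), ((nat_lit 1), (nat_lit 1)), ((nat_lit 10), (nat_lit 1)), ((nat_lit 2), (nat_lit 1)), ((nat_lit 28), (nat_lit 1)), ((nat_lit 17), (nat_lit 1)), ((nat_lit 11), (nat_lit 1)), ((nat_lit 5), (nat_lit 1)), ((nat_lit 18), (nat_lit 1)), ((nat_lit 0), (nat_lit 0)), ((nat_lit 0x2ca2ca), (nat_lit 4)), ((nat_lit 0x513), (nat_lit 2)), ((nat_lit 0x79b), (nat_lit 2)), ((nat_lit 0x9a4), (nat_lit 2)), ((nat_lit 30), (nat_lit 1)), ((nat_lit 0x2944ca513), (nat_lit 6)), ((nat_lit 0x19e6c679b), (nat_lit 6)), ((nat_lit 0x712712), (nat_lit 4)), ((nat_lit 0xa69029a4), (nat_lit 6)), ((nat_lit 0x786786), (nat_lit 4)), ((nat_lit 0x491491), (nat_lit 4)), ((nat_lit 0x485485), (nat_lit 4)), ((nat_lit 0x29e19e18a786786), (nat_lit 10)), ((nat_lit 0x9e19e182786786), (nat_lit 10))] (nat_lit 0xa01a004559ff9fe8d49fd9fc8ed45358148d8894f080b3e33632fe30e5808050900ae08f0a2),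
.c (nat_lit 30) (nat_lit 0x40ac040500304f0201402413c14b06085b002d0b4160b60f2070690485d07c31d321ab071004c872c1c3413e1b41f0c82885829431d32160ab0b58385027c3413e080510304f810144040ae00099),
.i (nat_lit 3) (nat_lit 149) [((nat_lit 6), (nat_lit 1)), ((nat_lit 1), (nat_lit 1)), ((nat_lit 10), (nat_lit 1)), ((nat_lit 2), (nat_lit 1)), ((nat_lit 28), (nat_lit 1)), ((nat_lit 17), (nat_lit 1)), ((nat_lit 11), (nat_lit 1)), ((nat_lit 5), (nat_lit 1)), ((nat_lit 18), (nat_lit 1)), ((nat_lit 0), (nat_lit 0)), ((nat_lit 0x2ca2ca), (nat_lit 4)), ((nat_lit 0x513), (nat_lit 2)), ((nat_lit 0x79b), (nat_lit 2)), ((nat_lit 0x9a4), (nat_lit 2)), ((nat_lit 30), (nat_lit 1)), ((nat_lit 0x2944ca513), (nat_lit 6)), ((nat_lit 0x19e6c679b), (nat_lit 6)), ((nat_lit 0x712712), (nat_lit 4)), ((nat_lit 0xa69029a4), (nat_lit 6)), ((nat_lit 0x786786), (nat_lit 4)), ((nat_lit 0x491491), (nat_lit 4)), ((nat_lit 0x485485), (nat_lit 4)),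 ((nat_lit 0x29e19e18a786786), (nat_lit 10)), ((nat_lit 0x9e19e182786786), (nat_lit 10))] (nat_lit 0xa01a004559ff9fe8d49fd9fc8ed45358148d8894f080b3e33632fe30e5808050900ae08f0a2),
.c (nat_lit 18) (nat_lit 0x413c040da0304f020000241b40b4300831d8383a418c760a0e907a0986836c301ce080010304f81036c0413e000db),
.i (nat_lit 3) (nat_lit 154) [((nat_lit 6), (nat_lit 1)), ((nat_lit 1), (nat_lit 1)), ((nat_lit 10), (nat_lit 1)), ((nat_lit 2), (nat_lit 1)), ((nat_lit 28), (nat_lit 1)), ((nat_lit 17), (nat_lit 1)), ((nat_lit 11), (nat_lit 1)), ((nat_lit 5), (nat_lit 1)), ((nat_lit 18), (nat_lit 1)), ((nat_lit 0), (nat_lit 0)), ((nat_lit 0x2ca2ca), (nat_lit 4)), ((nat_lit 0x513), (nat_lit 2)), ((nat_lit 0x79b), (nat_lit 2)), ((nat_lit 0x9a4), (nat_lit 2)), ((nat_lit 30), (nat_lit 1)), ((nat_lit 0x2944ca513), (nat_lit 6)), ((nat_lit 0x19e6c679b), (nat_lit 6)), ((nat_lit 0x712712), (nat_lit 4)), ((nat_lit 0xa69029a4), (nat_lit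 6)), ((nat_lit 0x786786), (nat_lit 4)), ((nat_lit 0x491491), (nat_lit 4)), ((nat_lit 0x485485), (nat_lit 4)), ((nat_lit 0x29e19e18a786786), (nat_lit 10)), ((nat_lit 0x9e19e182786786), (nat_lit 10))] (nat_lit 0xa01a004559ff9fe8d49fd9fc8ed45358148d8894f080b3e33632fe30e5808050900ae08f0a2),
.c (nat_lit 5) (nat_lit 0x6e01a1a808d14140ea0006f),
.c (nat_lit 16) (nat_lit 0x99481cc0c09bee0209f051c0813a54041ce08a7703079818e04081ce04a7701079814b74054d600063),
.c (nat_lit 4) (nat_lit 0x127c8001a40489a0006f),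
.c (nat_lit 3) (nat_lit 0x36a4041920006f),
.c (nat_lit 13) (nat_lit 0x62150227b808854009ee04fd9032248203840941e0206f030408101bc0410200063),
.c (nat_lit 51) (nat_lit 0x18c0c0814202303000508142241489208347032248241a41dfb20d089057ec8242241c1c20b069080708411241c68e0c449051a381283c040de0efd90684482bf6412112060810507081c1a4181c20c449051a38211240c68e0406f057ec8242240dfb20508901040818384060d2080e104082818f640820a023d9000018149e40c6f208103),
.c (nat_lit 3) (nat_lit 0xf740419200063),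
.c (nat_lit 3) (nat_lit 0x18fc0419200003),
.i (nat_lit 3) (nat_lit 59) [((nat_lit 10), (nat_lit 1)), ((nat_lit 4), (nat_lit 1)), ((nat_lit 8), (nat_lit 1)), ((nat_lit 2), (nat_lit 1)), ((nat_lit 29), (nat_lit 1)), ((nat_lit 0), (nat_lit 0)), ((nat_lit 18), (nat_lit 1)), ((nat_lit 9), (nat_lit 1)), ((nat_lit 13), (nat_lit 1)), ((nat_lit 0), (nat_lit 0)), ((nat_lit 0x9e5), (nat_lit 2)), ((nat_lit 32), (nat_lit 1)), ((nat_lit 25), (nat_lit 1)), ((nat_lit 0x34a34a), (nat_lit 4)), ((nat_lit 25), (nat_lit 1)), ((nat_lit 0), (nat_lit 0)), ((nat_lit 0), (nat_lit 0)), ((nat_lit 0), (nat_lit 0)), ((nat_lit 0x752752), (nat_lit 4)), ((nat_lit 0), (nat_lit 0)), ((nat_lit 0), (nat_lit 0)), ((nat_lit 0), (nat_lit 0)), ((nat_lit 0), (nat_lit 0)), ((nat_lit 0), (nat_lit 0))] (nat_lit 0x3403d5a22a21a1ea20a1fa1e9fa2f37762f4a1da1c3132f12f23e33d37718750900a80960ae)]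

theorem c22 : chk db th.hy ths 2596 J22 2505 = true := by decide +kernel

set_option maxRecDepth 100000 in
/-- Justifications. -/
noncomputable def J23 : List Js := [
.c (nat_lit 41) (nat_lit 0x20020378d024bf01660c060e0041bc02ca501a5cc0b3040208201511c15d42092f3032248241a41c1c2113070797e83422415fb2090890707082c1a4201c212ea108979838d1c188920a3470804f8383841813e113070797e833f64242361010f07070830204040060006f),
.i (nat_lit 3) (nat_lit 77) [((nat_lit 10), (nat_lit 1)), ((nat_lit 4), (nat_lit 1)), ((nat_lit 8), (nat_lit 1)), ((nat_lit 2), (nat_lit 1)), ((nat_lit 29), (nat_lit 1)), ((nat_lit 0), (nat_lit 0)), ((nat_lit 18), (nat_lit 1)), ((nat_lit 9), (nat_lit 1)), ((nat_lit 13), (nat_lit 1)), ((nat_lit 0), (nat_lit 0)), ((nat_lit 0x9e5), (nat_lit 2)), ((nat_lit 32), (nat_lit 1)), ((nat_lit 25), (nat_lit 1)), ((nat_lit 0x34a34a), (nat_lit 4)), ((nat_lit 25), (nat_lit 1)), ((nat_lit 0), (nat_lit 0)), ((nat_lit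 0), (nat_lit 0)), ((nat_lit 0), (nat_lit 0)), ((nat_lit 0x752752), (nat_lit 4)), ((nat_lit 0), (nat_lit 0)), ((nat_lit 0), (nat_lit 0)), ((nat_lit 0), (nat_lit 0)), ((nat_lit 0), (nat_lit 0)), ((nat_lit 0), (nat_lit 0))] (nat_lit 0x3403d5a22a21a1ea20a1fa1e9fa2f37762f4a1da1c3132f12f23e33d37718750900a80960ae),
.c (nat_lit 4) (nat_lit 0x1087004a40068960010f),
.i (nat_lit 3) (nat_lit 151) [((nat_lit 10), (nat_lit 1)), ((nat_lit 4), (nat_lit 1)), ((nat_lit 8), (nat_lit 1)), ((nat_lit 2), (nat_lit 1)), ((nat_lit 29), (nat_lit 1)), ((nat_lit 0), (nat_lit 0)), ((nat_lit 18), (nat_lit 1)), ((nat_lit 9), (nat_lit 1)), ((nat_lit 13), (nat_lit 1)), ((nat_lit 0), (nat_lit 0)), ((nat_lit 0x9e5), (nat_lit 2)), ((nat_lit 32), (nat_lit 1)), ((nat_lit 25), (nat_lit 1)), ((nat_lit 0x34a34a), (nat_lit 4)), ((nat_lit 25), (nat_lit 1)), ((nat_lit 0), (nat_lit 0)), ((nat_lit 0), (nat_lit 0)), ((nat_lit 0), (nat_lit 0)), ((nat_lit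 0x752752), (nat_lit 4)), ((nat_lit 0), (nat_lit 0)), ((nat_lit 0), (nat_lit 0)), ((nat_lit 0), (nat_lit 0)), ((nat_lit 0), (nat_lit 0)), ((nat_lit 0), (nat_lit 0))] (nat_lit 0x3403d5a22a21a1ea20a1fa1e9fa2f37762f4a1da1c3132f12f23e33d37718750900a80960ae),
.c (nat_lit 1) (nat_lit 0x144f),
.c (nat_lit 3) (nat_lit 0xe440410200069),
.c (nat_lit 1) (nat_lit 0x793),
.c (nat_lit 1) (nat_lit 0xccb),
.c (nat_lit 4) (nat_lit 0x16de811f540c1e6007fb),
.c (nat_lit 31) (nat_lit 0xc20c1a11e0afa90484781bea40973e080c30506182419c1df820b0c1040618182dc0e0ce0cdad054d38236b40d34e12f6f081ab8290bc1011a10d990758983024c1dede0c357050468336641562608093),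
.c (nat_lit 13) (nat_lit 0x62210227a808884009ea04ec5032228203240999602069030438101a40410e00063),
.c (nat_lit 24) (nat_lit 0x31828102540460a000950266d82b33c1010e0c2270466d81332c040d2060870366783089c119b6060870203480821c0599e0830703182810c1c0460a00005),
.c (nat_lit 24) (nat_lit 0x84182bf040e182040c30105b80c19c11b5a069a7026d680a69c000d20af6f041ab8090bc0011a08d990358981024c0dede04357010468136640562600093),
.c (nat_lit 3) (nat_lit 0x18f7c120ce0e0e1),
.c (nat_lit 10) (nat_lit 0xce8204997013a080265c0a0ce020c30307081030c041c200005),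
.i (nat_lit 3) (nat_lit 4) [((nat_lit 9), (nat_lit 1)), ((nat_lit 2), (nat_lit 1)), ((nat_lit 8), (nat_lit 1)), ((nat_lit 3), (nat_lit 1)), ((nat_lit 25), (nat_lit 1)), ((nat_lit 13), (nat_lit 1)), ((nat_lit 16), (nat_lit 1)), ((nat_lit 7), (nat_lit 1)), ((nat_lit 14), (nat_lit 1)), ((nat_lit 0), (nat_lit 0)), ((nat_lit 0x390210388), (nat_lit 6)), ((nat_lit 0x81f), (nat_lit 2)), ((nat_lit 0x595), (nat_lit 2)), ((nat_lit 0x389389), (nat_lit 4)), ((nat_lit 22), (nat_lit 1)), ((nat_lit 0x7c87c8), (nat_lit 4)), ((nat_lit 0x758758255255), (nat_lit 8)), ((nat_lit 0), (nat_lit 0)), ((nat_lit 0x40e40e), (nat_lit 4)), ((nat_lit 0x758758), (nat_lit 4)), ((nat_lit 0x38d38d), (nat_lit 4)), ((nat_lit 0xd60d6), (nat_lit 4)), ((nat_lit 0x218758218758), (nat_lit 8)), ((nat_lit 0), (nat_lit 0))] (nat_lit 0xa32a315c85c9a30a2fa2ea2da2c5c7a2b77540ca2aa2953f3d23b838360c7a90930a80900ab),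
.c (nat_lit 12) (nat_lit 0x3a3304088414f26082210303181821c1810e140870904981024c040c600093),
.i (nat_lit 3) (nat_lit 11) [((nat_lit 9), (nat_lit 1)), ((nat_lit 2), (nat_lit 1)), ((nat_lit 8), (nat_lit 1)), ((nat_lit 3), (nat_lit 1)), ((nat_lit 25), (nat_lit 1)), ((nat_lit 13), (nat_lit 1)), ((nat_lit 16), (nat_lit 1)), ((nat_lit 7), (nat_lit 1)), ((nat_lit 14), (nat_lit 1)), ((nat_lit 0), (nat_lit 0)), ((nat_lit 0x390210388), (nat_lit 6)), ((nat_lit 0x81f), (nat_lit 2)), ((nat_lit 0x595), (nat_lit 2)), ((nat_lit 0x389389), (nat_lit 4)), ((nat_lit 22), (nat_lit 1)), ((nat_lit 0x7c87c8), (nat_lit 4)), ((nat_lit 0x758758255255), (nat_lit 8)), ((nat_lit 0), (nat_lit 0)), ((nat_lit 0x40e40e), (nat_lit 4)), ((nat_lit 0x758758), (nat_lit 4)), ((nat_lit 0x38d38d), (nat_lit 4)), ((nat_lit 0xd60d6), (nat_lit 4)), ((nat_lit 0x218758218758), (nat_lit 8)), ((nat_lit 0), (nat_lit 0))] (nat_lit 0xa32a315c85c9a30a2fa2ea2da2c5c7a2b77540ca2aa2953f3d23b838360c7a90930a80900ab),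
.c (nat_lit 58) (nat_lit 0x28d40f08f067d482c23c11f520a0c30606182c19c21b5a0e9a7066d682a69c2dede143570721783023429b3212b130804984bdbc206ae0e08d086cc83ac4c181261308f087d483c23c19f520e0c30806183c19c29b5a129a7086d683a69c35ede183570921784023431b3216b130a04985bdbc286ae1208d0a6cc84ac4c20126130670806185038424186100e1070348302c4140d2080b1),
.i (nat_lit 3) (nat_lit 55) [((nat_lit 9), (nat_lit 1)), ((nat_lit 2), (nat_lit 1)), ((nat_lit 8), (nat_lit 1)), ((nat_lit 3), (nat_lit 1)), ((nat_lit 25), (nat_lit 1)), ((nat_lit 13), (nat_lit 1)), ((nat_lit 16), (nat_lit 1)), ((nat_lit 7), (nat_lit 1)), ((nat_lit 14), (nat_lit 1)), ((nat_lit 0), (nat_lit 0)), ((nat_lit 0x390210388), (nat_lit 6)), ((nat_lit 0x81f), (nat_lit 2)), ((nat_lit 0x595), (nat_lit 2)), ((nat_lit 0x389389), (nat_lit 4)), ((nat_lit 22), (nat_lit 1)), ((nat_lit 0x7c87c8), (nat_lit 4)), ((nat_lit 0x758758255255), (nat_lit 8)), ((nat_lit 0), (nat_lit 0)),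 ((nat_lit 0x40e40e), (nat_lit 4)), ((nat_lit 0x758758), (nat_lit 4)), ((nat_lit 0x38d38d), (nat_lit 4)), ((nat_lit 0xd60d6), (nat_lit 4)), ((nat_lit 0x218758218758), (nat_lit 8)), ((nat_lit 0), (nat_lit 0))] (nat_lit 0xa32a315c85c9a30a2fa2ea2da2c5c7a2b77540ca2aa2953f3d23b838360c7a90930a80900ab),
.c (nat_lit 30) (nat_lit 0xc40acce0876203baa819d8808226050430302480a8d00346f0127a81bb1411d560a3dd03a34843aac1c1260eec506043833b141dd5610ec50566784baac20126100c90704383024c1410e00063),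
.i (nat_lit 3) (nat_lit 58) [((nat_lit 9), (nat_lit 1)), ((nat_lit 2), (nat_lit 1)), ((nat_lit 8), (nat_lit 1)), ((nat_lit 3), (nat_lit 1)), ((nat_lit 25), (nat_lit 1)), ((nat_lit 13), (nat_lit 1)), ((nat_lit 16), (nat_lit 1)), ((nat_lit 7), (nat_lit 1)), ((nat_lit 14), (nat_lit 1)), ((nat_lit 0), (nat_lit 0)), ((nat_lit 0x390210388), (nat_lit 6)), ((nat_lit 0x81f), (nat_lit 2)), ((nat_lit 0x595), (nat_lit 2)), ((nat_lit 0x389389), (nat_lit 4)), ((nat_lit 22), (nat_lit 1)), ((nat_lit 0x7c87c8), (nat_lit 4)), ((nat_lit 0x758758255255), (nat_lit 8)), ((nat_lit 0), (nat_lit 0)), ((nat_lit 0x40e40e), (nat_lit 4)), ((nat_lit 0x758758), (nat_lit 4)), ((nat_lit 0x38d38d), (nat_lit 4)), ((nat_lit 0xd60d6), (nat_lit 4)), ((nat_lit 0x218758218758), (nat_lit 8)), ((nat_lit 0), (nat_lit 0))] (nat_lit 0xa32a315c85c9a30a2fa2ea2da2c5c7a2b77540ca2aa2953f3d23b838360c7a90930a80900ab),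
.c (nat_lit 11) (nat_lit 0x10320068e602eab0276281baac11d8a02ccf0575582024c1019200087),
.i (nat_lit 3) (nat_lit 99) [((nat_lit 9), (nat_lit 1)), ((nat_lit 2), (nat_lit 1)), ((nat_lit 8), (nat_lit 1)), ((nat_lit 3), (nat_lit 1)), ((nat_lit 25), (nat_lit 1)), ((nat_lit 13), (nat_lit 1)), ((nat_lit 16), (nat_lit 1)), ((nat_lit 7), (nat_lit 1)), ((nat_lit 14), (nat_lit 1)), ((nat_lit 0), (nat_lit 0)), ((nat_lit 0x390210388), (nat_lit 6)), ((nat_lit 0x81f), (nat_lit 2)), ((nat_lit 0x595), (nat_lit 2)), ((nat_lit 0x389389), (nat_lit 4)), ((nat_lit 22), (nat_lit 1)), ((nat_lit 0x7c87c8), (nat_lit 4)), ((nat_lit 0x758758255255), (nat_lit 8)), ((nat_lit 0), (nat_lit 0)), ((nat_lit 0x40e40e), (nat_lit 4)), ((nat_lit 0x758758), (nat_lit 4)), ((nat_lit 0x38d38d), (nat_lit 4)), ((nat_lit 0xd60d6), (nat_lit 4)), ((nat_lit 0x218758218758), (nat_lit 8)), ((nat_lit 0), (nat_lit 0))] (nat_lit 0xa32a315c85c9a30a2fa2ea2da2c5c7a2b77540ca2aa2953f3d23b838360c7a90930a80900ab),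
.c (nat_lit 10) (nat_lit 0x810c02220021100151dc280c6120c30807083830c0410e000c3),
.i (nat_lit 3) (nat_lit 121) [((nat_lit 9), (nat_lit 1)), ((nat_lit 2), (nat_lit 1)), ((nat_lit 8), (nat_lit 1)), ((nat_lit 3), (nat_lit 1)), ((nat_lit 25), (nat_lit 1)), ((nat_lit 13), (nat_lit 1)), ((nat_lit 16), (nat_lit 1)), ((nat_lit 7), (nat_lit 1)), ((nat_lit 14), (nat_lit 1)), ((nat_lit 0), (nat_lit 0)), ((nat_lit 0x390210388), (nat_lit 6)), ((nat_lit 0x81f), (nat_lit 2)), ((nat_lit 0x595), (nat_lit 2)), ((nat_lit 0x389389), (nat_lit 4)), ((nat_lit 22), (nat_lit 1)), ((nat_lit 0x7c87c8), (nat_lit 4)), ((nat_lit 0x758758255255), (nat_lit 8)), ((nat_lit 0), (nat_lit 0)), ((nat_lit 0x40e40e), (nat_lit 4)), ((nat_lit 0x758758), (nat_lit 4)), ((nat_lit 0x38d38d), (nat_lit 4)), ((nat_lit 0xd60d6), (nat_lit 4)), ((nat_lit 0x218758218758), (nat_lit 8)), ((nat_lit 0), (nat_lit 0))] (nat_lit 0xa32a315c85c9a30a2fa2ea2da2c5c7a2b77540ca2aa2953f3d23b838360c7a90930a80900ab),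
.c (nat_lit 19) (nat_lit 0x1a0181840e0e008061048380156240cd9807589043660068d80347b02a3680889c241c2100c30707083030c1416200069),
.i (nat_lit 3) (nat_lit 128) [((nat_lit 9), (nat_lit 1)), ((nat_lit 2), (nat_lit 1)), ((nat_lit 8), (nat_lit 1)), ((nat_lit 3), (nat_lit 1)), ((nat_lit 25), (nat_lit 1)), ((nat_lit 13), (nat_lit 1)), ((nat_lit 16), (nat_lit 1)), ((nat_lit 7), (nat_lit 1)), ((nat_lit 14), (nat_lit 1)), ((nat_lit 0), (nat_lit 0)), ((nat_lit 0x390210388), (nat_lit 6)), ((nat_lit 0x81f), (nat_lit 2)), ((nat_lit 0x595), (nat_lit 2)), ((nat_lit 0x389389), (nat_lit 4)), ((nat_lit 22), (nat_lit 1)), ((nat_lit 0x7c87c8), (nat_lit 4)), ((nat_lit 0x758758255255), (nat_lit 8)), ((nat_lit 0), (nat_lit 0)), ((nat_lit 0x40e40e), (nat_lit 4)), ((nat_lit 0x758758), (nat_lit 4)), ((nat_lit 0x38d38d), (nat_lit 4)), ((nat_lit 0xd60d6), (nat_lit 4)), ((nat_lit 0x218758218758), (nat_lit 8)), ((nat_lit 0), (nat_lit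 0))] (nat_lit 0xa32a315c85c9a30a2fa2ea2da2c5c7a2b77540ca2aa2953f3d23b838360c7a90930a80900ab),
.c (nat_lit 7) (nat_lit 0x82481016c0547e0274e8302dc041260009f),
.i (nat_lit 3) (nat_lit 139) [((nat_lit 9), (nat_lit 1)), ((nat_lit 2), (nat_lit 1)), ((nat_lit 8), (nat_lit 1)), ((nat_lit 3), (nat_lit 1)), ((nat_lit 25), (nat_lit 1)), ((nat_lit 13), (nat_lit 1)), ((nat_lit 16), (nat_lit 1)), ((nat_lit 7), (nat_lit 1)), ((nat_lit 14), (nat_lit 1)), ((nat_lit 0), (nat_lit 0)), ((nat_lit 0x390210388), (nat_lit 6)), ((nat_lit 0x81f), (nat_lit 2)), ((nat_lit 0x595), (nat_lit 2)), ((nat_lit 0x389389), (nat_lit 4)), ((nat_lit 22), (nat_lit 1)), ((nat_lit 0x7c87c8), (nat_lit 4)), ((nat_lit 0x758758255255), (nat_lit 8)), ((nat_lit 0), (nat_lit 0)), ((nat_lit 0x40e40e), (nat_lit 4)), ((nat_lit 0x758758), (nat_lit 4)), ((nat_lit 0x38d38d), (nat_lit 4)), ((nat_lit 0xd60d6), (nat_lit 4)), ((nat_lit 0x218758218758), (nat_lit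 8)), ((nat_lit 0), (nat_lit 0))] (nat_lit 0xa32a315c85c9a30a2fa2ea2da2c5c7a2b77540ca2aa2953f3d23b838360c7a90930a80900ab),
.c (nat_lit 4) (nat_lit 0x30430251d00290608087),
.i (nat_lit 3) (nat_lit 140) [((nat_lit 9), (nat_lit 1)), ((nat_lit 2), (nat_lit 1)), ((nat_lit 8), (nat_lit 1)), ((nat_lit 3), (nat_lit 1)), ((nat_lit 25), (nat_lit 1)), ((nat_lit 13), (nat_lit 1)), ((nat_lit 16), (nat_lit 1)), ((nat_lit 7), (nat_lit 1)), ((nat_lit 14), (nat_lit 1)), ((nat_lit 0), (nat_lit 0)), ((nat_lit 0x390210388), (nat_lit 6)), ((nat_lit 0x81f), (nat_lit 2)), ((nat_lit 0x595), (nat_lit 2)), ((nat_lit 0x389389), (nat_lit 4)), ((nat_lit 22), (nat_lit 1)), ((nat_lit 0x7c87c8), (nat_lit 4)), ((nat_lit 0x758758255255), (nat_lit 8)), ((nat_lit 0), (nat_lit 0)), ((nat_lit 0x40e40e), (nat_lit 4)), ((nat_lit 0x758758), (nat_lit 4)), ((nat_lit 0x38d38d), (nat_lit 4)), ((nat_lit 0xd60d6), (nat_lit 4)), ((nat_lit 0x218758218758),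 (nat_lit 8)), ((nat_lit 0), (nat_lit 0))] (nat_lit 0xa32a315c85c9a30a2fa2ea2da2c5c7a2b77540ca2aa2953f3d23b838360c7a90930a80900ab),
.c (nat_lit 32) (nat_lit 0x100201c1981a0e00ad0a0483801b4280a90e0d071076858441c425a16150710783383030c25a16100e10883883830c2a8f2120c30803183c1c421a1613071068338503b4241c2100c30707083030c0400a00063),
.i (nat_lit 3) (nat_lit 141) [((nat_lit 9), (nat_lit 1)), ((nat_lit 2), (nat_lit 1)), ((nat_lit 8), (nat_lit 1)), ((nat_lit 3), (nat_lit 1)), ((nat_lit 25), (nat_lit 1)), ((nat_lit 13), (nat_lit 1)), ((nat_lit 16), (nat_lit 1)), ((nat_lit 7), (nat_lit 1)), ((nat_lit 14), (nat_lit 1)), ((nat_lit 0), (nat_lit 0)), ((nat_lit 0x390210388), (nat_lit 6)), ((nat_lit 0x81f), (nat_lit 2)), ((nat_lit 0x595), (nat_lit 2)), ((nat_lit 0x389389), (nat_lit 4)), ((nat_lit 22), (nat_lit 1)), ((nat_lit 0x7c87c8), (nat_lit 4)), ((nat_lit 0x758758255255), (nat_lit 8)), ((nat_lit 0), (nat_lit 0)), ((nat_lit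 0x40e40e), (nat_lit 4)), ((nat_lit 0x758758), (nat_lit 4)), ((nat_lit 0x38d38d), (nat_lit 4)), ((nat_lit 0xd60d6), (nat_lit 4)), ((nat_lit 0x218758218758), (nat_lit 8)), ((nat_lit 0), (nat_lit 0))] (nat_lit 0xa32a315c85c9a30a2fa2ea2da2c5c7a2b77540ca2aa2953f3d23b838360c7a90930a80900ab),
.c (nat_lit 58) (nat_lit 0xc4020021083309c1c049a1423070106850502482d62418d980d5890736603cfd4160620c06106d1e03c7bc190660b1ef060308341c0160c20c8330351b02444c140b006a3e0302181e8e80e09206a3a0251a00a9140746905a3a83024c1a8ea0a087053f282020c0cfca04083076de83522431d4a1a4890e3ea8783cc381da1a0930c0408583b4281c2120c30807083830c0400600063),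
.i (nat_lit 3) (nat_lit 143) [((nat_lit 9), (nat_lit 1)), ((nat_lit 2), (nat_lit 1)), ((nat_lit 8), (nat_lit 1)), ((nat_lit 3), (nat_lit 1)), ((nat_lit 25), (nat_lit 1)), ((nat_lit 13), (nat_lit 1)), ((nat_lit 16), (nat_lit 1)), ((nat_lit 7), (nat_lit 1)), ((nat_lit 14), (nat_lit 1)), ((nat_lit 0), (nat_lit 0)), ((nat_lit 0x390210388), (nat_lit 6)), ((nat_lit 0x81f), (nat_lit 2)), ((nat_lit 0x595), (nat_lit 2)), ((nat_lit 0x389389), (nat_lit 4)), ((nat_lit 22), (nat_lit 1)), ((nat_lit 0x7c87c8), (nat_lit 4)), ((nat_lit 0x758758255255), (nat_lit 8)), ((nat_lit 0), (nat_lit 0)), ((nat_lit 0x40e40e), (nat_lit 4)), ((nat_lit 0x758758), (nat_lit 4)), ((nat_lit 0x38d38d), (nat_lit 4)), ((nat_lit 0xd60d6), (nat_lit 4)), ((nat_lit 0x218758218758), (nat_lit 8)), ((nat_lit 0), (nat_lit 0))] (nat_lit 0xa32a315c85c9a30a2fa2ea2da2c5c7a2b77540ca2aa2953f3d23b838360c7a90930a80900ab),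
.c (nat_lit 1) (nat_lit 0x148e),
.i (nat_lit 3) (nat_lit 148) [((nat_lit 9), (nat_lit 1)), ((nat_lit 2), (nat_lit 1)), ((nat_lit 8), (nat_lit 1)), ((nat_lit 3), (nat_lit 1)), ((nat_lit 25), (nat_lit 1)), ((nat_lit 13), (nat_lit 1)), ((nat_lit 16), (nat_lit 1)), ((nat_lit 7), (nat_lit 1)), ((nat_lit 14), (nat_lit 1)), ((nat_lit 0), (nat_lit 0)), ((nat_lit 0x390210388), (nat_lit 6)), ((nat_lit 0x81f), (nat_lit 2)), ((nat_lit 0x595), (nat_lit 2)), ((nat_lit 0x389389), (nat_lit 4)), ((nat_lit 22), (nat_lit 1)), ((nat_lit 0x7c87c8), (nat_lit 4)), ((nat_lit 0x758758255255), (nat_lit 8)), ((nat_lit 0), (nat_lit 0)), ((nat_lit 0x40e40e), (nat_lit 4)), ((nat_lit 0x758758), (nat_lit 4)), ((nat_lit 0x38d38d), (nat_lit 4)), ((nat_lit 0xd60d6), (nat_lit 4)), ((nat_lit 0x218758218758), (nat_lit 8)), ((nat_lit 0), (nat_lit 0))] (nat_lit 0xa32a315c85c9a30a2fa2ea2da2c5c7a2b77540ca2aa2953f3d23b838360c7a90930a80900ab),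
.c (nat_lit 29) (nat_lit 0x6801a49808e441e8f20c0c3051108213d40c442042150127a81920411d8a0a4450606484830c201c20e0c3061108293d410442062150227a80818c0890206ec5042228283241410e00069),
.i (nat_lit 3) (nat_lit 151) [((nat_lit 9), (nat_lit 1)), ((nat_lit 2), (nat_lit 1)), ((nat_lit 8), (nat_lit 1)), ((nat_lit 3), (nat_lit 1)), ((nat_lit 25), (nat_lit 1)), ((nat_lit 13), (nat_lit 1)), ((nat_lit 16), (nat_lit 1)), ((nat_lit 7), (nat_lit 1)), ((nat_lit 14), (nat_lit 1)), ((nat_lit 0), (nat_lit 0)), ((nat_lit 0x390210388), (nat_lit 6)), ((nat_lit 0x81f), (nat_lit 2)), ((nat_lit 0x595), (nat_lit 2)), ((nat_lit 0x389389), (nat_lit 4)), ((nat_lit 22), (nat_lit 1)), ((nat_lit 0x7c87c8), (nat_lit 4)), ((nat_lit 0x758758255255), (nat_lit 8)), ((nat_lit 0), (nat_lit 0)), ((nat_lit 0x40e40e), (nat_lit 4)), ((nat_lit 0x758758), (nat_lit 4)), ((nat_lit 0x38d38d), (nat_lit 4)), ((nat_lit 0xd60d6), (nat_lit 4)), ((nat_lit 0x218758218758),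 (nat_lit 8)), ((nat_lit 0), (nat_lit 0))] (nat_lit 0xa32a315c85c9a30a2fa2ea2da2c5c7a2b77540ca2aa2953f3d23b838360c7a90930a80900ab),
.c (nat_lit 28) (nat_lit 0xa4b81d1e408186023e5001ee80920409d8a064810476284830c201c20e0c3061f2828f74104420621502110808854000c6084810120d8002040dd8a040870224080820405d8a00087),
.i (nat_lit 3) (nat_lit 152) [((nat_lit 9), (nat_lit 1)), ((nat_lit 2), (nat_lit 1)), ((nat_lit 8), (nat_lit 1)), ((nat_lit 3), (nat_lit 1)), ((nat_lit 25), (nat_lit 1)), ((nat_lit 13), (nat_lit 1)), ((nat_lit 16), (nat_lit 1)), ((nat_lit 7), (nat_lit 1)), ((nat_lit 14), (nat_lit 1)), ((nat_lit 0), (nat_lit 0)), ((nat_lit 0x390210388), (nat_lit 6)), ((nat_lit 0x81f), (nat_lit 2)), ((nat_lit 0x595), (nat_lit 2)), ((nat_lit 0x389389), (nat_lit 4)), ((nat_lit 22), (nat_lit 1)), ((nat_lit 0x7c87c8), (nat_lit 4)), ((nat_lit 0x758758255255), (nat_lit 8)), ((nat_lit 0), (nat_lit 0)), ((nat_lit 0x40e40e), (nat_lit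 4)), ((nat_lit 0x758758), (nat_lit 4)), ((nat_lit 0x38d38d), (nat_lit 4)), ((nat_lit 0xd60d6), (nat_lit 4)), ((nat_lit 0x218758218758), (nat_lit 8)), ((nat_lit 0), (nat_lit 0))] (nat_lit 0xa32a315c85c9a30a2fa2ea2da2c5c7a2b77540ca2aa2953f3d23b838360c7a90930a80900ab),
.c (nat_lit 4) (nat_lit 0x207900526805d4a040f3),
.i (nat_lit 3) (nat_lit 154) [((nat_lit 9), (nat_lit 1)), ((nat_lit 2), (nat_lit 1)), ((nat_lit 8), (nat_lit 1)), ((nat_lit 3), (nat_lit 1)), ((nat_lit 25), (nat_lit 1)), ((nat_lit 13), (nat_lit 1)), ((nat_lit 16), (nat_lit 1)), ((nat_lit 7), (nat_lit 1)), ((nat_lit 14), (nat_lit 1)), ((nat_lit 0), (nat_lit 0)), ((nat_lit 0x390210388), (nat_lit 6)), ((nat_lit 0x81f), (nat_lit 2)), ((nat_lit 0x595), (nat_lit 2)), ((nat_lit 0x389389), (nat_lit 4)), ((nat_lit 22), (nat_lit 1)), ((nat_lit 0x7c87c8), (nat_lit 4)), ((nat_lit 0x758758255255), (nat_lit 8)), ((nat_lit 0), (nat_lit 0)), ((nat_lit 0x40e40e),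 (nat_lit 4)), ((nat_lit 0x758758), (nat_lit 4)), ((nat_lit 0x38d38d), (nat_lit 4)), ((nat_lit 0xd60d6), (nat_lit 4)), ((nat_lit 0x218758218758), (nat_lit 8)), ((nat_lit 0), (nat_lit 0))] (nat_lit 0xa32a315c85c9a30a2fa2ea2da2c5c7a2b77540ca2aa2953f3d23b838360c7a90930a80900ab),
.c (nat_lit 57) (nat_lit 0x206202049018188286a00e08608a3a0402481e8e80b46804a4f8208541a8d20b48d0fa4e873f6435f5a18fd90b7d6850d442d1d21c0b10f7b7870d5c3411a1d08f0d7d48602c4301861a3570c7b785823431f521708f0e0618841c4360ce180c30f6858703843a0e21a0c30d685860384301da194750b1cc86824c368ea183990b04386024c2c162140810303181024c040c600069),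
.i (nat_lit 3) (nat_lit 159) [((nat_lit 9), (nat_lit 1)), ((nat_lit 2), (nat_lit 1)), ((nat_lit 8), (nat_lit 1)), ((nat_lit 3), (nat_lit 1)), ((nat_lit 25), (nat_lit 1)), ((nat_lit 13), (nat_lit 1)), ((nat_lit 16), (nat_lit 1)), ((nat_lit 7), (nat_lit 1)), ((nat_lit 14), (nat_lit 1)), ((nat_lit 0), (nat_lit 0)), ((nat_lit 0x390210388), (nat_lit 6)), ((nat_lit 0x81f), (nat_lit 2)), ((nat_lit 0x595), (nat_lit 2)), ((nat_lit 0x389389), (nat_lit 4)), ((nat_lit 22), (nat_lit 1)), ((nat_lit 0x7c87c8), (nat_lit 4)), ((nat_lit 0x758758255255), (nat_lit 8)), ((nat_lit 0), (nat_lit 0)), ((nat_lit 0x40e40e), (nat_lit 4)), ((nat_lit 0x758758), (nat_lit 4)), ((nat_lit 0x38d38d), (nat_lit 4)), ((nat_lit 0xd60d6), (nat_lit 4)), ((nat_lit 0x218758218758), (nat_lit 8)), ((nat_lit 0), (nat_lit 0))] (nat_lit 0xa32a315c85c9a30a2fa2ea2da2c5c7a2b77540ca2aa2953f3d23b838360c7a90930a80900ab),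
.c (nat_lit 41) (nat_lit 0x80010490100101c100103500806104838028184160e004034028898187200e226081c80482c012940074a203a508402c41c7220c227051c882089c0c0d214741094cb841d041d32e0c0b3051838202cc0c60e1a0e10c06185838428186120b1080408100140412600081),
.c (nat_lit 4) (nat_lit 0x107180001c046c200099),
.c (nat_lit 3) (nat_lit 0xfbc041c200001),
.c (nat_lit 0) (nat_lit 0),
.c (nat_lit 0) (nat_lit 0),
.c (nat_lit 17) (nat_lit 0x63d702047808f5c0011e143d709047840f5c1c11e0c3d7051f982023c0c7ae043f3010478000040411a0608d),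
.c (nat_lit 17) (nat_lit 0x60d70217d80835c005f6140d70917d84035c1c5f60c5430506b820bec0ca86040d70117d80000c081aa080d5),
.c (nat_lit 22) (nat_lit 0xc1c604219010718008640db5a083610507084038c1c4320c0e30510c82038c0c432040e30110c80001c09b5a06361040708336b41c6c2100e1),
.c (nat_lit 0) (nat_lit 0),
.c (nat_lit 0) (nat_lit 0),
.i (nat_lit 3) (nat_lit 8) [((nat_lit 1), (nat_lit 1)), ((nat_lit 17), (nat_lit 1)), ((nat_lit 2), (nat_lit 1)), ((nat_lit 4), (nat_lit 1)), ((nat_lit 5), (nat_lit 1)), ((nat_lit 27), (nat_lit 1)), ((nat_lit 8), (nat_lit 1)), ((nat_lit 29), (nat_lit 1)), ((nat_lit 9), (nat_lit 1)), ((nat_lit 0x452445485), (nat_lit 6)), ((nat_lit 13), (nat_lit 1)), ((nat_lit 0), (nat_lit 0)), ((nat_lit 0x9d09d), (nat_lit 4)), ((nat_lit 15), (nat_lit 1)), ((nat_lit 0x449449), (nat_lit 4)), ((nat_lit 0), (nat_lit 0)), ((nat_lit 0x4274274109d09d), (nat_lit 10)), ((nat_lit 23), (nat_lit 1)), ((nat_lit 25), (nat_lit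 1)), ((nat_lit 0x44f2513c9449449), (nat_lit 10)), ((nat_lit 0x6d125b449449449), (nat_lit 10)), ((nat_lit 0x449449449449), (nat_lit 8)), ((nat_lit 0x913c944f25125124244f2513c9449449), (nat_lit 22)), ((nat_lit 0x1113c944f25125124444f2513c9449449), (nat_lit 22))] (nat_lit 0xa5ba5aa59a58a573664c4a56340a5536565ba5438349043ba533496e23636e10960902a408f),
.c (nat_lit 5) (nat_lit 0x34b80804c8381a41813200069),
.i (nat_lit 3) (nat_lit 39) [((nat_lit 1), (nat_lit 1)), ((nat_lit 17), (nat_lit 1)), ((nat_lit 2), (nat_lit 1)), ((nat_lit 4), (nat_lit 1)), ((nat_lit 5), (nat_lit 1)), ((nat_lit 27), (nat_lit 1)), ((nat_lit 8), (nat_lit 1)), ((nat_lit 29), (nat_lit 1)), ((nat_lit 9), (nat_lit 1)), ((nat_lit 0x452445485), (nat_lit 6)), ((nat_lit 13), (nat_lit 1)), ((nat_lit 0), (nat_lit 0)), ((nat_lit 0x9d09d), (nat_lit 4)), ((nat_lit 15), (nat_lit 1)), ((nat_lit 0x449449), (nat_lit 4)), ((nat_lit 0), (nat_lit 0)), ((nat_lit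 0x4274274109d09d), (nat_lit 10)), ((nat_lit 23), (nat_lit 1)), ((nat_lit 25), (nat_lit 1)), ((nat_lit 0x44f2513c9449449), (nat_lit 10)), ((nat_lit 0x6d125b449449449), (nat_lit 10)), ((nat_lit 0x449449449449), (nat_lit 8)), ((nat_lit 0x913c944f25125124244f2513c9449449), (nat_lit 22)), ((nat_lit 0x1113c944f25125124444f2513c9449449), (nat_lit 22))] (nat_lit 0xa5ba5aa59a58a573664c4a56340a5536565ba5438349043ba533496e23636e10960902a408f),
.c (nat_lit 13) (nat_lit 0x609800a5d020d70081a8034bd02034808d74281aa12099080348383541813200099),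
.i (nat_lit 3) (nat_lit 64) [((nat_lit 1), (nat_lit 1)), ((nat_lit 17), (nat_lit 1)), ((nat_lit 2), (nat_lit 1)), ((nat_lit 4), (nat_lit 1)), ((nat_lit 5), (nat_lit 1)), ((nat_lit 27), (nat_lit 1)), ((nat_lit 8), (nat_lit 1)), ((nat_lit 29), (nat_lit 1)), ((nat_lit 9), (nat_lit 1)), ((nat_lit 0x452445485), (nat_lit 6)), ((nat_lit 13), (nat_lit 1)), ((nat_lit 0), (nat_lit 0)), ((nat_lit 0x9d09d), (nat_lit 4)), ((nat_lit 15), (nat_lit 1)), ((nat_lit 0x449449), (nat_lit 4)), ((nat_lit 0), (nat_lit 0)), ((nat_lit 0x4274274109d09d), (nat_lit 10)), ((nat_lit 23), (nat_lit 1)), ((nat_lit 25), (nat_lit 1)), ((nat_lit 0x44f2513c9449449), (nat_lit 10)), ((nat_lit 0x6d125b449449449), (nat_lit 10)), ((nat_lit 0x449449449449), (nat_lit 8)), ((nat_lit 0x913c944f25125124244f2513c9449449), (nat_lit 22)), ((nat_lit 0x1113c944f25125124444f2513c9449449), (nat_lit 22))] (nat_lit 0xa5ba5aa59a58a573664c4a56340a5536565ba5438349043ba533496e23636e10960902a408f)]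

theorem c23 : chk db th.hy ths 2657 J23 2596 = true := by decide +kernel

end Pool.Agent.Lib.MP_3b0e0c_al.S.L4
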