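import Pool.Agent.Lib.MP_3b0e0c_al.S.L4D

namespace Pool.Agent.Lib.MP_3b0e0c_al.S.L4

set_option maxRecDepth 100000 in
/-- Justifications. -/
noncomputable def J24 : List Js := [
.c (nat_lit 124) (nat_lit 0x4c0081a014130054ba061ae038d8020b20123600a2c80503981e4e8120e6067ea03a3e021fa8128f80604f038380220d40e08c087b704b8b829edc1009e090700541a8181180f2700a7b705b8b831edc1609e07837033db815b580d33a076d6044ce8106c00a590061b00396401c1cc092740607302035015fa80c8f8077ea0423e0164e808fd404a6082b6b4186c20edad04a5f840d841c6ba12dad0a1b085bf543a6761adad0c99d893dbc45c5e1d2710d0468841ac51ede26e2f127b78841bc3c13e1c08d0d04f8841ac3c1c21c09f0d070879644386c21a5911047c87bf54391f21e0e71007387b6b4406c222dad0ea5f85d2fc2297e0b4bb04034830264140d20a35d0404c830d74286c21235d0b6d6860d8435b5a154bf07a5f8252fc1c6ba1435d0e1b0868d743c1c21c0d50d04c8601a42c1aa1409903034810264040d200099),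
.i (nat_lit 3) (nat_lit 92) [((nat_lit 1), (nat_lit 1)), ((nat_lit 17), (nat_lit 1)), ((nat_lit 2), (nat_lit 1)), ((nat_lit 4), (nat_lit 1)), ((nat_lit 5), (nat_lit 1)), ((nat_lit 27), (nat_lit 1)), ((nat_lit 8), (nat_lit 1)), ((nat_lit 29), (nat_lit 1)), ((nat_lit 9), (nat_lit 1)), ((nat_lit 0x452445485), (nat_lit 6)), ((nat_lit 13), (nat_lit 1)), ((nat_lit 0), (nat_lit 0)), ((nat_lit 0x9d09d), (nat_lit 4)), ((nat_lit 15), (nat_lit 1)), ((nat_lit 0x449449), (nat_lit 4)), ((nat_lit 0), (nat_lit 0)), ((nat_lit 0x4274274109d09d), (nat_lit 10)), ((nat_lit 23), (nat_lit 1)), ((nat_lit 25), (nat_lit 1)), ((nat_lit 0x44f2513c9449449), (nat_lit 10)), ((nat_lit 0x6d125b449449449), (nat_lit 10)), ((nat_lit 0x449449449449), (nat_lit 8)), ((nat_lit 0x913c944f25125124244f2513c9449449), (nat_lit 22)), ((nat_lit 0x1113c944f25125124444f2513c9449449), (nat_lit 22))] (nat_lit 0xa5ba5aa59a58a573664c4a56340a5536565ba5438349043ba533496e23636e10960902a408f),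
.c (nat_lit 14) (nat_lit 0xa00209e020280402602515c108ae047460193480e98a10db90904c8101440413e00051),
.i (nat_lit 3) (nat_lit 93) [((nat_lit 1), (nat_lit 1)), ((nat_lit 17), (nat_lit 1)), ((nat_lit 2), (nat_lit 1)), ((nat_lit 4), (nat_lit 1)), ((nat_lit 5), (nat_lit 1)), ((nat_lit 27), (nat_lit 1)), ((nat_lit 8), (nat_lit 1)), ((nat_lit 29), (nat_lit 1)), ((nat_lit 9), (nat_lit 1)), ((nat_lit 0x452445485), (nat_lit 6)), ((nat_lit 13), (nat_lit 1)), ((nat_lit 0), (nat_lit 0)), ((nat_lit 0x9d09d), (nat_lit 4)), ((nat_lit 15), (nat_lit 1)), ((nat_lit 0x449449), (nat_lit 4)), ((nat_lit 0), (nat_lit 0)), ((nat_lit 0x4274274109d09d), (nat_lit 10)), ((nat_lit 23), (nat_lit 1)), ((nat_lit 25), (nat_lit 1)), ((nat_lit 0x44f2513c9449449), (nat_lit 10)), ((nat_lit 0x6d125b449449449), (nat_lit 10)), ((nat_lit 0x449449449449), (nat_lit 8)), ((nat_lit 0x913c944f25125124244f2513c9449449), (nat_lit 22)), ((nat_lit 0x1113c944f25125124444f2513c9449449),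 (nat_lit 22))] (nat_lit 0xa5ba5aa59a58a573664c4a56340a5536565ba5438349043ba533496e23636e10960902a408f),
.c (nat_lit 5) (nat_lit 0x20bc02a64813f740417a000c9),
.i (nat_lit 3) (nat_lit 130) [((nat_lit 1), (nat_lit 1)), ((nat_lit 17), (nat_lit 1)), ((nat_lit 2), (nat_lit 1)), ((nat_lit 4), (nat_lit 1)), ((nat_lit 5), (nat_lit 1)), ((nat_lit 27), (nat_lit 1)), ((nat_lit 8), (nat_lit 1)), ((nat_lit 29), (nat_lit 1)), ((nat_lit 9), (nat_lit 1)), ((nat_lit 0x452445485), (nat_lit 6)), ((nat_lit 13), (nat_lit 1)), ((nat_lit 0), (nat_lit 0)), ((nat_lit 0x9d09d), (nat_lit 4)), ((nat_lit 15), (nat_lit 1)), ((nat_lit 0x449449), (nat_lit 4)), ((nat_lit 0), (nat_lit 0)), ((nat_lit 0x4274274109d09d), (nat_lit 10)), ((nat_lit 23), (nat_lit 1)), ((nat_lit 25), (nat_lit 1)), ((nat_lit 0x44f2513c9449449), (nat_lit 10)), ((nat_lit 0x6d125b449449449), (nat_lit 10)), ((nat_lit 0x449449449449), (nat_lit 8)), ((nat_lit 0x913c944f25125124244f2513c9449449),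 (nat_lit 22)), ((nat_lit 0x1113c944f25125124444f2513c9449449), (nat_lit 22))] (nat_lit 0xa5ba5aa59a58a573664c4a56340a5536565ba5438349043ba533496e23636e10960902a408f),
.c (nat_lit 5) (nat_lit 0x6801a66808e441413200069),
.i (nat_lit 3) (nat_lit 154) [((nat_lit 1), (nat_lit 1)), ((nat_lit 17), (nat_lit 1)), ((nat_lit 2), (nat_lit 1)), ((nat_lit 4), (nat_lit 1)), ((nat_lit 5), (nat_lit 1)), ((nat_lit 27), (nat_lit 1)), ((nat_lit 8), (nat_lit 1)), ((nat_lit 29), (nat_lit 1)), ((nat_lit 9), (nat_lit 1)), ((nat_lit 0x452445485), (nat_lit 6)), ((nat_lit 13), (nat_lit 1)), ((nat_lit 0), (nat_lit 0)), ((nat_lit 0x9d09d), (nat_lit 4)), ((nat_lit 15), (nat_lit 1)), ((nat_lit 0x449449), (nat_lit 4)), ((nat_lit 0), (nat_lit 0)), ((nat_lit 0x4274274109d09d), (nat_lit 10)), ((nat_lit 23), (nat_lit 1)), ((nat_lit 25), (nat_lit 1)), ((nat_lit 0x44f2513c9449449), (nat_lit 10)), ((nat_lit 0x6d125b449449449), (nat_lit 10)),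 ((nat_lit 0x449449449449), (nat_lit 8)), ((nat_lit 0x913c944f25125124244f2513c9449449), (nat_lit 22)), ((nat_lit 0x1113c944f25125124444f2513c9449449), (nat_lit 22))] (nat_lit 0xa5ba5aa59a58a573664c4a56340a5536565ba5438349043ba533496e23636e10960902a408f),
.c (nat_lit 10) (nat_lit 0x41000927402a68814b94241ce100e107073830384041020008d),
.c (nat_lit 1) (nat_lit 762),
.c (nat_lit 6) (nat_lit 0x5ea045cb0102b808fbc00002000e1),
.c (nat_lit 10) (nat_lit 0x21760b0bb041f7818fac095a2030bb000008141440414a020ab),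
.c (nat_lit 0) (nat_lit 0),
.c (nat_lit 0) (nat_lit 0),
.c (nat_lit 0) (nat_lit 0),
.c (nat_lit 3) (nat_lit 0x8fbc00002000e1),
.i (nat_lit 3) (nat_lit 55) [((nat_lit 2), (nat_lit 1)), ((nat_lit 9), (nat_lit 1)), ((nat_lit 0x741), (nat_lit 2)), ((nat_lit 6), (nat_lit 1)), ((nat_lit 0x9d042741), (nat_lit 6)), ((nat_lit 15), (nat_lit 1)), ((nat_lit 11), (nat_lit 1)), ((nat_lit 0x698), (nat_lit 2)), ((nat_lit 0), (nat_lit 0)), ((nat_lit 23), (nat_lit 1)), ((nat_lit 0x7544cb74b), (nat_lit 6)), ((nat_lit 0x9a602698), (nat_lit 6)), ((nat_lit 0x741698741698), (nat_lit 8)), ((nat_lit 0), (nat_lit 0)), ((nat_lit 0), (nat_lit 0)), ((nat_lit 0x74109a60269874109a602698), (nat_lit 16)), ((nat_lit 0x9d05a61d05a602741698741698), (nat_lit 18)), ((nat_lit 0), (nat_lit 0)), ((nat_lit 0), (nat_lit 0)), ((nat_lit 0), (nat_lit 0)), ((nat_lit 0), (nat_lit 0)), ((nat_lit 0), (nat_lit 0)), ((nat_lit 0), (nat_lit 0)), ((nat_lit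 0), (nat_lit 0))] (nat_lit 0x3ada703ada703403ada70a6fa6e3bb3407b1a6da6c4c4a6b5e74037aa7aba6a0a27a80ab090),
.c (nat_lit 20) (nat_lit 0x700081d0080041505009070050de00e9c41010507873832b3c14602081050318085840c281c2120ab0805281000c040ea000e1),
.i (nat_lit 3) (nat_lit 146) [((nat_lit 2), (nat_lit 1)), ((nat_lit 9), (nat_lit 1)), ((nat_lit 0x741), (nat_lit 2)), ((nat_lit 6), (nat_lit 1)), ((nat_lit 0x9d042741), (nat_lit 6)), ((nat_lit 15), (nat_lit 1)), ((nat_lit 11), (nat_lit 1)), ((nat_lit 0x698), (nat_lit 2)), ((nat_lit 0), (nat_lit 0)), ((nat_lit 23), (nat_lit 1)), ((nat_lit 0x7544cb74b), (nat_lit 6)), ((nat_lit 0x9a602698), (nat_lit 6)), ((nat_lit 0x741698741698), (nat_lit 8)), ((nat_lit 0), (nat_lit 0)), ((nat_lit 0), (nat_lit 0)), ((nat_lit 0x74109a60269874109a602698), (nat_lit 16)), ((nat_lit 0x9d05a61d05a602741698741698), (nat_lit 18)), ((nat_lit 0), (nat_lit 0)), ((nat_lit 0), (nat_lit 0)), ((nat_lit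 0), (nat_lit 0)), ((nat_lit 0), (nat_lit 0)), ((nat_lit 0), (nat_lit 0)), ((nat_lit 0), (nat_lit 0)), ((nat_lit 0), (nat_lit 0))] (nat_lit 0x3ada703ada703403ada70a6fa6e3bb3407b1a6da6c4c4a6b5e74037aa7aba6a0a27a80ab090),
.c (nat_lit 1) (nat_lit 0x14e7),
.i (nat_lit 3) (nat_lit 147) [((nat_lit 2), (nat_lit 1)), ((nat_lit 9), (nat_lit 1)), ((nat_lit 0x741), (nat_lit 2)), ((nat_lit 6), (nat_lit 1)), ((nat_lit 0x9d042741), (nat_lit 6)), ((nat_lit 15), (nat_lit 1)), ((nat_lit 11), (nat_lit 1)), ((nat_lit 0x698), (nat_lit 2)), ((nat_lit 0), (nat_lit 0)), ((nat_lit 23), (nat_lit 1)), ((nat_lit 0x7544cb74b), (nat_lit 6)), ((nat_lit 0x9a602698), (nat_lit 6)), ((nat_lit 0x741698741698), (nat_lit 8)), ((nat_lit 0), (nat_lit 0)), ((nat_lit 0), (nat_lit 0)), ((nat_lit 0x74109a60269874109a602698), (nat_lit 16)), ((nat_lit 0x9d05a61d05a602741698741698), (nat_lit 18)), ((nat_lit 0), (nat_lit 0)), ((nat_lit 0), (nat_lit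 0)), ((nat_lit 0), (nat_lit 0)), ((nat_lit 0), (nat_lit 0)), ((nat_lit 0), (nat_lit 0)), ((nat_lit 0), (nat_lit 0)), ((nat_lit 0), (nat_lit 0))] (nat_lit 0x3ada703ada703403ada70a6fa6e3bb3407b1a6da6c4c4a6b5e74037aa7aba6a0a27a80ab090),
.c (nat_lit 1) (nat_lit 0x14ea),
.c (nat_lit 6) (nat_lit 0xc10c094740404901d1d0068d000792),
.c (nat_lit 16) (nat_lit 0x807302c9d01c1cc0a0d4067ea03a3e021fa8128f80693a0022280a9860e0e70607082839c101c2060d5),
.c (nat_lit 28) (nat_lit 0x18340249e00c6f005278011bc0104380c234020800278d01cbf01260c0206e02a2400a838068920b3070497e81bc6c0810208ea10397984846c2021e0e0e10604f8283841013e0006f),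
.c (nat_lit 10) (nat_lit 0x1000206e031a80201b81689004a1e02a248401bc040de00081),
.c (nat_lit 3) (nat_lit 0x82d80a93000c62),
.c (nat_lit 3) (nat_lit 0x182480a8e800d70),
.c (nat_lit 37) (nat_lit 0x18e220b6da0490c8287c0160d40a04c05b5f0306b81609e0c1b3069a182c6cc14d7c091b30435f01c898104aa070640434b0269940ed2c0671103bf70201cc120e00a073040380264e80adb406a6903bdb821c5c12f6e0a717020f801698400e8a),
.c (nat_lit 2) (nat_lit 0xa90000e9e),
.c (nat_lit 4) (nat_lit 0x8a3a0382481a8e800ec6),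
.c (nat_lit 4) (nat_lit 0x10430116500e8e800ece),
.c (nat_lit 5) (nat_lit 0x409e030580152000694800f2e),
.c (nat_lit 15) (nat_lit 0x1b80c10008f1a0597e034c180472405448017a380d1241660e092fd0378d810204181020006f),
.c (nat_lit 7) (nat_lit 0x282181a8e80ed12082ca04d1d0168e800f8e),
.c (nat_lit 3) (nat_lit 0x83200a8a000fb4),
.c (nat_lit 3) (nat_lit 0x103980686400fc8),
.c (nat_lit 3) (nat_lit 0x83200a99400fdc),
.c (nat_lit 9) (nat_lit 0x921004907d1d02c1241042e07a3a00c0200694a00093),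
.c (nat_lit 4) (nat_lit 0xaa3a048248228e801058),
.c (nat_lit 7) (nat_lit 0x282481a9200c09e070580352001694801076),
.c (nat_lit 4) (nat_lit 0x10430116500e8e80107a),
.c (nat_lit 82) (nat_lit 0x181e40c0ec073ea02bab019a580a0e00668503b3e8181840f0700876403838021a1412cfa05061034198260e014ec8058330282d8181840f0c0097e0053af02d9fc0206802113018e401044c0a39006841039c98207c00c0b0075cf0441f0201c012d0a090610541c0281c016d0a0806104c198320e0110660706104430029f8016ebc0604903d2902162412d9808046048d5829edc120920a58905b6601a9480e08c08217058d5831edc034a0024d301b6b01134c0adac063930141980c184040c2017d40142380df500908e0579f0081880a91001080),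
.c (nat_lit 126) (nat_lit 0x81240239c0202e018200100c41039c0806104838028184160e00c07604419824184100c20805804bea02a11c16fa80c8470583082211c12fa80804604bdb8286ac120c209058053ea02e11c1408c0b1ab063db82c160108e808040048d4029f5816fd80c7d606bf60381d8150660b06105030825f501508e0b7d406423835e7c160c2090580542382df501408c0b7b7060d582c184160b00c7d406c23824118148e80d1ab073db821f5812fd80a7d605bf60329381006209a4402c228169121549d097ec843eb41dfb20cfad0c7b7858d5c211d20e08d0b847853ea424162120c30a1ab84bdbc2011a12fa9088478382c424186167170aa8184be4c22a060ef9308589882c4c3db321c0930e86088112445f822708d120618aac4c51b3226b13180768b8384581862a0e11406189824c480de220b7100378782dc38186080630304081017404126000c3),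
.c (nat_lit 13) (nat_lit 0x68050400316481c1600c0b001a5000c2f80a94202341070588302041412600069),
.c (nat_lit 24) (nat_lit 0x34028278181600c0e005070023f60161100cfd8036cc02177815b3005088020490197780444c0443203a5000c30c069420c0b10805883827c1812600069),
.c (nat_lit 7) (nat_lit 0x282181a8e80ed12082ca04d1d0168e801204),
.c (nat_lit 4) (nat_lit 0x204c0182781281401206),
.c (nat_lit 8) (nat_lit 0x304c020278168141142e07583033a601683c01208),
.c (nat_lit 75) (nat_lit 0x182c011f880609204a5202b5e01816c074a4046bc02d2400c10c08398053d7030a1811f880a09e06a4003b458101240ad78062ef03d290229200eb9e0668b03836811af00b490066bc0202c015f880cb9e077e2020248169480cd7807a480435e01816c0f25004a5202d24019af00f490086bc018e601050c0a7ae06143039eb80972c06b9a0406d02c8a00473004286033d7020a1814f5c02b9e027e201ae7811f880a09e06a400082480a92006d7804a4802b5e018bbc0f4a401a480135e00e92001256),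
.c (nat_lit 3) (nat_lit 0x83200a898012d4),
.c (nat_lit 6) (nat_lit 0x1e8e81006209110050248268e8012e0),
.c (nat_lit 8) (nat_lit 0x2073018380101cc040e00393a0082300a9a4012e4),
.c (nat_lit 8) (nat_lit 0x6073038380201cc0c0e00793a00d2e812984012ec),
.c (nat_lit 7) (nat_lit 0x282780915c0608c046dc0282781a98c012f8),
.c (nat_lit 8) (nat_lit 0x6073038380201cc0c0e00793a00d2e812984012fa),
.c (nat_lit 7) (nat_lit 0xe046869a583744c0c06406b4b03a89801320),
.c (nat_lit 6) (nat_lit 0x441242147408a3a0382481a8e801324),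
.c (nat_lit 6) (nat_lit 0x441242147408a3a0382481a8e801326),
.c (nat_lit 4) (nat_lit 0x806404b4b02a8980132c),
.c (nat_lit 4) (nat_lit 0x806404bab02a89801336),
.c (nat_lit 4) (nat_lit 0x130640a3ab05689801338),
.c (nat_lit 3) (nat_lit 0x83200a898013aa),
.c (nat_lit 3) (nat_lit 0xed1d06286c013cc),
.c (nat_lit 150) (nat_lit 0x624f834cfa180730cba505c1cc3127c1a67d0b832061c3432d2c1a70d0db4b0702343810e1d9820da9d870708343801b8190ca9d86870830380198190c038066528352e617a280c4a40668982d5081797f0c54f85c1e430a76180730c8e00641e434a76170730c3a506c7002809e158340c37d8666042e0e0148340b03804e11028fd8158440b3f605e5f831306170730c0380641cc2d2741204f09ca9054b202c360172c80c4ab0654882a0e01693a09c1a8546c4260e01493a0903804e0d42a3621204f098380520d426098141b00a9640586c02809e150700b41a848130268ae161b00b9640606c02e09e13952090d8044890248ca132240a2328565e42cea010a8408bb504aa1026ed41497f0ad4f8424e8220e01007007bf604257022fd81295c09cbf05260c1d2b40f9660703c83d4ec1e0e6101c00803c8454ec1c0e60f74a090e00324f01adf60e981055120201cc120e00a07303c9d019fa80e11a07087044c101c1cc103800981904038026528152e609073050e002e0640b2ac065220181b812890013ce),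
.c (nat_lit 3) (nat_lit 0x182480a8e801468),
.c (nat_lit 4) (nat_lit 0x3049018218128e801470),
.c (nat_lit 37) (nat_lit 0xa0ec05070033428181840f07007070043428141840d06609838038308141600d08e077d40302301dedc10356070610382c021f501308e050460323a0246ac14f6e0204001d47019f580efd8087d604bf602a9380c0b002a8e0101a00e9400148c),
.c (nat_lit 2) (nat_lit 0x6a38014a0),
.c (nat_lit 1) (nat_lit 771),
.c (nat_lit 1) (nat_lit 775),
.c (nat_lit 4) (nat_lit 0x128c80001c0491200093),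
.c (nat_lit 4) (nat_lit 0x1068800004044e200093),
.c (nat_lit 3) (nat_lit 0x8e74000de00093),
.c (nat_lit 0) (nat_lit 0),
.c (nat_lit 0) (nat_lit 0),
.c (nat_lit 59) (nat_lit 0x1946408b6602519002d982d4540da72054f90c68785d1d428b2a13475082ca83d1d418b2a0b4750404385b5f4309121a0f30b69c85024c249b60ed390604982936c08562020570b04985136c21a720e0930626d8234e40c12604057010498414641c1c60c519050718214640c1c6045190107180001c05b3206d7d021b08233ec0c1c2064890407982b6641dafa0c3610867d8383841c912100f3),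
.c (nat_lit 3) (nat_lit 0x151d404b2a00087),
.c (nat_lit 13) (nat_lit 0x6519020f8809464003e206dbd042448283cc0a9de020630304981018c0412600007),
.c (nat_lit 13) (nat_lit 0x60d10217b808344005ee06dc10413882833c0a9de020630304981018c0412600001),
.c (nat_lit 3) (nat_lit 0xd1d40010e00093),
.c (nat_lit 7) (nat_lit 0x1f8c0c90a047af01043810fbc04c7600001),
.i (nat_lit 3) (nat_lit 11) [((nat_lit 16), (nat_lit 1)), ((nat_lit 3), (nat_lit 1)), ((nat_lit 4), (nat_lit 1)), ((nat_lit 1), (nat_lit 1)), ((nat_lit 32), (nat_lit 1)), ((nat_lit 10), (nat_lit 1)), ((nat_lit 26), (nat_lit 1)), ((nat_lit 6), (nat_lit 1)), ((nat_lit 8), (nat_lit 1)), ((nat_lit 0), (nat_lit 0)), ((nat_lit 0x11a11a), (nat_lit 4)), ((nat_lit 0x406406), (nat_lit 4)), ((nat_lit 0x44e), (nat_lit 2)), ((nat_lit 0x408408), (nat_lit 4)), ((nat_lit 14), (nat_lit 1)), ((nat_lit 0x411411411411), (nat_lit 8)), ((nat_lit 0x411411), (nat_lit 4)), ((nat_lit 0), (nat_lit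 0)), ((nat_lit 0), (nat_lit 0)), ((nat_lit 0), (nat_lit 0)), ((nat_lit 29), (nat_lit 1)), ((nat_lit 0x75c), (nat_lit 2)), ((nat_lit 0), (nat_lit 0)), ((nat_lit 0), (nat_lit 0))] (nat_lit 0x31133aab2894ab1ab0aafaaeaad3b5aac3b7aab68eaaa528494aa9362aa8aa708f0960932a3),
.c (nat_lit 5) (nat_lit 0x1566070498302641412608099),
.c (nat_lit 6) (nat_lit 0x485a00215022c98082040411a00063),
.c (nat_lit 5) (nat_lit 0x4f7022248081bc047be00063),
.c (nat_lit 2) (nat_lit 0x5bf60cdfb),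
.c (nat_lit 0) (nat_lit 0),
.c (nat_lit 0) (nat_lit 0),
.c (nat_lit 0) (nat_lit 0),
.i (nat_lit 3) (nat_lit 75) [((nat_lit 8), (nat_lit 1)), ((nat_lit 4), (nat_lit 1)), ((nat_lit 5), (nat_lit 1)), ((nat_lit 3), (nat_lit 1)), ((nat_lit 0x657), (nat_lit 2)), ((nat_lit 973), (nat_lit 2)), ((nat_lit 14), (nat_lit 1)), ((nat_lit 10), (nat_lit 1)), ((nat_lit 779), (nat_lit 2)), ((nat_lit 0), (nat_lit 0)), ((nat_lit 0x385385), (nat_lit 4)), ((nat_lit 29), (nat_lit 1)), ((nat_lit 0x79b), (nat_lit 2)), ((nat_lit 0x20c2c830b), (nat_lit 6)), ((nat_lit 0x10c2c430b), (nat_lit 6)), ((nat_lit 0), (nat_lit 0)), ((nat_lit 0x81e8086e07a021b), (nat_lit 10)), ((nat_lit 0x20c2c830b20c2c830b), (nat_lit 12)), ((nat_lit 0xc830b20c2c320c2c830b), (nat_lit 14)), ((nat_lit 0x20430b10c2c810c2c430b), (nat_lit 14)), ((nat_lit 0x14430b10c2c510c2c430b), (nat_lit 14)), ((nat_lit 0xc430b10c2c310c2c430b), (nat_lit 14)), ((nat_lit 0x14810c2c430b20430b10c2c520430b10c2c810c2c430b),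 (nat_lit 30)), ((nat_lit 0xc810c2c430b20430b10c2c320430b10c2c810c2c430b), (nat_lit 30))] (nat_lit 0xabaab99dc9dbab89df9deab79279d89d97ccab64b2ab588b42053f3649d699e09309f0960a8),
.c (nat_lit 41) (nat_lit 0xa0c80436d01b6a008db402da8001ee048380281cc0efd406a2802d42010890075080127b011c90281cc0efd40847c0483c8201e40d45005a840193d810e480a3dc066de03b7e821b7807577046d48783cc381ce1a0f30c031858354281e6120e7080798102f4040de000c9),
.i (nat_lit 3) (nat_lit 124) [((nat_lit 8), (nat_lit 1)), ((nat_lit 4), (nat_lit 1)), ((nat_lit 5), (nat_lit 1)), ((nat_lit 3), (nat_lit 1)), ((nat_lit 0x657), (nat_lit 2)), ((nat_lit 973), (nat_lit 2)), ((nat_lit 14), (nat_lit 1)), ((nat_lit 10), (nat_lit 1)), ((nat_lit 779), (nat_lit 2)), ((nat_lit 0), (nat_lit 0)), ((nat_lit 0x385385), (nat_lit 4)), ((nat_lit 29), (nat_lit 1)), ((nat_lit 0x79b), (nat_lit 2)), ((nat_lit 0x20c2c830b), (nat_lit 6)), ((nat_lit 0x10c2c430b), (nat_lit 6)), ((nat_lit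 0), (nat_lit 0)), ((nat_lit 0x81e8086e07a021b), (nat_lit 10)), ((nat_lit 0x20c2c830b20c2c830b), (nat_lit 12)), ((nat_lit 0xc830b20c2c320c2c830b), (nat_lit 14)), ((nat_lit 0x20430b10c2c810c2c430b), (nat_lit 14)), ((nat_lit 0x14430b10c2c510c2c430b), (nat_lit 14)), ((nat_lit 0xc430b10c2c310c2c430b), (nat_lit 14)), ((nat_lit 0x14810c2c430b20430b10c2c520430b10c2c810c2c430b), (nat_lit 30)), ((nat_lit 0xc810c2c430b20430b10c2c320430b10c2c810c2c430b), (nat_lit 30))] (nat_lit 0xabaab99dc9dbab89df9deab79279d89d97ccab64b2ab588b42053f3649d699e09309f0960a8),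
.c (nat_lit 65) (nat_lit 0xc09e0783704bdb82a580172de090700341a0201c00b088067ec03c22021fb0132fc0a983024bc815d40072fe04a9f005120181780a3540438c0283c8181cc0e0f2040700191200aa10020620227b019c90109ec0a724066fd0303501d1f0100f2090730503c806af00357b03abc8110b40442a180f30b0738503cc251f2100d5086fd839c94189ee0a7250427b8190b40842a0206304a84829124181c2120f3080738383cc1817a00081),
.c (nat_lit 77) (nat_lit 0x120800a24003d1d0201900c2260722202d1d019d880822601a7701d51812a880b54606aa2040850247b8120920a75503820022a3816480080430302001c8341209206a42048248228e80c0c805222023b1006a8c0554403aa302552016a880d54807aa204885028440160920caa4070f7035d540f4740404300b3280e9280a390061130302181e8e8114940a113058e4030888180b00da7b058d4030900134740a1cc05bb100c8340d51c091a80512000c1000841a0320d00d2500c7200954a052220282d81a93000ea6),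
.c (nat_lit 90) (nat_lit 0x3816c1e0c80ea4c0702d83c1901d4980d2400636a02e9ec14480071c9040e7025b50120800a24003d1d0201900c2260722202d1d019d880822601a7701d51812a880b54606aa2040850247b8120920a75503820022a3816480080430302001c8341209206a42048248228e80c0c805222023b1006a8c0554403aa302552016a880d54807aa204885028440160920caa4070f7035d540f4740404300b3280e9280a390061130302181e8e8114940a113058e4030888180b00da7b058d4030900134740a1cc05bb100c8340d51c091a80512000c1000841a0320d00d2500c7200954a052220282d81a93000eb2),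
.c (nat_lit 2) (nat_lit 0x6ad001500),
.c (nat_lit 4) (nat_lit 0x6a4803ac480aa3001502),
.c (nat_lit 2) (nat_lit 0x6ad001514),
.c (nat_lit 2) (nat_lit 0x6a3801516),
.c (nat_lit 5) (nat_lit 0x7530238d8081bc04e2e0005d),
.c (nat_lit 16) (nat_lit 0x5e3818d6c0934e02069051ab8110bc0411a08b1303049818d5c0811a04b1301049812d640562e00057),
.c (nat_lit 29) (nat_lit 0x67e50203b809f94000ee0b58704a83813ddc181260a0750404983d5a418fd60a0930804c83824c181320af7b0403a82922410fd60c7d5050768283cc08562020570304981015c0412600003),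
.c (nat_lit 23) (nat_lit 0x1946408b6602519002d982d61c0da72054f907049830264141260cd0f052ca82021c15afa08099042448283cc08562020570304981015c0412600007),
.i (nat_lit 3) (nat_lit 77) [((nat_lit 6), (nat_lit 1)), ((nat_lit 3), (nat_lit 1)), ((nat_lit 2), (nat_lit 1)), ((nat_lit 4), (nat_lit 1)), ((nat_lit 11), (nat_lit 1)), ((nat_lit 7), (nat_lit 1)), ((nat_lit 0x44e), (nat_lit 2)), ((nat_lit 10), (nat_lit 1)), ((nat_lit 9), (nat_lit 1)), ((nat_lit 20), (nat_lit 1)), ((nat_lit 0x6d1591), (nat_lit 4)), ((nat_lit 28), (nat_lit 1)), ((nat_lit 18), (nat_lit 1)), ((nat_lit 0x698), (nat_lit 2)), ((nat_lit 16), (nat_lit 1)), ((nat_lit 0x9c09c), (nat_lit 4)), ((nat_lit 0x9a4), (nat_lit 2)), ((nat_lit 0x9a602698), (nat_lit 6)), ((nat_lit 0x11a604698), (nat_lit 6)), ((nat_lit 0x406406), (nat_lit 4)), ((nat_lit 0x81f), (nat_lit 2)), ((nat_lit 32), (nat_lit 1)), ((nat_lit 0), (nat_lit 0)), ((nat_lit 0), (nat_lit 0))] (nat_lit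 0xac8ac765e6443ba691a6d5814d54eeac63bf58043d42a43b3623ac59e2fe9ba0960900930a2),
.c (nat_lit 4) (nat_lit 0x406a019a1802b24080d5),
.i (nat_lit 3) (nat_lit 78) [((nat_lit 6), (nat_lit 1)), ((nat_lit 3), (nat_lit 1)), ((nat_lit 2), (nat_lit 1)), ((nat_lit 4), (nat_lit 1)), ((nat_lit 11), (nat_lit 1)), ((nat_lit 7), (nat_lit 1)), ((nat_lit 0x44e), (nat_lit 2)), ((nat_lit 10), (nat_lit 1)), ((nat_lit 9), (nat_lit 1)), ((nat_lit 20), (nat_lit 1)), ((nat_lit 0x6d1591), (nat_lit 4)), ((nat_lit 28), (nat_lit 1)), ((nat_lit 18), (nat_lit 1)), ((nat_lit 0x698), (nat_lit 2)), ((nat_lit 16), (nat_lit 1)), ((nat_lit 0x9c09c), (nat_lit 4)), ((nat_lit 0x9a4), (nat_lit 2)), ((nat_lit 0x9a602698), (nat_lit 6)), ((nat_lit 0x11a604698), (nat_lit 6)), ((nat_lit 0x406406), (nat_lit 4)), ((nat_lit 0x81f), (nat_lit 2)), ((nat_lit 32), (nat_lit 1)), ((nat_lit 0), (nat_lit 0)), ((nat_lit 0), (nat_lit 0))] (nat_lit 0xac8ac765e6443ba691a6d5814d54eeac63bf58043d42a43b3623ac59e2fe9ba0960900930a2),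
.c (nat_lit 10) (nat_lit 0x130020b60204c01d6580dafa08cff056be8102640416e00099),
.i (nat_lit 3) (nat_lit 84) [((nat_lit 6), (nat_lit 1)), ((nat_lit 3), (nat_lit 1)), ((nat_lit 2), (nat_lit 1)), ((nat_lit 4), (nat_lit 1)), ((nat_lit 11), (nat_lit 1)), ((nat_lit 7), (nat_lit 1)), ((nat_lit 0x44e), (nat_lit 2)), ((nat_lit 10), (nat_lit 1)), ((nat_lit 9), (nat_lit 1)), ((nat_lit 20), (nat_lit 1)), ((nat_lit 0x6d1591), (nat_lit 4)), ((nat_lit 28), (nat_lit 1)), ((nat_lit 18), (nat_lit 1)), ((nat_lit 0x698), (nat_lit 2)), ((nat_lit 16), (nat_lit 1)), ((nat_lit 0x9c09c), (nat_lit 4)), ((nat_lit 0x9a4), (nat_lit 2)), ((nat_lit 0x9a602698), (nat_lit 6)), ((nat_lit 0x11a604698), (nat_lit 6)), ((nat_lit 0x406406), (nat_lit 4)), ((nat_lit 0x81f), (nat_lit 2)), ((nat_lit 32), (nat_lit 1)), ((nat_lit 0), (nat_lit 0)), ((nat_lit 0), (nat_lit 0))] (nat_lit 0xac8ac765e6443ba691a6d5814d54eeac63bf58043d42a43b3623ac59e2fe9ba0960900930a2),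
.c (nat_lit 1) (nat_lit 0x159b),
.i (nat_lit 3) (nat_lit 85) [((nat_lit 6), (nat_lit 1)), ((nat_lit 3), (nat_lit 1)), ((nat_lit 2), (nat_lit 1)), ((nat_lit 4), (nat_lit 1)), ((nat_lit 11), (nat_lit 1)), ((nat_lit 7), (nat_lit 1)), ((nat_lit 0x44e), (nat_lit 2)), ((nat_lit 10), (nat_lit 1)), ((nat_lit 9), (nat_lit 1)), ((nat_lit 20), (nat_lit 1)), ((nat_lit 0x6d1591), (nat_lit 4)), ((nat_lit 28), (nat_lit 1)), ((nat_lit 18), (nat_lit 1)), ((nat_lit 0x698), (nat_lit 2)), ((nat_lit 16), (nat_lit 1)), ((nat_lit 0x9c09c), (nat_lit 4)), ((nat_lit 0x9a4), (nat_lit 2)), ((nat_lit 0x9a602698), (nat_lit 6)), ((nat_lit 0x11a604698), (nat_lit 6)), ((nat_lit 0x406406), (nat_lit 4)), ((nat_lit 0x81f), (nat_lit 2)), ((nat_lit 32), (nat_lit 1)), ((nat_lit 0), (nat_lit 0)), ((nat_lit 0), (nat_lit 0))] (nat_lit 0xac8ac765e6443ba691a6d5814d54eeac63bf58043d42a43b3623ac59e2fe9ba0960900930a2)]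

theorem c24 : chk db th.hy ths 2768 J24 2657 = true := by decide +kernel

set_option maxRecDepth 100000 in
/-- Justifications. -/
noncomputable def J25 : List Js := [
.c (nat_lit 8) (nat_lit 0x507900567805afa04cff036be825664141e6080d5),
.i (nat_lit 3) (nat_lit 97) [((nat_lit 6), (nat_lit 1)), ((nat_lit 3), (nat_lit 1)), ((nat_lit 2), (nat_lit 1)), ((nat_lit 4), (nat_lit 1)), ((nat_lit 11), (nat_lit 1)), ((nat_lit 7), (nat_lit 1)), ((nat_lit 0x44e), (nat_lit 2)), ((nat_lit 10), (nat_lit 1)), ((nat_lit 9), (nat_lit 1)), ((nat_lit 20), (nat_lit 1)), ((nat_lit 0x6d1591), (nat_lit 4)), ((nat_lit 28), (nat_lit 1)), ((nat_lit 18), (nat_lit 1)), ((nat_lit 0x698), (nat_lit 2)), ((nat_lit 16), (nat_lit 1)), ((nat_lit 0x9c09c), (nat_lit 4)), ((nat_lit 0x9a4), (nat_lit 2)), ((nat_lit 0x9a602698), (nat_lit 6)), ((nat_lit 0x11a604698), (nat_lit 6)), ((nat_lit 0x406406), (nat_lit 4)), ((nat_lit 0x81f), (nat_lit 2)),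 ((nat_lit 32), (nat_lit 1)), ((nat_lit 0), (nat_lit 0)), ((nat_lit 0), (nat_lit 0))] (nat_lit 0xac8ac765e6443ba691a6d5814d54eeac63bf58043d42a43b3623ac59e2fe9ba0960900930a2),
.c (nat_lit 1) (nat_lit 0x15a2),
.i (nat_lit 3) (nat_lit 99) [((nat_lit 6), (nat_lit 1)), ((nat_lit 3), (nat_lit 1)), ((nat_lit 2), (nat_lit 1)), ((nat_lit 4), (nat_lit 1)), ((nat_lit 11), (nat_lit 1)), ((nat_lit 7), (nat_lit 1)), ((nat_lit 0x44e), (nat_lit 2)), ((nat_lit 10), (nat_lit 1)), ((nat_lit 9), (nat_lit 1)), ((nat_lit 20), (nat_lit 1)), ((nat_lit 0x6d1591), (nat_lit 4)), ((nat_lit 28), (nat_lit 1)), ((nat_lit 18), (nat_lit 1)), ((nat_lit 0x698), (nat_lit 2)), ((nat_lit 16), (nat_lit 1)), ((nat_lit 0x9c09c), (nat_lit 4)), ((nat_lit 0x9a4), (nat_lit 2)), ((nat_lit 0x9a602698), (nat_lit 6)), ((nat_lit 0x11a604698), (nat_lit 6)), ((nat_lit 0x406406), (nat_lit 4)), ((nat_lit 0x81f), (nat_lit 2)), ((nat_lit 32), (nat_lit 1)), ((nat_lit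 0), (nat_lit 0)), ((nat_lit 0), (nat_lit 0))] (nat_lit 0xac8ac765e6443ba691a6d5814d54eeac63bf58043d42a43b3623ac59e2fe9ba0960900930a2),
.c (nat_lit 1) (nat_lit 0x15a6),
.i (nat_lit 3) (nat_lit 105) [((nat_lit 6), (nat_lit 1)), ((nat_lit 3), (nat_lit 1)), ((nat_lit 2), (nat_lit 1)), ((nat_lit 4), (nat_lit 1)), ((nat_lit 11), (nat_lit 1)), ((nat_lit 7), (nat_lit 1)), ((nat_lit 0x44e), (nat_lit 2)), ((nat_lit 10), (nat_lit 1)), ((nat_lit 9), (nat_lit 1)), ((nat_lit 20), (nat_lit 1)), ((nat_lit 0x6d1591), (nat_lit 4)), ((nat_lit 28), (nat_lit 1)), ((nat_lit 18), (nat_lit 1)), ((nat_lit 0x698), (nat_lit 2)), ((nat_lit 16), (nat_lit 1)), ((nat_lit 0x9c09c), (nat_lit 4)), ((nat_lit 0x9a4), (nat_lit 2)), ((nat_lit 0x9a602698), (nat_lit 6)), ((nat_lit 0x11a604698), (nat_lit 6)), ((nat_lit 0x406406), (nat_lit 4)), ((nat_lit 0x81f), (nat_lit 2)), ((nat_lit 32), (nat_lit 1)), ((nat_lit 0), (nat_lit 0)), ((nat_lit 0),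 (nat_lit 0))] (nat_lit 0xac8ac765e6443ba691a6d5814d54eeac63bf58043d42a43b3623ac59e2fe9ba0960900930a2),
.c (nat_lit 10) (nat_lit 0x1300609804a1702035016844035aa01a178303541413200099),
.i (nat_lit 3) (nat_lit 106) [((nat_lit 6), (nat_lit 1)), ((nat_lit 3), (nat_lit 1)), ((nat_lit 2), (nat_lit 1)), ((nat_lit 4), (nat_lit 1)), ((nat_lit 11), (nat_lit 1)), ((nat_lit 7), (nat_lit 1)), ((nat_lit 0x44e), (nat_lit 2)), ((nat_lit 10), (nat_lit 1)), ((nat_lit 9), (nat_lit 1)), ((nat_lit 20), (nat_lit 1)), ((nat_lit 0x6d1591), (nat_lit 4)), ((nat_lit 28), (nat_lit 1)), ((nat_lit 18), (nat_lit 1)), ((nat_lit 0x698), (nat_lit 2)), ((nat_lit 16), (nat_lit 1)), ((nat_lit 0x9c09c), (nat_lit 4)), ((nat_lit 0x9a4), (nat_lit 2)), ((nat_lit 0x9a602698), (nat_lit 6)), ((nat_lit 0x11a604698), (nat_lit 6)), ((nat_lit 0x406406), (nat_lit 4)), ((nat_lit 0x81f), (nat_lit 2)), ((nat_lit 32), (nat_lit 1)), ((nat_lit 0), (nat_lit 0)),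 ((nat_lit 0), (nat_lit 0))] (nat_lit 0xac8ac765e6443ba691a6d5814d54eeac63bf58043d42a43b3623ac59e2fe9ba0960900930a2),
.c (nat_lit 38) (nat_lit 0x29200a0920169c0382481a8e804f760804902d1d018b280f4740369c0253e02812413474057bb0502602c12411474092ca0551d019a700f4f80802b04d6bc2d11e140b70926d851654581261005707043830264140ea080870304c8101d404132000b7),
.i (nat_lit 3) (nat_lit 108) [((nat_lit 6), (nat_lit 1)), ((nat_lit 3), (nat_lit 1)), ((nat_lit 2), (nat_lit 1)), ((nat_lit 4), (nat_lit 1)), ((nat_lit 11), (nat_lit 1)), ((nat_lit 7), (nat_lit 1)), ((nat_lit 0x44e), (nat_lit 2)), ((nat_lit 10), (nat_lit 1)), ((nat_lit 9), (nat_lit 1)), ((nat_lit 20), (nat_lit 1)), ((nat_lit 0x6d1591), (nat_lit 4)), ((nat_lit 28), (nat_lit 1)), ((nat_lit 18), (nat_lit 1)), ((nat_lit 0x698), (nat_lit 2)), ((nat_lit 16), (nat_lit 1)), ((nat_lit 0x9c09c), (nat_lit 4)), ((nat_lit 0x9a4), (nat_lit 2)), ((nat_lit 0x9a602698), (nat_lit 6)),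 ((nat_lit 0x11a604698), (nat_lit 6)), ((nat_lit 0x406406), (nat_lit 4)), ((nat_lit 0x81f), (nat_lit 2)), ((nat_lit 32), (nat_lit 1)), ((nat_lit 0), (nat_lit 0)), ((nat_lit 0), (nat_lit 0))] (nat_lit 0xac8ac765e6443ba691a6d5814d54eeac63bf58043d42a43b3623ac59e2fe9ba0960900930a2),
.c (nat_lit 1) (nat_lit 0x15b2),
.i (nat_lit 3) (nat_lit 120) [((nat_lit 6), (nat_lit 1)), ((nat_lit 3), (nat_lit 1)), ((nat_lit 2), (nat_lit 1)), ((nat_lit 4), (nat_lit 1)), ((nat_lit 11), (nat_lit 1)), ((nat_lit 7), (nat_lit 1)), ((nat_lit 0x44e), (nat_lit 2)), ((nat_lit 10), (nat_lit 1)), ((nat_lit 9), (nat_lit 1)), ((nat_lit 20), (nat_lit 1)), ((nat_lit 0x6d1591), (nat_lit 4)), ((nat_lit 28), (nat_lit 1)), ((nat_lit 18), (nat_lit 1)), ((nat_lit 0x698), (nat_lit 2)), ((nat_lit 16), (nat_lit 1)), ((nat_lit 0x9c09c), (nat_lit 4)), ((nat_lit 0x9a4), (nat_lit 2)), ((nat_lit 0x9a602698), (nat_lit 6)), ((nat_lit 0x11a604698), (nat_lit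 6)), ((nat_lit 0x406406), (nat_lit 4)), ((nat_lit 0x81f), (nat_lit 2)), ((nat_lit 32), (nat_lit 1)), ((nat_lit 0), (nat_lit 0)), ((nat_lit 0), (nat_lit 0))] (nat_lit 0xac8ac765e6443ba691a6d5814d54eeac63bf58043d42a43b3623ac59e2fe9ba0960900930a2),
.c (nat_lit 2) (nat_lit 0x2b6c060cf),
.i (nat_lit 3) (nat_lit 121) [((nat_lit 6), (nat_lit 1)), ((nat_lit 3), (nat_lit 1)), ((nat_lit 2), (nat_lit 1)), ((nat_lit 4), (nat_lit 1)), ((nat_lit 11), (nat_lit 1)), ((nat_lit 7), (nat_lit 1)), ((nat_lit 0x44e), (nat_lit 2)), ((nat_lit 10), (nat_lit 1)), ((nat_lit 9), (nat_lit 1)), ((nat_lit 20), (nat_lit 1)), ((nat_lit 0x6d1591), (nat_lit 4)), ((nat_lit 28), (nat_lit 1)), ((nat_lit 18), (nat_lit 1)), ((nat_lit 0x698), (nat_lit 2)), ((nat_lit 16), (nat_lit 1)), ((nat_lit 0x9c09c), (nat_lit 4)), ((nat_lit 0x9a4), (nat_lit 2)), ((nat_lit 0x9a602698), (nat_lit 6)), ((nat_lit 0x11a604698), (nat_lit 6)), ((nat_lit 0x406406),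 (nat_lit 4)), ((nat_lit 0x81f), (nat_lit 2)), ((nat_lit 32), (nat_lit 1)), ((nat_lit 0), (nat_lit 0)), ((nat_lit 0), (nat_lit 0))] (nat_lit 0xac8ac765e6443ba691a6d5814d54eeac63bf58043d42a43b3623ac59e2fe9ba0960900930a2),
.c (nat_lit 4) (nat_lit 0x104c0150b802b7406099),
.i (nat_lit 3) (nat_lit 124) [((nat_lit 6), (nat_lit 1)), ((nat_lit 3), (nat_lit 1)), ((nat_lit 2), (nat_lit 1)), ((nat_lit 4), (nat_lit 1)), ((nat_lit 11), (nat_lit 1)), ((nat_lit 7), (nat_lit 1)), ((nat_lit 0x44e), (nat_lit 2)), ((nat_lit 10), (nat_lit 1)), ((nat_lit 9), (nat_lit 1)), ((nat_lit 20), (nat_lit 1)), ((nat_lit 0x6d1591), (nat_lit 4)), ((nat_lit 28), (nat_lit 1)), ((nat_lit 18), (nat_lit 1)), ((nat_lit 0x698), (nat_lit 2)), ((nat_lit 16), (nat_lit 1)), ((nat_lit 0x9c09c), (nat_lit 4)), ((nat_lit 0x9a4), (nat_lit 2)), ((nat_lit 0x9a602698), (nat_lit 6)), ((nat_lit 0x11a604698), (nat_lit 6)), ((nat_lit 0x406406), (nat_lit 4)),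 ((nat_lit 0x81f), (nat_lit 2)), ((nat_lit 32), (nat_lit 1)), ((nat_lit 0), (nat_lit 0)), ((nat_lit 0), (nat_lit 0))] (nat_lit 0xac8ac765e6443ba691a6d5814d54eeac63bf58043d42a43b3623ac59e2fe9ba0960900930a2),
.c (nat_lit 10) (nat_lit 0x40b8061080408a0156f80a72610115070848302ac040ba0009f),
.i (nat_lit 3) (nat_lit 125) [((nat_lit 6), (nat_lit 1)), ((nat_lit 3), (nat_lit 1)), ((nat_lit 2), (nat_lit 1)), ((nat_lit 4), (nat_lit 1)), ((nat_lit 11), (nat_lit 1)), ((nat_lit 7), (nat_lit 1)), ((nat_lit 0x44e), (nat_lit 2)), ((nat_lit 10), (nat_lit 1)), ((nat_lit 9), (nat_lit 1)), ((nat_lit 20), (nat_lit 1)), ((nat_lit 0x6d1591), (nat_lit 4)), ((nat_lit 28), (nat_lit 1)), ((nat_lit 18), (nat_lit 1)), ((nat_lit 0x698), (nat_lit 2)), ((nat_lit 16), (nat_lit 1)), ((nat_lit 0x9c09c), (nat_lit 4)), ((nat_lit 0x9a4), (nat_lit 2)), ((nat_lit 0x9a602698), (nat_lit 6)), ((nat_lit 0x11a604698), (nat_lit 6)), ((nat_lit 0x406406),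 (nat_lit 4)), ((nat_lit 0x81f), (nat_lit 2)), ((nat_lit 32), (nat_lit 1)), ((nat_lit 0), (nat_lit 0)), ((nat_lit 0), (nat_lit 0))] (nat_lit 0xac8ac765e6443ba691a6d5814d54eeac63bf58043d42a43b3623ac59e2fe9ba0960900930a2),
.c (nat_lit 1) (nat_lit 0x15c2),
.i (nat_lit 3) (nat_lit 127) [((nat_lit 6), (nat_lit 1)), ((nat_lit 3), (nat_lit 1)), ((nat_lit 2), (nat_lit 1)), ((nat_lit 4), (nat_lit 1)), ((nat_lit 11), (nat_lit 1)), ((nat_lit 7), (nat_lit 1)), ((nat_lit 0x44e), (nat_lit 2)), ((nat_lit 10), (nat_lit 1)), ((nat_lit 9), (nat_lit 1)), ((nat_lit 20), (nat_lit 1)), ((nat_lit 0x6d1591), (nat_lit 4)), ((nat_lit 28), (nat_lit 1)), ((nat_lit 18), (nat_lit 1)), ((nat_lit 0x698), (nat_lit 2)), ((nat_lit 16), (nat_lit 1)), ((nat_lit 0x9c09c), (nat_lit 4)), ((nat_lit 0x9a4), (nat_lit 2)), ((nat_lit 0x9a602698), (nat_lit 6)), ((nat_lit 0x11a604698), (nat_lit 6)), ((nat_lit 0x406406), (nat_lit 4)), ((nat_lit 0x81f),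 (nat_lit 2)), ((nat_lit 32), (nat_lit 1)), ((nat_lit 0), (nat_lit 0)), ((nat_lit 0), (nat_lit 0))] (nat_lit 0xac8ac765e6443ba691a6d5814d54eeac63bf58043d42a43b3623ac59e2fe9ba0960900930a2),
.c (nat_lit 12) (nat_lit 0x104c000d10141a8035c604255818d14101320e0d50604f8282641013e00099),
.i (nat_lit 3) (nat_lit 128) [((nat_lit 6), (nat_lit 1)), ((nat_lit 3), (nat_lit 1)), ((nat_lit 2), (nat_lit 1)), ((nat_lit 4), (nat_lit 1)), ((nat_lit 11), (nat_lit 1)), ((nat_lit 7), (nat_lit 1)), ((nat_lit 0x44e), (nat_lit 2)), ((nat_lit 10), (nat_lit 1)), ((nat_lit 9), (nat_lit 1)), ((nat_lit 20), (nat_lit 1)), ((nat_lit 0x6d1591), (nat_lit 4)), ((nat_lit 28), (nat_lit 1)), ((nat_lit 18), (nat_lit 1)), ((nat_lit 0x698), (nat_lit 2)), ((nat_lit 16), (nat_lit 1)), ((nat_lit 0x9c09c), (nat_lit 4)), ((nat_lit 0x9a4), (nat_lit 2)), ((nat_lit 0x9a602698), (nat_lit 6)), ((nat_lit 0x11a604698), (nat_lit 6)), ((nat_lit 0x406406), (nat_lit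 4)), ((nat_lit 0x81f), (nat_lit 2)), ((nat_lit 32), (nat_lit 1)), ((nat_lit 0), (nat_lit 0)), ((nat_lit 0), (nat_lit 0))] (nat_lit 0xac8ac765e6443ba691a6d5814d54eeac63bf58043d42a43b3623ac59e2fe9ba0960900930a2),
.c (nat_lit 2) (nat_lit 0x2b9404099),
.i (nat_lit 3) (nat_lit 129) [((nat_lit 6), (nat_lit 1)), ((nat_lit 3), (nat_lit 1)), ((nat_lit 2), (nat_lit 1)), ((nat_lit 4), (nat_lit 1)), ((nat_lit 11), (nat_lit 1)), ((nat_lit 7), (nat_lit 1)), ((nat_lit 0x44e), (nat_lit 2)), ((nat_lit 10), (nat_lit 1)), ((nat_lit 9), (nat_lit 1)), ((nat_lit 20), (nat_lit 1)), ((nat_lit 0x6d1591), (nat_lit 4)), ((nat_lit 28), (nat_lit 1)), ((nat_lit 18), (nat_lit 1)), ((nat_lit 0x698), (nat_lit 2)), ((nat_lit 16), (nat_lit 1)), ((nat_lit 0x9c09c), (nat_lit 4)), ((nat_lit 0x9a4), (nat_lit 2)), ((nat_lit 0x9a602698), (nat_lit 6)), ((nat_lit 0x11a604698), (nat_lit 6)), ((nat_lit 0x406406), (nat_lit 4)), ((nat_lit 0x81f), (nat_lit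 2)), ((nat_lit 32), (nat_lit 1)), ((nat_lit 0), (nat_lit 0)), ((nat_lit 0), (nat_lit 0))] (nat_lit 0xac8ac765e6443ba691a6d5814d54eeac63bf58043d42a43b3623ac59e2fe9ba0960900930a2),
.c (nat_lit 1) (nat_lit 0x15ce),
.i (nat_lit 3) (nat_lit 130) [((nat_lit 6), (nat_lit 1)), ((nat_lit 3), (nat_lit 1)), ((nat_lit 2), (nat_lit 1)), ((nat_lit 4), (nat_lit 1)), ((nat_lit 11), (nat_lit 1)), ((nat_lit 7), (nat_lit 1)), ((nat_lit 0x44e), (nat_lit 2)), ((nat_lit 10), (nat_lit 1)), ((nat_lit 9), (nat_lit 1)), ((nat_lit 20), (nat_lit 1)), ((nat_lit 0x6d1591), (nat_lit 4)), ((nat_lit 28), (nat_lit 1)), ((nat_lit 18), (nat_lit 1)), ((nat_lit 0x698), (nat_lit 2)), ((nat_lit 16), (nat_lit 1)), ((nat_lit 0x9c09c), (nat_lit 4)), ((nat_lit 0x9a4), (nat_lit 2)), ((nat_lit 0x9a602698), (nat_lit 6)), ((nat_lit 0x11a604698), (nat_lit 6)), ((nat_lit 0x406406), (nat_lit 4)), ((nat_lit 0x81f), (nat_lit 2)), ((nat_lit 32), (nat_lit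 1)), ((nat_lit 0), (nat_lit 0)), ((nat_lit 0), (nat_lit 0))] (nat_lit 0xac8ac765e6443ba691a6d5814d54eeac63bf58043d42a43b3623ac59e2fe9ba0960900930a2),
.c (nat_lit 2) (nat_lit 0x6ba600099),
.i (nat_lit 3) (nat_lit 131) [((nat_lit 6), (nat_lit 1)), ((nat_lit 3), (nat_lit 1)), ((nat_lit 2), (nat_lit 1)), ((nat_lit 4), (nat_lit 1)), ((nat_lit 11), (nat_lit 1)), ((nat_lit 7), (nat_lit 1)), ((nat_lit 0x44e), (nat_lit 2)), ((nat_lit 10), (nat_lit 1)), ((nat_lit 9), (nat_lit 1)), ((nat_lit 20), (nat_lit 1)), ((nat_lit 0x6d1591), (nat_lit 4)), ((nat_lit 28), (nat_lit 1)), ((nat_lit 18), (nat_lit 1)), ((nat_lit 0x698), (nat_lit 2)), ((nat_lit 16), (nat_lit 1)), ((nat_lit 0x9c09c), (nat_lit 4)), ((nat_lit 0x9a4), (nat_lit 2)), ((nat_lit 0x9a602698), (nat_lit 6)), ((nat_lit 0x11a604698), (nat_lit 6)), ((nat_lit 0x406406), (nat_lit 4)), ((nat_lit 0x81f), (nat_lit 2)), ((nat_lit 32), (nat_lit 1)), ((nat_lit 0), (nat_lit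 0)), ((nat_lit 0), (nat_lit 0))] (nat_lit 0xac8ac765e6443ba691a6d5814d54eeac63bf58043d42a43b3623ac59e2fe9ba0960900930a2),
.c (nat_lit 15) (nat_lit 0x30e081566c0359c031c200575806a721411b090798404541c0f60c0ed0508d8203b40c0f6040f3),
.i (nat_lit 3) (nat_lit 132) [((nat_lit 6), (nat_lit 1)), ((nat_lit 3), (nat_lit 1)), ((nat_lit 2), (nat_lit 1)), ((nat_lit 4), (nat_lit 1)), ((nat_lit 11), (nat_lit 1)), ((nat_lit 7), (nat_lit 1)), ((nat_lit 0x44e), (nat_lit 2)), ((nat_lit 10), (nat_lit 1)), ((nat_lit 9), (nat_lit 1)), ((nat_lit 20), (nat_lit 1)), ((nat_lit 0x6d1591), (nat_lit 4)), ((nat_lit 28), (nat_lit 1)), ((nat_lit 18), (nat_lit 1)), ((nat_lit 0x698), (nat_lit 2)), ((nat_lit 16), (nat_lit 1)), ((nat_lit 0x9c09c), (nat_lit 4)), ((nat_lit 0x9a4), (nat_lit 2)), ((nat_lit 0x9a602698), (nat_lit 6)), ((nat_lit 0x11a604698), (nat_lit 6)), ((nat_lit 0x406406), (nat_lit 4)), ((nat_lit 0x81f), (nat_lit 2)), ((nat_lit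 32), (nat_lit 1)), ((nat_lit 0), (nat_lit 0)), ((nat_lit 0), (nat_lit 0))] (nat_lit 0xac8ac765e6443ba691a6d5814d54eeac63bf58043d42a43b3623ac59e2fe9ba0960900930a2),
.c (nat_lit 20) (nat_lit 0x104901001010fd40b568083f502042014228075da03a8f878454382121a0ed0c04c85824c28132120ed080498100140412600075),
.i (nat_lit 3) (nat_lit 133) [((nat_lit 6), (nat_lit 1)), ((nat_lit 3), (nat_lit 1)), ((nat_lit 2), (nat_lit 1)), ((nat_lit 4), (nat_lit 1)), ((nat_lit 11), (nat_lit 1)), ((nat_lit 7), (nat_lit 1)), ((nat_lit 0x44e), (nat_lit 2)), ((nat_lit 10), (nat_lit 1)), ((nat_lit 9), (nat_lit 1)), ((nat_lit 20), (nat_lit 1)), ((nat_lit 0x6d1591), (nat_lit 4)), ((nat_lit 28), (nat_lit 1)), ((nat_lit 18), (nat_lit 1)), ((nat_lit 0x698), (nat_lit 2)), ((nat_lit 16), (nat_lit 1)), ((nat_lit 0x9c09c), (nat_lit 4)), ((nat_lit 0x9a4), (nat_lit 2)), ((nat_lit 0x9a602698), (nat_lit 6)), ((nat_lit 0x11a604698), (nat_lit 6)), ((nat_lit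 0x406406), (nat_lit 4)), ((nat_lit 0x81f), (nat_lit 2)), ((nat_lit 32), (nat_lit 1)), ((nat_lit 0), (nat_lit 0)), ((nat_lit 0), (nat_lit 0))] (nat_lit 0xac8ac765e6443ba691a6d5814d54eeac63bf58043d42a43b3623ac59e2fe9ba0960900930a2),
.c (nat_lit 1) (nat_lit 0x15df),
.i (nat_lit 3) (nat_lit 136) [((nat_lit 6), (nat_lit 1)), ((nat_lit 3), (nat_lit 1)), ((nat_lit 2), (nat_lit 1)), ((nat_lit 4), (nat_lit 1)), ((nat_lit 11), (nat_lit 1)), ((nat_lit 7), (nat_lit 1)), ((nat_lit 0x44e), (nat_lit 2)), ((nat_lit 10), (nat_lit 1)), ((nat_lit 9), (nat_lit 1)), ((nat_lit 20), (nat_lit 1)), ((nat_lit 0x6d1591), (nat_lit 4)), ((nat_lit 28), (nat_lit 1)), ((nat_lit 18), (nat_lit 1)), ((nat_lit 0x698), (nat_lit 2)), ((nat_lit 16), (nat_lit 1)), ((nat_lit 0x9c09c), (nat_lit 4)), ((nat_lit 0x9a4), (nat_lit 2)), ((nat_lit 0x9a602698), (nat_lit 6)), ((nat_lit 0x11a604698), (nat_lit 6)), ((nat_lit 0x406406), (nat_lit 4)), ((nat_lit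 0x81f), (nat_lit 2)), ((nat_lit 32), (nat_lit 1)), ((nat_lit 0), (nat_lit 0)), ((nat_lit 0), (nat_lit 0))] (nat_lit 0xac8ac765e6443ba691a6d5814d54eeac63bf58043d42a43b3623ac59e2fe9ba0960900930a2),
.c (nat_lit 10) (nat_lit 0x13006098041af02035016a14035e2011af8283541013200099),
.i (nat_lit 3) (nat_lit 139) [((nat_lit 6), (nat_lit 1)), ((nat_lit 3), (nat_lit 1)), ((nat_lit 2), (nat_lit 1)), ((nat_lit 4), (nat_lit 1)), ((nat_lit 11), (nat_lit 1)), ((nat_lit 7), (nat_lit 1)), ((nat_lit 0x44e), (nat_lit 2)), ((nat_lit 10), (nat_lit 1)), ((nat_lit 9), (nat_lit 1)), ((nat_lit 20), (nat_lit 1)), ((nat_lit 0x6d1591), (nat_lit 4)), ((nat_lit 28), (nat_lit 1)), ((nat_lit 18), (nat_lit 1)), ((nat_lit 0x698), (nat_lit 2)), ((nat_lit 16), (nat_lit 1)), ((nat_lit 0x9c09c), (nat_lit 4)), ((nat_lit 0x9a4), (nat_lit 2)), ((nat_lit 0x9a602698), (nat_lit 6)), ((nat_lit 0x11a604698), (nat_lit 6)), ((nat_lit 0x406406), (nat_lit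 4)), ((nat_lit 0x81f), (nat_lit 2)), ((nat_lit 32), (nat_lit 1)), ((nat_lit 0), (nat_lit 0)), ((nat_lit 0), (nat_lit 0))] (nat_lit 0xac8ac765e6443ba691a6d5814d54eeac63bf58043d42a43b3623ac59e2fe9ba0960900930a2),
.c (nat_lit 8) (nat_lit 0x430203c806bcc04d0f0168981b5f4101e600087),
.i (nat_lit 3) (nat_lit 141) [((nat_lit 6), (nat_lit 1)), ((nat_lit 3), (nat_lit 1)), ((nat_lit 2), (nat_lit 1)), ((nat_lit 4), (nat_lit 1)), ((nat_lit 11), (nat_lit 1)), ((nat_lit 7), (nat_lit 1)), ((nat_lit 0x44e), (nat_lit 2)), ((nat_lit 10), (nat_lit 1)), ((nat_lit 9), (nat_lit 1)), ((nat_lit 20), (nat_lit 1)), ((nat_lit 0x6d1591), (nat_lit 4)), ((nat_lit 28), (nat_lit 1)), ((nat_lit 18), (nat_lit 1)), ((nat_lit 0x698), (nat_lit 2)), ((nat_lit 16), (nat_lit 1)), ((nat_lit 0x9c09c), (nat_lit 4)), ((nat_lit 0x9a4), (nat_lit 2)), ((nat_lit 0x9a602698), (nat_lit 6)), ((nat_lit 0x11a604698), (nat_lit 6)), ((nat_lit 0x406406), (nat_lit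 4)), ((nat_lit 0x81f), (nat_lit 2)), ((nat_lit 32), (nat_lit 1)), ((nat_lit 0), (nat_lit 0)), ((nat_lit 0), (nat_lit 0))] (nat_lit 0xac8ac765e6443ba691a6d5814d54eeac63bf58043d42a43b3623ac59e2fe9ba0960900930a2),
.c (nat_lit 42) (nat_lit 0x4130040041314308c2e04a4901d0b80a04c048d10289541235c0808404aad80ebd40d1e90506e82544c0c1ba0b525083d784d794286be160db0a8fe84c92446172200751003d878d1448212220d51004c8781bc380f61a0750c0378581ec2816e1207508043810014041320005d),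
.i (nat_lit 3) (nat_lit 142) [((nat_lit 6), (nat_lit 1)), ((nat_lit 3), (nat_lit 1)), ((nat_lit 2), (nat_lit 1)), ((nat_lit 4), (nat_lit 1)), ((nat_lit 11), (nat_lit 1)), ((nat_lit 7), (nat_lit 1)), ((nat_lit 0x44e), (nat_lit 2)), ((nat_lit 10), (nat_lit 1)), ((nat_lit 9), (nat_lit 1)), ((nat_lit 20), (nat_lit 1)), ((nat_lit 0x6d1591), (nat_lit 4)), ((nat_lit 28), (nat_lit 1)), ((nat_lit 18), (nat_lit 1)), ((nat_lit 0x698), (nat_lit 2)), ((nat_lit 16), (nat_lit 1)), ((nat_lit 0x9c09c), (nat_lit 4)), ((nat_lit 0x9a4), (nat_lit 2)), ((nat_lit 0x9a602698), (nat_lit 6)), ((nat_lit 0x11a604698), (nat_lit 6)), ((nat_lit 0x406406), (nat_lit 4)), ((nat_lit 0x81f), (nat_lit 2)), ((nat_lit 32), (nat_lit 1)), ((nat_lit 0), (nat_lit 0)), ((nat_lit 0), (nat_lit 0))] (nat_lit 0xac8ac765e6443ba691a6d5814d54eeac63bf58043d42a43b3623ac59e2fe9ba0960900930a2),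
.c (nat_lit 13) (nat_lit 0x35680458901b6400962402d90020670057b806b060c0cf0504c82024c0c13204093),
.i (nat_lit 3) (nat_lit 143) [((nat_lit 6), (nat_lit 1)), ((nat_lit 3), (nat_lit 1)), ((nat_lit 2), (nat_lit 1)), ((nat_lit 4), (nat_lit 1)), ((nat_lit 11), (nat_lit 1)), ((nat_lit 7), (nat_lit 1)), ((nat_lit 0x44e), (nat_lit 2)), ((nat_lit 10), (nat_lit 1)), ((nat_lit 9), (nat_lit 1)), ((nat_lit 20), (nat_lit 1)), ((nat_lit 0x6d1591), (nat_lit 4)), ((nat_lit 28), (nat_lit 1)), ((nat_lit 18), (nat_lit 1)), ((nat_lit 0x698), (nat_lit 2)), ((nat_lit 16), (nat_lit 1)), ((nat_lit 0x9c09c), (nat_lit 4)), ((nat_lit 0x9a4), (nat_lit 2)), ((nat_lit 0x9a602698), (nat_lit 6)), ((nat_lit 0x11a604698), (nat_lit 6)), ((nat_lit 0x406406), (nat_lit 4)), ((nat_lit 0x81f), (nat_lit 2)), ((nat_lit 32), (nat_lit 1)), ((nat_lit 0), (nat_lit 0)), ((nat_lit 0), (nat_lit 0))] (nat_lit 0xac8ac765e6443ba691a6d5814d54eeac63bf58043d42a43b3623ac59e2fe9ba0960900930a2),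
.c (nat_lit 4) (nat_lit 0x4300d1d006be600087),
.i (nat_lit 3) (nat_lit 146) [((nat_lit 6), (nat_lit 1)), ((nat_lit 3), (nat_lit 1)), ((nat_lit 2), (nat_lit 1)), ((nat_lit 4), (nat_lit 1)), ((nat_lit 11), (nat_lit 1)), ((nat_lit 7), (nat_lit 1)), ((nat_lit 0x44e), (nat_lit 2)), ((nat_lit 10), (nat_lit 1)), ((nat_lit 9), (nat_lit 1)), ((nat_lit 20), (nat_lit 1)), ((nat_lit 0x6d1591), (nat_lit 4)), ((nat_lit 28), (nat_lit 1)), ((nat_lit 18), (nat_lit 1)), ((nat_lit 0x698), (nat_lit 2)), ((nat_lit 16), (nat_lit 1)), ((nat_lit 0x9c09c), (nat_lit 4)), ((nat_lit 0x9a4), (nat_lit 2)), ((nat_lit 0x9a602698), (nat_lit 6)), ((nat_lit 0x11a604698), (nat_lit 6)), ((nat_lit 0x406406), (nat_lit 4)), ((nat_lit 0x81f), (nat_lit 2)), ((nat_lit 32), (nat_lit 1)), ((nat_lit 0), (nat_lit 0)), ((nat_lit 0), (nat_lit 0))] (nat_lit 0xac8ac765e6443ba691a6d5814d54eeac63bf58043d42a43b3623ac59e2fe9ba0960900930a2),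
.c (nat_lit 1) (nat_lit 0x15f6),
.i (nat_lit 3) (nat_lit 147) [((nat_lit 6), (nat_lit 1)), ((nat_lit 3), (nat_lit 1)), ((nat_lit 2), (nat_lit 1)), ((nat_lit 4), (nat_lit 1)), ((nat_lit 11), (nat_lit 1)), ((nat_lit 7), (nat_lit 1)), ((nat_lit 0x44e), (nat_lit 2)), ((nat_lit 10), (nat_lit 1)), ((nat_lit 9), (nat_lit 1)), ((nat_lit 20), (nat_lit 1)), ((nat_lit 0x6d1591), (nat_lit 4)), ((nat_lit 28), (nat_lit 1)), ((nat_lit 18), (nat_lit 1)), ((nat_lit 0x698), (nat_lit 2)), ((nat_lit 16), (nat_lit 1)), ((nat_lit 0x9c09c), (nat_lit 4)), ((nat_lit 0x9a4), (nat_lit 2)), ((nat_lit 0x9a602698), (nat_lit 6)), ((nat_lit 0x11a604698), (nat_lit 6)), ((nat_lit 0x406406), (nat_lit 4)), ((nat_lit 0x81f), (nat_lit 2)), ((nat_lit 32), (nat_lit 1)), ((nat_lit 0), (nat_lit 0)), ((nat_lit 0), (nat_lit 0))] (nat_lit 0xac8ac765e6443ba691a6d5814d54eeac63bf58043d42a43b3623ac59e2fe9ba0960900930a2),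
.c (nat_lit 2) (nat_lit 0x2bf404099),
.i (nat_lit 3) (nat_lit 148) [((nat_lit 6), (nat_lit 1)), ((nat_lit 3), (nat_lit 1)), ((nat_lit 2), (nat_lit 1)), ((nat_lit 4), (nat_lit 1)), ((nat_lit 11), (nat_lit 1)), ((nat_lit 7), (nat_lit 1)), ((nat_lit 0x44e), (nat_lit 2)), ((nat_lit 10), (nat_lit 1)), ((nat_lit 9), (nat_lit 1)), ((nat_lit 20), (nat_lit 1)), ((nat_lit 0x6d1591), (nat_lit 4)), ((nat_lit 28), (nat_lit 1)), ((nat_lit 18), (nat_lit 1)), ((nat_lit 0x698), (nat_lit 2)), ((nat_lit 16), (nat_lit 1)), ((nat_lit 0x9c09c), (nat_lit 4)), ((nat_lit 0x9a4), (nat_lit 2)), ((nat_lit 0x9a602698), (nat_lit 6)), ((nat_lit 0x11a604698), (nat_lit 6)), ((nat_lit 0x406406), (nat_lit 4)), ((nat_lit 0x81f), (nat_lit 2)), ((nat_lit 32), (nat_lit 1)), ((nat_lit 0), (nat_lit 0)), ((nat_lit 0), (nat_lit 0))] (nat_lit 0xac8ac765e6443ba691a6d5814d54eeac63bf58043d42a43b3623ac59e2fe9ba0960900930a2)]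

theorem c25 : chk db th.hy ths 2816 J25 2768 = true := by decide +kernel

set_option maxRecDepth 100000 in
/-- Justifications. -/
noncomputable def J26 : List Js := [
.c (nat_lit 4) (nat_lit 0x1061003e4806bfc000c3),
.i (nat_lit 3) (nat_lit 152) [((nat_lit 6), (nat_lit 1)), ((nat_lit 3), (nat_lit 1)), ((nat_lit 2), (nat_lit 1)), ((nat_lit 4), (nat_lit 1)), ((nat_lit 11), (nat_lit 1)), ((nat_lit 7), (nat_lit 1)), ((nat_lit 0x44e), (nat_lit 2)), ((nat_lit 10), (nat_lit 1)), ((nat_lit 9), (nat_lit 1)), ((nat_lit 20), (nat_lit 1)), ((nat_lit 0x6d1591), (nat_lit 4)), ((nat_lit 28), (nat_lit 1)), ((nat_lit 18), (nat_lit 1)), ((nat_lit 0x698), (nat_lit 2)), ((nat_lit 16), (nat_lit 1)), ((nat_lit 0x9c09c), (nat_lit 4)), ((nat_lit 0x9a4), (nat_lit 2)), ((nat_lit 0x9a602698), (nat_lit 6)), ((nat_lit 0x11a604698), (nat_lit 6)), ((nat_lit 0x406406), (nat_lit 4)), ((nat_lit 0x81f), (nat_lit 2)), ((nat_lit 32), (nat_lit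 1)), ((nat_lit 0), (nat_lit 0)), ((nat_lit 0), (nat_lit 0))] (nat_lit 0xac8ac765e6443ba691a6d5814d54eeac63bf58043d42a43b3623ac59e2fe9ba0960900930a2),
.c (nat_lit 1) (nat_lit 0x1602),
.i (nat_lit 3) (nat_lit 155) [((nat_lit 6), (nat_lit 1)), ((nat_lit 3), (nat_lit 1)), ((nat_lit 2), (nat_lit 1)), ((nat_lit 4), (nat_lit 1)), ((nat_lit 11), (nat_lit 1)), ((nat_lit 7), (nat_lit 1)), ((nat_lit 0x44e), (nat_lit 2)), ((nat_lit 10), (nat_lit 1)), ((nat_lit 9), (nat_lit 1)), ((nat_lit 20), (nat_lit 1)), ((nat_lit 0x6d1591), (nat_lit 4)), ((nat_lit 28), (nat_lit 1)), ((nat_lit 18), (nat_lit 1)), ((nat_lit 0x698), (nat_lit 2)), ((nat_lit 16), (nat_lit 1)), ((nat_lit 0x9c09c), (nat_lit 4)), ((nat_lit 0x9a4), (nat_lit 2)), ((nat_lit 0x9a602698), (nat_lit 6)), ((nat_lit 0x11a604698), (nat_lit 6)), ((nat_lit 0x406406), (nat_lit 4)), ((nat_lit 0x81f), (nat_lit 2)), ((nat_lit 32), (nat_lit 1)), ((nat_lit 0), (nat_lit 0)),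 ((nat_lit 0), (nat_lit 0))] (nat_lit 0xac8ac765e6443ba691a6d5814d54eeac63bf58043d42a43b3623ac59e2fe9ba0960900930a2),
.c (nat_lit 5) (nat_lit 0x207402b030147b4040ea0007b),
.c (nat_lit 3) (nat_lit 0x89c002c00006b2),
.c (nat_lit 3) (nat_lit 0x2ce806c02040cf),
.c (nat_lit 7) (nat_lit 0x82181010c0b5cc026830157340410e00099),
.c (nat_lit 9) (nat_lit 0x60920407602026016bd0075f4043f501d7a00abb800f76),
.c (nat_lit 4) (nat_lit 0x2079003de806b8a040f3),
.c (nat_lit 7) (nat_lit 0x28308020a4055f104afa81824c0c132060c3),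
.c (nat_lit 4) (nat_lit 0x106d0082780abc0011b0),
.c (nat_lit 3) (nat_lit 0x81e80ac10011ec),
.c (nat_lit 5) (nat_lit 0x40da01af00081e80ac1001202),
.c (nat_lit 3) (nat_lit 0x1036806bc80121c),
.c (nat_lit 12) (nat_lit 0x4301821812bf80322c01afe8222ec0eb82090570704f8302641415600087),
.c (nat_lit 9) (nat_lit 0x86040550147e006478055fd019208282641015600087),
.c (nat_lit 4) (nat_lit 0x10550082780ab8001392),
.c (nat_lit 4) (nat_lit 0x50550241400ebf00140e),
.c (nat_lit 6) (nat_lit 0xc13c080da03af00181e812c100141a),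
.c (nat_lit 6) (nat_lit 0x140f40c0da05b040282781abc00142a),
.c (nat_lit 10) (nat_lit 0x35b701c09e0fa6305d83825d1c0c8ae04a630336e00ac1c014fa),
.c (nat_lit 16) (nat_lit 0x104c0157a004124055f4033f50157a0040e8040920307601826012bd0055f4033f50157a006bb801506),
.c (nat_lit 6) (nat_lit 0x3c16c1e086101430081700abd801512),
.c (nat_lit 33) (nat_lit 0xd900668b0082d80413c04d160304c02027805a2c04098034570081b80ab9006344041a3028d101868c0f5c801ae400d46406be2075f5020498102640eb92055f1010378157d40412602099080618382dc1813e000c3),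
.c (nat_lit 17) (nat_lit 0x20ec0104c0157a004124055f4033f50157a0040e8040920307601826012bd0055f4033f50157a006bb80151e),
.c (nat_lit 6) (nat_lit 0x14154095c000a9000d7040a0ae060ab),
.c (nat_lit 2) (nat_lit 0x16b8001522),
.c (nat_lit 22) (nat_lit 0x85cf0360921c73c0eac48701183a0921b0460e10b87ddbc4435621589100d5879cf036ede156230c56a06534c3435a1b03d0e39f07ab5001536),
.c (nat_lit 80) (nat_lit 0x186be0cd0b85da1c315bc1704f0c0d9860154335b4170490c177865cf0344881a04c0db5f06413030098170430c51d064b28355cc1bafe0e34386eb683609818afa0c97786abe82f5cc16b0d0b8260501302b628131a20a0d18546882409813b1408d73042c34220980eae60690c838130154740bae60583b02c130195e80aafa059fa82abd0135dc0ab0d0497782068c0e432080550358681e1600c092072ef0439e0149cc0c4e2072570404502021012ab606ae002b9e0107b406e7801279010ac0156c00cab20755002177816b4801540),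
.c (nat_lit 4) (nat_lit 0x104c0082480abe801582),
.c (nat_lit 27) (nat_lit 0x283081816c0209202afa01977812be80a5de0658903d2401c13c10d16030610136400ec600409801afa008248040dc0439c03af80257200c130055f402049008e700abe001584),
.c (nat_lit 4) (nat_lit 0x104c0082480abe801586),
.c (nat_lit 11) (nat_lit 0x82600816c0609806af402baf012bd0095a10304c8102dc04132000d5),
.c (nat_lit 4) (nat_lit 0xb04c0557d02aba8015b0),
.c (nat_lit 4) (nat_lit 0x704f04345806c60015c8),
.c (nat_lit 7) (nat_lit 0x103b008130075e801afa011fa806bd0015dc),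
.c (nat_lit 4) (nat_lit 0x104c0082480abe8015f0),
.c (nat_lit 0) (nat_lit 0),
.c (nat_lit 0) (nat_lit 0),
.c (nat_lit 0) (nat_lit 0),
.i (nat_lit 3) (nat_lit 89) [((nat_lit 6), (nat_lit 1)), ((nat_lit 1), (nat_lit 1)), ((nat_lit 2), (nat_lit 1)), ((nat_lit 4), (nat_lit 1)), ((nat_lit 11), (nat_lit 1)), ((nat_lit 5), (nat_lit 1)), ((nat_lit 0x44e), (nat_lit 2)), ((nat_lit 8), (nat_lit 1)), ((nat_lit 9), (nat_lit 1)), ((nat_lit 0x513), (nat_lit 2)), ((nat_lit 0x6d1591), (nat_lit 4)), ((nat_lit 0x75c), (nat_lit 2)), ((nat_lit 13), (nat_lit 1)), ((nat_lit 0x698), (nat_lit 2)), ((nat_lit 15), (nat_lit 1)), ((nat_lit 0x9d70275c), (nat_lit 6)), ((nat_lit 0x346346), (nat_lit 4)), ((nat_lit 0x9a602698), (nat_lit 6)), ((nat_lit 0x11a604698), (nat_lit 6)), ((nat_lit 0x18f18f), (nat_lit 4)), ((nat_lit 23), (nat_lit 1)), ((nat_lit 25), (nat_lit 1)), ((nat_lit 0x863c63c218f18f), (nat_lit 10)), ((nat_lit 0x1063c63c418f18f),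 (nat_lit 10))] (nat_lit 0xb28b273664c4b26691a6d9b34a8365ac63833c343d88943b3493ac3632fe80509609008f0a2),
.c (nat_lit 4) (nat_lit 0x105200464006ca6000a5),
.i (nat_lit 3) (nat_lit 108) [((nat_lit 6), (nat_lit 1)), ((nat_lit 1), (nat_lit 1)), ((nat_lit 2), (nat_lit 1)), ((nat_lit 4), (nat_lit 1)), ((nat_lit 11), (nat_lit 1)), ((nat_lit 5), (nat_lit 1)), ((nat_lit 0x44e), (nat_lit 2)), ((nat_lit 8), (nat_lit 1)), ((nat_lit 9), (nat_lit 1)), ((nat_lit 0x513), (nat_lit 2)), ((nat_lit 0x6d1591), (nat_lit 4)), ((nat_lit 0x75c), (nat_lit 2)), ((nat_lit 13), (nat_lit 1)), ((nat_lit 0x698), (nat_lit 2)), ((nat_lit 15), (nat_lit 1)), ((nat_lit 0x9d70275c), (nat_lit 6)), ((nat_lit 0x346346), (nat_lit 4)), ((nat_lit 0x9a602698), (nat_lit 6)), ((nat_lit 0x11a604698), (nat_lit 6)), ((nat_lit 0x18f18f), (nat_lit 4)), ((nat_lit 23), (nat_lit 1)), ((nat_lit 25), (nat_lit 1)), ((nat_lit 0x863c63c218f18f), (nat_lit 10)), ((nat_lit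 0x1063c63c418f18f), (nat_lit 10))] (nat_lit 0xb28b273664c4b26691a6d9b34a8365ac63833c343d88943b3493ac3632fe80509609008f0a2),
.c (nat_lit 4) (nat_lit 0x5200d958061aa000a5),
.i (nat_lit 3) (nat_lit 129) [((nat_lit 6), (nat_lit 1)), ((nat_lit 1), (nat_lit 1)), ((nat_lit 2), (nat_lit 1)), ((nat_lit 4), (nat_lit 1)), ((nat_lit 11), (nat_lit 1)), ((nat_lit 5), (nat_lit 1)), ((nat_lit 0x44e), (nat_lit 2)), ((nat_lit 8), (nat_lit 1)), ((nat_lit 9), (nat_lit 1)), ((nat_lit 0x513), (nat_lit 2)), ((nat_lit 0x6d1591), (nat_lit 4)), ((nat_lit 0x75c), (nat_lit 2)), ((nat_lit 13), (nat_lit 1)), ((nat_lit 0x698), (nat_lit 2)), ((nat_lit 15), (nat_lit 1)), ((nat_lit 0x9d70275c), (nat_lit 6)), ((nat_lit 0x346346), (nat_lit 4)), ((nat_lit 0x9a602698), (nat_lit 6)), ((nat_lit 0x11a604698), (nat_lit 6)), ((nat_lit 0x18f18f), (nat_lit 4)), ((nat_lit 23), (nat_lit 1)), ((nat_lit 25), (nat_lit 1)), ((nat_lit 0x863c63c218f18f),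 (nat_lit 10)), ((nat_lit 0x1063c63c418f18f), (nat_lit 10))] (nat_lit 0xb28b273664c4b26691a6d9b34a8365ac63833c343d88943b3493ac3632fe80509609008f0a2),
.c (nat_lit 4) (nat_lit 0x5061003eb006cb4000c3),
.i (nat_lit 3) (nat_lit 130) [((nat_lit 6), (nat_lit 1)), ((nat_lit 1), (nat_lit 1)), ((nat_lit 2), (nat_lit 1)), ((nat_lit 4), (nat_lit 1)), ((nat_lit 11), (nat_lit 1)), ((nat_lit 5), (nat_lit 1)), ((nat_lit 0x44e), (nat_lit 2)), ((nat_lit 8), (nat_lit 1)), ((nat_lit 9), (nat_lit 1)), ((nat_lit 0x513), (nat_lit 2)), ((nat_lit 0x6d1591), (nat_lit 4)), ((nat_lit 0x75c), (nat_lit 2)), ((nat_lit 13), (nat_lit 1)), ((nat_lit 0x698), (nat_lit 2)), ((nat_lit 15), (nat_lit 1)), ((nat_lit 0x9d70275c), (nat_lit 6)), ((nat_lit 0x346346), (nat_lit 4)), ((nat_lit 0x9a602698), (nat_lit 6)), ((nat_lit 0x11a604698), (nat_lit 6)), ((nat_lit 0x18f18f), (nat_lit 4)), ((nat_lit 23), (nat_lit 1)), ((nat_lit 25), (nat_lit 1)), ((nat_lit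 0x863c63c218f18f), (nat_lit 10)), ((nat_lit 0x1063c63c418f18f), (nat_lit 10))] (nat_lit 0xb28b273664c4b26691a6d9b34a8365ac63833c343d88943b3493ac3632fe80509609008f0a2),
.c (nat_lit 26) (nat_lit 0x413000db80404c028d8018b200e360082c8040398164e80e0e60506a033f501d1f010fd40947c0349d006cbe094d3036dc84839c201c20e0e7060708283541013200099),
.i (nat_lit 3) (nat_lit 136) [((nat_lit 6), (nat_lit 1)), ((nat_lit 1), (nat_lit 1)), ((nat_lit 2), (nat_lit 1)), ((nat_lit 4), (nat_lit 1)), ((nat_lit 11), (nat_lit 1)), ((nat_lit 5), (nat_lit 1)), ((nat_lit 0x44e), (nat_lit 2)), ((nat_lit 8), (nat_lit 1)), ((nat_lit 9), (nat_lit 1)), ((nat_lit 0x513), (nat_lit 2)), ((nat_lit 0x6d1591), (nat_lit 4)), ((nat_lit 0x75c), (nat_lit 2)), ((nat_lit 13), (nat_lit 1)), ((nat_lit 0x698), (nat_lit 2)), ((nat_lit 15), (nat_lit 1)), ((nat_lit 0x9d70275c), (nat_lit 6)), ((nat_lit 0x346346), (nat_lit 4)), ((nat_lit 0x9a602698), (nat_lit 6)),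 ((nat_lit 0x11a604698), (nat_lit 6)), ((nat_lit 0x18f18f), (nat_lit 4)), ((nat_lit 23), (nat_lit 1)), ((nat_lit 25), (nat_lit 1)), ((nat_lit 0x863c63c218f18f), (nat_lit 10)), ((nat_lit 0x1063c63c418f18f), (nat_lit 10))] (nat_lit 0xb28b273664c4b26691a6d9b34a8365ac63833c343d88943b3493ac3632fe80509609008f0a2),
.c (nat_lit 23) (nat_lit 0x368041a8040980305b02026016cc40c361051af83bf041abca0ed690876083830c206c20e35f097ea84542c301ce080990305b810264041aa000db),
.i (nat_lit 3) (nat_lit 144) [((nat_lit 6), (nat_lit 1)), ((nat_lit 1), (nat_lit 1)), ((nat_lit 2), (nat_lit 1)), ((nat_lit 4), (nat_lit 1)), ((nat_lit 11), (nat_lit 1)), ((nat_lit 5), (nat_lit 1)), ((nat_lit 0x44e), (nat_lit 2)), ((nat_lit 8), (nat_lit 1)), ((nat_lit 9), (nat_lit 1)), ((nat_lit 0x513), (nat_lit 2)), ((nat_lit 0x6d1591), (nat_lit 4)), ((nat_lit 0x75c), (nat_lit 2)), ((nat_lit 13), (nat_lit 1)), ((nat_lit 0x698), (nat_lit 2)), ((nat_lit 15),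 (nat_lit 1)), ((nat_lit 0x9d70275c), (nat_lit 6)), ((nat_lit 0x346346), (nat_lit 4)), ((nat_lit 0x9a602698), (nat_lit 6)), ((nat_lit 0x11a604698), (nat_lit 6)), ((nat_lit 0x18f18f), (nat_lit 4)), ((nat_lit 23), (nat_lit 1)), ((nat_lit 25), (nat_lit 1)), ((nat_lit 0x863c63c218f18f), (nat_lit 10)), ((nat_lit 0x1063c63c418f18f), (nat_lit 10))] (nat_lit 0xb28b273664c4b26691a6d9b34a8365ac63833c343d88943b3493ac3632fe80509609008f0a2),
.c (nat_lit 8) (nat_lit 0x2b01032006ccc02ed10606482821c1011a00057),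
.i (nat_lit 3) (nat_lit 154) [((nat_lit 6), (nat_lit 1)), ((nat_lit 1), (nat_lit 1)), ((nat_lit 2), (nat_lit 1)), ((nat_lit 4), (nat_lit 1)), ((nat_lit 11), (nat_lit 1)), ((nat_lit 5), (nat_lit 1)), ((nat_lit 0x44e), (nat_lit 2)), ((nat_lit 8), (nat_lit 1)), ((nat_lit 9), (nat_lit 1)), ((nat_lit 0x513), (nat_lit 2)), ((nat_lit 0x6d1591), (nat_lit 4)), ((nat_lit 0x75c), (nat_lit 2)), ((nat_lit 13), (nat_lit 1)), ((nat_lit 0x698), (nat_lit 2)), ((nat_lit 15), (nat_lit 1)), ((nat_lit 0x9d70275c), (nat_lit 6)), ((nat_lit 0x346346), (nat_lit 4)), ((nat_lit 0x9a602698), (nat_lit 6)), ((nat_lit 0x11a604698), (nat_lit 6)), ((nat_lit 0x18f18f), (nat_lit 4)), ((nat_lit 23), (nat_lit 1)), ((nat_lit 25), (nat_lit 1)), ((nat_lit 0x863c63c218f18f), (nat_lit 10)), ((nat_lit 0x1063c63c418f18f), (nat_lit 10))] (nat_lit 0xb28b273664c4b26691a6d9b34a8365ac63833c343d88943b3493ac3632fe80509609008f0a2),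
.c (nat_lit 18) (nat_lit 0x40a0120b60304c0258c0181a80566a052468222ec0da2e0961d02b0f8603542c13e140990905b8402ac040a200099),
.i (nat_lit 3) (nat_lit 155) [((nat_lit 6), (nat_lit 1)), ((nat_lit 1), (nat_lit 1)), ((nat_lit 2), (nat_lit 1)), ((nat_lit 4), (nat_lit 1)), ((nat_lit 11), (nat_lit 1)), ((nat_lit 5), (nat_lit 1)), ((nat_lit 0x44e), (nat_lit 2)), ((nat_lit 8), (nat_lit 1)), ((nat_lit 9), (nat_lit 1)), ((nat_lit 0x513), (nat_lit 2)), ((nat_lit 0x6d1591), (nat_lit 4)), ((nat_lit 0x75c), (nat_lit 2)), ((nat_lit 13), (nat_lit 1)), ((nat_lit 0x698), (nat_lit 2)), ((nat_lit 15), (nat_lit 1)), ((nat_lit 0x9d70275c), (nat_lit 6)), ((nat_lit 0x346346), (nat_lit 4)), ((nat_lit 0x9a602698), (nat_lit 6)), ((nat_lit 0x11a604698), (nat_lit 6)), ((nat_lit 0x18f18f), (nat_lit 4)), ((nat_lit 23), (nat_lit 1)), ((nat_lit 25), (nat_lit 1)), ((nat_lit 0x863c63c218f18f), (nat_lit 10)), ((nat_lit 0x1063c63c418f18f), (nat_lit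 10))] (nat_lit 0xb28b273664c4b26691a6d9b34a8365ac63833c343d88943b3493ac3632fe80509609008f0a2),
.c (nat_lit 4) (nat_lit 0x106d00586006cdc000db),
.i (nat_lit 3) (nat_lit 157) [((nat_lit 6), (nat_lit 1)), ((nat_lit 1), (nat_lit 1)), ((nat_lit 2), (nat_lit 1)), ((nat_lit 4), (nat_lit 1)), ((nat_lit 11), (nat_lit 1)), ((nat_lit 5), (nat_lit 1)), ((nat_lit 0x44e), (nat_lit 2)), ((nat_lit 8), (nat_lit 1)), ((nat_lit 9), (nat_lit 1)), ((nat_lit 0x513), (nat_lit 2)), ((nat_lit 0x6d1591), (nat_lit 4)), ((nat_lit 0x75c), (nat_lit 2)), ((nat_lit 13), (nat_lit 1)), ((nat_lit 0x698), (nat_lit 2)), ((nat_lit 15), (nat_lit 1)), ((nat_lit 0x9d70275c), (nat_lit 6)), ((nat_lit 0x346346), (nat_lit 4)), ((nat_lit 0x9a602698), (nat_lit 6)), ((nat_lit 0x11a604698), (nat_lit 6)), ((nat_lit 0x18f18f), (nat_lit 4)), ((nat_lit 23), (nat_lit 1)), ((nat_lit 25), (nat_lit 1)), ((nat_lit 0x863c63c218f18f), (nat_lit 10)), ((nat_lit 0x1063c63c418f18f),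 (nat_lit 10))] (nat_lit 0xb28b273664c4b26691a6d9b34a8365ac63833c343d88943b3493ac3632fe80509609008f0a2),
.c (nat_lit 17) (nat_lit 0x205602040018158100040b672081818381dc186060a0770730c84984430102080030302b810204040ae00075),
.c (nat_lit 0) (nat_lit 0),
.c (nat_lit 38) (nat_lit 0xc7aa0408f011ea80023c0a6260e3e106393828d040988e14db5097c58402342188e0e07b061f0829c9c09866020690903d840f841ce4e08c470303d8101a4040f60c3d50508e82045c0c7aa0411d0108b8000040589e0c383050768284541070a0a11b),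
.c (nat_lit 0) (nat_lit 0),
.c (nat_lit 0) (nat_lit 0),
.i (nat_lit 3) (nat_lit 144) [((nat_lit 4), (nat_lit 1)), ((nat_lit 9), (nat_lit 1)), ((nat_lit 1), (nat_lit 1)), ((nat_lit 7), (nat_lit 1)), ((nat_lit 8), (nat_lit 1)), ((nat_lit 15), (nat_lit 1)), ((nat_lit 0x490), (nat_lit 2)), ((nat_lit 0x81f), (nat_lit 2)), ((nat_lit 12), (nat_lit 1)), ((nat_lit 25), (nat_lit 1)), ((nat_lit 0x792692), (nat_lit 4)), ((nat_lit 0), (nat_lit 0)), ((nat_lit 0x607c181f), (nat_lit 6)), ((nat_lit 0x10c10c), (nat_lit 4)), ((nat_lit 0x309309), (nat_lit 4)), ((nat_lit 0), (nat_lit 0)), ((nat_lit 0x10181f0607c40607c181f), (nat_lit 14)), ((nat_lit 0x4430430110c10c), (nat_lit 10)), ((nat_lit 0x1c430430710c10c), (nat_lit 10)), ((nat_lit 0x10c24c244309309), (nat_lit 10)), ((nat_lit 0x3207cc81f), (nat_lit 6)), ((nat_lit 0x3207cc81f), (nat_lit 6)), ((nat_lit 0x4430930910c24c24110c24c244309309), (nat_lit 22)), ((nat_lit 0x1c430930910c24c24710c24c244309309),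 (nat_lit 22))] (nat_lit 0xb3eb3d987b3c8b8614615b3b31171b4ed98581f34b36633340c42946d52868c0a508f0ab096),
.c (nat_lit 44) (nat_lit 0x4f0081e8081e4060ec04003089f502c6c8183660a7bf05b650246c8143660b03d06027834d5c20bbe0e1b107d20041a2c1eb9e0d351060d8816cfc154fd091e9841d1c1e9fa0c3d3053a38b839c5813e2a0cf1405b8982c44813e2207b100798783b4381ce08007030768103cc040f60009f),
.c (nat_lit 29) (nat_lit 0x60e6021b1009640006c4080d403343010d7004d0c0406e03028041a18246c4088be05b0f8223541cb220c35d09b368416441c6ba0c0990e05586827c301861609f030288101bc041aa000e7),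
.c (nat_lit 4) (nat_lit 0x104301023006cd000ed0),
.c (nat_lit 3) (nat_lit 0x1039806cc800fd4),
.c (nat_lit 4) (nat_lit 0x10460082180acd001004),
.c (nat_lit 4) (nat_lit 0x10730083800acc8012ac),
.c (nat_lit 4) (nat_lit 0x10730083800acc8012b4),
.c (nat_lit 3) (nat_lit 0x83800acc8012b8),
.c (nat_lit 3) (nat_lit 0x383981acc8012c8),
.c (nat_lit 4) (nat_lit 0x604602964812cd0013ca),
.c (nat_lit 4) (nat_lit 0x20730103800ecc8014c2),
.c (nat_lit 4) (nat_lit 0x20730103800ecc8014d2),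
.c (nat_lit 4) (nat_lit 0x50730283801acc8014f0),
.c (nat_lit 3) (nat_lit 0x603980ed00014fc),
.c (nat_lit 6) (nat_lit 0x810c07668020460102180ecd0014fe),
.c (nat_lit 27) (nat_lit 0x82180acd00747404b34028e601acd00f47408b3400d9a00a8e807668041cc02d9a01a8e80e08c010430159a00e8e809668051cc0359a01e8e811668010460082180acd00150e),
.c (nat_lit 6) (nat_lit 0x1010c0b6680404602021816cd001510),
.c (nat_lit 8) (nat_lit 0x1c6e00d89c069b8032b761a0730d03806ecc801530),
.c (nat_lit 14) (nat_lit 0x1c10c1147409b3403d1d0201180e08608a3a04d9a00810c07668020460102180ecd001534),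
.c (nat_lit 4) (nat_lit 0x170730b838062cc801542),
.c (nat_lit 5) (nat_lit 0x609e0406102827806d0401630),
.c (nat_lit 26) (nat_lit 0x240f40434003113021c98147c00c07a0773e0431182c680187260d1f0044c481c10c1147409b3403d1d0201180e08608a3a04d9a00810c07668020460102180ecd001638),
.c (nat_lit 4) (nat_lit 0x50610302780ad0401646),
.c (nat_lit 4) (nat_lit 0x20730103800ecc801660),
.c (nat_lit 13) (nat_lit 0x44950182d801254141ce083db0382481015c0682e080ab0307381415c0559600051),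
.c (nat_lit 67) (nat_lit 0x113c4040ee004f10757c83416c1492a044990102883c2c41a16a115c10982b83d8d41ac4e0b637041b181827c0c92a040510858583c2c41ac360b0b504b0d84ac1c22b820e09f08a0f83c1441814a0eb0706ae082827c19d320a0ab0558383aa64186fe10a99071bf83039c1d5420cab3055b08207f40c0ae0cab705084828454149e2083d9031808113c4047b2000030024c81827c12c4e063630424a809264000a209627031b181027c0892a02051),
.c (nat_lit 14) (nat_lit 0x1092a05627011b180027c0092a063630407381d86c080ea02363021b180827c041ce00051),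
.c (nat_lit 0) (nat_lit 0),
.c (nat_lit 0) (nat_lit 0),
.c (nat_lit 1) (nat_lit 0x7417),
.c (nat_lit 0) (nat_lit 0),
.i (nat_lit 3) (nat_lit 119) [((nat_lit 5), (nat_lit 1)), ((nat_lit 2), (nat_lit 1)), ((nat_lit 0x1e19e), (nat_lit 3)), ((nat_lit 3), (nat_lit 1)), ((nat_lit 0x513), (nat_lit 2)), ((nat_lit 0x1e48b792), (nat_lit 5)), ((nat_lit 779), (nat_lit 2)), ((nat_lit 7), (nat_lit 1)), ((nat_lit 0), (nat_lit 0)), ((nat_lit 0), (nat_lit 0)), ((nat_lit 0x78678c2de19e30b), (nat_lit 10)), ((nat_lit 19), (nat_lit 1)), ((nat_lit 0x786787786787), (nat_lit 8)), ((nat_lit 0), (nat_lit 0)), ((nat_lit 0), (nat_lit 0)), ((nat_lit 0x7867947944c6793), (nat_lit 10)), ((nat_lit 0x15e19e1de19e1c5786787786787), (nat_lit 18)), ((nat_lit 0), (nat_lit 0)), ((nat_lit 0), (nat_lit 0)), ((nat_lit 0), (nat_lit 0)), ((nat_lit 0), (nat_lit 0)), ((nat_lit 0), (nat_lit 0)), ((nat_lit 0), (nat_lit 0)), ((nat_lit 0), (nat_lit 0))]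 (nat_lit 0x3125ea3125ea3393125eab5eb5d340339b5c642b5bb5a5e93d288bb59b586400932c309009f),
.c (nat_lit 36) (nat_lit 0x2b00839808148060040a073058df82c154180e60d02b07039812d7c1a10b0c0ed85842c288e61210b0823983b27c183b60a10b0464f83aacc3d5662037f1108488039c3c0ae1c0e70d0558604242c1ce140ab03002810294041ce00057),
.c (nat_lit 1) (nat_lit 0x1179),
.c (nat_lit 3) (nat_lit 0x2b340414a0005d),
.c (nat_lit 16) (nat_lit 0x3566811f840559a007e102651820f840ce4e0a7d5040768203cc0a2f202069030528101a40414a0005d),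
.c (nat_lit 0) (nat_lit 0),
.i (nat_lit 3) (nat_lit 75) [((nat_lit 9), (nat_lit 1)), ((nat_lit 2), (nat_lit 1)), ((nat_lit 7), (nat_lit 1)), ((nat_lit 1), (nat_lit 1)), ((nat_lit 0x81f), (nat_lit 2)), ((nat_lit 0), (nat_lit 0)), ((nat_lit 15), (nat_lit 1)), ((nat_lit 5), (nat_lit 1)), ((nat_lit 12), (nat_lit 1)), ((nat_lit 0), (nat_lit 0)), ((nat_lit 0x1cf1cf), (nat_lit 4)), ((nat_lit 23), (nat_lit 1)), ((nat_lit 19), (nat_lit 1)), ((nat_lit 0x309309), (nat_lit 4)), ((nat_lit 19), (nat_lit 1)), ((nat_lit 0x5c75c7), (nat_lit 4)), ((nat_lit 0x4c94c9), (nat_lit 4)), ((nat_lit 0x3207cc81f), (nat_lit 6)), ((nat_lit 0x3207cc81f), (nat_lit 6)), ((nat_lit 0x4c94c9), (nat_lit 4)), ((nat_lit 0), (nat_lit 0)), ((nat_lit 0), (nat_lit 0)), ((nat_lit 0), (nat_lit 0)), ((nat_lit 0x532532414c94c9), (nat_lit 10))] (nat_lit 0xb64b63822b62b61b3c987b6181e86471b8203ca3e53bb42848b46d40240c7a908f0a50900ab),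
.c (nat_lit 43) (nat_lit 0x283c8141d80c7d404393028f800d944027e002566019f80115980a9780838b0496581dd7010e220638b039658062f0086e205393030f800d95c08ca202371019c98107c002cae0265100bae009c44016cb0637183b2bc20dc612caf0a05e848294200d20e0a5060348281741017a0605d),
.c (nat_lit 0) (nat_lit 0),
.c (nat_lit 23) (nat_lit 0x182b408112020ad000448602b42c112140ad090448411cc1c15a0c305050448211cc0c15a04305010448000140410e040ab030438202ac0499600063),
.c (nat_lit 37) (nat_lit 0x60a70204180829c00106113f7069f7824fdc0a7de0c07b0510a81132c040c60a34d06870838d34127ce0607b061a681cf9c2469a14acf0905384020c1d59e0c30305053820c0c0c14e040830105380000c161c20c34d039f383829418102140a5),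
.i (nat_lit 3) (nat_lit 77) [((nat_lit 8), (nat_lit 1)), ((nat_lit 1), (nat_lit 1)), ((nat_lit 3), (nat_lit 1)), ((nat_lit 2), (nat_lit 1)), ((nat_lit 14), (nat_lit 1)), ((nat_lit 6), (nat_lit 1)), ((nat_lit 13), (nat_lit 1)), ((nat_lit 5), (nat_lit 1)), ((nat_lit 7), (nat_lit 1)), ((nat_lit 0x75c), (nat_lit 2)), ((nat_lit 21), (nat_lit 1)), ((nat_lit 0x657), (nat_lit 2)), ((nat_lit 779), (nat_lit 2)), ((nat_lit 0x595), (nat_lit 2)), ((nat_lit 12), (nat_lit 1)), ((nat_lit 0xd95c3657), (nat_lit 6)), ((nat_lit 0x20c2c830b), (nat_lit 6)), ((nat_lit 0xd6543595), (nat_lit 6)), ((nat_lit 0x96542595), (nat_lit 6)), ((nat_lit 0x308308), (nat_lit 4)), ((nat_lit 20), (nat_lit 1)), ((nat_lit 19), (nat_lit 1)), ((nat_lit 0x50c38850c38c20c), (nat_lit 10)), ((nat_lit 0x30d21330d3084cc), (nat_lit 10))] (nat_lit 0xb69b6886471a96bb679f89d94b33337759069d65c687759e3632f130d53f86209009308f0a8),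
.c (nat_lit 2) (nat_lit 0x2daa0407b),
.i (nat_lit 3) (nat_lit 85) [((nat_lit 8), (nat_lit 1)), ((nat_lit 1), (nat_lit 1)), ((nat_lit 3), (nat_lit 1)), ((nat_lit 2), (nat_lit 1)), ((nat_lit 14), (nat_lit 1)), ((nat_lit 6), (nat_lit 1)), ((nat_lit 13), (nat_lit 1)), ((nat_lit 5), (nat_lit 1)), ((nat_lit 7), (nat_lit 1)), ((nat_lit 0x75c), (nat_lit 2)), ((nat_lit 21), (nat_lit 1)), ((nat_lit 0x657), (nat_lit 2)), ((nat_lit 779), (nat_lit 2)), ((nat_lit 0x595), (nat_lit 2)), ((nat_lit 12), (nat_lit 1)), ((nat_lit 0xd95c3657), (nat_lit 6)), ((nat_lit 0x20c2c830b), (nat_lit 6)), ((nat_lit 0xd6543595), (nat_lit 6)), ((nat_lit 0x96542595), (nat_lit 6)), ((nat_lit 0x308308), (nat_lit 4)), ((nat_lit 20), (nat_lit 1)), ((nat_lit 19), (nat_lit 1)), ((nat_lit 0x50c38850c38c20c), (nat_lit 10)), ((nat_lit 0x30d21330d3084cc), (nat_lit 10))] (nat_lit 0xb69b6886471a96bb679f89d94b33337759069d65c687759e3632f130d53f86209009308f0a8),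
.c (nat_lit 1) (nat_lit 0x16d9),
.i (nat_lit 3) (nat_lit 89) [((nat_lit 8), (nat_lit 1)), ((nat_lit 1), (nat_lit 1)), ((nat_lit 3), (nat_lit 1)), ((nat_lit 2), (nat_lit 1)), ((nat_lit 14), (nat_lit 1)), ((nat_lit 6), (nat_lit 1)), ((nat_lit 13), (nat_lit 1)), ((nat_lit 5), (nat_lit 1)), ((nat_lit 7), (nat_lit 1)), ((nat_lit 0x75c), (nat_lit 2)), ((nat_lit 21), (nat_lit 1)), ((nat_lit 0x657), (nat_lit 2)), ((nat_lit 779), (nat_lit 2)), ((nat_lit 0x595), (nat_lit 2)), ((nat_lit 12), (nat_lit 1)), ((nat_lit 0xd95c3657), (nat_lit 6)), ((nat_lit 0x20c2c830b), (nat_lit 6)), ((nat_lit 0xd6543595), (nat_lit 6)), ((nat_lit 0x96542595), (nat_lit 6)), ((nat_lit 0x308308), (nat_lit 4)), ((nat_lit 20), (nat_lit 1)), ((nat_lit 19), (nat_lit 1)), ((nat_lit 0x50c38850c38c20c), (nat_lit 10)), ((nat_lit 0x30d21330d3084cc), (nat_lit 10))] (nat_lit 0xb69b6886471a96bb679f89d94b33337759069d65c687759e3632f130d53f86209009308f0a8)]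

theorem c26 : chk db th.hy ths 2927 J26 2816 = true := by decide +kernel

set_option maxRecDepth 100000 in
/-- Justifications. -/
noncomputable def J27 : List Js := [
.c (nat_lit 4) (nat_lit 0x106d00582006dba000db),
.i (nat_lit 3) (nat_lit 94) [((nat_lit 8), (nat_lit 1)), ((nat_lit 1), (nat_lit 1)), ((nat_lit 3), (nat_lit 1)), ((nat_lit 2), (nat_lit 1)), ((nat_lit 14), (nat_lit 1)), ((nat_lit 6), (nat_lit 1)), ((nat_lit 13), (nat_lit 1)), ((nat_lit 5), (nat_lit 1)), ((nat_lit 7), (nat_lit 1)), ((nat_lit 0x75c), (nat_lit 2)), ((nat_lit 21), (nat_lit 1)), ((nat_lit 0x657), (nat_lit 2)), ((nat_lit 779), (nat_lit 2)), ((nat_lit 0x595), (nat_lit 2)), ((nat_lit 12), (nat_lit 1)), ((nat_lit 0xd95c3657), (nat_lit 6)), ((nat_lit 0x20c2c830b), (nat_lit 6)), ((nat_lit 0xd6543595), (nat_lit 6)), ((nat_lit 0x96542595), (nat_lit 6)), ((nat_lit 0x308308), (nat_lit 4)), ((nat_lit 20), (nat_lit 1)), ((nat_lit 19), (nat_lit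 1)), ((nat_lit 0x50c38850c38c20c), (nat_lit 10)), ((nat_lit 0x30d21330d3084cc), (nat_lit 10))] (nat_lit 0xb69b6886471a96bb679f89d94b33337759069d65c687759e3632f130d53f86209009308f0a8),
.c (nat_lit 5) (nat_lit 0x6201b70808884140f600063),
.i (nat_lit 3) (nat_lit 95) [((nat_lit 8), (nat_lit 1)), ((nat_lit 1), (nat_lit 1)), ((nat_lit 3), (nat_lit 1)), ((nat_lit 2), (nat_lit 1)), ((nat_lit 14), (nat_lit 1)), ((nat_lit 6), (nat_lit 1)), ((nat_lit 13), (nat_lit 1)), ((nat_lit 5), (nat_lit 1)), ((nat_lit 7), (nat_lit 1)), ((nat_lit 0x75c), (nat_lit 2)), ((nat_lit 21), (nat_lit 1)), ((nat_lit 0x657), (nat_lit 2)), ((nat_lit 779), (nat_lit 2)), ((nat_lit 0x595), (nat_lit 2)), ((nat_lit 12), (nat_lit 1)), ((nat_lit 0xd95c3657), (nat_lit 6)), ((nat_lit 0x20c2c830b), (nat_lit 6)), ((nat_lit 0xd6543595), (nat_lit 6)), ((nat_lit 0x96542595), (nat_lit 6)), ((nat_lit 0x308308), (nat_lit 4)), ((nat_lit 20), (nat_lit 1)),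 ((nat_lit 19), (nat_lit 1)), ((nat_lit 0x50c38850c38c20c), (nat_lit 10)), ((nat_lit 0x30d21330d3084cc), (nat_lit 10))] (nat_lit 0xb69b6886471a96bb679f89d94b33337759069d65c687759e3632f130d53f86209009308f0a8),
.c (nat_lit 5) (nat_lit 0x208602b720157f40410e00099),
.i (nat_lit 3) (nat_lit 99) [((nat_lit 8), (nat_lit 1)), ((nat_lit 1), (nat_lit 1)), ((nat_lit 3), (nat_lit 1)), ((nat_lit 2), (nat_lit 1)), ((nat_lit 14), (nat_lit 1)), ((nat_lit 6), (nat_lit 1)), ((nat_lit 13), (nat_lit 1)), ((nat_lit 5), (nat_lit 1)), ((nat_lit 7), (nat_lit 1)), ((nat_lit 0x75c), (nat_lit 2)), ((nat_lit 21), (nat_lit 1)), ((nat_lit 0x657), (nat_lit 2)), ((nat_lit 779), (nat_lit 2)), ((nat_lit 0x595), (nat_lit 2)), ((nat_lit 12), (nat_lit 1)), ((nat_lit 0xd95c3657), (nat_lit 6)), ((nat_lit 0x20c2c830b), (nat_lit 6)), ((nat_lit 0xd6543595), (nat_lit 6)), ((nat_lit 0x96542595), (nat_lit 6)), ((nat_lit 0x308308), (nat_lit 4)), ((nat_lit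 20), (nat_lit 1)), ((nat_lit 19), (nat_lit 1)), ((nat_lit 0x50c38850c38c20c), (nat_lit 10)), ((nat_lit 0x30d21330d3084cc), (nat_lit 10))] (nat_lit 0xb69b6886471a96bb679f89d94b33337759069d65c687759e3632f130d53f86209009308f0a8),
.c (nat_lit 48) (nat_lit 0x3d0281e806dc40a05c0d04c075b9832bf81634e0b06d0603802abc01235e08af0038d781ac080f63e06b74845b7c1ec12123df0839c855b7c26c12164850a3d7865b7c2ec121b2390c8e6870f7c34e721e4850e3d7885b7c3ec1223239108e6890384441b6200ab0f03d87021c140ba0807b030318101ec0410e0007b),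
.i (nat_lit 3) (nat_lit 100) [((nat_lit 8), (nat_lit 1)), ((nat_lit 1), (nat_lit 1)), ((nat_lit 3), (nat_lit 1)), ((nat_lit 2), (nat_lit 1)), ((nat_lit 14), (nat_lit 1)), ((nat_lit 6), (nat_lit 1)), ((nat_lit 13), (nat_lit 1)), ((nat_lit 5), (nat_lit 1)), ((nat_lit 7), (nat_lit 1)), ((nat_lit 0x75c), (nat_lit 2)), ((nat_lit 21), (nat_lit 1)), ((nat_lit 0x657), (nat_lit 2)), ((nat_lit 779), (nat_lit 2)), ((nat_lit 0x595), (nat_lit 2)), ((nat_lit 12), (nat_lit 1)), ((nat_lit 0xd95c3657), (nat_lit 6)), ((nat_lit 0x20c2c830b), (nat_lit 6)), ((nat_lit 0xd6543595), (nat_lit 6)), ((nat_lit 0x96542595), (nat_lit 6)), ((nat_lit 0x308308), (nat_lit 4)), ((nat_lit 20), (nat_lit 1)), ((nat_lit 19), (nat_lit 1)), ((nat_lit 0x50c38850c38c20c), (nat_lit 10)), ((nat_lit 0x30d21330d3084cc), (nat_lit 10))] (nat_lit 0xb69b6886471a96bb679f89d94b33337759069d65c687759e3632f130d53f86209009308f0a8),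
.c (nat_lit 35) (nat_lit 0x81d0201541007a091a70482602adcc120860aafe020218140f4060620403d02db881edd40607a02b7603dbac16dc60807b030318101ec0c0f60408708afe83821c22dce0e099071a78301ec181560b61b03b14810264040ea00099),
.i (nat_lit 3) (nat_lit 102) [((nat_lit 8), (nat_lit 1)), ((nat_lit 1), (nat_lit 1)), ((nat_lit 3), (nat_lit 1)), ((nat_lit 2), (nat_lit 1)), ((nat_lit 14), (nat_lit 1)), ((nat_lit 6), (nat_lit 1)), ((nat_lit 13), (nat_lit 1)), ((nat_lit 5), (nat_lit 1)), ((nat_lit 7), (nat_lit 1)), ((nat_lit 0x75c), (nat_lit 2)), ((nat_lit 21), (nat_lit 1)), ((nat_lit 0x657), (nat_lit 2)), ((nat_lit 779), (nat_lit 2)), ((nat_lit 0x595), (nat_lit 2)), ((nat_lit 12), (nat_lit 1)), ((nat_lit 0xd95c3657), (nat_lit 6)), ((nat_lit 0x20c2c830b), (nat_lit 6)), ((nat_lit 0xd6543595), (nat_lit 6)), ((nat_lit 0x96542595), (nat_lit 6)), ((nat_lit 0x308308), (nat_lit 4)), ((nat_lit 20), (nat_lit 1)), ((nat_lit 19), (nat_lit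 1)), ((nat_lit 0x50c38850c38c20c), (nat_lit 10)), ((nat_lit 0x30d21330d3084cc), (nat_lit 10))] (nat_lit 0xb69b6886471a96bb679f89d94b33337759069d65c687759e3632f130d53f86209009308f0a8),
.c (nat_lit 74) (nat_lit 0xc13c09480040550001e804130056ee051a700a2b812dcc020980245700a2b80813002098010430116500eb980859405ae60357f00915c060980204c0096500ab980659404ae600026006ddc000860103d0001e8040c40407a03b7102dba802de20d6eb04b718181ec080c60207b001cc8101ec047320008702b7780826416b9a0859503ae68116540c132080990345783d7f41ab9a0a59504ae68196540810e040990304c8122bc0d15e0409905b738122bc1869e076ef0204c8081ec141560809f),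
.i (nat_lit 3) (nat_lit 105) [((nat_lit 8), (nat_lit 1)), ((nat_lit 1), (nat_lit 1)), ((nat_lit 3), (nat_lit 1)), ((nat_lit 2), (nat_lit 1)), ((nat_lit 14), (nat_lit 1)), ((nat_lit 6), (nat_lit 1)), ((nat_lit 13), (nat_lit 1)), ((nat_lit 5), (nat_lit 1)), ((nat_lit 7), (nat_lit 1)), ((nat_lit 0x75c), (nat_lit 2)), ((nat_lit 21), (nat_lit 1)), ((nat_lit 0x657), (nat_lit 2)), ((nat_lit 779), (nat_lit 2)), ((nat_lit 0x595), (nat_lit 2)), ((nat_lit 12), (nat_lit 1)), ((nat_lit 0xd95c3657), (nat_lit 6)), ((nat_lit 0x20c2c830b), (nat_lit 6)), ((nat_lit 0xd6543595), (nat_lit 6)), ((nat_lit 0x96542595), (nat_lit 6)), ((nat_lit 0x308308), (nat_lit 4)), ((nat_lit 20), (nat_lit 1)), ((nat_lit 19), (nat_lit 1)), ((nat_lit 0x50c38850c38c20c), (nat_lit 10)), ((nat_lit 0x30d21330d3084cc), (nat_lit 10))] (nat_lit 0xb69b6886471a96bb679f89d94b33337759069d65c687759e3632f130d53f86209009308f0a8),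
.c (nat_lit 48) (nat_lit 0x1b3a0142e0100c40a07a0603a038188200f4120741020d0802c02adea156d70d03d860da446dae2807b131b4884f1c3ecea213ef0e9e386d9d43a7de250b911b3a8842e44c0f62a07b1685c8ad9d4500ea2a07b1c0588d821c6810232087180408b81ec240ea1007b070318301d4140f6080630303a8101ec0410200087),
.i (nat_lit 3) (nat_lit 118) [((nat_lit 8), (nat_lit 1)), ((nat_lit 1), (nat_lit 1)), ((nat_lit 3), (nat_lit 1)), ((nat_lit 2), (nat_lit 1)), ((nat_lit 14), (nat_lit 1)), ((nat_lit 6), (nat_lit 1)), ((nat_lit 13), (nat_lit 1)), ((nat_lit 5), (nat_lit 1)), ((nat_lit 7), (nat_lit 1)), ((nat_lit 0x75c), (nat_lit 2)), ((nat_lit 21), (nat_lit 1)), ((nat_lit 0x657), (nat_lit 2)), ((nat_lit 779), (nat_lit 2)), ((nat_lit 0x595), (nat_lit 2)), ((nat_lit 12), (nat_lit 1)), ((nat_lit 0xd95c3657), (nat_lit 6)), ((nat_lit 0x20c2c830b), (nat_lit 6)), ((nat_lit 0xd6543595), (nat_lit 6)), ((nat_lit 0x96542595), (nat_lit 6)), ((nat_lit 0x308308),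 (nat_lit 4)), ((nat_lit 20), (nat_lit 1)), ((nat_lit 19), (nat_lit 1)), ((nat_lit 0x50c38850c38c20c), (nat_lit 10)), ((nat_lit 0x30d21330d3084cc), (nat_lit 10))] (nat_lit 0xb69b6886471a96bb679f89d94b33337759069d65c687759e3632f130d53f86209009308f0a8),
.c (nat_lit 30) (nat_lit 0x2ce301951c0c0640546502e318127180a240041c90247b80ecae0886a0346501e3180a718062400246501631806724041ee0132b80e1a803194028c6005be006b120c0c9050498202040c12604081),
.i (nat_lit 3) (nat_lit 127) [((nat_lit 8), (nat_lit 1)), ((nat_lit 1), (nat_lit 1)), ((nat_lit 3), (nat_lit 1)), ((nat_lit 2), (nat_lit 1)), ((nat_lit 14), (nat_lit 1)), ((nat_lit 6), (nat_lit 1)), ((nat_lit 13), (nat_lit 1)), ((nat_lit 5), (nat_lit 1)), ((nat_lit 7), (nat_lit 1)), ((nat_lit 0x75c), (nat_lit 2)), ((nat_lit 21), (nat_lit 1)), ((nat_lit 0x657), (nat_lit 2)), ((nat_lit 779), (nat_lit 2)), ((nat_lit 0x595), (nat_lit 2)), ((nat_lit 12), (nat_lit 1)), ((nat_lit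 0xd95c3657), (nat_lit 6)), ((nat_lit 0x20c2c830b), (nat_lit 6)), ((nat_lit 0xd6543595), (nat_lit 6)), ((nat_lit 0x96542595), (nat_lit 6)), ((nat_lit 0x308308), (nat_lit 4)), ((nat_lit 20), (nat_lit 1)), ((nat_lit 19), (nat_lit 1)), ((nat_lit 0x50c38850c38c20c), (nat_lit 10)), ((nat_lit 0x30d21330d3084cc), (nat_lit 10))] (nat_lit 0xb69b6886471a96bb679f89d94b33337759069d65c687759e3632f130d53f86209009308f0a8),
.c (nat_lit 1) (nat_lit 0x16fc),
.i (nat_lit 3) (nat_lit 128) [((nat_lit 8), (nat_lit 1)), ((nat_lit 1), (nat_lit 1)), ((nat_lit 3), (nat_lit 1)), ((nat_lit 2), (nat_lit 1)), ((nat_lit 14), (nat_lit 1)), ((nat_lit 6), (nat_lit 1)), ((nat_lit 13), (nat_lit 1)), ((nat_lit 5), (nat_lit 1)), ((nat_lit 7), (nat_lit 1)), ((nat_lit 0x75c), (nat_lit 2)), ((nat_lit 21), (nat_lit 1)), ((nat_lit 0x657), (nat_lit 2)), ((nat_lit 779), (nat_lit 2)), ((nat_lit 0x595), (nat_lit 2)), ((nat_lit 12), (nat_lit 1)), ((nat_lit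 0xd95c3657), (nat_lit 6)), ((nat_lit 0x20c2c830b), (nat_lit 6)), ((nat_lit 0xd6543595), (nat_lit 6)), ((nat_lit 0x96542595), (nat_lit 6)), ((nat_lit 0x308308), (nat_lit 4)), ((nat_lit 20), (nat_lit 1)), ((nat_lit 19), (nat_lit 1)), ((nat_lit 0x50c38850c38c20c), (nat_lit 10)), ((nat_lit 0x30d21330d3084cc), (nat_lit 10))] (nat_lit 0xb69b6886471a96bb679f89d94b33337759069d65c687759e3632f130d53f86209009308f0a8),
.c (nat_lit 25) (nat_lit 0x20800010a0081d0140f40c34c0604003c380100f40b3e6081a60181e8127dc0c21402b808159d4100f61807b0b04085018c2414a1007b070408301ec040ea00081),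
.i (nat_lit 3) (nat_lit 130) [((nat_lit 8), (nat_lit 1)), ((nat_lit 1), (nat_lit 1)), ((nat_lit 3), (nat_lit 1)), ((nat_lit 2), (nat_lit 1)), ((nat_lit 14), (nat_lit 1)), ((nat_lit 6), (nat_lit 1)), ((nat_lit 13), (nat_lit 1)), ((nat_lit 5), (nat_lit 1)), ((nat_lit 7), (nat_lit 1)), ((nat_lit 0x75c), (nat_lit 2)), ((nat_lit 21), (nat_lit 1)), ((nat_lit 0x657), (nat_lit 2)), ((nat_lit 779), (nat_lit 2)), ((nat_lit 0x595), (nat_lit 2)), ((nat_lit 12), (nat_lit 1)), ((nat_lit 0xd95c3657), (nat_lit 6)), ((nat_lit 0x20c2c830b), (nat_lit 6)), ((nat_lit 0xd6543595), (nat_lit 6)), ((nat_lit 0x96542595), (nat_lit 6)), ((nat_lit 0x308308), (nat_lit 4)), ((nat_lit 20), (nat_lit 1)), ((nat_lit 19), (nat_lit 1)), ((nat_lit 0x50c38850c38c20c), (nat_lit 10)), ((nat_lit 0x30d21330d3084cc), (nat_lit 10))] (nat_lit 0xb69b6886471a96bb679f89d94b33337759069d65c687759e3632f130d53f86209009308f0a8),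
.c (nat_lit 1) (nat_lit 0x1705),
.i (nat_lit 3) (nat_lit 132) [((nat_lit 8), (nat_lit 1)), ((nat_lit 1), (nat_lit 1)), ((nat_lit 3), (nat_lit 1)), ((nat_lit 2), (nat_lit 1)), ((nat_lit 14), (nat_lit 1)), ((nat_lit 6), (nat_lit 1)), ((nat_lit 13), (nat_lit 1)), ((nat_lit 5), (nat_lit 1)), ((nat_lit 7), (nat_lit 1)), ((nat_lit 0x75c), (nat_lit 2)), ((nat_lit 21), (nat_lit 1)), ((nat_lit 0x657), (nat_lit 2)), ((nat_lit 779), (nat_lit 2)), ((nat_lit 0x595), (nat_lit 2)), ((nat_lit 12), (nat_lit 1)), ((nat_lit 0xd95c3657), (nat_lit 6)), ((nat_lit 0x20c2c830b), (nat_lit 6)), ((nat_lit 0xd6543595), (nat_lit 6)), ((nat_lit 0x96542595), (nat_lit 6)), ((nat_lit 0x308308), (nat_lit 4)), ((nat_lit 20), (nat_lit 1)), ((nat_lit 19), (nat_lit 1)), ((nat_lit 0x50c38850c38c20c), (nat_lit 10)), ((nat_lit 0x30d21330d3084cc), (nat_lit 10))] (nat_lit 0xb69b6886471a96bb679f89d94b33337759069d65c687759e3632f130d53f86209009308f0a8),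
.c (nat_lit 161) (nat_lit 0x620103d0101d00c0002011a1008708cc10401e422a7611073090e00481e426a761007308ba50507001edf610981075a283d4881007a0803a04c2e0280c41607a0b03a0642e03678c2043011b81094ca04c8602932815b810858803a1701f0b40f04c08588046c502761a1485a07d880386981c0980fb10085bb84c6981d6200f457080260381301f6200d2ca0749003eb982059411ae609490036c40170b80c85a06026036c401d62810b0d08c2d032c401634c0b04c06588036ddc2034c0bb100622b83ec40097080917b840f541e1760c2f7051ea8242ec1c69e0c34d08b7583dc0c2069a132410ab10865bbc2ec42140990a1a685d8843eb9a1c5950dae68649042cb2a1b6210c04c8702643515e196211185888586c3ac521b6210c04c8642d436c422505113055890d343edde1d6210d04c868d343ac4227703129948890c4426521f7030e21885cf1c2a1721607b155228a5a2c5a6062adf71a1c08bba54581ce32a77180798c0e045c1ce2ea77160798bcc145821e2c11b160528a827c501322609f12052888264400f61e0750e0438681ec300ea16063030008101d4040f600063),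
.i (nat_lit 3) (nat_lit 148) [((nat_lit 8), (nat_lit 1)), ((nat_lit 1), (nat_lit 1)), ((nat_lit 3), (nat_lit 1)), ((nat_lit 2), (nat_lit 1)), ((nat_lit 14), (nat_lit 1)), ((nat_lit 6), (nat_lit 1)), ((nat_lit 13), (nat_lit 1)), ((nat_lit 5), (nat_lit 1)), ((nat_lit 7), (nat_lit 1)), ((nat_lit 0x75c), (nat_lit 2)), ((nat_lit 21), (nat_lit 1)), ((nat_lit 0x657), (nat_lit 2)), ((nat_lit 779), (nat_lit 2)), ((nat_lit 0x595), (nat_lit 2)), ((nat_lit 12), (nat_lit 1)), ((nat_lit 0xd95c3657), (nat_lit 6)), ((nat_lit 0x20c2c830b), (nat_lit 6)), ((nat_lit 0xd6543595), (nat_lit 6)), ((nat_lit 0x96542595), (nat_lit 6)), ((nat_lit 0x308308), (nat_lit 4)), ((nat_lit 20), (nat_lit 1)), ((nat_lit 19), (nat_lit 1)), ((nat_lit 0x50c38850c38c20c), (nat_lit 10)), ((nat_lit 0x30d21330d3084cc), (nat_lit 10))] (nat_lit 0xb69b6886471a96bb679f89d94b33337759069d65c687759e3632f130d53f86209009308f0a8),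
.c (nat_lit 147) (nat_lit 0x5a78181540f6da0891a0101e80c130096ee071a7042ef80d15c0d6e60304c0222b80d15c080980304c01821810b280b5cc062ca03d73022bf8123980a1430222b81edcc08098054570222b81413008098032ca02573014b280d5cc07afe040e601c1c01009e09070018200101300b52e07844044dc8246a0088ae07b730202601515c088ae0504c0202601010c0a59406ae603965022b98135fc0a1cc0483802813c160e0050400302601ea5c130880a9b9058d401915c136e60604c03a2b81915c0e0980604c0302181cb28115cc092ca0557302ebf8160e00c04f0683800c8340c09807a9704c2202a6e40c8ae09b730302601d15c0c8ae0704c03026014b280d5cc072ca04573026bf8120e00a04f058380101300b52e07844044dc81115c0a0980404c01965012b980a59406ae60102600eddc040860303d0101e80c0c40807a05b7103dba8206d0123e407b6d0448d01977c0a39806143022ef81010c0a39805040030d401810c0e39804040029068206a006368041f2012ef806e18000b1),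
.i (nat_lit 3) (nat_lit 150) [((nat_lit 8), (nat_lit 1)), ((nat_lit 1), (nat_lit 1)), ((nat_lit 3), (nat_lit 1)), ((nat_lit 2), (nat_lit 1)), ((nat_lit 14), (nat_lit 1)), ((nat_lit 6), (nat_lit 1)), ((nat_lit 13), (nat_lit 1)), ((nat_lit 5), (nat_lit 1)), ((nat_lit 7), (nat_lit 1)), ((nat_lit 0x75c), (nat_lit 2)), ((nat_lit 21), (nat_lit 1)), ((nat_lit 0x657), (nat_lit 2)), ((nat_lit 779), (nat_lit 2)), ((nat_lit 0x595), (nat_lit 2)), ((nat_lit 12), (nat_lit 1)), ((nat_lit 0xd95c3657), (nat_lit 6)), ((nat_lit 0x20c2c830b), (nat_lit 6)), ((nat_lit 0xd6543595), (nat_lit 6)), ((nat_lit 0x96542595), (nat_lit 6)), ((nat_lit 0x308308), (nat_lit 4)), ((nat_lit 20), (nat_lit 1)), ((nat_lit 19), (nat_lit 1)), ((nat_lit 0x50c38850c38c20c), (nat_lit 10)), ((nat_lit 0x30d21330d3084cc), (nat_lit 10))] (nat_lit 0xb69b6886471a96bb679f89d94b33337759069d65c687759e3632f130d53f86209009308f0a8),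
.c (nat_lit 29) (nat_lit 0x206204457028260101300659404ae60296501ab98068ae03055015c400add60d6ef0504c84d73420b2a0f5cd062ca838264201320e8af0b05585027c241321009f0704c83021c040c60007b),
.i (nat_lit 3) (nat_lit 154) [((nat_lit 8), (nat_lit 1)), ((nat_lit 1), (nat_lit 1)), ((nat_lit 3), (nat_lit 1)), ((nat_lit 2), (nat_lit 1)), ((nat_lit 14), (nat_lit 1)), ((nat_lit 6), (nat_lit 1)), ((nat_lit 13), (nat_lit 1)), ((nat_lit 5), (nat_lit 1)), ((nat_lit 7), (nat_lit 1)), ((nat_lit 0x75c), (nat_lit 2)), ((nat_lit 21), (nat_lit 1)), ((nat_lit 0x657), (nat_lit 2)), ((nat_lit 779), (nat_lit 2)), ((nat_lit 0x595), (nat_lit 2)), ((nat_lit 12), (nat_lit 1)), ((nat_lit 0xd95c3657), (nat_lit 6)), ((nat_lit 0x20c2c830b), (nat_lit 6)), ((nat_lit 0xd6543595), (nat_lit 6)), ((nat_lit 0x96542595), (nat_lit 6)), ((nat_lit 0x308308), (nat_lit 4)), ((nat_lit 20), (nat_lit 1)), ((nat_lit 19), (nat_lit 1)), ((nat_lit 0x50c38850c38c20c),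 (nat_lit 10)), ((nat_lit 0x30d21330d3084cc), (nat_lit 10))] (nat_lit 0xb69b6886471a96bb679f89d94b33337759069d65c687759e3632f130d53f86209009308f0a8),
.c (nat_lit 7) (nat_lit 0x81580ae280569f0904684024c040ae0008d),
.i (nat_lit 3) (nat_lit 157) [((nat_lit 8), (nat_lit 1)), ((nat_lit 1), (nat_lit 1)), ((nat_lit 3), (nat_lit 1)), ((nat_lit 2), (nat_lit 1)), ((nat_lit 14), (nat_lit 1)), ((nat_lit 6), (nat_lit 1)), ((nat_lit 13), (nat_lit 1)), ((nat_lit 5), (nat_lit 1)), ((nat_lit 7), (nat_lit 1)), ((nat_lit 0x75c), (nat_lit 2)), ((nat_lit 21), (nat_lit 1)), ((nat_lit 0x657), (nat_lit 2)), ((nat_lit 779), (nat_lit 2)), ((nat_lit 0x595), (nat_lit 2)), ((nat_lit 12), (nat_lit 1)), ((nat_lit 0xd95c3657), (nat_lit 6)), ((nat_lit 0x20c2c830b), (nat_lit 6)), ((nat_lit 0xd6543595), (nat_lit 6)), ((nat_lit 0x96542595), (nat_lit 6)), ((nat_lit 0x308308), (nat_lit 4)), ((nat_lit 20), (nat_lit 1)), ((nat_lit 19), (nat_lit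 1)), ((nat_lit 0x50c38850c38c20c), (nat_lit 10)), ((nat_lit 0x30d21330d3084cc), (nat_lit 10))] (nat_lit 0xb69b6886471a96bb679f89d94b33337759069d65c687759e3632f130d53f86209009308f0a8),
.c (nat_lit 67) (nat_lit 0x8188080f406074040310281e8180e80e00410b1008a2b8481302009811b1007965042480235cc122ca09d730524801f6201045709d88022e301a0890c05685c4ac28112120ad08895850d3c2c1561c34f0f055864f1c42e163034d15b778a58844c1322634d1203d8958845e4822d5cd152ca8a57344e4822459514b1089826454132288af13b108c02945c13e2c0991504f8a02944c13224087070028301d4140f6080630303a8101ec040c600075),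
.i (nat_lit 3) (nat_lit 158) [((nat_lit 8), (nat_lit 1)), ((nat_lit 1), (nat_lit 1)), ((nat_lit 3), (nat_lit 1)), ((nat_lit 2), (nat_lit 1)), ((nat_lit 14), (nat_lit 1)), ((nat_lit 6), (nat_lit 1)), ((nat_lit 13), (nat_lit 1)), ((nat_lit 5), (nat_lit 1)), ((nat_lit 7), (nat_lit 1)), ((nat_lit 0x75c), (nat_lit 2)), ((nat_lit 21), (nat_lit 1)), ((nat_lit 0x657), (nat_lit 2)), ((nat_lit 779), (nat_lit 2)), ((nat_lit 0x595), (nat_lit 2)), ((nat_lit 12), (nat_lit 1)), ((nat_lit 0xd95c3657), (nat_lit 6)), ((nat_lit 0x20c2c830b), (nat_lit 6)), ((nat_lit 0xd6543595), (nat_lit 6)), ((nat_lit 0x96542595), (nat_lit 6)), ((nat_lit 0x308308), (nat_lit 4)), ((nat_lit 20), (nat_lit 1)), ((nat_lit 19), (nat_lit 1)), ((nat_lit 0x50c38850c38c20c), (nat_lit 10)), ((nat_lit 0x30d21330d3084cc), (nat_lit 10))] (nat_lit 0xb69b6886471a96bb679f89d94b33337759069d65c687759e3632f130d53f86209009308f0a8),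
.c (nat_lit 22) (nat_lit 0xc10c0807a0503a035c741ae361a34d0ab7784d884201321034d07b8986d8842915e120991005287827c140ea0807b0304381027c041320009f),
.c (nat_lit 32) (nat_lit 0x2043018a180c13c080980504f0182601115c0e0a40804f025c7806e340409803b1402d8681a490048ae0304c01026004b28055cc032ca0257301450c0a0b004a4000dbc8081180609201046015c5802e1c0088e),
.c (nat_lit 3) (nat_lit 0x82600adcc015fc),
.c (nat_lit 27) (nat_lit 0xa02605515c288ae1504c0a02604cb28295cc152ca0b573046c502761a1104c0922b83ec502361a0e1a3078d104068c220a41204f075c78381301c0860f2ca0801d046e340163a),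
.c (nat_lit 14) (nat_lit 0xabe8065de04afa0297781a9200c0b005a40015bc80c118080920204601dc5806e1c01644),
.c (nat_lit 5) (nat_lit 0x408c030490082300ae2c0169e),
.c (nat_lit 25) (nat_lit 0xe08008870024f981c6980d0e00403d028188180f40f3ee09b8102829010698080f204076029f500ce4c083e00265100817008fc006acc043f002ab301adf4016cc),
.c (nat_lit 3) (nat_lit 0x81e80ae0c016d6),
.c (nat_lit 11) (nat_lit 0x82180813c060980404f0102600d15c0207a02b8901826012ddc016ea),
.c (nat_lit 88) (nat_lit 0x3a0583803013c1a0e00604c03d4b8261100c8ae0704c03026014b280d5cc072ca045730241c01409e0b07002026016a5c0f0880304c025bb80d15c080980304c01821810b280b5cc062ca03d730201481209e05b8f00d9d00ae34036f701b8d825c7c2013e0e0a5068448254bc0c132140e10904f84038416dde08099088448354bc14132180e10b04f85038426b9a1059507ae68316541c132100990745785422422a5e0e0990e07086827c301c2175cd0a2ca84d73420b2a120990a04c84a2bc2adde1209908b8985a2bc281321809f0b04c85027c2410e1007b0704083021c1410200075),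
.c (nat_lit 12) (nat_lit 0x404000cf98040f4040620303d024fb8181480a34c04870018d300ae04016fa),
.c (nat_lit 65) (nat_lit 0x33e604b83018d400c10c0808005043018200108340207a020310181e8127dc0c2140711004085024440143680a05205c9482813c160980c04f0502602d15c148ae0b04c05026024b28155cc0b2ca06573012e600d712071a6045c18101000a41a08870048d402013c120980a04f0402602515c108ae0904c0402601cb28115cc092ca0557300c1000973006b89038d3022e0c0d240058700249000e1c005702031b401494806e0c016fe),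
.c (nat_lit 8) (nat_lit 0x505802520006de40408c030490082300ae2c0170e),
.c (nat_lit 4) (nat_lit 0x60520382780ee3c0171a),
.c (nat_lit 6) (nat_lit 0x6d3a0751b0521783ac7c1563e0c42f),
.c (nat_lit 7) (nat_lit 0x5a7412d3a0609302b4e800ac40c85e0c093),
.c (nat_lit 37) (nat_lit 0xa0cb0428c81832c08b6602519002d981d7d416c82084db02a7c83343c14b2a08087056be82026411b6a0ad2d0624482baac1c1e60c35907064835a74141260969d0215880815c0c85e0c0930558f81ac7c080ae020930304681024c0411a00007),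
.c (nat_lit 0) (nat_lit 0),
.i (nat_lit 3) (nat_lit 101) [((nat_lit 6), (nat_lit 1)), ((nat_lit 1), (nat_lit 1)), ((nat_lit 4), (nat_lit 1)), ((nat_lit 2), (nat_lit 1)), ((nat_lit 0x44e), (nat_lit 2)), ((nat_lit 8), (nat_lit 1)), ((nat_lit 11), (nat_lit 1)), ((nat_lit 5), (nat_lit 1)), ((nat_lit 9), (nat_lit 1)), ((nat_lit 0x75c), (nat_lit 2)), ((nat_lit 0x10b10b), (nat_lit 4)), ((nat_lit 0x513), (nat_lit 2)), ((nat_lit 973), (nat_lit 2)), ((nat_lit 0x698), (nat_lit 2)), ((nat_lit 15), (nat_lit 1)), ((nat_lit 0x1144c4513), (nat_lit 6)), ((nat_lit 0x40f40f18d40640d), (nat_lit 10)), ((nat_lit 0x11a604698), (nat_lit 6)), ((nat_lit 0x9a602698), (nat_lit 6)), ((nat_lit 0x3d03c6406), (nat_lit 6)), ((nat_lit 25), (nat_lit 1)), ((nat_lit 23), (nat_lit 1)), ((nat_lit 0), (nat_lit 0)), ((nat_lit 0x8f40f1901823d03c6406), (nat_lit 14))] (nat_lit 0xba0b9f4c4366b9ea6d691b9d9a7365ac63648894fb3c32f23632fe3493ac80509009608f0a2),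
.c (nat_lit 17) (nat_lit 0xc08c070490282301885c0a42e03a8d02964802e860369d0404981da74045620842f07049830234141260808d),
.i (nat_lit 3) (nat_lit 112) [((nat_lit 6), (nat_lit 1)), ((nat_lit 1), (nat_lit 1)), ((nat_lit 4), (nat_lit 1)), ((nat_lit 2), (nat_lit 1)), ((nat_lit 0x44e), (nat_lit 2)), ((nat_lit 8), (nat_lit 1)), ((nat_lit 11), (nat_lit 1)), ((nat_lit 5), (nat_lit 1)), ((nat_lit 9), (nat_lit 1)), ((nat_lit 0x75c), (nat_lit 2)), ((nat_lit 0x10b10b), (nat_lit 4)), ((nat_lit 0x513), (nat_lit 2)), ((nat_lit 973), (nat_lit 2)), ((nat_lit 0x698), (nat_lit 2)), ((nat_lit 15), (nat_lit 1)), ((nat_lit 0x1144c4513), (nat_lit 6)), ((nat_lit 0x40f40f18d40640d), (nat_lit 10)), ((nat_lit 0x11a604698), (nat_lit 6)), ((nat_lit 0x9a602698), (nat_lit 6)), ((nat_lit 0x3d03c6406), (nat_lit 6)), ((nat_lit 25), (nat_lit 1)), ((nat_lit 23), (nat_lit 1)), ((nat_lit 0), (nat_lit 0)), ((nat_lit 0x8f40f1901823d03c6406), (nat_lit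 14))] (nat_lit 0xba0b9f4c4366b9ea6d691b9d9a7365ac63648894fb3c32f23632fe3493ac80509009608f0a2)]

theorem c27 : chk db th.hy ths 2980 J27 2927 = true := by decide +kernel

set_option maxRecDepth 100000 in
/-- Justifications. -/
noncomputable def J28 : List Js := [
.c (nat_lit 14) (nat_lit 0x19cf00b654041ed01b9e0080ac07048041ed00c168201180574607269840234040ae00093),
.i (nat_lit 3) (nat_lit 132) [((nat_lit 6), (nat_lit 1)), ((nat_lit 1), (nat_lit 1)), ((nat_lit 4), (nat_lit 1)), ((nat_lit 2), (nat_lit 1)), ((nat_lit 0x44e), (nat_lit 2)), ((nat_lit 8), (nat_lit 1)), ((nat_lit 11), (nat_lit 1)), ((nat_lit 5), (nat_lit 1)), ((nat_lit 9), (nat_lit 1)), ((nat_lit 0x75c), (nat_lit 2)), ((nat_lit 0x10b10b), (nat_lit 4)), ((nat_lit 0x513), (nat_lit 2)), ((nat_lit 973), (nat_lit 2)), ((nat_lit 0x698), (nat_lit 2)), ((nat_lit 15), (nat_lit 1)), ((nat_lit 0x1144c4513), (nat_lit 6)), ((nat_lit 0x40f40f18d40640d), (nat_lit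 10)), ((nat_lit 0x11a604698), (nat_lit 6)), ((nat_lit 0x9a602698), (nat_lit 6)), ((nat_lit 0x3d03c6406), (nat_lit 6)), ((nat_lit 25), (nat_lit 1)), ((nat_lit 23), (nat_lit 1)), ((nat_lit 0), (nat_lit 0)), ((nat_lit 0x8f40f1901823d03c6406), (nat_lit 14))] (nat_lit 0xba0b9f4c4366b9ea6d691b9d9a7365ac63648894fb3c32f23632fe3493ac80509009608f0a2),
.c (nat_lit 46) (nat_lit 0x1000200007040041c60200ac1368809046050d50281241608c0c049015d282c1a2143f309068840fcc1c5ea0c72905068820bd40c1a2047290575583ad641ad0a102710775584833c20902126db0a06484da24286aa1a3a90e13887833c381261a08d0c0498582f42811a120570804083824c0400200081),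
.i (nat_lit 3) (nat_lit 148) [((nat_lit 6), (nat_lit 1)), ((nat_lit 1), (nat_lit 1)), ((nat_lit 4), (nat_lit 1)), ((nat_lit 2), (nat_lit 1)), ((nat_lit 0x44e), (nat_lit 2)), ((nat_lit 8), (nat_lit 1)), ((nat_lit 11), (nat_lit 1)), ((nat_lit 5), (nat_lit 1)), ((nat_lit 9), (nat_lit 1)), ((nat_lit 0x75c), (nat_lit 2)), ((nat_lit 0x10b10b), (nat_lit 4)), ((nat_lit 0x513), (nat_lit 2)), ((nat_lit 973), (nat_lit 2)), ((nat_lit 0x698), (nat_lit 2)), ((nat_lit 15), (nat_lit 1)), ((nat_lit 0x1144c4513), (nat_lit 6)), ((nat_lit 0x40f40f18d40640d), (nat_lit 10)), ((nat_lit 0x11a604698), (nat_lit 6)), ((nat_lit 0x9a602698), (nat_lit 6)), ((nat_lit 0x3d03c6406), (nat_lit 6)), ((nat_lit 25), (nat_lit 1)), ((nat_lit 23), (nat_lit 1)), ((nat_lit 0), (nat_lit 0)), ((nat_lit 0x8f40f1901823d03c6406), (nat_lit 14))] (nat_lit 0xba0b9f4c4366b9ea6d691b9d9a7365ac63648894fb3c32f23632fe3493ac80509009608f0a2),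
.c (nat_lit 4) (nat_lit 0x2067005d3805b82040cf),
.i (nat_lit 3) (nat_lit 158) [((nat_lit 6), (nat_lit 1)), ((nat_lit 1), (nat_lit 1)), ((nat_lit 4), (nat_lit 1)), ((nat_lit 2), (nat_lit 1)), ((nat_lit 0x44e), (nat_lit 2)), ((nat_lit 8), (nat_lit 1)), ((nat_lit 11), (nat_lit 1)), ((nat_lit 5), (nat_lit 1)), ((nat_lit 9), (nat_lit 1)), ((nat_lit 0x75c), (nat_lit 2)), ((nat_lit 0x10b10b), (nat_lit 4)), ((nat_lit 0x513), (nat_lit 2)), ((nat_lit 973), (nat_lit 2)), ((nat_lit 0x698), (nat_lit 2)), ((nat_lit 15), (nat_lit 1)), ((nat_lit 0x1144c4513), (nat_lit 6)), ((nat_lit 0x40f40f18d40640d), (nat_lit 10)), ((nat_lit 0x11a604698), (nat_lit 6)), ((nat_lit 0x9a602698), (nat_lit 6)), ((nat_lit 0x3d03c6406), (nat_lit 6)), ((nat_lit 25), (nat_lit 1)), ((nat_lit 23), (nat_lit 1)), ((nat_lit 0), (nat_lit 0)), ((nat_lit 0x8f40f1901823d03c6406), (nat_lit 14))] (nat_lit 0xba0b9f4c4366b9ea6d691b9d9a7365ac63648894fb3c32f23632fe3493ac80509009608f0a2),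
.c (nat_lit 5) (nat_lit 0x408c036dc00d9a002ea60608d),
.c (nat_lit 29) (nat_lit 0x29970000280269c1532e0830703062810c1c0418a0009504589828d5c0885e0c0c30504982830c1018a06307020628082540000a06b13041ab8090bc1418608227031a081089c0468200069),
.c (nat_lit 0) (nat_lit 0),
.c (nat_lit 25) (nat_lit 0x49970100280da84000020c99705062820c1c0c18a041db0118380076c156260c3570706183830c1818a0a3070406281876c0860e021db00002822c4c146ae0c0c3),
.c (nat_lit 0) (nat_lit 0),
.c (nat_lit 9) (nat_lit 0xc5020618083140000a023570004680265c0418600005),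
.c (nat_lit 33) (nat_lit 0x10bd044cb8182b40a256030bd000028142e4040ea0434f0103d8082ac0a17a029970085e84265c1c15a0d12b0585e82265c0c15a0512b0185e8000140a17202075021a78081ec04156090b90303a820d3c0c0f6060ab),
.c (nat_lit 0) (nat_lit 0),
.c (nat_lit 73) (nat_lit 0xa0bf043f28182fc080ee027e50003b82d90412c5a0561106ae282d84c100ea0adb5047c583388c15d720e489063f5841f541c1da0e0f308b4483da74181260b68904b4e810ac4040ae0c3550321783b26c181261168906ba682ac7c0d63e0405701049838d542817e127e5083988382fc18fca0a731043f28182fc08fca020bf000018236d40df160ae230475c83122414fd60e7d5060768303cc1193612db5087c5838d5429c4612eb90805e84b88c21d7214489093f5859f54281da140f3),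
.c (nat_lit 0) (nat_lit 0),
.c (nat_lit 0) (nat_lit 0),
.c (nat_lit 0) (nat_lit 0),
.c (nat_lit 0) (nat_lit 0),
.c (nat_lit 30) (nat_lit 0x2cdc61434109113841b8c1c6820c2270537182089c0c6820422701371800d04306aa1608d0b05e85024c246aa1008d0664d82824c1c17a0c093051aa8202341017a06093021aa8082340417a00069),
.c (nat_lit 0) (nat_lit 0),
.c (nat_lit 60) (nat_lit 0xb395850fcc241a21072b071f983034414e56080d1031f981034404e56003f3041d48289c41819e103a90c1d4870d54347521808d0d05e8609c42c126163a90a1aa848ea42011a1427112395888fcc401a21e72b0e1f986834430e56163290a068849cac206520e0d106395828344107e6060d102395808fcc00002063a90413882833c1c19e0ac9b0404983833c1817a0a093051d4820d540c11a0e3a9),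
.c (nat_lit 5) (nat_lit 0x29970000280265c0418600005),
.i (nat_lit 3) (nat_lit 9) [((nat_lit 9), (nat_lit 1)), ((nat_lit 2), (nat_lit 1)), ((nat_lit 0x3603), (nat_lit 3)), ((nat_lit 1), (nat_lit 1)), ((nat_lit 0x40f40f), (nat_lit 4)), ((nat_lit 0x83603083603), (nat_lit 8)), ((nat_lit 15), (nat_lit 1)), ((nat_lit 5), (nat_lit 1)), ((nat_lit 0x3d03c6406), (nat_lit 6)), ((nat_lit 0x2420d80c20d80c9083603083603), (nat_lit 18)), ((nat_lit 0), (nat_lit 0)), ((nat_lit 23), (nat_lit 1)), ((nat_lit 0x605605), (nat_lit 4)), ((nat_lit 0x24f40f1901893d03c6406), (nat_lit 14)), ((nat_lit 0x5cf4173d05d03d05cf), (nat_lit 12)), ((nat_lit 0xd80d70d80d7), (nat_lit 8)), ((nat_lit 0x258158149605605), (nat_lit 10)), ((nat_lit 0xd80c93d03c640624f40f19018360324f40f1901893d03c6406), (nat_lit 34)), ((nat_lit 0x493d03c640624f40f19018124f40f1901893d03c6406), (nat_lit 30)), ((nat_lit 0), (nat_lit 0)), ((nat_lit 0xd80d73d05cf41740f4173c36035cf4173d05d03d05cf),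 (nat_lit 30)), ((nat_lit 0x5da3d05da5d05cf), (nat_lit 10)), ((nat_lit 0), (nat_lit 0)), ((nat_lit 0), (nat_lit 0))] (nat_lit 0x311bbabb9bb8bb7bb6bb5bb4bb3bb2bb1bb03cabafbaebad48b46dbacbab7a908f2ad0900ab),
.c (nat_lit 46) (nat_lit 0x80ac060920402b02800828118160bc0c049068230381781a0f20d076071f5030fd41a4880b75c06388829f1416db40a03a05d84832b88116100ab1605d900180ec0e7e40803b0482f828fc8160be06bbb8602345817a2a08d140498982f44811a220931005e87824c14006080570304981015c0411a00093),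
.i (nat_lit 3) (nat_lit 45) [((nat_lit 9), (nat_lit 1)), ((nat_lit 2), (nat_lit 1)), ((nat_lit 0x3603), (nat_lit 3)), ((nat_lit 1), (nat_lit 1)), ((nat_lit 0x40f40f), (nat_lit 4)), ((nat_lit 0x83603083603), (nat_lit 8)), ((nat_lit 15), (nat_lit 1)), ((nat_lit 5), (nat_lit 1)), ((nat_lit 0x3d03c6406), (nat_lit 6)), ((nat_lit 0x2420d80c20d80c9083603083603), (nat_lit 18)), ((nat_lit 0), (nat_lit 0)), ((nat_lit 23), (nat_lit 1)), ((nat_lit 0x605605), (nat_lit 4)), ((nat_lit 0x24f40f1901893d03c6406), (nat_lit 14)), ((nat_lit 0x5cf4173d05d03d05cf), (nat_lit 12)), ((nat_lit 0xd80d70d80d7), (nat_lit 8)), ((nat_lit 0x258158149605605), (nat_lit 10)), ((nat_lit 0xd80c93d03c640624f40f19018360324f40f1901893d03c6406), (nat_lit 34)), ((nat_lit 0x493d03c640624f40f19018124f40f1901893d03c6406), (nat_lit 30)), ((nat_lit 0), (nat_lit 0)), ((nat_lit 0xd80d73d05cf41740f4173c36035cf4173d05d03d05cf), (nat_lit 30)), ((nat_lit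 0x5da3d05da5d05cf), (nat_lit 10)), ((nat_lit 0), (nat_lit 0)), ((nat_lit 0), (nat_lit 0))] (nat_lit 0x311bbabb9bb8bb7bb6bb5bb4bb3bb2bb1bb03cabafbaebad48b46dbacbab7a908f2ad0900ab),
.c (nat_lit 65) (nat_lit 0x47d40124400388808fd402eb8020670182f0101240a0bc060010703383c6e820f7e116ca081f503c178100920964d0609c020118120920abbc060d503475012c9a0c13806dde01eef4197790b13884326c307521635509bbc84024c1c11a162710864d83824c38e621a0ff0c3f2859cc4281fe12731083f2839cc42dc4614eb90c6ca85bdfc49b2a22f7f1505e8a03f44c1e6240ed1106783000c1417a080930305e81033c041da000f3),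
.i (nat_lit 3) (nat_lit 52) [((nat_lit 9), (nat_lit 1)), ((nat_lit 2), (nat_lit 1)), ((nat_lit 0x3603), (nat_lit 3)), ((nat_lit 1), (nat_lit 1)), ((nat_lit 0x40f40f), (nat_lit 4)), ((nat_lit 0x83603083603), (nat_lit 8)), ((nat_lit 15), (nat_lit 1)), ((nat_lit 5), (nat_lit 1)), ((nat_lit 0x3d03c6406), (nat_lit 6)), ((nat_lit 0x2420d80c20d80c9083603083603), (nat_lit 18)), ((nat_lit 0), (nat_lit 0)), ((nat_lit 23), (nat_lit 1)), ((nat_lit 0x605605), (nat_lit 4)), ((nat_lit 0x24f40f1901893d03c6406), (nat_lit 14)), ((nat_lit 0x5cf4173d05d03d05cf), (nat_lit 12)), ((nat_lit 0xd80d70d80d7), (nat_lit 8)), ((nat_lit 0x258158149605605), (nat_lit 10)), ((nat_lit 0xd80c93d03c640624f40f19018360324f40f1901893d03c6406), (nat_lit 34)), ((nat_lit 0x493d03c640624f40f19018124f40f1901893d03c6406), (nat_lit 30)), ((nat_lit 0), (nat_lit 0)), ((nat_lit 0xd80d73d05cf41740f4173c36035cf4173d05d03d05cf), (nat_lit 30)), ((nat_lit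 0x5da3d05da5d05cf), (nat_lit 10)), ((nat_lit 0), (nat_lit 0)), ((nat_lit 0), (nat_lit 0))] (nat_lit 0x311bbabb9bb8bb7bb6bb5bb4bb3bb2bb1bb03cabafbaebad48b46dbacbab7a908f2ad0900ab),
.c (nat_lit 46) (nat_lit 0x4124040bc03046020248141180c05607049040158240a0242701005507b9e03aca81a3da0c73c060290360a01505a0b049065d203c9a41577f100468a5de44c4e220c9b0f049890ea4446aa1f7791513889326c44126300bd170678b024c240a2100570704983015c1411a08093030468102f404126000bd),
.c (nat_lit 4) (nat_lit 0x20670053a006f02040cf),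
.c (nat_lit 143) (nat_lit 0x2f03b17cfa8c007a610793083b188fa8c607a5303d2901e9440f4a007a4103d1f8468f87087b44c3c96f1e03c8f4228780c83d6961f01e8fe31880b3640076208e0908234860ec4403d2283c8981e44e384261c21383b0a0fa84407a2003410b0c88d88c4c72627a93141c98a47c05407a2b0761654c8bea706034031222190f80cea4c68c32366231c8d00e8888767263c1f01d3ab0eda586d312378c61c3118ece4c783e03d03d1f4610fdcf8811844173e21311914e4c8c3e04703d2431192c680984444d393270f8131d589ad2c4898924c6312988c6a340362221b9c98e07c07207a3a6231e8e40f844c7e39040113209c99087c08607a44623238d0120888927264a1f0243ab125a5889312458c62303c9181d88e7d4457562334b1066248518c430792183b110fa884eac436962102490cfd4884883ea8d20527105d487e7ea402441e9648fa9387eea42303d1030c87c6784153a21ac4111c588cb2c4833c2538b1316589c6785153a29b990682f03af040153c),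
.c (nat_lit 12) (nat_lit 0x23ba8112c484665024dc0139940a3700547bc2d328176e00c4ca066ea0016a2),
.c (nat_lit 14) (nat_lit 0x81ba020950006e8136840daf20835f0506d8202640c44e0406901afa8102640460e00005),
.c (nat_lit 0) (nat_lit 0),
.c (nat_lit 9) (nat_lit 0x63d702047808f5c0000206099021a08081a401b7202099),
.c (nat_lit 0) (nat_lit 0),
.c (nat_lit 32) (nat_lit 0x326d812f1c049b6000570369a81364411a6a06d910204c818d6c0934e02069006dc80d7d409b72075f5051ab8236e40485e0008d0458981d7d40812606357026dc80823409626035f5000498134d405b2200099),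
.c (nat_lit 0) (nat_lit 0),
.c (nat_lit 7) (nat_lit 0x5b9c06b52056e703055810264040d200099),
.c (nat_lit 0) (nat_lit 0),
.c (nat_lit 15) (nat_lit 0x36440534e0cd91070618302641444e0834103113810d04040d200db901afa8136e40ebea08099),
.c (nat_lit 13) (nat_lit 0x16a107061830fcc141a2083f30317a810344045ea00001025ac818ea4104e20a0cf),
.c (nat_lit 0) (nat_lit 0),
.c (nat_lit 0) (nat_lit 0),
.i (nat_lit 3) (nat_lit 56) [((nat_lit 3), (nat_lit 1)), ((nat_lit 7), (nat_lit 1)), ((nat_lit 0x11251), (nat_lit 3)), ((nat_lit 1), (nat_lit 1)), ((nat_lit 16), (nat_lit 1)), ((nat_lit 0x1d12511d1251), (nat_lit 8)), ((nat_lit 6), (nat_lit 1)), ((nat_lit 12), (nat_lit 1)), ((nat_lit 15), (nat_lit 1)), ((nat_lit 0xc74494474494431d12511d1251), (nat_lit 18)), ((nat_lit 0x698), (nat_lit 2)), ((nat_lit 20), (nat_lit 1)), ((nat_lit 0x44944c44944c), (nat_lit 8)), ((nat_lit 24), (nat_lit 1)), ((nat_lit 0x1cf1cf), (nat_lit 4)), ((nat_lit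 0), (nat_lit 0)), ((nat_lit 0xd125131125130344944c44944c), (nat_lit 18)), ((nat_lit 0x40f40f), (nat_lit 4)), ((nat_lit 0x3d03c6406), (nat_lit 6)), ((nat_lit 0xc73c73c31cf1cf), (nat_lit 10)), ((nat_lit 0x4494473c73d12511cf1cf), (nat_lit 14)), ((nat_lit 0x473c73c11cf1cf), (nat_lit 10)), ((nat_lit 0x4494431cf1cf0c73c73d12510c73c73c31cf1cf), (nat_lit 26)), ((nat_lit 0x431cf1cf0c73c73c10c73c73c31cf1cf), (nat_lit 22))] (nat_lit 0x724bcf722bce720bcdbccbcbbca3e5586bc971abc8bc7bc6428494bc5bc471808f2b90a5093),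
.c (nat_lit 41) (nat_lit 0x2056020490181588c130496e6256c81334d07c85c44db823b2a120d5894750435f42273c11ac48904e040db821b2a110d588c750416e60626d02d7d01ad54104da0958b052d601ebe810b120913803b64021a68084da055e303136812f40180990302b81024c040ae0008d),
.c (nat_lit 23) (nat_lit 0x193c4087b2020ff001ec8212640d09a0e09f071b1841a8c246c6140e7091ec8403fc1c7b20c1cd051ec8220f40c39a040ff011ec80000c0909a060fd),
.c (nat_lit 0) (nat_lit 0),
.c (nat_lit 0) (nat_lit 0),
.i (nat_lit 3) (nat_lit 11) [((nat_lit 2), (nat_lit 1)), ((nat_lit 7), (nat_lit 1)), ((nat_lit 1), (nat_lit 1)), ((nat_lit 4), (nat_lit 1)), ((nat_lit 5), (nat_lit 1)), ((nat_lit 12), (nat_lit 1)), ((nat_lit 9), (nat_lit 1)), ((nat_lit 0x490), (nat_lit 2)), ((nat_lit 8), (nat_lit 1)), ((nat_lit 19), (nat_lit 1)), ((nat_lit 15), (nat_lit 1)), ((nat_lit 0x81f), (nat_lit 2)), ((nat_lit 0x792692), (nat_lit 4)), ((nat_lit 13), (nat_lit 1)), ((nat_lit 0x595), (nat_lit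 2)), ((nat_lit 0x607c181f), (nat_lit 6)), ((nat_lit 0x1289a485485692), (nat_lit 9)), ((nat_lit 0x657), (nat_lit 2)), ((nat_lit 25), (nat_lit 1)), ((nat_lit 0x96542595), (nat_lit 6)), ((nat_lit 0x56541595), (nat_lit 6)), ((nat_lit 0x116544595), (nat_lit 6)), ((nat_lit 0x42595096541096542595), (nat_lit 14)), ((nat_lit 0x102595096544096542595), (nat_lit 14))] (nat_lit 0xbd4bd39e8866b672f36eabd298560d38334b81d3658643492e943b42848b86309608f0a5090),
.c (nat_lit 19) (nat_lit 0x183381013c0c37405bd506827c306ea160cf0b4268412641c0a22009f0f07e87033c3413e0809f0306781027c040a20009f),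
.i (nat_lit 3) (nat_lit 12) [((nat_lit 2), (nat_lit 1)), ((nat_lit 7), (nat_lit 1)), ((nat_lit 1), (nat_lit 1)), ((nat_lit 4), (nat_lit 1)), ((nat_lit 5), (nat_lit 1)), ((nat_lit 12), (nat_lit 1)), ((nat_lit 9), (nat_lit 1)), ((nat_lit 0x490), (nat_lit 2)), ((nat_lit 8), (nat_lit 1)), ((nat_lit 19), (nat_lit 1)), ((nat_lit 15), (nat_lit 1)), ((nat_lit 0x81f), (nat_lit 2)), ((nat_lit 0x792692), (nat_lit 4)), ((nat_lit 13), (nat_lit 1)), ((nat_lit 0x595), (nat_lit 2)), ((nat_lit 0x607c181f), (nat_lit 6)), ((nat_lit 0x1289a485485692), (nat_lit 9)), ((nat_lit 0x657), (nat_lit 2)), ((nat_lit 25), (nat_lit 1)), ((nat_lit 0x96542595), (nat_lit 6)), ((nat_lit 0x56541595), (nat_lit 6)), ((nat_lit 0x116544595), (nat_lit 6)), ((nat_lit 0x42595096541096542595), (nat_lit 14)), ((nat_lit 0x102595096544096542595), (nat_lit 14))] (nat_lit 0xbd4bd39e8866b672f36eabd298560d38334b81d3658643492e943b42848b86309608f0a5090),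
.c (nat_lit 30) (nat_lit 0x930020020904f050d8818d440c09e071b1019260189280a3620424a02033814d440a09e061b1015eb8149e2083d90307f810f6416f5a1209f084268292642c1ce1409f0907e84027c040060009f),
.i (nat_lit 3) (nat_lit 62) [((nat_lit 2), (nat_lit 1)), ((nat_lit 7), (nat_lit 1)), ((nat_lit 1), (nat_lit 1)), ((nat_lit 4), (nat_lit 1)), ((nat_lit 5), (nat_lit 1)), ((nat_lit 12), (nat_lit 1)), ((nat_lit 9), (nat_lit 1)), ((nat_lit 0x490), (nat_lit 2)), ((nat_lit 8), (nat_lit 1)), ((nat_lit 19), (nat_lit 1)), ((nat_lit 15), (nat_lit 1)), ((nat_lit 0x81f), (nat_lit 2)), ((nat_lit 0x792692), (nat_lit 4)), ((nat_lit 13), (nat_lit 1)), ((nat_lit 0x595), (nat_lit 2)), ((nat_lit 0x607c181f), (nat_lit 6)), ((nat_lit 0x1289a485485692), (nat_lit 9)), ((nat_lit 0x657), (nat_lit 2)), ((nat_lit 25), (nat_lit 1)), ((nat_lit 0x96542595), (nat_lit 6)), ((nat_lit 0x56541595), (nat_lit 6)), ((nat_lit 0x116544595), (nat_lit 6)), ((nat_lit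 0x42595096541096542595), (nat_lit 14)), ((nat_lit 0x102595096544096542595), (nat_lit 14))] (nat_lit 0xbd4bd39e8866b672f36eabd298560d38334b81d3658643492e943b42848b86309608f0a5090),
.c (nat_lit 21) (nat_lit 0x9e010670102781c1601107c0805b04baf0299fc127d403bd902345c0e902096810d0738603cc2c1da140b70905881027c0419e0009f),
.i (nat_lit 3) (nat_lit 79) [((nat_lit 2), (nat_lit 1)), ((nat_lit 7), (nat_lit 1)), ((nat_lit 1), (nat_lit 1)), ((nat_lit 4), (nat_lit 1)), ((nat_lit 5), (nat_lit 1)), ((nat_lit 12), (nat_lit 1)), ((nat_lit 9), (nat_lit 1)), ((nat_lit 0x490), (nat_lit 2)), ((nat_lit 8), (nat_lit 1)), ((nat_lit 19), (nat_lit 1)), ((nat_lit 15), (nat_lit 1)), ((nat_lit 0x81f), (nat_lit 2)), ((nat_lit 0x792692), (nat_lit 4)), ((nat_lit 13), (nat_lit 1)), ((nat_lit 0x595), (nat_lit 2)), ((nat_lit 0x607c181f), (nat_lit 6)), ((nat_lit 0x1289a485485692), (nat_lit 9)), ((nat_lit 0x657), (nat_lit 2)), ((nat_lit 25),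 (nat_lit 1)), ((nat_lit 0x96542595), (nat_lit 6)), ((nat_lit 0x56541595), (nat_lit 6)), ((nat_lit 0x116544595), (nat_lit 6)), ((nat_lit 0x42595096541096542595), (nat_lit 14)), ((nat_lit 0x102595096544096542595), (nat_lit 14))] (nat_lit 0xbd4bd39e8866b672f36eabd298560d38334b81d3658643492e943b42848b86309608f0a5090),
.c (nat_lit 37) (nat_lit 0x500104f010140281cc12e1a081b10483f01819c0e6a2081ba049a88286e81609e0604f01926012f60077b6036d282dec410b9a0ada5062e68192641db4a0c09f0c04f858dd428d46123750835183833c281fa123630a0738101440413e00051),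
.i (nat_lit 3) (nat_lit 104) [((nat_lit 2), (nat_lit 1)), ((nat_lit 7), (nat_lit 1)), ((nat_lit 1), (nat_lit 1)), ((nat_lit 4), (nat_lit 1)), ((nat_lit 5), (nat_lit 1)), ((nat_lit 12), (nat_lit 1)), ((nat_lit 9), (nat_lit 1)), ((nat_lit 0x490), (nat_lit 2)), ((nat_lit 8), (nat_lit 1)), ((nat_lit 19), (nat_lit 1)), ((nat_lit 15), (nat_lit 1)), ((nat_lit 0x81f), (nat_lit 2)), ((nat_lit 0x792692), (nat_lit 4)), ((nat_lit 13), (nat_lit 1)), ((nat_lit 0x595), (nat_lit 2)), ((nat_lit 0x607c181f), (nat_lit 6)), ((nat_lit 0x1289a485485692), (nat_lit 9)), ((nat_lit 0x657), (nat_lit 2)), ((nat_lit 25), (nat_lit 1)), ((nat_lit 0x96542595), (nat_lit 6)), ((nat_lit 0x56541595), (nat_lit 6)), ((nat_lit 0x116544595), (nat_lit 6)), ((nat_lit 0x42595096541096542595), (nat_lit 14)), ((nat_lit 0x102595096544096542595), (nat_lit 14))] (nat_lit 0xbd4bd39e8866b672f36eabd298560d38334b81d3658643492e943b42848b86309608f0a5090),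
.c (nat_lit 46) (nat_lit 0xa00209e020280503202c1cc14e1a0976a040d88241f80c0ce07351040dd024d44143740b04f0302780c930097b003bdd0236940dc560d7b1052e6821d3c19b4a0ae2b072e6831d3c0c93210da50771583027c3413e183750b351850dd424d46100cf0b07e850d8c1ef72160e70a0648101440413e00051),
.i (nat_lit 3) (nat_lit 105) [((nat_lit 2), (nat_lit 1)), ((nat_lit 7), (nat_lit 1)), ((nat_lit 1), (nat_lit 1)), ((nat_lit 4), (nat_lit 1)), ((nat_lit 5), (nat_lit 1)), ((nat_lit 12), (nat_lit 1)), ((nat_lit 9), (nat_lit 1)), ((nat_lit 0x490), (nat_lit 2)), ((nat_lit 8), (nat_lit 1)), ((nat_lit 19), (nat_lit 1)), ((nat_lit 15), (nat_lit 1)), ((nat_lit 0x81f), (nat_lit 2)), ((nat_lit 0x792692), (nat_lit 4)), ((nat_lit 13), (nat_lit 1)), ((nat_lit 0x595), (nat_lit 2)), ((nat_lit 0x607c181f), (nat_lit 6)), ((nat_lit 0x1289a485485692), (nat_lit 9)), ((nat_lit 0x657), (nat_lit 2)), ((nat_lit 25), (nat_lit 1)), ((nat_lit 0x96542595), (nat_lit 6)),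 ((nat_lit 0x56541595), (nat_lit 6)), ((nat_lit 0x116544595), (nat_lit 6)), ((nat_lit 0x42595096541096542595), (nat_lit 14)), ((nat_lit 0x102595096544096542595), (nat_lit 14))] (nat_lit 0xbd4bd39e8866b672f36eabd298560d38334b81d3658643492e943b42848b86309608f0a5090),
.c (nat_lit 39) (nat_lit 0x18398086c402e2e001b10081400813c060500d073060d88341f8140ce0b351060dd034d441c3740f04f0212601c9a41009e04746035ec012f7c0b7b10424c83827c3013e163750a351848dd420d460e0cf0a07e848d8c29c5e160e70302881027c040a2000e7),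
.i (nat_lit 3) (nat_lit 121) [((nat_lit 2), (nat_lit 1)), ((nat_lit 7), (nat_lit 1)), ((nat_lit 1), (nat_lit 1)), ((nat_lit 4), (nat_lit 1)), ((nat_lit 5), (nat_lit 1)), ((nat_lit 12), (nat_lit 1)), ((nat_lit 9), (nat_lit 1)), ((nat_lit 0x490), (nat_lit 2)), ((nat_lit 8), (nat_lit 1)), ((nat_lit 19), (nat_lit 1)), ((nat_lit 15), (nat_lit 1)), ((nat_lit 0x81f), (nat_lit 2)), ((nat_lit 0x792692), (nat_lit 4)), ((nat_lit 13), (nat_lit 1)), ((nat_lit 0x595), (nat_lit 2)), ((nat_lit 0x607c181f), (nat_lit 6)), ((nat_lit 0x1289a485485692), (nat_lit 9)), ((nat_lit 0x657), (nat_lit 2)), ((nat_lit 25), (nat_lit 1)), ((nat_lit 0x96542595), (nat_lit 6)), ((nat_lit 0x56541595), (nat_lit 6)), ((nat_lit 0x116544595), (nat_lit 6)), ((nat_lit 0x42595096541096542595), (nat_lit 14)), ((nat_lit 0x102595096544096542595), (nat_lit 14))] (nat_lit 0xbd4bd39e8866b672f36eabd298560d38334b81d3658643492e943b42848b86309608f0a5090),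
.c (nat_lit 58) (nat_lit 0x81cc0409e031b101823011c5c0809e051b1004ce8040a00409e03028068278286c412e2e081b104df002c1cc143620b07e04033824d44143740b351060dd03413c1009e0905e0390c8109300ced6083a703b8a811dac0d7b004be102dec4109320e09f0c04f858dd428d46123750835183833c281fa123630a99d8490cc2a4e21a09f0d0738602342c13e1408d0302881027c040a2000e7),
.i (nat_lit 3) (nat_lit 124) [((nat_lit 2), (nat_lit 1)), ((nat_lit 7), (nat_lit 1)), ((nat_lit 1), (nat_lit 1)), ((nat_lit 4), (nat_lit 1)), ((nat_lit 5), (nat_lit 1)), ((nat_lit 12), (nat_lit 1)), ((nat_lit 9), (nat_lit 1)), ((nat_lit 0x490), (nat_lit 2)), ((nat_lit 8), (nat_lit 1)), ((nat_lit 19), (nat_lit 1)), ((nat_lit 15), (nat_lit 1)), ((nat_lit 0x81f), (nat_lit 2)), ((nat_lit 0x792692), (nat_lit 4)), ((nat_lit 13), (nat_lit 1)), ((nat_lit 0x595), (nat_lit 2)), ((nat_lit 0x607c181f), (nat_lit 6)), ((nat_lit 0x1289a485485692), (nat_lit 9)), ((nat_lit 0x657), (nat_lit 2)),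 ((nat_lit 25), (nat_lit 1)), ((nat_lit 0x96542595), (nat_lit 6)), ((nat_lit 0x56541595), (nat_lit 6)), ((nat_lit 0x116544595), (nat_lit 6)), ((nat_lit 0x42595096541096542595), (nat_lit 14)), ((nat_lit 0x102595096544096542595), (nat_lit 14))] (nat_lit 0xbd4bd39e8866b672f36eabd298560d38334b81d3658643492e943b42848b86309608f0a5090),
.c (nat_lit 31) (nat_lit 0x140246c40c3620707e02033814d440c37407351040dd02413c0809e0124c015ec006f8e077b10224c80933c1413e1409f091ba841a8c1c6ea0c6a3050678403f41c6c6100e70704f8303f4141ce00051),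
.i (nat_lit 3) (nat_lit 126) [((nat_lit 2), (nat_lit 1)), ((nat_lit 7), (nat_lit 1)), ((nat_lit 1), (nat_lit 1)), ((nat_lit 4), (nat_lit 1)), ((nat_lit 5), (nat_lit 1)), ((nat_lit 12), (nat_lit 1)), ((nat_lit 9), (nat_lit 1)), ((nat_lit 0x490), (nat_lit 2)), ((nat_lit 8), (nat_lit 1)), ((nat_lit 19), (nat_lit 1)), ((nat_lit 15), (nat_lit 1)), ((nat_lit 0x81f), (nat_lit 2)), ((nat_lit 0x792692), (nat_lit 4)), ((nat_lit 13), (nat_lit 1)), ((nat_lit 0x595), (nat_lit 2)), ((nat_lit 0x607c181f), (nat_lit 6)), ((nat_lit 0x1289a485485692), (nat_lit 9)), ((nat_lit 0x657), (nat_lit 2)), ((nat_lit 25), (nat_lit 1)), ((nat_lit 0x96542595), (nat_lit 6)), ((nat_lit 0x56541595), (nat_lit 6)), ((nat_lit 0x116544595), (nat_lit 6)), ((nat_lit 0x42595096541096542595), (nat_lit 14)), ((nat_lit 0x102595096544096542595), (nat_lit 14))] (nat_lit 0xbd4bd39e8866b672f36eabd298560d38334b81d3658643492e943b42848b86309608f0a5090),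
.c (nat_lit 3) (nat_lit 0x1d05802f96080e7),
.i (nat_lit 3) (nat_lit 129) [((nat_lit 2), (nat_lit 1)), ((nat_lit 7), (nat_lit 1)), ((nat_lit 1), (nat_lit 1)), ((nat_lit 4), (nat_lit 1)), ((nat_lit 5), (nat_lit 1)), ((nat_lit 12), (nat_lit 1)), ((nat_lit 9), (nat_lit 1)), ((nat_lit 0x490), (nat_lit 2)), ((nat_lit 8), (nat_lit 1)), ((nat_lit 19), (nat_lit 1)), ((nat_lit 15), (nat_lit 1)), ((nat_lit 0x81f), (nat_lit 2)), ((nat_lit 0x792692), (nat_lit 4)), ((nat_lit 13), (nat_lit 1)), ((nat_lit 0x595), (nat_lit 2)), ((nat_lit 0x607c181f), (nat_lit 6)), ((nat_lit 0x1289a485485692), (nat_lit 9)), ((nat_lit 0x657), (nat_lit 2)), ((nat_lit 25), (nat_lit 1)), ((nat_lit 0x96542595), (nat_lit 6)), ((nat_lit 0x56541595), (nat_lit 6)), ((nat_lit 0x116544595), (nat_lit 6)), ((nat_lit 0x42595096541096542595), (nat_lit 14)), ((nat_lit 0x102595096544096542595), (nat_lit 14))] (nat_lit 0xbd4bd39e8866b672f36eabd298560d38334b81d3658643492e943b42848b86309608f0a5090),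
.c (nat_lit 34) (nat_lit 0x13c0306e0404f028200281cc0d7cf09b478442241ecba0d089097b783c1bc3211e1e3570e7b7868d5c41f521f08f0e7d487830c401861ed5d1007089039c441c22009f0f0678702c4141020809f0304681027c041c20009f)]

theorem c28 : chk db th.hy ths 3049 J28 2980 = true := by decide +kernel

set_option maxRecDepth 100000 in
/-- Justifications. -/
noncomputable def J29 : List Js := [
.i (nat_lit 3) (nat_lit 130) [((nat_lit 2), (nat_lit 1)), ((nat_lit 7), (nat_lit 1)), ((nat_lit 1), (nat_lit 1)), ((nat_lit 4), (nat_lit 1)), ((nat_lit 5), (nat_lit 1)), ((nat_lit 12), (nat_lit 1)), ((nat_lit 9), (nat_lit 1)), ((nat_lit 0x490), (nat_lit 2)), ((nat_lit 8), (nat_lit 1)), ((nat_lit 19), (nat_lit 1)), ((nat_lit 15), (nat_lit 1)), ((nat_lit 0x81f), (nat_lit 2)), ((nat_lit 0x792692), (nat_lit 4)), ((nat_lit 13), (nat_lit 1)), ((nat_lit 0x595), (nat_lit 2)), ((nat_lit 0x607c181f), (nat_lit 6)), ((nat_lit 0x1289a485485692), (nat_lit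 9)), ((nat_lit 0x657), (nat_lit 2)), ((nat_lit 25), (nat_lit 1)), ((nat_lit 0x96542595), (nat_lit 6)), ((nat_lit 0x56541595), (nat_lit 6)), ((nat_lit 0x116544595), (nat_lit 6)), ((nat_lit 0x42595096541096542595), (nat_lit 14)), ((nat_lit 0x102595096544096542595), (nat_lit 14))] (nat_lit 0xbd4bd39e8866b672f36eabd298560d38334b81d3658643492e943b42848b86309608f0a5090),
.c (nat_lit 13) (nat_lit 0x208c030580202d80afa4076af02be88602dc2c162140cf0904f8403840411a0009f),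
.i (nat_lit 3) (nat_lit 132) [((nat_lit 2), (nat_lit 1)), ((nat_lit 7), (nat_lit 1)), ((nat_lit 1), (nat_lit 1)), ((nat_lit 4), (nat_lit 1)), ((nat_lit 5), (nat_lit 1)), ((nat_lit 12), (nat_lit 1)), ((nat_lit 9), (nat_lit 1)), ((nat_lit 0x490), (nat_lit 2)), ((nat_lit 8), (nat_lit 1)), ((nat_lit 19), (nat_lit 1)), ((nat_lit 15), (nat_lit 1)), ((nat_lit 0x81f), (nat_lit 2)), ((nat_lit 0x792692), (nat_lit 4)), ((nat_lit 13), (nat_lit 1)), ((nat_lit 0x595), (nat_lit 2)), ((nat_lit 0x607c181f), (nat_lit 6)), ((nat_lit 0x1289a485485692), (nat_lit 9)), ((nat_lit 0x657), (nat_lit 2)), ((nat_lit 25), (nat_lit 1)), ((nat_lit 0x96542595), (nat_lit 6)), ((nat_lit 0x56541595), (nat_lit 6)), ((nat_lit 0x116544595), (nat_lit 6)), ((nat_lit 0x42595096541096542595), (nat_lit 14)), ((nat_lit 0x102595096544096542595), (nat_lit 14))] (nat_lit 0xbd4bd39e8866b672f36eabd298560d38334b81d3658643492e943b42848b86309608f0a5090),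
.c (nat_lit 42) (nat_lit 0xa0255c0131b10a57004682c203620f04f0803981ac140c3620707e02033814d440c37407351040dd02413c0809e0124c015ec006fae077b10224c80ab6c0ec6a0e09f0d04f860dd42cd46143750935184033c2c1fa143630b07385027c241fa100e70704f8302941413e00051),
.i (nat_lit 3) (nat_lit 134) [((nat_lit 2), (nat_lit 1)), ((nat_lit 7), (nat_lit 1)), ((nat_lit 1), (nat_lit 1)), ((nat_lit 4), (nat_lit 1)), ((nat_lit 5), (nat_lit 1)), ((nat_lit 12), (nat_lit 1)), ((nat_lit 9), (nat_lit 1)), ((nat_lit 0x490), (nat_lit 2)), ((nat_lit 8), (nat_lit 1)), ((nat_lit 19), (nat_lit 1)), ((nat_lit 15), (nat_lit 1)), ((nat_lit 0x81f), (nat_lit 2)), ((nat_lit 0x792692), (nat_lit 4)), ((nat_lit 13), (nat_lit 1)), ((nat_lit 0x595), (nat_lit 2)), ((nat_lit 0x607c181f), (nat_lit 6)), ((nat_lit 0x1289a485485692), (nat_lit 9)), ((nat_lit 0x657), (nat_lit 2)), ((nat_lit 25), (nat_lit 1)), ((nat_lit 0x96542595), (nat_lit 6)), ((nat_lit 0x56541595),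 (nat_lit 6)), ((nat_lit 0x116544595), (nat_lit 6)), ((nat_lit 0x42595096541096542595), (nat_lit 14)), ((nat_lit 0x102595096544096542595), (nat_lit 14))] (nat_lit 0xbd4bd39e8866b672f36eabd298560d38334b81d3658643492e943b42848b86309608f0a5090),
.c (nat_lit 34) (nat_lit 0x286c41209e0a073048d881813c0a5de06353028d88181f8060ce04351028dd018d440e3740804f01827800930037b000bed80827c06f621409f091ba841a8c1c6ea0c6a3050678403f41c6c6100e70704f8303f4141ce0809f),
.i (nat_lit 3) (nat_lit 138) [((nat_lit 2), (nat_lit 1)), ((nat_lit 7), (nat_lit 1)), ((nat_lit 1), (nat_lit 1)), ((nat_lit 4), (nat_lit 1)), ((nat_lit 5), (nat_lit 1)), ((nat_lit 12), (nat_lit 1)), ((nat_lit 9), (nat_lit 1)), ((nat_lit 0x490), (nat_lit 2)), ((nat_lit 8), (nat_lit 1)), ((nat_lit 19), (nat_lit 1)), ((nat_lit 15), (nat_lit 1)), ((nat_lit 0x81f), (nat_lit 2)), ((nat_lit 0x792692), (nat_lit 4)), ((nat_lit 13), (nat_lit 1)), ((nat_lit 0x595), (nat_lit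 2)), ((nat_lit 0x607c181f), (nat_lit 6)), ((nat_lit 0x1289a485485692), (nat_lit 9)), ((nat_lit 0x657), (nat_lit 2)), ((nat_lit 25), (nat_lit 1)), ((nat_lit 0x96542595), (nat_lit 6)), ((nat_lit 0x56541595), (nat_lit 6)), ((nat_lit 0x116544595), (nat_lit 6)), ((nat_lit 0x42595096541096542595), (nat_lit 14)), ((nat_lit 0x102595096544096542595), (nat_lit 14))] (nat_lit 0xbd4bd39e8866b672f36eabd298560d38334b81d3658643492e943b42848b86309608f0a5090),
.c (nat_lit 8) (nat_lit 0x104f0138a80c190017de017558136940c1920409f),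
.i (nat_lit 3) (nat_lit 145) [((nat_lit 2), (nat_lit 1)), ((nat_lit 7), (nat_lit 1)), ((nat_lit 1), (nat_lit 1)), ((nat_lit 4), (nat_lit 1)), ((nat_lit 5), (nat_lit 1)), ((nat_lit 12), (nat_lit 1)), ((nat_lit 9), (nat_lit 1)), ((nat_lit 0x490), (nat_lit 2)), ((nat_lit 8), (nat_lit 1)), ((nat_lit 19), (nat_lit 1)), ((nat_lit 15), (nat_lit 1)), ((nat_lit 0x81f), (nat_lit 2)), ((nat_lit 0x792692), (nat_lit 4)), ((nat_lit 13), (nat_lit 1)), ((nat_lit 0x595), (nat_lit 2)), ((nat_lit 0x607c181f), (nat_lit 6)), ((nat_lit 0x1289a485485692), (nat_lit 9)), ((nat_lit 0x657), (nat_lit 2)), ((nat_lit 25), (nat_lit 1)), ((nat_lit 0x96542595), (nat_lit 6)), ((nat_lit 0x56541595), (nat_lit 6)), ((nat_lit 0x116544595), (nat_lit 6)), ((nat_lit 0x42595096541096542595), (nat_lit 14)), ((nat_lit 0x102595096544096542595), (nat_lit 14))] (nat_lit 0xbd4bd39e8866b672f36eabd298560d38334b81d3658643492e943b42848b86309608f0a5090),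
.c (nat_lit 8) (nat_lit 0x102e0183200afc4055890706483024c040ba00081),
.i (nat_lit 3) (nat_lit 146) [((nat_lit 2), (nat_lit 1)), ((nat_lit 7), (nat_lit 1)), ((nat_lit 1), (nat_lit 1)), ((nat_lit 4), (nat_lit 1)), ((nat_lit 5), (nat_lit 1)), ((nat_lit 12), (nat_lit 1)), ((nat_lit 9), (nat_lit 1)), ((nat_lit 0x490), (nat_lit 2)), ((nat_lit 8), (nat_lit 1)), ((nat_lit 19), (nat_lit 1)), ((nat_lit 15), (nat_lit 1)), ((nat_lit 0x81f), (nat_lit 2)), ((nat_lit 0x792692), (nat_lit 4)), ((nat_lit 13), (nat_lit 1)), ((nat_lit 0x595), (nat_lit 2)), ((nat_lit 0x607c181f), (nat_lit 6)), ((nat_lit 0x1289a485485692), (nat_lit 9)), ((nat_lit 0x657), (nat_lit 2)), ((nat_lit 25), (nat_lit 1)), ((nat_lit 0x96542595), (nat_lit 6)), ((nat_lit 0x56541595), (nat_lit 6)), ((nat_lit 0x116544595), (nat_lit 6)), ((nat_lit 0x42595096541096542595), (nat_lit 14)), ((nat_lit 0x102595096544096542595), (nat_lit 14))] (nat_lit 0xbd4bd39e8866b672f36eabd298560d38334b81d3658643492e943b42848b86309608f0a5090),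
.c (nat_lit 2) (nat_lit 0x2fcc0409f),
.i (nat_lit 3) (nat_lit 147) [((nat_lit 2), (nat_lit 1)), ((nat_lit 7), (nat_lit 1)), ((nat_lit 1), (nat_lit 1)), ((nat_lit 4), (nat_lit 1)), ((nat_lit 5), (nat_lit 1)), ((nat_lit 12), (nat_lit 1)), ((nat_lit 9), (nat_lit 1)), ((nat_lit 0x490), (nat_lit 2)), ((nat_lit 8), (nat_lit 1)), ((nat_lit 19), (nat_lit 1)), ((nat_lit 15), (nat_lit 1)), ((nat_lit 0x81f), (nat_lit 2)), ((nat_lit 0x792692), (nat_lit 4)), ((nat_lit 13), (nat_lit 1)), ((nat_lit 0x595), (nat_lit 2)), ((nat_lit 0x607c181f), (nat_lit 6)), ((nat_lit 0x1289a485485692), (nat_lit 9)), ((nat_lit 0x657), (nat_lit 2)), ((nat_lit 25), (nat_lit 1)), ((nat_lit 0x96542595), (nat_lit 6)), ((nat_lit 0x56541595), (nat_lit 6)), ((nat_lit 0x116544595), (nat_lit 6)), ((nat_lit 0x42595096541096542595), (nat_lit 14)), ((nat_lit 0x102595096544096542595), (nat_lit 14))] (nat_lit 0xbd4bd39e8866b672f36eabd298560d38334b81d3658643492e943b42848b86309608f0a5090),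
.c (nat_lit 1) (nat_lit 0x17ea),
.i (nat_lit 3) (nat_lit 149) [((nat_lit 2), (nat_lit 1)), ((nat_lit 7), (nat_lit 1)), ((nat_lit 1), (nat_lit 1)), ((nat_lit 4), (nat_lit 1)), ((nat_lit 5), (nat_lit 1)), ((nat_lit 12), (nat_lit 1)), ((nat_lit 9), (nat_lit 1)), ((nat_lit 0x490), (nat_lit 2)), ((nat_lit 8), (nat_lit 1)), ((nat_lit 19), (nat_lit 1)), ((nat_lit 15), (nat_lit 1)), ((nat_lit 0x81f), (nat_lit 2)), ((nat_lit 0x792692), (nat_lit 4)), ((nat_lit 13), (nat_lit 1)), ((nat_lit 0x595), (nat_lit 2)), ((nat_lit 0x607c181f), (nat_lit 6)), ((nat_lit 0x1289a485485692), (nat_lit 9)), ((nat_lit 0x657), (nat_lit 2)), ((nat_lit 25), (nat_lit 1)), ((nat_lit 0x96542595), (nat_lit 6)), ((nat_lit 0x56541595), (nat_lit 6)), ((nat_lit 0x116544595), (nat_lit 6)), ((nat_lit 0x42595096541096542595), (nat_lit 14)), ((nat_lit 0x102595096544096542595), (nat_lit 14))] (nat_lit 0xbd4bd39e8866b672f36eabd298560d38334b81d3658643492e943b42848b86309608f0a5090),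
.c (nat_lit 23) (nat_lit 0x81700c178080c802bf701d6240ae660d7e10738c835f9422fc20e0930738c8302041afc20e71906bf2845f841c126100c90705e830204040ba0007b),
.i (nat_lit 3) (nat_lit 152) [((nat_lit 2), (nat_lit 1)), ((nat_lit 7), (nat_lit 1)), ((nat_lit 1), (nat_lit 1)), ((nat_lit 4), (nat_lit 1)), ((nat_lit 5), (nat_lit 1)), ((nat_lit 12), (nat_lit 1)), ((nat_lit 9), (nat_lit 1)), ((nat_lit 0x490), (nat_lit 2)), ((nat_lit 8), (nat_lit 1)), ((nat_lit 19), (nat_lit 1)), ((nat_lit 15), (nat_lit 1)), ((nat_lit 0x81f), (nat_lit 2)), ((nat_lit 0x792692), (nat_lit 4)), ((nat_lit 13), (nat_lit 1)), ((nat_lit 0x595), (nat_lit 2)), ((nat_lit 0x607c181f), (nat_lit 6)), ((nat_lit 0x1289a485485692), (nat_lit 9)), ((nat_lit 0x657), (nat_lit 2)), ((nat_lit 25), (nat_lit 1)), ((nat_lit 0x96542595), (nat_lit 6)), ((nat_lit 0x56541595), (nat_lit 6)), ((nat_lit 0x116544595), (nat_lit 6)), ((nat_lit 0x42595096541096542595), (nat_lit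 14)), ((nat_lit 0x102595096544096542595), (nat_lit 14))] (nat_lit 0xbd4bd39e8866b672f36eabd298560d38334b81d3658643492e943b42848b86309608f0a5090),
.c (nat_lit 1) (nat_lit 0x17f2),
.i (nat_lit 3) (nat_lit 157) [((nat_lit 2), (nat_lit 1)), ((nat_lit 7), (nat_lit 1)), ((nat_lit 1), (nat_lit 1)), ((nat_lit 4), (nat_lit 1)), ((nat_lit 5), (nat_lit 1)), ((nat_lit 12), (nat_lit 1)), ((nat_lit 9), (nat_lit 1)), ((nat_lit 0x490), (nat_lit 2)), ((nat_lit 8), (nat_lit 1)), ((nat_lit 19), (nat_lit 1)), ((nat_lit 15), (nat_lit 1)), ((nat_lit 0x81f), (nat_lit 2)), ((nat_lit 0x792692), (nat_lit 4)), ((nat_lit 13), (nat_lit 1)), ((nat_lit 0x595), (nat_lit 2)), ((nat_lit 0x607c181f), (nat_lit 6)), ((nat_lit 0x1289a485485692), (nat_lit 9)), ((nat_lit 0x657), (nat_lit 2)), ((nat_lit 25), (nat_lit 1)), ((nat_lit 0x96542595), (nat_lit 6)), ((nat_lit 0x56541595), (nat_lit 6)), ((nat_lit 0x116544595), (nat_lit 6)), ((nat_lit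 0x42595096541096542595), (nat_lit 14)), ((nat_lit 0x102595096544096542595), (nat_lit 14))] (nat_lit 0xbd4bd39e8866b672f36eabd298560d38334b81d3658643492e943b42848b86309608f0a5090),
.c (nat_lit 49) (nat_lit 0x9e010280100001cd441037409351050dd02413c14362091b10503f01c19c106a2091ba051a882c6e81809e0704f02126016f60077f604bd88192641813e1609f0a1ba849a8c206ea0e6a3060678483f4206c61253f0807483a58418a7e0a2f304074818bcc1892a0e0e70602885839c2813e120fd08067810004040a20009f),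
.i (nat_lit 3) (nat_lit 158) [((nat_lit 2), (nat_lit 1)), ((nat_lit 7), (nat_lit 1)), ((nat_lit 1), (nat_lit 1)), ((nat_lit 4), (nat_lit 1)), ((nat_lit 5), (nat_lit 1)), ((nat_lit 12), (nat_lit 1)), ((nat_lit 9), (nat_lit 1)), ((nat_lit 0x490), (nat_lit 2)), ((nat_lit 8), (nat_lit 1)), ((nat_lit 19), (nat_lit 1)), ((nat_lit 15), (nat_lit 1)), ((nat_lit 0x81f), (nat_lit 2)), ((nat_lit 0x792692), (nat_lit 4)), ((nat_lit 13), (nat_lit 1)), ((nat_lit 0x595), (nat_lit 2)), ((nat_lit 0x607c181f), (nat_lit 6)), ((nat_lit 0x1289a485485692), (nat_lit 9)), ((nat_lit 0x657), (nat_lit 2)), ((nat_lit 25), (nat_lit 1)), ((nat_lit 0x96542595), (nat_lit 6)), ((nat_lit 0x56541595), (nat_lit 6)), ((nat_lit 0x116544595), (nat_lit 6)), ((nat_lit 0x42595096541096542595), (nat_lit 14)), ((nat_lit 0x102595096544096542595), (nat_lit 14))] (nat_lit 0xbd4bd39e8866b672f36eabd298560d38334b81d3658643492e943b42848b86309608f0a5090),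
.c (nat_lit 5) (nat_lit 0xa0e601bfd021254141ce0009f),
.c (nat_lit 2) (nat_lit 0xde0006f),
.c (nat_lit 9) (nat_lit 0x20b0010670102780c1c00209e02bea0082300afa000fac),
.c (nat_lit 16) (nat_lit 0x460183381013c0a0e00304f025f5005b70057d0017f880df440efaa0409f0407081827c0819e0008d),
.c (nat_lit 7) (nat_lit 0x103c8081d8067d4017c50136d002fe801312),
.c (nat_lit 11) (nat_lit 0x203c8101d80a7d4033f502122009f1406db4013f501122002fe801322),
.c (nat_lit 5) (nat_lit 0xc0f2047c502b6d00efe801532),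
.c (nat_lit 25) (nat_lit 0x16c4e0c1c20603c8347081c0ec0f3ea06032035a581d44c0c046068d6039b681f2de1003d08e0104a318277f407076041f501afe8080ec053ea0201e816fe80153a),
.c (nat_lit 3) (nat_lit 0x182480afc801548),
.c (nat_lit 4) (nat_lit 0x10490082000afc80154a),
.c (nat_lit 2) (nat_lit 0x26fc801580),
.c (nat_lit 4) (nat_lit 0x10490082000afc801588),
.c (nat_lit 16) (nat_lit 0x460183381013c0a0e00304f025f500c118097d001b0a00df440efaa0409f0407081827c0819e0008d),
.c (nat_lit 9) (nat_lit 0x20b0010670102780c1c00209e02bea0082300afa00165c),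
.c (nat_lit 8) (nat_lit 0x50790283b018fa808ebc0567f01c1f00af6801680),
.c (nat_lit 8) (nat_lit 0x80790403b024fa80eebc0867f0341f016f680169a),
.c (nat_lit 9) (nat_lit 0xe0f207076041f5019f140edb4053f503122012fe8016a4),
.c (nat_lit 14) (nat_lit 0x1f008100f208076049f501c0f41180409bfa0383c81c1d8107d4063f503922016fe8016aa),
.c (nat_lit 16) (nat_lit 0x105e0082480afc00208002bf2019c600afc0040a40103d015fc00c698050e0011a60081a00afd80172a),
.c (nat_lit 4) (nat_lit 0x10400081e80afe001734),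
.c (nat_lit 3) (nat_lit 0x202480efc801744),
.c (nat_lit 6) (nat_lit 0x15d700ce2200bf0005df006fc2040bd),
.c (nat_lit 108) (nat_lit 0x4b0792583b130fa8940924bbf0261fa934910920804a2c925df9130e309b49c4e75225df8130fd49a4884b75c263889200f492b364abf825e01132fe8945924ba4e263a912166c938044abfa21b13910708880f2451c22303b11cfa8880c845696235131101188a358466da23cb79200f4938044a8c625dfd0fc1d8807d43ebfa1e83c8f01907aeac3e6961e0230f46b07cf8a3f6da1de010f23187b7f43b03d1e6010f63187c0f23e0761f9f50ef0087918c3dbfa1e0248f5d54760803c2c91edf90f89007aeaa3b2c91e1200ec0f4798043d8c61f03c8f81d87e7d43bc021e4630f6fe87607a3cc021ec630f81e47c0ec3f3ea1ebab0f9a5878f8a3d6da1ddfd07c1d8407d41ebfa0903b04cfa8237f40f076081f503afe801784),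
.c (nat_lit 14) (nat_lit 0x1f008100f208076049f501c0f41180409bfa0383c81c1d8107d4063f503922016fe8017a2),
.c (nat_lit 6) (nat_lit 0x419c0409e030700082780afa8017d0),
.c (nat_lit 17) (nat_lit 0x1cf7e0f6ca04033824d4414f7e0b6ca060dd0363101e364101b3073df83db280f7800876a019a981304c017dc),
.c (nat_lit 3) (nat_lit 0x138c0413e0005d),
.c (nat_lit 0) (nat_lit 0),
.c (nat_lit 0) (nat_lit 0),
.c (nat_lit 0) (nat_lit 0),
.c (nat_lit 0) (nat_lit 0),
.c (nat_lit 0) (nat_lit 0),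
.c (nat_lit 0) (nat_lit 0),
.c (nat_lit 0) (nat_lit 0),
.i (nat_lit 3) (nat_lit 11) [((nat_lit 7), (nat_lit 1)), ((nat_lit 2), (nat_lit 1)), ((nat_lit 1), (nat_lit 1)), ((nat_lit 10), (nat_lit 1)), ((nat_lit 12), (nat_lit 1)), ((nat_lit 5), (nat_lit 1)), ((nat_lit 31), (nat_lit 1)), ((nat_lit 18), (nat_lit 1)), ((nat_lit 17), (nat_lit 1)), ((nat_lit 19), (nat_lit 1)), ((nat_lit 38), (nat_lit 1)), ((nat_lit 0), (nat_lit 0)), ((nat_lit 30), (nat_lit 1)), ((nat_lit 0x1d11d1), (nat_lit 4)), ((nat_lit 27), (nat_lit 1)), ((nat_lit 0), (nat_lit 0)), ((nat_lit 0x1de1de), (nat_lit 4)), ((nat_lit 0x474474411d11d1), (nat_lit 10)), ((nat_lit 0x28744744a1d11d1), (nat_lit 10)), ((nat_lit 0x1db1db), (nat_lit 4)), ((nat_lit 0x452445485), (nat_lit 6)), ((nat_lit 0x491491), (nat_lit 4)), ((nat_lit 0x476c76c11db1db), (nat_lit 10)), ((nat_lit 0x2876c76ca1db1db), (nat_lit 10))] (nat_lit 0xc1fc1e48f490c1dc1cc1bc1a31148ec19453c1859482030e3bfac548b4289250ae08f0900a5),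
.c (nat_lit 5) (nat_lit 0x18400702e83039c140ba080e7),
.i (nat_lit 3) (nat_lit 26) [((nat_lit 7), (nat_lit 1)), ((nat_lit 2), (nat_lit 1)), ((nat_lit 1), (nat_lit 1)), ((nat_lit 10), (nat_lit 1)), ((nat_lit 12), (nat_lit 1)), ((nat_lit 5), (nat_lit 1)), ((nat_lit 31), (nat_lit 1)), ((nat_lit 18), (nat_lit 1)), ((nat_lit 17), (nat_lit 1)), ((nat_lit 19), (nat_lit 1)), ((nat_lit 38), (nat_lit 1)), ((nat_lit 0), (nat_lit 0)), ((nat_lit 30), (nat_lit 1)), ((nat_lit 0x1d11d1), (nat_lit 4)), ((nat_lit 27), (nat_lit 1)), ((nat_lit 0), (nat_lit 0)), ((nat_lit 0x1de1de), (nat_lit 4)), ((nat_lit 0x474474411d11d1), (nat_lit 10)), ((nat_lit 0x28744744a1d11d1), (nat_lit 10)), ((nat_lit 0x1db1db), (nat_lit 4)), ((nat_lit 0x452445485), (nat_lit 6)), ((nat_lit 0x491491), (nat_lit 4)), ((nat_lit 0x476c76c11db1db), (nat_lit 10)), ((nat_lit 0x2876c76ca1db1db), (nat_lit 10))] (nat_lit 0xc1fc1e48f490c1dc1cc1bc1a31148ec19453c1859482030e3bfac548b4289250ae08f0900a5),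
.c (nat_lit 1) (nat_lit 0x1844),
.i (nat_lit 3) (nat_lit 83) [((nat_lit 7), (nat_lit 1)), ((nat_lit 2), (nat_lit 1)), ((nat_lit 1), (nat_lit 1)), ((nat_lit 10), (nat_lit 1)), ((nat_lit 12), (nat_lit 1)), ((nat_lit 5), (nat_lit 1)), ((nat_lit 31), (nat_lit 1)), ((nat_lit 18), (nat_lit 1)), ((nat_lit 17), (nat_lit 1)), ((nat_lit 19), (nat_lit 1)), ((nat_lit 38), (nat_lit 1)), ((nat_lit 0), (nat_lit 0)), ((nat_lit 30), (nat_lit 1)), ((nat_lit 0x1d11d1), (nat_lit 4)), ((nat_lit 27), (nat_lit 1)), ((nat_lit 0), (nat_lit 0)), ((nat_lit 0x1de1de), (nat_lit 4)), ((nat_lit 0x474474411d11d1), (nat_lit 10)), ((nat_lit 0x28744744a1d11d1), (nat_lit 10)), ((nat_lit 0x1db1db), (nat_lit 4)), ((nat_lit 0x452445485), (nat_lit 6)), ((nat_lit 0x491491), (nat_lit 4)), ((nat_lit 0x476c76c11db1db), (nat_lit 10)), ((nat_lit 0x2876c76ca1db1db), (nat_lit 10))] (nat_lit 0xc1fc1e48f490c1dc1cc1bc1a31148ec19453c1859482030e3bfac548b4289250ae08f0900a5),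
.c (nat_lit 8) (nat_lit 0x2e025058070840384902c2180ab34141ce0005d),
.i (nat_lit 3) (nat_lit 89) [((nat_lit 7), (nat_lit 1)), ((nat_lit 2), (nat_lit 1)), ((nat_lit 1), (nat_lit 1)), ((nat_lit 10), (nat_lit 1)), ((nat_lit 12), (nat_lit 1)), ((nat_lit 5), (nat_lit 1)), ((nat_lit 31), (nat_lit 1)), ((nat_lit 18), (nat_lit 1)), ((nat_lit 17), (nat_lit 1)), ((nat_lit 19), (nat_lit 1)), ((nat_lit 38), (nat_lit 1)), ((nat_lit 0), (nat_lit 0)), ((nat_lit 30), (nat_lit 1)), ((nat_lit 0x1d11d1), (nat_lit 4)), ((nat_lit 27), (nat_lit 1)), ((nat_lit 0), (nat_lit 0)), ((nat_lit 0x1de1de), (nat_lit 4)), ((nat_lit 0x474474411d11d1), (nat_lit 10)), ((nat_lit 0x28744744a1d11d1), (nat_lit 10)), ((nat_lit 0x1db1db), (nat_lit 4)), ((nat_lit 0x452445485), (nat_lit 6)), ((nat_lit 0x491491), (nat_lit 4)), ((nat_lit 0x476c76c11db1db), (nat_lit 10)), ((nat_lit 0x2876c76ca1db1db), (nat_lit 10))] (nat_lit 0xc1fc1e48f490c1dc1cc1bc1a31148ec19453c1859482030e3bfac548b4289250ae08f0900a5),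
.c (nat_lit 5) (nat_lit 0x20a402c2601509c0414a000ab),
.i (nat_lit 3) (nat_lit 103) [((nat_lit 7), (nat_lit 1)), ((nat_lit 2), (nat_lit 1)), ((nat_lit 1), (nat_lit 1)), ((nat_lit 10), (nat_lit 1)), ((nat_lit 12), (nat_lit 1)), ((nat_lit 5), (nat_lit 1)), ((nat_lit 31), (nat_lit 1)), ((nat_lit 18), (nat_lit 1)), ((nat_lit 17), (nat_lit 1)), ((nat_lit 19), (nat_lit 1)), ((nat_lit 38), (nat_lit 1)), ((nat_lit 0), (nat_lit 0)), ((nat_lit 30), (nat_lit 1)), ((nat_lit 0x1d11d1), (nat_lit 4)), ((nat_lit 27), (nat_lit 1)), ((nat_lit 0), (nat_lit 0)), ((nat_lit 0x1de1de), (nat_lit 4)), ((nat_lit 0x474474411d11d1), (nat_lit 10)), ((nat_lit 0x28744744a1d11d1), (nat_lit 10)), ((nat_lit 0x1db1db), (nat_lit 4)), ((nat_lit 0x452445485), (nat_lit 6)), ((nat_lit 0x491491), (nat_lit 4)), ((nat_lit 0x476c76c11db1db), (nat_lit 10)), ((nat_lit 0x2876c76ca1db1db), (nat_lit 10))] (nat_lit 0xc1fc1e48f490c1dc1cc1bc1a31148ec19453c1859482030e3bfac548b4289250ae08f0900a5),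
.c (nat_lit 1) (nat_lit 0x1850),
.i (nat_lit 3) (nat_lit 124) [((nat_lit 7), (nat_lit 1)), ((nat_lit 2), (nat_lit 1)), ((nat_lit 1), (nat_lit 1)), ((nat_lit 10), (nat_lit 1)), ((nat_lit 12), (nat_lit 1)), ((nat_lit 5), (nat_lit 1)), ((nat_lit 31), (nat_lit 1)), ((nat_lit 18), (nat_lit 1)), ((nat_lit 17), (nat_lit 1)), ((nat_lit 19), (nat_lit 1)), ((nat_lit 38), (nat_lit 1)), ((nat_lit 0), (nat_lit 0)), ((nat_lit 30), (nat_lit 1)), ((nat_lit 0x1d11d1), (nat_lit 4)), ((nat_lit 27), (nat_lit 1)), ((nat_lit 0), (nat_lit 0)), ((nat_lit 0x1de1de), (nat_lit 4)), ((nat_lit 0x474474411d11d1), (nat_lit 10)), ((nat_lit 0x28744744a1d11d1), (nat_lit 10)), ((nat_lit 0x1db1db), (nat_lit 4)), ((nat_lit 0x452445485), (nat_lit 6)), ((nat_lit 0x491491), (nat_lit 4)), ((nat_lit 0x476c76c11db1db), (nat_lit 10)), ((nat_lit 0x2876c76ca1db1db), (nat_lit 10))] (nat_lit 0xc1fc1e48f490c1dc1cc1bc1a31148ec19453c1859482030e3bfac548b4289250ae08f0900a5),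
.c (nat_lit 27) (nat_lit 0x170041cc0405c03028040398170840985404c21839254195b60a4950456d83612c3282e170510aa0b84c1442014a100ab0905586039c2c156140e703028810174041ce0005d),
.i (nat_lit 3) (nat_lit 130) [((nat_lit 7), (nat_lit 1)), ((nat_lit 2), (nat_lit 1)), ((nat_lit 1), (nat_lit 1)), ((nat_lit 10), (nat_lit 1)), ((nat_lit 12), (nat_lit 1)), ((nat_lit 5), (nat_lit 1)), ((nat_lit 31), (nat_lit 1)), ((nat_lit 18), (nat_lit 1)), ((nat_lit 17), (nat_lit 1)), ((nat_lit 19), (nat_lit 1)), ((nat_lit 38), (nat_lit 1)), ((nat_lit 0), (nat_lit 0)), ((nat_lit 30), (nat_lit 1)), ((nat_lit 0x1d11d1), (nat_lit 4)), ((nat_lit 27), (nat_lit 1)), ((nat_lit 0), (nat_lit 0)), ((nat_lit 0x1de1de), (nat_lit 4)), ((nat_lit 0x474474411d11d1), (nat_lit 10)), ((nat_lit 0x28744744a1d11d1), (nat_lit 10)), ((nat_lit 0x1db1db), (nat_lit 4)), ((nat_lit 0x452445485), (nat_lit 6)), ((nat_lit 0x491491), (nat_lit 4)), ((nat_lit 0x476c76c11db1db),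 (nat_lit 10)), ((nat_lit 0x2876c76ca1db1db), (nat_lit 10))] (nat_lit 0xc1fc1e48f490c1dc1cc1bc1a31148ec19453c1859482030e3bfac548b4289250ae08f0900a5),
.c (nat_lit 1) (nat_lit 0x1859),
.i (nat_lit 3) (nat_lit 134) [((nat_lit 7), (nat_lit 1)), ((nat_lit 2), (nat_lit 1)), ((nat_lit 1), (nat_lit 1)), ((nat_lit 10), (nat_lit 1)), ((nat_lit 12), (nat_lit 1)), ((nat_lit 5), (nat_lit 1)), ((nat_lit 31), (nat_lit 1)), ((nat_lit 18), (nat_lit 1)), ((nat_lit 17), (nat_lit 1)), ((nat_lit 19), (nat_lit 1)), ((nat_lit 38), (nat_lit 1)), ((nat_lit 0), (nat_lit 0)), ((nat_lit 30), (nat_lit 1)), ((nat_lit 0x1d11d1), (nat_lit 4)), ((nat_lit 27), (nat_lit 1)), ((nat_lit 0), (nat_lit 0)), ((nat_lit 0x1de1de), (nat_lit 4)), ((nat_lit 0x474474411d11d1), (nat_lit 10)), ((nat_lit 0x28744744a1d11d1), (nat_lit 10)), ((nat_lit 0x1db1db), (nat_lit 4)), ((nat_lit 0x452445485), (nat_lit 6)), ((nat_lit 0x491491), (nat_lit 4)), ((nat_lit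 0x476c76c11db1db), (nat_lit 10)), ((nat_lit 0x2876c76ca1db1db), (nat_lit 10))] (nat_lit 0xc1fc1e48f490c1dc1cc1bc1a31148ec19453c1859482030e3bfac548b4289250ae08f0900a5),
.c (nat_lit 20) (nat_lit 0x904f050d88040b8044e603b00020cf0149cc0c4e20719e04138826c00144e20b07300d828070b803843041b182839c1013e0005d),
.i (nat_lit 3) (nat_lit 146) [((nat_lit 7), (nat_lit 1)), ((nat_lit 2), (nat_lit 1)), ((nat_lit 1), (nat_lit 1)), ((nat_lit 10), (nat_lit 1)), ((nat_lit 12), (nat_lit 1)), ((nat_lit 5), (nat_lit 1)), ((nat_lit 31), (nat_lit 1)), ((nat_lit 18), (nat_lit 1)), ((nat_lit 17), (nat_lit 1)), ((nat_lit 19), (nat_lit 1)), ((nat_lit 38), (nat_lit 1)), ((nat_lit 0), (nat_lit 0)), ((nat_lit 30), (nat_lit 1)), ((nat_lit 0x1d11d1), (nat_lit 4)), ((nat_lit 27), (nat_lit 1)), ((nat_lit 0), (nat_lit 0)), ((nat_lit 0x1de1de), (nat_lit 4)), ((nat_lit 0x474474411d11d1), (nat_lit 10)), ((nat_lit 0x28744744a1d11d1), (nat_lit 10)),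 ((nat_lit 0x1db1db), (nat_lit 4)), ((nat_lit 0x452445485), (nat_lit 6)), ((nat_lit 0x491491), (nat_lit 4)), ((nat_lit 0x476c76c11db1db), (nat_lit 10)), ((nat_lit 0x2876c76ca1db1db), (nat_lit 10))] (nat_lit 0xc1fc1e48f490c1dc1cc1bc1a31148ec19453c1859482030e3bfac548b4289250ae08f0900a5),
.c (nat_lit 1) (nat_lit 0x1860),
.i (nat_lit 3) (nat_lit 147) [((nat_lit 7), (nat_lit 1)), ((nat_lit 2), (nat_lit 1)), ((nat_lit 1), (nat_lit 1)), ((nat_lit 10), (nat_lit 1)), ((nat_lit 12), (nat_lit 1)), ((nat_lit 5), (nat_lit 1)), ((nat_lit 31), (nat_lit 1)), ((nat_lit 18), (nat_lit 1)), ((nat_lit 17), (nat_lit 1)), ((nat_lit 19), (nat_lit 1)), ((nat_lit 38), (nat_lit 1)), ((nat_lit 0), (nat_lit 0)), ((nat_lit 30), (nat_lit 1)), ((nat_lit 0x1d11d1), (nat_lit 4)), ((nat_lit 27), (nat_lit 1)), ((nat_lit 0), (nat_lit 0)), ((nat_lit 0x1de1de), (nat_lit 4)), ((nat_lit 0x474474411d11d1), (nat_lit 10)), ((nat_lit 0x28744744a1d11d1),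 (nat_lit 10)), ((nat_lit 0x1db1db), (nat_lit 4)), ((nat_lit 0x452445485), (nat_lit 6)), ((nat_lit 0x491491), (nat_lit 4)), ((nat_lit 0x476c76c11db1db), (nat_lit 10)), ((nat_lit 0x2876c76ca1db1db), (nat_lit 10))] (nat_lit 0xc1fc1e48f490c1dc1cc1bc1a31148ec19453c1859482030e3bfac548b4289250ae08f0900a5)]

theorem c29 : chk db th.hy ths 3123 J29 3049 = true := by decide +kernel

end Pool.Agent.Lib.MP_3b0e0c_al.S.L4
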