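import Pool.Agent.Lib.MP_3b0e0c_al.S.L4C0
import Pool.Agent.Lib.MP_3b0e0c_al.S.L4C1
import Pool.Agent.Lib.MP_3b0e0c_al.S.L4C2
import Pool.Agent.Lib.MP_3b0e0c_al.S.L4C3
import Pool.Agent.Lib.MP_3b0e0c_al.S.L4C4
import Pool.Agent.Lib.MP_3b0e0c_al.S.L4C5
import Pool.Agent.Lib.MP_3b0e0c_al.S.L4C6

namespace Pool.Agent.Lib.MP_3b0e0c_al.S.L4

theorem cf : (Nat.beq th.co.length [3850].length &&
    allL (fun p => Nat.blt p.2 3851 && isE (db.get p.2) p.1) (th.co.zip [3850])) = true := by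
  decide +kernel

theorem valid {G : Type*} [Monoid G] (ht : ∀ t ∈ ths, Valid G t) : Valid G th := fun _ hh =>
  fin_ok (chk_ok hh ht _ _ c38
    (chk_ok hh ht _ _ c37
    (chk_ok hh ht _ _ c36
    (chk_ok hh ht _ _ c35
    (chk_ok hh ht _ _ c34
    (chk_ok hh ht _ _ c33
    (chk_ok hh ht _ _ c32
    (chk_ok hh ht _ _ c31
    (chk_ok hh ht _ _ c30
    (chk_ok hh ht _ _ c29
    (chk_ok hh ht _ _ c28
    (chk_ok hh ht _ _ c27
    (chk_ok hh ht _ _ c26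
    (chk_ok hh ht _ _ c25
    (chk_ok hh ht _ _ c24
    (chk_ok hh ht _ _ c23
    (chk_ok hh ht _ _ c22
    (chk_ok hh ht _ _ c21
    (chk_ok hh ht _ _ c20
    (chk_ok hh ht _ _ c19
    (chk_ok hh ht _ _ c18
    (chk_ok hh ht _ _ c17
    (chk_ok hh ht _ _ c16
    (chk_ok hh ht _ _ c15
    (chk_ok hh ht _ _ c14
    (chk_ok hh ht _ _ c13
    (chk_ok hh ht _ _ c12
    (chk_ok hh ht _ _ c11
    (chk_ok hh ht _ _ c10
    (chk_ok hh ht _ _ c9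
    (chk_ok hh ht _ _ c8
    (chk_ok hh ht _ _ c7
    (chk_ok hh ht _ _ c6
    (chk_ok hh ht _ _ c5
    (chk_ok hh ht _ _ c4
    (chk_ok hh ht _ _ c3
    (chk_ok hh ht _ _ c2
    (chk_ok hh ht _ _ c1
    (chk_ok hh ht _ _ c0
    (fun _ h => absurd h (Nat.not_lt_zero _))))))))))))))))))))))))))))))))))))))))) _ _ cf

end Pool.Agent.Lib.MP_3b0e0c_al.S.L4
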