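import Pool.Agent.Lib.MP_3b0e0c_al.S.T3C0

namespace Pool.Agent.Lib.MP_3b0e0c_al.S.T3

theorem cf : (Nat.beq th.co.length [0, 1, 2, 12, 13, 15, 16, 18, 19, 21, 22, 24, 25, 27, 28, 30, 31, 33, 34, 77, 78, 79, 80, 81, 82, 83, 84, 85, 86, 88, 90, 91, 92, 95, 98, 99, 100, 101, 103, 104, 109, 114, 117, 118, 120, 121, 123, 127, 128, 130, 131, 132, 134, 140, 141, 142, 145, 147, 148, 149, 150, 151, 152, 153, 154, 155].length &&
    allL (fun p => Nat.blt p.2 156 && isE (db.get p.2) p.1) (th.co.zip [0, 1, 2, 12, 13, 15, 16, 18, 19, 21, 22, 24, 25, 27, 28, 30, 31, 33, 34, 77, 78, 79, 80, 81, 82, 83, 84, 85, 86, 88, 90, 91, 92, 95, 98, 99, 100, 101, 103, 104, 109, 114, 117, 118, 120, 121, 123, 127, 128, 130, 131, 132, 134, 140, 141, 142, 145, 147, 148, 149, 150, 151, 152, 153, 154, 155])) = true := by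
  decide +kernel

theorem valid {G : Type*} [Monoid G] (ht : ∀ t ∈ ths, Valid G t) : Valid G th := fun _ hh =>
  fin_ok (chk_ok hh ht _ _ c0
    (fun _ h => absurd h (Nat.not_lt_zero _))) _ _ cf

end Pool.Agent.Lib.MP_3b0e0c_al.S.T3
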