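import Pool.Agent.Lib.MP_3b0e0c_al.S.T3pC0

namespace Pool.Agent.Lib.MP_3b0e0c_al.S.T3p

theorem cf : (Nat.beq th.co.length [11, 12, 14, 15, 17, 18, 20, 21, 23, 24, 26, 29, 30, 73, 74, 75, 78, 79, 80, 81, 83, 85, 89, 92, 93, 95, 96, 105, 111, 117, 123, 126, 127, 128, 132, 135, 136, 137, 140, 142, 143, 144, 145].length &&
    allL (fun p => Nat.blt p.2 146 && isE (db.get p.2) p.1) (th.co.zip [11, 12, 14, 15, 17, 18, 20, 21, 23, 24, 26, 29, 30, 73, 74, 75, 78, 79, 80, 81, 83, 85, 89, 92, 93, 95, 96, 105, 111, 117, 123, 126, 127, 128, 132, 135, 136, 137, 140, 142, 143, 144, 145])) = true := by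
  decide +kernel

theorem valid {G : Type*} [Monoid G] (ht : ∀ t ∈ ths, Valid G t) : Valid G th := fun _ hh =>
  fin_ok (chk_ok hh ht _ _ c0
    (fun _ h => absurd h (Nat.not_lt_zero _))) _ _ cf

end Pool.Agent.Lib.MP_3b0e0c_al.S.T3p
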