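import Pool.Agent.Lib.MP_3b0e0c_al.S.Path
import Pool.Agent.Lib.MP_3b0e0c_al.S.T3
import Pool.Agent.Lib.MP_3b0e0c_al.S.T3p
import Pool.Agent.Lib.MP_3b0e0c_al.S.L1
import Pool.Agent.Lib.MP_3b0e0c_al.S.L4

/-! Groups in which products of three involutions have order dividing 4. -/

namespace Pool.Agent.Lib.MP_3b0e0c_al.S

open Subgroup

variable {G : Type*} [Group G]

/-- The equations define the letters `n, n+1, ...` in terms of earlier letters. -/
def defsOK : ℕ → List (List ℕ × List ℕ) → Bool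
  | _, [] => true
  | n, e :: ds => (e.1 == [n] && e.2.all (· < n)) && defsOK (n + 1) ds

lemma exists_ext (ds : List (List ℕ × List ℕ)) : ∀ (n : ℕ) (g0 : ℕ → G), defsOK n ds = true →
    ∃ g : ℕ → G, (∀ i < n, g i = g0 i) ∧ ∀ e ∈ ds, Eqn g e := by
  induction ds with
  | nil => exact fun _ g0 _ => ⟨g0, fun _ _ => rfl, by simp⟩
  | cons e ds ih =>
    intro n g0 h
    simp only [defsOK, Bool.and_eq_true, beq_iff_eq, List.all_eq_true, decide_eq_true_eq] at h
    obtain ⟨g, h1, h2⟩ := ih (n + 1) (Function.update g0 n (evL g0 e.2)) h.2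
    have h3 : ∀ i < n, g i = g0 i := fun i hi => by
      rw [h1 i (by omega), Function.update_of_ne hi.ne]
    refine ⟨g, h3, List.forall_mem_cons.2 ⟨?_, h2⟩⟩
    rw [Eqn, h.1.1, evL, List.map_singleton, List.prod_singleton, h1 n (by omega),
      Function.update_self, evL, evL, List.map_congr_left fun c hc => h3 c (h.1.2 c hc)]

lemma fin_step {S : Set G} (hS : (closure S : Set G).Finite) {a : G} (ha : a * a = 1)
    (h : ∀ s ∈ S, a * s * a ∈ closure S) : (closure (insert a S) : Set G).Finite := by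
  have a1 : a⁻¹ = a := inv_eq_of_mul_eq_one_right ha
  have cj : ∀ x ∈ closure S, a * x * a ∈ closure S := by
    intro x hx
    induction hx using closure_induction with
    | mem x hx => exact h x hx
    | one => rw [mul_one, ha]; exact one_mem _
    | mul x y _ _ i1 i2 => simpa only [← mul_assoc, mul_sq ha] using mul_mem i1 i2
    | inv x _ i1 => simpa only [mul_inv_rev, a1, ← mul_assoc] using inv_mem i1
  refine (hS.union (hS.preimage (f := fun x => a * x) (mul_right_injective a).injOn)).subset ?_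
  intro x hx
  change x ∈ closure S ∨ a * x ∈ closure S
  induction hx using closure_induction with
  | mem x hx =>
    rcases hx with rfl | hx
    · exact Or.inr (ha ▸ one_mem _)
    · exact Or.inl (subset_closure hx)
  | one => exact Or.inl (one_mem _)
  | mul x y _ _ i1 i2 =>
    rcases i1 with i1 | i1 <;> rcases i2 with i2 | i2
    · exact Or.inl (mul_mem i1 i2)
    · exact Or.inr (by simpa only [← mul_assoc, mul_sq ha] using mul_mem (cj _ i1) i2)
    · exact Or.inr (by simpa only [← mul_assoc] using mul_mem i1 i2)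
    · exact Or.inl (by simpa only [← mul_assoc, mul_sq ha, ha, one_mul] using mul_mem (cj _ i1) i2)
  | inv x _ i1 =>
    refine i1.imp inv_mem fun i1 => ?_
    simpa only [mul_inv_rev, a1, ← mul_assoc, mul_sq ha] using cj _ (inv_mem i1)

lemma pc_finite (g : ℕ → G) (n : ℕ) (co : List (List ℕ × List ℕ)) (hco : ∀ e ∈ co, Eqn g e)
    (h : ∀ i < n, ([i, i], []) ∈ co ∧ ∀ j < n, i < j →
      co.any (fun e => e.1 == [j, i] && e.2 == i :: e.2.tail &&
        e.2.tail.all fun c => i < c && c < n) = true) :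
    (closure (g '' Set.Ico 0 n) : Set G).Finite := by
  suffices H : ∀ k ≤ n, (closure (g '' Set.Ico (n - k) n) : Set G).Finite by simpa using H n le_rfl
  intro k
  induction k with
  | zero => simp
  | succ k ih =>
    intro hk
    obtain ⟨h1, h2⟩ := h (n - (k + 1)) (by omega)
    have sq : g (n - (k + 1)) * g (n - (k + 1)) = 1 := by simpa [Eqn, evL] using hco _ h1
    rw [show Set.Ico (n - (k + 1)) n = insert (n - (k + 1)) (Set.Ico (n - k) n) from
      Set.ext fun t => by simp only [Set.mem_Ico, Set.mem_insert_iff]; omega, Set.image_insert_eq]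
    refine fin_step (ih (by omega)) sq ?_
    rintro _ ⟨j, hj, rfl⟩
    have h3 := h2 j hj.2 (by have := hj.1; omega)
    simp only [List.any_eq_true, Bool.and_eq_true, beq_iff_eq, List.all_eq_true,
      decide_eq_true_eq] at h3
    obtain ⟨e, e1, ⟨e2, e3⟩, e4⟩ := h3
    have := hco e e1
    rw [Eqn, e2, e3] at this
    simp only [evL, List.map_cons, List.prod_cons, List.map_nil, List.prod_nil, mul_one] at this
    rw [mul_assoc, this, ← mul_assoc, sq, one_mul]
    refine list_prod_mem fun x hx => ?_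
    obtain ⟨c, hc, rfl⟩ := List.mem_map.1 hx
    exact subset_closure ⟨c, ⟨by have := e4 c hc; omega, (e4 c hc).2⟩, rfl⟩

/-- Three involutions generate a finite group. -/
lemma three_fin (h : ∀ a b : G, a * a = 1 → b * b = 1 → (a * b) ^ 4 = 1) {a b c : G}
    (ha : a * a = 1) (hb : b * b = 1) (hc : c * c = 1) :
    ∃ K : Subgroup G, (K : Set G).Finite ∧ a ∈ K ∧ b ∈ K ∧ c ∈ K := by
  obtain ⟨g, h1, h2⟩ := exists_ext (T3.th.hy.drop 3) 3 (fun i => [a, b, c].getD i 1) (by decide)
  have g0 : g 0 = a := h1 0 (by omega)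
  have g1 : g 1 = b := h1 1 (by omega)
  have g2 : g 2 = c := h1 2 (by omega)
  have := T3.valid (G := G) (by simpa [T3.ths] using valid_R2 h) g (by
    rw [← List.take_append_drop 3 T3.th.hy, List.forall_mem_append]
    exact ⟨by simp [T3.th, Eqn, evL, g0, g1, g2, ha, hb, hc], h2⟩)
  exact ⟨_, pc_finite g 11 _ this (by decide +kernel), subset_closure ⟨0, by simp, g0⟩,
    subset_closure ⟨1, by simp, g1⟩, subset_closure ⟨2, by simp, g2⟩⟩

/-- Commutators of involutions are strong sandwiches. -/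
lemma strong (h : ∀ a b c : G, a * a = 1 → b * b = 1 → c * c = 1 → (a * b * c) ^ 4 = 1)
    {a b c d : G} (ha : a * a = 1) (hb : b * b = 1) (hc : c * c = 1) (hd : d * d = 1) :
    Commute (c * cm b a * c) (d * cm b a * d) := by
  have v2 := valid_R2 fun a b ha hb => by simpa using h a b 1 ha hb (mul_one 1)
  have v3 := valid_R3 h
  have v4 := T3p.valid (G := G) (by simpa [T3p.ths] using ⟨v2, v3⟩)
  have v5 := L1.valid (G := G) (by simpa [L1.ths] using ⟨v2, v3, v4⟩)
  obtain ⟨g, h1, h2⟩ := exists_ext (L4.th.hy.drop 4) 4 (fun i => [a, b, c, d].getD i 1) (by decide)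
  have g0 : g 0 = a := h1 0 (by omega)
  have g1 : g 1 = b := h1 1 (by omega)
  have g2 : g 2 = c := h1 2 (by omega)
  have g3 : g 3 = d := h1 3 (by omega)
  have g4 : g 4 = cm b a := by
    simpa [Eqn, evL, g0, g1, cm, mul_assoc] using h2 ([4], [1, 0, 1, 0]) (by decide)
  have := L4.valid (G := G) (by simpa [L4.ths] using ⟨v2, v3, v4, v5⟩) g (by
    rw [← List.take_append_drop 4 L4.th.hy, List.forall_mem_append]
    exact ⟨by simp [L4.th, Eqn, evL, g0, g1, g2, g3, ha, hb, hc, hd], h2⟩)
    ([2, 4, 2, 3, 4, 3], [3, 4, 3, 2, 4, 2]) (by decide)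
  simpa [Eqn, evL, g2, g3, g4, mul_assoc, Commute, SemiconjBy] using this

/-- The commutators of involutions generate a locally finite normal subgroup. -/
lemma comm_lf (h : ∀ a b c : G, a * a = 1 → b * b = 1 → c * c = 1 → (a * b * c) ^ 4 = 1) :
    ∃ N : Subgroup G, N.Normal ∧ LF N ∧ ∀ a b : G, a * a = 1 → b * b = 1 → cm a b ∈ N := by
  let T : Set G := {t | ∃ a b, a * a = 1 ∧ b * b = 1 ∧ t = cm a b}
  have sq : ∀ u ∈ T, u * u = 1 := by
    rintro _ ⟨a, b, ha, hb, rfl⟩
    simpa [cm, pow_succ, mul_assoc] using h a b 1 ha hb (mul_one 1)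
  have hT : SW T := ⟨⟨1, 1, by simp [cm]⟩, sq, fun u hu v hv => ⟨u, v, sq u hu, sq v hv, rfl⟩, by
    rintro _ ⟨a, b, ha, hb, rfl⟩ c hc d hd
    exact strong h hb ha (sq c hc) (sq d hd)⟩
  refine ⟨closure T, ⟨fun x hx g => ?_⟩, hT.lf, fun a b ha hb => subset_closure ⟨a, b, ha, hb, rfl⟩⟩
  induction hx using closure_induction with
  | mem x hx =>
    obtain ⟨a, b, ha, hb, rfl⟩ := hx
    exact subset_closure ⟨g * a * g⁻¹, g * b * g⁻¹, by rw [conj_mul, ha]; simp,
      by rw [conj_mul, hb]; simp, by simp only [cm, conj_mul]⟩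
  | one => simp
  | mul x y _ _ i1 i2 => simpa only [conj_mul] using mul_mem i1 i2
  | inv x _ i1 => simpa only [conj_inv] using inv_mem i1

theorem LF_of_sec (h2 : IsPGroup 2 G)
    (h : ∀ (H : Subgroup G) (N : Subgroup H) [N.Normal], Finite H → ∀ a b c : H ⧸ N,
      a ^ 2 = 1 → b ^ 2 = 1 → c ^ 2 = 1 → (a * b * c) ^ 4 = 1) : LF (⊤ : Subgroup G) := by
  have hq := h2.to_quotient (rad G)
  let f := QuotientGroup.mk' (rad G)
  have hk : LF f.ker := by rw [QuotientGroup.ker_mk']; exact LF_rad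
  have lift : ∀ K : Subgroup (G ⧸ rad G), (K : Set (G ⧸ rad G)).Finite → ∀ a ∈ K, ∀ b ∈ K, ∀ c ∈ K,
      a * a = 1 → b * b = 1 → c * c = 1 → (a * b * c) ^ 4 = 1 := by
    intro K hK a aK b bK c cK ha hb hc
    obtain ⟨x, rfl⟩ := QuotientGroup.mk'_surjective _ a
    obtain ⟨y, rfl⟩ := QuotientGroup.mk'_surjective _ b
    obtain ⟨z, rfl⟩ := QuotientGroup.mk'_surjective _ c
    have hF := LF.comap f hk (S := K) (fun t _ ht => hK.subset ((closure_le _).2 ht)) {x, y, z}
      (Set.toFinite _) (by rintro _ (rfl | rfl | rfl) <;> assumption)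
    set H := closure ({x, y, z} : Set G)
    let p := f.comp H.subtype
    have key : ∀ (u : H) (n : ℕ), (u : H ⧸ p.ker) ^ n = 1 ↔ f u.1 ^ n = 1 := fun u n => by
      rw [← QuotientGroup.mk_pow, QuotientGroup.eq_one_iff, MonoidHom.mem_ker, map_pow]; rfl
    exact (key (⟨x, subset_closure (by simp)⟩ * ⟨y, subset_closure (by simp)⟩ *
      ⟨z, subset_closure (by simp)⟩) 4).1 (h H p.ker hF _ _ _ ((key _ 2).2 (by rwa [pow_two]))
      ((key _ 2).2 (by rwa [pow_two])) ((key _ 2).2 (by rwa [pow_two])))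
  have r2 : ∀ a b : G ⧸ rad G, a * a = 1 → b * b = 1 → (a * b) ^ 4 = 1 := by
    intro a b ha hb
    have h1 : (closure {a * b} : Set (G ⧸ rad G)).Finite := by
      rw [← zpowers_eq_closure]; exact finite_zpowers.2 (tors hq _)
    have h3 := fin_step h1 ha (by
      rintro _ rfl
      have := inv_mem (subset_closure (k := {a * b}) rfl)
      rw [mul_inv_rev, inv_eq_of_mul_eq_one_right ha, inv_eq_of_mul_eq_one_right hb] at this
      rwa [← mul_assoc, ha, one_mul])
    have m1 : a ∈ closure (insert a {a * b}) := subset_closure (by simp)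
    have m2 : a * b ∈ closure (insert a {a * b}) := subset_closure (by simp)
    simpa using lift _ h3 a m1 b (by simpa only [← mul_assoc, ha, one_mul] using mul_mem m1 m2) 1
      (one_mem _) ha hb (mul_one 1)
  obtain ⟨N, _, hN, hc⟩ := comm_lf (G := G ⧸ rad G) fun a b c ha hb hc => by
    obtain ⟨K, k0, k1, k2, k3⟩ := three_fin r2 ha hb hc
    exact lift K k0 a k1 b k2 c k3 ha hb hc
  have inv : ∀ a : G ⧸ rad G, a ^ 2 = 1 → a = 1 := by
    intro a ha
    rw [pow_two] at ha
    refine quot_triv (LF_normalClosure (tors hq) fun g => ?_) (subset_normalClosure rfl)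
    have hb : g * a * g⁻¹ * (g * a * g⁻¹) = 1 := by rw [conj_mul, ha]; simp
    exact (cm_eq_one ha hb).1 (quot_triv hN (hc _ _ ha hb))
  have all : ∀ u : G ⧸ rad G, u = 1 := fun u => by
    obtain ⟨k, hk⟩ := hq u
    simpa using descend (c := 1) (fun j e => inv _ (by rw [← pow_mul, mul_comm, e])) hk
  exact LF_rad.mono fun y _ => (QuotientGroup.eq_one_iff y).1 (all _)

end Pool.Agent.Lib.MP_3b0e0c_al.S
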