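import Mathlib.Algebra.BigOperators.Group.List.Basic
import Mathlib.Data.List.GetD
import Mathlib.Tactic.Ring
import Mathlib.Tactic.Linarith

/-! A checker for equational derivations between words (base 64 numerals, digit 0 = identity). -/

namespace Pool.Agent.Lib.MP_3b0e0c_al.S

variable {G : Type*} [Monoid G]

/-- Value of a digit. -/
def lt (g : ℕ → G) (d : ℕ) : G := if d = 0 then 1 else g (d - 1)

/-- Value of a numeral. -/
def ev (g : ℕ → G) (n : ℕ) : G :=
  if _h : n = 0 then 1 else lt g (n % 64) * ev g (n / 64)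
decreasing_by omega

lemma ev_step (g : ℕ → G) (n : ℕ) : ev g n = lt g (n % 64) * ev g (n / 64) := by
  by_cases h : n = 0
  · subst h; rw [Nat.zero_div, Nat.zero_mod, lt, if_pos rfl, one_mul]
  · rw [ev, dif_neg h]

lemma ev_zero (g : ℕ → G) : ev g 0 = 1 := by rw [ev, dif_pos rfl]

lemma ev_app (g : ℕ → G) (k : ℕ) : ∀ a b, a < 64 ^ k → ev g (a + 64 ^ k * b) = ev g a * ev g b := by
  induction k with
  | zero => intro a b h; obtain rfl : a = 0 := by omega
            simp [ev_zero]
  | succ k ih =>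
    intro a b h
    have e : a + 64 ^ (k + 1) * b = a + 64 * (64 ^ k * b) := by ring
    rw [ev_step, ev_step g a, e, Nat.add_mul_mod_self_left, Nat.add_mul_div_left _ _ (by norm_num),
      ih _ _ (by rw [pow_succ] at h; omega), mul_assoc]

/-- Value of a list word. -/
def evL (g : ℕ → G) (l : List ℕ) : G := (l.map g).prod

/-- An equation between list words. -/
def Eqn (g : ℕ → G) (e : List ℕ × List ℕ) : Prop := evL g e.1 = evL g e.2

/-- A theory: hypotheses and conclusions. -/
structure Th where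
  hy : List (List ℕ × List ℕ)
  co : List (List ℕ × List ℕ)

variable (G) in
/-- The conclusions follow from the hypotheses in `G`. -/
def Valid (th : Th) : Prop := ∀ g : ℕ → G, (∀ e ∈ th.hy, Eqn g e) → ∀ e ∈ th.co, Eqn g e

/-- A fact: two numerals with their lengths. -/
structure Fc where
  l : ℕ
  kl : ℕ
  r : ℕ
  kr : ℕ

/-- Fact data base. -/
inductive Tr where
  | lf : Fc → Tr
  | nd : Tr → Tr → Tr

noncomputable def Tr.get (t : Tr) : ℕ → Fc :=
  Tr.rec (motive := fun _ => ℕ → Fc) (fun f _ => f)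
    (fun _ _ fa fb i => cond (Nat.beq (Nat.mod i 2) 0) (fa (Nat.div i 2)) (fb (Nat.div i 2))) t

noncomputable def frc (x : ℕ) (k : ℕ → Bool) : Bool :=
  Nat.rec (motive := fun _ => Bool) (k 0) (fun n _ => k (Nat.succ n)) x

lemma frc_eq (x : ℕ) (k : ℕ → Bool) : frc x k = k x := by cases x <;> rfl

lemma blt_lt {a b : ℕ} (h : Nat.blt a b = true) : a < b := by simpa [Nat.blt_eq] using h

/-- One rewriting step. -/
noncomputable def stp (l kl r kr pos w : ℕ) (k : ℕ → Bool) : Bool :=
  frc (Nat.pow 64 pos) fun P => frc (Nat.div w P) fun q => frc (Nat.pow 64 kl) fun L =>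
    cond (Nat.beq (Nat.mod q L) l)
      (frc (Nat.add (Nat.mod w P) (Nat.mul P (Nat.add r (Nat.mul (Nat.pow 64 kr) (Nat.div q L))))) k)
      false

lemma stp_ok {g : ℕ → G} {l kl r kr pos w : ℕ} {k : ℕ → Bool} (e : ev g l = ev g r)
    (hr : r < 64 ^ kr) (h : stp l kl r kr pos w k = true) :
    ∃ w', ev g w = ev g w' ∧ k w' = true := by
  simp only [stp, frc_eq] at h
  obtain ⟨h1, h2⟩ := Bool.and_eq_true_iff.1 (by rwa [Bool.cond_false_right] at h)
  refine ⟨_, ?_, h2⟩
  have h3 : w / 64 ^ pos % 64 ^ kl = l := Nat.eq_of_beq_eq_true h1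
  show ev g w = ev g (w % 64 ^ pos + 64 ^ pos * (r + 64 ^ kr * (w / 64 ^ pos / 64 ^ kl)))
  rw [ev_app _ _ _ _ (Nat.mod_lt _ (by positivity)), ev_app _ _ _ _ hr, ← e, ← h3,
    ← ev_app _ _ _ _ (Nat.mod_lt _ (by positivity)), Nat.mod_add_div,
    ← ev_app _ _ _ _ (Nat.mod_lt _ (by positivity)), Nat.mod_add_div]

/-- The fact holds. -/
def Fc.ok (g : ℕ → G) (f : Fc) : Prop := ev g f.l = ev g f.r ∧ f.l < 64 ^ f.kl ∧ f.r < 64 ^ f.kr

/-- A chain of rewriting steps. -/
noncomputable def run (db : Tr) (i r n : ℕ) : ℕ → ℕ → Bool :=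
  Nat.rec (motive := fun _ => ℕ → ℕ → Bool) (fun _ w => Nat.beq w r)
    (fun _ ih code w => frc (Nat.mod (Nat.div code 2) 4096) fun j =>
      frc (Nat.mod (Nat.div code 8192) 256) fun pos => frc (Nat.div code 2097152) fun code' =>
      cond (Nat.blt j i)
        (Fc.rec (motive := fun _ => Bool) (fun l kl r kr => cond (Nat.beq (Nat.mod code 2) 0)
          (stp l kl r kr pos w (ih code')) (stp r kr l kl pos w (ih code'))) (db.get j))
        false) n

lemma run_succ (db : Tr) (i r' n code w : ℕ) : run db i r' (n + 1) code w =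
    frc (Nat.mod (Nat.div code 2) 4096) fun j =>
      frc (Nat.mod (Nat.div code 8192) 256) fun pos => frc (Nat.div code 2097152) fun code' =>
      cond (Nat.blt j i)
        (Fc.rec (motive := fun _ => Bool) (fun l kl r kr => cond (Nat.beq (Nat.mod code 2) 0)
          (stp l kl r kr pos w (run db i r' n code')) (stp r kr l kl pos w (run db i r' n code')))
          (db.get j))
        false := rfl

lemma run_ok {g : ℕ → G} {db : Tr} {i r : ℕ} (H : ∀ j < i, (db.get j).ok g) (n : ℕ) :
    ∀ code w, run db i r n code w = true → ev g w = ev g r := by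
  induction n with
  | zero => intro _ w h; rw [Nat.eq_of_beq_eq_true h]
  | succ n ih =>
    intro code w h
    simp only [run_succ, frc_eq] at h
    obtain ⟨h1, h2⟩ := Bool.and_eq_true_iff.1 (by rwa [Bool.cond_false_right] at h)
    have := H _ (blt_lt h1)
    generalize db.get _ = f at h2 this
    obtain ⟨l, kl, r', kr⟩ := f
    dsimp only at h2
    cases hc : Nat.beq (Nat.mod code 2) 0 <;> rw [hc] at h2
    · obtain ⟨w', e1, e2⟩ := stp_ok this.1.symm this.2.1 h2
      exact e1.trans (ih _ _ e2)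
    · obtain ⟨w', e1, e2⟩ := stp_ok this.1 this.2.2 h2
      exact e1.trans (ih _ _ e2)

noncomputable def nth {β : Type} (d : β) (l : List β) : ℕ → β :=
  List.rec (motive := fun _ => ℕ → β) (fun _ => d)
    (fun a _ ih n => Nat.rec (motive := fun _ => β) a (fun m _ => ih m) n) l

lemma nth_mem {β : Type} (d : β) (l : List β) : ∀ n, nth d l n = d ∨ nth d l n ∈ l := by
  induction l with
  | nil => exact fun _ => Or.inl rfl
  | cons a l ih =>
    intro n
    cases n with
    | zero => exact Or.inr List.mem_cons_self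
    | succ n => exact (ih n).imp_right (List.mem_cons_of_mem _)

/-- Substitution of numerals for letters. -/
noncomputable def sb (σ : List (ℕ × ℕ)) (l : List ℕ) : ℕ :=
  List.rec (motive := fun _ => ℕ) 0
    (fun c _ ih => Prod.rec (motive := fun _ => ℕ)
      (fun w k => Nat.add w (Nat.mul (Nat.pow 64 k) ih)) (nth (0, 0) σ c)) l

noncomputable def allL {β : Type} (p : β → Bool) (l : List β) : Bool :=
  List.rec (motive := fun _ => Bool) true (fun a _ ih => cond (p a) ih false) l

lemma allL_ok {β : Type} {p : β → Bool} {l : List β} (h : allL p l = true) : ∀ a ∈ l, p a = true := by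
  induction l with
  | nil => simp
  | cons a l ih =>
    change cond _ _ _ = true at h
    obtain ⟨h1, h2⟩ := Bool.and_eq_true_iff.1 (by rwa [Bool.cond_false_right] at h)
    exact List.forall_mem_cons.2 ⟨h1, ih h2⟩

lemma sb_ok (g : ℕ → G) {σ : List (ℕ × ℕ)}
    (h : allL (fun p => Nat.blt p.1 (Nat.pow 64 p.2)) σ = true) (l : List ℕ) :
    ev g (sb σ l) = evL (fun c => ev g (nth (0, 0) σ c).1) l := by
  induction l with
  | nil => exact ev_zero g
  | cons c l ih =>
    have : (nth (0, 0) σ c).1 < 64 ^ (nth (0, 0) σ c).2 := by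
      rcases nth_mem (0, 0) σ c with e | e
      · rw [e]; norm_num
      · exact blt_lt (allL_ok h _ e)
    have e : sb σ (c :: l) = (nth (0, 0) σ c).1 + 64 ^ (nth (0, 0) σ c).2 * sb σ l := rfl
    rw [e, ev_app _ _ _ _ this, ih]; rfl

/-- Numeral of a list word. -/
noncomputable def enc (l : List ℕ) : ℕ :=
  List.rec (motive := fun _ => ℕ) 0 (fun c _ ih => Nat.add (Nat.succ c) (Nat.mul 64 ih)) l

lemma enc_ok (g : ℕ → G) {l : List ℕ} (h : allL (fun c => Nat.blt c 63) l = true) :
    ev g (enc l) = evL g l := by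
  have h' := allL_ok h
  clear h
  induction l with
  | nil => exact ev_zero g
  | cons c l ih =>
    have h1 : c < 63 := blt_lt (h' c List.mem_cons_self)
    have e : enc (c :: l) = (c + 1) + 64 * enc l := rfl
    rw [e, ev_step, Nat.add_mul_mod_self_left, Nat.add_mul_div_left _ _ (by norm_num),
      Nat.mod_eq_of_lt (by omega), Nat.div_eq_of_lt (by omega), zero_add,
      ih fun a ha => h' a (List.mem_cons_of_mem _ ha), lt, if_neg (by omega)]
    rfl

/-- The fact is the numeral form of the equation `e`. -/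
noncomputable def isE (f : Fc) (e : List ℕ × List ℕ) : Bool :=
  allL (fun c => Nat.blt c 63) e.1 && allL (fun c => Nat.blt c 63) e.2 &&
    Nat.beq (enc e.1) f.l && Nat.beq (enc e.2) f.r

lemma isE_ok (g : ℕ → G) {f : Fc} {e : List ℕ × List ℕ} (h : isE f e = true) :
    ev g f.l = ev g f.r ↔ Eqn g e := by
  simp only [isE, Bool.and_eq_true] at h
  rw [← Nat.eq_of_beq_eq_true h.1.2, ← Nat.eq_of_beq_eq_true h.2, enc_ok g h.1.1.1,
    enc_ok g h.1.1.2, Eqn]

/-- Every equation of `es`, after substitution, is one of the facts listed in `code`. -/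
noncomputable def hyps (db : Tr) (i : ℕ) (σ : List (ℕ × ℕ)) (es : List (List ℕ × List ℕ)) :
    ℕ → Bool :=
  List.rec (motive := fun _ => ℕ → Bool) (fun _ => true)
    (fun e _ ih code => frc (Nat.mod code 4096) fun j => frc (Nat.div code 4096) fun code' =>
      cond (Nat.blt j i && Nat.beq (sb σ e.1) (db.get j).l && Nat.beq (sb σ e.2) (db.get j).r)
        (ih code') false) es

lemma hyps_cons (db : Tr) (i : ℕ) (σ : List (ℕ × ℕ)) (e : List ℕ × List ℕ)
    (es : List (List ℕ × List ℕ)) (code : ℕ) : hyps db i σ (e :: es) code =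
    frc (Nat.mod code 4096) fun j => frc (Nat.div code 4096) fun code' =>
      cond (Nat.blt j i && Nat.beq (sb σ e.1) (db.get j).l && Nat.beq (sb σ e.2) (db.get j).r)
        (hyps db i σ es code') false := rfl

lemma hyps_ok {g : ℕ → G} {db : Tr} {i : ℕ} (H : ∀ j < i, (db.get j).ok g) {σ : List (ℕ × ℕ)}
    (es : List (List ℕ × List ℕ)) : ∀ code, hyps db i σ es code = true →
      ∀ e ∈ es, ev g (sb σ e.1) = ev g (sb σ e.2) := by
  induction es with
  | nil => simp
  | cons e es ih =>
    intro code h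
    simp only [hyps_cons, frc_eq] at h
    obtain ⟨h1, h2⟩ := Bool.and_eq_true_iff.1 (by rwa [Bool.cond_false_right] at h)
    simp only [Bool.and_eq_true] at h1
    refine List.forall_mem_cons.2 ⟨?_, ih _ h2⟩
    rw [Nat.eq_of_beq_eq_true h1.1.2, Nat.eq_of_beq_eq_true h1.2]
    exact (H _ (blt_lt h1.1.1)).1

/-- Justifications. -/
inductive Js where
  | h : ℕ → Js
  | c : ℕ → ℕ → Js
  | i : ℕ → ℕ → List (ℕ × ℕ) → ℕ → Js

noncomputable def chk1 (db : Tr) (hy : List (List ℕ × List ℕ)) (ths : List Th) (i : ℕ) (J : Js) :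
    Bool :=
  Fc.rec (motive := fun _ => Bool) (fun l kl r kr =>
    Nat.blt l (Nat.pow 64 kl) && Nat.blt r (Nat.pow 64 kr) &&
    Js.rec (motive := fun _ => Bool) (fun k => isE ⟨l, kl, r, kr⟩ (nth ([], []) hy k))
      (fun n code => run db i r n code l)
      (fun t ci σ code => allL (fun p => Nat.blt p.1 (Nat.pow 64 p.2)) σ &&
        hyps db i σ (nth ⟨[], []⟩ ths t).hy code &&
        Nat.beq (sb σ (nth ([], []) (nth ⟨[], []⟩ ths t).co ci).1) l &&
        Nat.beq (sb σ (nth ([], []) (nth ⟨[], []⟩ ths t).co ci).2) r) J) (db.get i)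

lemma chk1_ok {g : ℕ → G} {db : Tr} {hy : List (List ℕ × List ℕ)} {ths : List Th} {i : ℕ} {J : Js}
    (hh : ∀ e ∈ hy, Eqn g e) (ht : ∀ t ∈ ths, Valid G t) (H : ∀ j < i, (db.get j).ok g)
    (h : chk1 db hy ths i J = true) : (db.get i).ok g := by
  unfold chk1 at h
  generalize db.get i = f at h
  obtain ⟨l, kl, r, kr⟩ := f
  simp only [Bool.and_eq_true] at h
  refine ⟨?_, blt_lt h.1.1, blt_lt h.1.2⟩
  have h := h.2
  cases J with
  | h k =>
    refine (isE_ok g h).2 ?_
    rcases nth_mem ([], []) hy k with e | e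
    · rw [e]; rfl
    · exact hh _ e
  | c n code => exact run_ok H n code l h
  | i t ci σ code =>
    simp only [Bool.and_eq_true] at h
    obtain ⟨⟨⟨h1, h2⟩, h3⟩, h4⟩ := h
    have hv : Valid G (nth ⟨[], []⟩ ths t) := by
      rcases nth_mem ⟨[], []⟩ ths t with e | e
      · rw [e]; intro _ _ _ h; simp at h
      · exact ht _ e
    have := hv (fun c => ev g (nth (0, 0) σ c).1) fun e he => by
      have := hyps_ok H _ _ h2 e he
      rwa [sb_ok g h1, sb_ok g h1] at this
    show ev g l = ev g r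
    rw [← Nat.eq_of_beq_eq_true h3, ← Nat.eq_of_beq_eq_true h4, sb_ok g h1, sb_ok g h1]
    rcases nth_mem ([], []) (nth ⟨[], []⟩ ths t).co ci with e | e
    · rw [e]
    · exact this _ e

/-- Check the facts `i, i+1, ...` and end at `m`. -/
noncomputable def chk (db : Tr) (hy : List (List ℕ × List ℕ)) (ths : List Th) (m : ℕ)
    (Jl : List Js) : ℕ → Bool :=
  List.rec (motive := fun _ => ℕ → Bool) (fun i => Nat.beq i m)
    (fun J _ ih i => cond (chk1 db hy ths i J) (frc (Nat.succ i) ih) false) Jl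

lemma chk_ok {g : ℕ → G} {db : Tr} {hy : List (List ℕ × List ℕ)} {ths : List Th} {m : ℕ}
    (hh : ∀ e ∈ hy, Eqn g e) (ht : ∀ t ∈ ths, Valid G t) (Jl : List Js) :
    ∀ i, chk db hy ths m Jl i = true → (∀ j < i, (db.get j).ok g) → ∀ j < m, (db.get j).ok g := by
  induction Jl with
  | nil => intro i h H; rwa [← Nat.eq_of_beq_eq_true h]
  | cons J Jl ih =>
    intro i h H
    change cond _ _ _ = true at h
    obtain ⟨h1, h2⟩ := Bool.and_eq_true_iff.1 (by rwa [Bool.cond_false_right] at h)
    rw [frc_eq] at h2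
    refine ih _ h2 fun j hj => ?_
    rcases Nat.lt_succ_iff_lt_or_eq.1 hj with e | rfl
    · exact H j e
    · exact chk1_ok hh ht H h1

lemma fin_ok {g : ℕ → G} {db : Tr} {m : ℕ} (H : ∀ j < m, (db.get j).ok g)
    (co : List (List ℕ × List ℕ)) (f : List ℕ)
    (h : (Nat.beq co.length f.length &&
      allL (fun p => Nat.blt p.2 m && isE (db.get p.2) p.1) (co.zip f)) = true) :
    ∀ e ∈ co, Eqn g e := by
  intro e he
  rw [Bool.and_eq_true] at h
  obtain ⟨k, hk, rfl⟩ := List.getElem_of_mem he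
  have hl := Nat.eq_of_beq_eq_true h.1
  have := allL_ok h.2 (co[k], f[k]) (by
    rw [← List.getElem_zip (h := by rw [List.length_zip]; omega)]; exact List.getElem_mem _)
  rw [Bool.and_eq_true] at this
  exact (isE_ok g this.2).1 (H _ (blt_lt this.1)).1

end Pool.Agent.Lib.MP_3b0e0c_al.S
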