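import Pool.Agent.Lib.MP_3b0e0c_al.S.T3pD

namespace Pool.Agent.Lib.MP_3b0e0c_al.S.L1

/-- The theory. -/
def th : Th := ⟨[([0, 0], []),
  ([1, 1], []),
  ([2, 2], []),
  ([3, 3], []),
  ([1, 0], [0, 1]),
  ([4], [2, 0, 2, 0]),
  ([5], [2, 1, 2, 1]),
  ([6], [3, 0, 3, 0]),
  ([7], [3, 1, 3, 1]),
  ([8], [3, 2, 3, 2]),
  ([9], [5, 0, 5, 0]),
  ([10], [6, 2, 6, 2]),
  ([11], [7, 0, 7, 0]),
  ([12], [7, 2, 7, 2]),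
  ([13], [8, 0, 8, 0]),
  ([14], [8, 1, 8, 1]),
  ([15], [11, 2, 11, 2]),
  ([16], [12, 0, 12, 0]),
  ([17], [13, 2, 13, 2]),
  ([18], [13, 3, 13, 3]),
  ([19], [14, 0, 14, 0]),
  ([20], [14, 2, 14, 2]),
  ([21], [14, 3, 14, 3]),
  ([22], [19, 2, 19, 2]),
  ([23], [19, 3, 19, 3])],
  [([2, 2], []),
  ([3, 0], [0, 3, 6]),
  ([7, 7], []),
  ([5, 0], [0, 5, 9]),
  ([10, 10], []),
  ([6, 2], [2, 6, 10]),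
  ([12, 12], []),
  ([13, 13], []),
  ([14, 14], []),
  ([8, 1], [1, 8, 14]),
  ([15, 15], []),
  ([16, 16], []),
  ([12, 0], [0, 12, 16]),
  ([17, 17], []),
  ([18, 18], []),
  ([19, 19], []),
  ([20, 20], []),
  ([21, 21], []),
  ([23, 23], []),
  ([6, 3], [3, 6]),
  ([5, 2], [2, 5]),
  ([7, 3], [3, 7]),
  ([10, 6], [6, 10]),
  ([8, 3], [3, 8]),
  ([9, 5], [5, 9]),
  ([7, 6], [6, 7]),
  ([10, 8], [8, 10]),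
  ([12, 8], [8, 12]),
  ([6, 1], [1, 6, 11]),
  ([11, 1], [1, 11]),
  ([14, 1], [1, 14]),
  ([10, 4], [4, 10]),
  ([11, 6], [6, 11]),
  ([9, 2], [2, 9]),
  ([11, 3], [3, 11]),
  ([14, 13], [13, 14]),
  ([16, 11], [11, 16]),
  ([15, 12], [12, 15]),
  ([8, 4], [4, 8, 17]),
  ([8, 5], [5, 8, 20]),
  ([16, 4], [4, 16]),
  ([13, 1], [1, 13, 19]),
  ([19, 1], [1, 19]),
  ([18, 0], [0, 18]),
  ([20, 1], [1, 20]),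
  ([21, 1], [1, 21]),
  ([13, 8], [8, 13]),
  ([13, 4], [4, 13]),
  ([17, 3], [3, 17]),
  ([14, 5], [5, 14]),
  ([14, 7], [7, 14]),
  ([20, 3], [3, 20]),
  ([8, 7], [7, 8, 21]),
  ([23, 8], [8, 23]),
  ([11, 9], [9, 11]),
  ([10, 0], [0, 10, 17, 18]),
  ([18, 2], [2, 18]),
  ([13, 10], [10, 13]),
  ([6, 4], [4, 6, 17, 18]),
  ([4, 3], [3, 4, 10, 13]),
  ([15, 5], [5, 15]),
  ([20, 7], [7, 20]),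
  ([14, 12], [12, 14]),
  ([15, 9], [9, 15]),
  ([7, 5], [5, 7, 20, 21]),
  ([5, 3], [3, 5, 12, 14]),
  ([12, 1], [1, 12, 20, 21]),
  ([21, 2], [2, 21]),
  ([21, 19], [19, 21]),
  ([21, 11], [11, 21]),
  ([21, 15], [15, 21]),
  ([20, 19], [19, 20]),
  ([20, 15], [15, 20]),
  ([23, 20], [20, 23]),
  ([15, 4], [4, 15]),
  ([7, 4], [4, 7, 15, 16]),
  ([18, 12], [12, 18]),
  ([12, 10], [10, 12]),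
  ([21, 10], [10, 21]),
  ([18, 16], [16, 18]),
  ([21, 18], [18, 21]),
  ([18, 11], [11, 18]),
  ([17, 9], [9, 17]),
  ([16, 9], [9, 16]),
  ([21, 16], [16, 21]),
  ([20, 10], [10, 20]),
  ([23, 2], [2, 23]),
  ([17, 14], [14, 17]),
  ([20, 13], [13, 20]),
  ([14, 9], [9, 14]),
  ([19, 5], [5, 19]),
  ([21, 17], [17, 21]),
  ([13, 9], [9, 13]),
  ([17, 5], [5, 17]),
  ([19, 4], [4, 19]),
  ([20, 4], [4, 20]),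
  ([23, 5], [5, 23]),
  ([16, 14], [14, 16]),
  ([17, 12], [12, 17]),
  ([9, 8], [8, 9, 22]),
  ([22, 12], [12, 22]),
  ([19, 12], [12, 19]),
  ([22, 10], [10, 22]),
  ([10, 9], [9, 10]),
  ([17, 16], [16, 17]),
  ([16, 10], [10, 16]),
  ([19, 10], [10, 19]),
  ([15, 14], [14, 15]),
  ([21, 9], [9, 21]),
  ([18, 14], [14, 18]),
  ([14, 11], [11, 14]),
  ([23, 1], [1, 23]),
  ([19, 7], [7, 19]),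
  ([21, 13], [13, 21]),
  ([21, 6], [6, 21]),
  ([18, 7], [7, 18]),
  ([13, 11], [11, 13]),
  ([19, 6], [6, 19]),
  ([11, 8], [8, 11, 23]),
  ([15, 3], [3, 15, 23]),
  ([16, 13], [13, 16]),
  ([16, 6], [6, 16]),
  ([17, 11], [11, 17]),
  ([18, 5], [5, 18]),
  ([16, 5], [5, 16]),
  ([21, 4], [4, 21]),
  ([12, 9], [9, 12]),
  ([10, 7], [7, 10, 23]),
  ([12, 6], [6, 12, 23]),
  ([13, 12], [12, 13]),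
  ([14, 10], [10, 14]),
  ([16, 8], [8, 16]),
  ([16, 1], [1, 16]),
  ([12, 11], [11, 12]),
  ([16, 7], [7, 16]),
  ([15, 7], [7, 15]),
  ([11, 10], [10, 11]),
  ([15, 6], [6, 15]),
  ([17, 7], [7, 17]),
  ([20, 6], [6, 20]),
  ([9, 3], [3, 9, 15, 19, 22, 23]),
  ([10, 1], [1, 10, 16, 22, 23]),
  ([13, 7], [7, 13, 23]),
  ([14, 6], [6, 14, 23]),
  ([21, 0], [0, 21]),
  ([18, 1], [1, 18]),
  ([9, 7], [7, 9]),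
  ([9, 6], [6, 9]),
  ([13, 5], [5, 13, 22]),
  ([17, 1], [1, 17]),
  ([20, 0], [0, 20]),
  ([14, 4], [4, 14, 22]),
  ([11, 5], [5, 11]),
  ([15, 1], [1, 15]),
  ([10, 5], [5, 10]),
  ([11, 4], [4, 11]),
  ([15, 0], [0, 15]),
  ([16, 2], [2, 16]),
  ([12, 4], [4, 12]),
  ([16, 3], [3, 16, 23])]⟩

/-- The theories used. -/
def ths : List Th := [R2, R3, T3p.th]

set_option maxRecDepth 100000 in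
/-- The facts. -/
noncomputable def db : Tr :=
(.nd (.nd (.nd (.nd (.nd (.nd (.nd (.nd (.nd (.nd (.nd (.nd (.lf ⟨(nat_lit 65), (nat_lit 2), (nat_lit 0), (nat_lit 0)⟩)
(.lf ⟨(nat_lit 80), (nat_lit 2), (nat_lit 0x61740a20e20728718e181), (nat_lit 14)⟩))
(.lf ⟨(nat_lit 0x940c3cd), (nat_lit 5), (nat_lit 0xc3cd2cc54c4d04d02cc250315), (nat_lit 17)⟩))
(.nd (.lf ⟨(nat_lit 0x654f), (nat_lit 3), (nat_lit 0x153c6), (nat_lit 3)⟩)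
(.lf ⟨(nat_lit 3), (nat_lit 1), (nat_lit 0xc14c150050043), (nat_lit 9)⟩)))
(.nd (.nd (.lf ⟨(nat_lit 0x492), (nat_lit 2), (nat_lit 0), (nat_lit 0)⟩)
(.lf ⟨(nat_lit 0x638b), (nat_lit 3), (nat_lit 0x163cd4d630d30f35330d2c638c), (nat_lit 17)⟩))
(.nd (.lf ⟨(nat_lit 5), (nat_lit 1), (nat_lit 0x28304a0c1), (nat_lit 6)⟩)
(.lf ⟨(nat_lit 0x638a), (nat_lit 3), (nat_lit 0x123d23ca18e), (nat_lit 7)⟩))))
(.nd (.nd (.nd (.lf ⟨(nat_lit 0x1c31c3), (nat_lit 4), (nat_lit 0xc70c7), (nat_lit 4)⟩)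
(.lf ⟨(nat_lit 0x302302), (nat_lit 4), (nat_lit 0), (nat_lit 0)⟩))
(.nd (.lf ⟨(nat_lit 211), (nat_lit 2), (nat_lit 0x493483), (nat_lit 4)⟩)
(.lf ⟨(nat_lit 0xd38d48e), (nat_lit 5), (nat_lit 0x1238d38d), (nat_lit 5)⟩)))
(.nd (.nd (.lf ⟨(nat_lit 0x2441c32441c3), (nat_lit 8), (nat_lit 0xc72440c7244), (nat_lit 8)⟩)
(.lf ⟨(nat_lit 0x489292289), (nat_lit 6), (nat_lit 0x14a24a245289289), (nat_lit 10)⟩))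
(.nd (.lf ⟨(nat_lit 0x838c), (nat_lit 3), (nat_lit 0x1639639631620e), (nat_lit 9)⟩)
(.lf ⟨(nat_lit 973), (nat_lit 2), (nat_lit 0x486112184), (nat_lit 6)⟩)))))
(.nd (.nd (.nd (.nd (.nd (.lf ⟨(nat_lit 0xce0ce), (nat_lit 4), (nat_lit 0x383383), (nat_lit 4)⟩)
(.lf ⟨(nat_lit 332), (nat_lit 2), (nat_lit 0x1838c20e205), (nat_lit 7)⟩))
(.lf ⟨(nat_lit 0x286243286243), (nat_lit 8), (nat_lit 0x243286243286), (nat_lit 8)⟩))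
(.nd (.lf ⟨(nat_lit 392), (nat_lit 2), (nat_lit 0xd58f34921558f246), (nat_lit 11)⟩)
(.lf ⟨(nat_lit 0x838c), (nat_lit 3), (nat_lit 0x133d33cc20e), (nat_lit 7)⟩)))
(.nd (.nd (.lf ⟨(nat_lit 0x52c7147), (nat_lit 5), (nat_lit 0x714b1c5), (nat_lit 5)⟩)
(.lf ⟨(nat_lit 403), (nat_lit 2), (nat_lit 0x59358d4cd2cc3cd30d4cd2cf346), (nat_lit 18)⟩))
(.nd (.lf ⟨(nat_lit 0x3d83d8), (nat_lit 4), (nat_lit 0x60f60f), (nat_lit 4)⟩)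
(.lf ⟨(nat_lit 340), (nat_lit 2), (nat_lit 0x505), (nat_lit 2)⟩))))
(.nd (.nd (.nd (.lf ⟨(nat_lit 0x10d10d), (nat_lit 4), (nat_lit 0x344344), (nat_lit 4)⟩)
(.lf ⟨(nat_lit 0x928f24a), (nat_lit 5), (nat_lit 0x1528f2953ca24a3c9), (nat_lit 11)⟩))
(.nd (.lf ⟨(nat_lit 0x493), (nat_lit 2), (nat_lit 0x4d2), (nat_lit 2)⟩)
(.lf ⟨(nat_lit 0xc3d0), (nat_lit 3), (nat_lit 0x183d060f30f), (nat_lit 7)⟩)))
(.nd (.nd (.lf ⟨(nat_lit 0x630a), (nat_lit 3), (nat_lit 0xc28c18c), (nat_lit 5)⟩)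
(.lf ⟨(nat_lit 0), (nat_lit 0), (nat_lit 0x343343), (nat_lit 4)⟩))
(.nd (.lf ⟨(nat_lit 0x1465d448e19448e1465d448e19448e), (nat_lit 20), (nat_lit 0x1465d448e19448e1465d448e19448e), (nat_lit 20)⟩)
(.lf ⟨(nat_lit 0x6388), (nat_lit 3), (nat_lit 0x1654e20e18e), (nat_lit 7)⟩))))))
(.nd (.nd (.nd (.nd (.nd (.nd (.lf ⟨(nat_lit 455), (nat_lit 2), (nat_lit 0), (nat_lit 0)⟩)
(.lf ⟨(nat_lit 461), (nat_lit 2), (nat_lit 0x18347), (nat_lit 3)⟩))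
(.lf ⟨(nat_lit 333), (nat_lit 2), (nat_lit 0x1228928919751238a50f30a2cf2943ca58f2943ca19358f4cf38c3ce34c2cf2943ca58f2943ca19358f4cf38c185), (nat_lit 61)⟩))
(.nd (.lf ⟨(nat_lit 464), (nat_lit 2), (nat_lit 0x2d030b307), (nat_lit 6)⟩)
(.lf ⟨(nat_lit 725), (nat_lit 2), (nat_lit 0x5935903153d03d330b), (nat_lit 12)⟩)))
(.nd (.nd (.lf ⟨(nat_lit 0x34310d0c4), (nat_lit 6), (nat_lit 0x10d0c4343), (nat_lit 6)⟩)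
(.lf ⟨(nat_lit 146), (nat_lit 2), (nat_lit 0x1229751238a48a50e2923ce28f38a4943ce2943ca18e182), (nat_lit 31)⟩))
(.nd (.lf ⟨(nat_lit 139), (nat_lit 2), (nat_lit 0x1438a38b28e2ca38b20520510a102), (nat_lit 19)⟩)
(.lf ⟨(nat_lit 145), (nat_lit 2), (nat_lit 0x4503d03cc28828818c182), (nat_lit 14)⟩))))
(.nd (.nd (.nd (.lf ⟨(nat_lit 0x2430890c2), (nat_lit 6), (nat_lit 0x832420c9), (nat_lit 6)⟩)
(.lf ⟨(nat_lit 782), (nat_lit 2), (nat_lit 0x59358f4cf38c), (nat_lit 8)⟩))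
(.nd (.lf ⟨(nat_lit 0x282282), (nat_lit 4), (nat_lit 0), (nat_lit 0)⟩)
(.lf ⟨(nat_lit 0xc551), (nat_lit 3), (nat_lit 0x11315), (nat_lit 3)⟩)))
(.nd (.nd (.lf ⟨(nat_lit 141), (nat_lit 2), (nat_lit 0x348188182), (nat_lit 6)⟩)
(.lf ⟨(nat_lit 0x412), (nat_lit 2), (nat_lit 0x490), (nat_lit 2)⟩))
(.nd (.lf ⟨(nat_lit 0), (nat_lit 0), (nat_lit 0x24d24d), (nat_lit 4)⟩)
(.lf ⟨(nat_lit 0x20b20a), (nat_lit 4), (nat_lit 0x38c2882c838b30b), (nat_lit 10)⟩)))))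
(.nd (.nd (.nd (.nd (.lf ⟨(nat_lit 136), (nat_lit 2), (nat_lit 0x108108108102), (nat_lit 8)⟩)
(.lf ⟨(nat_lit 0), (nat_lit 0), (nat_lit 0x30810c204), (nat_lit 6)⟩))
(.nd (.lf ⟨(nat_lit 0x4287), (nat_lit 3), (nat_lit 0xa1ca10a), (nat_lit 5)⟩)
(.lf ⟨(nat_lit 0x2943d1), (nat_lit 4), (nat_lit 0x50f4523d23ca), (nat_lit 8)⟩)))
(.nd (.nd (.lf ⟨(nat_lit 0x143181143181), (nat_lit 8), (nat_lit 0x46143046143), (nat_lit 8)⟩)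
(.lf ⟨(nat_lit 85), (nat_lit 2), (nat_lit 0x5d550a5d250f2943d23ca50f38a50e29251228f38a50f48f2943ca54f38a50e29250a50f48f2943ca54f38a50e29238a50f386389289181), (nat_lit 74)⟩))
(.nd (.lf ⟨(nat_lit 0x353353), (nat_lit 4), (nat_lit 0x4cd4cd), (nat_lit 4)⟩)
(.lf ⟨(nat_lit 0x20e2ca), (nat_lit 4), (nat_lit 0x38b288), (nat_lit 4)⟩))))
(.nd (.nd (.nd (.lf ⟨(nat_lit 197), (nat_lit 2), (nat_lit 323), (nat_lit 2)⟩)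
(.lf ⟨(nat_lit 0x4d64d6), (nat_lit 4), (nat_lit 0x593593), (nat_lit 4)⟩))
(.nd (.lf ⟨(nat_lit 0), (nat_lit 0), (nat_lit 455), (nat_lit 2)⟩)
(.lf ⟨(nat_lit 662), (nat_lit 2), (nat_lit 0x5903d03ca), (nat_lit 6)⟩)))
(.nd (.nd (.lf ⟨(nat_lit 0x1c41431c4143), (nat_lit 8), (nat_lit 0x1431c41431c4), (nat_lit 8)⟩)
(.lf ⟨(nat_lit 0), (nat_lit 0), (nat_lit 0x44138d38d38d38d44138d38d38d38d), (nat_lit 20)⟩))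
(.nd (.lf ⟨(nat_lit 333), (nat_lit 2), (nat_lit 0x1228928919751238650f38b3ce34638b185), (nat_lit 23)⟩)
(.lf ⟨(nat_lit 0x18388388), (nat_lit 5), (nat_lit 0x5c24ce34e35709338d38d), (nat_lit 14)⟩)))))))
(.nd (.nd (.nd (.nd (.nd (.nd (.nd (.lf ⟨(nat_lit 16), (nat_lit 1), (nat_lit 0xcc0cc), (nat_lit 4)⟩)
(.lf ⟨(nat_lit 396), (nat_lit 2), (nat_lit 0x1738c18e), (nat_lit 5)⟩))
(.lf ⟨(nat_lit 85), (nat_lit 2), (nat_lit 0x55750a4865d438a5d429219750e24a241), (nat_lit 22)⟩))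
(.nd (.lf ⟨(nat_lit 848), (nat_lit 2), (nat_lit 0x40d), (nat_lit 2)⟩)
(.lf ⟨(nat_lit 0x2c73482c32c73482c3), (nat_lit 12), (nat_lit 0x2c33482c72c33482c7), (nat_lit 12)⟩)))
(.nd (.nd (.lf ⟨(nat_lit 0x392392), (nat_lit 4), (nat_lit 0x48e48e), (nat_lit 4)⟩)
(.lf ⟨(nat_lit 0x1c12850c704a143), (nat_lit 10), (nat_lit 0xca1470432851c1), (nat_lit 10)⟩))
(.nd (.lf ⟨(nat_lit 0x205205), (nat_lit 4), (nat_lit 0x148148), (nat_lit 4)⟩)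
(.lf ⟨(nat_lit 0x498), (nat_lit 2), (nat_lit 0x612), (nat_lit 2)⟩))))
(.nd (.nd (.nd (.lf ⟨(nat_lit 0x109044241), (nat_lit 6), (nat_lit 0x49101244), (nat_lit 6)⟩)
(.lf ⟨(nat_lit 0x4289), (nat_lit 3), (nat_lit 0xa24a10a), (nat_lit 5)⟩))
(.nd (.lf ⟨(nat_lit 0x389389), (nat_lit 4), (nat_lit 0), (nat_lit 0)⟩)
(.lf ⟨(nat_lit 0x40c18c58c54d30d), (nat_lit 10), (nat_lit 0x58c54d30d40c18c), (nat_lit 10)⟩)))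
(.nd (.nd (.lf ⟨(nat_lit 136), (nat_lit 2), (nat_lit 514), (nat_lit 2)⟩)
(.lf ⟨(nat_lit 340), (nat_lit 2), (nat_lit 0x50a49448f29238a38a50e2943ce29438a4943ce2943c5), (nat_lit 30)⟩))
(.nd (.lf ⟨(nat_lit 0x40c4d04d04d04cc), (nat_lit 10), (nat_lit 0x30b31031341330c2cc40c4d04cc), (nat_lit 18)⟩)
(.lf ⟨(nat_lit 662), (nat_lit 2), (nat_lit 0x58a), (nat_lit 2)⟩)))))
(.nd (.nd (.nd (.nd (.nd (.lf ⟨(nat_lit 0x5d7), (nat_lit 2), (nat_lit 0), (nat_lit 0)⟩)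
(.lf ⟨(nat_lit 522), (nat_lit 2), (nat_lit 648), (nat_lit 2)⟩))
(.lf ⟨(nat_lit 0x4450d1143), (nat_lit 6), (nat_lit 0x4450d1143), (nat_lit 6)⟩))
(.nd (.lf ⟨(nat_lit 521), (nat_lit 2), (nat_lit 0x16248), (nat_lit 3)⟩)
(.lf ⟨(nat_lit 0x294494), (nat_lit 4), (nat_lit 0x51250a), (nat_lit 4)⟩)))
(.nd (.nd (.lf ⟨(nat_lit 0x2432090c8), (nat_lit 6), (nat_lit 0x2090c8243), (nat_lit 6)⟩)
(.lf ⟨(nat_lit 0x928d), (nat_lit 3), (nat_lit 0xa34a24a), (nat_lit 5)⟩))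
(.nd (.lf ⟨(nat_lit 392), (nat_lit 2), (nat_lit 0x59558f3563cd206), (nat_lit 10)⟩)
(.lf ⟨(nat_lit 85), (nat_lit 2), (nat_lit 0x1754e18e181), (nat_lit 7)⟩))))
(.nd (.nd (.nd (.lf ⟨(nat_lit 0x148148), (nat_lit 4), (nat_lit 0x205205), (nat_lit 4)⟩)
(.lf ⟨(nat_lit 0x13593594), (nat_lit 5), (nat_lit 0x144d64d6), (nat_lit 5)⟩))
(.nd (.lf ⟨(nat_lit 0x4d238b), (nat_lit 4), (nat_lit 0x1471051c4), (nat_lit 6)⟩)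
(.lf ⟨(nat_lit 0x3d33d1), (nat_lit 4), (nat_lit 0x6134584cf4cf), (nat_lit 8)⟩)))
(.nd (.nd (.lf ⟨(nat_lit 0x1c428710a), (nat_lit 6), (nat_lit 0x28710a1c4), (nat_lit 6)⟩)
(.lf ⟨(nat_lit 0x30d315), (nat_lit 4), (nat_lit 0x54c34c), (nat_lit 4)⟩))
(.nd (.lf ⟨(nat_lit 0x234f35558f), (nat_lit 7), (nat_lit 0xd3cd5563c2), (nat_lit 7)⟩)
(.lf ⟨(nat_lit 0x1538d38d30b30b), (nat_lit 9), (nat_lit 0xd83ce20e20360f388388), (nat_lit 14)⟩))))))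
(.nd (.nd (.nd (.nd (.nd (.nd (.lf ⟨(nat_lit 72), (nat_lit 2), (nat_lit 0xc201), (nat_lit 3)⟩)
(.lf ⟨(nat_lit 719), (nat_lit 2), (nat_lit 971), (nat_lit 2)⟩))
(.lf ⟨(nat_lit 333), (nat_lit 2), (nat_lit 0x1228928919751238a50f30a2cf2943ca58f2943ca58b51650c3cd4d630b58d2d459430f35358c2d634638c3ce34c2cf2943ca58f2943ca58b51650c3cd4d630b58d2d459430f35358c2d634638c185), (nat_lit 105)⟩))
(.nd (.lf ⟨(nat_lit 84), (nat_lit 2), (nat_lit 0x501), (nat_lit 2)⟩)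
(.lf ⟨(nat_lit 0x932c90932c9), (nat_lit 8), (nat_lit 0x932c90932c9), (nat_lit 8)⟩)))
(.nd (.nd (.lf ⟨(nat_lit 0x202148085), (nat_lit 6), (nat_lit 0x148085202), (nat_lit 6)⟩)
(.lf ⟨(nat_lit 0x14386386), (nat_lit 5), (nat_lit 0xe18e194), (nat_lit 5)⟩))
(.nd (.lf ⟨(nat_lit 0x111108111108), (nat_lit 8), (nat_lit 0x111108111108), (nat_lit 8)⟩)
(.lf ⟨(nat_lit 404), (nat_lit 2), (nat_lit 0x506), (nat_lit 2)⟩))))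
(.nd (.nd (.nd (.lf ⟨(nat_lit 208), (nat_lit 2), (nat_lit 0x310310310303), (nat_lit 8)⟩)
(.lf ⟨(nat_lit 0x828d), (nat_lit 3), (nat_lit 0x1058d30d31541634c34c54a34a20a), (nat_lit 19)⟩))
(.nd (.lf ⟨(nat_lit 0x1d24d2), (nat_lit 4), (nat_lit 0x4d238b4ce2c7493), (nat_lit 10)⟩)
(.lf ⟨(nat_lit 0x3153d0), (nat_lit 4), (nat_lit 0x4d54d030f), (nat_lit 6)⟩)))
(.nd (.nd (.lf ⟨(nat_lit 0x1c920b), (nat_lit 4), (nat_lit 0x2482c8247248), (nat_lit 8)⟩)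
(.lf ⟨(nat_lit 335), (nat_lit 2), (nat_lit 0x5d25543d228f38a48a50f38a50e29254e28f38a49538a50f48e24a18e24a185), (nat_lit 42)⟩))
(.nd (.lf ⟨(nat_lit 0x352352), (nat_lit 4), (nat_lit 0x48d48d), (nat_lit 4)⟩)
(.lf ⟨(nat_lit 588), (nat_lit 2), (nat_lit 0x18309), (nat_lit 3)⟩)))))
(.nd (.nd (.nd (.nd (.lf ⟨(nat_lit 520), (nat_lit 2), (nat_lit 0), (nat_lit 0)⟩)
(.lf ⟨(nat_lit 336), (nat_lit 2), (nat_lit 0x4d2413485), (nat_lit 6)⟩))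
(.nd (.lf ⟨(nat_lit 0x630718c), (nat_lit 5), (nat_lit 0xc18c1c6), (nat_lit 5)⟩)
(.lf ⟨(nat_lit 273), (nat_lit 2), (nat_lit 0x45038b20e40d30d30b309309204), (nat_lit 18)⟩)))
(.nd (.nd (.lf ⟨(nat_lit 0x147103147103), (nat_lit 8), (nat_lit 0xc71050c7105), (nat_lit 8)⟩)
(.lf ⟨(nat_lit 0xa50f295), (nat_lit 5), (nat_lit 0x145542943ca), (nat_lit 7)⟩))
(.nd (.lf ⟨(nat_lit 0xe589316309), (nat_lit 7), (nat_lit 0x1624c58c24e), (nat_lit 7)⟩)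
(.lf ⟨(nat_lit 0x414), (nat_lit 2), (nat_lit 0x510), (nat_lit 2)⟩))))
(.nd (.nd (.nd (.lf ⟨(nat_lit 0x34304d0c1), (nat_lit 6), (nat_lit 0x4d0c1343), (nat_lit 6)⟩)
(.lf ⟨(nat_lit 87), (nat_lit 2), (nat_lit 0x51238a5d448e29229438a48f38a3ce2923ce29438a50f38a50e2923ca50f294381), (nat_lit 44)⟩))
(.nd (.lf ⟨(nat_lit 0x30718c187), (nat_lit 6), (nat_lit 0x871871821c61c6), (nat_lit 10)⟩)
(.lf ⟨(nat_lit 789), (nat_lit 2), (nat_lit 0x5503d03cc), (nat_lit 6)⟩)))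
(.nd (.nd (.lf ⟨(nat_lit 0x2cd2cd), (nat_lit 4), (nat_lit 0x34b34b), (nat_lit 4)⟩)
(.lf ⟨(nat_lit 0x4450), (nat_lit 3), (nat_lit 0xe2c838b211404), (nat_lit 9)⟩))
(.nd (.lf ⟨(nat_lit 0x930f), (nat_lit 3), (nat_lit 0x1458f4d650f30f31324c), (nat_lit 13)⟩)
(.lf ⟨(nat_lit 401), (nat_lit 2), (nat_lit 0x446), (nat_lit 2)⟩))))))))
(.nd (.nd (.nd (.nd (.nd (.nd (.nd (.nd (.lf ⟨(nat_lit 8), (nat_lit 1), (nat_lit 0x84084), (nat_lit 4)⟩)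
(.lf ⟨(nat_lit 775), (nat_lit 2), (nat_lit 0x48101204), (nat_lit 6)⟩))
(.lf ⟨(nat_lit 461), (nat_lit 2), (nat_lit 0x4cd4cb20b207), (nat_lit 8)⟩))
(.nd (.lf ⟨(nat_lit 0x188189), (nat_lit 4), (nat_lit 0x246248246), (nat_lit 6)⟩)
(.lf ⟨(nat_lit 0xa510), (nat_lit 3), (nat_lit 0x14414294), (nat_lit 5)⟩)))
(.nd (.nd (.lf ⟨(nat_lit 0x1090c31090c3), (nat_lit 8), (nat_lit 0xc90c40c90c4), (nat_lit 8)⟩)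
(.lf ⟨(nat_lit 0x413), (nat_lit 2), (nat_lit 0x4d0), (nat_lit 2)⟩))
(.nd (.lf ⟨(nat_lit 0xa54f28f), (nat_lit 5), (nat_lit 0xf2953ca), (nat_lit 5)⟩)
(.lf ⟨(nat_lit 0x3d23d3), (nat_lit 4), (nat_lit 0x4cf48f), (nat_lit 4)⟩))))
(.nd (.nd (.nd (.lf ⟨(nat_lit 0x184184), (nat_lit 4), (nat_lit 0x106106), (nat_lit 4)⟩)
(.lf ⟨(nat_lit 0x516), (nat_lit 2), (nat_lit 0x594), (nat_lit 2)⟩))
(.nd (.lf ⟨(nat_lit 0x4286), (nat_lit 3), (nat_lit 0xd24854f3563cd2485563cd58f3485563cd58f34921558f24610a), (nat_lit 35)⟩)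
(.lf ⟨(nat_lit 662), (nat_lit 2), (nat_lit 0x59534c54c34a), (nat_lit 8)⟩)))
(.nd (.nd (.lf ⟨(nat_lit 0x308308), (nat_lit 4), (nat_lit 0), (nat_lit 0)⟩)
(.lf ⟨(nat_lit 0x28f292), (nat_lit 4), (nat_lit 0x3d23ca3ca), (nat_lit 6)⟩))
(.nd (.lf ⟨(nat_lit 0x5c35c3), (nat_lit 4), (nat_lit 0), (nat_lit 0)⟩)
(.lf ⟨(nat_lit 0x606606), (nat_lit 4), (nat_lit 0), (nat_lit 0)⟩)))))
(.nd (.nd (.nd (.nd (.nd (.lf ⟨(nat_lit 79), (nat_lit 2), (nat_lit 0x143c1), (nat_lit 3)⟩)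
(.lf ⟨(nat_lit 0x61140e308388), (nat_lit 8), (nat_lit 0x141205048), (nat_lit 6)⟩))
(.lf ⟨(nat_lit 0x2854d204a153481), (nat_lit 10), (nat_lit 0x4d204a153481285), (nat_lit 10)⟩))
(.nd (.lf ⟨(nat_lit 399), (nat_lit 2), (nat_lit 966), (nat_lit 2)⟩)
(.lf ⟨(nat_lit 655), (nat_lit 2), (nat_lit 0x55254f48a), (nat_lit 6)⟩)))
(.nd (.nd (.lf ⟨(nat_lit 0x2c82c8), (nat_lit 4), (nat_lit 0x20b20b), (nat_lit 4)⟩)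
(.lf ⟨(nat_lit 85), (nat_lit 2), (nat_lit 0x55750a5d250f2943d23ca50f38a50e29251228f38a50f48f2943ca54f38a50e29250a50f48f2943ca54f38a50e29238a50f386389289181), (nat_lit 74)⟩))
(.nd (.lf ⟨(nat_lit 472), (nat_lit 2), (nat_lit 0x607), (nat_lit 2)⟩)
(.lf ⟨(nat_lit 0x890c10890c1), (nat_lit 8), (nat_lit 0x490c20490c2), (nat_lit 8)⟩))))
(.nd (.nd (.nd (.lf ⟨(nat_lit 0x182182), (nat_lit 4), (nat_lit 0), (nat_lit 0)⟩)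
(.lf ⟨(nat_lit 10), (nat_lit 1), (nat_lit 0x46046), (nat_lit 4)⟩))
(.nd (.lf ⟨(nat_lit 211), (nat_lit 2), (nat_lit 0x4c3), (nat_lit 2)⟩)
(.lf ⟨(nat_lit 0x3d13d3), (nat_lit 4), (nat_lit 0x4cf44f), (nat_lit 4)⟩)))
(.nd (.nd (.lf ⟨(nat_lit 0x28120a048), (nat_lit 6), (nat_lit 0x20a048281), (nat_lit 6)⟩)
(.lf ⟨(nat_lit 21), (nat_lit 1), (nat_lit 0x246246), (nat_lit 4)⟩))
(.nd (.lf ⟨(nat_lit 0x344344), (nat_lit 4), (nat_lit 0x344344), (nat_lit 4)⟩)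
(.lf ⟨(nat_lit 0x5306), (nat_lit 3), (nat_lit 0x185ca20e28818e14c), (nat_lit 11)⟩))))))
(.nd (.nd (.nd (.nd (.nd (.nd (.lf ⟨(nat_lit 0x46046), (nat_lit 4), (nat_lit 0x181181), (nat_lit 4)⟩)
(.lf ⟨(nat_lit 391), (nat_lit 2), (nat_lit 0x61745038d38d1c6), (nat_lit 10)⟩))
(.lf ⟨(nat_lit 0x638b), (nat_lit 3), (nat_lit 0xc2cf2943ca58f2943ca19358f4cf38c), (nat_lit 21)⟩))
(.nd (.lf ⟨(nat_lit 148), (nat_lit 2), (nat_lit 0x502), (nat_lit 2)⟩)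
(.lf ⟨(nat_lit 0), (nat_lit 0), (nat_lit 780), (nat_lit 2)⟩)))
(.nd (.nd (.lf ⟨(nat_lit 0x285285), (nat_lit 4), (nat_lit 0x14a14a), (nat_lit 4)⟩)
(.lf ⟨(nat_lit 23), (nat_lit 1), (nat_lit 0xd40d4), (nat_lit 4)⟩))
(.nd (.lf ⟨(nat_lit 0x4e54554e141395155385), (nat_lit 14), (nat_lit 0x4e54554e141395155385), (nat_lit 14)⟩)
(.lf ⟨(nat_lit 655), (nat_lit 2), (nat_lit 970), (nat_lit 2)⟩))))
(.nd (.nd (.nd (.lf ⟨(nat_lit 0x24f24f), (nat_lit 4), (nat_lit 0x3c93c9), (nat_lit 4)⟩)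
(.lf ⟨(nat_lit 403), (nat_lit 2), (nat_lit 0x58b58c3cd4d630b58f346), (nat_lit 14)⟩))
(.nd (.lf ⟨(nat_lit 0x4934890d24d2243), (nat_lit 10), (nat_lit 0x2434934890d24d2), (nat_lit 10)⟩)
(.lf ⟨(nat_lit 0), (nat_lit 0), (nat_lit 0x10a11210a112), (nat_lit 8)⟩)))
(.nd (.nd (.lf ⟨(nat_lit 397), (nat_lit 2), (nat_lit 838), (nat_lit 2)⟩)
(.lf ⟨(nat_lit 336), (nat_lit 2), (nat_lit 0x405), (nat_lit 2)⟩))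
(.nd (.lf ⟨(nat_lit 0x212352348), (nat_lit 6), (nat_lit 0x212203212203), (nat_lit 8)⟩)
(.lf ⟨(nat_lit 531), (nat_lit 2), (nat_lit 0x4c8), (nat_lit 2)⟩)))))
(.nd (.nd (.nd (.nd (.lf ⟨(nat_lit 0x141141), (nat_lit 4), (nat_lit 0x45045), (nat_lit 4)⟩)
(.lf ⟨(nat_lit 0x10a104284), (nat_lit 6), (nat_lit 0), (nat_lit 0)⟩))
(.nd (.lf ⟨(nat_lit 0x29528e), (nat_lit 4), (nat_lit 0x38a39538a), (nat_lit 6)⟩)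
(.lf ⟨(nat_lit 0x554f), (nat_lit 3), (nat_lit 0x1755250f29448a389286389286155), (nat_lit 19)⟩)))
(.nd (.nd (.lf ⟨(nat_lit 0x348348), (nat_lit 4), (nat_lit 0), (nat_lit 0)⟩)
(.lf ⟨(nat_lit 592), (nat_lit 2), (nat_lit 0x409), (nat_lit 2)⟩))
(.nd (.lf ⟨(nat_lit 0x589316309589316309), (nat_lit 12), (nat_lit 0), (nat_lit 0)⟩)
(.lf ⟨(nat_lit 664), (nat_lit 2), (nat_lit 0x61441440a), (nat_lit 6)⟩))))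
(.nd (.nd (.nd (.lf ⟨(nat_lit 0x451), (nat_lit 2), (nat_lit 0), (nat_lit 0)⟩)
(.lf ⟨(nat_lit 535), (nat_lit 2), (nat_lit 0x3575153d03153d045430f44d30f308), (nat_lit 20)⟩))
(.nd (.lf ⟨(nat_lit 0x20b213), (nat_lit 4), (nat_lit 0x34b35334b3482c8), (nat_lit 10)⟩)
(.lf ⟨(nat_lit 0xc3d0), (nat_lit 3), (nat_lit 0xf40f30f), (nat_lit 5)⟩)))
(.nd (.nd (.lf ⟨(nat_lit 269), (nat_lit 2), (nat_lit 0x348189209206206248188189206204), (nat_lit 20)⟩)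
(.lf ⟨(nat_lit 328), (nat_lit 2), (nat_lit 0x450205), (nat_lit 4)⟩))
(.nd (.lf ⟨(nat_lit 402), (nat_lit 2), (nat_lit 0x48e29751238a4865d4), (nat_lit 12)⟩)
(.lf ⟨(nat_lit 781), (nat_lit 2), (nat_lit 0x38d38c), (nat_lit 4)⟩)))))))
(.nd (.nd (.nd (.nd (.nd (.nd (.nd (.lf ⟨(nat_lit 24), (nat_lit 1), (nat_lit 0x114114), (nat_lit 4)⟩)
(.lf ⟨(nat_lit 973), (nat_lit 2), (nat_lit 0x546115184), (nat_lit 6)⟩))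
(.lf ⟨(nat_lit 392), (nat_lit 2), (nat_lit 0x595206), (nat_lit 4)⟩))
(.nd (.lf ⟨(nat_lit 145), (nat_lit 2), (nat_lit 0x44d30828630828d206202), (nat_lit 14)⟩)
(.lf ⟨(nat_lit 0x838d38d), (nat_lit 5), (nat_lit 0xd20e34e), (nat_lit 5)⟩)))
(.nd (.nd (.lf ⟨(nat_lit 0x404404), (nat_lit 4), (nat_lit 0x110110), (nat_lit 4)⟩)
(.lf ⟨(nat_lit 0x454), (nat_lit 2), (nat_lit 0x511), (nat_lit 2)⟩))
(.nd (.lf ⟨(nat_lit 0x14838b), (nat_lit 4), (nat_lit 0x20e2c8148), (nat_lit 6)⟩)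
(.lf ⟨(nat_lit 0x494), (nat_lit 2), (nat_lit 0x512), (nat_lit 2)⟩))))
(.nd (.nd (.nd (.lf ⟨(nat_lit 975), (nat_lit 2), (nat_lit 0), (nat_lit 0)⟩)
(.lf ⟨(nat_lit 0x10a3cd), (nat_lit 4), (nat_lit 0x28f34a10a), (nat_lit 6)⟩))
(.nd (.lf ⟨(nat_lit 0x530a14c), (nat_lit 5), (nat_lit 0xc14c285), (nat_lit 5)⟩)
(.lf ⟨(nat_lit 20), (nat_lit 1), (nat_lit 0x38108e042), (nat_lit 6)⟩)))
(.nd (.nd (.lf ⟨(nat_lit 203), (nat_lit 2), (nat_lit 707), (nat_lit 2)⟩)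
(.lf ⟨(nat_lit 0x4d7), (nat_lit 2), (nat_lit 0x5d3), (nat_lit 2)⟩))
(.nd (.lf ⟨(nat_lit 0x1d51d5), (nat_lit 4), (nat_lit 0x1d51d5), (nat_lit 4)⟩)
(.lf ⟨(nat_lit 342), (nat_lit 2), (nat_lit 0x58f38c3cd38d2cc2c5), (nat_lit 12)⟩)))))
(.nd (.nd (.nd (.nd (.nd (.lf ⟨(nat_lit 69), (nat_lit 2), (nat_lit 0xc50c50c50c1), (nat_lit 8)⟩)
(.lf ⟨(nat_lit 395), (nat_lit 2), (nat_lit 710), (nat_lit 2)⟩))
(.lf ⟨(nat_lit 0x6040d8103), (nat_lit 6), (nat_lit 0x6040d8103), (nat_lit 6)⟩))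
(.nd (.lf ⟨(nat_lit 0x4285), (nat_lit 3), (nat_lit 0x2c91d238b4ce2d32ce2c91d24c510a), (nat_lit 20)⟩)
(.lf ⟨(nat_lit 147), (nat_lit 2), (nat_lit 0x183d33ce20e202), (nat_lit 9)⟩)))
(.nd (.nd (.lf ⟨(nat_lit 0x1c1247049), (nat_lit 6), (nat_lit 0x2470491c1), (nat_lit 6)⟩)
(.lf ⟨(nat_lit 343), (nat_lit 2), (nat_lit 0x5c5), (nat_lit 2)⟩))
(.nd (.lf ⟨(nat_lit 0x2132084c8), (nat_lit 6), (nat_lit 0), (nat_lit 0)⟩)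
(.lf ⟨(nat_lit 0x48428138b15210a04e2c5), (nat_lit 14), (nat_lit 0x38b14a05210e2c5281484), (nat_lit 14)⟩))))
(.nd (.nd (.nd (.lf ⟨(nat_lit 0x189189), (nat_lit 4), (nat_lit 0x246246), (nat_lit 4)⟩)
(.lf ⟨(nat_lit 0x3d34953d2), (nat_lit 6), (nat_lit 0x5934953d34963d3), (nat_lit 10)⟩))
(.nd (.lf ⟨(nat_lit 13), (nat_lit 1), (nat_lit 0xc80c8), (nat_lit 4)⟩)
(.lf ⟨(nat_lit 0x10512), (nat_lit 3), (nat_lit 0x14494414), (nat_lit 5)⟩)))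
(.nd (.nd (.lf ⟨(nat_lit 0x2433090cc), (nat_lit 6), (nat_lit 0x3090cc243), (nat_lit 6)⟩)
(.lf ⟨(nat_lit 0x630d), (nat_lit 3), (nat_lit 0xc34c18c), (nat_lit 5)⟩))
(.nd (.lf ⟨(nat_lit 853), (nat_lit 2), (nat_lit 0x54d), (nat_lit 2)⟩)
(.lf ⟨(nat_lit 653), (nat_lit 2), (nat_lit 0x38d38d30d30a), (nat_lit 8)⟩))))))
(.nd (.nd (.nd (.nd (.nd (.nd (.lf ⟨(nat_lit 975), (nat_lit 2), (nat_lit 0), (nat_lit 0)⟩)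
(.lf ⟨(nat_lit 528), (nat_lit 2), (nat_lit 0x408), (nat_lit 2)⟩))
(.lf ⟨(nat_lit 0x484484), (nat_lit 4), (nat_lit 0), (nat_lit 0)⟩))
(.nd (.lf ⟨(nat_lit 594), (nat_lit 2), (nat_lit 0x489), (nat_lit 2)⟩)
(.lf ⟨(nat_lit 0x4d6), (nat_lit 2), (nat_lit 0x593), (nat_lit 2)⟩)))
(.nd (.nd (.lf ⟨(nat_lit 0x1ca1ca), (nat_lit 4), (nat_lit 0x287287), (nat_lit 4)⟩)
(.lf ⟨(nat_lit 0), (nat_lit 0), (nat_lit 0x10e35358d4ce10e35358d4ce), (nat_lit 16)⟩))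
(.nd (.lf ⟨(nat_lit 533), (nat_lit 2), (nat_lit 0x3563cd59558f3563cd3c8), (nat_lit 14)⟩)
(.lf ⟨(nat_lit 719), (nat_lit 2), (nat_lit 0x3ce34e34b), (nat_lit 6)⟩))))
(.nd (.nd (.nd (.lf ⟨(nat_lit 0x1c10c7043), (nat_lit 6), (nat_lit 0xc70431c1), (nat_lit 6)⟩)
(.lf ⟨(nat_lit 0x58f49648f58f49648f), (nat_lit 12), (nat_lit 0), (nat_lit 0)⟩))
(.nd (.lf ⟨(nat_lit 0x4c94c9), (nat_lit 4), (nat_lit 0), (nat_lit 0)⟩)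
(.lf ⟨(nat_lit 0), (nat_lit 0), (nat_lit 0x25858f4cf25858f4cf), (nat_lit 12)⟩)))
(.nd (.nd (.lf ⟨(nat_lit 0x6209188), (nat_lit 5), (nat_lit 0x8246209189), (nat_lit 7)⟩)
(.lf ⟨(nat_lit 0x548548), (nat_lit 4), (nat_lit 0), (nat_lit 0)⟩))
(.nd (.lf ⟨(nat_lit 392), (nat_lit 2), (nat_lit 0x5953cd3cd206), (nat_lit 8)⟩)
(.lf ⟨(nat_lit 0xc34e), (nat_lit 3), (nat_lit 0xd38d30d), (nat_lit 5)⟩)))))
(.nd (.nd (.nd (.nd (.lf ⟨(nat_lit 0x182182), (nat_lit 4), (nat_lit 0x86086), (nat_lit 4)⟩)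
(.lf ⟨(nat_lit 0), (nat_lit 0), (nat_lit 0x8a1ca1c2287287), (nat_lit 10)⟩))
(.nd (.lf ⟨(nat_lit 75), (nat_lit 2), (nat_lit 0x4ce2d32ce2d24c1), (nat_lit 10)⟩)
(.lf ⟨(nat_lit 0x4cf4cf), (nat_lit 4), (nat_lit 0x24c24838824c248388), (nat_lit 12)⟩)))
(.nd (.nd (.lf ⟨(nat_lit 0x189103189103), (nat_lit 8), (nat_lit 0xc91060c9106), (nat_lit 8)⟩)
(.lf ⟨(nat_lit 0x9315), (nat_lit 3), (nat_lit 0x1030b31530b3d03cc24c), (nat_lit 13)⟩))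
(.nd (.lf ⟨(nat_lit 0x340c190306), (nat_lit 7), (nat_lit 0x1030640c183), (nat_lit 7)⟩)
(.lf ⟨(nat_lit 0xf4d1), (nat_lit 3), (nat_lit 0x113d3), (nat_lit 3)⟩))))
(.nd (.nd (.nd (.lf ⟨(nat_lit 0x1c41021c4102), (nat_lit 8), (nat_lit 0x841c40841c4), (nat_lit 8)⟩)
(.lf ⟨(nat_lit 0x35348d4d1), (nat_lit 6), (nat_lit 0x45245244d4d2353), (nat_lit 10)⟩))
(.nd (.lf ⟨(nat_lit 20), (nat_lit 1), (nat_lit 0x3c13c1), (nat_lit 4)⟩)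
(.lf ⟨(nat_lit 0x5c95c9), (nat_lit 4), (nat_lit 0), (nat_lit 0)⟩)))
(.nd (.nd (.lf ⟨(nat_lit 146), (nat_lit 2), (nat_lit 0x65d448e194382), (nat_lit 9)⟩)
(.lf ⟨(nat_lit 0), (nat_lit 0), (nat_lit 0x301301), (nat_lit 4)⟩))
(.nd (.lf ⟨(nat_lit 532), (nat_lit 2), (nat_lit 0x3143cc3c8), (nat_lit 6)⟩)
(.lf ⟨(nat_lit 0x61c6387), (nat_lit 5), (nat_lit 0x718718e), (nat_lit 5)⟩)))))))))
(.nd (.nd (.nd (.nd (.nd (.nd (.nd (.nd (.nd (.lf ⟨(nat_lit 66), (nat_lit 2), (nat_lit 129), (nat_lit 2)⟩)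
(.lf ⟨(nat_lit 458), (nat_lit 2), (nat_lit 0x38b28838b207), (nat_lit 8)⟩))
(.lf ⟨(nat_lit 787), (nat_lit 2), (nat_lit 0x59358c), (nat_lit 4)⟩))
(.nd (.lf ⟨(nat_lit 87), (nat_lit 2), (nat_lit 0x157505501), (nat_lit 6)⟩)
(.lf ⟨(nat_lit 0x294494), (nat_lit 4), (nat_lit 0x512512292), (nat_lit 6)⟩)))
(.nd (.nd (.lf ⟨(nat_lit 459), (nat_lit 2), (nat_lit 711), (nat_lit 2)⟩)
(.lf ⟨(nat_lit 0x828d), (nat_lit 3), (nat_lit 0x1034c34c55034c34c54a34a20a), (nat_lit 17)⟩))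
(.nd (.lf ⟨(nat_lit 0xa5d4294), (nat_lit 5), (nat_lit 0x28350a0d4), (nat_lit 6)⟩)
(.lf ⟨(nat_lit 87), (nat_lit 2), (nat_lit 0x5d44943d23c1), (nat_lit 8)⟩))))
(.nd (.nd (.nd (.lf ⟨(nat_lit 0x243243), (nat_lit 4), (nat_lit 0xc90c9), (nat_lit 4)⟩)
(.lf ⟨(nat_lit 0x3cc3cc), (nat_lit 4), (nat_lit 0x9651650c3c930909651650c3c9309), (nat_lit 20)⟩))
(.nd (.lf ⟨(nat_lit 327), (nat_lit 2), (nat_lit 0x2d338b4d24d24ce1d24c5), (nat_lit 14)⟩)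
(.lf ⟨(nat_lit 0x306306), (nat_lit 4), (nat_lit 0x18c18c), (nat_lit 4)⟩)))
(.nd (.nd (.lf ⟨(nat_lit 0x183203183203), (nat_lit 8), (nat_lit 0xc81830c8183), (nat_lit 8)⟩)
(.lf ⟨(nat_lit 0x9292), (nat_lit 3), (nat_lit 0xa48a24a), (nat_lit 5)⟩))
(.nd (.lf ⟨(nat_lit 86), (nat_lit 2), (nat_lit 0x61650930f31621838c5893092143ce241), (nat_lit 22)⟩)
(.lf ⟨(nat_lit 0), (nat_lit 0), (nat_lit 0x116544595), (nat_lit 6)⟩)))))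
(.nd (.nd (.nd (.nd (.nd (.lf ⟨(nat_lit 0x4d3), (nat_lit 2), (nat_lit 0), (nat_lit 0)⟩)
(.lf ⟨(nat_lit 0x1348e2c7), (nat_lit 5), (nat_lit 0x141105044), (nat_lit 6)⟩))
(.lf ⟨(nat_lit 0x3cd10f344), (nat_lit 6), (nat_lit 0), (nat_lit 0)⟩))
(.nd (.lf ⟨(nat_lit 334), (nat_lit 2), (nat_lit 901), (nat_lit 2)⟩)
(.lf ⟨(nat_lit 0xc3d3), (nat_lit 3), (nat_lit 0xf4cf30f), (nat_lit 5)⟩)))
(.nd (.nd (.lf ⟨(nat_lit 0x2431c90c7), (nat_lit 6), (nat_lit 0x1c90c7243), (nat_lit 6)⟩)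
(.lf ⟨(nat_lit 0x5614), (nat_lit 3), (nat_lit 0x142925123ca3ce2923ce29438a50f38a50e29250f38a50f158), (nat_lit 33)⟩))
(.nd (.lf ⟨(nat_lit 0x598), (nat_lit 2), (nat_lit 0x616), (nat_lit 2)⟩)
(.lf ⟨(nat_lit 408), (nat_lit 2), (nat_lit 0x606), (nat_lit 2)⟩))))
(.nd (.nd (.nd (.lf ⟨(nat_lit 278), (nat_lit 2), (nat_lit 0x3d63d63d63c4), (nat_lit 8)⟩)
(.lf ⟨(nat_lit 0x814814c), (nat_lit 5), (nat_lit 0xc205205), (nat_lit 5)⟩))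
(.nd (.lf ⟨(nat_lit 261), (nat_lit 2), (nat_lit 0x4cb4ce144), (nat_lit 6)⟩)
(.lf ⟨(nat_lit 0x3d05d4), (nat_lit 4), (nat_lit 0x6105d44183d0), (nat_lit 8)⟩)))
(.nd (.nd (.lf ⟨(nat_lit 0x82cd), (nat_lit 3), (nat_lit 0xd2cd2cd20b), (nat_lit 7)⟩)
(.lf ⟨(nat_lit 0), (nat_lit 0), (nat_lit 0x1860c6183), (nat_lit 6)⟩))
(.nd (.lf ⟨(nat_lit 0x123c53c5), (nat_lit 5), (nat_lit 0xf14f152), (nat_lit 5)⟩)
(.lf ⟨(nat_lit 395), (nat_lit 2), (nat_lit 0x61730b30a20e28818e), (nat_lit 12)⟩))))))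
(.nd (.nd (.nd (.nd (.nd (.nd (.lf ⟨(nat_lit 132), (nat_lit 2), (nat_lit 0x8102), (nat_lit 3)⟩)
(.lf ⟨(nat_lit 0x61034b), (nat_lit 4), (nat_lit 0xcc2070cc207), (nat_lit 8)⟩))
(.lf ⟨(nat_lit 536), (nat_lit 2), (nat_lit 0x616516508), (nat_lit 6)⟩))
(.nd (.lf ⟨(nat_lit 595), (nat_lit 2), (nat_lit 0x4c9), (nat_lit 2)⟩)
(.lf ⟨(nat_lit 0xd491), (nat_lit 3), (nat_lit 0x12452352), (nat_lit 5)⟩)))
(.nd (.nd (.lf ⟨(nat_lit 0x1ce253), (nat_lit 4), (nat_lit 0x3893894ce2533891d3389), (nat_lit 14)⟩)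
(.lf ⟨(nat_lit 340), (nat_lit 2), (nat_lit 0x50a5d448e29751238a48a50e2923ce28f38a48f38a50e2943ce29438a4943ce2943c5), (nat_lit 46)⟩))
(.nd (.lf ⟨(nat_lit 5), (nat_lit 1), (nat_lit 0xc10c1), (nat_lit 4)⟩)
(.lf ⟨(nat_lit 0xe44f), (nat_lit 3), (nat_lit 0x1649648f391), (nat_lit 7)⟩))))
(.nd (.nd (.nd (.lf ⟨(nat_lit 715), (nat_lit 2), (nat_lit 0), (nat_lit 0)⟩)
(.lf ⟨(nat_lit 532), (nat_lit 2), (nat_lit 0x50f30f308), (nat_lit 6)⟩))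
(.nd (.lf ⟨(nat_lit 0x250250), (nat_lit 4), (nat_lit 0x409409), (nat_lit 4)⟩)
(.lf ⟨(nat_lit 87), (nat_lit 2), (nat_lit 0x5d448f48f29448f48f38a381), (nat_lit 16)⟩)))
(.nd (.nd (.lf ⟨(nat_lit 208), (nat_lit 2), (nat_lit 0x403), (nat_lit 2)⟩)
(.lf ⟨(nat_lit 0x13554), (nat_lit 3), (nat_lit 0x16513595), (nat_lit 5)⟩))
(.nd (.lf ⟨(nat_lit 6), (nat_lit 1), (nat_lit 0x83083), (nat_lit 4)⟩)
(.lf ⟨(nat_lit 152), (nat_lit 2), (nat_lit 0x602), (nat_lit 2)⟩)))))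
(.nd (.nd (.nd (.nd (.lf ⟨(nat_lit 74), (nat_lit 2), (nat_lit 0x60c21462831830850ca181), (nat_lit 15)⟩)
(.lf ⟨(nat_lit 0x1030d314594309309), (nat_lit 11), (nat_lit 0x1459430930940c34c), (nat_lit 11)⟩))
(.nd (.lf ⟨(nat_lit 652), (nat_lit 2), (nat_lit 778), (nat_lit 2)⟩)
(.lf ⟨(nat_lit 0x5614), (nat_lit 3), (nat_lit 0x1448f48f38a50f38a50f158), (nat_lit 15)⟩)))
(.nd (.nd (.lf ⟨(nat_lit 0x1430810450c2041), (nat_lit 10), (nat_lit 0x420450c1081143), (nat_lit 10)⟩)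
(.lf ⟨(nat_lit 0x40c250309), (nat_lit 6), (nat_lit 0x110110), (nat_lit 4)⟩))
(.nd (.lf ⟨(nat_lit 0x388388), (nat_lit 4), (nat_lit 0x20e20e), (nat_lit 4)⟩)
(.lf ⟨(nat_lit 0x14238b08e2c508e2c238b), (nat_lit 14), (nat_lit 0x14238b08e2c508e2c238b), (nat_lit 14)⟩))))
(.nd (.nd (.nd (.lf ⟨(nat_lit 211), (nat_lit 2), (nat_lit 0x72c94ce1091cb1c52c72c5112383), (nat_lit 19)⟩)
(.lf ⟨(nat_lit 0xf456), (nat_lit 3), (nat_lit 0x144564543d1), (nat_lit 7)⟩))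
(.nd (.lf ⟨(nat_lit 0x2cc2cc2cc2cc), (nat_lit 8), (nat_lit 0), (nat_lit 0)⟩)
(.lf ⟨(nat_lit 535), (nat_lit 2), (nat_lit 0x35744f44f348), (nat_lit 8)⟩)))
(.nd (.nd (.lf ⟨(nat_lit 590), (nat_lit 2), (nat_lit 0x48e489), (nat_lit 4)⟩)
(.lf ⟨(nat_lit 17), (nat_lit 1), (nat_lit 0x4d04d), (nat_lit 4)⟩))
(.nd (.lf ⟨(nat_lit 0x754f), (nat_lit 3), (nat_lit 0x30f30f24c3cc58860e31624c2483891d5), (nat_lit 22)⟩)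
(.lf ⟨(nat_lit 0x20b20e20b), (nat_lit 6), (nat_lit 0x38b20e20b20e), (nat_lit 8)⟩)))))))
(.nd (.nd (.nd (.nd (.nd (.nd (.nd (.lf ⟨(nat_lit 20), (nat_lit 1), (nat_lit 0x4f04f), (nat_lit 4)⟩)
(.lf ⟨(nat_lit 458), (nat_lit 2), (nat_lit 0x1838a20e207), (nat_lit 7)⟩))
(.lf ⟨(nat_lit 0xf4d6), (nat_lit 3), (nat_lit 0x164d64d63d3), (nat_lit 7)⟩))
(.nd (.lf ⟨(nat_lit 0x18818f), (nat_lit 4), (nat_lit 0x3483cd248246248246), (nat_lit 12)⟩)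
(.lf ⟨(nat_lit 0x82cc20b), (nat_lit 5), (nat_lit 0xc2cc20b308), (nat_lit 7)⟩)))
(.nd (.nd (.lf ⟨(nat_lit 0x543543), (nat_lit 4), (nat_lit 0xd50d5), (nat_lit 4)⟩)
(.lf ⟨(nat_lit 0xa50f294), (nat_lit 5), (nat_lit 0x142943ca), (nat_lit 5)⟩))
(.nd (.lf ⟨(nat_lit 0x20e2c838b), (nat_lit 6), (nat_lit 0x38b20e2c8), (nat_lit 6)⟩)
(.lf ⟨(nat_lit 0xf414), (nat_lit 3), (nat_lit 0x125125944944965105103d0), (nat_lit 15)⟩))))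
(.nd (.nd (.nd (.lf ⟨(nat_lit 81), (nat_lit 2), (nat_lit 0x351351351341), (nat_lit 8)⟩)
(.lf ⟨(nat_lit 0x287287), (nat_lit 4), (nat_lit 0x4a10a101284284), (nat_lit 10)⟩))
(.nd (.lf ⟨(nat_lit 0x207207), (nat_lit 4), (nat_lit 0), (nat_lit 0)⟩)
(.lf ⟨(nat_lit 0x10a6144ce), (nat_lit 6), (nat_lit 0x45028b51239135240d2ca10a), (nat_lit 16)⟩)))
(.nd (.nd (.lf ⟨(nat_lit 78), (nat_lit 2), (nat_lit 897), (nat_lit 2)⟩)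
(.lf ⟨(nat_lit 0x3d13d1), (nat_lit 4), (nat_lit 0x44f44f), (nat_lit 4)⟩))
(.nd (.lf ⟨(nat_lit 0x838c), (nat_lit 3), (nat_lit 0xe58e31620e), (nat_lit 7)⟩)
(.lf ⟨(nat_lit 0x848c2cc), (nat_lit 5), (nat_lit 0x133d348c3cc20b), (nat_lit 9)⟩)))))
(.nd (.nd (.nd (.nd (.nd (.lf ⟨(nat_lit 276), (nat_lit 2), (nat_lit 0x18504), (nat_lit 3)⟩)
(.lf ⟨(nat_lit 85), (nat_lit 2), (nat_lit 0x541), (nat_lit 2)⟩))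
(.lf ⟨(nat_lit 0xd12d12c344b44b), (nat_lit 10), (nat_lit 0xd12d12c344b44b), (nat_lit 10)⟩))
(.nd (.lf ⟨(nat_lit 406), (nat_lit 2), (nat_lit 0x58d3cd3cd58f34921558f3563cd21558f246), (nat_lit 24)⟩)
(.lf ⟨(nat_lit 0x638b), (nat_lit 3), (nat_lit 0xf4d13d13d33d13cd30f44f4d13d344f34c3cd30d2c638c), (nat_lit 31)⟩)))
(.nd (.nd (.lf ⟨(nat_lit 0x309309), (nat_lit 4), (nat_lit 0x24c24c), (nat_lit 4)⟩)
(.lf ⟨(nat_lit 0x5575155d4), (nat_lit 6), (nat_lit 0x3d73d7), (nat_lit 4)⟩))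
(.nd (.lf ⟨(nat_lit 468), (nat_lit 2), (nat_lit 0x5943cc3cc1d6), (nat_lit 8)⟩)
(.lf ⟨(nat_lit 535), (nat_lit 2), (nat_lit 0x5c8), (nat_lit 2)⟩))))
(.nd (.nd (.nd (.lf ⟨(nat_lit 0x187187), (nat_lit 4), (nat_lit 0x1c61c6), (nat_lit 4)⟩)
(.lf ⟨(nat_lit 0x4d44d4), (nat_lit 4), (nat_lit 0x513513), (nat_lit 4)⟩))
(.nd (.lf ⟨(nat_lit 0x38b4ce2d3), (nat_lit 6), (nat_lit 0x1c44ce2d348e2c711338b4d238b), (nat_lit 18)⟩)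
(.lf ⟨(nat_lit 0xf4963d3), (nat_lit 5), (nat_lit 0x164cf48f), (nat_lit 5)⟩)))
(.nd (.nd (.lf ⟨(nat_lit 0x24428910a), (nat_lit 6), (nat_lit 0x28910a244), (nat_lit 6)⟩)
(.lf ⟨(nat_lit 0xa34c), (nat_lit 3), (nat_lit 0xd30d28d), (nat_lit 5)⟩))
(.nd (.lf ⟨(nat_lit 141), (nat_lit 2), (nat_lit 0x5953cd3c2), (nat_lit 6)⟩)
(.lf ⟨(nat_lit 464), (nat_lit 2), (nat_lit 0x40d30d307), (nat_lit 6)⟩))))))
(.nd (.nd (.nd (.nd (.nd (.nd (.lf ⟨(nat_lit 0x49049), (nat_lit 4), (nat_lit 0x241241), (nat_lit 4)⟩)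
(.lf ⟨(nat_lit 593), (nat_lit 2), (nat_lit 0x449), (nat_lit 2)⟩))
(.lf ⟨(nat_lit 0x9295), (nat_lit 3), (nat_lit 0xa54a24a), (nat_lit 5)⟩))
(.nd (.lf ⟨(nat_lit 150), (nat_lit 2), (nat_lit 0x582), (nat_lit 2)⟩)
(.lf ⟨(nat_lit 0xb30d), (nat_lit 3), (nat_lit 0xc34c2cc), (nat_lit 5)⟩)))
(.nd (.nd (.lf ⟨(nat_lit 0x18c18c), (nat_lit 4), (nat_lit 0x306306), (nat_lit 4)⟩)
(.lf ⟨(nat_lit 0x38d38e34e), (nat_lit 6), (nat_lit 0), (nat_lit 0)⟩))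
(.nd (.lf ⟨(nat_lit 0x11110d58f3565563c44443563cd59558f), (nat_lit 22), (nat_lit 0x11110d58f3565563c44443563cd59558f), (nat_lit 22)⟩)
(.lf ⟨(nat_lit 535), (nat_lit 2), (nat_lit 0x357348), (nat_lit 4)⟩))))
(.nd (.nd (.nd (.lf ⟨(nat_lit 210), (nat_lit 2), (nat_lit 0x392392392383), (nat_lit 8)⟩)
(.lf ⟨(nat_lit 0), (nat_lit 0), (nat_lit 0x3d23d404f48f501), (nat_lit 10)⟩))
(.nd (.lf ⟨(nat_lit 0x3d23d2), (nat_lit 4), (nat_lit 0x48f48f), (nat_lit 4)⟩)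
(.lf ⟨(nat_lit 0xc207), (nat_lit 3), (nat_lit 0x102044081), (nat_lit 6)⟩)))
(.nd (.nd (.lf ⟨(nat_lit 0x4149), (nat_lit 3), (nat_lit 0x91471491c51c9147105), (nat_lit 13)⟩)
(.lf ⟨(nat_lit 0x381445381445), (nat_lit 8), (nat_lit 0x445381445381), (nat_lit 8)⟩))
(.nd (.lf ⟨(nat_lit 0x848d), (nat_lit 3), (nat_lit 0x12352212), (nat_lit 5)⟩)
(.lf ⟨(nat_lit 0x638b), (nat_lit 3), (nat_lit 0xc2c638c), (nat_lit 5)⟩)))))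
(.nd (.nd (.nd (.nd (.lf ⟨(nat_lit 0x241241), (nat_lit 4), (nat_lit 0x49049), (nat_lit 4)⟩)
(.lf ⟨(nat_lit 0x4d2), (nat_lit 2), (nat_lit 0x1c51c5), (nat_lit 4)⟩))
(.nd (.lf ⟨(nat_lit 0x18238608e), (nat_lit 6), (nat_lit 0x38608e182), (nat_lit 6)⟩)
(.lf ⟨(nat_lit 403), (nat_lit 2), (nat_lit 0x44f44f4d13d13cd30f34c34c3cd38c3cd38c3cd30d30f34e30f34e34b30f34e30f34e2c6), (nat_lit 48)⟩)))
(.nd (.nd (.lf ⟨(nat_lit 0x204183204183), (nat_lit 8), (nat_lit 0xc62040c6204), (nat_lit 8)⟩)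
(.lf ⟨(nat_lit 0x930d), (nat_lit 3), (nat_lit 0xc34c24c), (nat_lit 5)⟩))
(.nd (.lf ⟨(nat_lit 6), (nat_lit 1), (nat_lit 0xc20c2), (nat_lit 4)⟩)
(.lf ⟨(nat_lit 721), (nat_lit 2), (nat_lit 0x44b), (nat_lit 2)⟩))))
(.nd (.nd (.nd (.lf ⟨(nat_lit 0x518a), (nat_lit 3), (nat_lit 0x6286146), (nat_lit 5)⟩)
(.lf ⟨(nat_lit 0x930b), (nat_lit 3), (nat_lit 0x164d04d640c2cc24c), (nat_lit 11)⟩))
(.nd (.lf ⟨(nat_lit 0x18c187), (nat_lit 4), (nat_lit 0x1c6306), (nat_lit 4)⟩)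
(.lf ⟨(nat_lit 719), (nat_lit 2), (nat_lit 0x39140e44e40f44e44e34e34b), (nat_lit 16)⟩)))
(.nd (.nd (.lf ⟨(nat_lit 911), (nat_lit 2), (nat_lit 974), (nat_lit 2)⟩)
(.lf ⟨(nat_lit 0x1134c34c), (nat_lit 5), (nat_lit 0x34c04d301), (nat_lit 6)⟩))
(.nd (.lf ⟨(nat_lit 470), (nat_lit 2), (nat_lit 0x4d6213207), (nat_lit 6)⟩)
(.lf ⟨(nat_lit 395), (nat_lit 2), (nat_lit 0x61738d38d2ca20e28818e), (nat_lit 14)⟩))))))))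
(.nd (.nd (.nd (.nd (.nd (.nd (.nd (.nd (.lf ⟨(nat_lit 12), (nat_lit 1), (nat_lit 0x48048), (nat_lit 4)⟩)
(.lf ⟨(nat_lit 0x61338d38d2c82c8), (nat_lit 10), (nat_lit 0x20440e34e34b20440e34e34b), (nat_lit 16)⟩))
(.lf ⟨(nat_lit 790), (nat_lit 2), (nat_lit 0x51650c), (nat_lit 4)⟩))
(.nd (.lf ⟨(nat_lit 0x55d4154), (nat_lit 5), (nat_lit 0x14157505), (nat_lit 5)⟩)
(.lf ⟨(nat_lit 402), (nat_lit 2), (nat_lit 0x5544955123d23ce28e286), (nat_lit 14)⟩)))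
(.nd (.nd (.lf ⟨(nat_lit 330), (nat_lit 2), (nat_lit 0x18a185), (nat_lit 4)⟩)
(.lf ⟨(nat_lit 786), (nat_lit 2), (nat_lit 0x5904963d33ce40f4cf38c), (nat_lit 14)⟩))
(.nd (.lf ⟨(nat_lit 340), (nat_lit 2), (nat_lit 0x50a5d43865d448648e285), (nat_lit 14)⟩)
(.lf ⟨(nat_lit 0), (nat_lit 0), (nat_lit 0x403343403343), (nat_lit 8)⟩))))
(.nd (.nd (.nd (.lf ⟨(nat_lit 0x1c30470c1), (nat_lit 6), (nat_lit 0x431c10c7), (nat_lit 6)⟩)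
(.lf ⟨(nat_lit 0x289289), (nat_lit 4), (nat_lit 0x289289), (nat_lit 4)⟩))
(.nd (.lf ⟨(nat_lit 85), (nat_lit 2), (nat_lit 0x55238a48e19238a48e29238648e24a241), (nat_lit 22)⟩)
(.lf ⟨(nat_lit 0x40c55355340c), (nat_lit 8), (nat_lit 0xd631534c34358c54d30d), (nat_lit 14)⟩)))
(.nd (.nd (.lf ⟨(nat_lit 589), (nat_lit 2), (nat_lit 841), (nat_lit 2)⟩)
(.lf ⟨(nat_lit 0x928f), (nat_lit 3), (nat_lit 0xa3ca24a), (nat_lit 5)⟩))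
(.nd (.lf ⟨(nat_lit 9), (nat_lit 1), (nat_lit 0xc40c4), (nat_lit 4)⟩)
(.lf ⟨(nat_lit 0x306306), (nat_lit 4), (nat_lit 0x60631818c), (nat_lit 6)⟩)))))
(.nd (.nd (.nd (.nd (.nd (.lf ⟨(nat_lit 0x10f10f), (nat_lit 4), (nat_lit 0x3c43c4), (nat_lit 4)⟩)
(.lf ⟨(nat_lit 526), (nat_lit 2), (nat_lit 0x18388), (nat_lit 3)⟩))
(.lf ⟨(nat_lit 0x6315), (nat_lit 3), (nat_lit 0xa50f2962943ca44d51650c55130d18c), (nat_lit 21)⟩))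
(.nd (.lf ⟨(nat_lit 88), (nat_lit 2), (nat_lit 0x5076141c1), (nat_lit 6)⟩)
(.lf ⟨(nat_lit 0xb513), (nat_lit 3), (nat_lit 0x132d4), (nat_lit 3)⟩)))
(.nd (.nd (.lf ⟨(nat_lit 0x141205048), (nat_lit 6), (nat_lit 0x205048141), (nat_lit 6)⟩)
(.lf ⟨(nat_lit 0xa34828928920a), (nat_lit 9), (nat_lit 0xca2042840ca204284), (nat_lit 12)⟩))
(.nd (.lf ⟨(nat_lit 0x1943c650f), (nat_lit 6), (nat_lit 0x1943c650f), (nat_lit 6)⟩)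
(.lf ⟨(nat_lit 786), (nat_lit 2), (nat_lit 0x49039038c), (nat_lit 6)⟩))))
(.nd (.nd (.nd (.lf ⟨(nat_lit 0x146146), (nat_lit 4), (nat_lit 0x185185), (nat_lit 4)⟩)
(.lf ⟨(nat_lit 0x30404c3cd18c18130f34630630404c3cd18c18130f346306), (nat_lit 32), (nat_lit 0x30404c3cd18c18130f34630630404c3cd18c18130f346306), (nat_lit 32)⟩))
(.nd (.lf ⟨(nat_lit 0x2d32d3), (nat_lit 4), (nat_lit 0x4d22d348b), (nat_lit 6)⟩)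
(.lf ⟨(nat_lit 0xb315), (nat_lit 3), (nat_lit 0xd31530d2cc), (nat_lit 7)⟩)))
(.nd (.nd (.lf ⟨(nat_lit 0x28124a049), (nat_lit 6), (nat_lit 0x24a049281), (nat_lit 6)⟩)
(.lf ⟨(nat_lit 0), (nat_lit 0), (nat_lit 0x4c081302), (nat_lit 6)⟩))
(.nd (.lf ⟨(nat_lit 834), (nat_lit 2), (nat_lit 0x34f35558f08d), (nat_lit 8)⟩)
(.lf ⟨(nat_lit 0x59519418e2c459519418e2c4), (nat_lit 16), (nat_lit 0x38b11419654638b114196546), (nat_lit 16)⟩))))))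
(.nd (.nd (.nd (.nd (.nd (.nd (.lf ⟨(nat_lit 715), (nat_lit 2), (nat_lit 0), (nat_lit 0)⟩)
(.lf ⟨(nat_lit 139), (nat_lit 2), (nat_lit 0x1120e2063862c2), (nat_lit 9)⟩))
(.lf ⟨(nat_lit 403), (nat_lit 2), (nat_lit 0x58b51650c3cd4d630b58f346), (nat_lit 16)⟩))
(.nd (.lf ⟨(nat_lit 280), (nat_lit 2), (nat_lit 0x604), (nat_lit 2)⟩)
(.lf ⟨(nat_lit 0x450), (nat_lit 2), (nat_lit 0x148148), (nat_lit 4)⟩)))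
(.nd (.nd (.lf ⟨(nat_lit 0x345345), (nat_lit 4), (nat_lit 0x14d14d), (nat_lit 4)⟩)
(.lf ⟨(nat_lit 0x497), (nat_lit 2), (nat_lit 0x5d2), (nat_lit 2)⟩))
(.nd (.lf ⟨(nat_lit 0x155155), (nat_lit 4), (nat_lit 0x545545), (nat_lit 4)⟩)
(.lf ⟨(nat_lit 85), (nat_lit 2), (nat_lit 0x54e286389289181), (nat_lit 10)⟩))))
(.nd (.nd (.nd (.lf ⟨(nat_lit 0x2c32c3), (nat_lit 4), (nat_lit 0xcb0cb), (nat_lit 4)⟩)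
(.lf ⟨(nat_lit 0x638b), (nat_lit 3), (nat_lit 0xc2cf2943ca58f2943ca58b58c3cd4d630b58d2d630f35358c2d634638c), (nat_lit 39)⟩))
(.nd (.lf ⟨(nat_lit 0x7288), (nat_lit 3), (nat_lit 0xa20a1ca), (nat_lit 5)⟩)
(.lf ⟨(nat_lit 0xf4cc3cc), (nat_lit 5), (nat_lit 0x20b20420b204), (nat_lit 8)⟩)))
(.nd (.nd (.lf ⟨(nat_lit 209), (nat_lit 2), (nat_lit 0x44d14d143), (nat_lit 6)⟩)
(.lf ⟨(nat_lit 0x30f30d), (nat_lit 4), (nat_lit 0x6165513d16165513d134c3cc), (nat_lit 16)⟩))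
(.nd (.lf ⟨(nat_lit 0xd235234848d48d20348d48d212352348), (nat_lit 22), (nat_lit 0xd235234848d48d20348d48d212352348), (nat_lit 22)⟩)
(.lf ⟨(nat_lit 88), (nat_lit 2), (nat_lit 0x601), (nat_lit 2)⟩)))))
(.nd (.nd (.nd (.nd (.lf ⟨(nat_lit 133), (nat_lit 2), (nat_lit 0x31832861460c60c2), (nat_lit 11)⟩)
(.lf ⟨(nat_lit 0x1c10c81c32071c10c81c3207), (nat_lit 16), (nat_lit 0x1c10c81c32071c10c81c3207), (nat_lit 16)⟩))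
(.nd (.lf ⟨(nat_lit 0x55d4), (nat_lit 3), (nat_lit 0xe197512192385), (nat_lit 9)⟩)
(.lf ⟨(nat_lit 0x144450111405111404450), (nat_lit 14), (nat_lit 0x144450111405111404450), (nat_lit 14)⟩)))
(.nd (.nd (.lf ⟨(nat_lit 0x2c72c7), (nat_lit 4), (nat_lit 0), (nat_lit 0)⟩)
(.lf ⟨(nat_lit 0), (nat_lit 0), (nat_lit 0x502502), (nat_lit 4)⟩))
(.nd (.lf ⟨(nat_lit 0x58931630938c38c), (nat_lit 10), (nat_lit 0x38c38c589316309), (nat_lit 10)⟩)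
(.lf ⟨(nat_lit 913), (nat_lit 2), (nat_lit 0x40f4d244f4d240e), (nat_lit 10)⟩))))
(.nd (.nd (.nd (.lf ⟨(nat_lit 0x541541), (nat_lit 4), (nat_lit 0x55055), (nat_lit 4)⟩)
(.lf ⟨(nat_lit 919), (nat_lit 2), (nat_lit 0x5125d448e), (nat_lit 6)⟩))
(.nd (.lf ⟨(nat_lit 907), (nat_lit 2), (nat_lit 0x144144), (nat_lit 4)⟩)
(.lf ⟨(nat_lit 0xd48f), (nat_lit 3), (nat_lit 0x144943d2352), (nat_lit 7)⟩)))
(.nd (.nd (.lf ⟨(nat_lit 261), (nat_lit 2), (nat_lit 0x1ce2c9147244), (nat_lit 8)⟩)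
(.lf ⟨(nat_lit 0x14e2c838b20538b20e2c8), (nat_lit 14), (nat_lit 0x14e2c838b20538b20e2c8), (nat_lit 14)⟩))
(.nd (.lf ⟨(nat_lit 0xd4d0), (nat_lit 3), (nat_lit 0x13413353), (nat_lit 5)⟩)
(.lf ⟨(nat_lit 403), (nat_lit 2), (nat_lit 0x4c6), (nat_lit 2)⟩)))))))
(.nd (.nd (.nd (.nd (.nd (.nd (.nd (.lf ⟨(nat_lit 0x83083), (nat_lit 4), (nat_lit 0xc20c2), (nat_lit 4)⟩)
(.lf ⟨(nat_lit 0x45ce286386), (nat_lit 7), (nat_lit 0x1444e34e34718719738a18e184), (nat_lit 17)⟩))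
(.lf ⟨(nat_lit 141), (nat_lit 2), (nat_lit 0x595342), (nat_lit 4)⟩))
(.nd (.lf ⟨(nat_lit 401), (nat_lit 2), (nat_lit 0x29134a346), (nat_lit 6)⟩)
(.lf ⟨(nat_lit 726), (nat_lit 2), (nat_lit 0x58b), (nat_lit 2)⟩)))
(.nd (.nd (.lf ⟨(nat_lit 0x504504), (nat_lit 4), (nat_lit 0x114114), (nat_lit 4)⟩)
(.lf ⟨(nat_lit 852), (nat_lit 2), (nat_lit 0x5113d13cd), (nat_lit 6)⟩))
(.nd (.lf ⟨(nat_lit 0x838b20a), (nat_lit 5), (nat_lit 0xe2ca38b20e2c8), (nat_lit 9)⟩)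
(.lf ⟨(nat_lit 344), (nat_lit 2), (nat_lit 0x61448f48f2d449651349651348f48f2c5), (nat_lit 22)⟩))))
(.nd (.nd (.nd (.lf ⟨(nat_lit 0x2430490c1), (nat_lit 6), (nat_lit 0x490c1243), (nat_lit 6)⟩)
(.lf ⟨(nat_lit 984), (nat_lit 2), (nat_lit 0x60f), (nat_lit 2)⟩))
(.nd (.lf ⟨(nat_lit 0x3892c314e24b0c5), (nat_lit 10), (nat_lit 0x14b0ce2452c3389), (nat_lit 10)⟩)
(.lf ⟨(nat_lit 0x85505502154154), (nat_lit 10), (nat_lit 0x85505502154154), (nat_lit 10)⟩)))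
(.nd (.nd (.lf ⟨(nat_lit 82), (nat_lit 2), (nat_lit 0x24e48e241), (nat_lit 6)⟩)
(.lf ⟨(nat_lit 0xe44f), (nat_lit 3), (nat_lit 0x113d1391), (nat_lit 5)⟩))
(.nd (.lf ⟨(nat_lit 0x1d51d51d51d5), (nat_lit 8), (nat_lit 0), (nat_lit 0)⟩)
(.lf ⟨(nat_lit 0x18c2c8), (nat_lit 4), (nat_lit 0x59538d38c2cc20e34e30b30630b), (nat_lit 18)⟩)))))
(.nd (.nd (.nd (.nd (.nd (.lf ⟨(nat_lit 130), (nat_lit 2), (nat_lit 0), (nat_lit 0)⟩)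
(.lf ⟨(nat_lit 333), (nat_lit 2), (nat_lit 837), (nat_lit 2)⟩))
(.lf ⟨(nat_lit 0x6132d82d84cb60b), (nat_lit 10), (nat_lit 0x1d84cb60b1d84cb60b), (nat_lit 12)⟩))
(.nd (.lf ⟨(nat_lit 0x758f), (nat_lit 3), (nat_lit 0x3ce2185163d85133963c9213247), (nat_lit 18)⟩)
(.lf ⟨(nat_lit 917), (nat_lit 2), (nat_lit 0x5523d23ce), (nat_lit 6)⟩)))
(.nd (.nd (.lf ⟨(nat_lit 0x3430c13430c1), (nat_lit 8), (nat_lit 0x43343043343), (nat_lit 8)⟩)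
(.lf ⟨(nat_lit 0x557), (nat_lit 2), (nat_lit 0x5d5), (nat_lit 2)⟩))
(.nd (.lf ⟨(nat_lit 0x1cd2133532073484cd4c8), (nat_lit 14), (nat_lit 0x1cd2133532073484cd4c8), (nat_lit 14)⟩)
(.lf ⟨(nat_lit 651), (nat_lit 2), (nat_lit 0x4d238b29348e), (nat_lit 8)⟩))))
(.nd (.nd (.nd (.lf ⟨(nat_lit 0x1c91c9), (nat_lit 4), (nat_lit 0x247247), (nat_lit 4)⟩)
(.lf ⟨(nat_lit 0xf4963d3), (nat_lit 5), (nat_lit 0x1655354f48f), (nat_lit 7)⟩))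
(.nd (.lf ⟨(nat_lit 0x40c2cc), (nat_lit 4), (nat_lit 0xcc1c3307), (nat_lit 6)⟩)
(.lf ⟨(nat_lit 0x554f), (nat_lit 3), (nat_lit 0x175544943d2389286389286155), (nat_lit 17)⟩)))
(.nd (.nd (.lf ⟨(nat_lit 0x2433c90cf), (nat_lit 6), (nat_lit 0x3c90cf243), (nat_lit 6)⟩)
(.lf ⟨(nat_lit 0xd38d), (nat_lit 3), (nat_lit 0x251049441), (nat_lit 6)⟩))
(.nd (.lf ⟨(nat_lit 0xa44d28d), (nat_lit 5), (nat_lit 0xd29134a), (nat_lit 5)⟩)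
(.lf ⟨(nat_lit 0x5c22d708b), (nat_lit 6), (nat_lit 0x5c22d708b), (nat_lit 6)⟩))))))
(.nd (.nd (.nd (.nd (.nd (.nd (.lf ⟨(nat_lit 204), (nat_lit 2), (nat_lit 0x10303), (nat_lit 3)⟩)
(.lf ⟨(nat_lit 469), (nat_lit 2), (nat_lit 0x547), (nat_lit 2)⟩))
(.lf ⟨(nat_lit 0x828d), (nat_lit 3), (nat_lit 0xd30d28d30a20a), (nat_lit 9)⟩))
(.nd (.lf ⟨(nat_lit 591), (nat_lit 2), (nat_lit 969), (nat_lit 2)⟩)
(.lf ⟨(nat_lit 470), (nat_lit 2), (nat_lit 0x5933d330f307), (nat_lit 8)⟩)))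
(.nd (.nd (.lf ⟨(nat_lit 0x1cd1cd), (nat_lit 4), (nat_lit 0x347347), (nat_lit 4)⟩)
(.lf ⟨(nat_lit 407), (nat_lit 2), (nat_lit 0x5c6), (nat_lit 2)⟩))
(.nd (.lf ⟨(nat_lit 24), (nat_lit 1), (nat_lit 0x114114), (nat_lit 4)⟩)
(.lf ⟨(nat_lit 0x20e2ca), (nat_lit 4), (nat_lit 0x38a2c8), (nat_lit 4)⟩))))
(.nd (.nd (.nd (.lf ⟨(nat_lit 0x3188346), (nat_lit 5), (nat_lit 0x20d20620d18d20d2060c6348348), (nat_lit 18)⟩)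
(.lf ⟨(nat_lit 0x2953ca54f), (nat_lit 6), (nat_lit 0x2953c62953c6), (nat_lit 8)⟩))
(.nd (.lf ⟨(nat_lit 0x385286385286), (nat_lit 8), (nat_lit 0x286385286385), (nat_lit 8)⟩)
(.lf ⟨(nat_lit 0xb60f30f), (nat_lit 5), (nat_lit 0x183cc3cc2cc), (nat_lit 7)⟩)))
(.nd (.nd (.lf ⟨(nat_lit 0x3c214f085), (nat_lit 6), (nat_lit 0x14f0853c2), (nat_lit 6)⟩)
(.lf ⟨(nat_lit 0x315315), (nat_lit 4), (nat_lit 0x54c54c), (nat_lit 4)⟩))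
(.nd (.lf ⟨(nat_lit 15), (nat_lit 1), (nat_lit 0x89089), (nat_lit 4)⟩)
(.lf ⟨(nat_lit 653), (nat_lit 2), (nat_lit 0x38d38c2cc2ca), (nat_lit 8)⟩)))))
(.nd (.nd (.nd (.nd (.lf ⟨(nat_lit 0x202202), (nat_lit 4), (nat_lit 0x88088), (nat_lit 4)⟩)
(.lf ⟨(nat_lit 0x288288), (nat_lit 4), (nat_lit 0x8a10a102284284), (nat_lit 10)⟩))
(.nd (.lf ⟨(nat_lit 147), (nat_lit 2), (nat_lit 0x1851630f3163c84ce214382), (nat_lit 15)⟩)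
(.lf ⟨(nat_lit 0x24c24838d48e34824c24838d48e348), (nat_lit 20), (nat_lit 0x24c24838d48e34824c24838d48e348), (nat_lit 20)⟩)))
(.nd (.nd (.lf ⟨(nat_lit 0x2041c32041c3), (nat_lit 8), (nat_lit 0xc72040c7204), (nat_lit 8)⟩)
(.lf ⟨(nat_lit 85), (nat_lit 2), (nat_lit 0x5d550a5d250f2943d23ca50f38a50e29251228f38a5125523d238a3ce29250a5125523d238a3ce29238a50f386389289181), (nat_lit 66)⟩))
(.nd (.lf ⟨(nat_lit 710), (nat_lit 2), (nat_lit 0x40c19030630b30b18b), (nat_lit 12)⟩)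
(.lf ⟨(nat_lit 724), (nat_lit 2), (nat_lit 0x50b), (nat_lit 2)⟩))))
(.nd (.nd (.nd (.lf ⟨(nat_lit 0x1090c21090c2), (nat_lit 8), (nat_lit 0x890c40890c4), (nat_lit 8)⟩)
(.lf ⟨(nat_lit 0xc3d3), (nat_lit 3), (nat_lit 0x164d65135944d64cf4cf30f), (nat_lit 15)⟩))
(.nd (.lf ⟨(nat_lit 0x422d42d408108b50b502), (nat_lit 14), (nat_lit 0x422d42d408108b50b502), (nat_lit 14)⟩)
(.lf ⟨(nat_lit 0), (nat_lit 0), (nat_lit 0x18a24a246289289), (nat_lit 10)⟩)))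
(.nd (.nd (.lf ⟨(nat_lit 0x517), (nat_lit 2), (nat_lit 0x5d4), (nat_lit 2)⟩)
(.lf ⟨(nat_lit 0x401401), (nat_lit 4), (nat_lit 0x50050), (nat_lit 4)⟩))
(.nd (.lf ⟨(nat_lit 0x638b), (nat_lit 3), (nat_lit 0xc2d618e316), (nat_lit 7)⟩)
(.lf ⟨(nat_lit 0x61720e206386), (nat_lit 8), (nat_lit 0x974d23863860974d2386386), (nat_lit 16)⟩))))))))))
(.nd (.nd (.nd (.nd (.nd (.nd (.nd (.nd (.nd (.nd (.lf ⟨(nat_lit 195), (nat_lit 2), (nat_lit 0), (nat_lit 0)⟩)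
(.lf ⟨(nat_lit 0), (nat_lit 0), (nat_lit 0x18a10a106284284), (nat_lit 10)⟩))
(.lf ⟨(nat_lit 788), (nat_lit 2), (nat_lit 0x59458c), (nat_lit 4)⟩))
(.nd (.lf ⟨(nat_lit 0x858f), (nat_lit 3), (nat_lit 0x162563c9216), (nat_lit 7)⟩)
(.lf ⟨(nat_lit 0), (nat_lit 0), (nat_lit 0x403403), (nat_lit 4)⟩)))
(.nd (.nd (.lf ⟨(nat_lit 0x2c32c3), (nat_lit 4), (nat_lit 0), (nat_lit 0)⟩)
(.lf ⟨(nat_lit 0xa34c), (nat_lit 3), (nat_lit 0x1031540d30d31528d), (nat_lit 11)⟩))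
(.nd (.lf ⟨(nat_lit 20), (nat_lit 1), (nat_lit 0x4f04f), (nat_lit 4)⟩)
(.lf ⟨(nat_lit 402), (nat_lit 2), (nat_lit 0x512506), (nat_lit 4)⟩))))
(.nd (.nd (.nd (.lf ⟨(nat_lit 0x203203), (nat_lit 4), (nat_lit 0xc80c8), (nat_lit 4)⟩)
(.lf ⟨(nat_lit 0x1651650c3c9309), (nat_lit 9), (nat_lit 0x24c089302), (nat_lit 6)⟩))
(.nd (.lf ⟨(nat_lit 718), (nat_lit 2), (nat_lit 0x4d24d238b), (nat_lit 6)⟩)
(.lf ⟨(nat_lit 0x595), (nat_lit 2), (nat_lit 0x188188), (nat_lit 4)⟩)))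
(.nd (.nd (.lf ⟨(nat_lit 0x1c91031c9103), (nat_lit 8), (nat_lit 0xc91070c9107), (nat_lit 8)⟩)
(.lf ⟨(nat_lit 661), (nat_lit 2), (nat_lit 0x54a), (nat_lit 2)⟩))
(.nd (.lf ⟨(nat_lit 0xc58e), (nat_lit 3), (nat_lit 0xe58c), (nat_lit 3)⟩)
(.lf ⟨(nat_lit 0x595), (nat_lit 2), (nat_lit 0x8f3423cd), (nat_lit 6)⟩)))))
(.nd (.nd (.nd (.nd (.nd (.lf ⟨(nat_lit 206), (nat_lit 2), (nat_lit 0x12383), (nat_lit 3)⟩)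
(.lf ⟨(nat_lit 266), (nat_lit 2), (nat_lit 0x617510284), (nat_lit 6)⟩))
(.lf ⟨(nat_lit 0x202286202286), (nat_lit 8), (nat_lit 0x286202286202), (nat_lit 8)⟩))
(.nd (.lf ⟨(nat_lit 262), (nat_lit 2), (nat_lit 0x58d55654f184), (nat_lit 8)⟩)
(.lf ⟨(nat_lit 0x4d4), (nat_lit 2), (nat_lit 0x513), (nat_lit 2)⟩)))
(.nd (.nd (.lf ⟨(nat_lit 0x6307187), (nat_lit 5), (nat_lit 0x718c1c6), (nat_lit 5)⟩)
(.lf ⟨(nat_lit 725), (nat_lit 2), (nat_lit 0x59035334c5535933d03cc35334b), (nat_lit 18)⟩))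
(.nd (.lf ⟨(nat_lit 0xf616), (nat_lit 3), (nat_lit 0x185983d8), (nat_lit 5)⟩)
(.lf ⟨(nat_lit 0xe40f), (nat_lit 3), (nat_lit 0x103d0390), (nat_lit 5)⟩))))
(.nd (.nd (.nd (.lf ⟨(nat_lit 275), (nat_lit 2), (nat_lit 0x393393393384), (nat_lit 8)⟩)
(.lf ⟨(nat_lit 0x928f), (nat_lit 3), (nat_lit 0x152953ca24a), (nat_lit 7)⟩))
(.nd (.lf ⟨(nat_lit 0x813c93c80813c93c8), (nat_lit 12), (nat_lit 0x3c83c90813c83c9081), (nat_lit 12)⟩)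
(.lf ⟨(nat_lit 0xc3d2), (nat_lit 3), (nat_lit 0x1858f4903906164cf4ce30f), (nat_lit 15)⟩)))
(.nd (.nd (.lf ⟨(nat_lit 0x638a), (nat_lit 3), (nat_lit 0xe28e18e), (nat_lit 5)⟩)
(.lf ⟨(nat_lit 0x28d28d), (nat_lit 4), (nat_lit 0x34a34a), (nat_lit 4)⟩))
(.nd (.lf ⟨(nat_lit 0x2865d448e19448e), (nat_lit 10), (nat_lit 0x19751238651238a), (nat_lit 10)⟩)
(.lf ⟨(nat_lit 0x638718e), (nat_lit 5), (nat_lit 0xe18e1c6), (nat_lit 5)⟩))))))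
(.nd (.nd (.nd (.nd (.nd (.nd (.lf ⟨(nat_lit 0x84084), (nat_lit 4), (nat_lit 0x102102), (nat_lit 4)⟩)
(.lf ⟨(nat_lit 0xc207), (nat_lit 3), (nat_lit 0x81102044), (nat_lit 6)⟩))
(.lf ⟨(nat_lit 920), (nat_lit 2), (nat_lit 0x61351350e), (nat_lit 6)⟩))
(.nd (.lf ⟨(nat_lit 0x1881963c9), (nat_lit 6), (nat_lit 0x3563c958920920f34620658f), (nat_lit 16)⟩)
(.lf ⟨(nat_lit 0xb511), (nat_lit 3), (nat_lit 0x1244d48d2d4), (nat_lit 7)⟩)))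
(.nd (.nd (.lf ⟨(nat_lit 0x381381), (nat_lit 4), (nat_lit 0), (nat_lit 0)⟩)
(.lf ⟨(nat_lit 87), (nat_lit 2), (nat_lit 0x51238a5d448e29229438a48f38a3ce2923ce29438a50f38a50e29250f38a50f281), (nat_lit 44)⟩))
(.nd (.lf ⟨(nat_lit 0x39549548e), (nat_lit 6), (nat_lit 0x395383395383), (nat_lit 8)⟩)
(.lf ⟨(nat_lit 852), (nat_lit 2), (nat_lit 0x59449648d), (nat_lit 6)⟩))))
(.nd (.nd (.nd (.lf ⟨(nat_lit 0x109084242), (nat_lit 6), (nat_lit 0x89102244), (nat_lit 6)⟩)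
(.lf ⟨(nat_lit 536), (nat_lit 2), (nat_lit 0x608), (nat_lit 2)⟩))
(.nd (.lf ⟨(nat_lit 0x409410250), (nat_lit 6), (nat_lit 0), (nat_lit 0)⟩)
(.lf ⟨(nat_lit 85), (nat_lit 2), (nat_lit 0x5544943d23ce286389289181), (nat_lit 16)⟩)))
(.nd (.nd (.lf ⟨(nat_lit 150), (nat_lit 2), (nat_lit 0x3d63c958f24858f24f2483c2), (nat_lit 16)⟩)
(.lf ⟨(nat_lit 0x558), (nat_lit 2), (nat_lit 0x615), (nat_lit 2)⟩))
(.nd (.lf ⟨(nat_lit 854), (nat_lit 2), (nat_lit 0x58d), (nat_lit 2)⟩)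
(.lf ⟨(nat_lit 86), (nat_lit 2), (nat_lit 0x1858e20e201), (nat_lit 7)⟩)))))
(.nd (.nd (.nd (.nd (.lf ⟨(nat_lit 201), (nat_lit 2), (nat_lit 0x109109109103), (nat_lit 8)⟩)
(.lf ⟨(nat_lit 0xd45943093090d4594309309), (nat_lit 16), (nat_lit 0xd45943093090d4594309309), (nat_lit 16)⟩))
(.nd (.lf ⟨(nat_lit 0x7614), (nat_lit 3), (nat_lit 0xf2185163c81d6), (nat_lit 9)⟩)
(.lf ⟨(nat_lit 146), (nat_lit 2), (nat_lit 0x173d23ce28e2943ce2943ca18e182), (nat_lit 19)⟩)))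
(.nd (.nd (.lf ⟨(nat_lit 0x1c42011c4201), (nat_lit 8), (nat_lit 0x481c40481c4), (nat_lit 8)⟩)
(.lf ⟨(nat_lit 9), (nat_lit 1), (nat_lit 0x103103), (nat_lit 4)⟩))
(.nd (.lf ⟨(nat_lit 14), (nat_lit 1), (nat_lit 0x241241), (nat_lit 4)⟩)
(.lf ⟨(nat_lit 8), (nat_lit 1), (nat_lit 0x84084), (nat_lit 4)⟩))))
(.nd (.nd (.nd (.lf ⟨(nat_lit 263), (nat_lit 2), (nat_lit 452), (nat_lit 2)⟩)
(.lf ⟨(nat_lit 0x597), (nat_lit 2), (nat_lit 0x5d6), (nat_lit 2)⟩))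
(.nd (.lf ⟨(nat_lit 0x40c2cc40c2cc), (nat_lit 8), (nat_lit 0), (nat_lit 0)⟩)
(.lf ⟨(nat_lit 146), (nat_lit 2), (nat_lit 0x1751250a38a18e182), (nat_lit 11)⟩)))
(.nd (.nd (.lf ⟨(nat_lit 74), (nat_lit 2), (nat_lit 641), (nat_lit 2)⟩)
(.lf ⟨(nat_lit 0x34e34e34e), (nat_lit 6), (nat_lit 0x39138d39138d38d), (nat_lit 10)⟩))
(.nd (.lf ⟨(nat_lit 717), (nat_lit 2), (nat_lit 0x4cd4cb), (nat_lit 4)⟩)
(.lf ⟨(nat_lit 0), (nat_lit 0), (nat_lit 0x3cd1183883883cd118388388), (nat_lit 16)⟩)))))))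
(.nd (.nd (.nd (.nd (.nd (.nd (.nd (.lf ⟨(nat_lit 18), (nat_lit 1), (nat_lit 0xce0ce), (nat_lit 4)⟩)
(.lf ⟨(nat_lit 395), (nat_lit 2), (nat_lit 0x1734e34b18e), (nat_lit 7)⟩))
(.lf ⟨(nat_lit 0x24a50f), (nat_lit 4), (nat_lit 0x2943ca24a), (nat_lit 6)⟩))
(.nd (.lf ⟨(nat_lit 0x51c5389), (nat_lit 5), (nat_lit 0xb1ce2c91c51c5), (nat_lit 9)⟩)
(.lf ⟨(nat_lit 0x20b2082c8), (nat_lit 6), (nat_lit 0), (nat_lit 0)⟩)))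
(.nd (.nd (.lf ⟨(nat_lit 0x503503), (nat_lit 4), (nat_lit 0xd40d4), (nat_lit 4)⟩)
(.lf ⟨(nat_lit 0x38b10e2c4), (nat_lit 6), (nat_lit 0), (nat_lit 0)⟩))
(.nd (.lf ⟨(nat_lit 0x288288), (nat_lit 4), (nat_lit 0x88148142205205), (nat_lit 10)⟩)
(.lf ⟨(nat_lit 0xa4ce), (nat_lit 3), (nat_lit 0x123d23ce293), (nat_lit 7)⟩))))
(.nd (.nd (.nd (.lf ⟨(nat_lit 845), (nat_lit 2), (nat_lit 0), (nat_lit 0)⟩)
(.lf ⟨(nat_lit 10), (nat_lit 1), (nat_lit 0x181181), (nat_lit 4)⟩))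
(.nd (.lf ⟨(nat_lit 0x14d14e045345381), (nat_lit 10), (nat_lit 0x38114d14e045345), (nat_lit 10)⟩)
(.lf ⟨(nat_lit 657), (nat_lit 2), (nat_lit 0x44a), (nat_lit 2)⟩)))
(.nd (.nd (.lf ⟨(nat_lit 133), (nat_lit 2), (nat_lit 0xa142), (nat_lit 3)⟩)
(.lf ⟨(nat_lit 0x554f), (nat_lit 3), (nat_lit 0x1749548f4943d23ca3ce2922943ce29438a49538a3ce29254e2943d2389286389286155), (nat_lit 47)⟩))
(.nd (.lf ⟨(nat_lit 4), (nat_lit 1), (nat_lit 0x1031341330c2cc24c2cc244), (nat_lit 15)⟩)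
(.lf ⟨(nat_lit 0x6308), (nat_lit 3), (nat_lit 0x1654818c), (nat_lit 5)⟩)))))
(.nd (.nd (.nd (.nd (.nd (.lf ⟨(nat_lit 0x114114), (nat_lit 4), (nat_lit 0x504504), (nat_lit 4)⟩)
(.lf ⟨(nat_lit 398), (nat_lit 2), (nat_lit 0x17386), (nat_lit 3)⟩))
(.lf ⟨(nat_lit 0xd11474451c34451d1147), (nat_lit 14), (nat_lit 0xd11474451c34451d1147), (nat_lit 14)⟩))
(.nd (.lf ⟨(nat_lit 0x20b589), (nat_lit 4), (nat_lit 0xd2cd2c920b), (nat_lit 7)⟩)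
(.lf ⟨(nat_lit 402), (nat_lit 2), (nat_lit 0x5125123d23ce28e286), (nat_lit 12)⟩)))
(.nd (.nd (.lf ⟨(nat_lit 0x289289), (nat_lit 4), (nat_lit 0x24a24a), (nat_lit 4)⟩)
(.lf ⟨(nat_lit 0x55055), (nat_lit 4), (nat_lit 0x55055), (nat_lit 4)⟩))
(.nd (.lf ⟨(nat_lit 214), (nat_lit 2), (nat_lit 0x3563cd58d58d59558f3563cd58f3563cd59558f3563cd58f3563cd58d58f3563cd58f343), (nat_lit 48)⟩)
(.lf ⟨(nat_lit 0xf4d1), (nat_lit 3), (nat_lit 0x184d16133d3), (nat_lit 7)⟩))))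
(.nd (.nd (.nd (.lf ⟨(nat_lit 0x149149), (nat_lit 4), (nat_lit 0x245245), (nat_lit 4)⟩)
(.lf ⟨(nat_lit 0xf495), (nat_lit 3), (nat_lit 0x125523d2), (nat_lit 5)⟩))
(.nd (.lf ⟨(nat_lit 0x1338b4d238b), (nat_lit 7), (nat_lit 0xd348e2c34d238b), (nat_lit 10)⟩)
(.lf ⟨(nat_lit 404), (nat_lit 2), (nat_lit 0x4943d23c6), (nat_lit 6)⟩)))
(.nd (.nd (.lf ⟨(nat_lit 0x20428810a), (nat_lit 6), (nat_lit 0x28810a204), (nat_lit 6)⟩)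
(.lf ⟨(nat_lit 0xc551), (nat_lit 3), (nat_lit 0x16456315), (nat_lit 5)⟩))
(.nd (.lf ⟨(nat_lit 262), (nat_lit 2), (nat_lit 0x34f184), (nat_lit 4)⟩)
(.lf ⟨(nat_lit 0x13246), (nat_lit 3), (nat_lit 0x54e34e34c2cc2c64c9), (nat_lit 12)⟩))))))
(.nd (.nd (.nd (.nd (.nd (.nd (.lf ⟨(nat_lit 845), (nat_lit 2), (nat_lit 0), (nat_lit 0)⟩)
(.lf ⟨(nat_lit 85), (nat_lit 2), (nat_lit 0x1854e20e201), (nat_lit 7)⟩))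
(.lf ⟨(nat_lit 0x638b), (nat_lit 3), (nat_lit 0xc2cf2943ca58f2943ca58b51650c3cd4d630b58d2d459430f35358c2d634638c), (nat_lit 43)⟩))
(.nd (.lf ⟨(nat_lit 83), (nat_lit 2), (nat_lit 0x4c1), (nat_lit 2)⟩)
(.lf ⟨(nat_lit 0x1c40932c90932c91c40932c90932c9), (nat_lit 20), (nat_lit 0x1c40932c90932c91c40932c90932c9), (nat_lit 20)⟩)))
(.nd (.nd (.lf ⟨(nat_lit 0x244244), (nat_lit 4), (nat_lit 0), (nat_lit 0)⟩)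
(.lf ⟨(nat_lit 0x350f2943ca), (nat_lit 7), (nat_lit 0x143ca50f283), (nat_lit 7)⟩))
(.nd (.lf ⟨(nat_lit 0x3563cd59558f), (nat_lit 8), (nat_lit 0x206206), (nat_lit 4)⟩)
(.lf ⟨(nat_lit 151), (nat_lit 2), (nat_lit 0x5c2), (nat_lit 2)⟩))))
(.nd (.nd (.nd (.lf ⟨(nat_lit 0x20d20d), (nat_lit 4), (nat_lit 0x348348), (nat_lit 4)⟩)
(.lf ⟨(nat_lit 0x58f49648f), (nat_lit 6), (nat_lit 0x10f48f10f48f), (nat_lit 8)⟩))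
(.nd (.lf ⟨(nat_lit 0x3c93c9), (nat_lit 4), (nat_lit 0), (nat_lit 0)⟩)
(.lf ⟨(nat_lit 725), (nat_lit 2), (nat_lit 0x54b), (nat_lit 2)⟩)))
(.nd (.nd (.lf ⟨(nat_lit 202), (nat_lit 2), (nat_lit 643), (nat_lit 2)⟩)
(.lf ⟨(nat_lit 0x28e2943d2), (nat_lit 6), (nat_lit 0x5125123d23ca38a50f), (nat_lit 12)⟩))
(.nd (.lf ⟨(nat_lit 0x848d212), (nat_lit 5), (nat_lit 0xd48d212348), (nat_lit 7)⟩)
(.lf ⟨(nat_lit 913), (nat_lit 2), (nat_lit 0x44e), (nat_lit 2)⟩)))))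
(.nd (.nd (.nd (.nd (.lf ⟨(nat_lit 135), (nat_lit 2), (nat_lit 0x42043081c8108102), (nat_lit 11)⟩)
(.lf ⟨(nat_lit 0), (nat_lit 0), (nat_lit 650), (nat_lit 2)⟩))
(.nd (.lf ⟨(nat_lit 599), (nat_lit 2), (nat_lit 0x5c9), (nat_lit 2)⟩)
(.lf ⟨(nat_lit 0x38b3cd), (nat_lit 4), (nat_lit 0x3cd38b), (nat_lit 4)⟩)))
(.nd (.nd (.lf ⟨(nat_lit 0x149103149103), (nat_lit 8), (nat_lit 0xc91050c9105), (nat_lit 8)⟩)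
(.lf ⟨(nat_lit 0x515), (nat_lit 2), (nat_lit 0x554), (nat_lit 2)⟩))
(.nd (.lf ⟨(nat_lit 0x58e), (nat_lit 2), (nat_lit 0x38c38c589316309396), (nat_lit 12)⟩)
(.lf ⟨(nat_lit 593), (nat_lit 2), (nat_lit 0x40f4d244f4d240e34e349), (nat_lit 14)⟩))))
(.nd (.nd (.nd (.lf ⟨(nat_lit 0x143143), (nat_lit 4), (nat_lit 0), (nat_lit 0)⟩)
(.lf ⟨(nat_lit 340), (nat_lit 2), (nat_lit 0x50a5d448e29751238a48a50e2923ce28f38a48f38a50e2943ce29438a48f2943ca50e285), (nat_lit 48)⟩))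
(.nd (.lf ⟨(nat_lit 0), (nat_lit 0), (nat_lit 390), (nat_lit 2)⟩)
(.lf ⟨(nat_lit 0x5614), (nat_lit 3), (nat_lit 0x1251238a38a158), (nat_lit 9)⟩)))
(.nd (.nd (.lf ⟨(nat_lit 980), (nat_lit 2), (nat_lit 0x50f), (nat_lit 2)⟩)
(.lf ⟨(nat_lit 0x29655028d), (nat_lit 6), (nat_lit 0x44d29655140a), (nat_lit 8)⟩))
(.nd (.lf ⟨(nat_lit 0x630d), (nat_lit 3), (nat_lit 0x1059540c34c59518c), (nat_lit 11)⟩)
(.lf ⟨(nat_lit 342), (nat_lit 2), (nat_lit 0x585), (nat_lit 2)⟩))))))))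
(.nd (.nd (.nd (.nd (.nd (.nd (.nd (.nd (.lf ⟨(nat_lit 10), (nat_lit 1), (nat_lit 0x46046), (nat_lit 4)⟩)
(.lf ⟨(nat_lit 0x40e34e34b), (nat_lit 6), (nat_lit 0xcc1c3307), (nat_lit 6)⟩))
(.lf ⟨(nat_lit 151), (nat_lit 2), (nat_lit 0x19750f2943ca182), (nat_lit 10)⟩))
(.nd (.lf ⟨(nat_lit 0x74c9), (nat_lit 3), (nat_lit 0x2533894ce247), (nat_lit 8)⟩)
(.lf ⟨(nat_lit 0xa3d2), (nat_lit 3), (nat_lit 0x1549548f48f28f), (nat_lit 9)⟩)))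
(.nd (.nd (.lf ⟨(nat_lit 0x81081), (nat_lit 4), (nat_lit 0), (nat_lit 0)⟩)
(.lf ⟨(nat_lit 0xd4d0), (nat_lit 3), (nat_lit 0x10353), (nat_lit 3)⟩))
(.nd (.lf ⟨(nat_lit 0xa5d4294), (nat_lit 5), (nat_lit 0x1429750a), (nat_lit 5)⟩)
(.lf ⟨(nat_lit 0x1240e40e), (nat_lit 5), (nat_lit 0x60e40360e403), (nat_lit 8)⟩))))
(.nd (.nd (.nd (.lf ⟨(nat_lit 0x242049081), (nat_lit 6), (nat_lit 0x42241089), (nat_lit 6)⟩)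
(.lf ⟨(nat_lit 0x284284), (nat_lit 4), (nat_lit 0x284284), (nat_lit 4)⟩))
(.nd (.lf ⟨(nat_lit 339), (nat_lit 2), (nat_lit 0x4c5), (nat_lit 2)⟩)
(.lf ⟨(nat_lit 0), (nat_lit 0), (nat_lit 0x30220c088), (nat_lit 6)⟩)))
(.nd (.nd (.lf ⟨(nat_lit 528), (nat_lit 2), (nat_lit 0x31030d30d308), (nat_lit 8)⟩)
(.lf ⟨(nat_lit 0xa48f), (nat_lit 3), (nat_lit 0xf48a), (nat_lit 3)⟩))
(.nd (.lf ⟨(nat_lit 0x30b30c2cc), (nat_lit 6), (nat_lit 0), (nat_lit 0)⟩)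
(.lf ⟨(nat_lit 0x606058181), (nat_lit 6), (nat_lit 0x606058181), (nat_lit 6)⟩)))))
(.nd (.nd (.nd (.nd (.nd (.lf ⟨(nat_lit 0x555), (nat_lit 2), (nat_lit 0), (nat_lit 0)⟩)
(.lf ⟨(nat_lit 0x18388388), (nat_lit 5), (nat_lit 0x54261140e30838854261140e308388), (nat_lit 20)⟩))
(.lf ⟨(nat_lit 0xa34c), (nat_lit 3), (nat_lit 0x1051650c55034c35459431528d), (nat_lit 17)⟩))
(.nd (.lf ⟨(nat_lit 277), (nat_lit 2), (nat_lit 0x544), (nat_lit 2)⟩)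
(.lf ⟨(nat_lit 87), (nat_lit 2), (nat_lit 0x5d25544954943d23ca38a50f38a50f281), (nat_lit 22)⟩)))
(.nd (.nd (.lf ⟨(nat_lit 0x388388), (nat_lit 4), (nat_lit 0x20e20e), (nat_lit 4)⟩)
(.lf ⟨(nat_lit 6), (nat_lit 1), (nat_lit 0xca083282), (nat_lit 6)⟩))
(.nd (.lf ⟨(nat_lit 0x50f), (nat_lit 2), (nat_lit 0x38908e242), (nat_lit 6)⟩)
(.lf ⟨(nat_lit 0x4289), (nat_lit 3), (nat_lit 0x5c910a), (nat_lit 4)⟩))))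
(.nd (.nd (.nd (.lf ⟨(nat_lit 0x4188), (nat_lit 3), (nat_lit 0x6206106), (nat_lit 5)⟩)
(.lf ⟨(nat_lit 0x284284), (nat_lit 4), (nat_lit 0x30428c10a), (nat_lit 6)⟩))
(.nd (.lf ⟨(nat_lit 327), (nat_lit 2), (nat_lit 0x4d21c5), (nat_lit 4)⟩)
(.lf ⟨(nat_lit 0xd48f), (nat_lit 3), (nat_lit 0x143d149449148f48f352), (nat_lit 13)⟩)))
(.nd (.nd (.lf ⟨(nat_lit 0x38120e048), (nat_lit 6), (nat_lit 0x20e048381), (nat_lit 6)⟩)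
(.lf ⟨(nat_lit 17), (nat_lit 1), (nat_lit 0x341341), (nat_lit 4)⟩))
(.nd (.lf ⟨(nat_lit 0x10d3cd5563c434f35558f), (nat_lit 14), (nat_lit 0x10d3cd5563c434f35558f), (nat_lit 14)⟩)
(.lf ⟨(nat_lit 0x18e308), (nat_lit 4), (nat_lit 0x5952c838a20b2882ca20e2882c638c), (nat_lit 20)⟩))))))
(.nd (.nd (.nd (.nd (.nd (.nd (.lf ⟨(nat_lit 70), (nat_lit 2), (nat_lit 0xa181), (nat_lit 3)⟩)
(.lf ⟨(nat_lit 0xd120e2063860d120e206386), (nat_lit 16), (nat_lit 0xd120e2063860d120e206386), (nat_lit 16)⟩))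
(.lf ⟨(nat_lit 0x3d33d3), (nat_lit 4), (nat_lit 0x5935945944d44d45944d651358f4cf), (nat_lit 20)⟩))
(.nd (.lf ⟨(nat_lit 215), (nat_lit 2), (nat_lit 0x5c3), (nat_lit 2)⟩)
(.lf ⟨(nat_lit 0x510510), (nat_lit 4), (nat_lit 0x414414), (nat_lit 4)⟩)))
(.nd (.nd (.lf ⟨(nat_lit 0x305305), (nat_lit 4), (nat_lit 0x14c14c), (nat_lit 4)⟩)
(.lf ⟨(nat_lit 0xce18e183386386), (nat_lit 10), (nat_lit 0xce18e183386386), (nat_lit 10)⟩))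
(.nd (.lf ⟨(nat_lit 0x495495), (nat_lit 4), (nat_lit 0x552552), (nat_lit 4)⟩)
(.lf ⟨(nat_lit 139), (nat_lit 2), (nat_lit 0x144914902ca10a102), (nat_lit 11)⟩))))
(.nd (.nd (.nd (.lf ⟨(nat_lit 0x954f), (nat_lit 3), (nat_lit 0xf54f54f549), (nat_lit 7)⟩)
(.lf ⟨(nat_lit 333), (nat_lit 2), (nat_lit 0x1228928919751238a50f30a2cf2943ca58f2943ca58b58c3cd4d630b58d2d630f35358c2d634638c3ce34c2cf2943ca58f2943ca58b58c3cd4d630b58d2d630f35358c2d634638c185), (nat_lit 97)⟩))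
(.nd (.lf ⟨(nat_lit 0x304304), (nat_lit 4), (nat_lit 0), (nat_lit 0)⟩)
(.lf ⟨(nat_lit 0xa24a24e10a4ce284), (nat_lit 11), (nat_lit 0xe10a4ce284289289), (nat_lit 11)⟩)))
(.nd (.nd (.lf ⟨(nat_lit 278), (nat_lit 2), (nat_lit 0x584), (nat_lit 2)⟩)
(.lf ⟨(nat_lit 0x390390), (nat_lit 4), (nat_lit 0x4d05135944d64ce40e), (nat_lit 12)⟩))
(.nd (.lf ⟨(nat_lit 0x48d48d212352348), (nat_lit 10), (nat_lit 0x20848d48d208212352348), (nat_lit 14)⟩)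
(.lf ⟨(nat_lit 0x838c), (nat_lit 3), (nat_lit 0xc20e), (nat_lit 3)⟩)))))
(.nd (.nd (.nd (.nd (.lf ⟨(nat_lit 390), (nat_lit 2), (nat_lit 0), (nat_lit 0)⟩)
(.lf ⟨(nat_lit 0xc81c3207), (nat_lit 6), (nat_lit 0xc81c3207), (nat_lit 6)⟩))
(.nd (.lf ⟨(nat_lit 0x8614), (nat_lit 3), (nat_lit 0x1851630f3163c8), (nat_lit 9)⟩)
(.lf ⟨(nat_lit 0x111404450), (nat_lit 6), (nat_lit 0x111404450), (nat_lit 6)⟩)))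
(.nd (.nd (.lf ⟨(nat_lit 529), (nat_lit 2), (nat_lit 0x44c34c348), (nat_lit 6)⟩)
(.lf ⟨(nat_lit 0), (nat_lit 0), (nat_lit 0xc90c9), (nat_lit 4)⟩))
(.nd (.lf ⟨(nat_lit 0x9589316309), (nat_lit 7), (nat_lit 0x1624c58c249), (nat_lit 7)⟩)
(.lf ⟨(nat_lit 0x458), (nat_lit 2), (nat_lit 0x611), (nat_lit 2)⟩))))
(.nd (.nd (.nd (.lf ⟨(nat_lit 0x351351), (nat_lit 4), (nat_lit 0x44d44d), (nat_lit 4)⟩)
(.lf ⟨(nat_lit 402), (nat_lit 2), (nat_lit 0x38a50e2923ca50f286), (nat_lit 12)⟩))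
(.nd (.lf ⟨(nat_lit 466), (nat_lit 2), (nat_lit 0x487), (nat_lit 2)⟩)
(.lf ⟨(nat_lit 0xc3d2), (nat_lit 3), (nat_lit 0x185926123d25903d33ce40f4ce30f), (nat_lit 19)⟩)))
(.nd (.nd (.lf ⟨(nat_lit 914), (nat_lit 2), (nat_lit 0x48e), (nat_lit 2)⟩)
(.lf ⟨(nat_lit 0), (nat_lit 0), (nat_lit 0x204204), (nat_lit 4)⟩))
(.nd (.lf ⟨(nat_lit 0x5614), (nat_lit 3), (nat_lit 0x1429750e19750e29751238a4865d438a158), (nat_lit 23)⟩)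
(.lf ⟨(nat_lit 529), (nat_lit 2), (nat_lit 0x44e34e348), (nat_lit 6)⟩)))))))
(.nd (.nd (.nd (.nd (.nd (.nd (.nd (.lf ⟨(nat_lit 325), (nat_lit 2), (nat_lit 0), (nat_lit 0)⟩)
(.lf ⟨(nat_lit 0), (nat_lit 0), (nat_lit 0x546511546511), (nat_lit 8)⟩))
(.lf ⟨(nat_lit 262), (nat_lit 2), (nat_lit 0x3cd184), (nat_lit 4)⟩))
(.nd (.lf ⟨(nat_lit 405), (nat_lit 2), (nat_lit 0x546), (nat_lit 2)⟩)
(.lf ⟨(nat_lit 461), (nat_lit 2), (nat_lit 0x34b20b207), (nat_lit 6)⟩)))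
(.nd (.nd (.lf ⟨(nat_lit 0x4c44c4), (nat_lit 4), (nat_lit 0x113113), (nat_lit 4)⟩)
(.lf ⟨(nat_lit 0x2813ca3ca04f28f), (nat_lit 10), (nat_lit 0x3ca3ca04f28f281), (nat_lit 10)⟩))
(.nd (.lf ⟨(nat_lit 0x20a38b), (nat_lit 4), (nat_lit 0x28e2ca38b20e2ca), (nat_lit 10)⟩)
(.lf ⟨(nat_lit 977), (nat_lit 2), (nat_lit 0x59259244f), (nat_lit 6)⟩))))
(.nd (.nd (.nd (.lf ⟨(nat_lit 142), (nat_lit 2), (nat_lit 0x93c950f38f24f242), (nat_lit 11)⟩)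
(.lf ⟨(nat_lit 0x2943d1), (nat_lit 4), (nat_lit 0x44d50d28f), (nat_lit 6)⟩))
(.nd (.lf ⟨(nat_lit 0x24a254089289502), (nat_lit 10), (nat_lit 0x50224a254089289), (nat_lit 10)⟩)
(.lf ⟨(nat_lit 0x154154), (nat_lit 4), (nat_lit 0x154154), (nat_lit 4)⟩)))
(.nd (.nd (.lf ⟨(nat_lit 84), (nat_lit 2), (nat_lit 0x3893c950f38f50f38f24f24e24f2543ce3d43ce3c93c93893c950f38f50f38f50f38f24f241), (nat_lit 50)⟩)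
(.lf ⟨(nat_lit 0xb3d0), (nat_lit 3), (nat_lit 0xd4cd30f40f30d4cd2cf), (nat_lit 13)⟩))
(.nd (.lf ⟨(nat_lit 0x1cf2cf2c73cb3cb), (nat_lit 10), (nat_lit 0x1cf2cf2c73cb3cb), (nat_lit 10)⟩)
(.lf ⟨(nat_lit 653), (nat_lit 2), (nat_lit 0x3cd38c3cd38d2cc2ca), (nat_lit 12)⟩)))))
(.nd (.nd (.nd (.nd (.nd (.lf ⟨(nat_lit 0x101101), (nat_lit 4), (nat_lit 0x44044), (nat_lit 4)⟩)
(.lf ⟨(nat_lit 80), (nat_lit 2), (nat_lit 0x401), (nat_lit 2)⟩))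
(.lf ⟨(nat_lit 0x184cb60b), (nat_lit 5), (nat_lit 0x6042d810b), (nat_lit 6)⟩))
(.nd (.lf ⟨(nat_lit 339), (nat_lit 2), (nat_lit 0x2ce2d24d2385), (nat_lit 8)⟩)
(.lf ⟨(nat_lit 88), (nat_lit 2), (nat_lit 0x6133d33c1), (nat_lit 6)⟩)))
(.nd (.nd (.lf ⟨(nat_lit 0x8134204d), (nat_lit 6), (nat_lit 0x34204d081), (nat_lit 6)⟩)
(.lf ⟨(nat_lit 0x515515), (nat_lit 4), (nat_lit 0x5d55d55d55d4554), (nat_lit 10)⟩))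
(.nd (.lf ⟨(nat_lit 0), (nat_lit 0), (nat_lit 0x1c84c81c84c8), (nat_lit 8)⟩)
(.lf ⟨(nat_lit 727), (nat_lit 2), (nat_lit 0x5cb), (nat_lit 2)⟩))))
(.nd (.nd (.nd (.lf ⟨(nat_lit 0x1c81c8), (nat_lit 4), (nat_lit 0x207207), (nat_lit 4)⟩)
(.lf ⟨(nat_lit 721), (nat_lit 2), (nat_lit 0x49135348d4cb), (nat_lit 8)⟩))
(.nd (.lf ⟨(nat_lit 0), (nat_lit 0), (nat_lit 520), (nat_lit 2)⟩)
(.lf ⟨(nat_lit 0xf4d23d2), (nat_lit 5), (nat_lit 0x164d23d34963d3), (nat_lit 9)⟩)))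
(.nd (.nd (.lf ⟨(nat_lit 0x2433890ce), (nat_lit 6), (nat_lit 0x3890ce243), (nat_lit 6)⟩)
(.lf ⟨(nat_lit 0), (nat_lit 0), (nat_lit 0x38924e249), (nat_lit 6)⟩))
(.nd (.lf ⟨(nat_lit 0x4286), (nat_lit 3), (nat_lit 0xf34610a), (nat_lit 5)⟩)
(.lf ⟨(nat_lit 0x18e30a), (nat_lit 4), (nat_lit 0x28638c), (nat_lit 4)⟩))))))
(.nd (.nd (.nd (.nd (.nd (.nd (.lf ⟨(nat_lit 0xcc0cc), (nat_lit 4), (nat_lit 0x303303), (nat_lit 4)⟩)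
(.lf ⟨(nat_lit 464), (nat_lit 2), (nat_lit 0x407), (nat_lit 2)⟩))
(.lf ⟨(nat_lit 0x754c54c), (nat_lit 5), (nat_lit 0xc1d5315), (nat_lit 5)⟩))
(.nd (.lf ⟨(nat_lit 0x724748e), (nat_lit 5), (nat_lit 0xb38b487247), (nat_lit 7)⟩)
(.lf ⟨(nat_lit 0x4296), (nat_lit 3), (nat_lit 0x1140a58a45010a), (nat_lit 9)⟩)))
(.nd (.nd (.lf ⟨(nat_lit 524), (nat_lit 2), (nat_lit 776), (nat_lit 2)⟩)
(.lf ⟨(nat_lit 0x38d4d635338e35358d4ce), (nat_lit 14), (nat_lit 0), (nat_lit 0)⟩))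
(.nd (.lf ⟨(nat_lit 7), (nat_lit 1), (nat_lit 0x101101), (nat_lit 4)⟩)
(.lf ⟨(nat_lit 654), (nat_lit 2), (nat_lit 906), (nat_lit 2)⟩))))
(.nd (.nd (.nd (.lf ⟨(nat_lit 0x202202), (nat_lit 4), (nat_lit 0), (nat_lit 0)⟩)
(.lf ⟨(nat_lit 0x289289), (nat_lit 4), (nat_lit 0x2432890ca), (nat_lit 6)⟩))
(.nd (.lf ⟨(nat_lit 466), (nat_lit 2), (nat_lit 0x4d24cb4cb4c7), (nat_lit 8)⟩)
(.lf ⟨(nat_lit 129), (nat_lit 2), (nat_lit 0x1858f4cf58f4cc3c9309081), (nat_lit 15)⟩)))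
(.nd (.nd (.lf ⟨(nat_lit 0x286286), (nat_lit 4), (nat_lit 0), (nat_lit 0)⟩)
(.lf ⟨(nat_lit 0x754c), (nat_lit 3), (nat_lit 0x153151d5), (nat_lit 5)⟩))
(.nd (.lf ⟨(nat_lit 214), (nat_lit 2), (nat_lit 0x34f35558f34f34f34f3553c3), (nat_lit 16)⟩)
(.lf ⟨(nat_lit 0x8389), (nat_lit 3), (nat_lit 0x58920e), (nat_lit 4)⟩)))))
(.nd (.nd (.nd (.nd (.lf ⟨(nat_lit 0x1c21c2), (nat_lit 4), (nat_lit 0x87087), (nat_lit 4)⟩)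
(.lf ⟨(nat_lit 0x1ca4d2), (nat_lit 4), (nat_lit 0x29348a1ca), (nat_lit 6)⟩))
(.nd (.lf ⟨(nat_lit 0x630a), (nat_lit 3), (nat_lit 0xa18c), (nat_lit 3)⟩)
(.lf ⟨(nat_lit 0x838d48e348), (nat_lit 7), (nat_lit 0x20e20320e203), (nat_lit 8)⟩)))
(.nd (.nd (.lf ⟨(nat_lit 0x1431c31431c3), (nat_lit 8), (nat_lit 0xc71430c7143), (nat_lit 8)⟩)
(.lf ⟨(nat_lit 335), (nat_lit 2), (nat_lit 0x5d25523d250f48f28f38a48a50f38a50e29254e28f38a4953ca24a18e24a48f2943ca185), (nat_lit 48)⟩))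
(.nd (.lf ⟨(nat_lit 0x7187190), (nat_lit 5), (nat_lit 0x101c61c6), (nat_lit 5)⟩)
(.lf ⟨(nat_lit 912), (nat_lit 2), (nat_lit 0x4d240f4d23ce), (nat_lit 8)⟩))))
(.nd (.nd (.nd (.lf ⟨(nat_lit 0x108082108082), (nat_lit 8), (nat_lit 0x88084088084), (nat_lit 8)⟩)
(.lf ⟨(nat_lit 0x2943d1), (nat_lit 4), (nat_lit 0x50f44f28f), (nat_lit 6)⟩))
(.nd (.lf ⟨(nat_lit 0x8b50b502), (nat_lit 6), (nat_lit 0x8b09408b094), (nat_lit 8)⟩)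
(.lf ⟨(nat_lit 0x28e293), (nat_lit 4), (nat_lit 0x4ca38a), (nat_lit 4)⟩)))
(.nd (.nd (.lf ⟨(nat_lit 147), (nat_lit 2), (nat_lit 0x86144ce214382), (nat_lit 9)⟩)
(.lf ⟨(nat_lit 0x11595), (nat_lit 3), (nat_lit 0x16551), (nat_lit 3)⟩))
(.nd (.lf ⟨(nat_lit 0x4d8), (nat_lit 2), (nat_lit 0x613), (nat_lit 2)⟩)
(.lf ⟨(nat_lit 0x14450284284), (nat_lit 7), (nat_lit 0x54b0952c2), (nat_lit 6)⟩)))))))))
(.nd (.nd (.nd (.nd (.nd (.nd (.nd (.nd (.nd (.lf ⟨(nat_lit 6), (nat_lit 1), (nat_lit 0x83083), (nat_lit 4)⟩)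
(.lf ⟨(nat_lit 80), (nat_lit 2), (nat_lit 0x61740a20e28818e181), (nat_lit 12)⟩))
(.lf ⟨(nat_lit 146), (nat_lit 2), (nat_lit 0x65d448f38a50f286382), (nat_lit 13)⟩))
(.nd (.lf ⟨(nat_lit 88), (nat_lit 2), (nat_lit 0x1d8507501), (nat_lit 6)⟩)
(.lf ⟨(nat_lit 0x8490), (nat_lit 3), (nat_lit 0x1034c34c212), (nat_lit 7)⟩)))
(.nd (.nd (.lf ⟨(nat_lit 0x204103204103), (nat_lit 8), (nat_lit 0xc42040c4204), (nat_lit 8)⟩)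
(.lf ⟨(nat_lit 0xe412390), (nat_lit 5), (nat_lit 0x104d25135944d64ce40e), (nat_lit 13)⟩))
(.nd (.lf ⟨(nat_lit 0x3ca5d42943ca5d4294), (nat_lit 12), (nat_lit 0x3ca5d42943ca5d4294), (nat_lit 12)⟩)
(.lf ⟨(nat_lit 340), (nat_lit 2), (nat_lit 0x4943d23c5), (nat_lit 6)⟩))))
(.nd (.nd (.nd (.lf ⟨(nat_lit 0x144144), (nat_lit 4), (nat_lit 0x105105), (nat_lit 4)⟩)
(.lf ⟨(nat_lit 0), (nat_lit 0), (nat_lit 0x302302), (nat_lit 4)⟩))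
(.nd (.lf ⟨(nat_lit 88), (nat_lit 2), (nat_lit 0x50f61458c3cc1d61c1), (nat_lit 12)⟩)
(.lf ⟨(nat_lit 0x54d31530d), (nat_lit 6), (nat_lit 0x20c18c188306306), (nat_lit 10)⟩)))
(.nd (.nd (.lf ⟨(nat_lit 0x1c42031c4203), (nat_lit 8), (nat_lit 0xc81c40c81c4), (nat_lit 8)⟩)
(.lf ⟨(nat_lit 0x29228f), (nat_lit 4), (nat_lit 0x48f48a48a), (nat_lit 6)⟩))
(.nd (.lf ⟨(nat_lit 782), (nat_lit 2), (nat_lit 0x58e316), (nat_lit 4)⟩)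
(.lf ⟨(nat_lit 0x638d), (nat_lit 3), (nat_lit 0xe34e18e), (nat_lit 5)⟩)))))
(.nd (.nd (.nd (.nd (.nd (.lf ⟨(nat_lit 0x4f04f), (nat_lit 4), (nat_lit 0x3c13c1), (nat_lit 4)⟩)
(.lf ⟨(nat_lit 8), (nat_lit 1), (nat_lit 0x115084542), (nat_lit 6)⟩))
(.lf ⟨(nat_lit 0x30f30d), (nat_lit 4), (nat_lit 0x6165153cd50f35851535458c3cc), (nat_lit 18)⟩))
(.nd (.lf ⟨(nat_lit 274), (nat_lit 2), (nat_lit 0x484), (nat_lit 2)⟩)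
(.lf ⟨(nat_lit 403), (nat_lit 2), (nat_lit 0x44f44f4d13d344f4cd2cc3cd30b3c6), (nat_lit 20)⟩)))
(.nd (.nd (.lf ⟨(nat_lit 0x288288), (nat_lit 4), (nat_lit 0x20a20a), (nat_lit 4)⟩)
(.lf ⟨(nat_lit 151), (nat_lit 2), (nat_lit 0x5d43ca50f282), (nat_lit 8)⟩))
(.nd (.lf ⟨(nat_lit 984), (nat_lit 2), (nat_lit 0x61651650f), (nat_lit 6)⟩)
(.lf ⟨(nat_lit 850), (nat_lit 2), (nat_lit 0x48d), (nat_lit 2)⟩))))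
(.nd (.nd (.nd (.lf ⟨(nat_lit 0x141105044), (nat_lit 6), (nat_lit 0x105044141), (nat_lit 6)⟩)
(.lf ⟨(nat_lit 18), (nat_lit 1), (nat_lit 0xce0ce), (nat_lit 4)⟩))
(.nd (.lf ⟨(nat_lit 75), (nat_lit 2), (nat_lit 0x4d22c1), (nat_lit 4)⟩)
(.lf ⟨(nat_lit 0xc3d1), (nat_lit 3), (nat_lit 0xf44f30f), (nat_lit 5)⟩)))
(.nd (.nd (.lf ⟨(nat_lit 0x73cc), (nat_lit 3), (nat_lit 0xf30f1cf), (nat_lit 5)⟩)
(.lf ⟨(nat_lit 0xc2c718c1c62cc2c6306), (nat_lit 13), (nat_lit 0xb30b18c18c2c718c1c6), (nat_lit 13)⟩))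
(.nd (.lf ⟨(nat_lit 586), (nat_lit 2), (nat_lit 0x65d448e19448e3c53c5289), (nat_lit 15)⟩)
(.lf ⟨(nat_lit 0x14c28614c), (nat_lit 6), (nat_lit 0x61730a20e28818e18530a185), (nat_lit 16)⟩))))))
(.nd (.nd (.nd (.nd (.nd (.nd (.lf ⟨(nat_lit 585), (nat_lit 2), (nat_lit 0), (nat_lit 0)⟩)
(.lf ⟨(nat_lit 0x18593), (nat_lit 3), (nat_lit 0x11840d2c461034b), (nat_lit 10)⟩))
(.lf ⟨(nat_lit 532), (nat_lit 2), (nat_lit 0x59458f30f308), (nat_lit 8)⟩))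
(.nd (.lf ⟨(nat_lit 598), (nat_lit 2), (nat_lit 0x589), (nat_lit 2)⟩)
(.lf ⟨(nat_lit 0), (nat_lit 0), (nat_lit 0x5c30d70c3), (nat_lit 6)⟩)))
(.nd (.nd (.lf ⟨(nat_lit 0x3c210f084), (nat_lit 6), (nat_lit 0x10f0843c2), (nat_lit 6)⟩)
(.lf ⟨(nat_lit 18), (nat_lit 1), (nat_lit 0x383383), (nat_lit 4)⟩))
(.nd (.lf ⟨(nat_lit 0x395155385), (nat_lit 6), (nat_lit 0x395385395385), (nat_lit 8)⟩)
(.lf ⟨(nat_lit 0xb511), (nat_lit 3), (nat_lit 0x124522d4), (nat_lit 5)⟩))))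
(.nd (.nd (.nd (.lf ⟨(nat_lit 148), (nat_lit 2), (nat_lit 0x24f24e3d424f24e24f2543ce3d43ce24f242), (nat_lit 24)⟩)
(.lf ⟨(nat_lit 0x3d33d3), (nat_lit 4), (nat_lit 0x5944d64d651358f4cf), (nat_lit 12)⟩))
(.nd (.lf ⟨(nat_lit 0xa50f28f), (nat_lit 5), (nat_lit 0xf2943ca), (nat_lit 5)⟩)
(.lf ⟨(nat_lit 0xe10a4ce284), (nat_lit 7), (nat_lit 0x10a10e10a10e), (nat_lit 8)⟩)))
(.nd (.nd (.lf ⟨(nat_lit 213), (nat_lit 2), (nat_lit 0x543), (nat_lit 2)⟩)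
(.lf ⟨(nat_lit 791), (nat_lit 2), (nat_lit 0x5105d440c), (nat_lit 6)⟩))
(.nd (.lf ⟨(nat_lit 0x488488), (nat_lit 4), (nat_lit 0x208488208488), (nat_lit 8)⟩)
(.lf ⟨(nat_lit 918), (nat_lit 2), (nat_lit 0x58e), (nat_lit 2)⟩)))))
(.nd (.nd (.nd (.nd (.lf ⟨(nat_lit 76), (nat_lit 2), (nat_lit 0x81021c830420408710c201), (nat_lit 15)⟩)
(.lf ⟨(nat_lit 0x440c34c), (nat_lit 5), (nat_lit 0x51650c24c25030d304), (nat_lit 12)⟩))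
(.nd (.lf ⟨(nat_lit 85), (nat_lit 2), (nat_lit 0x55238a48e19238648a38a24a241), (nat_lit 18)⟩)
(.lf ⟨(nat_lit 340), (nat_lit 2), (nat_lit 0x5123d23ce2943ce2943c5), (nat_lit 14)⟩)))
(.nd (.nd (.lf ⟨(nat_lit 0x1c4081047102041), (nat_lit 10), (nat_lit 0x420471010811c4), (nat_lit 10)⟩)
(.lf ⟨(nat_lit 0x409309409309), (nat_lit 8), (nat_lit 0x31030940c24c40c250309), (nat_lit 14)⟩))
(.nd (.lf ⟨(nat_lit 0x589316309), (nat_lit 6), (nat_lit 0x20c24c248309309), (nat_lit 10)⟩)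
(.lf ⟨(nat_lit 0x38b450), (nat_lit 4), (nat_lit 0x45038b), (nat_lit 4)⟩))))
(.nd (.nd (.nd (.lf ⟨(nat_lit 0x401401), (nat_lit 4), (nat_lit 0x50050), (nat_lit 4)⟩)
(.lf ⟨(nat_lit 792), (nat_lit 2), (nat_lit 0x60c), (nat_lit 2)⟩))
(.nd (.lf ⟨(nat_lit 464), (nat_lit 2), (nat_lit 0x40c2cc2c7), (nat_lit 6)⟩)
(.lf ⟨(nat_lit 272), (nat_lit 2), (nat_lit 0x1840f30f304), (nat_lit 7)⟩)))
(.nd (.nd (.lf ⟨(nat_lit 214), (nat_lit 2), (nat_lit 0xd20958f34620654f243), (nat_lit 13)⟩)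
(.lf ⟨(nat_lit 0xd10d1), (nat_lit 4), (nat_lit 0xd10d1), (nat_lit 4)⟩))
(.nd (.lf ⟨(nat_lit 917), (nat_lit 2), (nat_lit 0x4953d23ce), (nat_lit 6)⟩)
(.lf ⟨(nat_lit 469), (nat_lit 2), (nat_lit 0x54d30d30b20e20b20e207), (nat_lit 14)⟩)))))))
(.nd (.nd (.nd (.nd (.nd (.nd (.nd (.lf ⟨(nat_lit 22), (nat_lit 1), (nat_lit 0x10f10f), (nat_lit 4)⟩)
(.lf ⟨(nat_lit 80), (nat_lit 2), (nat_lit 0x1740e18e181), (nat_lit 7)⟩))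
(.lf ⟨(nat_lit 0x930b), (nat_lit 3), (nat_lit 0x164d64164d640c2cc24c), (nat_lit 13)⟩))
(.nd (.lf ⟨(nat_lit 393), (nat_lit 2), (nat_lit 0x15246), (nat_lit 3)⟩)
(.lf ⟨(nat_lit 0x20e208388), (nat_lit 6), (nat_lit 0), (nat_lit 0)⟩)))
(.nd (.nd (.lf ⟨(nat_lit 0x811c40811c4), (nat_lit 8), (nat_lit 0x107081107081), (nat_lit 8)⟩)
(.lf ⟨(nat_lit 0x292292), (nat_lit 4), (nat_lit 0x48a48a), (nat_lit 4)⟩))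
(.nd (.lf ⟨(nat_lit 0x10a38b), (nat_lit 4), (nat_lit 0x28e2ca10a), (nat_lit 6)⟩)
(.lf ⟨(nat_lit 0x6308), (nat_lit 3), (nat_lit 0x165503d03c818c), (nat_lit 9)⟩))))
(.nd (.nd (.nd (.lf ⟨(nat_lit 0x381381), (nat_lit 4), (nat_lit 0x4e04e), (nat_lit 4)⟩)
(.lf ⟨(nat_lit 0x28f34a3cd), (nat_lit 6), (nat_lit 0x3cd28f34a), (nat_lit 6)⟩))
(.nd (.lf ⟨(nat_lit 0x502502), (nat_lit 4), (nat_lit 0), (nat_lit 0)⟩)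
(.lf ⟨(nat_lit 0xc550), (nat_lit 3), (nat_lit 0x10315), (nat_lit 3)⟩)))
(.nd (.nd (.lf ⟨(nat_lit 140), (nat_lit 2), (nat_lit 770), (nat_lit 2)⟩)
(.lf ⟨(nat_lit 0x135d4), (nat_lit 3), (nat_lit 0x165135d6), (nat_lit 5)⟩))
(.nd (.lf ⟨(nat_lit 0x3c91cf247), (nat_lit 6), (nat_lit 0x3c91cf247), (nat_lit 6)⟩)
(.lf ⟨(nat_lit 530), (nat_lit 2), (nat_lit 0x48f30f2cc2c8), (nat_lit 8)⟩)))))
(.nd (.nd (.nd (.nd (.nd (.lf ⟨(nat_lit 195), (nat_lit 2), (nat_lit 0), (nat_lit 0)⟩)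
(.lf ⟨(nat_lit 396), (nat_lit 2), (nat_lit 774), (nat_lit 2)⟩))
(.lf ⟨(nat_lit 0x44b44b44b44b), (nat_lit 8), (nat_lit 0), (nat_lit 0)⟩))
(.nd (.lf ⟨(nat_lit 467), (nat_lit 2), (nat_lit 0x4c7), (nat_lit 2)⟩)
(.lf ⟨(nat_lit 0xc550), (nat_lit 3), (nat_lit 0x1340c553), (nat_lit 5)⟩)))
(.nd (.nd (.lf ⟨(nat_lit 0x349349), (nat_lit 4), (nat_lit 0x24d24d), (nat_lit 4)⟩)
(.lf ⟨(nat_lit 0x14557), (nat_lit 3), (nat_lit 0x17557557515), (nat_lit 7)⟩))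
(.nd (.lf ⟨(nat_lit 0x516516), (nat_lit 4), (nat_lit 0x594594), (nat_lit 4)⟩)
(.lf ⟨(nat_lit 0x50c18350c183), (nat_lit 8), (nat_lit 0x18350c18350c), (nat_lit 8)⟩))))
(.nd (.nd (.nd (.lf ⟨(nat_lit 0x188188), (nat_lit 4), (nat_lit 0x206206), (nat_lit 4)⟩)
(.lf ⟨(nat_lit 0x8291), (nat_lit 3), (nat_lit 0x1654a44d29634c34c54a34a20a), (nat_lit 17)⟩))
(.nd (.lf ⟨(nat_lit 723), (nat_lit 2), (nat_lit 0x4cb), (nat_lit 2)⟩)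
(.lf ⟨(nat_lit 0xc3cd30d), (nat_lit 5), (nat_lit 0xf34c3cd30f), (nat_lit 7)⟩)))
(.nd (.nd (.lf ⟨(nat_lit 0x1833060cc), (nat_lit 6), (nat_lit 0x3060cc183), (nat_lit 6)⟩)
(.lf ⟨(nat_lit 0x828d), (nat_lit 3), (nat_lit 0xa34a20a), (nat_lit 5)⟩))
(.nd (.lf ⟨(nat_lit 406), (nat_lit 2), (nat_lit 0x58f34f346), (nat_lit 6)⟩)
(.lf ⟨(nat_lit 530), (nat_lit 2), (nat_lit 0x48d30d308), (nat_lit 6)⟩))))))
(.nd (.nd (.nd (.nd (.nd (.nd (.lf ⟨(nat_lit 73), (nat_lit 2), (nat_lit 0xe241), (nat_lit 3)⟩)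
(.lf ⟨(nat_lit 781), (nat_lit 2), (nat_lit 844), (nat_lit 2)⟩))
(.lf ⟨(nat_lit 0x1d51c7547), (nat_lit 6), (nat_lit 0), (nat_lit 0)⟩))
(.nd (.lf ⟨(nat_lit 0x1c920b), (nat_lit 4), (nat_lit 0x34b34b20b207248), (nat_lit 10)⟩)
(.lf ⟨(nat_lit 658), (nat_lit 2), (nat_lit 0x55254a), (nat_lit 4)⟩)))
(.nd (.nd (.lf ⟨(nat_lit 0x18e18e), (nat_lit 4), (nat_lit 0x386386), (nat_lit 4)⟩)
(.lf ⟨(nat_lit 0xe35358d4ce), (nat_lit 7), (nat_lit 0x38d38910e34e244), (nat_lit 10)⟩))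
(.nd (.lf ⟨(nat_lit 0x1844443563cd59558f11110d58f3565563c611110d58f3565563c44443563cd59558f), (nat_lit 46), (nat_lit 0x1844443563cd59558f11110d58f3565563c611110d58f3565563c44443563cd59558f), (nat_lit 46)⟩)
(.lf ⟨(nat_lit 0x5d8), (nat_lit 2), (nat_lit 0x617), (nat_lit 2)⟩))))
(.nd (.nd (.nd (.lf ⟨(nat_lit 213), (nat_lit 2), (nat_lit 0x3d53d53d53c3), (nat_lit 8)⟩)
(.lf ⟨(nat_lit 0), (nat_lit 0), (nat_lit 0x3d23cf48f), (nat_lit 6)⟩))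
(.nd (.lf ⟨(nat_lit 0x48e50948e509), (nat_lit 8), (nat_lit 0x50948e50948e), (nat_lit 8)⟩)
(.lf ⟨(nat_lit 0x58f4cc3c9309), (nat_lit 8), (nat_lit 0x24c20724c207), (nat_lit 8)⟩)))
(.nd (.nd (.lf ⟨(nat_lit 269), (nat_lit 2), (nat_lit 0x348188246209188189206209206204), (nat_lit 20)⟩)
(.lf ⟨(nat_lit 0x141301286141301286), (nat_lit 12), (nat_lit 0x286301141286301141), (nat_lit 12)⟩))
(.nd (.lf ⟨(nat_lit 141), (nat_lit 2), (nat_lit 0x3cd5563c2), (nat_lit 6)⟩)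
(.lf ⟨(nat_lit 912), (nat_lit 2), (nat_lit 0x40e), (nat_lit 2)⟩)))))
(.nd (.nd (.nd (.nd (.lf ⟨(nat_lit 0x142142), (nat_lit 4), (nat_lit 0x85085), (nat_lit 4)⟩)
(.lf ⟨(nat_lit 0x287287), (nat_lit 4), (nat_lit 0x1ca1ca), (nat_lit 4)⟩))
(.nd (.lf ⟨(nat_lit 0x19228e), (nat_lit 4), (nat_lit 0x29238a48e19238a), (nat_lit 10)⟩)
(.lf ⟨(nat_lit 0x638b), (nat_lit 3), (nat_lit 0xf44d30f44f4d13d344f34c3cd30d2c638c), (nat_lit 23)⟩)))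
(.nd (.nd (.lf ⟨(nat_lit 0x188103188103), (nat_lit 8), (nat_lit 0xc81060c8106), (nat_lit 8)⟩)
(.lf ⟨(nat_lit 0x30f30d), (nat_lit 4), (nat_lit 0x61654f44f45859544f44f34c3cc), (nat_lit 18)⟩))
(.nd (.lf ⟨(nat_lit 0x30b30b), (nat_lit 4), (nat_lit 0x1d01d0), (nat_lit 4)⟩)
(.lf ⟨(nat_lit 465), (nat_lit 2), (nat_lit 0x4d244f4cd30f30b30848c34c2cc2c82c7), (nat_lit 22)⟩))))
(.nd (.nd (.nd (.lf ⟨(nat_lit 198), (nat_lit 2), (nat_lit 387), (nat_lit 2)⟩)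
(.lf ⟨(nat_lit 335), (nat_lit 2), (nat_lit 0x50f48e29751238a48a50e2923ca50f2953ce29438a48a50f38a50e2923ca50f2953ce29438a48f2943ca54a50f24a18e24a48f2943ca185), (nat_lit 74)⟩))
(.nd (.lf ⟨(nat_lit 0x8b3cb3c2), (nat_lit 6), (nat_lit 0x8b08f08b08f), (nat_lit 8)⟩)
(.lf ⟨(nat_lit 0x1433c91433c9), (nat_lit 8), (nat_lit 0x3c91433c9143), (nat_lit 8)⟩)))
(.nd (.nd (.lf ⟨(nat_lit 144), (nat_lit 2), (nat_lit 0x30640c182), (nat_lit 6)⟩)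
(.lf ⟨(nat_lit 0), (nat_lit 0), (nat_lit 0x30108c042), (nat_lit 6)⟩))
(.nd (.lf ⟨(nat_lit 531), (nat_lit 2), (nat_lit 0x59330f31458f3144d63d33cc588), (nat_lit 18)⟩)
(.lf ⟨(nat_lit 469), (nat_lit 2), (nat_lit 0x54e34e347), (nat_lit 6)⟩))))))))
(.nd (.nd (.nd (.nd (.nd (.nd (.nd (.nd (.lf ⟨(nat_lit 14), (nat_lit 1), (nat_lit 0x49049), (nat_lit 4)⟩)
(.lf ⟨(nat_lit 0x838b), (nat_lit 3), (nat_lit 0x60b20e), (nat_lit 4)⟩))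
(.lf ⟨(nat_lit 87), (nat_lit 2), (nat_lit 0x50e19750e29751238a4865d4381), (nat_lit 18)⟩))
(.nd (.lf ⟨(nat_lit 0x8614214), (nat_lit 5), (nat_lit 0x14218508), (nat_lit 5)⟩)
(.lf ⟨(nat_lit 0x4ce2814ce281), (nat_lit 8), (nat_lit 0x2814ce2814ce), (nat_lit 8)⟩)))
(.nd (.nd (.lf ⟨(nat_lit 0x310310), (nat_lit 4), (nat_lit 0x40c40c), (nat_lit 4)⟩)
(.lf ⟨(nat_lit 0x940c3cd), (nat_lit 5), (nat_lit 0x135944d65135933d33cc3cd4d64cd4cd2cc54c2cc250315), (nat_lit 31)⟩))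
(.nd (.lf ⟨(nat_lit 8), (nat_lit 1), (nat_lit 0x102102), (nat_lit 4)⟩)
(.lf ⟨(nat_lit 0), (nat_lit 0), (nat_lit 0x60e60e), (nat_lit 4)⟩))))
(.nd (.nd (.nd (.lf ⟨(nat_lit 0x2430490c1), (nat_lit 6), (nat_lit 0x432410c9), (nat_lit 6)⟩)
(.lf ⟨(nat_lit 0x10a24a244289289), (nat_lit 10), (nat_lit 0x10a24a244289289), (nat_lit 10)⟩))
(.nd (.lf ⟨(nat_lit 0x285285), (nat_lit 4), (nat_lit 0), (nat_lit 0)⟩)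
(.lf ⟨(nat_lit 0x40c55355340c40c55355340c), (nat_lit 16), (nat_lit 0), (nat_lit 0)⟩)))
(.nd (.nd (.lf ⟨(nat_lit 71), (nat_lit 2), (nat_lit 449), (nat_lit 2)⟩)
(.lf ⟨(nat_lit 0x5614), (nat_lit 3), (nat_lit 0x142925123ca48e28e29438a50f38a50e29250f38a50f158), (nat_lit 31)⟩))
(.nd (.lf ⟨(nat_lit 0x30b30930b309), (nat_lit 8), (nat_lit 0x30b30930b309), (nat_lit 8)⟩)
(.lf ⟨(nat_lit 0x1654c), (nat_lit 3), (nat_lit 0xc595), (nat_lit 3)⟩)))))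
(.nd (.nd (.nd (.nd (.nd (.lf ⟨(nat_lit 271), (nat_lit 2), (nat_lit 0x163c4), (nat_lit 3)⟩)
(.lf ⟨(nat_lit 86), (nat_lit 2), (nat_lit 0x581), (nat_lit 2)⟩))
(.lf ⟨(nat_lit 0x828d), (nat_lit 3), (nat_lit 0x1034c35459431540d30d51650c54a34a20a), (nat_lit 23)⟩))
(.nd (.lf ⟨(nat_lit 0x215595), (nat_lit 4), (nat_lit 0x3563cd54d58f348556), (nat_lit 12)⟩)
(.lf ⟨(nat_lit 0x390390), (nat_lit 4), (nat_lit 0x40e40e), (nat_lit 4)⟩)))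
(.nd (.nd (.lf ⟨(nat_lit 0x1832060c8), (nat_lit 6), (nat_lit 0x2060c8183), (nat_lit 6)⟩)
(.lf ⟨(nat_lit 0x28228d20a24a24828a08a34828928920a), (nat_lit 22), (nat_lit 0x28228d20a24a24828a08a34828928920a), (nat_lit 22)⟩))
(.nd (.lf ⟨(nat_lit 0x38918e24650f), (nat_lit 8), (nat_lit 0x50f38918e246), (nat_lit 8)⟩)
(.lf ⟨(nat_lit 0x10a2c9), (nat_lit 4), (nat_lit 0x5d32c910a), (nat_lit 6)⟩))))
(.nd (.nd (.nd (.lf ⟨(nat_lit 0x147147), (nat_lit 4), (nat_lit 0x1c51c5), (nat_lit 4)⟩)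
(.lf ⟨(nat_lit 0x30f34630630f346306), (nat_lit 12), (nat_lit 0), (nat_lit 0)⟩))
(.nd (.lf ⟨(nat_lit 0), (nat_lit 0), (nat_lit 0xc50c5), (nat_lit 4)⟩)
(.lf ⟨(nat_lit 0x18c198), (nat_lit 4), (nat_lit 0x61634c54c34818c206), (nat_lit 12)⟩)))
(.nd (.nd (.lf ⟨(nat_lit 0x30124c049), (nat_lit 6), (nat_lit 0x24c049301), (nat_lit 6)⟩)
(.lf ⟨(nat_lit 0), (nat_lit 0), (nat_lit 845), (nat_lit 2)⟩))
(.nd (.lf ⟨(nat_lit 0xd34f35558f), (nat_lit 7), (nat_lit 0xd3cd5563cd), (nat_lit 7)⟩)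
(.lf ⟨(nat_lit 0x60f388388), (nat_lit 6), (nat_lit 0x932424c9), (nat_lit 6)⟩))))))
(.nd (.nd (.nd (.nd (.nd (.nd (.lf ⟨(nat_lit 0x48048), (nat_lit 4), (nat_lit 0x201201), (nat_lit 4)⟩)
(.lf ⟨(nat_lit 779), (nat_lit 2), (nat_lit 716), (nat_lit 2)⟩))
(.lf ⟨(nat_lit 0x10a2c9), (nat_lit 4), (nat_lit 0xa4ce24728e2ca1ca10a), (nat_lit 13)⟩))
(.nd (.lf ⟨(nat_lit 529), (nat_lit 2), (nat_lit 0x44d30d308), (nat_lit 6)⟩)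
(.lf ⟨(nat_lit 0x132c9), (nat_lit 3), (nat_lit 0xc71031c4), (nat_lit 6)⟩)))
(.nd (.nd (.lf ⟨(nat_lit 0x3c53c5), (nat_lit 4), (nat_lit 0x14f14f), (nat_lit 4)⟩)
(.lf ⟨(nat_lit 407), (nat_lit 2), (nat_lit 0x5c6), (nat_lit 2)⟩))
(.nd (.lf ⟨(nat_lit 0x5552155), (nat_lit 5), (nat_lit 0x12552155485), (nat_lit 7)⟩)
(.lf ⟨(nat_lit 0x3903d3), (nat_lit 4), (nat_lit 0x3d33ce40f), (nat_lit 6)⟩))))
(.nd (.nd (.nd (.lf ⟨(nat_lit 780), (nat_lit 2), (nat_lit 0), (nat_lit 0)⟩)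
(.lf ⟨(nat_lit 0xa34c), (nat_lit 3), (nat_lit 0x1058c55058d30d31528d), (nat_lit 13)⟩))
(.nd (.lf ⟨(nat_lit 0x30e30e), (nat_lit 4), (nat_lit 0x38c38c), (nat_lit 4)⟩)
(.lf ⟨(nat_lit 0), (nat_lit 0), (nat_lit 0x20b20920b209), (nat_lit 8)⟩)))
(.nd (.nd (.lf ⟨(nat_lit 330), (nat_lit 2), (nat_lit 645), (nat_lit 2)⟩)
(.lf ⟨(nat_lit 85), (nat_lit 2), (nat_lit 0x55429250f2943d23ca50f38a50e29251228f38a5125523d238a3ce29250a5125523d238a3ce29238a50f386389289181), (nat_lit 64)⟩))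
(.nd (.lf ⟨(nat_lit 0x212212), (nat_lit 4), (nat_lit 0x488488), (nat_lit 4)⟩)
(.lf ⟨(nat_lit 403), (nat_lit 2), (nat_lit 0x4ce34e30d306), (nat_lit 8)⟩)))))
(.nd (.nd (.nd (.nd (.lf ⟨(nat_lit 0x1c11c1), (nat_lit 4), (nat_lit 0x47047), (nat_lit 4)⟩)
(.lf ⟨(nat_lit 0x2074081d0), (nat_lit 6), (nat_lit 0x2074081d0), (nat_lit 6)⟩))
(.nd (.lf ⟨(nat_lit 0x4288), (nat_lit 3), (nat_lit 0x728828710a), (nat_lit 7)⟩)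
(.lf ⟨(nat_lit 0x212391352), (nat_lit 6), (nat_lit 0x48e44d49034e20e40d), (nat_lit 12)⟩)))
(.nd (.nd (.lf ⟨(nat_lit 0x1c41431c4143), (nat_lit 8), (nat_lit 0xc51c40c51c4), (nat_lit 8)⟩)
(.lf ⟨(nat_lit 0), (nat_lit 0), (nat_lit 0x255255), (nat_lit 4)⟩))
(.nd (.lf ⟨(nat_lit 0x1638c38c), (nat_lit 5), (nat_lit 0xe30e316), (nat_lit 5)⟩)
(.lf ⟨(nat_lit 0x457), (nat_lit 2), (nat_lit 0x5d1), (nat_lit 2)⟩))))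
(.nd (.nd (.nd (.lf ⟨(nat_lit 0x596), (nat_lit 2), (nat_lit 0), (nat_lit 0)⟩)
(.lf ⟨(nat_lit 146), (nat_lit 2), (nat_lit 0x1229751238a48a50e2923ce28f38a48f2943ca50e18e182), (nat_lit 31)⟩))
(.nd (.lf ⟨(nat_lit 0x1c61c6), (nat_lit 4), (nat_lit 0x1c61c6), (nat_lit 4)⟩)
(.lf ⟨(nat_lit 216), (nat_lit 2), (nat_lit 0x603), (nat_lit 2)⟩)))
(.nd (.nd (.lf ⟨(nat_lit 784), (nat_lit 2), (nat_lit 0x40c), (nat_lit 2)⟩)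
(.lf ⟨(nat_lit 0x450450), (nat_lit 4), (nat_lit 0), (nat_lit 0)⟩))
(.nd (.lf ⟨(nat_lit 919), (nat_lit 2), (nat_lit 0x49751250e), (nat_lit 6)⟩)
(.lf ⟨(nat_lit 716), (nat_lit 2), (nat_lit 0x38d38d30b), (nat_lit 6)⟩)))))))
(.nd (.nd (.nd (.nd (.nd (.nd (.nd (.lf ⟨(nat_lit 131), (nat_lit 2), (nat_lit 0x60c2), (nat_lit 3)⟩)
(.lf ⟨(nat_lit 139), (nat_lit 2), (nat_lit 0x102c7187182), (nat_lit 7)⟩))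
(.lf ⟨(nat_lit 214), (nat_lit 2), (nat_lit 0x583), (nat_lit 2)⟩))
(.nd (.lf ⟨(nat_lit 534), (nat_lit 2), (nat_lit 0x256248), (nat_lit 4)⟩)
(.lf ⟨(nat_lit 0xb3d3), (nat_lit 3), (nat_lit 0x165113d14d651358f4d13d14d65135944d63d32cf), (nat_lit 27)⟩)))
(.nd (.nd (.lf ⟨(nat_lit 0x584584), (nat_lit 4), (nat_lit 0x116116), (nat_lit 4)⟩)
(.lf ⟨(nat_lit 535), (nat_lit 2), (nat_lit 0x3575153d03153d051130f44d30f308), (nat_lit 20)⟩))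
(.nd (.lf ⟨(nat_lit 0x20e2ca), (nat_lit 4), (nat_lit 0x28e2c8), (nat_lit 4)⟩)
(.lf ⟨(nat_lit 0x838b20a), (nat_lit 5), (nat_lit 0xb28b20e2c8), (nat_lit 7)⟩))))
(.nd (.nd (.nd (.lf ⟨(nat_lit 0x2030880c2), (nat_lit 6), (nat_lit 0x832020c8), (nat_lit 6)⟩)
(.lf ⟨(nat_lit 790), (nat_lit 2), (nat_lit 0x58c), (nat_lit 2)⟩))
(.nd (.lf ⟨(nat_lit 0x502281502281), (nat_lit 8), (nat_lit 0x281502281502), (nat_lit 8)⟩)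
(.lf ⟨(nat_lit 0x28e294), (nat_lit 4), (nat_lit 0x50a38a), (nat_lit 4)⟩)))
(.nd (.nd (.lf ⟨(nat_lit 81), (nat_lit 2), (nat_lit 0x441), (nat_lit 2)⟩)
(.lf ⟨(nat_lit 0x45c5), (nat_lit 3), (nat_lit 0xe2c5117), (nat_lit 5)⟩))
(.nd (.lf ⟨(nat_lit 0), (nat_lit 0), (nat_lit 0x243243), (nat_lit 4)⟩)
(.lf ⟨(nat_lit 0x838d), (nat_lit 3), (nat_lit 0xe34e20e), (nat_lit 5)⟩)))))
(.nd (.nd (.nd (.nd (.lf ⟨(nat_lit 134), (nat_lit 2), (nat_lit 0xc60c60c60c2), (nat_lit 8)⟩)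
(.lf ⟨(nat_lit 0x36132c7), (nat_lit 5), (nat_lit 0x6132d82c70d8), (nat_lit 8)⟩))
(.nd (.lf ⟨(nat_lit 600), (nat_lit 2), (nat_lit 0x609), (nat_lit 2)⟩)
(.lf ⟨(nat_lit 0x28d48f), (nat_lit 4), (nat_lit 0x48f48f3523d234a352), (nat_lit 12)⟩)))
(.nd (.nd (.lf ⟨(nat_lit 0x3c20c13c20c1), (nat_lit 8), (nat_lit 0x433c20433c2), (nat_lit 8)⟩)
(.lf ⟨(nat_lit 335), (nat_lit 2), (nat_lit 0x5d551550f49448f38a50f2953ce29438a48a50f38a50e2923ca50f2953ce29438a48f2943ca54a50f24a18e24a48f2943ca185), (nat_lit 68)⟩))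
(.nd (.lf ⟨(nat_lit 0x2132073484cd4c81cd2133532084c81cd2133532073484cd4c8), (nat_lit 34), (nat_lit 0x2132073484cd4c81cd2133532084c81cd2133532073484cd4c8), (nat_lit 34)⟩)
(.lf ⟨(nat_lit 0x838b20a), (nat_lit 5), (nat_lit 0xa20e2c8), (nat_lit 5)⟩))))
(.nd (.nd (.nd (.lf ⟨(nat_lit 0x209209), (nat_lit 4), (nat_lit 0x248248), (nat_lit 4)⟩)
(.lf ⟨(nat_lit 0x4d4), (nat_lit 2), (nat_lit 0x5944d6), (nat_lit 4)⟩))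
(.nd (.lf ⟨(nat_lit 0x2cc2cc), (nat_lit 4), (nat_lit 0x1d030b30740c2cc), (nat_lit 10)⟩)
(.lf ⟨(nat_lit 0x638b), (nat_lit 3), (nat_lit 0x116116133d33cc2c638c), (nat_lit 13)⟩)))
(.nd (.nd (.lf ⟨(nat_lit 0x202141202141), (nat_lit 8), (nat_lit 0x141202141202), (nat_lit 8)⟩)
(.lf ⟨(nat_lit 0x38d38d38d38d), (nat_lit 8), (nat_lit 0x38934e34e24d38d), (nat_lit 10)⟩))
(.nd (.lf ⟨(nat_lit 0xc3cc58f), (nat_lit 5), (nat_lit 0x183cc3cc616), (nat_lit 7)⟩)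
(.lf ⟨(nat_lit 0x1338d38d), (nat_lit 5), (nat_lit 0x2cf3442cf344), (nat_lit 8)⟩))))))
(.nd (.nd (.nd (.nd (.nd (.nd (.lf ⟨(nat_lit 0x451), (nat_lit 2), (nat_lit 0), (nat_lit 0)⟩)
(.lf ⟨(nat_lit 144), (nat_lit 2), (nat_lit 0x1840e20e202), (nat_lit 7)⟩))
(.lf ⟨(nat_lit 0x4063d018f), (nat_lit 6), (nat_lit 0x3d018f406), (nat_lit 6)⟩))
(.nd (.lf ⟨(nat_lit 327), (nat_lit 2), (nat_lit 0xb4c724738b247493385), (nat_lit 13)⟩)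
(.lf ⟨(nat_lit 787), (nat_lit 2), (nat_lit 0x4cc), (nat_lit 2)⟩)))
(.nd (.nd (.lf ⟨(nat_lit 0x1cf1cf), (nat_lit 4), (nat_lit 0x3c73c7), (nat_lit 4)⟩)
(.lf ⟨(nat_lit 335), (nat_lit 2), (nat_lit 0x55751550f49448f38a50f2953ce29438a48a50f38a50e2923ca50f2953ce29438a48f2943ca54a50f24a18e24a48f2943ca185), (nat_lit 68)⟩))
(.nd (.lf ⟨(nat_lit 0x58058), (nat_lit 4), (nat_lit 0x58058), (nat_lit 4)⟩)
(.lf ⟨(nat_lit 146), (nat_lit 2), (nat_lit 0x1748e18e182), (nat_lit 7)⟩))))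
(.nd (.nd (.nd (.lf ⟨(nat_lit 0x10a10a), (nat_lit 4), (nat_lit 0x284284), (nat_lit 4)⟩)
(.lf ⟨(nat_lit 0xa54f295), (nat_lit 5), (nat_lit 0x152953ca), (nat_lit 5)⟩))
(.nd (.lf ⟨(nat_lit 0x546546), (nat_lit 4), (nat_lit 0), (nat_lit 0)⟩)
(.lf ⟨(nat_lit 856), (nat_lit 2), (nat_lit 0x59544f45859544f44d), (nat_lit 12)⟩)))
(.nd (.nd (.lf ⟨(nat_lit 0x301301), (nat_lit 4), (nat_lit 0), (nat_lit 0)⟩)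
(.lf ⟨(nat_lit 0x28d28d), (nat_lit 4), (nat_lit 0x28d0ca343), (nat_lit 6)⟩))
(.nd (.lf ⟨(nat_lit 0x3c53c5), (nat_lit 4), (nat_lit 0x14f14f), (nat_lit 4)⟩)
(.lf ⟨(nat_lit 0x202181202181), (nat_lit 8), (nat_lit 0x46202046202), (nat_lit 8)⟩)))))
(.nd (.nd (.nd (.nd (.lf ⟨(nat_lit 0x242242), (nat_lit 4), (nat_lit 0x89089), (nat_lit 4)⟩)
(.lf ⟨(nat_lit 0x28e2ca38b), (nat_lit 6), (nat_lit 0x38b28e2ca), (nat_lit 6)⟩))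
(.nd (.lf ⟨(nat_lit 0xc3cc594), (nat_lit 5), (nat_lit 0x1651630f316), (nat_lit 7)⟩)
(.lf ⟨(nat_lit 0xc930920e35238d20930920e35238d20324c24838d48e34824c24838d48e348), (nat_lit 42), (nat_lit 0xc930920e35238d20930920e35238d20324c24838d48e34824c24838d48e348), (nat_lit 42)⟩)))
(.nd (.nd (.lf ⟨(nat_lit 0x1c81031c8103), (nat_lit 8), (nat_lit 0xc81070c8107), (nat_lit 8)⟩)
(.lf ⟨(nat_lit 0x289289), (nat_lit 4), (nat_lit 0x24a24a), (nat_lit 4)⟩))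
(.nd (.lf ⟨(nat_lit 907), (nat_lit 2), (nat_lit 0x105105), (nat_lit 4)⟩)
(.lf ⟨(nat_lit 0x486486), (nat_lit 4), (nat_lit 0), (nat_lit 0)⟩))))
(.nd (.nd (.nd (.lf ⟨(nat_lit 0x402402), (nat_lit 4), (nat_lit 0x90090), (nat_lit 4)⟩)
(.lf ⟨(nat_lit 0x940c3cd), (nat_lit 5), (nat_lit 0x135944d65135933d33cc3cd4cb3154d04d640c2cc250315), (nat_lit 31)⟩))
(.nd (.lf ⟨(nat_lit 0x2cf2cf), (nat_lit 4), (nat_lit 0x3cb3cb), (nat_lit 4)⟩)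
(.lf ⟨(nat_lit 0x54e), (nat_lit 2), (nat_lit 0x38a38a395), (nat_lit 6)⟩)))
(.nd (.nd (.lf ⟨(nat_lit 0x394394), (nat_lit 4), (nat_lit 0x50e50e), (nat_lit 4)⟩)
(.lf ⟨(nat_lit 0), (nat_lit 0), (nat_lit 0x4c14c141305305), (nat_lit 10)⟩))
(.nd (.lf ⟨(nat_lit 0x30f30f), (nat_lit 4), (nat_lit 0x58f30f316), (nat_lit 6)⟩)
(.lf ⟨(nat_lit 0x54450284284), (nat_lit 8), (nat_lit 0x61720e20638651140a10a101), (nat_lit 16)⟩)))))))))))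
(.nd (.nd (.nd (.nd (.nd (.nd (.nd (.nd (.nd (.nd (.nd (.lf ⟨(nat_lit 130), (nat_lit 2), (nat_lit 0), (nat_lit 0)⟩)
(.lf ⟨(nat_lit 0x511), (nat_lit 2), (nat_lit 0x4f3413cd), (nat_lit 6)⟩))
(.lf ⟨(nat_lit 0x6313), (nat_lit 3), (nat_lit 0xb30f34c4cb3cd18c), (nat_lit 11)⟩))
(.nd (.lf ⟨(nat_lit 86), (nat_lit 2), (nat_lit 0x761458f1d43c1), (nat_lit 9)⟩)
(.lf ⟨(nat_lit 80), (nat_lit 2), (nat_lit 0x40c14c141), (nat_lit 6)⟩)))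
(.nd (.nd (.lf ⟨(nat_lit 0x4d3), (nat_lit 2), (nat_lit 0), (nat_lit 0)⟩)
(.lf ⟨(nat_lit 0x30f30d), (nat_lit 4), (nat_lit 0x6165153d150f45859455150f44f34c3cc), (nat_lit 22)⟩))
(.nd (.lf ⟨(nat_lit 0xa54f28f), (nat_lit 5), (nat_lit 0x2833ca0cf), (nat_lit 6)⟩)
(.lf ⟨(nat_lit 0x20e2ca), (nat_lit 4), (nat_lit 0x48f48f38a2c8), (nat_lit 8)⟩))))
(.nd (.nd (.nd (.lf ⟨(nat_lit 203), (nat_lit 2), (nat_lit 0x1cb1cb1cb1c3), (nat_lit 8)⟩)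
(.lf ⟨(nat_lit 15), (nat_lit 1), (nat_lit 0x242242), (nat_lit 4)⟩))
(.nd (.lf ⟨(nat_lit 0x20b213), (nat_lit 4), (nat_lit 0x34b34b4cd2cd2c82c8), (nat_lit 12)⟩)
(.lf ⟨(nat_lit 403), (nat_lit 2), (nat_lit 0x4cd30f34c34c3cd38c3cd38c3cd30d30f34e30f34e34b30f34e30f34e2c6), (nat_lit 40)⟩)))
(.nd (.nd (.lf ⟨(nat_lit 267), (nat_lit 2), (nat_lit 0x2c91c91c4), (nat_lit 6)⟩)
(.lf ⟨(nat_lit 0x954f2953ca), (nat_lit 7), (nat_lit 0x153ca54f289), (nat_lit 7)⟩))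
(.nd (.lf ⟨(nat_lit 144), (nat_lit 2), (nat_lit 0x40c18c182), (nat_lit 6)⟩)
(.lf ⟨(nat_lit 0x595488488), (nat_lit 6), (nat_lit 0x486212188), (nat_lit 6)⟩)))))
(.nd (.nd (.nd (.nd (.nd (.lf ⟨(nat_lit 0x492), (nat_lit 2), (nat_lit 0), (nat_lit 0)⟩)
(.lf ⟨(nat_lit 80), (nat_lit 2), (nat_lit 0x1840e20e201), (nat_lit 7)⟩))
(.lf ⟨(nat_lit 0x295295), (nat_lit 4), (nat_lit 0x54a54a), (nat_lit 4)⟩))
(.nd (.lf ⟨(nat_lit 261), (nat_lit 2), (nat_lit 0x4cb49348e144), (nat_lit 8)⟩)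
(.lf ⟨(nat_lit 0xc3ce), (nat_lit 3), (nat_lit 0x133d33ce30f), (nat_lit 7)⟩)))
(.nd (.nd (.lf ⟨(nat_lit 0x1821c6087), (nat_lit 6), (nat_lit 0x1c6087182), (nat_lit 6)⟩)
(.lf ⟨(nat_lit 0x638b), (nat_lit 3), (nat_lit 0x164d64cf35330d30f35330d2c638c), (nat_lit 19)⟩))
(.nd (.lf ⟨(nat_lit 0x163d83d8), (nat_lit 5), (nat_lit 0xf60f616), (nat_lit 5)⟩)
(.lf ⟨(nat_lit 341), (nat_lit 2), (nat_lit 0x545), (nat_lit 2)⟩))))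
(.nd (.nd (.nd (.lf ⟨(nat_lit 0x384384), (nat_lit 4), (nat_lit 0x10e10e), (nat_lit 4)⟩)
(.lf ⟨(nat_lit 0xa24a2553c6), (nat_lit 7), (nat_lit 0x153c6289289), (nat_lit 7)⟩))
(.nd (.lf ⟨(nat_lit 0x3c83c8), (nat_lit 4), (nat_lit 0), (nat_lit 0)⟩)
(.lf ⟨(nat_lit 660), (nat_lit 2), (nat_lit 0x5113d148f48f4523d244a), (nat_lit 14)⟩)))
(.nd (.nd (.lf ⟨(nat_lit 0x38118e046), (nat_lit 6), (nat_lit 0x18e046381), (nat_lit 6)⟩)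
(.lf ⟨(nat_lit 0x28d28d28d28d), (nat_lit 8), (nat_lit 0), (nat_lit 0)⟩))
(.nd (.lf ⟨(nat_lit 0x2465d448e19448e2465d448e19448e), (nat_lit 20), (nat_lit 0x2465d448e19448e2465d448e19448e), (nat_lit 20)⟩)
(.lf ⟨(nat_lit 0x6387187), (nat_lit 5), (nat_lit 0x718e1c6), (nat_lit 5)⟩))))))
(.nd (.nd (.nd (.nd (.nd (.nd (.lf ⟨(nat_lit 68), (nat_lit 2), (nat_lit 0x7101), (nat_lit 3)⟩)
(.lf ⟨(nat_lit 0xa185), (nat_lit 3), (nat_lit 0xc2043081), (nat_lit 6)⟩))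
(.lf ⟨(nat_lit 0x554f), (nat_lit 3), (nat_lit 0x50f3865d448e29524a55238929751238a4865d4155), (nat_lit 28)⟩))
(.nd (.lf ⟨(nat_lit 272), (nat_lit 2), (nat_lit 0x30940c244), (nat_lit 6)⟩)
(.lf ⟨(nat_lit 0x452452), (nat_lit 4), (nat_lit 0x491491), (nat_lit 4)⟩)))
(.nd (.nd (.lf ⟨(nat_lit 0x4349), (nat_lit 3), (nat_lit 0xd24d10d), (nat_lit 5)⟩)
(.lf ⟨(nat_lit 151), (nat_lit 2), (nat_lit 0x48a5d448e29229438a4943ca50f282), (nat_lit 20)⟩))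
(.nd (.lf ⟨(nat_lit 0x39538e54e), (nat_lit 6), (nat_lit 0), (nat_lit 0)⟩)
(.lf ⟨(nat_lit 0x10a2c9), (nat_lit 4), (nat_lit 0x1228929348b10a), (nat_lit 9)⟩))))
(.nd (.nd (.nd (.lf ⟨(nat_lit 149), (nat_lit 2), (nat_lit 0x24f2553c91831953d53c954f2553c90c2), (nat_lit 22)⟩)
(.lf ⟨(nat_lit 0x838c), (nat_lit 3), (nat_lit 0x164d63d33cc20e), (nat_lit 9)⟩))
(.nd (.lf ⟨(nat_lit 0x24c249309), (nat_lit 6), (nat_lit 0), (nat_lit 0)⟩)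
(.lf ⟨(nat_lit 0x455), (nat_lit 2), (nat_lit 0x551), (nat_lit 2)⟩)))
(.nd (.nd (.lf ⟨(nat_lit 149), (nat_lit 2), (nat_lit 0x24f54f242), (nat_lit 6)⟩)
(.lf ⟨(nat_lit 0x415), (nat_lit 2), (nat_lit 0x550), (nat_lit 2)⟩))
(.nd (.lf ⟨(nat_lit 0x58d), (nat_lit 2), (nat_lit 854), (nat_lit 2)⟩)
(.lf ⟨(nat_lit 463), (nat_lit 2), (nat_lit 0x3ce20e207), (nat_lit 6)⟩)))))
(.nd (.nd (.nd (.nd (.lf ⟨(nat_lit 0x103103), (nat_lit 4), (nat_lit 0xc40c4), (nat_lit 4)⟩)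
(.lf ⟨(nat_lit 0x14594309309), (nat_lit 7), (nat_lit 0x30824c209), (nat_lit 6)⟩))
(.nd (.lf ⟨(nat_lit 0x3c21013c2101), (nat_lit 8), (nat_lit 0x443c20443c2), (nat_lit 8)⟩)
(.lf ⟨(nat_lit 85), (nat_lit 2), (nat_lit 0x54a38a51238a50f48a38a5123d238a5123d23ce286389289181), (nat_lit 34)⟩)))
(.nd (.nd (.lf ⟨(nat_lit 202), (nat_lit 2), (nat_lit 0x286146143), (nat_lit 6)⟩)
(.lf ⟨(nat_lit 0x515515), (nat_lit 4), (nat_lit 0x554554), (nat_lit 4)⟩))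
(.nd (.lf ⟨(nat_lit 22), (nat_lit 1), (nat_lit 0x248248), (nat_lit 4)⟩)
(.lf ⟨(nat_lit 651), (nat_lit 2), (nat_lit 714), (nat_lit 2)⟩))))
(.nd (.nd (.nd (.lf ⟨(nat_lit 0x107041107041), (nat_lit 8), (nat_lit 0x47044047044), (nat_lit 8)⟩)
(.lf ⟨(nat_lit 0x10593), (nat_lit 3), (nat_lit 0x164d6416), (nat_lit 5)⟩))
(.nd (.lf ⟨(nat_lit 0), (nat_lit 0), (nat_lit 0x307307), (nat_lit 4)⟩)
(.lf ⟨(nat_lit 0x3d03d3), (nat_lit 4), (nat_lit 0x4cf40f), (nat_lit 4)⟩)))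
(.nd (.nd (.lf ⟨(nat_lit 0x1491c9), (nat_lit 4), (nat_lit 0x247247147), (nat_lit 6)⟩)
(.lf ⟨(nat_lit 0x44138d38d38d38d), (nat_lit 10), (nat_lit 0x38d38d38d38d441), (nat_lit 10)⟩))
(.nd (.lf ⟨(nat_lit 0x6309), (nat_lit 3), (nat_lit 0x2cc54c4d04d02cc24c18c), (nat_lit 14)⟩)
(.lf ⟨(nat_lit 0x2c83882c8388), (nat_lit 8), (nat_lit 0x2d83883882d8388388), (nat_lit 12)⟩)))))))
(.nd (.nd (.nd (.nd (.nd (.nd (.nd (.lf ⟨(nat_lit 17), (nat_lit 1), (nat_lit 0x4d04d), (nat_lit 4)⟩)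
(.lf ⟨(nat_lit 144), (nat_lit 2), (nat_lit 0x1740e18e182), (nat_lit 7)⟩))
(.lf ⟨(nat_lit 340), (nat_lit 2), (nat_lit 0x50a5d43865d438a5d448e29219750e285), (nat_lit 22)⟩))
(.nd (.lf ⟨(nat_lit 0x20b209), (nat_lit 4), (nat_lit 0x34b34b2482c8), (nat_lit 8)⟩)
(.lf ⟨(nat_lit 851), (nat_lit 2), (nat_lit 0x4cd), (nat_lit 2)⟩)))
(.nd (.nd (.lf ⟨(nat_lit 0x514), (nat_lit 2), (nat_lit 0), (nat_lit 0)⟩)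
(.lf ⟨(nat_lit 0x728b), (nat_lit 3), (nat_lit 0x1348a4d22ca1ca), (nat_lit 9)⟩))
(.nd (.lf ⟨(nat_lit 0x38b14838b205), (nat_lit 8), (nat_lit 0x108148144205205), (nat_lit 10)⟩)
(.lf ⟨(nat_lit 0xc3d2), (nat_lit 3), (nat_lit 0x163d25903d33ce40f4ce30f), (nat_lit 15)⟩))))
(.nd (.nd (.nd (.lf ⟨(nat_lit 83), (nat_lit 2), (nat_lit 0x24e1091d33842471073891c424e24e24e241), (nat_lit 24)⟩)
(.lf ⟨(nat_lit 973), (nat_lit 2), (nat_lit 0x106106), (nat_lit 4)⟩))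
(.nd (.lf ⟨(nat_lit 0x14d145345), (nat_lit 6), (nat_lit 0), (nat_lit 0)⟩)
(.lf ⟨(nat_lit 0xc553), (nat_lit 3), (nat_lit 0x13315), (nat_lit 3)⟩)))
(.nd (.nd (.lf ⟨(nat_lit 201), (nat_lit 2), (nat_lit 579), (nat_lit 2)⟩)
(.lf ⟨(nat_lit 335), (nat_lit 2), (nat_lit 0x5d25523d250f48f28f38a48a50f38a50e29254e28f38a49538a50f48e24a18e24a185), (nat_lit 46)⟩))
(.nd (.lf ⟨(nat_lit 0x11031341330440c4d04cc), (nat_lit 14), (nat_lit 0x11031341330440c4d04cc), (nat_lit 14)⟩)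
(.lf ⟨(nat_lit 789), (nat_lit 2), (nat_lit 0x54c), (nat_lit 2)⟩)))))
(.nd (.nd (.nd (.nd (.nd (.lf ⟨(nat_lit 212), (nat_lit 2), (nat_lit 0x17503), (nat_lit 3)⟩)
(.lf ⟨(nat_lit 458), (nat_lit 2), (nat_lit 647), (nat_lit 2)⟩))
(.lf ⟨(nat_lit 0x4451d1147), (nat_lit 6), (nat_lit 0x4451d1147), (nat_lit 6)⟩))
(.nd (.lf ⟨(nat_lit 0x4286), (nat_lit 3), (nat_lit 0xf35624819624810a), (nat_lit 11)⟩)
(.lf ⟨(nat_lit 0x12513), (nat_lit 3), (nat_lit 0x13494), (nat_lit 3)⟩)))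
(.nd (.nd (.lf ⟨(nat_lit 0x824d), (nat_lit 3), (nat_lit 0x9349209), (nat_lit 5)⟩)
(.lf ⟨(nat_lit 21), (nat_lit 1), (nat_lit 0xcf0cf), (nat_lit 4)⟩))
(.nd (.lf ⟨(nat_lit 406), (nat_lit 2), (nat_lit 0x58d3cd3cd58f3563563cd586), (nat_lit 16)⟩)
(.lf ⟨(nat_lit 279), (nat_lit 2), (nat_lit 0x5c4), (nat_lit 2)⟩))))
(.nd (.nd (.nd (.lf ⟨(nat_lit 0x245245), (nat_lit 4), (nat_lit 0x149149), (nat_lit 4)⟩)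
(.lf ⟨(nat_lit 0x390592390), (nat_lit 6), (nat_lit 0x4d63d33d04d258f4cf39058e), (nat_lit 16)⟩))
(.nd (.lf ⟨(nat_lit 0x1348b4cb), (nat_lit 5), (nat_lit 0x14b4c914b4c9), (nat_lit 8)⟩)
(.lf ⟨(nat_lit 0x418), (nat_lit 2), (nat_lit 0x610), (nat_lit 2)⟩)))
(.nd (.nd (.lf ⟨(nat_lit 0x428710a), (nat_lit 5), (nat_lit 0x728710a1c4), (nat_lit 7)⟩)
(.lf ⟨(nat_lit 0x1158d31534c), (nat_lit 7), (nat_lit 0x1634c54d311), (nat_lit 7)⟩))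
(.nd (.lf ⟨(nat_lit 0x556), (nat_lit 2), (nat_lit 0x595), (nat_lit 2)⟩)
(.lf ⟨(nat_lit 0), (nat_lit 0), (nat_lit 0x4c94c9), (nat_lit 4)⟩))))))
(.nd (.nd (.nd (.nd (.nd (.nd (.lf ⟨(nat_lit 0xc80c8), (nat_lit 4), (nat_lit 0x203203), (nat_lit 4)⟩)
(.lf ⟨(nat_lit 146), (nat_lit 2), (nat_lit 0x1848e20e202), (nat_lit 7)⟩))
(.lf ⟨(nat_lit 0x930f), (nat_lit 3), (nat_lit 0x1651650c3cc24c), (nat_lit 9)⟩))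
(.nd (.lf ⟨(nat_lit 82), (nat_lit 2), (nat_lit 0x481), (nat_lit 2)⟩)
(.lf ⟨(nat_lit 0xc24cb2424cb2430932c90932c9), (nat_lit 18), (nat_lit 0xc24cb2424cb2430932c90932c9), (nat_lit 18)⟩)))
(.nd (.nd (.lf ⟨(nat_lit 0x520a), (nat_lit 3), (nat_lit 0x8288148), (nat_lit 5)⟩)
(.lf ⟨(nat_lit 0x2943ce28e), (nat_lit 6), (nat_lit 0x38a50f38a), (nat_lit 6)⟩))
(.nd (.lf ⟨(nat_lit 0x111106111106), (nat_lit 8), (nat_lit 0x111106111106), (nat_lit 8)⟩)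
(.lf ⟨(nat_lit 0x496), (nat_lit 2), (nat_lit 0x592), (nat_lit 2)⟩))))
(.nd (.nd (.nd (.lf ⟨(nat_lit 0x343343), (nat_lit 4), (nat_lit 0xcd0cd), (nat_lit 4)⟩)
(.lf ⟨(nat_lit 0x3d23cf48f), (nat_lit 6), (nat_lit 0), (nat_lit 0)⟩))
(.nd (.lf ⟨(nat_lit 0x48e48e), (nat_lit 4), (nat_lit 0), (nat_lit 0)⟩)
(.lf ⟨(nat_lit 535), (nat_lit 2), (nat_lit 0x35754f4d54cc3d130f44d30f308), (nat_lit 18)⟩)))
(.nd (.nd (.lf ⟨(nat_lit 0x154f), (nat_lit 3), (nat_lit 0xf0975153ca18554f54a185081), (nat_lit 17)⟩)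
(.lf ⟨(nat_lit 0x554f), (nat_lit 3), (nat_lit 0x1749550f48a3ce2922943ce29438a49538a3ce29254e2943d2389286389286155), (nat_lit 43)⟩))
(.nd (.lf ⟨(nat_lit 0x488488212352348), (nat_lit 10), (nat_lit 0x212352348488488), (nat_lit 10)⟩)
(.lf ⟨(nat_lit 272), (nat_lit 2), (nat_lit 0x18404), (nat_lit 3)⟩)))))
(.nd (.nd (.nd (.nd (.lf ⟨(nat_lit 0x201201), (nat_lit 4), (nat_lit 0x48048), (nat_lit 4)⟩)
(.lf ⟨(nat_lit 0), (nat_lit 0), (nat_lit 0x282282), (nat_lit 4)⟩))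
(.nd (.lf ⟨(nat_lit 0x2430810c90c2043), (nat_lit 10), (nat_lit 0xc20490c3081243), (nat_lit 10)⟩)
(.lf ⟨(nat_lit 0x14f3453cd), (nat_lit 6), (nat_lit 0x14f3453cd), (nat_lit 6)⟩)))
(.nd (.nd (.lf ⟨(nat_lit 0x4149), (nat_lit 3), (nat_lit 0x914b1c524714b1c9147105), (nat_lit 15)⟩)
(.lf ⟨(nat_lit 0x5d43ca50f286), (nat_lit 8), (nat_lit 0x5545545d43ca50f286), (nat_lit 12)⟩))
(.nd (.lf ⟨(nat_lit 0x31630e), (nat_lit 4), (nat_lit 0x58e58c58c), (nat_lit 6)⟩)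
(.lf ⟨(nat_lit 0x20e20a), (nat_lit 4), (nat_lit 0x288388), (nat_lit 4)⟩))))
(.nd (.nd (.nd (.lf ⟨(nat_lit 209), (nat_lit 2), (nat_lit 0x351345345343), (nat_lit 8)⟩)
(.lf ⟨(nat_lit 85), (nat_lit 2), (nat_lit 0x55238a48a50e2923ca50f2942923ca50f38a50e29250f29428f2942922943ce2943ca50a48f2943ca54f38a50e29250a50f48f2943ca54f38a50e2922943ce28e286389289181), (nat_lit 94)⟩))
(.nd (.lf ⟨(nat_lit 0), (nat_lit 0), (nat_lit 130), (nat_lit 2)⟩)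
(.lf ⟨(nat_lit 0x34e34e), (nat_lit 4), (nat_lit 0x3ce4503913903d139138d38d), (nat_lit 16)⟩)))
(.nd (.nd (.lf ⟨(nat_lit 915), (nat_lit 2), (nat_lit 0x4ce), (nat_lit 2)⟩)
(.lf ⟨(nat_lit 273), (nat_lit 2), (nat_lit 0x38b2123913522cc349309204), (nat_lit 16)⟩))
(.nd (.lf ⟨(nat_lit 536), (nat_lit 2), (nat_lit 0x6163cc58c3c8), (nat_lit 8)⟩)
(.lf ⟨(nat_lit 530), (nat_lit 2), (nat_lit 0x48e34e348), (nat_lit 6)⟩))))))))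
(.nd (.nd (.nd (.nd (.nd (.nd (.nd (.nd (.lf ⟨(nat_lit 9), (nat_lit 1), (nat_lit 0xc40c4), (nat_lit 4)⟩)
(.lf ⟨(nat_lit 0x1844e34e348388), (nat_lit 9), (nat_lit 0x56349056349), (nat_lit 8)⟩))
(.lf ⟨(nat_lit 269), (nat_lit 2), (nat_lit 0x16344), (nat_lit 3)⟩))
(.nd (.lf ⟨(nat_lit 785), (nat_lit 2), (nat_lit 0x44c), (nat_lit 2)⟩)
(.lf ⟨(nat_lit 0x5306), (nat_lit 3), (nat_lit 0xc18c14c), (nat_lit 5)⟩)))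
(.nd (.nd (.lf ⟨(nat_lit 265), (nat_lit 2), (nat_lit 580), (nat_lit 2)⟩)
(.lf ⟨(nat_lit 725), (nat_lit 2), (nat_lit 0x4d035358d4cc5535933d03cc35334b), (nat_lit 20)⟩))
(.nd (.lf ⟨(nat_lit 0x29750a50a5d4294), (nat_lit 10), (nat_lit 0), (nat_lit 0)⟩)
(.lf ⟨(nat_lit 0), (nat_lit 0), (nat_lit 0x81081), (nat_lit 4)⟩))))
(.nd (.nd (.nd (.lf ⟨(nat_lit 0x106106), (nat_lit 4), (nat_lit 0x184184), (nat_lit 4)⟩)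
(.lf ⟨(nat_lit 0), (nat_lit 0), (nat_lit 0x283283), (nat_lit 4)⟩))
(.nd (.lf ⟨(nat_lit 0x4285), (nat_lit 3), (nat_lit 0x2c91d238b4ce2d24d23891d24c510a), (nat_lit 20)⟩)
(.lf ⟨(nat_lit 0x40c18c), (nat_lit 4), (nat_lit 0x3020cc083), (nat_lit 6)⟩)))
(.nd (.nd (.lf ⟨(nat_lit 0x3080cc203), (nat_lit 6), (nat_lit 0xcc203308), (nat_lit 6)⟩)
(.lf ⟨(nat_lit 978), (nat_lit 2), (nat_lit 0x48929228954f2953ca48f), (nat_lit 14)⟩))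
(.nd (.lf ⟨(nat_lit 0), (nat_lit 0), (nat_lit 0x141141), (nat_lit 4)⟩)
(.lf ⟨(nat_lit 0x595), (nat_lit 2), (nat_lit 0x606218188), (nat_lit 6)⟩)))))
(.nd (.nd (.nd (.nd (.nd (.lf ⟨(nat_lit 0xcf0cf), (nat_lit 4), (nat_lit 0x3c33c3), (nat_lit 4)⟩)
(.lf ⟨(nat_lit 0x11845038c20e20461140e308388), (nat_lit 18), (nat_lit 0x11845038c20e20461140e308388), (nat_lit 18)⟩))
(.lf ⟨(nat_lit 0x29348a4d2), (nat_lit 6), (nat_lit 0x4d229348a), (nat_lit 6)⟩))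
(.nd (.lf ⟨(nat_lit 527), (nat_lit 2), (nat_lit 968), (nat_lit 2)⟩)
(.lf ⟨(nat_lit 0x5614), (nat_lit 3), (nat_lit 0x155122944954943d23ca38a50f38a50f158), (nat_lit 23)⟩)))
(.nd (.nd (.lf ⟨(nat_lit 0x20b20b), (nat_lit 4), (nat_lit 0x2c82c8), (nat_lit 4)⟩)
(.lf ⟨(nat_lit 340), (nat_lit 2), (nat_lit 0x50a49448f28f38a48f38a50e2943ce29438a4943ce2943c5), (nat_lit 32)⟩))
(.nd (.lf ⟨(nat_lit 0x38918e246), (nat_lit 6), (nat_lit 0x38918e246), (nat_lit 6)⟩)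
(.lf ⟨(nat_lit 586), (nat_lit 2), (nat_lit 0x17289), (nat_lit 3)⟩))))
(.nd (.nd (.nd (.lf ⟨(nat_lit 0x182106084), (nat_lit 6), (nat_lit 0x106084182), (nat_lit 6)⟩)
(.lf ⟨(nat_lit 0x30f346306), (nat_lit 6), (nat_lit 0x30418c106), (nat_lit 6)⟩))
(.nd (.lf ⟨(nat_lit 718), (nat_lit 2), (nat_lit 907), (nat_lit 2)⟩)
(.lf ⟨(nat_lit 0x3d23d1), (nat_lit 4), (nat_lit 0x49444f4525124523d2), (nat_lit 12)⟩)))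
(.nd (.nd (.lf ⟨(nat_lit 0x828c), (nat_lit 3), (nat_lit 0xa30a20a), (nat_lit 5)⟩)
(.lf ⟨(nat_lit 0x386386), (nat_lit 4), (nat_lit 0x18e18e), (nat_lit 4)⟩))
(.nd (.lf ⟨(nat_lit 0x34f35558f), (nat_lit 6), (nat_lit 0x342342), (nat_lit 4)⟩)
(.lf ⟨(nat_lit 145), (nat_lit 2), (nat_lit 0x61744838818e182), (nat_lit 10)⟩))))))
(.nd (.nd (.nd (.nd (.nd (.nd (.lf ⟨(nat_lit 650), (nat_lit 2), (nat_lit 0), (nat_lit 0)⟩)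
(.lf ⟨(nat_lit 0x1120e206386), (nat_lit 7), (nat_lit 0x8b08b), (nat_lit 4)⟩))
(.lf ⟨(nat_lit 0x30f30f), (nat_lit 4), (nat_lit 0x3cc3cc), (nat_lit 4)⟩))
(.nd (.lf ⟨(nat_lit 0x640c190), (nat_lit 5), (nat_lit 0x10190306), (nat_lit 5)⟩)
(.lf ⟨(nat_lit 0), (nat_lit 0), (nat_lit 0x5c35c3), (nat_lit 4)⟩)))
(.nd (.nd (.lf ⟨(nat_lit 394), (nat_lit 2), (nat_lit 646), (nat_lit 2)⟩)
(.lf ⟨(nat_lit 0x386386), (nat_lit 4), (nat_lit 0x386386), (nat_lit 4)⟩))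
(.nd (.lf ⟨(nat_lit 0x39549548e39549548e), (nat_lit 12), (nat_lit 0), (nat_lit 0)⟩)
(.lf ⟨(nat_lit 0x39140f391), (nat_lit 6), (nat_lit 0x4964d259344e4503ce), (nat_lit 12)⟩))))
(.nd (.nd (.nd (.lf ⟨(nat_lit 0x2430890c2), (nat_lit 6), (nat_lit 0x890c2243), (nat_lit 6)⟩)
(.lf ⟨(nat_lit 209), (nat_lit 2), (nat_lit 0x1135228928919751238a50f30a2cf2943ca58f2943ca58b58c3cd4d630b58d2d630f35358c2d634638c3ce34c2cf2943ca58f2943ca58b58c3cd4d630b58d2d630f35358c2d634638c183), (nat_lit 99)⟩))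
(.nd (.lf ⟨(nat_lit 0x493493), (nat_lit 4), (nat_lit 0x4d24d2), (nat_lit 4)⟩)
(.lf ⟨(nat_lit 0), (nat_lit 0), (nat_lit 910), (nat_lit 2)⟩)))
(.nd (.nd (.lf ⟨(nat_lit 275), (nat_lit 2), (nat_lit 0x4c4), (nat_lit 2)⟩)
(.lf ⟨(nat_lit 786), (nat_lit 2), (nat_lit 0x5925903d33ce40f4cf38c), (nat_lit 14)⟩))
(.nd (.lf ⟨(nat_lit 0x212352348), (nat_lit 6), (nat_lit 0x21220d21220d), (nat_lit 8)⟩)
(.lf ⟨(nat_lit 782), (nat_lit 2), (nat_lit 908), (nat_lit 2)⟩)))))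
(.nd (.nd (.nd (.nd (.lf ⟨(nat_lit 0xc50c5), (nat_lit 4), (nat_lit 0x143143), (nat_lit 4)⟩)
(.lf ⟨(nat_lit 0x4d22c5), (nat_lit 4), (nat_lit 0xc70431c1), (nat_lit 6)⟩))
(.nd (.lf ⟨(nat_lit 0x81244042049101), (nat_lit 10), (nat_lit 0x49102041244081), (nat_lit 10)⟩)
(.lf ⟨(nat_lit 0), (nat_lit 0), (nat_lit 0x108108), (nat_lit 4)⟩)))
(.nd (.nd (.lf ⟨(nat_lit 0x34804d201), (nat_lit 6), (nat_lit 0x4d201348), (nat_lit 6)⟩)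
(.lf ⟨(nat_lit 0x5d43ca50f286), (nat_lit 8), (nat_lit 0xd4083502), (nat_lit 6)⟩))
(.nd (.lf ⟨(nat_lit 0x316316), (nat_lit 4), (nat_lit 0x58c58c), (nat_lit 4)⟩)
(.lf ⟨(nat_lit 724), (nat_lit 2), (nat_lit 0x51245244b), (nat_lit 6)⟩))))
(.nd (.nd (.nd (.lf ⟨(nat_lit 0x441441), (nat_lit 4), (nat_lit 0x51051), (nat_lit 4)⟩)
(.lf ⟨(nat_lit 725), (nat_lit 2), (nat_lit 0x4d035358d4cc54f4135933cc35334b), (nat_lit 20)⟩))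
(.nd (.lf ⟨(nat_lit 261), (nat_lit 2), (nat_lit 0x38b144), (nat_lit 4)⟩)
(.lf ⟨(nat_lit 660), (nat_lit 2), (nat_lit 0x49448a), (nat_lit 4)⟩)))
(.nd (.nd (.lf ⟨(nat_lit 0x4189), (nat_lit 3), (nat_lit 0x6246106), (nat_lit 5)⟩)
(.lf ⟨(nat_lit 0x450), (nat_lit 2), (nat_lit 0x205205), (nat_lit 4)⟩))
(.nd (.lf ⟨(nat_lit 0x14557515), (nat_lit 5), (nat_lit 0x155d4554), (nat_lit 5)⟩)
(.lf ⟨(nat_lit 0x20b20e), (nat_lit 4), (nat_lit 0x3882c8), (nat_lit 4)⟩)))))))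
(.nd (.nd (.nd (.nd (.nd (.nd (.nd (.lf ⟨(nat_lit 0x43043), (nat_lit 4), (nat_lit 0xc10c1), (nat_lit 4)⟩)
(.lf ⟨(nat_lit 0x38d38d1c61c6), (nat_lit 8), (nat_lit 0x5461d5187), (nat_lit 6)⟩))
(.lf ⟨(nat_lit 335), (nat_lit 2), (nat_lit 0x143ce19751238a54929548e24a5d448e292197505), (nat_lit 27)⟩))
(.nd (.lf ⟨(nat_lit 338), (nat_lit 2), (nat_lit 0x485), (nat_lit 2)⟩)
(.lf ⟨(nat_lit 717), (nat_lit 2), (nat_lit 843), (nat_lit 2)⟩)))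
(.nd (.nd (.lf ⟨(nat_lit 0x110110), (nat_lit 4), (nat_lit 0x404404), (nat_lit 4)⟩)
(.lf ⟨(nat_lit 0x3ca3cf28f), (nat_lit 6), (nat_lit 0), (nat_lit 0)⟩))
(.nd (.lf ⟨(nat_lit 0x284284205205), (nat_lit 8), (nat_lit 0x205205284284), (nat_lit 8)⟩)
(.lf ⟨(nat_lit 0x11496), (nat_lit 3), (nat_lit 0x12592452), (nat_lit 5)⟩))))
(.nd (.nd (.nd (.lf ⟨(nat_lit 0x3c13c1), (nat_lit 4), (nat_lit 0x4f04f), (nat_lit 4)⟩)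
(.lf ⟨(nat_lit 0x128610a3cd28610a), (nat_lit 11), (nat_lit 0xa18428f34a184281), (nat_lit 11)⟩))
(.nd (.lf ⟨(nat_lit 0x24a249289), (nat_lit 6), (nat_lit 0), (nat_lit 0)⟩)
(.lf ⟨(nat_lit 0x38a38a), (nat_lit 4), (nat_lit 0x38128e04a), (nat_lit 6)⟩)))
(.nd (.nd (.lf ⟨(nat_lit 205), (nat_lit 2), (nat_lit 835), (nat_lit 2)⟩)
(.lf ⟨(nat_lit 0xb513), (nat_lit 3), (nat_lit 0x164d62d4), (nat_lit 5)⟩))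
(.nd (.lf ⟨(nat_lit 0x3cb3cb), (nat_lit 4), (nat_lit 0x3c92cf24b), (nat_lit 6)⟩)
(.lf ⟨(nat_lit 0x728d), (nat_lit 3), (nat_lit 0xb28d20b20a1ca), (nat_lit 9)⟩)))))
(.nd (.nd (.nd (.nd (.nd (.lf ⟨(nat_lit 260), (nat_lit 2), (nat_lit 0), (nat_lit 0)⟩)
(.lf ⟨(nat_lit 332), (nat_lit 2), (nat_lit 773), (nat_lit 2)⟩))
(.lf ⟨(nat_lit 0), (nat_lit 0), (nat_lit 0x6041d8107), (nat_lit 6)⟩))
(.nd (.lf ⟨(nat_lit 0x1c40c7103), (nat_lit 6), (nat_lit 0xc41c3107), (nat_lit 6)⟩)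
(.lf ⟨(nat_lit 0x5552155), (nat_lit 5), (nat_lit 0x15155485), (nat_lit 5)⟩)))
(.nd (.nd (.lf ⟨(nat_lit 0x73891c9), (nat_lit 5), (nat_lit 0x91ce247), (nat_lit 5)⟩)
(.lf ⟨(nat_lit 0x145575155d4), (nat_lit 7), (nat_lit 0x155d4557514), (nat_lit 7)⟩))
(.nd (.lf ⟨(nat_lit 11), (nat_lit 1), (nat_lit 0x1c31c3), (nat_lit 4)⟩)
(.lf ⟨(nat_lit 0x428b), (nat_lit 3), (nat_lit 0x48e2ca4d238b28b10a), (nat_lit 12)⟩))))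
(.nd (.nd (.nd (.lf ⟨(nat_lit 0x207207), (nat_lit 4), (nat_lit 0x1c81c8), (nat_lit 4)⟩)
(.lf ⟨(nat_lit 852), (nat_lit 2), (nat_lit 0x4543d13cd), (nat_lit 6)⟩))
(.nd (.lf ⟨(nat_lit 0x205205), (nat_lit 4), (nat_lit 0x205205), (nat_lit 4)⟩)
(.lf ⟨(nat_lit 0x11494), (nat_lit 3), (nat_lit 0x12512452), (nat_lit 5)⟩)))
(.nd (.nd (.lf ⟨(nat_lit 0x940c24c), (nat_lit 5), (nat_lit 0xc250309), (nat_lit 5)⟩)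
(.lf ⟨(nat_lit 0x542542), (nat_lit 4), (nat_lit 0), (nat_lit 0)⟩))
(.nd (.lf ⟨(nat_lit 0x34f34f), (nat_lit 4), (nat_lit 0x3cd3cd), (nat_lit 4)⟩)
(.lf ⟨(nat_lit 395), (nat_lit 2), (nat_lit 0x61734c34c2ca20e28818e), (nat_lit 14)⟩))))))
(.nd (.nd (.nd (.nd (.nd (.nd (.lf ⟨(nat_lit 137), (nat_lit 2), (nat_lit 0xf242), (nat_lit 3)⟩)
(.lf ⟨(nat_lit 716), (nat_lit 2), (nat_lit 779), (nat_lit 2)⟩))
(.lf ⟨(nat_lit 0x87547087547), (nat_lit 8), (nat_lit 0x1d51c21d51c2), (nat_lit 8)⟩))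
(.nd (.lf ⟨(nat_lit 597), (nat_lit 2), (nat_lit 0x549), (nat_lit 2)⟩)
(.lf ⟨(nat_lit 0xb3cd), (nat_lit 3), (nat_lit 0xc3cd30d30f34c2cf), (nat_lit 11)⟩)))
(.nd (.nd (.lf ⟨(nat_lit 0x307307), (nat_lit 4), (nat_lit 0x1cc1cc), (nat_lit 4)⟩)
(.lf ⟨(nat_lit 0), (nat_lit 0), (nat_lit 0x38d38e34e), (nat_lit 6)⟩))
(.nd (.lf ⟨(nat_lit 22), (nat_lit 1), (nat_lit 0x10f10f), (nat_lit 4)⟩)
(.lf ⟨(nat_lit 465), (nat_lit 2), (nat_lit 0x4d148f4cd30f30b30848c34c2cc2c82c7), (nat_lit 22)⟩))))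
(.nd (.nd (.nd (.lf ⟨(nat_lit 0x31472c5), (nat_lit 5), (nat_lit 0x1cb1c51cb14b1cb1c50c52c72c7), (nat_lit 18)⟩)
(.lf ⟨(nat_lit 0x496496), (nat_lit 4), (nat_lit 0x592592), (nat_lit 4)⟩))
(.nd (.lf ⟨(nat_lit 0x2c71c41c12c71c41c1), (nat_lit 12), (nat_lit 0x1c11c42c71c11c42c7), (nat_lit 12)⟩)
(.lf ⟨(nat_lit 0x816163d33c205858f4cf), (nat_lit 14), (nat_lit 0x816163d33c205858f4cf), (nat_lit 14)⟩)))
(.nd (.nd (.lf ⟨(nat_lit 461), (nat_lit 2), (nat_lit 0x34b2482c8247), (nat_lit 8)⟩)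
(.lf ⟨(nat_lit 0x2025481c42025481c4), (nat_lit 12), (nat_lit 0x1c45482021c4548202), (nat_lit 12)⟩))
(.nd (.lf ⟨(nat_lit 406), (nat_lit 2), (nat_lit 0x58d3cd3c6), (nat_lit 6)⟩)
(.lf ⟨(nat_lit 530), (nat_lit 2), (nat_lit 0x48c2cc2c8), (nat_lit 6)⟩)))))
(.nd (.nd (.nd (.nd (.lf ⟨(nat_lit 0xc60c6), (nat_lit 4), (nat_lit 0x183183), (nat_lit 4)⟩)
(.lf ⟨(nat_lit 0x74d21ca4d2287), (nat_lit 9), (nat_lit 0x1348729348a1c7), (nat_lit 9)⟩))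
(.nd (.lf ⟨(nat_lit 141), (nat_lit 2), (nat_lit 0x58f3565563c2), (nat_lit 8)⟩)
(.lf ⟨(nat_lit 16), (nat_lit 1), (nat_lit 0x24c24324c243), (nat_lit 8)⟩)))
(.nd (.nd (.lf ⟨(nat_lit 0x18d209188), (nat_lit 6), (nat_lit 0x20918d209189), (nat_lit 8)⟩)
(.lf ⟨(nat_lit 983), (nat_lit 2), (nat_lit 0x5cf), (nat_lit 2)⟩))
(.nd (.lf ⟨(nat_lit 400), (nat_lit 2), (nat_lit 0x406), (nat_lit 2)⟩)
(.lf ⟨(nat_lit 791), (nat_lit 2), (nat_lit 0x5cc), (nat_lit 2)⟩))))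
(.nd (.nd (.nd (.lf ⟨(nat_lit 0x720c), (nat_lit 3), (nat_lit 0x83081c8), (nat_lit 5)⟩)
(.lf ⟨(nat_lit 0x930d), (nat_lit 3), (nat_lit 0x1030d30940c), (nat_lit 7)⟩))
(.nd (.lf ⟨(nat_lit 0x3c22c20422c204f08b08108b081), (nat_lit 18), (nat_lit 0x3c22c20422c204f08b08108b081), (nat_lit 18)⟩)
(.lf ⟨(nat_lit 0x4d20572534815c9), (nat_lit 10), (nat_lit 0x5c94d2057253481), (nat_lit 10)⟩)))
(.nd (.nd (.lf ⟨(nat_lit 0x74ce), (nat_lit 3), (nat_lit 0x132533891d3), (nat_lit 7)⟩)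
(.lf ⟨(nat_lit 0x1134c34c595), (nat_lit 7), (nat_lit 0x1655134c34c), (nat_lit 7)⟩))
(.nd (.lf ⟨(nat_lit 0x30f313), (nat_lit 4), (nat_lit 0x5163d35163cc3cc), (nat_lit 10)⟩)
(.lf ⟨(nat_lit 0x54b54b), (nat_lit 4), (nat_lit 0), (nat_lit 0)⟩)))))))))
(.nd (.nd (.nd (.nd (.nd (.nd (.nd (.nd (.nd (.lf ⟨(nat_lit 5), (nat_lit 1), (nat_lit 0x43043), (nat_lit 4)⟩)
(.lf ⟨(nat_lit 332), (nat_lit 2), (nat_lit 0x61730a20e28818e185), (nat_lit 12)⟩))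
(.lf ⟨(nat_lit 209), (nat_lit 2), (nat_lit 0x1135228928919751238a50f30a2d618e3163ce34c2d618e316183), (nat_lit 35)⟩))
(.nd (.lf ⟨(nat_lit 0x1575153c6), (nat_lit 6), (nat_lit 0x3c65d454f14f), (nat_lit 8)⟩)
(.lf ⟨(nat_lit 0x12513), (nat_lit 3), (nat_lit 0x164d6494), (nat_lit 5)⟩)))
(.nd (.nd (.lf ⟨(nat_lit 0x204204), (nat_lit 4), (nat_lit 0), (nat_lit 0)⟩)
(.lf ⟨(nat_lit 0x630f), (nat_lit 3), (nat_lit 0xc3d034c55030d31518c), (nat_lit 13)⟩))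
(.nd (.lf ⟨(nat_lit 0x4a5d429404a5d4294), (nat_lit 12), (nat_lit 0x4a5d429404a5d4294), (nat_lit 12)⟩)
(.lf ⟨(nat_lit 0x5614), (nat_lit 3), (nat_lit 0x1250f48f158), (nat_lit 7)⟩))))
(.nd (.nd (.nd (.lf ⟨(nat_lit 0x109109), (nat_lit 4), (nat_lit 0x244244), (nat_lit 4)⟩)
(.lf ⟨(nat_lit 0), (nat_lit 0), (nat_lit 585), (nat_lit 2)⟩))
(.nd (.lf ⟨(nat_lit 87), (nat_lit 2), (nat_lit 0x50e197512192381), (nat_lit 10)⟩)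
(.lf ⟨(nat_lit 0), (nat_lit 0), (nat_lit 0x4c18c181306306), (nat_lit 10)⟩)))
(.nd (.nd (.lf ⟨(nat_lit 0x634818d), (nat_lit 5), (nat_lit 0xd18d206), (nat_lit 5)⟩)
(.lf ⟨(nat_lit 0xf489292289), (nat_lit 7), (nat_lit 0x1224a48a24f), (nat_lit 7)⟩))
(.nd (.lf ⟨(nat_lit 0x396396), (nat_lit 4), (nat_lit 0x58e58e), (nat_lit 4)⟩)
(.lf ⟨(nat_lit 0x173863863cd), (nat_lit 7), (nat_lit 0xf357386386), (nat_lit 7)⟩)))))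
(.nd (.nd (.nd (.nd (.nd (.lf ⟨(nat_lit 270), (nat_lit 2), (nat_lit 0x13384), (nat_lit 3)⟩)
(.lf ⟨(nat_lit 0x60e288388), (nat_lit 6), (nat_lit 0x141542141542), (nat_lit 8)⟩))
(.lf ⟨(nat_lit 0x5023cd10f25408f3443c9), (nat_lit 14), (nat_lit 0x3c93cd11408f24f344502), (nat_lit 14)⟩))
(.nd (.lf ⟨(nat_lit 462), (nat_lit 2), (nat_lit 903), (nat_lit 2)⟩)
(.lf ⟨(nat_lit 0x3d33d3), (nat_lit 4), (nat_lit 0x4cf4cf), (nat_lit 4)⟩)))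
(.nd (.nd (.lf ⟨(nat_lit 0x724b), (nat_lit 3), (nat_lit 0x92c91c9), (nat_lit 5)⟩)
(.lf ⟨(nat_lit 146), (nat_lit 2), (nat_lit 0x173ce28f38a4943ce2943ca18e182), (nat_lit 19)⟩))
(.nd (.lf ⟨(nat_lit 0x594), (nat_lit 2), (nat_lit 0x3d83d8516), (nat_lit 6)⟩)
(.lf ⟨(nat_lit 977), (nat_lit 2), (nat_lit 0x44f), (nat_lit 2)⟩))))
(.nd (.nd (.nd (.lf ⟨(nat_lit 0x141141), (nat_lit 4), (nat_lit 0), (nat_lit 0)⟩)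
(.lf ⟨(nat_lit 0x14814c), (nat_lit 4), (nat_lit 0x305205), (nat_lit 4)⟩))
(.nd (.lf ⟨(nat_lit 0x4288), (nat_lit 3), (nat_lit 0xa20a10a), (nat_lit 5)⟩)
(.lf ⟨(nat_lit 0xd496), (nat_lit 3), (nat_lit 0x11496491352), (nat_lit 7)⟩)))
(.nd (.nd (.lf ⟨(nat_lit 0x3c21cf087), (nat_lit 6), (nat_lit 0x1cf0873c2), (nat_lit 6)⟩)
(.lf ⟨(nat_lit 0x2cc2c6306), (nat_lit 6), (nat_lit 0x18c2c718c1c618c2c718c1c6), (nat_lit 16)⟩))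
(.nd (.lf ⟨(nat_lit 0x53d2), (nat_lit 3), (nat_lit 0xf48f14f), (nat_lit 5)⟩)
(.lf ⟨(nat_lit 144), (nat_lit 2), (nat_lit 0x61740a20e28818e182), (nat_lit 12)⟩))))))
(.nd (.nd (.nd (.nd (.nd (.nd (.lf ⟨(nat_lit 0xc40c4), (nat_lit 4), (nat_lit 0x103103), (nat_lit 4)⟩)
(.lf ⟨(nat_lit 0x8161034b08161034b), (nat_lit 12), (nat_lit 0x8161034b08161034b), (nat_lit 12)⟩))
(.lf ⟨(nat_lit 0x630d), (nat_lit 3), (nat_lit 0x1059540c35459431518c), (nat_lit 13)⟩))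
(.nd (.lf ⟨(nat_lit 916), (nat_lit 2), (nat_lit 0x50e), (nat_lit 2)⟩)
(.lf ⟨(nat_lit 0x14414), (nat_lit 3), (nat_lit 0x3170cc5c3), (nat_lit 6)⟩)))
(.nd (.nd (.lf ⟨(nat_lit 0x3c23c2), (nat_lit 4), (nat_lit 0), (nat_lit 0)⟩)
(.lf ⟨(nat_lit 0x30f30d), (nat_lit 4), (nat_lit 0x61651550f44f45859455444f44f34c3cc), (nat_lit 22)⟩))
(.nd (.lf ⟨(nat_lit 0xce54e04e54e043395381395381), (nat_lit 18), (nat_lit 0xce54e04e54e043395381395381), (nat_lit 18)⟩)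
(.lf ⟨(nat_lit 721), (nat_lit 2), (nat_lit 0x49148b), (nat_lit 4)⟩))))
(.nd (.nd (.nd (.lf ⟨(nat_lit 0x382382), (nat_lit 4), (nat_lit 0x8e08e), (nat_lit 4)⟩)
(.lf ⟨(nat_lit 0xc3d3), (nat_lit 3), (nat_lit 0x135935944d651358f4cf30f), (nat_lit 15)⟩))
(.nd (.lf ⟨(nat_lit 0x3c22813c2281), (nat_lit 8), (nat_lit 0x2813c22813c2), (nat_lit 8)⟩)
(.lf ⟨(nat_lit 0x289289), (nat_lit 4), (nat_lit 0x10a10310a103), (nat_lit 8)⟩)))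
(.nd (.nd (.lf ⟨(nat_lit 210), (nat_lit 2), (nat_lit 0x483), (nat_lit 2)⟩)
(.lf ⟨(nat_lit 0x494495), (nat_lit 4), (nat_lit 0x552512), (nat_lit 4)⟩))
(.nd (.lf ⟨(nat_lit 0x212208488), (nat_lit 6), (nat_lit 0), (nat_lit 0)⟩)
(.lf ⟨(nat_lit 532), (nat_lit 2), (nat_lit 0x508), (nat_lit 2)⟩)))))
(.nd (.nd (.nd (.nd (.lf ⟨(nat_lit 0x102044081), (nat_lit 6), (nat_lit 0x42101084), (nat_lit 6)⟩)
(.lf ⟨(nat_lit 0x930940c), (nat_lit 5), (nat_lit 0x1641634c24c349), (nat_lit 9)⟩))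
(.nd (.lf ⟨(nat_lit 0x243181243181), (nat_lit 8), (nat_lit 0x46243046243), (nat_lit 8)⟩)
(.lf ⟨(nat_lit 87), (nat_lit 2), (nat_lit 0x5d23d23ca38a50f38a50f281), (nat_lit 16)⟩)))
(.nd (.nd (.lf ⟨(nat_lit 326), (nat_lit 2), (nat_lit 389), (nat_lit 2)⟩)
(.lf ⟨(nat_lit 0x40c25024c), (nat_lit 6), (nat_lit 0xd030940c24340c250309), (nat_lit 14)⟩))
(.nd (.lf ⟨(nat_lit 0x309309), (nat_lit 4), (nat_lit 0x24c24c), (nat_lit 4)⟩)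
(.lf ⟨(nat_lit 0x10238b08e2c408e2c238b), (nat_lit 14), (nat_lit 0x10238b08e2c408e2c238b), (nat_lit 14)⟩))))
(.nd (.nd (.nd (.lf ⟨(nat_lit 0x410), (nat_lit 2), (nat_lit 0), (nat_lit 0)⟩)
(.lf ⟨(nat_lit 791), (nat_lit 2), (nat_lit 0x41751050c), (nat_lit 6)⟩))
(.nd (.lf ⟨(nat_lit 0x2cc2cc), (nat_lit 4), (nat_lit 0x30b30b), (nat_lit 4)⟩)
(.lf ⟨(nat_lit 0xb30f), (nat_lit 3), (nat_lit 0xe34e34c3cc2cc), (nat_lit 9)⟩)))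
(.nd (.nd (.lf ⟨(nat_lit 591), (nat_lit 2), (nat_lit 0x54f549), (nat_lit 4)⟩)
(.lf ⟨(nat_lit 0x34c34c), (nat_lit 4), (nat_lit 0x211211), (nat_lit 4)⟩))
(.nd (.lf ⟨(nat_lit 983), (nat_lit 2), (nat_lit 0x55751550f), (nat_lit 6)⟩)
(.lf ⟨(nat_lit 0x14c286), (nat_lit 4), (nat_lit 0x61728838a20638530a), (nat_lit 12)⟩)))))))
(.nd (.nd (.nd (.nd (.nd (.nd (.nd (.lf ⟨(nat_lit 21), (nat_lit 1), (nat_lit 0xcf0cf), (nat_lit 4)⟩)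
(.lf ⟨(nat_lit 332), (nat_lit 2), (nat_lit 0x1738c18e185), (nat_lit 7)⟩))
(.lf ⟨(nat_lit 782), (nat_lit 2), (nat_lit 0x51651358f4cf38c), (nat_lit 10)⟩))
(.nd (.lf ⟨(nat_lit 329), (nat_lit 2), (nat_lit 0x12245), (nat_lit 3)⟩)
(.lf ⟨(nat_lit 0x4cd4d3353), (nat_lit 6), (nat_lit 0), (nat_lit 0)⟩)))
(.nd (.nd (.lf ⟨(nat_lit 0x3d53d5), (nat_lit 4), (nat_lit 0x54f54f), (nat_lit 4)⟩)
(.lf ⟨(nat_lit 0x285483285483), (nat_lit 8), (nat_lit 0x483285483285), (nat_lit 8)⟩))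
(.nd (.lf ⟨(nat_lit 0x38b284284), (nat_lit 6), (nat_lit 0x28428438b), (nat_lit 6)⟩)
(.lf ⟨(nat_lit 0xf417), (nat_lit 3), (nat_lit 0x105d03d0), (nat_lit 5)⟩))))
(.nd (.nd (.nd (.lf ⟨(nat_lit 910), (nat_lit 2), (nat_lit 0), (nat_lit 0)⟩)
(.lf ⟨(nat_lit 0x28610a3cd28610a28610a3cd28610a), (nat_lit 20), (nat_lit 0), (nat_lit 0)⟩))
(.nd (.lf ⟨(nat_lit 0x385385), (nat_lit 4), (nat_lit 0), (nat_lit 0)⟩)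
(.lf ⟨(nat_lit 0x456), (nat_lit 2), (nat_lit 0x591), (nat_lit 2)⟩)))
(.nd (.nd (.lf ⟨(nat_lit 138), (nat_lit 2), (nat_lit 642), (nat_lit 2)⟩)
(.lf ⟨(nat_lit 0x105d4414), (nat_lit 5), (nat_lit 0x14417510), (nat_lit 5)⟩))
(.nd (.lf ⟨(nat_lit 0), (nat_lit 0), (nat_lit 65), (nat_lit 2)⟩)
(.lf ⟨(nat_lit 979), (nat_lit 2), (nat_lit 0x4cf), (nat_lit 2)⟩)))))
(.nd (.nd (.nd (.nd (.nd (.lf ⟨(nat_lit 65), (nat_lit 2), (nat_lit 0), (nat_lit 0)⟩)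
(.lf ⟨(nat_lit 335), (nat_lit 2), (nat_lit 0x173c5), (nat_lit 3)⟩))
(.lf ⟨(nat_lit 0x1d12d12c744b44b), (nat_lit 10), (nat_lit 0x1d12d12c744b44b), (nat_lit 10)⟩))
(.nd (.lf ⟨(nat_lit 145), (nat_lit 2), (nat_lit 0x44d3082863082963cd59558f182), (nat_lit 18)⟩)
(.lf ⟨(nat_lit 725), (nat_lit 2), (nat_lit 0x4d03153d03d330b), (nat_lit 10)⟩)))
(.nd (.nd (.lf ⟨(nat_lit 0x24c24c), (nat_lit 4), (nat_lit 0x309309), (nat_lit 4)⟩)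
(.lf ⟨(nat_lit 0x5575155d45575155d4), (nat_lit 12), (nat_lit 0), (nat_lit 0)⟩))
(.nd (.lf ⟨(nat_lit 86), (nat_lit 2), (nat_lit 0x61650930f31621838931624c2143ce241), (nat_lit 22)⟩)
(.lf ⟨(nat_lit 0x50c50c), (nat_lit 4), (nat_lit 0), (nat_lit 0)⟩))))
(.nd (.nd (.nd (.lf ⟨(nat_lit 0x206206), (nat_lit 4), (nat_lit 0x188188), (nat_lit 4)⟩)
(.lf ⟨(nat_lit 0xc3ce), (nat_lit 3), (nat_lit 0x164d63d33ce30f), (nat_lit 9)⟩))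
(.nd (.lf ⟨(nat_lit 0x2d324b4c9), (nat_lit 6), (nat_lit 0), (nat_lit 0)⟩)
(.lf ⟨(nat_lit 151), (nat_lit 2), (nat_lit 0x5d44943d23c2), (nat_lit 8)⟩)))
(.nd (.nd (.lf ⟨(nat_lit 0x428910a), (nat_lit 5), (nat_lit 0x928910a244), (nat_lit 7)⟩)
(.lf ⟨(nat_lit 0x6315), (nat_lit 3), (nat_lit 0xd31530d18c), (nat_lit 7)⟩))
(.nd (.lf ⟨(nat_lit 533), (nat_lit 2), (nat_lit 0x548), (nat_lit 2)⟩)
(.lf ⟨(nat_lit 401), (nat_lit 2), (nat_lit 0x44e34e30d306), (nat_lit 8)⟩))))))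
(.nd (.nd (.nd (.nd (.nd (.nd (.lf ⟨(nat_lit 910), (nat_lit 2), (nat_lit 0), (nat_lit 0)⟩)
(.lf ⟨(nat_lit 145), (nat_lit 2), (nat_lit 0x442), (nat_lit 2)⟩))
(.lf ⟨(nat_lit 0x3cd18f346), (nat_lit 6), (nat_lit 0), (nat_lit 0)⟩))
(.nd (.lf ⟨(nat_lit 211), (nat_lit 2), (nat_lit 0xb4c738b247247147485383), (nat_lit 15)⟩)
(.lf ⟨(nat_lit 273), (nat_lit 2), (nat_lit 0x38b21239135230d30b309309204), (nat_lit 18)⟩)))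
(.nd (.nd (.lf ⟨(nat_lit 0x386386), (nat_lit 4), (nat_lit 0x18e18e), (nat_lit 4)⟩)
(.lf ⟨(nat_lit 0xe35358d4ce), (nat_lit 7), (nat_lit 0x38d38438d384), (nat_lit 8)⟩))
(.nd (.lf ⟨(nat_lit 0x2044443563cd59558f11110d58f3565563c811110d58f3565563c44443563cd59558f), (nat_lit 46), (nat_lit 0x2044443563cd59558f11110d58f3565563c811110d58f3565563c44443563cd59558f), (nat_lit 46)⟩)
(.lf ⟨(nat_lit 660), (nat_lit 2), (nat_lit 0x50a), (nat_lit 2)⟩))))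
(.nd (.nd (.nd (.lf ⟨(nat_lit 0x3c33c3), (nat_lit 4), (nat_lit 0xcf0cf), (nat_lit 4)⟩)
(.lf ⟨(nat_lit 0x3d23c450111404f48f114044501), (nat_lit 18), (nat_lit 0x3d23c450111404f48f114044501), (nat_lit 18)⟩))
(.nd (.lf ⟨(nat_lit 0x509509), (nat_lit 4), (nat_lit 0), (nat_lit 0)⟩)
(.lf ⟨(nat_lit 0x143ce), (nat_lit 3), (nat_lit 0x242049081), (nat_lit 6)⟩)))
(.nd (.nd (.lf ⟨(nat_lit 0x51c9147), (nat_lit 5), (nat_lit 0x72451c9149), (nat_lit 7)⟩)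
(.lf ⟨(nat_lit 0x391391), (nat_lit 4), (nat_lit 0x44e44e), (nat_lit 4)⟩))
(.nd (.lf ⟨(nat_lit 145), (nat_lit 2), (nat_lit 0x44d30828630828f35558f182), (nat_lit 16)⟩)
(.lf ⟨(nat_lit 465), (nat_lit 2), (nat_lit 0x447), (nat_lit 2)⟩)))))
(.nd (.nd (.nd (.nd (.lf ⟨(nat_lit 78), (nat_lit 2), (nat_lit 0x24e24e24e241), (nat_lit 8)⟩)
(.lf ⟨(nat_lit 0x305305), (nat_lit 4), (nat_lit 0x14c14c), (nat_lit 4)⟩))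
(.nd (.lf ⟨(nat_lit 0x650e18e), (nat_lit 5), (nat_lit 0xe194386), (nat_lit 5)⟩)
(.lf ⟨(nat_lit 0xf4d13d1), (nat_lit 5), (nat_lit 0x113d344f), (nat_lit 5)⟩)))
(.nd (.nd (.lf ⟨(nat_lit 0x106348), (nat_lit 4), (nat_lit 0x206348246204189), (nat_lit 10)⟩)
(.lf ⟨(nat_lit 535), (nat_lit 2), (nat_lit 0x3575543d03153d051130f44d30f308), (nat_lit 20)⟩))
(.nd (.lf ⟨(nat_lit 16), (nat_lit 1), (nat_lit 0xcc0cc), (nat_lit 4)⟩)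
(.lf ⟨(nat_lit 139), (nat_lit 2), (nat_lit 0x144502ca10a102), (nat_lit 9)⟩))))
(.nd (.nd (.nd (.lf ⟨(nat_lit 0xc60820c6082), (nat_lit 8), (nat_lit 0x86083086083), (nat_lit 8)⟩)
(.lf ⟨(nat_lit 920), (nat_lit 2), (nat_lit 0x6164d64ce), (nat_lit 6)⟩))
(.nd (.lf ⟨(nat_lit 0), (nat_lit 0), (nat_lit 325), (nat_lit 2)⟩)
(.lf ⟨(nat_lit 465), (nat_lit 2), (nat_lit 0x51349449148f4d235230f30b30848c34c2cc2c82c7), (nat_lit 28)⟩)))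
(.nd (.nd (.lf ⟨(nat_lit 0x30d30d), (nat_lit 4), (nat_lit 0x40d30d40c), (nat_lit 6)⟩)
(.lf ⟨(nat_lit 0x595), (nat_lit 2), (nat_lit 0x342342), (nat_lit 4)⟩))
(.nd (.lf ⟨(nat_lit 0x197509), (nat_lit 4), (nat_lit 0x1229751238a5523d23c929751238a4865d4), (nat_lit 23)⟩)
(.lf ⟨(nat_lit 0x20e28838a), (nat_lit 6), (nat_lit 0x28838a20e), (nat_lit 6)⟩))))))))
(.nd (.nd (.nd (.nd (.nd (.nd (.nd (.nd (.lf ⟨(nat_lit 13), (nat_lit 1), (nat_lit 0xc80c8), (nat_lit 4)⟩)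
(.lf ⟨(nat_lit 0x8105), (nat_lit 3), (nat_lit 0x40e34e34b61138d38d20e205204), (nat_lit 18)⟩))
(.lf ⟨(nat_lit 0xa50f28e), (nat_lit 5), (nat_lit 0xe2943ca), (nat_lit 5)⟩))
(.nd (.lf ⟨(nat_lit 0x76141d4), (nat_lit 5), (nat_lit 0x141d8507), (nat_lit 5)⟩)
(.lf ⟨(nat_lit 0x4ce4ce), (nat_lit 4), (nat_lit 0), (nat_lit 0)⟩)))
(.nd (.nd (.lf ⟨(nat_lit 0x403403), (nat_lit 4), (nat_lit 0xd00d0), (nat_lit 4)⟩)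
(.lf ⟨(nat_lit 0x930b), (nat_lit 3), (nat_lit 0xc2cc24c), (nat_lit 5)⟩))
(.nd (.lf ⟨(nat_lit 10), (nat_lit 1), (nat_lit 0x142142), (nat_lit 4)⟩)
(.lf ⟨(nat_lit 0x49038d48e40e34e), (nat_lit 10), (nat_lit 0x40338d48e3500ce35238d), (nat_lit 14)⟩))))
(.nd (.nd (.nd (.lf ⟨(nat_lit 75), (nat_lit 2), (nat_lit 0x1cb1c31472c52c70c1), (nat_lit 12)⟩)
(.lf ⟨(nat_lit 0), (nat_lit 0), (nat_lit 0xca24a243289289), (nat_lit 10)⟩))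
(.nd (.lf ⟨(nat_lit 0x307307), (nat_lit 4), (nat_lit 0), (nat_lit 0)⟩)
(.lf ⟨(nat_lit 0), (nat_lit 0), (nat_lit 0x21631534c34858c54d30d), (nat_lit 14)⟩)))
(.nd (.nd (.lf ⟨(nat_lit 69), (nat_lit 2), (nat_lit 321), (nat_lit 2)⟩)
(.lf ⟨(nat_lit 402), (nat_lit 2), (nat_lit 0x38a50f4943ce286), (nat_lit 10)⟩))
(.nd (.lf ⟨(nat_lit 0xc4cc), (nat_lit 3), (nat_lit 0x30b30430b304), (nat_lit 8)⟩)
(.lf ⟨(nat_lit 0), (nat_lit 0), (nat_lit 0x20c18c188306306), (nat_lit 10)⟩)))))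
(.nd (.nd (.nd (.nd (.nd (.lf ⟨(nat_lit 0x596), (nat_lit 2), (nat_lit 0), (nat_lit 0)⟩)
(.lf ⟨(nat_lit 463), (nat_lit 2), (nat_lit 0x183c7), (nat_lit 3)⟩))
(.lf ⟨(nat_lit 0x554f), (nat_lit 3), (nat_lit 0x50f3865d454f48f38a54929238929751238a4865d4155), (nat_lit 30)⟩))
(.nd (.lf ⟨(nat_lit 152), (nat_lit 2), (nat_lit 0x508614202), (nat_lit 6)⟩)
(.lf ⟨(nat_lit 0x13554), (nat_lit 3), (nat_lit 0x144d5), (nat_lit 3)⟩)))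
(.nd (.nd (.lf ⟨(nat_lit 0x5308148), (nat_lit 5), (nat_lit 0x814c205), (nat_lit 5)⟩)
(.lf ⟨(nat_lit 0x10a34828928920a10a34828928920a), (nat_lit 20), (nat_lit 0x10a34828928920a10a34828928920a), (nat_lit 20)⟩))
(.nd (.lf ⟨(nat_lit 0), (nat_lit 0), (nat_lit 0x389389), (nat_lit 4)⟩)
(.lf ⟨(nat_lit 0xd391), (nat_lit 3), (nat_lit 0x113ce45039140f40e40e34e), (nat_lit 15)⟩))))
(.nd (.nd (.nd (.lf ⟨(nat_lit 0x1c51c5), (nat_lit 4), (nat_lit 0x147147), (nat_lit 4)⟩)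
(.lf ⟨(nat_lit 0x18130f34630604c3cd18c18604c3cd18c18130f346306), (nat_lit 30), (nat_lit 0x18130f34630604c3cd18c18604c3cd18c18130f346306), (nat_lit 30)⟩))
(.nd (.lf ⟨(nat_lit 466), (nat_lit 2), (nat_lit 0x4cb4d22c7), (nat_lit 6)⟩)
(.lf ⟨(nat_lit 216), (nat_lit 2), (nat_lit 0x41854f40c54c3c3), (nat_lit 10)⟩)))
(.nd (.nd (.lf ⟨(nat_lit 0x928e), (nat_lit 3), (nat_lit 0xa38a24a), (nat_lit 5)⟩)
(.lf ⟨(nat_lit 0x5634c54d30158d31534c), (nat_lit 14), (nat_lit 0x5634c54d30158d31534c), (nat_lit 14)⟩))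
(.nd (.lf ⟨(nat_lit 853), (nat_lit 2), (nat_lit 0x59558d), (nat_lit 4)⟩)
(.lf ⟨(nat_lit 0x18e30a), (nat_lit 4), (nat_lit 0x3082c838b30b20e2882c638c), (nat_lit 16)⟩))))))
(.nd (.nd (.nd (.nd (.nd (.nd (.lf ⟨(nat_lit 199), (nat_lit 2), (nat_lit 0xb1c3), (nat_lit 3)⟩)
(.lf ⟨(nat_lit 398), (nat_lit 2), (nat_lit 0x61720e206), (nat_lit 6)⟩))
(.lf ⟨(nat_lit 0x10a04310a043), (nat_lit 8), (nat_lit 0xca0440ca044), (nat_lit 8)⟩))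
(.nd (.lf ⟨(nat_lit 0x630828d), (nat_lit 5), (nat_lit 0xa30d30a18c20a), (nat_lit 9)⟩)
(.lf ⟨(nat_lit 776), (nat_lit 2), (nat_lit 0x871021c4), (nat_lit 6)⟩)))
(.nd (.nd (.lf ⟨(nat_lit 0x14d14d), (nat_lit 4), (nat_lit 0x345345), (nat_lit 4)⟩)
(.lf ⟨(nat_lit 0x497), (nat_lit 2), (nat_lit 0x5d2), (nat_lit 2)⟩))
(.nd (.lf ⟨(nat_lit 0x39549548e395155385), (nat_lit 12), (nat_lit 0x39515538539549548e), (nat_lit 12)⟩)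
(.lf ⟨(nat_lit 0x429324a), (nat_lit 5), (nat_lit 0x13289293244293289), (nat_lit 11)⟩))))
(.nd (.nd (.nd (.lf ⟨(nat_lit 0x1cb1cb), (nat_lit 4), (nat_lit 0x2c72c7), (nat_lit 4)⟩)
(.lf ⟨(nat_lit 0x30f30d), (nat_lit 4), (nat_lit 0x6165153cd50f35859454d50c3cc), (nat_lit 18)⟩))
(.nd (.lf ⟨(nat_lit 0x307381307381), (nat_lit 8), (nat_lit 0x381307381307), (nat_lit 8)⟩)
(.lf ⟨(nat_lit 0), (nat_lit 0), (nat_lit 0x20b20320b203), (nat_lit 8)⟩)))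
(.nd (.nd (.lf ⟨(nat_lit 214), (nat_lit 2), (nat_lit 0xd20958f2443462061153c3), (nat_lit 15)⟩)
(.lf ⟨(nat_lit 0x9315), (nat_lit 3), (nat_lit 0x1030b31530d4cd30f40f30d4cd2cc24c), (nat_lit 21)⟩))
(.nd (.lf ⟨(nat_lit 0x488488488488), (nat_lit 8), (nat_lit 0), (nat_lit 0)⟩)
(.lf ⟨(nat_lit 468), (nat_lit 2), (nat_lit 0x507), (nat_lit 2)⟩)))))
(.nd (.nd (.nd (.nd (.lf ⟨(nat_lit 455), (nat_lit 2), (nat_lit 0), (nat_lit 0)⟩)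
(.lf ⟨(nat_lit 0x1c1407050), (nat_lit 6), (nat_lit 0x1c1407050), (nat_lit 6)⟩))
(.nd (.lf ⟨(nat_lit 0x281102281102), (nat_lit 8), (nat_lit 0x84281084281), (nat_lit 8)⟩)
(.lf ⟨(nat_lit 0x45038b20e2c8), (nat_lit 8), (nat_lit 0x38b20e2c8450), (nat_lit 8)⟩)))
(.nd (.nd (.lf ⟨(nat_lit 0x483483), (nat_lit 4), (nat_lit 0), (nat_lit 0)⟩)
(.lf ⟨(nat_lit 0x554554), (nat_lit 4), (nat_lit 0x502554095), (nat_lit 6)⟩))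
(.nd (.lf ⟨(nat_lit 0xc58e30e), (nat_lit 5), (nat_lit 0x1638c396316), (nat_lit 7)⟩)
(.lf ⟨(nat_lit 0x18e34e34b), (nat_lit 6), (nat_lit 0x4cf4ce30d38d30f30b18c), (nat_lit 14)⟩))))
(.nd (.nd (.nd (.lf ⟨(nat_lit 0x55055), (nat_lit 4), (nat_lit 0x541541), (nat_lit 4)⟩)
(.lf ⟨(nat_lit 786), (nat_lit 2), (nat_lit 0x59048e41358f4cf38c), (nat_lit 12)⟩))
(.nd (.lf ⟨(nat_lit 12), (nat_lit 1), (nat_lit 0x1c21c2), (nat_lit 4)⟩)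
(.lf ⟨(nat_lit 0xd391), (nat_lit 3), (nat_lit 0x113ce4503913903ce34e), (nat_lit 13)⟩)))
(.nd (.nd (.lf ⟨(nat_lit 262), (nat_lit 2), (nat_lit 0x20f349188244), (nat_lit 8)⟩)
(.lf ⟨(nat_lit 0), (nat_lit 0), (nat_lit 0x10e2c838b20438b20e2c8), (nat_lit 14)⟩))
(.nd (.lf ⟨(nat_lit 0x7589), (nat_lit 3), (nat_lit 0x30f31458f4d650f24c3cc1d6), (nat_lit 16)⟩)
(.lf ⟨(nat_lit 0x638c), (nat_lit 3), (nat_lit 0x185ce30a20e288386), (nat_lit 11)⟩)))))))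
(.nd (.nd (.nd (.nd (.nd (.nd (.nd (.lf ⟨(nat_lit 390), (nat_lit 2), (nat_lit 0), (nat_lit 0)⟩)
(.lf ⟨(nat_lit 266), (nat_lit 2), (nat_lit 0x511287187184), (nat_lit 8)⟩))
(.lf ⟨(nat_lit 406), (nat_lit 2), (nat_lit 0x586), (nat_lit 2)⟩))
(.nd (.lf ⟨(nat_lit 467), (nat_lit 2), (nat_lit 0x253247), (nat_lit 4)⟩)
(.lf ⟨(nat_lit 0xd491), (nat_lit 3), (nat_lit 0x11491491352), (nat_lit 7)⟩)))
(.nd (.nd (.lf ⟨(nat_lit 280), (nat_lit 2), (nat_lit 0x518518518504), (nat_lit 8)⟩)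
(.lf ⟨(nat_lit 0xf456), (nat_lit 3), (nat_lit 0x144565113d1), (nat_lit 7)⟩))
(.nd (.lf ⟨(nat_lit 0xe2ca), (nat_lit 3), (nat_lit 0xa20a20e2c520e2c814a38b), (nat_lit 15)⟩)
(.lf ⟨(nat_lit 978), (nat_lit 2), (nat_lit 0x48f), (nat_lit 2)⟩))))
(.nd (.nd (.nd (.lf ⟨(nat_lit 0x948e), (nat_lit 3), (nat_lit 0xe48e48e489), (nat_lit 7)⟩)
(.lf ⟨(nat_lit 788), (nat_lit 2), (nat_lit 0x50c), (nat_lit 2)⟩))
(.nd (.lf ⟨(nat_lit 722), (nat_lit 2), (nat_lit 0x48b), (nat_lit 2)⟩)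
(.lf ⟨(nat_lit 0x1438a38a), (nat_lit 5), (nat_lit 0xe28e294), (nat_lit 5)⟩)))
(.nd (.nd (.lf ⟨(nat_lit 83), (nat_lit 2), (nat_lit 0x3933894ce2474ce24e247381), (nat_lit 16)⟩)
(.lf ⟨(nat_lit 0xb511), (nat_lit 3), (nat_lit 0x1244d4d23532d4), (nat_lit 9)⟩))
(.nd (.lf ⟨(nat_lit 0x1d51d5), (nat_lit 4), (nat_lit 0x547547), (nat_lit 4)⟩)
(.lf ⟨(nat_lit 0x82cc), (nat_lit 3), (nat_lit 0xb30b20b), (nat_lit 5)⟩)))))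
(.nd (.nd (.nd (.nd (.nd (.lf ⟨(nat_lit 0xc20c2), (nat_lit 4), (nat_lit 0x83083), (nat_lit 4)⟩)
(.lf ⟨(nat_lit 273), (nat_lit 2), (nat_lit 0x18444), (nat_lit 3)⟩))
(.lf ⟨(nat_lit 0x76040d8103), (nat_lit 7), (nat_lit 0x6132d82d81036040c7), (nat_lit 12)⟩))
(.nd (.lf ⟨(nat_lit 0x81244081244), (nat_lit 8), (nat_lit 0x109081109081), (nat_lit 8)⟩)
(.lf ⟨(nat_lit 465), (nat_lit 2), (nat_lit 0x4d245244d48f44f4d13d344f4cb3cc3c848c34c2cc2c82c7), (nat_lit 32)⟩)))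
(.nd (.nd (.lf ⟨(nat_lit 849), (nat_lit 2), (nat_lit 0x44d), (nat_lit 2)⟩)
(.lf ⟨(nat_lit 983), (nat_lit 2), (nat_lit 0x5d551550f), (nat_lit 6)⟩))
(.nd (.lf ⟨(nat_lit 0xc73484cd4c81cd2133532031cd2133532073484cd4c8), (nat_lit 30), (nat_lit 0xc73484cd4c81cd2133532031cd2133532073484cd4c8), (nat_lit 30)⟩)
(.lf ⟨(nat_lit 659), (nat_lit 2), (nat_lit 0x4ca), (nat_lit 2)⟩))))
(.nd (.nd (.nd (.lf ⟨(nat_lit 0x248248), (nat_lit 4), (nat_lit 0x209209), (nat_lit 4)⟩)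
(.lf ⟨(nat_lit 0xb3d3), (nat_lit 3), (nat_lit 0x1335358d4d64d64d63d33ce35334e2cf), (nat_lit 21)⟩))
(.nd (.lf ⟨(nat_lit 0), (nat_lit 0), (nat_lit 0x1cc1c7307), (nat_lit 6)⟩)
(.lf ⟨(nat_lit 719), (nat_lit 2), (nat_lit 0x3cd38d38b), (nat_lit 6)⟩)))
(.nd (.nd (.lf ⟨(nat_lit 597), (nat_lit 2), (nat_lit 0x3d53c9), (nat_lit 4)⟩)
(.lf ⟨(nat_lit 0x38d38d38d38d), (nat_lit 8), (nat_lit 0x25134e44d25134e44d), (nat_lit 12)⟩))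
(.nd (.lf ⟨(nat_lit 0x197512192), (nat_lit 6), (nat_lit 0x5121925d4194), (nat_lit 8)⟩)
(.lf ⟨(nat_lit 0x16548), (nat_lit 3), (nat_lit 0x5c23cd11708f344), (nat_lit 10)⟩))))))
(.nd (.nd (.nd (.nd (.nd (.nd (.lf ⟨(nat_lit 0x4d04d), (nat_lit 4), (nat_lit 0x341341), (nat_lit 4)⟩)
(.lf ⟨(nat_lit 396), (nat_lit 2), (nat_lit 0x1838c20e206), (nat_lit 7)⟩))
(.lf ⟨(nat_lit 0x406406), (nat_lit 4), (nat_lit 0), (nat_lit 0)⟩))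
(.nd (.lf ⟨(nat_lit 214), (nat_lit 2), (nat_lit 0xd5883cd24621518f243), (nat_lit 13)⟩)
(.lf ⟨(nat_lit 531), (nat_lit 2), (nat_lit 0x3d330f308), (nat_lit 6)⟩)))
(.nd (.nd (.lf ⟨(nat_lit 0x3c73c7), (nat_lit 4), (nat_lit 0x1cf1cf), (nat_lit 4)⟩)
(.lf ⟨(nat_lit 919), (nat_lit 2), (nat_lit 0x5d449448e), (nat_lit 6)⟩))
(.nd (.lf ⟨(nat_lit 0x3d83d8), (nat_lit 4), (nat_lit 0x3d83d8), (nat_lit 4)⟩)
(.lf ⟨(nat_lit 402), (nat_lit 2), (nat_lit 0x486), (nat_lit 2)⟩))))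
(.nd (.nd (.nd (.lf ⟨(nat_lit 0x284284), (nat_lit 4), (nat_lit 0x10a10a), (nat_lit 4)⟩)
(.lf ⟨(nat_lit 0x2953ca54f2953ca54f), (nat_lit 12), (nat_lit 0), (nat_lit 0)⟩))
(.nd (.lf ⟨(nat_lit 0x28e28e), (nat_lit 4), (nat_lit 0x38a38a), (nat_lit 4)⟩)
(.lf ⟨(nat_lit 272), (nat_lit 2), (nat_lit 0x1060f30f304), (nat_lit 7)⟩)))
(.nd (.nd (.lf ⟨(nat_lit 0x53ca), (nat_lit 3), (nat_lit 0xf28f14f), (nat_lit 5)⟩)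
(.lf ⟨(nat_lit 0), (nat_lit 0), (nat_lit 0x183183), (nat_lit 4)⟩))
(.nd (.lf ⟨(nat_lit 18), (nat_lit 1), (nat_lit 0x149149), (nat_lit 4)⟩)
(.lf ⟨(nat_lit 0x18c2c8), (nat_lit 4), (nat_lit 0x5952c82c630b), (nat_lit 8)⟩)))))
(.nd (.nd (.nd (.nd (.lf ⟨(nat_lit 0x108108), (nat_lit 4), (nat_lit 0x204204), (nat_lit 4)⟩)
(.lf ⟨(nat_lit 0x38b28e2ca38b28e2ca), (nat_lit 12), (nat_lit 0), (nat_lit 0)⟩))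
(.nd (.lf ⟨(nat_lit 86), (nat_lit 2), (nat_lit 0xf61458c3cc1cf1d43c1), (nat_lit 13)⟩)
(.lf ⟨(nat_lit 0x20e20930920e35238d20930920e35238d20838824c24838d48e34824c24838d48e348), (nat_lit 46), (nat_lit 0x20e20930920e35238d20930920e35238d20838824c24838d48e34824c24838d48e348), (nat_lit 46)⟩)))
(.nd (.nd (.lf ⟨(nat_lit 0x4348), (nat_lit 3), (nat_lit 0x734b1c920724710b), (nat_lit 11)⟩)
(.lf ⟨(nat_lit 0x92092), (nat_lit 4), (nat_lit 0x92092), (nat_lit 4)⟩))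
(.nd (.lf ⟨(nat_lit 395), (nat_lit 2), (nat_lit 0x30b18c), (nat_lit 4)⟩)
(.lf ⟨(nat_lit 786), (nat_lit 2), (nat_lit 0x4cf4d23cc), (nat_lit 6)⟩))))
(.nd (.nd (.nd (.lf ⟨(nat_lit 214), (nat_lit 2), (nat_lit 0x834958f10920d2063483461153c3), (nat_lit 19)⟩)
(.lf ⟨(nat_lit 0x3d33d3), (nat_lit 4), (nat_lit 0x5135944d64cf4cf), (nat_lit 10)⟩))
(.nd (.lf ⟨(nat_lit 0x8b3cb3c208b3cb3c2), (nat_lit 12), (nat_lit 0), (nat_lit 0)⟩)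
(.lf ⟨(nat_lit 0x38a38a), (nat_lit 4), (nat_lit 0x4a24a241289289), (nat_lit 10)⟩)))
(.nd (.nd (.lf ⟨(nat_lit 0x518), (nat_lit 2), (nat_lit 0x614), (nat_lit 2)⟩)
(.lf ⟨(nat_lit 0x305305), (nat_lit 4), (nat_lit 0x305305), (nat_lit 4)⟩))
(.nd (.lf ⟨(nat_lit 0x64cb), (nat_lit 3), (nat_lit 0xc2c6313), (nat_lit 5)⟩)
(.lf ⟨(nat_lit 0), (nat_lit 0), (nat_lit 0x54b54b), (nat_lit 4)⟩))))))))))
(.nd (.nd (.nd (.nd (.nd (.nd (.nd (.nd (.nd (.nd (.lf ⟨(nat_lit 260), (nat_lit 2), (nat_lit 0), (nat_lit 0)⟩)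
(.lf ⟨(nat_lit 0x73cd), (nat_lit 3), (nat_lit 0xa1ca1cf347), (nat_lit 7)⟩))
(.lf ⟨(nat_lit 786), (nat_lit 2), (nat_lit 0x41648e41358f4cf38c), (nat_lit 12)⟩))
(.nd (.lf ⟨(nat_lit 277), (nat_lit 2), (nat_lit 0xd2482563cd1881963c4), (nat_lit 13)⟩)
(.lf ⟨(nat_lit 0x10a6144ce), (nat_lit 6), (nat_lit 0x45028b50e2ca45010a), (nat_lit 12)⟩)))
(.nd (.nd (.lf ⟨(nat_lit 0x1c41031c4103), (nat_lit 8), (nat_lit 0xc41c40c41c4), (nat_lit 8)⟩)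
(.lf ⟨(nat_lit 0x6315), (nat_lit 3), (nat_lit 0x1645634c55130d18c), (nat_lit 11)⟩))
(.nd (.lf ⟨(nat_lit 0x4a54f28f04a54f28f), (nat_lit 12), (nat_lit 0x4a54f28f04a54f28f), (nat_lit 12)⟩)
(.lf ⟨(nat_lit 146), (nat_lit 2), (nat_lit 0x175125123d23ce18e182), (nat_lit 13)⟩))))
(.nd (.nd (.nd (.lf ⟨(nat_lit 205), (nat_lit 2), (nat_lit 0x20d20d20d203), (nat_lit 8)⟩)
(.lf ⟨(nat_lit 0), (nat_lit 0), (nat_lit 0x8c082302), (nat_lit 6)⟩))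
(.nd (.lf ⟨(nat_lit 214), (nat_lit 2), (nat_lit 0xd58f35634f34854f3563cd21558f3563cd21558d58f34921558f243), (nat_lit 37)⟩)
(.lf ⟨(nat_lit 0x56541595), (nat_lit 6), (nat_lit 0x56541595), (nat_lit 6)⟩)))
(.nd (.nd (.lf ⟨(nat_lit 587), (nat_lit 2), (nat_lit 713), (nat_lit 2)⟩)
(.lf ⟨(nat_lit 0x9489292289), (nat_lit 7), (nat_lit 0x1224a48a249), (nat_lit 7)⟩))
(.nd (.lf ⟨(nat_lit 463), (nat_lit 2), (nat_lit 0xc3cc3c930f31621838c58930920e247), (nat_lit 21)⟩)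
(.lf ⟨(nat_lit 0), (nat_lit 0), (nat_lit 0x486595486595), (nat_lit 8)⟩)))))
(.nd (.nd (.nd (.nd (.nd (.lf ⟨(nat_lit 0x10e10e), (nat_lit 4), (nat_lit 0x384384), (nat_lit 4)⟩)
(.lf ⟨(nat_lit 139), (nat_lit 2), (nat_lit 0x185d12c2), (nat_lit 5)⟩))
(.lf ⟨(nat_lit 0x20a595), (nat_lit 4), (nat_lit 0x29654a20a), (nat_lit 6)⟩))
(.nd (.lf ⟨(nat_lit 0x30d30d), (nat_lit 4), (nat_lit 0x34c34c), (nat_lit 4)⟩)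
(.lf ⟨(nat_lit 920), (nat_lit 2), (nat_lit 0x60e), (nat_lit 2)⟩)))
(.nd (.nd (.lf ⟨(nat_lit 0x183183), (nat_lit 4), (nat_lit 0), (nat_lit 0)⟩)
(.lf ⟨(nat_lit 0x940c3cd), (nat_lit 5), (nat_lit 0x144d651358c3cd2cc54c2cc250315), (nat_lit 19)⟩))
(.nd (.lf ⟨(nat_lit 0x43d83d8), (nat_lit 5), (nat_lit 0xf60f604), (nat_lit 5)⟩)
(.lf ⟨(nat_lit 0xf414), (nat_lit 3), (nat_lit 0x105103d0), (nat_lit 5)⟩))))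
(.nd (.nd (.nd (.lf ⟨(nat_lit 0x3c43c4), (nat_lit 4), (nat_lit 0x10f10f), (nat_lit 4)⟩)
(.lf ⟨(nat_lit 0x29528f), (nat_lit 4), (nat_lit 0x3ca54a), (nat_lit 4)⟩))
(.nd (.lf ⟨(nat_lit 463), (nat_lit 2), (nat_lit 0xc3cc3c930f31621838931624c20e247), (nat_lit 21)⟩)
(.lf ⟨(nat_lit 0xf498), (nat_lit 3), (nat_lit 0x126123d2), (nat_lit 5)⟩)))
(.nd (.nd (.lf ⟨(nat_lit 0x3431cd0c7), (nat_lit 6), (nat_lit 0x1cd0c7343), (nat_lit 6)⟩)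
(.lf ⟨(nat_lit 0xc2c718c1c6), (nat_lit 7), (nat_lit 0x1c60c7183), (nat_lit 6)⟩))
(.nd (.lf ⟨(nat_lit 0x651238a), (nat_lit 5), (nat_lit 0x1239750a5d448e19448e), (nat_lit 13)⟩)
(.lf ⟨(nat_lit 0x18e187), (nat_lit 4), (nat_lit 0x1c6386), (nat_lit 4)⟩))))))
(.nd (.nd (.nd (.nd (.nd (.nd (.lf ⟨(nat_lit 520), (nat_lit 2), (nat_lit 0), (nat_lit 0)⟩)
(.lf ⟨(nat_lit 0x143ce), (nat_lit 3), (nat_lit 0x81242049), (nat_lit 6)⟩))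
(.lf ⟨(nat_lit 0x930f), (nat_lit 3), (nat_lit 0x144d459351651351651358f4cf30f4cc24c), (nat_lit 23)⟩))
(.nd (.lf ⟨(nat_lit 596), (nat_lit 2), (nat_lit 0x509), (nat_lit 2)⟩)
(.lf ⟨(nat_lit 0x3154d64d0), (nat_lit 6), (nat_lit 0x4d03154d6), (nat_lit 6)⟩)))
(.nd (.nd (.lf ⟨(nat_lit 0x38110e044), (nat_lit 6), (nat_lit 0x10e044381), (nat_lit 6)⟩)
(.lf ⟨(nat_lit 85), (nat_lit 2), (nat_lit 0x55238a48a50e29250f2943d23ca50f38a50e29251228f38a50f48f2943ca54f38a50e29250a50f48f2943ca54f38a50e2922943ce28e286389289181), (nat_lit 80)⟩))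
(.nd (.lf ⟨(nat_lit 0x395381395381), (nat_lit 8), (nat_lit 0x395381395381), (nat_lit 8)⟩)
(.lf ⟨(nat_lit 919), (nat_lit 2), (nat_lit 0x5ce), (nat_lit 2)⟩))))
(.nd (.nd (.nd (.lf ⟨(nat_lit 150), (nat_lit 2), (nat_lit 0x24f1092163c42481083c920424f24f24f242), (nat_lit 24)⟩)
(.lf ⟨(nat_lit 0x630d), (nat_lit 3), (nat_lit 0x1059541630d31518c), (nat_lit 11)⟩))
(.nd (.lf ⟨(nat_lit 0x410250410250), (nat_lit 8), (nat_lit 0x409410409410), (nat_lit 8)⟩)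
(.lf ⟨(nat_lit 146), (nat_lit 2), (nat_lit 0x1749448f48f38a5123d23ce28e18e182), (nat_lit 21)⟩)))
(.nd (.nd (.lf ⟨(nat_lit 0x954f), (nat_lit 3), (nat_lit 0x153c9), (nat_lit 3)⟩)
(.lf ⟨(nat_lit 0xf494), (nat_lit 3), (nat_lit 0x154944953d2), (nat_lit 7)⟩))
(.nd (.lf ⟨(nat_lit 12), (nat_lit 1), (nat_lit 0x87087), (nat_lit 4)⟩)
(.lf ⟨(nat_lit 0x754f), (nat_lit 3), (nat_lit 0xf3883881d5), (nat_lit 7)⟩)))))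
(.nd (.nd (.nd (.nd (.lf ⟨(nat_lit 0xc2043081), (nat_lit 6), (nat_lit 0x420c1083), (nat_lit 6)⟩)
(.lf ⟨(nat_lit 0), (nat_lit 0), (nat_lit 0x114594309309114594309309), (nat_lit 16)⟩))
(.nd (.lf ⟨(nat_lit 0x202141202141), (nat_lit 8), (nat_lit 0x45202045202), (nat_lit 8)⟩)
(.lf ⟨(nat_lit 655), (nat_lit 2), (nat_lit 0x48f48a), (nat_lit 4)⟩)))
(.nd (.nd (.lf ⟨(nat_lit 268), (nat_lit 2), (nat_lit 0x3081c81c4), (nat_lit 6)⟩)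
(.lf ⟨(nat_lit 0), (nat_lit 0), (nat_lit 0x10c10c), (nat_lit 4)⟩))
(.nd (.lf ⟨(nat_lit 12), (nat_lit 1), (nat_lit 0x201201), (nat_lit 4)⟩)
(.lf ⟨(nat_lit 0x8e2c238b), (nat_lit 6), (nat_lit 0x8e2c238b), (nat_lit 6)⟩))))
(.nd (.nd (.nd (.lf ⟨(nat_lit 0x1090c11090c1), (nat_lit 8), (nat_lit 0x490c40490c4), (nat_lit 8)⟩)
(.lf ⟨(nat_lit 0xa50f296), (nat_lit 5), (nat_lit 0x162943ca), (nat_lit 5)⟩))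
(.nd (.lf ⟨(nat_lit 720), (nat_lit 2), (nat_lit 0x40b), (nat_lit 2)⟩)
(.lf ⟨(nat_lit 87), (nat_lit 2), (nat_lit 0x5d449448e28e281), (nat_lit 10)⟩)))
(.nd (.nd (.lf ⟨(nat_lit 76), (nat_lit 2), (nat_lit 769), (nat_lit 2)⟩)
(.lf ⟨(nat_lit 12), (nat_lit 1), (nat_lit 0x48048), (nat_lit 4)⟩))
(.nd (.lf ⟨(nat_lit 0x554f), (nat_lit 3), (nat_lit 0x143ce19239750a549286489155), (nat_lit 17)⟩)
(.lf ⟨(nat_lit 0x165482c83882c8388), (nat_lit 11), (nat_lit 0xb20e20b20e216548), (nat_lit 11)⟩)))))))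
(.nd (.nd (.nd (.nd (.nd (.nd (.nd (.lf ⟨(nat_lit 19), (nat_lit 1), (nat_lit 0x10e10e), (nat_lit 4)⟩)
(.lf ⟨(nat_lit 0x638b), (nat_lit 3), (nat_lit 0x5cd38d2c6), (nat_lit 6)⟩))
(.lf ⟨(nat_lit 0xf4d4), (nat_lit 3), (nat_lit 0x164d65164d63d3), (nat_lit 9)⟩))
(.nd (.lf ⟨(nat_lit 593), (nat_lit 2), (nat_lit 0x39134e349), (nat_lit 6)⟩)
(.lf ⟨(nat_lit 0x20b20c2082c8308), (nat_lit 10), (nat_lit 0x30820b20c2082c8), (nat_lit 10)⟩)))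
(.nd (.nd (.lf ⟨(nat_lit 215), (nat_lit 2), (nat_lit 0x517517517503), (nat_lit 8)⟩)
(.lf ⟨(nat_lit 0x182509182509), (nat_lit 8), (nat_lit 0x509182509182), (nat_lit 8)⟩))
(.nd (.lf ⟨(nat_lit 0x38b14838b20538b14838b205), (nat_lit 16), (nat_lit 0), (nat_lit 0)⟩)
(.lf ⟨(nat_lit 0xf496), (nat_lit 3), (nat_lit 0x144964943d2), (nat_lit 7)⟩))))
(.nd (.nd (.nd (.lf ⟨(nat_lit 0x341341), (nat_lit 4), (nat_lit 0x4d04d), (nat_lit 4)⟩)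
(.lf ⟨(nat_lit 0x28610a3cd28610a), (nat_lit 10), (nat_lit 0x18a10a106284284), (nat_lit 10)⟩))
(.nd (.lf ⟨(nat_lit 0xd39134e), (nat_lit 5), (nat_lit 0xe44d38d), (nat_lit 5)⟩)
(.lf ⟨(nat_lit 139), (nat_lit 2), (nat_lit 0x1449135240d2ca10a102), (nat_lit 13)⟩)))
(.nd (.nd (.lf ⟨(nat_lit 135), (nat_lit 2), (nat_lit 0xc1c2), (nat_lit 3)⟩)
(.lf ⟨(nat_lit 0x28e2943d2), (nat_lit 6), (nat_lit 0x50f4943ca38a50f), (nat_lit 10)⟩))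
(.nd (.lf ⟨(nat_lit 0x930b), (nat_lit 3), (nat_lit 0xc4d04d02cc24c), (nat_lit 9)⟩)
(.lf ⟨(nat_lit 145), (nat_lit 2), (nat_lit 0x44c28828818c182), (nat_lit 10)⟩)))))
(.nd (.nd (.nd (.nd (.nd (.lf ⟨(nat_lit 0x618), (nat_lit 2), (nat_lit 0), (nat_lit 0)⟩)
(.lf ⟨(nat_lit 146), (nat_lit 2), (nat_lit 0x482), (nat_lit 2)⟩))
(.lf ⟨(nat_lit 0x44b44b), (nat_lit 4), (nat_lit 0x4452d114b), (nat_lit 6)⟩))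
(.nd (.lf ⟨(nat_lit 0x1d24ce), (nat_lit 4), (nat_lit 0x4cb38b4c7493), (nat_lit 8)⟩)
(.lf ⟨(nat_lit 0xb3d3), (nat_lit 3), (nat_lit 0x113d13d344f4d13d32cf), (nat_lit 13)⟩)))
(.nd (.nd (.lf ⟨(nat_lit 0x24a24a), (nat_lit 4), (nat_lit 0x289289), (nat_lit 4)⟩)
(.lf ⟨(nat_lit 0x57057), (nat_lit 4), (nat_lit 0x57057), (nat_lit 4)⟩))
(.nd (.lf ⟨(nat_lit 88), (nat_lit 2), (nat_lit 0x6145943cc3cc1d61c1), (nat_lit 12)⟩)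
(.lf ⟨(nat_lit 335), (nat_lit 2), (nat_lit 0x153ce246389185), (nat_lit 9)⟩))))
(.nd (.nd (.nd (.lf ⟨(nat_lit 0x1c61c6), (nat_lit 4), (nat_lit 0x187187), (nat_lit 4)⟩)
(.lf ⟨(nat_lit 0x125d4494), (nat_lit 5), (nat_lit 0x14497512), (nat_lit 5)⟩))
(.nd (.lf ⟨(nat_lit 0x15338b4d238b15338b4d238b), (nat_lit 16), (nat_lit 0x15338b4d238b15338b4d238b), (nat_lit 16)⟩)
(.lf ⟨(nat_lit 728), (nat_lit 2), (nat_lit 0x60b), (nat_lit 2)⟩)))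
(.nd (.nd (.lf ⟨(nat_lit 0x428810a), (nat_lit 5), (nat_lit 0x828810a204), (nat_lit 7)⟩)
(.lf ⟨(nat_lit 0x8291), (nat_lit 3), (nat_lit 0x1654a44d29654d30d30a34a20a), (nat_lit 17)⟩))
(.nd (.lf ⟨(nat_lit 145), (nat_lit 2), (nat_lit 0x44d30828630829654f34f182), (nat_lit 16)⟩)
(.lf ⟨(nat_lit 716), (nat_lit 2), (nat_lit 0x34c34b), (nat_lit 4)⟩))))))
(.nd (.nd (.nd (.nd (.nd (.nd (.lf ⟨(nat_lit 200), (nat_lit 2), (nat_lit 0xd203), (nat_lit 3)⟩)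
(.lf ⟨(nat_lit 335), (nat_lit 2), (nat_lit 0x6173ce20e205), (nat_lit 8)⟩))
(.lf ⟨(nat_lit 0x28624a189), (nat_lit 6), (nat_lit 0x24a189286), (nat_lit 6)⟩))
(.nd (.lf ⟨(nat_lit 149), (nat_lit 2), (nat_lit 0x542), (nat_lit 2)⟩)
(.lf ⟨(nat_lit 0x132c940c34c), (nat_lit 7), (nat_lit 0x1030d3132c9), (nat_lit 7)⟩)))
(.nd (.nd (.lf ⟨(nat_lit 0x306306), (nat_lit 4), (nat_lit 0x18c18c), (nat_lit 4)⟩)
(.lf ⟨(nat_lit 0x297515), (nat_lit 4), (nat_lit 0x5d4554294), (nat_lit 6)⟩))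
(.nd (.lf ⟨(nat_lit 0x204444184444188111106111106), (nat_lit 18), (nat_lit 0x204444184444188111106111106), (nat_lit 18)⟩)
(.lf ⟨(nat_lit 335), (nat_lit 2), (nat_lit 0x5d53ce24a18e24a185), (nat_lit 12)⟩))))
(.nd (.nd (.nd (.lf ⟨(nat_lit 0x383383), (nat_lit 4), (nat_lit 0xce0ce), (nat_lit 4)⟩)
(.lf ⟨(nat_lit 0x114044501), (nat_lit 6), (nat_lit 0x114044501), (nat_lit 6)⟩))
(.nd (.lf ⟨(nat_lit 0x3c948e3c948e), (nat_lit 8), (nat_lit 0x48e3c948e3c9), (nat_lit 8)⟩)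
(.lf ⟨(nat_lit 0), (nat_lit 0), (nat_lit 0x109109), (nat_lit 4)⟩)))
(.nd (.nd (.lf ⟨(nat_lit 268), (nat_lit 2), (nat_lit 772), (nat_lit 2)⟩)
(.lf ⟨(nat_lit 0xf494), (nat_lit 3), (nat_lit 0x125123d2), (nat_lit 5)⟩))
(.nd (.lf ⟨(nat_lit 0x3488488), (nat_lit 5), (nat_lit 0x1235234848d48d20848d48d212212203), (nat_lit 21)⟩)
(.lf ⟨(nat_lit 593), (nat_lit 2), (nat_lit 0x44e34e349), (nat_lit 6)⟩)))))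
(.nd (.nd (.nd (.nd (.lf ⟨(nat_lit 585), (nat_lit 2), (nat_lit 0), (nat_lit 0)⟩)
(.lf ⟨(nat_lit 5), (nat_lit 1), (nat_lit 0x43043), (nat_lit 4)⟩))
(.nd (.lf ⟨(nat_lit 0x501501), (nat_lit 4), (nat_lit 0), (nat_lit 0)⟩)
(.lf ⟨(nat_lit 719), (nat_lit 2), (nat_lit 0x4cf4cf30f34c34c3cd38c3cd38b), (nat_lit 18)⟩)))
(.nd (.nd (.lf ⟨(nat_lit 0x14b1c9147), (nat_lit 6), (nat_lit 0x1c914b1c9149), (nat_lit 8)⟩)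
(.lf ⟨(nat_lit 272), (nat_lit 2), (nat_lit 0x40c24c244), (nat_lit 6)⟩))
(.nd (.lf ⟨(nat_lit 782), (nat_lit 2), (nat_lit 0x396396396316), (nat_lit 8)⟩)
(.lf ⟨(nat_lit 0x638b), (nat_lit 3), (nat_lit 0x133d33cc2c638c), (nat_lit 9)⟩))))
(.nd (.nd (.nd (.lf ⟨(nat_lit 0x1430c21430c2), (nat_lit 8), (nat_lit 0x83143083143), (nat_lit 8)⟩)
(.lf ⟨(nat_lit 0xf4d6), (nat_lit 3), (nat_lit 0x135933d3), (nat_lit 5)⟩))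
(.nd (.lf ⟨(nat_lit 0x630718c187), (nat_lit 7), (nat_lit 0xc1c63061c6), (nat_lit 7)⟩)
(.lf ⟨(nat_lit 340), (nat_lit 2), (nat_lit 0x49448e28e285), (nat_lit 8)⟩)))
(.nd (.nd (.lf ⟨(nat_lit 982), (nat_lit 2), (nat_lit 0x58f), (nat_lit 2)⟩)
(.lf ⟨(nat_lit 139), (nat_lit 2), (nat_lit 0x142ca45010a102), (nat_lit 9)⟩))
(.nd (.lf ⟨(nat_lit 465), (nat_lit 2), (nat_lit 0x4d13522cc21348b3084cd4cb20b207), (nat_lit 20)⟩)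
(.lf ⟨(nat_lit 653), (nat_lit 2), (nat_lit 842), (nat_lit 2)⟩))))))))
(.nd (.nd (.nd (.nd (.nd (.nd (.nd (.nd (.lf ⟨(nat_lit 11), (nat_lit 1), (nat_lit 0xc70c7), (nat_lit 4)⟩)
(.lf ⟨(nat_lit 0x5038d38d2c140e34e34b), (nat_lit 14), (nat_lit 0x5038d38d2c140e34e34b), (nat_lit 14)⟩))
(.lf ⟨(nat_lit 0x29528e), (nat_lit 4), (nat_lit 0x38a4953d23ca), (nat_lit 8)⟩))
(.nd (.lf ⟨(nat_lit 0x8589), (nat_lit 3), (nat_lit 0x2563c958f248), (nat_lit 8)⟩)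
(.lf ⟨(nat_lit 0xd390), (nat_lit 3), (nat_lit 0x1139039134e), (nat_lit 7)⟩)))
(.nd (.nd (.lf ⟨(nat_lit 0x81143081143), (nat_lit 8), (nat_lit 0xc50810c5081), (nat_lit 8)⟩)
(.lf ⟨(nat_lit 336), (nat_lit 2), (nat_lit 0x490485), (nat_lit 4)⟩))
(.nd (.lf ⟨(nat_lit 0x14a5d4294), (nat_lit 6), (nat_lit 0x29750a505), (nat_lit 6)⟩)
(.lf ⟨(nat_lit 0xe35238d), (nat_lit 5), (nat_lit 0x60e34360e343), (nat_lit 8)⟩))))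
(.nd (.nd (.nd (.lf ⟨(nat_lit 84), (nat_lit 2), (nat_lit 0xf24238f5093c908e2543c1), (nat_lit 15)⟩)
(.lf ⟨(nat_lit 0x28910a24a10a), (nat_lit 8), (nat_lit 0xca10a103284284), (nat_lit 10)⟩))
(.nd (.lf ⟨(nat_lit 0x7614), (nat_lit 3), (nat_lit 0xf61458c3cc1d6), (nat_lit 9)⟩)
(.lf ⟨(nat_lit 0x58c54d30d), (nat_lit 6), (nat_lit 0x30234c08d), (nat_lit 6)⟩)))
(.nd (.nd (.lf ⟨(nat_lit 0x243204243204), (nat_lit 8), (nat_lit 0x108243108243), (nat_lit 8)⟩)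
(.lf ⟨(nat_lit 0xa4953d2), (nat_lit 5), (nat_lit 0x1254f48f28f), (nat_lit 7)⟩))
(.nd (.lf ⟨(nat_lit 0), (nat_lit 0), (nat_lit 0xcc2cc0cc2cc), (nat_lit 8)⟩)
(.lf ⟨(nat_lit 0x218181606048606058181), (nat_lit 14), (nat_lit 0x218181606048606058181), (nat_lit 14)⟩)))))
(.nd (.nd (.nd (.nd (.nd (.lf ⟨(nat_lit 207), (nat_lit 2), (nat_lit 0x153c3), (nat_lit 3)⟩)
(.lf ⟨(nat_lit 0x1509348e2c7), (nat_lit 7), (nat_lit 0x1845038c20e2185d441348e2c7542), (nat_lit 19)⟩))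
(.lf ⟨(nat_lit 335), (nat_lit 2), (nat_lit 0x143ce1975153d23ce29524a48e24a5d448e292197505), (nat_lit 29)⟩))
(.nd (.lf ⟨(nat_lit 87), (nat_lit 2), (nat_lit 0x5055d4141), (nat_lit 6)⟩)
(.lf ⟨(nat_lit 340), (nat_lit 2), (nat_lit 0x55448a51255250f48f28e2943ce2943c5), (nat_lit 22)⟩)))
(.nd (.nd (.lf ⟨(nat_lit 0x20e20e), (nat_lit 4), (nat_lit 0x388388), (nat_lit 4)⟩)
(.lf ⟨(nat_lit 0xa204284), (nat_lit 5), (nat_lit 0x10a084282), (nat_lit 6)⟩))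
(.nd (.lf ⟨(nat_lit 0), (nat_lit 0), (nat_lit 0x182182), (nat_lit 4)⟩)
(.lf ⟨(nat_lit 855), (nat_lit 2), (nat_lit 0x5cd), (nat_lit 2)⟩))))
(.nd (.nd (.nd (.lf ⟨(nat_lit 0x185185), (nat_lit 4), (nat_lit 0x146146), (nat_lit 4)⟩)
(.lf ⟨(nat_lit 0x4c3cd18c18130f346306), (nat_lit 14), (nat_lit 0x4c3cd18c18130f346306), (nat_lit 14)⟩))
(.nd (.lf ⟨(nat_lit 0x4285), (nat_lit 3), (nat_lit 0xe2c510a), (nat_lit 5)⟩)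
(.lf ⟨(nat_lit 0x4d5), (nat_lit 2), (nat_lit 0x553), (nat_lit 2)⟩)))
(.nd (.nd (.lf ⟨(nat_lit 0x838c), (nat_lit 3), (nat_lit 0xe30e20e), (nat_lit 5)⟩)
(.lf ⟨(nat_lit 0x58d31534c), (nat_lit 6), (nat_lit 0x34c08d302), (nat_lit 6)⟩))
(.nd (.lf ⟨(nat_lit 0), (nat_lit 0), (nat_lit 0x348348), (nat_lit 4)⟩)
(.lf ⟨(nat_lit 0x506506), (nat_lit 4), (nat_lit 0), (nat_lit 0)⟩))))))
(.nd (.nd (.nd (.nd (.nd (.nd (.lf ⟨(nat_lit 0xc70c7), (nat_lit 4), (nat_lit 0x1c31c3), (nat_lit 4)⟩)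
(.lf ⟨(nat_lit 0), (nat_lit 0), (nat_lit 0x1d120e2063861d120e206386), (nat_lit 16)⟩))
(.lf ⟨(nat_lit 0x940c3cd), (nat_lit 5), (nat_lit 0xc3cd2d45943154d64164d640c2cc250315), (nat_lit 23)⟩))
(.nd (.lf ⟨(nat_lit 0x940c250), (nat_lit 5), (nat_lit 0x10250309), (nat_lit 5)⟩)
(.lf ⟨(nat_lit 0x414414), (nat_lit 4), (nat_lit 0x510510), (nat_lit 4)⟩)))
(.nd (.nd (.lf ⟨(nat_lit 0x14c14c), (nat_lit 4), (nat_lit 0x305305), (nat_lit 4)⟩)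
(.lf ⟨(nat_lit 0x50f2943ca), (nat_lit 6), (nat_lit 0x8e18e182386386), (nat_lit 10)⟩))
(.nd (.lf ⟨(nat_lit 0x395155385395155385), (nat_lit 12), (nat_lit 0), (nat_lit 0)⟩)
(.lf ⟨(nat_lit 0x10a6144ce), (nat_lit 6), (nat_lit 0x45028b5123914902ca10a), (nat_lit 14)⟩))))
(.nd (.nd (.nd (.lf ⟨(nat_lit 650), (nat_lit 2), (nat_lit 0), (nat_lit 0)⟩)
(.lf ⟨(nat_lit 0x930f), (nat_lit 3), (nat_lit 0xc3cc24c), (nat_lit 5)⟩))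
(.nd (.lf ⟨(nat_lit 0x282304282304), (nat_lit 8), (nat_lit 0x304282304282), (nat_lit 8)⟩)
(.lf ⟨(nat_lit 0x10a4ce24a), (nat_lit 6), (nat_lit 0x28928910a4ce289), (nat_lit 10)⟩)))
(.nd (.nd (.lf ⟨(nat_lit 211), (nat_lit 2), (nat_lit 0xb1c94ce2c7247147152383), (nat_lit 15)⟩)
(.lf ⟨(nat_lit 0xa48a50e), (nat_lit 5), (nat_lit 0x1250e), (nat_lit 3)⟩))
(.nd (.lf ⟨(nat_lit 0x21221235234848d48d20848848d48d212352348), (nat_lit 26), (nat_lit 0x21221235234848d48d20848848d48d212352348), (nat_lit 26)⟩)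
(.lf ⟨(nat_lit 147), (nat_lit 2), (nat_lit 0x184ce20e202), (nat_lit 7)⟩)))))
(.nd (.nd (.nd (.nd (.lf ⟨(nat_lit 0x181181), (nat_lit 4), (nat_lit 0x46046), (nat_lit 4)⟩)
(.lf ⟨(nat_lit 12), (nat_lit 1), (nat_lit 0x1c12071c1207), (nat_lit 8)⟩))
(.nd (.lf ⟨(nat_lit 0x3810c23810c2), (nat_lit 8), (nat_lit 0x83381083381), (nat_lit 8)⟩)
(.lf ⟨(nat_lit 0x204450111408111404450), (nat_lit 14), (nat_lit 0x204450111408111404450), (nat_lit 14)⟩)))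
(.nd (.nd (.lf ⟨(nat_lit 0x403403), (nat_lit 4), (nat_lit 0), (nat_lit 0)⟩)
(.lf ⟨(nat_lit 15), (nat_lit 1), (nat_lit 0x502254089), (nat_lit 6)⟩))
(.nd (.lf ⟨(nat_lit 0x9316), (nat_lit 3), (nat_lit 0xc58c24c), (nat_lit 5)⟩)
(.lf ⟨(nat_lit 0x452), (nat_lit 2), (nat_lit 0x491), (nat_lit 2)⟩))))
(.nd (.nd (.nd (.lf ⟨(nat_lit 0x555), (nat_lit 2), (nat_lit 0), (nat_lit 0)⟩)
(.lf ⟨(nat_lit 0x5614), (nat_lit 3), (nat_lit 0x1429751238a5d448e29229438a48f38a3ce2923ce29438a50f38a50e2923ca50f29438a158), (nat_lit 49)⟩))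
(.nd (.lf ⟨(nat_lit 0), (nat_lit 0), (nat_lit 0x146146), (nat_lit 4)⟩)
(.lf ⟨(nat_lit 0x3d05d4), (nat_lit 4), (nat_lit 0x6105d85103d0), (nat_lit 8)⟩)))
(.nd (.nd (.lf ⟨(nat_lit 981), (nat_lit 2), (nat_lit 0x54f), (nat_lit 2)⟩)
(.lf ⟨(nat_lit 0x38b20e2c8), (nat_lit 6), (nat_lit 0x20e2c838b), (nat_lit 6)⟩))
(.nd (.lf ⟨(nat_lit 0x30f318), (nat_lit 4), (nat_lit 0x61651650c3cc), (nat_lit 8)⟩)
(.lf ⟨(nat_lit 528), (nat_lit 2), (nat_lit 0x40e34e348), (nat_lit 6)⟩)))))))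
(.nd (.nd (.nd (.nd (.nd (.nd (.nd (.lf ⟨(nat_lit 67), (nat_lit 2), (nat_lit 0x50c1), (nat_lit 3)⟩)
(.lf ⟨(nat_lit 0x114444511), (nat_lit 6), (nat_lit 0x114444511), (nat_lit 6)⟩))
(.lf ⟨(nat_lit 145), (nat_lit 2), (nat_lit 0x59544c20a18c20a182), (nat_lit 12)⟩))
(.nd (.lf ⟨(nat_lit 0x51c9), (nat_lit 3), (nat_lit 0x2ce2c724748e147), (nat_lit 10)⟩)
(.lf ⟨(nat_lit 721), (nat_lit 2), (nat_lit 0x49135234b), (nat_lit 6)⟩)))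
(.nd (.nd (.lf ⟨(nat_lit 0x393393), (nat_lit 4), (nat_lit 0x4ce4ce), (nat_lit 4)⟩)
(.lf ⟨(nat_lit 0x29428f), (nat_lit 4), (nat_lit 0x3ca50a), (nat_lit 4)⟩))
(.nd (.lf ⟨(nat_lit 0xa38b14838b205), (nat_lit 9), (nat_lit 0xe2c520e2c814a), (nat_lit 9)⟩)
(.lf ⟨(nat_lit 850), (nat_lit 2), (nat_lit 0x3d23cd), (nat_lit 4)⟩))))
(.nd (.nd (.nd (.lf ⟨(nat_lit 0x243243), (nat_lit 4), (nat_lit 0), (nat_lit 0)⟩)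
(.lf ⟨(nat_lit 139), (nat_lit 2), (nat_lit 0x142ca20520510a102), (nat_lit 11)⟩))
(.nd (.lf ⟨(nat_lit 0x2943ca50f), (nat_lit 6), (nat_lit 0x50f2943ca), (nat_lit 6)⟩)
(.lf ⟨(nat_lit 0x381154154381154154), (nat_lit 12), (nat_lit 0x381154154381154154), (nat_lit 12)⟩)))
(.nd (.nd (.lf ⟨(nat_lit 75), (nat_lit 2), (nat_lit 0x2c7147141), (nat_lit 6)⟩)
(.lf ⟨(nat_lit 0x30f44d30d), (nat_lit 6), (nat_lit 0x44f44d30f44d30f), (nat_lit 10)⟩))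
(.nd (.lf ⟨(nat_lit 0x54f2d52cf), (nat_lit 6), (nat_lit 0xcf2cf2c33cb3cb), (nat_lit 10)⟩)
(.lf ⟨(nat_lit 0x638c3cd), (nat_lit 5), (nat_lit 0xe30f34e30638c), (nat_lit 9)⟩)))))
(.nd (.nd (.nd (.nd (.nd (.lf ⟨(nat_lit 71), (nat_lit 2), (nat_lit 0x107107107101), (nat_lit 8)⟩)
(.lf ⟨(nat_lit 209), (nat_lit 2), (nat_lit 0x443), (nat_lit 2)⟩))
(.lf ⟨(nat_lit 0xd84cb60b0d84cb60b), (nat_lit 12), (nat_lit 0xd84cb60b0d84cb60b), (nat_lit 12)⟩))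
(.nd (.lf ⟨(nat_lit 0x89101089101), (nat_lit 8), (nat_lit 0x49102049102), (nat_lit 8)⟩)
(.lf ⟨(nat_lit 468), (nat_lit 2), (nat_lit 0x5133d33c7), (nat_lit 6)⟩)))
(.nd (.nd (.lf ⟨(nat_lit 0x2448188), (nat_lit 5), (nat_lit 0xd091346), (nat_lit 5)⟩)
(.lf ⟨(nat_lit 0x35575155d4), (nat_lit 7), (nat_lit 0x155d4557503), (nat_lit 7)⟩))
(.nd (.lf ⟨(nat_lit 0x3484cd4c8), (nat_lit 6), (nat_lit 0xc84c80c84c8), (nat_lit 8)⟩)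
(.lf ⟨(nat_lit 791), (nat_lit 2), (nat_lit 0x5d441440c), (nat_lit 6)⟩))))
(.nd (.nd (.nd (.lf ⟨(nat_lit 0x247247), (nat_lit 4), (nat_lit 0x1c91c9), (nat_lit 4)⟩)
(.lf ⟨(nat_lit 726), (nat_lit 2), (nat_lit 0x59335334b), (nat_lit 6)⟩))
(.nd (.lf ⟨(nat_lit 11), (nat_lit 1), (nat_lit 0xc70c7), (nat_lit 4)⟩)
(.lf ⟨(nat_lit 335), (nat_lit 2), (nat_lit 0x5d551250f48e24a18e24a185), (nat_lit 16)⟩)))
(.nd (.nd (.lf ⟨(nat_lit 594), (nat_lit 2), (nat_lit 0x392389), (nat_lit 4)⟩)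
(.lf ⟨(nat_lit 0x1134e44d), (nat_lit 5), (nat_lit 0x389441389441), (nat_lit 8)⟩))
(.nd (.lf ⟨(nat_lit 847), (nat_lit 2), (nat_lit 973), (nat_lit 2)⟩)
(.lf ⟨(nat_lit 0x5c25c2), (nat_lit 4), (nat_lit 0), (nat_lit 0)⟩))))))
(.nd (.nd (.nd (.nd (.nd (.nd (.lf ⟨(nat_lit 0x410), (nat_lit 2), (nat_lit 0), (nat_lit 0)⟩)
(.lf ⟨(nat_lit 530), (nat_lit 2), (nat_lit 0x488), (nat_lit 2)⟩))
(.lf ⟨(nat_lit 0x308283308283), (nat_lit 8), (nat_lit 0x283308283308), (nat_lit 8)⟩))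
(.nd (.lf ⟨(nat_lit 590), (nat_lit 2), (nat_lit 905), (nat_lit 2)⟩)
(.lf ⟨(nat_lit 918), (nat_lit 2), (nat_lit 0x5933d33ce), (nat_lit 6)⟩)))
(.nd (.nd (.lf ⟨(nat_lit 0x347347), (nat_lit 4), (nat_lit 0x1cd1cd), (nat_lit 4)⟩)
(.lf ⟨(nat_lit 0xd4d6), (nat_lit 3), (nat_lit 0x13593353), (nat_lit 5)⟩))
(.nd (.lf ⟨(nat_lit 0x3c73c7), (nat_lit 4), (nat_lit 0x3c73c7), (nat_lit 4)⟩)
(.lf ⟨(nat_lit 0x638a), (nat_lit 3), (nat_lit 0xa18e), (nat_lit 3)⟩))))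
(.nd (.nd (.nd (.lf ⟨(nat_lit 0x2020c8083), (nat_lit 6), (nat_lit 0xc8083202), (nat_lit 6)⟩)
(.lf ⟨(nat_lit 0x153c6), (nat_lit 3), (nat_lit 0x2430890c2), (nat_lit 6)⟩))
(.nd (.lf ⟨(nat_lit 0x8b0822c2), (nat_lit 6), (nat_lit 0), (nat_lit 0)⟩)
(.lf ⟨(nat_lit 588), (nat_lit 2), (nat_lit 0x183cc3c9), (nat_lit 5)⟩)))
(.nd (.nd (.lf ⟨(nat_lit 0x441441), (nat_lit 4), (nat_lit 0), (nat_lit 0)⟩)
(.lf ⟨(nat_lit 0x595196546), (nat_lit 6), (nat_lit 0), (nat_lit 0)⟩))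
(.nd (.lf ⟨(nat_lit 10), (nat_lit 1), (nat_lit 0x85085), (nat_lit 4)⟩)
(.lf ⟨(nat_lit 342), (nat_lit 2), (nat_lit 0x58e34e34c2cc2c5), (nat_lit 10)⟩)))))
(.nd (.nd (.nd (.nd (.lf ⟨(nat_lit 140), (nat_lit 2), (nat_lit 0x10810720c10810710810c20720c207108102), (nat_lit 24)⟩)
(.lf ⟨(nat_lit 0x38b28e2ca), (nat_lit 6), (nat_lit 0x14a10a105284284), (nat_lit 10)⟩))
(.nd (.lf ⟨(nat_lit 0x1ca20a1ca), (nat_lit 6), (nat_lit 0x20a207288287), (nat_lit 8)⟩)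
(.lf ⟨(nat_lit 0x20e21020e210), (nat_lit 8), (nat_lit 0x20e21020e210), (nat_lit 8)⟩)))
(.nd (.nd (.lf ⟨(nat_lit 0x52c714b), (nat_lit 5), (nat_lit 0xb14b1c5), (nat_lit 5)⟩)
(.lf ⟨(nat_lit 0x554f), (nat_lit 3), (nat_lit 0x1749548f4943d23ca3ce2922943ce29438a49538a3ce29254f2892863892923ca50f286155), (nat_lit 49)⟩))
(.nd (.lf ⟨(nat_lit 0x18c2cc), (nat_lit 4), (nat_lit 0x30b30b18b), (nat_lit 6)⟩)
(.lf ⟨(nat_lit 664), (nat_lit 2), (nat_lit 0x60a), (nat_lit 2)⟩))))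
(.nd (.nd (.nd (.lf ⟨(nat_lit 264), (nat_lit 2), (nat_lit 516), (nat_lit 2)⟩)
(.lf ⟨(nat_lit 0x630d), (nat_lit 3), (nat_lit 0x1055030d31518c), (nat_lit 9)⟩))
(.nd (.lf ⟨(nat_lit 0x3c22d42d408f08b50b502), (nat_lit 14), (nat_lit 0x3c22d42d408f08b50b502), (nat_lit 14)⟩)
(.lf ⟨(nat_lit 0x60e60e), (nat_lit 4), (nat_lit 0), (nat_lit 0)⟩)))
(.nd (.nd (.lf ⟨(nat_lit 274), (nat_lit 2), (nat_lit 0xb24725338b1c91c51c5253384), (nat_lit 17)⟩)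
(.lf ⟨(nat_lit 16), (nat_lit 1), (nat_lit 0x303303), (nat_lit 4)⟩))
(.nd (.lf ⟨(nat_lit 656), (nat_lit 2), (nat_lit 0x40a), (nat_lit 2)⟩)
(.lf ⟨(nat_lit 0x174d2386386), (nat_lit 7), (nat_lit 0x54b0552c1), (nat_lit 6)⟩)))))))))
(.nd (.nd (.nd (.nd (.nd (.nd (.nd (.nd (.nd (.lf ⟨(nat_lit 7), (nat_lit 1), (nat_lit 0x44044), (nat_lit 4)⟩)
(.lf ⟨(nat_lit 0x16349), (nat_lit 3), (nat_lit 0xc8103204), (nat_lit 6)⟩))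
(.lf ⟨(nat_lit 401), (nat_lit 2), (nat_lit 0x34a44d286), (nat_lit 6)⟩))
(.nd (.lf ⟨(nat_lit 152), (nat_lit 2), (nat_lit 0x218508502), (nat_lit 6)⟩)
(.lf ⟨(nat_lit 0xc54c353), (nat_lit 5), (nat_lit 0x1640d4cd3154d64d030d), (nat_lit 13)⟩)))
(.nd (.nd (.lf ⟨(nat_lit 525), (nat_lit 2), (nat_lit 840), (nat_lit 2)⟩)
(.lf ⟨(nat_lit 0xb3d3), (nat_lit 3), (nat_lit 0xd4cf3533ce35334e2cf), (nat_lit 13)⟩))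
(.nd (.lf ⟨(nat_lit 0x2953ca3ca54f28f), (nat_lit 10), (nat_lit 0), (nat_lit 0)⟩)
(.lf ⟨(nat_lit 341), (nat_lit 2), (nat_lit 0x554494485), (nat_lit 6)⟩))))
(.nd (.nd (.nd (.lf ⟨(nat_lit 0x105105), (nat_lit 4), (nat_lit 0x144144), (nat_lit 4)⟩)
(.lf ⟨(nat_lit 0x59459430f24c25651650c3c9309), (nat_lit 18), (nat_lit 0), (nat_lit 0)⟩))
(.nd (.lf ⟨(nat_lit 152), (nat_lit 2), (nat_lit 0x61630f3163c2), (nat_lit 8)⟩)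
(.lf ⟨(nat_lit 0xa595), (nat_lit 3), (nat_lit 0x1534c54c35654a), (nat_lit 9)⟩)))
(.nd (.nd (.lf ⟨(nat_lit 461), (nat_lit 2), (nat_lit 0x24d2c82c8247), (nat_lit 8)⟩)
(.lf ⟨(nat_lit 0x1254f2953ca), (nat_lit 7), (nat_lit 0x153ca54f292), (nat_lit 7)⟩))
(.nd (.lf ⟨(nat_lit 0x18c2cc), (nat_lit 4), (nat_lit 0x2cc18c), (nat_lit 4)⟩)
(.lf ⟨(nat_lit 0xc34e), (nat_lit 3), (nat_lit 0x133d33cd38d30d), (nat_lit 9)⟩)))))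
(.nd (.nd (.nd (.nd (.nd (.lf ⟨(nat_lit 0x514), (nat_lit 2), (nat_lit 0), (nat_lit 0)⟩)
(.lf ⟨(nat_lit 0x617510), (nat_lit 4), (nat_lit 0x11838a20e20460e288388), (nat_lit 14)⟩))
(.lf ⟨(nat_lit 0x4d2053481), (nat_lit 6), (nat_lit 0), (nat_lit 0)⟩))
(.nd (.lf ⟨(nat_lit 151), (nat_lit 2), (nat_lit 0x19750f1943c2), (nat_lit 8)⟩)
(.lf ⟨(nat_lit 146), (nat_lit 2), (nat_lit 0x1748f38a3ce2943ce2943ca18e182), (nat_lit 19)⟩)))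
(.nd (.nd (.lf ⟨(nat_lit 0x20a20a), (nat_lit 4), (nat_lit 0x288288), (nat_lit 4)⟩)
(.lf ⟨(nat_lit 87), (nat_lit 2), (nat_lit 0x5d25123ca3ce2923ce29438a50f38a50e29250f38a50f281), (nat_lit 32)⟩))
(.nd (.lf ⟨(nat_lit 472), (nat_lit 2), (nat_lit 0x607), (nat_lit 2)⟩)
(.lf ⟨(nat_lit 344), (nat_lit 2), (nat_lit 0x6142d42c5), (nat_lit 6)⟩))))
(.nd (.nd (.nd (.lf ⟨(nat_lit 0x4147), (nat_lit 3), (nat_lit 0x51c5105), (nat_lit 5)⟩)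
(.lf ⟨(nat_lit 7), (nat_lit 1), (nat_lit 0x4c101304), (nat_lit 6)⟩))
(.nd (.lf ⟨(nat_lit 86), (nat_lit 2), (nat_lit 0x3d85163c930f31621838931624c2143ce241), (nat_lit 24)⟩)
(.lf ⟨(nat_lit 0xf458), (nat_lit 3), (nat_lit 0x116113d1), (nat_lit 5)⟩)))
(.nd (.nd (.lf ⟨(nat_lit 0x281281), (nat_lit 4), (nat_lit 0), (nat_lit 0)⟩)
(.lf ⟨(nat_lit 0x61c6307), (nat_lit 5), (nat_lit 0xc2c718c2c718c), (nat_lit 9)⟩))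
(.nd (.lf ⟨(nat_lit 335), (nat_lit 2), (nat_lit 0x50f38648e5d429524a192245), (nat_lit 16)⟩)
(.lf ⟨(nat_lit 0x61c6387), (nat_lit 5), (nat_lit 0x838a20e28838a20e28718718e), (nat_lit 17)⟩))))))
(.nd (.nd (.nd (.nd (.nd (.nd (.lf ⟨(nat_lit 196), (nat_lit 2), (nat_lit 0x9103), (nat_lit 3)⟩)
(.lf ⟨(nat_lit 0x10a185), (nat_lit 4), (nat_lit 0x1840d2d43ce286144), (nat_lit 11)⟩))
(.lf ⟨(nat_lit 0xc3d3), (nat_lit 3), (nat_lit 0x165165135165135944d651358f4cf30f), (nat_lit 21)⟩))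
(.nd (.lf ⟨(nat_lit 142), (nat_lit 2), (nat_lit 0x14382), (nat_lit 3)⟩)
(.lf ⟨(nat_lit 0x5d05d0), (nat_lit 4), (nat_lit 0x5c34170d0), (nat_lit 6)⟩)))
(.nd (.nd (.lf ⟨(nat_lit 0x20f256), (nat_lit 4), (nat_lit 0x3c93c958f2563c92163c9), (nat_lit 14)⟩)
(.lf ⟨(nat_lit 20), (nat_lit 1), (nat_lit 0x382382), (nat_lit 4)⟩))
(.nd (.lf ⟨(nat_lit 0xce54554e143395155385), (nat_lit 14), (nat_lit 0xce54554e143395155385), (nat_lit 14)⟩)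
(.lf ⟨(nat_lit 917), (nat_lit 2), (nat_lit 0x54e), (nat_lit 2)⟩))))
(.nd (.nd (.nd (.lf ⟨(nat_lit 0x3c23c2), (nat_lit 4), (nat_lit 0x8f08f), (nat_lit 4)⟩)
(.lf ⟨(nat_lit 0x940c3cd), (nat_lit 5), (nat_lit 0xc3cd2d63154d64164d640c2cc250315), (nat_lit 21)⟩))
(.nd (.lf ⟨(nat_lit 0x4934924d2), (nat_lit 6), (nat_lit 0), (nat_lit 0)⟩)
(.lf ⟨(nat_lit 0xce10a4ce2840ce10a4ce284), (nat_lit 16), (nat_lit 0xce10a4ce2840ce10a4ce284), (nat_lit 16)⟩)))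
(.nd (.nd (.lf ⟨(nat_lit 331), (nat_lit 2), (nat_lit 709), (nat_lit 2)⟩)
(.lf ⟨(nat_lit 0x630d), (nat_lit 3), (nat_lit 0x1530d31518c), (nat_lit 7)⟩))
(.nd (.lf ⟨(nat_lit 13), (nat_lit 1), (nat_lit 0x203203), (nat_lit 4)⟩)
(.lf ⟨(nat_lit 470), (nat_lit 2), (nat_lit 0x587), (nat_lit 2)⟩)))))
(.nd (.nd (.nd (.nd (.lf ⟨(nat_lit 325), (nat_lit 2), (nat_lit 0), (nat_lit 0)⟩)
(.lf ⟨(nat_lit 0x25058c24c), (nat_lit 6), (nat_lit 0x41634c24c349), (nat_lit 8)⟩))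
(.nd (.lf ⟨(nat_lit 0x1890c11890c1), (nat_lit 8), (nat_lit 0x490c60490c6), (nat_lit 8)⟩)
(.lf ⟨(nat_lit 335), (nat_lit 2), (nat_lit 0x5d54943ca51228e24a18e24a185), (nat_lit 18)⟩)))
(.nd (.nd (.lf ⟨(nat_lit 456), (nat_lit 2), (nat_lit 519), (nat_lit 2)⟩)
(.lf ⟨(nat_lit 9), (nat_lit 1), (nat_lit 0x1024c25024c250309409309), (nat_lit 15)⟩))
(.nd (.lf ⟨(nat_lit 0x38c38c), (nat_lit 4), (nat_lit 0x4c24c241309309), (nat_lit 10)⟩)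
(.lf ⟨(nat_lit 0x391490), (nat_lit 4), (nat_lit 0x49140e), (nat_lit 4)⟩))))
(.nd (.nd (.nd (.lf ⟨(nat_lit 0x50050), (nat_lit 4), (nat_lit 0x401401), (nat_lit 4)⟩)
(.lf ⟨(nat_lit 0x416), (nat_lit 2), (nat_lit 0x590), (nat_lit 2)⟩))
(.nd (.lf ⟨(nat_lit 267), (nat_lit 2), (nat_lit 0x132c4), (nat_lit 3)⟩)
(.lf ⟨(nat_lit 856), (nat_lit 2), (nat_lit 0x60d), (nat_lit 2)⟩)))
(.nd (.nd (.lf ⟨(nat_lit 0x4149), (nat_lit 3), (nat_lit 0x5245105), (nat_lit 5)⟩)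
(.lf ⟨(nat_lit 204), (nat_lit 2), (nat_lit 0x11205205303), (nat_lit 7)⟩))
(.nd (.lf ⟨(nat_lit 918), (nat_lit 2), (nat_lit 0x4d63d33ce), (nat_lit 6)⟩)
(.lf ⟨(nat_lit 0x838b20b), (nat_lit 5), (nat_lit 0xb20e2c8), (nat_lit 5)⟩)))))))
(.nd (.nd (.nd (.nd (.nd (.nd (.nd (.lf ⟨(nat_lit 23), (nat_lit 1), (nat_lit 0xd40d4), (nat_lit 4)⟩)
(.lf ⟨(nat_lit 0x5ce286386), (nat_lit 6), (nat_lit 0x55181546), (nat_lit 6)⟩))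
(.lf ⟨(nat_lit 0x838c), (nat_lit 3), (nat_lit 0x145944d63d33cc20e), (nat_lit 11)⟩))
(.nd (.lf ⟨(nat_lit 337), (nat_lit 2), (nat_lit 0x445), (nat_lit 2)⟩)
(.lf ⟨(nat_lit 0x20e21335320e213353), (nat_lit 12), (nat_lit 0x4cd4c83884cd4c8388), (nat_lit 12)⟩)))
(.nd (.nd (.lf ⟨(nat_lit 460), (nat_lit 2), (nat_lit 0x20c207), (nat_lit 4)⟩)
(.lf ⟨(nat_lit 0x4413cd19104f346), (nat_lit 10), (nat_lit 0x3cd19104f346441), (nat_lit 10)⟩))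
(.nd (.lf ⟨(nat_lit 0x538b14838b205), (nat_lit 9), (nat_lit 0xe2c520e2c8145), (nat_lit 9)⟩)
(.lf ⟨(nat_lit 408), (nat_lit 2), (nat_lit 0x6163d14964913cd4943d23cd4943d23c6), (nat_lit 22)⟩))))
(.nd (.nd (.nd (.lf ⟨(nat_lit 0x24e24e), (nat_lit 4), (nat_lit 0x389389), (nat_lit 4)⟩)
(.lf ⟨(nat_lit 0x428610a3cd28610a), (nat_lit 11), (nat_lit 0xa18428f34a184284), (nat_lit 11)⟩))
(.nd (.lf ⟨(nat_lit 0x301285301285), (nat_lit 8), (nat_lit 0x285301285301), (nat_lit 8)⟩)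
(.lf ⟨(nat_lit 0), (nat_lit 0), (nat_lit 0x14e045381), (nat_lit 6)⟩)))
(.nd (.nd (.lf ⟨(nat_lit 143), (nat_lit 2), (nat_lit 962), (nat_lit 2)⟩)
(.lf ⟨(nat_lit 0x353491352), (nat_lit 6), (nat_lit 0x4d244d4d2353), (nat_lit 8)⟩))
(.nd (.lf ⟨(nat_lit 21), (nat_lit 1), (nat_lit 0x3c90cf243), (nat_lit 6)⟩)
(.lf ⟨(nat_lit 0x8389), (nat_lit 3), (nat_lit 0x58f30f30920e), (nat_lit 8)⟩)))))
(.nd (.nd (.nd (.nd (.nd (.lf ⟨(nat_lit 0xc10c1), (nat_lit 4), (nat_lit 0x43043), (nat_lit 4)⟩)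
(.lf ⟨(nat_lit 144), (nat_lit 2), (nat_lit 0x402), (nat_lit 2)⟩))
(.lf ⟨(nat_lit 0x2d12d1), (nat_lit 4), (nat_lit 0x44b44b), (nat_lit 4)⟩))
(.nd (.lf ⟨(nat_lit 534), (nat_lit 2), (nat_lit 0x588), (nat_lit 2)⟩)
(.lf ⟨(nat_lit 658), (nat_lit 2), (nat_lit 0x48a), (nat_lit 2)⟩)))
(.nd (.nd (.lf ⟨(nat_lit 0x24d24d), (nat_lit 4), (nat_lit 0x349349), (nat_lit 4)⟩)
(.lf ⟨(nat_lit 343), (nat_lit 2), (nat_lit 0x5c5), (nat_lit 2)⟩))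
(.nd (.lf ⟨(nat_lit 0x1c61c6), (nat_lit 4), (nat_lit 0x187187), (nat_lit 4)⟩)
(.lf ⟨(nat_lit 0x417), (nat_lit 2), (nat_lit 0x5d0), (nat_lit 2)⟩))))
(.nd (.nd (.nd (.lf ⟨(nat_lit 0x246246), (nat_lit 4), (nat_lit 0x189189), (nat_lit 4)⟩)
(.lf ⟨(nat_lit 0x4d44d6), (nat_lit 4), (nat_lit 0x593513), (nat_lit 4)⟩))
(.nd (.lf ⟨(nat_lit 0), (nat_lit 0), (nat_lit 0x244244), (nat_lit 4)⟩)
(.lf ⟨(nat_lit 0x30f30d), (nat_lit 4), (nat_lit 0x34c3cc), (nat_lit 4)⟩)))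
(.nd (.nd (.lf ⟨(nat_lit 0x640c18c), (nat_lit 5), (nat_lit 0xc190306), (nat_lit 5)⟩)
(.lf ⟨(nat_lit 0x630f), (nat_lit 3), (nat_lit 0xc3cc18c), (nat_lit 5)⟩))
(.nd (.lf ⟨(nat_lit 214), (nat_lit 2), (nat_lit 0x58f34f343), (nat_lit 6)⟩)
(.lf ⟨(nat_lit 342), (nat_lit 2), (nat_lit 0x58e34e30d305), (nat_lit 8)⟩))))))
(.nd (.nd (.nd (.nd (.nd (.nd (.lf ⟨(nat_lit 0x89089), (nat_lit 4), (nat_lit 0x242242), (nat_lit 4)⟩)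
(.lf ⟨(nat_lit 529), (nat_lit 2), (nat_lit 0x448), (nat_lit 2)⟩))
(.lf ⟨(nat_lit 0x38b14e2c5), (nat_lit 6), (nat_lit 0), (nat_lit 0)⟩))
(.nd (.lf ⟨(nat_lit 461), (nat_lit 2), (nat_lit 0x2cd20b207), (nat_lit 6)⟩)
(.lf ⟨(nat_lit 0x453), (nat_lit 2), (nat_lit 0x4d1), (nat_lit 2)⟩)))
(.nd (.nd (.lf ⟨(nat_lit 0x287287), (nat_lit 4), (nat_lit 0x1ca1ca), (nat_lit 4)⟩)
(.lf ⟨(nat_lit 0), (nat_lit 0), (nat_lit 0x109104244), (nat_lit 6)⟩))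
(.nd (.lf ⟨(nat_lit 518), (nat_lit 2), (nat_lit 0x3563cd59558f188), (nat_lit 10)⟩)
(.lf ⟨(nat_lit 0x34e34e), (nat_lit 4), (nat_lit 0x38d38d), (nat_lit 4)⟩))))
(.nd (.nd (.nd (.lf ⟨(nat_lit 0x1c11c1), (nat_lit 4), (nat_lit 0), (nat_lit 0)⟩)
(.lf ⟨(nat_lit 0), (nat_lit 0), (nat_lit 0x501501), (nat_lit 4)⟩))
(.nd (.lf ⟨(nat_lit 0x494494), (nat_lit 4), (nat_lit 0x512512), (nat_lit 4)⟩)
(.lf ⟨(nat_lit 0x1858f4cf), (nat_lit 5), (nat_lit 0x1143ce1143ce), (nat_lit 8)⟩)))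
(.nd (.nd (.lf ⟨(nat_lit 0x4189), (nat_lit 3), (nat_lit 0x9188189206209188106), (nat_lit 13)⟩)
(.lf ⟨(nat_lit 0x14c28614c), (nat_lit 6), (nat_lit 0x18c18530a185), (nat_lit 8)⟩))
(.nd (.lf ⟨(nat_lit 533), (nat_lit 2), (nat_lit 0x34f3553cd3cd3c8), (nat_lit 10)⟩)
(.lf ⟨(nat_lit 786), (nat_lit 2), (nat_lit 0x48c), (nat_lit 2)⟩)))))
(.nd (.nd (.nd (.nd (.lf ⟨(nat_lit 138), (nat_lit 2), (nat_lit 0xc60c518a0c60c50c60ca18518a1850c60c2), (nat_lit 24)⟩)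
(.lf ⟨(nat_lit 0x4d21ca4d2287), (nat_lit 8), (nat_lit 0x14a1ca1c5287287), (nat_lit 10)⟩))
(.nd (.lf ⟨(nat_lit 267), (nat_lit 2), (nat_lit 0xb4c4), (nat_lit 3)⟩)
(.lf ⟨(nat_lit 465), (nat_lit 2), (nat_lit 0x44d48c3cd30d30f34e30f34e2cc3c848c34c2cc2c82c7), (nat_lit 30)⟩)))
(.nd (.nd (.lf ⟨(nat_lit 0x4189), (nat_lit 3), (nat_lit 0x918d20624818d209188106), (nat_lit 15)⟩)
(.lf ⟨(nat_lit 0xa5d5), (nat_lit 3), (nat_lit 0x1754a), (nat_lit 3)⟩))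
(.nd (.lf ⟨(nat_lit 0x40c190306), (nat_lit 6), (nat_lit 0x90090), (nat_lit 4)⟩)
(.lf ⟨(nat_lit 344), (nat_lit 2), (nat_lit 0x605), (nat_lit 2)⟩))))
(.nd (.nd (.nd (.lf ⟨(nat_lit 0x1c41c4), (nat_lit 4), (nat_lit 0), (nat_lit 0)⟩)
(.lf ⟨(nat_lit 0x554f), (nat_lit 3), (nat_lit 0x143d238a5d448e29229438a48f2943ca54f38a50e2922943ce29438a48f2943ca54f38a50e2923ca50f2952943c92863892923ca50f286155), (nat_lit 75)⟩))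
(.nd (.lf ⟨(nat_lit 0x8b08108b081), (nat_lit 8), (nat_lit 0x8b08108b081), (nat_lit 8)⟩)
(.lf ⟨(nat_lit 341), (nat_lit 2), (nat_lit 0x5544943d23ce28e285), (nat_lit 12)⟩)))
(.nd (.nd (.lf ⟨(nat_lit 0x548e), (nat_lit 3), (nat_lit 0x12385), (nat_lit 3)⟩)
(.lf ⟨(nat_lit 0x301595301595), (nat_lit 8), (nat_lit 0x301595301595), (nat_lit 8)⟩))
(.nd (.lf ⟨(nat_lit 404), (nat_lit 2), (nat_lit 0x3ca50f286), (nat_lit 6)⟩)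
(.lf ⟨(nat_lit 0x638b), (nat_lit 3), (nat_lit 0x185cd38d2ca20e288386), (nat_lit 13)⟩))))))))
(.nd (.nd (.nd (.nd (.nd (.nd (.nd (.nd (.lf ⟨(nat_lit 15), (nat_lit 1), (nat_lit 0x89089), (nat_lit 4)⟩)
(.lf ⟨(nat_lit 0x838a), (nat_lit 3), (nat_lit 0x60e288), (nat_lit 4)⟩))
(.lf ⟨(nat_lit 152), (nat_lit 2), (nat_lit 0x60f30f302), (nat_lit 6)⟩))
(.nd (.lf ⟨(nat_lit 0x4286), (nat_lit 3), (nat_lit 0x83cd24620910a), (nat_lit 9)⟩)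
(.lf ⟨(nat_lit 0x29338a4ce), (nat_lit 6), (nat_lit 0x4ce29338a), (nat_lit 6)⟩)))
(.nd (.nd (.lf ⟨(nat_lit 0x483483), (nat_lit 4), (nat_lit 0xd20d2), (nat_lit 4)⟩)
(.lf ⟨(nat_lit 0xe412390), (nat_lit 5), (nat_lit 0x134125135944d64ce40e), (nat_lit 13)⟩))
(.nd (.lf ⟨(nat_lit 0x284284), (nat_lit 4), (nat_lit 0x10a10a), (nat_lit 4)⟩)
(.lf ⟨(nat_lit 0x60e403), (nat_lit 4), (nat_lit 0x1240e40e40360e), (nat_lit 9)⟩))))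
(.nd (.nd (.nd (.lf ⟨(nat_lit 82), (nat_lit 2), (nat_lit 0x24e25238914315239238948e2523890c1), (nat_lit 22)⟩)
(.lf ⟨(nat_lit 0x284284), (nat_lit 4), (nat_lit 0x10a24a244289289284284), (nat_lit 14)⟩))
(.nd (.lf ⟨(nat_lit 0x604604), (nat_lit 4), (nat_lit 0), (nat_lit 0)⟩)
(.lf ⟨(nat_lit 0x4d54d5), (nat_lit 4), (nat_lit 0x553553), (nat_lit 4)⟩)))
(.nd (.nd (.lf ⟨(nat_lit 134), (nat_lit 2), (nat_lit 386), (nat_lit 2)⟩)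
(.lf ⟨(nat_lit 87), (nat_lit 2), (nat_lit 0x5d25123ca48e28e29438a50f38a50e29250f38a50f281), (nat_lit 30)⟩))
(.nd (.lf ⟨(nat_lit 0x40c4d04cc), (nat_lit 6), (nat_lit 0xcc4cc0cc4cc), (nat_lit 8)⟩)
(.lf ⟨(nat_lit 976), (nat_lit 2), (nat_lit 0x40f), (nat_lit 2)⟩)))))
(.nd (.nd (.nd (.nd (.nd (.lf ⟨(nat_lit 0xd40d4), (nat_lit 4), (nat_lit 0x503503), (nat_lit 4)⟩)
(.lf ⟨(nat_lit 147), (nat_lit 2), (nat_lit 0x4c2), (nat_lit 2)⟩))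
(.lf ⟨(nat_lit 0x445445), (nat_lit 4), (nat_lit 0), (nat_lit 0)⟩))
(.nd (.lf ⟨(nat_lit 457), (nat_lit 2), (nat_lit 0x13247), (nat_lit 3)⟩)
(.lf ⟨(nat_lit 0x495), (nat_lit 2), (nat_lit 0x552), (nat_lit 2)⟩)))
(.nd (.nd (.lf ⟨(nat_lit 0x6348188), (nat_lit 5), (nat_lit 0x818d206), (nat_lit 5)⟩)
(.lf ⟨(nat_lit 0x28d20a24a24828a34828928920a), (nat_lit 18), (nat_lit 0), (nat_lit 0)⟩))
(.nd (.lf ⟨(nat_lit 0x6389194), (nat_lit 5), (nat_lit 0x1418e246), (nat_lit 5)⟩)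
(.lf ⟨(nat_lit 852), (nat_lit 2), (nat_lit 0x50d), (nat_lit 2)⟩))))
(.nd (.nd (.nd (.lf ⟨(nat_lit 0x205205), (nat_lit 4), (nat_lit 0x148148), (nat_lit 4)⟩)
(.lf ⟨(nat_lit 0x630f), (nat_lit 3), (nat_lit 0xc3d058d31541630d31518c), (nat_lit 15)⟩))
(.nd (.lf ⟨(nat_lit 0xb4c9), (nat_lit 3), (nat_lit 0xc71031c4), (nat_lit 6)⟩)
(.lf ⟨(nat_lit 789), (nat_lit 2), (nat_lit 0x41854f4183cc), (nat_lit 8)⟩)))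
(.nd (.nd (.lf ⟨(nat_lit 0x930e), (nat_lit 3), (nat_lit 0xc38c24c), (nat_lit 5)⟩)
(.lf ⟨(nat_lit 0x58d31534c58d31534c), (nat_lit 12), (nat_lit 0), (nat_lit 0)⟩))
(.nd (.lf ⟨(nat_lit 0x34f34f), (nat_lit 4), (nat_lit 0x5955953cd3cd), (nat_lit 8)⟩)
(.lf ⟨(nat_lit 0), (nat_lit 0), (nat_lit 0xd32434c9), (nat_lit 6)⟩))))))
(.nd (.nd (.nd (.nd (.nd (.nd (.lf ⟨(nat_lit 780), (nat_lit 2), (nat_lit 0), (nat_lit 0)⟩)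
(.lf ⟨(nat_lit 846), (nat_lit 2), (nat_lit 909), (nat_lit 2)⟩))
(.lf ⟨(nat_lit 209), (nat_lit 2), (nat_lit 0x1135228928919751238a50f30a2cf2943ca58f2943ca58b51650c3cd4d630b58d2d459430f35358c2d634638c3ce34c2cf2943ca58f2943ca58b51650c3cd4d630b58d2d459430f35358c2d634638c183), (nat_lit 107)⟩))
(.nd (.lf ⟨(nat_lit 528), (nat_lit 2), (nat_lit 0x40d30d308), (nat_lit 6)⟩)
(.lf ⟨(nat_lit 0x40c34c), (nat_lit 4), (nat_lit 0xcc203308), (nat_lit 6)⟩)))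
(.nd (.nd (.lf ⟨(nat_lit 0x14f14f), (nat_lit 4), (nat_lit 0x3c53c5), (nat_lit 4)⟩)
(.lf ⟨(nat_lit 0xa48a50e), (nat_lit 5), (nat_lit 0x1751238a5ca), (nat_lit 7)⟩))
(.nd (.lf ⟨(nat_lit 0x111104444), (nat_lit 6), (nat_lit 0), (nat_lit 0)⟩)
(.lf ⟨(nat_lit 0x3d3496491), (nat_lit 6), (nat_lit 0x6164d16133d3), (nat_lit 8)⟩))))
(.nd (.nd (.nd (.lf ⟨(nat_lit 0x303303), (nat_lit 4), (nat_lit 0xcc0cc), (nat_lit 4)⟩)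
(.lf ⟨(nat_lit 0x6315), (nat_lit 3), (nat_lit 0xa50f2962943ca45634c55130d18c), (nat_lit 19)⟩))
(.nd (.lf ⟨(nat_lit 0x4b1c12c7), (nat_lit 6), (nat_lit 0x2c704b1c1), (nat_lit 6)⟩)
(.lf ⟨(nat_lit 0xcf4cc3cc), (nat_lit 6), (nat_lit 0x3d330f303), (nat_lit 6)⟩)))
(.nd (.nd (.lf ⟨(nat_lit 460), (nat_lit 2), (nat_lit 775), (nat_lit 2)⟩)
(.lf ⟨(nat_lit 402), (nat_lit 2), (nat_lit 0x38a5125123d23ce286), (nat_lit 12)⟩))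
(.nd (.lf ⟨(nat_lit 0x212352348212352348), (nat_lit 12), (nat_lit 0), (nat_lit 0)⟩)
(.lf ⟨(nat_lit 401), (nat_lit 2), (nat_lit 0x44e34e34c2cc2c6), (nat_lit 10)⟩)))))
(.nd (.nd (.nd (.nd (.lf ⟨(nat_lit 0x107107), (nat_lit 4), (nat_lit 0x1c41c4), (nat_lit 4)⟩)
(.lf ⟨(nat_lit 0x1348b150), (nat_lit 5), (nat_lit 0x104d22c5), (nat_lit 5)⟩))
(.nd (.lf ⟨(nat_lit 0x1821c21821c2), (nat_lit 8), (nat_lit 0x87182087182), (nat_lit 8)⟩)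
(.lf ⟨(nat_lit 7), (nat_lit 1), (nat_lit 0x44044), (nat_lit 4)⟩)))
(.nd (.nd (.lf ⟨(nat_lit 0x1052c7), (nat_lit 4), (nat_lit 0x1c52c72451c4149), (nat_lit 10)⟩)
(.lf ⟨(nat_lit 0x1750f2943ca195), (nat_lit 9), (nat_lit 0x155d43ca50f286), (nat_lit 9)⟩))
(.nd (.lf ⟨(nat_lit 0x30e316), (nat_lit 4), (nat_lit 0x39638c38c), (nat_lit 6)⟩)
(.lf ⟨(nat_lit 471), (nat_lit 2), (nat_lit 0x5c7), (nat_lit 2)⟩))))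
(.nd (.nd (.nd (.lf ⟨(nat_lit 0x343343), (nat_lit 4), (nat_lit 0), (nat_lit 0)⟩)
(.lf ⟨(nat_lit 151), (nat_lit 2), (nat_lit 0x48a5d448e29229438a48f2943ca502), (nat_lit 20)⟩))
(.nd (.lf ⟨(nat_lit 0), (nat_lit 0), (nat_lit 0x86086), (nat_lit 4)⟩)
(.lf ⟨(nat_lit 0x18c198), (nat_lit 4), (nat_lit 0x6165503d03c818c206), (nat_lit 12)⟩)))
(.nd (.nd (.lf ⟨(nat_lit 0x6206248), (nat_lit 5), (nat_lit 0x9209188189), (nat_lit 7)⟩)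
(.lf ⟨(nat_lit 0x411), (nat_lit 2), (nat_lit 0x450), (nat_lit 2)⟩))
(.nd (.lf ⟨(nat_lit 920), (nat_lit 2), (nat_lit 0x4d851350e), (nat_lit 6)⟩)
(.lf ⟨(nat_lit 464), (nat_lit 2), (nat_lit 0x40e34e347), (nat_lit 6)⟩)))))))
(.nd (.nd (.nd (.nd (.nd (.nd (.nd (.lf ⟨(nat_lit 0x44044), (nat_lit 4), (nat_lit 0x101101), (nat_lit 4)⟩)
(.lf ⟨(nat_lit 523), (nat_lit 2), (nat_lit 0x182c8), (nat_lit 3)⟩))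
(.lf ⟨(nat_lit 0x18c20a595), (nat_lit 6), (nat_lit 0x29135459431544c34a18c20a), (nat_lit 16)⟩))
(.nd (.lf ⟨(nat_lit 0x4285), (nat_lit 3), (nat_lit 0x2c91d238914710a), (nat_lit 10)⟩)
(.lf ⟨(nat_lit 0x638b), (nat_lit 3), (nat_lit 0x144d64cf4d13d13d344d30f4535944d63d344f45358f34c3cd30d2c638c), (nat_lit 39)⟩)))
(.nd (.nd (.lf ⟨(nat_lit 0x3d63d6), (nat_lit 4), (nat_lit 0x58f58f), (nat_lit 4)⟩)
(.lf ⟨(nat_lit 0x5614), (nat_lit 3), (nat_lit 0x1429751238a5d448e29229438a48f38a3ce2923ce29438a50f38a50e29250f38a50f158), (nat_lit 47)⟩))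
(.nd (.lf ⟨(nat_lit 0x238b), (nat_lit 3), (nat_lit 0x814814a10a10e2c2), (nat_lit 11)⟩)
(.lf ⟨(nat_lit 0x848d), (nat_lit 3), (nat_lit 0xd212), (nat_lit 3)⟩))))
(.nd (.nd (.nd (.lf ⟨(nat_lit 141), (nat_lit 2), (nat_lit 0x20d2031883463480c2), (nat_lit 12)⟩)
(.lf ⟨(nat_lit 0xf4d4), (nat_lit 3), (nat_lit 0x164d44d63d3), (nat_lit 7)⟩))
(.nd (.lf ⟨(nat_lit 0x294294), (nat_lit 4), (nat_lit 0x50a50a), (nat_lit 4)⟩)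
(.lf ⟨(nat_lit 401), (nat_lit 2), (nat_lit 0x44d28d286), (nat_lit 6)⟩)))
(.nd (.nd (.lf ⟨(nat_lit 0x948e), (nat_lit 3), (nat_lit 0x12389), (nat_lit 3)⟩)
(.lf ⟨(nat_lit 663), (nat_lit 2), (nat_lit 0x5ca), (nat_lit 2)⟩))
(.nd (.lf ⟨(nat_lit 0xd60d6), (nat_lit 4), (nat_lit 0xd60d6), (nat_lit 4)⟩)
(.lf ⟨(nat_lit 783), (nat_lit 2), (nat_lit 972), (nat_lit 2)⟩)))))
(.nd (.nd (.nd (.nd (.lf ⟨(nat_lit 0x102102), (nat_lit 4), (nat_lit 0x84084), (nat_lit 4)⟩)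
(.lf ⟨(nat_lit 0x40c34c), (nat_lit 4), (nat_lit 0x3080cc203), (nat_lit 6)⟩))
(.nd (.lf ⟨(nat_lit 0x28110a044), (nat_lit 6), (nat_lit 0x10a044281), (nat_lit 6)⟩)
(.lf ⟨(nat_lit 0x3d35523d2), (nat_lit 6), (nat_lit 0x5935523d34963d3), (nat_lit 10)⟩)))
(.nd (.nd (.lf ⟨(nat_lit 0x154f), (nat_lit 3), (nat_lit 0x3c25d454f0ca1853d5285183081), (nat_lit 18)⟩)
(.lf ⟨(nat_lit 0x554f), (nat_lit 3), (nat_lit 0x175545543d25123ce2943ca54f38a50e2922943ce29438a48f2943ca54f38a50e2923ca50f2952943c92863892923ca50f286155), (nat_lit 69)⟩))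
(.nd (.lf ⟨(nat_lit 0x3484cd4c83484cd4c8), (nat_lit 12), (nat_lit 0), (nat_lit 0)⟩)
(.lf ⟨(nat_lit 0x10a6144ce), (nat_lit 6), (nat_lit 0x45039148b51240b10a), (nat_lit 12)⟩))))
(.nd (.nd (.nd (.lf ⟨(nat_lit 0xc50410c5041), (nat_lit 8), (nat_lit 0x45043045043), (nat_lit 8)⟩)
(.lf ⟨(nat_lit 407), (nat_lit 2), (nat_lit 0x48a5d448e29229438a486), (nat_lit 14)⟩))
(.nd (.lf ⟨(nat_lit 0), (nat_lit 0), (nat_lit 195), (nat_lit 2)⟩)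
(.lf ⟨(nat_lit 465), (nat_lit 2), (nat_lit 0x51349449148f4d235234e34e2cc3c848c34c2cc2c82c7), (nat_lit 30)⟩)))
(.nd (.nd (.lf ⟨(nat_lit 0x14c20a), (nat_lit 4), (nat_lit 0x20a205308), (nat_lit 6)⟩)
(.lf ⟨(nat_lit 0x24e34e34e34e34938d38d38d38d), (nat_lit 18), (nat_lit 0x24e34e34e34e34938d38d38d38d), (nat_lit 18)⟩))
(.nd (.lf ⟨(nat_lit 0x18c20a595), (nat_lit 6), (nat_lit 0x29134c59544c34a18c20a), (nat_lit 14)⟩)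
(.lf ⟨(nat_lit 0x2c82c8), (nat_lit 4), (nat_lit 0x2d65482d6548), (nat_lit 8)⟩))))))
(.nd (.nd (.nd (.nd (.nd (.nd (.lf ⟨(nat_lit 77), (nat_lit 2), (nat_lit 0x11341), (nat_lit 3)⟩)
(.lf ⟨(nat_lit 395), (nat_lit 2), (nat_lit 0x1838b20e206), (nat_lit 7)⟩))
(.lf ⟨(nat_lit 0x3d03d0), (nat_lit 4), (nat_lit 0x40f40f), (nat_lit 4)⟩))
(.nd (.lf ⟨(nat_lit 269), (nat_lit 2), (nat_lit 0x348549188248188549206209206204), (nat_lit 20)⟩)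
(.lf ⟨(nat_lit 782), (nat_lit 2), (nat_lit 0x4cf4cf38c), (nat_lit 6)⟩)))
(.nd (.nd (.lf ⟨(nat_lit 0x1431c50c7), (nat_lit 6), (nat_lit 0x1c50c7143), (nat_lit 6)⟩)
(.lf ⟨(nat_lit 0x554f), (nat_lit 3), (nat_lit 0x155d45543d25123ce2943ca54f38a50e2922943ce29438a48f2943ca54f38a50e2923ca50f2952943c92863892923ca50f286155), (nat_lit 69)⟩))
(.nd (.lf ⟨(nat_lit 0x3d83d83d83d8), (nat_lit 8), (nat_lit 0), (nat_lit 0)⟩)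
(.lf ⟨(nat_lit 87), (nat_lit 2), (nat_lit 0x5c1), (nat_lit 2)⟩))))
(.nd (.nd (.nd (.lf ⟨(nat_lit 0x344344), (nat_lit 4), (nat_lit 0x10d10d), (nat_lit 4)⟩)
(.lf ⟨(nat_lit 0x2892892953ca54f), (nat_lit 10), (nat_lit 0x2953ca54f289289), (nat_lit 10)⟩))
(.nd (.lf ⟨(nat_lit 0x1050c4143), (nat_lit 6), (nat_lit 0x1431050c4), (nat_lit 6)⟩)
(.lf ⟨(nat_lit 273), (nat_lit 2), (nat_lit 0x1645038c3cd30d30f34e30f34e30f34c34c3cd38c3cd38b20e45034c54f45859544f44f34c3cb204), (nat_lit 53)⟩)))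
(.nd (.nd (.lf ⟨(nat_lit 0x30118c046), (nat_lit 6), (nat_lit 0x18c046301), (nat_lit 6)⟩)
(.lf ⟨(nat_lit 0), (nat_lit 0), (nat_lit 0x3430cd0c3), (nat_lit 6)⟩))
(.nd (.lf ⟨(nat_lit 0x65d448e19448e), (nat_lit 9), (nat_lit 0x92092), (nat_lit 4)⟩)
(.lf ⟨(nat_lit 396), (nat_lit 2), (nat_lit 0x61730a20e28818e), (nat_lit 10)⟩)))))
(.nd (.nd (.nd (.nd (.lf ⟨(nat_lit 143), (nat_lit 2), (nat_lit 0x24f24f24f242), (nat_lit 8)⟩)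
(.lf ⟨(nat_lit 18), (nat_lit 1), (nat_lit 0x245245), (nat_lit 4)⟩))
(.nd (.lf ⟨(nat_lit 0x630828d), (nat_lit 5), (nat_lit 0xc28d30a18c20a), (nat_lit 9)⟩)
(.lf ⟨(nat_lit 0x20e35238d20838d48e348), (nat_lit 14), (nat_lit 0), (nat_lit 0)⟩)))
(.nd (.nd (.lf ⟨(nat_lit 0x434b), (nat_lit 3), (nat_lit 0x724734b1c92072481c91c4), (nat_lit 15)⟩)
(.lf ⟨(nat_lit 0x54f2953ca), (nat_lit 6), (nat_lit 0x8a24a242289289), (nat_lit 10)⟩))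
(.nd (.lf ⟨(nat_lit 0), (nat_lit 0), (nat_lit 260), (nat_lit 2)⟩)
(.lf ⟨(nat_lit 0x17386386), (nat_lit 5), (nat_lit 0x92182486), (nat_lit 6)⟩))))
(.nd (.nd (.nd (.lf ⟨(nat_lit 0x90090), (nat_lit 4), (nat_lit 0x402402), (nat_lit 4)⟩)
(.lf ⟨(nat_lit 403), (nat_lit 2), (nat_lit 0x58b30f35359330d4cd2cf346), (nat_lit 16)⟩))
(.nd (.lf ⟨(nat_lit 0x283283), (nat_lit 4), (nat_lit 0), (nat_lit 0)⟩)
(.lf ⟨(nat_lit 654), (nat_lit 2), (nat_lit 0x48f48f38a), (nat_lit 6)⟩)))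
(.nd (.nd (.lf ⟨(nat_lit 151), (nat_lit 2), (nat_lit 0x3c55d454f18f1855543c2), (nat_lit 14)⟩)
(.lf ⟨(nat_lit 0), (nat_lit 0), (nat_lit 0xcc14c143305305), (nat_lit 10)⟩))
(.nd (.lf ⟨(nat_lit 0xf4d43d3), (nat_lit 5), (nat_lit 0x164d44d44d651650f4d458f), (nat_lit 15)⟩)
(.lf ⟨(nat_lit 332), (nat_lit 2), (nat_lit 0x61730a20e20728718e185), (nat_lit 14)⟩))))))))))))

end Pool.Agent.Lib.MP_3b0e0c_al.S.L1
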