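import Pool.Agent.Lib.MP_3b0e0c_al.S.L1D

namespace Pool.Agent.Lib.MP_3b0e0c_al.S.L4

/-- The theory. -/
def th : Th := ⟨[([0, 0], []),
  ([1, 1], []),
  ([2, 2], []),
  ([3, 3], []),
  ([4], [1, 0, 1, 0]),
  ([5], [2, 0, 2, 0]),
  ([6], [2, 1, 2, 1]),
  ([7], [3, 0, 3, 0]),
  ([8], [3, 1, 3, 1]),
  ([9], [3, 2, 3, 2]),
  ([10], [5, 1, 5, 1]),
  ([11], [6, 0, 6, 0]),
  ([12], [7, 1, 7, 1]),
  ([13], [7, 2, 7, 2]),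
  ([14], [8, 0, 8, 0]),
  ([15], [8, 2, 8, 2]),
  ([16], [9, 0, 9, 0]),
  ([17], [9, 1, 9, 1]),
  ([18], [11, 1, 11, 1]),
  ([19], [11, 2, 11, 2]),
  ([20], [12, 2, 12, 2]),
  ([21], [13, 1, 13, 1]),
  ([22], [14, 1, 14, 1]),
  ([23], [14, 2, 14, 2]),
  ([24], [14, 3, 14, 3]),
  ([25], [15, 0, 15, 0]),
  ([26], [16, 1, 16, 1]),
  ([27], [16, 2, 16, 2]),
  ([28], [16, 3, 16, 3]),
  ([29], [17, 0, 17, 0]),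
  ([30], [17, 2, 17, 2]),
  ([31], [17, 3, 17, 3]),
  ([32], [21, 0, 21, 0]),
  ([33], [25, 1, 25, 1]),
  ([34], [28, 1, 28, 1]),
  ([35], [29, 2, 29, 2]),
  ([36], [29, 3, 29, 3]),
  ([37], [30, 0, 30, 0]),
  ([38], [31, 0, 31, 0])],
  [([2, 4, 2, 3, 4, 3], [3, 4, 3, 2, 4, 2])]⟩

/-- The theories used. -/
def ths : List Th := [R2, R3, T3p.th, L1.th]

set_option maxRecDepth 100000 in
/-- The facts. -/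
noncomputable def db : Tr :=
(.nd (.nd (.nd (.nd (.nd (.nd (.nd (.nd (.nd (.nd (.nd (.nd (.lf ⟨(nat_lit 65), (nat_lit 2), (nat_lit 0), (nat_lit 0)⟩)
(.lf ⟨(nat_lit 348), (nat_lit 2), (nat_lit 0x705), (nat_lit 2)⟩))
(.nd (.lf ⟨(nat_lit 0x1df1cd), (nat_lit 4), (nat_lit 0x3487cd21f21f21f3477c7), (nat_lit 14)⟩)
(.lf ⟨(nat_lit 856), (nat_lit 2), (nat_lit 0x60d), (nat_lit 2)⟩)))
(.nd (.nd (.lf ⟨(nat_lit 153), (nat_lit 2), (nat_lit 0xd2483c92053496481481491573c2), (nat_lit 19)⟩)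
(.lf ⟨(nat_lit 0x29e19e18a786786), (nat_lit 10), (nat_lit 0x29e19e18a786786), (nat_lit 10)⟩))
(.nd (.lf ⟨(nat_lit 0x507714714714707), (nat_lit 10), (nat_lit 0xd41dc51c1c3507714707), (nat_lit 14)⟩)
(.lf ⟨(nat_lit 0x5279a7), (nat_lit 4), (nat_lit 0x9e69e69d49e6), (nat_lit 8)⟩))))
(.nd (.nd (.nd (.lf ⟨(nat_lit 199), (nat_lit 2), (nat_lit 451), (nat_lit 2)⟩)
(.lf ⟨(nat_lit 0x4479b11e6c111e6c479b), (nat_lit 14), (nat_lit 0x4479b11e6c111e6c479b), (nat_lit 14)⟩))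
(.nd (.lf ⟨(nat_lit 0x115115), (nat_lit 4), (nat_lit 0x115115), (nat_lit 4)⟩)
(.lf ⟨(nat_lit 706), (nat_lit 2), (nat_lit 139), (nat_lit 2)⟩)))
(.nd (.nd (.lf ⟨(nat_lit 0x20b20b), (nat_lit 4), (nat_lit 0x20b20b), (nat_lit 4)⟩)
(.lf ⟨(nat_lit 474), (nat_lit 2), (nat_lit 0x687), (nat_lit 2)⟩))
(.nd (.lf ⟨(nat_lit 0xd79221e488488488), (nat_lit 11), (nat_lit 0x1e48879221221220d), (nat_lit 11)⟩)
(.lf ⟨(nat_lit 0x2796340f28f288408), (nat_lit 11), (nat_lit 0x118118), (nat_lit 4)⟩)))))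
(.nd (.nd (.nd (.nd (.lf ⟨(nat_lit 0x9d09d), (nat_lit 4), (nat_lit 0x742742), (nat_lit 4)⟩)
(.lf ⟨(nat_lit 0x1944cb2144c82c65132c851320b), (nat_lit 18), (nat_lit 0x1944cb2144c82c65132c851320b), (nat_lit 18)⟩))
(.nd (.lf ⟨(nat_lit 0xa5d2), (nat_lit 3), (nat_lit 0x1e6d749779b297), (nat_lit 9)⟩)
(.lf ⟨(nat_lit 0x4a5), (nat_lit 2), (nat_lit 0x952), (nat_lit 2)⟩)))
(.nd (.nd (.lf ⟨(nat_lit 92), (nat_lit 2), (nat_lit 0x1c18a20620671118a20620674e28675118a20674e44620671118a20620674e28675139118a206288181), (nat_lit 55)⟩)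
(.lf ⟨(nat_lit 666), (nat_lit 2), (nat_lit 0x69045044a), (nat_lit 6)⟩))
(.nd (.lf ⟨(nat_lit 0x774e25d389389389), (nat_lit 11), (nat_lit 0x1d38974e24e24e247), (nat_lit 11)⟩)
(.lf ⟨(nat_lit 226), (nat_lit 2), (nat_lit 0x883), (nat_lit 2)⟩))))
(.nd (.nd (.nd (.lf ⟨(nat_lit 139), (nat_lit 2), (nat_lit 706), (nat_lit 2)⟩)
(.lf ⟨(nat_lit 0x152163), (nat_lit 4), (nat_lit 0x7a3785485), (nat_lit 6)⟩))
(.nd (.lf ⟨(nat_lit 28), (nat_lit 1), (nat_lit 0x18a18a), (nat_lit 4)⟩)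
(.lf ⟨(nat_lit 0x11245244e), (nat_lit 6), (nat_lit 0x30830a30830a491491384), (nat_lit 14)⟩)))
(.nd (.nd (.lf ⟨(nat_lit 323), (nat_lit 2), (nat_lit 0x1543071852d41c60c5), (nat_lit 12)⟩)
(.lf ⟨(nat_lit 0xd30b), (nat_lit 3), (nat_lit 0xc3484cc34c21330c2cd), (nat_lit 13)⟩))
(.lf ⟨(nat_lit 0x74a35d34a74a35d34a), (nat_lit 12), (nat_lit 0), (nat_lit 0)⟩)))))
(.nd (.nd (.nd (.nd (.nd (.lf ⟨(nat_lit 845), (nat_lit 2), (nat_lit 0), (nat_lit 0)⟩)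
(.lf ⟨(nat_lit 473), (nat_lit 2), (nat_lit 0x81f65d61d61625581d61d61625521f207), (nat_lit 22)⟩))
(.nd (.lf ⟨(nat_lit 0x6d15916d1591), (nat_lit 8), (nat_lit 0), (nat_lit 0)⟩)
(.lf ⟨(nat_lit 0x726), (nat_lit 2), (nat_lit 0x99c), (nat_lit 2)⟩)))
(.nd (.nd (.lf ⟨(nat_lit 857), (nat_lit 2), (nat_lit 0x64d), (nat_lit 2)⟩)
(.lf ⟨(nat_lit 0x495), (nat_lit 2), (nat_lit 0x552), (nat_lit 2)⟩))
(.nd (.lf ⟨(nat_lit 322), (nat_lit 2), (nat_lit 133), (nat_lit 2)⟩)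
(.lf ⟨(nat_lit 0), (nat_lit 0), (nat_lit 0x311311), (nat_lit 4)⟩))))
(.nd (.nd (.nd (.lf ⟨(nat_lit 0x3830c23830c2), (nat_lit 8), (nat_lit 0x83383083383), (nat_lit 8)⟩)
(.lf ⟨(nat_lit 530), (nat_lit 2), (nat_lit 0x9607a07929c8), (nat_lit 8)⟩))
(.nd (.lf ⟨(nat_lit 31), (nat_lit 1), (nat_lit 0x483483), (nat_lit 4)⟩)
(.lf ⟨(nat_lit 267), (nat_lit 2), (nat_lit 0x69879b6167982c4), (nat_lit 10)⟩)))
(.nd (.nd (.lf ⟨(nat_lit 0), (nat_lit 0), (nat_lit 130), (nat_lit 2)⟩)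
(.lf ⟨(nat_lit 0x49a595), (nat_lit 4), (nat_lit 0x7a07d655e81f49a), (nat_lit 10)⟩))
(.lf ⟨(nat_lit 282), (nat_lit 2), (nat_lit 0x206902109e0204), (nat_lit 9)⟩))))
(.nd (.nd (.nd (.nd (.lf ⟨(nat_lit 208), (nat_lit 2), (nat_lit 0x250250250243), (nat_lit 8)⟩)
(.lf ⟨(nat_lit 791), (nat_lit 2), (nat_lit 0x5d33d33cc), (nat_lit 6)⟩))
(.nd (.lf ⟨(nat_lit 0), (nat_lit 0), (nat_lit 0x8b24b2422c92c9), (nat_lit 10)⟩)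
(.lf ⟨(nat_lit 0x5b8e56e79633ca3ca05b8e56e79633ca3ca), (nat_lit 24), (nat_lit 0x5b8e56e79633ca3ca05b8e56e79633ca3ca), (nat_lit 24)⟩)))
(.nd (.nd (.lf ⟨(nat_lit 0x115104544), (nat_lit 6), (nat_lit 0), (nat_lit 0)⟩)
(.lf ⟨(nat_lit 277), (nat_lit 2), (nat_lit 0x34a54d40e289389210204), (nat_lit 14)⟩))
(.nd (.lf ⟨(nat_lit 988), (nat_lit 2), (nat_lit 0x70f), (nat_lit 2)⟩)
(.lf ⟨(nat_lit 0x425), (nat_lit 2), (nat_lit 0x950), (nat_lit 2)⟩))))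
(.nd (.nd (.nd (.lf ⟨(nat_lit 0x7a5), (nat_lit 2), (nat_lit 0x95e), (nat_lit 2)⟩)
(.lf ⟨(nat_lit 0), (nat_lit 0), (nat_lit 0x11f11f), (nat_lit 4)⟩))
(.nd (.lf ⟨(nat_lit 0x671d181180a1e72819c74604602879ca), (nat_lit 22), (nat_lit 0x671d181180a1e72819c74604602879ca), (nat_lit 22)⟩)
(.lf ⟨(nat_lit 0x181115108115108044544204544206044544204544201115108115108), (nat_lit 38), (nat_lit 0x181115108115108044544204544206044544204544201115108115108), (nat_lit 38)⟩)))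
(.nd (.nd (.lf ⟨(nat_lit 0x485485), (nat_lit 4), (nat_lit 0x152152), (nat_lit 4)⟩)
(.lf ⟨(nat_lit 0x5da), (nat_lit 2), (nat_lit 0x697), (nat_lit 2)⟩))
(.lf ⟨(nat_lit 0xf2c92c9), (nat_lit 5), (nat_lit 0xb24b24f), (nat_lit 5)⟩))))))
(.nd (.nd (.nd (.nd (.nd (.nd (.lf ⟨(nat_lit 33), (nat_lit 1), (nat_lit 0x56056), (nat_lit 4)⟩)
(.lf ⟨(nat_lit 19), (nat_lit 1), (nat_lit 0x1c51c5), (nat_lit 4)⟩))
(.nd (.lf ⟨(nat_lit 10), (nat_lit 1), (nat_lit 0x103103), (nat_lit 4)⟩)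
(.lf ⟨(nat_lit 0x1de1de1de1de), (nat_lit 8), (nat_lit 0), (nat_lit 0)⟩)))
(.nd (.nd (.lf ⟨(nat_lit 0x1c91d2), (nat_lit 4), (nat_lit 0x8102a02472a0490807), (nat_lit 12)⟩)
(.lf ⟨(nat_lit 0x752752), (nat_lit 4), (nat_lit 0x8d28d28234a34a), (nat_lit 10)⟩))
(.nd (.lf ⟨(nat_lit 0x5951d91d9), (nat_lit 6), (nat_lit 0x1d91d9595), (nat_lit 6)⟩)
(.lf ⟨(nat_lit 0x12c92c9), (nat_lit 5), (nat_lit 0xb24b241), (nat_lit 5)⟩))))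
(.nd (.nd (.nd (.lf ⟨(nat_lit 0x201148045), (nat_lit 6), (nat_lit 0x148045201), (nat_lit 6)⟩)
(.lf ⟨(nat_lit 915), (nat_lit 2), (nat_lit 0x4ce), (nat_lit 2)⟩))
(.nd (.lf ⟨(nat_lit 0x4280a9e044a0a02a78112810a02a781128280a9e044a), (nat_lit 30), (nat_lit 0x4280a9e044a0a02a78112810a02a781128280a9e044a), (nat_lit 30)⟩)
(.lf ⟨(nat_lit 0), (nat_lit 0), (nat_lit 0x1a41a4), (nat_lit 4)⟩)))
(.nd (.nd (.lf ⟨(nat_lit 221), (nat_lit 2), (nat_lit 0x75c75c743), (nat_lit 6)⟩)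
(.lf ⟨(nat_lit 416), (nat_lit 2), (nat_lit 0x806), (nat_lit 2)⟩))
(.lf ⟨(nat_lit 0xc73c73c31cf1cf), (nat_lit 10), (nat_lit 0xc73c73c31cf1cf), (nat_lit 10)⟩))))
(.nd (.nd (.nd (.nd (.lf ⟨(nat_lit 0x141141), (nat_lit 4), (nat_lit 0x45045), (nat_lit 4)⟩)
(.lf ⟨(nat_lit 0x2e406412406410b901904901904), (nat_lit 18), (nat_lit 0x2e406412406410b901904901904), (nat_lit 18)⟩))
(.nd (.lf ⟨(nat_lit 0x385385385385), (nat_lit 8), (nat_lit 0x385385385385), (nat_lit 8)⟩)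
(.lf ⟨(nat_lit 0xa3ce), (nat_lit 3), (nat_lit 0x2794f8cf3a794f8cf28f), (nat_lit 13)⟩)))
(.nd (.nd (.lf ⟨(nat_lit 0x7289), (nat_lit 3), (nat_lit 0x80a247), (nat_lit 4)⟩)
(.lf ⟨(nat_lit 276), (nat_lit 2), (nat_lit 0x113a691251044e52045038b44b28b38b44e25138b40a2542d01c64269121901c4), (nat_lit 43)⟩))
(.nd (.lf ⟨(nat_lit 0x720), (nat_lit 2), (nat_lit 0x81c), (nat_lit 2)⟩)
(.lf ⟨(nat_lit 0x24c24e), (nat_lit 4), (nat_lit 0x3ce2ca30b28f28c2ca2c9309), (nat_lit 16)⟩))))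
(.nd (.nd (.nd (.lf ⟨(nat_lit 591), (nat_lit 2), (nat_lit 969), (nat_lit 2)⟩)
(.lf ⟨(nat_lit 0x195cf348), (nat_lit 5), (nat_lit 0x105044141), (nat_lit 6)⟩))
(.nd (.lf ⟨(nat_lit 0x431431410c50c5), (nat_lit 10), (nat_lit 0x431431410c50c5), (nat_lit 10)⟩)
(.lf ⟨(nat_lit 533), (nat_lit 2), (nat_lit 0x548), (nat_lit 2)⟩)))
(.nd (.nd (.lf ⟨(nat_lit 221), (nat_lit 2), (nat_lit 0x743), (nat_lit 2)⟩)
(.lf ⟨(nat_lit 0x8f40f1901823d03c6406), (nat_lit 14), (nat_lit 0x8f40f1901823d03c6406), (nat_lit 14)⟩))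
(.lf ⟨(nat_lit 0x1221221f), (nat_lit 5), (nat_lit 0x1f488488), (nat_lit 5)⟩)))))
(.nd (.nd (.nd (.nd (.nd (.lf ⟨(nat_lit 0xcf0cf), (nat_lit 4), (nat_lit 0x3c33c3), (nat_lit 4)⟩)
(.lf ⟨(nat_lit 0x1661d), (nat_lit 3), (nat_lit 0x1d598), (nat_lit 3)⟩))
(.nd (.lf ⟨(nat_lit 0x1d138744e), (nat_lit 6), (nat_lit 0x1d138744e), (nat_lit 6)⟩)
(.lf ⟨(nat_lit 414), (nat_lit 2), (nat_lit 0x786), (nat_lit 2)⟩)))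
(.nd (.nd (.lf ⟨(nat_lit 0x2c21cb087), (nat_lit 6), (nat_lit 0x1cb0872c2), (nat_lit 6)⟩)
(.lf ⟨(nat_lit 0x6dd), (nat_lit 2), (nat_lit 0x4494494494496d125b44944944975b), (nat_lit 20)⟩))
(.nd (.lf ⟨(nat_lit 0x58e256389389389), (nat_lit 10), (nat_lit 0x8e24e242389389), (nat_lit 10)⟩)
(.lf ⟨(nat_lit 0), (nat_lit 0), (nat_lit 0x352352), (nat_lit 4)⟩))))
(.nd (.nd (.nd (.lf ⟨(nat_lit 0x105348), (nat_lit 4), (nat_lit 0x205348245204149), (nat_lit 10)⟩)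
(.lf ⟨(nat_lit 997), (nat_lit 2), (nat_lit 0x94f), (nat_lit 2)⟩))
(.nd (.lf ⟨(nat_lit 0x1071471531c51c51071471531c51c5), (nat_lit 20), (nat_lit 0x1071471531c51c51071471531c51c5), (nat_lit 20)⟩)
(.lf ⟨(nat_lit 0x273ca3ca), (nat_lit 5), (nat_lit 0x449449), (nat_lit 4)⟩)))
(.nd (.nd (.lf ⟨(nat_lit 268), (nat_lit 2), (nat_lit 0x7926921c81c8304), (nat_lit 10)⟩)
(.lf ⟨(nat_lit 0x4e4), (nat_lit 2), (nat_lit 0x524513), (nat_lit 4)⟩))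
(.lf ⟨(nat_lit 0x1875c), (nat_lit 3), (nat_lit 0x1d718), (nat_lit 3)⟩))))
(.nd (.nd (.nd (.nd (.lf ⟨(nat_lit 0x4148), (nat_lit 3), (nat_lit 0x5205105), (nat_lit 5)⟩)
(.lf ⟨(nat_lit 0x1271f), (nat_lit 3), (nat_lit 0x1c7dc49c), (nat_lit 5)⟩))
(.nd (.lf ⟨(nat_lit 0xa2d2), (nat_lit 3), (nat_lit 0xb48b28b), (nat_lit 5)⟩)
(.lf ⟨(nat_lit 0x78263079e024c247), (nat_lit 11), (nat_lit 0x2098c1e78093091c7), (nat_lit 11)⟩)))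
(.nd (.nd (.lf ⟨(nat_lit 151), (nat_lit 2), (nat_lit 0x192455d93c91573c2), (nat_lit 11)⟩)
(.lf ⟨(nat_lit 0x494), (nat_lit 2), (nat_lit 0x512), (nat_lit 2)⟩))
(.nd (.lf ⟨(nat_lit 538), (nat_lit 2), (nat_lit 0x688), (nat_lit 2)⟩)
(.lf ⟨(nat_lit 0x214306), (nat_lit 4), (nat_lit 0x9a471030a30a1901a795d40840850c188), (nat_lit 22)⟩))))
(.nd (.nd (.nd (.lf ⟨(nat_lit 220), (nat_lit 2), (nat_lit 0x628638818e21c44628818819d38a18a75128621d28621d38a19129c443), (nat_lit 39)⟩)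
(.lf ⟨(nat_lit 0x14420c2c830b10830b20c2c510830b20c2c420c2c830b), (nat_lit 30), (nat_lit 0x14420c2c830b10830b20c2c510830b20c2c420c2c830b), (nat_lit 30)⟩))
(.nd (.lf ⟨(nat_lit 0x10595), (nat_lit 3), (nat_lit 0x12595490), (nat_lit 5)⟩)
(.lf ⟨(nat_lit 0x6e3), (nat_lit 2), (nat_lit 0x8db), (nat_lit 2)⟩)))
(.nd (.nd (.lf ⟨(nat_lit 0x97417), (nat_lit 4), (nat_lit 0x5e07e07e07d75d05c2), (nat_lit 12)⟩)
(.lf ⟨(nat_lit 0xf4a2), (nat_lit 3), (nat_lit 0x128923d2), (nat_lit 5)⟩))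
(.lf ⟨(nat_lit 0x59d), (nat_lit 2), (nat_lit 0x61d616), (nat_lit 4)⟩)))))))
(.nd (.nd (.nd (.nd (.nd (.nd (.nd (.lf ⟨(nat_lit 17), (nat_lit 1), (nat_lit 0x4a04a), (nat_lit 4)⟩)
(.lf ⟨(nat_lit 0x1a07a07a781e9e078681e81e9e07a781e), (nat_lit 22), (nat_lit 0x1a07a07a781e9e078681e81e9e07a781e), (nat_lit 22)⟩))
(.nd (.lf ⟨(nat_lit 0xe60c90e61e61c32439879870c39832439879870c90e61e61c3), (nat_lit 34), (nat_lit 0xe60c90e61e61c32439879870c39832439879870c90e61e61c3), (nat_lit 34)⟩)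
(.lf ⟨(nat_lit 0x581f), (nat_lit 3), (nat_lit 0x207c5), (nat_lit 3)⟩)))
(.nd (.nd (.lf ⟨(nat_lit 284), (nat_lit 2), (nat_lit 0x38844a20638a74818a74818a19d444), (nat_lit 20)⟩)
(.lf ⟨(nat_lit 0x79b9a4), (nat_lit 4), (nat_lit 0x9a479b), (nat_lit 4)⟩))
(.nd (.lf ⟨(nat_lit 0x256549595), (nat_lit 6), (nat_lit 0x256549595), (nat_lit 6)⟩)
(.lf ⟨(nat_lit 0x11538454e), (nat_lit 6), (nat_lit 0x11538454e), (nat_lit 6)⟩))))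
(.nd (.nd (.nd (.lf ⟨(nat_lit 526), (nat_lit 2), (nat_lit 904), (nat_lit 2)⟩)
(.lf ⟨(nat_lit 0x5393), (nat_lit 3), (nat_lit 0xe4ce14e), (nat_lit 5)⟩))
(.nd (.lf ⟨(nat_lit 0xa115115), (nat_lit 5), (nat_lit 0x454454a), (nat_lit 5)⟩)
(.lf ⟨(nat_lit 0xc2e0), (nat_lit 3), (nat_lit 0x2030b), (nat_lit 3)⟩)))
(.nd (.nd (.lf ⟨(nat_lit 0x74a19c751286711), (nat_lit 10), (nat_lit 0xd10d1), (nat_lit 4)⟩)
(.lf ⟨(nat_lit 0x453), (nat_lit 2), (nat_lit 0x4d1), (nat_lit 2)⟩))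
(.lf ⟨(nat_lit 0x20657), (nat_lit 3), (nat_lit 0x195e0), (nat_lit 3)⟩))))
(.nd (.nd (.nd (.nd (.lf ⟨(nat_lit 130), (nat_lit 2), (nat_lit 0), (nat_lit 0)⟩)
(.lf ⟨(nat_lit 0xc330b0cc2c30cc2c330b), (nat_lit 14), (nat_lit 0xc330b0cc2c30cc2c330b), (nat_lit 14)⟩))
(.nd (.lf ⟨(nat_lit 0x452445485), (nat_lit 6), (nat_lit 0x5b05b), (nat_lit 4)⟩)
(.lf ⟨(nat_lit 675), (nat_lit 2), (nat_lit 0x8ca), (nat_lit 2)⟩)))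
(.nd (.nd (.lf ⟨(nat_lit 263), (nat_lit 2), (nat_lit 0x8122891e040a244), (nat_lit 10)⟩)
(.lf ⟨(nat_lit 0x152513), (nat_lit 4), (nat_lit 0x4944d2152), (nat_lit 6)⟩))
(.nd (.lf ⟨(nat_lit 28), (nat_lit 1), (nat_lit 0xd138344e), (nat_lit 6)⟩)
(.lf ⟨(nat_lit 0x4e3), (nat_lit 2), (nat_lit 0x8d3), (nat_lit 2)⟩))))
(.nd (.nd (.nd (.lf ⟨(nat_lit 0x107812), (nat_lit 4), (nat_lit 0x1c91ca4092927ca1ca1c928724740928724a1ca107), (nat_lit 28)⟩)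
(.lf ⟨(nat_lit 0x24c7e7), (nat_lit 4), (nat_lit 0x80c7e799f64c9d99e031f9e67d93278193e666781998c7e780f3207c931f), (nat_lit 40)⟩))
(.nd (.lf ⟨(nat_lit 80), (nat_lit 2), (nat_lit 0x9189198401), (nat_lit 7)⟩)
(.lf ⟨(nat_lit 0x1c21142c450b1c21142c450b), (nat_lit 16), (nat_lit 0x1c21142c450b1c21142c450b), (nat_lit 16)⟩)))
(.nd (.nd (.lf ⟨(nat_lit 197), (nat_lit 2), (nat_lit 0x1cb306147183), (nat_lit 8)⟩)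
(.lf ⟨(nat_lit 0x66d1), (nat_lit 3), (nat_lit 0x1b45644b4562c6), (nat_lit 9)⟩))
(.lf ⟨(nat_lit 0xa488488), (nat_lit 5), (nat_lit 0x1235235d28d74d29221220a), (nat_lit 15)⟩)))))
(.nd (.nd (.nd (.nd (.nd (.lf ⟨(nat_lit 138), (nat_lit 2), (nat_lit 0x12282), (nat_lit 3)⟩)
(.lf ⟨(nat_lit 0), (nat_lit 0), (nat_lit 0x18b18b), (nat_lit 4)⟩))
(.nd (.lf ⟨(nat_lit 0x185185), (nat_lit 4), (nat_lit 0x185185), (nat_lit 4)⟩)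
(.lf ⟨(nat_lit 0xa312), (nat_lit 3), (nat_lit 0xc48c28c), (nat_lit 5)⟩)))
(.nd (.nd (.lf ⟨(nat_lit 0x804804), (nat_lit 4), (nat_lit 0), (nat_lit 0)⟩)
(.lf ⟨(nat_lit 597), (nat_lit 2), (nat_lit 0x54d40d409), (nat_lit 6)⟩))
(.nd (.lf ⟨(nat_lit 0x1381f), (nat_lit 3), (nat_lit 0x207d3), (nat_lit 3)⟩)
(.lf ⟨(nat_lit 718), (nat_lit 2), (nat_lit 907), (nat_lit 2)⟩))))
(.nd (.nd (.nd (.lf ⟨(nat_lit 0x10e0c310e0c3), (nat_lit 8), (nat_lit 0xce0c40ce0c4), (nat_lit 8)⟩)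
(.lf ⟨(nat_lit 0x152163), (nat_lit 4), (nat_lit 0x7a3792752452752445485), (nat_lit 14)⟩))
(.nd (.lf ⟨(nat_lit 422), (nat_lit 2), (nat_lit 0x986), (nat_lit 2)⟩)
(.lf ⟨(nat_lit 0x49a), (nat_lit 2), (nat_lit 0x9a46a6912), (nat_lit 6)⟩)))
(.nd (.nd (.lf ⟨(nat_lit 0x792692792692), (nat_lit 8), (nat_lit 0), (nat_lit 0)⟩)
(.lf ⟨(nat_lit 88), (nat_lit 2), (nat_lit 0x60f40f190181), (nat_lit 8)⟩))
(.lf ⟨(nat_lit 679), (nat_lit 2), (nat_lit 0x9ca), (nat_lit 2)⟩))))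
(.nd (.nd (.nd (.nd (.lf ⟨(nat_lit 0x28304a0c1), (nat_lit 6), (nat_lit 0x4a0c1283), (nat_lit 6)⟩)
(.lf ⟨(nat_lit 0), (nat_lit 0), (nat_lit 0x29f29f), (nat_lit 4)⟩))
(.nd (.lf ⟨(nat_lit 967), (nat_lit 2), (nat_lit 0x173c70d73c70d85c35c31cf), (nat_lit 15)⟩)
(.lf ⟨(nat_lit 0x548c), (nat_lit 3), (nat_lit 0x123d23cc152), (nat_lit 7)⟩)))
(.nd (.nd (.lf ⟨(nat_lit 92), (nat_lit 2), (nat_lit 0x1c74671d286281), (nat_lit 9)⟩)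
(.lf ⟨(nat_lit 0x45645f), (nat_lit 4), (nat_lit 0x6df6d1591), (nat_lit 6)⟩))
(.nd (.lf ⟨(nat_lit 604), (nat_lit 2), (nat_lit 0x709), (nat_lit 2)⟩)
(.lf ⟨(nat_lit 996), (nat_lit 2), (nat_lit 0x90f), (nat_lit 2)⟩))))
(.nd (.nd (.nd (.lf ⟨(nat_lit 0x3d03d0), (nat_lit 4), (nat_lit 0x6903da40f), (nat_lit 6)⟩)
(.lf ⟨(nat_lit 25), (nat_lit 1), (nat_lit 0x8043e010f), (nat_lit 6)⟩))
(.nd (.lf ⟨(nat_lit 0x738d38d), (nat_lit 5), (nat_lit 0xe34e347), (nat_lit 5)⟩)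
(.lf ⟨(nat_lit 0x27963), (nat_lit 3), (nat_lit 0x28d28d), (nat_lit 4)⟩)))
(.nd (.nd (.lf ⟨(nat_lit 0xd70d70d70d7), (nat_lit 8), (nat_lit 0), (nat_lit 0)⟩)
(.lf ⟨(nat_lit 0x112513d03c6406), (nat_lit 9), (nat_lit 0xf40f190191251), (nat_lit 9)⟩))
(.lf ⟨(nat_lit 29), (nat_lit 1), (nat_lit 0x111111), (nat_lit 4)⟩))))))
(.nd (.nd (.nd (.nd (.nd (.nd (.lf ⟨(nat_lit 0x44044), (nat_lit 4), (nat_lit 0x101101), (nat_lit 4)⟩)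
(.lf ⟨(nat_lit 728), (nat_lit 2), (nat_lit 0x60b), (nat_lit 2)⟩))
(.nd (.lf ⟨(nat_lit 0x114114), (nat_lit 4), (nat_lit 0x504504), (nat_lit 4)⟩)
(.lf ⟨(nat_lit 0x493), (nat_lit 2), (nat_lit 0x4d2), (nat_lit 2)⟩)))
(.nd (.nd (.lf ⟨(nat_lit 0x1070c21070c2), (nat_lit 8), (nat_lit 0x870c40870c4), (nat_lit 8)⟩)
(.lf ⟨(nat_lit 0x758758), (nat_lit 4), (nat_lit 0x256256), (nat_lit 4)⟩))
(.nd (.lf ⟨(nat_lit 0x19595), (nat_lit 3), (nat_lit 0x16559), (nat_lit 3)⟩)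
(.lf ⟨(nat_lit 291), (nat_lit 2), (nat_lit 0x9da9da9e06a795a9d02102236a76a76a795a9da9da9da9e0690210204), (nat_lit 38)⟩))))
(.nd (.nd (.nd (.lf ⟨(nat_lit 0x209209), (nat_lit 4), (nat_lit 0x248248), (nat_lit 4)⟩)
(.lf ⟨(nat_lit 0x112152144485485), (nat_lit 10), (nat_lit 0x112152144485485), (nat_lit 10)⟩))
(.nd (.lf ⟨(nat_lit 0x125112125812944), (nat_lit 10), (nat_lit 0x4849604a5104944), (nat_lit 10)⟩)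
(.lf ⟨(nat_lit 0x25124124), (nat_lit 5), (nat_lit 0x4904925), (nat_lit 5)⟩)))
(.nd (.nd (.lf ⟨(nat_lit 0x2850e12a128314384a84a0ca14384a84a0c50e12a1283), (nat_lit 30), (nat_lit 0x2850e12a128314384a84a0ca14384a84a0c50e12a1283), (nat_lit 30)⟩)
(.lf ⟨(nat_lit 982), (nat_lit 2), (nat_lit 0x79d79d58f), (nat_lit 6)⟩))
(.lf ⟨(nat_lit 0x6409), (nat_lit 3), (nat_lit 0x1025431031a62632441442690640c), (nat_lit 19)⟩))))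
(.nd (.nd (.nd (.nd (.lf ⟨(nat_lit 81), (nat_lit 2), (nat_lit 0x291291291281), (nat_lit 8)⟩)
(.lf ⟨(nat_lit 0x792696495), (nat_lit 6), (nat_lit 0x304304), (nat_lit 4)⟩))
(.nd (.lf ⟨(nat_lit 98), (nat_lit 2), (nat_lit 0x89a15a141), (nat_lit 6)⟩)
(.lf ⟨(nat_lit 0xa3d0), (nat_lit 3), (nat_lit 0x1b9636da6144503d03cc40c69850f3103106d13e395b28f), (nat_lit 31)⟩)))
(.nd (.nd (.lf ⟨(nat_lit 0x21c20e20421c20e204), (nat_lit 12), (nat_lit 0x204388708204388708), (nat_lit 12)⟩)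
(.lf ⟨(nat_lit 0), (nat_lit 0), (nat_lit 0x50210201408408), (nat_lit 10)⟩))
(.nd (.lf ⟨(nat_lit 0x459), (nat_lit 2), (nat_lit 0x651), (nat_lit 2)⟩)
(.lf ⟨(nat_lit 0x625), (nat_lit 2), (nat_lit 0x958), (nat_lit 2)⟩))))
(.nd (.nd (.nd (.lf ⟨(nat_lit 0x45d), (nat_lit 2), (nat_lit 0x751), (nat_lit 2)⟩)
(.lf ⟨(nat_lit 0x6657), (nat_lit 3), (nat_lit 0x85132144d95c6), (nat_lit 9)⟩))
(.nd (.lf ⟨(nat_lit 402), (nat_lit 2), (nat_lit 0x9a4486), (nat_lit 4)⟩)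
(.lf ⟨(nat_lit 0x873ca3c73ca3c21cf28f1cf28f), (nat_lit 18), (nat_lit 0x873ca3c73ca3c21cf28f1cf28f), (nat_lit 18)⟩)))
(.nd (.nd (.lf ⟨(nat_lit 0x25138944e25138944e), (nat_lit 12), (nat_lit 0x10944e25138425138944e), (nat_lit 14)⟩)
(.lf ⟨(nat_lit 0x605605), (nat_lit 4), (nat_lit 0xd80c50d80c5), (nat_lit 8)⟩))
(.lf ⟨(nat_lit 0x24309d0427410c274109d0490c274109d04309d042741), (nat_lit 30), (nat_lit 0x24309d0427410c274109d0490c274109d04309d042741), (nat_lit 30)⟩)))))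
(.nd (.nd (.nd (.nd (.nd (.lf ⟨(nat_lit 0x75d), (nat_lit 2), (nat_lit 0), (nat_lit 0)⟩)
(.lf ⟨(nat_lit 851), (nat_lit 2), (nat_lit 0x4cd), (nat_lit 2)⟩))
(.nd (.lf ⟨(nat_lit 0x245545045545049155141155141), (nat_lit 18), (nat_lit 0x245545045545049155141155141), (nat_lit 18)⟩)
(.lf ⟨(nat_lit 0x615), (nat_lit 2), (nat_lit 0xcf3433cd), (nat_lit 6)⟩)))
(.nd (.nd (.lf ⟨(nat_lit 0x2831c22831c2), (nat_lit 8), (nat_lit 0x1c22831c2283), (nat_lit 8)⟩)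
(.lf ⟨(nat_lit 0), (nat_lit 0), (nat_lit 0x741741), (nat_lit 4)⟩))
(.nd (.lf ⟨(nat_lit 0xe74e25d389389389), (nat_lit 11), (nat_lit 0x1d38974e24e24e24e), (nat_lit 11)⟩)
(.lf ⟨(nat_lit 0x840c), (nat_lit 3), (nat_lit 0x27950308), (nat_lit 5)⟩))))
(.nd (.nd (.nd (.lf ⟨(nat_lit 93), (nat_lit 2), (nat_lit 0x20a448288751288291291281), (nat_lit 16)⟩)
(.lf ⟨(nat_lit 295), (nat_lit 2), (nat_lit 0x8109dd68840e40842781d6a7384), (nat_lit 18)⟩))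
(.nd (.lf ⟨(nat_lit 0x150150), (nat_lit 4), (nat_lit 0x150150), (nat_lit 4)⟩)
(.lf ⟨(nat_lit 268), (nat_lit 2), (nat_lit 0x79a595304), (nat_lit 6)⟩)))
(.nd (.nd (.lf ⟨(nat_lit 0x564915764f2455cf), (nat_lit 11), (nat_lit 0x192455d93c91573c5), (nat_lit 11)⟩)
(.lf ⟨(nat_lit 0xe308308), (nat_lit 5), (nat_lit 0xc20c20e), (nat_lit 5)⟩))
(.lf ⟨(nat_lit 643), (nat_lit 2), (nat_lit 202), (nat_lit 2)⟩))))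
(.nd (.nd (.nd (.nd (.lf ⟨(nat_lit 0x2010c12010c1), (nat_lit 8), (nat_lit 0x43201043201), (nat_lit 8)⟩)
(.lf ⟨(nat_lit 0x152513), (nat_lit 4), (nat_lit 0x4524544d1491152), (nat_lit 10)⟩))
(.nd (.lf ⟨(nat_lit 0x2ca2ca), (nat_lit 4), (nat_lit 0x28b28b), (nat_lit 4)⟩)
(.lf ⟨(nat_lit 0xc2d7), (nat_lit 3), (nat_lit 0xc2c540c40b15730b), (nat_lit 11)⟩)))
(.nd (.nd (.lf ⟨(nat_lit 0), (nat_lit 0), (nat_lit 0x204204), (nat_lit 4)⟩)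
(.lf ⟨(nat_lit 0x49c), (nat_lit 2), (nat_lit 0x712), (nat_lit 2)⟩))
(.nd (.lf ⟨(nat_lit 0x488488488488), (nat_lit 8), (nat_lit 0), (nat_lit 0)⟩)
(.lf ⟨(nat_lit 28), (nat_lit 1), (nat_lit 0xdd7110dd711), (nat_lit 8)⟩))))
(.nd (.nd (.nd (.lf ⟨(nat_lit 608), (nat_lit 2), (nat_lit 0x809), (nat_lit 2)⟩)
(.lf ⟨(nat_lit 0x8c81f3207c23207cc81f), (nat_lit 14), (nat_lit 0x8c81f3207c23207cc81f), (nat_lit 14)⟩))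
(.nd (.lf ⟨(nat_lit 0xcd21034840334840d210), (nat_lit 14), (nat_lit 0xcd21034840334840d210), (nat_lit 14)⟩)
(.lf ⟨(nat_lit 0xe098c9e024c243826327809309), (nat_lit 18), (nat_lit 0xe098c9e024c243826327809309), (nat_lit 18)⟩)))
(.nd (.nd (.lf ⟨(nat_lit 457), (nat_lit 2), (nat_lit 0x81f247), (nat_lit 4)⟩)
(.lf ⟨(nat_lit 0x417), (nat_lit 2), (nat_lit 0x5d0), (nat_lit 2)⟩))
(.lf ⟨(nat_lit 0xd452), (nat_lit 3), (nat_lit 0xf4914913d2752752351), (nat_lit 13)⟩))))))))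
(.nd (.nd (.nd (.nd (.nd (.nd (.nd (.nd (.lf ⟨(nat_lit 9), (nat_lit 1), (nat_lit 0x84084), (nat_lit 4)⟩)
(.lf ⟨(nat_lit 0x207a07a781e9e0791), (nat_lit 11), (nat_lit 0x94194a94194a), (nat_lit 8)⟩))
(.nd (.lf ⟨(nat_lit 0x182502506094094), (nat_lit 10), (nat_lit 0x182502506094094), (nat_lit 10)⟩)
(.lf ⟨(nat_lit 277), (nat_lit 2), (nat_lit 0x34a55034e289389210204), (nat_lit 14)⟩)))
(.nd (.nd (.lf ⟨(nat_lit 272), (nat_lit 2), (nat_lit 0x10804), (nat_lit 3)⟩)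
(.lf ⟨(nat_lit 0x1e712712), (nat_lit 5), (nat_lit 0x1c49c49e), (nat_lit 5)⟩))
(.nd (.lf ⟨(nat_lit 218), (nat_lit 2), (nat_lit 0x690190183), (nat_lit 6)⟩)
(.lf ⟨(nat_lit 807), (nat_lit 2), (nat_lit 0x9cc), (nat_lit 2)⟩))))
(.nd (.nd (.nd (.lf ⟨(nat_lit 144), (nat_lit 2), (nat_lit 0x1c42472841df48a40928724710781210a242), (nat_lit 24)⟩)
(.lf ⟨(nat_lit 19), (nat_lit 1), (nat_lit 0x8c2c230b), (nat_lit 6)⟩))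
(.nd (.lf ⟨(nat_lit 0x64d29934a34a34a64d29934a34a34a), (nat_lit 20), (nat_lit 0), (nat_lit 0)⟩)
(.lf ⟨(nat_lit 0), (nat_lit 0), (nat_lit 0xd2152143485485), (nat_lit 10)⟩)))
(.nd (.nd (.lf ⟨(nat_lit 0x2cd2cd), (nat_lit 4), (nat_lit 0x34b34b), (nat_lit 4)⟩)
(.lf ⟨(nat_lit 0x640b), (nat_lit 3), (nat_lit 0xb190), (nat_lit 3)⟩))
(.nd (.lf ⟨(nat_lit 0x579221e488488488), (nat_lit 11), (nat_lit 0x1e488792212212205), (nat_lit 11)⟩)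
(.lf ⟨(nat_lit 277), (nat_lit 2), (nat_lit 0x54f28f284), (nat_lit 6)⟩)))))
(.nd (.nd (.nd (.nd (.lf ⟨(nat_lit 286), (nat_lit 2), (nat_lit 0x25784), (nat_lit 3)⟩)
(.lf ⟨(nat_lit 0xb657), (nat_lit 3), (nat_lit 0x195d435434b), (nat_lit 7)⟩))
(.nd (.lf ⟨(nat_lit 0x5035ca50a5172942945035ca50a517294294), (nat_lit 24), (nat_lit 0x5035ca50a5172942945035ca50a517294294), (nat_lit 24)⟩)
(.lf ⟨(nat_lit 677), (nat_lit 2), (nat_lit 0x94a), (nat_lit 2)⟩)))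
(.nd (.nd (.lf ⟨(nat_lit 218), (nat_lit 2), (nat_lit 0x1d38a22068e18881074e44a19d38a20674a20628674e44674e28819d28818a19d39119d38a20674a20628674e44674e28819d288190283), (nat_lit 73)⟩)
(.lf ⟨(nat_lit 88), (nat_lit 2), (nat_lit 0x60f40e3ce3ce3ce190181), (nat_lit 14)⟩))
(.nd (.lf ⟨(nat_lit 0xe81f), (nat_lit 3), (nat_lit 0x207ce), (nat_lit 3)⟩)
(.lf ⟨(nat_lit 996), (nat_lit 2), (nat_lit 0x6a469879878f), (nat_lit 8)⟩))))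
(.nd (.nd (.nd (.lf ⟨(nat_lit 0x10564f), (nat_lit 4), (nat_lit 0x14814934824f5c9149148245205348245209149105), (nat_lit 28)⟩)
(.lf ⟨(nat_lit 0xf81f), (nat_lit 3), (nat_lit 0xc81f3207cf30f3207cf), (nat_lit 13)⟩))
(.nd (.lf ⟨(nat_lit 0x418), (nat_lit 2), (nat_lit 0x610), (nat_lit 2)⟩)
(.lf ⟨(nat_lit 0x1c244e1c244e), (nat_lit 8), (nat_lit 0x1c244e1c244e), (nat_lit 8)⟩)))
(.nd (.nd (.lf ⟨(nat_lit 0x20271d09c74809c74271d), (nat_lit 14), (nat_lit 0x20271d09c74809c74271d), (nat_lit 14)⟩)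
(.lf ⟨(nat_lit 532), (nat_lit 2), (nat_lit 0x508), (nat_lit 2)⟩))
(.lf ⟨(nat_lit 0x74d), (nat_lit 2), (nat_lit 0x74a35d34a35d), (nat_lit 8)⟩)))))
(.nd (.nd (.nd (.nd (.nd (.lf ⟨(nat_lit 0xc90c9), (nat_lit 4), (nat_lit 0x243243), (nat_lit 4)⟩)
(.lf ⟨(nat_lit 215), (nat_lit 2), (nat_lit 0x207c75cf3207cc81f3cc3c999f9df3207d76103d05c91e260b24b243), (nat_lit 37)⟩))
(.nd (.lf ⟨(nat_lit 0x44e2c42c4), (nat_lit 6), (nat_lit 0x2c42c444e), (nat_lit 6)⟩)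
(.lf ⟨(nat_lit 742), (nat_lit 2), (nat_lit 0x98b), (nat_lit 2)⟩)))
(.nd (.nd (.lf ⟨(nat_lit 0x151151), (nat_lit 4), (nat_lit 0x445445), (nat_lit 4)⟩)
(.lf ⟨(nat_lit 0x416), (nat_lit 2), (nat_lit 0x590), (nat_lit 2)⟩))
(.nd (.lf ⟨(nat_lit 0), (nat_lit 0), (nat_lit 0xe07c381f), (nat_lit 6)⟩)
(.lf ⟨(nat_lit 0x16798), (nat_lit 3), (nat_lit 0x18796), (nat_lit 3)⟩))))
(.nd (.nd (.nd (.lf ⟨(nat_lit 0x10e0c210e0c2), (nat_lit 8), (nat_lit 0x8e0c408e0c4), (nat_lit 8)⟩)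
(.lf ⟨(nat_lit 0x665), (nat_lit 2), (nat_lit 0x959), (nat_lit 2)⟩))
(.nd (.lf ⟨(nat_lit 0x21f226), (nat_lit 4), (nat_lit 0x9887c8), (nat_lit 4)⟩)
(.lf ⟨(nat_lit 994), (nat_lit 2), (nat_lit 0x88f), (nat_lit 2)⟩)))
(.nd (.nd (.lf ⟨(nat_lit 394), (nat_lit 2), (nat_lit 0x1c286), (nat_lit 3)⟩)
(.lf ⟨(nat_lit 165), (nat_lit 2), (nat_lit 0x95d49d3d23c2), (nat_lit 8)⟩))
(.lf ⟨(nat_lit 0xd79b), (nat_lit 3), (nat_lit 0x1e3db3cd), (nat_lit 5)⟩))))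
(.nd (.nd (.nd (.nd (.lf ⟨(nat_lit 0x107107), (nat_lit 4), (nat_lit 0x1c41c4), (nat_lit 4)⟩)
(.lf ⟨(nat_lit 979), (nat_lit 2), (nat_lit 0x4cf), (nat_lit 2)⟩))
(.nd (.lf ⟨(nat_lit 0xd73c70d73c70d80d73c70d73c70d8), (nat_lit 20), (nat_lit 0xd73c70d73c70d80d73c70d73c70d8), (nat_lit 20)⟩)
(.lf ⟨(nat_lit 0x40f40f), (nat_lit 4), (nat_lit 0x25a25a), (nat_lit 4)⟩)))
(.nd (.nd (.lf ⟨(nat_lit 0x45e), (nat_lit 2), (nat_lit 0x791), (nat_lit 2)⟩)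
(.lf ⟨(nat_lit 0), (nat_lit 0), (nat_lit 0x110190184406406), (nat_lit 10)⟩))
(.nd (.lf ⟨(nat_lit 0x458), (nat_lit 2), (nat_lit 0x611), (nat_lit 2)⟩)
(.lf ⟨(nat_lit 0x28f30b), (nat_lit 4), (nat_lit 0x279633cc2ca), (nat_lit 7)⟩))))
(.nd (.nd (.nd (.lf ⟨(nat_lit 589), (nat_lit 2), (nat_lit 841), (nat_lit 2)⟩)
(.lf ⟨(nat_lit 0x121e6912512), (nat_lit 7), (nat_lit 0x26912512487), (nat_lit 7)⟩))
(.nd (.lf ⟨(nat_lit 0xd60d6), (nat_lit 4), (nat_lit 0xd60d6), (nat_lit 4)⟩)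
(.lf ⟨(nat_lit 0xa60a6), (nat_lit 4), (nat_lit 0xa60a6), (nat_lit 4)⟩)))
(.nd (.nd (.lf ⟨(nat_lit 0x100d0388408), (nat_lit 7), (nat_lit 0x10388408403), (nat_lit 7)⟩)
(.lf ⟨(nat_lit 0x698), (nat_lit 2), (nat_lit 0x449446449446), (nat_lit 8)⟩))
(.lf ⟨(nat_lit 472), (nat_lit 2), (nat_lit 0x607), (nat_lit 2)⟩))))))
(.nd (.nd (.nd (.nd (.nd (.nd (.lf ⟨(nat_lit 325), (nat_lit 2), (nat_lit 0), (nat_lit 0)⟩)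
(.lf ⟨(nat_lit 0x4d4), (nat_lit 2), (nat_lit 0x513), (nat_lit 2)⟩))
(.nd (.lf ⟨(nat_lit 12), (nat_lit 1), (nat_lit 0x1c11c1), (nat_lit 4)⟩)
(.lf ⟨(nat_lit 0x4e6), (nat_lit 2), (nat_lit 0x993), (nat_lit 2)⟩)))
(.nd (.nd (.lf ⟨(nat_lit 0x93307), (nat_lit 4), (nat_lit 0x4c51c54cc093), (nat_lit 8)⟩)
(.lf ⟨(nat_lit 0x65d), (nat_lit 2), (nat_lit 0x759), (nat_lit 2)⟩))
(.nd (.lf ⟨(nat_lit 0x93c73c7), (nat_lit 5), (nat_lit 0xf24c3c93093093207c93207c930930930f1cf1c9), (nat_lit 27)⟩)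
(.lf ⟨(nat_lit 0x1ce0c73831c73831ce0c7), (nat_lit 14), (nat_lit 0x1ce0c73831c73831ce0c7), (nat_lit 14)⟩))))
(.nd (.nd (.nd (.lf ⟨(nat_lit 0x188188), (nat_lit 4), (nat_lit 0x206206), (nat_lit 4)⟩)
(.lf ⟨(nat_lit 0x59c59c), (nat_lit 4), (nat_lit 0x716716), (nat_lit 4)⟩))
(.nd (.lf ⟨(nat_lit 8), (nat_lit 1), (nat_lit 0x101101), (nat_lit 4)⟩)
(.lf ⟨(nat_lit 0x10a12478a12495e10a12478a12495e), (nat_lit 20), (nat_lit 0x10a12478a12495e10a12478a12495e), (nat_lit 20)⟩)))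
(.nd (.nd (.lf ⟨(nat_lit 0x149157), (nat_lit 4), (nat_lit 9), (nat_lit 1)⟩)
(.lf ⟨(nat_lit 0x1063c63c418f18f), (nat_lit 10), (nat_lit 0x1063c63c418f18f), (nat_lit 10)⟩))
(.lf ⟨(nat_lit 0x9510), (nat_lit 3), (nat_lit 0x14414254), (nat_lit 5)⟩))))
(.nd (.nd (.nd (.nd (.lf ⟨(nat_lit 520), (nat_lit 2), (nat_lit 0), (nat_lit 0)⟩)
(.lf ⟨(nat_lit 0x9019022e406412406410b90190490190408b9019049019042e406412406412406408b9019049019042e40641240641022e406412406410b901904901904), (nat_lit 82), (nat_lit 0x9019022e406412406410b90190490190408b9019049019042e406412406412406408b9019049019042e40641240641022e406412406410b901904901904), (nat_lit 82)⟩))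
(.nd (.lf ⟨(nat_lit 0x9d70275c), (nat_lit 6), (nat_lit 0x9d70275c), (nat_lit 6)⟩)
(.lf ⟨(nat_lit 0x548c), (nat_lit 3), (nat_lit 0x12312152), (nat_lit 5)⟩)))
(.nd (.nd (.lf ⟨(nat_lit 0x7c805f201), (nat_lit 6), (nat_lit 0x2017c805f), (nat_lit 6)⟩)
(.lf ⟨(nat_lit 32), (nat_lit 1), (nat_lit 0x404404), (nat_lit 4)⟩))
(.nd (.lf ⟨(nat_lit 0x619), (nat_lit 2), (nat_lit 0x699698), (nat_lit 4)⟩)
(.lf ⟨(nat_lit 0x59a), (nat_lit 2), (nat_lit 0x696), (nat_lit 2)⟩))))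
(.nd (.nd (.nd (.lf ⟨(nat_lit 853), (nat_lit 2), (nat_lit 0x54d), (nat_lit 2)⟩)
(.lf ⟨(nat_lit 0x21d71244548e49115238875c49115239244548e), (nat_lit 26), (nat_lit 0x21d71244548e49115238875c49115239244548e), (nat_lit 26)⟩))
(.nd (.lf ⟨(nat_lit 0x1ca50a30a50a30729428c29428c), (nat_lit 18), (nat_lit 0x1ca50a30a50a30729428c29428c), (nat_lit 18)⟩)
(.lf ⟨(nat_lit 0x5a7), (nat_lit 2), (nat_lit 0x61d6a7698756), (nat_lit 8)⟩)))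
(.nd (.nd (.lf ⟨(nat_lit 329), (nat_lit 2), (nat_lit 0x17245), (nat_lit 3)⟩)
(.lf ⟨(nat_lit 536), (nat_lit 2), (nat_lit 0x608), (nat_lit 2)⟩))
(.lf ⟨(nat_lit 0x741741), (nat_lit 4), (nat_lit 0), (nat_lit 0)⟩)))))
(.nd (.nd (.nd (.nd (.nd (.lf ⟨(nat_lit 80), (nat_lit 2), (nat_lit 0x1a401), (nat_lit 3)⟩)
(.lf ⟨(nat_lit 0x81595056542056541595), (nat_lit 14), (nat_lit 0x81595056542056541595), (nat_lit 14)⟩))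
(.nd (.lf ⟨(nat_lit 167), (nat_lit 2), (nat_lit 0x5cf25b4522973c96d1812282), (nat_lit 16)⟩)
(.lf ⟨(nat_lit 0x7a0), (nat_lit 2), (nat_lit 0x81e), (nat_lit 2)⟩)))
(.nd (.nd (.lf ⟨(nat_lit 0x242141242141), (nat_lit 8), (nat_lit 0x141242141242), (nat_lit 8)⟩)
(.lf ⟨(nat_lit 0x6cd), (nat_lit 2), (nat_lit 859), (nat_lit 2)⟩))
(.nd (.lf ⟨(nat_lit 0x58e25638938938958e256389389389), (nat_lit 20), (nat_lit 0), (nat_lit 0)⟩)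
(.lf ⟨(nat_lit 0x61d), (nat_lit 2), (nat_lit 0x758), (nat_lit 2)⟩))))
(.nd (.nd (.nd (.lf ⟨(nat_lit 0x418a), (nat_lit 3), (nat_lit 0x6286106), (nat_lit 5)⟩)
(.lf ⟨(nat_lit 613), (nat_lit 2), (nat_lit 0x9599d9267), (nat_lit 6)⟩))
(.nd (.lf ⟨(nat_lit 83), (nat_lit 2), (nat_lit 0x4c1), (nat_lit 2)⟩)
(.lf ⟨(nat_lit 995), (nat_lit 2), (nat_lit 0x8cf), (nat_lit 2)⟩)))
(.nd (.nd (.lf ⟨(nat_lit 0x264915764f2455cf), (nat_lit 11), (nat_lit 0x192455d93c91573c2), (nat_lit 11)⟩)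
(.lf ⟨(nat_lit 0x50c38850c38c20c), (nat_lit 10), (nat_lit 0xcc20c203308308), (nat_lit 10)⟩))
(.lf ⟨(nat_lit 409), (nat_lit 2), (nat_lit 0x64e3ce3c6), (nat_lit 6)⟩))))
(.nd (.nd (.nd (.nd (.lf ⟨(nat_lit 0x4d205), (nat_lit 4), (nat_lit 0x14834804d20d), (nat_lit 8)⟩)
(.lf ⟨(nat_lit 0x71f), (nat_lit 2), (nat_lit 0x7dc), (nat_lit 2)⟩))
(.nd (.lf ⟨(nat_lit 722), (nat_lit 2), (nat_lit 0x7122dc), (nat_lit 4)⟩)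
(.lf ⟨(nat_lit 0x435c35c10d70d7), (nat_lit 10), (nat_lit 0x435c35c10d70d7), (nat_lit 10)⟩)))
(.nd (.nd (.lf ⟨(nat_lit 0xb2442c4), (nat_lit 5), (nat_lit 0x2c210b084), (nat_lit 6)⟩)
(.lf ⟨(nat_lit 0x12698), (nat_lit 3), (nat_lit 0x1a612), (nat_lit 3)⟩))
(.nd (.lf ⟨(nat_lit 0x488488), (nat_lit 4), (nat_lit 0x488488), (nat_lit 4)⟩)
(.lf ⟨(nat_lit 0x30810c204), (nat_lit 6), (nat_lit 0x30810c204), (nat_lit 6)⟩))))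
(.nd (.nd (.nd (.lf ⟨(nat_lit 0x1c91d2), (nat_lit 4), (nat_lit 0x98102872a0490807), (nat_lit 11)⟩)
(.lf ⟨(nat_lit 0x116544595), (nat_lit 6), (nat_lit 0x116544595), (nat_lit 6)⟩))
(.nd (.lf ⟨(nat_lit 0x3c63c6), (nat_lit 4), (nat_lit 0x5a601698), (nat_lit 6)⟩)
(.lf ⟨(nat_lit 79), (nat_lit 2), (nat_lit 961), (nat_lit 2)⟩)))
(.nd (.nd (.lf ⟨(nat_lit 0x2417e005f80905f8017e0), (nat_lit 14), (nat_lit 0x2417e005f80905f8017e0), (nat_lit 14)⟩)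
(.lf ⟨(nat_lit 981), (nat_lit 2), (nat_lit 0x55a49d49a49d48f), (nat_lit 10)⟩))
(.lf ⟨(nat_lit 0x5488), (nat_lit 3), (nat_lit 0x195d1488491152), (nat_lit 9)⟩)))))))
(.nd (.nd (.nd (.nd (.nd (.nd (.nd (.lf ⟨(nat_lit 25), (nat_lit 1), (nat_lit 0x10f10f), (nat_lit 4)⟩)
(.lf ⟨(nat_lit 0x941965065), (nat_lit 6), (nat_lit 0), (nat_lit 0)⟩))
(.nd (.lf ⟨(nat_lit 0x70a21c2), (nat_lit 5), (nat_lit 0x87687087687), (nat_lit 8)⟩)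
(.lf ⟨(nat_lit 0), (nat_lit 0), (nat_lit 0x1d21d2), (nat_lit 4)⟩)))
(.nd (.nd (.lf ⟨(nat_lit 529), (nat_lit 2), (nat_lit 0x448), (nat_lit 2)⟩)
(.lf ⟨(nat_lit 0x1712712), (nat_lit 5), (nat_lit 0x1c49c481), (nat_lit 5)⟩))
(.nd (.lf ⟨(nat_lit 0x24c24c24c24c), (nat_lit 8), (nat_lit 0), (nat_lit 0)⟩)
(.lf ⟨(nat_lit 0), (nat_lit 0), (nat_lit 0x34840e24e24840834840e24e248408), (nat_lit 20)⟩))))
(.nd (.nd (.nd (.lf ⟨(nat_lit 0x95343), (nat_lit 4), (nat_lit 0x1534354d095347), (nat_lit 9)⟩)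
(.lf ⟨(nat_lit 0x4dd), (nat_lit 2), (nat_lit 0x51d513), (nat_lit 4)⟩))
(.nd (.lf ⟨(nat_lit 217), (nat_lit 2), (nat_lit 0x34a34a115115643), (nat_lit 10)⟩)
(.lf ⟨(nat_lit 0x928c2ca30b), (nat_lit 7), (nat_lit 0xa30b28c2c9), (nat_lit 7)⟩)))
(.nd (.nd (.lf ⟨(nat_lit 166), (nat_lit 2), (nat_lit 0x599f18399f79244a99f79244a30714b5071a02877e02877e048a1ca1df8122872877e02877e01df80a1df80a1ca0c2), (nat_lit 63)⟩)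
(.lf ⟨(nat_lit 0x452456), (nat_lit 4), (nat_lit 0x592612452611), (nat_lit 8)⟩))
(.lf ⟨(nat_lit 199), (nat_lit 2), (nat_lit 451), (nat_lit 2)⟩))))
(.nd (.nd (.nd (.nd (.lf ⟨(nat_lit 72), (nat_lit 2), (nat_lit 0x108108108101), (nat_lit 8)⟩)
(.lf ⟨(nat_lit 0x2e40642e4064), (nat_lit 8), (nat_lit 0x2e40642e4064), (nat_lit 8)⟩))
(.nd (.lf ⟨(nat_lit 0xc615a15a183185685686), (nat_lit 14), (nat_lit 0xc615a15a183185685686), (nat_lit 14)⟩)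
(.lf ⟨(nat_lit 465), (nat_lit 2), (nat_lit 0x1e49a49031a49a49a49099e44c48c49131244c28c287), (nat_lit 29)⟩)))
(.nd (.nd (.lf ⟨(nat_lit 220), (nat_lit 2), (nat_lit 0x628818819c44628818819d38a19d44e44628818a20629c443), (nat_lit 33)⟩)
(.lf ⟨(nat_lit 280), (nat_lit 2), (nat_lit 0x2721021879d79d69269275a49a4906d124e8dd2513a36d1251244), (nat_lit 35)⟩))
(.nd (.lf ⟨(nat_lit 0x69c), (nat_lit 2), (nat_lit 0x71a), (nat_lit 2)⟩)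
(.lf ⟨(nat_lit 0x563), (nat_lit 2), (nat_lit 0x8d5), (nat_lit 2)⟩))))
(.nd (.nd (.nd (.lf ⟨(nat_lit 214), (nat_lit 2), (nat_lit 0x24a40a20a58e34e34848a2441ce29f48a7d229f48a7d2107383), (nat_lit 34)⟩)
(.lf ⟨(nat_lit 0x1f9e5), (nat_lit 3), (nat_lit 0x2795f), (nat_lit 3)⟩))
(.nd (.lf ⟨(nat_lit 0x1e4914a6), (nat_lit 5), (nat_lit 0x26792452), (nat_lit 5)⟩)
(.lf ⟨(nat_lit 0x1a73c938a3ca24e), (nat_lit 10), (nat_lit 0x9cf24e28f289386), (nat_lit 10)⟩)))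
(.nd (.nd (.lf ⟨(nat_lit 151), (nat_lit 2), (nat_lit 0x5c2), (nat_lit 2)⟩)
(.lf ⟨(nat_lit 0xc34e), (nat_lit 3), (nat_lit 0x1245244d38d30d), (nat_lit 9)⟩))
(.lf ⟨(nat_lit 0x1f095095), (nat_lit 5), (nat_lit 0x254255f), (nat_lit 5)⟩)))))
(.nd (.nd (.nd (.nd (.nd (.lf ⟨(nat_lit 0x555), (nat_lit 2), (nat_lit 0), (nat_lit 0)⟩)
(.lf ⟨(nat_lit 724), (nat_lit 2), (nat_lit 0x50b), (nat_lit 2)⟩))
(.nd (.lf ⟨(nat_lit 0x11285285), (nat_lit 5), (nat_lit 0xa14a151), (nat_lit 5)⟩)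
(.lf ⟨(nat_lit 0x4a6), (nat_lit 2), (nat_lit 0x992), (nat_lit 2)⟩)))
(.nd (.nd (.lf ⟨(nat_lit 0x3c90cf243), (nat_lit 6), (nat_lit 0xcf2433c9), (nat_lit 6)⟩)
(.lf ⟨(nat_lit 0x6d125b449449449), (nat_lit 10), (nat_lit 0x91251242449449), (nat_lit 10)⟩))
(.nd (.lf ⟨(nat_lit 206), (nat_lit 2), (nat_lit 899), (nat_lit 2)⟩)
(.lf ⟨(nat_lit 277), (nat_lit 2), (nat_lit 0x2361d61b5a575b6a795a9da9da61d6a769895a9da9da9dd696550389389210204), (nat_lit 43)⟩))))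
(.nd (.nd (.nd (.lf ⟨(nat_lit 0x190190), (nat_lit 4), (nat_lit 0x406406), (nat_lit 4)⟩)
(.lf ⟨(nat_lit 0x22774f), (nat_lit 4), (nat_lit 0x9e581e81e49d9e575274f48f9cf227952), (nat_lit 22)⟩))
(.nd (.lf ⟨(nat_lit 0x1c9a4), (nat_lit 3), (nat_lit 0x2691c), (nat_lit 3)⟩)
(.lf ⟨(nat_lit 465), (nat_lit 2), (nat_lit 0x2691e6a691a9a46a691a99e44c28c287), (nat_lit 21)⟩)))
(.nd (.nd (.lf ⟨(nat_lit 0xc490), (nat_lit 3), (nat_lit 0x77926921de49a49240c), (nat_lit 13)⟩)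
(.lf ⟨(nat_lit 0x513), (nat_lit 2), (nat_lit 0x15e19e15e19e), (nat_lit 8)⟩))
(.lf ⟨(nat_lit 0xa599), (nat_lit 3), (nat_lit 0x16656296), (nat_lit 5)⟩))))
(.nd (.nd (.nd (.nd (.lf ⟨(nat_lit 0x141141), (nat_lit 4), (nat_lit 0), (nat_lit 0)⟩)
(.lf ⟨(nat_lit 0xa9a4), (nat_lit 3), (nat_lit 0x2691c49c48a), (nat_lit 7)⟩))
(.nd (.lf ⟨(nat_lit 0x70a2dc28b28b28b), (nat_lit 10), (nat_lit 0x18a2ca2c628b28b), (nat_lit 10)⟩)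
(.lf ⟨(nat_lit 0x310310), (nat_lit 4), (nat_lit 0xcc24c243309309), (nat_lit 10)⟩)))
(.nd (.nd (.lf ⟨(nat_lit 261), (nat_lit 2), (nat_lit 0x3cd144), (nat_lit 4)⟩)
(.lf ⟨(nat_lit 0x1906d1), (nat_lit 4), (nat_lit 0x41b45638b44e2d1406590), (nat_lit 14)⟩))
(.nd (.lf ⟨(nat_lit 409), (nat_lit 2), (nat_lit 0x65138f44e3c6), (nat_lit 8)⟩)
(.lf ⟨(nat_lit 280), (nat_lit 2), (nat_lit 0x6103ce21028f289389204), (nat_lit 14)⟩))))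
(.nd (.nd (.nd (.lf ⟨(nat_lit 167), (nat_lit 2), (nat_lit 0x53c979244a3c979244a14948a252282), (nat_lit 21)⟩)
(.lf ⟨(nat_lit 0x10c2c430b), (nat_lit 6), (nat_lit 0x10c2c430b), (nat_lit 6)⟩))
(.nd (.lf ⟨(nat_lit 0x245985989166166), (nat_lit 10), (nat_lit 0x245985989166166), (nat_lit 10)⟩)
(.lf ⟨(nat_lit 0x27963485485), (nat_lit 7), (nat_lit 0x12152167963), (nat_lit 7)⟩)))
(.nd (.nd (.lf ⟨(nat_lit 0x5c35d70d7), (nat_lit 6), (nat_lit 0), (nat_lit 0)⟩)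
(.lf ⟨(nat_lit 0x15215a), (nat_lit 4), (nat_lit 0x4a27a279a485485), (nat_lit 10)⟩))
(.lf ⟨(nat_lit 0x15215d), (nat_lit 4), (nat_lit 0x452752445485), (nat_lit 8)⟩))))))
(.nd (.nd (.nd (.nd (.nd (.nd (.lf ⟨(nat_lit 196), (nat_lit 2), (nat_lit 0xa103), (nat_lit 3)⟩)
(.lf ⟨(nat_lit 0x61f), (nat_lit 2), (nat_lit 0x7d8), (nat_lit 2)⟩))
(.nd (.lf ⟨(nat_lit 276), (nat_lit 2), (nat_lit 0x44e4905124144905124071924113864901c4), (nat_lit 24)⟩)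
(.lf ⟨(nat_lit 0x28c28c), (nat_lit 4), (nat_lit 0x28c28c), (nat_lit 4)⟩)))
(.nd (.nd (.lf ⟨(nat_lit 0x3010cc043), (nat_lit 6), (nat_lit 0xcc043301), (nat_lit 6)⟩)
(.lf ⟨(nat_lit 0x8409), (nat_lit 3), (nat_lit 0x650390389210), (nat_lit 8)⟩))
(.nd (.lf ⟨(nat_lit 0x146146), (nat_lit 4), (nat_lit 0x146146), (nat_lit 4)⟩)
(.lf ⟨(nat_lit 0x79a595), (nat_lit 4), (nat_lit 0x304304), (nat_lit 4)⟩))))
(.nd (.nd (.nd (.lf ⟨(nat_lit 0x41a), (nat_lit 2), (nat_lit 0x690), (nat_lit 2)⟩)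
(.lf ⟨(nat_lit 0x3d23d2), (nat_lit 4), (nat_lit 0x48f48f), (nat_lit 4)⟩))
(.nd (.lf ⟨(nat_lit 0x112125812944), (nat_lit 8), (nat_lit 0x4849604a5104), (nat_lit 8)⟩)
(.lf ⟨(nat_lit 0x1de1ca), (nat_lit 4), (nat_lit 0xa12478a12495e124124287787), (nat_lit 17)⟩)))
(.nd (.nd (.lf ⟨(nat_lit 0x3cd14a3cd285), (nat_lit 8), (nat_lit 0x10a14a144285285), (nat_lit 10)⟩)
(.lf ⟨(nat_lit 733), (nat_lit 2), (nat_lit 0x74b), (nat_lit 2)⟩))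
(.lf ⟨(nat_lit 0x3103d0), (nat_lit 4), (nat_lit 0x40f40f30f), (nat_lit 6)⟩))))
(.nd (.nd (.nd (.nd (.lf ⟨(nat_lit 0x109109), (nat_lit 4), (nat_lit 0x244244), (nat_lit 4)⟩)
(.lf ⟨(nat_lit 0x10c24c244309309), (nat_lit 10), (nat_lit 0x10c24c244309309), (nat_lit 10)⟩))
(.nd (.lf ⟨(nat_lit 0x1d70d71d70d7), (nat_lit 8), (nat_lit 0x1d70d70c75c35c3), (nat_lit 10)⟩)
(.lf ⟨(nat_lit 32), (nat_lit 1), (nat_lit 0x24a24a), (nat_lit 4)⟩)))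
(.nd (.nd (.lf ⟨(nat_lit 345), (nat_lit 2), (nat_lit 0x64d3cd3c5), (nat_lit 6)⟩)
(.lf ⟨(nat_lit 0x20430b10c2c810c2c430b), (nat_lit 14), (nat_lit 0x20430b10c2c810c2c430b), (nat_lit 14)⟩))
(.nd (.lf ⟨(nat_lit 0x640e), (nat_lit 3), (nat_lit 0x10390190), (nat_lit 5)⟩)
(.lf ⟨(nat_lit 0x6a5), (nat_lit 2), (nat_lit 0x95a), (nat_lit 2)⟩))))
(.nd (.nd (.nd (.lf ⟨(nat_lit 279), (nat_lit 2), (nat_lit 0x93482593c92053482452091491593c4), (nat_lit 21)⟩)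
(.lf ⟨(nat_lit 0xb657), (nat_lit 3), (nat_lit 0x195cb), (nat_lit 3)⟩))
(.nd (.lf ⟨(nat_lit 0x9868261a), (nat_lit 6), (nat_lit 0x9868261a), (nat_lit 6)⟩)
(.lf ⟨(nat_lit 0x181115101115106044544044544), (nat_lit 18), (nat_lit 0x181115101115106044544044544), (nat_lit 18)⟩)))
(.nd (.nd (.lf ⟨(nat_lit 16), (nat_lit 1), (nat_lit 0x243243), (nat_lit 4)⟩)
(.lf ⟨(nat_lit 0xd80d73d05cf41740f4173c36035cf4173d05d03d05cf), (nat_lit 30), (nat_lit 0xd80d73d05cf41740f4173c36035cf4173d05d03d05cf), (nat_lit 30)⟩))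
(.lf ⟨(nat_lit 0x2698), (nat_lit 3), (nat_lit 0xb24b25a602), (nat_lit 7)⟩)))))
(.nd (.nd (.nd (.nd (.nd (.lf ⟨(nat_lit 0x112112), (nat_lit 4), (nat_lit 0x484484), (nat_lit 4)⟩)
(.lf ⟨(nat_lit 0), (nat_lit 0), (nat_lit 0x5d70175c), (nat_lit 6)⟩))
(.nd (.lf ⟨(nat_lit 0x29779b297), (nat_lit 6), (nat_lit 0x29714a5c5), (nat_lit 6)⟩)
(.lf ⟨(nat_lit 0x30b615), (nat_lit 4), (nat_lit 0x61530b), (nat_lit 4)⟩)))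
(.nd (.nd (.lf ⟨(nat_lit 158), (nat_lit 2), (nat_lit 0x792152142), (nat_lit 6)⟩)
(.lf ⟨(nat_lit 0x9456), (nat_lit 3), (nat_lit 0x1e75e751591251), (nat_lit 9)⟩))
(.nd (.lf ⟨(nat_lit 0x1639024e409389389), (nat_lit 11), (nat_lit 0xe40939024e24e256), (nat_lit 11)⟩)
(.lf ⟨(nat_lit 0x5a4), (nat_lit 2), (nat_lit 0x916), (nat_lit 2)⟩))))
(.nd (.nd (.nd (.lf ⟨(nat_lit 272), (nat_lit 2), (nat_lit 0x289290244), (nat_lit 6)⟩)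
(.lf ⟨(nat_lit 463), (nat_lit 2), (nat_lit 0x81f3cc81f3207d93cc9e064f3207cc81f3cc3e67e77cc81f6677d93207cc24c247), (nat_lit 44)⟩))
(.nd (.lf ⟨(nat_lit 709), (nat_lit 2), (nat_lit 331), (nat_lit 2)⟩)
(.lf ⟨(nat_lit 0x30830c20c), (nat_lit 6), (nat_lit 0), (nat_lit 0)⟩)))
(.nd (.nd (.lf ⟨(nat_lit 458), (nat_lit 2), (nat_lit 0xa7c7), (nat_lit 3)⟩)
(.lf ⟨(nat_lit 0x1550c38850c38c20c), (nat_lit 11), (nat_lit 0x1430e21430e308315), (nat_lit 11)⟩))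
(.lf ⟨(nat_lit 0x29654a595), (nat_lit 6), (nat_lit 0x29654a595), (nat_lit 6)⟩))))
(.nd (.nd (.nd (.nd (.lf ⟨(nat_lit 264), (nat_lit 2), (nat_lit 516), (nat_lit 2)⟩)
(.lf ⟨(nat_lit 0x4dc), (nat_lit 2), (nat_lit 0x713), (nat_lit 2)⟩))
(.nd (.lf ⟨(nat_lit 0), (nat_lit 0), (nat_lit 0x19e19e19e19e186786786786786), (nat_lit 18)⟩)
(.lf ⟨(nat_lit 614), (nat_lit 2), (nat_lit 0x9e632780c809), (nat_lit 8)⟩)))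
(.nd (.nd (.lf ⟨(nat_lit 0x149157), (nat_lit 4), (nat_lit 0x19257645257245), (nat_lit 9)⟩)
(.lf ⟨(nat_lit 664), (nat_lit 2), (nat_lit 0x61141140a), (nat_lit 6)⟩))
(.nd (.lf ⟨(nat_lit 0x479221e488488488), (nat_lit 11), (nat_lit 0x1e488792212212204), (nat_lit 11)⟩)
(.lf ⟨(nat_lit 218), (nat_lit 2), (nat_lit 0x9a468f30a30a3c3), (nat_lit 10)⟩))))
(.nd (.nd (.nd (.lf ⟨(nat_lit 160), (nat_lit 2), (nat_lit 0x802), (nat_lit 2)⟩)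
(.lf ⟨(nat_lit 0xd6543595), (nat_lit 6), (nat_lit 0xd6543595), (nat_lit 6)⟩))
(.nd (.lf ⟨(nat_lit 0xd48a34a649), (nat_lit 7), (nat_lit 0x1924d48a34a), (nat_lit 7)⟩)
(.lf ⟨(nat_lit 0x209a7), (nat_lit 3), (nat_lit 0x269e69e69e6826), (nat_lit 9)⟩)))
(.nd (.nd (.lf ⟨(nat_lit 0x21f21f), (nat_lit 4), (nat_lit 0x2077c72077c7), (nat_lit 8)⟩)
(.lf ⟨(nat_lit 781), (nat_lit 2), (nat_lit 844), (nat_lit 2)⟩))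
(.lf ⟨(nat_lit 0xf551), (nat_lit 3), (nat_lit 0x113d5), (nat_lit 3)⟩)))))))))
(.nd (.nd (.nd (.nd (.nd (.nd (.nd (.nd (.nd (.lf ⟨(nat_lit 5), (nat_lit 1), (nat_lit 0x42042), (nat_lit 4)⟩)
(.lf ⟨(nat_lit 0x6415), (nat_lit 3), (nat_lit 0xe3ce3d03903d03d540f40f3903ce3ce190), (nat_lit 23)⟩))
(.nd (.lf ⟨(nat_lit 20), (nat_lit 1), (nat_lit 0x1c61c6), (nat_lit 4)⟩)
(.lf ⟨(nat_lit 0x24c7e7), (nat_lit 4), (nat_lit 0x80c7e799f64c81931f9e67d93278193e69e098c7e77cf30931f), (nat_lit 34)⟩)))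
(.nd (.nd (.lf ⟨(nat_lit 218), (nat_lit 2), (nat_lit 0x38a74881a18e2102a038a21128818e29d20629d20628638a21128818e29d20629d20628638a21128818e29d20629d20628638a21128818e29d20629d20628674844a211286403), (nat_lit 94)⟩)
(.lf ⟨(nat_lit 0x513485485), (nat_lit 6), (nat_lit 0x485485513), (nat_lit 6)⟩))
(.nd (.lf ⟨(nat_lit 0x3698), (nat_lit 3), (nat_lit 0x1019019a603), (nat_lit 7)⟩)
(.lf ⟨(nat_lit 0x6a69e6), (nat_lit 4), (nat_lit 0x9a79a79a76a79a7), (nat_lit 10)⟩))))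
(.nd (.nd (.nd (.lf ⟨(nat_lit 0x183102183102), (nat_lit 8), (nat_lit 0x84183084183), (nat_lit 8)⟩)
(.lf ⟨(nat_lit 0x5486), (nat_lit 3), (nat_lit 0x114944e6912446152), (nat_lit 11)⟩))
(.nd (.lf ⟨(nat_lit 0x115115115115), (nat_lit 8), (nat_lit 0), (nat_lit 0)⟩)
(.lf ⟨(nat_lit 0x1a61b456449), (nat_lit 7), (nat_lit 0x96986d1591), (nat_lit 7)⟩)))
(.nd (.nd (.lf ⟨(nat_lit 0x18d18d), (nat_lit 4), (nat_lit 0x346346), (nat_lit 4)⟩)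
(.lf ⟨(nat_lit 796), (nat_lit 2), (nat_lit 0x70c), (nat_lit 2)⟩))
(.nd (.lf ⟨(nat_lit 0x1215214d), (nat_lit 5), (nat_lit 0xd485485), (nat_lit 5)⟩)
(.lf ⟨(nat_lit 0), (nat_lit 0), (nat_lit 0xe58cf28f2839633ca3ca), (nat_lit 14)⟩)))))
(.nd (.nd (.nd (.nd (.lf ⟨(nat_lit 0x924), (nat_lit 2), (nat_lit 0), (nat_lit 0)⟩)
(.lf ⟨(nat_lit 0xb354), (nat_lit 3), (nat_lit 0xd50d2cd), (nat_lit 5)⟩))
(.nd (.lf ⟨(nat_lit 0x294294), (nat_lit 4), (nat_lit 0x2940ca503), (nat_lit 6)⟩)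
(.lf ⟨(nat_lit 166), (nat_lit 2), (nat_lit 0x99f5133123121850e47d232448b1850c2), (nat_lit 22)⟩)))
(.nd (.nd (.lf ⟨(nat_lit 153), (nat_lit 2), (nat_lit 0x64d3c564d2481481491573c2), (nat_lit 16)⟩)
(.lf ⟨(nat_lit 0x5dd), (nat_lit 2), (nat_lit 0x757), (nat_lit 2)⟩))
(.nd (.lf ⟨(nat_lit 0x1d81f), (nat_lit 3), (nat_lit 0x207dd), (nat_lit 3)⟩)
(.lf ⟨(nat_lit 930), (nat_lit 2), (nat_lit 0x5a269668e), (nat_lit 6)⟩))))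
(.nd (.nd (.nd (.lf ⟨(nat_lit 83), (nat_lit 2), (nat_lit 0x1cc1d33070933133074cc1d3307081), (nat_lit 20)⟩)
(.lf ⟨(nat_lit 613), (nat_lit 2), (nat_lit 0x949), (nat_lit 2)⟩))
(.nd (.lf ⟨(nat_lit 0xb9a4), (nat_lit 3), (nat_lit 0x2690b), (nat_lit 3)⟩)
(.lf ⟨(nat_lit 0x50b), (nat_lit 2), (nat_lit 0x1c2187086), (nat_lit 6)⟩)))
(.nd (.nd (.lf ⟨(nat_lit 0x71d), (nat_lit 2), (nat_lit 0x181206048), (nat_lit 6)⟩)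
(.lf ⟨(nat_lit 0x120c2c830b), (nat_lit 7), (nat_lit 0x830b20c2c1), (nat_lit 7)⟩))
(.lf ⟨(nat_lit 0x1d488488), (nat_lit 5), (nat_lit 0x1221221d), (nat_lit 5)⟩)))))
(.nd (.nd (.nd (.nd (.nd (.lf ⟨(nat_lit 200), (nat_lit 2), (nat_lit 0xe203), (nat_lit 3)⟩)
(.lf ⟨(nat_lit 850), (nat_lit 2), (nat_lit 0x75274d), (nat_lit 4)⟩))
(.nd (.lf ⟨(nat_lit 0x96d1591), (nat_lit 5), (nat_lit 0x1b456449), (nat_lit 5)⟩)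
(.lf ⟨(nat_lit 0xc4a2), (nat_lit 3), (nat_lit 0x12892312), (nat_lit 5)⟩)))
(.nd (.nd (.lf ⟨(nat_lit 0x420), (nat_lit 2), (nat_lit 0x810), (nat_lit 2)⟩)
(.lf ⟨(nat_lit 543), (nat_lit 2), (nat_lit 0x7dd61d608), (nat_lit 6)⟩))
(.nd (.lf ⟨(nat_lit 0x81f), (nat_lit 2), (nat_lit 0x90090), (nat_lit 4)⟩)
(.lf ⟨(nat_lit 0x1679a), (nat_lit 3), (nat_lit 0x1879b6986d6), (nat_lit 7)⟩))))
(.nd (.nd (.nd (.lf ⟨(nat_lit 0x10b08210b082), (nat_lit 8), (nat_lit 0x8b08408b084), (nat_lit 8)⟩)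
(.lf ⟨(nat_lit 869), (nat_lit 2), (nat_lit 0x3e53cd), (nat_lit 4)⟩))
(.nd (.lf ⟨(nat_lit 0xc899f21f2267c899f0c899f21f2267c899f), (nat_lit 24), (nat_lit 0xc899f21f2267c899f0c899f21f2267c899f), (nat_lit 24)⟩)
(.lf ⟨(nat_lit 295), (nat_lit 2), (nat_lit 0x8109dd6909e075a9c4), (nat_lit 12)⟩)))
(.nd (.nd (.lf ⟨(nat_lit 845), (nat_lit 2), (nat_lit 0), (nat_lit 0)⟩)
(.lf ⟨(nat_lit 407), (nat_lit 2), (nat_lit 0x5c6), (nat_lit 2)⟩))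
(.lf ⟨(nat_lit 0x849a), (nat_lit 3), (nat_lit 0x207a0792692212), (nat_lit 9)⟩))))
(.nd (.nd (.nd (.nd (.lf ⟨(nat_lit 0x105105), (nat_lit 4), (nat_lit 0x144144), (nat_lit 4)⟩)
(.lf ⟨(nat_lit 0x12697), (nat_lit 3), (nat_lit 0x1749a), (nat_lit 3)⟩))
(.nd (.lf ⟨(nat_lit 23), (nat_lit 1), (nat_lit 0x8f08f), (nat_lit 4)⟩)
(.lf ⟨(nat_lit 0x6e7963), (nat_lit 4), (nat_lit 0x9636e7), (nat_lit 4)⟩)))
(.nd (.nd (.lf ⟨(nat_lit 0x34a34d28d), (nat_lit 6), (nat_lit 0), (nat_lit 0)⟩)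
(.lf ⟨(nat_lit 473), (nat_lit 2), (nat_lit 0x650350347), (nat_lit 6)⟩))
(.nd (.lf ⟨(nat_lit 0x65a), (nat_lit 2), (nat_lit 0x699), (nat_lit 2)⟩)
(.lf ⟨(nat_lit 0x624), (nat_lit 2), (nat_lit 0x918), (nat_lit 2)⟩))))
(.nd (.nd (.nd (.lf ⟨(nat_lit 98), (nat_lit 2), (nat_lit 0x2268289a16268589a081), (nat_lit 13)⟩)
(.lf ⟨(nat_lit 0x1068124068124041a04901a0490), (nat_lit 18), (nat_lit 0x1068124068124041a04901a0490), (nat_lit 18)⟩))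
(.nd (.lf ⟨(nat_lit 0x9c79ca), (nat_lit 4), (nat_lit 0x9c74604602879ca2a71e7), (nat_lit 14)⟩)
(.lf ⟨(nat_lit 0x206044544204544201115108115108181115108115108044544204544208181115108115108044544204544206044544204544201115108115108), (nat_lit 78), (nat_lit 0x206044544204544201115108115108181115108115108044544204544208181115108115108044544204544206044544204544201115108115108), (nat_lit 78)⟩)))
(.nd (.nd (.lf ⟨(nat_lit 0x190388408190388408), (nat_lit 12), (nat_lit 0x190388408190388408), (nat_lit 12)⟩)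
(.lf ⟨(nat_lit 16), (nat_lit 1), (nat_lit 0xd12510d1251), (nat_lit 8)⟩))
(.lf ⟨(nat_lit 0xf81f), (nat_lit 3), (nat_lit 0x207cf), (nat_lit 3)⟩))))))
(.nd (.nd (.nd (.nd (.nd (.nd (.lf ⟨(nat_lit 37), (nat_lit 1), (nat_lit 0x11e11e), (nat_lit 4)⟩)
(.lf ⟨(nat_lit 403), (nat_lit 2), (nat_lit 0x4c6), (nat_lit 2)⟩))
(.nd (.lf ⟨(nat_lit 0x328f34a3cd), (nat_lit 7), (nat_lit 0xa3cd28f343), (nat_lit 7)⟩)
(.lf ⟨(nat_lit 0x131de1de), (nat_lit 5), (nat_lit 0x7787793), (nat_lit 5)⟩)))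
(.nd (.nd (.lf ⟨(nat_lit 669), (nat_lit 2), (nat_lit 0x74a), (nat_lit 2)⟩)
(.lf ⟨(nat_lit 653), (nat_lit 2), (nat_lit 0x2796334a), (nat_lit 5)⟩))
(.nd (.lf ⟨(nat_lit 0x93c930f24c24c24c), (nat_lit 11), (nat_lit 0xf24c3c9309309309), (nat_lit 11)⟩)
(.lf ⟨(nat_lit 0), (nat_lit 0), (nat_lit 0x3830ce0c3), (nat_lit 6)⟩))))
(.nd (.nd (.nd (.lf ⟨(nat_lit 0x284284), (nat_lit 4), (nat_lit 0), (nat_lit 0)⟩)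
(.lf ⟨(nat_lit 726), (nat_lit 2), (nat_lit 0x58b), (nat_lit 2)⟩))
(.nd (.lf ⟨(nat_lit 679), (nat_lit 2), (nat_lit 0x9d181180a), (nat_lit 6)⟩)
(.lf ⟨(nat_lit 0x184904906124124), (nat_lit 10), (nat_lit 0x184904906124124), (nat_lit 10)⟩)))
(.nd (.nd (.lf ⟨(nat_lit 287), (nat_lit 2), (nat_lit 0xa1ca1c4), (nat_lit 5)⟩)
(.lf ⟨(nat_lit 720), (nat_lit 2), (nat_lit 0x40b), (nat_lit 2)⟩))
(.lf ⟨(nat_lit 0x431cf1cf0c73c73c10c73c73c31cf1cf), (nat_lit 22), (nat_lit 0x431cf1cf0c73c73c10c73c73c31cf1cf), (nat_lit 22)⟩))))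
(.nd (.nd (.nd (.nd (.lf ⟨(nat_lit 0xc60c6), (nat_lit 4), (nat_lit 0x183183), (nat_lit 4)⟩)
(.lf ⟨(nat_lit 0x1029019049019040a40641240641040a4064124064102901904901904), (nat_lit 38), (nat_lit 0x1029019049019040a40641240641040a4064124064102901904901904), (nat_lit 38)⟩))
(.nd (.lf ⟨(nat_lit 0x38558558e38558558e), (nat_lit 12), (nat_lit 0), (nat_lit 0)⟩)
(.lf ⟨(nat_lit 721), (nat_lit 2), (nat_lit 0x44b), (nat_lit 2)⟩)))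
(.nd (.nd (.lf ⟨(nat_lit 0x451), (nat_lit 2), (nat_lit 0), (nat_lit 0)⟩)
(.lf ⟨(nat_lit 0x840d), (nat_lit 3), (nat_lit 0x10350210), (nat_lit 5)⟩))
(.nd (.lf ⟨(nat_lit 0x1875c), (nat_lit 3), (nat_lit 0x1a75c698), (nat_lit 5)⟩)
(.lf ⟨(nat_lit 803), (nat_lit 2), (nat_lit 0x8cc), (nat_lit 2)⟩))))
(.nd (.nd (.nd (.lf ⟨(nat_lit 262), (nat_lit 2), (nat_lit 0x211286388284), (nat_lit 8)⟩)
(.lf ⟨(nat_lit 0), (nat_lit 0), (nat_lit 0x21138844e), (nat_lit 6)⟩))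
(.nd (.lf ⟨(nat_lit 0x2947d47ca), (nat_lit 6), (nat_lit 0x294287294287), (nat_lit 8)⟩)
(.lf ⟨(nat_lit 0x938d), (nat_lit 3), (nat_lit 0xd24e), (nat_lit 3)⟩)))
(.nd (.nd (.lf ⟨(nat_lit 220), (nat_lit 2), (nat_lit 0x703), (nat_lit 2)⟩)
(.lf ⟨(nat_lit 0x1503c6), (nat_lit 4), (nat_lit 0x5103c6413150), (nat_lit 8)⟩))
(.lf ⟨(nat_lit 0xe488488), (nat_lit 5), (nat_lit 0x1221220e), (nat_lit 5)⟩)))))
(.nd (.nd (.nd (.nd (.nd (.lf ⟨(nat_lit 0x659), (nat_lit 2), (nat_lit 0), (nat_lit 0)⟩)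
(.lf ⟨(nat_lit 19), (nat_lit 1), (nat_lit 0x8c08c), (nat_lit 4)⟩))
(.nd (.lf ⟨(nat_lit 0x1d1394), (nat_lit 4), (nat_lit 0x44e51138744e), (nat_lit 8)⟩)
(.lf ⟨(nat_lit 785), (nat_lit 2), (nat_lit 0x44c), (nat_lit 2)⟩)))
(.nd (.nd (.lf ⟨(nat_lit 0x30120c048), (nat_lit 6), (nat_lit 0x20c048301), (nat_lit 6)⟩)
(.lf ⟨(nat_lit 0x6d7), (nat_lit 2), (nat_lit 0x5db), (nat_lit 2)⟩))
(.nd (.lf ⟨(nat_lit 0x389389389389), (nat_lit 8), (nat_lit 0), (nat_lit 0)⟩)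
(.lf ⟨(nat_lit 0x823), (nat_lit 2), (nat_lit 0x8e0), (nat_lit 2)⟩))))
(.nd (.nd (.nd (.lf ⟨(nat_lit 84), (nat_lit 2), (nat_lit 0x1873061c650c1c61cc1cc1c1), (nat_lit 16)⟩)
(.lf ⟨(nat_lit 165), (nat_lit 2), (nat_lit 0x95e75e49d3d23c2), (nat_lit 10)⟩))
(.nd (.lf ⟨(nat_lit 327), (nat_lit 2), (nat_lit 0x74c5), (nat_lit 3)⟩)
(.lf ⟨(nat_lit 0), (nat_lit 0), (nat_lit 0x44f44f), (nat_lit 4)⟩)))
(.nd (.nd (.lf ⟨(nat_lit 973), (nat_lit 2), (nat_lit 0x105105), (nat_lit 4)⟩)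
(.lf ⟨(nat_lit 0x532532414c94c9), (nat_lit 10), (nat_lit 0x532532414c94c9), (nat_lit 10)⟩))
(.lf ⟨(nat_lit 0x620), (nat_lit 2), (nat_lit 0x818), (nat_lit 2)⟩))))
(.nd (.nd (.nd (.nd (.lf ⟨(nat_lit 0x41c9), (nat_lit 3), (nat_lit 0x7247107), (nat_lit 5)⟩)
(.lf ⟨(nat_lit 0x51f), (nat_lit 2), (nat_lit 0x7d4), (nat_lit 2)⟩))
(.nd (.lf ⟨(nat_lit 0x2dc2d2), (nat_lit 4), (nat_lit 0x71270b70b), (nat_lit 6)⟩)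
(.lf ⟨(nat_lit 0x81f8263079e024c247), (nat_lit 12), (nat_lit 0x8263079e024c24781f), (nat_lit 12)⟩)))
(.nd (.nd (.lf ⟨(nat_lit 392), (nat_lit 2), (nat_lit 0x28818a), (nat_lit 4)⟩)
(.lf ⟨(nat_lit 662), (nat_lit 2), (nat_lit 0x49149158a), (nat_lit 6)⟩))
(.nd (.lf ⟨(nat_lit 146), (nat_lit 2), (nat_lit 0x482), (nat_lit 2)⟩)
(.lf ⟨(nat_lit 524), (nat_lit 2), (nat_lit 0x9e540a30a3cc28c28f210), (nat_lit 14)⟩))))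
(.nd (.nd (.nd (.lf ⟨(nat_lit 278), (nat_lit 2), (nat_lit 0x958e8dd24e744), (nat_lit 9)⟩)
(.lf ⟨(nat_lit 0xa38f34e3cd), (nat_lit 7), (nat_lit 0xe3cd38f34a), (nat_lit 7)⟩))
(.nd (.lf ⟨(nat_lit 920), (nat_lit 2), (nat_lit 0x45a61139a), (nat_lit 6)⟩)
(.lf ⟨(nat_lit 99), (nat_lit 2), (nat_lit 0x8c1), (nat_lit 2)⟩)))
(.nd (.nd (.lf ⟨(nat_lit 0x7e0), (nat_lit 2), (nat_lit 0x1c91c9), (nat_lit 4)⟩)
(.lf ⟨(nat_lit 0x548c), (nat_lit 3), (nat_lit 0x1e89e48c79289e152), (nat_lit 11)⟩))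
(.lf ⟨(nat_lit 0x6dc), (nat_lit 2), (nat_lit 0x79c79b), (nat_lit 4)⟩)))))))
(.nd (.nd (.nd (.nd (.nd (.nd (.nd (.lf ⟨(nat_lit 21), (nat_lit 1), (nat_lit 0xcd0cd), (nat_lit 4)⟩)
(.lf ⟨(nat_lit 0x94194181e81e9e07a781e44181e81e9e07a781e4650650607a07a781e9e07910607a07a781e9e0791), (nat_lit 54), (nat_lit 0x94194181e81e9e07a781e44181e81e9e07a781e4650650607a07a781e9e07910607a07a781e9e0791), (nat_lit 54)⟩))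
(.nd (.lf ⟨(nat_lit 75), (nat_lit 2), (nat_lit 0x15430b30615430614719330b50b1cb3071461543072cc154301), (nat_lit 34)⟩)
(.lf ⟨(nat_lit 215), (nat_lit 2), (nat_lit 0x173e67e77cc80c7e780c9df30932064f31f9e67d93278193e69e098c7e780f32780c24c1e78193e631f9e032780c60f3093091e260b24b243), (nat_lit 75)⟩)))
(.nd (.nd (.lf ⟨(nat_lit 0x42c6), (nat_lit 3), (nat_lit 0x21128638a74810b), (nat_lit 10)⟩)
(.lf ⟨(nat_lit 0xb491491), (nat_lit 5), (nat_lit 0x1245244b), (nat_lit 5)⟩))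
(.nd (.lf ⟨(nat_lit 0x1c430430710c10c), (nat_lit 10), (nat_lit 0x1c430430710c10c), (nat_lit 10)⟩)
(.lf ⟨(nat_lit 0), (nat_lit 0), (nat_lit 0x1d91d9), (nat_lit 4)⟩))))
(.nd (.nd (.nd (.lf ⟨(nat_lit 0x10a0c310a0c3), (nat_lit 8), (nat_lit 0xca0c40ca0c4), (nat_lit 8)⟩)
(.lf ⟨(nat_lit 0x7716), (nat_lit 3), (nat_lit 0x1c59c1dc), (nat_lit 5)⟩))
(.nd (.lf ⟨(nat_lit 0x1564d29934a34a34a), (nat_lit 11), (nat_lit 0x1934a64d28d28d295), (nat_lit 11)⟩)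
(.lf ⟨(nat_lit 0x1079b), (nat_lit 3), (nat_lit 0x1e6d0), (nat_lit 3)⟩)))
(.nd (.nd (.lf ⟨(nat_lit 646), (nat_lit 2), (nat_lit 0x74a19c75128671118a), (nat_lit 12)⟩)
(.lf ⟨(nat_lit 0xb452), (nat_lit 3), (nat_lit 0x114912d1), (nat_lit 5)⟩))
(.lf ⟨(nat_lit 0x12657), (nat_lit 3), (nat_lit 0x195d2), (nat_lit 3)⟩))))
(.nd (.nd (.nd (.nd (.lf ⟨(nat_lit 0xc10c1), (nat_lit 4), (nat_lit 0x43043), (nat_lit 4)⟩)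
(.lf ⟨(nat_lit 29), (nat_lit 1), (nat_lit 0x10e10e), (nat_lit 4)⟩))
(.nd (.lf ⟨(nat_lit 6), (nat_lit 1), (nat_lit 0xc10c1), (nat_lit 4)⟩)
(.lf ⟨(nat_lit 539), (nat_lit 2), (nat_lit 0x6c8), (nat_lit 2)⟩)))
(.nd (.nd (.lf ⟨(nat_lit 99), (nat_lit 2), (nat_lit 0x34521b45228d21228d22375b45228d212285741), (nat_lit 26)⟩)
(.lf ⟨(nat_lit 295), (nat_lit 2), (nat_lit 0x8109dd6903a781d6a7384), (nat_lit 14)⟩))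
(.nd (.lf ⟨(nat_lit 0xc469811a60311a604698), (nat_lit 14), (nat_lit 0xc469811a60311a604698), (nat_lit 14)⟩)
(.lf ⟨(nat_lit 0x525), (nat_lit 2), (nat_lit 0x954), (nat_lit 2)⟩))))
(.nd (.nd (.nd (.lf ⟨(nat_lit 90), (nat_lit 2), (nat_lit 0x681), (nat_lit 2)⟩)
(.lf ⟨(nat_lit 530), (nat_lit 2), (nat_lit 0x9e5488), (nat_lit 4)⟩))
(.nd (.lf ⟨(nat_lit 38), (nat_lit 1), (nat_lit 0x5f05f), (nat_lit 4)⟩)
(.lf ⟨(nat_lit 0x1273c938a3ca24e), (nat_lit 10), (nat_lit 0x9cf24e28f289384), (nat_lit 10)⟩)))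
(.nd (.nd (.lf ⟨(nat_lit 77), (nat_lit 2), (nat_lit 0x657341), (nat_lit 4)⟩)
(.lf ⟨(nat_lit 405), (nat_lit 2), (nat_lit 0x546), (nat_lit 2)⟩))
(.lf ⟨(nat_lit 903), (nat_lit 2), (nat_lit 0x9509538d38d1ce), (nat_lit 10)⟩)))))
(.nd (.nd (.nd (.nd (.nd (.lf ⟨(nat_lit 0xcc0cc), (nat_lit 4), (nat_lit 0x303303), (nat_lit 4)⟩)
(.lf ⟨(nat_lit 0xb4cc), (nat_lit 3), (nat_lit 0x1330b), (nat_lit 3)⟩))
(.nd (.lf ⟨(nat_lit 0x452452), (nat_lit 4), (nat_lit 0x29e29e), (nat_lit 4)⟩)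
(.lf ⟨(nat_lit 734), (nat_lit 2), (nat_lit 0x78b), (nat_lit 2)⟩)))
(.nd (.nd (.lf ⟨(nat_lit 0x44a091282), (nat_lit 6), (nat_lit 0x9128244a), (nat_lit 6)⟩)
(.lf ⟨(nat_lit 0), (nat_lit 0), (nat_lit 0x5d05d), (nat_lit 4)⟩))
(.nd (.lf ⟨(nat_lit 0x2417417), (nat_lit 5), (nat_lit 0x105d05c2), (nat_lit 5)⟩)
(.lf ⟨(nat_lit 923), (nat_lit 2), (nat_lit 0x6ce), (nat_lit 2)⟩))))
(.nd (.nd (.nd (.lf ⟨(nat_lit 0x348348), (nat_lit 4), (nat_lit 0), (nat_lit 0)⟩)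
(.lf ⟨(nat_lit 0x152165), (nat_lit 4), (nat_lit 0x9489c8152167), (nat_lit 8)⟩))
(.nd (.lf ⟨(nat_lit 402), (nat_lit 2), (nat_lit 0x4a6906), (nat_lit 4)⟩)
(.lf ⟨(nat_lit 351), (nat_lit 2), (nat_lit 0x7c5), (nat_lit 2)⟩)))
(.nd (.nd (.lf ⟨(nat_lit 0xc1c81c8), (nat_lit 5), (nat_lit 0x720720c), (nat_lit 5)⟩)
(.lf ⟨(nat_lit 0x452456), (nat_lit 4), (nat_lit 0x591491), (nat_lit 4)⟩))
(.lf ⟨(nat_lit 416), (nat_lit 2), (nat_lit 0x80e29a38a686), (nat_lit 8)⟩))))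
(.nd (.nd (.nd (.nd (.lf ⟨(nat_lit 0x201088042), (nat_lit 6), (nat_lit 0x88042201), (nat_lit 6)⟩)
(.lf ⟨(nat_lit 0xa69029a4), (nat_lit 6), (nat_lit 0xa69029a4), (nat_lit 6)⟩))
(.nd (.lf ⟨(nat_lit 28), (nat_lit 1), (nat_lit 0x286286), (nat_lit 4)⟩)
(.lf ⟨(nat_lit 593), (nat_lit 2), (nat_lit 0x276e54636e58cf28f289), (nat_lit 13)⟩)))
(.nd (.nd (.lf ⟨(nat_lit 203), (nat_lit 2), (nat_lit 0x81028944e2d02891d13941c3), (nat_lit 16)⟩)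
(.lf ⟨(nat_lit 596), (nat_lit 2), (nat_lit 0x509), (nat_lit 2)⟩))
(.nd (.lf ⟨(nat_lit 665), (nat_lit 2), (nat_lit 0x64a), (nat_lit 2)⟩)
(.lf ⟨(nat_lit 741), (nat_lit 2), (nat_lit 0x94b), (nat_lit 2)⟩))))
(.nd (.nd (.nd (.lf ⟨(nat_lit 986), (nat_lit 2), (nat_lit 0x68f), (nat_lit 2)⟩)
(.lf ⟨(nat_lit 0x180f345805), (nat_lit 7), (nat_lit 0x176603cd160141), (nat_lit 9)⟩))
(.nd (.lf ⟨(nat_lit 0x981981), (nat_lit 4), (nat_lit 0), (nat_lit 0)⟩)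
(.lf ⟨(nat_lit 0xa79429e5), (nat_lit 6), (nat_lit 0xa79429e5), (nat_lit 6)⟩)))
(.nd (.nd (.lf ⟨(nat_lit 0), (nat_lit 0), (nat_lit 0x11d70475c), (nat_lit 6)⟩)
(.lf ⟨(nat_lit 0x102595096544096542595), (nat_lit 14), (nat_lit 0x102595096544096542595), (nat_lit 14)⟩))
(.lf ⟨(nat_lit 0x558), (nat_lit 2), (nat_lit 0x615), (nat_lit 2)⟩))))))
(.nd (.nd (.nd (.nd (.nd (.nd (.lf ⟨(nat_lit 585), (nat_lit 2), (nat_lit 0), (nat_lit 0)⟩)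
(.lf ⟨(nat_lit 0x49d49d), (nat_lit 4), (nat_lit 0x752752), (nat_lit 4)⟩))
(.nd (.lf ⟨(nat_lit 0x114490), (nat_lit 4), (nat_lit 0x490512414490114), (nat_lit 10)⟩)
(.lf ⟨(nat_lit 358), (nat_lit 2), (nat_lit 0x985), (nat_lit 2)⟩)))
(.nd (.nd (.lf ⟨(nat_lit 147), (nat_lit 2), (nat_lit 0x1c51c54c7147142), (nat_lit 10)⟩)
(.lf ⟨(nat_lit 0x840e), (nat_lit 3), (nat_lit 0x10390210), (nat_lit 5)⟩))
(.nd (.lf ⟨(nat_lit 0x207d9), (nat_lit 3), (nat_lit 0x1981f), (nat_lit 3)⟩)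
(.lf ⟨(nat_lit 0x826), (nat_lit 2), (nat_lit 0x9a0), (nat_lit 2)⟩))))
(.nd (.nd (.nd (.lf ⟨(nat_lit 0x24a24a), (nat_lit 4), (nat_lit 0x289289), (nat_lit 4)⟩)
(.lf ⟨(nat_lit 0x752752), (nat_lit 4), (nat_lit 0x48d48d), (nat_lit 4)⟩))
(.nd (.lf ⟨(nat_lit 0x204944), (nat_lit 4), (nat_lit 0x125108), (nat_lit 4)⟩)
(.lf ⟨(nat_lit 0x44e1a51a5), (nat_lit 6), (nat_lit 0x1a51a544e), (nat_lit 6)⟩)))
(.nd (.nd (.lf ⟨(nat_lit 0), (nat_lit 0), (nat_lit 0x283283), (nat_lit 4)⟩)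
(.lf ⟨(nat_lit 911), (nat_lit 2), (nat_lit 974), (nat_lit 2)⟩))
(.lf ⟨(nat_lit 0x9318), (nat_lit 3), (nat_lit 0xc6103d03cc24c), (nat_lit 9)⟩))))
(.nd (.nd (.nd (.nd (.lf ⟨(nat_lit 0xc70c7), (nat_lit 4), (nat_lit 0x1c31c3), (nat_lit 4)⟩)
(.lf ⟨(nat_lit 0x8179269649505e49a59254205e49a592541792696495), (nat_lit 30), (nat_lit 0x8179269649505e49a59254205e49a592541792696495), (nat_lit 30)⟩))
(.nd (.lf ⟨(nat_lit 0x1c35c75c3), (nat_lit 6), (nat_lit 0x1c35c31c35c3), (nat_lit 8)⟩)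
(.lf ⟨(nat_lit 482), (nat_lit 2), (nat_lit 0x81f69740f8a07da5cf407), (nat_lit 14)⟩)))
(.nd (.nd (.lf ⟨(nat_lit 0x28f28f), (nat_lit 4), (nat_lit 0x3ca3ca), (nat_lit 4)⟩)
(.lf ⟨(nat_lit 0x411411), (nat_lit 4), (nat_lit 0x450450), (nat_lit 4)⟩))
(.nd (.lf ⟨(nat_lit 0x61c), (nat_lit 2), (nat_lit 0x718), (nat_lit 2)⟩)
(.lf ⟨(nat_lit 229), (nat_lit 2), (nat_lit 0x943), (nat_lit 2)⟩))))
(.nd (.nd (.nd (.lf ⟨(nat_lit 533), (nat_lit 2), (nat_lit 0x54e34e348), (nat_lit 6)⟩)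
(.lf ⟨(nat_lit 0), (nat_lit 0), (nat_lit 0x1995c6657), (nat_lit 6)⟩))
(.nd (.lf ⟨(nat_lit 197), (nat_lit 2), (nat_lit 0x2cc1c64cb50c2d350b4c64cb307143), (nat_lit 20)⟩)
(.lf ⟨(nat_lit 0x930a), (nat_lit 3), (nat_lit 0x9a098c9e68267d928c9e064f9a78267cc9cf32798c9e03cc9e63273cc24c), (nat_lit 40)⟩)))
(.nd (.nd (.lf ⟨(nat_lit 0x18944e), (nat_lit 4), (nat_lit 0x251389189), (nat_lit 6)⟩)
(.lf ⟨(nat_lit 0x258158149605605), (nat_lit 10), (nat_lit 0x258158149605605), (nat_lit 10)⟩))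
(.lf ⟨(nat_lit 0xcb24b2432c92c9), (nat_lit 10), (nat_lit 0xcb24b2432c92c9), (nat_lit 10)⟩)))))
(.nd (.nd (.nd (.nd (.nd (.lf ⟨(nat_lit 82), (nat_lit 2), (nat_lit 0x1e481), (nat_lit 3)⟩)
(.lf ⟨(nat_lit 0x557), (nat_lit 2), (nat_lit 0x597595), (nat_lit 4)⟩))
(.nd (.lf ⟨(nat_lit 0x3d53d5), (nat_lit 4), (nat_lit 0x54f54f), (nat_lit 4)⟩)
(.lf ⟨(nat_lit 0x14a30b28c2c528c2ca30b), (nat_lit 14), (nat_lit 0x14a30b28c2c528c2ca30b), (nat_lit 14)⟩)))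
(.nd (.nd (.lf ⟨(nat_lit 77), (nat_lit 2), (nat_lit 0x348148141), (nat_lit 6)⟩)
(.lf ⟨(nat_lit 0x17698), (nat_lit 3), (nat_lit 0x1a617), (nat_lit 3)⟩))
(.nd (.lf ⟨(nat_lit 0x59d), (nat_lit 2), (nat_lit 0x74e25d38938938958e256389389389756), (nat_lit 22)⟩)
(.lf ⟨(nat_lit 294), (nat_lit 2), (nat_lit 0x595996544), (nat_lit 6)⟩))))
(.nd (.nd (.nd (.lf ⟨(nat_lit 270), (nat_lit 2), (nat_lit 0x28828e204), (nat_lit 6)⟩)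
(.lf ⟨(nat_lit 0x129df), (nat_lit 3), (nat_lit 0x2581e81e7e581e81e4a7), (nat_lit 13)⟩))
(.nd (.lf ⟨(nat_lit 0x150150150150), (nat_lit 8), (nat_lit 0), (nat_lit 0)⟩)
(.lf ⟨(nat_lit 167), (nat_lit 2), (nat_lit 0x9db9514918db9604914918e0482), (nat_lit 18)⟩)))
(.nd (.nd (.lf ⟨(nat_lit 0), (nat_lit 0), (nat_lit 0x5c95c45c95c4), (nat_lit 8)⟩)
(.lf ⟨(nat_lit 0x775c), (nat_lit 3), (nat_lit 0x1430e21430e30831d707), (nat_lit 13)⟩))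
(.lf ⟨(nat_lit 31), (nat_lit 1), (nat_lit 0x287287), (nat_lit 4)⟩))))
(.nd (.nd (.nd (.nd (.lf ⟨(nat_lit 0x183183), (nat_lit 4), (nat_lit 0), (nat_lit 0)⟩)
(.lf ⟨(nat_lit 219), (nat_lit 2), (nat_lit 0x246ca30b28c2c3), (nat_lit 9)⟩))
(.nd (.lf ⟨(nat_lit 0x786786), (nat_lit 4), (nat_lit 0x78119e046), (nat_lit 6)⟩)
(.lf ⟨(nat_lit 0x1cd207348), (nat_lit 6), (nat_lit 0x1cd207348), (nat_lit 6)⟩)))
(.nd (.nd (.lf ⟨(nat_lit 25), (nat_lit 1), (nat_lit 0x209209), (nat_lit 4)⟩)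
(.lf ⟨(nat_lit 0x45f), (nat_lit 2), (nat_lit 0x7d1), (nat_lit 2)⟩))
(.nd (.lf ⟨(nat_lit 0xd488488), (nat_lit 5), (nat_lit 0x1221220d), (nat_lit 5)⟩)
(.lf ⟨(nat_lit 0x830a30a), (nat_lit 5), (nat_lit 0xc28c288), (nat_lit 5)⟩))))
(.nd (.nd (.nd (.lf ⟨(nat_lit 213), (nat_lit 2), (nat_lit 0x543), (nat_lit 2)⟩)
(.lf ⟨(nat_lit 0x4c8), (nat_lit 2), (nat_lit 0x30d30d4cc3484cc34c20c213), (nat_lit 16)⟩))
(.nd (.lf ⟨(nat_lit 0xa660299), (nat_lit 5), (nat_lit 0x29924a649), (nat_lit 6)⟩)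
(.lf ⟨(nat_lit 807), (nat_lit 2), (nat_lit 0x9e682680c), (nat_lit 6)⟩)))
(.nd (.nd (.lf ⟨(nat_lit 223), (nat_lit 2), (nat_lit 0x7c3), (nat_lit 2)⟩)
(.lf ⟨(nat_lit 0x413), (nat_lit 2), (nat_lit 0x493490), (nat_lit 4)⟩))
(.lf ⟨(nat_lit 0x14e3cd), (nat_lit 4), (nat_lit 0x38f34e14e), (nat_lit 6)⟩))))))))
(.nd (.nd (.nd (.nd (.nd (.nd (.nd (.nd (.lf ⟨(nat_lit 13), (nat_lit 1), (nat_lit 0x88088), (nat_lit 4)⟩)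
(.lf ⟨(nat_lit 0x81e81e9e07a781e), (nat_lit 10), (nat_lit 0x941951941951), (nat_lit 8)⟩))
(.nd (.lf ⟨(nat_lit 0x81f), (nat_lit 2), (nat_lit 0x247247), (nat_lit 4)⟩)
(.lf ⟨(nat_lit 0x49a595), (nat_lit 4), (nat_lit 0x79655e49a), (nat_lit 6)⟩)))
(.nd (.nd (.lf ⟨(nat_lit 263), (nat_lit 2), (nat_lit 0x948a1d02a0244), (nat_lit 9)⟩)
(.lf ⟨(nat_lit 0xb485485), (nat_lit 5), (nat_lit 0x1215214b), (nat_lit 5)⟩))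
(.nd (.lf ⟨(nat_lit 25), (nat_lit 1), (nat_lit 0x248248), (nat_lit 4)⟩)
(.lf ⟨(nat_lit 0x4e7), (nat_lit 2), (nat_lit 0x9d3), (nat_lit 2)⟩))))
(.nd (.nd (.nd (.lf ⟨(nat_lit 265), (nat_lit 2), (nat_lit 580), (nat_lit 2)⟩)
(.lf ⟨(nat_lit 0x4c2c538c2ce14130b14e30b385), (nat_lit 18), (nat_lit 0x4c2c538c2ce14130b14e30b385), (nat_lit 18)⟩))
(.nd (.lf ⟨(nat_lit 0xd64d29934a34a34a), (nat_lit 11), (nat_lit 0x1934a64d28d28d28d), (nat_lit 11)⟩)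
(.lf ⟨(nat_lit 0x430b), (nat_lit 3), (nat_lit 0x1e6d854c2c4), (nat_lit 7)⟩)))
(.nd (.nd (.lf ⟨(nat_lit 0x634b), (nat_lit 3), (nat_lit 0xd2cd18d), (nat_lit 5)⟩)
(.lf ⟨(nat_lit 732), (nat_lit 2), (nat_lit 0x70b), (nat_lit 2)⟩))
(.lf ⟨(nat_lit 0x799), (nat_lit 2), (nat_lit 0x65e), (nat_lit 2)⟩))))
(.nd (.nd (.nd (.nd (.lf ⟨(nat_lit 0x60060), (nat_lit 4), (nat_lit 0x801801), (nat_lit 4)⟩)
(.lf ⟨(nat_lit 0), (nat_lit 0), (nat_lit 0xd44c3513), (nat_lit 6)⟩))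
(.nd (.lf ⟨(nat_lit 17), (nat_lit 1), (nat_lit 0x281281), (nat_lit 4)⟩)
(.lf ⟨(nat_lit 0x4de), (nat_lit 2), (nat_lit 0x793), (nat_lit 2)⟩)))
(.nd (.nd (.lf ⟨(nat_lit 272), (nat_lit 2), (nat_lit 0x20404), (nat_lit 3)⟩)
(.lf ⟨(nat_lit 0x296296), (nat_lit 4), (nat_lit 0x616296298), (nat_lit 6)⟩))
(.nd (.lf ⟨(nat_lit 265), (nat_lit 2), (nat_lit 580), (nat_lit 2)⟩)
(.lf ⟨(nat_lit 0x61b), (nat_lit 2), (nat_lit 0x69b698), (nat_lit 4)⟩))))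
(.nd (.nd (.nd (.lf ⟨(nat_lit 77), (nat_lit 2), (nat_lit 0x14d205201), (nat_lit 6)⟩)
(.lf ⟨(nat_lit 0x825e49a489792692), (nat_lit 11), (nat_lit 0x979269225e49a488), (nat_lit 11)⟩))
(.nd (.lf ⟨(nat_lit 0x18246246), (nat_lit 5), (nat_lit 0x9189198), (nat_lit 5)⟩)
(.lf ⟨(nat_lit 0x2470913870913891c244e1c244e), (nat_lit 18), (nat_lit 0x2470913870913891c244e1c244e), (nat_lit 18)⟩)))
(.nd (.nd (.lf ⟨(nat_lit 855), (nat_lit 2), (nat_lit 0x5cd), (nat_lit 2)⟩)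
(.lf ⟨(nat_lit 0x320c2c830b), (nat_lit 7), (nat_lit 0x830b20c2c3), (nat_lit 7)⟩))
(.lf ⟨(nat_lit 0x274a35d34a), (nat_lit 7), (nat_lit 0x1d28d74d282), (nat_lit 7)⟩)))))
(.nd (.nd (.nd (.nd (.nd (.lf ⟨(nat_lit 0x451), (nat_lit 2), (nat_lit 0), (nat_lit 0)⟩)
(.lf ⟨(nat_lit 0x456456), (nat_lit 4), (nat_lit 0x591591), (nat_lit 4)⟩))
(.nd (.lf ⟨(nat_lit 0x919b4564466d1591), (nat_lit 11), (nat_lit 0x66d159119b456449), (nat_lit 11)⟩)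
(.lf ⟨(nat_lit 482), (nat_lit 2), (nat_lit 0x81f69740c8a07d731a407), (nat_lit 14)⟩)))
(.nd (.nd (.lf ⟨(nat_lit 0x152152), (nat_lit 4), (nat_lit 0x485485), (nat_lit 4)⟩)
(.lf ⟨(nat_lit 0x599), (nat_lit 2), (nat_lit 0x656), (nat_lit 2)⟩))
(.nd (.lf ⟨(nat_lit 0x417417417417), (nat_lit 8), (nat_lit 0), (nat_lit 0)⟩)
(.lf ⟨(nat_lit 477), (nat_lit 2), (nat_lit 0x747), (nat_lit 2)⟩))))
(.nd (.nd (.nd (.lf ⟨(nat_lit 534), (nat_lit 2), (nat_lit 0x58d38d388), (nat_lit 6)⟩)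
(.lf ⟨(nat_lit 0x979d), (nat_lit 3), (nat_lit 0x1e75e25e), (nat_lit 5)⟩))
(.nd (.lf ⟨(nat_lit 0x7a6), (nat_lit 2), (nat_lit 0x99e), (nat_lit 2)⟩)
(.lf ⟨(nat_lit 462), (nat_lit 2), (nat_lit 0x163a658c2ca30b287), (nat_lit 11)⟩)))
(.nd (.nd (.lf ⟨(nat_lit 0x1de49a487792692), (nat_lit 10), (nat_lit 0x1de49a487792692), (nat_lit 10)⟩)
(.lf ⟨(nat_lit 0x9456), (nat_lit 3), (nat_lit 0x11591251), (nat_lit 5)⟩))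
(.lf ⟨(nat_lit 0x149a4), (nat_lit 3), (nat_lit 0x26914), (nat_lit 3)⟩))))
(.nd (.nd (.nd (.nd (.lf ⟨(nat_lit 0x242242), (nat_lit 4), (nat_lit 0), (nat_lit 0)⟩)
(.lf ⟨(nat_lit 20), (nat_lit 1), (nat_lit 0xcb0cb), (nat_lit 4)⟩))
(.nd (.lf ⟨(nat_lit 0x75c35c3), (nat_lit 5), (nat_lit 0x170d70c7), (nat_lit 5)⟩)
(.lf ⟨(nat_lit 283), (nat_lit 2), (nat_lit 0x9e56e58cf28f284), (nat_lit 10)⟩)))
(.nd (.nd (.lf ⟨(nat_lit 77), (nat_lit 2), (nat_lit 0x19349149141), (nat_lit 7)⟩)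
(.lf ⟨(nat_lit 0x6e0), (nat_lit 2), (nat_lit 0x81b), (nat_lit 2)⟩))
(.nd (.lf ⟨(nat_lit 0x41d), (nat_lit 2), (nat_lit 0x750), (nat_lit 2)⟩)
(.lf ⟨(nat_lit 0x55a), (nat_lit 2), (nat_lit 0x695), (nat_lit 2)⟩))))
(.nd (.nd (.nd (.lf ⟨(nat_lit 917), (nat_lit 2), (nat_lit 0x54e), (nat_lit 2)⟩)
(.lf ⟨(nat_lit 9), (nat_lit 1), (nat_lit 0x8040a0102), (nat_lit 6)⟩))
(.nd (.lf ⟨(nat_lit 470), (nat_lit 2), (nat_lit 0x587), (nat_lit 2)⟩)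
(.lf ⟨(nat_lit 0xc29a40a69030a69029a4), (nat_lit 14), (nat_lit 0xc29a40a69030a69029a4), (nat_lit 14)⟩)))
(.nd (.nd (.lf ⟨(nat_lit 0xd70d7), (nat_lit 4), (nat_lit 0xd70d7), (nat_lit 4)⟩)
(.lf ⟨(nat_lit 0x40f40f), (nat_lit 4), (nat_lit 0x449458449458), (nat_lit 8)⟩))
(.lf ⟨(nat_lit 0x79b), (nat_lit 2), (nat_lit 0x14a14a), (nat_lit 4)⟩))))))
(.nd (.nd (.nd (.nd (.nd (.nd (.lf ⟨(nat_lit 67), (nat_lit 2), (nat_lit 0x60c1), (nat_lit 3)⟩)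
(.lf ⟨(nat_lit 88), (nat_lit 2), (nat_lit 0x60f3903d03903ce3ce190181), (nat_lit 16)⟩))
(.nd (.lf ⟨(nat_lit 0x114114), (nat_lit 4), (nat_lit 0x114114), (nat_lit 4)⟩)
(.lf ⟨(nat_lit 0x99b), (nat_lit 2), (nat_lit 0x6e6), (nat_lit 2)⟩)))
(.nd (.nd (.lf ⟨(nat_lit 0x191288), (nat_lit 4), (nat_lit 0x1d44a20639d39d), (nat_lit 9)⟩)
(.lf ⟨(nat_lit 0x7c87c8), (nat_lit 4), (nat_lit 0x2207c881f), (nat_lit 6)⟩))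
(.nd (.lf ⟨(nat_lit 0x207c8), (nat_lit 3), (nat_lit 0x959525654764764881f), (nat_lit 13)⟩)
(.lf ⟨(nat_lit 932), (nat_lit 2), (nat_lit 0x5a65a65a458e), (nat_lit 8)⟩))))
(.nd (.nd (.nd (.lf ⟨(nat_lit 0x1c91c9), (nat_lit 4), (nat_lit 0x247247), (nat_lit 4)⟩)
(.lf ⟨(nat_lit 0x482), (nat_lit 2), (nat_lit 146), (nat_lit 2)⟩))
(.nd (.lf ⟨(nat_lit 0x204065201944), (nat_lit 8), (nat_lit 0x44944044944), (nat_lit 8)⟩)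
(.lf ⟨(nat_lit 0x124124124124), (nat_lit 8), (nat_lit 0), (nat_lit 0)⟩)))
(.nd (.nd (.lf ⟨(nat_lit 0xe12a1283), (nat_lit 6), (nat_lit 0xe10ca0e10ca), (nat_lit 8)⟩)
(.lf ⟨(nat_lit 0x519), (nat_lit 2), (nat_lit 0x654), (nat_lit 2)⟩))
(.lf ⟨(nat_lit 0x63cc), (nat_lit 3), (nat_lit 0xf30f18f), (nat_lit 5)⟩))))
(.nd (.nd (.nd (.nd (.lf ⟨(nat_lit 0x241241), (nat_lit 4), (nat_lit 0x49049), (nat_lit 4)⟩)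
(.lf ⟨(nat_lit 0x46d159a611), (nat_lit 7), (nat_lit 0x1b456698444), (nat_lit 7)⟩))
(.nd (.lf ⟨(nat_lit 0x385385385385), (nat_lit 8), (nat_lit 0), (nat_lit 0)⟩)
(.lf ⟨(nat_lit 463), (nat_lit 2), (nat_lit 0x81f3e67cc9e024c247), (nat_lit 12)⟩)))
(.nd (.nd (.lf ⟨(nat_lit 0xd70c35c3), (nat_lit 6), (nat_lit 0), (nat_lit 0)⟩)
(.lf ⟨(nat_lit 0x408408), (nat_lit 4), (nat_lit 0x408408), (nat_lit 4)⟩))
(.nd (.lf ⟨(nat_lit 921), (nat_lit 2), (nat_lit 0x45944e), (nat_lit 4)⟩)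
(.lf ⟨(nat_lit 0x55e), (nat_lit 2), (nat_lit 0x59e595), (nat_lit 4)⟩))))
(.nd (.nd (.nd (.lf ⟨(nat_lit 985), (nat_lit 2), (nat_lit 0x64f), (nat_lit 2)⟩)
(.lf ⟨(nat_lit 0x1411144c45131411144c4513), (nat_lit 16), (nat_lit 0x1411144c45131411144c4513), (nat_lit 16)⟩))
(.nd (.lf ⟨(nat_lit 410), (nat_lit 2), (nat_lit 0x686), (nat_lit 2)⟩)
(.lf ⟨(nat_lit 276), (nat_lit 2), (nat_lit 0x2692075b61d6a769879d61679875695245246375b61d6a769875679d6167989636a779a6d859e6164509518db59e6167989633ce28f24e2ca24b1c6407184), (nat_lit 83)⟩)))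
(.nd (.nd (.lf ⟨(nat_lit 0x44e), (nat_lit 2), (nat_lit 0x184184), (nat_lit 4)⟩)
(.lf ⟨(nat_lit 0x83603083603), (nat_lit 8), (nat_lit 0x83603083603), (nat_lit 8)⟩))
(.lf ⟨(nat_lit 6), (nat_lit 1), (nat_lit 0xdd043741), (nat_lit 6)⟩)))))
(.nd (.nd (.nd (.nd (.nd (.lf ⟨(nat_lit 0xd10d1), (nat_lit 4), (nat_lit 0x443443), (nat_lit 4)⟩)
(.lf ⟨(nat_lit 0x599617), (nat_lit 4), (nat_lit 0x657598), (nat_lit 4)⟩))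
(.nd (.lf ⟨(nat_lit 0x91555c9545), (nat_lit 7), (nat_lit 0x245545245545), (nat_lit 8)⟩)
(.lf ⟨(nat_lit 663), (nat_lit 2), (nat_lit 0x5ca), (nat_lit 2)⟩)))
(.nd (.nd (.lf ⟨(nat_lit 0x283181283181), (nat_lit 8), (nat_lit 0x181283181283), (nat_lit 8)⟩)
(.lf ⟨(nat_lit 0x7544cb74b), (nat_lit 6), (nat_lit 0x7412dd04b), (nat_lit 6)⟩))
(.nd (.lf ⟨(nat_lit 0x10389389), (nat_lit 5), (nat_lit 0xe24e250), (nat_lit 5)⟩)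
(.lf ⟨(nat_lit 547), (nat_lit 2), (nat_lit 0x8c8), (nat_lit 2)⟩))))
(.nd (.nd (.nd (.lf ⟨(nat_lit 0x41ca), (nat_lit 3), (nat_lit 0x7287107), (nat_lit 5)⟩)
(.lf ⟨(nat_lit 0x20c490), (nat_lit 4), (nat_lit 0x49031240c9607a07929c840c), (nat_lit 16)⟩))
(.nd (.lf ⟨(nat_lit 148), (nat_lit 2), (nat_lit 0x2d43061464c70d330b50b1cb3071461543072cc1543060d3302), (nat_lit 34)⟩)
(.lf ⟨(nat_lit 0x1a9a4), (nat_lit 3), (nat_lit 0x2691a), (nat_lit 3)⟩)))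
(.nd (.nd (.lf ⟨(nat_lit 329), (nat_lit 2), (nat_lit 0x64915764f2455cf245), (nat_lit 12)⟩)
(.lf ⟨(nat_lit 0x554), (nat_lit 2), (nat_lit 0x515), (nat_lit 2)⟩))
(.lf ⟨(nat_lit 0x9510), (nat_lit 3), (nat_lit 0x10254), (nat_lit 3)⟩))))
(.nd (.nd (.nd (.nd (.lf ⟨(nat_lit 0xc60410c6041), (nat_lit 8), (nat_lit 0x46043046043), (nat_lit 8)⟩)
(.lf ⟨(nat_lit 0x28c2ca30b), (nat_lit 6), (nat_lit 0x28c2ca30b), (nat_lit 6)⟩))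
(.nd (.lf ⟨(nat_lit 0x649), (nat_lit 2), (nat_lit 0x34210d084), (nat_lit 6)⟩)
(.lf ⟨(nat_lit 0xc1405405050150143050150141405405), (nat_lit 22), (nat_lit 0xc1405405050150143050150141405405), (nat_lit 22)⟩)))
(.nd (.nd (.lf ⟨(nat_lit 0x1cb09240b0924072c24902c2490), (nat_lit 18), (nat_lit 0x1cb09240b0924072c24902c2490), (nat_lit 18)⟩)
(.lf ⟨(nat_lit 612), (nat_lit 2), (nat_lit 0x80c7e799f3279a4809), (nat_lit 12)⟩))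
(.nd (.lf ⟨(nat_lit 0x79221e488488488), (nat_lit 10), (nat_lit 0x52212201488488), (nat_lit 10)⟩)
(.lf ⟨(nat_lit 0x1d711), (nat_lit 3), (nat_lit 0x5d38a05d38a), (nat_lit 8)⟩))))
(.nd (.nd (.nd (.lf ⟨(nat_lit 146), (nat_lit 2), (nat_lit 0x482), (nat_lit 2)⟩)
(.lf ⟨(nat_lit 0x308308), (nat_lit 4), (nat_lit 0x308308), (nat_lit 4)⟩))
(.nd (.lf ⟨(nat_lit 0x54d38d), (nat_lit 4), (nat_lit 0x3480cd203), (nat_lit 6)⟩)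
(.lf ⟨(nat_lit 0x826327809309), (nat_lit 8), (nat_lit 0x3c73c7), (nat_lit 4)⟩)))
(.nd (.nd (.lf ⟨(nat_lit 0x1cf1cf), (nat_lit 4), (nat_lit 0x3c73c7), (nat_lit 4)⟩)
(.lf ⟨(nat_lit 0x5487), (nat_lit 3), (nat_lit 0x51e5124d289a48c49031a40789e152), (nat_lit 20)⟩))
(.lf ⟨(nat_lit 861), (nat_lit 2), (nat_lit 0x74d), (nat_lit 2)⟩)))))))
(.nd (.nd (.nd (.nd (.nd (.nd (.nd (.lf ⟨(nat_lit 29), (nat_lit 1), (nat_lit 0x111111), (nat_lit 4)⟩)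
(.lf ⟨(nat_lit 23), (nat_lit 1), (nat_lit 0x8f3423cd), (nat_lit 6)⟩))
(.nd (.lf ⟨(nat_lit 0x1da1c81c28873481e21c21da1c81c28873481e21c2), (nat_lit 28), (nat_lit 0x1da1c81c28873481e21c21da1c81c28873481e21c2), (nat_lit 28)⟩)
(.lf ⟨(nat_lit 0x28744744a1d11d1), (nat_lit 10), (nat_lit 0x28744744a1d11d1), (nat_lit 10)⟩)))
(.nd (.nd (.lf ⟨(nat_lit 220), (nat_lit 2), (nat_lit 0x628638818e21c44628818819d38a18a75128674a74819d38a74819129c443), (nat_lit 41)⟩)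
(.lf ⟨(nat_lit 0x9e5), (nat_lit 2), (nat_lit 0x212212), (nat_lit 4)⟩))
(.nd (.lf ⟨(nat_lit 0x3c930f24c24c24c3c930f24c24c24c), (nat_lit 20), (nat_lit 0), (nat_lit 0)⟩)
(.lf ⟨(nat_lit 0), (nat_lit 0), (nat_lit 0x197197), (nat_lit 4)⟩))))
(.nd (.nd (.nd (.lf ⟨(nat_lit 0x181146045), (nat_lit 6), (nat_lit 0x146045181), (nat_lit 6)⟩)
(.lf ⟨(nat_lit 0x51d), (nat_lit 2), (nat_lit 0x754), (nat_lit 2)⟩))
(.nd (.lf ⟨(nat_lit 0x80a9e044a), (nat_lit 6), (nat_lit 0x80a060281), (nat_lit 6)⟩)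
(.lf ⟨(nat_lit 0x1de1c7787), (nat_lit 6), (nat_lit 0), (nat_lit 0)⟩)))
(.nd (.nd (.lf ⟨(nat_lit 144), (nat_lit 2), (nat_lit 0x2040a1ca1c2), (nat_lit 7)⟩)
(.lf ⟨(nat_lit 0x6409), (nat_lit 3), (nat_lit 0x1440c40c69850c81f30930e3ce3ce3d038c81f40e3ce3ce3ce190), (nat_lit 35)⟩))
(.lf ⟨(nat_lit 0x254254), (nat_lit 4), (nat_lit 0x254254), (nat_lit 4)⟩))))
(.nd (.nd (.nd (.nd (.lf ⟨(nat_lit 137), (nat_lit 2), (nat_lit 0x109109109102), (nat_lit 8)⟩)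
(.lf ⟨(nat_lit 0x901909901909), (nat_lit 8), (nat_lit 0x901909901909), (nat_lit 8)⟩))
(.nd (.lf ⟨(nat_lit 0x15a15a), (nat_lit 4), (nat_lit 0x685685), (nat_lit 4)⟩)
(.lf ⟨(nat_lit 167), (nat_lit 2), (nat_lit 0x6d245244f48a3e395b9e58238123ca3c2), (nat_lit 22)⟩)))
(.nd (.nd (.lf ⟨(nat_lit 457), (nat_lit 2), (nat_lit 0x4904902891ca), (nat_lit 8)⟩)
(.lf ⟨(nat_lit 614), (nat_lit 2), (nat_lit 0x9e098c7e77cc809), (nat_lit 10)⟩))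
(.nd (.lf ⟨(nat_lit 0x6411), (nat_lit 3), (nat_lit 0x10450190), (nat_lit 5)⟩)
(.lf ⟨(nat_lit 0x92ca), (nat_lit 3), (nat_lit 0x80b28b24b), (nat_lit 6)⟩))))
(.nd (.nd (.nd (.lf ⟨(nat_lit 270), (nat_lit 2), (nat_lit 0x38a20a204), (nat_lit 6)⟩)
(.lf ⟨(nat_lit 215), (nat_lit 2), (nat_lit 0x207c75cf3207cc81f64f3278193e631f9df3207d99df64c81f5d85cf3093091e260b24b243), (nat_lit 49)⟩))
(.nd (.lf ⟨(nat_lit 0x7792452), (nat_lit 5), (nat_lit 0x48a31228c99e491487), (nat_lit 12)⟩)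
(.lf ⟨(nat_lit 0x207e73c938a3ca24e), (nat_lit 11), (nat_lit 0x273c938a3ca24e81f), (nat_lit 11)⟩)))
(.nd (.nd (.lf ⟨(nat_lit 540), (nat_lit 2), (nat_lit 0x708), (nat_lit 2)⟩)
(.lf ⟨(nat_lit 718), (nat_lit 2), (nat_lit 0x49149138b), (nat_lit 6)⟩))
(.lf ⟨(nat_lit 0x1d54a54a), (nat_lit 5), (nat_lit 0x1529529d), (nat_lit 5)⟩)))))
(.nd (.nd (.nd (.nd (.nd (.lf ⟨(nat_lit 142), (nat_lit 2), (nat_lit 0x16382), (nat_lit 3)⟩)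
(.lf ⟨(nat_lit 716), (nat_lit 2), (nat_lit 779), (nat_lit 2)⟩))
(.nd (.lf ⟨(nat_lit 0x445), (nat_lit 2), (nat_lit 0x485485452452151), (nat_lit 10)⟩)
(.lf ⟨(nat_lit 351), (nat_lit 2), (nat_lit 0x7cc48c485), (nat_lit 6)⟩)))
(.nd (.nd (.lf ⟨(nat_lit 0x78111e044), (nat_lit 6), (nat_lit 0x11e044781), (nat_lit 6)⟩)
(.lf ⟨(nat_lit 0x449449449449), (nat_lit 8), (nat_lit 0), (nat_lit 0)⟩))
(.nd (.lf ⟨(nat_lit 0x389389), (nat_lit 4), (nat_lit 0x389389), (nat_lit 4)⟩)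
(.lf ⟨(nat_lit 0x27963), (nat_lit 3), (nat_lit 0x34a34a), (nat_lit 4)⟩))))
(.nd (.nd (.nd (.lf ⟨(nat_lit 0x24b24b), (nat_lit 4), (nat_lit 0x2c92c9), (nat_lit 4)⟩)
(.lf ⟨(nat_lit 862), (nat_lit 2), (nat_lit 0x75e74d), (nat_lit 4)⟩))
(.nd (.lf ⟨(nat_lit 0x6414), (nat_lit 3), (nat_lit 0x269105109a4190), (nat_lit 9)⟩)
(.lf ⟨(nat_lit 0x4a2), (nat_lit 2), (nat_lit 0x81f8a07d2), (nat_lit 6)⟩)))
(.nd (.nd (.lf ⟨(nat_lit 0x8792692), (nat_lit 5), (nat_lit 0x1e49a488), (nat_lit 5)⟩)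
(.lf ⟨(nat_lit 0x786787786787), (nat_lit 8), (nat_lit 0x786787786787), (nat_lit 8)⟩))
(.lf ⟨(nat_lit 0x5df), (nat_lit 2), (nat_lit 0x7d7), (nat_lit 2)⟩))))
(.nd (.nd (.nd (.nd (.lf ⟨(nat_lit 0x4e203), (nat_lit 4), (nat_lit 0x20e20304e206), (nat_lit 8)⟩)
(.lf ⟨(nat_lit 0xa51c), (nat_lit 3), (nat_lit 0x14714294), (nat_lit 5)⟩))
(.nd (.lf ⟨(nat_lit 0x2d22d2), (nat_lit 4), (nat_lit 0x48b48b), (nat_lit 4)⟩)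
(.lf ⟨(nat_lit 0x2438263079e024c2470e098c1e78093091c90e098c1e78093091c38263079e024c247), (nat_lit 46), (nat_lit 0x2438263079e024c2470e098c1e78093091c90e098c1e78093091c38263079e024c247), (nat_lit 46)⟩)))
(.nd (.nd (.lf ⟨(nat_lit 284), (nat_lit 2), (nat_lit 0xa18a184), (nat_lit 5)⟩)
(.lf ⟨(nat_lit 0x189a4), (nat_lit 3), (nat_lit 0x1a9a4698), (nat_lit 5)⟩))
(.nd (.lf ⟨(nat_lit 977), (nat_lit 2), (nat_lit 0x44f), (nat_lit 2)⟩)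
(.lf ⟨(nat_lit 0x114306114306), (nat_lit 8), (nat_lit 0x114306114306), (nat_lit 8)⟩))))
(.nd (.nd (.nd (.lf ⟨(nat_lit 0x19c44a), (nat_lit 4), (nat_lit 0x11286), (nat_lit 3)⟩)
(.lf ⟨(nat_lit 0xc430b10c2c310c2c430b), (nat_lit 14), (nat_lit 0xc430b10c2c310c2c430b), (nat_lit 14)⟩))
(.nd (.lf ⟨(nat_lit 0x2604998f266), (nat_lit 7), (nat_lit 0x998f266981), (nat_lit 7)⟩)
(.lf ⟨(nat_lit 0x467963), (nat_lit 4), (nat_lit 0x9e58d1), (nat_lit 4)⟩)))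
(.nd (.nd (.lf ⟨(nat_lit 0), (nat_lit 0), (nat_lit 0x5c35d70d7), (nat_lit 6)⟩)
(.lf ⟨(nat_lit 0x4a2799), (nat_lit 4), (nat_lit 0x65289e), (nat_lit 4)⟩))
(.lf ⟨(nat_lit 0x15215c), (nat_lit 4), (nat_lit 0x452712445485), (nat_lit 8)⟩))))))
(.nd (.nd (.nd (.nd (.nd (.nd (.lf ⟨(nat_lit 0x47047), (nat_lit 4), (nat_lit 0x1c11c1), (nat_lit 4)⟩)
(.lf ⟨(nat_lit 99), (nat_lit 2), (nat_lit 0x207a07995cd79921244a5cd20548a3488dd79d79b45274a34a212141), (nat_lit 37)⟩))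
(.nd (.lf ⟨(nat_lit 0x2c42c4), (nat_lit 4), (nat_lit 0x10b10b), (nat_lit 4)⟩)
(.lf ⟨(nat_lit 0x28c28c), (nat_lit 4), (nat_lit 0x30a30a), (nat_lit 4)⟩)))
(.nd (.nd (.lf ⟨(nat_lit 0xd83d0), (nat_lit 4), (nat_lit 0x4066064183d060f40361060f), (nat_lit 16)⟩)
(.lf ⟨(nat_lit 0x861d), (nat_lit 3), (nat_lit 0x18758218), (nat_lit 5)⟩))
(.nd (.lf ⟨(nat_lit 277), (nat_lit 2), (nat_lit 0x59959934a59959534a34840d21025534e34954d399344), (nat_lit 30)⟩)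
(.lf ⟨(nat_lit 0x491491), (nat_lit 4), (nat_lit 0xcc20c203308308), (nat_lit 10)⟩))))
(.nd (.nd (.nd (.lf ⟨(nat_lit 0x409050241), (nat_lit 6), (nat_lit 0x50241409), (nat_lit 6)⟩)
(.lf ⟨(nat_lit 0x4a3), (nat_lit 2), (nat_lit 0x8d2), (nat_lit 2)⟩))
(.nd (.lf ⟨(nat_lit 0x21e21e), (nat_lit 4), (nat_lit 0x788788), (nat_lit 4)⟩)
(.lf ⟨(nat_lit 0x640f), (nat_lit 3), (nat_lit 0x103c6), (nat_lit 3)⟩)))
(.nd (.nd (.lf ⟨(nat_lit 0x14a3cd), (nat_lit 4), (nat_lit 0x28f34a14a), (nat_lit 6)⟩)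
(.lf ⟨(nat_lit 0x3207cc81f), (nat_lit 6), (nat_lit 0x4c24c241309309), (nat_lit 10)⟩))
(.lf ⟨(nat_lit 0x414), (nat_lit 2), (nat_lit 0x510), (nat_lit 2)⟩))))
(.nd (.nd (.nd (.nd (.lf ⟨(nat_lit 0xc50c5), (nat_lit 4), (nat_lit 0x143143), (nat_lit 4)⟩)
(.lf ⟨(nat_lit 0x253253), (nat_lit 4), (nat_lit 0x4c94c9), (nat_lit 4)⟩))
(.nd (.lf ⟨(nat_lit 0x1d71d7), (nat_lit 4), (nat_lit 0x5c75c7), (nat_lit 4)⟩)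
(.lf ⟨(nat_lit 0), (nat_lit 0), (nat_lit 0x297297), (nat_lit 4)⟩)))
(.nd (.nd (.lf ⟨(nat_lit 0x21a208688), (nat_lit 6), (nat_lit 0), (nat_lit 0)⟩)
(.lf ⟨(nat_lit 539), (nat_lit 2), (nat_lit 0x81e81e6d7297288), (nat_lit 10)⟩))
(.nd (.lf ⟨(nat_lit 0x41c), (nat_lit 2), (nat_lit 0x710), (nat_lit 2)⟩)
(.lf ⟨(nat_lit 282), (nat_lit 2), (nat_lit 0x27690210204), (nat_lit 7)⟩))))
(.nd (.nd (.nd (.lf ⟨(nat_lit 0x763), (nat_lit 2), (nat_lit 0x8dd), (nat_lit 2)⟩)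
(.lf ⟨(nat_lit 31), (nat_lit 1), (nat_lit 0xd21c3487), (nat_lit 6)⟩))
(.nd (.lf ⟨(nat_lit 0x61a2c92c9), (nat_lit 6), (nat_lit 0x2c92c961a), (nat_lit 6)⟩)
(.lf ⟨(nat_lit 0x44544204544201115108115108), (nat_lit 18), (nat_lit 0x44544204544201115108115108), (nat_lit 18)⟩)))
(.nd (.nd (.lf ⟨(nat_lit 0x9189190), (nat_lit 5), (nat_lit 0x10246246), (nat_lit 5)⟩)
(.lf ⟨(nat_lit 0xf417), (nat_lit 3), (nat_lit 0x105d03d0), (nat_lit 5)⟩))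
(.lf ⟨(nat_lit 0x207cb), (nat_lit 3), (nat_lit 0xb81f), (nat_lit 3)⟩)))))
(.nd (.nd (.nd (.nd (.nd (.lf ⟨(nat_lit 0x861), (nat_lit 2), (nat_lit 0), (nat_lit 0)⟩)
(.lf ⟨(nat_lit 0x5132c851320b), (nat_lit 8), (nat_lit 0x4b20b2012c82c8), (nat_lit 10)⟩))
(.nd (.lf ⟨(nat_lit 0x6de), (nat_lit 2), (nat_lit 0x79b), (nat_lit 2)⟩)
(.lf ⟨(nat_lit 0xc49a), (nat_lit 3), (nat_lit 0x12692312), (nat_lit 5)⟩)))
(.nd (.nd (.lf ⟨(nat_lit 586), (nat_lit 2), (nat_lit 0x20289), (nat_lit 3)⟩)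
(.lf ⟨(nat_lit 0x640e), (nat_lit 3), (nat_lit 0xe190), (nat_lit 3)⟩))
(.nd (.lf ⟨(nat_lit 0x760), (nat_lit 2), (nat_lit 0x81d), (nat_lit 2)⟩)
(.lf ⟨(nat_lit 0x15698), (nat_lit 3), (nat_lit 0x186da55b), (nat_lit 5)⟩))))
(.nd (.nd (.nd (.lf ⟨(nat_lit 135), (nat_lit 2), (nat_lit 450), (nat_lit 2)⟩)
(.lf ⟨(nat_lit 0xd452), (nat_lit 3), (nat_lit 0x1d49d48f4914913d2351), (nat_lit 13)⟩))
(.nd (.lf ⟨(nat_lit 331), (nat_lit 2), (nat_lit 709), (nat_lit 2)⟩)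
(.lf ⟨(nat_lit 0), (nat_lit 0), (nat_lit 0x308304308304), (nat_lit 8)⟩)))
(.nd (.nd (.lf ⟨(nat_lit 0x1439839850e60e6), (nat_lit 10), (nat_lit 0x1439839850e60e6), (nat_lit 10)⟩)
(.lf ⟨(nat_lit 0x7657), (nat_lit 3), (nat_lit 0xc3484cc34c2133195c7), (nat_lit 13)⟩))
(.lf ⟨(nat_lit 0x38d38d), (nat_lit 4), (nat_lit 0x215215), (nat_lit 4)⟩))))
(.nd (.nd (.nd (.nd (.lf ⟨(nat_lit 221), (nat_lit 2), (nat_lit 0x838a75110a18810628419c44a38828620610675110a11c443), (nat_lit 33)⟩)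
(.lf ⟨(nat_lit 0x11513), (nat_lit 3), (nat_lit 0x144d1), (nat_lit 3)⟩))
(.nd (.lf ⟨(nat_lit 0x2c92c9), (nat_lit 4), (nat_lit 0x2c92c9), (nat_lit 4)⟩)
(.lf ⟨(nat_lit 465), (nat_lit 2), (nat_lit 0x1e49a49a49a49a3d23e67924523d23cc28c287), (nat_lit 25)⟩)))
(.nd (.nd (.lf ⟨(nat_lit 0x5257), (nat_lit 3), (nat_lit 0x195d9149), (nat_lit 5)⟩)
(.lf ⟨(nat_lit 660), (nat_lit 2), (nat_lit 0x50a), (nat_lit 2)⟩))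
(.nd (.lf ⟨(nat_lit 0x7a0), (nat_lit 2), (nat_lit 0x48848848848879221e48848848881e), (nat_lit 20)⟩)
(.lf ⟨(nat_lit 0), (nat_lit 0), (nat_lit 0xa79502102029e5408408), (nat_lit 14)⟩))))
(.nd (.nd (.nd (.lf ⟨(nat_lit 92), (nat_lit 2), (nat_lit 0x70628638818e21c44628818819d38a18a75128674a74819d38a74819118a18e20638871118a20620674e28629d44a19d29d20674e29d206441), (nat_lit 76)⟩)
(.lf ⟨(nat_lit 0x19e6c679b), (nat_lit 6), (nat_lit 0x19e6c679b), (nat_lit 6)⟩))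
(.nd (.lf ⟨(nat_lit 0x507454447), (nat_lit 6), (nat_lit 0x187447187447), (nat_lit 8)⟩)
(.lf ⟨(nat_lit 0x6269e6), (nat_lit 4), (nat_lit 0x9a79a79a76a76989a7), (nat_lit 12)⟩)))
(.nd (.nd (.lf ⟨(nat_lit 0x21f21f21f21f), (nat_lit 8), (nat_lit 0), (nat_lit 0)⟩)
(.lf ⟨(nat_lit 346), (nat_lit 2), (nat_lit 0x89e89e685), (nat_lit 6)⟩))
(.lf ⟨(nat_lit 0x557), (nat_lit 2), (nat_lit 0x599599617615), (nat_lit 8)⟩))))))))))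
(.nd (.nd (.nd (.nd (.nd (.nd (.nd (.nd (.nd (.nd (.lf ⟨(nat_lit 195), (nat_lit 2), (nat_lit 0), (nat_lit 0)⟩)
(.lf ⟨(nat_lit 407), (nat_lit 2), (nat_lit 0x5cf38f386), (nat_lit 6)⟩))
(.nd (.lf ⟨(nat_lit 0), (nat_lit 0), (nat_lit 0x87087), (nat_lit 4)⟩)
(.lf ⟨(nat_lit 783), (nat_lit 2), (nat_lit 972), (nat_lit 2)⟩)))
(.nd (.nd (.lf ⟨(nat_lit 203), (nat_lit 2), (nat_lit 0x40a80921128638a7482c750640a80921128638840948a24740a8091ca8091ca1d028948a24740a8091ca8091ca1d028948a24740a8091ca8091ca1d028948a24740a8091ca8091ca1e025228948a1dd21128844a183), (nat_lit 114)⟩)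
(.lf ⟨(nat_lit 0x19a4), (nat_lit 3), (nat_lit 0x1e19e1a6901), (nat_lit 7)⟩))
(.nd (.lf ⟨(nat_lit 0x1dc4547144471dc454714447), (nat_lit 16), (nat_lit 0), (nat_lit 0)⟩)
(.lf ⟨(nat_lit 463), (nat_lit 2), (nat_lit 0x9a79a79a73cc24c247), (nat_lit 12)⟩))))
(.nd (.nd (.nd (.lf ⟨(nat_lit 0x2420c22420c2), (nat_lit 8), (nat_lit 0x83242083242), (nat_lit 8)⟩)
(.lf ⟨(nat_lit 0x39a4), (nat_lit 3), (nat_lit 0x2691f44e4117ce40b40b403), (nat_lit 15)⟩))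
(.nd (.lf ⟨(nat_lit 0x64d29934a34a34a), (nat_lit 10), (nat_lit 0x10d28d28434a34a), (nat_lit 10)⟩)
(.lf ⟨(nat_lit 0x9a61b4564426986d1591), (nat_lit 14), (nat_lit 0x9a61b4564426986d1591), (nat_lit 14)⟩)))
(.nd (.nd (.lf ⟨(nat_lit 0x3482cd20b20b20b), (nat_lit 10), (nat_lit 0x882c82c220b20b), (nat_lit 10)⟩)
(.lf ⟨(nat_lit 476), (nat_lit 2), (nat_lit 0x707), (nat_lit 2)⟩))
(.nd (.lf ⟨(nat_lit 0x1e48d212348488488), (nat_lit 11), (nat_lit 0x1234848d21221221e), (nat_lit 11)⟩)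
(.lf ⟨(nat_lit 0x9a43cc28c28f), (nat_lit 8), (nat_lit 0xda603698), (nat_lit 6)⟩)))))
(.nd (.nd (.nd (.nd (.lf ⟨(nat_lit 157), (nat_lit 2), (nat_lit 0x23742), (nat_lit 3)⟩)
(.lf ⟨(nat_lit 0x20b75c), (nat_lit 4), (nat_lit 0x2dd70b20b), (nat_lit 6)⟩))
(.nd (.lf ⟨(nat_lit 0x5ca5ca), (nat_lit 4), (nat_lit 0x25724a25724a), (nat_lit 8)⟩)
(.lf ⟨(nat_lit 101), (nat_lit 2), (nat_lit 0x941), (nat_lit 2)⟩)))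
(.nd (.nd (.lf ⟨(nat_lit 75), (nat_lit 2), (nat_lit 0x14615430614b5071933072d430714614714b301), (nat_lit 26)⟩)
(.lf ⟨(nat_lit 0x3a7963), (nat_lit 4), (nat_lit 0x9e58ce), (nat_lit 4)⟩))
(.nd (.lf ⟨(nat_lit 0x12389389), (nat_lit 5), (nat_lit 0xe24e252), (nat_lit 5)⟩)
(.lf ⟨(nat_lit 0x4e3698), (nat_lit 4), (nat_lit 0x6984e3), (nat_lit 4)⟩))))
(.nd (.nd (.nd (.lf ⟨(nat_lit 206), (nat_lit 2), (nat_lit 899), (nat_lit 2)⟩)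
(.lf ⟨(nat_lit 0x967), (nat_lit 2), (nat_lit 0x9e5), (nat_lit 2)⟩))
(.nd (.lf ⟨(nat_lit 402), (nat_lit 2), (nat_lit 0x9a4486), (nat_lit 4)⟩)
(.lf ⟨(nat_lit 0x81f), (nat_lit 2), (nat_lit 0x2470891c2), (nat_lit 6)⟩)))
(.nd (.nd (.lf ⟨(nat_lit 0x86042181), (nat_lit 6), (nat_lit 0x86042181), (nat_lit 6)⟩)
(.lf ⟨(nat_lit 0x54c), (nat_lit 2), (nat_lit 789), (nat_lit 2)⟩))
(.lf ⟨(nat_lit 0x95095095095), (nat_lit 8), (nat_lit 0), (nat_lit 0)⟩)))))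
(.nd (.nd (.nd (.nd (.nd (.lf ⟨(nat_lit 0xc80c8), (nat_lit 4), (nat_lit 0x203203), (nat_lit 4)⟩)
(.lf ⟨(nat_lit 0x255490), (nat_lit 4), (nat_lit 0x49d58a61d60a592552415255), (nat_lit 16)⟩))
(.nd (.lf ⟨(nat_lit 0x44e6d1591), (nat_lit 6), (nat_lit 0x6d159144e), (nat_lit 6)⟩)
(.lf ⟨(nat_lit 0x526), (nat_lit 2), (nat_lit 0x994), (nat_lit 2)⟩)))
(.nd (.nd (.lf ⟨(nat_lit 925), (nat_lit 2), (nat_lit 0x74e), (nat_lit 2)⟩)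
(.lf ⟨(nat_lit 0x34e350), (nat_lit 4), (nat_lit 0x40d38d), (nat_lit 4)⟩))
(.nd (.lf ⟨(nat_lit 19), (nat_lit 1), (nat_lit 0x147147), (nat_lit 4)⟩)
(.lf ⟨(nat_lit 0x423), (nat_lit 2), (nat_lit 0x9e556361d61b5a575b6a795a9da9da61d6a769895a9da9da9dd696550), (nat_lit 38)⟩))))
(.nd (.nd (.nd (.lf ⟨(nat_lit 0xce0c20ce0c2), (nat_lit 8), (nat_lit 0x8e0c308e0c3), (nat_lit 8)⟩)
(.lf ⟨(nat_lit 0x1975e), (nat_lit 3), (nat_lit 0x1d79d65d), (nat_lit 5)⟩))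
(.nd (.lf ⟨(nat_lit 0x899f21f2267c899f), (nat_lit 11), (nat_lit 0x5f05f), (nat_lit 4)⟩)
(.lf ⟨(nat_lit 933), (nat_lit 2), (nat_lit 0x94e), (nat_lit 2)⟩)))
(.nd (.nd (.lf ⟨(nat_lit 0x4526d14526d1), (nat_lit 8), (nat_lit 0), (nat_lit 0)⟩)
(.lf ⟨(nat_lit 409), (nat_lit 2), (nat_lit 0x646), (nat_lit 2)⟩))
(.lf ⟨(nat_lit 295), (nat_lit 2), (nat_lit 0x81022775a40e4084089e075a9ce204), (nat_lit 20)⟩))))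
(.nd (.nd (.nd (.nd (.lf ⟨(nat_lit 0x10a10a), (nat_lit 4), (nat_lit 0x284284), (nat_lit 4)⟩)
(.lf ⟨(nat_lit 0x930d), (nat_lit 3), (nat_lit 0xc34c24c), (nat_lit 5)⟩))
(.nd (.lf ⟨(nat_lit 0x246246), (nat_lit 4), (nat_lit 0x1892c91892c9246246), (nat_lit 12)⟩)
(.lf ⟨(nat_lit 0x426e395b9e58cf28f2826e395b9e58cf28f28109b8e56e79633ca3ca09b8e56e79633ca3ca), (nat_lit 50), (nat_lit 0x426e395b9e58cf28f2826e395b9e58cf28f28109b8e56e79633ca3ca09b8e56e79633ca3ca), (nat_lit 50)⟩)))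
(.nd (.nd (.lf ⟨(nat_lit 975), (nat_lit 2), (nat_lit 0), (nat_lit 0)⟩)
(.lf ⟨(nat_lit 477), (nat_lit 2), (nat_lit 0x758590296298407), (nat_lit 10)⟩))
(.nd (.lf ⟨(nat_lit 0x6408), (nat_lit 3), (nat_lit 0x1075c210190), (nat_lit 7)⟩)
(.lf ⟨(nat_lit 0x423), (nat_lit 2), (nat_lit 0x8d0), (nat_lit 2)⟩))))
(.nd (.nd (.nd (.lf ⟨(nat_lit 0x827), (nat_lit 2), (nat_lit 0x9e0), (nat_lit 2)⟩)
(.lf ⟨(nat_lit 31), (nat_lit 1), (nat_lit 0xe04900e0490), (nat_lit 8)⟩))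
(.nd (.lf ⟨(nat_lit 0x671d11e74419c74479d1), (nat_lit 14), (nat_lit 0x671d11e74419c74479d1), (nat_lit 14)⟩)
(.lf ⟨(nat_lit 0x201115108115108044544204544208044544204544201115108115108), (nat_lit 38), (nat_lit 0x201115108115108044544204544208044544204544201115108115108), (nat_lit 38)⟩)))
(.nd (.nd (.lf ⟨(nat_lit 0x10388408), (nat_lit 5), (nat_lit 0x4032100c8), (nat_lit 6)⟩)
(.lf ⟨(nat_lit 215), (nat_lit 2), (nat_lit 0x207d03505cc34c81f3cc81f3207d93cc9e064f98c7e77cc81f9e064f3207cc81f3207d035034c81f3207cc81f64f3207c932064f31f9e67d93278193e69e098c7e780f3277cc81f24c1e78193e631f9df3207e77cc81f60f3093091e260b24b243), (nat_lit 129)⟩))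
(.lf ⟨(nat_lit 0x60b), (nat_lit 2), (nat_lit 728), (nat_lit 2)⟩))))))
(.nd (.nd (.nd (.nd (.nd (.nd (.lf ⟨(nat_lit 35), (nat_lit 1), (nat_lit 0x9d09d), (nat_lit 4)⟩)
(.lf ⟨(nat_lit 0), (nat_lit 0), (nat_lit 0x53053), (nat_lit 4)⟩))
(.nd (.lf ⟨(nat_lit 0x28f34a3cd), (nat_lit 6), (nat_lit 0x10a14a144285285), (nat_lit 10)⟩)
(.lf ⟨(nat_lit 0x466), (nat_lit 2), (nat_lit 0x991), (nat_lit 2)⟩)))
(.nd (.nd (.lf ⟨(nat_lit 601), (nat_lit 2), (nat_lit 0x649), (nat_lit 2)⟩)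
(.lf ⟨(nat_lit 0), (nat_lit 0), (nat_lit 0x99099), (nat_lit 4)⟩))
(.nd (.lf ⟨(nat_lit 0x207cc), (nat_lit 3), (nat_lit 0x207c93207c930930930c81f), (nat_lit 15)⟩)
(.lf ⟨(nat_lit 0x1ce0c7383), (nat_lit 6), (nat_lit 0x1ce0c7383), (nat_lit 6)⟩))))
(.nd (.nd (.nd (.lf ⟨(nat_lit 0x242149085), (nat_lit 6), (nat_lit 0x149085242), (nat_lit 6)⟩)
(.lf ⟨(nat_lit 0x1ce1dc), (nat_lit 4), (nat_lit 0x55059039241549c41541640e1ce490552416716707), (nat_lit 28)⟩))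
(.nd (.lf ⟨(nat_lit 0x467), (nat_lit 2), (nat_lit 0x9d1), (nat_lit 2)⟩)
(.lf ⟨(nat_lit 0x1a51a5), (nat_lit 4), (nat_lit 0x1a51a5), (nat_lit 4)⟩)))
(.nd (.nd (.lf ⟨(nat_lit 214), (nat_lit 2), (nat_lit 0x2040a25d5902891dd387383), (nat_lit 15)⟩)
(.lf ⟨(nat_lit 0x1906d1), (nat_lit 4), (nat_lit 0x6d159038b44e2d1406590), (nat_lit 14)⟩))
(.lf ⟨(nat_lit 0x473c73c11cf1cf), (nat_lit 10), (nat_lit 0x473c73c11cf1cf), (nat_lit 10)⟩))))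
(.nd (.nd (.nd (.nd (.lf ⟨(nat_lit 390), (nat_lit 2), (nat_lit 0), (nat_lit 0)⟩)
(.lf ⟨(nat_lit 0xa40646d159a61190191b45669844290191b4566984640646d159a611), (nat_lit 38), (nat_lit 0xa40646d159a61190191b45669844290191b4566984640646d159a611), (nat_lit 38)⟩))
(.nd (.lf ⟨(nat_lit 0x38538138558558e04e15615638e14e04e15615638138558558e), (nat_lit 34), (nat_lit 0x38538138558558e04e15615638e14e04e15615638138558558e), (nat_lit 34)⟩)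
(.lf ⟨(nat_lit 99), (nat_lit 2), (nat_lit 0x2795e7523518cd2858d234a22375b463348141), (nat_lit 25)⟩)))
(.nd (.nd (.lf ⟨(nat_lit 0xd83d0), (nat_lit 4), (nat_lit 0x102582583c3), (nat_lit 7)⟩)
(.lf ⟨(nat_lit 0x840e), (nat_lit 3), (nat_lit 0xe210), (nat_lit 3)⟩))
(.nd (.lf ⟨(nat_lit 0x63d1), (nat_lit 3), (nat_lit 0xf44f18f), (nat_lit 5)⟩)
(.lf ⟨(nat_lit 0x424), (nat_lit 2), (nat_lit 0x910), (nat_lit 2)⟩))))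
(.nd (.nd (.nd (.lf ⟨(nat_lit 657), (nat_lit 2), (nat_lit 0x44a), (nat_lit 2)⟩)
(.lf ⟨(nat_lit 0), (nat_lit 0), (nat_lit 0x2195cf3482195cf348), (nat_lit 12)⟩))
(.nd (.lf ⟨(nat_lit 459), (nat_lit 2), (nat_lit 711), (nat_lit 2)⟩)
(.lf ⟨(nat_lit 282), (nat_lit 2), (nat_lit 0x206a7810210204), (nat_lit 9)⟩)))
(.nd (.nd (.lf ⟨(nat_lit 284), (nat_lit 2), (nat_lit 0x704), (nat_lit 2)⟩)
(.lf ⟨(nat_lit 0x19018d), (nat_lit 4), (nat_lit 0x40d406406), (nat_lit 6)⟩))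
(.lf ⟨(nat_lit 0xa38d38d), (nat_lit 5), (nat_lit 0xe34e34a), (nat_lit 5)⟩)))))
(.nd (.nd (.nd (.nd (.nd (.lf ⟨(nat_lit 207), (nat_lit 2), (nat_lit 0x183c3), (nat_lit 3)⟩)
(.lf ⟨(nat_lit 513), (nat_lit 2), (nat_lit 72), (nat_lit 2)⟩))
(.nd (.lf ⟨(nat_lit 0x106490192404192406490), (nat_lit 14), (nat_lit 0x106490192404192406490), (nat_lit 14)⟩)
(.lf ⟨(nat_lit 678), (nat_lit 2), (nat_lit 0x98a), (nat_lit 2)⟩)))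
(.nd (.nd (.lf ⟨(nat_lit 0x3421cd087), (nat_lit 6), (nat_lit 0x1cd087342), (nat_lit 6)⟩)
(.lf ⟨(nat_lit 0x1149115214f), (nat_lit 7), (nat_lit 0xf452445485), (nat_lit 7)⟩))
(.nd (.lf ⟨(nat_lit 0x8e40939024e24e24239024e409389389), (nat_lit 22), (nat_lit 0x8e40939024e24e24239024e409389389), (nat_lit 22)⟩)
(.lf ⟨(nat_lit 0x663), (nat_lit 2), (nat_lit 0x8d9), (nat_lit 2)⟩))))
(.nd (.nd (.nd (.lf ⟨(nat_lit 0x4149), (nat_lit 3), (nat_lit 0x5245105), (nat_lit 5)⟩)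
(.lf ⟨(nat_lit 0xf4a7), (nat_lit 3), (nat_lit 0x257679607a079d3d2), (nat_lit 11)⟩))
(.nd (.lf ⟨(nat_lit 0x3041c51c54c71471441c51c54c714714c1071471531c51c51071471531c51c5), (nat_lit 42), (nat_lit 0x3041c51c54c71471441c51c54c714714c1071471531c51c51071471531c51c5), (nat_lit 42)⟩)
(.lf ⟨(nat_lit 0xa73ca3ca0a73ca3ca), (nat_lit 12), (nat_lit 0xa73ca3ca0a73ca3ca), (nat_lit 12)⟩)))
(.nd (.nd (.lf ⟨(nat_lit 10), (nat_lit 1), (nat_lit 0xc40c4), (nat_lit 4)⟩)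
(.lf ⟨(nat_lit 0), (nat_lit 0), (nat_lit 0x1d31d3), (nat_lit 4)⟩))
(.lf ⟨(nat_lit 921), (nat_lit 2), (nat_lit 0x64e), (nat_lit 2)⟩))))
(.nd (.nd (.nd (.nd (.lf ⟨(nat_lit 0x4188), (nat_lit 3), (nat_lit 0x6206106), (nat_lit 5)⟩)
(.lf ⟨(nat_lit 0x2d02df), (nat_lit 4), (nat_lit 0x7d044e4117d14117ce40b40b), (nat_lit 16)⟩))
(.nd (.lf ⟨(nat_lit 0xa2dc), (nat_lit 3), (nat_lit 0xb70b28b), (nat_lit 5)⟩)
(.lf ⟨(nat_lit 0x188263079e024c247), (nat_lit 11), (nat_lit 0x2098c1e78093091d8), (nat_lit 11)⟩)))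
(.nd (.nd (.lf ⟨(nat_lit 223), (nat_lit 2), (nat_lit 0x204904902877e04904904904902877c3), (nat_lit 21)⟩)
(.lf ⟨(nat_lit 736), (nat_lit 2), (nat_lit 0x80b), (nat_lit 2)⟩))
(.nd (.lf ⟨(nat_lit 27), (nat_lit 1), (nat_lit 0x442442), (nat_lit 4)⟩)
(.lf ⟨(nat_lit 218), (nat_lit 2), (nat_lit 0x9e696469021028c288303), (nat_lit 14)⟩))))
(.nd (.nd (.nd (.lf ⟨(nat_lit 0x14814f), (nat_lit 4), (nat_lit 0x864d2452593cd645), (nat_lit 11)⟩)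
(.lf ⟨(nat_lit 0xe20c2c830b), (nat_lit 7), (nat_lit 0x830b20c2ce), (nat_lit 7)⟩))
(.nd (.lf ⟨(nat_lit 679), (nat_lit 2), (nat_lit 0x9e046044a), (nat_lit 6)⟩)
(.lf ⟨(nat_lit 166), (nat_lit 2), (nat_lit 0x982), (nat_lit 2)⟩)))
(.nd (.nd (.lf ⟨(nat_lit 0x285285), (nat_lit 4), (nat_lit 0x285285), (nat_lit 4)⟩)
(.lf ⟨(nat_lit 610), (nat_lit 2), (nat_lit 0x3e23c9), (nat_lit 4)⟩))
(.lf ⟨(nat_lit 0x55c), (nat_lit 2), (nat_lit 0x715), (nat_lit 2)⟩)))))))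
(.nd (.nd (.nd (.nd (.nd (.nd (.nd (.lf ⟨(nat_lit 19), (nat_lit 1), (nat_lit 0x8c08c), (nat_lit 4)⟩)
(.lf ⟨(nat_lit 0x28681e81e9e07a781e44681e81e9e07a781e44a1a07a07a781e9e07911a07a07a781e9e0791), (nat_lit 50), (nat_lit 0x28681e81e9e07a781e44681e81e9e07a781e44a1a07a07a781e9e07911a07a07a781e9e0791), (nat_lit 50)⟩))
(.nd (.lf ⟨(nat_lit 0xe68268030e6826803), (nat_lit 12), (nat_lit 0), (nat_lit 0)⟩)
(.lf ⟨(nat_lit 0x19018d), (nat_lit 4), (nat_lit 0x346406), (nat_lit 4)⟩)))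
(.nd (.nd (.lf ⟨(nat_lit 98), (nat_lit 2), (nat_lit 0x589a14289a081), (nat_lit 9)⟩)
(.lf ⟨(nat_lit 0x51379b), (nat_lit 4), (nat_lit 0x79b513), (nat_lit 4)⟩))
(.nd (.lf ⟨(nat_lit 0x3c930f24c24c24c), (nat_lit 10), (nat_lit 0x4930930124c24c), (nat_lit 10)⟩)
(.lf ⟨(nat_lit 0x1073481cd2041cd207348), (nat_lit 14), (nat_lit 0x1073481cd2041cd207348), (nat_lit 14)⟩))))
(.nd (.nd (.nd (.lf ⟨(nat_lit 0x244103244103), (nat_lit 8), (nat_lit 0xc42440c4244), (nat_lit 8)⟩)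
(.lf ⟨(nat_lit 0x4d6), (nat_lit 2), (nat_lit 0x593), (nat_lit 2)⟩))
(.nd (.lf ⟨(nat_lit 0x1954d29534a34a34a), (nat_lit 11), (nat_lit 0x1534a54d28d28d299), (nat_lit 11)⟩)
(.lf ⟨(nat_lit 0x9615), (nat_lit 3), (nat_lit 0x18549), (nat_lit 3)⟩)))
(.nd (.nd (.lf ⟨(nat_lit 0), (nat_lit 0), (nat_lit 195), (nat_lit 2)⟩)
(.lf ⟨(nat_lit 0x679b), (nat_lit 3), (nat_lit 0x1e6d3293286), (nat_lit 7)⟩))
(.lf ⟨(nat_lit 0x9485485), (nat_lit 5), (nat_lit 0x12152149), (nat_lit 5)⟩))))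
(.nd (.nd (.nd (.nd (.lf ⟨(nat_lit 69), (nat_lit 2), (nat_lit 0x85085085081), (nat_lit 8)⟩)
(.lf ⟨(nat_lit 0x744e), (nat_lit 3), (nat_lit 0x44e52044e40a2d138b44e25138b40a2542c7), (nat_lit 24)⟩))
(.nd (.lf ⟨(nat_lit 99), (nat_lit 2), (nat_lit 0x65734879244a65734815228d22375b45228d212285741), (nat_lit 30)⟩)
(.lf ⟨(nat_lit 0xd452), (nat_lit 3), (nat_lit 0x11491351), (nat_lit 5)⟩)))
(.nd (.nd (.lf ⟨(nat_lit 284), (nat_lit 2), (nat_lit 0x1d39128674e28819d28818a19d444), (nat_lit 19)⟩)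
(.lf ⟨(nat_lit 0x1ce1dc), (nat_lit 4), (nat_lit 0x707387), (nat_lit 4)⟩))
(.nd (.lf ⟨(nat_lit 0x406406), (nat_lit 4), (nat_lit 0xda603698), (nat_lit 6)⟩)
(.lf ⟨(nat_lit 0x567), (nat_lit 2), (nat_lit 0x9d5), (nat_lit 2)⟩))))
(.nd (.nd (.nd (.lf ⟨(nat_lit 144), (nat_lit 2), (nat_lit 0x1d0247242), (nat_lit 6)⟩)
(.lf ⟨(nat_lit 0x640c), (nat_lit 3), (nat_lit 0x207ce3ce3d03903d038c81f3903d03903ce3ce190), (nat_lit 27)⟩))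
(.nd (.lf ⟨(nat_lit 0x792452), (nat_lit 4), (nat_lit 0x48a052281), (nat_lit 6)⟩)
(.lf ⟨(nat_lit 0x1c224450b1142c91142c450b1c224450b1142c91142c450b), (nat_lit 32), (nat_lit 0x1c224450b1142c91142c450b1c224450b1142c91142c450b), (nat_lit 32)⟩)))
(.nd (.nd (.lf ⟨(nat_lit 535), (nat_lit 2), (nat_lit 0x5c8), (nat_lit 2)⟩)
(.lf ⟨(nat_lit 276), (nat_lit 2), (nat_lit 0x9a481245238b44b44a25140e2ca24b1c6407184), (nat_lit 26)⟩))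
(.lf ⟨(nat_lit 0x752), (nat_lit 2), (nat_lit 0x48d48d74a35d34a49d), (nat_lit 12)⟩)))))
(.nd (.nd (.nd (.nd (.nd (.lf ⟨(nat_lit 0x4d3), (nat_lit 2), (nat_lit 0), (nat_lit 0)⟩)
(.lf ⟨(nat_lit 0), (nat_lit 0), (nat_lit 0x1944c6513), (nat_lit 6)⟩))
(.nd (.lf ⟨(nat_lit 0), (nat_lit 0), (nat_lit 455), (nat_lit 2)⟩)
(.lf ⟨(nat_lit 795), (nat_lit 2), (nat_lit 0x6cc), (nat_lit 2)⟩)))
(.nd (.nd (.lf ⟨(nat_lit 0x3c93c9), (nat_lit 4), (nat_lit 0), (nat_lit 0)⟩)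
(.lf ⟨(nat_lit 0x415), (nat_lit 2), (nat_lit 0x550), (nat_lit 2)⟩))
(.nd (.lf ⟨(nat_lit 0x81f417417), (nat_lit 6), (nat_lit 0x41741781f), (nat_lit 6)⟩)
(.lf ⟨(nat_lit 926), (nat_lit 2), (nat_lit 0x78e), (nat_lit 2)⟩))))
(.nd (.nd (.nd (.lf ⟨(nat_lit 0x1100c31100c3), (nat_lit 8), (nat_lit 0xd00c40d00c4), (nat_lit 8)⟩)
(.lf ⟨(nat_lit 0x1149d), (nat_lit 3), (nat_lit 0x12752452), (nat_lit 5)⟩))
(.nd (.lf ⟨(nat_lit 0x64a6), (nat_lit 3), (nat_lit 0x12992192), (nat_lit 5)⟩)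
(.lf ⟨(nat_lit 802), (nat_lit 2), (nat_lit 0x88c), (nat_lit 2)⟩)))
(.nd (.nd (.lf ⟨(nat_lit 0x490792692), (nat_lit 6), (nat_lit 0x792692490), (nat_lit 6)⟩)
(.lf ⟨(nat_lit 0x640c), (nat_lit 3), (nat_lit 0x207cf40c81f40f190), (nat_lit 11)⟩))
(.lf ⟨(nat_lit 864), (nat_lit 2), (nat_lit 0x80d), (nat_lit 2)⟩))))
(.nd (.nd (.nd (.nd (.lf ⟨(nat_lit 0x181181), (nat_lit 4), (nat_lit 0), (nat_lit 0)⟩)
(.lf ⟨(nat_lit 0xe69039a4), (nat_lit 6), (nat_lit 0xe69039a4), (nat_lit 6)⟩))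
(.nd (.lf ⟨(nat_lit 152), (nat_lit 2), (nat_lit 0x1d71d81d760f1d83c75c70d70c2), (nat_lit 18)⟩)
(.lf ⟨(nat_lit 0x4da), (nat_lit 2), (nat_lit 0x693), (nat_lit 2)⟩)))
(.nd (.nd (.lf ⟨(nat_lit 153), (nat_lit 2), (nat_lit 0x193c91491573c2), (nat_lit 9)⟩)
(.lf ⟨(nat_lit 0x109a4), (nat_lit 3), (nat_lit 0x26910), (nat_lit 3)⟩))
(.nd (.lf ⟨(nat_lit 0x499), (nat_lit 2), (nat_lit 0x652), (nat_lit 2)⟩)
(.lf ⟨(nat_lit 0x21020c), (nat_lit 4), (nat_lit 0x308408), (nat_lit 4)⟩))))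
(.nd (.nd (.nd (.lf ⟨(nat_lit 0x26048a), (nat_lit 4), (nat_lit 0x12289), (nat_lit 3)⟩)
(.lf ⟨(nat_lit 0), (nat_lit 0), (nat_lit 0x8045e0117), (nat_lit 6)⟩))
(.nd (.lf ⟨(nat_lit 519), (nat_lit 2), (nat_lit 0x5951c8), (nat_lit 4)⟩)
(.lf ⟨(nat_lit 0), (nat_lit 0), (nat_lit 0x21e6c879b), (nat_lit 6)⟩)))
(.nd (.nd (.lf ⟨(nat_lit 7), (nat_lit 1), (nat_lit 0x83083), (nat_lit 4)⟩)
(.lf ⟨(nat_lit 0x1289a485485692), (nat_lit 9), (nat_lit 0x9e49a482792692), (nat_lit 10)⟩))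
(.lf ⟨(nat_lit 0x111491152144452445485), (nat_lit 14), (nat_lit 0x111491152144452445485), (nat_lit 14)⟩))))))
(.nd (.nd (.nd (.nd (.nd (.nd (.lf ⟨(nat_lit 68), (nat_lit 2), (nat_lit 0x8101), (nat_lit 3)⟩)
(.lf ⟨(nat_lit 0x1661d), (nat_lit 3), (nat_lit 0x18758758758598), (nat_lit 9)⟩))
(.nd (.lf ⟨(nat_lit 0x11444e), (nat_lit 4), (nat_lit 0x44e51139444e114), (nat_lit 10)⟩)
(.lf ⟨(nat_lit 0x7d3), (nat_lit 2), (nat_lit 0x4df), (nat_lit 2)⟩)))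
(.nd (.nd (.lf ⟨(nat_lit 0x301301), (nat_lit 4), (nat_lit 0), (nat_lit 0)⟩)
(.lf ⟨(nat_lit 0), (nat_lit 0), (nat_lit 0xdd61d603758758), (nat_lit 10)⟩))
(.nd (.lf ⟨(nat_lit 0x12419), (nat_lit 3), (nat_lit 0x19490), (nat_lit 3)⟩)
(.lf ⟨(nat_lit 612), (nat_lit 2), (nat_lit 0x909), (nat_lit 2)⟩))))
(.nd (.nd (.nd (.lf ⟨(nat_lit 0x20a20a), (nat_lit 4), (nat_lit 0x288288), (nat_lit 4)⟩)
(.lf ⟨(nat_lit 0), (nat_lit 0), (nat_lit 0x112212204488488), (nat_lit 10)⟩))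
(.nd (.lf ⟨(nat_lit 0x8204065201944), (nat_lit 9), (nat_lit 0x8101948065108), (nat_lit 9)⟩)
(.lf ⟨(nat_lit 0x113a5), (nat_lit 3), (nat_lit 0x1138695138694694696544e), (nat_lit 15)⟩)))
(.nd (.nd (.lf ⟨(nat_lit 0x14a14a), (nat_lit 4), (nat_lit 0x285285), (nat_lit 4)⟩)
(.lf ⟨(nat_lit 0x75e), (nat_lit 2), (nat_lit 0x79d), (nat_lit 2)⟩))
(.lf ⟨(nat_lit 0x3d03d4), (nat_lit 4), (nat_lit 0x41440f40f), (nat_lit 6)⟩))))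
(.nd (.nd (.nd (.nd (.lf ⟨(nat_lit 139), (nat_lit 2), (nat_lit 0x18b18b18b182), (nat_lit 8)⟩)
(.lf ⟨(nat_lit 0x9e49a592542792696495), (nat_lit 14), (nat_lit 0x9e49a592542792696495), (nat_lit 14)⟩))
(.nd (.lf ⟨(nat_lit 0x385385), (nat_lit 4), (nat_lit 0x14e14e), (nat_lit 4)⟩)
(.lf ⟨(nat_lit 478), (nat_lit 2), (nat_lit 0x79a48f48f31031a407), (nat_lit 12)⟩)))
(.nd (.nd (.lf ⟨(nat_lit 715), (nat_lit 2), (nat_lit 0), (nat_lit 0)⟩)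
(.lf ⟨(nat_lit 0x75c), (nat_lit 2), (nat_lit 0x4e04e), (nat_lit 4)⟩))
(.nd (.lf ⟨(nat_lit 0x190199), (nat_lit 4), (nat_lit 0x499486406), (nat_lit 6)⟩)
(.lf ⟨(nat_lit 0x59e), (nat_lit 2), (nat_lit 0x796), (nat_lit 2)⟩))))
(.nd (.nd (.nd (.lf ⟨(nat_lit 0x49f), (nat_lit 2), (nat_lit 0x7d2), (nat_lit 2)⟩)
(.lf ⟨(nat_lit 0), (nat_lit 0), (nat_lit 0x1c21c2), (nat_lit 4)⟩))
(.nd (.lf ⟨(nat_lit 0x7e4), (nat_lit 2), (nat_lit 0x91f), (nat_lit 2)⟩)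
(.lf ⟨(nat_lit 0), (nat_lit 0), (nat_lit 0x3ca3df3ca3df), (nat_lit 8)⟩)))
(.nd (.nd (.lf ⟨(nat_lit 0x189189), (nat_lit 4), (nat_lit 0x246246), (nat_lit 4)⟩)
(.lf ⟨(nat_lit 0x5cf4173d05d03d05cf), (nat_lit 12), (nat_lit 0x8f40f1901823d03c6406), (nat_lit 14)⟩))
(.lf ⟨(nat_lit 0xcb0cb), (nat_lit 4), (nat_lit 0xcb0cb), (nat_lit 4)⟩)))))
(.nd (.nd (.nd (.nd (.nd (.lf ⟨(nat_lit 0x52052), (nat_lit 4), (nat_lit 0x481481), (nat_lit 4)⟩)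
(.lf ⟨(nat_lit 0), (nat_lit 0), (nat_lit 0x1c71c7), (nat_lit 4)⟩))
(.nd (.lf ⟨(nat_lit 0x49155141155141245545045545041245545045545049155141155141), (nat_lit 38), (nat_lit 0x49155141155141245545045545041245545045545049155141155141), (nat_lit 38)⟩)
(.lf ⟨(nat_lit 0), (nat_lit 0), (nat_lit 0x29854a615), (nat_lit 6)⟩)))
(.nd (.nd (.lf ⟨(nat_lit 0x2421c32421c3), (nat_lit 8), (nat_lit 0x1c32421c3242), (nat_lit 8)⟩)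
(.lf ⟨(nat_lit 739), (nat_lit 2), (nat_lit 0x5138d44cb), (nat_lit 6)⟩))
(.nd (.lf ⟨(nat_lit 0x1d58e256389389389), (nat_lit 11), (nat_lit 0x1638958e24e24e25d), (nat_lit 11)⟩)
(.lf ⟨(nat_lit 227), (nat_lit 2), (nat_lit 0x1e31c3), (nat_lit 4)⟩))))
(.nd (.nd (.nd (.lf ⟨(nat_lit 269), (nat_lit 2), (nat_lit 0x24824d204), (nat_lit 6)⟩)
(.lf ⟨(nat_lit 859), (nat_lit 2), (nat_lit 0x79d79d3db3cd), (nat_lit 8)⟩))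
(.nd (.lf ⟨(nat_lit 0x1431502454090c54091502450c5409150243150245409), (nat_lit 30), (nat_lit 0x1431502454090c54091502450c5409150243150245409), (nat_lit 30)⟩)
(.lf ⟨(nat_lit 99), (nat_lit 2), (nat_lit 0x2795e7524632858d234a22375b463348141), (nat_lit 23)⟩)))
(.nd (.nd (.lf ⟨(nat_lit 0x5c95d7257), (nat_lit 6), (nat_lit 0), (nat_lit 0)⟩)
(.lf ⟨(nat_lit 916), (nat_lit 2), (nat_lit 0x50e), (nat_lit 2)⟩))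
(.lf ⟨(nat_lit 0), (nat_lit 0), (nat_lit 0x28e28e), (nat_lit 4)⟩))))
(.nd (.nd (.nd (.nd (.lf ⟨(nat_lit 0x142101142101), (nat_lit 8), (nat_lit 0x44142044142), (nat_lit 8)⟩)
(.lf ⟨(nat_lit 0xb79b), (nat_lit 3), (nat_lit 0xc79b30b), (nat_lit 5)⟩))
(.nd (.lf ⟨(nat_lit 0x18270270609c09c), (nat_lit 10), (nat_lit 0x18270270609c09c), (nat_lit 10)⟩)
(.lf ⟨(nat_lit 0x144d8), (nat_lit 3), (nat_lit 0x18513), (nat_lit 3)⟩)))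
(.nd (.nd (.lf ⟨(nat_lit 9), (nat_lit 1), (nat_lit 0x102102), (nat_lit 4)⟩)
(.lf ⟨(nat_lit 0x59c), (nat_lit 2), (nat_lit 0x716), (nat_lit 2)⟩))
(.nd (.lf ⟨(nat_lit 0x48d21234848848848d212348488488), (nat_lit 20), (nat_lit 0), (nat_lit 0)⟩)
(.lf ⟨(nat_lit 0), (nat_lit 0), (nat_lit 0x4c28c28130a30a), (nat_lit 10)⟩))))
(.nd (.nd (.nd (.lf ⟨(nat_lit 534), (nat_lit 2), (nat_lit 0x58e34e348), (nat_lit 6)⟩)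
(.lf ⟨(nat_lit 0x30d30d30d30d), (nat_lit 8), (nat_lit 0), (nat_lit 0)⟩))
(.nd (.lf ⟨(nat_lit 277), (nat_lit 2), (nat_lit 0x55955934a55934a34840d21025534e34954d399344), (nat_lit 28)⟩)
(.lf ⟨(nat_lit 0xc182632780930906098c9e024c24306098c9e024c241826327809309), (nat_lit 38), (nat_lit 0xc182632780930906098c9e024c24306098c9e024c241826327809309), (nat_lit 38)⟩)))
(.nd (.nd (.lf ⟨(nat_lit 144), (nat_lit 2), (nat_lit 0x81f402), (nat_lit 4)⟩)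
(.lf ⟨(nat_lit 848), (nat_lit 2), (nat_lit 0x40d), (nat_lit 2)⟩))
(.lf ⟨(nat_lit 0x539e), (nat_lit 3), (nat_lit 0xe79645644e15645644e), (nat_lit 13)⟩))))))))
(.nd (.nd (.nd (.nd (.nd (.nd (.nd (.nd (.lf ⟨(nat_lit 11), (nat_lit 1), (nat_lit 0x86086), (nat_lit 4)⟩)
(.lf ⟨(nat_lit 0x81e81e9e071e9e079c), (nat_lit 12), (nat_lit 0x94195c94195c), (nat_lit 8)⟩))
(.nd (.lf ⟨(nat_lit 0x72d4), (nat_lit 3), (nat_lit 0xb50b1cb), (nat_lit 5)⟩)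
(.lf ⟨(nat_lit 661), (nat_lit 2), (nat_lit 0x54a), (nat_lit 2)⟩)))
(.nd (.nd (.lf ⟨(nat_lit 261), (nat_lit 2), (nat_lit 0x83c914d259204), (nat_lit 9)⟩)
(.lf ⟨(nat_lit 0x144de), (nat_lit 3), (nat_lit 0x1e513), (nat_lit 3)⟩))
(.nd (.lf ⟨(nat_lit 0), (nat_lit 0), (nat_lit 0x252409490), (nat_lit 6)⟩)
(.lf ⟨(nat_lit 0x5e6), (nat_lit 2), (nat_lit 0x997), (nat_lit 2)⟩))))
(.nd (.nd (.nd (.lf ⟨(nat_lit 525), (nat_lit 2), (nat_lit 840), (nat_lit 2)⟩)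
(.lf ⟨(nat_lit 0), (nat_lit 0), (nat_lit 0x4e14e141385385), (nat_lit 10)⟩))
(.nd (.lf ⟨(nat_lit 0x19115115), (nat_lit 5), (nat_lit 0x4544559), (nat_lit 5)⟩)
(.lf ⟨(nat_lit 0x61579b), (nat_lit 4), (nat_lit 0x79b615), (nat_lit 4)⟩)))
(.nd (.nd (.lf ⟨(nat_lit 0x82cd), (nat_lit 3), (nat_lit 0xb34b20b), (nat_lit 5)⟩)
(.lf ⟨(nat_lit 0xa3d5), (nat_lit 3), (nat_lit 0xf54f28f), (nat_lit 5)⟩))
(.nd (.lf ⟨(nat_lit 0xf48d212348488488), (nat_lit 11), (nat_lit 0x1234848d21221220f), (nat_lit 11)⟩)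
(.lf ⟨(nat_lit 0x105103143), (nat_lit 6), (nat_lit 0xc50c4144), (nat_lit 6)⟩)))))
(.nd (.nd (.nd (.nd (.lf ⟨(nat_lit 0x9a6), (nat_lit 2), (nat_lit 0), (nat_lit 0)⟩)
(.lf ⟨(nat_lit 0), (nat_lit 0), (nat_lit 0xc30c3), (nat_lit 4)⟩))
(.nd (.lf ⟨(nat_lit 0x294294), (nat_lit 4), (nat_lit 0x50a50a), (nat_lit 4)⟩)
(.lf ⟨(nat_lit 0x6a5), (nat_lit 2), (nat_lit 0x9e56a7), (nat_lit 4)⟩)))
(.nd (.nd (.lf ⟨(nat_lit 269), (nat_lit 2), (nat_lit 0x19344), (nat_lit 3)⟩)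
(.lf ⟨(nat_lit 416), (nat_lit 2), (nat_lit 0x810450446), (nat_lit 6)⟩))
(.nd (.lf ⟨(nat_lit 0x592), (nat_lit 2), (nat_lit 0x496), (nat_lit 2)⟩)
(.lf ⟨(nat_lit 738), (nat_lit 2), (nat_lit 0x88b), (nat_lit 2)⟩))))
(.nd (.nd (.nd (.lf ⟨(nat_lit 148), (nat_lit 2), (nat_lit 0xb18750c1c51851c50d33072c61c51850c550c1d3302), (nat_lit 29)⟩)
(.lf ⟨(nat_lit 0xf490), (nat_lit 3), (nat_lit 0x979269225e49a49240f), (nat_lit 13)⟩))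
(.nd (.lf ⟨(nat_lit 408), (nat_lit 2), (nat_lit 0x606), (nat_lit 2)⟩)
(.lf ⟨(nat_lit 0x1142c450b), (nat_lit 6), (nat_lit 0x1142c450b), (nat_lit 6)⟩)))
(.nd (.nd (.lf ⟨(nat_lit 0x71d), (nat_lit 2), (nat_lit 0x75c), (nat_lit 2)⟩)
(.lf ⟨(nat_lit 405), (nat_lit 2), (nat_lit 0x546), (nat_lit 2)⟩))
(.lf ⟨(nat_lit 0x1d29654a595), (nat_lit 7), (nat_lit 0xa59529655d), (nat_lit 7)⟩)))))
(.nd (.nd (.nd (.nd (.nd (.lf ⟨(nat_lit 201), (nat_lit 2), (nat_lit 0x10243), (nat_lit 3)⟩)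
(.lf ⟨(nat_lit 0x549c), (nat_lit 3), (nat_lit 0x1149c491152), (nat_lit 7)⟩))
(.nd (.lf ⟨(nat_lit 0xb6d1591), (nat_lit 5), (nat_lit 0x1b45644b), (nat_lit 5)⟩)
(.lf ⟨(nat_lit 799), (nat_lit 2), (nat_lit 0x7cc), (nat_lit 2)⟩)))
(.nd (.nd (.lf ⟨(nat_lit 350), (nat_lit 2), (nat_lit 0x785), (nat_lit 2)⟩)
(.lf ⟨(nat_lit 0x938d), (nat_lit 3), (nat_lit 0xe34e24e), (nat_lit 5)⟩))
(.nd (.lf ⟨(nat_lit 0xc581f1607c31607c581f), (nat_lit 14), (nat_lit 0xc581f1607c31607c581f), (nat_lit 14)⟩)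
(.lf ⟨(nat_lit 670), (nat_lit 2), (nat_lit 0x78a), (nat_lit 2)⟩))))
(.nd (.nd (.nd (.lf ⟨(nat_lit 0x388388), (nat_lit 4), (nat_lit 0), (nat_lit 0)⟩)
(.lf ⟨(nat_lit 0x765), (nat_lit 2), (nat_lit 0x95d), (nat_lit 2)⟩))
(.nd (.lf ⟨(nat_lit 0x19219e), (nat_lit 4), (nat_lit 0x786486), (nat_lit 4)⟩)
(.lf ⟨(nat_lit 0x422), (nat_lit 2), (nat_lit 0x81f8a07d0), (nat_lit 6)⟩)))
(.nd (.nd (.lf ⟨(nat_lit 0x1c81c8), (nat_lit 4), (nat_lit 0x1c81c8), (nat_lit 4)⟩)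
(.lf ⟨(nat_lit 603), (nat_lit 2), (nat_lit 0x6c9), (nat_lit 2)⟩))
(.lf ⟨(nat_lit 0x7a07a0), (nat_lit 4), (nat_lit 0x81e81e), (nat_lit 4)⟩))))
(.nd (.nd (.nd (.nd (.lf ⟨(nat_lit 0x1c2047081), (nat_lit 6), (nat_lit 0x470811c2), (nat_lit 6)⟩)
(.lf ⟨(nat_lit 791), (nat_lit 2), (nat_lit 0x5cc), (nat_lit 2)⟩))
(.nd (.lf ⟨(nat_lit 0x83603), (nat_lit 4), (nat_lit 0x173c70d73c70d80d80c2), (nat_lit 13)⟩)
(.lf ⟨(nat_lit 794), (nat_lit 2), (nat_lit 0x68c), (nat_lit 2)⟩)))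
(.nd (.nd (.lf ⟨(nat_lit 913), (nat_lit 2), (nat_lit 0x44e), (nat_lit 2)⟩)
(.lf ⟨(nat_lit 0x456452), (nat_lit 4), (nat_lit 0x491591), (nat_lit 4)⟩))
(.nd (.lf ⟨(nat_lit 0x6a0), (nat_lit 2), (nat_lit 0x81a), (nat_lit 2)⟩)
(.lf ⟨(nat_lit 294), (nat_lit 2), (nat_lit 0x984), (nat_lit 2)⟩))))
(.nd (.nd (.nd (.lf ⟨(nat_lit 0x42c6), (nat_lit 3), (nat_lit 0x844a18e20a10b), (nat_lit 9)⟩)
(.lf ⟨(nat_lit 0x60101804), (nat_lit 6), (nat_lit 0x60101804), (nat_lit 6)⟩))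
(.nd (.lf ⟨(nat_lit 469), (nat_lit 2), (nat_lit 0x547), (nat_lit 2)⟩)
(.lf ⟨(nat_lit 0), (nat_lit 0), (nat_lit 0xe69039a4), (nat_lit 6)⟩)))
(.nd (.nd (.lf ⟨(nat_lit 23), (nat_lit 1), (nat_lit 0x245245), (nat_lit 4)⟩)
(.lf ⟨(nat_lit 0), (nat_lit 0), (nat_lit 0x449454449454), (nat_lit 8)⟩))
(.lf ⟨(nat_lit 321), (nat_lit 2), (nat_lit 69), (nat_lit 2)⟩))))))
(.nd (.nd (.nd (.nd (.nd (.nd (.lf ⟨(nat_lit 0x43043), (nat_lit 4), (nat_lit 0xc10c1), (nat_lit 4)⟩)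
(.lf ⟨(nat_lit 75), (nat_lit 2), (nat_lit 0x50c2d3301), (nat_lit 6)⟩))
(.nd (.lf ⟨(nat_lit 20), (nat_lit 1), (nat_lit 0x187187), (nat_lit 4)⟩)
(.lf ⟨(nat_lit 0x51de1de), (nat_lit 5), (nat_lit 0x7787785), (nat_lit 5)⟩)))
(.nd (.nd (.lf ⟨(nat_lit 0x14f248), (nat_lit 4), (nat_lit 0x193c9205359359), (nat_lit 9)⟩)
(.lf ⟨(nat_lit 0x390210388), (nat_lit 6), (nat_lit 0x210210), (nat_lit 4)⟩))
(.nd (.lf ⟨(nat_lit 0x181f), (nat_lit 3), (nat_lit 0x930930f1cf1e07c1), (nat_lit 11)⟩)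
(.lf ⟨(nat_lit 934), (nat_lit 2), (nat_lit 0x5a65a65a658e), (nat_lit 8)⟩))))
(.nd (.nd (.nd (.lf ⟨(nat_lit 0x18a18a), (nat_lit 4), (nat_lit 0x286286), (nat_lit 4)⟩)
(.lf ⟨(nat_lit 0x4dd), (nat_lit 2), (nat_lit 0x753), (nat_lit 2)⟩))
(.nd (.lf ⟨(nat_lit 0x60060), (nat_lit 4), (nat_lit 0x60060), (nat_lit 4)⟩)
(.lf ⟨(nat_lit 0x10628491e28492578628491e28492578418a12478a12495e18a12478a12495e), (nat_lit 42), (nat_lit 0x10628491e28492578628491e28492578418a12478a12495e18a12478a12495e), (nat_lit 42)⟩)))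
(.nd (.nd (.lf ⟨(nat_lit 0x143843143843), (nat_lit 8), (nat_lit 0x143843143843), (nat_lit 8)⟩)
(.lf ⟨(nat_lit 980), (nat_lit 2), (nat_lit 0x50f), (nat_lit 2)⟩))
(.lf ⟨(nat_lit 0x24c40f), (nat_lit 4), (nat_lit 0x3103d0309310), (nat_lit 8)⟩))))
(.nd (.nd (.nd (.nd (.lf ⟨(nat_lit 0x108108), (nat_lit 4), (nat_lit 0x204204), (nat_lit 4)⟩)
(.lf ⟨(nat_lit 0x6d159a6116d159a611), (nat_lit 12), (nat_lit 0), (nat_lit 0)⟩))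
(.nd (.lf ⟨(nat_lit 0x58e156385385385), (nat_lit 10), (nat_lit 0x8e14e142385385), (nat_lit 10)⟩)
(.lf ⟨(nat_lit 0x413), (nat_lit 2), (nat_lit 0x4d0), (nat_lit 2)⟩)))
(.nd (.nd (.lf ⟨(nat_lit 0x492), (nat_lit 2), (nat_lit 0), (nat_lit 0)⟩)
(.lf ⟨(nat_lit 0), (nat_lit 0), (nat_lit 0x40a40a), (nat_lit 4)⟩))
(.nd (.lf ⟨(nat_lit 0x641d), (nat_lit 3), (nat_lit 0x10750190), (nat_lit 5)⟩)
(.lf ⟨(nat_lit 805), (nat_lit 2), (nat_lit 0x95655e59578c), (nat_lit 8)⟩))))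
(.nd (.nd (.nd (.lf ⟨(nat_lit 983), (nat_lit 2), (nat_lit 0x5cf), (nat_lit 2)⟩)
(.lf ⟨(nat_lit 0x2144c85132144c8513), (nat_lit 12), (nat_lit 0x1885132144c62144c8513), (nat_lit 14)⟩))
(.nd (.lf ⟨(nat_lit 0x454454), (nat_lit 4), (nat_lit 0x511511), (nat_lit 4)⟩)
(.lf ⟨(nat_lit 295), (nat_lit 2), (nat_lit 0x9c4), (nat_lit 2)⟩)))
(.nd (.nd (.lf ⟨(nat_lit 0x246246), (nat_lit 4), (nat_lit 0x246246), (nat_lit 4)⟩)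
(.lf ⟨(nat_lit 0xd44e), (nat_lit 3), (nat_lit 0x1138d), (nat_lit 3)⟩))
(.lf ⟨(nat_lit 15), (nat_lit 1), (nat_lit 0x25d049741), (nat_lit 6)⟩)))))
(.nd (.nd (.nd (.nd (.nd (.lf ⟨(nat_lit 0x6db), (nat_lit 2), (nat_lit 0), (nat_lit 0)⟩)
(.lf ⟨(nat_lit 0x4d9), (nat_lit 2), (nat_lit 0x653), (nat_lit 2)⟩))
(.nd (.lf ⟨(nat_lit 330), (nat_lit 2), (nat_lit 0x79b285), (nat_lit 4)⟩)
(.lf ⟨(nat_lit 352), (nat_lit 2), (nat_lit 0x8123d23c5), (nat_lit 6)⟩)))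
(.nd (.nd (.lf ⟨(nat_lit 0x201142201142), (nat_lit 8), (nat_lit 0x142201142201), (nat_lit 8)⟩)
(.lf ⟨(nat_lit 137), (nat_lit 2), (nat_lit 578), (nat_lit 2)⟩))
(.nd (.lf ⟨(nat_lit 0x74e25d38938938974e25d389389389), (nat_lit 20), (nat_lit 0), (nat_lit 0)⟩)
(.lf ⟨(nat_lit 0x766), (nat_lit 2), (nat_lit 0x99d), (nat_lit 2)⟩))))
(.nd (.nd (.nd (.lf ⟨(nat_lit 0x107409), (nat_lit 4), (nat_lit 0x2474092872441ca), (nat_lit 10)⟩)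
(.lf ⟨(nat_lit 615), (nat_lit 2), (nat_lit 0x667649), (nat_lit 4)⟩))
(.nd (.lf ⟨(nat_lit 166), (nat_lit 2), (nat_lit 0x1667c60e67de4912a67de4912941cb4cc1c519f0c2), (nat_lit 28)⟩)
(.lf ⟨(nat_lit 923), (nat_lit 2), (nat_lit 0x6d679859e60e), (nat_lit 8)⟩)))
(.nd (.nd (.lf ⟨(nat_lit 0x964915764f2455cf), (nat_lit 11), (nat_lit 0x192455d93c91573c9), (nat_lit 11)⟩)
(.lf ⟨(nat_lit 0x1530b), (nat_lit 3), (nat_lit 0xc2d5), (nat_lit 3)⟩))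
(.lf ⟨(nat_lit 0x5de), (nat_lit 2), (nat_lit 0x797), (nat_lit 2)⟩))))
(.nd (.nd (.nd (.nd (.lf ⟨(nat_lit 0x1420c11420c1), (nat_lit 8), (nat_lit 0x43142043142), (nat_lit 8)⟩)
(.lf ⟨(nat_lit 0x452445485), (nat_lit 6), (nat_lit 0x5e6c179b), (nat_lit 6)⟩))
(.nd (.lf ⟨(nat_lit 0x649c), (nat_lit 3), (nat_lit 0x12712192), (nat_lit 5)⟩)
(.lf ⟨(nat_lit 0x30b1503102c5), (nat_lit 8), (nat_lit 0xd0150143405405), (nat_lit 10)⟩)))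
(.nd (.nd (.lf ⟨(nat_lit 0x1cb2442d24072c910b), (nat_lit 12), (nat_lit 0x1cb2442c41cb2442c4), (nat_lit 12)⟩)
(.lf ⟨(nat_lit 0x41b456), (nat_lit 4), (nat_lit 0x6d1591411), (nat_lit 6)⟩))
(.nd (.lf ⟨(nat_lit 0x657), (nat_lit 2), (nat_lit 0x4d04d), (nat_lit 4)⟩)
(.lf ⟨(nat_lit 0x4c20430810130810c204), (nat_lit 14), (nat_lit 0x4c20430810130810c204), (nat_lit 14)⟩))))
(.nd (.nd (.nd (.lf ⟨(nat_lit 76), (nat_lit 2), (nat_lit 769), (nat_lit 2)⟩)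
(.lf ⟨(nat_lit 769), (nat_lit 2), (nat_lit 76), (nat_lit 2)⟩))
(.nd (.lf ⟨(nat_lit 0), (nat_lit 0), (nat_lit 0x78679e19e), (nat_lit 6)⟩)
(.lf ⟨(nat_lit 0x406406), (nat_lit 4), (nat_lit 0x58058), (nat_lit 4)⟩)))
(.nd (.nd (.lf ⟨(nat_lit 0x7e0), (nat_lit 2), (nat_lit 0x81f), (nat_lit 2)⟩)
(.lf ⟨(nat_lit 0x49a49d), (nat_lit 4), (nat_lit 0x752692), (nat_lit 4)⟩))
(.lf ⟨(nat_lit 0x6dd), (nat_lit 2), (nat_lit 0x79d79b), (nat_lit 4)⟩)))))))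
(.nd (.nd (.nd (.nd (.nd (.nd (.nd (.lf ⟨(nat_lit 27), (nat_lit 1), (nat_lit 0x91091), (nat_lit 4)⟩)
(.lf ⟨(nat_lit 0x94195c), (nat_lit 4), (nat_lit 0x81e81e9e071e9e079c725065), (nat_lit 16)⟩))
(.nd (.lf ⟨(nat_lit 0x81c28873481e21c2), (nat_lit 11), (nat_lit 0x2070a21c22070a21c2), (nat_lit 12)⟩)
(.lf ⟨(nat_lit 0x1de1de), (nat_lit 4), (nat_lit 0x1de1de), (nat_lit 4)⟩)))
(.nd (.nd (.lf ⟨(nat_lit 167), (nat_lit 2), (nat_lit 0x14f25e49128f25e491285802), (nat_lit 16)⟩)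
(.lf ⟨(nat_lit 0x112ca2ca), (nat_lit 5), (nat_lit 0xb28b291), (nat_lit 5)⟩))
(.nd (.lf ⟨(nat_lit 0x1d91d91d91d9), (nat_lit 8), (nat_lit 0), (nat_lit 0)⟩)
(.lf ⟨(nat_lit 0x425), (nat_lit 2), (nat_lit 0x6a76a7950), (nat_lit 6)⟩))))
(.nd (.nd (.nd (.lf ⟨(nat_lit 0x383383), (nat_lit 4), (nat_lit 0), (nat_lit 0)⟩)
(.lf ⟨(nat_lit 0x516), (nat_lit 2), (nat_lit 0x594), (nat_lit 2)⟩))
(.nd (.lf ⟨(nat_lit 217), (nat_lit 2), (nat_lit 0x29934a55955934a54a115103), (nat_lit 16)⟩)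
(.lf ⟨(nat_lit 0x979b), (nat_lit 3), (nat_lit 0x1e6c9), (nat_lit 3)⟩)))
(.nd (.nd (.lf ⟨(nat_lit 540), (nat_lit 2), (nat_lit 0x75c748), (nat_lit 4)⟩)
(.lf ⟨(nat_lit 0x5493), (nat_lit 3), (nat_lit 0x124d2152), (nat_lit 5)⟩))
(.lf ⟨(nat_lit 20), (nat_lit 1), (nat_lit 0xcc0cc), (nat_lit 4)⟩))))
(.nd (.nd (.nd (.nd (.lf ⟨(nat_lit 135), (nat_lit 2), (nat_lit 0xc70c70c70c2), (nat_lit 8)⟩)
(.lf ⟨(nat_lit 0x901904901904), (nat_lit 8), (nat_lit 0x901904901904), (nat_lit 8)⟩))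
(.nd (.lf ⟨(nat_lit 0x1a21831856856860c615a15a1868860c615a15a183185685686), (nat_lit 34), (nat_lit 0x1a21831856856860c615a15a1868860c615a15a183185685686), (nat_lit 34)⟩)
(.lf ⟨(nat_lit 484), (nat_lit 2), (nat_lit 0x907), (nat_lit 2)⟩)))
(.nd (.nd (.lf ⟨(nat_lit 328), (nat_lit 2), (nat_lit 0x3cd3cd248149), (nat_lit 8)⟩)
(.lf ⟨(nat_lit 0x640c), (nat_lit 3), (nat_lit 0x207ce3ce3ce3d038c81f40e3ce3ce3ce190), (nat_lit 23)⟩))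
(.nd (.lf ⟨(nat_lit 0x45a), (nat_lit 2), (nat_lit 0x691), (nat_lit 2)⟩)
(.lf ⟨(nat_lit 0x723), (nat_lit 2), (nat_lit 0x8dc), (nat_lit 2)⟩))))
(.nd (.nd (.nd (.lf ⟨(nat_lit 0x9290), (nat_lit 3), (nat_lit 0xa40a24a), (nat_lit 5)⟩)
(.lf ⟨(nat_lit 99), (nat_lit 2), (nat_lit 0x75e7579e581e81e75235129734548a3488de75e75b9e579d79128d288141), (nat_lit 40)⟩))
(.nd (.lf ⟨(nat_lit 806), (nat_lit 2), (nat_lit 0x98c), (nat_lit 2)⟩)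
(.lf ⟨(nat_lit 0x81f4902673c938a3ca24e), (nat_lit 14), (nat_lit 0x9cf24e28f2893a07d2409), (nat_lit 14)⟩)))
(.nd (.nd (.lf ⟨(nat_lit 166), (nat_lit 2), (nat_lit 0x599f18399f79244a99f79244a5072cc1471a07e07e07e07e07e07e07e00c2), (nat_lit 41)⟩)
(.lf ⟨(nat_lit 341), (nat_lit 2), (nat_lit 0x54d30d305), (nat_lit 6)⟩))
(.lf ⟨(nat_lit 0x7c87c8095095), (nat_lit 8), (nat_lit 0x950957c87c8), (nat_lit 8)⟩)))))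
(.nd (.nd (.nd (.nd (.nd (.lf ⟨(nat_lit 0x8e08e), (nat_lit 4), (nat_lit 0x382382), (nat_lit 4)⟩)
(.lf ⟨(nat_lit 723), (nat_lit 2), (nat_lit 0x4cb), (nat_lit 2)⟩))
(.nd (.lf ⟨(nat_lit 0xa14a15e), (nat_lit 5), (nat_lit 0x1e285285), (nat_lit 5)⟩)
(.lf ⟨(nat_lit 659), (nat_lit 2), (nat_lit 0x4ca), (nat_lit 2)⟩)))
(.nd (.nd (.lf ⟨(nat_lit 0x781781), (nat_lit 4), (nat_lit 0), (nat_lit 0)⟩)
(.lf ⟨(nat_lit 0x913c944f25125124244f2513c9449449), (nat_lit 22), (nat_lit 0x913c944f25125124244f2513c9449449), (nat_lit 22)⟩))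
(.nd (.lf ⟨(nat_lit 0), (nat_lit 0), (nat_lit 0xdd0dd), (nat_lit 4)⟩)
(.lf ⟨(nat_lit 0), (nat_lit 0), (nat_lit 0x349349), (nat_lit 4)⟩))))
(.nd (.nd (.nd (.lf ⟨(nat_lit 0x1ce1ce), (nat_lit 4), (nat_lit 0x387387), (nat_lit 4)⟩)
(.lf ⟨(nat_lit 357), (nat_lit 2), (nat_lit 0x95e75e745), (nat_lit 6)⟩))
(.nd (.lf ⟨(nat_lit 0x4a691f), (nat_lit 4), (nat_lit 0x7d29a4), (nat_lit 4)⟩)
(.lf ⟨(nat_lit 276), (nat_lit 2), (nat_lit 0x2692075b61d62779d61679875695245246375b61d62775679d61679894f8cf38d4509db95245228f8db94a3e334a24e2ca24b1c6407184), (nat_lit 73)⟩)))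
(.nd (.nd (.lf ⟨(nat_lit 0x4901c81c8), (nat_lit 6), (nat_lit 0x1c81c8490), (nat_lit 6)⟩)
(.lf ⟨(nat_lit 0), (nat_lit 0), (nat_lit 0x15e48b79215e48b792), (nat_lit 12)⟩))
(.lf ⟨(nat_lit 463), (nat_lit 2), (nat_lit 0x80f7cc81f3207cf30f2667e77cc81f247), (nat_lit 22)⟩))))
(.nd (.nd (.nd (.nd (.lf ⟨(nat_lit 0x3146), (nat_lit 3), (nat_lit 0x51850c5), (nat_lit 5)⟩)
(.lf ⟨(nat_lit 0x39a4), (nat_lit 3), (nat_lit 0x2691139045f3902d02df403), (nat_lit 15)⟩))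
(.nd (.lf ⟨(nat_lit 0x28b28b), (nat_lit 4), (nat_lit 0x2ca2ca), (nat_lit 4)⟩)
(.lf ⟨(nat_lit 0x26098c1e78093091c98263079e024c247), (nat_lit 22), (nat_lit 0x26098c1e78093091c98263079e024c247), (nat_lit 22)⟩)))
(.nd (.nd (.lf ⟨(nat_lit 263), (nat_lit 2), (nat_lit 0x4901c4), (nat_lit 4)⟩)
(.lf ⟨(nat_lit 0x520), (nat_lit 2), (nat_lit 0x814), (nat_lit 2)⟩))
(.nd (.lf ⟨(nat_lit 992), (nat_lit 2), (nat_lit 0x80f), (nat_lit 2)⟩)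
(.lf ⟨(nat_lit 291), (nat_lit 2), (nat_lit 0x8c4), (nat_lit 2)⟩))))
(.nd (.nd (.nd (.lf ⟨(nat_lit 0x153307), (nat_lit 4), (nat_lit 0xc1c5), (nat_lit 3)⟩)
(.lf ⟨(nat_lit 0x38f34e3cd), (nat_lit 6), (nat_lit 0x10e14e144385385), (nat_lit 10)⟩))
(.nd (.lf ⟨(nat_lit 0x2452663c99852663c998914998f26614998f266), (nat_lit 26), (nat_lit 0x2452663c99852663c998914998f26614998f266), (nat_lit 26)⟩)
(.lf ⟨(nat_lit 0x79b9e5), (nat_lit 4), (nat_lit 0x9e579b), (nat_lit 4)⟩)))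
(.nd (.nd (.lf ⟨(nat_lit 0), (nat_lit 0), (nat_lit 0x89089), (nat_lit 4)⟩)
(.lf ⟨(nat_lit 0x1e81f), (nat_lit 3), (nat_lit 0x207de), (nat_lit 3)⟩))
(.lf ⟨(nat_lit 0x5dd), (nat_lit 2), (nat_lit 0x65d657), (nat_lit 4)⟩))))))
(.nd (.nd (.nd (.nd (.nd (.nd (.lf ⟨(nat_lit 715), (nat_lit 2), (nat_lit 0), (nat_lit 0)⟩)
(.lf ⟨(nat_lit 278), (nat_lit 2), (nat_lit 0x1d61d61624e8c9384), (nat_lit 11)⟩))
(.nd (.lf ⟨(nat_lit 0), (nat_lit 0), (nat_lit 0x46046), (nat_lit 4)⟩)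
(.lf ⟨(nat_lit 0x8a30b28c2c228c2ca30b), (nat_lit 14), (nat_lit 0x8a30b28c2c228c2ca30b), (nat_lit 14)⟩)))
(.nd (.nd (.lf ⟨(nat_lit 0x3c13c1), (nat_lit 4), (nat_lit 0), (nat_lit 0)⟩)
(.lf ⟨(nat_lit 912), (nat_lit 2), (nat_lit 0x40e), (nat_lit 2)⟩))
(.nd (.lf ⟨(nat_lit 0x26799f), (nat_lit 4), (nat_lit 0x81f2679a0), (nat_lit 6)⟩)
(.lf ⟨(nat_lit 0xde69654379a595), (nat_lit 10), (nat_lit 0xde69654379a595), (nat_lit 10)⟩))))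
(.nd (.nd (.nd (.lf ⟨(nat_lit 218), (nat_lit 2), (nat_lit 0x28438840469044a20419029c44a71129c44a711106403), (nat_lit 30)⟩)
(.lf ⟨(nat_lit 0x75e75e), (nat_lit 4), (nat_lit 0x79d79d), (nat_lit 4)⟩))
(.nd (.lf ⟨(nat_lit 0x804944), (nat_lit 4), (nat_lit 0x125120), (nat_lit 4)⟩)
(.lf ⟨(nat_lit 602), (nat_lit 2), (nat_lit 0x689), (nat_lit 2)⟩)))
(.nd (.nd (.lf ⟨(nat_lit 0), (nat_lit 0), (nat_lit 260), (nat_lit 2)⟩)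
(.lf ⟨(nat_lit 717), (nat_lit 2), (nat_lit 843), (nat_lit 2)⟩))
(.lf ⟨(nat_lit 0x61f), (nat_lit 2), (nat_lit 0x69f698), (nat_lit 4)⟩))))
(.nd (.nd (.nd (.nd (.lf ⟨(nat_lit 146), (nat_lit 2), (nat_lit 0x292292292282), (nat_lit 8)⟩)
(.lf ⟨(nat_lit 0x10f30f3043cc3cc), (nat_lit 10), (nat_lit 0x10f30f3043cc3cc), (nat_lit 10)⟩))
(.nd (.lf ⟨(nat_lit 0xc75c35c75c35c31d70d71d70d7), (nat_lit 18), (nat_lit 0xc75c35c75c35c31d70d71d70d7), (nat_lit 18)⟩)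
(.lf ⟨(nat_lit 0x3ca3ca), (nat_lit 4), (nat_lit 0x28f28f), (nat_lit 4)⟩)))
(.nd (.nd (.lf ⟨(nat_lit 0x80a80a), (nat_lit 4), (nat_lit 0), (nat_lit 0)⟩)
(.lf ⟨(nat_lit 0xc810c2c430b20430b10c2c320430b10c2c810c2c430b), (nat_lit 30), (nat_lit 0xc810c2c430b20430b10c2c320430b10c2c810c2c430b), (nat_lit 30)⟩))
(.nd (.lf ⟨(nat_lit 0x640a), (nat_lit 3), (nat_lit 0x41c40a190), (nat_lit 6)⟩)
(.lf ⟨(nat_lit 0x627), (nat_lit 2), (nat_lit 0x9d8), (nat_lit 2)⟩))))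
(.nd (.nd (.nd (.lf ⟨(nat_lit 0x6a2), (nat_lit 2), (nat_lit 0x89a), (nat_lit 2)⟩)
(.lf ⟨(nat_lit 387), (nat_lit 2), (nat_lit 198), (nat_lit 2)⟩))
(.nd (.lf ⟨(nat_lit 0x61a61a), (nat_lit 4), (nat_lit 0), (nat_lit 0)⟩)
(.lf ⟨(nat_lit 0x115104544), (nat_lit 6), (nat_lit 0x115104544), (nat_lit 6)⟩)))
(.nd (.nd (.lf ⟨(nat_lit 0x406406), (nat_lit 4), (nat_lit 0x190190), (nat_lit 4)⟩)
(.lf ⟨(nat_lit 0), (nat_lit 0), (nat_lit 0xd80c3603), (nat_lit 6)⟩))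
(.lf ⟨(nat_lit 0xb406406), (nat_lit 5), (nat_lit 0x1019018b), (nat_lit 5)⟩)))))
(.nd (.nd (.nd (.nd (.nd (.lf ⟨(nat_lit 274), (nat_lit 2), (nat_lit 0x20484), (nat_lit 3)⟩)
(.lf ⟨(nat_lit 0x4275c09d70109d70275c), (nat_lit 14), (nat_lit 0x4275c09d70109d70275c), (nat_lit 14)⟩))
(.nd (.lf ⟨(nat_lit 0x8a5de6ca5c229779b297), (nat_lit 14), (nat_lit 0x8a5de6ca5c229779b297), (nat_lit 14)⟩)
(.lf ⟨(nat_lit 0x479b), (nat_lit 3), (nat_lit 0xa3cd28f35e6c4), (nat_lit 9)⟩)))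
(.nd (.nd (.lf ⟨(nat_lit 521), (nat_lit 2), (nat_lit 0x19248), (nat_lit 3)⟩)
(.lf ⟨(nat_lit 0x567963), (nat_lit 4), (nat_lit 0x9e58d5), (nat_lit 4)⟩))
(.nd (.lf ⟨(nat_lit 0x1681f), (nat_lit 3), (nat_lit 0x207d6), (nat_lit 3)⟩)
(.lf ⟨(nat_lit 0x5a6), (nat_lit 2), (nat_lit 0x996), (nat_lit 2)⟩))))
(.nd (.nd (.nd (.lf ⟨(nat_lit 70), (nat_lit 2), (nat_lit 385), (nat_lit 2)⟩)
(.lf ⟨(nat_lit 215), (nat_lit 2), (nat_lit 0x207c75cf3207cc81f64f3278193cc81f3207cf30f99f9df3207d99df64c81f5d85cf3093091e260b24b243), (nat_lit 57)⟩))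
(.nd (.lf ⟨(nat_lit 75), (nat_lit 2), (nat_lit 0x1851852c1), (nat_lit 6)⟩)
(.lf ⟨(nat_lit 0x1245244e), (nat_lit 5), (nat_lit 0xcc20c0cc20c), (nat_lit 8)⟩)))
(.nd (.nd (.lf ⟨(nat_lit 0xe60e6), (nat_lit 4), (nat_lit 0xe60c30e60c3), (nat_lit 8)⟩)
(.lf ⟨(nat_lit 0x1520c2c830b), (nat_lit 7), (nat_lit 0x830b20c2d5), (nat_lit 7)⟩))
(.lf ⟨(nat_lit 0x48d48d), (nat_lit 4), (nat_lit 0x8d28d28234a34a), (nat_lit 10)⟩))))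
(.nd (.nd (.nd (.nd (.lf ⟨(nat_lit 153), (nat_lit 2), (nat_lit 0x834964f1091481052441573c934824520510564f1091173c2), (nat_lit 33)⟩)
(.lf ⟨(nat_lit 0x5486), (nat_lit 3), (nat_lit 0x11491513466912446152), (nat_lit 13)⟩))
(.nd (.lf ⟨(nat_lit 0x19e19e), (nat_lit 4), (nat_lit 0x786786), (nat_lit 4)⟩)
(.lf ⟨(nat_lit 0x3d23d0), (nat_lit 4), (nat_lit 0x40f48f), (nat_lit 4)⟩)))
(.nd (.nd (.lf ⟨(nat_lit 0x1495d9), (nat_lit 4), (nat_lit 0x657657645257), (nat_lit 8)⟩)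
(.lf ⟨(nat_lit 0x411), (nat_lit 2), (nat_lit 0x450), (nat_lit 2)⟩))
(.nd (.lf ⟨(nat_lit 0x2079221e488488488), (nat_lit 11), (nat_lit 0x1e488792212212220), (nat_lit 11)⟩)
(.lf ⟨(nat_lit 0x9e5408408), (nat_lit 6), (nat_lit 0x212408490), (nat_lit 6)⟩))))
(.nd (.nd (.nd (.lf ⟨(nat_lit 83), (nat_lit 2), (nat_lit 0x4c24cc1d3307081), (nat_lit 10)⟩)
(.lf ⟨(nat_lit 0), (nat_lit 0), (nat_lit 0x220220), (nat_lit 4)⟩))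
(.nd (.lf ⟨(nat_lit 217), (nat_lit 2), (nat_lit 0x34840d21025534e34954d399343), (nat_lit 18)⟩)
(.lf ⟨(nat_lit 0x5e69e6), (nat_lit 4), (nat_lit 0x9a79a79979a7), (nat_lit 8)⟩)))
(.nd (.nd (.lf ⟨(nat_lit 0x20d21f3487c87c87c83487cd21f21f21f), (nat_lit 22), (nat_lit 0x20d21f3487c87c87c83487cd21f21f21f), (nat_lit 22)⟩)
(.lf ⟨(nat_lit 0xc81f), (nat_lit 3), (nat_lit 0x207cc), (nat_lit 3)⟩))
(.lf ⟨(nat_lit 919), (nat_lit 2), (nat_lit 0x5ce), (nat_lit 2)⟩)))))))))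
(.nd (.nd (.nd (.nd (.nd (.nd (.nd (.nd (.nd (.lf ⟨(nat_lit 7), (nat_lit 1), (nat_lit 0x83083), (nat_lit 4)⟩)
(.lf ⟨(nat_lit 0x1a50651a5065), (nat_lit 8), (nat_lit 0x1a50651a5065), (nat_lit 8)⟩))
(.nd (.lf ⟨(nat_lit 0x94094), (nat_lit 4), (nat_lit 0x94094), (nat_lit 4)⟩)
(.lf ⟨(nat_lit 0x840d), (nat_lit 3), (nat_lit 0xd210), (nat_lit 3)⟩)))
(.nd (.nd (.lf ⟨(nat_lit 269), (nat_lit 2), (nat_lit 0xd644), (nat_lit 3)⟩)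
(.lf ⟨(nat_lit 0x705), (nat_lit 2), (nat_lit 0x19e6c679b2944ca51315c), (nat_lit 14)⟩))
(.nd (.lf ⟨(nat_lit 0x11e6c479b), (nat_lit 6), (nat_lit 0x11e6c479b), (nat_lit 6)⟩)
(.lf ⟨(nat_lit 0x9a7), (nat_lit 2), (nat_lit 0x9e6), (nat_lit 2)⟩))))
(.nd (.nd (.nd (.lf ⟨(nat_lit 0x1c31c3), (nat_lit 4), (nat_lit 0), (nat_lit 0)⟩)
(.lf ⟨(nat_lit 779), (nat_lit 2), (nat_lit 0xc50c5), (nat_lit 4)⟩))
(.nd (.lf ⟨(nat_lit 0x34a34a34a34a), (nat_lit 8), (nat_lit 0), (nat_lit 0)⟩)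
(.lf ⟨(nat_lit 280), (nat_lit 2), (nat_lit 0x9da6084279526a795d49a9e549a9e54884276e54636d87586d87589dd5a54636d69633ca3ca24e8e56e33ca3e32893a76cf28f284), (nat_lit 70)⟩)))
(.nd (.nd (.lf ⟨(nat_lit 0x20b20b), (nat_lit 4), (nat_lit 0x2c82c8), (nat_lit 4)⟩)
(.lf ⟨(nat_lit 465), (nat_lit 2), (nat_lit 0x1a40c79a49a49a49031228c48a98c792447), (nat_lit 23)⟩))
(.nd (.lf ⟨(nat_lit 0x1e657), (nat_lit 3), (nat_lit 0x195de), (nat_lit 3)⟩)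
(.lf ⟨(nat_lit 96), (nat_lit 2), (nat_lit 0x258cf28f2a7963408408801), (nat_lit 15)⟩)))))
(.nd (.nd (.nd (.nd (.lf ⟨(nat_lit 0x11e11e), (nat_lit 4), (nat_lit 0x784784), (nat_lit 4)⟩)
(.lf ⟨(nat_lit 0x14657), (nat_lit 3), (nat_lit 0x195d4), (nat_lit 3)⟩))
(.nd (.lf ⟨(nat_lit 0x5ca50a517294294), (nat_lit 10), (nat_lit 0x25724a50a5095c9294294), (nat_lit 14)⟩)
(.lf ⟨(nat_lit 850), (nat_lit 2), (nat_lit 0x48d), (nat_lit 2)⟩)))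
(.nd (.nd (.lf ⟨(nat_lit 203), (nat_lit 2), (nat_lit 0x81028975128819d38a20b5071a040a25d44e28818881048a1e040a24780a2472878104878102891e02891ca1e04121e040a24780a2472878104878102891e02891ca183), (nat_lit 90)⟩)
(.lf ⟨(nat_lit 0x5db), (nat_lit 2), (nat_lit 0x6d7), (nat_lit 2)⟩))
(.nd (.lf ⟨(nat_lit 928), (nat_lit 2), (nat_lit 0x80e), (nat_lit 2)⟩)
(.lf ⟨(nat_lit 0x762), (nat_lit 2), (nat_lit 0x89d), (nat_lit 2)⟩))))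
(.nd (.nd (.nd (.lf ⟨(nat_lit 92), (nat_lit 2), (nat_lit 0x29129c44a0dc45c44a71129c44a0c1), (nat_lit 20)⟩)
(.lf ⟨(nat_lit 0x25e49a489792692), (nat_lit 10), (nat_lit 0x25e49a489792692), (nat_lit 10)⟩))
(.nd (.lf ⟨(nat_lit 24), (nat_lit 1), (nat_lit 0xcf0cf), (nat_lit 4)⟩)
(.lf ⟨(nat_lit 0x1c26981c2698), (nat_lit 8), (nat_lit 0x1c26981c2698), (nat_lit 8)⟩)))
(.nd (.nd (.lf ⟨(nat_lit 0x9c74271d), (nat_lit 6), (nat_lit 0x9c74271d), (nat_lit 6)⟩)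
(.lf ⟨(nat_lit 0x6595), (nat_lit 3), (nat_lit 0x1430e21430e308316546), (nat_lit 13)⟩))
(.lf ⟨(nat_lit 0x5957c87c8), (nat_lit 6), (nat_lit 0x7c87c8595), (nat_lit 6)⟩)))))
(.nd (.nd (.nd (.nd (.nd (.lf ⟨(nat_lit 975), (nat_lit 2), (nat_lit 0), (nat_lit 0)⟩)
(.lf ⟨(nat_lit 0xa61d), (nat_lit 3), (nat_lit 0x18758298), (nat_lit 5)⟩))
(.nd (.lf ⟨(nat_lit 0xb44e), (nat_lit 3), (nat_lit 0x66d159119b45645138b), (nat_lit 13)⟩)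
(.lf ⟨(nat_lit 0x464), (nat_lit 2), (nat_lit 0x911), (nat_lit 2)⟩)))
(.nd (.nd (.lf ⟨(nat_lit 347), (nat_lit 2), (nat_lit 0x6c5), (nat_lit 2)⟩)
(.lf ⟨(nat_lit 0x840d), (nat_lit 3), (nat_lit 0x1f75875835f758758549549210), (nat_lit 17)⟩))
(.nd (.lf ⟨(nat_lit 0x417417), (nat_lit 4), (nat_lit 0x250150149405405), (nat_lit 10)⟩)
(.lf ⟨(nat_lit 0x452), (nat_lit 2), (nat_lit 0x491), (nat_lit 2)⟩))))
(.nd (.nd (.nd (.lf ⟨(nat_lit 0x10d08210d082), (nat_lit 8), (nat_lit 0x8d08408d084), (nat_lit 8)⟩)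
(.lf ⟨(nat_lit 0x5e5), (nat_lit 2), (nat_lit 0x665657), (nat_lit 4)⟩))
(.nd (.lf ⟨(nat_lit 0x192192), (nat_lit 4), (nat_lit 0x486486), (nat_lit 4)⟩)
(.lf ⟨(nat_lit 0x59e61e), (nat_lit 4), (nat_lit 0x61e61e598), (nat_lit 6)⟩)))
(.nd (.nd (.lf ⟨(nat_lit 668), (nat_lit 2), (nat_lit 0x75c74a), (nat_lit 4)⟩)
(.lf ⟨(nat_lit 357), (nat_lit 2), (nat_lit 0x945), (nat_lit 2)⟩))
(.lf ⟨(nat_lit 0x548f), (nat_lit 3), (nat_lit 0x123d2152), (nat_lit 5)⟩))))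
(.nd (.nd (.nd (.nd (.lf ⟨(nat_lit 0x106106), (nat_lit 4), (nat_lit 0x184184), (nat_lit 4)⟩)
(.lf ⟨(nat_lit 793), (nat_lit 2), (nat_lit 0x64c), (nat_lit 2)⟩))
(.nd (.lf ⟨(nat_lit 0x5c35c3), (nat_lit 4), (nat_lit 0xd70d7), (nat_lit 4)⟩)
(.lf ⟨(nat_lit 0x6e7), (nat_lit 2), (nat_lit 0x9db), (nat_lit 2)⟩)))
(.nd (.nd (.lf ⟨(nat_lit 0x295295), (nat_lit 4), (nat_lit 0x54a54a), (nat_lit 4)⟩)
(.lf ⟨(nat_lit 0x698), (nat_lit 2), (nat_lit 0x189189), (nat_lit 4)⟩))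
(.nd (.lf ⟨(nat_lit 922), (nat_lit 2), (nat_lit 0x68e), (nat_lit 2)⟩)
(.lf ⟨(nat_lit 0x5a5), (nat_lit 2), (nat_lit 0x956), (nat_lit 2)⟩))))
(.nd (.nd (.nd (.lf ⟨(nat_lit 229), (nat_lit 2), (nat_lit 0xa12478a124783), (nat_lit 9)⟩)
(.lf ⟨(nat_lit 0), (nat_lit 0), (nat_lit 0x4877d21df), (nat_lit 6)⟩))
(.nd (.lf ⟨(nat_lit 21), (nat_lit 1), (nat_lit 0xcd0cd), (nat_lit 4)⟩)
(.lf ⟨(nat_lit 291), (nat_lit 2), (nat_lit 0x9da9da9e06a795a9d02102236a740e24e2484256a76a781a389389204), (nat_lit 38)⟩)))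
(.nd (.nd (.lf ⟨(nat_lit 0x19075c41d70641d71075c), (nat_lit 14), (nat_lit 0x19075c41d70641d71075c), (nat_lit 14)⟩)
(.lf ⟨(nat_lit 15), (nat_lit 1), (nat_lit 0x449441449441), (nat_lit 8)⟩))
(.lf ⟨(nat_lit 0x2406406), (nat_lit 5), (nat_lit 0x10190182), (nat_lit 5)⟩))))))
(.nd (.nd (.nd (.nd (.nd (.nd (.lf ⟨(nat_lit 39), (nat_lit 1), (nat_lit 0x60060), (nat_lit 4)⟩)
(.lf ⟨(nat_lit 0xb50c), (nat_lit 3), (nat_lit 0x1430b), (nat_lit 3)⟩))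
(.nd (.lf ⟨(nat_lit 354), (nat_lit 2), (nat_lit 0x885), (nat_lit 2)⟩)
(.lf ⟨(nat_lit 0x4db), (nat_lit 2), (nat_lit 0x6d3), (nat_lit 2)⟩)))
(.nd (.nd (.lf ⟨(nat_lit 672), (nat_lit 2), (nat_lit 0x80a), (nat_lit 2)⟩)
(.lf ⟨(nat_lit 0x667), (nat_lit 2), (nat_lit 0x9d9), (nat_lit 2)⟩))
(.nd (.lf ⟨(nat_lit 0x181f24c81f24c24c24c), (nat_lit 13), (nat_lit 0x207c93207c9309309301), (nat_lit 13)⟩)
(.lf ⟨(nat_lit 0), (nat_lit 0), (nat_lit 0x383383), (nat_lit 4)⟩))))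
(.nd (.nd (.nd (.lf ⟨(nat_lit 0x187187), (nat_lit 4), (nat_lit 0x1c61c6), (nat_lit 4)⟩)
(.lf ⟨(nat_lit 266), (nat_lit 2), (nat_lit 644), (nat_lit 2)⟩))
(.nd (.lf ⟨(nat_lit 0), (nat_lit 0), (nat_lit 0x141141), (nat_lit 4)⟩)
(.lf ⟨(nat_lit 0x78694695e1a51a5), (nat_lit 10), (nat_lit 0x1de1c69469477871a51a5), (nat_lit 14)⟩)))
(.nd (.nd (.lf ⟨(nat_lit 223), (nat_lit 2), (nat_lit 0x202877e02877c3), (nat_lit 9)⟩)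
(.lf ⟨(nat_lit 0x18f18f), (nat_lit 4), (nat_lit 0x18f18f), (nat_lit 4)⟩))
(.lf ⟨(nat_lit 0x254254), (nat_lit 4), (nat_lit 0x509509), (nat_lit 4)⟩))))
(.nd (.nd (.nd (.nd (.lf ⟨(nat_lit 0x1c11c1), (nat_lit 4), (nat_lit 0x47047), (nat_lit 4)⟩)
(.lf ⟨(nat_lit 0x90190b9019049019042e40641240641240642e406412406410b901904901904), (nat_lit 42), (nat_lit 0x90190b9019049019042e40641240641240642e406412406410b901904901904), (nat_lit 42)⟩))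
(.nd (.lf ⟨(nat_lit 22), (nat_lit 1), (nat_lit 0x382382), (nat_lit 4)⟩)
(.lf ⟨(nat_lit 0x1906d1), (nat_lit 4), (nat_lit 0x6d1190), (nat_lit 4)⟩)))
(.nd (.nd (.lf ⟨(nat_lit 0x901924064), (nat_lit 6), (nat_lit 0), (nat_lit 0)⟩)
(.lf ⟨(nat_lit 834), (nat_lit 2), (nat_lit 141), (nat_lit 2)⟩))
(.nd (.lf ⟨(nat_lit 0x63ce), (nat_lit 3), (nat_lit 0xf38f18f), (nat_lit 5)⟩)
(.lf ⟨(nat_lit 0x598), (nat_lit 2), (nat_lit 0x616), (nat_lit 2)⟩))))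
(.nd (.nd (.nd (.lf ⟨(nat_lit 787), (nat_lit 2), (nat_lit 0x4cc), (nat_lit 2)⟩)
(.lf ⟨(nat_lit 0x2144c8513), (nat_lit 6), (nat_lit 0x2144c8513), (nat_lit 6)⟩))
(.nd (.lf ⟨(nat_lit 0x29428c29428c), (nat_lit 8), (nat_lit 0x29428c29428c), (nat_lit 8)⟩)
(.lf ⟨(nat_lit 346), (nat_lit 2), (nat_lit 0x685), (nat_lit 2)⟩)))
(.nd (.nd (.lf ⟨(nat_lit 668), (nat_lit 2), (nat_lit 0x70a), (nat_lit 2)⟩)
(.lf ⟨(nat_lit 0x6417), (nat_lit 3), (nat_lit 0x105d0190), (nat_lit 5)⟩))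
(.lf ⟨(nat_lit 0x829654a595), (nat_lit 7), (nat_lit 0xa595296548), (nat_lit 7)⟩)))))
(.nd (.nd (.nd (.nd (.nd (.lf ⟨(nat_lit 0x50050), (nat_lit 4), (nat_lit 0x401401), (nat_lit 4)⟩)
(.lf ⟨(nat_lit 0x56541595), (nat_lit 6), (nat_lit 0x56541595), (nat_lit 6)⟩))
(.nd (.lf ⟨(nat_lit 91), (nat_lit 2), (nat_lit 0x6d1491152141), (nat_lit 8)⟩)
(.lf ⟨(nat_lit 0x8479b11e6c211e6c479b), (nat_lit 14), (nat_lit 0x8479b11e6c211e6c479b), (nat_lit 14)⟩)))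
(.nd (.nd (.lf ⟨(nat_lit 0x1c21411c2141), (nat_lit 8), (nat_lit 0x1411c21411c2), (nat_lit 8)⟩)
(.lf ⟨(nat_lit 0xd449449), (nat_lit 5), (nat_lit 0x1125124d), (nat_lit 5)⟩))
(.nd (.lf ⟨(nat_lit 0x39024e40938938939024e409389389), (nat_lit 20), (nat_lit 0), (nat_lit 0)⟩)
(.lf ⟨(nat_lit 0x5a5), (nat_lit 2), (nat_lit 0x6d87589636d875895d61d6258db61d61b61d616), (nat_lit 26)⟩))))
(.nd (.nd (.nd (.lf ⟨(nat_lit 0x106388), (nat_lit 4), (nat_lit 0x20638828620418a), (nat_lit 10)⟩)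
(.lf ⟨(nat_lit 359), (nat_lit 2), (nat_lit 0x9c5), (nat_lit 2)⟩))
(.nd (.lf ⟨(nat_lit 467), (nat_lit 2), (nat_lit 0x4c7), (nat_lit 2)⟩)
(.lf ⟨(nat_lit 849), (nat_lit 2), (nat_lit 0x44d), (nat_lit 2)⟩)))
(.nd (.nd (.lf ⟨(nat_lit 25), (nat_lit 1), (nat_lit 0x10f10f), (nat_lit 4)⟩)
(.lf ⟨(nat_lit 0x581f), (nat_lit 3), (nat_lit 0x207d71d74c94c91c5), (nat_lit 11)⟩))
(.lf ⟨(nat_lit 0x6408), (nat_lit 3), (nat_lit 0x1d710210190), (nat_lit 7)⟩))))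
(.nd (.nd (.nd (.nd (.lf ⟨(nat_lit 133), (nat_lit 2), (nat_lit 322), (nat_lit 2)⟩)
(.lf ⟨(nat_lit 0x51c), (nat_lit 2), (nat_lit 0x714), (nat_lit 2)⟩))
(.nd (.lf ⟨(nat_lit 0x2d22dc), (nat_lit 4), (nat_lit 0x49c48b48b), (nat_lit 6)⟩)
(.lf ⟨(nat_lit 0x6988263079e024c247), (nat_lit 12), (nat_lit 0x8263079e024c247698), (nat_lit 12)⟩)))
(.nd (.nd (.lf ⟨(nat_lit 345), (nat_lit 2), (nat_lit 0x645), (nat_lit 2)⟩)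
(.lf ⟨(nat_lit 914), (nat_lit 2), (nat_lit 0x45244e), (nat_lit 4)⟩))
(.nd (.lf ⟨(nat_lit 32), (nat_lit 1), (nat_lit 0x484484), (nat_lit 4)⟩)
(.lf ⟨(nat_lit 218), (nat_lit 2), (nat_lit 0x9e696468f28c28f30a30a3c840a30a3c8403), (nat_lit 24)⟩))))
(.nd (.nd (.nd (.lf ⟨(nat_lit 285), (nat_lit 2), (nat_lit 0x744), (nat_lit 2)⟩)
(.lf ⟨(nat_lit 276), (nat_lit 2), (nat_lit 0x113a691251044e52044e40a2d138b44e25138b40a2542d01c64269121901c4), (nat_lit 41)⟩))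
(.nd (.lf ⟨(nat_lit 728), (nat_lit 2), (nat_lit 0x6982da), (nat_lit 4)⟩)
(.lf ⟨(nat_lit 276), (nat_lit 2), (nat_lit 0x2692075b61d6a769879d61679875696375b61d6a769875679d6167989636a779a6d859e61649149096379b6167985a58d13ce28f24e2ca24b1c6407184), (nat_lit 81)⟩)))
(.nd (.nd (.lf ⟨(nat_lit 0x5f8017e0), (nat_lit 6), (nat_lit 0x5f8017e0), (nat_lit 6)⟩)
(.lf ⟨(nat_lit 0x49a493), (nat_lit 4), (nat_lit 0x7947944d2692), (nat_lit 8)⟩))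
(.lf ⟨(nat_lit 0x457), (nat_lit 2), (nat_lit 0x5d1), (nat_lit 2)⟩)))))))
(.nd (.nd (.nd (.nd (.nd (.nd (.nd (.lf ⟨(nat_lit 23), (nat_lit 1), (nat_lit 0x8f08f), (nat_lit 4)⟩)
(.lf ⟨(nat_lit 0x9419460607a07a781e9e07910607a07a781e9e079118181e81e9e07a781e44181e81e9e07a781e46506518181e81e9e07a781e44181e81e9e07a781e4460607a07a781e9e07910607a07a781e9e0791), (nat_lit 106), (nat_lit 0x9419460607a07a781e9e07910607a07a781e9e079118181e81e9e07a781e44181e81e9e07a781e46506518181e81e9e07a781e44181e81e9e07a781e4460607a07a781e9e07910607a07a781e9e0791), (nat_lit 106)⟩))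
(.nd (.lf ⟨(nat_lit 0x1da1c7687), (nat_lit 6), (nat_lit 0), (nat_lit 0)⟩)
(.lf ⟨(nat_lit 981), (nat_lit 2), (nat_lit 0x54f), (nat_lit 2)⟩)))
(.nd (.nd (.lf ⟨(nat_lit 527), (nat_lit 2), (nat_lit 968), (nat_lit 2)⟩)
(.lf ⟨(nat_lit 0x6485485), (nat_lit 5), (nat_lit 0x12152146), (nat_lit 5)⟩))
(.nd (.lf ⟨(nat_lit 0x1c910c10c24430430724430430910c10c), (nat_lit 22), (nat_lit 0x1c910c10c24430430724430430910c10c), (nat_lit 22)⟩)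
(.lf ⟨(nat_lit 0xc41cd2073481073481cd2031073481cd2041cd207348), (nat_lit 30), (nat_lit 0xc41cd2073481073481cd2031073481cd2041cd207348), (nat_lit 30)⟩))))
(.nd (.nd (.nd (.lf ⟨(nat_lit 0x342342), (nat_lit 4), (nat_lit 0), (nat_lit 0)⟩)
(.lf ⟨(nat_lit 0x5394), (nat_lit 3), (nat_lit 0xe50e14e), (nat_lit 5)⟩))
(.nd (.lf ⟨(nat_lit 0xd115115), (nat_lit 5), (nat_lit 0x1534a54d28d28d29934a64d28d28d28454454d), (nat_lit 25)⟩)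
(.lf ⟨(nat_lit 0x18552), (nat_lit 3), (nat_lit 0x12615), (nat_lit 3)⟩)))
(.nd (.nd (.lf ⟨(nat_lit 0), (nat_lit 0), (nat_lit 0x181181), (nat_lit 4)⟩)
(.lf ⟨(nat_lit 415), (nat_lit 2), (nat_lit 0x7c6), (nat_lit 2)⟩))
(.lf ⟨(nat_lit 0x78f), (nat_lit 2), (nat_lit 990), (nat_lit 2)⟩))))
(.nd (.nd (.nd (.nd (.lf ⟨(nat_lit 260), (nat_lit 2), (nat_lit 0), (nat_lit 0)⟩)
(.lf ⟨(nat_lit 139), (nat_lit 2), (nat_lit 706), (nat_lit 2)⟩))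
(.nd (.lf ⟨(nat_lit 0x185685686), (nat_lit 6), (nat_lit 0x46886046886), (nat_lit 8)⟩)
(.lf ⟨(nat_lit 612), (nat_lit 2), (nat_lit 0x81f32799f3279a4809), (nat_lit 12)⟩)))
(.nd (.nd (.lf ⟨(nat_lit 167), (nat_lit 2), (nat_lit 0x3c525e49128f25e491285802), (nat_lit 16)⟩)
(.lf ⟨(nat_lit 283), (nat_lit 2), (nat_lit 0x236d1251244), (nat_lit 7)⟩))
(.nd (.lf ⟨(nat_lit 0x660), (nat_lit 2), (nat_lit 0x819), (nat_lit 2)⟩)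
(.lf ⟨(nat_lit 0x564), (nat_lit 2), (nat_lit 0x915), (nat_lit 2)⟩))))
(.nd (.nd (.nd (.lf ⟨(nat_lit 150), (nat_lit 2), (nat_lit 0x582), (nat_lit 2)⟩)
(.lf ⟨(nat_lit 614), (nat_lit 2), (nat_lit 0x66781998c7e77cc809), (nat_lit 12)⟩))
(.nd (.lf ⟨(nat_lit 0x5228c48a30148a31228c), (nat_lit 14), (nat_lit 0x5228c48a30148a31228c), (nat_lit 14)⟩)
(.lf ⟨(nat_lit 0x1a6273c938a3ca24e), (nat_lit 11), (nat_lit 0x273c938a3ca24e698), (nat_lit 11)⟩)))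
(.nd (.nd (.lf ⟨(nat_lit 279), (nat_lit 2), (nat_lit 0x5c4), (nat_lit 2)⟩)
(.lf ⟨(nat_lit 725), (nat_lit 2), (nat_lit 0x54b), (nat_lit 2)⟩))
(.lf ⟨(nat_lit 0x3595), (nat_lit 3), (nat_lit 0x254254e34e356543), (nat_lit 11)⟩)))))
(.nd (.nd (.nd (.nd (.nd (.lf ⟨(nat_lit 204), (nat_lit 2), (nat_lit 0x14303), (nat_lit 3)⟩)
(.lf ⟨(nat_lit 0xb513), (nat_lit 3), (nat_lit 0x144cb), (nat_lit 3)⟩))
(.nd (.lf ⟨(nat_lit 0x452452452452), (nat_lit 8), (nat_lit 0), (nat_lit 0)⟩)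
(.lf ⟨(nat_lit 486), (nat_lit 2), (nat_lit 0x987), (nat_lit 2)⟩)))
(.nd (.nd (.lf ⟨(nat_lit 0x3070cc1c3), (nat_lit 6), (nat_lit 0xcc1c3307), (nat_lit 6)⟩)
(.lf ⟨(nat_lit 0x4274274109d09d), (nat_lit 10), (nat_lit 0x4274274109d09d), (nat_lit 10)⟩))
(.nd (.lf ⟨(nat_lit 0x5d3), (nat_lit 2), (nat_lit 0x4d7), (nat_lit 2)⟩)
(.lf ⟨(nat_lit 0x1579a), (nat_lit 3), (nat_lit 0x1879b6986d5), (nat_lit 7)⟩))))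
(.nd (.nd (.nd (.lf ⟨(nat_lit 213), (nat_lit 2), (nat_lit 0x38d21534854d395343), (nat_lit 12)⟩)
(.lf ⟨(nat_lit 0x465), (nat_lit 2), (nat_lit 0x95e75e751), (nat_lit 6)⟩))
(.nd (.lf ⟨(nat_lit 0x6414), (nat_lit 3), (nat_lit 0x249905109a4190), (nat_lit 9)⟩)
(.lf ⟨(nat_lit 167), (nat_lit 2), (nat_lit 0x9db9514913ca3e36e58238123ca3c2), (nat_lit 20)⟩)))
(.nd (.nd (.lf ⟨(nat_lit 0xc792692), (nat_lit 5), (nat_lit 0x1e49a48c), (nat_lit 5)⟩)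
(.lf ⟨(nat_lit 662), (nat_lit 2), (nat_lit 0x59245244a), (nat_lit 6)⟩))
(.lf ⟨(nat_lit 0x65f), (nat_lit 2), (nat_lit 0x7d9), (nat_lit 2)⟩))))
(.nd (.nd (.nd (.nd (.lf ⟨(nat_lit 0x28308a0c2), (nat_lit 6), (nat_lit 0x8a0c2283), (nat_lit 6)⟩)
(.lf ⟨(nat_lit 0x839a40e69020e69039a4), (nat_lit 14), (nat_lit 0x839a40e69020e69039a4), (nat_lit 14)⟩))
(.nd (.lf ⟨(nat_lit 0x28b28b), (nat_lit 4), (nat_lit 0x28b28b), (nat_lit 4)⟩)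
(.lf ⟨(nat_lit 0x8263079e024c247), (nat_lit 10), (nat_lit 0x1cf1cf), (nat_lit 4)⟩)))
(.nd (.nd (.lf ⟨(nat_lit 218), (nat_lit 2), (nat_lit 0x1d38a22068e2881a0406403), (nat_lit 15)⟩)
(.lf ⟨(nat_lit 0x169a4), (nat_lit 3), (nat_lit 0x26916), (nat_lit 3)⟩))
(.nd (.lf ⟨(nat_lit 605), (nat_lit 2), (nat_lit 0x749), (nat_lit 2)⟩)
(.lf ⟨(nat_lit 805), (nat_lit 2), (nat_lit 0x94c), (nat_lit 2)⟩))))
(.nd (.nd (.nd (.lf ⟨(nat_lit 521), (nat_lit 2), (nat_lit 0x9648), (nat_lit 3)⟩)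
(.lf ⟨(nat_lit 0x657), (nat_lit 2), (nat_lit 0x205205), (nat_lit 4)⟩))
(.nd (.lf ⟨(nat_lit 0x166166), (nat_lit 4), (nat_lit 0x166045981), (nat_lit 6)⟩)
(.lf ⟨(nat_lit 0x2796379b), (nat_lit 5), (nat_lit 0x1e6e7963), (nat_lit 5)⟩)))
(.nd (.nd (.lf ⟨(nat_lit 0x44e75c), (nat_lit 4), (nat_lit 0x75c44e), (nat_lit 4)⟩)
(.lf ⟨(nat_lit 0x54a2), (nat_lit 3), (nat_lit 0x12892152), (nat_lit 5)⟩))
(.lf ⟨(nat_lit 856), (nat_lit 2), (nat_lit 0x6153d53cd), (nat_lit 6)⟩))))))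
(.nd (.nd (.nd (.nd (.nd (.nd (.lf ⟨(nat_lit 0xc40c4), (nat_lit 4), (nat_lit 0x103103), (nat_lit 4)⟩)
(.lf ⟨(nat_lit 0x548d), (nat_lit 3), (nat_lit 0x1d49d48d152), (nat_lit 7)⟩))
(.nd (.lf ⟨(nat_lit 0x192414), (nat_lit 4), (nat_lit 0x490512406490), (nat_lit 8)⟩)
(.lf ⟨(nat_lit 798), (nat_lit 2), (nat_lit 0x78c), (nat_lit 2)⟩)))
(.nd (.nd (.lf ⟨(nat_lit 0x441091042), (nat_lit 6), (nat_lit 0x91042441), (nat_lit 6)⟩)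
(.lf ⟨(nat_lit 0x255255), (nat_lit 4), (nat_lit 0x549549), (nat_lit 4)⟩))
(.nd (.lf ⟨(nat_lit 0x7256549595), (nat_lit 7), (nat_lit 0x9595256547), (nat_lit 7)⟩)
(.lf ⟨(nat_lit 614), (nat_lit 2), (nat_lit 0x989), (nat_lit 2)⟩))))
(.nd (.nd (.nd (.lf ⟨(nat_lit 90), (nat_lit 2), (nat_lit 0x41a41a41a401), (nat_lit 8)⟩)
(.lf ⟨(nat_lit 0x75e75e), (nat_lit 4), (nat_lit 0x5d49d481752752), (nat_lit 10)⟩))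
(.nd (.lf ⟨(nat_lit 542), (nat_lit 2), (nat_lit 0x204065201944788), (nat_lit 10)⟩)
(.lf ⟨(nat_lit 0x44e), (nat_lit 2), (nat_lit 0x78694695e1a51a544e1a544e1a51a51a544e), (nat_lit 24)⟩)))
(.nd (.nd (.lf ⟨(nat_lit 0x285285), (nat_lit 4), (nat_lit 0x14a14a), (nat_lit 4)⟩)
(.lf ⟨(nat_lit 0x452454), (nat_lit 4), (nat_lit 0x512612452611), (nat_lit 8)⟩))
(.lf ⟨(nat_lit 0x51a), (nat_lit 2), (nat_lit 0x694), (nat_lit 2)⟩))))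
(.nd (.nd (.nd (.nd (.lf ⟨(nat_lit 141), (nat_lit 2), (nat_lit 0x20d20d20d202), (nat_lit 8)⟩)
(.lf ⟨(nat_lit 0x3cc3cc), (nat_lit 4), (nat_lit 0x4c24c241309309), (nat_lit 10)⟩))
(.nd (.lf ⟨(nat_lit 0x5c35c3), (nat_lit 4), (nat_lit 0xd70c30d70c3), (nat_lit 8)⟩)
(.lf ⟨(nat_lit 351), (nat_lit 2), (nat_lit 0x7d23d23c5), (nat_lit 6)⟩)))
(.nd (.nd (.lf ⟨(nat_lit 0x64d64d), (nat_lit 4), (nat_lit 0), (nat_lit 0)⟩)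
(.lf ⟨(nat_lit 29), (nat_lit 1), (nat_lit 0x20a20a), (nat_lit 4)⟩))
(.nd (.lf ⟨(nat_lit 0x620), (nat_lit 2), (nat_lit 0x6a0698), (nat_lit 4)⟩)
(.lf ⟨(nat_lit 543), (nat_lit 2), (nat_lit 0x7c8), (nat_lit 2)⟩))))
(.nd (.nd (.nd (.lf ⟨(nat_lit 88), (nat_lit 2), (nat_lit 0x19060f4183d060f40640f40f40f401), (nat_lit 20)⟩)
(.lf ⟨(nat_lit 0), (nat_lit 0), (nat_lit 0x4b20b2012c82c8), (nat_lit 10)⟩))
(.nd (.lf ⟨(nat_lit 148), (nat_lit 2), (nat_lit 0x2d430b50c2c64d42d31c64cb3050d330b50c2d430b4d42d31c64cb30b30b30b30b50c2cc2cc2d330b30b50c2cc2cc2d44cc2cc2d330b50c2d430b4d42d31c64cb30b4cc2cc1c50d3302), (nat_lit 98)⟩)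
(.lf ⟨(nat_lit 0x44544044544), (nat_lit 8), (nat_lit 0x44544044544), (nat_lit 8)⟩)))
(.nd (.nd (.lf ⟨(nat_lit 0), (nat_lit 0), (nat_lit 0x284284), (nat_lit 4)⟩)
(.lf ⟨(nat_lit 0x493d03c640624f40f19018124f40f1901893d03c6406), (nat_lit 30), (nat_lit 0x493d03c640624f40f19018124f40f1901893d03c6406), (nat_lit 30)⟩))
(.lf ⟨(nat_lit 0x9741), (nat_lit 3), (nat_lit 0x3dd049), (nat_lit 4)⟩)))))
(.nd (.nd (.nd (.nd (.nd (.lf ⟨(nat_lit 0x7df), (nat_lit 2), (nat_lit 0), (nat_lit 0)⟩)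
(.lf ⟨(nat_lit 72), (nat_lit 2), (nat_lit 513), (nat_lit 2)⟩))
(.nd (.lf ⟨(nat_lit 0x5c5), (nat_lit 2), (nat_lit 0x3c108f042), (nat_lit 6)⟩)
(.lf ⟨(nat_lit 0xca10c2c430b28430b10c2c328430b10c2ca10c2c430b), (nat_lit 30), (nat_lit 0xca10c2c430b28430b10c2c328430b10c2ca10c2c430b), (nat_lit 30)⟩)))
(.nd (.nd (.lf ⟨(nat_lit 144), (nat_lit 2), (nat_lit 0x4091c91c2), (nat_lit 6)⟩)
(.lf ⟨(nat_lit 727), (nat_lit 2), (nat_lit 0x5cb), (nat_lit 2)⟩))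
(.nd (.lf ⟨(nat_lit 0x274e25d389389389), (nat_lit 11), (nat_lit 0x1d38974e24e24e242), (nat_lit 11)⟩)
(.lf ⟨(nat_lit 0x426), (nat_lit 2), (nat_lit 0x990), (nat_lit 2)⟩))))
(.nd (.nd (.nd (.lf ⟨(nat_lit 160), (nat_lit 2), (nat_lit 0x24a489289812289292292282), (nat_lit 16)⟩)
(.lf ⟨(nat_lit 283), (nat_lit 2), (nat_lit 0x2379d79d25b449444), (nat_lit 11)⟩))
(.nd (.lf ⟨(nat_lit 0x150245409150150), (nat_lit 10), (nat_lit 0x150150150245409), (nat_lit 10)⟩)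
(.lf ⟨(nat_lit 276), (nat_lit 2), (nat_lit 0x2692075b61d62779d61679875695245246375b61d62775679d6167989634509db59e6167989518db59e6167989633ce28f24e2ca24b1c6407184), (nat_lit 77)⟩)))
(.nd (.nd (.lf ⟨(nat_lit 0), (nat_lit 0), (nat_lit 0x5c95d7257), (nat_lit 6)⟩)
(.lf ⟨(nat_lit 0x30b50c38850c38c20c), (nat_lit 12), (nat_lit 0x50c38850c38c20c30b), (nat_lit 12)⟩))
(.lf ⟨(nat_lit 0x34a34a), (nat_lit 4), (nat_lit 0x28d28d), (nat_lit 4)⟩))))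
(.nd (.nd (.nd (.nd (.lf ⟨(nat_lit 78), (nat_lit 2), (nat_lit 0x18420628419c44a38828620610675110a201), (nat_lit 24)⟩)
(.lf ⟨(nat_lit 732), (nat_lit 2), (nat_lit 0x31c30b), (nat_lit 4)⟩))
(.nd (.lf ⟨(nat_lit 0x786786786786), (nat_lit 8), (nat_lit 0x5e19e181786786), (nat_lit 10)⟩)
(.lf ⟨(nat_lit 0x640c), (nat_lit 3), (nat_lit 0xc190), (nat_lit 3)⟩)))
(.nd (.nd (.lf ⟨(nat_lit 0x5d93c525764f245), (nat_lit 10), (nat_lit 0x99099), (nat_lit 4)⟩)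
(.lf ⟨(nat_lit 462), (nat_lit 2), (nat_lit 0x1638c2ca30b6d24522a66d1587), (nat_lit 17)⟩))
(.nd (.lf ⟨(nat_lit 0x788), (nat_lit 2), (nat_lit 0x79221e48848848821e), (nat_lit 12)⟩)
(.lf ⟨(nat_lit 280), (nat_lit 2), (nat_lit 0x6103ce28f289389210204), (nat_lit 14)⟩))))
(.nd (.nd (.nd (.lf ⟨(nat_lit 89), (nat_lit 2), (nat_lit 0x641), (nat_lit 2)⟩)
(.lf ⟨(nat_lit 0xc20c20d), (nat_lit 5), (nat_lit 0xd308308), (nat_lit 5)⟩))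
(.nd (.lf ⟨(nat_lit 0x35228d28d48a34a), (nat_lit 10), (nat_lit 0), (nat_lit 0)⟩)
(.lf ⟨(nat_lit 998), (nat_lit 2), (nat_lit 0x9e69cf), (nat_lit 4)⟩)))
(.nd (.nd (.lf ⟨(nat_lit 0x1df1c77c7), (nat_lit 6), (nat_lit 0), (nat_lit 0)⟩)
(.lf ⟨(nat_lit 595), (nat_lit 2), (nat_lit 0x4c9), (nat_lit 2)⟩))
(.lf ⟨(nat_lit 926), (nat_lit 2), (nat_lit 0x79645644e), (nat_lit 6)⟩))))))))
(.nd (.nd (.nd (.nd (.nd (.nd (.nd (.nd (.lf ⟨(nat_lit 15), (nat_lit 1), (nat_lit 0x49049), (nat_lit 4)⟩)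
(.lf ⟨(nat_lit 0x607a07a781e9e07910607a07a781e9e0791), (nat_lit 24), (nat_lit 0x607a07a781e9e07910607a07a781e9e0791), (nat_lit 24)⟩))
(.nd (.lf ⟨(nat_lit 0xe6826803), (nat_lit 6), (nat_lit 0xe60e07c398381f), (nat_lit 10)⟩)
(.lf ⟨(nat_lit 0x640c), (nat_lit 3), (nat_lit 0xf40c40f190), (nat_lit 7)⟩)))
(.nd (.nd (.lf ⟨(nat_lit 88), (nat_lit 2), (nat_lit 0x19060f4183d060f4063c1), (nat_lit 14)⟩)
(.lf ⟨(nat_lit 0x5139a4), (nat_lit 4), (nat_lit 0x9a4513), (nat_lit 4)⟩))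
(.nd (.lf ⟨(nat_lit 0x24c24c), (nat_lit 4), (nat_lit 0x24c24c), (nat_lit 4)⟩)
(.lf ⟨(nat_lit 0x54e), (nat_lit 2), (nat_lit 0xcd203348), (nat_lit 6)⟩))))
(.nd (.nd (.nd (.lf ⟨(nat_lit 224), (nat_lit 2), (nat_lit 0x940a81210a1c91072841df48a40928724710781210a11f483), (nat_lit 33)⟩)
(.lf ⟨(nat_lit 342), (nat_lit 2), (nat_lit 0x716705), (nat_lit 4)⟩))
(.nd (.lf ⟨(nat_lit 0xd54d29534a34a34a), (nat_lit 11), (nat_lit 0x1534a54d28d28d28d), (nat_lit 11)⟩)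
(.lf ⟨(nat_lit 0x10485485), (nat_lit 5), (nat_lit 0x12152150), (nat_lit 5)⟩)))
(.nd (.nd (.lf ⟨(nat_lit 17), (nat_lit 1), (nat_lit 0x4a04a), (nat_lit 4)⟩)
(.lf ⟨(nat_lit 342), (nat_lit 2), (nat_lit 0x585), (nat_lit 2)⟩))
(.lf ⟨(nat_lit 0xf488488), (nat_lit 5), (nat_lit 0x1221220f), (nat_lit 5)⟩))))
(.nd (.nd (.nd (.nd (.lf ⟨(nat_lit 96), (nat_lit 2), (nat_lit 0x27801), (nat_lit 3)⟩)
(.lf ⟨(nat_lit 0), (nat_lit 0), (nat_lit 0x18c2c630b), (nat_lit 6)⟩))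
(.nd (.lf ⟨(nat_lit 27), (nat_lit 1), (nat_lit 0x91091), (nat_lit 4)⟩)
(.lf ⟨(nat_lit 0x4db), (nat_lit 2), (nat_lit 0x6d3), (nat_lit 2)⟩)))
(.nd (.nd (.lf ⟨(nat_lit 261), (nat_lit 2), (nat_lit 0x64f248159349204), (nat_lit 10)⟩)
(.lf ⟨(nat_lit 0x350350), (nat_lit 4), (nat_lit 0x40d40d), (nat_lit 4)⟩))
(.nd (.lf ⟨(nat_lit 0x11a11a), (nat_lit 4), (nat_lit 0x11a11a), (nat_lit 4)⟩)
(.lf ⟨(nat_lit 0x523), (nat_lit 2), (nat_lit 0x8d4), (nat_lit 2)⟩))))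
(.nd (.nd (.nd (.lf ⟨(nat_lit 153), (nat_lit 2), (nat_lit 0xd20964f24814d2091481491573c2), (nat_lit 19)⟩)
(.lf ⟨(nat_lit 0x125e49a489792692), (nat_lit 11), (nat_lit 0x979269225e49a481), (nat_lit 11)⟩))
(.nd (.lf ⟨(nat_lit 0x40f), (nat_lit 2), (nat_lit 0x3c918f1894091901893d0), (nat_lit 14)⟩)
(.lf ⟨(nat_lit 0), (nat_lit 0), (nat_lit 0x18b24b2462c92c9), (nat_lit 10)⟩)))
(.nd (.nd (.lf ⟨(nat_lit 75), (nat_lit 2), (nat_lit 0x15430b3061543061471933072d43071461543072cc154301), (nat_lit 32)⟩)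
(.lf ⟨(nat_lit 0xe30b), (nat_lit 3), (nat_lit 0xc2ce), (nat_lit 3)⟩))
(.lf ⟨(nat_lit 461), (nat_lit 2), (nat_lit 0x95095347), (nat_lit 6)⟩)))))
(.nd (.nd (.nd (.nd (.nd (.lf ⟨(nat_lit 0x8a08a), (nat_lit 4), (nat_lit 0x282282), (nat_lit 4)⟩)
(.lf ⟨(nat_lit 0), (nat_lit 0), (nat_lit 0x186186), (nat_lit 4)⟩))
(.nd (.lf ⟨(nat_lit 393), (nat_lit 2), (nat_lit 0x6d15912c42c4246), (nat_lit 10)⟩)
(.lf ⟨(nat_lit 0x79f), (nat_lit 2), (nat_lit 0x7de), (nat_lit 2)⟩)))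
(.nd (.nd (.lf ⟨(nat_lit 0x48a052281), (nat_lit 6), (nat_lit 0x5228148a), (nat_lit 6)⟩)
(.lf ⟨(nat_lit 863), (nat_lit 2), (nat_lit 0x7cd), (nat_lit 2)⟩))
(.nd (.lf ⟨(nat_lit 211), (nat_lit 2), (nat_lit 0x4c3), (nat_lit 2)⟩)
(.lf ⟨(nat_lit 782), (nat_lit 2), (nat_lit 908), (nat_lit 2)⟩))))
(.nd (.nd (.nd (.lf ⟨(nat_lit 0x68109a042), (nat_lit 6), (nat_lit 0x9a042681), (nat_lit 6)⟩)
(.lf ⟨(nat_lit 0x3d23e5), (nat_lit 4), (nat_lit 0x9607a078f48f), (nat_lit 8)⟩))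
(.nd (.lf ⟨(nat_lit 0x19219f), (nat_lit 4), (nat_lit 0x7c6486), (nat_lit 4)⟩)
(.lf ⟨(nat_lit 165), (nat_lit 2), (nat_lit 0x942), (nat_lit 2)⟩)))
(.nd (.nd (.lf ⟨(nat_lit 0x1c81c81c81c8), (nat_lit 8), (nat_lit 0), (nat_lit 0)⟩)
(.lf ⟨(nat_lit 399), (nat_lit 2), (nat_lit 0x40f190), (nat_lit 4)⟩))
(.lf ⟨(nat_lit 0x10595), (nat_lit 3), (nat_lit 0x16495490), (nat_lit 5)⟩))))
(.nd (.nd (.nd (.nd (.lf ⟨(nat_lit 87), (nat_lit 2), (nat_lit 0x24f2573c91421573d73c95cf2573c9081), (nat_lit 22)⟩)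
(.lf ⟨(nat_lit 0x50a50a), (nat_lit 4), (nat_lit 0x294294), (nat_lit 4)⟩))
(.nd (.lf ⟨(nat_lit 0x36035c35c3), (nat_lit 7), (nat_lit 0x170d70c3603), (nat_lit 7)⟩)
(.lf ⟨(nat_lit 167), (nat_lit 2), (nat_lit 0x9db95245244f48a3e36e58238123ca3c2), (nat_lit 22)⟩)))
(.nd (.nd (.lf ⟨(nat_lit 144), (nat_lit 2), (nat_lit 0x2041241240a1ca1c2), (nat_lit 11)⟩)
(.lf ⟨(nat_lit 0x209a4), (nat_lit 3), (nat_lit 0x26920), (nat_lit 3)⟩))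
(.nd (.lf ⟨(nat_lit 0x881a), (nat_lit 3), (nat_lit 0x2045044e40a68e288), (nat_lit 11)⟩)
(.lf ⟨(nat_lit 0x6a3), (nat_lit 2), (nat_lit 0x8da), (nat_lit 2)⟩))))
(.nd (.nd (.nd (.lf ⟨(nat_lit 656), (nat_lit 2), (nat_lit 0x40a), (nat_lit 2)⟩)
(.lf ⟨(nat_lit 0x80f345805), (nat_lit 6), (nat_lit 0x804160105), (nat_lit 6)⟩))
(.nd (.lf ⟨(nat_lit 0x556), (nat_lit 2), (nat_lit 0x595), (nat_lit 2)⟩)
(.lf ⟨(nat_lit 804), (nat_lit 2), (nat_lit 0x90c), (nat_lit 2)⟩)))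
(.nd (.nd (.lf ⟨(nat_lit 0xc90c50c52431431432431431490c50c5), (nat_lit 22), (nat_lit 0xc90c50c52431431432431431490c50c5), (nat_lit 22)⟩)
(.lf ⟨(nat_lit 0x4494473c73d12511cf1cf), (nat_lit 14), (nat_lit 0x4494473c73d12511cf1cf), (nat_lit 14)⟩))
(.lf ⟨(nat_lit 0x452445485), (nat_lit 6), (nat_lit 0x151151), (nat_lit 4)⟩))))))
(.nd (.nd (.nd (.nd (.nd (.nd (.lf ⟨(nat_lit 455), (nat_lit 2), (nat_lit 0), (nat_lit 0)⟩)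
(.lf ⟨(nat_lit 197), (nat_lit 2), (nat_lit 0x2cc143), (nat_lit 4)⟩))
(.nd (.lf ⟨(nat_lit 0x1c4504507114114), (nat_lit 10), (nat_lit 0x1c4504507114114), (nat_lit 10)⟩)
(.lf ⟨(nat_lit 0x121de1de), (nat_lit 5), (nat_lit 0x7787792), (nat_lit 5)⟩)))
(.nd (.nd (.lf ⟨(nat_lit 0x482052081), (nat_lit 6), (nat_lit 0x52081482), (nat_lit 6)⟩)
(.lf ⟨(nat_lit 0), (nat_lit 0), (nat_lit 0x20e24e248389389), (nat_lit 10)⟩))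
(.nd (.lf ⟨(nat_lit 0xf256549595), (nat_lit 7), (nat_lit 0x959525654f), (nat_lit 7)⟩)
(.lf ⟨(nat_lit 0x624), (nat_lit 2), (nat_lit 0x6a76a7918), (nat_lit 6)⟩))))
(.nd (.nd (.nd (.lf ⟨(nat_lit 0x1ca1ca), (nat_lit 4), (nat_lit 0x287287), (nat_lit 4)⟩)
(.lf ⟨(nat_lit 37), (nat_lit 1), (nat_lit 0x11e11e), (nat_lit 4)⟩))
(.nd (.lf ⟨(nat_lit 0x104944), (nat_lit 4), (nat_lit 0x125104), (nat_lit 4)⟩)
(.lf ⟨(nat_lit 0x1a51a51a51a5), (nat_lit 8), (nat_lit 0), (nat_lit 0)⟩)))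
(.nd (.nd (.lf ⟨(nat_lit 0x14384a84a0c50e12a1283), (nat_lit 14), (nat_lit 0x14384a84a0c50e12a1283), (nat_lit 14)⟩)
(.lf ⟨(nat_lit 858), (nat_lit 2), (nat_lit 0x6953d53cd), (nat_lit 6)⟩))
(.lf ⟨(nat_lit 0x518), (nat_lit 2), (nat_lit 0x614), (nat_lit 2)⟩))))
(.nd (.nd (.nd (.nd (.lf ⟨(nat_lit 650), (nat_lit 2), (nat_lit 0), (nat_lit 0)⟩)
(.lf ⟨(nat_lit 76), (nat_lit 2), (nat_lit 769), (nat_lit 2)⟩))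
(.nd (.lf ⟨(nat_lit 0xe58e156385385385), (nat_lit 11), (nat_lit 0x1638558e14e14e14e), (nat_lit 11)⟩)
(.lf ⟨(nat_lit 786), (nat_lit 2), (nat_lit 0x3d23cc), (nat_lit 4)⟩)))
(.nd (.nd (.lf ⟨(nat_lit 910), (nat_lit 2), (nat_lit 0), (nat_lit 0)⟩)
(.lf ⟨(nat_lit 0x411411), (nat_lit 4), (nat_lit 0x41139044e), (nat_lit 6)⟩))
(.nd (.lf ⟨(nat_lit 0x69d), (nat_lit 2), (nat_lit 0x75a), (nat_lit 2)⟩)
(.lf ⟨(nat_lit 0x8e4), (nat_lit 2), (nat_lit 0x923), (nat_lit 2)⟩))))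
(.nd (.nd (.nd (.lf ⟨(nat_lit 0x45b), (nat_lit 2), (nat_lit 0x6d1), (nat_lit 2)⟩)
(.lf ⟨(nat_lit 0x1412045131144c81144c45131412045131144c81144c4513), (nat_lit 32), (nat_lit 0x1412045131144c81144c45131412045131144c81144c4513), (nat_lit 32)⟩))
(.nd (.lf ⟨(nat_lit 267), (nat_lit 2), (nat_lit 0x44e2c66d645645661a44e184), (nat_lit 16)⟩)
(.lf ⟨(nat_lit 0), (nat_lit 0), (nat_lit 0xcf28f0cf28f), (nat_lit 8)⟩)))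
(.nd (.nd (.lf ⟨(nat_lit 0x25138944e), (nat_lit 6), (nat_lit 0x25138944e), (nat_lit 6)⟩)
(.lf ⟨(nat_lit 0x2420d80c20d80c9083603083603), (nat_lit 18), (nat_lit 0x2420d80c20d80c9083603083603), (nat_lit 18)⟩))
(.lf ⟨(nat_lit 0xc274109d04309d042741), (nat_lit 14), (nat_lit 0xc274109d04309d042741), (nat_lit 14)⟩)))))
(.nd (.nd (.nd (.nd (.nd (.lf ⟨(nat_lit 209), (nat_lit 2), (nat_lit 0x1c443), (nat_lit 3)⟩)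
(.lf ⟨(nat_lit 0x13595), (nat_lit 3), (nat_lit 0x16553), (nat_lit 3)⟩))
(.nd (.lf ⟨(nat_lit 0x155141155141), (nat_lit 8), (nat_lit 0x155141155141), (nat_lit 8)⟩)
(.lf ⟨(nat_lit 0x49d), (nat_lit 2), (nat_lit 0x752), (nat_lit 2)⟩)))
(.nd (.nd (.lf ⟨(nat_lit 0x201183201183), (nat_lit 8), (nat_lit 0x183201183201), (nat_lit 8)⟩)
(.lf ⟨(nat_lit 0x74109a60269874109a602698), (nat_lit 16), (nat_lit 0x74109a60269874109a602698), (nat_lit 16)⟩))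
(.nd (.lf ⟨(nat_lit 0x589), (nat_lit 2), (nat_lit 0x58e256389389389256), (nat_lit 12)⟩)
(.lf ⟨(nat_lit 0x28f30b), (nat_lit 4), (nat_lit 0x279636986d569b6153cc2ca), (nat_lit 15)⟩))))
(.nd (.nd (.nd (.lf ⟨(nat_lit 89), (nat_lit 2), (nat_lit 0x2093c824864f2483d03da25a401), (nat_lit 18)⟩)
(.lf ⟨(nat_lit 551), (nat_lit 2), (nat_lit 0x9c8), (nat_lit 2)⟩))
(.nd (.lf ⟨(nat_lit 16), (nat_lit 1), (nat_lit 0xd0243409), (nat_lit 6)⟩)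
(.lf ⟨(nat_lit 0x7a2), (nat_lit 2), (nat_lit 0x89e), (nat_lit 2)⟩)))
(.nd (.nd (.lf ⟨(nat_lit 0x23cd), (nat_lit 3), (nat_lit 0x192455d93c91573cf342), (nat_lit 13)⟩)
(.lf ⟨(nat_lit 0x1d70c), (nat_lit 3), (nat_lit 0xc75c), (nat_lit 3)⟩))
(.lf ⟨(nat_lit 0x6409), (nat_lit 3), (nat_lit 0x1025431031a61430e3ce3d03903d038f30f3903d03903ce3ce190), (nat_lit 35)⟩))))
(.nd (.nd (.nd (.nd (.lf ⟨(nat_lit 0xc70810c7081), (nat_lit 8), (nat_lit 0x47083047083), (nat_lit 8)⟩)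
(.lf ⟨(nat_lit 0x4a30b28c2c128c2ca30b), (nat_lit 14), (nat_lit 0x4a30b28c2c128c2ca30b), (nat_lit 14)⟩))
(.nd (.lf ⟨(nat_lit 16), (nat_lit 1), (nat_lit 0xc90c9), (nat_lit 4)⟩)
(.lf ⟨(nat_lit 0x530b1503102c5), (nat_lit 9), (nat_lit 0xc2c540c40b145), (nat_lit 9)⟩)))
(.nd (.nd (.lf ⟨(nat_lit 0x490490), (nat_lit 4), (nat_lit 0), (nat_lit 0)⟩)
(.lf ⟨(nat_lit 720), (nat_lit 2), (nat_lit 0x7d14117cb), (nat_lit 6)⟩))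
(.nd (.lf ⟨(nat_lit 0x5234848d21221220148d212348488488), (nat_lit 22), (nat_lit 0x5234848d21221220148d212348488488), (nat_lit 22)⟩)
(.lf ⟨(nat_lit 0xc130810c20404c20430810304c20430810130810c204), (nat_lit 30), (nat_lit 0xc130810c20404c20430810304c20430810130810c204), (nat_lit 30)⟩))))
(.nd (.nd (.nd (.lf ⟨(nat_lit 537), (nat_lit 2), (nat_lit 0x648), (nat_lit 2)⟩)
(.lf ⟨(nat_lit 0x30d30d), (nat_lit 4), (nat_lit 0x30d30d), (nat_lit 4)⟩))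
(.nd (.lf ⟨(nat_lit 0x34840d210), (nat_lit 6), (nat_lit 0x34840d210), (nat_lit 6)⟩)
(.lf ⟨(nat_lit 0x6098c9e024c241826327809309), (nat_lit 18), (nat_lit 0x6098c9e024c241826327809309), (nat_lit 18)⟩)))
(.nd (.nd (.lf ⟨(nat_lit 0x1cf81f), (nat_lit 4), (nat_lit 0x3e07cf1cf), (nat_lit 6)⟩)
(.lf ⟨(nat_lit 0x152150), (nat_lit 4), (nat_lit 0x79289a49a422785485), (nat_lit 12)⟩))
(.lf ⟨(nat_lit 0x5db), (nat_lit 2), (nat_lit 0x65b657), (nat_lit 4)⟩)))))))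
(.nd (.nd (.nd (.nd (.nd (.nd (.nd (.lf ⟨(nat_lit 31), (nat_lit 1), (nat_lit 0xd20d2), (nat_lit 4)⟩)
(.lf ⟨(nat_lit 0x5c75c7), (nat_lit 4), (nat_lit 0x1d71d7), (nat_lit 4)⟩))
(.nd (.lf ⟨(nat_lit 162), (nat_lit 2), (nat_lit 0x882), (nat_lit 2)⟩)
(.lf ⟨(nat_lit 0x476c76c11db1db), (nat_lit 10), (nat_lit 0x476c76c11db1db), (nat_lit 10)⟩)))
(.nd (.nd (.lf ⟨(nat_lit 0x14814f), (nat_lit 4), (nat_lit 0x64d2592052593cd645), (nat_lit 12)⟩)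
(.lf ⟨(nat_lit 0), (nat_lit 0), (nat_lit 0x299299), (nat_lit 4)⟩))
(.nd (.lf ⟨(nat_lit 0x19256549595), (nat_lit 7), (nat_lit 0x9595256559), (nat_lit 7)⟩)
(.lf ⟨(nat_lit 0x1a605), (nat_lit 3), (nat_lit 0x5698), (nat_lit 3)⟩))))
(.nd (.nd (.nd (.lf ⟨(nat_lit 0x1c2147085), (nat_lit 6), (nat_lit 0x1470851c2), (nat_lit 6)⟩)
(.lf ⟨(nat_lit 0xe513), (nat_lit 3), (nat_lit 0x144ce), (nat_lit 3)⟩))
(.nd (.lf ⟨(nat_lit 0xa02a781128280a9e044a), (nat_lit 14), (nat_lit 0xa02a781128280a9e044a), (nat_lit 14)⟩)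
(.lf ⟨(nat_lit 36), (nat_lit 1), (nat_lit 0xc77870c7787), (nat_lit 8)⟩)))
(.nd (.nd (.lf ⟨(nat_lit 159), (nat_lit 2), (nat_lit 0x1f8121df812287282), (nat_lit 11)⟩)
(.lf ⟨(nat_lit 666), (nat_lit 2), (nat_lit 0x68a), (nat_lit 2)⟩))
(.lf ⟨(nat_lit 0x40f40f), (nat_lit 4), (nat_lit 0x258258), (nat_lit 4)⟩))))
(.nd (.nd (.nd (.nd (.lf ⟨(nat_lit 202), (nat_lit 2), (nat_lit 0x10a10a10a103), (nat_lit 8)⟩)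
(.lf ⟨(nat_lit 0x90191b4566984640646d159a611), (nat_lit 18), (nat_lit 0x90191b4566984640646d159a611), (nat_lit 18)⟩))
(.nd (.lf ⟨(nat_lit 0x75c38575c14e), (nat_lit 8), (nat_lit 0x4e14e04e14e), (nat_lit 8)⟩)
(.lf ⟨(nat_lit 228), (nat_lit 2), (nat_lit 0x903), (nat_lit 2)⟩)))
(.nd (.nd (.lf ⟨(nat_lit 0x6288), (nat_lit 3), (nat_lit 0x74a206), (nat_lit 4)⟩)
(.lf ⟨(nat_lit 215), (nat_lit 2), (nat_lit 0x207c75cf3207cc81f64f3278193e631f9df3207e77cc81f5d85cf3093091e260b24b243), (nat_lit 47)⟩))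
(.nd (.lf ⟨(nat_lit 0x641c), (nat_lit 3), (nat_lit 0x10710190), (nat_lit 5)⟩)
(.lf ⟨(nat_lit 0x69b), (nat_lit 2), (nat_lit 0x6da), (nat_lit 2)⟩))))
(.nd (.nd (.nd (.lf ⟨(nat_lit 460), (nat_lit 2), (nat_lit 775), (nat_lit 2)⟩)
(.lf ⟨(nat_lit 516), (nat_lit 2), (nat_lit 264), (nat_lit 2)⟩))
(.nd (.lf ⟨(nat_lit 7), (nat_lit 1), (nat_lit 0xc20c2), (nat_lit 4)⟩)
(.lf ⟨(nat_lit 31), (nat_lit 1), (nat_lit 0xd2403490), (nat_lit 6)⟩)))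
(.nd (.nd (.lf ⟨(nat_lit 144), (nat_lit 2), (nat_lit 0x8107c2), (nat_lit 4)⟩)
(.lf ⟨(nat_lit 0x3d03c6406), (nat_lit 6), (nat_lit 0x18f18f), (nat_lit 4)⟩))
(.lf ⟨(nat_lit 0x7d5), (nat_lit 2), (nat_lit 0x55f), (nat_lit 2)⟩)))))
(.nd (.nd (.nd (.nd (.nd (.lf ⟨(nat_lit 0x5d7), (nat_lit 2), (nat_lit 0), (nat_lit 0)⟩)
(.lf ⟨(nat_lit 197), (nat_lit 2), (nat_lit 0x30b143), (nat_lit 4)⟩))
(.nd (.lf ⟨(nat_lit 145), (nat_lit 2), (nat_lit 0x1e285285442), (nat_lit 7)⟩)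
(.lf ⟨(nat_lit 230), (nat_lit 2), (nat_lit 0x983), (nat_lit 2)⟩)))
(.nd (.nd (.lf ⟨(nat_lit 0x3c118f046), (nat_lit 6), (nat_lit 0x18f0463c1), (nat_lit 6)⟩)
(.lf ⟨(nat_lit 0x6c9), (nat_lit 2), (nat_lit 0x6d125b44944944925b), (nat_lit 12)⟩))
(.nd (.lf ⟨(nat_lit 32), (nat_lit 1), (nat_lit 0x110110), (nat_lit 4)⟩)
(.lf ⟨(nat_lit 0x127963127963), (nat_lit 8), (nat_lit 0x127963127963), (nat_lit 8)⟩))))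
(.nd (.nd (.nd (.lf ⟨(nat_lit 0x3147), (nat_lit 3), (nat_lit 0x51c50c5), (nat_lit 5)⟩)
(.lf ⟨(nat_lit 871), (nat_lit 2), (nat_lit 0x3e73cd), (nat_lit 4)⟩))
(.nd (.lf ⟨(nat_lit 0x71471531c51c5), (nat_lit 9), (nat_lit 0x8c08c), (nat_lit 4)⟩)
(.lf ⟨(nat_lit 0x441), (nat_lit 2), (nat_lit 81), (nat_lit 2)⟩)))
(.nd (.nd (.lf ⟨(nat_lit 0x1c81c8792692), (nat_lit 8), (nat_lit 0x7926921c81c8), (nat_lit 8)⟩)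
(.lf ⟨(nat_lit 0x15e19e1de19e1c5786787786787), (nat_lit 18), (nat_lit 0x15e19e1de19e1c5786787786787), (nat_lit 18)⟩))
(.lf ⟨(nat_lit 0x59f), (nat_lit 2), (nat_lit 0x7d6), (nat_lit 2)⟩))))
(.nd (.nd (.nd (.nd (.lf ⟨(nat_lit 0x90243), (nat_lit 4), (nat_lit 0x250243090247), (nat_lit 8)⟩)
(.lf ⟨(nat_lit 0x29428b), (nat_lit 4), (nat_lit 0x2ca50a), (nat_lit 4)⟩))
(.nd (.lf ⟨(nat_lit 0x2dc2dc), (nat_lit 4), (nat_lit 0x70b70b), (nat_lit 4)⟩)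
(.lf ⟨(nat_lit 0x310310310310), (nat_lit 8), (nat_lit 0), (nat_lit 0)⟩)))
(.nd (.nd (.lf ⟨(nat_lit 99), (nat_lit 2), (nat_lit 0x34920525b45228d21228d22375b45228d212285741), (nat_lit 28)⟩)
(.lf ⟨(nat_lit 0xe9a4), (nat_lit 3), (nat_lit 0x2690e), (nat_lit 3)⟩))
(.nd (.lf ⟨(nat_lit 544), (nat_lit 2), (nat_lit 0x808), (nat_lit 2)⟩)
(.lf ⟨(nat_lit 0x2795d408408), (nat_lit 7), (nat_lit 0x12679a44499e691), (nat_lit 10)⟩))))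
(.nd (.nd (.nd (.lf ⟨(nat_lit 166), (nat_lit 2), (nat_lit 0x599f18399f79244a99f79244a30714b1d41837c37d229f48a0c2), (nat_lit 35)⟩)
(.lf ⟨(nat_lit 0x20c2c830b20c2c830b), (nat_lit 12), (nat_lit 0x14830b20c2c520c2c830b), (nat_lit 14)⟩))
(.nd (.lf ⟨(nat_lit 0x95347), (nat_lit 4), (nat_lit 0x34734254d), (nat_lit 6)⟩)
(.lf ⟨(nat_lit 0x8e5), (nat_lit 2), (nat_lit 0x963), (nat_lit 2)⟩)))
(.nd (.nd (.lf ⟨(nat_lit 0), (nat_lit 0), (nat_lit 0x5c35d781f81f81f5d70d75e07e07e07d7), (nat_lit 22)⟩)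
(.lf ⟨(nat_lit 0x4a2797), (nat_lit 4), (nat_lit 0x5d289e), (nat_lit 4)⟩))
(.lf ⟨(nat_lit 0xe3d5), (nat_lit 3), (nat_lit 0xf54f38f), (nat_lit 5)⟩))))))
(.nd (.nd (.nd (.nd (.nd (.nd (.lf ⟨(nat_lit 71), (nat_lit 2), (nat_lit 0xc1c1), (nat_lit 3)⟩)
(.lf ⟨(nat_lit 0x1581f), (nat_lit 3), (nat_lit 0x207d5), (nat_lit 3)⟩))
(.nd (.lf ⟨(nat_lit 0x11b4564446d1591), (nat_lit 10), (nat_lit 0x11b4564446d1591), (nat_lit 10)⟩)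
(.lf ⟨(nat_lit 0xa311), (nat_lit 3), (nat_lit 0xc44c28c), (nat_lit 5)⟩)))
(.nd (.nd (.lf ⟨(nat_lit 0x42c9), (nat_lit 3), (nat_lit 0xb24b10b), (nat_lit 5)⟩)
(.lf ⟨(nat_lit 0x9550), (nat_lit 3), (nat_lit 0x15415255), (nat_lit 5)⟩))
(.nd (.lf ⟨(nat_lit 463), (nat_lit 2), (nat_lit 0x3e07cc81f3207cf30f2667e77cc81f247), (nat_lit 22)⟩)
(.lf ⟨(nat_lit 0), (nat_lit 0), (nat_lit 0xcc28c28330a30a), (nat_lit 10)⟩))))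
(.nd (.nd (.nd (.lf ⟨(nat_lit 0xcd0820cd082), (nat_lit 8), (nat_lit 0x8d08308d083), (nat_lit 8)⟩)
(.lf ⟨(nat_lit 0x1d7a0), (nat_lit 3), (nat_lit 0x1e81e75e), (nat_lit 5)⟩))
(.nd (.lf ⟨(nat_lit 0x1d38a), (nat_lit 3), (nat_lit 0xc8103204), (nat_lit 6)⟩)
(.lf ⟨(nat_lit 0x327826), (nat_lit 4), (nat_lit 0x99f9e07cc), (nat_lit 6)⟩)))
(.nd (.nd (.lf ⟨(nat_lit 0x4526d1), (nat_lit 4), (nat_lit 0x9128244a), (nat_lit 6)⟩)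
(.lf ⟨(nat_lit 0x1c430930910c24c24710c24c244309309), (nat_lit 22), (nat_lit 0x1c430930910c24c24710c24c244309309), (nat_lit 22)⟩))
(.lf ⟨(nat_lit 0x9310), (nat_lit 3), (nat_lit 0xc40c24c), (nat_lit 5)⟩))))
(.nd (.nd (.nd (.nd (.lf ⟨(nat_lit 206), (nat_lit 2), (nat_lit 0x20e20e20e203), (nat_lit 8)⟩)
(.lf ⟨(nat_lit 0xc3d3), (nat_lit 3), (nat_lit 0xf4cf30f), (nat_lit 5)⟩))
(.nd (.lf ⟨(nat_lit 0x2c624b246), (nat_lit 6), (nat_lit 0x89189182246246), (nat_lit 10)⟩)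
(.lf ⟨(nat_lit 0x9b8e56e79633ca3ca09b8e56e79633ca3ca), (nat_lit 24), (nat_lit 0x9b8e56e79633ca3ca09b8e56e79633ca3ca), (nat_lit 24)⟩)))
(.nd (.nd (.lf ⟨(nat_lit 295), (nat_lit 2), (nat_lit 0x81022781a40881021074e9e069022040e21a74e2204086909e0388804), (nat_lit 38)⟩)
(.lf ⟨(nat_lit 0x29728f), (nat_lit 4), (nat_lit 0x2795d49d48f34a5e334a), (nat_lit 13)⟩))
(.nd (.lf ⟨(nat_lit 0x460), (nat_lit 2), (nat_lit 0x811), (nat_lit 2)⟩)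
(.lf ⟨(nat_lit 0x5a3), (nat_lit 2), (nat_lit 0x8d6), (nat_lit 2)⟩))))
(.nd (.nd (.nd (.lf ⟨(nat_lit 284), (nat_lit 2), (nat_lit 0xa38829d44a20638828620a18a19d444), (nat_lit 21)⟩)
(.lf ⟨(nat_lit 0x126912512126912512), (nat_lit 12), (nat_lit 0x126912512126912512), (nat_lit 12)⟩))
(.nd (.lf ⟨(nat_lit 0x9c79c19c79c1), (nat_lit 8), (nat_lit 0x9c79c19c79c1), (nat_lit 8)⟩)
(.lf ⟨(nat_lit 0x115106115108115108184544204544204544184544204544206115108115108), (nat_lit 42), (nat_lit 0x115106115108115108184544204544204544184544204544206115108115108), (nat_lit 42)⟩)))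
(.nd (.nd (.lf ⟨(nat_lit 0), (nat_lit 0), (nat_lit 0x142142), (nat_lit 4)⟩)
(.lf ⟨(nat_lit 0x105e2), (nat_lit 3), (nat_lit 0x207e281f417), (nat_lit 7)⟩))
(.lf ⟨(nat_lit 0x207d8), (nat_lit 3), (nat_lit 0x1881f), (nat_lit 3)⟩)))))
(.nd (.nd (.nd (.nd (.nd (.lf ⟨(nat_lit 0x8a2), (nat_lit 2), (nat_lit 0), (nat_lit 0)⟩)
(.lf ⟨(nat_lit 0x75c20b75c2c8), (nat_lit 8), (nat_lit 0x18b20b2062c82c8), (nat_lit 10)⟩))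
(.nd (.lf ⟨(nat_lit 0x548f), (nat_lit 3), (nat_lit 0x1e5de48f497152), (nat_lit 9)⟩)
(.lf ⟨(nat_lit 0x4a4), (nat_lit 2), (nat_lit 0x912), (nat_lit 2)⟩)))
(.nd (.nd (.lf ⟨(nat_lit 83), (nat_lit 2), (nat_lit 0x4c71471531c51c54c1), (nat_lit 12)⟩)
(.lf ⟨(nat_lit 268), (nat_lit 2), (nat_lit 0x792696552304), (nat_lit 8)⟩))
(.nd (.lf ⟨(nat_lit 0x5a0), (nat_lit 2), (nat_lit 0x816), (nat_lit 2)⟩)
(.lf ⟨(nat_lit 0x55a), (nat_lit 2), (nat_lit 0x6da55b), (nat_lit 4)⟩))))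
(.nd (.nd (.nd (.lf ⟨(nat_lit 202), (nat_lit 2), (nat_lit 643), (nat_lit 2)⟩)
(.lf ⟨(nat_lit 869), (nat_lit 2), (nat_lit 0x94d), (nat_lit 2)⟩))
(.nd (.lf ⟨(nat_lit 166), (nat_lit 2), (nat_lit 0x599f18399f79244a99f79244a5072d330b50b1cb30b4d42d31c64c72cc15f0c2), (nat_lit 43)⟩)
(.lf ⟨(nat_lit 0x30830a30830a), (nat_lit 8), (nat_lit 0x30830a30830a), (nat_lit 8)⟩)))
(.nd (.nd (.lf ⟨(nat_lit 0x1439831543071852d41c60e60c550c1c614b5071850e60c550c1c614b5071839831543071852d41c6), (nat_lit 54), (nat_lit 0x1439831543071852d41c60e60c550c1c614b5071850e60c550c1c614b5071839831543071852d41c6), (nat_lit 54)⟩)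
(.lf ⟨(nat_lit 341), (nat_lit 2), (nat_lit 0x30d21330d3084cc545), (nat_lit 12)⟩))
(.lf ⟨(nat_lit 0x21529528854a54a), (nat_lit 10), (nat_lit 0x21529528854a54a), (nat_lit 10)⟩))))
(.nd (.nd (.nd (.nd (.lf ⟨(nat_lit 395), (nat_lit 2), (nat_lit 710), (nat_lit 2)⟩)
(.lf ⟨(nat_lit 0x28c2d1), (nat_lit 4), (nat_lit 0x30b44c2ca30b), (nat_lit 8)⟩))
(.nd (.lf ⟨(nat_lit 0), (nat_lit 0), (nat_lit 0x48048), (nat_lit 4)⟩)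
(.lf ⟨(nat_lit 478), (nat_lit 2), (nat_lit 0x7923d23c7), (nat_lit 6)⟩)))
(.nd (.nd (.lf ⟨(nat_lit 11), (nat_lit 1), (nat_lit 0x182182), (nat_lit 4)⟩)
(.lf ⟨(nat_lit 916), (nat_lit 2), (nat_lit 0x45444e), (nat_lit 4)⟩))
(.nd (.lf ⟨(nat_lit 0x485485657), (nat_lit 6), (nat_lit 0x657485485), (nat_lit 6)⟩)
(.lf ⟨(nat_lit 590), (nat_lit 2), (nat_lit 0x27963389), (nat_lit 5)⟩))))
(.nd (.nd (.nd (.lf ⟨(nat_lit 75), (nat_lit 2), (nat_lit 0x51851c630714b1d41933072c750518530714b1d418350c1c60c1), (nat_lit 35)⟩)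
(.lf ⟨(nat_lit 0x786786), (nat_lit 4), (nat_lit 0x19e19e), (nat_lit 4)⟩))
(.nd (.lf ⟨(nat_lit 0x1dc454714447), (nat_lit 8), (nat_lit 0xd41d15111c3507454447), (nat_lit 14)⟩)
(.lf ⟨(nat_lit 0x4e79a7), (nat_lit 4), (nat_lit 0x9e69e69d39e6), (nat_lit 8)⟩)))
(.nd (.nd (.lf ⟨(nat_lit 0x3487cd21f21f21f3487cd21f21f21f), (nat_lit 20), (nat_lit 0), (nat_lit 0)⟩)
(.lf ⟨(nat_lit 0x549a), (nat_lit 3), (nat_lit 0x12692152), (nat_lit 5)⟩))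
(.lf ⟨(nat_lit 349), (nat_lit 2), (nat_lit 0x745), (nat_lit 2)⟩)))))))))))
(.nd (.nd (.nd (.nd (.nd (.nd (.nd (.nd (.nd (.nd (.nd (.lf ⟨(nat_lit 130), (nat_lit 2), (nat_lit 0), (nat_lit 0)⟩)
(.lf ⟨(nat_lit 0x6657), (nat_lit 3), (nat_lit 0x195c6), (nat_lit 3)⟩))
(.nd (.lf ⟨(nat_lit 0x87cd), (nat_lit 3), (nat_lit 0x1f35f21f), (nat_lit 5)⟩)
(.lf ⟨(nat_lit 0x455), (nat_lit 2), (nat_lit 0x551), (nat_lit 2)⟩)))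
(.nd (.nd (.lf ⟨(nat_lit 221), (nat_lit 2), (nat_lit 0xe28844a20638a74818818a19c443), (nat_lit 19)⟩)
(.lf ⟨(nat_lit 0x9e19e182786786), (nat_lit 10), (nat_lit 0x9e19e182786786), (nat_lit 10)⟩))
(.nd (.lf ⟨(nat_lit 0x1d151c51c454714707), (nat_lit 12), (nat_lit 0x1d11d41dc51c1c7447507714707), (nat_lit 18)⟩)
(.lf ⟨(nat_lit 612), (nat_lit 2), (nat_lit 0x9e69e69e69e69e69e69e69e69e69e69e69e6909), (nat_lit 26)⟩))))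
(.nd (.nd (.nd (.lf ⟨(nat_lit 0x204204), (nat_lit 4), (nat_lit 0), (nat_lit 0)⟩)
(.lf ⟨(nat_lit 722), (nat_lit 2), (nat_lit 0x71231c30b), (nat_lit 6)⟩))
(.nd (.lf ⟨(nat_lit 0x34a34a), (nat_lit 4), (nat_lit 0x34a34a), (nat_lit 4)⟩)
(.lf ⟨(nat_lit 0x6986d1591), (nat_lit 6), (nat_lit 0x2c42c4), (nat_lit 4)⟩)))
(.nd (.nd (.lf ⟨(nat_lit 0x1882c82c620b20b), (nat_lit 10), (nat_lit 0x1882c82c620b20b), (nat_lit 10)⟩)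
(.lf ⟨(nat_lit 476), (nat_lit 2), (nat_lit 0x707), (nat_lit 2)⟩))
(.nd (.lf ⟨(nat_lit 0xd7a0), (nat_lit 3), (nat_lit 0x1e81e80d81e), (nat_lit 7)⟩)
(.lf ⟨(nat_lit 0x9633ca3ca), (nat_lit 6), (nat_lit 0x11a604698), (nat_lit 6)⟩)))))
(.nd (.nd (.nd (.nd (.lf ⟨(nat_lit 0x8e3), (nat_lit 2), (nat_lit 0), (nat_lit 0)⟩)
(.lf ⟨(nat_lit 0x875c20b75c2c8), (nat_lit 9), (nat_lit 0x1d7082dd70b208), (nat_lit 9)⟩))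
(.nd (.lf ⟨(nat_lit 0x2572495c9), (nat_lit 6), (nat_lit 0), (nat_lit 0)⟩)
(.lf ⟨(nat_lit 542), (nat_lit 2), (nat_lit 0x788), (nat_lit 2)⟩)))
(.nd (.nd (.lf ⟨(nat_lit 159), (nat_lit 2), (nat_lit 0x1f1ca2472477d21ca2472478102878121ca2478104872477d21ca2472478102878124121ca2472891c2), (nat_lit 55)⟩)
(.lf ⟨(nat_lit 477), (nat_lit 2), (nat_lit 0x750296296407), (nat_lit 8)⟩))
(.nd (.lf ⟨(nat_lit 0x7749), (nat_lit 3), (nat_lit 0x2074975f1dd), (nat_lit 7)⟩)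
(.lf ⟨(nat_lit 0x4e2), (nat_lit 2), (nat_lit 0x893), (nat_lit 2)⟩))))
(.nd (.nd (.nd (.lf ⟨(nat_lit 141), (nat_lit 2), (nat_lit 834), (nat_lit 2)⟩)
(.lf ⟨(nat_lit 0x4a7), (nat_lit 2), (nat_lit 0x9e07a0792), (nat_lit 6)⟩))
(.nd (.lf ⟨(nat_lit 0x9a4), (nat_lit 2), (nat_lit 0x192192), (nat_lit 4)⟩)
(.lf ⟨(nat_lit 0x830a), (nat_lit 3), (nat_lit 0x74c28c20c), (nat_lit 6)⟩)))
(.nd (.nd (.lf ⟨(nat_lit 331), (nat_lit 2), (nat_lit 0x50c2cc154), (nat_lit 6)⟩)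
(.lf ⟨(nat_lit 531), (nat_lit 2), (nat_lit 0x4c8), (nat_lit 2)⟩))
(.lf ⟨(nat_lit 0x35d35d), (nat_lit 4), (nat_lit 0x74d74d), (nat_lit 4)⟩)))))
(.nd (.nd (.nd (.nd (.nd (.lf ⟨(nat_lit 136), (nat_lit 2), (nat_lit 0xd202), (nat_lit 3)⟩)
(.lf ⟨(nat_lit 598), (nat_lit 2), (nat_lit 0x758758589), (nat_lit 6)⟩))
(.nd (.lf ⟨(nat_lit 0x59b), (nat_lit 2), (nat_lit 0x6d6), (nat_lit 2)⟩)
(.lf ⟨(nat_lit 0x26513), (nat_lit 3), (nat_lit 0x144e6), (nat_lit 3)⟩)))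
(.nd (.nd (.lf ⟨(nat_lit 0x38310e0c4), (nat_lit 6), (nat_lit 0x10e0c4383), (nat_lit 6)⟩)
(.lf ⟨(nat_lit 0x1038d38d), (nat_lit 5), (nat_lit 0xe34e350), (nat_lit 5)⟩))
(.nd (.lf ⟨(nat_lit 0x143143), (nat_lit 4), (nat_lit 0x143143), (nat_lit 4)⟩)
(.lf ⟨(nat_lit 0x479a595), (nat_lit 5), (nat_lit 0x1e696544), (nat_lit 5)⟩))))
(.nd (.nd (.nd (.lf ⟨(nat_lit 150), (nat_lit 2), (nat_lit 0x396396396382), (nat_lit 8)⟩)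
(.lf ⟨(nat_lit 0x1975e75e), (nat_lit 5), (nat_lit 0x1d79d799), (nat_lit 5)⟩))
(.nd (.lf ⟨(nat_lit 0x486486), (nat_lit 4), (nat_lit 0x486486), (nat_lit 4)⟩)
(.lf ⟨(nat_lit 0x840f), (nat_lit 3), (nat_lit 0xf210), (nat_lit 3)⟩)))
(.nd (.nd (.lf ⟨(nat_lit 0), (nat_lit 0), (nat_lit 0x44a44a), (nat_lit 4)⟩)
(.lf ⟨(nat_lit 0x11498), (nat_lit 3), (nat_lit 0x12612452), (nat_lit 5)⟩))
(.lf ⟨(nat_lit 278), (nat_lit 2), (nat_lit 0x958e8c9384), (nat_lit 7)⟩))))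
(.nd (.nd (.nd (.nd (.lf ⟨(nat_lit 0x283283), (nat_lit 4), (nat_lit 0xca0ca), (nat_lit 4)⟩)
(.lf ⟨(nat_lit 0xd309309), (nat_lit 5), (nat_lit 0xc24c24d), (nat_lit 5)⟩))
(.nd (.lf ⟨(nat_lit 0x1892c91892c9), (nat_lit 8), (nat_lit 0x18b24b2462c92c9), (nat_lit 10)⟩)
(.lf ⟨(nat_lit 0x2826e395b9e58cf28f2826e395b9e58cf28f28a09b8e56e79633ca3ca09b8e56e79633ca3ca), (nat_lit 50), (nat_lit 0x2826e395b9e58cf28f2826e395b9e58cf28f28a09b8e56e79633ca3ca09b8e56e79633ca3ca), (nat_lit 50)⟩)))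
(.nd (.nd (.lf ⟨(nat_lit 0xe60c3983), (nat_lit 6), (nat_lit 0), (nat_lit 0)⟩)
(.lf ⟨(nat_lit 666), (nat_lit 2), (nat_lit 0x69141140a), (nat_lit 6)⟩))
(.nd (.lf ⟨(nat_lit 0x8406406), (nat_lit 5), (nat_lit 0x10190188), (nat_lit 5)⟩)
(.lf ⟨(nat_lit 0x6a6), (nat_lit 2), (nat_lit 0x99a), (nat_lit 2)⟩))))
(.nd (.nd (.nd (.lf ⟨(nat_lit 0x7e6), (nat_lit 2), (nat_lit 0x99f), (nat_lit 2)⟩)
(.lf ⟨(nat_lit 0x1a04901a0490), (nat_lit 8), (nat_lit 0x1a04901a0490), (nat_lit 8)⟩))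
(.nd (.lf ⟨(nat_lit 0x9c74479d1), (nat_lit 6), (nat_lit 0x9c79d19c79d1), (nat_lit 8)⟩)
(.lf ⟨(nat_lit 0x115101115108115108044544204544204544044544204544201115108115108), (nat_lit 42), (nat_lit 0x115101115108115108044544204544204544044544204544201115108115108), (nat_lit 42)⟩)))
(.nd (.nd (.lf ⟨(nat_lit 0x406406), (nat_lit 4), (nat_lit 0x4031900c6), (nat_lit 6)⟩)
(.lf ⟨(nat_lit 0x5d8), (nat_lit 2), (nat_lit 0x617), (nat_lit 2)⟩))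
(.lf ⟨(nat_lit 0x92cf), (nat_lit 3), (nat_lit 0xb3cb24b), (nat_lit 5)⟩))))))
(.nd (.nd (.nd (.nd (.nd (.nd (.lf ⟨(nat_lit 34), (nat_lit 1), (nat_lit 0x9a09a), (nat_lit 4)⟩)
(.lf ⟨(nat_lit 0), (nat_lit 0), (nat_lit 0xd30d3), (nat_lit 4)⟩))
(.nd (.lf ⟨(nat_lit 0x1051cb3061471841472cc1851c6), (nat_lit 18), (nat_lit 0x1051cb3061471841472cc1851c6), (nat_lit 18)⟩)
(.lf ⟨(nat_lit 0x1de1de), (nat_lit 4), (nat_lit 0x787787), (nat_lit 4)⟩)))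
(.nd (.nd (.lf ⟨(nat_lit 0x204088102), (nat_lit 6), (nat_lit 0x88102204), (nat_lit 6)⟩)
(.lf ⟨(nat_lit 0), (nat_lit 0), (nat_lit 0x219219), (nat_lit 4)⟩))
(.nd (.lf ⟨(nat_lit 0x1d9595), (nat_lit 4), (nat_lit 0x6565591d9), (nat_lit 6)⟩)
(.lf ⟨(nat_lit 719), (nat_lit 2), (nat_lit 971), (nat_lit 2)⟩))))
(.nd (.nd (.nd (.lf ⟨(nat_lit 0x148148), (nat_lit 4), (nat_lit 0x205205), (nat_lit 4)⟩)
(.lf ⟨(nat_lit 0x3585585), (nat_lit 5), (nat_lit 0x16156143), (nat_lit 5)⟩))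
(.nd (.lf ⟨(nat_lit 0x80a9e044a80a9e044a), (nat_lit 12), (nat_lit 0), (nat_lit 0)⟩)
(.lf ⟨(nat_lit 0x124124), (nat_lit 4), (nat_lit 0x124124), (nat_lit 4)⟩)))
(.nd (.nd (.lf ⟨(nat_lit 224), (nat_lit 2), (nat_lit 0x2048a1ca1df483), (nat_lit 9)⟩)
(.lf ⟨(nat_lit 0x6df), (nat_lit 2), (nat_lit 0x7db), (nat_lit 2)⟩))
(.lf ⟨(nat_lit 0x2473c73c91cf1cf), (nat_lit 10), (nat_lit 0x2473c73c91cf1cf), (nat_lit 10)⟩))))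
(.nd (.nd (.nd (.nd (.lf ⟨(nat_lit 0x85085), (nat_lit 4), (nat_lit 0x142142), (nat_lit 4)⟩)
(.lf ⟨(nat_lit 0x9019026d159a61109b45669846406409b4566984426d159a611), (nat_lit 34), (nat_lit 0x9019026d159a61109b45669846406409b4566984426d159a611), (nat_lit 34)⟩))
(.nd (.lf ⟨(nat_lit 0x4e15615638138558558e), (nat_lit 14), (nat_lit 0x4e15615638138558558e), (nat_lit 14)⟩)
(.lf ⟨(nat_lit 0x5a3), (nat_lit 2), (nat_lit 0x8e575b61d61b5a5), (nat_lit 10)⟩)))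
(.nd (.nd (.lf ⟨(nat_lit 155), (nat_lit 2), (nat_lit 0x6c2), (nat_lit 2)⟩)
(.lf ⟨(nat_lit 99), (nat_lit 2), (nat_lit 0x81e81e75e75749d3512973458d234a22375b463348141), (nat_lit 30)⟩))
(.nd (.lf ⟨(nat_lit 0x113c63c6), (nat_lit 5), (nat_lit 0xf18f191), (nat_lit 5)⟩)
(.lf ⟨(nat_lit 868), (nat_lit 2), (nat_lit 0x91579578d), (nat_lit 6)⟩))))
(.nd (.nd (.nd (.lf ⟨(nat_lit 261), (nat_lit 2), (nat_lit 0x20f245348244), (nat_lit 8)⟩)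
(.lf ⟨(nat_lit 0x513), (nat_lit 2), (nat_lit 0x141185046), (nat_lit 6)⟩))
(.nd (.lf ⟨(nat_lit 459), (nat_lit 2), (nat_lit 711), (nat_lit 2)⟩)
(.lf ⟨(nat_lit 534), (nat_lit 2), (nat_lit 0x588), (nat_lit 2)⟩)))
(.nd (.nd (.lf ⟨(nat_lit 224), (nat_lit 2), (nat_lit 0x803), (nat_lit 2)⟩)
(.lf ⟨(nat_lit 0x3cd3d03c6406), (nat_lit 8), (nat_lit 0x3d03c64063cd), (nat_lit 8)⟩))
(.lf ⟨(nat_lit 0x21221f), (nat_lit 4), (nat_lit 0x7c8488), (nat_lit 4)⟩)))))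
(.nd (.nd (.nd (.nd (.nd (.lf ⟨(nat_lit 0x618), (nat_lit 2), (nat_lit 0), (nat_lit 0)⟩)
(.lf ⟨(nat_lit 0x255490), (nat_lit 4), (nat_lit 0x552415255), (nat_lit 6)⟩))
(.nd (.lf ⟨(nat_lit 0x1c6490192407192406490), (nat_lit 14), (nat_lit 0x1c6490192407192406490), (nat_lit 14)⟩)
(.lf ⟨(nat_lit 678), (nat_lit 2), (nat_lit 0x98a), (nat_lit 2)⟩)))
(.nd (.nd (.lf ⟨(nat_lit 0x1cb1cb), (nat_lit 4), (nat_lit 0x2c72c7), (nat_lit 4)⟩)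
(.lf ⟨(nat_lit 603), (nat_lit 2), (nat_lit 0x79d79d6c9), (nat_lit 6)⟩))
(.nd (.lf ⟨(nat_lit 0x74e25d389389389), (nat_lit 10), (nat_lit 0x10e24e244389389), (nat_lit 10)⟩)
(.lf ⟨(nat_lit 0x667963), (nat_lit 4), (nat_lit 0x9e58d9), (nat_lit 4)⟩))))
(.nd (.nd (.nd (.lf ⟨(nat_lit 0x244142244142), (nat_lit 8), (nat_lit 0x142244142244), (nat_lit 8)⟩)
(.lf ⟨(nat_lit 0x875274f48f), (nat_lit 7), (nat_lit 0x1d49d3d23c8), (nat_lit 7)⟩))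
(.nd (.lf ⟨(nat_lit 0x841c51c54c71471441c51c54c71471421071471531c51c51071471531c51c5), (nat_lit 42), (nat_lit 0x841c51c54c71471441c51c54c71471421071471531c51c51071471531c51c5), (nat_lit 42)⟩)
(.lf ⟨(nat_lit 0x44d44d), (nat_lit 4), (nat_lit 0x44d44d), (nat_lit 4)⟩)))
(.nd (.nd (.lf ⟨(nat_lit 268), (nat_lit 2), (nat_lit 0x7926923081c81c4), (nat_lit 10)⟩)
(.lf ⟨(nat_lit 0x4c94c9), (nat_lit 4), (nat_lit 0x253253), (nat_lit 4)⟩))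
(.lf ⟨(nat_lit 0x619), (nat_lit 2), (nat_lit 0x658), (nat_lit 2)⟩))))
(.nd (.nd (.nd (.nd (.lf ⟨(nat_lit 0x181106044), (nat_lit 6), (nat_lit 0x106044181), (nat_lit 6)⟩)
(.lf ⟨(nat_lit 0x1f0e69039a4), (nat_lit 7), (nat_lit 0x39a40e691f), (nat_lit 7)⟩))
(.nd (.lf ⟨(nat_lit 0xa70a2dc28b28b28b), (nat_lit 11), (nat_lit 0x1c28b70a2ca2ca2ca), (nat_lit 11)⟩)
(.lf ⟨(nat_lit 487), (nat_lit 2), (nat_lit 0x9c7), (nat_lit 2)⟩)))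
(.nd (.nd (.lf ⟨(nat_lit 220), (nat_lit 2), (nat_lit 0x1d28671d44a19c443), (nat_lit 11)⟩)
(.lf ⟨(nat_lit 736), (nat_lit 2), (nat_lit 0x80b), (nat_lit 2)⟩))
(.nd (.lf ⟨(nat_lit 81), (nat_lit 2), (nat_lit 0x441), (nat_lit 2)⟩)
(.lf ⟨(nat_lit 400), (nat_lit 2), (nat_lit 0x9e696421028c288306), (nat_lit 12)⟩))))
(.nd (.nd (.nd (.lf ⟨(nat_lit 223), (nat_lit 2), (nat_lit 0x72874091d025f4872891c91e040a1ca81228726028726040a1d229f483), (nat_lit 39)⟩)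
(.lf ⟨(nat_lit 0xc420c2c830b10830b20c2c310830b20c2c420c2c830b), (nat_lit 30), (nat_lit 0xc420c2c830b10830b20c2c310830b20c2c420c2c830b), (nat_lit 30)⟩))
(.nd (.lf ⟨(nat_lit 268), (nat_lit 2), (nat_lit 0x792692595304), (nat_lit 8)⟩)
(.lf ⟨(nat_lit 283), (nat_lit 2), (nat_lit 0x9e36cf28f284), (nat_lit 8)⟩)))
(.nd (.nd (.lf ⟨(nat_lit 0x41f), (nat_lit 2), (nat_lit 0x7e07e07d0), (nat_lit 6)⟩)
(.lf ⟨(nat_lit 0x25289a485485692), (nat_lit 10), (nat_lit 0x4a269215215a489), (nat_lit 10)⟩))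
(.lf ⟨(nat_lit 0x183d53dc), (nat_lit 5), (nat_lit 0x1c60f54f), (nat_lit 5)⟩)))))))
(.nd (.nd (.nd (.nd (.nd (.nd (.nd (.lf ⟨(nat_lit 18), (nat_lit 1), (nat_lit 0x8a08a), (nat_lit 4)⟩)
(.lf ⟨(nat_lit 0x94194681e81e9e07a781e44681e81e9e07a781e4650651a07a07a781e9e07911a07a07a781e9e0791), (nat_lit 54), (nat_lit 0x94194681e81e9e07a781e44681e81e9e07a781e4650651a07a07a781e9e07911a07a07a781e9e0791), (nat_lit 54)⟩))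
(.nd (.lf ⟨(nat_lit 0x1c90e61e61c32439879870c72439879870c90e61e61c3), (nat_lit 30), (nat_lit 0x1c90e61e61c32439879870c72439879870c90e61e61c3), (nat_lit 30)⟩)
(.lf ⟨(nat_lit 341), (nat_lit 2), (nat_lit 0x545), (nat_lit 2)⟩)))
(.nd (.nd (.lf ⟨(nat_lit 287), (nat_lit 2), (nat_lit 0x40948a24740a8091ca8091ca1e0484), (nat_lit 20)⟩)
(.lf ⟨(nat_lit 0x1b9a4), (nat_lit 3), (nat_lit 0x2691b), (nat_lit 3)⟩))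
(.nd (.lf ⟨(nat_lit 0x81f24c81f24c24c24c), (nat_lit 12), (nat_lit 0x1c930930724c24c), (nat_lit 10)⟩)
(.lf ⟨(nat_lit 0xc73481cd2031cd207348), (nat_lit 14), (nat_lit 0xc73481cd2031cd207348), (nat_lit 14)⟩))))
(.nd (.nd (.nd (.lf ⟨(nat_lit 0x244244), (nat_lit 4), (nat_lit 0), (nat_lit 0)⟩)
(.lf ⟨(nat_lit 0x593), (nat_lit 2), (nat_lit 0x4d6), (nat_lit 2)⟩))
(.nd (.lf ⟨(nat_lit 0x454a), (nat_lit 3), (nat_lit 0x15295115), (nat_lit 5)⟩)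
(.lf ⟨(nat_lit 800), (nat_lit 2), (nat_lit 0x80c), (nat_lit 2)⟩)))
(.nd (.nd (.lf ⟨(nat_lit 0), (nat_lit 0), (nat_lit 65), (nat_lit 2)⟩)
(.lf ⟨(nat_lit 0x79a4), (nat_lit 3), (nat_lit 0x26907), (nat_lit 3)⟩))
(.lf ⟨(nat_lit 0x5e0), (nat_lit 2), (nat_lit 0x817), (nat_lit 2)⟩))))
(.nd (.nd (.nd (.nd (.lf ⟨(nat_lit 0x81081), (nat_lit 4), (nat_lit 0x42042), (nat_lit 4)⟩)
(.lf ⟨(nat_lit 0x330b), (nat_lit 3), (nat_lit 0xc2c3), (nat_lit 3)⟩))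
(.nd (.lf ⟨(nat_lit 0xd79b), (nat_lit 3), (nat_lit 0xf79b3cd), (nat_lit 5)⟩)
(.lf ⟨(nat_lit 283), (nat_lit 2), (nat_lit 0x95b9e58cf28f284), (nat_lit 10)⟩)))
(.nd (.nd (.lf ⟨(nat_lit 279), (nat_lit 2), (nat_lit 0x1934f24564d2481592481491593c4), (nat_lit 19)⟩)
(.lf ⟨(nat_lit 0x5486), (nat_lit 3), (nat_lit 0x26912513486152), (nat_lit 9)⟩))
(.nd (.lf ⟨(nat_lit 0x11a604698), (nat_lit 6), (nat_lit 0x11a604698), (nat_lit 6)⟩)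
(.lf ⟨(nat_lit 743), (nat_lit 2), (nat_lit 0x9cb), (nat_lit 2)⟩))))
(.nd (.nd (.nd (.lf ⟨(nat_lit 203), (nat_lit 2), (nat_lit 0x24a4041842c648a2441c629f48a7d229f48a7d2107183), (nat_lit 30)⟩)
(.lf ⟨(nat_lit 0x3103d0), (nat_lit 4), (nat_lit 0x81f40f40c81f), (nat_lit 8)⟩))
(.nd (.lf ⟨(nat_lit 393), (nat_lit 2), (nat_lit 0x61a246), (nat_lit 4)⟩)
(.lf ⟨(nat_lit 0x18450b1142c61142c450b), (nat_lit 14), (nat_lit 0x18450b1142c61142c450b), (nat_lit 14)⟩)))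
(.nd (.nd (.lf ⟨(nat_lit 167), (nat_lit 2), (nat_lit 0x173c978549128f25e491285802), (nat_lit 17)⟩)
(.lf ⟨(nat_lit 916), (nat_lit 2), (nat_lit 0x50e), (nat_lit 2)⟩))
(.lf ⟨(nat_lit 0x848a), (nat_lit 3), (nat_lit 0x48d75234a212), (nat_lit 8)⟩)))))
(.nd (.nd (.nd (.nd (.nd (.lf ⟨(nat_lit 0x8c08c), (nat_lit 4), (nat_lit 0x302302), (nat_lit 4)⟩)
(.lf ⟨(nat_lit 0x944c2513), (nat_lit 6), (nat_lit 0x944c2513), (nat_lit 6)⟩))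
(.nd (.lf ⟨(nat_lit 0), (nat_lit 0), (nat_lit 0x45045), (nat_lit 4)⟩)
(.lf ⟨(nat_lit 0xc79b), (nat_lit 3), (nat_lit 0x1e6cc), (nat_lit 3)⟩)))
(.nd (.nd (.lf ⟨(nat_lit 0x307307), (nat_lit 4), (nat_lit 0), (nat_lit 0)⟩)
(.lf ⟨(nat_lit 0x3758758255255), (nat_lit 9), (nat_lit 0x1d61d609549543), (nat_lit 9)⟩))
(.nd (.lf ⟨(nat_lit 0x1381f), (nat_lit 3), (nat_lit 0x207d3), (nat_lit 3)⟩)
(.lf ⟨(nat_lit 0x456), (nat_lit 2), (nat_lit 0x591), (nat_lit 2)⟩))))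
(.nd (.nd (.nd (.lf ⟨(nat_lit 0x10e10e), (nat_lit 4), (nat_lit 0x384384), (nat_lit 4)⟩)
(.lf ⟨(nat_lit 0x5752752), (nat_lit 5), (nat_lit 0x1d49d485), (nat_lit 5)⟩))
(.nd (.lf ⟨(nat_lit 0x1219218899f21f2267c899f), (nat_lit 15), (nat_lit 0x899f21f2267c899f486486), (nat_lit 15)⟩)
(.lf ⟨(nat_lit 786), (nat_lit 2), (nat_lit 0x48c), (nat_lit 2)⟩)))
(.nd (.nd (.lf ⟨(nat_lit 0x69e), (nat_lit 2), (nat_lit 0x79a), (nat_lit 2)⟩)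
(.lf ⟨(nat_lit 280), (nat_lit 2), (nat_lit 0x2768840861269275a49a4906d124e8dd2513a36d1251244), (nat_lit 31)⟩))
(.lf ⟨(nat_lit 920), (nat_lit 2), (nat_lit 0x60e), (nat_lit 2)⟩))))
(.nd (.nd (.nd (.nd (.lf ⟨(nat_lit 92), (nat_lit 2), (nat_lit 0x29129c44a18319c45c44a71129c44a0c1), (nat_lit 22)⟩)
(.lf ⟨(nat_lit 0), (nat_lit 0), (nat_lit 0x9f09f), (nat_lit 4)⟩))
(.nd (.lf ⟨(nat_lit 0x35cf), (nat_lit 3), (nat_lit 0x5c76073c75c70d7), (nat_lit 10)⟩)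
(.lf ⟨(nat_lit 215), (nat_lit 2), (nat_lit 0x173e67cc9d93e681f64c24c8193e69e099f32780f32780c24c1e78193e67cc9e03277da61740f8a07da6173d03c930b24b1c3), (nat_lit 67)⟩)))
(.nd (.nd (.lf ⟨(nat_lit 159), (nat_lit 2), (nat_lit 0x7e04904902877d049029f812287282), (nat_lit 20)⟩)
(.lf ⟨(nat_lit 0x109a4), (nat_lit 3), (nat_lit 0x26910), (nat_lit 3)⟩))
(.nd (.lf ⟨(nat_lit 0x419), (nat_lit 2), (nat_lit 0x650), (nat_lit 2)⟩)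
(.lf ⟨(nat_lit 0x61b), (nat_lit 2), (nat_lit 0x6d8), (nat_lit 2)⟩))))
(.nd (.nd (.nd (.lf ⟨(nat_lit 0x21d44a), (nat_lit 4), (nat_lit 0x11288), (nat_lit 3)⟩)
(.lf ⟨(nat_lit 0), (nat_lit 0), (nat_lit 0x57057), (nat_lit 4)⟩))
(.nd (.lf ⟨(nat_lit 0x1ce34e), (nat_lit 4), (nat_lit 0x38d38d1cd), (nat_lit 6)⟩)
(.lf ⟨(nat_lit 0), (nat_lit 0), (nat_lit 0x2995ca657), (nat_lit 6)⟩)))
(.nd (.nd (.lf ⟨(nat_lit 0xd70d7), (nat_lit 4), (nat_lit 0x5c35c3), (nat_lit 4)⟩)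
(.lf ⟨(nat_lit 0x2513d0), (nat_lit 4), (nat_lit 0x6985103d03cc40c69850c81f3207cf3207d03207d03c944f), (nat_lit 32)⟩))
(.lf ⟨(nat_lit 0xd1491152143452445485), (nat_lit 14), (nat_lit 0xd1491152143452445485), (nat_lit 14)⟩))))))
(.nd (.nd (.nd (.nd (.nd (.nd (.lf ⟨(nat_lit 520), (nat_lit 2), (nat_lit 0), (nat_lit 0)⟩)
(.lf ⟨(nat_lit 0x954f), (nat_lit 3), (nat_lit 0x1661d61d5953d661d61661d615255), (nat_lit 19)⟩))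
(.nd (.lf ⟨(nat_lit 0x4184504506114114), (nat_lit 11), (nat_lit 0x6114114184504504), (nat_lit 11)⟩)
(.lf ⟨(nat_lit 0x493), (nat_lit 2), (nat_lit 0x4d2), (nat_lit 2)⟩)))
(.nd (.nd (.lf ⟨(nat_lit 0x1d2289), (nat_lit 4), (nat_lit 0x2048a247420420), (nat_lit 9)⟩)
(.lf ⟨(nat_lit 0x218758218758), (nat_lit 8), (nat_lit 0x21d61d608758758), (nat_lit 10)⟩))
(.nd (.lf ⟨(nat_lit 0x559), (nat_lit 2), (nat_lit 0x599595), (nat_lit 4)⟩)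
(.lf ⟨(nat_lit 276), (nat_lit 2), (nat_lit 0x2692075b61d6a769879d61679875696375b61d6a769875679d6167989636a779a6d859e6166a76a795245242379b6167985a58d13ce28f24e2ca24b1c6407184), (nat_lit 85)⟩))))
(.nd (.nd (.nd (.lf ⟨(nat_lit 0x28420a108), (nat_lit 6), (nat_lit 0x20a108284), (nat_lit 6)⟩)
(.lf ⟨(nat_lit 0x75274f48f), (nat_lit 6), (nat_lit 0x48f3523cd), (nat_lit 6)⟩))
(.nd (.lf ⟨(nat_lit 0x4a54a5), (nat_lit 4), (nat_lit 0x952952), (nat_lit 4)⟩)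
(.lf ⟨(nat_lit 0x4925), (nat_lit 3), (nat_lit 0x24964124), (nat_lit 5)⟩)))
(.nd (.nd (.lf ⟨(nat_lit 0x14a14a14a14a), (nat_lit 8), (nat_lit 0), (nat_lit 0)⟩)
(.lf ⟨(nat_lit 0x6d159175c), (nat_lit 6), (nat_lit 0x75c6d1591), (nat_lit 6)⟩))
(.lf ⟨(nat_lit 0x1440f40f), (nat_lit 5), (nat_lit 0x103d03d4), (nat_lit 5)⟩))))
(.nd (.nd (.nd (.nd (.lf ⟨(nat_lit 0x182182), (nat_lit 4), (nat_lit 0x86086), (nat_lit 4)⟩)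
(.lf ⟨(nat_lit 0x5e49a592541792696495), (nat_lit 14), (nat_lit 0x5e49a592541792696495), (nat_lit 14)⟩))
(.nd (.lf ⟨(nat_lit 0x657), (nat_lit 2), (nat_lit 0x148148), (nat_lit 4)⟩)
(.lf ⟨(nat_lit 0xc693), (nat_lit 3), (nat_lit 0x1331a), (nat_lit 3)⟩)))
(.nd (.nd (.lf ⟨(nat_lit 413), (nat_lit 2), (nat_lit 0x74e44e446), (nat_lit 6)⟩)
(.lf ⟨(nat_lit 0), (nat_lit 0), (nat_lit 0x40e40e), (nat_lit 4)⟩))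
(.nd (.lf ⟨(nat_lit 0x19406406), (nat_lit 5), (nat_lit 0x10190199), (nat_lit 5)⟩)
(.lf ⟨(nat_lit 0x8a4), (nat_lit 2), (nat_lit 0x922), (nat_lit 2)⟩))))
(.nd (.nd (.nd (.lf ⟨(nat_lit 0x49e), (nat_lit 2), (nat_lit 0x792), (nat_lit 2)⟩)
(.lf ⟨(nat_lit 0x8513), (nat_lit 3), (nat_lit 0x144c8), (nat_lit 3)⟩))
(.nd (.lf ⟨(nat_lit 276), (nat_lit 2), (nat_lit 0x44e4905124144905101e69064113a69121901c4), (nat_lit 26)⟩)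
(.lf ⟨(nat_lit 0), (nat_lit 0), (nat_lit 0x3ca3cf28f), (nat_lit 6)⟩)))
(.nd (.nd (.lf ⟨(nat_lit 0x246246246246), (nat_lit 8), (nat_lit 0), (nat_lit 0)⟩)
(.lf ⟨(nat_lit 0x24f40f1901893d03c6406), (nat_lit 14), (nat_lit 0x24f40f1901893d03c6406), (nat_lit 14)⟩))
(.lf ⟨(nat_lit 0x741698741698), (nat_lit 8), (nat_lit 0x741698741698), (nat_lit 8)⟩)))))
(.nd (.nd (.nd (.nd (.nd (.lf ⟨(nat_lit 273), (nat_lit 2), (nat_lit 0x1d444), (nat_lit 3)⟩)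
(.lf ⟨(nat_lit 451), (nat_lit 2), (nat_lit 199), (nat_lit 2)⟩))
(.nd (.lf ⟨(nat_lit 0x155149155141155141245545045545045545245545045545049155141155141), (nat_lit 42), (nat_lit 0x155149155141155141245545045545045545245545045545049155141155141), (nat_lit 42)⟩)
(.lf ⟨(nat_lit 0x28f34a3cd28f34a3cd), (nat_lit 12), (nat_lit 0xca3cd28f34328f34a3cd), (nat_lit 14)⟩)))
(.nd (.nd (.lf ⟨(nat_lit 466), (nat_lit 2), (nat_lit 0x487), (nat_lit 2)⟩)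
(.lf ⟨(nat_lit 0x27544cb74b), (nat_lit 7), (nat_lit 0x1d5132dd2c2), (nat_lit 7)⟩))
(.nd (.lf ⟨(nat_lit 0x25d24e), (nat_lit 4), (nat_lit 0x389749), (nat_lit 4)⟩)
(.lf ⟨(nat_lit 419), (nat_lit 2), (nat_lit 0x5138d44c6), (nat_lit 6)⟩))))
(.nd (.nd (.nd (.lf ⟨(nat_lit 0x242204242204), (nat_lit 8), (nat_lit 0x204242204242), (nat_lit 8)⟩)
(.lf ⟨(nat_lit 0x6a5), (nat_lit 2), (nat_lit 0x96781e81e6a7), (nat_lit 8)⟩))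
(.nd (.lf ⟨(nat_lit 0xc5409150243150245409), (nat_lit 14), (nat_lit 0xc5409150243150245409), (nat_lit 14)⟩)
(.lf ⟨(nat_lit 0xa3cd), (nat_lit 3), (nat_lit 0x9e58cd28f), (nat_lit 6)⟩)))
(.nd (.nd (.lf ⟨(nat_lit 599), (nat_lit 2), (nat_lit 0x5c9), (nat_lit 2)⟩)
(.lf ⟨(nat_lit 0x830e), (nat_lit 3), (nat_lit 0xc38c20c), (nat_lit 5)⟩))
(.lf ⟨(nat_lit 29), (nat_lit 1), (nat_lit 0x288288), (nat_lit 4)⟩))))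
(.nd (.nd (.nd (.nd (.lf ⟨(nat_lit 0x4e206), (nat_lit 4), (nat_lit 0x18838804e20e), (nat_lit 8)⟩)
(.lf ⟨(nat_lit 0x79b30b), (nat_lit 4), (nat_lit 0x30b79b), (nat_lit 4)⟩))
(.nd (.lf ⟨(nat_lit 0x28270270a09c09c), (nat_lit 10), (nat_lit 0x28270270a09c09c), (nat_lit 10)⟩)
(.lf ⟨(nat_lit 784), (nat_lit 2), (nat_lit 0x40c), (nat_lit 2)⟩)))
(.nd (.nd (.lf ⟨(nat_lit 13), (nat_lit 1), (nat_lit 0x202202), (nat_lit 4)⟩)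
(.lf ⟨(nat_lit 0x1b45645c), (nat_lit 5), (nat_lit 0x1c6d1591), (nat_lit 5)⟩))
(.nd (.lf ⟨(nat_lit 0x212212), (nat_lit 4), (nat_lit 0x488488), (nat_lit 4)⟩)
(.lf ⟨(nat_lit 29), (nat_lit 1), (nat_lit 0x20475c44811d711), (nat_lit 10)⟩))))
(.nd (.nd (.nd (.lf ⟨(nat_lit 0x95347), (nat_lit 4), (nat_lit 0x54d1d534254d), (nat_lit 8)⟩)
(.lf ⟨(nat_lit 0x10c81f3207c43207cc81f), (nat_lit 14), (nat_lit 0x10c81f3207c43207cc81f), (nat_lit 14)⟩))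
(.nd (.lf ⟨(nat_lit 217), (nat_lit 2), (nat_lit 0x34840d21025534e34954d38d643), (nat_lit 18)⟩)
(.lf ⟨(nat_lit 0x8182632780930906098c9e024c24206098c9e024c241826327809309), (nat_lit 38), (nat_lit 0x8182632780930906098c9e024c24206098c9e024c241826327809309), (nat_lit 38)⟩)))
(.nd (.nd (.lf ⟨(nat_lit 78), (nat_lit 2), (nat_lit 0x75c381), (nat_lit 4)⟩)
(.lf ⟨(nat_lit 473), (nat_lit 2), (nat_lit 0x647), (nat_lit 2)⟩))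
(.lf ⟨(nat_lit 0x79b385385), (nat_lit 6), (nat_lit 0x38538579b), (nat_lit 6)⟩))))))))
(.nd (.nd (.nd (.nd (.nd (.nd (.nd (.nd (.lf ⟨(nat_lit 10), (nat_lit 1), (nat_lit 0xc40c4), (nat_lit 4)⟩)
(.lf ⟨(nat_lit 0x181941941941946065065065065), (nat_lit 18), (nat_lit 0x181941941941946065065065065), (nat_lit 18)⟩))
(.nd (.lf ⟨(nat_lit 0x142c72c7), (nat_lit 5), (nat_lit 0xb1cb1d4), (nat_lit 5)⟩)
(.lf ⟨(nat_lit 473), (nat_lit 2), (nat_lit 0x647), (nat_lit 2)⟩)))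
(.nd (.nd (.lf ⟨(nat_lit 197), (nat_lit 2), (nat_lit 0x630714b1d4183), (nat_lit 9)⟩)
(.lf ⟨(nat_lit 0x1271e), (nat_lit 3), (nat_lit 0x1c79c49c), (nat_lit 5)⟩))
(.nd (.lf ⟨(nat_lit 580), (nat_lit 2), (nat_lit 265), (nat_lit 2)⟩)
(.lf ⟨(nat_lit 998), (nat_lit 2), (nat_lit 0x98f), (nat_lit 2)⟩))))
(.nd (.nd (.nd (.lf ⟨(nat_lit 0x204102204102), (nat_lit 8), (nat_lit 0x84204084204), (nat_lit 8)⟩)
(.lf ⟨(nat_lit 0x30b14e30b385), (nat_lit 8), (nat_lit 0xce14e143385385), (nat_lit 10)⟩))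
(.nd (.lf ⟨(nat_lit 0x299299), (nat_lit 4), (nat_lit 0x64a64a), (nat_lit 4)⟩)
(.lf ⟨(nat_lit 0), (nat_lit 0), (nat_lit 0x112152144485485), (nat_lit 10)⟩)))
(.nd (.nd (.lf ⟨(nat_lit 0x83482cd20b20b20b), (nat_lit 11), (nat_lit 0xd20b3482c82c82c8), (nat_lit 11)⟩)
(.lf ⟨(nat_lit 735), (nat_lit 2), (nat_lit 0x7cb), (nat_lit 2)⟩))
(.nd (.lf ⟨(nat_lit 0x581e), (nat_lit 3), (nat_lit 0x207a0160), (nat_lit 5)⟩)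
(.lf ⟨(nat_lit 280), (nat_lit 2), (nat_lit 0x27963604), (nat_lit 5)⟩)))))
(.nd (.nd (.nd (.nd (.lf ⟨(nat_lit 0x5f05f), (nat_lit 4), (nat_lit 0x7c17c1), (nat_lit 4)⟩)
(.lf ⟨(nat_lit 0x513), (nat_lit 2), (nat_lit 0x185185), (nat_lit 4)⟩))
(.nd (.lf ⟨(nat_lit 0x294294294294), (nat_lit 8), (nat_lit 0), (nat_lit 0)⟩)
(.lf ⟨(nat_lit 0x4a7), (nat_lit 2), (nat_lit 0x9d2), (nat_lit 2)⟩)))
(.nd (.nd (.lf ⟨(nat_lit 214), (nat_lit 2), (nat_lit 0x2040a25d5901c974e81048a1e040a24780a2472878104878102891e02891ca1e04121e040a24780a2472878104878102891e02891ce283), (nat_lit 73)⟩)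
(.lf ⟨(nat_lit 214), (nat_lit 2), (nat_lit 0x58e1ce1c3), (nat_lit 6)⟩))
(.nd (.lf ⟨(nat_lit 927), (nat_lit 2), (nat_lit 0x7ce), (nat_lit 2)⟩)
(.lf ⟨(nat_lit 0x522), (nat_lit 2), (nat_lit 0x894), (nat_lit 2)⟩))))
(.nd (.nd (.nd (.lf ⟨(nat_lit 75), (nat_lit 2), (nat_lit 0x1461470c50d33072c61c51850c550c1c60c1), (nat_lit 24)⟩)
(.lf ⟨(nat_lit 783), (nat_lit 2), (nat_lit 0x81f3cc81f), (nat_lit 6)⟩))
(.nd (.lf ⟨(nat_lit 0x418), (nat_lit 2), (nat_lit 0x610), (nat_lit 2)⟩)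
(.lf ⟨(nat_lit 0x2c92c9), (nat_lit 4), (nat_lit 0x2542c950b), (nat_lit 6)⟩)))
(.nd (.nd (.lf ⟨(nat_lit 0x71d71d), (nat_lit 4), (nat_lit 0), (nat_lit 0)⟩)
(.lf ⟨(nat_lit 782), (nat_lit 2), (nat_lit 0x49149138c), (nat_lit 6)⟩))
(.lf ⟨(nat_lit 0xa35d), (nat_lit 3), (nat_lit 0xd74d28d), (nat_lit 5)⟩)))))
(.nd (.nd (.nd (.nd (.nd (.lf ⟨(nat_lit 0x410), (nat_lit 2), (nat_lit 0), (nat_lit 0)⟩)
(.lf ⟨(nat_lit 0x549d), (nat_lit 3), (nat_lit 0x1149d491152), (nat_lit 7)⟩))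
(.nd (.lf ⟨(nat_lit 0x10b44e), (nat_lit 4), (nat_lit 0x2d138b10b), (nat_lit 6)⟩)
(.lf ⟨(nat_lit 0x1f30b), (nat_lit 3), (nat_lit 0xc2df), (nat_lit 3)⟩)))
(.nd (.nd (.lf ⟨(nat_lit 0x482081482081), (nat_lit 8), (nat_lit 0x42482042482), (nat_lit 8)⟩)
(.lf ⟨(nat_lit 0xd389389), (nat_lit 5), (nat_lit 0x861d60861d60e24e24d), (nat_lit 13)⟩))
(.nd (.lf ⟨(nat_lit 0), (nat_lit 0), (nat_lit 0x2607c981f), (nat_lit 6)⟩)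
(.lf ⟨(nat_lit 667), (nat_lit 2), (nat_lit 0x6ca), (nat_lit 2)⟩))))
(.nd (.nd (.nd (.lf ⟨(nat_lit 214), (nat_lit 2), (nat_lit 0x28440938458e48a2441ce29f48a7d229f48a7d2107383), (nat_lit 30)⟩)
(.lf ⟨(nat_lit 0x475e75e), (nat_lit 5), (nat_lit 0x1d79d784), (nat_lit 5)⟩))
(.nd (.lf ⟨(nat_lit 0x1e486486), (nat_lit 5), (nat_lit 0x1219219e), (nat_lit 5)⟩)
(.lf ⟨(nat_lit 610), (nat_lit 2), (nat_lit 0x889), (nat_lit 2)⟩)))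
(.nd (.nd (.lf ⟨(nat_lit 8), (nat_lit 1), (nat_lit 0x44044), (nat_lit 4)⟩)
(.lf ⟨(nat_lit 0x28f34e), (nat_lit 4), (nat_lit 0x34e34a3cd), (nat_lit 6)⟩))
(.lf ⟨(nat_lit 99), (nat_lit 2), (nat_lit 0x6573607a064849129734815228d22375b45228d212285741), (nat_lit 32)⟩))))
(.nd (.nd (.nd (.nd (.lf ⟨(nat_lit 0x1c21c2), (nat_lit 4), (nat_lit 0), (nat_lit 0)⟩)
(.lf ⟨(nat_lit 267), (nat_lit 2), (nat_lit 0x6986d15912c4), (nat_lit 8)⟩))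
(.nd (.lf ⟨(nat_lit 0x3d73c70d73c70d83d73c70d73c70d8), (nat_lit 20), (nat_lit 0x3d73c70d73c70d83d73c70d73c70d8), (nat_lit 20)⟩)
(.lf ⟨(nat_lit 0x8310), (nat_lit 3), (nat_lit 0x279523d23d03d23cc40c9e548840c), (nat_lit 19)⟩)))
(.nd (.nd (.lf ⟨(nat_lit 847), (nat_lit 2), (nat_lit 973), (nat_lit 2)⟩)
(.lf ⟨(nat_lit 0x1b456452), (nat_lit 5), (nat_lit 0x126d1591), (nat_lit 5)⟩))
(.nd (.lf ⟨(nat_lit 0x81a), (nat_lit 2), (nat_lit 0x6a0), (nat_lit 2)⟩)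
(.lf ⟨(nat_lit 227), (nat_lit 2), (nat_lit 0x8c3), (nat_lit 2)⟩))))
(.nd (.nd (.nd (.lf ⟨(nat_lit 654), (nat_lit 2), (nat_lit 906), (nat_lit 2)⟩)
(.lf ⟨(nat_lit 0x79a4), (nat_lit 3), (nat_lit 0x26914494487), (nat_lit 7)⟩))
(.nd (.lf ⟨(nat_lit 0x38d38d), (nat_lit 4), (nat_lit 0x216216), (nat_lit 4)⟩)
(.lf ⟨(nat_lit 0), (nat_lit 0), (nat_lit 0x669019a4), (nat_lit 6)⟩)))
(.nd (.nd (.lf ⟨(nat_lit 0x210210), (nat_lit 4), (nat_lit 0x390210388), (nat_lit 6)⟩)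
(.lf ⟨(nat_lit 0x44944c44944c), (nat_lit 8), (nat_lit 0x44944c44944c), (nat_lit 8)⟩))
(.lf ⟨(nat_lit 472), (nat_lit 2), (nat_lit 0x607), (nat_lit 2)⟩))))))
(.nd (.nd (.nd (.nd (.nd (.nd (.lf ⟨(nat_lit 66), (nat_lit 2), (nat_lit 0x5081), (nat_lit 3)⟩)
(.lf ⟨(nat_lit 0x2983d5), (nat_lit 4), (nat_lit 0x60f54f28f), (nat_lit 6)⟩))
(.nd (.lf ⟨(nat_lit 0x490), (nat_lit 2), (nat_lit 0x107107), (nat_lit 4)⟩)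
(.lf ⟨(nat_lit 0x4e6), (nat_lit 2), (nat_lit 0x993), (nat_lit 2)⟩)))
(.nd (.nd (.lf ⟨(nat_lit 0x105081105081), (nat_lit 8), (nat_lit 0x45084045084), (nat_lit 8)⟩)
(.lf ⟨(nat_lit 0), (nat_lit 0), (nat_lit 0x24d24d), (nat_lit 4)⟩))
(.nd (.lf ⟨(nat_lit 0x73c9), (nat_lit 3), (nat_lit 0xf81f3207cc81f30f3091cf), (nat_lit 15)⟩)
(.lf ⟨(nat_lit 0xe0d63a638c2ca30b287), (nat_lit 13), (nat_lit 0x163a638c2ca30b287383), (nat_lit 13)⟩))))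
(.nd (.nd (.nd (.lf ⟨(nat_lit 0x28318a0c6), (nat_lit 6), (nat_lit 0x18a0c6283), (nat_lit 6)⟩)
(.lf ⟨(nat_lit 0x4d5), (nat_lit 2), (nat_lit 0x553), (nat_lit 2)⟩))
(.nd (.lf ⟨(nat_lit 32), (nat_lit 1), (nat_lit 0x112112), (nat_lit 4)⟩)
(.lf ⟨(nat_lit 0x1de1ca12478a12495e1de1ca12478a12495e), (nat_lit 24), (nat_lit 0x1de1ca12478a12495e1de1ca12478a12495e), (nat_lit 24)⟩)))
(.nd (.nd (.lf ⟨(nat_lit 0xe10c3843), (nat_lit 6), (nat_lit 0), (nat_lit 0)⟩)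
(.lf ⟨(nat_lit 0x144cf), (nat_lit 3), (nat_lit 0xf513), (nat_lit 3)⟩))
(.lf ⟨(nat_lit 0x30930940f40f), (nat_lit 8), (nat_lit 0x40f40f309309), (nat_lit 8)⟩))))
(.nd (.nd (.nd (.nd (.lf ⟨(nat_lit 0x201201), (nat_lit 4), (nat_lit 0x48048), (nat_lit 4)⟩)
(.lf ⟨(nat_lit 0x1022e406412406410b90190490190408b9019049019042e406412406410408b9019049019042e40641240641022e406412406410b901904901904), (nat_lit 78), (nat_lit 0x1022e406412406410b90190490190408b9019049019042e406412406410408b9019049019042e40641240641022e406412406410b901904901904), (nat_lit 78)⟩))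
(.nd (.lf ⟨(nat_lit 0x385385), (nat_lit 4), (nat_lit 0x385385), (nat_lit 4)⟩)
(.lf ⟨(nat_lit 0x12693), (nat_lit 3), (nat_lit 0x1349a), (nat_lit 3)⟩)))
(.nd (.nd (.lf ⟨(nat_lit 102), (nat_lit 2), (nat_lit 0x2267c87c899f2267c1), (nat_lit 12)⟩)
(.lf ⟨(nat_lit 26), (nat_lit 1), (nat_lit 0x401401), (nat_lit 4)⟩))
(.nd (.lf ⟨(nat_lit 0x75c406406), (nat_lit 6), (nat_lit 0x40640675c), (nat_lit 6)⟩)
(.lf ⟨(nat_lit 0x8a3), (nat_lit 2), (nat_lit 0x8e2), (nat_lit 2)⟩))))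
(.nd (.nd (.nd (.lf ⟨(nat_lit 0x25a25a), (nat_lit 4), (nat_lit 0x3da25a3c9), (nat_lit 6)⟩)
(.lf ⟨(nat_lit 0x2144c85132144c8513), (nat_lit 12), (nat_lit 0x1412144c85131412144c8513), (nat_lit 16)⟩))
(.nd (.lf ⟨(nat_lit 0x29445444a29445444a), (nat_lit 12), (nat_lit 0), (nat_lit 0)⟩)
(.lf ⟨(nat_lit 0x327826), (nat_lit 4), (nat_lit 0x9a780c), (nat_lit 4)⟩)))
(.nd (.nd (.lf ⟨(nat_lit 458), (nat_lit 2), (nat_lit 0x1f287), (nat_lit 3)⟩)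
(.lf ⟨(nat_lit 0x44e3cd), (nat_lit 4), (nat_lit 0x3cd44e), (nat_lit 4)⟩))
(.lf ⟨(nat_lit 578), (nat_lit 2), (nat_lit 137), (nat_lit 2)⟩)))))
(.nd (.nd (.nd (.nd (.nd (.lf ⟨(nat_lit 0x91091), (nat_lit 4), (nat_lit 0x442442), (nat_lit 4)⟩)
(.lf ⟨(nat_lit 0x13657), (nat_lit 3), (nat_lit 0x195d3), (nat_lit 3)⟩))
(.nd (.lf ⟨(nat_lit 99), (nat_lit 2), (nat_lit 0x6573486d244528d21228d22375b45228d212285741), (nat_lit 28)⟩)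
(.lf ⟨(nat_lit 0x4452445485), (nat_lit 7), (nat_lit 0x11491152144), (nat_lit 7)⟩)))
(.nd (.nd (.lf ⟨(nat_lit 335), (nat_lit 2), (nat_lit 965), (nat_lit 2)⟩)
(.lf ⟨(nat_lit 987), (nat_lit 2), (nat_lit 0x79d79d6cf), (nat_lit 6)⟩))
(.nd (.lf ⟨(nat_lit 0x256256), (nat_lit 4), (nat_lit 0x589589), (nat_lit 4)⟩)
(.lf ⟨(nat_lit 0x666), (nat_lit 2), (nat_lit 0x999), (nat_lit 2)⟩))))
(.nd (.nd (.nd (.lf ⟨(nat_lit 0x2441c32441c3), (nat_lit 8), (nat_lit 0x1c32441c3244), (nat_lit 8)⟩)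
(.lf ⟨(nat_lit 613), (nat_lit 2), (nat_lit 0x949), (nat_lit 2)⟩))
(.nd (.lf ⟨(nat_lit 197), (nat_lit 2), (nat_lit 0x72cc1931c5183), (nat_lit 9)⟩)
(.lf ⟨(nat_lit 0x41e), (nat_lit 2), (nat_lit 0x79a9a46a6910), (nat_lit 8)⟩)))
(.nd (.nd (.lf ⟨(nat_lit 343), (nat_lit 2), (nat_lit 0x257245), (nat_lit 4)⟩)
(.lf ⟨(nat_lit 0x30d21330d3084cc), (nat_lit 10), (nat_lit 0x8c20c202308308), (nat_lit 10)⟩))
(.lf ⟨(nat_lit 0xd7a0), (nat_lit 3), (nat_lit 0x1e81e35e), (nat_lit 5)⟩))))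
(.nd (.nd (.nd (.nd (.lf ⟨(nat_lit 0x142142), (nat_lit 4), (nat_lit 0), (nat_lit 0)⟩)
(.lf ⟨(nat_lit 69), (nat_lit 2), (nat_lit 321), (nat_lit 2)⟩))
(.nd (.lf ⟨(nat_lit 0x648a2d228b28b28b), (nat_lit 11), (nat_lit 0x1228b48a2ca2ca2c6), (nat_lit 11)⟩)
(.lf ⟨(nat_lit 0x50150141405405), (nat_lit 10), (nat_lit 0x50150141405405), (nat_lit 10)⟩)))
(.nd (.nd (.lf ⟨(nat_lit 0x490), (nat_lit 2), (nat_lit 0x1c41c4), (nat_lit 4)⟩)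
(.lf ⟨(nat_lit 0x1b456450), (nat_lit 5), (nat_lit 0x106d1591), (nat_lit 5)⟩))
(.nd (.lf ⟨(nat_lit 0x81801802060060), (nat_lit 10), (nat_lit 0x81801802060060), (nat_lit 10)⟩)
(.lf ⟨(nat_lit 0), (nat_lit 0), (nat_lit 0x54054), (nat_lit 4)⟩))))
(.nd (.nd (.nd (.lf ⟨(nat_lit 288), (nat_lit 2), (nat_lit 0x804), (nat_lit 2)⟩)
(.lf ⟨(nat_lit 0x10d1cd1c4347347), (nat_lit 10), (nat_lit 0x10d1cd1c4347347), (nat_lit 10)⟩))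
(.nd (.lf ⟨(nat_lit 0), (nat_lit 0), (nat_lit 0x786783786783), (nat_lit 8)⟩)
(.lf ⟨(nat_lit 23), (nat_lit 1), (nat_lit 0x3c23c2), (nat_lit 4)⟩)))
(.nd (.nd (.lf ⟨(nat_lit 0x7e07e0), (nat_lit 4), (nat_lit 0), (nat_lit 0)⟩)
(.lf ⟨(nat_lit 0xf595), (nat_lit 3), (nat_lit 0x1654f), (nat_lit 3)⟩))
(.lf ⟨(nat_lit 0x1e6dd), (nat_lit 3), (nat_lit 0x1d79b), (nat_lit 3)⟩)))))))
(.nd (.nd (.nd (.nd (.nd (.nd (.nd (.lf ⟨(nat_lit 26), (nat_lit 1), (nat_lit 0x50050), (nat_lit 4)⟩)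
(.lf ⟨(nat_lit 0x7a7), (nat_lit 2), (nat_lit 0x9de), (nat_lit 2)⟩))
(.nd (.lf ⟨(nat_lit 0x881da1c81da1c2207687207687), (nat_lit 18), (nat_lit 0x881da1c81da1c2207687207687), (nat_lit 18)⟩)
(.lf ⟨(nat_lit 0x1d11d1), (nat_lit 4), (nat_lit 0x1d11d1), (nat_lit 4)⟩)))
(.nd (.nd (.lf ⟨(nat_lit 594), (nat_lit 2), (nat_lit 0x489), (nat_lit 2)⟩)
(.lf ⟨(nat_lit 0x71e), (nat_lit 2), (nat_lit 0x79c), (nat_lit 2)⟩))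
(.nd (.lf ⟨(nat_lit 0x24c24c), (nat_lit 4), (nat_lit 0x309309), (nat_lit 4)⟩)
(.lf ⟨(nat_lit 0x49040e24e248408), (nat_lit 10), (nat_lit 0x40e24e248408490), (nat_lit 10)⟩))))
(.nd (.nd (.nd (.lf ⟨(nat_lit 0x2c22c2), (nat_lit 4), (nat_lit 0), (nat_lit 0)⟩)
(.lf ⟨(nat_lit 0x16513), (nat_lit 3), (nat_lit 0x144d6), (nat_lit 3)⟩))
(.nd (.lf ⟨(nat_lit 0x460f), (nat_lit 3), (nat_lit 0x2983cd29565534a54a115), (nat_lit 14)⟩)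
(.lf ⟨(nat_lit 0x24c2ca), (nat_lit 4), (nat_lit 0x2030b28c2c930b), (nat_lit 9)⟩)))
(.nd (.nd (.lf ⟨(nat_lit 457), (nat_lit 2), (nat_lit 0x2891ca), (nat_lit 4)⟩)
(.lf ⟨(nat_lit 0x39a4), (nat_lit 3), (nat_lit 0x26903), (nat_lit 3)⟩))
(.lf ⟨(nat_lit 0x81f), (nat_lit 2), (nat_lit 0x1c91c9), (nat_lit 4)⟩))))
(.nd (.nd (.nd (.nd (.lf ⟨(nat_lit 0xc20c2), (nat_lit 4), (nat_lit 0x83083), (nat_lit 4)⟩)
(.lf ⟨(nat_lit 0x6d159a611), (nat_lit 6), (nat_lit 0x2c42c4), (nat_lit 4)⟩))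
(.nd (.lf ⟨(nat_lit 0x431856856860c615a15a1810c615a15a183185685686), (nat_lit 30), (nat_lit 0x431856856860c615a15a1810c615a15a183185685686), (nat_lit 30)⟩)
(.lf ⟨(nat_lit 676), (nat_lit 2), (nat_lit 0x90a), (nat_lit 2)⟩)))
(.nd (.nd (.lf ⟨(nat_lit 223), (nat_lit 2), (nat_lit 0x72891c91df4872891c91e040a1e04904872891ca24729f483), (nat_lit 33)⟩)
(.lf ⟨(nat_lit 0x24c7e7), (nat_lit 4), (nat_lit 0x80c7e799f64c81931f9e67d93278193e69e098c7e780f3207c931f), (nat_lit 36)⟩))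
(.nd (.lf ⟨(nat_lit 0x45a), (nat_lit 2), (nat_lit 0x691), (nat_lit 2)⟩)
(.lf ⟨(nat_lit 0x5a2), (nat_lit 2), (nat_lit 0x896), (nat_lit 2)⟩))))
(.nd (.nd (.nd (.lf ⟨(nat_lit 0x828e), (nat_lit 3), (nat_lit 0xa38a20a), (nat_lit 5)⟩)
(.lf ⟨(nat_lit 933), (nat_lit 2), (nat_lit 0x9e53a7), (nat_lit 4)⟩))
(.nd (.lf ⟨(nat_lit 0x114a6), (nat_lit 3), (nat_lit 0x12992452), (nat_lit 5)⟩)
(.lf ⟨(nat_lit 423), (nat_lit 2), (nat_lit 0x9c6), (nat_lit 2)⟩)))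
(.nd (.nd (.lf ⟨(nat_lit 328), (nat_lit 2), (nat_lit 0x657205), (nat_lit 4)⟩)
(.lf ⟨(nat_lit 471), (nat_lit 2), (nat_lit 0x40d41730d307), (nat_lit 8)⟩))
(.lf ⟨(nat_lit 0x735f), (nat_lit 3), (nat_lit 0xd7cd1cd), (nat_lit 5)⟩)))))
(.nd (.nd (.nd (.nd (.nd (.lf ⟨(nat_lit 205), (nat_lit 2), (nat_lit 0x15343), (nat_lit 3)⟩)
(.lf ⟨(nat_lit 0xb513), (nat_lit 3), (nat_lit 0x144cb), (nat_lit 3)⟩))
(.nd (.lf ⟨(nat_lit 0x14a151), (nat_lit 4), (nat_lit 0x445285), (nat_lit 4)⟩)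
(.lf ⟨(nat_lit 659), (nat_lit 2), (nat_lit 0x4ca), (nat_lit 2)⟩)))
(.nd (.nd (.lf ⟨(nat_lit 0x3610), (nat_lit 3), (nat_lit 0x1060f4183d01981896090d8), (nat_lit 15)⟩)
(.lf ⟨(nat_lit 0x449449449449), (nat_lit 8), (nat_lit 0x111251244449449), (nat_lit 10)⟩))
(.nd (.lf ⟨(nat_lit 29), (nat_lit 1), (nat_lit 0x384384), (nat_lit 4)⟩)
(.lf ⟨(nat_lit 276), (nat_lit 2), (nat_lit 0x2692075b61d6a775a6258db61d6a775a6258dd6a769b6a76a795a9da9e56d03ce28f24e2ca24b1c6407184), (nat_lit 57)⟩))))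
(.nd (.nd (.nd (.lf ⟨(nat_lit 0x3831ce0c7), (nat_lit 6), (nat_lit 0x1ce0c7383), (nat_lit 6)⟩)
(.lf ⟨(nat_lit 357), (nat_lit 2), (nat_lit 0x75e75e945), (nat_lit 6)⟩))
(.nd (.lf ⟨(nat_lit 420), (nat_lit 2), (nat_lit 0x906), (nat_lit 2)⟩)
(.lf ⟨(nat_lit 478), (nat_lit 2), (nat_lit 0x787), (nat_lit 2)⟩)))
(.nd (.nd (.lf ⟨(nat_lit 0x7792), (nat_lit 3), (nat_lit 0x1e49a48c4903101da), (nat_lit 11)⟩)
(.lf ⟨(nat_lit 0x1e48b792), (nat_lit 5), (nat_lit 0x9e19e09e19e), (nat_lit 8)⟩))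
(.lf ⟨(nat_lit 277), (nat_lit 2), (nat_lit 0x59959959958d29534a34840d21025534e34959959534e344), (nat_lit 32)⟩))))
(.nd (.nd (.nd (.nd (.lf ⟨(nat_lit 0x1410c5043), (nat_lit 6), (nat_lit 0xc5043141), (nat_lit 6)⟩)
(.lf ⟨(nat_lit 415), (nat_lit 2), (nat_lit 0xe69039a47c6), (nat_lit 8)⟩))
(.nd (.lf ⟨(nat_lit 0x28b28b28b28b), (nat_lit 8), (nat_lit 0), (nat_lit 0)⟩)
(.lf ⟨(nat_lit 0xe098c1e78093091c38263079e024c247), (nat_lit 22), (nat_lit 0xe098c1e78093091c38263079e024c247), (nat_lit 22)⟩)))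
(.nd (.nd (.lf ⟨(nat_lit 262), (nat_lit 2), (nat_lit 0x44e184), (nat_lit 4)⟩)
(.lf ⟨(nat_lit 0x520), (nat_lit 2), (nat_lit 0x814), (nat_lit 2)⟩))
(.nd (.lf ⟨(nat_lit 992), (nat_lit 2), (nat_lit 0x80f), (nat_lit 2)⟩)
(.lf ⟨(nat_lit 214), (nat_lit 2), (nat_lit 0x9e696358f28f283), (nat_lit 10)⟩))))
(.nd (.nd (.nd (.lf ⟨(nat_lit 586), (nat_lit 2), (nat_lit 0xa809), (nat_lit 3)⟩)
(.lf ⟨(nat_lit 0x20c2c830b), (nat_lit 6), (nat_lit 0x20c2c830b), (nat_lit 6)⟩))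
(.nd (.lf ⟨(nat_lit 0x14998f26614998f266), (nat_lit 12), (nat_lit 0x14998f26614998f266), (nat_lit 12)⟩)
(.lf ⟨(nat_lit 0x8e7), (nat_lit 2), (nat_lit 0x9e3), (nat_lit 2)⟩)))
(.nd (.nd (.lf ⟨(nat_lit 0x171d7), (nat_lit 3), (nat_lit 0x970d70970d7), (nat_lit 8)⟩)
(.lf ⟨(nat_lit 0x792692595), (nat_lit 6), (nat_lit 0x595792692), (nat_lit 6)⟩))
(.lf ⟨(nat_lit 0x195dd), (nat_lit 3), (nat_lit 0x1d657), (nat_lit 3)⟩))))))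
(.nd (.nd (.nd (.nd (.nd (.nd (.lf ⟨(nat_lit 0x86086), (nat_lit 4), (nat_lit 0x182182), (nat_lit 4)⟩)
(.lf ⟨(nat_lit 283), (nat_lit 2), (nat_lit 0x2374979d79b449444), (nat_lit 11)⟩))
(.nd (.lf ⟨(nat_lit 0x3ca3cf28f), (nat_lit 6), (nat_lit 0), (nat_lit 0)⟩)
(.lf ⟨(nat_lit 0x485485), (nat_lit 4), (nat_lit 0x9e6c279b), (nat_lit 6)⟩)))
(.nd (.nd (.lf ⟨(nat_lit 212), (nat_lit 2), (nat_lit 0x503), (nat_lit 2)⟩)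
(.lf ⟨(nat_lit 0x650), (nat_lit 2), (nat_lit 0x40e40e419), (nat_lit 6)⟩))
(.nd (.lf ⟨(nat_lit 198), (nat_lit 2), (nat_lit 387), (nat_lit 2)⟩)
(.lf ⟨(nat_lit 0), (nat_lit 0), (nat_lit 0x306306), (nat_lit 4)⟩))))
(.nd (.nd (.nd (.lf ⟨(nat_lit 0x1100c11100c1), (nat_lit 8), (nat_lit 0x500c40500c4), (nat_lit 8)⟩)
(.lf ⟨(nat_lit 0x75e75e75e75e), (nat_lit 8), (nat_lit 0), (nat_lit 0)⟩))
(.nd (.lf ⟨(nat_lit 0x12960), (nat_lit 3), (nat_lit 0x204a5), (nat_lit 3)⟩)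
(.lf ⟨(nat_lit 0x925), (nat_lit 2), (nat_lit 0x964), (nat_lit 2)⟩)))
(.nd (.nd (.lf ⟨(nat_lit 0), (nat_lit 0), (nat_lit 325), (nat_lit 2)⟩)
(.lf ⟨(nat_lit 0x2346346), (nat_lit 5), (nat_lit 0xd18d182), (nat_lit 5)⟩))
(.lf ⟨(nat_lit 0x81f698), (nat_lit 4), (nat_lit 0x69881f), (nat_lit 4)⟩))))
(.nd (.nd (.nd (.nd (.lf ⟨(nat_lit 0x282282), (nat_lit 4), (nat_lit 0x8a08a), (nat_lit 4)⟩)
(.lf ⟨(nat_lit 0x5cf4cc5cf4cf30f), (nat_lit 10), (nat_lit 0x8f30f3023cc3cc), (nat_lit 10)⟩))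
(.nd (.lf ⟨(nat_lit 0xd70c75c35c75c35c35c31d70d71d70d7), (nat_lit 22), (nat_lit 0xd70c75c35c75c35c35c31d70d71d70d7), (nat_lit 22)⟩)
(.lf ⟨(nat_lit 0x408408), (nat_lit 4), (nat_lit 0x210210), (nat_lit 4)⟩)))
(.nd (.nd (.lf ⟨(nat_lit 0x449451251), (nat_lit 6), (nat_lit 0), (nat_lit 0)⟩)
(.lf ⟨(nat_lit 0x14810c2c430b20430b10c2c520430b10c2c810c2c430b), (nat_lit 30), (nat_lit 0x14810c2c430b20430b10c2c520430b10c2c810c2c430b), (nat_lit 30)⟩))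
(.nd (.lf ⟨(nat_lit 0xa406406), (nat_lit 5), (nat_lit 0x1019018a), (nat_lit 5)⟩)
(.lf ⟨(nat_lit 0x427), (nat_lit 2), (nat_lit 0x9d0), (nat_lit 2)⟩))))
(.nd (.nd (.nd (.lf ⟨(nat_lit 217), (nat_lit 2), (nat_lit 0xa1183ca1183c3), (nat_lit 9)⟩)
(.lf ⟨(nat_lit 852), (nat_lit 2), (nat_lit 0x50d), (nat_lit 2)⟩))
(.nd (.lf ⟨(nat_lit 0x61a61a), (nat_lit 4), (nat_lit 0x18b24b2462c92c9), (nat_lit 10)⟩)
(.lf ⟨(nat_lit 0x11511d70454475c), (nat_lit 10), (nat_lit 0x11511d70454475c), (nat_lit 10)⟩)))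
(.nd (.nd (.lf ⟨(nat_lit 0), (nat_lit 0), (nat_lit 0x183183), (nat_lit 4)⟩)
(.lf ⟨(nat_lit 0x5da3d05da5d05cf), (nat_lit 10), (nat_lit 0x573d05cf41740f4173c15cf4173d05d03d05cf), (nat_lit 26)⟩))
(.lf ⟨(nat_lit 215), (nat_lit 2), (nat_lit 0x75c760f1d85cf1d81d71e260b24b243), (nat_lit 21)⟩)))))
(.nd (.nd (.nd (.nd (.nd (.lf ⟨(nat_lit 0x820), (nat_lit 2), (nat_lit 0), (nat_lit 0)⟩)
(.lf ⟨(nat_lit 0x2c82c8), (nat_lit 4), (nat_lit 0x20b20b), (nat_lit 4)⟩))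
(.nd (.lf ⟨(nat_lit 0x3c129779b2973c129779b297), (nat_lit 16), (nat_lit 0x3c129779b2973c129779b297), (nat_lit 16)⟩)
(.lf ⟨(nat_lit 792), (nat_lit 2), (nat_lit 0x60c), (nat_lit 2)⟩)))
(.nd (.nd (.lf ⟨(nat_lit 391), (nat_lit 2), (nat_lit 0x141c6), (nat_lit 3)⟩)
(.lf ⟨(nat_lit 675), (nat_lit 2), (nat_lit 0x8dd49d48a), (nat_lit 6)⟩))
(.nd (.lf ⟨(nat_lit 0xe416), (nat_lit 3), (nat_lit 0x10590390), (nat_lit 5)⟩)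
(.lf ⟨(nat_lit 0x566), (nat_lit 2), (nat_lit 0x5a65a65a6595), (nat_lit 8)⟩))))
(.nd (.nd (.nd (.lf ⟨(nat_lit 69), (nat_lit 2), (nat_lit 321), (nat_lit 2)⟩)
(.lf ⟨(nat_lit 677), (nat_lit 2), (nat_lit 0x95d49d48a), (nat_lit 6)⟩))
(.nd (.lf ⟨(nat_lit 340), (nat_lit 2), (nat_lit 0x30b50c2c5), (nat_lit 6)⟩)
(.lf ⟨(nat_lit 202), (nat_lit 2), (nat_lit 643), (nat_lit 2)⟩)))
(.nd (.nd (.lf ⟨(nat_lit 0xe60c50e60c5), (nat_lit 8), (nat_lit 0xe60c50e60c5), (nat_lit 8)⟩)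
(.lf ⟨(nat_lit 0x452455), (nat_lit 4), (nat_lit 0x551491), (nat_lit 4)⟩))
(.lf ⟨(nat_lit 0x74a35d34a), (nat_lit 6), (nat_lit 0x20d28d28834a34a), (nat_lit 10)⟩))))
(.nd (.nd (.nd (.nd (.lf ⟨(nat_lit 0x109081109081), (nat_lit 8), (nat_lit 0x49084049084), (nat_lit 8)⟩)
(.lf ⟨(nat_lit 0x6452445485), (nat_lit 7), (nat_lit 0x11491152146), (nat_lit 7)⟩))
(.nd (.lf ⟨(nat_lit 0x786786786786), (nat_lit 8), (nat_lit 0), (nat_lit 0)⟩)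
(.lf ⟨(nat_lit 280), (nat_lit 2), (nat_lit 0x9da6084279526a795d49a9e549a9e54884276e54636d87586d646395d6d87585a79633ca3ca24e8e56e33ca3e32893a76cf28f284), (nat_lit 70)⟩)))
(.nd (.nd (.lf ⟨(nat_lit 0x195d93c525764f245), (nat_lit 11), (nat_lit 0x1764f1495d93c9159), (nat_lit 11)⟩)
(.lf ⟨(nat_lit 0x11390), (nat_lit 3), (nat_lit 0x1044e), (nat_lit 3)⟩))
(.nd (.lf ⟨(nat_lit 0x87a0), (nat_lit 3), (nat_lit 0x2581295221e), (nat_lit 7)⟩)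
(.lf ⟨(nat_lit 0x9e69633ca3ca), (nat_lit 8), (nat_lit 0xd6543595), (nat_lit 6)⟩))))
(.nd (.nd (.nd (.lf ⟨(nat_lit 79), (nat_lit 2), (nat_lit 961), (nat_lit 2)⟩)
(.lf ⟨(nat_lit 0x7d240a), (nat_lit 4), (nat_lit 0x1070c41c3), (nat_lit 6)⟩))
(.nd (.lf ⟨(nat_lit 0x28d299), (nat_lit 4), (nat_lit 0x49981228d80a), (nat_lit 8)⟩)
(.lf ⟨(nat_lit 0x17826327809309), (nat_lit 9), (nat_lit 0x2098c9e024c257), (nat_lit 9)⟩)))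
(.nd (.nd (.lf ⟨(nat_lit 0x3487cd21f21f21f), (nat_lit 10), (nat_lit 0x887c87c221f21f), (nat_lit 10)⟩)
(.lf ⟨(nat_lit 0xc81f), (nat_lit 3), (nat_lit 0x207cc), (nat_lit 3)⟩))
(.lf ⟨(nat_lit 0x195ce), (nat_lit 3), (nat_lit 0xe657), (nat_lit 3)⟩)))))))))
(.nd (.nd (.nd (.nd (.nd (.nd (.nd (.nd (.nd (.lf ⟨(nat_lit 6), (nat_lit 1), (nat_lit 0x43043), (nat_lit 4)⟩)
(.lf ⟨(nat_lit 385), (nat_lit 2), (nat_lit 70), (nat_lit 2)⟩))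
(.nd (.lf ⟨(nat_lit 0x2c72c7), (nat_lit 4), (nat_lit 0x1cb1cb), (nat_lit 4)⟩)
(.lf ⟨(nat_lit 463), (nat_lit 2), (nat_lit 0x81f3e67e77cc80c7e780c9e024c247), (nat_lit 20)⟩)))
(.nd (.nd (.lf ⟨(nat_lit 214), (nat_lit 2), (nat_lit 0x40a8097561d024e29d40a2522891d02a02472a024728740a2522891d02a02472a024728740a2522891d02a02472a024728740a2522891d02a02472a024728780948a252287383), (nat_lit 94)⟩)
(.lf ⟨(nat_lit 0x452513), (nat_lit 4), (nat_lit 0x4944d2452), (nat_lit 6)⟩))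
(.nd (.lf ⟨(nat_lit 416), (nat_lit 2), (nat_lit 0x1d38a21a80e288686), (nat_lit 11)⟩)
(.lf ⟨(nat_lit 614), (nat_lit 2), (nat_lit 0x9e69e69e69c9), (nat_lit 8)⟩))))
(.nd (.nd (.nd (.lf ⟨(nat_lit 203), (nat_lit 2), (nat_lit 0x10a2501891092c648a2441c629f48a7d229f48a7d2107183), (nat_lit 32)⟩)
(.lf ⟨(nat_lit 0), (nat_lit 0), (nat_lit 0xdd70375c), (nat_lit 6)⟩))
(.nd (.lf ⟨(nat_lit 0x115115), (nat_lit 4), (nat_lit 0x544544), (nat_lit 4)⟩)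
(.lf ⟨(nat_lit 0x5a7), (nat_lit 2), (nat_lit 0x61d627756), (nat_lit 6)⟩)))
(.nd (.nd (.lf ⟨(nat_lit 0x20b20b20b20b), (nat_lit 8), (nat_lit 0), (nat_lit 0)⟩)
(.lf ⟨(nat_lit 0x7792), (nat_lit 3), (nat_lit 0x1e49a48c49031a407), (nat_lit 11)⟩))
(.nd (.lf ⟨(nat_lit 0x548d), (nat_lit 3), (nat_lit 0x12352152), (nat_lit 5)⟩)
(.lf ⟨(nat_lit 0), (nat_lit 0), (nat_lit 0x658cf28f2819633ca3ca), (nat_lit 14)⟩)))))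
(.nd (.nd (.nd (.nd (.lf ⟨(nat_lit 222), (nat_lit 2), (nat_lit 0x24783), (nat_lit 3)⟩)
(.lf ⟨(nat_lit 0x657513), (nat_lit 4), (nat_lit 0x513657), (nat_lit 4)⟩))
(.nd (.lf ⟨(nat_lit 0x2975035d40ca5d40d7503), (nat_lit 14), (nat_lit 0x2975035d40ca5d40d7503), (nat_lit 14)⟩)
(.lf ⟨(nat_lit 0x548d), (nat_lit 3), (nat_lit 0xd152), (nat_lit 3)⟩)))
(.nd (.nd (.lf ⟨(nat_lit 221), (nat_lit 2), (nat_lit 0x74e44674e28818818a19c443), (nat_lit 16)⟩)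
(.lf ⟨(nat_lit 0x6dc), (nat_lit 2), (nat_lit 0x71b), (nat_lit 2)⟩))
(.nd (.lf ⟨(nat_lit 0x75f), (nat_lit 2), (nat_lit 0x7dd), (nat_lit 2)⟩)
(.lf ⟨(nat_lit 0x822), (nat_lit 2), (nat_lit 0x8a0), (nat_lit 2)⟩))))
(.nd (.nd (.nd (.lf ⟨(nat_lit 87), (nat_lit 2), (nat_lit 0x24f2573c90973d73c95cf2573c9081), (nat_lit 20)⟩)
(.lf ⟨(nat_lit 0x607c181f), (nat_lit 6), (nat_lit 0x607c181f), (nat_lit 6)⟩))
(.nd (.lf ⟨(nat_lit 0xb9a4), (nat_lit 3), (nat_lit 0x2690b), (nat_lit 3)⟩)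
(.lf ⟨(nat_lit 0), (nat_lit 0), (nat_lit 0x2607d24092607d2409), (nat_lit 12)⟩)))
(.nd (.nd (.lf ⟨(nat_lit 0x1995cd18d), (nat_lit 6), (nat_lit 0x18134604d), (nat_lit 6)⟩)
(.lf ⟨(nat_lit 0xb38c), (nat_lit 3), (nat_lit 0x1349149344c2ce), (nat_lit 9)⟩))
(.lf ⟨(nat_lit 0x849d), (nat_lit 3), (nat_lit 0x12752212), (nat_lit 5)⟩)))))
(.nd (.nd (.nd (.nd (.nd (.lf ⟨(nat_lit 0x49049), (nat_lit 4), (nat_lit 0x241241), (nat_lit 4)⟩)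
(.lf ⟨(nat_lit 0x1cd21f), (nat_lit 4), (nat_lit 0x7d535f54d21f207348), (nat_lit 12)⟩))
(.nd (.lf ⟨(nat_lit 0x25b456), (nat_lit 4), (nat_lit 0x6d1591251), (nat_lit 6)⟩)
(.lf ⟨(nat_lit 0x6452445485), (nat_lit 7), (nat_lit 0x11491152146), (nat_lit 7)⟩)))
(.nd (.nd (.lf ⟨(nat_lit 0x441081441081), (nat_lit 8), (nat_lit 0x42441042441), (nat_lit 8)⟩)
(.lf ⟨(nat_lit 0x2390210388), (nat_lit 7), (nat_lit 0x861d60861d61d61d60954954e40840e202), (nat_lit 23)⟩))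
(.nd (.lf ⟨(nat_lit 0xd0150143405405), (nat_lit 10), (nat_lit 0xd0150143405405), (nat_lit 10)⟩)
(.lf ⟨(nat_lit 4), (nat_lit 1), (nat_lit 0x12452444), (nat_lit 5)⟩))))
(.nd (.nd (.nd (.lf ⟨(nat_lit 0x10b10b), (nat_lit 4), (nat_lit 0x2c42c4), (nat_lit 4)⟩)
(.lf ⟨(nat_lit 0x25657), (nat_lit 3), (nat_lit 0x195e5), (nat_lit 3)⟩))
(.nd (.lf ⟨(nat_lit 0x486486486486), (nat_lit 8), (nat_lit 0), (nat_lit 0)⟩)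
(.lf ⟨(nat_lit 88), (nat_lit 2), (nat_lit 0x610190181), (nat_lit 6)⟩)))
(.nd (.nd (.lf ⟨(nat_lit 21), (nat_lit 1), (nat_lit 0x343343), (nat_lit 4)⟩)
(.lf ⟨(nat_lit 0x465), (nat_lit 2), (nat_lit 0x951), (nat_lit 2)⟩))
(.lf ⟨(nat_lit 167), (nat_lit 2), (nat_lit 0x5cf25b4522973c96e0452282), (nat_lit 16)⟩))))
(.nd (.nd (.nd (.nd (.lf ⟨(nat_lit 0x184184), (nat_lit 4), (nat_lit 0x106106), (nat_lit 4)⟩)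
(.lf ⟨(nat_lit 793), (nat_lit 2), (nat_lit 0x64c), (nat_lit 2)⟩))
(.nd (.lf ⟨(nat_lit 0x3603), (nat_lit 3), (nat_lit 0xcf0cf), (nat_lit 4)⟩)
(.lf ⟨(nat_lit 0x1e6db8e56e79633ca3ca), (nat_lit 13), (nat_lit 0x1b8e56e79633ca3ca79b), (nat_lit 13)⟩)))
(.nd (.nd (.lf ⟨(nat_lit 0x34a35534a355), (nat_lit 8), (nat_lit 0x54d28d54d28d), (nat_lit 8)⟩)
(.lf ⟨(nat_lit 31), (nat_lit 1), (nat_lit 0x1ca1ca), (nat_lit 4)⟩))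
(.nd (.lf ⟨(nat_lit 0x1a44e), (nat_lit 3), (nat_lit 0x1139a), (nat_lit 3)⟩)
(.lf ⟨(nat_lit 277), (nat_lit 2), (nat_lit 0x27963550389389210204), (nat_lit 13)⟩))))
(.nd (.nd (.nd (.lf ⟨(nat_lit 99), (nat_lit 2), (nat_lit 0x14d21b45228d21228d22375b45228d212285211288288751288281), (nat_lit 36)⟩)
(.lf ⟨(nat_lit 0x4871a04901a04904871a04901a0490), (nat_lit 20), (nat_lit 0x4871a04901a04904871a04901a0490), (nat_lit 20)⟩))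
(.nd (.lf ⟨(nat_lit 0x460460), (nat_lit 4), (nat_lit 0x811811), (nat_lit 4)⟩)
(.lf ⟨(nat_lit 0x115104544), (nat_lit 6), (nat_lit 0), (nat_lit 0)⟩)))
(.nd (.nd (.lf ⟨(nat_lit 0x41d71075c), (nat_lit 6), (nat_lit 0x40375c40375c), (nat_lit 8)⟩)
(.lf ⟨(nat_lit 0x1d12511d1251), (nat_lit 8), (nat_lit 0x1d12511d1251), (nat_lit 8)⟩))
(.lf ⟨(nat_lit 991), (nat_lit 2), (nat_lit 0x7cf), (nat_lit 2)⟩))))))
(.nd (.nd (.nd (.nd (.nd (.nd (.lf ⟨(nat_lit 38), (nat_lit 1), (nat_lit 0x5f05f), (nat_lit 4)⟩)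
(.lf ⟨(nat_lit 340), (nat_lit 2), (nat_lit 0x505), (nat_lit 2)⟩))
(.nd (.lf ⟨(nat_lit 0x2983d5), (nat_lit 4), (nat_lit 0x54d60d28f), (nat_lit 6)⟩)
(.lf ⟨(nat_lit 0x7793), (nat_lit 3), (nat_lit 0x1e51e5131de), (nat_lit 7)⟩)))
(.nd (.nd (.lf ⟨(nat_lit 0x2440c9103), (nat_lit 6), (nat_lit 0xc9103244), (nat_lit 6)⟩)
(.lf ⟨(nat_lit 0x27959), (nat_lit 3), (nat_lit 0x199e5), (nat_lit 3)⟩))
(.nd (.lf ⟨(nat_lit 0x930f), (nat_lit 3), (nat_lit 0xc3cc24c), (nat_lit 5)⟩)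
(.lf ⟨(nat_lit 0x1d63a638c2ca30b2871d63a638c2ca30b287), (nat_lit 24), (nat_lit 0x1d63a638c2ca30b2871d63a638c2ca30b287), (nat_lit 24)⟩))))
(.nd (.nd (.nd (.lf ⟨(nat_lit 0x1c31870c6), (nat_lit 6), (nat_lit 0x1870c61c3), (nat_lit 6)⟩)
(.lf ⟨(nat_lit 450), (nat_lit 2), (nat_lit 135), (nat_lit 2)⟩))
(.nd (.lf ⟨(nat_lit 0x487487), (nat_lit 4), (nat_lit 0), (nat_lit 0)⟩)
(.lf ⟨(nat_lit 0x44e1a544e1a51a51a5), (nat_lit 12), (nat_lit 0x1069469441a51a5), (nat_lit 10)⟩)))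
(.nd (.nd (.lf ⟨(nat_lit 220), (nat_lit 2), (nat_lit 0x75c743), (nat_lit 4)⟩)
(.lf ⟨(nat_lit 664), (nat_lit 2), (nat_lit 0x60a), (nat_lit 2)⟩))
(.lf ⟨(nat_lit 0x254254254254), (nat_lit 8), (nat_lit 0), (nat_lit 0)⟩))))
(.nd (.nd (.nd (.nd (.lf ⟨(nat_lit 455), (nat_lit 2), (nat_lit 0), (nat_lit 0)⟩)
(.lf ⟨(nat_lit 0x8b9019049019042e40641240641022e406412406410b901904901904), (nat_lit 38), (nat_lit 0x8b9019049019042e40641240641022e406412406410b901904901904), (nat_lit 38)⟩))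
(.nd (.lf ⟨(nat_lit 0x156156), (nat_lit 4), (nat_lit 0x585585), (nat_lit 4)⟩)
(.lf ⟨(nat_lit 276), (nat_lit 2), (nat_lit 0x9a481b49159245648e8e56e795149128f8cd28f42796334a24e2ca24b1c6407184), (nat_lit 44)⟩)))
(.nd (.nd (.lf ⟨(nat_lit 780), (nat_lit 2), (nat_lit 0), (nat_lit 0)⟩)
(.lf ⟨(nat_lit 597), (nat_lit 2), (nat_lit 0x550350349), (nat_lit 6)⟩))
(.nd (.lf ⟨(nat_lit 0x44e3c63c6), (nat_lit 6), (nat_lit 0x3c63c644e), (nat_lit 6)⟩)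
(.lf ⟨(nat_lit 548), (nat_lit 2), (nat_lit 0x908), (nat_lit 2)⟩))))
(.nd (.nd (.nd (.lf ⟨(nat_lit 263), (nat_lit 2), (nat_lit 0x252287409284), (nat_lit 8)⟩)
(.lf ⟨(nat_lit 0x75c49115239244548e), (nat_lit 12), (nat_lit 0x14144e14144e), (nat_lit 8)⟩))
(.nd (.lf ⟨(nat_lit 0x4a51f51f2812947d47ca), (nat_lit 14), (nat_lit 0x4a51f51f2812947d47ca), (nat_lit 14)⟩)
(.lf ⟨(nat_lit 0x189a4), (nat_lit 3), (nat_lit 0x26918), (nat_lit 3)⟩)))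
(.nd (.nd (.lf ⟨(nat_lit 223), (nat_lit 2), (nat_lit 0x81f803), (nat_lit 4)⟩)
(.lf ⟨(nat_lit 0x140f40f18d40640d), (nat_lit 11), (nat_lit 0x103d03c6350190341), (nat_lit 11)⟩))
(.lf ⟨(nat_lit 0x848e), (nat_lit 3), (nat_lit 0x12392212), (nat_lit 5)⟩)))))
(.nd (.nd (.nd (.nd (.nd (.lf ⟨(nat_lit 271), (nat_lit 2), (nat_lit 0x193c4), (nat_lit 3)⟩)
(.lf ⟨(nat_lit 0x347347), (nat_lit 4), (nat_lit 0x96542595), (nat_lit 6)⟩))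
(.nd (.lf ⟨(nat_lit 670), (nat_lit 2), (nat_lit 0x79245244a), (nat_lit 6)⟩)
(.lf ⟨(nat_lit 0x11b11b), (nat_lit 4), (nat_lit 0x11b11b), (nat_lit 4)⟩)))
(.nd (.nd (.lf ⟨(nat_lit 0x20c20c), (nat_lit 4), (nat_lit 0x308308), (nat_lit 4)⟩)
(.lf ⟨(nat_lit 0x65b), (nat_lit 2), (nat_lit 0x6d9), (nat_lit 2)⟩))
(.nd (.lf ⟨(nat_lit 0x24e24e), (nat_lit 4), (nat_lit 0x389389), (nat_lit 4)⟩)
(.lf ⟨(nat_lit 167), (nat_lit 2), (nat_lit 0x9c2), (nat_lit 2)⟩))))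
(.nd (.nd (.nd (.lf ⟨(nat_lit 0x204183204183), (nat_lit 8), (nat_lit 0x183204183204), (nat_lit 8)⟩)
(.lf ⟨(nat_lit 0x5488488), (nat_lit 5), (nat_lit 0x1d79d792212205), (nat_lit 9)⟩))
(.nd (.lf ⟨(nat_lit 339), (nat_lit 2), (nat_lit 0x4c5), (nat_lit 2)⟩)
(.lf ⟨(nat_lit 0x6c8), (nat_lit 2), (nat_lit 0x44d44d21b), (nat_lit 6)⟩)))
(.nd (.nd (.lf ⟨(nat_lit 15), (nat_lit 1), (nat_lit 0x49049), (nat_lit 4)⟩)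
(.lf ⟨(nat_lit 0x207c5), (nat_lit 3), (nat_lit 0x132532571d71c581f), (nat_lit 11)⟩))
(.lf ⟨(nat_lit 0x640a), (nat_lit 3), (nat_lit 0x70a190), (nat_lit 4)⟩))))
(.nd (.nd (.nd (.nd (.lf ⟨(nat_lit 0x85041085041), (nat_lit 8), (nat_lit 0x45042045042), (nat_lit 8)⟩)
(.lf ⟨(nat_lit 0x650b29428b), (nat_lit 7), (nat_lit 0x142ca50a2c6), (nat_lit 7)⟩))
(.nd (.lf ⟨(nat_lit 0x1c48a2d228b28b28b), (nat_lit 11), (nat_lit 0x1228b48a2ca2ca2dc), (nat_lit 11)⟩)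
(.lf ⟨(nat_lit 0xc9df), (nat_lit 3), (nat_lit 0x268267cc9e0), (nat_lit 7)⟩)))
(.nd (.nd (.lf ⟨(nat_lit 413), (nat_lit 2), (nat_lit 0x746), (nat_lit 2)⟩)
(.lf ⟨(nat_lit 0x11392), (nat_lit 3), (nat_lit 0x1244e), (nat_lit 3)⟩))
(.nd (.lf ⟨(nat_lit 30), (nat_lit 1), (nat_lit 0x481481), (nat_lit 4)⟩)
(.lf ⟨(nat_lit 88), (nat_lit 2), (nat_lit 0x9e696460f28c28f30a30a3c840a30a3c8401), (nat_lit 24)⟩))))
(.nd (.nd (.nd (.lf ⟨(nat_lit 0x188191), (nat_lit 4), (nat_lit 0x874e28629d44e746), (nat_lit 11)⟩)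
(.lf ⟨(nat_lit 0x28f34e), (nat_lit 4), (nat_lit 0x3cd38f34a3cd), (nat_lit 8)⟩))
(.nd (.lf ⟨(nat_lit 267), (nat_lit 2), (nat_lit 0x44e2c66d645645669844e184), (nat_lit 16)⟩)
(.lf ⟨(nat_lit 167), (nat_lit 2), (nat_lit 0x9e3823802), (nat_lit 6)⟩)))
(.nd (.nd (.lf ⟨(nat_lit 0x1cf1cf), (nat_lit 4), (nat_lit 0x1cf1cf), (nat_lit 4)⟩)
(.lf ⟨(nat_lit 0x13792692), (nat_lit 5), (nat_lit 0x1e49a493), (nat_lit 5)⟩))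
(.lf ⟨(nat_lit 0x195d1), (nat_lit 3), (nat_lit 0x11657), (nat_lit 3)⟩)))))))
(.nd (.nd (.nd (.nd (.nd (.nd (.nd (.lf ⟨(nat_lit 22), (nat_lit 1), (nat_lit 0x8e08e), (nat_lit 4)⟩)
(.lf ⟨(nat_lit 0x28181e81e9e07a781e44181e81e9e07a781e44a0607a07a781e9e07910607a07a781e9e0791), (nat_lit 50), (nat_lit 0x28181e81e9e07a781e44181e81e9e07a781e44a0607a07a781e9e07910607a07a781e9e0791), (nat_lit 50)⟩))
(.nd (.lf ⟨(nat_lit 148), (nat_lit 2), (nat_lit 0xb50c1851851c50d330b50b1cb3071461543072cc1543060d3302), (nat_lit 35)⟩)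
(.lf ⟨(nat_lit 0x2513d0), (nat_lit 4), (nat_lit 0x6985103d03cc40c69850f3103103c944f), (nat_lit 22)⟩)))
(.nd (.nd (.lf ⟨(nat_lit 396), (nat_lit 2), (nat_lit 774), (nat_lit 2)⟩)
(.lf ⟨(nat_lit 0xb452), (nat_lit 3), (nat_lit 0xc70c49c4914912d1), (nat_lit 11)⟩))
(.nd (.lf ⟨(nat_lit 0x4430430110c10c), (nat_lit 10), (nat_lit 0x4430430110c10c), (nat_lit 10)⟩)
(.lf ⟨(nat_lit 0x1031cd2073480c73481cd2040c73481cd2031cd207348), (nat_lit 30), (nat_lit 0x1031cd2073480c73481cd2040c73481cd2031cd207348), (nat_lit 30)⟩))))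
(.nd (.nd (.nd (.lf ⟨(nat_lit 266), (nat_lit 2), (nat_lit 644), (nat_lit 2)⟩)
(.lf ⟨(nat_lit 0x385385513), (nat_lit 6), (nat_lit 0x513385385), (nat_lit 6)⟩))
(.nd (.lf ⟨(nat_lit 0x299295), (nat_lit 4), (nat_lit 0x65564a64a), (nat_lit 6)⟩)
(.lf ⟨(nat_lit 0x41b), (nat_lit 2), (nat_lit 0x49a49a6d0), (nat_lit 6)⟩)))
(.nd (.nd (.lf ⟨(nat_lit 412), (nat_lit 2), (nat_lit 0x74a71d286), (nat_lit 6)⟩)
(.lf ⟨(nat_lit 167), (nat_lit 2), (nat_lit 0x8174914913c944a5d14913d2251282), (nat_lit 20)⟩))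
(.lf ⟨(nat_lit 0x497), (nat_lit 2), (nat_lit 0x5d2), (nat_lit 2)⟩))))
(.nd (.nd (.nd (.nd (.lf ⟨(nat_lit 70), (nat_lit 2), (nat_lit 0xc60c60c60c1), (nat_lit 8)⟩)
(.lf ⟨(nat_lit 203), (nat_lit 2), (nat_lit 0x142c3), (nat_lit 3)⟩))
(.nd (.lf ⟨(nat_lit 0x183883886), (nat_lit 6), (nat_lit 0xc68860c6886), (nat_lit 8)⟩)
(.lf ⟨(nat_lit 0x239e5), (nat_lit 3), (nat_lit 0x27963), (nat_lit 3)⟩)))
(.nd (.nd (.lf ⟨(nat_lit 0x42c6), (nat_lit 3), (nat_lit 0x1d44a20674e28810b), (nat_lit 11)⟩)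
(.lf ⟨(nat_lit 859), (nat_lit 2), (nat_lit 0x6cd), (nat_lit 2)⟩))
(.nd (.lf ⟨(nat_lit 0x660), (nat_lit 2), (nat_lit 0x819), (nat_lit 2)⟩)
(.lf ⟨(nat_lit 0x725), (nat_lit 2), (nat_lit 0x95c), (nat_lit 2)⟩))))
(.nd (.nd (.nd (.lf ⟨(nat_lit 218), (nat_lit 2), (nat_lit 0x20a38a24a40969044a20419029c44a71129c44a711106403), (nat_lit 32)⟩)
(.lf ⟨(nat_lit 0x20c490), (nat_lit 4), (nat_lit 0x49031240c9e548840c), (nat_lit 12)⟩))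
(.nd (.lf ⟨(nat_lit 0x48a31228c), (nat_lit 6), (nat_lit 0x48a31228c), (nat_lit 6)⟩)
(.lf ⟨(nat_lit 0x427), (nat_lit 2), (nat_lit 0x6a7690), (nat_lit 4)⟩)))
(.nd (.nd (.lf ⟨(nat_lit 87), (nat_lit 2), (nat_lit 0x5c1), (nat_lit 2)⟩)
(.lf ⟨(nat_lit 0x581f), (nat_lit 3), (nat_lit 0x207d740d4174cc34c253245), (nat_lit 15)⟩))
(.lf ⟨(nat_lit 0x738d), (nat_lit 3), (nat_lit 0xd387), (nat_lit 3)⟩)))))
(.nd (.nd (.nd (.nd (.nd (.lf ⟨(nat_lit 0x514), (nat_lit 2), (nat_lit 0), (nat_lit 0)⟩)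
(.lf ⟨(nat_lit 0xb513), (nat_lit 3), (nat_lit 0x144cb), (nat_lit 3)⟩))
(.nd (.lf ⟨(nat_lit 0x485485), (nat_lit 4), (nat_lit 0x9e09e), (nat_lit 4)⟩)
(.lf ⟨(nat_lit 486), (nat_lit 2), (nat_lit 0x987), (nat_lit 2)⟩)))
(.nd (.nd (.lf ⟨(nat_lit 667), (nat_lit 2), (nat_lit 0x6d245244a), (nat_lit 6)⟩)
(.lf ⟨(nat_lit 0x449449), (nat_lit 4), (nat_lit 0x449449), (nat_lit 4)⟩))
(.nd (.lf ⟨(nat_lit 0x1781f), (nat_lit 3), (nat_lit 0x207d7), (nat_lit 3)⟩)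
(.lf ⟨(nat_lit 0x1a9e4), (nat_lit 3), (nat_lit 0x2791a), (nat_lit 3)⟩))))
(.nd (.nd (.nd (.lf ⟨(nat_lit 0x3480cd203), (nat_lit 6), (nat_lit 0xcd203348), (nat_lit 6)⟩)
(.lf ⟨(nat_lit 0x8485485), (nat_lit 5), (nat_lit 0x1d79d792152148), (nat_lit 9)⟩))
(.nd (.lf ⟨(nat_lit 102), (nat_lit 2), (nat_lit 0x981), (nat_lit 2)⟩)
(.lf ⟨(nat_lit 166), (nat_lit 2), (nat_lit 0x99f51318591448c91f512306142), (nat_lit 18)⟩)))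
(.nd (.nd (.lf ⟨(nat_lit 0x720c), (nat_lit 3), (nat_lit 0x83081c8), (nat_lit 5)⟩)
(.lf ⟨(nat_lit 0x6409), (nat_lit 3), (nat_lit 0x1440c40c69850c81f3207cf3207d03207d03c9190), (nat_lit 27)⟩))
(.lf ⟨(nat_lit 0x419), (nat_lit 2), (nat_lit 0x650), (nat_lit 2)⟩))))
(.nd (.nd (.nd (.nd (.lf ⟨(nat_lit 0x4d202), (nat_lit 4), (nat_lit 0x20d20204d205), (nat_lit 8)⟩)
(.lf ⟨(nat_lit 0x2839a40e690a0e69039a4), (nat_lit 14), (nat_lit 0x2839a40e690a0e69039a4), (nat_lit 14)⟩))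
(.nd (.lf ⟨(nat_lit 0x9c09c), (nat_lit 4), (nat_lit 0x9c09c), (nat_lit 4)⟩)
(.lf ⟨(nat_lit 0x1b963), (nat_lit 3), (nat_lit 0x279639db), (nat_lit 5)⟩)))
(.nd (.nd (.lf ⟨(nat_lit 224), (nat_lit 2), (nat_lit 0x2041241241240a1ca1df483), (nat_lit 15)⟩)
(.lf ⟨(nat_lit 0x6d15919a4), (nat_lit 6), (nat_lit 0x9a46d1591), (nat_lit 6)⟩))
(.nd (.lf ⟨(nat_lit 0x975c), (nat_lit 3), (nat_lit 0x1d709), (nat_lit 3)⟩)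
(.lf ⟨(nat_lit 0xa30b), (nat_lit 3), (nat_lit 0x9e58cf30b28f), (nat_lit 8)⟩))))
(.nd (.nd (.nd (.lf ⟨(nat_lit 391), (nat_lit 2), (nat_lit 0x7506), (nat_lit 3)⟩)
(.lf ⟨(nat_lit 0x5e7), (nat_lit 2), (nat_lit 0x667657), (nat_lit 4)⟩))
(.nd (.lf ⟨(nat_lit 23), (nat_lit 1), (nat_lit 0x149149), (nat_lit 4)⟩)
(.lf ⟨(nat_lit 0), (nat_lit 0), (nat_lit 0x21e21e), (nat_lit 4)⟩)))
(.nd (.nd (.lf ⟨(nat_lit 0), (nat_lit 0), (nat_lit 520), (nat_lit 2)⟩)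
(.lf ⟨(nat_lit 0x4a269215215a49289a485485692), (nat_lit 18), (nat_lit 0), (nat_lit 0)⟩))
(.lf ⟨(nat_lit 0x3cd60f54f), (nat_lit 6), (nat_lit 0x60f54f3cd), (nat_lit 6)⟩))))))
(.nd (.nd (.nd (.nd (.nd (.nd (.lf ⟨(nat_lit 132), (nat_lit 2), (nat_lit 0x9102), (nat_lit 3)⟩)
(.lf ⟨(nat_lit 0x1275e), (nat_lit 3), (nat_lit 0x1d79d49d), (nat_lit 5)⟩))
(.nd (.lf ⟨(nat_lit 0x14192406490), (nat_lit 7), (nat_lit 0x6490192414), (nat_lit 7)⟩)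
(.lf ⟨(nat_lit 358), (nat_lit 2), (nat_lit 0x985), (nat_lit 2)⟩)))
(.nd (.nd (.lf ⟨(nat_lit 0x441441), (nat_lit 4), (nat_lit 0), (nat_lit 0)⟩)
(.lf ⟨(nat_lit 0x758758255255758758255255), (nat_lit 16), (nat_lit 0), (nat_lit 0)⟩))
(.nd (.lf ⟨(nat_lit 0x1981f), (nat_lit 3), (nat_lit 0x207d9), (nat_lit 3)⟩)
(.lf ⟨(nat_lit 0x6a6), (nat_lit 2), (nat_lit 0x9e66a7), (nat_lit 4)⟩))))
(.nd (.nd (.nd (.lf ⟨(nat_lit 0x4030c14030c1), (nat_lit 8), (nat_lit 0x43403043403), (nat_lit 8)⟩)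
(.lf ⟨(nat_lit 0), (nat_lit 0), (nat_lit 0x11d49d484752752), (nat_lit 10)⟩))
(.nd (.lf ⟨(nat_lit 549), (nat_lit 2), (nat_lit 0x948), (nat_lit 2)⟩)
(.lf ⟨(nat_lit 0x1a544e), (nat_lit 4), (nat_lit 0x9d13a71a5), (nat_lit 6)⟩)))
(.nd (.nd (.lf ⟨(nat_lit 973), (nat_lit 2), (nat_lit 0x144144), (nat_lit 4)⟩)
(.lf ⟨(nat_lit 0x56d1591), (nat_lit 5), (nat_lit 0x1b456445), (nat_lit 5)⟩))
(.lf ⟨(nat_lit 0x1a614), (nat_lit 3), (nat_lit 0x14698), (nat_lit 3)⟩))))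
(.nd (.nd (.nd (.nd (.lf ⟨(nat_lit 0x202202), (nat_lit 4), (nat_lit 0x88088), (nat_lit 4)⟩)
(.lf ⟨(nat_lit 0x4279269649509e49a59254109e49a592542792696495), (nat_lit 30), (nat_lit 0x4279269649509e49a59254109e49a592542792696495), (nat_lit 30)⟩))
(.nd (.lf ⟨(nat_lit 0), (nat_lit 0), (nat_lit 0x1c31c3), (nat_lit 4)⟩)
(.lf ⟨(nat_lit 0xa3d2), (nat_lit 3), (nat_lit 0xf48f28f), (nat_lit 5)⟩)))
(.nd (.nd (.lf ⟨(nat_lit 0x941965065), (nat_lit 6), (nat_lit 0), (nat_lit 0)⟩)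
(.lf ⟨(nat_lit 0), (nat_lit 0), (nat_lit 0x20f3483cd), (nat_lit 6)⟩))
(.nd (.lf ⟨(nat_lit 0x20698), (nat_lit 3), (nat_lit 0x1a620), (nat_lit 3)⟩)
(.lf ⟨(nat_lit 0x59d), (nat_lit 2), (nat_lit 0x756), (nat_lit 2)⟩))))
(.nd (.nd (.nd (.lf ⟨(nat_lit 0x34e34e), (nat_lit 4), (nat_lit 0x58e34e356), (nat_lit 6)⟩)
(.lf ⟨(nat_lit 0), (nat_lit 0), (nat_lit 0x4d18d181346346), (nat_lit 10)⟩))
(.nd (.lf ⟨(nat_lit 166), (nat_lit 2), (nat_lit 0x599f18399f79244a99f79244a50b4cc2d430b4d42d31c64cb30715f0c2), (nat_lit 39)⟩)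
(.lf ⟨(nat_lit 0x184544184544), (nat_lit 8), (nat_lit 0x184544184544), (nat_lit 8)⟩)))
(.nd (.nd (.lf ⟨(nat_lit 14), (nat_lit 1), (nat_lit 0xc80c8), (nat_lit 4)⟩)
(.lf ⟨(nat_lit 0xd80c93d03c640624f40f19018360324f40f1901893d03c6406), (nat_lit 34), (nat_lit 0xd80c93d03c640624f40f19018360324f40f1901893d03c6406), (nat_lit 34)⟩))
(.lf ⟨(nat_lit 0x7412c92c97412c92c9), (nat_lit 12), (nat_lit 0x7412c92c97412c92c9), (nat_lit 12)⟩)))))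
(.nd (.nd (.nd (.nd (.nd (.lf ⟨(nat_lit 0xd20d2), (nat_lit 4), (nat_lit 0x483483), (nat_lit 4)⟩)
(.lf ⟨(nat_lit 644), (nat_lit 2), (nat_lit 266), (nat_lit 2)⟩))
(.nd (.lf ⟨(nat_lit 0xa3d128f), (nat_lit 5), (nat_lit 0x28f04a3c1), (nat_lit 6)⟩)
(.lf ⟨(nat_lit 0x28430b10c2ca10c2c430b), (nat_lit 14), (nat_lit 0x28430b10c2ca10c2c430b), (nat_lit 14)⟩)))
(.nd (.nd (.lf ⟨(nat_lit 78), (nat_lit 2), (nat_lit 0x388188181), (nat_lit 6)⟩)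
(.lf ⟨(nat_lit 727), (nat_lit 2), (nat_lit 0x5cb), (nat_lit 2)⟩))
(.nd (.lf ⟨(nat_lit 0x9756), (nat_lit 3), (nat_lit 0x16749), (nat_lit 3)⟩)
(.lf ⟨(nat_lit 336), (nat_lit 2), (nat_lit 0x207e29e681f405), (nat_lit 9)⟩))))
(.nd (.nd (.nd (.lf ⟨(nat_lit 0x284242284242), (nat_lit 8), (nat_lit 0x242284242284), (nat_lit 8)⟩)
(.lf ⟨(nat_lit 933), (nat_lit 2), (nat_lit 0x9673a7), (nat_lit 4)⟩))
(.nd (.lf ⟨(nat_lit 0x150150), (nat_lit 4), (nat_lit 0x405405), (nat_lit 4)⟩)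
(.lf ⟨(nat_lit 465), (nat_lit 2), (nat_lit 0x2644c28c287), (nat_lit 7)⟩)))
(.nd (.nd (.lf ⟨(nat_lit 32), (nat_lit 1), (nat_lit 0x5c95ca5c95ca), (nat_lit 8)⟩)
(.lf ⟨(nat_lit 532), (nat_lit 2), (nat_lit 0x50e31245244e308), (nat_lit 10)⟩))
(.lf ⟨(nat_lit 0x595), (nat_lit 2), (nat_lit 0x207207), (nat_lit 4)⟩))))
(.nd (.nd (.nd (.nd (.lf ⟨(nat_lit 0x183101183101), (nat_lit 8), (nat_lit 0x44183044183), (nat_lit 8)⟩)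
(.lf ⟨(nat_lit 0xc2dc), (nat_lit 3), (nat_lit 0x1c30b), (nat_lit 3)⟩))
(.nd (.lf ⟨(nat_lit 0), (nat_lit 0), (nat_lit 0x781781), (nat_lit 4)⟩)
(.lf ⟨(nat_lit 0), (nat_lit 0), (nat_lit 0x348348), (nat_lit 4)⟩)))
(.nd (.nd (.lf ⟨(nat_lit 0), (nat_lit 0), (nat_lit 0x119119), (nat_lit 4)⟩)
(.lf ⟨(nat_lit 0x36d1591), (nat_lit 5), (nat_lit 0x2691b456443), (nat_lit 7)⟩))
(.nd (.lf ⟨(nat_lit 0x848d), (nat_lit 3), (nat_lit 0x12352212), (nat_lit 5)⟩)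
(.lf ⟨(nat_lit 0x840a), (nat_lit 3), (nat_lit 0x74f28c28f30a3cc28c28f210), (nat_lit 16)⟩))))
(.nd (.nd (.nd (.lf ⟨(nat_lit 84), (nat_lit 2), (nat_lit 0x501), (nat_lit 2)⟩)
(.lf ⟨(nat_lit 0x20c213), (nat_lit 4), (nat_lit 0x4cc34c20c348), (nat_lit 8)⟩))
(.nd (.lf ⟨(nat_lit 0), (nat_lit 0), (nat_lit 0x342342), (nat_lit 4)⟩)
(.lf ⟨(nat_lit 967), (nat_lit 2), (nat_lit 0x8263278093091cf), (nat_lit 10)⟩)))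
(.nd (.nd (.lf ⟨(nat_lit 0x41f), (nat_lit 2), (nat_lit 0x7d0), (nat_lit 2)⟩)
(.lf ⟨(nat_lit 595), (nat_lit 2), (nat_lit 0x4c9), (nat_lit 2)⟩))
(.lf ⟨(nat_lit 0xe79b), (nat_lit 3), (nat_lit 0x1e6ce), (nat_lit 3)⟩))))))))
(.nd (.nd (.nd (.nd (.nd (.nd (.nd (.nd (.lf ⟨(nat_lit 14), (nat_lit 1), (nat_lit 0xc80c8), (nat_lit 4)⟩)
(.lf ⟨(nat_lit 0x1a07a07a781e9e07911a07a07a781e9e0791), (nat_lit 24), (nat_lit 0x1a07a07a781e9e07911a07a07a781e9e0791), (nat_lit 24)⟩))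
(.nd (.lf ⟨(nat_lit 0xe61e61c3), (nat_lit 6), (nat_lit 0xe60c70e60c7), (nat_lit 8)⟩)
(.lf ⟨(nat_lit 268), (nat_lit 2), (nat_lit 0x595792692304), (nat_lit 8)⟩)))
(.nd (.nd (.lf ⟨(nat_lit 0x34e34e), (nat_lit 4), (nat_lit 0x38d38d), (nat_lit 4)⟩)
(.lf ⟨(nat_lit 0x548b), (nat_lit 3), (nat_lit 0x1271231c30b152), (nat_lit 9)⟩))
(.nd (.lf ⟨(nat_lit 0x595), (nat_lit 2), (nat_lit 0x1c81c8), (nat_lit 4)⟩)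
(.lf ⟨(nat_lit 0x527), (nat_lit 2), (nat_lit 0x9d4), (nat_lit 2)⟩))))
(.nd (.nd (.nd (.lf ⟨(nat_lit 0x10a0c210a0c2), (nat_lit 8), (nat_lit 0x8a0c408a0c4), (nat_lit 8)⟩)
(.lf ⟨(nat_lit 0x1675c), (nat_lit 3), (nat_lit 0x1615615d716), (nat_lit 7)⟩))
(.nd (.lf ⟨(nat_lit 0x29928d), (nat_lit 4), (nat_lit 0x34a64a), (nat_lit 4)⟩)
(.lf ⟨(nat_lit 790), (nat_lit 2), (nat_lit 0x6d261e49159879b44c), (nat_lit 12)⟩)))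
(.nd (.nd (.lf ⟨(nat_lit 6), (nat_lit 1), (nat_lit 0x43043), (nat_lit 4)⟩)
(.lf ⟨(nat_lit 722), (nat_lit 2), (nat_lit 0x48b), (nat_lit 2)⟩))
(.lf ⟨(nat_lit 0x65e), (nat_lit 2), (nat_lit 0x799), (nat_lit 2)⟩))))
(.nd (.nd (.nd (.nd (.lf ⟨(nat_lit 0x9e7), (nat_lit 2), (nat_lit 0), (nat_lit 0)⟩)
(.lf ⟨(nat_lit 0xcc2c330b), (nat_lit 6), (nat_lit 0xcc2c330b), (nat_lit 6)⟩))
(.nd (.lf ⟨(nat_lit 0x79b), (nat_lit 2), (nat_lit 0x285285), (nat_lit 4)⟩)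
(.lf ⟨(nat_lit 0x6e4), (nat_lit 2), (nat_lit 0x91b), (nat_lit 2)⟩)))
(.nd (.nd (.lf ⟨(nat_lit 197), (nat_lit 2), (nat_lit 0x50c1c614b507183), (nat_lit 10)⟩)
(.lf ⟨(nat_lit 0xd40f), (nat_lit 3), (nat_lit 0x103d0350), (nat_lit 5)⟩))
(.nd (.lf ⟨(nat_lit 26), (nat_lit 1), (nat_lit 0x50050), (nat_lit 4)⟩)
(.lf ⟨(nat_lit 0x21020c), (nat_lit 4), (nat_lit 0x24e24c24e248408), (nat_lit 10)⟩))))
(.nd (.nd (.nd (.lf ⟨(nat_lit 78), (nat_lit 2), (nat_lit 0x18e206201), (nat_lit 6)⟩)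
(.lf ⟨(nat_lit 0x840f), (nat_lit 3), (nat_lit 0x279503d2427952210), (nat_lit 11)⟩))
(.nd (.lf ⟨(nat_lit 0x1903d0), (nat_lit 4), (nat_lit 0x40f40f18f), (nat_lit 6)⟩)
(.lf ⟨(nat_lit 0), (nat_lit 0), (nat_lit 0x1c22c92c91c22c92c9), (nat_lit 12)⟩)))
(.nd (.nd (.lf ⟨(nat_lit 671), (nat_lit 2), (nat_lit 0x7ca), (nat_lit 2)⟩)
(.lf ⟨(nat_lit 718), (nat_lit 2), (nat_lit 0x4d24524d138b), (nat_lit 8)⟩))
(.lf ⟨(nat_lit 867), (nat_lit 2), (nat_lit 0x8cd), (nat_lit 2)⟩)))))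
(.nd (.nd (.nd (.nd (.nd (.lf ⟨(nat_lit 74), (nat_lit 2), (nat_lit 0x11281), (nat_lit 3)⟩)
(.lf ⟨(nat_lit 70), (nat_lit 2), (nat_lit 385), (nat_lit 2)⟩))
(.nd (.lf ⟨(nat_lit 0x24b44e), (nat_lit 4), (nat_lit 0x2d138b44e25138b), (nat_lit 10)⟩)
(.lf ⟨(nat_lit 0x1f79b), (nat_lit 3), (nat_lit 0x1e6df), (nat_lit 3)⟩)))
(.nd (.nd (.lf ⟨(nat_lit 0x48a48a), (nat_lit 4), (nat_lit 0), (nat_lit 0)⟩)
(.lf ⟨(nat_lit 0xd81f), (nat_lit 3), (nat_lit 0x207cd), (nat_lit 3)⟩))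
(.nd (.lf ⟨(nat_lit 0x417417), (nat_lit 4), (nat_lit 0x5d05d0), (nat_lit 4)⟩)
(.lf ⟨(nat_lit 662), (nat_lit 2), (nat_lit 0x58a), (nat_lit 2)⟩))))
(.nd (.nd (.nd (.lf ⟨(nat_lit 0x681681), (nat_lit 4), (nat_lit 0), (nat_lit 0)⟩)
(.lf ⟨(nat_lit 0x2575274f48f), (nat_lit 7), (nat_lit 0x1d49d3d23e5), (nat_lit 7)⟩))
(.nd (.lf ⟨(nat_lit 0x1f486486), (nat_lit 5), (nat_lit 0x1219219f), (nat_lit 5)⟩)
(.lf ⟨(nat_lit 214), (nat_lit 2), (nat_lit 0x2658c2ca30b283), (nat_lit 9)⟩)))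
(.nd (.nd (.lf ⟨(nat_lit 0x11e49a484792692), (nat_lit 10), (nat_lit 0x11e49a484792692), (nat_lit 10)⟩)
(.lf ⟨(nat_lit 268), (nat_lit 2), (nat_lit 0x81f5957a07d2692304), (nat_lit 12)⟩))
(.lf ⟨(nat_lit 276), (nat_lit 2), (nat_lit 0x44e4944944941e691044e4064269121901c4), (nat_lit 24)⟩))))
(.nd (.nd (.nd (.nd (.lf ⟨(nat_lit 0x242049081), (nat_lit 6), (nat_lit 0x49081242), (nat_lit 6)⟩)
(.lf ⟨(nat_lit 31), (nat_lit 1), (nat_lit 0xd20d2), (nat_lit 4)⟩))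
(.nd (.lf ⟨(nat_lit 0x35c7), (nat_lit 3), (nat_lit 0x171d70d7), (nat_lit 5)⟩)
(.lf ⟨(nat_lit 465), (nat_lit 2), (nat_lit 0x1e49a49a49a49a40f48f31099e49128c287), (nat_lit 23)⟩)))
(.nd (.nd (.lf ⟨(nat_lit 78), (nat_lit 2), (nat_lit 0x1d38a18a181), (nat_lit 7)⟩)
(.lf ⟨(nat_lit 0x26920), (nat_lit 3), (nat_lit 0x209a4), (nat_lit 3)⟩))
(.nd (.lf ⟨(nat_lit 0x4406406), (nat_lit 5), (nat_lit 0x10190184), (nat_lit 5)⟩)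
(.lf ⟨(nat_lit 0x623), (nat_lit 2), (nat_lit 0x8d8), (nat_lit 2)⟩))))
(.nd (.nd (.nd (.lf ⟨(nat_lit 0x2193c9), (nat_lit 4), (nat_lit 0xf248), (nat_lit 3)⟩)
(.lf ⟨(nat_lit 0x4580f3458011603cd160), (nat_lit 14), (nat_lit 0x4580f3458011603cd160), (nat_lit 14)⟩))
(.nd (.lf ⟨(nat_lit 470), (nat_lit 2), (nat_lit 0x587), (nat_lit 2)⟩)
(.lf ⟨(nat_lit 0xc9a4), (nat_lit 3), (nat_lit 0x2690c), (nat_lit 3)⟩)))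
(.nd (.nd (.lf ⟨(nat_lit 0x2431431490c50c5), (nat_lit 10), (nat_lit 0x2431431490c50c5), (nat_lit 10)⟩)
(.lf ⟨(nat_lit 0x3d03c6406), (nat_lit 6), (nat_lit 0x58058), (nat_lit 4)⟩))
(.lf ⟨(nat_lit 0x91e0db91e0db), (nat_lit 8), (nat_lit 0xde6c379b), (nat_lit 6)⟩))))))
(.nd (.nd (.nd (.nd (.nd (.nd (.lf ⟨(nat_lit 0x83083), (nat_lit 4), (nat_lit 0xc20c2), (nat_lit 4)⟩)
(.lf ⟨(nat_lit 326), (nat_lit 2), (nat_lit 0x513185), (nat_lit 4)⟩))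
(.nd (.lf ⟨(nat_lit 0x184504506114114), (nat_lit 10), (nat_lit 0x184504506114114), (nat_lit 10)⟩)
(.lf ⟨(nat_lit 0x6e6), (nat_lit 2), (nat_lit 0x99b), (nat_lit 2)⟩)))
(.nd (.nd (.lf ⟨(nat_lit 0x482482), (nat_lit 4), (nat_lit 0), (nat_lit 0)⟩)
(.lf ⟨(nat_lit 0x758758255255), (nat_lit 8), (nat_lit 0x256549595), (nat_lit 6)⟩))
(.nd (.lf ⟨(nat_lit 473), (nat_lit 2), (nat_lit 0x64959581f24881f595207), (nat_lit 14)⟩)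
(.lf ⟨(nat_lit 462), (nat_lit 2), (nat_lit 0x265a65a638c2ca30b287), (nat_lit 13)⟩))))
(.nd (.nd (.nd (.lf ⟨(nat_lit 0x2831ca0c7), (nat_lit 6), (nat_lit 0x1ca0c7283), (nat_lit 6)⟩)
(.lf ⟨(nat_lit 0), (nat_lit 0), (nat_lit 0x489489), (nat_lit 4)⟩))
(.nd (.lf ⟨(nat_lit 0x12125812944), (nat_lit 7), (nat_lit 0x484944484944), (nat_lit 8)⟩)
(.lf ⟨(nat_lit 0x124124), (nat_lit 4), (nat_lit 0x904904), (nat_lit 4)⟩)))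
(.nd (.nd (.lf ⟨(nat_lit 0xe10c528528384314a14a), (nat_lit 14), (nat_lit 0xe10c528528384314a14a), (nat_lit 14)⟩)
(.lf ⟨(nat_lit 0xd698), (nat_lit 3), (nat_lit 0x1a60d), (nat_lit 3)⟩))
(.lf ⟨(nat_lit 0x518), (nat_lit 2), (nat_lit 0x614), (nat_lit 2)⟩))))
(.nd (.nd (.nd (.nd (.lf ⟨(nat_lit 79), (nat_lit 2), (nat_lit 0x24f24f24f241), (nat_lit 8)⟩)
(.lf ⟨(nat_lit 280), (nat_lit 2), (nat_lit 0x89d021879d79d69269275a49a4906d124e8dd2513a374979d79b449444), (nat_lit 39)⟩))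
(.nd (.lf ⟨(nat_lit 0x14e14e), (nat_lit 4), (nat_lit 0x385385), (nat_lit 4)⟩)
(.lf ⟨(nat_lit 277), (nat_lit 2), (nat_lit 0x15427963389389210204), (nat_lit 13)⟩)))
(.nd (.nd (.lf ⟨(nat_lit 0xd80c3603), (nat_lit 6), (nat_lit 0), (nat_lit 0)⟩)
(.lf ⟨(nat_lit 0x411411411411), (nat_lit 8), (nat_lit 0x110190184406406), (nat_lit 10)⟩))
(.nd (.lf ⟨(nat_lit 0x1a75c), (nat_lit 3), (nat_lit 0x1d71a), (nat_lit 3)⟩)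
(.lf ⟨(nat_lit 0x28f28b), (nat_lit 4), (nat_lit 0x62575895d2ca3ca), (nat_lit 10)⟩))))
(.nd (.nd (.nd (.lf ⟨(nat_lit 602), (nat_lit 2), (nat_lit 0x6903d03c9), (nat_lit 6)⟩)
(.lf ⟨(nat_lit 0x1845131144c61144c4513), (nat_lit 14), (nat_lit 0x1845131144c61144c4513), (nat_lit 14)⟩))
(.nd (.lf ⟨(nat_lit 920), (nat_lit 2), (nat_lit 0x45869139a), (nat_lit 6)⟩)
(.lf ⟨(nat_lit 0x1cf28f1cf28f), (nat_lit 8), (nat_lit 0x1cf28f1cf28f), (nat_lit 8)⟩)))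
(.nd (.nd (.lf ⟨(nat_lit 0), (nat_lit 0), (nat_lit 390), (nat_lit 2)⟩)
(.lf ⟨(nat_lit 0x3d03c6406), (nat_lit 6), (nat_lit 0xd80c10d80c1), (nat_lit 8)⟩))
(.lf ⟨(nat_lit 0x24274109d04909d042741), (nat_lit 14), (nat_lit 0x24274109d04909d042741), (nat_lit 14)⟩)))))
(.nd (.nd (.nd (.nd (.nd (.lf ⟨(nat_lit 0x71c), (nat_lit 2), (nat_lit 0), (nat_lit 0)⟩)
(.lf ⟨(nat_lit 0x16553), (nat_lit 3), (nat_lit 0x13595), (nat_lit 3)⟩))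
(.nd (.lf ⟨(nat_lit 15), (nat_lit 1), (nat_lit 0x241241), (nat_lit 4)⟩)
(.lf ⟨(nat_lit 0x4485485), (nat_lit 5), (nat_lit 0x12152144), (nat_lit 5)⟩)))
(.nd (.nd (.lf ⟨(nat_lit 401), (nat_lit 2), (nat_lit 0x446), (nat_lit 2)⟩)
(.lf ⟨(nat_lit 0x9a602698), (nat_lit 6), (nat_lit 0x9a602698), (nat_lit 6)⟩))
(.nd (.lf ⟨(nat_lit 0x9390), (nat_lit 3), (nat_lit 0xe40e24e), (nat_lit 5)⟩)
(.lf ⟨(nat_lit 550), (nat_lit 2), (nat_lit 0x595996548), (nat_lit 6)⟩))))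
(.nd (.nd (.nd (.lf ⟨(nat_lit 0x244201244201), (nat_lit 8), (nat_lit 0x201244201244), (nat_lit 8)⟩)
(.lf ⟨(nat_lit 614), (nat_lit 2), (nat_lit 0x6678193207cc81f3cc3e67e77cc809), (nat_lit 20)⟩))
(.nd (.lf ⟨(nat_lit 327), (nat_lit 2), (nat_lit 0x131c5), (nat_lit 3)⟩)
(.lf ⟨(nat_lit 846), (nat_lit 2), (nat_lit 909), (nat_lit 2)⟩)))
(.nd (.nd (.lf ⟨(nat_lit 0x5d9), (nat_lit 2), (nat_lit 0x657), (nat_lit 2)⟩)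
(.lf ⟨(nat_lit 0x515), (nat_lit 2), (nat_lit 0x554), (nat_lit 2)⟩))
(.lf ⟨(nat_lit 0x640c), (nat_lit 3), (nat_lit 0xe3ce3d03903d038f30f3903d03903ce3ce190), (nat_lit 25)⟩))))
(.nd (.nd (.nd (.nd (.lf ⟨(nat_lit 198), (nat_lit 2), (nat_lit 387), (nat_lit 2)⟩)
(.lf ⟨(nat_lit 0x2944ca513), (nat_lit 6), (nat_lit 0x2944ca513), (nat_lit 6)⟩))
(.nd (.lf ⟨(nat_lit 0x10c10c), (nat_lit 4), (nat_lit 0x10c10c), (nat_lit 4)⟩)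
(.lf ⟨(nat_lit 0x241405405050150149050150141405405), (nat_lit 22), (nat_lit 0x241405405050150149050150141405405), (nat_lit 22)⟩)))
(.nd (.nd (.lf ⟨(nat_lit 0x10b09240b0924042c24902c2490), (nat_lit 18), (nat_lit 0x10b09240b0924042c24902c2490), (nat_lit 18)⟩)
(.lf ⟨(nat_lit 0x39a4), (nat_lit 3), (nat_lit 0x26903), (nat_lit 3)⟩))
(.nd (.lf ⟨(nat_lit 0x488488488488), (nat_lit 8), (nat_lit 0x112212204488488), (nat_lit 10)⟩)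
(.lf ⟨(nat_lit 0x30a30a), (nat_lit 4), (nat_lit 0x31d38a31d38a), (nat_lit 8)⟩))))
(.nd (.nd (.nd (.lf ⟨(nat_lit 404), (nat_lit 2), (nat_lit 0x506), (nat_lit 2)⟩)
(.lf ⟨(nat_lit 0x4cc3484cc34c20c), (nat_lit 10), (nat_lit 0x8c20c202308308), (nat_lit 10)⟩))
(.nd (.lf ⟨(nat_lit 0x25534e34954d38d), (nat_lit 10), (nat_lit 0x25534e34954d38d), (nat_lit 10)⟩)
(.lf ⟨(nat_lit 0x42602601098098), (nat_lit 10), (nat_lit 0x42602601098098), (nat_lit 10)⟩)))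
(.nd (.nd (.lf ⟨(nat_lit 0x7e01cf1cf), (nat_lit 6), (nat_lit 0x1cf1cf7e0), (nat_lit 6)⟩)
(.lf ⟨(nat_lit 0x1241289a485485692), (nat_lit 11), (nat_lit 0x1289a485485692490), (nat_lit 11)⟩))
(.lf ⟨(nat_lit 0x65779b), (nat_lit 4), (nat_lit 0x79b657), (nat_lit 4)⟩)))))))
(.nd (.nd (.nd (.nd (.nd (.nd (.nd (.lf ⟨(nat_lit 30), (nat_lit 1), (nat_lit 0x52052), (nat_lit 4)⟩)
(.lf ⟨(nat_lit 0x81f), (nat_lit 2), (nat_lit 0x92402490), (nat_lit 6)⟩))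
(.nd (.lf ⟨(nat_lit 0x870a21c2), (nat_lit 6), (nat_lit 0x1c2887082), (nat_lit 6)⟩)
(.lf ⟨(nat_lit 0x1db1db), (nat_lit 4), (nat_lit 0x1db1db), (nat_lit 4)⟩)))
(.nd (.nd (.lf ⟨(nat_lit 223), (nat_lit 2), (nat_lit 0x72874091d025f4872891c91e040a1ca81228780a8091e040a8091d229f483), (nat_lit 41)⟩)
(.lf ⟨(nat_lit 32), (nat_lit 1), (nat_lit 0x289289), (nat_lit 4)⟩))
(.nd (.lf ⟨(nat_lit 0x30f30f), (nat_lit 4), (nat_lit 0x3cc3cc), (nat_lit 4)⟩)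
(.lf ⟨(nat_lit 0), (nat_lit 0), (nat_lit 0x2544c9513), (nat_lit 6)⟩))))
(.nd (.nd (.nd (.lf ⟨(nat_lit 0x146146), (nat_lit 4), (nat_lit 0x185185), (nat_lit 4)⟩)
(.lf ⟨(nat_lit 0xe513), (nat_lit 3), (nat_lit 0x144ce), (nat_lit 3)⟩))
(.nd (.lf ⟨(nat_lit 0x80a160285), (nat_lit 6), (nat_lit 0x80a160285), (nat_lit 6)⟩)
(.lf ⟨(nat_lit 0), (nat_lit 0), (nat_lit 0x187787187787), (nat_lit 8)⟩)))
(.nd (.nd (.lf ⟨(nat_lit 92), (nat_lit 2), (nat_lit 0x701), (nat_lit 2)⟩)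
(.lf ⟨(nat_lit 276), (nat_lit 2), (nat_lit 0x9a481138b44b28b38b44e25140e2ca24b1c6407184), (nat_lit 28)⟩))
(.lf ⟨(nat_lit 0x50c40950c40c24c), (nat_lit 10), (nat_lit 0xcc24c243309309), (nat_lit 10)⟩))))
(.nd (.nd (.nd (.nd (.lf ⟨(nat_lit 0x103103), (nat_lit 4), (nat_lit 0xc40c4), (nat_lit 4)⟩)
(.lf ⟨(nat_lit 0x9b4566984426d159a611), (nat_lit 14), (nat_lit 0x9b4566984426d159a611), (nat_lit 14)⟩))
(.nd (.lf ⟨(nat_lit 0x38538e14e), (nat_lit 6), (nat_lit 0), (nat_lit 0)⟩)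
(.lf ⟨(nat_lit 214), (nat_lit 2), (nat_lit 0x2630b28c59245244b283), (nat_lit 13)⟩)))
(.nd (.nd (.lf ⟨(nat_lit 0x5248), (nat_lit 3), (nat_lit 0x649205), (nat_lit 4)⟩)
(.lf ⟨(nat_lit 463), (nat_lit 2), (nat_lit 0x81f3cc81f3207d93cc9e064f98c7e77cc81f9df3207cc24c247), (nat_lit 34)⟩))
(.nd (.lf ⟨(nat_lit 0x1c406406), (nat_lit 5), (nat_lit 0x1019019c), (nat_lit 5)⟩)
(.lf ⟨(nat_lit 674), (nat_lit 2), (nat_lit 0x88a), (nat_lit 2)⟩))))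
(.nd (.nd (.nd (.lf ⟨(nat_lit 272), (nat_lit 2), (nat_lit 0x40a24a244), (nat_lit 6)⟩)
(.lf ⟨(nat_lit 606), (nat_lit 2), (nat_lit 0x7923d23c9), (nat_lit 6)⟩))
(.nd (.lf ⟨(nat_lit 0x7691), (nat_lit 3), (nat_lit 0x40c79a49a49a49031228c48a98c792447), (nat_lit 22)⟩)
(.lf ⟨(nat_lit 0x7e7), (nat_lit 2), (nat_lit 0x9df), (nat_lit 2)⟩)))
(.nd (.nd (.lf ⟨(nat_lit 78), (nat_lit 2), (nat_lit 0x74e701), (nat_lit 4)⟩)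
(.lf ⟨(nat_lit 0x40f40f18d40640d), (nat_lit 10), (nat_lit 0x18f3463cd), (nat_lit 6)⟩))
(.lf ⟨(nat_lit 0xa55d), (nat_lit 3), (nat_lit 0x15755295), (nat_lit 5)⟩)))))
(.nd (.nd (.nd (.nd (.nd (.lf ⟨(nat_lit 0x8f08f), (nat_lit 4), (nat_lit 0x3c23c2), (nat_lit 4)⟩)
(.lf ⟨(nat_lit 75), (nat_lit 2), (nat_lit 0x5132c1), (nat_lit 4)⟩))
(.nd (.lf ⟨(nat_lit 337), (nat_lit 2), (nat_lit 0x491152), (nat_lit 4)⟩)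
(.lf ⟨(nat_lit 230), (nat_lit 2), (nat_lit 0x983), (nat_lit 2)⟩)))
(.nd (.nd (.lf ⟨(nat_lit 0x65784), (nat_lit 4), (nat_lit 0x125065788), (nat_lit 6)⟩)
(.lf ⟨(nat_lit 0x251251), (nat_lit 4), (nat_lit 0x449449), (nat_lit 4)⟩))
(.nd (.lf ⟨(nat_lit 0xc274274309d09d), (nat_lit 10), (nat_lit 0xc274274309d09d), (nat_lit 10)⟩)
(.lf ⟨(nat_lit 0), (nat_lit 0), (nat_lit 0x35240d490), (nat_lit 6)⟩))))
(.nd (.nd (.nd (.lf ⟨(nat_lit 0x1c31421c3142), (nat_lit 8), (nat_lit 0x1421c31421c3), (nat_lit 8)⟩)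
(.lf ⟨(nat_lit 0x3cd488488), (nat_lit 6), (nat_lit 0x4884883cd), (nat_lit 6)⟩))
(.nd (.lf ⟨(nat_lit 0x585585), (nat_lit 4), (nat_lit 0x8e14e142385385), (nat_lit 10)⟩)
(.lf ⟨(nat_lit 0x41b), (nat_lit 2), (nat_lit 0x9a46a691a6d0), (nat_lit 8)⟩)))
(.nd (.nd (.lf ⟨(nat_lit 0x21e49a), (nat_lit 4), (nat_lit 0x792692212), (nat_lit 6)⟩)
(.lf ⟨(nat_lit 0x7867947944c6793), (nat_lit 10), (nat_lit 0x786793786793), (nat_lit 8)⟩))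
(.lf ⟨(nat_lit 598), (nat_lit 2), (nat_lit 0x756749), (nat_lit 4)⟩))))
(.nd (.nd (.nd (.nd (.lf ⟨(nat_lit 0x2420c9083), (nat_lit 6), (nat_lit 0xc9083242), (nat_lit 6)⟩)
(.lf ⟨(nat_lit 11), (nat_lit 1), (nat_lit 0x142ca50a2d429428b), (nat_lit 11)⟩))
(.nd (.lf ⟨(nat_lit 0x70a2dc28b28b28b70a2dc28b28b28b), (nat_lit 20), (nat_lit 0), (nat_lit 0)⟩)
(.lf ⟨(nat_lit 0x438263079e024c2470e098c1e78093091c10e098c1e78093091c38263079e024c247), (nat_lit 46), (nat_lit 0x438263079e024c2470e098c1e78093091c10e098c1e78093091c38263079e024c247), (nat_lit 46)⟩)))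
(.nd (.nd (.lf ⟨(nat_lit 287), (nat_lit 2), (nat_lit 0x1049048a1ca1c4), (nat_lit 9)⟩)
(.lf ⟨(nat_lit 0x44e9a4), (nat_lit 4), (nat_lit 0x9a444e), (nat_lit 4)⟩))
(.nd (.lf ⟨(nat_lit 544), (nat_lit 2), (nat_lit 0x808), (nat_lit 2)⟩)
(.lf ⟨(nat_lit 0x99e691), (nat_lit 4), (nat_lit 0x5f4902817d240a), (nat_lit 10)⟩))))
(.nd (.nd (.nd (.lf ⟨(nat_lit 0x1df48a), (nat_lit 4), (nat_lit 0x12287), (nat_lit 3)⟩)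
(.lf ⟨(nat_lit 0x10830b20c2c420c2c830b), (nat_lit 14), (nat_lit 0x10830b20c2c420c2c830b), (nat_lit 14)⟩))
(.nd (.lf ⟨(nat_lit 0x266266), (nat_lit 4), (nat_lit 0x3e62663c9), (nat_lit 6)⟩)
(.lf ⟨(nat_lit 0x463), (nat_lit 2), (nat_lit 0x8d1), (nat_lit 2)⟩)))
(.nd (.nd (.lf ⟨(nat_lit 0x5e07e07e07d7), (nat_lit 8), (nat_lit 0x97417097417), (nat_lit 8)⟩)
(.lf ⟨(nat_lit 0x1289a485485692657), (nat_lit 11), (nat_lit 0x195d289a485485692), (nat_lit 11)⟩))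
(.lf ⟨(nat_lit 0x183d53ce), (nat_lit 5), (nat_lit 0xe60f54f), (nat_lit 5)⟩))))))
(.nd (.nd (.nd (.nd (.nd (.nd (.lf ⟨(nat_lit 780), (nat_lit 2), (nat_lit 0), (nat_lit 0)⟩)
(.lf ⟨(nat_lit 416), (nat_lit 2), (nat_lit 0x81044e411386), (nat_lit 8)⟩))
(.nd (.lf ⟨(nat_lit 0x6d1591), (nat_lit 4), (nat_lit 0x9138244e), (nat_lit 6)⟩)
(.lf ⟨(nat_lit 0x1128c28c), (nat_lit 5), (nat_lit 0xa30a311), (nat_lit 5)⟩)))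
(.nd (.nd (.lf ⟨(nat_lit 0x2c210b084), (nat_lit 6), (nat_lit 0x10b0842c2), (nat_lit 6)⟩)
(.lf ⟨(nat_lit 0x10758758255255), (nat_lit 9), (nat_lit 0x1d61d609549550), (nat_lit 9)⟩))
(.nd (.lf ⟨(nat_lit 0x99e6), (nat_lit 3), (nat_lit 0x203207cc81f3cc3e67e77cc809), (nat_lit 17)⟩)
(.lf ⟨(nat_lit 0x491491), (nat_lit 4), (nat_lit 0x30e30e), (nat_lit 4)⟩))))
(.nd (.nd (.nd (.lf ⟨(nat_lit 0x24f24f), (nat_lit 4), (nat_lit 0x3d03da25a409), (nat_lit 8)⟩)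
(.lf ⟨(nat_lit 0x875e75e), (nat_lit 5), (nat_lit 0x1d79d788), (nat_lit 5)⟩))
(.nd (.lf ⟨(nat_lit 101), (nat_lit 2), (nat_lit 0x95e21e201), (nat_lit 6)⟩)
(.lf ⟨(nat_lit 0x456), (nat_lit 2), (nat_lit 0x79859e611), (nat_lit 6)⟩)))
(.nd (.nd (.lf ⟨(nat_lit 0), (nat_lit 0), (nat_lit 0x82082), (nat_lit 4)⟩)
(.lf ⟨(nat_lit 0x4430930910c24c24110c24c244309309), (nat_lit 22), (nat_lit 0x4430930910c24c24110c24c244309309), (nat_lit 22)⟩))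
(.lf ⟨(nat_lit 0x10309309), (nat_lit 5), (nat_lit 0xc24c250), (nat_lit 5)⟩))))
(.nd (.nd (.nd (.nd (.lf ⟨(nat_lit 0x203203), (nat_lit 4), (nat_lit 0xc80c8), (nat_lit 4)⟩)
(.lf ⟨(nat_lit 0x133cc3cc), (nat_lit 5), (nat_lit 0xf30f313), (nat_lit 5)⟩))
(.nd (.lf ⟨(nat_lit 0), (nat_lit 0), (nat_lit 0x242242), (nat_lit 4)⟩)
(.lf ⟨(nat_lit 0x48f48f), (nat_lit 4), (nat_lit 0x8f28f2823ca3ca), (nat_lit 10)⟩)))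
(.nd (.nd (.lf ⟨(nat_lit 0x38821a20438821a204), (nat_lit 12), (nat_lit 0x108688388108688388), (nat_lit 12)⟩)
(.lf ⟨(nat_lit 0x3cd81e8086e07a021b), (nat_lit 12), (nat_lit 0x81e8086e07a021b3cd), (nat_lit 12)⟩))
(.nd (.lf ⟨(nat_lit 0x2044e), (nat_lit 3), (nat_lit 0x113a0), (nat_lit 3)⟩)
(.lf ⟨(nat_lit 0x5a7), (nat_lit 2), (nat_lit 0x9d6), (nat_lit 2)⟩))))
(.nd (.nd (.nd (.lf ⟨(nat_lit 283), (nat_lit 2), (nat_lit 0x98dd6d125d444), (nat_lit 9)⟩)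
(.lf ⟨(nat_lit 0x20490), (nat_lit 3), (nat_lit 0x1121c4487), (nat_lit 6)⟩))
(.nd (.lf ⟨(nat_lit 0x24b698), (nat_lit 4), (nat_lit 0x2da60b24b), (nat_lit 6)⟩)
(.lf ⟨(nat_lit 0x184544115106115104544), (nat_lit 14), (nat_lit 0x184544115106115104544), (nat_lit 14)⟩)))
(.nd (.nd (.lf ⟨(nat_lit 0x189190), (nat_lit 4), (nat_lit 0x406246), (nat_lit 4)⟩)
(.lf ⟨(nat_lit 0x25da3d05da5d05cf), (nat_lit 11), (nat_lit 0x1768f4176974173c2), (nat_lit 11)⟩))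
(.lf ⟨(nat_lit 0xb81f), (nat_lit 3), (nat_lit 0x207cb), (nat_lit 3)⟩)))))
(.nd (.nd (.nd (.nd (.nd (.lf ⟨(nat_lit 0x9a09a), (nat_lit 4), (nat_lit 0x682682), (nat_lit 4)⟩)
(.lf ⟨(nat_lit 0x34b34b), (nat_lit 4), (nat_lit 0x8b20b2022c82c8), (nat_lit 10)⟩))
(.nd (.lf ⟨(nat_lit 0x1714f7923d2), (nat_lit 7), (nat_lit 0xf7923d25c5), (nat_lit 7)⟩)
(.lf ⟨(nat_lit 0x724), (nat_lit 2), (nat_lit 0x91c), (nat_lit 2)⟩)))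
(.nd (.nd (.lf ⟨(nat_lit 278), (nat_lit 2), (nat_lit 0x958e8dd25d384), (nat_lit 9)⟩)
(.lf ⟨(nat_lit 167), (nat_lit 2), (nat_lit 0x8173d22512973c9452282), (nat_lit 14)⟩))
(.nd (.lf ⟨(nat_lit 0x760), (nat_lit 2), (nat_lit 0x81d), (nat_lit 2)⟩)
(.lf ⟨(nat_lit 292), (nat_lit 2), (nat_lit 0x904), (nat_lit 2)⟩))))
(.nd (.nd (.nd (.lf ⟨(nat_lit 137), (nat_lit 2), (nat_lit 578), (nat_lit 2)⟩)
(.lf ⟨(nat_lit 280), (nat_lit 2), (nat_lit 0x2721021879d79d69269275a49a4906d124e8dd2513a379d79d25b449444), (nat_lit 39)⟩))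
(.nd (.lf ⟨(nat_lit 197), (nat_lit 2), (nat_lit 0x1cb3064cb50b1cb30b4d42d31c64c72cc143), (nat_lit 24)⟩)
(.lf ⟨(nat_lit 0xca30830a30830328c20c28c20c), (nat_lit 18), (nat_lit 0xca30830a30830328c20c28c20c), (nat_lit 18)⟩)))
(.nd (.nd (.lf ⟨(nat_lit 0xe60c550c1c614b5071839831543071852d41c6), (nat_lit 26), (nat_lit 0xe60c550c1c614b5071839831543071852d41c6), (nat_lit 26)⟩)
(.lf ⟨(nat_lit 471), (nat_lit 2), (nat_lit 0x40d41734c3484cc34c213307), (nat_lit 16)⟩))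
(.lf ⟨(nat_lit 0x95095), (nat_lit 4), (nat_lit 0x95095), (nat_lit 4)⟩))))
(.nd (.nd (.nd (.nd (.lf ⟨(nat_lit 0x1830c21830c2), (nat_lit 8), (nat_lit 0x83183083183), (nat_lit 8)⟩)
(.lf ⟨(nat_lit 0x1128c2ca30b), (nat_lit 7), (nat_lit 0xa30b28c2d1), (nat_lit 7)⟩))
(.nd (.lf ⟨(nat_lit 0), (nat_lit 0), (nat_lit 715), (nat_lit 2)⟩)
(.lf ⟨(nat_lit 276), (nat_lit 2), (nat_lit 0x269206d24564915a79636d64915a795148f3a33cd4509db95245228f8db94a3e334a24e2ca24b1c6407184), (nat_lit 57)⟩)))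
(.nd (.nd (.lf ⟨(nat_lit 0x1d286286), (nat_lit 5), (nat_lit 0x206206), (nat_lit 4)⟩)
(.lf ⟨(nat_lit 0x11394), (nat_lit 3), (nat_lit 0x1444e), (nat_lit 3)⟩))
(.nd (.lf ⟨(nat_lit 542), (nat_lit 2), (nat_lit 0x81e808), (nat_lit 4)⟩)
(.lf ⟨(nat_lit 157), (nat_lit 2), (nat_lit 0x9e540840840e24e248408742), (nat_lit 16)⟩))))
(.nd (.nd (.nd (.lf ⟨(nat_lit 159), (nat_lit 2), (nat_lit 0x7c72874091d025f4872891c91e040a1ca81228780a8091e040a8091d21ca1d02474097d21ca2472478102872a048a1e02a02478102a0247482), (nat_lit 76)⟩)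
(.lf ⟨(nat_lit 0x712712), (nat_lit 4), (nat_lit 0x2a690a9a4), (nat_lit 6)⟩))
(.nd (.lf ⟨(nat_lit 0x7707), (nat_lit 3), (nat_lit 0xc74470c7447), (nat_lit 8)⟩)
(.lf ⟨(nat_lit 0x2098c9e024c253), (nat_lit 9), (nat_lit 0x13826327809309), (nat_lit 9)⟩)))
(.nd (.nd (.lf ⟨(nat_lit 0x21f21f), (nat_lit 4), (nat_lit 0x7c87c8), (nat_lit 4)⟩)
(.lf ⟨(nat_lit 0x5792692), (nat_lit 5), (nat_lit 0x1e49a485), (nat_lit 5)⟩))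
(.lf ⟨(nat_lit 349), (nat_lit 2), (nat_lit 0x745), (nat_lit 2)⟩))))))))))
(.nd (.nd (.nd (.nd (.nd (.nd (.nd (.nd (.nd (.nd (.lf ⟨(nat_lit 260), (nat_lit 2), (nat_lit 0), (nat_lit 0)⟩)
(.lf ⟨(nat_lit 0x660f54f), (nat_lit 5), (nat_lit 0x183d53c6), (nat_lit 5)⟩))
(.nd (.lf ⟨(nat_lit 11), (nat_lit 1), (nat_lit 0x86086), (nat_lit 4)⟩)
(.lf ⟨(nat_lit 0x3103d0), (nat_lit 4), (nat_lit 0x40f40c), (nat_lit 4)⟩)))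
(.nd (.nd (.lf ⟨(nat_lit 224), (nat_lit 2), (nat_lit 0x1028948a24740a8091c91ca1df483), (nat_lit 19)⟩)
(.lf ⟨(nat_lit 100), (nat_lit 2), (nat_lit 0x91e19e181), (nat_lit 6)⟩))
(.nd (.lf ⟨(nat_lit 0x51c51c), (nat_lit 4), (nat_lit 0x714714), (nat_lit 4)⟩)
(.lf ⟨(nat_lit 0x826), (nat_lit 2), (nat_lit 0x9e69e0), (nat_lit 4)⟩))))
(.nd (.nd (.nd (.lf ⟨(nat_lit 0x90247), (nat_lit 4), (nat_lit 0x1c9409090250), (nat_lit 8)⟩)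
(.lf ⟨(nat_lit 0x152513), (nat_lit 4), (nat_lit 0x452513491152), (nat_lit 8)⟩))
(.nd (.lf ⟨(nat_lit 0x54d29534a34a34a), (nat_lit 10), (nat_lit 0xcd28d28334a34a), (nat_lit 10)⟩)
(.lf ⟨(nat_lit 0x10b24b2442c92c9), (nat_lit 10), (nat_lit 0x10b24b2442c92c9), (nat_lit 10)⟩)))
(.nd (.nd (.lf ⟨(nat_lit 0x18d18d18d18d), (nat_lit 8), (nat_lit 0), (nat_lit 0)⟩)
(.lf ⟨(nat_lit 732), (nat_lit 2), (nat_lit 0x70b), (nat_lit 2)⟩))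
(.nd (.lf ⟨(nat_lit 0x35235e), (nat_lit 4), (nat_lit 0x78d48d), (nat_lit 4)⟩)
(.lf ⟨(nat_lit 0x9a43cc28c28f), (nat_lit 8), (nat_lit 0x5a601698), (nat_lit 6)⟩)))))
(.nd (.nd (.nd (.nd (.lf ⟨(nat_lit 0xde0de), (nat_lit 4), (nat_lit 0x783783), (nat_lit 4)⟩)
(.lf ⟨(nat_lit 0x51334b34b), (nat_lit 6), (nat_lit 0x34b34b513), (nat_lit 6)⟩))
(.nd (.lf ⟨(nat_lit 0x5d40d7503), (nat_lit 6), (nat_lit 0x2572540c95c9503), (nat_lit 10)⟩)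
(.lf ⟨(nat_lit 0x524), (nat_lit 2), (nat_lit 0x914), (nat_lit 2)⟩)))
(.nd (.nd (.lf ⟨(nat_lit 148), (nat_lit 2), (nat_lit 0xb50c1851851c50d33072d430714614714b3060d3302), (nat_lit 29)⟩)
(.lf ⟨(nat_lit 415), (nat_lit 2), (nat_lit 0x45045f40b40b406), (nat_lit 10)⟩))
(.nd (.lf ⟨(nat_lit 0x9392), (nat_lit 3), (nat_lit 0xe48e24e), (nat_lit 5)⟩)
(.lf ⟨(nat_lit 0x6a3), (nat_lit 2), (nat_lit 0x8a376275a), (nat_lit 6)⟩))))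
(.nd (.nd (.nd (.lf ⟨(nat_lit 208), (nat_lit 2), (nat_lit 0x403), (nat_lit 2)⟩)
(.lf ⟨(nat_lit 871), (nat_lit 2), (nat_lit 0x9cd), (nat_lit 2)⟩))
(.nd (.lf ⟨(nat_lit 0x129a4), (nat_lit 3), (nat_lit 0x26912), (nat_lit 3)⟩)
(.lf ⟨(nat_lit 0x207d2409), (nat_lit 5), (nat_lit 0x1070841c2), (nat_lit 6)⟩)))
(.nd (.nd (.lf ⟨(nat_lit 13), (nat_lit 1), (nat_lit 0x88088), (nat_lit 4)⟩)
(.lf ⟨(nat_lit 789), (nat_lit 2), (nat_lit 0x54c), (nat_lit 2)⟩))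
(.lf ⟨(nat_lit 0x95095), (nat_lit 4), (nat_lit 0x542542), (nat_lit 4)⟩)))))
(.nd (.nd (.nd (.nd (.nd (.lf ⟨(nat_lit 910), (nat_lit 2), (nat_lit 0), (nat_lit 0)⟩)
(.lf ⟨(nat_lit 0x848a), (nat_lit 3), (nat_lit 0x74a212), (nat_lit 4)⟩))
(.nd (.lf ⟨(nat_lit 923), (nat_lit 2), (nat_lit 0x6d645644e), (nat_lit 6)⟩)
(.lf ⟨(nat_lit 0xc485485), (nat_lit 5), (nat_lit 0x1215214c), (nat_lit 5)⟩)))
(.nd (.nd (.lf ⟨(nat_lit 0x4031100c4), (nat_lit 6), (nat_lit 0x1100c4403), (nat_lit 6)⟩)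
(.lf ⟨(nat_lit 3), (nat_lit 1), (nat_lit 0x861d60861d61d61d61f21f203), (nat_lit 17)⟩))
(.nd (.lf ⟨(nat_lit 0x405405), (nat_lit 4), (nat_lit 0x150150), (nat_lit 4)⟩)
(.lf ⟨(nat_lit 0x1e69654e), (nat_lit 5), (nat_lit 0xe79a595), (nat_lit 5)⟩))))
(.nd (.nd (.nd (.lf ⟨(nat_lit 918), (nat_lit 2), (nat_lit 0x58e), (nat_lit 2)⟩)
(.lf ⟨(nat_lit 0x253cd), (nat_lit 3), (nat_lit 0xf365), (nat_lit 3)⟩))
(.nd (.lf ⟨(nat_lit 0x48899f21f2267c899f48899f21f2267c899f), (nat_lit 24), (nat_lit 0x48899f21f2267c899f48899f21f2267c899f), (nat_lit 24)⟩)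
(.lf ⟨(nat_lit 931), (nat_lit 2), (nat_lit 0x8ce), (nat_lit 2)⟩)))
(.nd (.nd (.lf ⟨(nat_lit 0x49b), (nat_lit 2), (nat_lit 0x6d2), (nat_lit 2)⟩)
(.lf ⟨(nat_lit 0x6dd), (nat_lit 2), (nat_lit 0x75b), (nat_lit 2)⟩))
(.lf ⟨(nat_lit 214), (nat_lit 2), (nat_lit 0x207502895902891dd387383), (nat_lit 15)⟩))))
(.nd (.nd (.nd (.nd (.lf ⟨(nat_lit 0x144144), (nat_lit 4), (nat_lit 0x105105), (nat_lit 4)⟩)
(.lf ⟨(nat_lit 0x1e49a592557), (nat_lit 7), (nat_lit 0x17792696495), (nat_lit 7)⟩))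
(.nd (.lf ⟨(nat_lit 0x624b), (nat_lit 3), (nat_lit 0x92c9189), (nat_lit 5)⟩)
(.lf ⟨(nat_lit 96), (nat_lit 2), (nat_lit 0x1b8e56e79633ca3ca3ca3ca801), (nat_lit 17)⟩)))
(.nd (.nd (.lf ⟨(nat_lit 0x78679e19e), (nat_lit 6), (nat_lit 0), (nat_lit 0)⟩)
(.lf ⟨(nat_lit 416), (nat_lit 2), (nat_lit 0x811411406), (nat_lit 6)⟩))
(.nd (.lf ⟨(nat_lit 0x65a), (nat_lit 2), (nat_lit 0x699), (nat_lit 2)⟩)
(.lf ⟨(nat_lit 267), (nat_lit 2), (nat_lit 0x6da6162c4), (nat_lit 6)⟩))))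
(.nd (.nd (.nd (.lf ⟨(nat_lit 287), (nat_lit 2), (nat_lit 0xa4092a048a24740928724a1ca1e0484), (nat_lit 21)⟩)
(.lf ⟨(nat_lit 0x1067c67c419f19f), (nat_lit 10), (nat_lit 0x1067c67c419f19f), (nat_lit 10)⟩))
(.nd (.lf ⟨(nat_lit 0x2a71d11e744a9c74479d1), (nat_lit 14), (nat_lit 0x2a71d11e744a9c74479d1), (nat_lit 14)⟩)
(.lf ⟨(nat_lit 0x115106044544204544201115108115108181115108115108044544204544204544181115108115108044544204544206044544204544201115108115108), (nat_lit 82), (nat_lit 0x115106044544204544201115108115108181115108115108044544204544204544181115108115108044544204544206044544204544201115108115108), (nat_lit 82)⟩)))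
(.nd (.nd (.lf ⟨(nat_lit 0x75c), (nat_lit 2), (nat_lit 0x188188), (nat_lit 4)⟩)
(.lf ⟨(nat_lit 280), (nat_lit 2), (nat_lit 0x276982109e549a9e549d6a79526a79522106d124e8dd2513a36d1251244), (nat_lit 39)⟩))
(.lf ⟨(nat_lit 730), (nat_lit 2), (nat_lit 0x68b), (nat_lit 2)⟩))))))
(.nd (.nd (.nd (.nd (.nd (.nd (.lf ⟨(nat_lit 36), (nat_lit 1), (nat_lit 0xde0de), (nat_lit 4)⟩)
(.lf ⟨(nat_lit 403), (nat_lit 2), (nat_lit 0x4c6), (nat_lit 2)⟩))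
(.nd (.lf ⟨(nat_lit 0xca14a143285285), (nat_lit 10), (nat_lit 0xca14a143285285), (nat_lit 10)⟩)
(.lf ⟨(nat_lit 0x466), (nat_lit 2), (nat_lit 0x991), (nat_lit 2)⟩)))
(.nd (.nd (.lf ⟨(nat_lit 0x2040c8103), (nat_lit 6), (nat_lit 0xc8103204), (nat_lit 6)⟩)
(.lf ⟨(nat_lit 157), (nat_lit 2), (nat_lit 0x34a34a9e5742), (nat_lit 8)⟩))
(.nd (.lf ⟨(nat_lit 0x24c81f), (nat_lit 4), (nat_lit 0x3207cc24c), (nat_lit 6)⟩)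
(.lf ⟨(nat_lit 0x163a638c2ca30b287), (nat_lit 11), (nat_lit 0x8e0c2383), (nat_lit 6)⟩))))
(.nd (.nd (.nd (.lf ⟨(nat_lit 0x149149), (nat_lit 4), (nat_lit 0x245245), (nat_lit 4)⟩)
(.lf ⟨(nat_lit 0x58b), (nat_lit 2), (nat_lit 726), (nat_lit 2)⟩))
(.nd (.lf ⟨(nat_lit 0x20281), (nat_lit 3), (nat_lit 0x202a781128180a), (nat_lit 9)⟩)
(.lf ⟨(nat_lit 0xa12478a12495e), (nat_lit 9), (nat_lit 0xe50e5), (nat_lit 4)⟩)))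
(.nd (.nd (.lf ⟨(nat_lit 284), (nat_lit 2), (nat_lit 0x75c744), (nat_lit 4)⟩)
(.lf ⟨(nat_lit 662), (nat_lit 2), (nat_lit 0x59849149844a), (nat_lit 8)⟩))
(.lf ⟨(nat_lit 0x2431cf1cf0c73c73c90c73c73c31cf1cf), (nat_lit 22), (nat_lit 0x2431cf1cf0c73c73c90c73c73c31cf1cf), (nat_lit 22)⟩))))
(.nd (.nd (.nd (.nd (.lf ⟨(nat_lit 0x181181), (nat_lit 4), (nat_lit 0x46046), (nat_lit 4)⟩)
(.lf ⟨(nat_lit 0x9019029019049019040a40641240641240640a4064124064102901904901904), (nat_lit 42), (nat_lit 0x9019029019049019040a40641240641240640a4064124064102901904901904), (nat_lit 42)⟩))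
(.nd (.lf ⟨(nat_lit 0x8138558558e04e15615638204e15615638138558558e), (nat_lit 30), (nat_lit 0x8138558558e04e15615638204e15615638138558558e), (nat_lit 30)⟩)
(.lf ⟨(nat_lit 0x4e4), (nat_lit 2), (nat_lit 0x913), (nat_lit 2)⟩)))
(.nd (.nd (.lf ⟨(nat_lit 0x410), (nat_lit 2), (nat_lit 0), (nat_lit 0)⟩)
(.lf ⟨(nat_lit 0x8409), (nat_lit 3), (nat_lit 0x649210), (nat_lit 4)⟩))
(.nd (.lf ⟨(nat_lit 0x69875c), (nat_lit 4), (nat_lit 0x75c698), (nat_lit 4)⟩)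
(.lf ⟨(nat_lit 0xa30b), (nat_lit 3), (nat_lit 0x9e592390c8da9228e291a3cb28f), (nat_lit 18)⟩))))
(.nd (.nd (.nd (.lf ⟨(nat_lit 658), (nat_lit 2), (nat_lit 0x48a), (nat_lit 2)⟩)
(.lf ⟨(nat_lit 0), (nat_lit 0), (nat_lit 0x14175c14175c), (nat_lit 8)⟩))
(.nd (.lf ⟨(nat_lit 0x29445444a), (nat_lit 6), (nat_lit 0x294281294281), (nat_lit 8)⟩)
(.lf ⟨(nat_lit 0x7e5), (nat_lit 2), (nat_lit 0x95f), (nat_lit 2)⟩)))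
(.nd (.nd (.lf ⟨(nat_lit 287), (nat_lit 2), (nat_lit 0x7c4), (nat_lit 2)⟩)
(.lf ⟨(nat_lit 0x53d03c6406), (nat_lit 7), (nat_lit 0xf40f190185), (nat_lit 7)⟩))
(.lf ⟨(nat_lit 0xa34e), (nat_lit 3), (nat_lit 0xd38d28d), (nat_lit 5)⟩)))))
(.nd (.nd (.nd (.nd (.nd (.lf ⟨(nat_lit 0x10f10f), (nat_lit 4), (nat_lit 0x3c43c4), (nat_lit 4)⟩)
(.lf ⟨(nat_lit 135), (nat_lit 2), (nat_lit 450), (nat_lit 2)⟩))
(.nd (.lf ⟨(nat_lit 0x141d138744e), (nat_lit 7), (nat_lit 0x744e1d1394), (nat_lit 7)⟩)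
(.lf ⟨(nat_lit 0x128c28c), (nat_lit 5), (nat_lit 0xa30a301), (nat_lit 5)⟩)))
(.nd (.nd (.lf ⟨(nat_lit 0x1cd1cd), (nat_lit 4), (nat_lit 0x347347), (nat_lit 4)⟩)
(.lf ⟨(nat_lit 0xf491), (nat_lit 3), (nat_lit 0x124523d2), (nat_lit 5)⟩))
(.nd (.lf ⟨(nat_lit 0x10e40939024e24e24439024e409389389), (nat_lit 22), (nat_lit 0x10e40939024e24e24439024e409389389), (nat_lit 22)⟩)
(.lf ⟨(nat_lit 0x9e58e0), (nat_lit 4), (nat_lit 0x827963), (nat_lit 4)⟩))))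
(.nd (.nd (.nd (.lf ⟨(nat_lit 0x1c31811c3181), (nat_lit 8), (nat_lit 0x1811c31811c3), (nat_lit 8)⟩)
(.lf ⟨(nat_lit 165), (nat_lit 2), (nat_lit 0x75e75e75274f48f942), (nat_lit 12)⟩))
(.nd (.lf ⟨(nat_lit 140), (nat_lit 2), (nat_lit 0x71471531c51c5302), (nat_lit 11)⟩)
(.lf ⟨(nat_lit 0x1273ca3ca1273ca3ca), (nat_lit 12), (nat_lit 0x1273ca3ca1273ca3ca), (nat_lit 12)⟩)))
(.nd (.nd (.lf ⟨(nat_lit 5), (nat_lit 1), (nat_lit 0x42042), (nat_lit 4)⟩)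
(.lf ⟨(nat_lit 0), (nat_lit 0), (nat_lit 0x1d32532474c94c9), (nat_lit 10)⟩))
(.lf ⟨(nat_lit 399), (nat_lit 2), (nat_lit 0x3903d03903ce3ce190), (nat_lit 12)⟩))))
(.nd (.nd (.nd (.nd (.lf ⟨(nat_lit 0x1c2107084), (nat_lit 6), (nat_lit 0x1070841c2), (nat_lit 6)⟩)
(.lf ⟨(nat_lit 0x51f), (nat_lit 2), (nat_lit 0x7d4), (nat_lit 2)⟩))
(.nd (.lf ⟨(nat_lit 0x1270a2dc28b28b28b), (nat_lit 11), (nat_lit 0x1c28b70a2ca2ca2d2), (nat_lit 11)⟩)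
(.lf ⟨(nat_lit 0x327818), (nat_lit 4), (nat_lit 0x99898c9e0), (nat_lit 6)⟩)))
(.nd (.nd (.lf ⟨(nat_lit 328), (nat_lit 2), (nat_lit 0x248149), (nat_lit 4)⟩)
(.lf ⟨(nat_lit 0xa6d1591), (nat_lit 5), (nat_lit 0x1b45644a), (nat_lit 5)⟩))
(.nd (.lf ⟨(nat_lit 0x452445485), (nat_lit 6), (nat_lit 0x445445), (nat_lit 4)⟩)
(.lf ⟨(nat_lit 399), (nat_lit 2), (nat_lit 0x9e696440f21028c288306), (nat_lit 14)⟩))))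
(.nd (.nd (.nd (.lf ⟨(nat_lit 281), (nat_lit 2), (nat_lit 0x644), (nat_lit 2)⟩)
(.lf ⟨(nat_lit 0x20c2ce), (nat_lit 4), (nat_lit 0x30b38c2c830b), (nat_lit 8)⟩))
(.nd (.lf ⟨(nat_lit 393), (nat_lit 2), (nat_lit 0x698246), (nat_lit 4)⟩)
(.lf ⟨(nat_lit 278), (nat_lit 2), (nat_lit 0x1d61d6258dd6d87586d694e24e244), (nat_lit 19)⟩)))
(.nd (.nd (.lf ⟨(nat_lit 18), (nat_lit 1), (nat_lit 0x282282), (nat_lit 4)⟩)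
(.lf ⟨(nat_lit 0x31289a485485692), (nat_lit 10), (nat_lit 0x4a269215215a48c), (nat_lit 10)⟩))
(.lf ⟨(nat_lit 0x1e6dc), (nat_lit 3), (nat_lit 0x1c79b), (nat_lit 3)⟩)))))))
(.nd (.nd (.nd (.nd (.nd (.nd (.nd (.lf ⟨(nat_lit 20), (nat_lit 1), (nat_lit 0xcc0cc), (nat_lit 4)⟩)
(.lf ⟨(nat_lit 0x18181e81e9e07a781e44181e81e9e07a781e4460607a07a781e9e07910607a07a781e9e0791), (nat_lit 50), (nat_lit 0x18181e81e9e07a781e44181e81e9e07a781e4460607a07a781e9e07910607a07a781e9e0791), (nat_lit 50)⟩))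
(.nd (.lf ⟨(nat_lit 0x826826), (nat_lit 4), (nat_lit 0x9a09a0), (nat_lit 4)⟩)
(.lf ⟨(nat_lit 0x422), (nat_lit 2), (nat_lit 0x81f5e281f5d0), (nat_lit 8)⟩)))
(.nd (.nd (.lf ⟨(nat_lit 99), (nat_lit 2), (nat_lit 0x14d21b45228d21228d22375b45228d212285741), (nat_lit 26)⟩)
(.lf ⟨(nat_lit 0x4db), (nat_lit 2), (nat_lit 0x51b513), (nat_lit 4)⟩))
(.nd (.lf ⟨(nat_lit 0x24430430910c10c), (nat_lit 10), (nat_lit 0x24430430910c10c), (nat_lit 10)⟩)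
(.lf ⟨(nat_lit 0x40e24e248408), (nat_lit 8), (nat_lit 0xd90d9), (nat_lit 4)⟩))))
(.nd (.nd (.nd (.lf ⟨(nat_lit 592), (nat_lit 2), (nat_lit 0x409), (nat_lit 2)⟩)
(.lf ⟨(nat_lit 0x7585585), (nat_lit 5), (nat_lit 0x16156147), (nat_lit 5)⟩))
(.nd (.lf ⟨(nat_lit 0x295299), (nat_lit 4), (nat_lit 0x55954a54a), (nat_lit 6)⟩)
(.lf ⟨(nat_lit 976), (nat_lit 2), (nat_lit 0x40f), (nat_lit 2)⟩)))
(.nd (.nd (.lf ⟨(nat_lit 0), (nat_lit 0), (nat_lit 650), (nat_lit 2)⟩)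
(.lf ⟨(nat_lit 0x548b), (nat_lit 3), (nat_lit 0xb152), (nat_lit 3)⟩))
(.lf ⟨(nat_lit 0x5489), (nat_lit 3), (nat_lit 0x497489152), (nat_lit 6)⟩))))
(.nd (.nd (.nd (.nd (.lf ⟨(nat_lit 195), (nat_lit 2), (nat_lit 0), (nat_lit 0)⟩)
(.lf ⟨(nat_lit 264), (nat_lit 2), (nat_lit 516), (nat_lit 2)⟩))
(.nd (.lf ⟨(nat_lit 0x1a2186886), (nat_lit 6), (nat_lit 0), (nat_lit 0)⟩)
(.lf ⟨(nat_lit 614), (nat_lit 2), (nat_lit 0x9e099f3277cc809), (nat_lit 10)⟩)))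
(.nd (.nd (.lf ⟨(nat_lit 287), (nat_lit 2), (nat_lit 0x204122878102891e02891ca1e0484), (nat_lit 19)⟩)
(.lf ⟨(nat_lit 615), (nat_lit 2), (nat_lit 0x9c9), (nat_lit 2)⟩))
(.nd (.lf ⟨(nat_lit 0x4469811a60111a604698), (nat_lit 14), (nat_lit 0x4469811a60111a604698), (nat_lit 14)⟩)
(.lf ⟨(nat_lit 421), (nat_lit 2), (nat_lit 0x9dd70891d712224486), (nat_lit 12)⟩))))
(.nd (.nd (.nd (.lf ⟨(nat_lit 224), (nat_lit 2), (nat_lit 0x1024a8122891d024a1c91ca1df483), (nat_lit 19)⟩)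
(.lf ⟨(nat_lit 0x6409), (nat_lit 3), (nat_lit 0x1025431031a6143207ce3ce3d03903d038c81f3903d03903ce3ce190), (nat_lit 37)⟩))
(.nd (.lf ⟨(nat_lit 31), (nat_lit 1), (nat_lit 0x48a1d2287), (nat_lit 6)⟩)
(.lf ⟨(nat_lit 0x1891142c450b24450b1142c624450b1142c91142c450b), (nat_lit 30), (nat_lit 0x1891142c450b24450b1142c624450b1142c91142c450b), (nat_lit 30)⟩)))
(.nd (.nd (.lf ⟨(nat_lit 607), (nat_lit 2), (nat_lit 0x7c9), (nat_lit 2)⟩)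
(.lf ⟨(nat_lit 0x1906d1), (nat_lit 4), (nat_lit 0x6d159038b44e2d1592452450190), (nat_lit 18)⟩))
(.lf ⟨(nat_lit 850), (nat_lit 2), (nat_lit 0x49d49d49d35d), (nat_lit 8)⟩)))))
(.nd (.nd (.nd (.nd (.nd (.lf ⟨(nat_lit 140), (nat_lit 2), (nat_lit 0x13302), (nat_lit 3)⟩)
(.lf ⟨(nat_lit 75), (nat_lit 2), (nat_lit 0x5132c1), (nat_lit 4)⟩))
(.nd (.lf ⟨(nat_lit 30), (nat_lit 1), (nat_lit 0x52052), (nat_lit 4)⟩)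
(.lf ⟨(nat_lit 0x1e30b), (nat_lit 3), (nat_lit 0xc2de), (nat_lit 3)⟩)))
(.nd (.nd (.lf ⟨(nat_lit 0x44a44a), (nat_lit 4), (nat_lit 0), (nat_lit 0)⟩)
(.lf ⟨(nat_lit 29), (nat_lit 1), (nat_lit 0x444444), (nat_lit 4)⟩))
(.nd (.lf ⟨(nat_lit 0x41781f), (nat_lit 4), (nat_lit 0x5e07d7417), (nat_lit 6)⟩)
(.lf ⟨(nat_lit 267), (nat_lit 2), (nat_lit 0x6986d62c4), (nat_lit 6)⟩))))
(.nd (.nd (.nd (.lf ⟨(nat_lit 0x110110), (nat_lit 4), (nat_lit 0x404404), (nat_lit 4)⟩)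
(.lf ⟨(nat_lit 0x485485488488), (nat_lit 8), (nat_lit 0x488488485485), (nat_lit 8)⟩))
(.nd (.lf ⟨(nat_lit 222), (nat_lit 2), (nat_lit 0x899f21f2267c899f486486783), (nat_lit 17)⟩)
(.lf ⟨(nat_lit 482), (nat_lit 2), (nat_lit 0x887), (nat_lit 2)⟩)))
(.nd (.nd (.lf ⟨(nat_lit 0x41e), (nat_lit 2), (nat_lit 0x79a49a490), (nat_lit 6)⟩)
(.lf ⟨(nat_lit 99), (nat_lit 2), (nat_lit 0x81e81749d3512973458d234a22375b463348141), (nat_lit 26)⟩))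
(.lf ⟨(nat_lit 217), (nat_lit 2), (nat_lit 0x34840d21025534e34959959534e343), (nat_lit 20)⟩))))
(.nd (.nd (.nd (.nd (.lf ⟨(nat_lit 0x201201), (nat_lit 4), (nat_lit 0), (nat_lit 0)⟩)
(.lf ⟨(nat_lit 0x2a690a9a4), (nat_lit 6), (nat_lit 0x2a690a9a4), (nat_lit 6)⟩))
(.nd (.lf ⟨(nat_lit 600), (nat_lit 2), (nat_lit 0x6103d03c9), (nat_lit 6)⟩)
(.lf ⟨(nat_lit 478), (nat_lit 2), (nat_lit 0x7923d23cc40c407), (nat_lit 10)⟩)))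
(.nd (.nd (.lf ⟨(nat_lit 221), (nat_lit 2), (nat_lit 0x1d44a18a19c443), (nat_lit 9)⟩)
(.lf ⟨(nat_lit 596), (nat_lit 2), (nat_lit 0x509), (nat_lit 2)⟩))
(.nd (.lf ⟨(nat_lit 665), (nat_lit 2), (nat_lit 0x64a), (nat_lit 2)⟩)
(.lf ⟨(nat_lit 421), (nat_lit 2), (nat_lit 0x946), (nat_lit 2)⟩))))
(.nd (.nd (.nd (.lf ⟨(nat_lit 0x4690), (nat_lit 3), (nat_lit 0x1028928911a), (nat_lit 7)⟩)
(.lf ⟨(nat_lit 0), (nat_lit 0), (nat_lit 0x97097), (nat_lit 4)⟩))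
(.nd (.lf ⟨(nat_lit 456), (nat_lit 2), (nat_lit 0x595207), (nat_lit 4)⟩)
(.lf ⟨(nat_lit 0), (nat_lit 0), (nat_lit 0x2a794a9e5), (nat_lit 6)⟩)))
(.nd (.nd (.lf ⟨(nat_lit 0), (nat_lit 0), (nat_lit 0x108108), (nat_lit 4)⟩)
(.lf ⟨(nat_lit 0x42595096541096542595), (nat_lit 14), (nat_lit 0x42595096541096542595), (nat_lit 14)⟩))
(.lf ⟨(nat_lit 0x60f54f60f54f), (nat_lit 8), (nat_lit 0), (nat_lit 0)⟩))))))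
(.nd (.nd (.nd (.nd (.nd (.nd (.lf ⟨(nat_lit 0x84084), (nat_lit 4), (nat_lit 0x102102), (nat_lit 4)⟩)
(.lf ⟨(nat_lit 0x61d61d), (nat_lit 4), (nat_lit 0x758758), (nat_lit 4)⟩))
(.nd (.lf ⟨(nat_lit 0x41c4504507114114), (nat_lit 11), (nat_lit 0x71141141c4504504), (nat_lit 11)⟩)
(.lf ⟨(nat_lit 0x4df), (nat_lit 2), (nat_lit 0x7d3), (nat_lit 2)⟩)))
(.nd (.nd (.lf ⟨(nat_lit 0x30108c042), (nat_lit 6), (nat_lit 0x8c042301), (nat_lit 6)⟩)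
(.lf ⟨(nat_lit 0x390210388390210388), (nat_lit 12), (nat_lit 0), (nat_lit 0)⟩))
(.nd (.lf ⟨(nat_lit 0x419), (nat_lit 2), (nat_lit 0x499490), (nat_lit 4)⟩)
(.lf ⟨(nat_lit 463), (nat_lit 2), (nat_lit 0x9e63cc24c247), (nat_lit 8)⟩))))
(.nd (.nd (.nd (.lf ⟨(nat_lit 0x28424a109), (nat_lit 6), (nat_lit 0x24a109284), (nat_lit 6)⟩)
(.lf ⟨(nat_lit 0x81e81e), (nat_lit 4), (nat_lit 0x52212201488488), (nat_lit 10)⟩))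
(.nd (.lf ⟨(nat_lit 0x1948), (nat_lit 3), (nat_lit 0x8948948065), (nat_lit 7)⟩)
(.lf ⟨(nat_lit 0x1a744e), (nat_lit 4), (nat_lit 0x9d13a71a7), (nat_lit 6)⟩)))
(.nd (.nd (.lf ⟨(nat_lit 12), (nat_lit 1), (nat_lit 0x47047), (nat_lit 4)⟩)
(.lf ⟨(nat_lit 409), (nat_lit 2), (nat_lit 0x646), (nat_lit 2)⟩))
(.lf ⟨(nat_lit 0xc24c258), (nat_lit 5), (nat_lit 0x18309309), (nat_lit 5)⟩))))
(.nd (.nd (.nd (.nd (.lf ⟨(nat_lit 0x1c21c2), (nat_lit 4), (nat_lit 0x87087), (nat_lit 4)⟩)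
(.lf ⟨(nat_lit 0x309309), (nat_lit 4), (nat_lit 0x309309), (nat_lit 4)⟩))
(.nd (.lf ⟨(nat_lit 0xd95c3657), (nat_lit 6), (nat_lit 0xd95c3657), (nat_lit 6)⟩)
(.lf ⟨(nat_lit 802), (nat_lit 2), (nat_lit 0x3e23cc), (nat_lit 4)⟩)))
(.nd (.nd (.lf ⟨(nat_lit 0x2893c92893c9), (nat_lit 8), (nat_lit 0x3c924a3c924a), (nat_lit 8)⟩)
(.lf ⟨(nat_lit 0x411411411411), (nat_lit 8), (nat_lit 0), (nat_lit 0)⟩))
(.nd (.lf ⟨(nat_lit 0x1a61c), (nat_lit 3), (nat_lit 0x1c698), (nat_lit 3)⟩)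
(.lf ⟨(nat_lit 0x966), (nat_lit 2), (nat_lit 0x9a5), (nat_lit 2)⟩))))
(.nd (.nd (.nd (.lf ⟨(nat_lit 0x4a0), (nat_lit 2), (nat_lit 0x812), (nat_lit 2)⟩)
(.lf ⟨(nat_lit 0x346346), (nat_lit 4), (nat_lit 0x18d18d), (nat_lit 4)⟩))
(.nd (.lf ⟨(nat_lit 326), (nat_lit 2), (nat_lit 0xb50c2d350b4c71932cc1c5), (nat_lit 15)⟩)
(.lf ⟨(nat_lit 0x3ca3c7), (nat_lit 4), (nat_lit 0x1f1cf28f), (nat_lit 5)⟩)))
(.nd (.nd (.lf ⟨(nat_lit 0x4246246), (nat_lit 5), (nat_lit 0x944e251389189184), (nat_lit 11)⟩)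
(.lf ⟨(nat_lit 0xd80d70d80d7), (nat_lit 8), (nat_lit 0xd80d70d80d7), (nat_lit 8)⟩))
(.lf ⟨(nat_lit 0x7412dd04b), (nat_lit 6), (nat_lit 0x7412dd04b), (nat_lit 6)⟩)))))
(.nd (.nd (.nd (.nd (.nd (.lf ⟨(nat_lit 0x79e), (nat_lit 2), (nat_lit 0), (nat_lit 0)⟩)
(.lf ⟨(nat_lit 148), (nat_lit 2), (nat_lit 0x502), (nat_lit 2)⟩))
(.nd (.lf ⟨(nat_lit 0x1553d53c51553d53c5), (nat_lit 12), (nat_lit 0), (nat_lit 0)⟩)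
(.lf ⟨(nat_lit 0x28c2ca30b28c2ca30b), (nat_lit 12), (nat_lit 0xca30b28c2c328c2ca30b), (nat_lit 14)⟩)))
(.nd (.nd (.lf ⟨(nat_lit 464), (nat_lit 2), (nat_lit 0x407), (nat_lit 2)⟩)
(.lf ⟨(nat_lit 0x1a617), (nat_lit 3), (nat_lit 0x17698), (nat_lit 3)⟩))
(.nd (.lf ⟨(nat_lit 0x25625d), (nat_lit 4), (nat_lit 0x59d589589), (nat_lit 6)⟩)
(.lf ⟨(nat_lit 231), (nat_lit 2), (nat_lit 0x9c3), (nat_lit 2)⟩))))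
(.nd (.nd (.nd (.lf ⟨(nat_lit 0x283204283204), (nat_lit 8), (nat_lit 0x204283204283), (nat_lit 8)⟩)
(.lf ⟨(nat_lit 0x767), (nat_lit 2), (nat_lit 0x9dd), (nat_lit 2)⟩))
(.nd (.lf ⟨(nat_lit 0x4090c54091502431502454094090c5409150243150245409), (nat_lit 32), (nat_lit 0x4090c54091502431502454094090c5409150243150245409), (nat_lit 32)⟩)
(.lf ⟨(nat_lit 0x49a), (nat_lit 2), (nat_lit 0x692), (nat_lit 2)⟩)))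
(.nd (.nd (.lf ⟨(nat_lit 16), (nat_lit 1), (nat_lit 0xd72570d7257), (nat_lit 8)⟩)
(.lf ⟨(nat_lit 0x454), (nat_lit 2), (nat_lit 0x511), (nat_lit 2)⟩))
(.lf ⟨(nat_lit 0x488488), (nat_lit 4), (nat_lit 0x212212), (nat_lit 4)⟩))))
(.nd (.nd (.nd (.nd (.lf ⟨(nat_lit 77), (nat_lit 2), (nat_lit 0x1442052441573c934824520510564f109201), (nat_lit 24)⟩)
(.lf ⟨(nat_lit 0x379b), (nat_lit 3), (nat_lit 0xa30b28c2de6c3), (nat_lit 9)⟩))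
(.nd (.lf ⟨(nat_lit 0), (nat_lit 0), (nat_lit 0x5e041781), (nat_lit 6)⟩)
(.lf ⟨(nat_lit 0x4d8), (nat_lit 2), (nat_lit 0x613), (nat_lit 2)⟩)))
(.nd (.nd (.lf ⟨(nat_lit 25), (nat_lit 1), (nat_lit 0x10d10d), (nat_lit 4)⟩)
(.lf ⟨(nat_lit 0x44e81f), (nat_lit 4), (nat_lit 0x81f44e), (nat_lit 4)⟩))
(.nd (.lf ⟨(nat_lit 0x352352), (nat_lit 4), (nat_lit 0x48d48d), (nat_lit 4)⟩)
(.lf ⟨(nat_lit 0x20430a30a20430a30a), (nat_lit 12), (nat_lit 0x20430a30a20430a30a), (nat_lit 12)⟩))))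
(.nd (.nd (.nd (.lf ⟨(nat_lit 0xa2685), (nat_lit 4), (nat_lit 0x226850a2), (nat_lit 5)⟩)
(.lf ⟨(nat_lit 0x30d30d), (nat_lit 4), (nat_lit 0x34c34c), (nat_lit 4)⟩))
(.nd (.lf ⟨(nat_lit 0xd48a34a), (nat_lit 5), (nat_lit 0x34228d08a), (nat_lit 6)⟩)
(.lf ⟨(nat_lit 0x826327809309826327809309), (nat_lit 16), (nat_lit 0), (nat_lit 0)⟩)))
(.nd (.nd (.lf ⟨(nat_lit 159), (nat_lit 2), (nat_lit 0x7c2), (nat_lit 2)⟩)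
(.lf ⟨(nat_lit 0x12413), (nat_lit 3), (nat_lit 0x13490), (nat_lit 3)⟩))
(.lf ⟨(nat_lit 0x3cd385385), (nat_lit 6), (nat_lit 0x3853853cd), (nat_lit 6)⟩))))))))
(.nd (.nd (.nd (.nd (.nd (.nd (.nd (.nd (.lf ⟨(nat_lit 12), (nat_lit 1), (nat_lit 0x47047), (nat_lit 4)⟩)
(.lf ⟨(nat_lit 0), (nat_lit 0), (nat_lit 0x191191), (nat_lit 4)⟩))
(.nd (.lf ⟨(nat_lit 0x90e6409983), (nat_lit 7), (nat_lit 0x243983243983), (nat_lit 8)⟩)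
(.lf ⟨(nat_lit 858), (nat_lit 2), (nat_lit 0x68d), (nat_lit 2)⟩)))
(.nd (.nd (.lf ⟨(nat_lit 262), (nat_lit 2), (nat_lit 0x844a18e29d204), (nat_lit 9)⟩)
(.lf ⟨(nat_lit 0x4de), (nat_lit 2), (nat_lit 0x51e513), (nat_lit 4)⟩))
(.nd (.lf ⟨(nat_lit 0x3c73c7), (nat_lit 4), (nat_lit 0x1cf1cf), (nat_lit 4)⟩)
(.lf ⟨(nat_lit 0x626), (nat_lit 2), (nat_lit 0x9e66a7698), (nat_lit 6)⟩))))
(.nd (.nd (.nd (.lf ⟨(nat_lit 0x109082109082), (nat_lit 8), (nat_lit 0x89084089084), (nat_lit 8)⟩)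
(.lf ⟨(nat_lit 0x8c2c538c2ce14230b14e30b385), (nat_lit 18), (nat_lit 0x8c2c538c2ce14230b14e30b385), (nat_lit 18)⟩))
(.nd (.lf ⟨(nat_lit 0x4559), (nat_lit 3), (nat_lit 0x15655115), (nat_lit 5)⟩)
(.lf ⟨(nat_lit 0x1579b), (nat_lit 3), (nat_lit 0x1879b615), (nat_lit 5)⟩)))
(.nd (.nd (.lf ⟨(nat_lit 0xb18d18d), (nat_lit 5), (nat_lit 0x634634b), (nat_lit 5)⟩)
(.lf ⟨(nat_lit 0xa9a4), (nat_lit 3), (nat_lit 0x2690a), (nat_lit 3)⟩))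
(.lf ⟨(nat_lit 0xd48f), (nat_lit 3), (nat_lit 0x123d2352), (nat_lit 5)⟩))))
(.nd (.nd (.nd (.nd (.lf ⟨(nat_lit 95), (nat_lit 2), (nat_lit 0x267c1), (nat_lit 3)⟩)
(.lf ⟨(nat_lit 779), (nat_lit 2), (nat_lit 0x143143), (nat_lit 4)⟩))
(.nd (.lf ⟨(nat_lit 5), (nat_lit 1), (nat_lit 0x81081), (nat_lit 4)⟩)
(.lf ⟨(nat_lit 100), (nat_lit 2), (nat_lit 0x901), (nat_lit 2)⟩)))
(.nd (.nd (.lf ⟨(nat_lit 270), (nat_lit 2), (nat_lit 0x1d384), (nat_lit 3)⟩)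
(.lf ⟨(nat_lit 473), (nat_lit 2), (nat_lit 0x64d40d407), (nat_lit 6)⟩))
(.nd (.lf ⟨(nat_lit 0x496), (nat_lit 2), (nat_lit 0x592), (nat_lit 2)⟩)
(.lf ⟨(nat_lit 0x927), (nat_lit 2), (nat_lit 0x9e4), (nat_lit 2)⟩))))
(.nd (.nd (.nd (.lf ⟨(nat_lit 0x106751), (nat_lit 4), (nat_lit 0x18818a38829170a18a18828620638828620a18a106), (nat_lit 28)⟩)
(.lf ⟨(nat_lit 606), (nat_lit 2), (nat_lit 0x7926923d268f489), (nat_lit 10)⟩))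
(.nd (.lf ⟨(nat_lit 408), (nat_lit 2), (nat_lit 0x606), (nat_lit 2)⟩)
(.lf ⟨(nat_lit 0x1c29cf24e28f2893870a73c938a3ca24e), (nat_lit 22), (nat_lit 0x1c29cf24e28f2893870a73c938a3ca24e), (nat_lit 22)⟩)))
(.nd (.nd (.lf ⟨(nat_lit 479), (nat_lit 2), (nat_lit 0x7c7), (nat_lit 2)⟩)
(.lf ⟨(nat_lit 0x3d53d0), (nat_lit 4), (nat_lit 0x40f54f), (nat_lit 4)⟩))
(.lf ⟨(nat_lit 0x29655d), (nat_lit 4), (nat_lit 0x59575654a595), (nat_lit 8)⟩)))))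
(.nd (.nd (.nd (.nd (.nd (.lf ⟨(nat_lit 0x4a04a), (nat_lit 4), (nat_lit 0x281281), (nat_lit 4)⟩)
(.lf ⟨(nat_lit 0xd452), (nat_lit 3), (nat_lit 0xf49149d4527523d2351), (nat_lit 13)⟩))
(.nd (.lf ⟨(nat_lit 0x2db456), (nat_lit 4), (nat_lit 0x6d15912d1), (nat_lit 6)⟩)
(.lf ⟨(nat_lit 0x7485485), (nat_lit 5), (nat_lit 0x12152147), (nat_lit 5)⟩)))
(.nd (.nd (.lf ⟨(nat_lit 0x92081092081), (nat_lit 8), (nat_lit 0x52082052082), (nat_lit 8)⟩)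
(.lf ⟨(nat_lit 0x656), (nat_lit 2), (nat_lit 0x218758218758599), (nat_lit 10)⟩))
(.nd (.lf ⟨(nat_lit 0x24581f1607c91607c581f), (nat_lit 14), (nat_lit 0x24581f1607c91607c581f), (nat_lit 14)⟩)
(.lf ⟨(nat_lit 914), (nat_lit 2), (nat_lit 0x48e), (nat_lit 2)⟩))))
(.nd (.nd (.nd (.lf ⟨(nat_lit 0x38808e202), (nat_lit 6), (nat_lit 0x8e202388), (nat_lit 6)⟩)
(.lf ⟨(nat_lit 0x975e75e), (nat_lit 5), (nat_lit 0x1d79d789), (nat_lit 5)⟩))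
(.nd (.lf ⟨(nat_lit 0x78899f21f2267c899f), (nat_lit 12), (nat_lit 0x2267c87c899f2267de), (nat_lit 12)⟩)
(.lf ⟨(nat_lit 352), (nat_lit 2), (nat_lit 0x805), (nat_lit 2)⟩)))
(.nd (.nd (.lf ⟨(nat_lit 0x792692), (nat_lit 4), (nat_lit 0x52401490), (nat_lit 6)⟩)
(.lf ⟨(nat_lit 987), (nat_lit 2), (nat_lit 0x6cf), (nat_lit 2)⟩))
(.lf ⟨(nat_lit 101), (nat_lit 2), (nat_lit 0x9607a0781), (nat_lit 6)⟩))))
(.nd (.nd (.nd (.nd (.lf ⟨(nat_lit 83), (nat_lit 2), (nat_lit 0x1cc1d33071421533133074cc1d3307081), (nat_lit 22)⟩)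
(.lf ⟨(nat_lit 0), (nat_lit 0), (nat_lit 0xdc0dc), (nat_lit 4)⟩))
(.nd (.lf ⟨(nat_lit 216), (nat_lit 2), (nat_lit 0x603), (nat_lit 2)⟩)
(.lf ⟨(nat_lit 166), (nat_lit 2), (nat_lit 0x99f51348f48f18591448c91f512306142), (nat_lit 22)⟩)))
(.nd (.nd (.lf ⟨(nat_lit 480), (nat_lit 2), (nat_lit 0x807), (nat_lit 2)⟩)
(.lf ⟨(nat_lit 0x1b456460), (nat_lit 5), (nat_lit 0x206d1591), (nat_lit 5)⟩))
(.nd (.lf ⟨(nat_lit 0x1075c), (nat_lit 3), (nat_lit 0x1d710), (nat_lit 3)⟩)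
(.lf ⟨(nat_lit 0x566), (nat_lit 2), (nat_lit 0x995), (nat_lit 2)⟩))))
(.nd (.nd (.nd (.lf ⟨(nat_lit 0x194307), (nat_lit 4), (nat_lit 0xc1c6), (nat_lit 3)⟩)
(.lf ⟨(nat_lit 0x1603cd160), (nat_lit 6), (nat_lit 0x160105804), (nat_lit 6)⟩))
(.nd (.lf ⟨(nat_lit 469), (nat_lit 2), (nat_lit 0x547), (nat_lit 2)⟩)
(.lf ⟨(nat_lit 0x429a40a69010a69029a4), (nat_lit 14), (nat_lit 0x429a40a69010a69029a4), (nat_lit 14)⟩)))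
(.nd (.nd (.lf ⟨(nat_lit 0xc50c5), (nat_lit 4), (nat_lit 0xc50c5), (nat_lit 4)⟩)
(.lf ⟨(nat_lit 0xd125131125130344944c44944c), (nat_lit 18), (nat_lit 0xd125131125130344944c44944c), (nat_lit 18)⟩))
(.lf ⟨(nat_lit 0x60f54f), (nat_lit 4), (nat_lit 0xcf3433cd), (nat_lit 6)⟩))))))
(.nd (.nd (.nd (.nd (.nd (.nd (.lf ⟨(nat_lit 390), (nat_lit 2), (nat_lit 0), (nat_lit 0)⟩)
(.lf ⟨(nat_lit 340), (nat_lit 2), (nat_lit 0x505), (nat_lit 2)⟩))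
(.nd (.lf ⟨(nat_lit 0x192406490), (nat_lit 6), (nat_lit 0x192406490), (nat_lit 6)⟩)
(.lf ⟨(nat_lit 0x51e), (nat_lit 2), (nat_lit 0x794), (nat_lit 2)⟩)))
(.nd (.nd (.lf ⟨(nat_lit 0x1060c11060c1), (nat_lit 8), (nat_lit 0x460c40460c4), (nat_lit 8)⟩)
(.lf ⟨(nat_lit 0x389389), (nat_lit 4), (nat_lit 0x24e24e), (nat_lit 4)⟩))
(.nd (.lf ⟨(nat_lit 463), (nat_lit 2), (nat_lit 0x3cc24c7c99e67c7), (nat_lit 10)⟩)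
(.lf ⟨(nat_lit 0x824), (nat_lit 2), (nat_lit 0x920), (nat_lit 2)⟩))))
(.nd (.nd (.nd (.lf ⟨(nat_lit 0x2421c9087), (nat_lit 6), (nat_lit 0x1c9087242), (nat_lit 6)⟩)
(.lf ⟨(nat_lit 0x1ce1dc), (nat_lit 4), (nat_lit 0x55059039241549c41541640e1ce49055271059c587), (nat_lit 28)⟩))
(.nd (.lf ⟨(nat_lit 0x4944), (nat_lit 3), (nat_lit 0x11e11e), (nat_lit 4)⟩)
(.lf ⟨(nat_lit 0x1de1c628491e28492578628491e28492578778718a12478a12495e18a12478a12495e), (nat_lit 46), (nat_lit 0x1de1c628491e28492578628491e28492578778718a12478a12495e18a12478a12495e), (nat_lit 46)⟩)))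
(.nd (.nd (.lf ⟨(nat_lit 0x14a14a), (nat_lit 4), (nat_lit 0x14a14a), (nat_lit 4)⟩)
(.lf ⟨(nat_lit 0x144d9), (nat_lit 3), (nat_lit 0x19513), (nat_lit 3)⟩))
(.lf ⟨(nat_lit 0xc3c63c6), (nat_lit 5), (nat_lit 0xf18f18c), (nat_lit 5)⟩))))
(.nd (.nd (.nd (.nd (.lf ⟨(nat_lit 585), (nat_lit 2), (nat_lit 0), (nat_lit 0)⟩)
(.lf ⟨(nat_lit 0x16698), (nat_lit 3), (nat_lit 0x1b6986d6), (nat_lit 5)⟩))
(.nd (.lf ⟨(nat_lit 0x75c38575c385385385), (nat_lit 12), (nat_lit 0x4e14e141385385), (nat_lit 10)⟩)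
(.lf ⟨(nat_lit 0x9327), (nat_lit 3), (nat_lit 0x203279a78267d93278193e69e099f3273cc24c), (nat_lit 25)⟩)))
(.nd (.nd (.lf ⟨(nat_lit 0x29428a50a), (nat_lit 6), (nat_lit 0), (nat_lit 0)⟩)
(.lf ⟨(nat_lit 0x406406), (nat_lit 4), (nat_lit 0x406406), (nat_lit 4)⟩))
(.nd (.lf ⟨(nat_lit 0x1944e), (nat_lit 3), (nat_lit 0x11399), (nat_lit 3)⟩)
(.lf ⟨(nat_lit 0x28f28c), (nat_lit 4), (nat_lit 0x30a3ca), (nat_lit 4)⟩))))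
(.nd (.nd (.nd (.lf ⟨(nat_lit 984), (nat_lit 2), (nat_lit 0x60f), (nat_lit 2)⟩)
(.lf ⟨(nat_lit 0x2045131144c81144c4513), (nat_lit 14), (nat_lit 0x2045131144c81144c4513), (nat_lit 14)⟩))
(.nd (.lf ⟨(nat_lit 88), (nat_lit 2), (nat_lit 0x60f18f181), (nat_lit 6)⟩)
(.lf ⟨(nat_lit 0x41e), (nat_lit 2), (nat_lit 0x790), (nat_lit 2)⟩)))
(.nd (.nd (.lf ⟨(nat_lit 0), (nat_lit 0), (nat_lit 0x244244), (nat_lit 4)⟩)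
(.lf ⟨(nat_lit 0x40f40f), (nat_lit 4), (nat_lit 0x243603243603), (nat_lit 8)⟩))
(.lf ⟨(nat_lit 0x9d042741), (nat_lit 6), (nat_lit 0x9d042741), (nat_lit 6)⟩)))))
(.nd (.nd (.nd (.nd (.nd (.lf ⟨(nat_lit 145), (nat_lit 2), (nat_lit 0x1b442), (nat_lit 3)⟩)
(.lf ⟨(nat_lit 0x595657), (nat_lit 4), (nat_lit 0x657595), (nat_lit 4)⟩))
(.nd (.lf ⟨(nat_lit 0x155145545), (nat_lit 6), (nat_lit 0), (nat_lit 0)⟩)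
(.lf ⟨(nat_lit 0xa657), (nat_lit 3), (nat_lit 0x195ca), (nat_lit 3)⟩)))
(.nd (.nd (.lf ⟨(nat_lit 333), (nat_lit 2), (nat_lit 837), (nat_lit 2)⟩)
(.lf ⟨(nat_lit 0), (nat_lit 0), (nat_lit 0x74119d046), (nat_lit 6)⟩))
(.nd (.lf ⟨(nat_lit 0x25d25d), (nat_lit 4), (nat_lit 0x749749), (nat_lit 4)⟩)
(.lf ⟨(nat_lit 0x5665a6), (nat_lit 4), (nat_lit 0x996996995996), (nat_lit 8)⟩))))
(.nd (.nd (.nd (.lf ⟨(nat_lit 0x2841c32841c3), (nat_lit 8), (nat_lit 0x1c32841c3284), (nat_lit 8)⟩)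
(.lf ⟨(nat_lit 0x308308), (nat_lit 4), (nat_lit 0x20c20c), (nat_lit 4)⟩))
(.nd (.lf ⟨(nat_lit 75), (nat_lit 2), (nat_lit 0x550c2cc18550c1931c519330b50b1cb3071461543072cc154301), (nat_lit 35)⟩)
(.lf ⟨(nat_lit 278), (nat_lit 2), (nat_lit 0x1d61d62395d6d87586d694e24e244), (nat_lit 19)⟩)))
(.nd (.nd (.lf ⟨(nat_lit 0x95d9), (nat_lit 3), (nat_lit 0x17657257), (nat_lit 5)⟩)
(.lf ⟨(nat_lit 725), (nat_lit 2), (nat_lit 0x31530b), (nat_lit 4)⟩))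
(.lf ⟨(nat_lit 0x5489), (nat_lit 3), (nat_lit 0x5c9152), (nat_lit 4)⟩))))
(.nd (.nd (.nd (.nd (.lf ⟨(nat_lit 75), (nat_lit 2), (nat_lit 0x1431851c31533072c61c51850c550c0c7181), (nat_lit 24)⟩)
(.lf ⟨(nat_lit 0x513), (nat_lit 2), (nat_lit 0x4c2c130b), (nat_lit 6)⟩))
(.nd (.lf ⟨(nat_lit 0), (nat_lit 0), (nat_lit 0x2c22c2), (nat_lit 4)⟩)
(.lf ⟨(nat_lit 0), (nat_lit 0), (nat_lit 0x250150149405405), (nat_lit 10)⟩)))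
(.nd (.nd (.lf ⟨(nat_lit 0x2c24902c2490), (nat_lit 8), (nat_lit 0x2c24902c2490), (nat_lit 8)⟩)
(.lf ⟨(nat_lit 0x99a4), (nat_lit 3), (nat_lit 0x26909), (nat_lit 3)⟩))
(.nd (.lf ⟨(nat_lit 0x48d212348488488), (nat_lit 10), (nat_lit 0x92212202488488), (nat_lit 10)⟩)
(.lf ⟨(nat_lit 0xcc20430810330810c204), (nat_lit 14), (nat_lit 0xcc20430810330810c204), (nat_lit 14)⟩))))
(.nd (.nd (.nd (.lf ⟨(nat_lit 81), (nat_lit 2), (nat_lit 0x441), (nat_lit 2)⟩)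
(.lf ⟨(nat_lit 0), (nat_lit 0), (nat_lit 0x305305), (nat_lit 4)⟩))
(.nd (.lf ⟨(nat_lit 25), (nat_lit 1), (nat_lit 0x34824d209), (nat_lit 6)⟩)
(.lf ⟨(nat_lit 0x98098), (nat_lit 4), (nat_lit 0x98098), (nat_lit 4)⟩)))
(.nd (.nd (.lf ⟨(nat_lit 0x1cf1cf1cf1cf), (nat_lit 8), (nat_lit 0), (nat_lit 0)⟩)
(.lf ⟨(nat_lit 0x1d289a485485692), (nat_lit 10), (nat_lit 0x4a269215215a487), (nat_lit 10)⟩))
(.lf ⟨(nat_lit 0xf35d), (nat_lit 3), (nat_lit 0x1d3cd), (nat_lit 3)⟩)))))))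
(.nd (.nd (.nd (.nd (.nd (.nd (.nd (.lf ⟨(nat_lit 28), (nat_lit 1), (nat_lit 0xd10d1), (nat_lit 4)⟩)
(.lf ⟨(nat_lit 0x727), (nat_lit 2), (nat_lit 0x9dc), (nat_lit 2)⟩))
(.nd (.lf ⟨(nat_lit 0x881c28873481e21c20881c28873481e21c2), (nat_lit 24), (nat_lit 0x881c28873481e21c20881c28873481e21c2), (nat_lit 24)⟩)
(.lf ⟨(nat_lit 0x474474411d11d1), (nat_lit 10), (nat_lit 0x474474411d11d1), (nat_lit 10)⟩)))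
(.nd (.nd (.lf ⟨(nat_lit 151), (nat_lit 2), (nat_lit 0x524534814d2173c524814815934914964f24564964815934964814f2573c2), (nat_lit 41)⟩)
(.lf ⟨(nat_lit 0xa2d1), (nat_lit 3), (nat_lit 0xb44b28b), (nat_lit 5)⟩))
(.nd (.lf ⟨(nat_lit 0x1d91d9), (nat_lit 4), (nat_lit 0x647647), (nat_lit 4)⟩)
(.lf ⟨(nat_lit 0x406406), (nat_lit 4), (nat_lit 0x18f18f), (nat_lit 4)⟩))))
(.nd (.nd (.nd (.lf ⟨(nat_lit 0x403403), (nat_lit 4), (nat_lit 0), (nat_lit 0)⟩)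
(.lf ⟨(nat_lit 0x1d713), (nat_lit 3), (nat_lit 0x1375c), (nat_lit 3)⟩))
(.nd (.lf ⟨(nat_lit 18), (nat_lit 1), (nat_lit 0xa028280a), (nat_lit 6)⟩)
(.lf ⟨(nat_lit 978), (nat_lit 2), (nat_lit 0x48f), (nat_lit 2)⟩)))
(.nd (.nd (.lf ⟨(nat_lit 78), (nat_lit 2), (nat_lit 0x39c741), (nat_lit 4)⟩)
(.lf ⟨(nat_lit 0x5486), (nat_lit 3), (nat_lit 0x26914493486152), (nat_lit 9)⟩))
(.lf ⟨(nat_lit 0x309309), (nat_lit 4), (nat_lit 0x24c24c), (nat_lit 4)⟩))))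
(.nd (.nd (.nd (.nd (.lf ⟨(nat_lit 0x102102), (nat_lit 4), (nat_lit 0x84084), (nat_lit 4)⟩)
(.lf ⟨(nat_lit 0x8b90190b9019022e40642e4064), (nat_lit 18), (nat_lit 0x8b90190b9019022e40642e4064), (nat_lit 18)⟩))
(.nd (.lf ⟨(nat_lit 0x185685686185685686), (nat_lit 12), (nat_lit 0), (nat_lit 0)⟩)
(.lf ⟨(nat_lit 411), (nat_lit 2), (nat_lit 0x6c6), (nat_lit 2)⟩)))
(.nd (.nd (.lf ⟨(nat_lit 392), (nat_lit 2), (nat_lit 0x44e44e28818a), (nat_lit 8)⟩)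
(.lf ⟨(nat_lit 0x6409), (nat_lit 3), (nat_lit 0x1025431031a6143207ce3ce3ce3d038c81f40e3ce3ce3ce190), (nat_lit 33)⟩))
(.nd (.lf ⟨(nat_lit 0x11406406), (nat_lit 5), (nat_lit 0x10190191), (nat_lit 5)⟩)
(.lf ⟨(nat_lit 741), (nat_lit 2), (nat_lit 0x3259236d53646d534c8cb), (nat_lit 14)⟩))))
(.nd (.nd (.nd (.lf ⟨(nat_lit 269), (nat_lit 2), (nat_lit 0x349209204), (nat_lit 6)⟩)
(.lf ⟨(nat_lit 463), (nat_lit 2), (nat_lit 0x81f3cc81f3207d93cc9e064f98c7e77cc81f6677d93207cc24c247), (nat_lit 36)⟩))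
(.nd (.lf ⟨(nat_lit 806), (nat_lit 2), (nat_lit 0x98c), (nat_lit 2)⟩)
(.lf ⟨(nat_lit 0x24e28f), (nat_lit 4), (nat_lit 0x7da9df6a728f28938a), (nat_lit 12)⟩)))
(.nd (.nd (.lf ⟨(nat_lit 457), (nat_lit 2), (nat_lit 0x7e0247), (nat_lit 4)⟩)
(.lf ⟨(nat_lit 406), (nat_lit 2), (nat_lit 0x592452446), (nat_lit 6)⟩))
(.lf ⟨(nat_lit 0x1cd21f), (nat_lit 4), (nat_lit 0x35f55f5957d655f59535f59535f54d21f207348), (nat_lit 26)⟩)))))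
(.nd (.nd (.nd (.nd (.nd (.lf ⟨(nat_lit 0x596), (nat_lit 2), (nat_lit 0), (nat_lit 0)⟩)
(.lf ⟨(nat_lit 267), (nat_lit 2), (nat_lit 0x6d159a6112c4), (nat_lit 8)⟩))
(.nd (.lf ⟨(nat_lit 0x152452), (nat_lit 4), (nat_lit 0x491491151), (nat_lit 6)⟩)
(.lf ⟨(nat_lit 0x3485485), (nat_lit 5), (nat_lit 0x12152143), (nat_lit 5)⟩)))
(.nd (.nd (.lf ⟨(nat_lit 0x503503), (nat_lit 4), (nat_lit 0), (nat_lit 0)⟩)
(.lf ⟨(nat_lit 0x1113c944f25125124444f2513c9449449), (nat_lit 22), (nat_lit 0x1113c944f25125124444f2513c9449449), (nat_lit 22)⟩))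
(.nd (.lf ⟨(nat_lit 0x9d09d), (nat_lit 4), (nat_lit 0x9d09d), (nat_lit 4)⟩)
(.lf ⟨(nat_lit 0x347347), (nat_lit 4), (nat_lit 0x347347), (nat_lit 4)⟩))))
(.nd (.nd (.nd (.lf ⟨(nat_lit 0x2c224b089), (nat_lit 6), (nat_lit 0x24b0892c2), (nat_lit 6)⟩)
(.lf ⟨(nat_lit 0x1e3cd), (nat_lit 3), (nat_lit 0x1d79d78f35e), (nat_lit 7)⟩))
(.nd (.lf ⟨(nat_lit 0x926), (nat_lit 2), (nat_lit 0x9a4), (nat_lit 2)⟩)
(.lf ⟨(nat_lit 790), (nat_lit 2), (nat_lit 0x58c), (nat_lit 2)⟩)))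
(.nd (.nd (.lf ⟨(nat_lit 0x1c8490), (nat_lit 4), (nat_lit 0x2124081c8), (nat_lit 6)⟩)
(.lf ⟨(nat_lit 0x78678c2de19e30b), (nat_lit 10), (nat_lit 0x78678c2de19e30b), (nat_lit 10)⟩))
(.lf ⟨(nat_lit 473), (nat_lit 2), (nat_lit 0x81f64959580921f595207), (nat_lit 14)⟩))))
(.nd (.nd (.nd (.nd (.lf ⟨(nat_lit 0x2010c8043), (nat_lit 6), (nat_lit 0xc8043201), (nat_lit 6)⟩)
(.lf ⟨(nat_lit 0x1c50a50a), (nat_lit 5), (nat_lit 0x1429429c), (nat_lit 5)⟩))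
(.nd (.lf ⟨(nat_lit 0x48a2d228b28b28b48a2d228b28b28b), (nat_lit 20), (nat_lit 0), (nat_lit 0)⟩)
(.lf ⟨(nat_lit 0x6098c1e78093091c18263079e024c247), (nat_lit 22), (nat_lit 0x6098c1e78093091c18263079e024c247), (nat_lit 22)⟩)))
(.nd (.nd (.lf ⟨(nat_lit 279), (nat_lit 2), (nat_lit 0x9149144), (nat_lit 5)⟩)
(.lf ⟨(nat_lit 0x6989a4), (nat_lit 4), (nat_lit 0x9a4698), (nat_lit 4)⟩))
(.nd (.lf ⟨(nat_lit 977), (nat_lit 2), (nat_lit 0x44f), (nat_lit 2)⟩)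
(.lf ⟨(nat_lit 0x14306), (nat_lit 3), (nat_lit 0x470c11c3), (nat_lit 6)⟩))))
(.nd (.nd (.nd (.lf ⟨(nat_lit 0x1573c9), (nat_lit 4), (nat_lit 0xf245), (nat_lit 3)⟩)
(.lf ⟨(nat_lit 0x14430b10c2c510c2c430b), (nat_lit 14), (nat_lit 0x14430b10c2c510c2c430b), (nat_lit 14)⟩))
(.nd (.lf ⟨(nat_lit 0x98114998f26614998f26698114998f26614998f266), (nat_lit 28), (nat_lit 0x98114998f26614998f26698114998f26614998f266), (nat_lit 28)⟩)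
(.lf ⟨(nat_lit 0x6e5), (nat_lit 2), (nat_lit 0x95b), (nat_lit 2)⟩)))
(.nd (.nd (.lf ⟨(nat_lit 0x17417), (nat_lit 3), (nat_lit 0x5c35c95c35c9), (nat_lit 8)⟩)
(.lf ⟨(nat_lit 0x4a269215215a499), (nat_lit 10), (nat_lit 0x65289a485485692), (nat_lit 10)⟩))
(.lf ⟨(nat_lit 0x1149115215c), (nat_lit 7), (nat_lit 0x1c452445485), (nat_lit 7)⟩))))))
(.nd (.nd (.nd (.nd (.nd (.nd (.lf ⟨(nat_lit 134), (nat_lit 2), (nat_lit 0xb182), (nat_lit 3)⟩)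
(.lf ⟨(nat_lit 214), (nat_lit 2), (nat_lit 0x41649549054e1ce1c3), (nat_lit 12)⟩))
(.nd (.lf ⟨(nat_lit 9), (nat_lit 1), (nat_lit 0x84084), (nat_lit 4)⟩)
(.lf ⟨(nat_lit 0x28c28c28c28c), (nat_lit 8), (nat_lit 0), (nat_lit 0)⟩)))
(.nd (.nd (.lf ⟨(nat_lit 0x3c10cf043), (nat_lit 6), (nat_lit 0xcf0433c1), (nat_lit 6)⟩)
(.lf ⟨(nat_lit 14), (nat_lit 1), (nat_lit 0x861d60861d60e), (nat_lit 9)⟩))
(.nd (.lf ⟨(nat_lit 0x295299), (nat_lit 4), (nat_lit 0x59958a54a), (nat_lit 6)⟩)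
(.lf ⟨(nat_lit 0x30a30a), (nat_lit 4), (nat_lit 0x30a30a), (nat_lit 4)⟩))))
(.nd (.nd (.nd (.lf ⟨(nat_lit 0x409409), (nat_lit 4), (nat_lit 0), (nat_lit 0)⟩)
(.lf ⟨(nat_lit 0x2752752), (nat_lit 5), (nat_lit 0x1d49d482), (nat_lit 5)⟩))
(.nd (.lf ⟨(nat_lit 0x825), (nat_lit 2), (nat_lit 0x960), (nat_lit 2)⟩)
(.lf ⟨(nat_lit 600), (nat_lit 2), (nat_lit 0x609), (nat_lit 2)⟩)))
(.nd (.nd (.lf ⟨(nat_lit 0x3cd285285), (nat_lit 6), (nat_lit 0x2852853cd), (nat_lit 6)⟩)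
(.lf ⟨(nat_lit 0x10181f0607c40607c181f), (nat_lit 14), (nat_lit 0x10181f0607c40607c181f), (nat_lit 14)⟩))
(.lf ⟨(nat_lit 0x414), (nat_lit 2), (nat_lit 0x510), (nat_lit 2)⟩))))
(.nd (.nd (.nd (.nd (.lf ⟨(nat_lit 0x143143), (nat_lit 4), (nat_lit 0xc50c5), (nat_lit 4)⟩)
(.lf ⟨(nat_lit 0x4cc25324c4cc25324c), (nat_lit 12), (nat_lit 0), (nat_lit 0)⟩))
(.nd (.lf ⟨(nat_lit 0x1c35c75c31c35c75c3), (nat_lit 12), (nat_lit 0), (nat_lit 0)⟩)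
(.lf ⟨(nat_lit 0x1b8e56e79633ca3ca), (nat_lit 11), (nat_lit 0x251251), (nat_lit 4)⟩)))
(.nd (.nd (.lf ⟨(nat_lit 0x9c79e71e7), (nat_lit 6), (nat_lit 0), (nat_lit 0)⟩)
(.lf ⟨(nat_lit 0x195ca), (nat_lit 3), (nat_lit 0x207a021b81e8086ca657), (nat_lit 13)⟩))
(.nd (.lf ⟨(nat_lit 0x41c), (nat_lit 2), (nat_lit 0x710), (nat_lit 2)⟩)
(.lf ⟨(nat_lit 0x24e28f), (nat_lit 4), (nat_lit 0x28f28938a), (nat_lit 6)⟩))))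
(.nd (.nd (.nd (.lf ⟨(nat_lit 91), (nat_lit 2), (nat_lit 0x15b445441), (nat_lit 6)⟩)
(.lf ⟨(nat_lit 0x26912512), (nat_lit 5), (nat_lit 0x1921c6487), (nat_lit 6)⟩))
(.nd (.lf ⟨(nat_lit 0x61a), (nat_lit 2), (nat_lit 0x698), (nat_lit 2)⟩)
(.lf ⟨(nat_lit 0x184544204544206115108115108), (nat_lit 18), (nat_lit 0x184544204544206115108115108), (nat_lit 18)⟩)))
(.nd (.nd (.lf ⟨(nat_lit 0), (nat_lit 0), (nat_lit 585), (nat_lit 2)⟩)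
(.lf ⟨(nat_lit 0x23d03c6406), (nat_lit 7), (nat_lit 0x173d05cf41740f4173cf40f190182), (nat_lit 19)⟩))
(.lf ⟨(nat_lit 0x640b), (nat_lit 3), (nat_lit 0x102d0190), (nat_lit 5)⟩)))))
(.nd (.nd (.nd (.nd (.nd (.lf ⟨(nat_lit 0x56056), (nat_lit 4), (nat_lit 0x581581), (nat_lit 4)⟩)
(.lf ⟨(nat_lit 0), (nat_lit 0), (nat_lit 0x944c2513), (nat_lit 6)⟩))
(.nd (.lf ⟨(nat_lit 0xa5c5), (nat_lit 3), (nat_lit 0xa5de6ca5d714a), (nat_lit 9)⟩)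
(.lf ⟨(nat_lit 593), (nat_lit 2), (nat_lit 0x6d18e56ca3cd28f349), (nat_lit 12)⟩)))
(.nd (.nd (.lf ⟨(nat_lit 522), (nat_lit 2), (nat_lit 0x1d288), (nat_lit 3)⟩)
(.lf ⟨(nat_lit 0x559), (nat_lit 2), (nat_lit 0x655), (nat_lit 2)⟩))
(.nd (.lf ⟨(nat_lit 0x1681f), (nat_lit 3), (nat_lit 0x207d6), (nat_lit 3)⟩)
(.lf ⟨(nat_lit 0x622), (nat_lit 2), (nat_lit 0x898), (nat_lit 2)⟩))))
(.nd (.nd (.nd (.lf ⟨(nat_lit 72), (nat_lit 2), (nat_lit 513), (nat_lit 2)⟩)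
(.lf ⟨(nat_lit 0x549d), (nat_lit 3), (nat_lit 0x12752152), (nat_lit 5)⟩))
(.nd (.lf ⟨(nat_lit 326), (nat_lit 2), (nat_lit 0xb50c2d350b4c71931cb305), (nat_lit 15)⟩)
(.lf ⟨(nat_lit 0x28c20c28c20c), (nat_lit 8), (nat_lit 0x28c20c28c20c), (nat_lit 8)⟩)))
(.nd (.nd (.lf ⟨(nat_lit 0x1543071852d41c6), (nat_lit 10), (nat_lit 0x143143), (nat_lit 4)⟩)
(.lf ⟨(nat_lit 0xb38d), (nat_lit 3), (nat_lit 0xc38d38d30d2ce), (nat_lit 9)⟩))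
(.lf ⟨(nat_lit 0x54a54a), (nat_lit 4), (nat_lit 0x295295), (nat_lit 4)⟩))))
(.nd (.nd (.nd (.nd (.lf ⟨(nat_lit 0x10a0c110a0c1), (nat_lit 8), (nat_lit 0x4a0c404a0c4), (nat_lit 8)⟩)
(.lf ⟨(nat_lit 0x11513), (nat_lit 3), (nat_lit 0x144d1), (nat_lit 3)⟩))
(.nd (.lf ⟨(nat_lit 0x10b10b), (nat_lit 4), (nat_lit 0x10b10b), (nat_lit 4)⟩)
(.lf ⟨(nat_lit 283), (nat_lit 2), (nat_lit 0x8e76cf28f284), (nat_lit 8)⟩)))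
(.nd (.nd (.lf ⟨(nat_lit 841), (nat_lit 2), (nat_lit 0x5d93c525764f24524d), (nat_lit 12)⟩)
(.lf ⟨(nat_lit 660), (nat_lit 2), (nat_lit 0x50a), (nat_lit 2)⟩))
(.nd (.lf ⟨(nat_lit 0x4a5), (nat_lit 2), (nat_lit 0x9607a0792), (nat_lit 6)⟩)
(.lf ⟨(nat_lit 0), (nat_lit 0), (nat_lit 0xe79502102039e5408408), (nat_lit 14)⟩))))
(.nd (.nd (.nd (.lf ⟨(nat_lit 87), (nat_lit 2), (nat_lit 0x5c524534814d2173c524814815934914964f24564964815934964814f14914d2053485cf14920520564d2452593c915925920564d2592053c1), (nat_lit 76)⟩)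
(.lf ⟨(nat_lit 0x20c213), (nat_lit 4), (nat_lit 0x4c8308), (nat_lit 4)⟩))
(.nd (.lf ⟨(nat_lit 0x1d11c7447), (nat_lit 6), (nat_lit 0), (nat_lit 0)⟩)
(.lf ⟨(nat_lit 0x18826327809309), (nat_lit 9), (nat_lit 0x2098c9e024c258), (nat_lit 9)⟩)))
(.nd (.nd (.lf ⟨(nat_lit 0x1df1cd21f3487c87c87c77c73487cd21f21f21f), (nat_lit 26), (nat_lit 0x1df1cd21f3487c87c87c77c73487cd21f21f21f), (nat_lit 26)⟩)
(.lf ⟨(nat_lit 0x5289a485485692), (nat_lit 10), (nat_lit 0x4a269215215a481), (nat_lit 10)⟩))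
(.lf ⟨(nat_lit 0x60f54f657), (nat_lit 6), (nat_lit 0x65760f54f), (nat_lit 6)⟩)))))))))
(.nd (.nd (.nd (.nd (.nd (.nd (.nd (.nd (.nd (.lf ⟨(nat_lit 8), (nat_lit 1), (nat_lit 0x44044), (nat_lit 4)⟩)
(.lf ⟨(nat_lit 0x65065065065), (nat_lit 8), (nat_lit 0x65065065065), (nat_lit 8)⟩))
(.nd (.lf ⟨(nat_lit 0x1c2502507094094), (nat_lit 10), (nat_lit 0x1c2502507094094), (nat_lit 10)⟩)
(.lf ⟨(nat_lit 597), (nat_lit 2), (nat_lit 0x549), (nat_lit 2)⟩)))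
(.nd (.nd (.lf ⟨(nat_lit 270), (nat_lit 2), (nat_lit 0xe744), (nat_lit 3)⟩)
(.lf ⟨(nat_lit 0x679b), (nat_lit 3), (nat_lit 0x1e6d44ca513286), (nat_lit 9)⟩))
(.nd (.lf ⟨(nat_lit 0x28f34a3cd), (nat_lit 6), (nat_lit 0x28f34a3cd), (nat_lit 6)⟩)
(.lf ⟨(nat_lit 0x930a), (nat_lit 3), (nat_lit 0x80c28c24c), (nat_lit 6)⟩))))
(.nd (.nd (.nd (.lf ⟨(nat_lit 0x1c31021c3102), (nat_lit 8), (nat_lit 0x841c30841c3), (nat_lit 8)⟩)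
(.lf ⟨(nat_lit 0xc275c09d70309d70275c), (nat_lit 14), (nat_lit 0xc275c09d70309d70275c), (nat_lit 14)⟩))
(.nd (.lf ⟨(nat_lit 0x28d28d), (nat_lit 4), (nat_lit 0x34a34a), (nat_lit 4)⟩)
(.lf ⟨(nat_lit 276), (nat_lit 2), (nat_lit 0x269206d24564987589dd4569636d64987589dd45695148f3a33cd4509db95245228f8db94a3e334a24e2ca24b1c6407184), (nat_lit 65)⟩)))
(.nd (.nd (.lf ⟨(nat_lit 0x3482cd20b20b20b3482cd20b20b20b), (nat_lit 20), (nat_lit 0), (nat_lit 0)⟩)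
(.lf ⟨(nat_lit 0x9452), (nat_lit 3), (nat_lit 0x11491251), (nat_lit 5)⟩))
(.nd (.lf ⟨(nat_lit 0x5de), (nat_lit 2), (nat_lit 0x65e657), (nat_lit 4)⟩)
(.lf ⟨(nat_lit 528), (nat_lit 2), (nat_lit 0x40f28f288), (nat_lit 6)⟩)))))
(.nd (.nd (.nd (.nd (.lf ⟨(nat_lit 0x965), (nat_lit 2), (nat_lit 0), (nat_lit 0)⟩)
(.lf ⟨(nat_lit 0x134b34b), (nat_lit 5), (nat_lit 0xd2cd2c1), (nat_lit 5)⟩))
(.nd (.lf ⟨(nat_lit 0x2972942945ca50a50a5ca50a517294294), (nat_lit 22), (nat_lit 0x2972942945ca50a50a5ca50a517294294), (nat_lit 22)⟩)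
(.lf ⟨(nat_lit 731), (nat_lit 2), (nat_lit 0x6cb), (nat_lit 2)⟩)))
(.nd (.nd (.lf ⟨(nat_lit 224), (nat_lit 2), (nat_lit 0x8104878102891c91ca1df483), (nat_lit 16)⟩)
(.lf ⟨(nat_lit 405), (nat_lit 2), (nat_lit 0x38f38f38f40f54f40f38f38f386), (nat_lit 18)⟩))
(.nd (.lf ⟨(nat_lit 928), (nat_lit 2), (nat_lit 0x80e), (nat_lit 2)⟩)
(.lf ⟨(nat_lit 0x55b), (nat_lit 2), (nat_lit 0x69b59a595), (nat_lit 6)⟩))))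
(.nd (.nd (.nd (.lf ⟨(nat_lit 159), (nat_lit 2), (nat_lit 0x29229f48a0df49f48a7d229f48a0c2), (nat_lit 20)⟩)
(.lf ⟨(nat_lit 0x3207cc81f), (nat_lit 6), (nat_lit 0x1cc24c247309309), (nat_lit 10)⟩))
(.nd (.lf ⟨(nat_lit 0x3c918f189), (nat_lit 6), (nat_lit 0x49189181246246), (nat_lit 10)⟩)
(.lf ⟨(nat_lit 0x273c938a3ca24e), (nat_lit 9), (nat_lit 0x25138944e), (nat_lit 6)⟩)))
(.nd (.nd (.lf ⟨(nat_lit 0x18109c74271d18109c74271d), (nat_lit 16), (nat_lit 0x18109c74271d18109c74271d), (nat_lit 16)⟩)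
(.lf ⟨(nat_lit 406), (nat_lit 2), (nat_lit 0x5954914913d03d53d03c6), (nat_lit 14)⟩))
(.lf ⟨(nat_lit 0x21f595), (nat_lit 4), (nat_lit 0x7d655f21f), (nat_lit 6)⟩)))))
(.nd (.nd (.nd (.nd (.nd (.lf ⟨(nat_lit 73), (nat_lit 2), (nat_lit 0xf241), (nat_lit 3)⟩)
(.lf ⟨(nat_lit 0x55d), (nat_lit 2), (nat_lit 0x61d615), (nat_lit 4)⟩))
(.nd (.lf ⟨(nat_lit 0x66d1), (nat_lit 3), (nat_lit 0x1b45644b44e2ce196), (nat_lit 11)⟩)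
(.lf ⟨(nat_lit 0xc2e6), (nat_lit 3), (nat_lit 0x2630b), (nat_lit 3)⟩)))
(.nd (.nd (.lf ⟨(nat_lit 0x91041091041), (nat_lit 8), (nat_lit 0x51042051042), (nat_lit 8)⟩)
(.lf ⟨(nat_lit 0x416), (nat_lit 2), (nat_lit 0x590), (nat_lit 2)⟩))
(.nd (.lf ⟨(nat_lit 0x1607c581f), (nat_lit 6), (nat_lit 0x1607c581f), (nat_lit 6)⟩)
(.lf ⟨(nat_lit 0x1e696551), (nat_lit 5), (nat_lit 0x1179a595), (nat_lit 5)⟩))))
(.nd (.nd (.nd (.lf ⟨(nat_lit 0x10d10d), (nat_lit 4), (nat_lit 0x344344), (nat_lit 4)⟩)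
(.lf ⟨(nat_lit 0x959), (nat_lit 2), (nat_lit 0x665), (nat_lit 2)⟩))
(.nd (.lf ⟨(nat_lit 95), (nat_lit 2), (nat_lit 0x899f21f2267c899f7c1), (nat_lit 13)⟩)
(.lf ⟨(nat_lit 0x5e2), (nat_lit 2), (nat_lit 0x897), (nat_lit 2)⟩)))
(.nd (.nd (.lf ⟨(nat_lit 412), (nat_lit 2), (nat_lit 0x706), (nat_lit 2)⟩)
(.lf ⟨(nat_lit 862), (nat_lit 2), (nat_lit 0x78d), (nat_lit 2)⟩))
(.lf ⟨(nat_lit 0xa5d2), (nat_lit 3), (nat_lit 0x12297), (nat_lit 3)⟩))))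
(.nd (.nd (.nd (.nd (.lf ⟨(nat_lit 0x1c41c4), (nat_lit 4), (nat_lit 0x107107), (nat_lit 4)⟩)
(.lf ⟨(nat_lit 0x4cf), (nat_lit 2), (nat_lit 0x5cf4cc5cf4cf30f3d3), (nat_lit 12)⟩))
(.nd (.lf ⟨(nat_lit 0x173c70d73c70d8), (nat_lit 9), (nat_lit 0x83603083603), (nat_lit 8)⟩)
(.lf ⟨(nat_lit 0x406406), (nat_lit 4), (nat_lit 0xda0da), (nat_lit 4)⟩)))
(.nd (.nd (.lf ⟨(nat_lit 0x5228148a), (nat_lit 6), (nat_lit 0x48a052281), (nat_lit 6)⟩)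
(.lf ⟨(nat_lit 0), (nat_lit 0), (nat_lit 0x90190182406406), (nat_lit 10)⟩))
(.nd (.lf ⟨(nat_lit 0x11698), (nat_lit 3), (nat_lit 0x1a611), (nat_lit 3)⟩)
(.lf ⟨(nat_lit 550), (nat_lit 2), (nat_lit 0x988), (nat_lit 2)⟩))))
(.nd (.nd (.nd (.lf ⟨(nat_lit 158), (nat_lit 2), (nat_lit 0x15e485482), (nat_lit 6)⟩)
(.lf ⟨(nat_lit 0x48719f19f48719f19f), (nat_lit 12), (nat_lit 0x48719f19f48719f19f), (nat_lit 12)⟩))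
(.nd (.lf ⟨(nat_lit 22), (nat_lit 1), (nat_lit 0x8e08e), (nat_lit 4)⟩)
(.lf ⟨(nat_lit 0x9a4), (nat_lit 2), (nat_lit 0x486486), (nat_lit 4)⟩)))
(.nd (.nd (.lf ⟨(nat_lit 0x21075c41d70841d71075c), (nat_lit 14), (nat_lit 0x21075c41d70841d71075c), (nat_lit 14)⟩)
(.lf ⟨(nat_lit 0xc74494474494431d12511d1251), (nat_lit 18), (nat_lit 0xc74494474494431d12511d1251), (nat_lit 18)⟩))
(.lf ⟨(nat_lit 415), (nat_lit 2), (nat_lit 0x44e4117ce40b40b406), (nat_lit 12)⟩))))))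
(.nd (.nd (.nd (.nd (.nd (.nd (.lf ⟨(nat_lit 0x42042), (nat_lit 4), (nat_lit 0x81081), (nat_lit 4)⟩)
(.lf ⟨(nat_lit 0x4d4), (nat_lit 2), (nat_lit 0x513), (nat_lit 2)⟩))
(.nd (.lf ⟨(nat_lit 98), (nat_lit 2), (nat_lit 0x885685681), (nat_lit 6)⟩)
(.lf ⟨(nat_lit 0x51b), (nat_lit 2), (nat_lit 0x6d4), (nat_lit 2)⟩)))
(.nd (.nd (.lf ⟨(nat_lit 0x1c20811c2081), (nat_lit 8), (nat_lit 0x421c20421c2), (nat_lit 8)⟩)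
(.lf ⟨(nat_lit 0x759), (nat_lit 2), (nat_lit 0x65d), (nat_lit 2)⟩))
(.nd (.lf ⟨(nat_lit 0x327826), (nat_lit 4), (nat_lit 0x99f9df320), (nat_lit 6)⟩)
(.lf ⟨(nat_lit 0x3831ce0c7), (nat_lit 6), (nat_lit 0x3831ce0c7), (nat_lit 6)⟩))))
(.nd (.nd (.nd (.lf ⟨(nat_lit 0x201188046), (nat_lit 6), (nat_lit 0x188046201), (nat_lit 6)⟩)
(.lf ⟨(nat_lit 0), (nat_lit 0), (nat_lit 0x15d15d), (nat_lit 4)⟩))
(.nd (.lf ⟨(nat_lit 24), (nat_lit 1), (nat_lit 0x3c33c3), (nat_lit 4)⟩)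
(.lf ⟨(nat_lit 0x18a12478a12495e18a12478a12495e), (nat_lit 20), (nat_lit 0x18a12478a12495e18a12478a12495e), (nat_lit 20)⟩)))
(.nd (.nd (.lf ⟨(nat_lit 392), (nat_lit 2), (nat_lit 0x75c206), (nat_lit 4)⟩)
(.lf ⟨(nat_lit 0x863c63c218f18f), (nat_lit 10), (nat_lit 0x863c63c218f18f), (nat_lit 10)⟩))
(.lf ⟨(nat_lit 0x10254254), (nat_lit 5), (nat_lit 0x9509510), (nat_lit 5)⟩))))
(.nd (.nd (.nd (.nd (.lf ⟨(nat_lit 76), (nat_lit 2), (nat_lit 0x1cc1cc1cc1c1), (nat_lit 8)⟩)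
(.lf ⟨(nat_lit 0x10b9019049019042e40641240641042e406412406410b901904901904), (nat_lit 38), (nat_lit 0x10b9019049019042e40641240641042e406412406410b901904901904), (nat_lit 38)⟩))
(.nd (.lf ⟨(nat_lit 0x75c), (nat_lit 2), (nat_lit 0x381381), (nat_lit 4)⟩)
(.lf ⟨(nat_lit 280), (nat_lit 2), (nat_lit 0x9da6084279526a795d49a9e549a9e548841b9e54636d87586d646395d6d87585a79633ca3ca24e8e56e79633ca3ca24e9db9e58cf28f284), (nat_lit 74)⟩)))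
(.nd (.nd (.lf ⟨(nat_lit 0x7df), (nat_lit 2), (nat_lit 0), (nat_lit 0)⟩)
(.lf ⟨(nat_lit 0x403), (nat_lit 2), (nat_lit 208), (nat_lit 2)⟩))
(.nd (.lf ⟨(nat_lit 0x19698), (nat_lit 3), (nat_lit 0x1a619), (nat_lit 3)⟩)
(.lf ⟨(nat_lit 0x18963), (nat_lit 3), (nat_lit 0x258d8), (nat_lit 3)⟩))))
(.nd (.nd (.nd (.lf ⟨(nat_lit 788), (nat_lit 2), (nat_lit 0x50c), (nat_lit 2)⟩)
(.lf ⟨(nat_lit 0x1144c4513), (nat_lit 6), (nat_lit 0x1144c4513), (nat_lit 6)⟩))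
(.nd (.lf ⟨(nat_lit 0x4a50a30a50a30129428c29428c), (nat_lit 18), (nat_lit 0x4a50a30a50a30129428c29428c), (nat_lit 18)⟩)
(.lf ⟨(nat_lit 277), (nat_lit 2), (nat_lit 0x156a7690963389389210204), (nat_lit 15)⟩)))
(.nd (.nd (.lf ⟨(nat_lit 343), (nat_lit 2), (nat_lit 0x5c5), (nat_lit 2)⟩)
(.lf ⟨(nat_lit 0x8698), (nat_lit 3), (nat_lit 0x1a608), (nat_lit 3)⟩))
(.lf ⟨(nat_lit 0x55d), (nat_lit 2), (nat_lit 0x59d595), (nat_lit 4)⟩)))))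
(.nd (.nd (.nd (.nd (.nd (.lf ⟨(nat_lit 0x69a), (nat_lit 2), (nat_lit 0), (nat_lit 0)⟩)
(.lf ⟨(nat_lit 0x4d1cd1c1347347), (nat_lit 10), (nat_lit 0x4d1cd1c1347347), (nat_lit 10)⟩))
(.nd (.lf ⟨(nat_lit 203), (nat_lit 2), (nat_lit 0x81028944e2d028944e51138744e1c3), (nat_lit 20)⟩)
(.lf ⟨(nat_lit 0x2079b), (nat_lit 3), (nat_lit 0x1e6e0), (nat_lit 3)⟩)))
(.nd (.nd (.lf ⟨(nat_lit 332), (nat_lit 2), (nat_lit 773), (nat_lit 2)⟩)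
(.lf ⟨(nat_lit 0x944d), (nat_lit 3), (nat_lit 0x11351251), (nat_lit 5)⟩))
(.nd (.lf ⟨(nat_lit 0x390390), (nat_lit 4), (nat_lit 0x40e40e), (nat_lit 4)⟩)
(.lf ⟨(nat_lit 0x6a7), (nat_lit 2), (nat_lit 0x9da), (nat_lit 2)⟩))))
(.nd (.nd (.nd (.lf ⟨(nat_lit 0x284183284183), (nat_lit 8), (nat_lit 0x183284183284), (nat_lit 8)⟩)
(.lf ⟨(nat_lit 0x9488488), (nat_lit 5), (nat_lit 0x12212209), (nat_lit 5)⟩))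
(.nd (.lf ⟨(nat_lit 147), (nat_lit 2), (nat_lit 0x4c2), (nat_lit 2)⟩)
(.lf ⟨(nat_lit 0x3673ca3ca), (nat_lit 6), (nat_lit 0x9cf28f28d), (nat_lit 6)⟩)))
(.nd (.nd (.lf ⟨(nat_lit 0x64915764f2455cf), (nat_lit 10), (nat_lit 0x8f08f), (nat_lit 4)⟩)
(.lf ⟨(nat_lit 0x96542595), (nat_lit 6), (nat_lit 0x96542595), (nat_lit 6)⟩))
(.lf ⟨(nat_lit 666), (nat_lit 2), (nat_lit 0x69044e41138a), (nat_lit 8)⟩))))
(.nd (.nd (.nd (.nd (.lf ⟨(nat_lit 0x201081201081), (nat_lit 8), (nat_lit 0x42201042201), (nat_lit 8)⟩)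
(.lf ⟨(nat_lit 0x32a690a9a4), (nat_lit 7), (nat_lit 0xa9a42a6903), (nat_lit 7)⟩))
(.nd (.lf ⟨(nat_lit 0x49c), (nat_lit 2), (nat_lit 0x70a2dc28b28b28b48a2d228b28b28b712), (nat_lit 22)⟩)
(.lf ⟨(nat_lit 0x32781a), (nat_lit 4), (nat_lit 0x99a98c9e0), (nat_lit 6)⟩)))
(.nd (.nd (.lf ⟨(nat_lit 0x2c72c7), (nat_lit 4), (nat_lit 0x2c21cb087), (nat_lit 6)⟩)
(.lf ⟨(nat_lit 0x12698), (nat_lit 3), (nat_lit 0x1a612), (nat_lit 3)⟩))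
(.nd (.lf ⟨(nat_lit 0), (nat_lit 0), (nat_lit 0xa00a0), (nat_lit 4)⟩)
(.lf ⟨(nat_lit 8), (nat_lit 1), (nat_lit 0x48101204), (nat_lit 6)⟩))))
(.nd (.nd (.nd (.lf ⟨(nat_lit 282), (nat_lit 2), (nat_lit 0x204086909e0204), (nat_lit 9)⟩)
(.lf ⟨(nat_lit 99), (nat_lit 2), (nat_lit 0x75e7599e581e81e7595d235129734548a3488de75e75b9e579d79128d288141), (nat_lit 42)⟩))
(.nd (.lf ⟨(nat_lit 0x698), (nat_lit 2), (nat_lit 0x246246), (nat_lit 4)⟩)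
(.lf ⟨(nat_lit 0x7a3), (nat_lit 2), (nat_lit 0x8de), (nat_lit 2)⟩)))
(.nd (.nd (.lf ⟨(nat_lit 0x1c17e005f80705f8017e0), (nat_lit 14), (nat_lit 0x1c17e005f80705f8017e0), (nat_lit 14)⟩)
(.lf ⟨(nat_lit 0x1e49a48d), (nat_lit 5), (nat_lit 0xd792692), (nat_lit 5)⟩))
(.lf ⟨(nat_lit 0x8452445485), (nat_lit 7), (nat_lit 0x11491152148), (nat_lit 7)⟩)))))))
(.nd (.nd (.nd (.nd (.nd (.nd (.nd (.lf ⟨(nat_lit 24), (nat_lit 1), (nat_lit 0xcf0cf), (nat_lit 4)⟩)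
(.lf ⟨(nat_lit 0x2860607a07a781e9e07910607a07a781e9e079118181e81e9e07a781e44181e81e9e07a781e44a18181e81e9e07a781e44181e81e9e07a781e4460607a07a781e9e07910607a07a781e9e0791), (nat_lit 102), (nat_lit 0x2860607a07a781e9e07910607a07a781e9e079118181e81e9e07a781e44181e81e9e07a781e44a18181e81e9e07a781e44181e81e9e07a781e4460607a07a781e9e07910607a07a781e9e0791), (nat_lit 102)⟩))
(.nd (.lf ⟨(nat_lit 0x207687207687), (nat_lit 8), (nat_lit 0x207687207687), (nat_lit 8)⟩)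
(.lf ⟨(nat_lit 0x152150), (nat_lit 4), (nat_lit 0x7928a07da5d28a07de5d2692405485), (nat_lit 20)⟩)))
(.nd (.nd (.lf ⟨(nat_lit 0x3d03d0), (nat_lit 4), (nat_lit 0x40f40f), (nat_lit 4)⟩)
(.lf ⟨(nat_lit 0x119a4), (nat_lit 3), (nat_lit 0x26911), (nat_lit 3)⟩))
(.nd (.lf ⟨(nat_lit 0x4910c10c24430430124430430910c10c), (nat_lit 22), (nat_lit 0x4910c10c24430430124430430910c10c), (nat_lit 22)⟩)
(.lf ⟨(nat_lit 0), (nat_lit 0), (nat_lit 0x11038938921020440e24e248408), (nat_lit 18)⟩))))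
(.nd (.nd (.nd (.lf ⟨(nat_lit 0x3420cd083), (nat_lit 6), (nat_lit 0xcd083342), (nat_lit 6)⟩)
(.lf ⟨(nat_lit 0x75c513), (nat_lit 4), (nat_lit 0x51375c), (nat_lit 4)⟩))
(.nd (.lf ⟨(nat_lit 0x454d), (nat_lit 3), (nat_lit 0x29954a55955954d115), (nat_lit 12)⟩)
(.lf ⟨(nat_lit 0x498), (nat_lit 2), (nat_lit 0x612), (nat_lit 2)⟩)))
(.nd (.nd (.lf ⟨(nat_lit 394), (nat_lit 2), (nat_lit 0x1d29c746), (nat_lit 5)⟩)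
(.lf ⟨(nat_lit 214), (nat_lit 2), (nat_lit 0xc2ca30b6d24522a66d1583), (nat_lit 15)⟩))
(.lf ⟨(nat_lit 990), (nat_lit 2), (nat_lit 0x78f), (nat_lit 2)⟩))))
(.nd (.nd (.nd (.nd (.lf ⟨(nat_lit 0x101101), (nat_lit 4), (nat_lit 0x44044), (nat_lit 4)⟩)
(.lf ⟨(nat_lit 0xa40640a4064), (nat_lit 8), (nat_lit 0xa40640a4064), (nat_lit 8)⟩))
(.nd (.lf ⟨(nat_lit 0x460e20e2181183883886), (nat_lit 14), (nat_lit 0x460e20e2181183883886), (nat_lit 14)⟩)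
(.lf ⟨(nat_lit 462), (nat_lit 2), (nat_lit 0x163a630b28c59245244b287), (nat_lit 15)⟩)))
(.nd (.nd (.lf ⟨(nat_lit 151), (nat_lit 2), (nat_lit 0x52481481573c52481481593491593cd3c52481492052573c2), (nat_lit 33)⟩)
(.lf ⟨(nat_lit 0xd452), (nat_lit 3), (nat_lit 0x1d49d491491351), (nat_lit 9)⟩))
(.nd (.lf ⟨(nat_lit 0x69c), (nat_lit 2), (nat_lit 0x71a), (nat_lit 2)⟩)
(.lf ⟨(nat_lit 0x565), (nat_lit 2), (nat_lit 0x955), (nat_lit 2)⟩))))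
(.nd (.nd (.nd (.lf ⟨(nat_lit 0x824d), (nat_lit 3), (nat_lit 0x9349209), (nat_lit 5)⟩)
(.lf ⟨(nat_lit 0x6a5), (nat_lit 2), (nat_lit 0x9e581e81e6a7), (nat_lit 8)⟩))
(.nd (.lf ⟨(nat_lit 0x1d228c48a30748a31228c), (nat_lit 14), (nat_lit 0x1d228c48a30748a31228c), (nat_lit 14)⟩)
(.lf ⟨(nat_lit 0x627), (nat_lit 2), (nat_lit 0x6a7698), (nat_lit 4)⟩)))
(.nd (.nd (.lf ⟨(nat_lit 99), (nat_lit 2), (nat_lit 0x6573486c545228d21228d22375b45228d212285741), (nat_lit 28)⟩)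
(.lf ⟨(nat_lit 532), (nat_lit 2), (nat_lit 0x508), (nat_lit 2)⟩))
(.lf ⟨(nat_lit 477), (nat_lit 2), (nat_lit 0x750296296495490547), (nat_lit 12)⟩)))))
(.nd (.nd (.nd (.nd (.nd (.lf ⟨(nat_lit 0xcd0cd), (nat_lit 4), (nat_lit 0x343343), (nat_lit 4)⟩)
(.lf ⟨(nat_lit 0x2513), (nat_lit 3), (nat_lit 0x144c2), (nat_lit 3)⟩))
(.nd (.lf ⟨(nat_lit 0x452452), (nat_lit 4), (nat_lit 0x491491), (nat_lit 4)⟩)
(.lf ⟨(nat_lit 0x4a6), (nat_lit 2), (nat_lit 0x992), (nat_lit 2)⟩)))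
(.nd (.nd (.lf ⟨(nat_lit 468), (nat_lit 2), (nat_lit 0x507), (nat_lit 2)⟩)
(.lf ⟨(nat_lit 0x44f2513c9449449), (nat_lit 10), (nat_lit 0x51251241449449), (nat_lit 10)⟩))
(.nd (.lf ⟨(nat_lit 0x4d7), (nat_lit 2), (nat_lit 0x5d3), (nat_lit 2)⟩)
(.lf ⟨(nat_lit 0x624), (nat_lit 2), (nat_lit 0x6a4698), (nat_lit 4)⟩))))
(.nd (.nd (.nd (.lf ⟨(nat_lit 0x4031900c6), (nat_lit 6), (nat_lit 0x1900c6403), (nat_lit 6)⟩)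
(.lf ⟨(nat_lit 0x48848875274f48f), (nat_lit 10), (nat_lit 0x75274f48f488488), (nat_lit 10)⟩))
(.nd (.lf ⟨(nat_lit 276), (nat_lit 2), (nat_lit 0x44e4905124144905101e69064113929a41901c4), (nat_lit 26)⟩)
(.lf ⟨(nat_lit 614), (nat_lit 2), (nat_lit 0x9e6327309), (nat_lit 6)⟩)))
(.nd (.nd (.lf ⟨(nat_lit 0x31e49a), (nat_lit 4), (nat_lit 0x792692312), (nat_lit 6)⟩)
(.lf ⟨(nat_lit 982), (nat_lit 2), (nat_lit 0x58f), (nat_lit 2)⟩))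
(.lf ⟨(nat_lit 0x1581f), (nat_lit 3), (nat_lit 0x2059f595), (nat_lit 5)⟩))))
(.nd (.nd (.nd (.nd (.lf ⟨(nat_lit 159), (nat_lit 2), (nat_lit 0x29229f48a1c31df49f48a7d229f48a0c2), (nat_lit 22)⟩)
(.lf ⟨(nat_lit 0x712), (nat_lit 2), (nat_lit 0x2a690a9a449c), (nat_lit 8)⟩))
(.nd (.lf ⟨(nat_lit 0x48a2d228b28b28b), (nat_lit 10), (nat_lit 0x8a2ca2c228b28b), (nat_lit 10)⟩)
(.lf ⟨(nat_lit 0), (nat_lit 0), (nat_lit 0x254254), (nat_lit 4)⟩)))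
(.nd (.nd (.lf ⟨(nat_lit 214), (nat_lit 2), (nat_lit 0x2040a25d5904904902891dd387383), (nat_lit 19)⟩)
(.lf ⟨(nat_lit 0x6d1591406406), (nat_lit 8), (nat_lit 0x4064066d1591), (nat_lit 8)⟩))
(.nd (.lf ⟨(nat_lit 0x43c63c6), (nat_lit 5), (nat_lit 0xf18f184), (nat_lit 5)⟩)
(.lf ⟨(nat_lit 0x55e), (nat_lit 2), (nat_lit 0x795), (nat_lit 2)⟩))))
(.nd (.nd (.nd (.lf ⟨(nat_lit 522), (nat_lit 2), (nat_lit 0xa748), (nat_lit 3)⟩)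
(.lf ⟨(nat_lit 0), (nat_lit 0), (nat_lit 0x1195c4657), (nat_lit 6)⟩))
(.nd (.lf ⟨(nat_lit 0x998f266), (nat_lit 5), (nat_lit 0x266049981), (nat_lit 6)⟩)
(.lf ⟨(nat_lit 0x7a3), (nat_lit 2), (nat_lit 0x9e39de), (nat_lit 4)⟩)))
(.nd (.nd (.lf ⟨(nat_lit 924), (nat_lit 2), (nat_lit 0x70e), (nat_lit 2)⟩)
(.lf ⟨(nat_lit 0x2792692), (nat_lit 5), (nat_lit 0x4a269215215a49e49a482), (nat_lit 14)⟩))
(.lf ⟨(nat_lit 0x1149115215d), (nat_lit 7), (nat_lit 0x1d452445485), (nat_lit 7)⟩))))))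
(.nd (.nd (.nd (.nd (.nd (.nd (.lf ⟨(nat_lit 650), (nat_lit 2), (nat_lit 0), (nat_lit 0)⟩)
(.lf ⟨(nat_lit 0xf49d), (nat_lit 3), (nat_lit 0x127523d2), (nat_lit 5)⟩))
(.nd (.lf ⟨(nat_lit 0x7192406490), (nat_lit 7), (nat_lit 0x71141141c4504506490192407), (nat_lit 17)⟩)
(.lf ⟨(nat_lit 798), (nat_lit 2), (nat_lit 0x78c), (nat_lit 2)⟩)))
(.nd (.nd (.lf ⟨(nat_lit 155), (nat_lit 2), (nat_lit 0x15b142), (nat_lit 4)⟩)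
(.lf ⟨(nat_lit 0x9390210388), (nat_lit 7), (nat_lit 0x1039038e40840e209), (nat_lit 11)⟩))
(.nd (.lf ⟨(nat_lit 0x1581f), (nat_lit 3), (nat_lit 0x1681f595), (nat_lit 5)⟩)
(.lf ⟨(nat_lit 20), (nat_lit 1), (nat_lit 0x303303), (nat_lit 4)⟩))))
(.nd (.nd (.nd (.lf ⟨(nat_lit 0xd00c10d00c1), (nat_lit 8), (nat_lit 0x500c30500c3), (nat_lit 8)⟩)
(.lf ⟨(nat_lit 0x75274f48f75274f48f), (nat_lit 12), (nat_lit 0), (nat_lit 0)⟩))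
(.nd (.lf ⟨(nat_lit 101), (nat_lit 2), (nat_lit 0x948788781), (nat_lit 6)⟩)
(.lf ⟨(nat_lit 935), (nat_lit 2), (nat_lit 0x9ce), (nat_lit 2)⟩)))
(.nd (.nd (.lf ⟨(nat_lit 0), (nat_lit 0), (nat_lit 0x10a10a), (nat_lit 4)⟩)
(.lf ⟨(nat_lit 0xb75c), (nat_lit 3), (nat_lit 0x1d70b), (nat_lit 3)⟩))
(.lf ⟨(nat_lit 0xc40f40f), (nat_lit 5), (nat_lit 0x103d03cc), (nat_lit 5)⟩))))
(.nd (.nd (.nd (.nd (.lf ⟨(nat_lit 0x242242), (nat_lit 4), (nat_lit 0x89089), (nat_lit 4)⟩)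
(.lf ⟨(nat_lit 0x4cc25324c), (nat_lit 6), (nat_lit 0x8c24c242309309), (nat_lit 10)⟩))
(.nd (.lf ⟨(nat_lit 0), (nat_lit 0), (nat_lit 0xd70c35c3), (nat_lit 6)⟩)
(.lf ⟨(nat_lit 593), (nat_lit 2), (nat_lit 0x1b46395b9e58cf28f289), (nat_lit 13)⟩)))
(.nd (.nd (.lf ⟨(nat_lit 0x64d3c164d3c1), (nat_lit 8), (nat_lit 0x3c164d3c164d), (nat_lit 8)⟩)
(.lf ⟨(nat_lit 0x81e8086e07a021b), (nat_lit 10), (nat_lit 0x21e6c879b), (nat_lit 6)⟩))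
(.nd (.lf ⟨(nat_lit 0x44e406406), (nat_lit 6), (nat_lit 0x40640644e), (nat_lit 6)⟩)
(.lf ⟨(nat_lit 739), (nat_lit 2), (nat_lit 0x8cb), (nat_lit 2)⟩))))
(.nd (.nd (.nd (.lf ⟨(nat_lit 152), (nat_lit 2), (nat_lit 0x70d73c70d73c2), (nat_lit 9)⟩)
(.lf ⟨(nat_lit 0x2dd70b75c), (nat_lit 6), (nat_lit 0x18b20b2062c82c8), (nat_lit 10)⟩))
(.nd (.lf ⟨(nat_lit 0x61a), (nat_lit 2), (nat_lit 0x246246), (nat_lit 4)⟩)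
(.lf ⟨(nat_lit 0x115108115108), (nat_lit 8), (nat_lit 0x115108115108), (nat_lit 8)⟩)))
(.nd (.nd (.lf ⟨(nat_lit 0x44e), (nat_lit 2), (nat_lit 0x106106), (nat_lit 4)⟩)
(.lf ⟨(nat_lit 0), (nat_lit 0), (nat_lit 0x2573d05cf41740f4173c95cf4173d05d03d05cf), (nat_lit 26)⟩))
(.lf ⟨(nat_lit 989), (nat_lit 2), (nat_lit 0x74f), (nat_lit 2)⟩)))))
(.nd (.nd (.nd (.nd (.nd (.lf ⟨(nat_lit 210), (nat_lit 2), (nat_lit 0x1f483), (nat_lit 3)⟩)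
(.lf ⟨(nat_lit 0x75c), (nat_lit 2), (nat_lit 0x206206), (nat_lit 4)⟩))
(.nd (.lf ⟨(nat_lit 0xf7923d2), (nat_lit 5), (nat_lit 0x3c148f052), (nat_lit 6)⟩)
(.lf ⟨(nat_lit 0x14a10c2c430b28430b10c2c528430b10c2ca10c2c430b), (nat_lit 30), (nat_lit 0x14a10c2c430b28430b10c2c528430b10c2ca10c2c430b), (nat_lit 30)⟩)))
(.nd (.nd (.lf ⟨(nat_lit 91), (nat_lit 2), (nat_lit 0x6d1151141), (nat_lit 6)⟩)
(.lf ⟨(nat_lit 0x210210), (nat_lit 4), (nat_lit 0x408408), (nat_lit 4)⟩))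
(.nd (.lf ⟨(nat_lit 611), (nat_lit 2), (nat_lit 0x8c9), (nat_lit 2)⟩)
(.lf ⟨(nat_lit 0x7e2), (nat_lit 2), (nat_lit 0x89f), (nat_lit 2)⟩))))
(.nd (.nd (.nd (.lf ⟨(nat_lit 0x283244283244), (nat_lit 8), (nat_lit 0x244283244283), (nat_lit 8)⟩)
(.lf ⟨(nat_lit 99), (nat_lit 2), (nat_lit 0x75e7579e581e81e75235129734548a3488de75e75b49d49148a34a9607a07929c8141), (nat_lit 46)⟩))
(.nd (.lf ⟨(nat_lit 0x5417), (nat_lit 3), (nat_lit 0x105d0150), (nat_lit 5)⟩)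
(.lf ⟨(nat_lit 0x41b), (nat_lit 2), (nat_lit 0x6d0), (nat_lit 2)⟩)))
(.nd (.nd (.lf ⟨(nat_lit 224), (nat_lit 2), (nat_lit 0x803), (nat_lit 2)⟩)
(.lf ⟨(nat_lit 0x312452), (nat_lit 4), (nat_lit 0x491491311), (nat_lit 6)⟩))
(.lf ⟨(nat_lit 0x7c87c8), (nat_lit 4), (nat_lit 0x21f21f), (nat_lit 4)⟩))))
(.nd (.nd (.nd (.nd (.lf ⟨(nat_lit 0x108041108041), (nat_lit 8), (nat_lit 0x48044048044), (nat_lit 8)⟩)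
(.lf ⟨(nat_lit 0x1c513), (nat_lit 3), (nat_lit 0x144dc), (nat_lit 3)⟩))
(.nd (.lf ⟨(nat_lit 0), (nat_lit 0), (nat_lit 0x781786786786786781786786786786), (nat_lit 20)⟩)
(.lf ⟨(nat_lit 0x6409), (nat_lit 3), (nat_lit 0x1a609190), (nat_lit 5)⟩)))
(.nd (.nd (.lf ⟨(nat_lit 153), (nat_lit 2), (nat_lit 0x5d93c525764f245642), (nat_lit 12)⟩)
(.lf ⟨(nat_lit 0xa698), (nat_lit 3), (nat_lit 0x1a60a), (nat_lit 3)⟩))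
(.nd (.lf ⟨(nat_lit 0x21221e), (nat_lit 4), (nat_lit 0x788488), (nat_lit 4)⟩)
(.lf ⟨(nat_lit 88), (nat_lit 2), (nat_lit 0x9a460f30a30a3c1), (nat_lit 10)⟩))))
(.nd (.nd (.nd (.lf ⟨(nat_lit 93), (nat_lit 2), (nat_lit 0x741), (nat_lit 2)⟩)
(.lf ⟨(nat_lit 0x830d), (nat_lit 3), (nat_lit 0xc34c20c), (nat_lit 5)⟩))
(.nd (.lf ⟨(nat_lit 0xa352), (nat_lit 3), (nat_lit 0xd48d28d), (nat_lit 5)⟩)
(.lf ⟨(nat_lit 0xf826327809309), (nat_lit 9), (nat_lit 0x2098c9e024c24f), (nat_lit 9)⟩)))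
(.nd (.nd (.lf ⟨(nat_lit 0), (nat_lit 0), (nat_lit 0x877c70877c7), (nat_lit 8)⟩)
(.lf ⟨(nat_lit 0x7657), (nat_lit 3), (nat_lit 0x195c7), (nat_lit 3)⟩))
(.lf ⟨(nat_lit 0x183d53d1), (nat_lit 5), (nat_lit 0x1160f54f), (nat_lit 5)⟩))))))))
(.nd (.nd (.nd (.nd (.nd (.nd (.nd (.nd (.lf ⟨(nat_lit 16), (nat_lit 1), (nat_lit 0xc90c9), (nat_lit 4)⟩)
(.lf ⟨(nat_lit 0x81e81e9e07a781e), (nat_lit 10), (nat_lit 0x941965065), (nat_lit 6)⟩))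
(.nd (.lf ⟨(nat_lit 0x2439879870c90e61e61c3), (nat_lit 14), (nat_lit 0x2439879870c90e61e61c3), (nat_lit 14)⟩)
(.lf ⟨(nat_lit 0x6409), (nat_lit 3), (nat_lit 0x1440c40c69850f3103103c9190), (nat_lit 17)⟩)))
(.nd (.nd (.lf ⟨(nat_lit 279), (nat_lit 2), (nat_lit 0x3483c92053496481496481491593c4), (nat_lit 20)⟩)
(.lf ⟨(nat_lit 0x139a4), (nat_lit 3), (nat_lit 0x26913), (nat_lit 3)⟩))
(.nd (.lf ⟨(nat_lit 0x1d91d9), (nat_lit 4), (nat_lit 0x1d91d9), (nat_lit 4)⟩)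
(.lf ⟨(nat_lit 25), (nat_lit 1), (nat_lit 0x10d204348), (nat_lit 6)⟩))))
(.nd (.nd (.nd (.lf ⟨(nat_lit 0x204103204103), (nat_lit 8), (nat_lit 0xc42040c4204), (nat_lit 8)⟩)
(.lf ⟨(nat_lit 0xe14e153), (nat_lit 5), (nat_lit 0x13385385), (nat_lit 5)⟩))
(.nd (.lf ⟨(nat_lit 0x29528d), (nat_lit 4), (nat_lit 0x34a54a), (nat_lit 4)⟩)
(.lf ⟨(nat_lit 0x4a2), (nat_lit 2), (nat_lit 0x81f5e281f5d2), (nat_lit 8)⟩)))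
(.nd (.nd (.lf ⟨(nat_lit 0), (nat_lit 0), (nat_lit 0xca0ca), (nat_lit 4)⟩)
(.lf ⟨(nat_lit 0x5491), (nat_lit 3), (nat_lit 0x14452454445), (nat_lit 7)⟩))
(.lf ⟨(nat_lit 0x848f), (nat_lit 3), (nat_lit 0x123d2212), (nat_lit 5)⟩))))
(.nd (.nd (.nd (.nd (.lf ⟨(nat_lit 65), (nat_lit 2), (nat_lit 0), (nat_lit 0)⟩)
(.lf ⟨(nat_lit 0x14330b0cc2c50cc2c330b), (nat_lit 14), (nat_lit 0x14330b0cc2c50cc2c330b), (nat_lit 14)⟩))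
(.nd (.lf ⟨(nat_lit 0x491491), (nat_lit 4), (nat_lit 0x29b29b), (nat_lit 4)⟩)
(.lf ⟨(nat_lit 0xa3cd), (nat_lit 3), (nat_lit 0x9e53e33cd28f), (nat_lit 8)⟩)))
(.nd (.nd (.lf ⟨(nat_lit 262), (nat_lit 2), (nat_lit 0x75128819d38a204), (nat_lit 10)⟩)
(.lf ⟨(nat_lit 0x39a4), (nat_lit 3), (nat_lit 0x2691f45045f40b40b403), (nat_lit 13)⟩))
(.nd (.lf ⟨(nat_lit 0x75c), (nat_lit 2), (nat_lit 0x5138144e), (nat_lit 6)⟩)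
(.lf ⟨(nat_lit 0x764), (nat_lit 2), (nat_lit 0x91d), (nat_lit 2)⟩))))
(.nd (.nd (.nd (.lf ⟨(nat_lit 221), (nat_lit 2), (nat_lit 0xe20a75128818e20a18818a19c443), (nat_lit 19)⟩)
(.lf ⟨(nat_lit 0xf49a), (nat_lit 3), (nat_lit 0x126923d2), (nat_lit 5)⟩))
(.nd (.lf ⟨(nat_lit 0x640f), (nat_lit 3), (nat_lit 0xf406), (nat_lit 3)⟩)
(.lf ⟨(nat_lit 0x24450b1142c91142c450b), (nat_lit 14), (nat_lit 0x24450b1142c91142c450b), (nat_lit 14)⟩)))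
(.nd (.nd (.lf ⟨(nat_lit 148), (nat_lit 2), (nat_lit 0xb50c1851851c50d33072d43071461543072cc1543060d3302), (nat_lit 33)⟩)
(.lf ⟨(nat_lit 0x11493), (nat_lit 3), (nat_lit 0x124d2452), (nat_lit 5)⟩))
(.lf ⟨(nat_lit 149), (nat_lit 2), (nat_lit 0x54d1cd1c2), (nat_lit 6)⟩)))))
(.nd (.nd (.nd (.nd (.nd (.lf ⟨(nat_lit 0x492), (nat_lit 2), (nat_lit 0), (nat_lit 0)⟩)
(.lf ⟨(nat_lit 0x513), (nat_lit 2), (nat_lit 0x4b04b), (nat_lit 4)⟩))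
(.nd (.lf ⟨(nat_lit 267), (nat_lit 2), (nat_lit 0x44e2c66d645645644e246244), (nat_lit 16)⟩)
(.lf ⟨(nat_lit 0x1228c2ca30b), (nat_lit 7), (nat_lit 0xa30b28c2d2), (nat_lit 7)⟩)))
(.nd (.nd (.lf ⟨(nat_lit 670), (nat_lit 2), (nat_lit 0x79149148a), (nat_lit 6)⟩)
(.lf ⟨(nat_lit 0xd390210388), (nat_lit 7), (nat_lit 0xe40840e20d), (nat_lit 7)⟩))
(.nd (.lf ⟨(nat_lit 211), (nat_lit 2), (nat_lit 0x4c3), (nat_lit 2)⟩)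
(.lf ⟨(nat_lit 406), (nat_lit 2), (nat_lit 0x586), (nat_lit 2)⟩))))
(.nd (.nd (.nd (.lf ⟨(nat_lit 0x62682), (nat_lit 4), (nat_lit 0x2268289a062685), (nat_lit 9)⟩)
(.lf ⟨(nat_lit 0x275e75e), (nat_lit 5), (nat_lit 0x1d79d782), (nat_lit 5)⟩))
(.nd (.lf ⟨(nat_lit 0x18899f21f2267c899f), (nat_lit 12), (nat_lit 0x2267c87c899f2267c6), (nat_lit 12)⟩)
(.lf ⟨(nat_lit 0xa3ce), (nat_lit 3), (nat_lit 0xe28f), (nat_lit 3)⟩)))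
(.nd (.nd (.lf ⟨(nat_lit 0x1c81c8), (nat_lit 4), (nat_lit 0x207207), (nat_lit 4)⟩)
(.lf ⟨(nat_lit 405), (nat_lit 2), (nat_lit 0x3d03d53d03c6), (nat_lit 8)⟩))
(.lf ⟨(nat_lit 268), (nat_lit 2), (nat_lit 0x792696495304), (nat_lit 8)⟩))))
(.nd (.nd (.nd (.nd (.lf ⟨(nat_lit 0x283283), (nat_lit 4), (nat_lit 0), (nat_lit 0)⟩)
(.lf ⟨(nat_lit 0x50b29428b), (nat_lit 6), (nat_lit 0xcb28b2832ca2ca), (nat_lit 10)⟩))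
(.nd (.lf ⟨(nat_lit 0x35d8), (nat_lit 3), (nat_lit 0x176170d7), (nat_lit 5)⟩)
(.lf ⟨(nat_lit 276), (nat_lit 2), (nat_lit 0x9a481b4915924569e58db5924569e544e9d149128f8db9636cd44f4276e544f8db94a3e334a24e2ca24b1c6407184), (nat_lit 62)⟩)))
(.nd (.nd (.lf ⟨(nat_lit 87), (nat_lit 2), (nat_lit 0x176455d9245241), (nat_lit 9)⟩)
(.lf ⟨(nat_lit 0x6d159181f), (nat_lit 6), (nat_lit 0x81f6d1591), (nat_lit 6)⟩))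
(.nd (.lf ⟨(nat_lit 604), (nat_lit 2), (nat_lit 0x709), (nat_lit 2)⟩)
(.lf ⟨(nat_lit 0x55b), (nat_lit 2), (nat_lit 0x6d5), (nat_lit 2)⟩))))
(.nd (.nd (.nd (.lf ⟨(nat_lit 854), (nat_lit 2), (nat_lit 0x58d), (nat_lit 2)⟩)
(.lf ⟨(nat_lit 0), (nat_lit 0), (nat_lit 0x804804), (nat_lit 4)⟩))
(.nd (.lf ⟨(nat_lit 0x556), (nat_lit 2), (nat_lit 0x595), (nat_lit 2)⟩)
(.lf ⟨(nat_lit 0), (nat_lit 0), (nat_lit 0x211211), (nat_lit 4)⟩)))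
(.nd (.nd (.lf ⟨(nat_lit 0x1490c50c52431431452431431490c50c5), (nat_lit 22), (nat_lit 0x1490c50c52431431452431431490c50c5), (nat_lit 22)⟩)
(.lf ⟨(nat_lit 0x4494431cf1cf0c73c73d12510c73c73c31cf1cf), (nat_lit 26), (nat_lit 0x4494431cf1cf0c73c73d12510c73c73c31cf1cf), (nat_lit 26)⟩))
(.lf ⟨(nat_lit 28), (nat_lit 1), (nat_lit 0xd10d1), (nat_lit 4)⟩))))))
(.nd (.nd (.nd (.nd (.nd (.nd (.lf ⟨(nat_lit 131), (nat_lit 2), (nat_lit 0x70c2), (nat_lit 3)⟩)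
(.lf ⟨(nat_lit 166), (nat_lit 2), (nat_lit 0x1667c60e67de4912a67de49128c2c615f0c2), (nat_lit 24)⟩))
(.nd (.lf ⟨(nat_lit 0x114114114114), (nat_lit 8), (nat_lit 0), (nat_lit 0)⟩)
(.lf ⟨(nat_lit 478), (nat_lit 2), (nat_lit 0x79a48c49031a407), (nat_lit 10)⟩)))
(.nd (.nd (.lf ⟨(nat_lit 94), (nat_lit 2), (nat_lit 0x15e141), (nat_lit 4)⟩)
(.lf ⟨(nat_lit 0x40e40e), (nat_lit 4), (nat_lit 0xce24e243389389), (nat_lit 10)⟩))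
(.nd (.lf ⟨(nat_lit 0x25654f), (nat_lit 4), (nat_lit 0x5953d6549595), (nat_lit 8)⟩)
(.lf ⟨(nat_lit 277), (nat_lit 2), (nat_lit 0x159e5423389389210204), (nat_lit 13)⟩))))
(.nd (.nd (.nd (.lf ⟨(nat_lit 0x244209108), (nat_lit 6), (nat_lit 0x209108244), (nat_lit 6)⟩)
(.lf ⟨(nat_lit 0x485485), (nat_lit 4), (nat_lit 0x485485), (nat_lit 4)⟩))
(.nd (.lf ⟨(nat_lit 293), (nat_lit 2), (nat_lit 0x944), (nat_lit 2)⟩)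
(.lf ⟨(nat_lit 0x1a51a5), (nat_lit 4), (nat_lit 0x946946), (nat_lit 4)⟩)))
(.nd (.nd (.lf ⟨(nat_lit 0xe10c50e12a128314384a84a0c384314384a84a0c50e12a1283), (nat_lit 34), (nat_lit 0xe10c50e12a128314384a84a0c384314384a84a0c50e12a1283), (nat_lit 34)⟩)
(.lf ⟨(nat_lit 0x1b45644f), (nat_lit 5), (nat_lit 0xf6d1591), (nat_lit 5)⟩))
(.lf ⟨(nat_lit 0x650c40950c40c24c), (nat_lit 11), (nat_lit 0x14310254310309306), (nat_lit 11)⟩))))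
(.nd (.nd (.nd (.nd (.lf ⟨(nat_lit 0x281281), (nat_lit 4), (nat_lit 0x4a04a), (nat_lit 4)⟩)
(.lf ⟨(nat_lit 19), (nat_lit 1), (nat_lit 0x302302), (nat_lit 4)⟩))
(.nd (.lf ⟨(nat_lit 0x15614e), (nat_lit 4), (nat_lit 0x385585), (nat_lit 4)⟩)
(.lf ⟨(nat_lit 215), (nat_lit 2), (nat_lit 0x173e67cc9d93e681f64c24c8193e69e099f32780f32780c24c1e78193e67cc9e03277d83c931a5cf40f24c8a07d731a6102c92c91c3), (nat_lit 71)⟩)))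
(.nd (.nd (.lf ⟨(nat_lit 0x21c208708), (nat_lit 6), (nat_lit 0), (nat_lit 0)⟩)
(.lf ⟨(nat_lit 0), (nat_lit 0), (nat_lit 0x110210204408408), (nat_lit 10)⟩))
(.nd (.lf ⟨(nat_lit 0x651), (nat_lit 2), (nat_lit 0x459), (nat_lit 2)⟩)
(.lf ⟨(nat_lit 0x6a4), (nat_lit 2), (nat_lit 0x91a), (nat_lit 2)⟩))))
(.nd (.nd (.nd (.lf ⟨(nat_lit 0x45c), (nat_lit 2), (nat_lit 0x711), (nat_lit 2)⟩)
(.lf ⟨(nat_lit 0x1881144c45132045131144c62045131144c81144c4513), (nat_lit 30), (nat_lit 0x1881144c45132045131144c62045131144c81144c4513), (nat_lit 30)⟩))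
(.nd (.lf ⟨(nat_lit 728), (nat_lit 2), (nat_lit 0x61a2da), (nat_lit 4)⟩)
(.lf ⟨(nat_lit 18), (nat_lit 1), (nat_lit 0x8f28f08f28f), (nat_lit 8)⟩)))
(.nd (.nd (.lf ⟨(nat_lit 0x18944e25138625138944e), (nat_lit 14), (nat_lit 0x18944e25138625138944e), (nat_lit 14)⟩)
(.lf ⟨(nat_lit 0), (nat_lit 0), (nat_lit 0xd80cf0d80cf), (nat_lit 8)⟩))
(.lf ⟨(nat_lit 0xc909d04274124274109d04324274109d04909d042741), (nat_lit 30), (nat_lit 0xc909d04274124274109d04324274109d04909d042741), (nat_lit 30)⟩)))))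
(.nd (.nd (.nd (.nd (.nd (.lf ⟨(nat_lit 0x111111), (nat_lit 4), (nat_lit 0x444444), (nat_lit 4)⟩)
(.lf ⟨(nat_lit 851), (nat_lit 2), (nat_lit 0x4cd), (nat_lit 2)⟩))
(.nd (.lf ⟨(nat_lit 0x1553d53c5), (nat_lit 6), (nat_lit 0x15514f15514f), (nat_lit 8)⟩)
(.lf ⟨(nat_lit 0x28c2ca30b), (nat_lit 6), (nat_lit 0xde6c379b), (nat_lit 6)⟩)))
(.nd (.nd (.lf ⟨(nat_lit 398), (nat_lit 2), (nat_lit 902), (nat_lit 2)⟩)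
(.lf ⟨(nat_lit 0x9d05a61d05a602741698741698), (nat_lit 18), (nat_lit 0x9d05a61d05a602741698741698), (nat_lit 18)⟩))
(.nd (.lf ⟨(nat_lit 0x24e256), (nat_lit 4), (nat_lit 0x589389), (nat_lit 4)⟩)
(.lf ⟨(nat_lit 0x938b), (nat_lit 3), (nat_lit 0x9cf38a3ca2c9), (nat_lit 8)⟩))))
(.nd (.nd (.nd (.lf ⟨(nat_lit 0x284201284201), (nat_lit 8), (nat_lit 0x201284201284), (nat_lit 8)⟩)
(.lf ⟨(nat_lit 999), (nat_lit 2), (nat_lit 0x9cf), (nat_lit 2)⟩))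
(.nd (.lf ⟨(nat_lit 0x150245409), (nat_lit 6), (nat_lit 0x150245409), (nat_lit 6)⟩)
(.lf ⟨(nat_lit 0x1579a), (nat_lit 3), (nat_lit 0x1679a595), (nat_lit 5)⟩)))
(.nd (.nd (.lf ⟨(nat_lit 329), (nat_lit 2), (nat_lit 0xd257345), (nat_lit 5)⟩)
(.lf ⟨(nat_lit 797), (nat_lit 2), (nat_lit 0x74c), (nat_lit 2)⟩))
(.lf ⟨(nat_lit 0x3d03d4), (nat_lit 4), (nat_lit 0x50f40f), (nat_lit 4)⟩))))
(.nd (.nd (.nd (.nd (.lf ⟨(nat_lit 148), (nat_lit 2), (nat_lit 0x62c750c0c71460c51c31533072c61c51850c550c0c70d3302), (nat_lit 33)⟩)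
(.lf ⟨(nat_lit 0x452445485513), (nat_lit 8), (nat_lit 0x513452445485), (nat_lit 8)⟩))
(.nd (.lf ⟨(nat_lit 0x409190189), (nat_lit 6), (nat_lit 0xc9189183246246), (nat_lit 10)⟩)
(.lf ⟨(nat_lit 0x540c), (nat_lit 3), (nat_lit 0x10310150), (nat_lit 5)⟩)))
(.nd (.nd (.lf ⟨(nat_lit 0x412), (nat_lit 2), (nat_lit 0x490), (nat_lit 2)⟩)
(.lf ⟨(nat_lit 0x712), (nat_lit 2), (nat_lit 0x49c), (nat_lit 2)⟩))
(.nd (.lf ⟨(nat_lit 0x11234848d21221220448d212348488488), (nat_lit 22), (nat_lit 0x11234848d21221220448d212348488488), (nat_lit 22)⟩)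
(.lf ⟨(nat_lit 0x4330810c2040cc2043081010cc20430810330810c204), (nat_lit 30), (nat_lit 0x4330810c2040cc2043081010cc20430810330810c204), (nat_lit 30)⟩))))
(.nd (.nd (.nd (.lf ⟨(nat_lit 541), (nat_lit 2), (nat_lit 0x748), (nat_lit 2)⟩)
(.lf ⟨(nat_lit 0x3207cc81f), (nat_lit 6), (nat_lit 0x30f30f), (nat_lit 4)⟩))
(.nd (.lf ⟨(nat_lit 0x24d21034840934840d210), (nat_lit 14), (nat_lit 0x24d21034840934840d210), (nat_lit 14)⟩)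
(.lf ⟨(nat_lit 0xa098c9e024c242826327809309), (nat_lit 18), (nat_lit 0xa098c9e024c242826327809309), (nat_lit 18)⟩)))
(.nd (.nd (.lf ⟨(nat_lit 166), (nat_lit 2), (nat_lit 0x599f18399f79244a99f79244a5072cc14719f0c2), (nat_lit 27)⟩)
(.lf ⟨(nat_lit 0x490657), (nat_lit 4), (nat_lit 0x657490), (nat_lit 4)⟩))
(.lf ⟨(nat_lit 0x3cd452445485), (nat_lit 8), (nat_lit 0x4524454853cd), (nat_lit 8)⟩)))))))
(.nd (.nd (.nd (.nd (.nd (.nd (.nd (.lf ⟨(nat_lit 32), (nat_lit 1), (nat_lit 0x112112), (nat_lit 4)⟩)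
(.lf ⟨(nat_lit 0), (nat_lit 0), (nat_lit 0x1207c481f), (nat_lit 6)⟩))
(.nd (.lf ⟨(nat_lit 0x1472cc1851c6), (nat_lit 8), (nat_lit 0x143143), (nat_lit 4)⟩)
(.lf ⟨(nat_lit 0x2876c76ca1db1db), (nat_lit 10), (nat_lit 0x2876c76ca1db1db), (nat_lit 10)⟩)))
(.nd (.nd (.lf ⟨(nat_lit 0x188191), (nat_lit 4), (nat_lit 0x74e29d20629d44e746), (nat_lit 12)⟩)
(.lf ⟨(nat_lit 0), (nat_lit 0), (nat_lit 0x20d28d28834a34a), (nat_lit 10)⟩))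
(.nd (.lf ⟨(nat_lit 0x256559), (nat_lit 4), (nat_lit 0x595656549595), (nat_lit 8)⟩)
(.lf ⟨(nat_lit 344), (nat_lit 2), (nat_lit 0x605), (nat_lit 2)⟩))))
(.nd (.nd (.nd (.lf ⟨(nat_lit 0x147147), (nat_lit 4), (nat_lit 0x1c51c5), (nat_lit 4)⟩)
(.lf ⟨(nat_lit 915), (nat_lit 2), (nat_lit 0x4ce), (nat_lit 2)⟩))
(.nd (.lf ⟨(nat_lit 0x80a0a02a781128280a9e044a80a0a02a781128280a9e044a), (nat_lit 32), (nat_lit 0x80a0a02a781128280a9e044a80a0a02a781128280a9e044a), (nat_lit 32)⟩)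
(.lf ⟨(nat_lit 37), (nat_lit 1), (nat_lit 0x107787107787), (nat_lit 8)⟩)))
(.nd (.nd (.lf ⟨(nat_lit 153), (nat_lit 2), (nat_lit 0x642), (nat_lit 2)⟩)
(.lf ⟨(nat_lit 477), (nat_lit 2), (nat_lit 0x752452447), (nat_lit 6)⟩))
(.lf ⟨(nat_lit 0x3c63c6), (nat_lit 4), (nat_lit 0x58058), (nat_lit 4)⟩))))
(.nd (.nd (.nd (.nd (.lf ⟨(nat_lit 325), (nat_lit 2), (nat_lit 0), (nat_lit 0)⟩)
(.lf ⟨(nat_lit 0xa4064124064102901904901904), (nat_lit 18), (nat_lit 0xa4064124064102901904901904), (nat_lit 18)⟩))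
(.nd (.lf ⟨(nat_lit 0x38558558e), (nat_lit 6), (nat_lit 0x385382385382), (nat_lit 8)⟩)
(.lf ⟨(nat_lit 165), (nat_lit 2), (nat_lit 0x9523d23c2), (nat_lit 6)⟩)))
(.nd (.nd (.lf ⟨(nat_lit 94), (nat_lit 2), (nat_lit 0x781), (nat_lit 2)⟩)
(.lf ⟨(nat_lit 0x5e7), (nat_lit 2), (nat_lit 0x9d7), (nat_lit 2)⟩))
(.nd (.lf ⟨(nat_lit 0x81c), (nat_lit 2), (nat_lit 0x720), (nat_lit 2)⟩)
(.lf ⟨(nat_lit 0x61e), (nat_lit 2), (nat_lit 0x798), (nat_lit 2)⟩))))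
(.nd (.nd (.nd (.lf ⟨(nat_lit 197), (nat_lit 2), (nat_lit 0x18c1c52c61c3), (nat_lit 8)⟩)
(.lf ⟨(nat_lit 0x657), (nat_lit 2), (nat_lit 0x205048141), (nat_lit 6)⟩))
(.nd (.lf ⟨(nat_lit 0x831431420c50c5), (nat_lit 10), (nat_lit 0x831431420c50c5), (nat_lit 10)⟩)
(.lf ⟨(nat_lit 0), (nat_lit 0), (nat_lit 0x1df1df), (nat_lit 4)⟩)))
(.nd (.nd (.lf ⟨(nat_lit 159), (nat_lit 2), (nat_lit 0x7e07e07c2), (nat_lit 6)⟩)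
(.lf ⟨(nat_lit 0), (nat_lit 0), (nat_lit 0x10f40f1901843d03c6406), (nat_lit 14)⟩))
(.lf ⟨(nat_lit 0x55f), (nat_lit 2), (nat_lit 0x7d5), (nat_lit 2)⟩)))))
(.nd (.nd (.nd (.nd (.nd (.lf ⟨(nat_lit 143), (nat_lit 2), (nat_lit 0x173c2), (nat_lit 3)⟩)
(.lf ⟨(nat_lit 0x954f), (nat_lit 3), (nat_lit 0x153d5255), (nat_lit 5)⟩))
(.nd (.lf ⟨(nat_lit 0x15244a), (nat_lit 4), (nat_lit 0x79b452285), (nat_lit 6)⟩)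
(.lf ⟨(nat_lit 414), (nat_lit 2), (nat_lit 0x786), (nat_lit 2)⟩)))
(.nd (.nd (.lf ⟨(nat_lit 0x18f18f), (nat_lit 4), (nat_lit 0x3c63c6), (nat_lit 4)⟩)
(.lf ⟨(nat_lit 0x25125b), (nat_lit 4), (nat_lit 0x6c9449), (nat_lit 4)⟩))
(.nd (.lf ⟨(nat_lit 0x39024e409389389), (nat_lit 10), (nat_lit 0xce24e243389389), (nat_lit 10)⟩)
(.lf ⟨(nat_lit 0xe79630e7963), (nat_lit 8), (nat_lit 0xe79630e7963), (nat_lit 8)⟩))))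
(.nd (.nd (.nd (.lf ⟨(nat_lit 0x204142204142), (nat_lit 8), (nat_lit 0x142204142204), (nat_lit 8)⟩)
(.lf ⟨(nat_lit 0x94d), (nat_lit 2), (nat_lit 869), (nat_lit 2)⟩))
(.nd (.lf ⟨(nat_lit 0x8430430210c10c), (nat_lit 10), (nat_lit 0x8430430210c10c), (nat_lit 10)⟩)
(.lf ⟨(nat_lit 0), (nat_lit 0), (nat_lit 0x448448), (nat_lit 4)⟩)))
(.nd (.nd (.lf ⟨(nat_lit 0x20c490), (nat_lit 4), (nat_lit 0x49031240c21240c), (nat_lit 10)⟩)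
(.lf ⟨(nat_lit 0x37867947944c6793), (nat_lit 11), (nat_lit 0x1e19e51e51319e4c3), (nat_lit 11)⟩))
(.lf ⟨(nat_lit 0x7749), (nat_lit 3), (nat_lit 0x207c91dd), (nat_lit 5)⟩))))
(.nd (.nd (.nd (.nd (.lf ⟨(nat_lit 0x141105044), (nat_lit 6), (nat_lit 0x105044141), (nat_lit 6)⟩)
(.lf ⟨(nat_lit 0x1f2a690a9a4), (nat_lit 7), (nat_lit 0xa9a42a691f), (nat_lit 7)⟩))
(.nd (.lf ⟨(nat_lit 0xa48a2d228b28b28b), (nat_lit 11), (nat_lit 0x1228b48a2ca2ca2ca), (nat_lit 11)⟩)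
(.lf ⟨(nat_lit 0x310310), (nat_lit 4), (nat_lit 0x40c40c), (nat_lit 4)⟩)))
(.nd (.nd (.lf ⟨(nat_lit 0x42c6), (nat_lit 3), (nat_lit 0x1138610b), (nat_lit 5)⟩)
(.lf ⟨(nat_lit 0x79a4), (nat_lit 3), (nat_lit 0x26907), (nat_lit 3)⟩))
(.nd (.lf ⟨(nat_lit 538), (nat_lit 2), (nat_lit 0x688), (nat_lit 2)⟩)
(.lf ⟨(nat_lit 0x2691c40c28c286406), (nat_lit 11), (nat_lit 0x1c399e6911c399e691), (nat_lit 12)⟩))))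
(.nd (.nd (.nd (.lf ⟨(nat_lit 151), (nat_lit 2), (nat_lit 0x524534814d2173c524814815934914964f24521924521934914f2573c2), (nat_lit 39)⟩)
(.lf ⟨(nat_lit 0xc830b20c2c320c2c830b), (nat_lit 14), (nat_lit 0xc830b20c2c320c2c830b), (nat_lit 14)⟩))
(.nd (.lf ⟨(nat_lit 0xc595), (nat_lit 3), (nat_lit 0x1654c), (nat_lit 3)⟩)
(.lf ⟨(nat_lit 0x5a3), (nat_lit 2), (nat_lit 0x96375b61d61b5a5), (nat_lit 10)⟩)))
(.nd (.nd (.lf ⟨(nat_lit 0x25781f81f81f5c95e07e07e07d7), (nat_lit 18), (nat_lit 0x25781f81f81f5c95e07e07e07d7), (nat_lit 18)⟩)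
(.lf ⟨(nat_lit 0x3d289a485485692), (nat_lit 10), (nat_lit 0x4a269215215a48f), (nat_lit 10)⟩))
(.lf ⟨(nat_lit 0x183d53dd), (nat_lit 5), (nat_lit 0x1d60f54f), (nat_lit 5)⟩))))))
(.nd (.nd (.nd (.nd (.nd (.nd (.lf ⟨(nat_lit 0x88088), (nat_lit 4), (nat_lit 0x202202), (nat_lit 4)⟩)
(.lf ⟨(nat_lit 463), (nat_lit 2), (nat_lit 0x81f3cc81f3207cf30f2667e77cc81f247), (nat_lit 22)⟩))
(.nd (.lf ⟨(nat_lit 0x19b4564466d1591), (nat_lit 10), (nat_lit 0x19b4564466d1591), (nat_lit 10)⟩)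
(.lf ⟨(nat_lit 0x726), (nat_lit 2), (nat_lit 0x99c), (nat_lit 2)⟩)))
(.nd (.nd (.lf ⟨(nat_lit 0x34210d084), (nat_lit 6), (nat_lit 0x10d084342), (nat_lit 6)⟩)
(.lf ⟨(nat_lit 0x10595), (nat_lit 3), (nat_lit 0x16550), (nat_lit 3)⟩))
(.nd (.lf ⟨(nat_lit 473), (nat_lit 2), (nat_lit 0x81f64959524881f595207), (nat_lit 14)⟩)
(.lf ⟨(nat_lit 0), (nat_lit 0), (nat_lit 0x10c28c28430a30a), (nat_lit 10)⟩))))
(.nd (.nd (.nd (.lf ⟨(nat_lit 0x95347), (nat_lit 4), (nat_lit 0x3551cd54254d), (nat_lit 8)⟩)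
(.lf ⟨(nat_lit 96), (nat_lit 2), (nat_lit 0x12212225801), (nat_lit 7)⟩))
(.nd (.lf ⟨(nat_lit 14), (nat_lit 1), (nat_lit 0x203203), (nat_lit 4)⟩)
(.lf ⟨(nat_lit 926), (nat_lit 2), (nat_lit 0x79679859e60e), (nat_lit 8)⟩)))
(.nd (.nd (.lf ⟨(nat_lit 0), (nat_lit 0), (nat_lit 0x9149b4424526d1), (nat_lit 10)⟩)
(.lf ⟨(nat_lit 0x43207cc81f), (nat_lit 7), (nat_lit 0xc81f3207c4), (nat_lit 7)⟩))
(.lf ⟨(nat_lit 283), (nat_lit 2), (nat_lit 0x237496dd449444), (nat_lit 9)⟩))))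
(.nd (.nd (.nd (.nd (.lf ⟨(nat_lit 0x243243), (nat_lit 4), (nat_lit 0xc90c9), (nat_lit 4)⟩)
(.lf ⟨(nat_lit 9), (nat_lit 1), (nat_lit 0x173d33173d33cc3c9), (nat_lit 11)⟩))
(.nd (.lf ⟨(nat_lit 0x2c92c9), (nat_lit 4), (nat_lit 0x24b24b), (nat_lit 4)⟩)
(.lf ⟨(nat_lit 0x29b8e56e79633ca3ca29b8e56e79633ca3ca), (nat_lit 24), (nat_lit 0x29b8e56e79633ca3ca29b8e56e79633ca3ca), (nat_lit 24)⟩)))
(.nd (.nd (.lf ⟨(nat_lit 0x555), (nat_lit 2), (nat_lit 0), (nat_lit 0)⟩)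
(.lf ⟨(nat_lit 217), (nat_lit 2), (nat_lit 0x650389389210203), (nat_lit 10)⟩))
(.nd (.lf ⟨(nat_lit 988), (nat_lit 2), (nat_lit 0x70f), (nat_lit 2)⟩)
(.lf ⟨(nat_lit 0x626), (nat_lit 2), (nat_lit 0x998), (nat_lit 2)⟩))))
(.nd (.nd (.nd (.lf ⟨(nat_lit 0x7a4), (nat_lit 2), (nat_lit 0x91e), (nat_lit 2)⟩)
(.lf ⟨(nat_lit 0x19f19f), (nat_lit 4), (nat_lit 0x19f19f), (nat_lit 4)⟩))
(.nd (.lf ⟨(nat_lit 0x9c74604602879ca), (nat_lit 10), (nat_lit 0x9c79ca9c79ca), (nat_lit 8)⟩)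
(.lf ⟨(nat_lit 0x206115108115108184544204544208184544204544206115108115108), (nat_lit 38), (nat_lit 0x206115108115108184544204544208184544204544206115108115108), (nat_lit 38)⟩)))
(.nd (.nd (.lf ⟨(nat_lit 18), (nat_lit 1), (nat_lit 0x8a08a), (nat_lit 4)⟩)
(.lf ⟨(nat_lit 0x53d03c6406), (nat_lit 7), (nat_lit 0x1768f4176974173cf40f190185), (nat_lit 17)⟩))
(.lf ⟨(nat_lit 0x69f), (nat_lit 2), (nat_lit 0x7da), (nat_lit 2)⟩)))))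
(.nd (.nd (.nd (.nd (.nd (.lf ⟨(nat_lit 154), (nat_lit 2), (nat_lit 0x22682), (nat_lit 3)⟩)
(.lf ⟨(nat_lit 0x944cb2144c82c25132c851320b), (nat_lit 18), (nat_lit 0x944cb2144c82c25132c851320b), (nat_lit 18)⟩))
(.nd (.lf ⟨(nat_lit 0x1229779b297), (nat_lit 7), (nat_lit 0xa5de6ca5d2), (nat_lit 7)⟩)
(.lf ⟨(nat_lit 740), (nat_lit 2), (nat_lit 0x90b), (nat_lit 2)⟩)))
(.nd (.nd (.lf ⟨(nat_lit 87), (nat_lit 2), (nat_lit 0x171492052055cf14920520564d24564f14920564d3c52055cf14920520564d24564f34f149205248141), (nat_lit 55)⟩)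
(.lf ⟨(nat_lit 399), (nat_lit 2), (nat_lit 0x40e3ce3ce3ce190), (nat_lit 10)⟩))
(.nd (.lf ⟨(nat_lit 0x5a0), (nat_lit 2), (nat_lit 0x816), (nat_lit 2)⟩)
(.lf ⟨(nat_lit 483), (nat_lit 2), (nat_lit 0x8cc2ca30b28c2ca30b287), (nat_lit 14)⟩))))
(.nd (.nd (.nd (.lf ⟨(nat_lit 79), (nat_lit 2), (nat_lit 0x4093da25a401), (nat_lit 8)⟩)
(.lf ⟨(nat_lit 0x5e5), (nat_lit 2), (nat_lit 0x957), (nat_lit 2)⟩))
(.nd (.lf ⟨(nat_lit 148), (nat_lit 2), (nat_lit 0x2d430b50c2c64d42d31c64c72cc1c50d330b50b1cb30b50b1cb30b4d42d31c64c72cc1cb30b30b30b50c2cc2cc2d330b30b50c2cc2cc2d44cc1cb30b4cc2d430b50b1cb30b4d42d31c64c72cc1cb4cc1cb3050d3302), (nat_lit 114)⟩)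
(.lf ⟨(nat_lit 0), (nat_lit 0), (nat_lit 0x30830c20c), (nat_lit 6)⟩)))
(.nd (.nd (.lf ⟨(nat_lit 0xc39831543071852d41c60e60c550c1c614b5071830e60c550c1c614b5071839831543071852d41c6), (nat_lit 54), (nat_lit 0xc39831543071852d41c60e60c550c1c614b5071830e60c550c1c614b5071839831543071852d41c6), (nat_lit 54)⟩)
(.lf ⟨(nat_lit 341), (nat_lit 2), (nat_lit 0x30d21330d3084cc545), (nat_lit 12)⟩))
(.lf ⟨(nat_lit 0x9529528254a54a), (nat_lit 10), (nat_lit 0x9529528254a54a), (nat_lit 10)⟩))))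
(.nd (.nd (.nd (.nd (.lf ⟨(nat_lit 0xc70820c7082), (nat_lit 8), (nat_lit 0x87083087083), (nat_lit 8)⟩)
(.lf ⟨(nat_lit 0x657), (nat_lit 2), (nat_lit 0x4f3413cd), (nat_lit 6)⟩))
(.nd (.lf ⟨(nat_lit 25), (nat_lit 1), (nat_lit 0x344344), (nat_lit 4)⟩)
(.lf ⟨(nat_lit 593), (nat_lit 2), (nat_lit 0x2744f28f289), (nat_lit 7)⟩)))
(.nd (.nd (.lf ⟨(nat_lit 0x18d18d), (nat_lit 4), (nat_lit 0x18d18d), (nat_lit 4)⟩)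
(.lf ⟨(nat_lit 0x7698), (nat_lit 3), (nat_lit 0x1a607), (nat_lit 3)⟩))
(.nd (.lf ⟨(nat_lit 0x5497), (nat_lit 3), (nat_lit 0x125d2152), (nat_lit 5)⟩)
(.lf ⟨(nat_lit 0x27963408408), (nat_lit 7), (nat_lit 0xd90d9), (nat_lit 4)⟩))))
(.nd (.nd (.nd (.lf ⟨(nat_lit 148), (nat_lit 2), (nat_lit 0x2c718c1c51851c50d33072c750518530714b1d418350c1d3302), (nat_lit 34)⟩)
(.lf ⟨(nat_lit 0x491491), (nat_lit 4), (nat_lit 0x29e29e), (nat_lit 4)⟩))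
(.nd (.lf ⟨(nat_lit 0x507714707), (nat_lit 6), (nat_lit 0x187707187707), (nat_lit 8)⟩)
(.lf ⟨(nat_lit 0x2098c9e024c254), (nat_lit 9), (nat_lit 0x14826327809309), (nat_lit 9)⟩)))
(.nd (.nd (.lf ⟨(nat_lit 0x35f35f), (nat_lit 4), (nat_lit 0x7cd7cd), (nat_lit 4)⟩)
(.lf ⟨(nat_lit 0), (nat_lit 0), (nat_lit 0x28a28a), (nat_lit 4)⟩))
(.lf ⟨(nat_lit 348), (nat_lit 2), (nat_lit 0x705), (nat_lit 2)⟩))))))))))))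

end Pool.Agent.Lib.MP_3b0e0c_al.S.L4
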