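import Pool.Agent.Lib.MP_3b0e0c_al.S.Word
import Pool.Agent.Lib.MP_3b0e0c_al.Coset

/-! A set of involutions closed under commutators and consisting of strong sandwiches generates a
locally finite group. -/

namespace Pool.Agent.Lib.MP_3b0e0c_al.S

open Subgroup

variable {G : Type*} [Group G]

/-- The commutator of two involutions. -/
def cm (g h : G) : G := g * h * g * h

/-- Strong sandwich sets. -/
structure SW (T : Set G) : Prop where
  one : (1 : G) ∈ T
  sq : ∀ u ∈ T, u * u = 1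
  cl : ∀ u ∈ T, ∀ v ∈ T, cm u v ∈ T
  st : ∀ u ∈ T, ∀ b ∈ T, ∀ c ∈ T, Commute (b * u * b) (c * u * c)

lemma mul_sq {u : G} (h : u * u = 1) (x : G) : x * u * u = x := by rw [mul_assoc, h, mul_one]

lemma cm_eq_one {g h : G} (hg : g * g = 1) (hh : h * h = 1) : cm g h = 1 ↔ Commute g h := by
  constructor
  · intro e
    have : g * h = (g * h)⁻¹ := eq_inv_of_mul_eq_one_left (by rw [← e, cm, ← mul_assoc])
    rw [mul_inv_rev, inv_eq_of_mul_eq_one_right hg, inv_eq_of_mul_eq_one_right hh] at this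
    exact this
  · intro e
    rw [cm, e.eq, mul_sq hg, hh]

lemma conj_comm {a b z : G} (hz : z * z = 1) (h : Commute a (z * b * z)) :
    Commute (z * a * z) b := by
  have := h.eq
  rw [Commute, SemiconjBy]
  calc z * a * z * b = z * (a * (z * b * z)) * z := by simp only [← mul_assoc, mul_sq hz]
    _ = z * (z * b * z * a) * z := by rw [this]
    _ = _ := by simp only [← mul_assoc, hz, one_mul]

lemma SW.a (g : G) {u : G} (hg : g * g = 1) (hu : u * u = 1) : cm (cm g u) u = 1 := by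
  simp only [cm, ← mul_assoc, mul_sq hg, mul_sq hu, hg]

lemma SW.c {T : Set G} (h : SW T) {g u z : G} (hg : g ∈ T) (hu : u ∈ T) (hz : z ∈ T) :
    cm (cm (cm g u) z) u = 1 := by
  refine (cm_eq_one (h.sq _ (h.cl _ (h.cl _ hg _ hu) _ hz)) (h.sq _ hu)).2 ?_
  have e1 : Commute (g * u * g) u := by simpa using h.st u hu g hg 1 h.one
  have e2 : Commute u (z * u * z) := by simpa using h.st u hu 1 h.one z hz
  have e3 : Commute (cm g u) u := e1.mul_left (Commute.refl u)
  have e4 := conj_comm (h.sq z hz) ((h.st u hu g hg z hz).mul_left e2)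
  have := e3.mul_left e4
  simpa only [cm, mul_assoc] using this

lemma SW.b {T : Set G} (h : SW T) {g a b : G} (hg : g ∈ T) (ha : a ∈ T) (hb : b ∈ T)
    (e : Commute g b) : cm g (cm a b) = cm (cm g a) b := by
  have g2 := h.sq g hg
  have b2 := h.sq b hb
  have e1 := (conj_comm g2 (h.st a ha b hb g hg)).eq
  have e2 : g * (b * a * b) * g = g * b * a * (g * b) := by
    simp only [mul_assoc]; rw [e.eq]
  rw [e2] at e1
  have e3 : b * (a * (g * b) * a) * b = g * (a * (g * b) * a) * g :=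
    calc _ = g * (g * b * a * (g * b) * a) * b := by simp only [← mul_assoc, g2, one_mul]
      _ = g * (a * (g * b * a * (g * b))) * b := by rw [e1]
      _ = _ := by simp only [← mul_assoc, mul_sq b2]
  calc _ = g * a * (b * (a * (b * g) * a) * b) * a * b := by simp only [cm, ← mul_assoc]
    _ = g * a * (g * (a * (b * g) * a) * g) * a * b := by rw [← e.eq, e3]
    _ = _ := by simp only [cm, ← mul_assoc]

section Path

variable {T : Set G} {α : Type*} [LinearOrder α] {s : α → G} {nx : G → α}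

/-- The greedy path. -/
def st (s : α → G) (nx : G → α) (g : G) : G := cm g (s (nx g))

/-- The word read along the greedy path. -/
def wd (s : α → G) (nx : G → α) (g : G) : ℕ → α := fun t => nx ((st s nx)^[t] g)

omit [LinearOrder α] in
lemma wd_sh (g : G) (i t : ℕ) : wd s nx ((st s nx)^[i] g) t = wd s nx g (i + t) := by
  rw [wd, wd, add_comm, Function.iterate_add_apply]

/-- `c` acts on the path as the word `y` of length `n`. -/
def Good (T : Set G) (s : α → G) (nx : G → α) (y : ℕ → α) (n : ℕ) (c : G) : Prop :=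
  c ∈ T ∧ ∀ g ∈ T, g ≠ 1 → ((∀ t < n, y t = wd s nx g t) → cm g c = (st s nx)^[n] g) ∧
    ∀ m < n, (∀ t < m, y t = wd s nx g t) → wd s nx g m < y m → cm g c = 1

omit [LinearOrder α] in
lemma iter_mem (hT : SW T) (hs : ∀ l, s l ∈ T) (h1 : ∀ g ∈ T, g ≠ 1 → st s nx g ≠ 1) {g : G}
    (hg : g ∈ T) (g1 : g ≠ 1) (n : ℕ) : (st s nx)^[n] g ∈ T ∧ (st s nx)^[n] g ≠ 1 := by
  induction n with
  | zero => exact ⟨hg, g1⟩
  | succ n ih =>
    rw [Function.iterate_succ_apply']
    exact ⟨hT.cl _ ih.1 _ (hs _), h1 _ ih.1 ih.2⟩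

lemma good (hT : SW T) (hs : ∀ l, s l ∈ T) (h1 : ∀ g ∈ T, g ≠ 1 → st s nx g ≠ 1)
    (h2 : ∀ g ∈ T, g ≠ 1 → ∀ l, nx g < l → cm g (s l) = 1) (n : ℕ) :
    ∀ y : ℕ → α, Lyn y n → ∃ c, Good T s nx y n c := by
  induction n using Nat.strong_induction_on with
  | _ n ih =>
  intro y hy
  by_cases hn : n < 2
  · obtain rfl : n = 1 := by have := hy.1; omega
    refine ⟨s (y 0), hs _, fun g hg g1 => ⟨fun e => ?_, fun m hm _ e => ?_⟩⟩
    · rw [e 0 one_pos]; rfl
    · obtain rfl : m = 0 := by omega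
      exact h2 g hg g1 _ e
  obtain ⟨k, k0, kn, l1, l2⟩ := hy.split (by omega)
  obtain ⟨a, ha, ga⟩ := ih k kn y l1
  obtain ⟨b, hb, gb⟩ := ih (n - k) (by omega) _ l2
  obtain ⟨p, p1, p2, p3⟩ := hy.2 k k0 kn
  refine ⟨cm a b, hT.cl _ ha _ hb, fun g hg g1 => ?_⟩
  have hk := iter_mem hT hs h1 hg g1 k
  have key : ∀ m, (∀ t < m, y t = wd s nx g t) → (p < m ∨ wd s nx g m < y m) →
      cm g (cm a b) = cm (cm g a) b := by
    intro m e1 e2
    refine hT.b hg ha hb ((cm_eq_one (hT.sq _ hg) (hT.sq _ hb)).1 ?_)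
    rcases lt_trichotomy p m with h | h | h
    · exact (gb g hg g1).2 p (by omega) (fun t ht => (p2 t ht).symm.trans (e1 t (by omega)))
        ((e1 p h).symm.trans_lt p3)
    · subst h
      exact (gb g hg g1).2 p (by omega) (fun t ht => (p2 t ht).symm.trans (e1 t ht))
        ((e2.resolve_left (lt_irrefl _)).trans p3)
    · exact (gb g hg g1).2 m (by omega) (fun t ht => (p2 t (by omega)).symm.trans (e1 t ht))
        ((e2.resolve_left h.not_gt).trans_eq (p2 m h))
  refine ⟨fun e => ?_, fun m hm e1 e2 => ?_⟩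
  · rw [key n e (Or.inl (by omega)), (ga g hg g1).1 fun t ht => e t (by omega),
      (gb _ hk.1 hk.2).1 fun t ht => by rw [wd_sh, ← e _ (by omega)]; rfl,
      ← Function.iterate_add_apply, Nat.sub_add_cancel kn.le]
  · rw [key m e1 (Or.inr e2)]
    by_cases hmk : m < k
    · rw [(ga g hg g1).2 m hmk e1 e2, cm, one_mul, mul_one, hT.sq _ hb]
    · rw [(ga g hg g1).1 fun t ht => e1 t (by omega)]
      refine (gb _ hk.1 hk.2).2 (m - k) (by omega) (fun t ht => ?_) ?_
      · rw [wd_sh, ← e1 _ (by omega)]; rfl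
      · rw [wd_sh, sh, show k + (m - k) = m by omega]; exact e2

end Path

lemma SW.triv {T : Set G} (hT : SW T) {r : ℕ} {s : Fin r → G} (hs : ∀ l, s l ∈ T)
    (hz : ∀ g ∈ T, (∀ l, Commute g (s l)) → g = 1) : ∀ g ∈ T, g = 1 := by
  classical
  intro g0 hg0
  by_contra g01
  have ex : ∀ g ∈ T, g ≠ 1 → ∃ l, cm g (s l) ≠ 1 ∧ ∀ l', l < l' → cm g (s l') = 1 := by
    intro g hg g1
    obtain ⟨l, hl⟩ := not_forall.1 fun h => g1 (hz g hg h)
    obtain ⟨l, h1, h2⟩ := (Finset.univ.filter fun l => cm g (s l) ≠ 1).exists_max_image id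
      ⟨l, by simpa using fun e => hl ((cm_eq_one (hT.sq _ hg) (hT.sq _ (hs _))).1 e)⟩
    refine ⟨l, by simpa using h1, fun l' h => ?_⟩
    by_contra e
    exact (h2 l' (by simpa using e)).not_gt h
  have : Nonempty (Fin r) := ⟨(ex g0 hg0 g01).choose⟩
  choose! nx h1 h2 using ex
  have hi := iter_mem (nx := nx) hT hs h1 hg0 g01
  obtain ⟨i, a, b, l1, l2, e⟩ := pat (wd s nx g0)
  obtain ⟨u, hu, gu⟩ := good hT hs h1 h2 a _ l1
  have u1 := (gu _ (hi i).1 (hi i).2).1 fun t _ => by rw [wd_sh]; rfl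
  have u2 := (gu _ (hi (i + a + b)).1 (hi (i + a + b)).2).1 fun t ht => by
    rw [wd_sh, e t ht]; rfl
  rw [← Function.iterate_add_apply] at u1 u2
  refine (hi (a + (i + a + b))).2 ?_
  rw [← u2]
  rcases l2 with rfl | l2
  · rw [add_zero, add_comm i, ← u1]
    exact SW.a _ (hT.sq _ (hi i).1) (hT.sq _ hu)
  · obtain ⟨z, hz', gz⟩ := good hT hs h1 h2 b _ l2
    have z1 := (gz _ (hi (i + a)).1 (hi (i + a)).2).1 fun t _ => by rw [wd_sh]; rfl
    rw [← Function.iterate_add_apply] at z1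
    rw [add_comm _ b, ← z1, add_comm i, ← u1]
    exact hT.c (hi i).1 hu hz'

lemma SW.map {T : Set G} (hT : SW T) {Q : Type*} [Group Q] (H : Subgroup G) (f : H →* Q) :
    SW (f '' {h : H | h.1 ∈ T}) where
  one := ⟨1, hT.one, map_one f⟩
  sq := by
    rintro _ ⟨u, hu, rfl⟩
    rw [← map_mul, show u * u = 1 from Subtype.ext (hT.sq _ hu), map_one]
  cl := by
    rintro _ ⟨u, hu, rfl⟩ _ ⟨v, hv, rfl⟩
    exact ⟨cm u v, hT.cl _ hu _ hv, by simp [cm]⟩
  st := by
    rintro _ ⟨u, hu, rfl⟩ _ ⟨b, hb, rfl⟩ _ ⟨c, hc, rfl⟩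
    have : Commute (b * u * b) (c * u * c) := Subtype.ext (hT.st _ hu _ hb _ hc).eq
    simpa using this.map f

lemma LF_central {z : G} (h2 : z * z = 1) : LF (zpowers z) := by
  have : (zpowers z : Set G).Finite :=
    finite_zpowers.2 (isOfFinOrder_iff_pow_eq_one.2 ⟨2, two_pos, by rw [pow_two, h2]⟩)
  exact fun t _ ht => this.subset ((closure_le _).2 ht)

lemma fin_sub {T : Set G} {a : G} (h : a ∈ closure T) :
    ∃ E : Set G, E.Finite ∧ E ⊆ T ∧ a ∈ closure E := by
  induction h using closure_induction with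
  | mem x hx => exact ⟨{x}, by simp, by simpa, subset_closure rfl⟩
  | one => exact ⟨∅, by simp⟩
  | mul x y _ _ i1 i2 =>
    obtain ⟨E, e0, e1, e2⟩ := i1
    obtain ⟨F, f0, f1, f2⟩ := i2
    exact ⟨E ∪ F, e0.union f0, Set.union_subset e1 f1, mul_mem
      (closure_mono Set.subset_union_left e2) (closure_mono Set.subset_union_right f2)⟩
  | inv x _ i1 => exact i1.imp fun E e => ⟨e.1, e.2.1, inv_mem e.2.2⟩

/-- The strong sandwich theorem. -/
theorem SW.lf {T : Set G} (hT : SW T) : LF (closure T) := by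
  intro S hS hST
  obtain ⟨F, hF, hFT, hSF⟩ : ∃ F : Set G, F.Finite ∧ F ⊆ T ∧ S ⊆ closure F := by
    induction S, hS using Set.Finite.induction_on with
    | empty => exact ⟨∅, by simp⟩
    | @insert a S _ _ ih =>
      obtain ⟨F, h1, h2, h3⟩ := ih ((Set.subset_insert _ _).trans hST)
      obtain ⟨E, e0, e1, e2⟩ := fin_sub (hST (Set.mem_insert a S))
      exact ⟨E ∪ F, e0.union h1, Set.union_subset e1 h2,
        Set.insert_subset (closure_mono Set.subset_union_left e2)
          (h3.trans (closure_mono Set.subset_union_right))⟩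
  refine Set.Finite.subset ?_ ((closure_le _).2 hSF)
  obtain ⟨r, s, hs⟩ := hF.fin_param
  set H := closure F with hH
  have hsF : ∀ l, s l ∈ F := fun l => hs.2 ▸ Set.mem_range_self l
  let f := QuotientGroup.mk' (rad H)
  let s' : Fin r → H ⧸ rad H := fun l => f ⟨s l, subset_closure (hsF l)⟩
  have hT' := hT.map H f
  have gen : ∀ P : H ⧸ rad H → Prop, (∀ l, P (s' l)) → P 1 → (∀ x y, P x → P y → P (x * y)) →
      (∀ x, P x → P x⁻¹) → ∀ x, P x := by
    intro P p1 p2 p3 p4 x
    obtain ⟨⟨x, hx⟩, rfl⟩ := QuotientGroup.mk'_surjective _ x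
    induction hx using closure_induction with
    | mem x hx => obtain ⟨l, rfl⟩ := hs.2.ge hx; exact p1 l
    | one => exact p2
    | mul x y hx hy i1 i2 => exact p3 _ _ i1 i2
    | inv x hx i1 => exact p4 _ i1
  have := hT'.triv (s := s') (fun l => ⟨_, hFT (hsF l), rfl⟩) fun g hg hc => by
    have hz := gen (Commute g) hc (Commute.one_right g) (fun _ _ => Commute.mul_right)
      fun _ => Commute.inv_right
    have : (zpowers g).Normal := ⟨fun n hn k => by
      obtain ⟨m, rfl⟩ := hn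
      rw [← ((hz k).zpow_left m).eq, mul_inv_cancel_right]; exact zpow_mem_zpowers g m⟩
    exact quot_triv (LF_central (hT'.sq g hg)) (mem_zpowers g)
  have all := gen (· = 1) (fun l => this _ ⟨_, hFT (hsF l), rfl⟩) rfl
    (fun x y hx hy => by rw [hx, hy, one_mul]) fun x hx => by rw [hx, inv_one]
  have h1 := LF_rad (G := H) (H.subtype ⁻¹' F) (hF.preimage H.subtype_injective.injOn)
    fun y _ => (QuotientGroup.eq_one_iff y).1 (all _)
  rw [show closure (H.subtype ⁻¹' F) = ⊤ from closure_preimage_eq_top F] at h1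
  have : Finite H := Set.finite_univ_iff.1 h1
  exact this

end Pool.Agent.Lib.MP_3b0e0c_al.S
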