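import Pool.Agent.Lib.MP_3b0e0c_al.S.Th

namespace Pool.Agent.Lib.MP_3b0e0c_al.S.T3

/-- The theory. -/
def th : Th := ⟨[([0, 0], []),
  ([1, 1], []),
  ([2, 2], []),
  ([3], [1, 0, 1, 0]),
  ([4], [2, 0, 2, 0]),
  ([5], [2, 1, 2, 1]),
  ([6], [4, 1, 4, 1]),
  ([7], [5, 0, 5, 0]),
  ([8], [6, 0, 6, 0]),
  ([9], [7, 1, 7, 1]),
  ([10], [7, 2, 7, 2])],
  [([0, 0], []),
  ([1, 1], []),
  ([2, 2], []),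
  ([3, 3], []),
  ([1, 0], [0, 1, 3]),
  ([4, 4], []),
  ([2, 0], [0, 2, 4]),
  ([5, 5], []),
  ([2, 1], [1, 2, 5]),
  ([6, 6], []),
  ([4, 1], [1, 4, 6]),
  ([7, 7], []),
  ([5, 0], [0, 5, 7]),
  ([8, 8], []),
  ([6, 0], [0, 6, 8]),
  ([9, 9], []),
  ([7, 1], [1, 7, 9]),
  ([10, 10], []),
  ([7, 2], [2, 7, 10]),
  ([3, 0], [0, 3]),
  ([4, 0], [0, 4]),
  ([5, 1], [1, 5]),
  ([7, 0], [0, 7]),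
  ([6, 1], [1, 6]),
  ([3, 1], [1, 3]),
  ([4, 2], [2, 4]),
  ([5, 2], [2, 5]),
  ([6, 4], [4, 6]),
  ([7, 5], [5, 7]),
  ([8, 6], [6, 8]),
  ([9, 7], [7, 9]),
  ([10, 7], [7, 10]),
  ([9, 5], [5, 9]),
  ([9, 3], [3, 9]),
  ([8, 0], [0, 8]),
  ([9, 0], [0, 9]),
  ([9, 1], [1, 9]),
  ([10, 2], [2, 10]),
  ([7, 3], [3, 7]),
  ([5, 3], [3, 5, 9]),
  ([4, 3], [3, 4, 8]),
  ([10, 0], [0, 10]),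
  ([8, 4], [4, 8]),
  ([6, 5], [5, 6]),
  ([6, 3], [3, 6]),
  ([10, 5], [5, 10]),
  ([10, 4], [4, 10]),
  ([8, 7], [7, 8]),
  ([8, 2], [2, 8]),
  ([7, 4], [4, 7]),
  ([8, 3], [3, 8]),
  ([8, 1], [1, 8]),
  ([5, 4], [4, 5, 10]),
  ([10, 6], [6, 10]),
  ([10, 8], [8, 10]),
  ([10, 9], [9, 10]),
  ([9, 8], [8, 9]),
  ([10, 1], [1, 10]),
  ([7, 6], [6, 7]),
  ([9, 4], [4, 9]),
  ([10, 3], [3, 10]),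
  ([9, 2], [2, 9]),
  ([6, 2], [2, 6, 10]),
  ([3, 2], [2, 3, 6, 7, 8, 9, 10]),
  ([9, 6], [6, 9]),
  ([8, 5], [5, 8])]⟩

/-- The theories used. -/
def ths : List Th := [R2]

set_option maxRecDepth 100000 in
/-- The facts. -/
noncomputable def db : Tr :=
(.nd (.nd (.nd (.nd (.nd (.nd (.nd (.nd (.lf ⟨(nat_lit 65), (nat_lit 2), (nat_lit 0), (nat_lit 0)⟩)
(.lf ⟨(nat_lit 201), (nat_lit 2), (nat_lit 579), (nat_lit 2)⟩))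
(.lf ⟨(nat_lit 0x182046081), (nat_lit 6), (nat_lit 0x46081182), (nat_lit 6)⟩))
(.nd (.lf ⟨(nat_lit 0xc80c8), (nat_lit 4), (nat_lit 0x203203), (nat_lit 4)⟩)
(.lf ⟨(nat_lit 0x4206), (nat_lit 3), (nat_lit 0x288184), (nat_lit 4)⟩)))
(.nd (.nd (.nd (.lf ⟨(nat_lit 67), (nat_lit 2), (nat_lit 0x50c1), (nat_lit 3)⟩)
(.lf ⟨(nat_lit 393), (nat_lit 2), (nat_lit 0x247207207207206), (nat_lit 10)⟩))
(.lf ⟨(nat_lit 72), (nat_lit 2), (nat_lit 513), (nat_lit 2)⟩))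
(.nd (.lf ⟨(nat_lit 0x141141), (nat_lit 4), (nat_lit 0x45045), (nat_lit 4)⟩)
(.lf ⟨(nat_lit 199), (nat_lit 2), (nat_lit 0x1c6146143), (nat_lit 6)⟩))))
(.nd (.nd (.nd (.nd (.lf ⟨(nat_lit 9), (nat_lit 1), (nat_lit 0x47047), (nat_lit 4)⟩)
(.lf ⟨(nat_lit 202), (nat_lit 2), (nat_lit 0x2072072881c81c3), (nat_lit 10)⟩))
(.lf ⟨(nat_lit 203), (nat_lit 2), (nat_lit 0x20b20b20b203), (nat_lit 8)⟩))
(.nd (.lf ⟨(nat_lit 0xc10c1), (nat_lit 4), (nat_lit 0x43043), (nat_lit 4)⟩)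
(.lf ⟨(nat_lit 262), (nat_lit 2), (nat_lit 0xa184), (nat_lit 3)⟩)))
(.nd (.nd (.nd (.lf ⟨(nat_lit 520), (nat_lit 2), (nat_lit 0), (nat_lit 0)⟩)
(.lf ⟨(nat_lit 199), (nat_lit 2), (nat_lit 0xb1c3), (nat_lit 3)⟩))
(.lf ⟨(nat_lit 457), (nat_lit 2), (nat_lit 583), (nat_lit 2)⟩))
(.nd (.lf ⟨(nat_lit 0xc60c6), (nat_lit 4), (nat_lit 0x183183), (nat_lit 4)⟩)
(.lf ⟨(nat_lit 263), (nat_lit 2), (nat_lit 452), (nat_lit 2)⟩)))))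
(.nd (.nd (.nd (.nd (.nd (.lf ⟨(nat_lit 5), (nat_lit 1), (nat_lit 0x43043), (nat_lit 4)⟩)
(.lf ⟨(nat_lit 137), (nat_lit 2), (nat_lit 578), (nat_lit 2)⟩))
(.lf ⟨(nat_lit 0x202202), (nat_lit 4), (nat_lit 0x88088), (nat_lit 4)⟩))
(.nd (.lf ⟨(nat_lit 130), (nat_lit 2), (nat_lit 0), (nat_lit 0)⟩)
(.lf ⟨(nat_lit 138), (nat_lit 2), (nat_lit 642), (nat_lit 2)⟩)))
(.nd (.nd (.nd (.lf ⟨(nat_lit 0x85085), (nat_lit 4), (nat_lit 0x142142), (nat_lit 4)⟩)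
(.lf ⟨(nat_lit 456), (nat_lit 2), (nat_lit 519), (nat_lit 2)⟩))
(.lf ⟨(nat_lit 198), (nat_lit 2), (nat_lit 387), (nat_lit 2)⟩))
(.nd (.lf ⟨(nat_lit 72), (nat_lit 2), (nat_lit 0x188188188181), (nat_lit 8)⟩)
(.lf ⟨(nat_lit 196), (nat_lit 2), (nat_lit 0x2c814b1891c5286103), (nat_lit 12)⟩))))
(.nd (.nd (.nd (.nd (.lf ⟨(nat_lit 260), (nat_lit 2), (nat_lit 0), (nat_lit 0)⟩)
(.lf ⟨(nat_lit 459), (nat_lit 2), (nat_lit 711), (nat_lit 2)⟩))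
(.lf ⟨(nat_lit 0x146146), (nat_lit 4), (nat_lit 0x185185), (nat_lit 4)⟩))
(.nd (.lf ⟨(nat_lit 260), (nat_lit 2), (nat_lit 0), (nat_lit 0)⟩)
(.lf ⟨(nat_lit 0x141085042), (nat_lit 6), (nat_lit 0x85042141), (nat_lit 6)⟩)))
(.nd (.nd (.lf ⟨(nat_lit 71), (nat_lit 2), (nat_lit 0x91c1), (nat_lit 3)⟩)
(.lf ⟨(nat_lit 394), (nat_lit 2), (nat_lit 646), (nat_lit 2)⟩))
(.nd (.lf ⟨(nat_lit 520), (nat_lit 2), (nat_lit 0), (nat_lit 0)⟩)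
(.lf ⟨(nat_lit 267), (nat_lit 2), (nat_lit 0x2862472c8247288184), (nat_lit 12)⟩))))))
(.nd (.nd (.nd (.nd (.nd (.nd (.lf ⟨(nat_lit 195), (nat_lit 2), (nat_lit 0), (nat_lit 0)⟩)
(.lf ⟨(nat_lit 328), (nat_lit 2), (nat_lit 517), (nat_lit 2)⟩))
(.lf ⟨(nat_lit 0x1c21c2), (nat_lit 4), (nat_lit 0x87087), (nat_lit 4)⟩))
(.nd (.lf ⟨(nat_lit 200), (nat_lit 2), (nat_lit 0xb203), (nat_lit 3)⟩)
(.lf ⟨(nat_lit 73), (nat_lit 2), (nat_lit 577), (nat_lit 2)⟩)))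
(.nd (.nd (.nd (.lf ⟨(nat_lit 390), (nat_lit 2), (nat_lit 0), (nat_lit 0)⟩)
(.lf ⟨(nat_lit 0x1c81c8), (nat_lit 4), (nat_lit 0x207207), (nat_lit 4)⟩))
(.lf ⟨(nat_lit 132), (nat_lit 2), (nat_lit 258), (nat_lit 2)⟩))
(.nd (.lf ⟨(nat_lit 390), (nat_lit 2), (nat_lit 0), (nat_lit 0)⟩)
(.lf ⟨(nat_lit 75), (nat_lit 2), (nat_lit 705), (nat_lit 2)⟩))))
(.nd (.nd (.nd (.nd (.lf ⟨(nat_lit 11), (nat_lit 1), (nat_lit 0xc80c8), (nat_lit 4)⟩)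
(.lf ⟨(nat_lit 199), (nat_lit 2), (nat_lit 0x72c3), (nat_lit 3)⟩))
(.lf ⟨(nat_lit 0x105105), (nat_lit 4), (nat_lit 0x144144), (nat_lit 4)⟩))
(.nd (.lf ⟨(nat_lit 0xc20c2), (nat_lit 4), (nat_lit 0x83083), (nat_lit 4)⟩)
(.lf ⟨(nat_lit 0x1830460c1), (nat_lit 6), (nat_lit 0x460c1183), (nat_lit 6)⟩)))
(.nd (.nd (.nd (.lf ⟨(nat_lit 0x47047), (nat_lit 4), (nat_lit 0x1c11c1), (nat_lit 4)⟩)
(.lf ⟨(nat_lit 458), (nat_lit 2), (nat_lit 647), (nat_lit 2)⟩))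
(.lf ⟨(nat_lit 522), (nat_lit 2), (nat_lit 648), (nat_lit 2)⟩))
(.nd (.lf ⟨(nat_lit 0x1c11c1), (nat_lit 4), (nat_lit 0x47047), (nat_lit 4)⟩)
(.lf ⟨(nat_lit 0x5288), (nat_lit 3), (nat_lit 0xb2052ca), (nat_lit 5)⟩)))))
(.nd (.nd (.nd (.nd (.nd (.lf ⟨(nat_lit 7), (nat_lit 1), (nat_lit 0x85085), (nat_lit 4)⟩)
(.lf ⟨(nat_lit 326), (nat_lit 2), (nat_lit 0xb185), (nat_lit 3)⟩))
(.lf ⟨(nat_lit 0x141141), (nat_lit 4), (nat_lit 0), (nat_lit 0)⟩))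
(.nd (.lf ⟨(nat_lit 68), (nat_lit 2), (nat_lit 0x84084084081), (nat_lit 8)⟩)
(.lf ⟨(nat_lit 196), (nat_lit 2), (nat_lit 0x5206247144183), (nat_lit 9)⟩)))
(.nd (.nd (.nd (.lf ⟨(nat_lit 133), (nat_lit 2), (nat_lit 0x7142), (nat_lit 3)⟩)
(.lf ⟨(nat_lit 267), (nat_lit 2), (nat_lit 708), (nat_lit 2)⟩))
(.lf ⟨(nat_lit 392), (nat_lit 2), (nat_lit 518), (nat_lit 2)⟩))
(.nd (.lf ⟨(nat_lit 135), (nat_lit 2), (nat_lit 0x147147147142), (nat_lit 8)⟩)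
(.lf ⟨(nat_lit 391), (nat_lit 2), (nat_lit 454), (nat_lit 2)⟩))))
(.nd (.nd (.nd (.nd (.lf ⟨(nat_lit 0x43043), (nat_lit 4), (nat_lit 0xc10c1), (nat_lit 4)⟩)
(.lf ⟨(nat_lit 651), (nat_lit 2), (nat_lit 714), (nat_lit 2)⟩))
(.lf ⟨(nat_lit 69), (nat_lit 2), (nat_lit 321), (nat_lit 2)⟩))
(.nd (.lf ⟨(nat_lit 0x84084), (nat_lit 4), (nat_lit 0x102102), (nat_lit 4)⟩)
(.lf ⟨(nat_lit 0x143143), (nat_lit 4), (nat_lit 0), (nat_lit 0)⟩)))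
(.nd (.nd (.lf ⟨(nat_lit 650), (nat_lit 2), (nat_lit 0), (nat_lit 0)⟩)
(.lf ⟨(nat_lit 75), (nat_lit 2), (nat_lit 0x14b205201), (nat_lit 6)⟩))
(.nd (.lf ⟨(nat_lit 0x188188), (nat_lit 4), (nat_lit 0x206206), (nat_lit 4)⟩)
(.lf ⟨(nat_lit 330), (nat_lit 2), (nat_lit 0x2072881c5), (nat_lit 6)⟩)))))))
(.nd (.nd (.nd (.nd (.nd (.nd (.nd (.lf ⟨(nat_lit 130), (nat_lit 2), (nat_lit 0), (nat_lit 0)⟩)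
(.lf ⟨(nat_lit 0x5189), (nat_lit 3), (nat_lit 0x72892072071891891c81ca207146), (nat_lit 19)⟩))
(.lf ⟨(nat_lit 74), (nat_lit 2), (nat_lit 0x18818a20610210a206288081), (nat_lit 16)⟩))
(.nd (.lf ⟨(nat_lit 715), (nat_lit 2), (nat_lit 0), (nat_lit 0)⟩)
(.lf ⟨(nat_lit 137), (nat_lit 2), (nat_lit 0x1091c41c2), (nat_lit 6)⟩)))
(.nd (.nd (.nd (.lf ⟨(nat_lit 0x83083), (nat_lit 4), (nat_lit 0xc20c2), (nat_lit 4)⟩)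
(.lf ⟨(nat_lit 586), (nat_lit 2), (nat_lit 649), (nat_lit 2)⟩))
(.lf ⟨(nat_lit 135), (nat_lit 2), (nat_lit 450), (nat_lit 2)⟩))
(.nd (.lf ⟨(nat_lit 0xc50c5), (nat_lit 4), (nat_lit 0x143143), (nat_lit 4)⟩)
(.lf ⟨(nat_lit 265), (nat_lit 2), (nat_lit 0x149149149144), (nat_lit 8)⟩))))
(.nd (.nd (.nd (.nd (.lf ⟨(nat_lit 10), (nat_lit 1), (nat_lit 0x88088), (nat_lit 4)⟩)
(.lf ⟨(nat_lit 0x189189), (nat_lit 4), (nat_lit 0x2472072881cb1892c72881c81c6), (nat_lit 18)⟩))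
(.lf ⟨(nat_lit 0x144144), (nat_lit 4), (nat_lit 0x105105), (nat_lit 4)⟩))
(.nd (.lf ⟨(nat_lit 69), (nat_lit 2), (nat_lit 0xc50c50c50c1), (nat_lit 8)⟩)
(.lf ⟨(nat_lit 0x183183), (nat_lit 4), (nat_lit 0), (nat_lit 0)⟩)))
(.nd (.nd (.nd (.lf ⟨(nat_lit 70), (nat_lit 2), (nat_lit 0x8181), (nat_lit 3)⟩)
(.lf ⟨(nat_lit 196), (nat_lit 2), (nat_lit 0xb289207103), (nat_lit 7)⟩))
(.lf ⟨(nat_lit 0x41c5), (nat_lit 3), (nat_lit 0x247144), (nat_lit 4)⟩))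
(.nd (.lf ⟨(nat_lit 455), (nat_lit 2), (nat_lit 0), (nat_lit 0)⟩)
(.lf ⟨(nat_lit 395), (nat_lit 2), (nat_lit 710), (nat_lit 2)⟩)))))
(.nd (.nd (.nd (.nd (.nd (.lf ⟨(nat_lit 6), (nat_lit 1), (nat_lit 0x83083), (nat_lit 4)⟩)
(.lf ⟨(nat_lit 196), (nat_lit 2), (nat_lit 0x2072892072071891891c81ca1c81ca207207185185103), (nat_lit 30)⟩))
(.lf ⟨(nat_lit 138), (nat_lit 2), (nat_lit 0x20a20a20a202), (nat_lit 8)⟩))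
(.nd (.lf ⟨(nat_lit 0x81081), (nat_lit 4), (nat_lit 0x42042), (nat_lit 4)⟩)
(.lf ⟨(nat_lit 203), (nat_lit 2), (nat_lit 707), (nat_lit 2)⟩)))
(.nd (.nd (.nd (.lf ⟨(nat_lit 455), (nat_lit 2), (nat_lit 0), (nat_lit 0)⟩)
(.lf ⟨(nat_lit 330), (nat_lit 2), (nat_lit 645), (nat_lit 2)⟩))
(.lf ⟨(nat_lit 327), (nat_lit 2), (nat_lit 453), (nat_lit 2)⟩))
(.nd (.lf ⟨(nat_lit 0x142142), (nat_lit 4), (nat_lit 0x85085), (nat_lit 4)⟩)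
(.lf ⟨(nat_lit 329), (nat_lit 2), (nat_lit 581), (nat_lit 2)⟩))))
(.nd (.nd (.nd (.nd (.lf ⟨(nat_lit 66), (nat_lit 2), (nat_lit 0x4081), (nat_lit 3)⟩)
(.lf ⟨(nat_lit 587), (nat_lit 2), (nat_lit 713), (nat_lit 2)⟩))
(.lf ⟨(nat_lit 68), (nat_lit 2), (nat_lit 257), (nat_lit 2)⟩))
(.nd (.lf ⟨(nat_lit 0x101101), (nat_lit 4), (nat_lit 0x44044), (nat_lit 4)⟩)
(.lf ⟨(nat_lit 261), (nat_lit 2), (nat_lit 0x9144), (nat_lit 3)⟩)))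
(.nd (.nd (.lf ⟨(nat_lit 0x88088), (nat_lit 4), (nat_lit 0x202202), (nat_lit 4)⟩)
(.lf ⟨(nat_lit 0x4288), (nat_lit 3), (nat_lit 0xa204), (nat_lit 3)⟩))
(.nd (.lf ⟨(nat_lit 0x201201), (nat_lit 4), (nat_lit 0x48048), (nat_lit 4)⟩)
(.lf ⟨(nat_lit 202), (nat_lit 2), (nat_lit 0x2051891c824a1c6143), (nat_lit 12)⟩))))))
(.nd (.nd (.nd (.nd (.nd (.nd (.lf ⟨(nat_lit 4), (nat_lit 1), (nat_lit 0x42042), (nat_lit 4)⟩)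
(.lf ⟨(nat_lit 265), (nat_lit 2), (nat_lit 580), (nat_lit 2)⟩))
(.lf ⟨(nat_lit 0x147147), (nat_lit 4), (nat_lit 0x1c51c5), (nat_lit 4)⟩))
(.nd (.lf ⟨(nat_lit 65), (nat_lit 2), (nat_lit 0), (nat_lit 0)⟩)
(.lf ⟨(nat_lit 74), (nat_lit 2), (nat_lit 641), (nat_lit 2)⟩)))
(.nd (.nd (.nd (.lf ⟨(nat_lit 131), (nat_lit 2), (nat_lit 0x60c2), (nat_lit 3)⟩)
(.lf ⟨(nat_lit 139), (nat_lit 2), (nat_lit 706), (nat_lit 2)⟩))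
(.lf ⟨(nat_lit 197), (nat_lit 2), (nat_lit 323), (nat_lit 2)⟩))
(.nd (.lf ⟨(nat_lit 0x181181), (nat_lit 4), (nat_lit 0x46046), (nat_lit 4)⟩)
(.lf ⟨(nat_lit 137), (nat_lit 2), (nat_lit 0x1491491491441c41c2), (nat_lit 12)⟩))))
(.nd (.nd (.nd (.nd (.lf ⟨(nat_lit 0x42042), (nat_lit 4), (nat_lit 0x81081), (nat_lit 4)⟩)
(.lf ⟨(nat_lit 196), (nat_lit 2), (nat_lit 0xb20624b1c81c81ca2072072c6103), (nat_lit 19)⟩))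
(.lf ⟨(nat_lit 0x185185), (nat_lit 4), (nat_lit 0x146146), (nat_lit 4)⟩))
(.nd (.lf ⟨(nat_lit 134), (nat_lit 2), (nat_lit 0xc60c60c60c2), (nat_lit 8)⟩)
(.lf ⟨(nat_lit 328), (nat_lit 2), (nat_lit 0x2c814b), (nat_lit 4)⟩)))
(.nd (.nd (.nd (.lf ⟨(nat_lit 585), (nat_lit 2), (nat_lit 0), (nat_lit 0)⟩)
(.lf ⟨(nat_lit 393), (nat_lit 2), (nat_lit 582), (nat_lit 2)⟩))
(.lf ⟨(nat_lit 523), (nat_lit 2), (nat_lit 712), (nat_lit 2)⟩))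
(.nd (.lf ⟨(nat_lit 73), (nat_lit 2), (nat_lit 0x1c91c91c91c1), (nat_lit 8)⟩)
(.lf ⟨(nat_lit 331), (nat_lit 2), (nat_lit 709), (nat_lit 2)⟩)))))
(.nd (.nd (.nd (.nd (.nd (.lf ⟨(nat_lit 8), (nat_lit 1), (nat_lit 0x46046), (nat_lit 4)⟩)
(.lf ⟨(nat_lit 267), (nat_lit 2), (nat_lit 0x2862472c9207288184), (nat_lit 12)⟩))
(.lf ⟨(nat_lit 0x203203), (nat_lit 4), (nat_lit 0xc80c8), (nat_lit 4)⟩))
(.nd (.lf ⟨(nat_lit 195), (nat_lit 2), (nat_lit 0), (nat_lit 0)⟩)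
(.lf ⟨(nat_lit 264), (nat_lit 2), (nat_lit 516), (nat_lit 2)⟩)))
(.nd (.nd (.nd (.lf ⟨(nat_lit 0x46046), (nat_lit 4), (nat_lit 0x181181), (nat_lit 4)⟩)
(.lf ⟨(nat_lit 202), (nat_lit 2), (nat_lit 643), (nat_lit 2)⟩))
(.lf ⟨(nat_lit 196), (nat_lit 2), (nat_lit 0x1481841c5183), (nat_lit 8)⟩))
(.nd (.lf ⟨(nat_lit 0x182182), (nat_lit 4), (nat_lit 0x86086), (nat_lit 4)⟩)
(.lf ⟨(nat_lit 0x14b206), (nat_lit 4), (nat_lit 0x8185), (nat_lit 3)⟩))))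
(.nd (.nd (.nd (.nd (.lf ⟨(nat_lit 325), (nat_lit 2), (nat_lit 0), (nat_lit 0)⟩)
(.lf ⟨(nat_lit 458), (nat_lit 2), (nat_lit 0x24a247), (nat_lit 4)⟩))
(.lf ⟨(nat_lit 134), (nat_lit 2), (nat_lit 386), (nat_lit 2)⟩))
(.nd (.lf ⟨(nat_lit 325), (nat_lit 2), (nat_lit 0), (nat_lit 0)⟩)
(.lf ⟨(nat_lit 0x1430850c2), (nat_lit 6), (nat_lit 0x850c2143), (nat_lit 6)⟩)))
(.nd (.nd (.lf ⟨(nat_lit 136), (nat_lit 2), (nat_lit 0xa202), (nat_lit 3)⟩)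
(.lf ⟨(nat_lit 266), (nat_lit 2), (nat_lit 644), (nat_lit 2)⟩))
(.nd (.lf ⟨(nat_lit 0x182182), (nat_lit 4), (nat_lit 0), (nat_lit 0)⟩)
(.lf ⟨(nat_lit 521), (nat_lit 2), (nat_lit 584), (nat_lit 2)⟩))))))))

end Pool.Agent.Lib.MP_3b0e0c_al.S.T3
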