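import Pool.Agent.Lib.MP_3b0e0c_al.S.KB
import Mathlib.Algebra.Group.Basic

namespace Pool.Agent.Lib.MP_3b0e0c_al.S

/-- Products of two involutions have order dividing 4. -/
def R2 : Th := ⟨[([0, 0], []), ([1, 1], [])], [([0, 1, 0, 1], [1, 0, 1, 0])]⟩

/-- Products of three involutions have order dividing 4. -/
def R3 : Th := ⟨[([0, 0], []), ([1, 1], []), ([2, 2], [])],
  [([0, 1, 2, 0, 1, 2], [2, 1, 0, 2, 1, 0])]⟩

variable {G : Type*} [Group G]

lemma valid_R2 (h : ∀ a b : G, a * a = 1 → b * b = 1 → (a * b) ^ 4 = 1) : Valid G R2 := by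
  intro g hh
  simp only [R2, Eqn, evL, List.forall_mem_cons, List.map, List.prod_cons, List.prod_nil, mul_one,
    List.not_mem_nil, IsEmpty.forall_iff, implies_true, and_true] at hh ⊢
  have := h _ _ hh.1 hh.2
  rw [show 4 = 2 + 2 from rfl, pow_add, mul_eq_one_iff_eq_inv, ← inv_pow, mul_inv_rev,
    inv_eq_of_mul_eq_one_right hh.1, inv_eq_of_mul_eq_one_right hh.2] at this
  simpa only [pow_two, mul_assoc] using this

lemma valid_R3 (h : ∀ a b c : G, a * a = 1 → b * b = 1 → c * c = 1 → (a * b * c) ^ 4 = 1) :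
    Valid G R3 := by
  intro g hh
  simp only [R3, Eqn, evL, List.forall_mem_cons, List.map, List.prod_cons, List.prod_nil, mul_one,
    List.not_mem_nil, IsEmpty.forall_iff, implies_true, and_true] at hh ⊢
  have := h _ _ _ hh.1 hh.2.1 hh.2.2
  rw [show 4 = 2 + 2 from rfl, pow_add, mul_eq_one_iff_eq_inv, ← inv_pow, mul_inv_rev, mul_inv_rev,
    inv_eq_of_mul_eq_one_right hh.1, inv_eq_of_mul_eq_one_right hh.2.1,
    inv_eq_of_mul_eq_one_right hh.2.2] at this
  simpa only [pow_two, mul_assoc] using this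

end Pool.Agent.Lib.MP_3b0e0c_al.S
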