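import Mathlib.Topology.Compactness.Compact
import Mathlib.Topology.Constructions
import Mathlib.Topology.Instances.Discrete
import Mathlib.Order.PiLex
import Mathlib.Order.Zorn
import Mathlib.Data.Fintype.Pigeonhole
import Mathlib.Tactic.Linarith
import Mathlib.Tactic.Ring

/-! Lyndon words: factorization, and an unavoidable pattern `u z u` in infinite words. -/

namespace Pool.Agent.Lib.MP_3b0e0c_al.S

variable {α : Type*} [LinearOrder α]

/-- Shift of an infinite word. -/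
def sh (k : ℕ) (y : ℕ → α) : ℕ → α := fun t => y (k + t)

/-- The first `n` letters of `y` form a Lyndon word. -/
def Lyn (y : ℕ → α) (n : ℕ) : Prop :=
  0 < n ∧ ∀ k, 0 < k → k < n → ∃ m, k + m < n ∧ (∀ t < m, y t = y (k + t)) ∧ y m < y (k + m)

lemma Lyn.congr {y y' : ℕ → α} {n : ℕ} (h : Lyn y n) (e : ∀ t < n, y' t = y t) : Lyn y' n := by
  refine ⟨h.1, fun k h0 hk => ?_⟩
  obtain ⟨m, h1, h2, h3⟩ := h.2 k h0 hk
  refine ⟨m, h1, fun t ht => ?_, ?_⟩
  · rw [e _ (by omega), e _ (by omega)]; exact h2 t ht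
  · rw [e _ (by omega), e _ (by omega)]; exact h3

lemma Lyn.one (y : ℕ → α) : Lyn y 1 := ⟨one_pos, fun k h0 h1 => by omega⟩

lemma Lyn.split {y : ℕ → α} {n : ℕ} (h : Lyn y n) (hn : 2 ≤ n) :
    ∃ k, 0 < k ∧ k < n ∧ Lyn y k ∧ Lyn (sh k y) (n - k) := by
  let f : ℕ → Lex (ℕ → WithBot α) := fun k => toLex fun t => if k + t < n then (y (k + t) : WithBot α) else ⊥
  obtain ⟨k, hk, hmin⟩ := (Finset.Ioo 0 n).exists_min_image f ⟨1, by simp; omega⟩
  simp only [Finset.mem_Ioo] at hk hmin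
  have key : ∀ j, 0 < j → j < n → ∀ m, k + m < n → (∀ t < m, j + t < n ∧ y (j + t) = y (k + t)) →
      j + m < n ∧ y (k + m) ≤ y (j + m) := by
    intro j h0 h1 m hm ht
    by_contra hc
    refine (hmin j ⟨h0, h1⟩).not_gt ⟨m, fun t htm => ?_, ?_⟩
    · have := ht t htm
      have h2 : k + t < n := by omega
      simp [f, this.1, this.2, h2]
    · by_cases h2 : j + m < n
      · have : y (j + m) < y (k + m) := not_le.1 fun e => hc ⟨h2, e⟩
        simp [f, h2, hm, this]
      · simp [f, h2, hm]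
  refine ⟨k, hk.1, hk.2, ⟨hk.1, fun j h0 h1 => ?_⟩, ⟨by omega, fun j h0 h1 => ?_⟩⟩
  · obtain ⟨m, a1, a2, a3⟩ := h.2 j h0 (by omega)
    by_cases hm : j + m < k
    · exact ⟨m, hm, a2, a3⟩
    exfalso
    have := (key (k - j) (by omega) (by omega) (m - (k - j)) (by omega) fun t ht =>
      ⟨by omega, by rw [a2 _ (by omega)]; congr 1; omega⟩).2
    rw [show k + (m - (k - j)) = j + m by omega, show k - j + (m - (k - j)) = m by omega] at this
    exact a3.not_ge this
  · have ex : ∃ m, ¬ (k + j + m < n ∧ y (k + j + m) = y (k + m)) := ⟨n, by omega⟩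
    classical
    have s1 := Nat.find_spec ex
    have s2 := fun t (ht : t < Nat.find ex) => not_not.1 (Nat.find_min ex ht)
    have hm : k + Nat.find ex < n := by
      rcases Nat.eq_zero_or_pos (Nat.find ex) with e | e
      · omega
      · have := (s2 (Nat.find ex - 1) (by omega)).1
        omega
    obtain ⟨b1, b2⟩ := key (k + j) (by omega) (by omega) _ hm s2
    refine ⟨Nat.find ex, by omega, fun t ht => ?_, ?_⟩
    · simp only [sh, ← add_assoc]; exact (s2 t ht).2.symm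
    · simp only [sh, ← add_assoc]
      exact lt_of_le_of_ne b2 fun e => s1 ⟨b1, e.symm⟩

/-- `y` contains a factor `u z u` with `u` Lyndon and `z` empty or Lyndon. -/
def Pat (y : ℕ → α) : Prop :=
  ∃ i a b, Lyn (sh i y) a ∧ (b = 0 ∨ Lyn (sh (i + a) y) b) ∧
    ∀ t < a, y (i + a + b + t) = y (i + t)

lemma pat_of_min [Finite α] (M : ℕ → α)
    (hmin : ∀ p m, (∀ t < m, M (p + t) = M t) → M m ≤ M (p + m))
    (hrec : ∀ n, ∃ p, 0 < p ∧ ∀ t < n, M (p + t) = M t) : Pat M := by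
  classical
  by_contra hP
  have unb : ∀ n, 0 < n → (∀ k, 0 < k → k < n → ¬ ∀ t < n - k, M (k + t) = M t) → Lyn M n := by
    intro n h0 h
    refine ⟨h0, fun k k0 kn => ?_⟩
    have ex : ∃ m, m < n - k ∧ M (k + m) ≠ M m := by
      simpa using h k k0 kn
    have s1 := Nat.find_spec ex
    have s2 : ∀ t < Nat.find ex, M (k + t) = M t := fun t ht => by
      have := Nat.find_min ex ht
      by_contra e
      exact this ⟨by omega, e⟩
    exact ⟨Nat.find ex, by omega, fun t ht => (s2 t ht).symm,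
      lt_of_le_of_ne (hmin k _ s2) s1.2.symm⟩
  let P : ℕ → ℕ := fun n => Nat.find (hrec n)
  have P1 : ∀ n, 0 < P n ∧ ∀ t < n, M (P n + t) = M t := fun n => Nat.find_spec (hrec n)
  have P2 : ∀ n k, 0 < k → k < P n → ¬ ∀ t < n, M (k + t) = M t := fun n k k0 hk e =>
    Nat.find_min (hrec n) hk ⟨k0, e⟩
  have P3 : ∀ n, 0 < n → Lyn M (P n - 1) := by
    intro n n0
    have h2 : 1 < P n := by
      by_contra e
      have e1 : P n = 1 := by have := (P1 n).1; omega
      refine hP ⟨0, 1, 0, Lyn.one _, Or.inl rfl, fun t ht => ?_⟩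
      have := (P1 n).2 t (by omega)
      rw [e1] at this
      simpa using this
    refine unb _ (by omega) fun k k0 kn e => ?_
    have ex : ∃ b, 0 < b ∧ b < P n - 1 ∧ ∀ t < b, M (P n - 1 - b + t) = M t :=
      ⟨P n - 1 - k, by omega, by omega, fun t ht => by
        rw [show P n - 1 - (P n - 1 - k) = k by omega]; exact e t ht⟩
    obtain ⟨s1, s2, s3⟩ := Nat.find_spec ex
    set b := Nat.find ex with hb
    have hL : Lyn M b := by
      refine unb _ s1 fun j j0 jb e' => ?_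
      refine Nat.find_min ex (m := b - j) (by omega) ⟨by omega, by omega, fun t ht => ?_⟩
      rw [← e' t ht, ← s3 (j + t) (by omega)]
      congr 1; omega
    have hbn : b < n := by
      by_contra hh
      exact P2 n (P n - 1 - b) (by omega) (by omega) fun t ht => s3 t (by omega)
    refine hP ⟨P n - 1 - b, b, 1, hL.congr s3, Or.inr (Lyn.one _), fun t ht => ?_⟩
    rw [s3 t ht, ← (P1 n).2 t (by omega)]
    congr 1; omega
  obtain ⟨l, hl⟩ := Finite.exists_infinite_fiber fun n => M (P (n + 1) - 1)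
  have hl' : (Set.preimage (fun n => M (P (n + 1) - 1)) {l}).Infinite := Set.infinite_coe_iff.1 hl
  obtain ⟨n0, h0⟩ := hl'.nonempty
  obtain ⟨n, h1, h2⟩ := hl'.exists_gt (P (n0 + 1))
  simp only [Set.mem_preimage, Set.mem_singleton_iff] at h0 h1
  have p0 := (P1 (n0 + 1)).1
  have p1 := P1 (n + 1)
  refine hP ⟨P (n + 1) - 1, 1, P (n0 + 1) - 1, Lyn.one _,
    Or.inr ((P3 (n0 + 1) (by omega)).congr fun t ht => ?_), fun t ht => ?_⟩
  · rw [← p1.2 t (by omega), sh]; congr 1; omega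
  · obtain rfl : t = 0 := by omega
    rw [add_zero, add_zero, h1, ← h0, ← p1.2 (P (n0 + 1) - 1) (by omega)]
    congr 1; omega

section Top

variable [TopologicalSpace α] [DiscreteTopology α]

omit [LinearOrder α] in
lemma open_of_loc {A : Set (ℕ → α)}
    (h : ∀ y ∈ A, ∃ N, ∀ y', (∀ t < N, y' t = y t) → y' ∈ A) : IsOpen A := by
  refine isOpen_iff_forall_mem_open.2 fun y hy => ?_
  obtain ⟨N, hN⟩ := h y hy
  refine ⟨Set.pi (Set.Iio N) fun t => {y t}, fun y' hy' => hN y' fun t ht => hy' t ht,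
    isOpen_set_pi (Set.finite_Iio N) fun _ _ => isOpen_discrete _, fun t _ => rfl⟩

lemma exists_lexmin [Finite α] {Y : Set (ℕ → α)} (hY : IsClosed Y) (hne : Y.Nonempty) :
    ∃ M ∈ Y, ∀ y ∈ Y, toLex M ≤ toLex y := by
  have := hne.to_subtype
  have hc : ∀ c : Y, IsClosed (Y ∩ {y | toLex y ≤ toLex c.1}) := by
    intro c
    refine hY.inter (isOpen_compl_iff.1 (open_of_loc fun y hy => ?_))
    have hy' : toLex c.1 < toLex y := not_le.1 (show ¬ toLex y ≤ toLex c.1 from hy)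
    obtain ⟨m, h1, h2⟩ := hy'
    refine ⟨m + 1, fun y' e => show ¬ toLex y' ≤ toLex c.1 from
      not_le.2 (show toLex c.1 < toLex y' from ⟨m, fun t ht => ?_, ?_⟩)⟩
    · exact (h1 t ht).trans (e t (by omega)).symm
    · exact h2.trans_eq (e m (by omega)).symm
  obtain ⟨M, hM⟩ := IsCompact.nonempty_iInter_of_directed_nonempty_isCompact_isClosed
    (fun c : Y => Y ∩ {y | toLex y ≤ toLex c.1}) (fun c d => by
      rcases le_total (toLex c.1) (toLex d.1) with e | e
      · exact ⟨c, le_rfl, fun y hy => ⟨hy.1, le_trans hy.2 e⟩⟩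
      · exact ⟨d, fun y hy => ⟨hy.1, le_trans hy.2 e⟩, le_rfl⟩)
    (fun c => ⟨c.1, c.2, le_refl (toLex c.1)⟩) (fun c => (hc c).isCompact) hc
  rw [Set.mem_iInter] at hM
  exact ⟨M, (hM ⟨_, hne.some_mem⟩).1, fun y hy => (hM ⟨y, hy⟩).2⟩

end Top

lemma Pat.of_sh {y : ℕ → α} {p : ℕ} (h : Pat (sh p y)) : Pat y := by
  obtain ⟨i, a, b, h1, h2, h3⟩ := h
  refine ⟨p + i, a, b, h1.congr fun t _ => by simp [sh, add_assoc],
    h2.imp_right fun h => h.congr fun t _ => by simp [sh, add_assoc], fun t ht => ?_⟩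
  simpa [sh, add_assoc] using h3 t ht

theorem pat [Finite α] (x : ℕ → α) : Pat x := by
  let _ : TopologicalSpace α := ⊥
  have : DiscreteTopology α := ⟨rfl⟩
  by_contra hx
  let S : Set (Set (ℕ → α)) :=
    {Y | Y.Nonempty ∧ IsClosed Y ∧ (∀ y ∈ Y, ∀ p, sh p y ∈ Y) ∧ ∀ y ∈ Y, ¬ Pat y}
  have h0 : {y | ¬ Pat y} ∈ S := by
    refine ⟨⟨x, hx⟩, isOpen_compl_iff.1 (open_of_loc fun y hy => ?_),
      fun y hy p h => hy h.of_sh, fun y hy => hy⟩
    obtain ⟨i, a, b, h1, h2, h3⟩ := not_not.1 hy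
    refine ⟨i + a + b + a, fun y' e => not_not.2 ⟨i, a, b, h1.congr fun t _ => e _ (by omega),
      h2.imp_right fun h => h.congr fun t _ => e _ (by omega), fun t ht => ?_⟩⟩
    rw [e _ (by omega), e _ (by omega), h3 t ht]
  obtain ⟨Y, -, hY⟩ := zorn_superset_nonempty S (fun c hc hch hne => by
    have := hne.to_subtype
    refine ⟨⋂₀ c, ⟨?_, isClosed_sInter fun Y hY => (hc hY).2.1,
      fun y hy p Y hY => (hc hY).2.2.1 y (hy Y hY) p,
      fun y hy => (hc hne.some_mem).2.2.2 y (hy _ hne.some_mem)⟩,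
      fun s hs => Set.sInter_subset_of_mem hs⟩
    exact IsCompact.nonempty_sInter_of_directed_nonempty_isCompact_isClosed
      (fun A hA B hB => (hch.total hA hB).elim (fun e => ⟨A, hA, le_rfl, e⟩)
        fun e => ⟨B, hB, e, le_rfl⟩) (fun Y hY => (hc hY).1) (fun Y hY => (hc hY).2.1.isCompact)
      fun Y hY => (hc hY).2.1) _ h0
  obtain ⟨a1, a2, a3, a4⟩ := hY.prop
  obtain ⟨M, hM, hmin⟩ := exists_lexmin a2 a1
  refine a4 M hM (pat_of_min M (fun p m h => ?_) fun n => ?_)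
  · by_contra e
    exact (hmin _ (a3 M hM p)).not_gt ⟨m, h, not_le.1 e⟩
  · by_contra e
    have hS : Y ∩ {y | ∀ p, ¬ ∀ t < n, y (p + t) = M t} ∈ S := by
      refine ⟨⟨sh 1 M, a3 M hM 1, fun p h => e ⟨1 + p, by omega, fun t ht => ?_⟩⟩,
        a2.inter (isOpen_compl_iff.1 (open_of_loc fun y hy => ?_)),
        fun y hy p => ⟨a3 y hy.1 p, fun q h => hy.2 (p + q) fun t ht => ?_⟩,
        fun y hy => a4 y hy.1⟩
      · simpa [sh, add_assoc] using h t ht
      · obtain ⟨p, hp⟩ := not_forall.1 hy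
        exact ⟨p + n, fun y' e h => h p fun t ht => by
          rw [e _ (by omega), not_not.1 hp t ht]⟩
      · simpa [sh, add_assoc] using h t ht
    exact (hY.le_of_le hS Set.inter_subset_left hM).2 0 fun t _ => by rw [zero_add]

end Pool.Agent.Lib.MP_3b0e0c_al.S
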